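import Mathlib

/-!
# The extension by a square root of `-1`
-/

open Polynomial

namespace Pool.Agent.Lib.MP_2f3286_ag.UA

universe u

theorem exists_adjoin_i (F : Type u) [Field F] [NumberField F] (h : ¬ IsSquare (-1 : F)) :
    ∃ (F' : Type u) (_ : Field F') (_ : NumberField F') (_ : Algebra F F') (i : F'),
      i ^ 2 = -1 ∧ ∀ x : F', ∃ a b : F, x = algebraMap F F' a + algebraMap F F' b * i := by
  let f : F[X] := X ^ 2 - C (-1)
  have hirr : Irreducible f := X_pow_sub_C_irreducible_of_prime Nat.prime_two (by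
    intro b hb
    exact h ⟨b, by rw [← sq, hb]⟩)
  have hmon : f.Monic := monic_X_pow_sub_C _ two_ne_zero
  have hdeg : f.natDegree = 2 := natDegree_X_pow_sub_C
  have : Fact (Irreducible f) := ⟨hirr⟩
  have hfin : Module.Finite F (AdjoinRoot f) := hmon.finite_adjoinRoot
  have hroot : (AdjoinRoot.root f) ^ 2 = -1 := by
    have h1 := AdjoinRoot.eval₂_root f
    rw [eval₂_sub, eval₂_pow, eval₂_X, eval₂_C, map_neg, map_one] at h1
    linear_combination h1
  refine ⟨AdjoinRoot f, inferInstance, NumberField.of_module_finite F (AdjoinRoot f),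
    inferInstance, AdjoinRoot.root f, hroot, fun x => ?_⟩
  obtain ⟨p, rfl⟩ := AdjoinRoot.mk_surjective x
  have h1 : AdjoinRoot.mk f p = AdjoinRoot.mk f (p %ₘ f) := by
    have h2 := modByMonic_add_div p f
    conv_lhs => rw [← h2]
    rw [map_add, map_mul, AdjoinRoot.mk_self, zero_mul, add_zero]
  have h3 : (p %ₘ f).natDegree ≤ 1 := by
    have := natDegree_modByMonic_lt p hmon (by
      intro h0
      rw [h0, natDegree_one] at hdeg
      omega)
    omega
  obtain ⟨b, a, hab⟩ := exists_eq_X_add_C_of_natDegree_le_one h3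
  refine ⟨a, b, ?_⟩
  rw [h1, hab, map_add, map_mul, AdjoinRoot.mk_X, AdjoinRoot.mk_C, AdjoinRoot.mk_C,
    AdjoinRoot.algebraMap_eq]
  ring

end Pool.Agent.Lib.MP_2f3286_ag.UA
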