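import Pool.Agent.Lib.MP_2f3286_ag.UA.DA

/-!
# Large finite sets of places

Text: the class group is finite. Choose for every class an integral ideal `J ≠ 0` in it, and let `S` be the union of `T`, the places over `2` and
the places dividing one of these `J`. For `v ∉ S` let `J` be the chosen ideal in the class of `v.asIdeal ^ (-1)`: `v.asIdeal * J = (a)` is
principal, `a` has order `1` at `v` and `0` at all other places outside `S`.
(The places containing a nonzero ideal / element form a finite set: `Ideal.finite_factors` or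
`HeightOneSpectrum.Support.finite`, ...)
-/

open NumberField IsDedekindDomain

namespace Pool.Agent.Lib.MP_2f3286_ag.UA

variable {k : Type*} [Field k] [NumberField k]

/-- finitely many places at which `x` is not a unit -/
theorem finite_ord (x : k) (hx : x ≠ 0) :
    {v : HeightOneSpectrum (𝓞 k) | ordv v x ≠ 0}.Finite := by
  refine ((HeightOneSpectrum.Support.finite (𝓞 k) x).union
    (HeightOneSpectrum.Support.finite (𝓞 k) x⁻¹)).subset ?_
  intro v hv
  have hv' : ordv v x ≠ 0 := hv
  rw [Ne, ordv_eq_zero_iff v hx] at hv'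
  rcases lt_or_gt_of_ne hv' with h | h
  · right
    show 1 < v.valuation k x⁻¹
    rw [map_inv₀]
    exact (one_lt_inv₀ (zero_lt_iff.2 ((Valuation.ne_zero_iff _).2 hx))).2 h
  · left
    exact h

/-- finitely many places over `2` -/
theorem finite_two : {v : HeightOneSpectrum (𝓞 k) | (2 : 𝓞 k) ∈ v.asIdeal}.Finite := by
  refine (Ideal.finite_factors (I := Ideal.span {(2 : 𝓞 k)}) ?_).subset ?_
  · rw [Ne, Ideal.zero_eq_bot, Ideal.span_singleton_eq_bot]
    exact two_ne_zero
  · intro v hv
    have hv' : (2 : 𝓞 k) ∈ v.asIdeal := hv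
    show v.asIdeal ∣ Ideal.span {(2 : 𝓞 k)}
    rw [Ideal.dvd_span_singleton]
    exact hv'

theorem exists_big (T : Finset (HeightOneSpectrum (𝓞 k))) :
    ∃ S : Finset (HeightOneSpectrum (𝓞 k)), T ⊆ S ∧ Big S := by
  classical
  choose J hJ using (ClassGroup.mk0_surjective (R := 𝓞 k))
  have hfin : ∀ c : ClassGroup (𝓞 k), {v : HeightOneSpectrum (𝓞 k) | v.asIdeal ∣ (J c : Ideal (𝓞 k))}.Finite :=
    fun c => Ideal.finite_factors (nonZeroDivisors.ne_zero (J c).2)
  refine ⟨T ∪ (finite_two (k := k)).toFinset ∪ Finset.univ.biUnion fun c => (hfin c).toFinset, ?_, ?_, ?_⟩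
  · intro v hv
    exact Finset.mem_union_left _ (Finset.mem_union_left _ hv)
  · intro v hv
    exact Finset.mem_union_left _ (Finset.mem_union_right _ ((Set.Finite.mem_toFinset _).2 hv))
  · intro v hv
    have hnot : ∀ w : HeightOneSpectrum (𝓞 k),
        w ∉ T ∪ (finite_two (k := k)).toFinset ∪ Finset.univ.biUnion (fun c => (hfin c).toFinset) →
        ∀ c, ¬ w.asIdeal ∣ (J c : Ideal (𝓞 k)) := by
      intro w hw c hc
      exact hw (Finset.mem_union_right _ (Finset.mem_biUnion.2
        ⟨c, Finset.mem_univ _, (Set.Finite.mem_toFinset _).2 hc⟩))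
    have hv0 : v.asIdeal ≠ 0 := v.ne_bot
    have hvm : v.asIdeal ∈ nonZeroDivisors (Ideal (𝓞 k)) := mem_nonZeroDivisors_of_ne_zero hv0
    obtain ⟨c, hc⟩ : ∃ c : ClassGroup (𝓞 k), c = (ClassGroup.mk0 ⟨v.asIdeal, hvm⟩)⁻¹ := ⟨_, rfl⟩
    have hprod : ClassGroup.mk0 (⟨v.asIdeal, hvm⟩ * J c) = 1 := by
      rw [map_mul, hJ, hc, mul_inv_cancel]
    have hprinc : (v.asIdeal * (J c : Ideal (𝓞 k))).IsPrincipal := by
      have h1 := (ClassGroup.mk0_eq_one_iff (R := 𝓞 k) (I := v.asIdeal * (J c : Ideal (𝓞 k)))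
        (mul_mem hvm (J c).2)).1 hprod
      exact h1
    obtain ⟨a, ha⟩ := hprinc
    have ha' : v.asIdeal * (J c : Ideal (𝓞 k)) = Ideal.span {a} := ha
    have hJ0 : (J c : Ideal (𝓞 k)) ≠ 0 := nonZeroDivisors.ne_zero (J c).2
    have ha0 : a ≠ 0 := by
      rintro rfl
      rw [Ideal.span_singleton_eq_bot.2 rfl, ← Ideal.zero_eq_bot] at ha'
      exact (mul_ne_zero hv0 hJ0) ha'
    have hak : algebraMap (𝓞 k) k a ≠ 0 := by
      rw [Ne, map_eq_zero_iff _ (FaithfulSMul.algebraMap_injective (𝓞 k) k)]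
      exact ha0
    refine ⟨algebraMap (𝓞 k) k a, ?_, hak, ?_⟩
    · have h1 : v.intValuation a ≤ WithZero.exp (-((1 : ℕ) : ℤ)) := by
        rw [HeightOneSpectrum.intValuation_le_pow_iff_dvd, ← ha', pow_one]
        exact dvd_mul_right _ _
      have h2 : ¬ v.intValuation a ≤ WithZero.exp (-((2 : ℕ) : ℤ)) := by
        rw [HeightOneSpectrum.intValuation_le_pow_iff_dvd, ← ha', pow_two]
        intro h
        exact hnot v hv c ((mul_dvd_mul_iff_left hv0).1 h)
      have h0 : v.intValuation a ≠ 0 := v.intValuation_ne_zero a ha0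
      unfold ordv
      rw [HeightOneSpectrum.valuation_of_algebraMap]
      rw [← WithZero.exp_log h0, WithZero.exp_le_exp] at h1 h2
      push_cast at h1 h2
      omega
    · intro w hw hwv
      rw [ordv_eq_zero_iff w hak, HeightOneSpectrum.valuation_eq_one_iff_notMem]
      intro hmem
      have hdvd : w.asIdeal ∣ v.asIdeal * (J c : Ideal (𝓞 k)) := by
        rw [ha', Ideal.dvd_span_singleton]
        exact hmem
      rcases w.prime.dvd_or_dvd hdvd with h | h
      · apply hwv
        have h1 : v.asIdeal ≤ w.asIdeal := Ideal.dvd_iff_le.1 h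
        exact (HeightOneSpectrum.ext (v.isMaximal.eq_of_le w.isPrime.ne_top h1)).symm
      · exact hnot w hw c h

end Pool.Agent.Lib.MP_2f3286_ag.UA
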