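import Pool.Agent.Lib.MP_2f3286_ag.UA.DH
import Pool.Agent.Lib.MP_2f3286_ag.UA.DI

/-!
# Finitely many classes of elements of even order outside a finite set

Text: `S ⊆ S'` with `Big S'` (`exists_big`). If `ordv v c` is even for all `v ∉ S'` (a finite product over the places with `ordv v c ≠ 0`,
`finite_ord`): for `v ∉ S'` let `a_v` be the element of `Big` with order `1` at `v` and `0` at the other places outside `S'`. Then
`c * (∏ a_v ^ (- ordv v c / 2)) ^ 2` has order `0` outside `S'`. Now `finite_units`. (Induction on the number of places outside `S'` with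
`ordv v c ≠ 0` is the simplest.)
-/

open NumberField IsDedekindDomain

namespace Pool.Agent.Lib.MP_2f3286_ag.UA

variable {k : Type*} [Field k] [NumberField k]

/-- induction on the number of places outside `S'` at which the order is not zero -/
private theorem kill (S' : Finset (HeightOneSpectrum (𝓞 k))) (hbig : Big S') (n : ℕ) :
    ∀ c : k, c ≠ 0 → (∀ v ∉ S', Even (ordv v c)) →
      {v : HeightOneSpectrum (𝓞 k) | v ∉ S' ∧ ordv v c ≠ 0}.ncard = n →
      ∃ b : k, b ≠ 0 ∧ ∀ v ∉ S', ordv v (c * b ^ 2) = 0 := by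
  induction n with
  | zero =>
    intro c hc hev hcard
    have hfin : {v : HeightOneSpectrum (𝓞 k) | v ∉ S' ∧ ordv v c ≠ 0}.Finite :=
      (finite_ord c hc).subset fun v hv => hv.2
    have hemp := (Set.ncard_eq_zero hfin).1 hcard
    refine ⟨1, one_ne_zero, ?_⟩
    intro v hv
    rw [one_pow, mul_one]
    by_contra h
    have : v ∈ {v : HeightOneSpectrum (𝓞 k) | v ∉ S' ∧ ordv v c ≠ 0} := ⟨hv, h⟩
    rw [hemp] at this
    exact this
  | succ n ih =>
    intro c hc hev hcard
    have hfin : {v : HeightOneSpectrum (𝓞 k) | v ∉ S' ∧ ordv v c ≠ 0}.Finite :=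
      (finite_ord c hc).subset fun v hv => hv.2
    have hne : {v : HeightOneSpectrum (𝓞 k) | v ∉ S' ∧ ordv v c ≠ 0}.Nonempty := by
      rw [Set.nonempty_iff_ne_empty]
      intro h
      rw [h, Set.ncard_empty] at hcard
      omega
    obtain ⟨v, hv⟩ := hne
    obtain ⟨m, hm⟩ := hev v hv.1
    obtain ⟨a, ha1, ha0, ha⟩ := hbig.2 v hv.1
    have ham : a ^ (-m) ≠ 0 := zpow_ne_zero _ ha0
    have hz : ∀ w : HeightOneSpectrum (𝓞 k), ordv w (a ^ (-m)) = (-m) * ordv w a := by
      intro w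
      rcases Int.eq_nat_or_neg m with ⟨j, hj | hj⟩
      · rw [hj, zpow_neg, zpow_natCast, ordv_inv, ordv_pow]
        ring
      · rw [hj, neg_neg, zpow_natCast, ordv_pow]
    have hord : ∀ w : HeightOneSpectrum (𝓞 k),
        ordv w (c * (a ^ (-m)) ^ 2) = ordv w c - 2 * m * ordv w a := by
      intro w
      rw [ordv_mul w hc (pow_ne_zero 2 ham), ordv_pow, hz]
      push_cast
      ring
    have hc' : c * (a ^ (-m)) ^ 2 ≠ 0 := mul_ne_zero hc (pow_ne_zero 2 ham)
    have hset : {w : HeightOneSpectrum (𝓞 k) | w ∉ S' ∧ ordv w (c * (a ^ (-m)) ^ 2) ≠ 0} =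
        {w : HeightOneSpectrum (𝓞 k) | w ∉ S' ∧ ordv w c ≠ 0} \ {v} := by
      ext w
      simp only [Set.mem_setOf_eq, Set.mem_diff, Set.mem_singleton_iff]
      constructor
      · rintro ⟨h1, h2⟩
        by_cases hwv : w = v
        · exfalso
          apply h2
          rw [hord, hwv, ha1, hm]
          ring
        · refine ⟨⟨h1, ?_⟩, hwv⟩
          rw [hord, ha w h1 hwv] at h2
          intro h3
          apply h2
          rw [h3]
          ring
      · rintro ⟨⟨h1, h2⟩, h3⟩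
        refine ⟨h1, ?_⟩
        rw [hord, ha w h1 h3]
        intro h4
        apply h2
        linarith
    obtain ⟨b, hb0, hb⟩ := ih (c * (a ^ (-m)) ^ 2) hc' (by
      intro w hw
      rw [hord]
      obtain ⟨j, hj⟩ := hev w hw
      exact ⟨j - m * ordv w a, by rw [hj]; ring⟩) (by
      rw [hset, Set.ncard_diff_singleton_of_mem hv, hcard]
      rfl)
    refine ⟨a ^ (-m) * b, mul_ne_zero ham hb0, ?_⟩
    intro w hw
    have h1 : c * (a ^ (-m) * b) ^ 2 = c * (a ^ (-m)) ^ 2 * b ^ 2 := by ring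
    rw [h1]
    exact hb w hw

theorem finite_even (S : Finset (HeightOneSpectrum (𝓞 k))) :
    ∃ F : Finset k, (∀ f ∈ F, f ≠ 0) ∧ ∀ c : k, c ≠ 0 → (∀ v ∉ S, Even (ordv v c)) →
      ∃ f ∈ F, IsSquare (c * f) := by
  obtain ⟨S', hSS', hbig⟩ := exists_big S
  obtain ⟨F, hF0, hF⟩ := finite_units S'
  refine ⟨F, hF0, ?_⟩
  intro c hc hev
  obtain ⟨b, hb0, hb⟩ := kill S' hbig _ c hc (fun v hv => hev v fun h => hv (hSS' h)) rfl
  obtain ⟨f, hf, r, hr⟩ := hF (c * b ^ 2) (mul_ne_zero hc (pow_ne_zero 2 hb0)) hb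
  refine ⟨f, hf, r / b, ?_⟩
  have h1 : c * f = (c * b ^ 2 * f) / b ^ 2 := by
    field_simp
  rw [h1, hr]
  field_simp

end Pool.Agent.Lib.MP_2f3286_ag.UA
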