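import Pool.Agent.Lib.MP_2f3286_ag.UA.DL
import Pool.Agent.Lib.MP_2f3286_ag.UA.DI2

/-!
# Theorem D: the Selmer group can be made as small as possible
-/

open NumberField IsDedekindDomain

namespace Pool.Agent.Lib.MP_2f3286_ag.UA

variable {k : Type*} [Field k] [NumberField k]

theorem not_isSquare_twist {d δ : k} (hδ : δ ≠ 0) (hns : ¬ IsSquare d) : ¬ IsSquare (d * δ ^ 2) :=
  fun h => hns (isSquare_of_mul (pow_ne_zero 2 hδ) h ⟨δ, sq δ⟩)

/-- iteration of `lower`: `F` represents all classes -/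
theorem iterate {i : k} (hi : i ^ 2 = -1) (d₀ : k) (F : Finset k) (hF0 : ∀ f ∈ F, f ≠ 0)
    (hF : ∀ c, SelP d₀ c → ∃ f ∈ F, IsSquare (c * f)) :
    ∀ (n : ℕ) (d : k), d ≠ 0 → ¬ IsSquare d → (∀ c, SelP d c → SelP d₀ c) →
      (∀ G : Finset k, G ⊆ F → (∀ f ∈ G, ∃ c, SelP d c ∧ IsSquare (c * f)) → G.card ≤ n) →
      ∃ δ : k, δ ≠ 0 ∧ ∀ c, SelP (d * δ ^ 2) c → IsSquare c ∨ IsSquare (c * (d * δ ^ 2)) := by
  classical
  intro n
  induction n with
  | zero =>
    intro d hd hns hsub hG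
    refine ⟨1, one_ne_zero, ?_⟩
    intro c hc
    rw [one_pow, mul_one] at hc
    exfalso
    obtain ⟨f, hf, hcf⟩ := hF c (hsub c hc)
    have := hG {f} (Finset.singleton_subset_iff.2 hf) (by
      intro g hg
      rw [Finset.mem_singleton.1 hg]
      exact ⟨c, hc, hcf⟩)
    rw [Finset.card_singleton] at this
    omega
  | succ n ih =>
    intro d hd hns hsub hG
    by_cases htriv : ∀ c, SelP d c → IsSquare c ∨ IsSquare (c * d)
    · refine ⟨1, one_ne_zero, ?_⟩
      intro c hc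
      rw [one_pow, mul_one] at hc ⊢
      exact htriv c hc
    · push Not at htriv
      obtain ⟨c₁, hc₁, hn1, hn2⟩ := htriv
      obtain ⟨δ, hδ, h1, h2⟩ := lower hi hd hns hc₁ hn1 hn2
      obtain ⟨δ', hδ', h3⟩ := ih (d * δ ^ 2) (mul_ne_zero hd (pow_ne_zero 2 hδ))
        (not_isSquare_twist hδ hns) (fun c hc => hsub c (h1 c hc)) (by
          intro G hGF hGc
          obtain ⟨f, hf, hcf⟩ := hF c₁ (hsub c₁ hc₁)
          have hfG : f ∉ G := by
            intro hfG
            obtain ⟨c, hc, hcf'⟩ := hGc f hfG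
            apply h2 c hc
            -- `c f` and `c₁ f` are squares
            obtain ⟨r, hr⟩ := hcf
            obtain ⟨s, hs⟩ := hcf'
            have hf0 := hF0 f hf
            refine ⟨r * s / f, ?_⟩
            have h7 : r * s / f * (r * s / f) = (r * r) * (s * s) / (f * f) := by field_simp
            rw [h7, ← hr, ← hs]
            field_simp
          have := hG (insert f G) (Finset.insert_subset_iff.2 ⟨hf, hGF⟩) (by
            intro g hg
            rcases Finset.mem_insert.1 hg with h | h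
            · rw [h]
              exact ⟨c₁, hc₁, hcf⟩
            · obtain ⟨c, hc, hcf'⟩ := hGc g h
              exact ⟨c, h1 c hc, hcf'⟩)
          rw [Finset.card_insert_of_notMem hfG] at this
          omega)
      refine ⟨δ * δ', mul_ne_zero hδ hδ', ?_⟩
      have e : d * (δ * δ') ^ 2 = d * δ ^ 2 * δ' ^ 2 := by ring
      rw [e]
      exact h3

theorem finite_bad (d : k) (hd : d ≠ 0) :
    {v : HeightOneSpectrum (𝓞 k) | ¬ Good v d}.Finite := by
  refine Set.Finite.subset ((finite_ord d hd).union finite_two) ?_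
  intro v hv
  by_contra h
  rw [Set.mem_union, not_or] at h
  apply hv
  refine ⟨h.2, ?_⟩
  have h1 : ordv v d = 0 := by
    by_contra h2
    exact h.1 h2
  rw [h1]
  exact dvd_zero 4

theorem exists_selP_triv {i : k} (hi : i ^ 2 = -1) {d : k} (hd : d ≠ 0) (hns : ¬ IsSquare d) :
    ∃ δ : k, δ ≠ 0 ∧ ∀ c, SelP (d * δ ^ 2) c → IsSquare c ∨ IsSquare (c * (d * δ ^ 2)) := by
  classical
  obtain ⟨F, hF0, hF⟩ := finite_even (finite_bad d hd).toFinset
  refine iterate hi d F hF0 ?_ F.card d hd hns (fun c hc => hc) (fun G hG _ =>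
    Finset.card_le_card hG)
  intro c hc
  refine hF c hc.1 ?_
  intro v hv
  refine hc.2.1 v ?_
  by_contra h
  exact hv ((finite_bad d hd).mem_toFinset.2 h)

/-- there is a nonsquare -/
theorem exists_not_isSquare : ∃ d : k, d ≠ 0 ∧ ¬ IsSquare d := by
  obtain ⟨M, hM⟩ := Ideal.exists_maximal (𝓞 k)
  have hM0 : M ≠ ⊥ := Ring.ne_bot_of_isMaximal_of_not_isField hM (RingOfIntegers.not_isField k)
  obtain ⟨v, -⟩ : ∃ v : HeightOneSpectrum (𝓞 k), v.asIdeal = M := ⟨⟨M, hM.isPrime, hM0⟩, rfl⟩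
  obtain ⟨π, hπ⟩ := v.valuation_exists_uniformizer k
  have h0 : π ≠ 0 := by
    rintro rfl
    rw [map_zero] at hπ
    exact WithZero.exp_ne_zero hπ.symm
  refine ⟨π, h0, ?_⟩
  intro hsq
  have h1 : SqAt v π := hsq.map (algebraMap k (v.adicCompletion k))
  have h2 := even_of_sqAt h1
  have h3 : ordv v π = 1 := by
    unfold ordv
    rw [hπ, WithZero.log_exp]
    norm_num
  rw [h3] at h2
  exact absurd h2 (by decide)

/-- Theorem D -/
theorem exists_d (i : k) (hi : i ^ 2 = -1) : ∃ d : k, d ≠ 0 ∧ ¬ IsSquare d ∧ SelTriv d := by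
  obtain ⟨d, hd, hns⟩ := exists_not_isSquare (k := k)
  obtain ⟨δ, hδ, h⟩ := exists_selP_triv hi hd hns
  have hd' : d * δ ^ 2 ≠ 0 := mul_ne_zero hd (pow_ne_zero 2 hδ)
  refine ⟨d * δ ^ 2, hd', not_isSquare_twist hδ hns, ?_⟩
  intro c hc hW
  exact h c ⟨hc, fun v hv => even_of_inW hd' hc hv.2 (hW v), fun v _ => hW v⟩

end Pool.Agent.Lib.MP_2f3286_ag.UA
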