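import Pool.Agent.Lib.MP_2f3286_ag.UA.Defs
import Pool.Agent.Lib.MP_2f3286_ag.UA.DM
import Pool.Agent.Lib.MP_2f3286_ag.UA.AB0

/-!
# The constants `A`, `B` over every number field

If `-1` is a square in `F`: `F' = F`, `d` from `exists_d`, `e = d`, `A = 2 d`, `B = 0`. Otherwise `F' = F(i)`,
`d = a + b i` from `exists_d`, `e = a - b i`, `A = 2 a`, `B = - 4 b ^ 2`.
-/

open NumberField IsDedekindDomain

namespace Pool.Agent.Lib.MP_2f3286_ag.UA

universe u

/-- **The constants `A` and `B`.** -/
theorem exists_AB (F : Type u) [Field F] [NumberField F] :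
    ∃ (A B : F) (F' : Type u) (_ : Field F') (_ : NumberField F') (_ : Algebra F F')
      (i d e : F'), i ^ 2 = -1 ∧ d ≠ 0 ∧ ¬ IsSquare d ∧ SelTriv d ∧ e ≠ 0 ∧ ¬ IsSquare e ∧
      algebraMap F F' A = d + e ∧ algebraMap F F' B = (d - e) ^ 2 ∧ A ^ 2 ≠ B ∧
      (IsSquare (-1 : F) → B = 0) ∧ (B = 0 → d = e) ∧
      (∀ x : F', ∃ a b : F, x = algebraMap F F' a + algebraMap F F' b * i) := by
  by_cases h : IsSquare (-1 : F)
  · obtain ⟨i, hi⟩ := h
    have hi2 : i ^ 2 = -1 := by rw [hi, sq]
    obtain ⟨d, hd, hd', hsel⟩ := exists_d i hi2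
    refine ⟨2 * d, 0, F, inferInstance, inferInstance, inferInstance, i, d, d, hi2, hd, hd', hsel,
      hd, hd', ?_, ?_, ?_, fun _ => rfl, fun _ => rfl, fun x => ⟨x, 0, ?_⟩⟩
    · show 2 * d = d + d
      ring
    · show (0 : F) = (d - d) ^ 2
      ring
    · exact pow_ne_zero 2 (mul_ne_zero two_ne_zero hd)
    · show x = x + 0 * i
      ring
  · obtain ⟨F', hF, hN, hA, i, hi, hx⟩ := exists_adjoin_i F h
    obtain ⟨d, hd, hd', hsel⟩ := exists_d i hi
    obtain ⟨a, b, hab⟩ := hx d
    -- the coordinates are unique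
    have huniq : ∀ p q : F, algebraMap F F' p + algebraMap F F' q * i = 0 → p = 0 ∧ q = 0 := by
      intro p q hpq
      have h1 : q = 0 := by
        by_contra hq
        apply h
        refine ⟨p / q, ?_⟩
        apply (algebraMap F F').injective
        have hq' : algebraMap F F' q ≠ 0 := by
          rw [Ne, map_eq_zero]
          exact hq
        have h2 : i = -(algebraMap F F' p / algebraMap F F' q) := by
          field_simp
          linear_combination hpq
        rw [map_mul, map_div₀, map_neg, map_one, ← hi, h2]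
        ring
      subst h1
      rw [map_zero, zero_mul, add_zero, map_eq_zero] at hpq
      exact ⟨hpq, rfl⟩
    have he0 : algebraMap F F' a - algebraMap F F' b * i ≠ 0 := by
      intro h0
      obtain ⟨h1, h2⟩ := huniq a (-b) (by rw [map_neg]; linear_combination h0)
      apply hd
      rw [hab, h1, neg_eq_zero.1 h2, map_zero]
      ring
    have hA1 : algebraMap F F' (2 * a) = d + (algebraMap F F' a - algebraMap F F' b * i) := by
      rw [hab, map_mul, map_ofNat]
      ring
    have hB1 : algebraMap F F' (-(4 * b ^ 2)) =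
        (d - (algebraMap F F' a - algebraMap F F' b * i)) ^ 2 := by
      rw [hab, map_neg, map_mul, map_pow, map_ofNat]
      linear_combination (-4 * algebraMap F F' b ^ 2) * hi
    refine ⟨2 * a, -(4 * b ^ 2), F', hF, hN, hA, i, d, algebraMap F F' a - algebraMap F F' b * i,
      hi, hd, hd', hsel, he0, ?_, hA1, hB1, ?_, fun h' => absurd h' h, ?_, hx⟩
    · rintro ⟨r, hr⟩
      obtain ⟨p, q, hpq⟩ := hx r
      obtain ⟨h1, h2⟩ := huniq (a - (p ^ 2 - q ^ 2)) (-b - 2 * p * q) (by
        simp only [map_sub, map_neg, map_mul, map_pow, map_ofNat]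
        rw [hpq] at hr
        linear_combination hr + algebraMap F F' q ^ 2 * hi)
      apply hd'
      refine ⟨algebraMap F F' p - algebraMap F F' q * i, ?_⟩
      have h3 : a = p ^ 2 - q ^ 2 := by linear_combination h1
      have h4 : b = -(2 * p * q) := by linear_combination -h2
      rw [hab, h3, h4]
      simp only [map_sub, map_neg, map_mul, map_pow, map_ofNat]
      linear_combination (-algebraMap F F' q ^ 2) * hi
    · intro h0
      have h1 : algebraMap F F' ((2 * a) ^ 2) = algebraMap F F' (-(4 * b ^ 2)) := by rw [h0]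
      rw [map_pow, hA1, hB1] at h1
      have h2 : 4 * (d * (algebraMap F F' a - algebraMap F F' b * i)) = 0 := by
        linear_combination h1
      have h4 : (4 : F') ≠ 0 := by
        have : CharZero F' := hN.to_charZero
        norm_num
      rcases mul_eq_zero.1 h2 with h3 | h3
      · exact h4 h3
      · exact (mul_ne_zero hd he0) h3
    · intro h0
      rw [h0, map_zero] at hB1
      have h1 := pow_eq_zero_iff (two_ne_zero) |>.1 hB1.symm
      exact sub_eq_zero.1 h1

end Pool.Agent.Lib.MP_2f3286_ag.UA
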