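import Pool.Agent.Lib.MP_2f3286_ag.UA.Cp3

/-!
# Rational places of the covering
-/

open Polynomial

namespace Pool.Agent.Lib.MP_2f3286_ag.UA

/-- all places of `K(z)` above a simple pole of `t` are rational -/
theorem ratPlace_over {k K L : Type*} [Field k] [CharZero k] [Field K] [Field L] [Algebra k K]
    [Algebra K L] [Algebra k L] [IsScalarTower k K L] {V : ValuationSubring K} (hV : RatPlace k V)
    {x : K} (hx : x ∉ V)
    (hxu : ∀ y : K, y ≠ 0 → ∃ (n : ℤ) (u : K), u ∈ V ∧ u⁻¹ ∈ V ∧ y = x⁻¹ ^ n * u)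
    {A B : k} {t : K} (ht : ∃ l : k, t = x + algebraMap k K l) {z : L} (hz0 : z ≠ 0)
    (hz : z ^ 4 - 2 * algebraMap K L (2 * t ^ 3 - algebraMap k K A * t) * z ^ 2 +
      algebraMap K L (algebraMap k K B * t ^ 2) = 0)
    (hgen : ∀ y : L, ∃ b : ℕ → K, y = ∑ i ∈ Finset.range 4, algebraMap K L (b i) * z ^ i)
    {W : ValuationSubring L} (hW : W.comap (algebraMap K L) = V) : RatPlace k W := by
  classical
  obtain ⟨v, hv⟩ : ∃ v, v = W.valuation := ⟨_, rfl⟩
  have hmem : ∀ y : K, v (algebraMap K L y) ≤ 1 ↔ y ∈ V := by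
    intro y
    rw [hv, ValuationSubring.valuation_le_one_iff, ← hW, ValuationSubring.mem_comap]
  have hlt : ∀ y : K, V.valuation y < 1 → v (algebraMap K L y) < 1 := by
    intro y hy
    by_contra hcon
    push Not at hcon
    have hy0 : y ≠ 0 := by
      rintro rfl
      rw [map_zero, map_zero] at hcon
      exact absurd hcon (not_le.2 zero_lt_one)
    have h1 : y⁻¹ ∈ V := by
      rw [← hmem, map_inv₀, map_inv₀]
      exact inv_le_one_of_one_le₀ hcon
    rw [← ValuationSubring.valuation_le_one_iff] at h1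
    have h2 : V.valuation y * V.valuation y⁻¹ = 1 := by
      rw [← map_mul, mul_inv_cancel₀ hy0, map_one]
    exact absurd h2 (ne_of_lt (mul_lt_one_of_lt_of_le hy h1))
  have hunit : ∀ y : K, y ≠ 0 → y ∈ V → y⁻¹ ∈ V → v (algebraMap K L y) = 1 := by
    intro y hy0 h1 h2
    refine le_antisymm ((hmem y).2 h1) ?_
    have h3 := (hmem _).2 h2
    rw [map_inv₀, map_inv₀] at h3
    exact (inv_le_one₀ (zero_lt_iff.2 ((Valuation.ne_zero_iff _).2
      ((_root_.map_ne_zero (algebraMap K L)).2 hy0)))).1 h3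
  have hconst : ∀ c : k, c ≠ 0 → v (algebraMap k L c) = 1 := by
    intro c hc
    rw [IsScalarTower.algebraMap_apply k K L]
    refine hunit _ ((_root_.map_ne_zero (algebraMap k K)).2 hc) (hV.2.1 c) ?_
    rw [← map_inv₀]
    exact hV.2.1 _
  have hconst' : ∀ c : k, v (algebraMap k L c) ≤ 1 := by
    intro c
    rw [IsScalarTower.algebraMap_apply k K L, hmem]
    exact hV.2.1 c
  have hx0 : x ≠ 0 := by
    rintro rfl
    exact hx V.zero_mem
  obtain ⟨g, hg⟩ : ∃ g, g = v (algebraMap K L x⁻¹) := ⟨_, rfl⟩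
  have hgx : v (algebraMap K L x) = g⁻¹ := by rw [hg, map_inv₀, map_inv₀, inv_inv]
  have hg0 : g ≠ 0 := by
    rw [hg]
    exact (Valuation.ne_zero_iff _).2 ((_root_.map_ne_zero (algebraMap K L)).2 (inv_ne_zero hx0))
  have hg1 : g < 1 := by
    rw [← not_le]
    intro h
    apply hx
    rw [← hmem, hgx]
    exact inv_le_one_of_one_le₀ h
  have hK : ∀ y : K, y ≠ 0 → ∃ n : ℤ, v (algebraMap K L y) = g ^ n := by
    intro y hy
    obtain ⟨n, u, hu1, hu2, hu3⟩ := hxu y hy
    refine ⟨n, ?_⟩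
    have hu0 : u ≠ 0 := by
      rintro rfl
      rw [mul_zero] at hu3
      exact hy hu3
    rw [hu3, map_mul, map_mul, hunit u hu0 hu1 hu2, mul_one, map_zpow₀, map_zpow₀, ← hg]
  have hres : ∀ y : K, v (algebraMap K L y) ≤ 1 →
      ∃ c : k, v (algebraMap K L y - algebraMap k L c) < 1 := by
    intro y hy
    obtain ⟨c, hc⟩ := hV.2.2 y ((hmem y).1 hy)
    refine ⟨c, ?_⟩
    have := hlt _ hc
    rw [map_sub, ← IsScalarTower.algebraMap_apply k K L] at this
    exact this
  -- the values of `t`, `P`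
  obtain ⟨l, hl⟩ := ht
  obtain ⟨T, hT⟩ : ∃ T, T = algebraMap K L t := ⟨_, rfl⟩
  have h1g : 1 < g⁻¹ := (one_lt_inv₀ (zero_lt_iff.2 hg0)).2 hg1
  have hvT : v T = g⁻¹ := by
    rw [hT, hl, map_add, ← IsScalarTower.algebraMap_apply k K L, ← hgx]
    apply Valuation.map_add_eq_of_lt_left
    rw [hgx]
    exact lt_of_le_of_lt (hconst' l) h1g
  obtain ⟨P, hP⟩ : ∃ P, P = 2 * (2 * t ^ 3 - algebraMap k K A * t) := ⟨_, rfl⟩
  have hPL : algebraMap K L P = 2 * (2 * T ^ 3 - algebraMap k L A * T) := by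
    rw [hP, hT, map_mul, map_sub, map_mul, map_mul, map_pow, map_ofNat,
      ← IsScalarTower.algebraMap_apply k K L]
  have h2 : v 2 = 1 := by
    have := hconst 2 two_ne_zero
    rwa [map_ofNat] at this
  have hvP : v (algebraMap K L P) = (g ^ 3)⁻¹ := by
    have e1 : v (2 * T ^ 3) = (g ^ 3)⁻¹ := by
      rw [map_mul, h2, one_mul, map_pow, hvT, inv_pow]
    have e2 : v (algebraMap k L A * T) < v (2 * T ^ 3) := by
      rw [e1, map_mul, hvT]
      refine lt_of_le_of_lt (mul_le_of_le_one_left' (hconst' A)) ?_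
      rw [inv_lt_inv₀ (zero_lt_iff.2 hg0) (zero_lt_iff.2 (pow_ne_zero 3 hg0))]
      calc g ^ 3 < g ^ 1 := pow_lt_pow_right_of_lt_one₀ (zero_lt_iff.2 hg0) hg1 (by norm_num)
        _ = g := pow_one g
    rw [hPL, map_mul, h2, one_mul, Valuation.map_sub_eq_of_lt_left _ e2, e1]
  have hPL0 : algebraMap K L P ≠ 0 := by
    rw [← Valuation.ne_zero_iff v, hvP]
    exact inv_ne_zero (pow_ne_zero 3 hg0)
  have hP0 : P ≠ 0 := by
    rintro h
    rw [h, map_zero] at hPL0
    exact hPL0 rfl
  obtain ⟨u, hu⟩ : ∃ u, u = z ^ 2 / algebraMap K L P := ⟨_, rfl⟩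
  have hzu : z ^ 2 = algebraMap K L P * u := by rw [hu]; field_simp
  obtain ⟨ε, hεd⟩ : ∃ ε, ε = algebraMap k K B * t ^ 2 / P ^ 2 := ⟨_, rfl⟩
  have hεL : algebraMap K L ε = algebraMap k L B * T ^ 2 / (algebraMap K L P) ^ 2 := by
    rw [hεd, hT, map_div₀, map_mul, map_pow, map_pow, ← IsScalarTower.algebraMap_apply k K L]
  have huε : u * (1 - u) = algebraMap K L ε := by
    have e1 : z ^ 4 - algebraMap K L P * z ^ 2 + algebraMap k L B * T ^ 2 = 0 := by
      have e2 : algebraMap K L (algebraMap k K B * t ^ 2) = algebraMap k L B * T ^ 2 := by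
        rw [hT, map_mul, map_pow, ← IsScalarTower.algebraMap_apply k K L]
      rw [← e2, hP, map_mul, map_ofNat]
      exact hz
    rw [hεL, hu]
    field_simp
    linear_combination -e1
  have hvε : v (algebraMap K L ε) = v (algebraMap k L B) * g ^ 4 := by
    rw [hεL, map_div₀, map_mul, map_pow, map_pow, hvT, hvP]
    field_simp
  have hεg : v (algebraMap K L ε) ≤ g := by
    rw [hvε]
    refine (mul_le_of_le_one_left' (hconst' B)).trans ?_
    calc g ^ 4 ≤ g ^ 1 := pow_le_pow_right_of_le_one' hg1.le (by norm_num)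
      _ = g := pow_one g
  have hu0 : u ≠ 0 := by
    rw [hu]
    exact div_ne_zero (pow_ne_zero 2 hz0) hPL0
  have hor : v u < 1 ∨ v (1 - u) < 1 := by
    by_contra hcon
    push Not at hcon
    have e1 : 1 ≤ v (u * (1 - u)) := by
      rw [map_mul]
      exact one_le_mul_of_one_le_of_one_le hcon.1 hcon.2
    rw [huε] at e1
    exact absurd hg1 (not_lt.2 (e1.trans hεg))
  -- the two cases
  have hmain : ∃ m : ℤ, Odd m ∧ v (z ^ 2) = g ^ m ∧
      ∀ a b : K, algebraMap K L a + algebraMap K L b * z ^ 2 ≠ 0 →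
        Near K v (algebraMap K L a + algebraMap K L b * z ^ 2) := by
    rcases hor with h | h
    · refine ⟨1, odd_one, ?_, ?_⟩
      · have e1 : v (1 - u) = 1 := Valuation.map_one_sub_of_lt _ h
        have e2 : v u = v (algebraMap k L B) * g ^ 4 := by
          rw [← hvε, ← huε, map_mul, e1, mul_one]
        have hB : B ≠ 0 := by
          rintro rfl
          rw [map_zero, map_zero, zero_mul] at e2
          exact hu0 ((Valuation.zero_iff _).1 e2)
        rw [hzu, map_mul, hvP, e2, hconst B hB, one_mul, zpow_one]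
        field_simp
      · intro a b hab
        have e1 : algebraMap K L a + algebraMap K L b * z ^ 2 =
            algebraMap K L a + algebraMap K L (b * P) * u := by
          rw [hzu, map_mul]
          ring
        rw [e1] at hab ⊢
        exact near_add_mul v hg0 hg1 hK huε h hεg a (b * P) hab
    · refine ⟨-3, by decide, ?_, ?_⟩
      · have e1 : v u = 1 := by
          have e2 : u = 1 - (1 - u) := by ring
          rw [e2]
          exact Valuation.map_one_sub_of_lt _ h
        rw [hzu, map_mul, hvP, e1, mul_one, zpow_neg]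
        rfl
      · intro a b hab
        have e1 : algebraMap K L a + algebraMap K L b * z ^ 2 =
            algebraMap K L (a + b * P) + algebraMap K L (-(b * P)) * (1 - u) := by
          rw [hzu, map_neg, map_add, map_mul]
          ring
        rw [e1] at hab ⊢
        exact near_add_mul v hg0 hg1 hK (u := 1 - u) (ε := ε) (by rw [← huε]; ring) h hεg _ _ hab
  obtain ⟨m, hm, hvz, hnear⟩ := hmain
  refine ⟨?_, ?_, ?_⟩
  · rintro rfl
    apply hx
    rw [← hW, ValuationSubring.mem_comap]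
    trivial
  · intro c
    rw [← ValuationSubring.valuation_le_one_iff, ← hv]
    exact hconst' c
  · intro y hy
    rw [← hv]
    rw [← ValuationSubring.valuation_le_one_iff, ← hv] at hy
    obtain ⟨b, hb⟩ := hgen y
    have e1 : y = (algebraMap K L (b 0) + algebraMap K L (b 2) * z ^ 2) +
        (algebraMap K L (b 1) + algebraMap K L (b 3) * z ^ 2) * z := by
      rw [hb, Finset.sum_range_succ, Finset.sum_range_succ, Finset.sum_range_succ,
        Finset.sum_range_one]
      ring
    rw [e1] at hy ⊢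
    exact residue_add_mul v hg0 hg1 hK hres hvz hm (hnear _ _) (hnear _ _) hy

end Pool.Agent.Lib.MP_2f3286_ag.UA
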