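import Pool.Agent.Lib.MP_2f3286_ag.UA.Cof6
import Pool.Agent.Lib.MP_2f3286_ag.UA.Cp4

/-!
# The coverings are cofinal, with rational points above given rational points
-/

open Polynomial

namespace Pool.Agent.Lib.MP_2f3286_ag.UA

universe u v

/-- the end of the proof of `cofinal_pts` -/
theorem cof_finish_gen {k : Type u} [Field k] {K Ω : Type v} [Field K] [Field Ω] [Algebra k K] [Algebra K Ω]
    [Algebra k Ω] [IsScalarTower k K Ω]
    (hk : ∀ x : K, IsAlgebraic k x → ∃ c : k, x = algebraMap k K c)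
    {z : Ω} {q : K[X]} (hq : q.Monic) {n : ℕ} (hn : q.natDegree = n) (hn0 : n ≠ 0) (hn4 : n ≤ 4)
    (hz : aeval z q = 0)
    (hind : ∀ (b : ℕ → K) (m : Ω), IsAlgebraic k m →
      m = ∑ i ∈ Finset.range n, algebraMap K Ω (b i) * z ^ i → m = algebraMap K Ω (b 0))
    (hz0 : z ≠ 0) {P Q : K}
    (hquart : z ^ 4 - 2 * algebraMap K Ω P * z ^ 2 + algebraMap K Ω Q = 0) :
    ∃ (K' : Type v) (_ : Field K') (_ : Algebra K K') (_ : Algebra k K')
      (_ : IsScalarTower k K K') (z : K'),
      FiniteDimensional K K' ∧ Module.finrank K K' ≤ n ∧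
      (∀ x : K', IsAlgebraic k x → ∃ c : k, x = algebraMap k K' c) ∧ z ≠ 0 ∧
      z ^ 4 - 2 * algebraMap K K' P * z ^ 2 + algebraMap K K' Q = 0 ∧
      ∀ y : K', ∃ b : ℕ → K, y = ∑ i ∈ Finset.range 4, algebraMap K K' (b i) * z ^ i := by
  obtain ⟨h1, h2⟩ := finrank_adjoin_monic hq hz
  have htow : IsScalarTower k (IntermediateField.adjoin K {z}) Ω := by
    apply IsScalarTower.of_algebraMap_eq
    intro x
    rw [IsScalarTower.algebraMap_apply k K Ω x,
      IsScalarTower.algebraMap_apply k K (IntermediateField.adjoin K {z}) x]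
    rfl
  refine ⟨IntermediateField.adjoin K {z}, inferInstance, inferInstance, inferInstance, inferInstance,
    ⟨z, IntermediateField.mem_adjoin_simple_self K z⟩, h1, hn ▸ h2, ?_, ?_, ?_, ?_⟩
  · intro x hx
    obtain ⟨b, hb⟩ := mem_adjoin_monic hq hn hn0 hz x.2
    have hx' : IsAlgebraic k (x : Ω) := by
      exact IsAlgebraic.algHom (IsScalarTower.toAlgHom k (IntermediateField.adjoin K {z}) Ω) hx
    have h3 := hind b x hx' hb
    have h4 : IsAlgebraic k (b 0) := by
      rw [h3] at hx'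
      exact (isAlgebraic_algebraMap_iff (algebraMap K Ω).injective).1 hx'
    obtain ⟨c, hc⟩ := hk _ h4
    refine ⟨c, ?_⟩
    apply Subtype.ext
    rw [h3, hc]
    rw [← IsScalarTower.algebraMap_apply k K Ω]
    rfl
  · intro h
    exact hz0 (congrArg Subtype.val h)
  · apply Subtype.ext
    exact hquart
  · intro y
    obtain ⟨b, hb⟩ := mem_adjoin_monic hq hn hn0 hz y.2
    refine ⟨fun i => if i < n then b i else 0, ?_⟩
    apply Subtype.ext
    rw [hb, ← Finset.sum_subset (Finset.range_mono hn4) (f := fun i =>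
      algebraMap K (IntermediateField.adjoin K {z}) (if i < n then b i else 0) *
        (⟨z, IntermediateField.mem_adjoin_simple_self K z⟩ : IntermediateField.adjoin K {z}) ^ i)]
    · rw [← IntermediateField.algebraMap_apply, map_sum]
      refine Finset.sum_congr rfl fun i hi => ?_
      rw [if_pos (Finset.mem_range.1 hi), map_mul, map_pow,
        ← IsScalarTower.algebraMap_apply K (IntermediateField.adjoin K {z}) Ω]
      rfl
    · intro i _ hi
      rw [if_neg (fun h => hi (Finset.mem_range.2 h)), map_zero, zero_mul]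

/-- the choice of `t` -/
theorem cof_choice_of {k : Type u} [Field k] [CharZero k] (A B : k) (hAB : A ^ 2 ≠ B)
    {K Ω : Type v} [Field K] [Algebra k K] [Field Ω] [IsAlgClosed Ω] [Algebra K Ω] [Algebra k Ω]
    [IsScalarTower k K Ω] (htr : Algebra.trdeg k K = 1)
    (hfg : (⊤ : IntermediateField k K).FG) {x : K} (hx : Transcendental k x) :
    ∃ (M : Subfield Ω) (t : K) (d e : Ω), (∀ y : K, algebraMap K Ω y ∈ M) ∧
      (∀ y : Ω, IsAlgebraic k y → y ∈ M) ∧ (∀ c : k, t ≠ algebraMap k K c) ∧ d ∈ M ∧ e ∈ M ∧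
      d + e = algebraMap k Ω A ∧ (d - e) ^ 2 = algebraMap k Ω B ∧
      (∀ s ∈ M, s ^ 2 ≠ (algebraMap K Ω t) ^ 3 - d * algebraMap K Ω t) ∧
      (∀ s ∈ M, s ^ 2 ≠ (algebraMap K Ω t) ^ 3 - e * algebraMap K Ω t) ∧
      (d ≠ e → ∀ s ∈ M, s ^ 2 ≠ ((algebraMap K Ω t) ^ 3 - d * algebraMap K Ω t) *
        ((algebraMap K Ω t) ^ 3 - e * algebraMap K Ω t)) ∧
      ∃ l : k, t = x + algebraMap k K l := by
  classical
  have hCc : IsAlgClosed (algebraicClosure k Ω) :=
    (algebraicClosure.isAlgClosure k Ω).isAlgClosed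
  have hCc0 : CharZero (algebraicClosure k Ω) :=
    charZero_of_injective_algebraMap (algebraMap k _).injective
  have hCalg : Algebra.IsAlgebraic k (algebraicClosure k Ω) :=
    (algebraicClosure.isAlgClosure k Ω).isAlgebraic
  have hx' : Transcendental (algebraicClosure k Ω) (algebraMap K Ω x) := by
    intro halg
    have h1 : IsAlgebraic k (algebraMap K Ω x) := halg.restrictScalars k
    exact hx ((isAlgebraic_algebraMap_iff (algebraMap K Ω).injective).1 h1)
  obtain ⟨E₀, hE₀, hKE⟩ := exists_big_field htr hfg hx (algebraicClosure k Ω)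
  have hCE : ∀ c : algebraicClosure k Ω, (c : Ω) ∈ E₀ := by
    intro c
    exact E₀.algebraMap_mem (algebraMap (algebraicClosure k Ω) _ c)
  obtain ⟨δ, hδ⟩ := IsAlgClosed.exists_pow_nat_eq (algebraMap k (algebraicClosure k Ω) B)
    (n := 2) (by norm_num)
  obtain ⟨d, hd⟩ : ∃ d, d = (algebraMap k (algebraicClosure k Ω) A + δ) / 2 := ⟨_, rfl⟩
  obtain ⟨e, he⟩ : ∃ e, e = (algebraMap k (algebraicClosure k Ω) A - δ) / 2 := ⟨_, rfl⟩
  have hsum : d + e = algebraMap k (algebraicClosure k Ω) A := by rw [hd, he]; ring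
  have hdiff : d - e = δ := by rw [hd, he]; ring
  have hprod : d * e ≠ 0 := by
    intro h
    apply hAB
    apply (algebraMap k (algebraicClosure k Ω)).injective
    rw [map_pow, ← hsum, ← hδ, ← hdiff]
    linear_combination 4 * h
  have hd0 : d ≠ 0 := left_ne_zero_of_mul hprod
  have he0 : e ≠ 0 := right_ne_zero_of_mul hprod
  have F1 := finite_shift_square hx' E₀ (separable_cubic d hd0) (by rw [natDegree_cubic]; norm_num)
  have F2 := finite_shift_square hx' E₀ (separable_cubic e he0) (by rw [natDegree_cubic]; norm_num)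
  have F3 : {l : algebraicClosure k Ω | d ≠ e ∧ ∃ r ∈ E₀, r ^ 2 =
      aeval (algebraMap K Ω x + algebraMap (algebraicClosure k Ω) Ω l)
        ((X ^ 2 - C d) * (X ^ 2 - C e))}.Finite := by
    by_cases hde : d = e
    · convert Set.finite_empty (α := algebraicClosure k Ω)
      ext l
      simp [hde]
    · exact (finite_shift_square hx' E₀ (separable_quartic d e hd0 he0 hde)
        (by rw [natDegree_quartic]; norm_num)).subset (fun l hl => hl.2)
  obtain ⟨l, hl1, hl2, hl3⟩ := exists_notMem_three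
    (algebraMap k (algebraicClosure k Ω)).injective F1 F2 F3
  have ht : algebraMap K Ω x + algebraMap (algebraicClosure k Ω) Ω
      (algebraMap k (algebraicClosure k Ω) l) = algebraMap K Ω (x + algebraMap k K l) := by
    rw [map_add, ← IsScalarTower.algebraMap_apply k K Ω, ← IsScalarTower.algebraMap_apply]
  have ht0 : algebraMap K Ω (x + algebraMap k K l) ≠ 0 := by
    intro h
    have h1 : x + algebraMap k K l = 0 := (map_eq_zero (algebraMap K Ω)).1 h
    apply hx
    have h2 : x = algebraMap k K (-l) := by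
      rw [map_neg]
      exact eq_neg_of_add_eq_zero_left h1
    rw [h2]
    exact isAlgebraic_algebraMap _
  refine ⟨E₀.toSubfield, x + algebraMap k K l, d, e, hKE, ?_, ?_, hCE d, hCE e, ?_, ?_, ?_, ?_, ?_, l, rfl⟩
  · intro y hy
    exact hCE ⟨y, mem_algebraicClosure_iff.2 hy⟩
  · intro c hc
    apply hx
    have h2 : x = algebraMap k K (c - l) := by
      rw [map_sub, ← hc]
      ring
    rw [h2]
    exact isAlgebraic_algebraMap _
  · exact congrArg (algebraMap (algebraicClosure k Ω) Ω) hsum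
  · have := congrArg (algebraMap (algebraicClosure k Ω) Ω) hδ
    rw [← hdiff] at this
    exact this
  · intro s hs hs2
    apply hl1
    refine ⟨s, hs, ?_⟩
    rw [hs2, ht]
    simp
  · intro s hs hs2
    apply hl2
    refine ⟨s, hs, ?_⟩
    rw [hs2, ht]
    simp
  · intro hde s hs hs2
    apply hl3
    refine ⟨fun h => hde (by rw [h]), s / algebraMap K Ω (x + algebraMap k K l),
      E₀.div_mem hs (hKE _), ?_⟩
    rw [div_pow, hs2, ht]
    rw [div_eq_iff (pow_ne_zero 2 ht0)]
    simp only [map_mul, map_sub, map_pow, aeval_X, aeval_C]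
    rw [IntermediateField.algebraMap_apply, IntermediateField.algebraMap_apply]
    ring

/-- Every function field has an extension of degree at most `4`, without new constants, in which the
equation has a solution and in which the places of a given finite set of rational places have
rational extensions. -/
theorem cofinal_pts {k : Type u} [Field k] [CharZero k] (A B : k) (hAB : A ^ 2 ≠ B)
    {K : Type v} [Field K] [Algebra k K] (htr : Algebra.trdeg k K = 1)
    (hfg : (⊤ : IntermediateField k K).FG)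
    (hk : ∀ x : K, IsAlgebraic k x → ∃ c : k, x = algebraMap k K c)
    (S : Set (ValuationSubring K)) (hSfin : S.Finite) (hS : ∀ V ∈ S, RatPlace k V) :
    ∃ (K' : Type v) (_ : Field K') (_ : Algebra K K') (_ : Algebra k K')
      (_ : IsScalarTower k K K') (t : K) (z : K'),
      FiniteDimensional K K' ∧ Module.finrank K K' ≤ 4 ∧ (B = 0 → Module.finrank K K' ≤ 2) ∧
      (∀ x : K', IsAlgebraic k x → ∃ c : k, x = algebraMap k K' c) ∧
      (∀ c : k, t ≠ algebraMap k K c) ∧ z ≠ 0 ∧
      z ^ 4 - 2 * algebraMap K K' (2 * t ^ 3 - algebraMap k K A * t) * z ^ 2 +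
        algebraMap K K' (algebraMap k K B * t ^ 2) = 0 ∧
      ∀ V ∈ S, ∃ V' : ValuationSubring K', RatPlace k V' ∧ V'.comap (algebraMap K K') = V := by
  obtain ⟨x, hx, hxS⟩ := exists_pole htr hfg hSfin.toFinset (fun V hV =>
    ⟨(hS V (hSfin.mem_toFinset.1 hV)).1, (hS V (hSfin.mem_toFinset.1 hV)).2.1⟩)
  obtain ⟨M, t, d, e, hKM, halgM, ht, hdM, heM, hsum, hdiff, hf, hg, hfg', hl⟩ :=
    cof_choice_of (Ω := AlgebraicClosure K) A B hAB htr hfg hx
  have hchar : CharZero (AlgebraicClosure K) :=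
    charZero_of_injective_algebraMap (algebraMap k (AlgebraicClosure K)).injective
  obtain ⟨T, hT⟩ : ∃ T, T = algebraMap K (AlgebraicClosure K) t := ⟨_, rfl⟩
  rw [← hT] at hf hg hfg'
  have hTM : T ∈ M := hT ▸ hKM t
  have hfM : T ^ 3 - d * T ∈ M := M.sub_mem (M.pow_mem hTM 3) (M.mul_mem hdM hTM)
  have hgM : T ^ 3 - e * T ∈ M := M.sub_mem (M.pow_mem hTM 3) (M.mul_mem heM hTM)
  have m2 : (2 : AlgebraicClosure K) ∈ M := by
    have := M.add_mem M.one_mem M.one_mem
    rwa [one_add_one_eq_two] at this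
  obtain ⟨α, hα⟩ := IsAlgClosed.exists_pow_nat_eq (T ^ 3 - d * T) (n := 2) (by norm_num)
  obtain ⟨β, hβ⟩ := IsAlgClosed.exists_pow_nat_eq (T ^ 3 - e * T) (n := 2) (by norm_num)
  have hP : algebraMap K (AlgebraicClosure K) (2 * t ^ 3 - algebraMap k K A * t) =
      2 * T ^ 3 - (d + e) * T := by
    rw [hsum, hT, map_sub, map_mul, map_mul, map_pow, map_ofNat,
      ← IsScalarTower.algebraMap_apply k K (AlgebraicClosure K)]
  have hQ : algebraMap K (AlgebraicClosure K) (algebraMap k K B * t ^ 2) = (d - e) ^ 2 * T ^ 2 := by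
    rw [hdiff, hT, map_mul, map_pow, ← IsScalarTower.algebraMap_apply k K (AlgebraicClosure K)]
  have hcard : ∃ (n : ℕ) (z : AlgebraicClosure K) (q : K[X]), n ≤ 4 ∧ (B = 0 → n ≤ 2) ∧ q.Monic ∧
      q.natDegree = n ∧ n ≠ 0 ∧ aeval z q = 0 ∧
      (∀ (b : ℕ → K) (m : AlgebraicClosure K), IsAlgebraic k m →
        m = ∑ i ∈ Finset.range n, algebraMap K (AlgebraicClosure K) (b i) * z ^ i →
        m = algebraMap K (AlgebraicClosure K) (b 0)) ∧ z ≠ 0 ∧
      z ^ 4 - 2 * algebraMap K (AlgebraicClosure K) (2 * t ^ 3 - algebraMap k K A * t) * z ^ 2 +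
        algebraMap K (AlgebraicClosure K) (algebraMap k K B * t ^ 2) = 0 := by
    by_cases hB : B = 0
    · have hde : d = e := by
        rw [hB, map_zero] at hdiff
        exact sub_eq_zero.1 (pow_eq_zero_iff two_ne_zero |>.1 hdiff)
      refine ⟨2, 2 * α, X ^ 2 - C (2 * (2 * t ^ 3 - algebraMap k K A * t)), by norm_num,
        fun _ => le_rfl, monic_X_pow_sub_C _ two_ne_zero, natDegree_X_pow_sub_C, two_ne_zero,
        ?_, ?_, ?_, ?_⟩
      · rw [map_sub, map_pow, aeval_X, aeval_C, map_mul, hP, map_ofNat, ← hde]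
        linear_combination 4 * hα
      · intro b m hm hsum'
        rw [Finset.sum_range_succ, Finset.sum_range_one, pow_zero, pow_one, mul_one] at hsum'
        obtain ⟨h1, -⟩ := indep_two M hα hf
          (a := algebraMap K (AlgebraicClosure K) (b 0) - m)
          (b := algebraMap K (AlgebraicClosure K) (b 1) * 2)
          (M.sub_mem (hKM _) (halgM m hm)) (M.mul_mem (hKM _) m2)
          (by linear_combination -hsum')
        exact (sub_eq_zero.1 h1).symm
      · intro h
        have h1 : α = 0 := by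
          rcases mul_eq_zero.1 h with h' | h'
          · exact absurd h' two_ne_zero
          · exact h'
        exact hf 0 M.zero_mem (by rw [← hα, h1])
      · rw [hP, hQ, ← hde]
        linear_combination (16 * (α ^ 2 + (T ^ 3 - d * T)) - 8 * (2 * T ^ 3 - (d + d) * T)) * hα
    · have hde : d ≠ e := by
        intro h
        apply hB
        rw [h, sub_self, zero_pow two_ne_zero] at hdiff
        exact (_root_.map_eq_zero (algebraMap k (AlgebraicClosure K))).1 hdiff.symm
      have hquart : (α + β) ^ 4 - 2 * (2 * T ^ 3 - (d + e) * T) * (α + β) ^ 2 +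
          (d - e) ^ 2 * T ^ 2 = 0 := by
        have h2 : (α + β) ^ 2 = (T ^ 3 - d * T) + (T ^ 3 - e * T) + 2 * (α * β) := by
          linear_combination hα + hβ
        have h4 : (α + β) ^ 4 = ((T ^ 3 - d * T) + (T ^ 3 - e * T) + 2 * (α * β)) ^ 2 := by
          rw [← h2]
          ring
        have h5 : (α * β) ^ 2 = (T ^ 3 - d * T) * (T ^ 3 - e * T) := by
          rw [mul_pow, hα, hβ]
        rw [h4, h2]
        linear_combination 4 * h5
      refine ⟨4, α + β, X ^ 4 - C (2 * (2 * t ^ 3 - algebraMap k K A * t)) * X ^ 2 +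
        C (algebraMap k K B * t ^ 2), le_rfl, fun h => absurd h hB, ?_, ?_, by norm_num, ?_, ?_, ?_, ?_⟩
      · monicity!
      · compute_degree!
      · simp only [map_add, map_sub, map_mul, map_pow, aeval_X, aeval_C, map_ofNat] at hP hQ ⊢
        rw [hP, hQ]
        exact hquart
      · intro b m hm hsum'
        rw [Finset.sum_range_succ, Finset.sum_range_succ, Finset.sum_range_succ, Finset.sum_range_one,
          pow_zero, pow_one, mul_one] at hsum'
        obtain ⟨F, hF⟩ : ∃ F, F = T ^ 3 - d * T := ⟨_, rfl⟩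
        obtain ⟨G, hG⟩ : ∃ G, G = T ^ 3 - e * T := ⟨_, rfl⟩
        rw [← hF] at hα hfM
        rw [← hG] at hβ hgM
        obtain ⟨b0, hb0⟩ : ∃ y, y = algebraMap K (AlgebraicClosure K) (b 0) := ⟨_, rfl⟩
        obtain ⟨b1, hb1⟩ : ∃ y, y = algebraMap K (AlgebraicClosure K) (b 1) := ⟨_, rfl⟩
        obtain ⟨b2, hb2⟩ : ∃ y, y = algebraMap K (AlgebraicClosure K) (b 2) := ⟨_, rfl⟩
        obtain ⟨b3, hb3⟩ : ∃ y, y = algebraMap K (AlgebraicClosure K) (b 3) := ⟨_, rfl⟩
        rw [← hb0, ← hb1, ← hb2, ← hb3] at hsum'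
        rw [← hb0]
        have hm0 : b0 ∈ M := hb0 ▸ hKM _
        have hm1 : b1 ∈ M := hb1 ▸ hKM _
        have hm2 : b2 ∈ M := hb2 ▸ hKM _
        have hm3 : b3 ∈ M := hb3 ▸ hKM _
        have m3 : (3 : AlgebraicClosure K) ∈ M := by
          have := M.add_mem m2 M.one_mem
          rwa [two_add_one_eq_three] at this
        have hfgM : ∀ s ∈ M, s ^ 2 ≠ F * G := by
          rw [hF, hG]
          exact hfg' hde
        obtain ⟨h0, h1, h2, h3⟩ := indep_four M hfM hgM hα hβ (hF ▸ hf) (hG ▸ hg) hfgM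
          (a := b0 - m + b2 * (F + G)) (b := b1 + b3 * (F + 3 * G)) (c := b1 + b3 * (3 * F + G))
          (d := b2 * 2)
          (M.add_mem (M.sub_mem hm0 (halgM m hm)) (M.mul_mem hm2 (M.add_mem hfM hgM)))
          (M.add_mem hm1 (M.mul_mem hm3 (M.add_mem hfM (M.mul_mem m3 hgM))))
          (M.add_mem hm1 (M.mul_mem hm3 (M.add_mem (M.mul_mem m3 hfM) hgM)))
          (M.mul_mem hm2 m2)
          (by linear_combination -hsum' - (b2 + b3 * (α + 3 * β)) * hα - (b2 + b3 * (3 * α + β)) * hβ)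
        have h4 : b2 = 0 := (mul_eq_zero.1 h3).resolve_right two_ne_zero
        rw [h4, zero_mul, add_zero] at h0
        exact (sub_eq_zero.1 h0).symm
      · intro h
        have hfgM := hfg' hde
        obtain ⟨-, h1, -, -⟩ := indep_four M hfM hgM hα hβ hf hg hfgM
          (a := 0) (b := 1) (c := 1) (d := 0) M.zero_mem M.one_mem M.one_mem M.zero_mem
          (by linear_combination h)
        exact one_ne_zero h1
      · rw [hP, hQ]
        exact hquart
  obtain ⟨n, z, q, hn4, hn2, hq, hqn, hn0, hz, hind, hz0, hquart⟩ := hcard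
  obtain ⟨K', i1, i2, i3, i4, z', h1, h2, h3, h4, h5, h6⟩ :=
    cof_finish_gen hk hq hqn hn0 hn4 hz hind hz0 hquart
  refine ⟨K', i1, i2, i3, i4, t, z', h1, h2.trans hn4, fun hB => h2.trans (hn2 hB), h3, ht, h4, h5, ?_⟩
  intro V hV
  obtain ⟨V', hV'⟩ := exists_over (L := K') V
  have h7 := hxS V (hSfin.mem_toFinset.2 hV)
  exact ⟨V', ratPlace_over (hS V hV) h7.2.1 h7.2.2 hl h4 h5 h6 hV', hV'⟩

end Pool.Agent.Lib.MP_2f3286_ag.UA
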