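import Pool.Agent.Lib.MP_2f3286_ag.UA.HSha
import Pool.Agent.Lib.MP_2f3286_ag.UA.AB
import Pool.Agent.Lib.MP_2f3286_ag.UA.Cp5

/-!
# Over every number field: an elliptic curve with few points and no Tate-Shafarevich group, and a
cofinal system of curves with a point of this elliptic curve
-/

open WeierstrassCurve WeierstrassCurve.Affine
open NumberField IsDedekindDomain

namespace Pool.Agent.Lib.MP_2f3286_ag.UA

universe u w x

theorem isCM_Wd {F : Type*} [Field F] (d : F) {i : F} (hi : i ^ 2 = -1) : IsCM (Wd d) i :=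
  ⟨rfl, rfl, rfl, rfl, hi⟩

/-- the point on the first curve -/
theorem point_of_quartic {M : Type*} [Field M] (h2 : (2 : M) ≠ 0) {t z d e : M} (hz : z ≠ 0)
    (h : z ^ 4 - 2 * (2 * t ^ 3 - (d + e) * t) * z ^ 2 + (d - e) ^ 2 * t ^ 2 = 0) :
    ((z + (e - d) * t / z) / 2) ^ 2 = t ^ 3 - d * t := by
  obtain ⟨w, hw⟩ : ∃ w, w = (e - d) * t / z := ⟨_, rfl⟩
  have hw2 : w * z = (e - d) * t := by rw [hw, div_mul_cancel₀ _ hz]
  rw [← hw, div_pow, div_eq_iff (pow_ne_zero 2 h2)]
  have h3 : z ^ 2 * (z ^ 2 + w ^ 2 - 2 * (2 * t ^ 3 - (d + e) * t)) = 0 := by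
    linear_combination h + (w * z + (e - d) * t) * hw2
  have h4 := (mul_eq_zero.1 h3).resolve_left (pow_ne_zero 2 hz)
  linear_combination h4 + 2 * hw2

open scoped Classical in
/-- **Existence and cofinality.** -/
theorem exists_least (k : Type u) [Field k] [NumberField k] :
    ∃ (F : Type u) (_ : Field F) (_ : NumberField F) (_ : Algebra k F)
      (_ : Algebra F (AlgebraicClosure k)) (_ : IsScalarTower k F (AlgebraicClosure k)) (i d : F),
      (i ^ 2 = -1 ∧ (∀ c : F, c ∈ IntermediateField.adjoin k {i}) ∧ d ≠ 0 ∧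
        (∀ Q : (Wd d).toAffine.Point, IsOfFinAddOrder Q ∧
          ∀ n : ℕ, 2 ^ n • Q = 0 → Q = 0 ∨ ∃ h, Q = Point.some 0 0 h) ∧
        ShaTwoKilledBy (Wd d) 0) ∧
      ∀ (K : Type w) [Field K] [Algebra k K], Algebra.trdeg k K = 1 →
        (⊤ : IntermediateField k K).FG → (∀ a : K, IsAlgebraic k a → ∃ c : k, a = algebraMap k K c) →
        ∀ S : Set (ValuationSubring K), S.Finite → (∀ V ∈ S, RatPlace k V) →
        ∃ (K' : Type w) (_ : Field K') (_ : Algebra K K') (_ : Algebra k K')
          (_ : IsScalarTower k K K'),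
          FiniteDimensional K K' ∧ Module.finrank K K' ≤ 4 ∧
          (IsSquare (-1 : k) → Module.finrank K K' ≤ 2) ∧
          (∀ a : K', IsAlgebraic k a → ∃ c : k, a = algebraMap k K' c) ∧
          (∀ (M : Type x) [Field M] [Algebra K' M] [Algebra (AlgebraicClosure k) M] [Algebra k M]
            [IsScalarTower k K' M] [IsScalarTower k (AlgebraicClosure k) M]
            [Algebra F M] [IsScalarTower F (AlgebraicClosure k) M],
            ∃ x ∈ IntermediateField.adjoin K' (Set.range (algebraMap F M)),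
              ∃ y ∈ IntermediateField.adjoin K' (Set.range (algebraMap F M)),
                Transcendental F x ∧
                y ^ 2 = x ^ 3 + algebraMap F M (-d) * x + algebraMap F M 0) ∧
          ∀ V ∈ S, ∃ V' : ValuationSubring K', RatPlace k V' ∧
            V'.comap (algebraMap K K') = V := by
  obtain ⟨A, B, F, iF, iN, iA, i, d, e, hi, hd, hns, hsel, he0, hns', hA, hB, hAB, h1, h2, h3⟩ :=
    exists_AB k
  have hfin : FiniteDimensional k F := FiniteDimensional.right ℚ k F
  let iFb : Algebra F (AlgebraicClosure k) :=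
    (IsAlgClosed.lift (R := k) (S := F) (M := AlgebraicClosure k)).toRingHom.toAlgebra
  have iT : IsScalarTower k F (AlgebraicClosure k) := IsScalarTower.of_algebraMap_eq fun a =>
    ((IsAlgClosed.lift (R := k) (S := F) (M := AlgebraicClosure k)).commutes a).symm
  have hcm : IsCM (Wd d) i := isCM_Wd d hi
  refine ⟨F, iF, iN, iA, iFb, iT, i, d, ⟨hi, ?_, hd, ?_, ?_⟩, ?_⟩
  · intro c
    obtain ⟨a, b, rfl⟩ := h3 c
    exact add_mem (IntermediateField.algebraMap_mem _ _) (mul_mem
      (IntermediateField.algebraMap_mem _ _) (IntermediateField.mem_adjoin_simple_self k i))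
  · intro Q
    obtain ⟨g1, g2⟩ := tors hcm hd rfl hsel Q
    refine ⟨g1, fun n hn => ?_⟩
    rcases g2 n hn with g3 | g3
    · exact Or.inl g3
    · exact Or.inr ⟨_, g3⟩
  · exact shaTwo hcm hd rfl hsel
  · intro K _ _ htr hfg hk S hSfin hS
    obtain ⟨K', j1, j2, j3, j4, t, z, g1, g2, g3, g4, g5, g6, g7, g8⟩ :=
      cofinal_pts A B hAB htr hfg hk S hSfin hS
    refine ⟨K', j1, j2, j3, j4, g1, g2, fun h => g3 (h1 h), g4, ?_, g8⟩
    intro M _ _ _ _ _ _ _ _
    have t1 : IsScalarTower k F M := IsScalarTower.of_algebraMap_eq fun a => by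
      rw [IsScalarTower.algebraMap_apply F (AlgebraicClosure k) M,
        ← IsScalarTower.algebraMap_apply k F (AlgebraicClosure k),
        ← IsScalarTower.algebraMap_apply k (AlgebraicClosure k) M]
    have hM2 : (2 : M) ≠ 0 := by
      have : CharZero M := charZero_of_injective_algebraMap (algebraMap k M).injective
      exact two_ne_zero
    obtain ⟨T, hT⟩ : ∃ T, T = algebraMap K' M (algebraMap K K' t) := ⟨_, rfl⟩
    obtain ⟨Z, hZ⟩ : ∃ Z, Z = algebraMap K' M z := ⟨_, rfl⟩
    have hZ0 : Z ≠ 0 := by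
      rw [hZ, Ne, _root_.map_eq_zero]
      exact g6
    have hkM : ∀ c : k, algebraMap K' M (algebraMap K K' (algebraMap k K c)) = algebraMap k M c := by
      intro c
      rw [← IsScalarTower.algebraMap_apply k K K', ← IsScalarTower.algebraMap_apply k K' M]
    have hq : Z ^ 4 - 2 * (2 * T ^ 3 - (algebraMap F M d + algebraMap F M e) * T) * Z ^ 2 +
        (algebraMap F M d - algebraMap F M e) ^ 2 * T ^ 2 = 0 := by
      have h5 := congrArg (algebraMap K' M) g7
      simp only [map_sub, map_add, map_mul, map_pow, map_ofNat, _root_.map_zero] at h5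
      rw [hkM, hkM, IsScalarTower.algebraMap_apply k F M A, IsScalarTower.algebraMap_apply k F M B,
        hA, hB, ← hT, ← hZ] at h5
      simp only [map_sub, map_add, map_pow] at h5
      exact h5
    have hTm : T ∈ IntermediateField.adjoin K' (Set.range (algebraMap F M)) := by
      rw [hT]
      exact IntermediateField.algebraMap_mem _ _
    have hZm : Z ∈ IntermediateField.adjoin K' (Set.range (algebraMap F M)) := by
      rw [hZ]
      exact IntermediateField.algebraMap_mem _ _
    have hFm : ∀ c : F, algebraMap F M c ∈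
        IntermediateField.adjoin K' (Set.range (algebraMap F M)) := fun c =>
      IntermediateField.subset_adjoin _ _ ⟨c, rfl⟩
    have h2m : (2 : M) ∈ IntermediateField.adjoin K' (Set.range (algebraMap F M)) := by
      have := hFm 2
      rwa [map_ofNat] at this
    refine ⟨T, hTm, (Z + (algebraMap F M e - algebraMap F M d) * T / Z) / 2,
      div_mem (add_mem hZm (div_mem (mul_mem (sub_mem (hFm _) (hFm _)) hTm) hZm)) h2m, ?_, ?_⟩
    · intro halg
      have hkF : Algebra.IsAlgebraic k F := inferInstance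
      have h5 : IsAlgebraic k T := halg.restrictScalars k
      rw [hT] at h5
      have h6 : IsAlgebraic k t := (isAlgebraic_algebraMap_iff (algebraMap K K').injective).1
        ((isAlgebraic_algebraMap_iff (algebraMap K' M).injective).1 h5)
      obtain ⟨c, hc⟩ := hk t h6
      exact g5 c hc
    · rw [point_of_quartic hM2 hZ0 hq, map_neg, _root_.map_zero]
      ring

end Pool.Agent.Lib.MP_2f3286_ag.UA
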