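import Pool.Agent.Lib.MP_2f3286_ag.E.Height

/-!
# Torsion is finite; large fields
-/

open WeierstrassCurve WeierstrassCurve.Affine WeierstrassCurve.Affine.Point
open NumberField Polynomial
open Pool.Agent.Lib.MP_2f3286_ag.E

namespace Pool.Agent.Lib.MP_2f3286_ag.UA

/-- the height of a torsion point -/
theorem ht_le_of_torsion {K : Type*} [Field K] [DecidableEq K] [NumberField K] {W : Affine K}
    [W.IsShortNF] [WeierstrassCurve.IsElliptic W] {C : ℝ}
    (hC : ∀ P Q : W.Point, |ht (P + Q) + ht (P - Q) - 2 * ht P - 2 * ht Q| ≤ C)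
    {P : W.Point} (hP : IsOfFinAddOrder P) : ht P ≤ C := by
  classical
  -- the multiples
  have hfin : (Set.range fun n : ℕ => n • P).Finite :=
    hP.finite_multiples
  have hne : (hfin.toFinset).Nonempty := ⟨0 • P, hfin.mem_toFinset.2 ⟨0, rfl⟩⟩
  obtain ⟨T, hT, hmax⟩ := hfin.toFinset.exists_max_image (fun T => ht T) hne
  obtain ⟨n, rfl⟩ : ∃ n : ℕ, n • P = T := by simpa using hT
  have h2 := hC (n • P) (n • P)
  rw [sub_self, ht_zero, abs_le] at h2
  have h3 : ht (n • P + n • P) ≤ ht (n • P) := by
    refine hmax _ ?_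
    rw [hfin.mem_toFinset]
    exact ⟨n + n, add_smul n n P⟩
  have h4 : ht P ≤ ht (n • P) := by
    refine hmax _ ?_
    rw [hfin.mem_toFinset]
    exact ⟨1, one_smul _ _⟩
  have h5 := ht_nonneg (n • P)
  linarith [h2.1]

/-- the torsion points are finitely many -/
theorem finite_of_torsion {K : Type*} [Field K] [DecidableEq K] [NumberField K] (W : Affine K)
    [W.IsShortNF] [WeierstrassCurve.IsElliptic W] (h : ∀ P : W.Point, IsOfFinAddOrder P) :
    Finite W.Point := by
  obtain ⟨C, hC⟩ := parallelogram W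
  have h1 := finite_ht (W := W) C
  have h2 : {P : W.Point | ht P ≤ C} = Set.univ := Set.eq_univ_of_forall fun P =>
    ht_le_of_torsion hC (h P)
  rw [h2] at h1
  exact Set.finite_univ_iff.1 h1

/-- `L` is a large field: every curve over `L` with a smooth rational point has infinitely many
rational points. -/
def IsLarge (L : Type*) [Field L] : Prop :=
  ∀ (f : L[X][X]) (a b : L), f.evalEval a b = 0 → f.derivative.evalEval a b ≠ 0 →
    {q : L × L | f.evalEval q.1 q.2 = 0}.Infinite

end Pool.Agent.Lib.MP_2f3286_ag.UA
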