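import Pool.Agent.Lib.MP_2f3286_ag.UA.XF
import Pool.Agent.Lib.MP_2f3286_ag.UA.HEx
import Pool.Agent.Lib.MP_2f3286_ag.UA.LG0

/-!
# A section with large fixed field is the section of a rational place
-/

open WeierstrassCurve WeierstrassCurve.Affine WeierstrassCurve.Affine.Point
open NumberField Polynomial
open Pool.Agent.Lib.MP_2f3286_ag

namespace Pool.Agent.Lib.MP_2f3286_ag.UA

universe u v

/-- the curve at its smooth rational point at infinity -/
noncomputable def infPoly {L : Type*} [Field L] (A B : L) : L[X][X] :=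
  C (C B * X ^ 4) * X ^ 3 + C (C (2 * A) * X ^ 2) * X ^ 2 + X - C (C 4 * X ^ 2)

theorem infPoly_eval {L : Type*} [Field L] (A B p s : L) :
    (infPoly A B).evalEval p s = B * p ^ 4 * s ^ 3 + 2 * A * p ^ 2 * s ^ 2 + s - 4 * p ^ 2 := by
  simp [infPoly, evalEval]

theorem infPoly_deriv {L : Type*} [Field L] (A B : L) :
    (derivative (infPoly A B)).evalEval 0 0 = 1 := by
  simp [infPoly, evalEval, derivative_pow]

/-- from the coordinates at infinity to the coordinates `t`, `z` -/
theorem curve_of_inf {L : Type*} [Field L] {A B p s : L} (hs : s ≠ 0) (hp : p ≠ 0)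
    (h : B * p ^ 4 * s ^ 3 + 2 * A * p ^ 2 * s ^ 2 + s - 4 * p ^ 2 = 0) :
    ((s * p)⁻¹) ^ 4 - 2 * (2 * (s⁻¹) ^ 3 - A * s⁻¹) * ((s * p)⁻¹) ^ 2 + B * (s⁻¹) ^ 2 = 0 := by
  field_simp
  linear_combination h

/-- the curve has finitely many points if the elliptic curve has -/
theorem finite_inf {F : Type*} [Field F] [CharZero F] {i : F} (hi : i ^ 2 = -1) {d : F} (e : F)
    (hd : d ≠ 0) (hfin : Finite (Wd d).toAffine.Point) :
    {q : F × F | (d - e) ^ 2 * q.1 ^ 4 * q.2 ^ 3 + 2 * (d + e) * q.1 ^ 2 * q.2 ^ 2 + q.2 -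
      4 * q.1 ^ 2 = 0}.Finite := by
  classical
  have hcm : IsCM (Wd d) i := isCM_Wd d hi
  -- the coordinates of the points
  have hX : {t : F | ∃ y : F, (Wd d).toAffine.Nonsingular t y}.Finite := by
    refine (Set.finite_range fun P : (Wd d).toAffine.Point => P.xRep 0).subset ?_
    rintro t ⟨y, hy⟩
    exact ⟨Point.some t y hy, rfl⟩
  have hT : ∀ t : F, {q : F × F | q.2 ≠ 0 ∧ q.2 = t⁻¹ ∧ (d - e) ^ 2 * q.1 ^ 4 * q.2 ^ 3 +
      2 * (d + e) * q.1 ^ 2 * q.2 ^ 2 + q.2 - 4 * q.1 ^ 2 = 0}.Finite := by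
    intro t
    obtain ⟨P, hP⟩ : ∃ P : F[X], P = C ((d - e) ^ 2 * (t⁻¹) ^ 3) * X ^ 4 +
      C (2 * (d + e) * (t⁻¹) ^ 2 - 4) * X ^ 2 + C t⁻¹ := ⟨_, rfl⟩
    by_cases ht : t⁻¹ = 0
    · refine Set.finite_empty.subset ?_
      rintro q ⟨h1, h2, -⟩
      exact absurd (h2.trans ht) h1
    have hP0 : P ≠ 0 := by
      intro h
      apply ht
      have := congrArg (fun Q : F[X] => Q.eval 0) h
      simpa [hP] using this
    have h1 : (P.rootSet F).Finite := P.rootSet_finite F
    refine (h1.image fun p => (p, t⁻¹)).subset ?_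
    rintro ⟨p, s⟩ ⟨-, rfl, h3⟩
    refine ⟨p, ?_, rfl⟩
    rw [mem_rootSet]
    refine ⟨hP0, ?_⟩
    rw [hP]
    simp only [map_add, map_mul, aeval_X, aeval_C, map_pow, Algebra.algebraMap_self_apply]
    linear_combination h3
  refine ((Set.finite_singleton ((0 : F), (0 : F))).union (hX.biUnion fun t _ => hT t)).subset ?_
  rintro ⟨p, s⟩ hq
  have hq' : (d - e) ^ 2 * p ^ 4 * s ^ 3 + 2 * (d + e) * p ^ 2 * s ^ 2 + s - 4 * p ^ 2 = 0 := hq
  by_cases hs : s = 0
  · subst hs
    left
    have h1 : p ^ 2 = 0 := by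
      have h4 : (4 : F) ≠ 0 := by norm_num
      have h5 : (4 : F) * p ^ 2 = 0 := by linear_combination -hq'
      exact (mul_eq_zero.1 h5).resolve_left h4
    rw [pow_eq_zero_iff two_ne_zero] at h1
    rw [h1]
    rfl
  · right
    have hp : p ≠ 0 := by
      rintro rfl
      apply hs
      linear_combination hq'
    have h1 := curve_of_inf hs hp hq'
    have h2 := point_of_quartic two_ne_zero (inv_ne_zero (mul_ne_zero hs hp)) h1
    have h3 : (Wd d).toAffine.Nonsingular s⁻¹ (((s * p)⁻¹ + (e - d) * s⁻¹ / (s * p)⁻¹) / 2) := by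
      refine hcm.nonsing_of_eqn two_ne_zero (neg_ne_zero.2 hd) ?_
      change _ = (s⁻¹) ^ 3 + (-d) * s⁻¹
      rw [h2]
      ring
    refine Set.mem_biUnion (show s⁻¹ ∈ _ from ⟨_, h3⟩) ⟨hs, (inv_inv s).symm, hq'⟩

open scoped Classical in
/-- **A section whose fixed field is large is the section of a rational place.** -/
theorem place_of_large {k : Type u} [Field k] [NumberField k]
    {K : Type*} [Field K] [Algebra k K] (htr : Algebra.trdeg k K = 1)
    {M : Type*} [Field M] [Algebra K M] [IsGalois K M]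
    [Algebra (AlgebraicClosure k) M] [Algebra k M]
    [IsScalarTower k K M] [IsScalarTower k (AlgebraicClosure k) M] [IsAlgClosed M]
    (s : Gal(AlgebraicClosure k/k) →* Gal(M/K)) (hs : Continuous s)
    (hsec : ∀ σ a, s σ (algebraMap (AlgebraicClosure k) M a) =
      algebraMap (AlgebraicClosure k) M (σ a))
    (hL : IsLarge (IntermediateField.fixedField s.range)) :
    ∃ (A₀ : ValuationSubring M) (ψ₀ : A₀ →+* AlgebraicClosure k), IsOnlyPlaceFin s A₀ ψ₀ := by
  obtain ⟨A, B, F, iF, iN, iA, i, d, e, hi, hd, hns, hsel, he0, hns', hA, hB, hAB, h1, h2, h3⟩ :=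
    exists_AB k
  have hfin : FiniteDimensional k F := FiniteDimensional.right ℚ k F
  let iFb : Algebra F (AlgebraicClosure k) :=
    (IsAlgClosed.lift (R := k) (S := F) (M := AlgebraicClosure k)).toRingHom.toAlgebra
  have iT : IsScalarTower k F (AlgebraicClosure k) := IsScalarTower.of_algebraMap_eq fun a =>
    ((IsAlgClosed.lift (R := k) (S := F) (M := AlgebraicClosure k)).commutes a).symm
  let iFM : Algebra F M :=
    ((algebraMap (AlgebraicClosure k) M).comp (algebraMap F (AlgebraicClosure k))).toAlgebra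
  have iT2 : IsScalarTower F (AlgebraicClosure k) M := IsScalarTower.of_algebraMap_eq fun a => rfl
  have t3 : IsScalarTower k F M := IsScalarTower.of_algebraMap_eq fun a => by
    rw [IsScalarTower.algebraMap_apply F (AlgebraicClosure k) M,
      ← IsScalarTower.algebraMap_apply k F (AlgebraicClosure k),
      ← IsScalarTower.algebraMap_apply k (AlgebraicClosure k) M]
  have hM0 : CharZero M := charZero_of_injective_algebraMap (algebraMap k M).injective
  have hcm : IsCM (Wd d) i := isCM_Wd d hi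
  have hcm0 : IsCM (Wd d).toAffine i := hcm
  have i1 : (Wd d).IsShortNF := hcm.isShortNF
  have i2 : (Wd d).IsElliptic := hcm.isElliptic two_ne_zero (neg_ne_zero.2 hd)
  have htors : ∀ Q : ((Wd d)⁄F).Point, IsOfFinAddOrder Q := fun Q => (tors hcm hd rfl hsel Q).1
  have hsha : ShaKilledByPow (Wd d) 2 0 := shaTwo hcm hd rfl hsel
  have hfinE : Finite (Wd d).toAffine.Point :=
    finite_of_torsion (Wd d).toAffine fun Q => (tors hcm hd rfl hsel Q).1
  -- the fixed field
  obtain ⟨L, hLdef⟩ : ∃ L : IntermediateField K M, L = IntermediateField.fixedField s.range :=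
    ⟨_, rfl⟩
  rw [← hLdef] at hL
  have hLs : ∀ z ∈ L, ∀ σ, s σ z = z := by
    intro z hz σ
    rw [hLdef, IntermediateField.mem_fixedField_iff] at hz
    exact hz _ ⟨σ, rfl⟩
  have hkL : ∀ c : k, algebraMap k M c ∈ L := by
    intro c
    rw [IsScalarTower.algebraMap_apply k K M]
    exact L.algebraMap_mem _
  -- the elements of `L` which are algebraic over `k`
  have hLk : ∀ z ∈ L, IsAlgebraic k z → ∃ c : k, z = algebraMap k M c := by
    intro z hz h
    by_contra hcon
    push Not at hcon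
    exact HYP.const_of_fixF s hsec (F := k) (AlgEquiv.refl) (fun σ _ => hLs z hz σ) hcon h
  obtain ⟨AL, hAL⟩ : ∃ AL : L, (AL : M) = algebraMap k M A := ⟨⟨_, hkL A⟩, rfl⟩
  obtain ⟨BL, hBL⟩ : ∃ BL : L, (BL : M) = algebraMap k M B := ⟨⟨_, hkL B⟩, rfl⟩
  have hinf := hL (infPoly AL BL) 0 0 (by rw [infPoly_eval]; ring)
    (by rw [infPoly_deriv]; exact one_ne_zero)
  have hval : ∀ q : L × L, (infPoly AL BL).evalEval q.1 q.2 = 0 →
      algebraMap k M B * (q.1 : M) ^ 4 * (q.2 : M) ^ 3 + 2 * algebraMap k M A * (q.1 : M) ^ 2 *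
        (q.2 : M) ^ 2 + (q.2 : M) - 4 * (q.1 : M) ^ 2 = 0 := by
    intro q hq
    rw [infPoly_eval] at hq
    have h := congrArg (algebraMap L M) hq
    simp only [map_sub, map_add, map_mul, map_pow, map_ofNat, _root_.map_zero] at h
    rw [← hAL, ← hBL]
    exact h
  obtain ⟨q, hq, hqt⟩ : ∃ q : L × L, (infPoly AL BL).evalEval q.1 q.2 = 0 ∧
      ¬ IsAlgebraic k (q.2 : M) := by
    by_contra hcon
    push Not at hcon
    apply hinf
    let ψ : k × k → F × F := fun r => (algebraMap k F r.1, algebraMap k F r.2)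
    have hψ : Function.Injective ψ := fun r r' h => Prod.ext
      ((algebraMap k F).injective (congrArg Prod.fst h))
      ((algebraMap k F).injective (congrArg Prod.snd h))
    let φ : k × k → L × L := fun r => (⟨_, hkL r.1⟩, ⟨_, hkL r.2⟩)
    refine (((finite_inf hi e hd hfinE).preimage (f := ψ) hψ.injOn).image φ).subset ?_
    intro q hq
    obtain ⟨b, hb⟩ := hLk _ q.2.2 (hcon q hq)
    have hq1 := hval q hq
    have hpa : IsAlgebraic k (q.1 : M) := by
      refine ⟨C (B * b ^ 3) * X ^ 4 + C (2 * A * b ^ 2 - 4) * X ^ 2 + C b, ?_, ?_⟩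
      · intro h
        have hb0 : b = 0 := by
          have := congrArg (fun Q : k[X] => Q.eval 0) h
          simpa using this
        subst hb0
        have := congrArg (fun Q : k[X] => Q.eval 1) h
        norm_num at this
      · simp only [map_add, map_mul, aeval_X, aeval_C, map_pow, map_sub, map_ofNat]
        rw [hb] at hq1
        linear_combination hq1
    obtain ⟨a, ha⟩ := hLk _ q.1.2 hpa
    refine ⟨(a, b), ?_, Prod.ext (Subtype.ext ha.symm) (Subtype.ext hb.symm)⟩
    have h5 : B * a ^ 4 * b ^ 3 + 2 * A * a ^ 2 * b ^ 2 + b - 4 * a ^ 2 = 0 := by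
      apply (algebraMap k M).injective
      rw [ha, hb] at hq1
      simp only [map_sub, map_add, map_mul, map_pow, map_ofNat, _root_.map_zero]
      exact hq1
    have h6 := congrArg (algebraMap k F) h5
    simp only [map_sub, map_add, map_mul, map_pow, map_ofNat, _root_.map_zero] at h6
    rw [hA, hB] at h6
    exact h6
  -- the point
  have hq1 := hval q hq
  have hs0 : (q.2 : M) ≠ 0 := by
    intro h
    rw [h] at hqt
    exact hqt isAlgebraic_zero
  have hp0 : (q.1 : M) ≠ 0 := by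
    intro h
    rw [h] at hq1
    apply hs0
    linear_combination hq1
  have hA' : algebraMap k M A = algebraMap F M d + algebraMap F M e := by
    rw [← map_add, ← hA, ← IsScalarTower.algebraMap_apply]
  have hB' : algebraMap k M B = (algebraMap F M d - algebraMap F M e) ^ 2 := by
    rw [← map_sub, ← map_pow, ← hB, ← IsScalarTower.algebraMap_apply]
  rw [hA', hB'] at hq1
  have hcv := curve_of_inf hs0 hp0 hq1
  have hpt := point_of_quartic two_ne_zero (inv_ne_zero (mul_ne_zero hs0 hp0)) hcv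
  obtain ⟨y, hy⟩ : ∃ y : M, y = (((q.2 : M) * q.1)⁻¹ + (algebraMap F M e - algebraMap F M d) *
      (q.2 : M)⁻¹ / ((q.2 : M) * q.1)⁻¹) / 2 := ⟨_, rfl⟩
  rw [← hy] at hpt
  have hns : ((Wd d)⁄M).Nonsingular (q.2 : M)⁻¹ y := by
    have h1 : ((Wd d)⁄M).Equation (q.2 : M)⁻¹ y := by
      rw [Affine.equation_iff]
      change y ^ 2 + algebraMap F M 0 * (q.2 : M)⁻¹ * y + algebraMap F M 0 * y =
        ((q.2 : M)⁻¹) ^ 3 + algebraMap F M 0 * ((q.2 : M)⁻¹) ^ 2 +
          algebraMap F M (-d) * (q.2 : M)⁻¹ + algebraMap F M 0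
      rw [_root_.map_zero, _root_.map_neg]
      linear_combination hpt
    exact (Affine.equation_iff_nonsingular).1 h1
  refine one_field (Wd d) htors Nat.prime_two hsha htr s hs hsec (x := (q.2 : M)⁻¹) (y := y)
    (fun σ hσ => ?_) hns (fun c hc => hqt ?_)
  · have e1 : s σ (q.2 : M) = q.2 := hLs _ q.2.2 σ
    have e2 : s σ (q.1 : M) = q.1 := hLs _ q.1.2 σ
    have e3 : ∀ c : F, s σ (algebraMap F M c) = algebraMap F M c := by
      intro c
      rw [IsScalarTower.algebraMap_apply F (AlgebraicClosure k) M, hsec, hσ]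
    refine ⟨by rw [map_inv₀, e1], ?_⟩
    rw [hy]
    simp only [map_div₀, map_add, map_mul, map_inv₀, map_sub, e1, e2, e3, map_ofNat]
  · have h1 : IsAlgebraic k (algebraMap F M c) :=
      (Algebra.IsAlgebraic.isAlgebraic (R := k) c).algebraMap
    rw [← hc] at h1
    have h2 := h1.inv
    rwa [inv_inv] at h2

end Pool.Agent.Lib.MP_2f3286_ag.UA
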