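import Mathlib
import Pool.Agent.Lib.MP_2f3286_ag.Full.ValExt

/-!
# Places and radical extensions: preparations for the lifting of sections of places

`(A, π)` is a place of `Ω` with values in `kb`. A field `F` below `Ω` all whose values are in `k` is enlarged by
`p`-th roots.
-/

open Polynomial

namespace Pool.Agent.Lib.MP_2f3286_ag.UA

open Full (val_lt_one_iff)

section Place

variable {Ω kb : Type*} [Field Ω] [Field kb] [Algebra kb Ω] {A : ValuationSubring Ω} {π : A →+* kb}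

omit [Algebra kb Ω] in
theorem ll_zero_iff (hl : ∀ a : A, π a ≠ 0 → (a : Ω)⁻¹ ∈ A) (x : A) :
    π x = 0 ↔ A.valuation (x : Ω) < 1 := by
  rw [val_lt_one_iff]
  constructor
  · intro h
    by_cases hx : (x : Ω) = 0
    · exact Or.inl hx
    · refine Or.inr fun hinv => ?_
      have h1 : π x * π ⟨_, hinv⟩ = 1 := by
        rw [← map_mul, ← map_one π]
        congr 1
        exact Subtype.ext (mul_inv_cancel₀ hx)
      rw [h, zero_mul] at h1
      exact zero_ne_one h1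
  · rintro (h | h)
    · have h1 : x = 0 := Subtype.ext h
      rw [h1, map_zero]
    · by_contra h'
      exact h (hl x h')

omit [Algebra kb Ω] in
theorem ll_eq (hl : ∀ a : A, π a ≠ 0 → (a : Ω)⁻¹ ∈ A) {x y : A}
    (h : A.valuation ((x : Ω) - y) < 1) : π x = π y := by
  have h1 := (ll_zero_iff hl (x - y)).2 h
  rwa [map_sub, sub_eq_zero] at h1

theorem ll_const (hc : ∀ a : kb, ∃ h : algebraMap kb Ω a ∈ A, π ⟨_, h⟩ = a) {a : kb} (ha : a ≠ 0) :
    A.valuation (algebraMap kb Ω a) = 1 := by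
  obtain ⟨h1, -⟩ := hc a
  obtain ⟨h2, -⟩ := hc a⁻¹
  have h3 : A.valuation (algebraMap kb Ω a) ≤ 1 := (A.valuation_le_one_iff _).2 h1
  have h4 : A.valuation (algebraMap kb Ω a⁻¹) ≤ 1 := (A.valuation_le_one_iff _).2 h2
  rw [map_inv₀, map_inv₀] at h4
  have h5 : A.valuation (algebraMap kb Ω a) ≠ 0 := by
    rw [Valuation.ne_zero_iff]
    exact (_root_.map_ne_zero _).2 ha
  exact le_antisymm h3 ((inv_le_one₀ (zero_lt_iff.2 h5)).1 h4)

theorem ll_val {K : Type*} [Field K] [Algebra K Ω] (g : Gal(Ω/K)) (hg : ∀ x, g x ∈ A ↔ x ∈ A)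
    (x : Ω) : A.valuation (g x) < 1 ↔ A.valuation x < 1 := by
  rw [val_lt_one_iff, val_lt_one_iff, ← map_inv₀, hg, EmbeddingLike.map_eq_zero_iff]

theorem ll_act {k K : Type*} [Field k] [Field K] [Algebra k kb] [Algebra K Ω]
    (hc : ∀ a : kb, ∃ h : algebraMap kb Ω a ∈ A, π ⟨_, h⟩ = a)
    (hl : ∀ a : A, π a ≠ 0 → (a : Ω)⁻¹ ∈ A)
    (g : Gal(Ω/K)) (hg : ∀ x, g x ∈ A ↔ x ∈ A) (σ : Gal(kb/k))
    (hσ : ∀ a : kb, g (algebraMap kb Ω a) = algebraMap kb Ω (σ a)) (x : A) :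
    π ⟨g x, (hg x).2 x.2⟩ = σ (π x) := by
  obtain ⟨h1, h2⟩ := hc (π x)
  obtain ⟨h3, h4⟩ := hc (σ (π x))
  rw [← h4]
  apply ll_eq hl
  change A.valuation (g x - algebraMap kb Ω (σ (π x))) < 1
  rw [← hσ, ← map_sub, ll_val g hg]
  exact (ll_zero_iff hl (x - ⟨_, h1⟩)).1 (by rw [map_sub, h2, sub_self])

end Place

/-- elements of a radical extension -/
theorem ll_poly {F Ω : Type*} [Field F] [Field Ω] [Algebra F Ω] {ρ : Ω} {p : ℕ} (hp : 0 < p)
    {c : F} (hρ : ρ ^ p = algebraMap F Ω c) {y : Ω} (hy : y ∈ IntermediateField.adjoin F {ρ}) :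
    ∃ q : F[X], y = ∑ i ∈ Finset.range p, algebraMap F Ω (q.coeff i) * ρ ^ i := by
  have hm : (X ^ p - C c : F[X]).Monic := monic_X_pow_sub_C c hp.ne'
  have hroot : aeval ρ (X ^ p - C c : F[X]) = 0 := by
    rw [map_sub, map_pow, aeval_X, aeval_C, hρ, sub_self]
  have halg : IsAlgebraic F ρ := ⟨_, hm.ne_zero, hroot⟩
  have h1 : y ∈ (IntermediateField.adjoin F {ρ}).toSubalgebra := hy
  rw [IntermediateField.adjoin_simple_toSubalgebra_of_isAlgebraic halg,
    Algebra.adjoin_singleton_eq_range_aeval] at h1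
  obtain ⟨q, rfl⟩ := h1
  refine ⟨q %ₘ (X ^ p - C c), ?_⟩
  have h2 : (q %ₘ (X ^ p - C c)).natDegree < p := by
    have h3 := natDegree_modByMonic_lt q hm (by
      intro h
      have h4 := congrArg natDegree h
      rw [natDegree_X_pow_sub_C, natDegree_one] at h4
      omega)
    rwa [natDegree_X_pow_sub_C] at h3
  change aeval ρ q = _
  rw [← aeval_modByMonic_eq_self_of_root hroot, aeval_eq_sum_range' h2]
  exact Finset.sum_congr rfl fun i _ => Algebra.smul_def _ _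

section Root

variable {Ω : Type*} [Field Ω] {A : ValuationSubring Ω} {K : Type*} [Field K] [Algebra K Ω]
  {F : IntermediateField K Ω}

/-- powers of a `p`-th root have no value in `F` -/
theorem ll_no_pow {p : ℕ} (hp : p.Prime) {x ρ : Ω} (hxF : x ∈ F) (hx : x ≠ 0) (hρ : ρ ^ p = x)
    (hno : ∀ b ∈ F, A.valuation b ^ p ≠ A.valuation x) {r : ℕ} (hr : 0 < r) (hrp : r < p) {c : Ω}
    (hcF : c ∈ F) : A.valuation ρ ^ r ≠ A.valuation c := by
  intro h
  have hρ0 : ρ ≠ 0 := by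
    rintro rfl
    rw [zero_pow hp.ne_zero] at hρ
    exact hx hρ.symm
  have hv0 : A.valuation ρ ≠ 0 := (Valuation.ne_zero_iff _).2 hρ0
  have hc0 : c ≠ 0 := by
    rintro rfl
    rw [map_zero] at h
    exact pow_ne_zero _ hv0 h
  have hcop : Nat.Coprime r p := (Nat.coprime_of_lt_prime hr.ne' hrp hp).symm
  have hbez : (r : ℤ) * Nat.gcdA r p + (p : ℤ) * Nat.gcdB r p = 1 := by
    have h1 := Nat.gcd_eq_gcd_ab r p
    rw [hcop.gcd_eq_one] at h1
    exact_mod_cast h1.symm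
  apply hno (c ^ (Nat.gcdA r p) * x ^ (Nat.gcdB r p)) (mul_mem (zpow_mem hcF _) (zpow_mem hxF _))
  have h1 : A.valuation (c ^ (Nat.gcdA r p) * x ^ (Nat.gcdB r p)) = A.valuation ρ := by
    rw [map_mul, map_zpow₀, map_zpow₀, ← h, ← hρ, map_pow, ← zpow_natCast, ← zpow_natCast,
      ← zpow_mul, ← zpow_mul, ← zpow_add₀ hv0, hbez, zpow_one]
  rw [h1, ← map_pow, hρ]

variable {k kb : Type*} [Field k] [Field kb] [Algebra k kb] [Algebra kb Ω] {π : A →+* kb}

/-- if the value of `x` is not a `p`-th power, the `p`-th root of `x` does not give new constants -/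
theorem ll_prime (hc : ∀ a : kb, ∃ h : algebraMap kb Ω a ∈ A, π ⟨_, h⟩ = a)
    (hl : ∀ a : A, π a ≠ 0 → (a : Ω)⁻¹ ∈ A)
    (hres : ∀ a : A, (a : Ω) ∈ F → π a ∈ Set.range (algebraMap k kb))
    {p : ℕ} (hp : p.Prime) {x ρ : Ω} (hxF : x ∈ F) (hx : x ≠ 0) (hρ : ρ ^ p = x)
    (hno : ∀ b ∈ F, A.valuation b ^ p ≠ A.valuation x) {a : kb}
    (ha : algebraMap kb Ω a ∈ IntermediateField.adjoin F {ρ}) :
    a ∈ Set.range (algebraMap k kb) := by
  classical
  by_cases ha0 : a = 0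
  · exact ⟨0, by rw [ha0, map_zero]⟩
  have hρ0 : ρ ≠ 0 := by
    rintro rfl
    rw [zero_pow hp.ne_zero] at hρ
    exact hx hρ.symm
  have hv0 : A.valuation ρ ≠ 0 := (Valuation.ne_zero_iff _).2 hρ0
  obtain ⟨q, hq⟩ := ll_poly (c := (⟨x, hxF⟩ : F)) hp.pos hρ ha
  obtain ⟨f, hf⟩ : ∃ f : ℕ → Ω, ∀ i, f i = algebraMap F Ω (q.coeff i) * ρ ^ i := ⟨_, fun i => rfl⟩
  obtain ⟨T, hT⟩ : ∃ T : Finset ℕ, T = (Finset.range p).filter fun i => q.coeff i ≠ 0 := ⟨_, rfl⟩
  have hsum : algebraMap kb Ω a = ∑ i ∈ T, f i := by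
    rw [hq, hT, Finset.sum_filter]
    refine Finset.sum_congr rfl fun i _ => ?_
    rw [hf]
    split_ifs with h
    · rfl
    · rw [not_not.1 h, map_zero, zero_mul]
  have hmemT : ∀ i, i ∈ T ↔ i < p ∧ q.coeff i ≠ 0 := fun i => by
    rw [hT, Finset.mem_filter, Finset.mem_range]
  have hvf : ∀ i, A.valuation (f i) =
      A.valuation ((q.coeff i : F) : Ω) * A.valuation ρ ^ i := fun i => by
    rw [hf, map_mul, map_pow]; rfl
  have hq0 : ∀ i ∈ T, A.valuation ((q.coeff i : F) : Ω) ≠ 0 := by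
    intro i hi
    rw [Valuation.ne_zero_iff]
    intro h
    exact ((hmemT i).1 hi).2 (Subtype.ext h)
  have hkey : ∀ i ∈ T, ∀ j ∈ T, i < j → A.valuation (f i) ≠ A.valuation (f j) := by
    intro i hi j hj hij h
    obtain ⟨r, rfl⟩ := Nat.exists_eq_add_of_lt hij
    rw [hvf, hvf, show i + r + 1 = i + (r + 1) by ring, pow_add, ← mul_assoc,
      mul_comm (A.valuation ((q.coeff (i + (r + 1)) : F) : Ω)), mul_assoc, mul_comm] at h
    have h1 := mul_left_cancel₀ (pow_ne_zero _ hv0) h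
    refine ll_no_pow hp hxF hx hρ hno (Nat.succ_pos r)
      (lt_of_le_of_lt (by omega) ((hmemT _).1 hj).1)
      (div_mem (q.coeff i).2 (q.coeff (i + (r + 1))).2) ?_
    rw [map_div₀, h1]
    exact (mul_div_cancel_left₀ _ (hq0 _ hj)).symm
  have hne : T.Nonempty := by
    rw [Finset.nonempty_iff_ne_empty]
    intro h
    rw [h, Finset.sum_empty, map_eq_zero] at hsum
    exact ha0 hsum
  obtain ⟨j, hj, hmax⟩ := Finset.exists_max_image T (fun i => A.valuation (f i)) hne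
  have hlt : ∀ i ∈ T \ {j}, A.valuation (f i) < A.valuation (f j) := by
    intro i hi
    rw [Finset.mem_sdiff, Finset.mem_singleton] at hi
    refine lt_of_le_of_ne (hmax i hi.1) fun h => ?_
    rcases lt_or_gt_of_ne hi.2 with h1 | h1
    · exact hkey i hi.1 j hj h1 h
    · exact hkey j hj i hi.1 h1 h.symm
  have hvy : A.valuation (f j) = 1 := by
    rw [← ll_const hc ha0, hsum, Valuation.map_sum_eq_of_lt _ hj hlt]
  have hj0 : j = 0 := by
    by_contra h
    refine ll_no_pow hp hxF hx hρ hno (Nat.pos_of_ne_zero h) ((hmemT _).1 hj).1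
      (inv_mem (q.coeff j).2) ?_
    rw [hvf] at hvy
    rw [map_inv₀]
    exact eq_inv_of_mul_eq_one_right hvy
  subst hj0
  have hf0 : f 0 = ((q.coeff 0 : F) : Ω) := by
    rw [hf, pow_zero, mul_one]; rfl
  have hA0 : ((q.coeff 0 : F) : Ω) ∈ A := by
    rw [← A.valuation_le_one_iff, ← hf0, hvy]
  have h1 : A.valuation (algebraMap kb Ω a - ((q.coeff 0 : F) : Ω)) < 1 := by
    rw [hsum, Finset.sum_eq_add_sum_sdiff_singleton_of_mem hj, hf0, add_sub_cancel_left]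
    refine Valuation.map_sum_lt _ one_ne_zero fun i hi => ?_
    rw [← hvy]
    exact hlt i hi
  obtain ⟨h2, h3⟩ := hc a
  have h4 : π ⟨_, h2⟩ = π ⟨_, hA0⟩ := ll_eq hl h1
  rw [← h3, h4]
  exact hres ⟨_, hA0⟩ (q.coeff 0).2

end Root

end Pool.Agent.Lib.MP_2f3286_ag.UA
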