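import Mathlib
import Pool.Agent.Lib.MP_2f3286_ag.UA.LG3a

/-!
# Maximal fields with small residue field

`(A, π)` is a place of the algebraically closed field `Ω` with values in `kb`, and `F` a field below `Ω`, maximal
among the fields without elements of `kb` not in `k`. All automorphisms over `F` preserve `A`. Then the value group of
`F` is divisible, equal to that of `Ω`, and `Ω` is generated by `F` and `kb`.
-/

open Polynomial

namespace Pool.Agent.Lib.MP_2f3286_ag.UA

section Max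

variable {Ω : Type*} [Field Ω] {A : ValuationSubring Ω} {K : Type*} [Field K] [Algebra K Ω]
  {F : IntermediateField K Ω} {k kb : Type*} [Field k] [Field kb] [Algebra k kb] [Algebra kb Ω]
  {π : A →+* kb}

theorem ll_div_prime [IsAlgClosed Ω] (hc : ∀ a : kb, ∃ h : algebraMap kb Ω a ∈ A, π ⟨_, h⟩ = a)
    (hl : ∀ a : A, π a ≠ 0 → (a : Ω)⁻¹ ∈ A)
    (hres : ∀ a : A, (a : Ω) ∈ F → π a ∈ Set.range (algebraMap k kb))
    (hmax : ∀ F' : IntermediateField K Ω, F ≤ F' →
      (∀ a : kb, algebraMap kb Ω a ∈ F' → a ∈ Set.range (algebraMap k kb)) → F' ≤ F)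
    {p : ℕ} (hp : p.Prime) {x : Ω} (hxF : x ∈ F) (hx : x ≠ 0) :
    ∃ b ∈ F, A.valuation b ^ p = A.valuation x := by
  by_contra hno
  push Not at hno
  obtain ⟨ρ, hρ⟩ := IsAlgClosed.exists_pow_nat_eq x hp.pos
  have h1 : (IntermediateField.adjoin F {ρ}).restrictScalars K ≤ F := by
    refine hmax _ (fun y hy => ?_) (fun a ha => ll_prime hc hl hres hp hxF hx hρ hno ha)
    exact (IntermediateField.adjoin F {ρ}).algebraMap_mem ⟨y, hy⟩
  have h2 : ρ ∈ F := h1 (IntermediateField.mem_adjoin_simple_self F ρ)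
  refine hno ρ h2 ?_
  rw [← map_pow, hρ]

theorem ll_div [IsAlgClosed Ω] (hc : ∀ a : kb, ∃ h : algebraMap kb Ω a ∈ A, π ⟨_, h⟩ = a)
    (hl : ∀ a : A, π a ≠ 0 → (a : Ω)⁻¹ ∈ A)
    (hres : ∀ a : A, (a : Ω) ∈ F → π a ∈ Set.range (algebraMap k kb))
    (hmax : ∀ F' : IntermediateField K Ω, F ≤ F' →
      (∀ a : kb, algebraMap kb Ω a ∈ F' → a ∈ Set.range (algebraMap k kb)) → F' ≤ F)
    (n : ℕ) : 0 < n → ∀ x ∈ F, x ≠ 0 → ∃ b ∈ F, A.valuation b ^ n = A.valuation x := by
  induction n using induction_on_primes with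
  | zero => intro h; exact absurd h (lt_irrefl 0)
  | one => exact fun _ x hx _ => ⟨x, hx, pow_one _⟩
  | prime_mul p a hp ih =>
    intro h x hxF hx
    have ha : 0 < a := Nat.pos_of_mul_pos_left h
    obtain ⟨b, hb, hb'⟩ := ih ha x hxF hx
    have hb0 : b ≠ 0 := by
      rintro rfl
      rw [map_zero, zero_pow ha.ne'] at hb'
      exact (Valuation.ne_zero_iff A.valuation).2 hx hb'.symm
    obtain ⟨c, hcF, hc'⟩ := ll_div_prime hc hl hres hmax hp hb hb0
    exact ⟨c, hcF, by rw [pow_mul, hc', hb']⟩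

/-- The value group of `Ω` is that of `F`. -/
theorem ll_value [Algebra.IsAlgebraic F Ω]
    (hdiv : ∀ n : ℕ, 0 < n → ∀ x ∈ F, x ≠ 0 → ∃ b ∈ F, A.valuation b ^ n = A.valuation x)
    {z : Ω} (hz : z ≠ 0) : ∃ b ∈ F, A.valuation z = A.valuation b := by
  classical
  have hv0 : A.valuation z ≠ 0 := (Valuation.ne_zero_iff _).2 hz
  obtain ⟨q, hq0, hq⟩ := Algebra.IsAlgebraic.isAlgebraic (R := F) z
  obtain ⟨f, hf⟩ : ∃ f : ℕ → Ω, ∀ i, f i = algebraMap F Ω (q.coeff i) * z ^ i := ⟨_, fun i => rfl⟩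
  have hsum : ∑ i ∈ q.support, f i = 0 := by
    rw [← hq, aeval_def, eval₂_eq_sum, Polynomial.sum_def]
    exact Finset.sum_congr rfl fun i _ => hf i
  have hvf : ∀ i, A.valuation (f i) =
      A.valuation ((q.coeff i : F) : Ω) * A.valuation z ^ i := fun i => by
    rw [hf, map_mul, map_pow]; rfl
  have hq1 : ∀ i ∈ q.support, A.valuation ((q.coeff i : F) : Ω) ≠ 0 := by
    intro i hi
    rw [Valuation.ne_zero_iff]
    intro h
    exact (mem_support_iff.1 hi) (Subtype.ext h)
  have hf0 : ∀ i ∈ q.support, A.valuation (f i) ≠ 0 := fun i hi => by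
    rw [hvf]
    exact mul_ne_zero (hq1 i hi) (pow_ne_zero _ hv0)
  have hex : ∃ i ∈ q.support, ∃ j ∈ q.support, i < j ∧ A.valuation (f i) = A.valuation (f j) := by
    by_contra hcon
    push Not at hcon
    obtain ⟨j, hj, hmax⟩ := Finset.exists_max_image q.support (fun i => A.valuation (f i))
      (nonempty_support_iff.2 hq0)
    have h1 := Valuation.map_sum_eq_of_lt A.valuation (f := f) hj (fun i hi => by
      rw [Finset.mem_sdiff, Finset.mem_singleton] at hi
      refine lt_of_le_of_ne (hmax i hi.1) fun h => ?_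
      rcases lt_or_gt_of_ne hi.2 with h1 | h1
      · exact hcon i hi.1 j hj h1 h
      · exact hcon j hj i hi.1 h1 h.symm)
    rw [hsum, map_zero] at h1
    exact hf0 j hj h1.symm
  obtain ⟨i, hi, j, hj, hij, h⟩ := hex
  obtain ⟨r, rfl⟩ := Nat.exists_eq_add_of_lt hij
  rw [hvf, hvf, show i + r + 1 = i + (r + 1) by ring, pow_add, ← mul_assoc,
    mul_comm (A.valuation ((q.coeff (i + (r + 1)) : F) : Ω)), mul_assoc, mul_comm] at h
  have h1 := mul_left_cancel₀ (pow_ne_zero _ hv0) h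
  have hqi : (((q.coeff i : F) : Ω) / ((q.coeff (i + (r + 1)) : F) : Ω)) ≠ 0 := by
    refine div_ne_zero ?_ ?_
    · exact (Valuation.ne_zero_iff A.valuation).1 (hq1 i hi)
    · exact (Valuation.ne_zero_iff A.valuation).1 (hq1 _ hj)
  obtain ⟨b, hb, hb'⟩ := hdiv (r + 1) (Nat.succ_pos r) _
    (div_mem (q.coeff i).2 (q.coeff (i + (r + 1))).2) hqi
  refine ⟨b, hb, ?_⟩
  have h2 : A.valuation z ^ (r + 1) = A.valuation b ^ (r + 1) := by
    rw [hb', map_div₀, h1]
    exact (mul_div_cancel_left₀ _ (hq1 _ hj)).symm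
  exact (pow_left_inj₀ zero_le zero_le (Nat.succ_ne_zero r)).1 h2

theorem ll_msum {S : Multiset Ω} {f : Ω → Ω} (h : ∀ r ∈ S, A.valuation (f r) < 1) :
    A.valuation (S.map f).sum < 1 := by
  induction S using Multiset.induction_on with
  | empty => rw [Multiset.map_zero, Multiset.sum_zero, map_zero]; exact zero_lt_one
  | cons a S ih =>
    rw [Multiset.map_cons, Multiset.sum_cons]
    exact A.valuation.map_add_lt (h a (Multiset.mem_cons_self a S))
      (ih fun r hr => h r (Multiset.mem_cons_of_mem hr))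

theorem ll_msum_eq (S : Multiset Ω) (c T b u : Ω) :
    (S.map fun r => (c * r - T) / b - u).sum =
      (c * S.sum - Multiset.card S * T) / b - Multiset.card S * u := by
  induction S using Multiset.induction_on with
  | empty => simp
  | cons a S ih =>
    rw [Multiset.map_cons, Multiset.sum_cons, Multiset.sum_cons, Multiset.card_cons, ih]
    push_cast
    ring

/-- `Ω` is generated by `F` and `kb`. -/
theorem ll_top [CharZero kb] [IsAlgClosed Ω] [IsGalois F Ω]
    (hc : ∀ a : kb, ∃ h : algebraMap kb Ω a ∈ A, π ⟨_, h⟩ = a)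
    (hl : ∀ a : A, π a ≠ 0 → (a : Ω)⁻¹ ∈ A)
    (hval : ∀ z : Ω, z ≠ 0 → ∃ b ∈ F, A.valuation z = A.valuation b)
    (hact : ∀ (g : Gal(Ω/F)) (x : Ω), g x ∈ A ↔ x ∈ A) (z : Ω) :
    z ∈ IntermediateField.adjoin F (Set.range (algebraMap kb Ω)) := by
  classical
  obtain ⟨E, hE⟩ : ∃ E, E = IntermediateField.adjoin F (Set.range (algebraMap kb Ω)) := ⟨_, rfl⟩
  rw [← hE]
  have hkE : ∀ a : kb, algebraMap kb Ω a ∈ E := fun a => by
    rw [hE]
    exact IntermediateField.subset_adjoin F _ ⟨a, rfl⟩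
  have hint : IsIntegral E z := (Algebra.IsIntegral.isIntegral (R := F) z).tower_top
  obtain ⟨P, hP⟩ : ∃ P, P = minpoly E z := ⟨_, rfl⟩
  have hmon : P.Monic := by
    rw [hP]
    exact minpoly.monic hint
  obtain ⟨S, hS⟩ : ∃ S, S = P.aroots Ω := ⟨_, rfl⟩
  have hsplit : (P.map (algebraMap E Ω)).Splits := IsAlgClosed.splits _
  have hT : S.sum = algebraMap E Ω (-P.nextCoeff) := by
    have h1 := hsplit.nextCoeff_eq_neg_sum_roots_of_monic (hmon.map _)
    rw [nextCoeff_map_eq] at h1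
    rw [hS, map_neg, h1, neg_neg]
  have hcard : Multiset.card S = P.natDegree := by
    rw [hS, aroots, ← hsplit.natDegree_eq_card_roots, natDegree_map]
  have hn : Multiset.card S ≠ 0 := by
    rw [hcard, hP]
    exact (minpoly.natDegree_pos hint).ne'
  have hnΩ : A.valuation ((Multiset.card S : ℕ) : Ω) = 1 := by
    have h1 : ((Multiset.card S : ℕ) : Ω) = algebraMap kb Ω (Multiset.card S : ℕ) := by
      rw [map_natCast]
    rw [h1]
    exact ll_const hc (Nat.cast_ne_zero.2 hn)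
  have hnΩ0 : ((Multiset.card S : ℕ) : Ω) ≠ 0 := by
    intro h
    rw [h, map_zero] at hnΩ
    exact zero_ne_one hnΩ
  obtain ⟨T, hT'⟩ : ∃ T, T = S.sum := ⟨_, rfl⟩
  have hTE : T ∈ E := by
    rw [hT', hT]
    exact (-P.nextCoeff).2
  have hw : ((Multiset.card S : ℕ) : Ω) * z - T = 0 := by
    by_contra hw
    obtain ⟨b, hb, hwb⟩ := hval _ hw
    have hb0 : b ≠ 0 := by
      rintro rfl
      rw [map_zero, Valuation.zero_iff] at hwb
      exact hw hwb
    obtain ⟨u, hu⟩ : ∃ u, u = (((Multiset.card S : ℕ) : Ω) * z - T) / b := ⟨_, rfl⟩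
    have hvu : A.valuation u = 1 := by
      rw [hu, map_div₀, hwb, div_self]
      exact (Valuation.ne_zero_iff _).2 hb0
    have huA : u ∈ A := (A.valuation_le_one_iff _).1 hvu.le
    have hr : ∀ r ∈ S, A.valuation ((((Multiset.card S : ℕ) : Ω) * r - T) / b - u) < 1 := by
      intro r hr
      have h1 : IsConjRoot E z r := by
        rw [isConjRoot_iff_mem_minpoly_aroots hint, ← hP, ← hS]
        exact hr
      rw [isConjRoot_iff_exists_algEquiv] at h1
      obtain ⟨g, hg⟩ := h1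
      have hg' : g.symm z = r := by rw [← hg, AlgEquiv.symm_apply_apply]
      have hgE : ∀ y ∈ E, g.symm y = y := fun y hy => g.symm.commutes ⟨y, hy⟩
      have hbE : b ∈ E := E.algebraMap_mem ⟨b, hb⟩
      have h2 : (((Multiset.card S : ℕ) : Ω) * r - T) / b = g.symm u := by
        rw [hu, map_div₀, map_sub, map_mul, map_natCast, hg', hgE T hTE, hgE b hbE]
      rw [h2]
      obtain ⟨g', hg''⟩ : ∃ g' : Gal(Ω/F), ∀ x, g' x = g.symm x :=
        ⟨g.symm.restrictScalars F, fun x => rfl⟩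
      have h3 := ll_act (k := kb) hc hl g' (hact g') 1 (fun a => by
        rw [hg'', hgE _ (hkE a)]; rfl) ⟨u, huA⟩
      have h4 := (ll_zero_iff hl (⟨g' u, (hact g' u).2 huA⟩ - ⟨u, huA⟩)).1
        (by rw [map_sub, h3]; exact sub_self _)
      rw [← hg'']
      exact h4
    have h1 := ll_msum hr
    rw [ll_msum_eq, hT', sub_self, zero_div, zero_sub, Valuation.map_neg, map_mul, hnΩ, hvu,
      one_mul] at h1
    exact lt_irrefl _ h1
  have h1 : z = T / ((Multiset.card S : ℕ) : Ω) := by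
    rw [eq_div_iff hnΩ0]
    linear_combination hw
  rw [h1]
  exact div_mem hTE (natCast_mem E _)

end Max

end Pool.Agent.Lib.MP_2f3286_ag.UA
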