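import Mathlib
import Pool.Agent.Lib.MP_2f3286_ag.HYP.AFPl2
import Pool.Agent.Lib.MP_2f3286_ag.UA.LG3b

/-!
# Sections of places lift

Let `M` be a Galois extension of `K` and `Ω` an algebraic closure of `M`. A section of the Galois group of `M` over `K`
which is the section of a rational place of `M` lifts to a section of the Galois group of `Ω` over `K` which is the
section of a rational place of `Ω` above the given one.

Proof. Let `A` be a valuation ring of `Ω` above the place, and `H` the closed group of all automorphisms of `Ω` which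
preserve `A` and lift some `s σ`; it maps onto the Galois group of `k`. Let `F` be maximal among the fields which
contain the field fixed by `H` and no element of `kb` outside `k`. Then `Ω` is generated by `F` and `kb` (`ll_top`), so
that the Galois group of `Ω` over `F` maps isomorphically to that of `k`; the inverse is the section.
-/

namespace Pool.Agent.Lib.MP_2f3286_ag.UA

open HYP (PlaceOver Lft)

section Apply

variable {K Ω : Type*} [Field K] [Field Ω] [Algebra K Ω] [Algebra.IsAlgebraic K Ω]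

theorem ll_isOpen (x : Ω) (P : Ω → Prop) : IsOpen {g : Gal(Ω/K) | P (g x)} := by
  rw [isOpen_iff_mem_nhds]
  intro g₀ hg₀
  have hfin : FiniteDimensional K (IntermediateField.adjoin K {x}) :=
    IntermediateField.adjoin.finiteDimensional (Algebra.IsIntegral.isIntegral _)
  have hop := IntermediateField.fixingSubgroup_isOpen (IntermediateField.adjoin K {x})
  have h1 : IsOpen {g : Gal(Ω/K) | g₀⁻¹ * g ∈ (IntermediateField.adjoin K {x}).fixingSubgroup} :=
    hop.preimage (continuous_const.mul continuous_id)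
  refine Filter.mem_of_superset (h1.mem_nhds ?_) ?_
  · change g₀⁻¹ * g₀ ∈ (IntermediateField.adjoin K {x}).fixingSubgroup
    rw [inv_mul_cancel]
    exact one_mem _
  · intro g hg
    have h2 : (g₀⁻¹ * g : Gal(Ω/K)) x = x :=
      (IntermediateField.mem_fixingSubgroup_iff _ _).mp hg _
        (IntermediateField.mem_adjoin_simple_self K _)
    have h3 : g x = g₀ x := by
      have h4 := congrArg g₀ h2
      rw [← AlgEquiv.mul_apply, mul_inv_cancel_left] at h4
      exact h4
    change P (g x)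
    rw [h3]
    exact hg₀

theorem ll_isClosed (x : Ω) (P : Ω → Prop) : IsClosed {g : Gal(Ω/K) | P (g x)} := by
  rw [← isOpen_compl_iff]
  exact ll_isOpen x fun y => ¬ P y

end Apply

/-- restriction of automorphisms is continuous -/
theorem ll_restr_continuous {K M Ω : Type*} [Field K] [Field M] [Field Ω] [Algebra K M]
    [Algebra M Ω] [Algebra K Ω] [IsScalarTower K M Ω] [Normal K M] :
    Continuous (AlgEquiv.restrictNormalHom M : Gal(Ω/K) →* Gal(M/K)) := by
  apply continuous_of_continuousAt_one _ (continuousAt_def.mpr _)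
  intro N hN
  rw [map_one, krullTopology_mem_nhds_one_iff] at hN
  obtain ⟨E, hE, hEN⟩ := hN
  rw [krullTopology_mem_nhds_one_iff]
  refine ⟨E.map (IsScalarTower.toAlgHom K M Ω), ?_, ?_⟩
  · exact LinearEquiv.finiteDimensional
      (IntermediateField.equivMap E (IsScalarTower.toAlgHom K M Ω)).toLinearEquiv
  intro γ hγ
  apply hEN
  rw [SetLike.mem_coe, IntermediateField.mem_fixingSubgroup_iff] at hγ ⊢
  intro x hx
  apply (algebraMap M Ω).injective
  have h1 := hγ (algebraMap M Ω x) ⟨x, hx, rfl⟩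
  have h2 := AlgEquiv.restrictNormal_commutes γ M x
  exact h2.trans h1

section Lift

variable {k K M Ω kb : Type*} [Field k] [Field kb] [Algebra k kb] [Field K] [Algebra k K]
  [Field M] [Algebra K M] [Algebra kb M] [Algebra k M] [IsScalarTower k K M] [IsScalarTower k kb M]
  [Field Ω] [Algebra M Ω] [Algebra K Ω] [Algebra kb Ω] [Algebra k Ω] [IsScalarTower K M Ω]
  [IsScalarTower kb M Ω] [IsScalarTower k K Ω]
  {s : Gal(kb/k) →* Gal(M/K)}

omit [Algebra k K] [Algebra kb M] [Algebra k M] [IsScalarTower k K M] [IsScalarTower k kb M]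
  [Algebra kb Ω] [Algebra k Ω] [IsScalarTower K M Ω] [IsScalarTower kb M Ω]
  [IsScalarTower k K Ω] in
theorem ll_lft_inv {σ : Gal(kb/k)} {γ : Gal(Ω/K)} (h : Lft s σ γ) : Lft s σ⁻¹ γ⁻¹ := by
  intro m
  have h1 : γ (algebraMap M Ω (s σ⁻¹ m)) = algebraMap M Ω m := by
    rw [h, ← AlgEquiv.mul_apply, ← map_mul, mul_inv_cancel, map_one, AlgEquiv.one_apply]
  rw [← h1]
  exact γ.symm_apply_apply _

omit [Algebra k K] [Algebra kb M] [Algebra k M] [IsScalarTower k K M] [IsScalarTower k kb M]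
  [Algebra kb Ω] [Algebra k Ω] [IsScalarTower kb M Ω]
  [IsScalarTower k K Ω] in
theorem ll_lft_iff [Normal K M] {σ : Gal(kb/k)} {γ : Gal(Ω/K)} :
    Lft s σ γ ↔ AlgEquiv.restrictNormalHom M γ = s σ := by
  constructor
  · intro h
    ext m
    apply (algebraMap M Ω).injective
    rw [← h m]
    exact AlgEquiv.restrictNormal_commutes γ M m
  · intro h m
    rw [← h]
    exact (AlgEquiv.restrictNormal_commutes γ M m).symm

/-- automorphisms preserving `A` which lift automorphisms of the section -/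
def llH (s : Gal(kb/k) →* Gal(M/K)) (A : ValuationSubring Ω) : Subgroup Gal(Ω/K) where
  carrier := {γ | (∃ σ, Lft s σ γ) ∧ ∀ x, γ x ∈ A ↔ x ∈ A}
  mul_mem' := by
    rintro γ δ ⟨⟨σ, h1⟩, h2⟩ ⟨⟨τ, h3⟩, h4⟩
    exact ⟨⟨σ * τ, h1.mul h3⟩, fun x => by rw [AlgEquiv.mul_apply, h2, h4]⟩
  one_mem' := ⟨⟨1, fun m => by rw [map_one]; rfl⟩, fun x => Iff.rfl⟩
  inv_mem' := by
    rintro γ ⟨⟨σ, h1⟩, h2⟩
    refine ⟨⟨σ⁻¹, ll_lft_inv h1⟩, fun x => ?_⟩
    rw [← h2 (γ⁻¹ x)]
    have : γ (γ⁻¹ x) = x := γ.apply_symm_apply x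
    rw [this]

omit [Algebra k K] [Algebra kb M] [Algebra k M] [IsScalarTower k K M] [IsScalarTower k kb M]
  [Algebra kb Ω] [Algebra k Ω] [IsScalarTower kb M Ω] [IsScalarTower k K Ω] in
theorem llH_isClosed [IsGalois K M] [IsGalois K Ω] [IsGalois k kb] (hs : Continuous s)
    (A : ValuationSubring Ω) : IsClosed (llH s A : Set Gal(Ω/K)) := by
  have h1 : (llH s A : Set Gal(Ω/K)) =
      (AlgEquiv.restrictNormalHom M : Gal(Ω/K) →* Gal(M/K)) ⁻¹' (Set.range s) ∩
        ⋂ x : Ω, {γ : Gal(Ω/K) | γ x ∈ A ↔ x ∈ A} := by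
    ext γ
    rw [Set.mem_inter_iff, Set.mem_iInter]
    change ((∃ σ, Lft s σ γ) ∧ _) ↔ (AlgEquiv.restrictNormalHom M γ ∈ Set.range s) ∧ _
    refine and_congr ?_ Iff.rfl
    constructor
    · rintro ⟨σ, h⟩
      exact ⟨σ, (ll_lft_iff.1 h).symm⟩
    · rintro ⟨σ, h⟩
      exact ⟨σ, ll_lft_iff.2 h.symm⟩
  rw [h1]
  refine IsClosed.inter ?_ (isClosed_iInter fun x => ll_isClosed x fun y => y ∈ A ↔ x ∈ A)
  exact ((isCompact_range hs).isClosed).preimage ll_restr_continuous

/-- **Sections of places lift.** -/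
theorem exists_lift [CharZero k] [IsAlgClosed kb] [Algebra.IsAlgebraic k kb] [IsAlgClosed Ω]
    [IsGalois K M] [IsGalois K Ω] [IsScalarTower k kb Ω]
    (htr : Algebra.trdeg k K = 1) (hs : Continuous s)
    (hsec : ∀ σ a, s σ (algebraMap kb M a) = algebraMap kb M (σ a))
    {A : ValuationSubring M} {φ : A →+* kb} (h : Sel.IsPlaceOf s k (RingHom.id kb) A φ) :
    ∃ (t : Gal(kb/k) →* Gal(Ω/K)) (B : ValuationSubring Ω) (ψ : B →+* kb), Continuous t ∧
      (∀ σ m, t σ (algebraMap M Ω m) = algebraMap M Ω (s σ m)) ∧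
      Sel.IsPlaceOf t k (RingHom.id kb) B ψ ∧ (∀ z : M, algebraMap M Ω z ∈ B ↔ z ∈ A) ∧
      ∀ (z : M) (hz : z ∈ A), ∃ h : algebraMap M Ω z ∈ B, ψ ⟨algebraMap M Ω z, h⟩ = φ ⟨z, hz⟩ := by
  classical
  have hkc : CharZero kb := charZero_of_injective_algebraMap (algebraMap k kb).injective
  have hkac : IsAlgClosure k kb := ⟨inferInstance, inferInstance⟩
  have hkg : IsGalois k kb := IsAlgClosure.isGalois k kb
  have hMΩ : IsGalois M Ω := IsGalois.tower_top_of_isGalois K M Ω
  have hMalg : Algebra.IsAlgebraic K M := inferInstance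
  have hΩalg : Algebra.IsAlgebraic K Ω := inferInstance
  obtain ⟨x, hx⟩ : ∃ x : K, Transcendental k x := by
    have : Algebra.Transcendental k K := by
      rw [← trdeg_ne_zero_iff, htr]
      exact one_ne_zero
    exact this.transcendental
  obtain ⟨A', π, ⟨hc, hl, hlift⟩, hA1, hA2⟩ := HYP.exists_placeOver (F := k) (Fb := kb) (Ω := Ω)
    (trdeg_top (K := K) htr) (trdeg_top (K := K) htr) hx h
  -- the group `H` maps onto the Galois group of `k`
  have hHsurj : ∀ σ : Gal(kb/k), ∃ γ ∈ llH s A', Lft s σ γ := by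
    intro σ
    obtain ⟨γ, hγ1, hγ2⟩ := hlift σ σ fun _ => rfl
    refine ⟨γ, ⟨⟨σ, hγ1⟩, fun x => ⟨fun hx => ?_, fun hx => (hγ2 ⟨x, hx⟩).1⟩⟩, hγ1⟩
    by_contra hx'
    have hx0 : x ≠ 0 := by
      rintro rfl
      exact hx' A'.zero_mem
    have h1 : x⁻¹ ∈ A' := (A'.mem_or_inv_mem x).resolve_left hx'
    have h2 : π ⟨x⁻¹, h1⟩ = 0 := by
      rw [ll_zero_iff hl, Full.val_lt_one_iff, inv_inv]
      exact Or.inr hx'
    obtain ⟨h3, h4⟩ := hγ2 ⟨x⁻¹, h1⟩
    rw [h2, map_zero, ll_zero_iff hl, Full.val_lt_one_iff] at h4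
    rcases h4 with h4 | h4
    · exact inv_ne_zero hx0 ((map_eq_zero γ).1 h4)
    · apply h4
      change (γ x⁻¹)⁻¹ ∈ A'
      rw [map_inv₀, inv_inv]
      exact hx
  have hconst : ∀ {σ : Gal(kb/k)} {γ : Gal(Ω/K)}, Lft s σ γ → ∀ a : kb,
      γ (algebraMap kb Ω a) = algebraMap kb Ω (σ a) := by
    intro σ γ hγ a
    rw [IsScalarTower.algebraMap_apply kb M Ω, hγ, hsec, ← IsScalarTower.algebraMap_apply kb M Ω]
  have hHcl := llH_isClosed (Ω := Ω) (s := s) hs A'
  have hfix : ∀ a : kb, (∀ σ : Gal(kb/k), σ a = a) → a ∈ Set.range (algebraMap k kb) := fun a ha =>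
    (InfiniteGalois.mem_range_algebraMap_iff_fixed a).2 ha
  -- a maximal field
  obtain ⟨F, hF0, hFmax⟩ := zorn_le_nonempty₀ {F : IntermediateField K Ω |
      IntermediateField.fixedField (llH s A') ≤ F ∧
      ∀ a : kb, algebraMap kb Ω a ∈ F → a ∈ Set.range (algebraMap k kb)} (by
    intro c hcs hch y hy
    have hne : Nonempty c := ⟨⟨y, hy⟩⟩
    have hdir : Directed (· ≤ ·) (fun F : c => (F : IntermediateField K Ω)) :=
      hch.directed
    refine ⟨⨆ F : c, (F : IntermediateField K Ω), ⟨(hcs hy).1.trans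
      (le_iSup (fun F : c => (F : IntermediateField K Ω)) ⟨y, hy⟩), fun a ha => ?_⟩,
      fun z hz => le_iSup (fun F : c => (F : IntermediateField K Ω)) ⟨z, hz⟩⟩
    rw [← SetLike.mem_coe, IntermediateField.coe_iSup_of_directed hdir, Set.mem_iUnion] at ha
    obtain ⟨F, hF⟩ := ha
    exact (hcs F.2).2 a hF) (IntermediateField.fixedField (llH s A')) ⟨le_rfl, fun a ha => by
      refine hfix a fun σ => ?_
      obtain ⟨γ, hγ, hγ'⟩ := hHsurj σ
      have h1 := (IntermediateField.mem_fixedField_iff _ _).1 ha γ hγ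
      rw [hconst hγ'] at h1
      exact (algebraMap kb Ω).injective h1⟩
  have hFk := hFmax.prop.2
  have hmax : ∀ F' : IntermediateField K Ω, F ≤ F' →
      (∀ a : kb, algebraMap kb Ω a ∈ F' → a ∈ Set.range (algebraMap k kb)) → F' ≤ F :=
    fun F' h1 h2 => hFmax.le_of_ge ⟨hF0.trans h1, h2⟩ h1
  have hFH : ∀ g ∈ F.fixingSubgroup, g ∈ llH s A' := by
    intro g hg
    have h1 : g ∈ (IntermediateField.fixedField (llH s A')).fixingSubgroup := by
      rw [IntermediateField.mem_fixingSubgroup_iff] at hg ⊢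
      exact fun x hx => hg x (hF0 hx)
    rwa [InfiniteGalois.fixingSubgroup_fixedField ⟨llH s A', hHcl⟩] at h1
  have hFfix : ∀ x : Ω, (∀ g ∈ F.fixingSubgroup, g x = x) → x ∈ F := by
    intro x hx
    rw [← InfiniteGalois.fixedField_fixingSubgroup F, IntermediateField.mem_fixedField_iff]
    exact hx
  have hres : ∀ a : A', (a : Ω) ∈ F → π a ∈ Set.range (algebraMap k kb) := by
    intro a ha
    apply hFk
    apply hFfix
    intro g hg
    obtain ⟨⟨σ, hσ⟩, h2⟩ := hFH g hg
    have h3 := ll_act hc hl g h2 σ (hconst hσ) a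
    have h4 : g a = a := (IntermediateField.mem_fixingSubgroup_iff _ _).1 hg _ ha
    rw [hconst hσ, ← h3]
    congr 2
    exact Subtype.ext h4
  have hFΩ : IsGalois F Ω := IsGalois.tower_top_intermediateField F
  have hdiv := ll_div (F := F) hc hl hres hmax
  have hval : ∀ z : Ω, z ≠ 0 → ∃ b ∈ F, A'.valuation z = A'.valuation b :=
    fun z hz => ll_value hdiv hz
  have hact : ∀ (g : Gal(Ω/F)) (x : Ω), g x ∈ A' ↔ x ∈ A' := by
    intro g
    have h1 : (g.restrictScalars K : Gal(Ω/K)) ∈ F.fixingSubgroup := by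
      rw [IntermediateField.mem_fixingSubgroup_iff]
      exact fun x hx => g.commutes ⟨x, hx⟩
    exact (hFH _ h1).2
  have htop := ll_top hc hl hval hact
  -- uniqueness of lifts
  have huniq : ∀ {σ : Gal(kb/k)} {g g' : Gal(Ω/K)}, g ∈ F.fixingSubgroup →
      g' ∈ F.fixingSubgroup → Lft s σ g → Lft s σ g' → g = g' := by
    intro σ g g' hg hg' h1 h2
    ext z
    have hz := htop z
    induction hz using IntermediateField.adjoin_induction with
    | mem x hx =>
      obtain ⟨a, rfl⟩ := hx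
      rw [hconst h1, hconst h2]
    | algebraMap x =>
      have h3 : g (x : Ω) = x := (IntermediateField.mem_fixingSubgroup_iff _ _).1 hg _ x.2
      have h4 : g' (x : Ω) = x := (IntermediateField.mem_fixingSubgroup_iff _ _).1 hg' _ x.2
      exact h3.trans h4.symm
    | add x y _ _ hx hy => rw [map_add, map_add, hx, hy]
    | inv x _ hx => rw [map_inv₀, map_inv₀, hx]
    | mul x y _ _ hx hy => rw [map_mul, map_mul, hx, hy]
  -- existence of lifts
  let C : Subgroup Gal(kb/k) :=
    { carrier := {σ | ∃ g ∈ F.fixingSubgroup, Lft s σ g}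
      mul_mem' := by
        rintro σ τ ⟨g, hg, h1⟩ ⟨g', hg', h2⟩
        exact ⟨g * g', mul_mem hg hg', h1.mul h2⟩
      one_mem' := ⟨1, one_mem _, fun m => by rw [map_one]; rfl⟩
      inv_mem' := by
        rintro σ ⟨g, hg, h1⟩
        exact ⟨g⁻¹, inv_mem hg, ll_lft_inv h1⟩ }
  have hFcomp : IsCompact (F.fixingSubgroup : Set Gal(Ω/K)) :=
    (InfiniteGalois.fixingSubgroup_isClosed F).isCompact
  have hCcl : IsClosed (C : Set Gal(kb/k)) := by
    have h1 : (C : Set Gal(kb/k)) = s ⁻¹'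
        ((AlgEquiv.restrictNormalHom M : Gal(Ω/K) →* Gal(M/K)) ''
          (F.fixingSubgroup : Set Gal(Ω/K))) := by
      ext σ
      constructor
      · rintro ⟨g, hg, h1⟩
        exact ⟨g, hg, ll_lft_iff.1 h1⟩
      · rintro ⟨g, hg, h1⟩
        exact ⟨g, hg, ll_lft_iff.2 h1⟩
    rw [h1]
    exact ((hFcomp.image ll_restr_continuous).isClosed).preimage hs
  have hCtop : ∀ σ : Gal(kb/k), σ ∈ C := by
    intro σ
    have h1 : σ ∈ (IntermediateField.fixedField C).fixingSubgroup := by
      rw [IntermediateField.mem_fixingSubgroup_iff]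
      intro a ha
      have h2 : a ∈ Set.range (algebraMap k kb) := by
        apply hFk
        apply hFfix
        intro g hg
        obtain ⟨⟨τ, hτ⟩, -⟩ := hFH g hg
        rw [hconst hτ, (IntermediateField.mem_fixedField_iff _ _).1 ha τ ⟨g, hg, hτ⟩]
      obtain ⟨c, rfl⟩ := h2
      exact σ.commutes c
    rwa [InfiniteGalois.fixingSubgroup_fixedField ⟨C, hCcl⟩] at h1
  choose g hg hgL using hCtop
  let t : Gal(kb/k) →* Gal(Ω/K) :=
    { toFun := g
      map_one' := huniq (hg 1) (one_mem _) (hgL 1) fun m => by rw [map_one]; rfl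
      map_mul' := fun σ τ => huniq (hg _) (mul_mem (hg σ) (hg τ)) (hgL _) ((hgL σ).mul (hgL τ)) }
  have htcont : Continuous t := by
    have hcomp : CompactSpace F.fixingSubgroup := isCompact_iff_compactSpace.1 hFcomp
    let ρ : F.fixingSubgroup → Gal(M/K) := fun γ => AlgEquiv.restrictNormalHom M (γ : Gal(Ω/K))
    have hρc : Continuous ρ := ll_restr_continuous.comp continuous_subtype_val
    have hρi : Function.Injective ρ := by
      intro γ γ' hγ
      obtain ⟨⟨σ, hσ⟩, -⟩ := hFH γ γ.2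
      have h1 : Lft s σ (γ' : Gal(Ω/K)) := by
        rw [ll_lft_iff]
        exact hγ.symm.trans (ll_lft_iff.1 hσ)
      exact Subtype.ext (huniq γ.2 γ'.2 hσ h1)
    have hemb := (hρc.isClosedEmbedding hρi).isInducing
    have h1 : Continuous fun σ => (⟨g σ, hg σ⟩ : F.fixingSubgroup) := by
      rw [hemb.continuous_iff]
      have h2 : ρ ∘ (fun σ => (⟨g σ, hg σ⟩ : F.fixingSubgroup)) = s := by
        funext σ
        exact ll_lft_iff.1 (hgL σ)
      rw [h2]
      exact hs
    exact continuous_subtype_val.comp h1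
  refine ⟨t, A', π, htcont, fun σ m => hgL σ m, ⟨hc, hl, ?_⟩, hA1, hA2⟩
  intro σ τ hστ x
  have h1 : τ = σ := by
    ext a
    exact (hστ a).symm
  subst h1
  have h2 := (hFH _ (hg τ)).2
  exact ⟨(h2 x).2 x.2, ll_act hc hl (g τ) h2 τ (hconst (hgL τ)) x⟩

end Lift

end Pool.Agent.Lib.MP_2f3286_ag.UA
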