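import Pool.Agent.Lib.MP_2f3286_ag.UA.LG1
import Pool.Agent.Lib.MP_2f3286_ag.UA.LG2
import Pool.Agent.Lib.MP_2f3286_ag.UA.LG3

/-!
# The lifting criterion

`K` is the function field of a curve over a number field `k`, `M` any Galois extension of `K` which contains an
algebraic closure of `k`, for example the maximal one unramified over an open subscheme of the curve. A section of
the Galois group of `M` over `K` is the section of a rational place if and only if it lifts to a section of the absolute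
Galois group of `K` with large fixed field.
-/

open NumberField Polynomial
open Pool.Agent.Lib.MP_2f3286_ag
open Pool.Agent.Lib.MP_2f3286_ag.Sel (IsPlaceOf)

namespace Pool.Agent.Lib.MP_2f3286_ag.UA

universe u

/-- restriction of a place of a lift -/
theorem place_restrict {k kb K M Ω : Type*} [Field k] [Field kb] [Algebra k kb] [Field K]
    [Field M] [Algebra K M] [Algebra kb M] [Field Ω] [Algebra M Ω] [Algebra K Ω] [Algebra kb Ω]
    [IsScalarTower kb M Ω] {F Fb : Type*} [Field F] [Field Fb] [Algebra F Fb] {ι : kb →+* Fb}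
    {s : Gal(kb/k) →* Gal(M/K)} {t : Gal(kb/k) →* Gal(Ω/K)}
    (ht : ∀ σ m, t σ (algebraMap M Ω m) = algebraMap M Ω (s σ m))
    {B : ValuationSubring Ω} {ψ : B →+* Fb} (h : IsPlaceOf t F ι B ψ) :
    ∃ φ : B.comap (algebraMap M Ω) →+* Fb, IsPlaceOf s F ι (B.comap (algebraMap M Ω)) φ ∧
      ∀ x, φ x = ψ ⟨algebraMap M Ω x, x.2⟩ := by
  obtain ⟨h1, h2, h3⟩ := h
  let φ : B.comap (algebraMap M Ω) →+* Fb :=
    ψ.comp (((algebraMap M Ω).comp (B.comap (algebraMap M Ω)).subtype).codRestrict B fun x => x.2)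
  have hφ : ∀ x, φ x = ψ ⟨algebraMap M Ω x, x.2⟩ := fun x => rfl
  refine ⟨φ, ⟨fun a => ?_, fun x hx => ?_, fun σ τ hστ x => ?_⟩, hφ⟩
  · obtain ⟨h4, h5⟩ := h1 a
    have h6 : algebraMap kb M a ∈ B.comap (algebraMap M Ω) := by
      rw [ValuationSubring.mem_comap, ← IsScalarTower.algebraMap_apply kb M Ω]
      exact h4
    refine ⟨h6, ?_⟩
    rw [hφ, ← h5]
    congr 1
    exact Subtype.ext (IsScalarTower.algebraMap_apply kb M Ω a).symm
  · rw [ValuationSubring.mem_comap, map_inv₀]
    exact h2 ⟨algebraMap M Ω x, x.2⟩ hx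
  · obtain ⟨h4, h5⟩ := h3 σ τ hστ ⟨algebraMap M Ω x, x.2⟩
    have h6 : s σ x ∈ B.comap (algebraMap M Ω) := by
      rw [ValuationSubring.mem_comap, ← ht]
      exact h4
    refine ⟨h6, ?_⟩
    rw [hφ, hφ, ← h5]
    congr 1
    exact Subtype.ext (ht σ x).symm

/-- **The lifting criterion.** -/
theorem place_iff_lift_large {k : Type u} [Field k] [NumberField k]
    {K : Type*} [Field K] [Algebra k K] (htr : Algebra.trdeg k K = 1)
    {M : Type*} [Field M] [Algebra K M] [IsGalois K M]
    [Algebra (AlgebraicClosure k) M] [Algebra k M]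
    [IsScalarTower k K M] [IsScalarTower k (AlgebraicClosure k) M]
    (s : Gal(AlgebraicClosure k/k) →* Gal(M/K)) (hs : Continuous s)
    (hsec : ∀ σ a, s σ (algebraMap (AlgebraicClosure k) M a) =
      algebraMap (AlgebraicClosure k) M (σ a)) :
    (∃ (A : ValuationSubring M) (φ : A →+* AlgebraicClosure k),
      IsPlaceOf s k (RingHom.id _) A φ) ↔
    ∃ t : Gal(AlgebraicClosure k/k) →* Gal(AlgebraicClosure M/K), Continuous t ∧
      (∀ σ m, t σ (algebraMap M (AlgebraicClosure M) m) =
        algebraMap M (AlgebraicClosure M) (s σ m)) ∧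
      IsLarge (IntermediateField.fixedField t.range) := by
  have hK0 : CharZero K := charZero_of_injective_algebraMap (algebraMap k K).injective
  have halg : Algebra.IsAlgebraic K (AlgebraicClosure M) := Algebra.IsAlgebraic.trans K M _
  have hcl : IsAlgClosure K (AlgebraicClosure M) := ⟨inferInstance, halg⟩
  have hgal : IsGalois K (AlgebraicClosure M) := IsAlgClosure.isGalois K (AlgebraicClosure M)
  constructor
  · rintro ⟨A, φ, h⟩
    obtain ⟨t, B, ψ, h1, h2, h3, -, -⟩ := exists_lift (Ω := AlgebraicClosure M) htr hs hsec h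
    exact ⟨t, h1, h2, large_of_place htr h3⟩
  · rintro ⟨t, h1, h2, h3⟩
    obtain ⟨B, ψ, h4⟩ := place_of_large htr t h1 (fun σ a => by
      rw [IsScalarTower.algebraMap_apply (AlgebraicClosure k) M (AlgebraicClosure M), h2, hsec,
        ← IsScalarTower.algebraMap_apply (AlgebraicClosure k) M (AlgebraicClosure M)]) h3
    obtain ⟨φ, h5, -⟩ := place_restrict h2 h4.1
    exact ⟨_, φ, h5⟩

end Pool.Agent.Lib.MP_2f3286_ag.UA
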