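import Mathlib

/-!
# Function fields inside a field which is finite over a rational function field
-/

open Polynomial

namespace Pool.Agent.Lib.MP_2f3286_ag.UA

universe u v

theorem cof_isAlgebraic_adjoin {k K : Type*} [Field k] [Field K] [Algebra k K]
    (htr : Algebra.trdeg k K = 1) {f : K} (hf : Transcendental k f) (x : K) :
    IsAlgebraic (IntermediateField.adjoin k {f}) x := by
  have hind : AlgebraicIndependent k ![(f : K)] := algebraicIndependent_iff_transcendental.mpr hf
  have hbasis : IsTranscendenceBasis k ![(f : K)] :=
    hind.isTranscendenceBasis_of_lift_trdeg_le_of_finite (by rw [htr]; simp)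
  have hKalg := hbasis.isAlgebraic
  have hrange : Set.range ![(f : K)] = {(f : K)} := by simp
  have hle : Algebra.adjoin k (Set.range ![(f : K)]) ≤ (IntermediateField.adjoin k {f}).toSubalgebra := by
    rw [hrange]
    exact IntermediateField.algebra_adjoin_le_adjoin k _
  obtain ⟨q, hq0, hq⟩ := hKalg.isAlgebraic x
  let φ : Algebra.adjoin k (Set.range ![(f : K)]) →ₐ[k] IntermediateField.adjoin k {f} :=
    Subalgebra.inclusion hle
  have hinj : Function.Injective φ := Subalgebra.inclusion_injective hle
  refine ⟨q.map φ.toRingHom, ?_, ?_⟩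
  · rwa [Ne, Polynomial.map_eq_zero_iff hinj]
  · rw [aeval_def, eval₂_map]
    exact hq

/-- a function field is contained in a finite extension of `C(x)` -/
theorem exists_big_field {k K Ω : Type*} [Field k] [Field K] [Algebra k K] [Field Ω] [Algebra K Ω]
    [Algebra k Ω] [IsScalarTower k K Ω] (htr : Algebra.trdeg k K = 1)
    (hfg : (⊤ : IntermediateField k K).FG) {x : K} (hx : Transcendental k x)
    (Cc : IntermediateField k Ω) :
    ∃ E₀ : IntermediateField (IntermediateField.adjoin Cc {algebraMap K Ω x}) Ω,
      FiniteDimensional (IntermediateField.adjoin Cc {algebraMap K Ω x}) E₀ ∧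
      ∀ y : K, algebraMap K Ω y ∈ E₀ := by
  classical
  obtain ⟨S, hS⟩ := hfg
  have hmem : ∀ y : IntermediateField.adjoin k {x},
      ((algebraMap K Ω).comp (algebraMap (IntermediateField.adjoin k {x}) K)) y ∈
        IntermediateField.adjoin Cc {algebraMap K Ω x} := by
    intro y
    have h1 : (IntermediateField.adjoin k {x}).map (IsScalarTower.toAlgHom k K Ω) ≤
        (IntermediateField.adjoin Cc {algebraMap K Ω x}).restrictScalars k := by
      rw [IntermediateField.adjoin_map, IntermediateField.adjoin_le_iff, Set.image_singleton,
        Set.singleton_subset_iff]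
      exact IntermediateField.mem_adjoin_simple_self Cc _
    exact h1 ⟨y, y.2, rfl⟩
  have hint : ∀ y : K, IsIntegral (IntermediateField.adjoin Cc {algebraMap K Ω x}) (algebraMap K Ω y) := by
    intro y
    have h1 := cof_isAlgebraic_adjoin htr hx y
    have h2 := h1.ringHom_of_comp_eq
      (((algebraMap K Ω).comp (algebraMap (IntermediateField.adjoin k {x}) K)).codRestrict
        (IntermediateField.adjoin Cc {algebraMap K Ω x}) hmem)
      (algebraMap K Ω) (RingHom.injective _) (by ext; rfl)
    exact h2.isIntegral
  refine ⟨IntermediateField.adjoin _ ((algebraMap K Ω) '' (S : Set K)), ?_, ?_⟩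
  · have hfin : ((algebraMap K Ω) '' (S : Set K)).Finite := S.finite_toSet.image _
    have := hfin.to_subtype
    apply IntermediateField.finiteDimensional_adjoin
    rintro _ ⟨y, -, rfl⟩
    exact hint y
  · intro y
    have h1 : (IntermediateField.adjoin k (S : Set K)).map (IsScalarTower.toAlgHom k K Ω) ≤
        ((IntermediateField.adjoin (IntermediateField.adjoin Cc {algebraMap K Ω x})
          ((algebraMap K Ω) '' (S : Set K))).restrictScalars Cc).restrictScalars k := by
      rw [IntermediateField.adjoin_map, IntermediateField.adjoin_le_iff]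
      exact IntermediateField.subset_adjoin _ _
    apply h1
    rw [hS]
    exact ⟨y, trivial, rfl⟩

end Pool.Agent.Lib.MP_2f3286_ag.UA
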