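import Pool.Agent.Lib.MP_2f3286_ag.UA.Cp1
import Pool.Agent.Lib.MP_2f3286_ag.UA.Cof4

/-!
# A function with simple poles at given rational places
-/

open Polynomial

namespace Pool.Agent.Lib.MP_2f3286_ag.UA

/-- `V` is (the valuation ring of) a rational place of `K / k` -/
def RatPlace (k : Type*) {K : Type*} [Field k] [Field K] [Algebra k K] (V : ValuationSubring K) : Prop :=
  V ≠ ⊤ ∧ (∀ c : k, algebraMap k K c ∈ V) ∧
    ∀ x ∈ V, ∃ c : k, V.valuation (x - algebraMap k K c) < 1

/-- valuation rings are integrally closed -/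
theorem mem_of_isIntegral {A K : Type*} [CommRing A] [Field K] [Algebra A K] (V : ValuationSubring K)
    (hV : ∀ a : A, algebraMap A K a ∈ V) {x : K} (hx : IsIntegral A x) : x ∈ V := by
  obtain ⟨f, hf⟩ : ∃ f : A →+* V, ∀ a, ((f a : V) : K) = algebraMap A K a :=
    ⟨(algebraMap A K).codRestrict V hV, fun a => rfl⟩
  have h1 : IsIntegral V (RingHom.id K x) :=
    hx.map_of_comp_eq f (RingHom.id K) (by
      ext a
      exact hf a)
  obtain ⟨y, hy⟩ := (IsIntegrallyClosed.isIntegral_iff (R := V) (K := K)).1 h1
  have h2 : (y : K) = x := hy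
  rw [← h2]
  exact y.2

/-- an element with values different from infinity at the given places -/
theorem exists_finite_values {k K : Type*} [Field k] [Infinite k] [Field K] [Algebra k K]
    (S : Finset (ValuationSubring K)) (hS : ∀ V ∈ S, V ≠ ⊤ ∧ ∀ c : k, algebraMap k K c ∈ V)
    {y : K} (hy : Transcendental k y) :
    ∃ y' : K, Transcendental k y' ∧ ∀ V ∈ S, y' ∈ V := by
  classical
  have hbad : ∀ V ∈ S, {c : k | (y - algebraMap k K c)⁻¹ ∉ V}.Subsingleton := by
    intro V hV c hc c' hc'
    by_contra hne
    have h1 : V.valuation (y - algebraMap k K c) < 1 := by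
      rw [← inv_inv (y - algebraMap k K c), map_inv₀, inv_lt_one₀]
      · rw [← not_le, ValuationSubring.valuation_le_one_iff]
        exact hc
      · rw [zero_lt_iff, Ne, map_eq_zero]
        intro h0
        apply hc
        rw [h0]
        exact V.zero_mem
    have h2 : V.valuation (y - algebraMap k K c') < 1 := by
      rw [← inv_inv (y - algebraMap k K c'), map_inv₀, inv_lt_one₀]
      · rw [← not_le, ValuationSubring.valuation_le_one_iff]
        exact hc'
      · rw [zero_lt_iff, Ne, map_eq_zero]
        intro h0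
        apply hc'
        rw [h0]
        exact V.zero_mem
    have h3 : V.valuation (algebraMap k K (c' - c)) < 1 := by
      have : algebraMap k K (c' - c) = (y - algebraMap k K c) - (y - algebraMap k K c') := by
        rw [map_sub]
        ring
      rw [this]
      exact lt_of_le_of_lt (Valuation.map_sub _ _ _) (max_lt h1 h2)
    have h4 : V.valuation (algebraMap k K (c' - c)⁻¹) ≤ 1 :=
      (V.valuation_le_one_iff _).2 ((hS V hV).2 _)
    have h5 : V.valuation (algebraMap k K (c' - c)) * V.valuation (algebraMap k K (c' - c)⁻¹) = 1 := by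
      rw [← map_mul, ← map_mul, mul_inv_cancel₀ (sub_ne_zero.2 (Ne.symm hne)), map_one, map_one]
    exact absurd h5 (ne_of_lt (mul_lt_one_of_lt_of_le h3 h4))
  have hfin : (⋃ V ∈ S, {c : k | (y - algebraMap k K c)⁻¹ ∉ V}).Finite :=
    S.finite_toSet.biUnion fun V hV => (hbad V hV).finite
  obtain ⟨c, hc⟩ := hfin.exists_notMem
  refine ⟨(y - algebraMap k K c)⁻¹, ?_, ?_⟩
  · intro halg
    apply hy
    have h1 : IsAlgebraic k (y - algebraMap k K c) := by
      rw [← inv_inv (y - algebraMap k K c)]
      exact halg.inv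
    have h2 : y = (y - algebraMap k K c) + algebraMap k K c := by ring
    rw [h2]
    exact h1.add (isAlgebraic_algebraMap c)
  · intro V hV
    by_contra h
    exact hc (Set.mem_biUnion hV h)

/-- a Dedekind ring contained in the given places: a common uniformizer -/
theorem exists_uniformizer {k K : Type*} [Field k] [CharZero k] [Field K] [Algebra k K]
    (htr : Algebra.trdeg k K = 1) (hfg : (⊤ : IntermediateField k K).FG)
    (S : Finset (ValuationSubring K)) (hS : ∀ V ∈ S, V ≠ ⊤ ∧ ∀ c : k, algebraMap k K c ∈ V)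
    {y₀ : K} (hy₀ : Transcendental k y₀) :
    ∃ π : K, ∀ V ∈ S, π ∈ V ∧ π⁻¹ ∉ V ∧ ∀ x : K, x ≠ 0 →
      ∃ (n : ℤ) (u : K), u ∈ V ∧ u⁻¹ ∈ V ∧ x = π ^ n * u := by
  classical
  obtain ⟨y, hy, hyS⟩ := exists_finite_values S hS hy₀
  have hK0 : CharZero K := charZero_of_injective_algebraMap (algebraMap k K).injective
  have hPID : IsPrincipalIdealRing (Algebra.adjoin k {y}) :=
    IsPrincipalIdealRing.of_surjective (Polynomial.algEquivOfTranscendental k y hy).toRingHom
      (Polynomial.algEquivOfTranscendental k y hy).surjective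
  open scoped IntermediateField.algebraAdjoinAdjoin in
  have hfd : FiniteDimensional (IntermediateField.adjoin k {y}) K := by
    obtain ⟨T, hT⟩ := hfg
    have h1 : FiniteDimensional (IntermediateField.adjoin k {y})
        (IntermediateField.adjoin (IntermediateField.adjoin k {y}) (T : Set K)) := by
      have := T.finite_toSet.to_subtype
      apply IntermediateField.finiteDimensional_adjoin
      intro x _
      exact (cof_isAlgebraic_adjoin htr hy x).isIntegral
    have h2 : IntermediateField.adjoin (IntermediateField.adjoin k {y}) (T : Set K) = ⊤ := by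
      rw [eq_top_iff]
      intro x _
      have h3 : IntermediateField.adjoin k (T : Set K) ≤
          (IntermediateField.adjoin (IntermediateField.adjoin k {y}) (T : Set K)).restrictScalars k := by
        rw [IntermediateField.adjoin_le_iff]
        exact IntermediateField.subset_adjoin _ _
      apply h3
      rw [hT]
      trivial
    rw [h2] at h1
    exact IntermediateField.topEquiv.toLinearEquiv.finiteDimensional
  open scoped IntermediateField.algebraAdjoinAdjoin in
  have hded : IsDedekindDomain (integralClosure (Algebra.adjoin k {y}) K) :=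
    integralClosure.isDedekindDomain (Algebra.adjoin k {y}) (IntermediateField.adjoin k {y}) K
  open scoped IntermediateField.algebraAdjoinAdjoin in
  have hfrac : IsFractionRing (integralClosure (Algebra.adjoin k {y}) K) K :=
    integralClosure.isFractionRing_of_finite_extension (IntermediateField.adjoin k {y}) K
  refine exists_uniformizer_of_dedekind (O := integralClosure (Algebra.adjoin k {y}) K) S
    (fun V hV => (hS V hV).1) ?_
  intro V hV a
  refine mem_of_isIntegral V (A := Algebra.adjoin k {y}) ?_ a.2
  intro b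
  have h1 : Algebra.adjoin k {y} ≤
      ({ V.toSubring with algebraMap_mem' := (hS V hV).2 } : Subalgebra k K) := by
    rw [Algebra.adjoin_le_iff, Set.singleton_subset_iff]
    exact hyS V hV
  exact h1 b.2

/-- a transcendental element whose inverse is a uniformizer at the given places -/
theorem exists_pole {k K : Type*} [Field k] [CharZero k] [Field K] [Algebra k K]
    (htr : Algebra.trdeg k K = 1) (hfg : (⊤ : IntermediateField k K).FG)
    (S : Finset (ValuationSubring K)) (hS : ∀ V ∈ S, V ≠ ⊤ ∧ ∀ c : k, algebraMap k K c ∈ V) :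
    ∃ x : K, Transcendental k x ∧ ∀ V ∈ S, x⁻¹ ∈ V ∧ x ∉ V ∧ ∀ y : K, y ≠ 0 →
      ∃ (n : ℤ) (u : K), u ∈ V ∧ u⁻¹ ∈ V ∧ y = x⁻¹ ^ n * u := by
  classical
  obtain ⟨y₀, hy₀⟩ : ∃ x : K, Transcendental k x := by
    have h1 : Algebra.Transcendental k K :=
      trdeg_ne_zero_iff.1 (by rw [htr]; exact one_ne_zero)
    exact h1.transcendental
  rcases S.eq_empty_or_nonempty with rfl | ⟨V₀, hV₀⟩
  · exact ⟨y₀, hy₀, fun V hV => absurd hV (Finset.notMem_empty V)⟩
  obtain ⟨π, hπ⟩ := exists_uniformizer htr hfg S hS hy₀
  refine ⟨π⁻¹, ?_, ?_⟩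
  · intro halg
    exact (hπ V₀ hV₀).2.1 (mem_of_isIntegral V₀ (hS V₀ hV₀).2 halg.isIntegral)
  · intro V hV
    rw [inv_inv]
    exact hπ V hV

end Pool.Agent.Lib.MP_2f3286_ag.UA
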