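import Pool.Agent.Lib.MP_2f3286_ag.Top.Defs
import Pool.Agent.Lib.MP_2f3286_ag.UA.Cp2

/-!
# The field fixed by the section of a rational place has nonconstant points of every curve
`z ^ 4 - 2 (2 t ^ 3 - A t) z ^ 2 + B t ^ 2 = 0`
-/

open Polynomial

namespace Pool.Agent.Lib.MP_2f3286_ag.UA

open Pool.Agent.Lib.MP_2f3286_ag.Sel (IsPlaceOf)

section

variable {k : Type*} [Field k] [CharZero k] {K : Type*} [Field K] [Algebra k K] {M : Type*}
  [Field M] [Algebra K M] [Algebra (AlgebraicClosure k) M]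
  {s : Gal(AlgebraicClosure k/k) →* Gal(M/K)} {V : ValuationSubring M}
  {φ : V →+* AlgebraicClosure k}

omit [Algebra k K] in
/-- square roots of fixed elements with value one -/
theorem sqrt_fixed [IsAlgClosed M] (h : IsPlaceOf s k (RingHom.id (AlgebraicClosure k)) V φ)
    {a : M} (haV : a ∈ V) (h1 : φ ⟨a, haV⟩ = 1) :
    ∃ (r : M) (hr : r ∈ V), r ^ 2 = a ∧ φ ⟨r, hr⟩ = 1 ∧ ∀ σ, s σ a = a → s σ r = r := by
  have key : ∀ r : M, r ^ 2 = a → ∀ hr : r ∈ V, φ ⟨r, hr⟩ = 1 → ∀ σ, s σ a = a → s σ r = r := by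
    intro r hra hr hr1 σ ha
    have h2 : (s σ r) ^ 2 = r ^ 2 := by rw [← map_pow, hra, ha]
    rcases sq_eq_sq_iff_eq_or_eq_neg.1 h2 with h3 | h3
    · exact h3
    · exfalso
      obtain ⟨h4, h5⟩ := h.2.2 σ σ (fun _ => rfl) ⟨r, hr⟩
      rw [hr1, map_one] at h5
      have h6 : φ ⟨s σ r, h4⟩ = - φ ⟨r, hr⟩ := by
        rw [← map_neg]
        congr 1
        exact Subtype.ext h3
      rw [h5, hr1] at h6
      have h7 : (2 : AlgebraicClosure k) = 0 := by linear_combination h6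
      exact two_ne_zero h7
  obtain ⟨r, hr⟩ := IsAlgClosed.exists_pow_nat_eq a (n := 2) (by norm_num)
  have ha0 : a ≠ 0 := by
    rintro rfl
    have : φ ⟨0, haV⟩ = 0 := map_zero φ
    rw [h1] at this
    exact one_ne_zero this
  have hr0 : r ≠ 0 := by
    rintro rfl
    exact ha0 (by rw [← hr]; ring)
  have hrV : r ∈ V := by
    rcases V.mem_or_inv_mem r with h2 | h2
    · exact h2
    · have : r = a * r⁻¹ := by
        rw [← hr]
        field_simp
      rw [this]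
      exact V.mul_mem _ _ haV h2
  have h2 : φ ⟨r, hrV⟩ ^ 2 = 1 ^ 2 := by
    rw [one_pow, ← map_pow, ← h1]
    congr 1
    exact Subtype.ext hr
  rcases sq_eq_sq_iff_eq_or_eq_neg.1 h2 with h3 | h3
  · exact ⟨r, hrV, hr, h3, key r hr hrV h3⟩
  · have hnV : -r ∈ V := V.neg_mem _ hrV
    have h4 : φ ⟨-r, hnV⟩ = 1 := by
      have : φ ⟨-r, hnV⟩ = - φ ⟨r, hrV⟩ := by
        rw [← map_neg]
        rfl
      rw [this, h3, neg_neg]
    exact ⟨-r, hnV, by rw [neg_sq, hr], h4, key (-r) (by rw [neg_sq, hr]) hnV h4⟩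

/-- not all functions are finite at a place -/
theorem exists_infinite [Algebra.IsAlgebraic K M] [Algebra k M] [IsScalarTower k K M]
    [IsScalarTower k (AlgebraicClosure k) M]
    (h : IsPlaceOf s k (RingHom.id (AlgebraicClosure k)) V φ) {y₀ : K} (hy₀ : Transcendental k y₀) :
    ∃ y : K, algebraMap K M y ∉ V := by
  by_contra hcon
  push Not at hcon
  have htop : ∀ m : M, m ∈ V := fun m =>
    mem_of_isIntegral V hcon (Algebra.IsAlgebraic.isAlgebraic (R := K) m).isIntegral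
  apply hy₀
  obtain ⟨c, hc⟩ : ∃ c, c = φ ⟨algebraMap K M y₀, htop _⟩ := ⟨_, rfl⟩
  obtain ⟨h1, h2⟩ := h.1 c
  have h3 : φ ⟨algebraMap K M y₀ - algebraMap (AlgebraicClosure k) M c, htop _⟩ = 0 := by
    have : φ ⟨algebraMap K M y₀ - algebraMap (AlgebraicClosure k) M c, htop _⟩ =
        φ ⟨algebraMap K M y₀, htop _⟩ - φ ⟨algebraMap (AlgebraicClosure k) M c, h1⟩ := by
      rw [← map_sub]
      rfl
    rw [this, h2, ← hc]
    exact sub_self c
  have h4 : algebraMap K M y₀ - algebraMap (AlgebraicClosure k) M c = 0 := by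
    by_contra h0
    have h5 : φ ⟨algebraMap K M y₀ - algebraMap (AlgebraicClosure k) M c, htop _⟩ *
        φ ⟨(algebraMap K M y₀ - algebraMap (AlgebraicClosure k) M c)⁻¹, htop _⟩ = 1 := by
      rw [← map_mul, ← map_one φ]
      congr 1
      exact Subtype.ext (mul_inv_cancel₀ h0)
    rw [h3, zero_mul] at h5
    exact zero_ne_one h5
  have h5 : IsAlgebraic k (algebraMap K M y₀) := by
    rw [sub_eq_zero.1 h4]
    exact (Algebra.IsAlgebraic.isAlgebraic (R := k) c).algebraMap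
  exact (isAlgebraic_algebraMap_iff (algebraMap K M).injective).1 h5

/-- The field fixed by the section of a rational place contains a nonconstant `t` and a `z ≠ 0` with
`z ^ 4 - 2 (2 t ^ 3 - A t) z ^ 2 + B t ^ 2 = 0`. -/
theorem exists_point_of_place [IsAlgClosed M] [Algebra.IsAlgebraic K M] [Algebra k M]
    [IsScalarTower k K M] [IsScalarTower k (AlgebraicClosure k) M]
    (h : IsPlaceOf s k (RingHom.id (AlgebraicClosure k)) V φ) {y₀ : K} (hy₀ : Transcendental k y₀)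
    (A B : k) :
    ∃ t z : M, (∀ σ, s σ t = t ∧ s σ z = z) ∧ (∀ c : k, t ≠ algebraMap k M c) ∧ z ≠ 0 ∧
      z ^ 4 - 2 * (2 * t ^ 3 - algebraMap k M A * t) * z ^ 2 + algebraMap k M B * t ^ 2 = 0 := by
  obtain ⟨y₁, hy₁⟩ := exists_infinite h hy₀
  obtain ⟨y, hy⟩ : ∃ y, y = algebraMap K M y₁ := ⟨_, rfl⟩
  rw [← hy] at hy₁
  have hys : ∀ σ, s σ y = y := by
    intro σ
    rw [hy, AlgEquiv.commutes]
  have hM0 : CharZero M := charZero_of_injective_algebraMap (algebraMap k M).injective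
  have h2 : (2 : M) ≠ 0 := two_ne_zero
  have hy0 : y ≠ 0 := by
    rintro h0
    rw [h0] at hy₁
    exact hy₁ V.zero_mem
  have hkV : ∀ c : k, algebraMap k M c ∈ V := by
    intro c
    rw [IsScalarTower.algebraMap_apply k (AlgebraicClosure k) M]
    exact (h.1 _).1
  have h2V : (2 : M) ∈ V := by
    have := hkV 2
    rwa [map_ofNat] at this
  have hkφ : ∀ (c : k) (hc : algebraMap k M c ∈ V), φ ⟨algebraMap k M c, hc⟩ = algebraMap k _ c := by
    intro c hc
    obtain ⟨h3, h4⟩ := h.1 (algebraMap k _ c)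
    rw [RingHom.id_apply] at h4
    rw [← h4]
    congr 1
    exact Subtype.ext (IsScalarTower.algebraMap_apply k (AlgebraicClosure k) M c)
  have hks : ∀ (c : k) σ, s σ (algebraMap k M c) = algebraMap k M c := by
    intro c σ
    rw [IsScalarTower.algebraMap_apply k K M, AlgEquiv.commutes]
  -- `p = 1 / y`
  obtain ⟨p, hp⟩ : ∃ p : V, (p : M) = y⁻¹ := ⟨⟨y⁻¹, (V.mem_or_inv_mem y).resolve_left hy₁⟩, rfl⟩
  have hφp : φ p = 0 := by
    by_contra h0
    apply hy₁
    have := h.2.1 p h0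
    rwa [hp, inv_inv] at this
  obtain ⟨a, ha⟩ : ∃ a : V, (a : M) = algebraMap k M A := ⟨⟨_, hkV A⟩, rfl⟩
  obtain ⟨b, hb⟩ : ∃ b : V, (b : M) = algebraMap k M B := ⟨⟨_, hkV B⟩, rfl⟩
  -- `D = 2 - A p ^ 4` is a unit
  obtain ⟨D, hD⟩ : ∃ D : V, D = 2 - a * p ^ 4 := ⟨_, rfl⟩
  have hφD : φ D = 2 := by
    rw [hD, map_sub, map_mul, map_pow, hφp, map_ofNat]
    ring
  have hDinv : (D : M)⁻¹ ∈ V := h.2.1 D (by rw [hφD]; exact two_ne_zero)
  have hD0 : (D : M) ≠ 0 := by
    intro h0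
    have : D = 0 := Subtype.ext h0
    rw [this, map_zero] at hφD
    exact two_ne_zero hφD.symm
  obtain ⟨E, hE⟩ : ∃ E : V, (E : M) = (D : M)⁻¹ := ⟨⟨_, hDinv⟩, rfl⟩
  have hps : ∀ σ, s σ (p : M) = p := by
    intro σ
    rw [hp, map_inv₀, hys]
  have has : ∀ σ, s σ (a : M) = a := by
    intro σ
    rw [ha, hks]
  have hbs : ∀ σ, s σ (b : M) = b := by
    intro σ
    rw [hb, hks]
  have hDM : (D : M) = 2 - a * (p : M) ^ 4 := by rw [hD]; rfl
  have hDs : ∀ σ, s σ (D : M) = D := by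
    intro σ
    rw [hDM, map_sub, map_mul, map_pow, hps, has, map_ofNat]
  have hEs : ∀ σ, s σ (E : M) = E := by
    intro σ
    rw [hE, map_inv₀, hDs]
  -- first square root
  obtain ⟨G, hG⟩ : ∃ G : V, G = 1 - b * (p ^ 4 * E) ^ 2 := ⟨_, rfl⟩
  have hGM : (G : M) = 1 - b * ((p : M) ^ 4 * E) ^ 2 := by rw [hG]; rfl
  have hφG : φ G = 1 := by
    rw [hG, map_sub, map_mul, map_pow, map_mul, map_pow, hφp, map_one]
    ring
  have hGs : ∀ σ, s σ (G : M) = G := by
    intro σ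
    rw [hGM, map_sub, map_mul, map_pow, map_mul, map_pow, hps, hbs, hEs, map_one]
  obtain ⟨r, hrV, hr, hφr, hrs'⟩ := sqrt_fixed h (a := (G : M)) G.2 hφG
  have hrs : ∀ σ, s σ r = r := fun σ => hrs' σ (hGs σ)
  -- second square root
  obtain ⟨F, hF⟩ : ∃ F : V, (F : M) = 4⁻¹ := by
    refine ⟨⟨4⁻¹, ?_⟩, rfl⟩
    have := hkV 4⁻¹
    rwa [map_inv₀, map_ofNat] at this
  have hφF : φ F * 4 = 1 := by
    have h4 : F * 4 = 1 := by
      apply Subtype.ext
      change (F : M) * 4 = 1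
      rw [hF]
      norm_num
    rw [← map_ofNat φ 4, ← map_mul, h4, map_one]
  obtain ⟨H, hH⟩ : ∃ H : V, H = D * (1 + ⟨r, hrV⟩) * F := ⟨_, rfl⟩
  have hHM : (H : M) = D * (1 + r) * 4⁻¹ := by rw [hH, ← hF]; rfl
  have hφH : φ H = 1 := by
    rw [hH, map_mul, map_mul, map_add, map_one, hφr, hφD]
    linear_combination hφF
  have hHs : ∀ σ, s σ (H : M) = H := by
    intro σ
    rw [hHM, map_mul, map_mul, map_add, map_one, hrs, hDs, map_inv₀, map_ofNat]
  obtain ⟨q, hqV, hq, hφq, hqs'⟩ := sqrt_fixed h (a := (H : M)) H.2 hφH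
  have hqs : ∀ σ, s σ q = q := fun σ => hqs' σ (hHs σ)
  have hq0 : q ≠ 0 := by
    rintro rfl
    have : φ ⟨0, hqV⟩ = 0 := map_zero φ
    rw [hφq] at this
    exact one_ne_zero this
  refine ⟨y ^ 2, 2 * y ^ 3 * q, ?_, ?_, ?_, ?_⟩
  · intro σ
    constructor
    · rw [map_pow, hys]
    · rw [map_mul, map_mul, map_pow, hys, hqs, map_ofNat]
  · intro c hc
    apply hy₁
    rcases V.mem_or_inv_mem y with h3 | h3
    · exact h3
    · have : y = y ^ 2 * y⁻¹ := by field_simp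
      rw [this, hc]
      exact V.mul_mem _ _ (hkV c) h3
  · exact mul_ne_zero (mul_ne_zero h2 (pow_ne_zero 3 hy0)) hq0
  · rw [← ha, ← hb]
    have e1 : (p : M) * y = 1 := by rw [hp]; exact inv_mul_cancel₀ hy0
    have e2 : (D : M) * E = 1 := by rw [hE]; exact mul_inv_cancel₀ hD0
    have e3 : (2 * y ^ 3 * q) ^ 2 = y ^ 6 * (D * (1 + r)) := by
      rw [mul_pow, hq, hHM]
      ring
    have e4 : (2 * (y ^ 2) ^ 3 - (a : M) * y ^ 2) = y ^ 6 * D := by
      rw [hDM]
      have : (a : M) * y ^ 2 = a * y ^ 6 * (p : M) ^ 4 := by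
        calc (a : M) * y ^ 2 = a * y ^ 2 * 1 ^ 4 := by ring
          _ = a * y ^ 2 * ((p : M) * y) ^ 4 := by rw [e1]
          _ = _ := by ring
      rw [this]
      ring
    have e5 : (2 * y ^ 3 * q) ^ 4 = (y ^ 6 * (D * (1 + r))) ^ 2 := by
      rw [← e3]
      ring
    have e6 : (y ^ 6 * (D : M)) ^ 2 * (r ^ 2 - 1) = -((b : M) * (y ^ 2) ^ 2) := by
      rw [hr, hGM]
      calc (y ^ 6 * (D : M)) ^ 2 * (1 - b * ((p : M) ^ 4 * E) ^ 2 - 1)
          = -(b * y ^ 4 * (((p : M) * y) ^ 8) * ((D : M) * E) ^ 2) := by ring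
        _ = _ := by rw [e1, e2]; ring
    rw [e3, e4, e5]
    linear_combination e6

/-- The field fixed by the section of a rational place contains nonconstant solutions of
`y ^ 2 = f(x)` for every monic `f` over a subfield `F` of the algebraic closure. -/
theorem exists_sol_of_place [IsAlgClosed M] [Algebra.IsAlgebraic K M] [Algebra k M]
    [IsScalarTower k K M] [IsScalarTower k (AlgebraicClosure k) M]
    (hsec : ∀ σ a, s σ (algebraMap (AlgebraicClosure k) M a) =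
      algebraMap (AlgebraicClosure k) M (σ a))
    (h : IsPlaceOf s k (RingHom.id (AlgebraicClosure k)) V φ) {y₀ : K} (hy₀ : Transcendental k y₀)
    {F : Type*} [Field F] [Algebra F (AlgebraicClosure k)] [Algebra F M]
    [IsScalarTower F (AlgebraicClosure k) M] {f : F[X]} (hf : f.Monic) :
    ∃ x y : M, (∀ σ : Gal(AlgebraicClosure k/k),
      (∀ a : F, σ (algebraMap F _ a) = algebraMap F _ a) → s σ x = x ∧ s σ y = y) ∧
      x ∉ V ∧ Transcendental F x ∧ y ^ 2 = aeval x f := by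
  obtain ⟨y₁, hy₁⟩ := exists_infinite h hy₀
  obtain ⟨y, hy⟩ : ∃ y, y = algebraMap K M y₁ := ⟨_, rfl⟩
  rw [← hy] at hy₁
  have hys : ∀ σ, s σ y = y := by
    intro σ
    rw [hy, AlgEquiv.commutes]
  have hy0 : y ≠ 0 := by
    rintro h0
    rw [h0] at hy₁
    exact hy₁ V.zero_mem
  have hFV : ∀ c : F, algebraMap F M c ∈ V := by
    intro c
    rw [IsScalarTower.algebraMap_apply F (AlgebraicClosure k) M]
    exact (h.1 _).1
  have hxV : y ^ 2 ∉ V := by
    intro h2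
    apply hy₁
    rcases V.mem_or_inv_mem y with h3 | h3
    · exact h3
    · have : y = y ^ 2 * y⁻¹ := by field_simp
      rw [this]
      exact V.mul_mem _ _ h2 h3
  obtain ⟨ι, hι⟩ : ∃ ι : F →+* V, ∀ c, ((ι c : V) : M) = algebraMap F M c :=
    ⟨(algebraMap F M).codRestrict V hFV, fun c => rfl⟩
  obtain ⟨p, hp⟩ : ∃ p : V, (p : M) = y⁻¹ := ⟨⟨y⁻¹, (V.mem_or_inv_mem y).resolve_left hy₁⟩, rfl⟩
  have hφp : φ p = 0 := by
    by_contra h0
    apply hy₁
    have := h.2.1 p h0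
    rwa [hp, inv_inv] at this
  obtain ⟨u, hu⟩ : ∃ u : V, u = eval₂ ι (p ^ 2) f.reverse := ⟨_, rfl⟩
  have huM : (u : M) = eval₂ (algebraMap F M) ((p : M) ^ 2) f.reverse := by
    have h1 : (u : M) = V.subtype (eval₂ ι (p ^ 2) f.reverse) := by rw [hu]; rfl
    have h2 : V.subtype.comp ι = algebraMap F M := RingHom.ext hι
    rw [h1, hom_eval₂, h2]
    rfl
  have hφu : φ u = 1 := by
    rw [hu, hom_eval₂, map_pow, hφp, zero_pow two_ne_zero, eval₂_at_zero, coeff_zero_reverse,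
      hf.leadingCoeff, map_one]
  obtain ⟨r, hrV, hr, -, hrs⟩ := sqrt_fixed h (a := (u : M)) u.2 hφu
  refine ⟨y ^ 2, y ^ f.natDegree * r, ?_, hxV, ?_, ?_⟩
  · intro σ hσ
    have hσF : ∀ a : F, s σ (algebraMap F M a) = algebraMap F M a := by
      intro a
      rw [IsScalarTower.algebraMap_apply F (AlgebraicClosure k) M, hsec, hσ]
    have h1 : s σ (u : M) = u := by
      rw [huM]
      have h2 : ((s σ : M →+* M)).comp (algebraMap F M) = algebraMap F M := RingHom.ext hσF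
      have h3 : (s σ : M →+* M) (eval₂ (algebraMap F M) ((p : M) ^ 2) f.reverse) =
          eval₂ (algebraMap F M) ((p : M) ^ 2) f.reverse := by
        rw [hom_eval₂, h2, map_pow]
        congr 1
        rw [hp]
        change (s σ y⁻¹) ^ 2 = _
        rw [map_inv₀, hys]
      exact h3
    refine ⟨by rw [map_pow, hys], ?_⟩
    rw [map_mul, map_pow, hys, hrs σ h1]
  · intro halg
    exact hxV (mem_of_isIntegral V hFV halg.isIntegral)
  · have hinv : Invertible (y ^ 2) := invertibleOfNonzero (pow_ne_zero 2 hy0)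
    have h1 := eval₂_reverse_mul_pow (algebraMap F M) (y ^ 2) f
    have h2 : ⅟(y ^ 2) = (p : M) ^ 2 := by rw [hp, invOf_eq_inv, inv_pow]
    rw [h2, ← huM] at h1
    rw [mul_pow, hr, ← pow_mul, mul_comm f.natDegree 2, pow_mul, mul_comm, h1]
    rfl

end

end Pool.Agent.Lib.MP_2f3286_ag.UA
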