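import Pool.Agent.Lib.MP_2f3286_ag.UA.Z6

/-!
# Z7: the last clause of the theorem, for every prime   (helper73)

`(x, y)` is a point of the elliptic curve `W` over `M`, `x` is integral over `R`, `K` is contained in `F(x, y)`. A place of the section over a finite extension of `k` at which the functions in `R` are
finite, or at which `x` is not finite, is the only place of the section over a finite extension of `k`, and it is a place of the section over `k`. No hypothesis on the other places, none on `F/k`.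
For the extensions `M/K₁`, `K₁` in `K`: apply it to `(resTo K₁).comp s` (`isPlaceOf_resTo`).
-/

open WeierstrassCurve WeierstrassCurve.Affine WeierstrassCurve.Affine.Point
open IsDedekindDomain NumberField
open Pool.Agent.Lib.MP_2f3286_ag

namespace Pool.Agent.Lib.MP_2f3286_ag.UA

open Pool.Agent.Lib.MP_2f3286_ag.SNeigh (IsOver ResOn)

universe u v

open scoped Classical in
/-- **The place is the only one.** -/
theorem only_place_E {k : Type u} [Field k] [NumberField k]
    {F : Type v} [Field F] [Algebra F (AlgebraicClosure k)]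
    [Algebra.IsAlgebraic F (AlgebraicClosure k)]
    (W : WeierstrassCurve F) [W.IsShortNF] [W.IsElliptic]
    {K : Type*} [Field K] [Algebra k K] (htr : Algebra.trdeg k K = 1)
    (R : Subalgebra k K) (hfg : R.FG) (hRn : ∀ y : K, _root_.IsIntegral R y → y ∈ R)
    {M : Type*} [Field M] [Algebra K M] [IsGalois K M]
    [Algebra (AlgebraicClosure k) M] [Algebra k M]
    [IsScalarTower k K M] [IsScalarTower k (AlgebraicClosure k) M]
    [Algebra F M] [IsScalarTower F (AlgebraicClosure k) M]
    (hM : Pt.IsMaxUnramOver R K M (AlgebraicClosure k))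
    (s : Gal(AlgebraicClosure k/k) →* Gal(M/K)) (hs : Continuous s)
    (hsec : ∀ σ a, s σ (algebraMap (AlgebraicClosure k) M a) =
      algebraMap (AlgebraicClosure k) M (σ a))
    {x y : M} (hxy : (W⁄M).Nonsingular x y) (hxt : Transcendental F x)
    (hxR : _root_.IsIntegral R x)
    (hK : ∀ z : K, algebraMap K M z ∈ IntermediateField.adjoin F {x, y})
    {A₀ : ValuationSubring M} {ψ₀ : A₀ →+* AlgebraicClosure k}
    {E : IntermediateField k (AlgebraicClosure k)} (hE : FiniteDimensional k E)
    (h₀ : Sel.IsPlaceOf s E (RingHom.id _) A₀ ψ₀)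
    (hA₀ : (∀ r : R, algebraMap K M r ∈ A₀) ∨ x ∉ A₀) : IsOnlyPlaceFin s A₀ ψ₀ := by
  have hM0 : CharZero M :=
    charZero_of_injective_algebraMap (algebraMap (AlgebraicClosure k) M).injective
  obtain ⟨T, hT⟩ := exists_div_max hM W (some x y hxy) (n := 2) one_le_two
  obtain ⟨x', y', hxy', rfl⟩ : ∃ (x' y' : M) (h : (W⁄M).Nonsingular x' y'), T = some x' y' h := by
    rcases T with _ | ⟨x', y', h⟩
    · exfalso
      exact some_ne_zero hxy (hT.symm.trans (smul_zero _))
    · exact ⟨x', y', h, rfl⟩
  have H := half_of_two W hxy hxy' hT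
  rw [IsScalarTower.algebraMap_apply F (AlgebraicClosure k) M,
    IsScalarTower.algebraMap_apply F (AlgebraicClosure k) M] at H
  have hD : 4 * (algebraMap F (AlgebraicClosure k) W.a₄) ^ 3 +
      27 * (algebraMap F (AlgebraicClosure k) W.a₆) ^ 2 ≠ 0 := by
    have h1 : W.Δ ≠ 0 := W.isUnit_Δ.ne_zero
    rw [W.Δ_of_isShortNF] at h1
    intro h2
    apply h1
    have h3 : algebraMap F (AlgebraicClosure k) (-16 * (4 * W.a₄ ^ 3 + 27 * W.a₆ ^ 2)) = 0 := by
      rw [map_mul, map_add, map_mul, map_mul, map_pow, map_pow, map_ofNat, map_ofNat, h2, mul_zero]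
    exact (_root_.map_eq_zero _).1 h3
  have hxt' : Transcendental (AlgebraicClosure k) x := fun h => hxt (IsAlgebraic.restrictScalars F h)
  have hK' : ∀ z : K, algebraMap K M z ∈
      IntermediateField.adjoin (AlgebraicClosure k) {x, y} := by
    intro z
    have h1 : (IntermediateField.adjoin F {x, y} : IntermediateField F M) ≤
        (IntermediateField.adjoin (AlgebraicClosure k) {x, y}).restrictScalars F := by
      rw [IntermediateField.adjoin_le_iff]
      exact IntermediateField.subset_adjoin _ _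
    exact h1 (hK z)
  obtain ⟨hO, hR⟩ := resOn_of_place h₀
  have hEo : IsOpen (E.fixingSubgroup : Set Gal(AlgebraicClosure k/k)) :=
    E.fixingSubgroup_isOpen
  have key : ∀ (Δ : Subgroup Gal(AlgebraicClosure k/k)),
      IsOpen (Δ : Set Gal(AlgebraicClosure k/k)) → ∀ (A₁ : ValuationSubring M)
      (ψ₁ : A₁ →+* AlgebraicClosure k), IsOver A₁ ψ₁ → ResOn s A₁ ψ₁ Δ → A₁ = A₀ :=
    fun Δ hΔ A₁ ψ₁ h h' => unique_core htr R hfg hRn hM s hs hsec hD H hxt' hxR hK' hO
      E.fixingSubgroup hEo hR hA₀ h Δ hΔ h'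
  exact only_of_uniq hsec hE h₀ fun Δ hΔ A₁ ψ₁ A₂ ψ₂ g1 g2 g3 g4 =>
    (key Δ hΔ A₁ ψ₁ g1 g3).trans (key Δ hΔ A₂ ψ₂ g2 g4).symm

end Pool.Agent.Lib.MP_2f3286_ag.UA
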