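import Pool.Agent.Lib.MP_2f3286_ag.UA.Tri2
import Pool.Agent.Lib.MP_2f3286_ag.HYP.AFUni
import Pool.Agent.Lib.MP_2f3286_ag.Fer.FullM

/-!
# Sections above the curve: affine curves
-/

open Polynomial IsDedekindDomain NumberField
open scoped WithZero

noncomputable section

namespace Pool.Agent.Lib.MP_2f3286_ag.UA

open Pool.Agent.Lib.MP_2f3286_ag.HYP

universe u

/-- the values of `x` at the local places, for the maximal unramified extension -/
theorem tri_over {k : Type u} [Field k] [NumberField k] {i d : k} {f : k[X]}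
    (C : Crv i d f)
    {K : Type*} [Field K] [Algebra k K] (htr : Algebra.trdeg k K = 1)
    {x y : K} (hx : ∀ c : k, x ≠ algebraMap k K c) (hxy : y ^ 2 = aeval x f)
    (R : Subalgebra k K)
    {M : Type*} [Field M] [Algebra K M] [IsGalois K M]
    [Algebra (AlgebraicClosure k) M] [Algebra k M]
    [IsScalarTower k K M] [IsScalarTower k (AlgebraicClosure k) M]
    (s : Gal(AlgebraicClosure k/k) →* Gal(M/K)) (hs : Continuous s)
    (hsec : ∀ σ a, s σ (algebraMap (AlgebraicClosure k) M a) =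
      algebraMap (AlgebraicClosure k) M (σ a))
    (hxR : x ∈ R) (hyR' : y⁻¹ ∈ R) (hM : Pt.IsMaxUnramOver R K M (AlgebraicClosure k))
    (hloc : ∀ v : HeightOneSpectrum (𝓞 k),
      ∃ (ι : AlgebraicClosure k →ₐ[k] AlgebraicClosure (v.adicCompletion k))
        (A : ValuationSubring M) (φ : A →+* AlgebraicClosure (v.adicCompletion k)),
        Sel.IsPlaceOf s (v.adicCompletion k)
          (ι : _ →+* AlgebraicClosure (v.adicCompletion k)) A φ) :
    (∃ e : k, ∀ (v : HeightOneSpectrum (𝓞 k))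
      (ι : AlgebraicClosure k →ₐ[k] AlgebraicClosure (v.adicCompletion k))
      (A : ValuationSubring M) (φ : A →+* AlgebraicClosure (v.adicCompletion k)),
      Sel.IsPlaceOf s (v.adicCompletion k)
        (ι : _ →+* AlgebraicClosure (v.adicCompletion k)) A φ →
      ∃ h : algebraMap K M x ∈ A, φ ⟨_, h⟩ = ι (algebraMap k _ e)) ∨
    ∀ (v : HeightOneSpectrum (𝓞 k))
      (ι : AlgebraicClosure k →ₐ[k] AlgebraicClosure (v.adicCompletion k))
      (A : ValuationSubring M) (φ : A →+* AlgebraicClosure (v.adicCompletion k)),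
      Sel.IsPlaceOf s (v.adicCompletion k)
        (ι : _ →+* AlgebraicClosure (v.adicCompletion k)) A φ →
      ∃ h : (algebraMap K M x)⁻¹ ∈ A, φ ⟨_, h⟩ = 0 := by
  have hK0 : CharZero K := charZero_of_injective_algebraMap (algebraMap k K).injective
  have hrad := Pt.radClosedOver_of_max R hM
  refine tri C htr {V : ValuationSubring M | Pt.IsPlcOver R (AlgebraicClosure k) V}
    (fun V hV a => ?_) (fun n hn ρ hρ hV => Fer.rad_of_max R (hrad n · hn) ρ hρ hV) s hs hsec x y
    hx hxy (fun V hV => ⟨hV.2 ⟨x, hxR⟩, hV.2 ⟨y⁻¹, hyR'⟩⟩) hloc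
  rw [IsScalarTower.algebraMap_apply k (AlgebraicClosure k) M]
  exact hV.1.1 _

/-- **Affine curves.** -/
theorem aff_core {k : Type u} [Field k] [NumberField k] {i d : k} {f : k[X]}
    (C : Crv i d f)
    {K : Type*} [Field K] [Algebra k K] (htr : Algebra.trdeg k K = 1)
    {x y : K} (hx : ∀ c : k, x ≠ algebraMap k K c) (hxy : y ^ 2 = aeval x f)
    (R : Subalgebra k K)
    {M : Type*} [Field M] [Algebra K M] [IsGalois K M]
    [Algebra (AlgebraicClosure k) M] [Algebra k M]
    [IsScalarTower k K M] [IsScalarTower k (AlgebraicClosure k) M]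
    (s : Gal(AlgebraicClosure k/k) →* Gal(M/K)) (hs : Continuous s)
    (hsec : ∀ σ a, s σ (algebraMap (AlgebraicClosure k) M a) =
      algebraMap (AlgebraicClosure k) M (σ a))
    (hRn : ∀ h : K, IsIntegral R h → h ∈ R) (hfg : R.FG)
    (hxR : x ∈ R) (hyR : y ∈ R) (hyR' : y⁻¹ ∈ R)
    (hM : Pt.IsMaxUnramOver R K M (AlgebraicClosure k))
    (hMp : Pt.IsMaxUnram R K M (AlgebraicClosure k))
    (hloc : ∀ v : HeightOneSpectrum (𝓞 k),
      ∃ (ι : AlgebraicClosure k →ₐ[k] AlgebraicClosure (v.adicCompletion k))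
        (A : ValuationSubring M) (φ : A →+* AlgebraicClosure (v.adicCompletion k)),
        IsPointOn s R (v.adicCompletion k)
          (ι : _ →+* AlgebraicClosure (v.adicCompletion k)) A φ) :
    ∃ (Δ : Subgroup Gal(AlgebraicClosure k/k))
      (Ψ : integralClosure R M →+* AlgebraicClosure k),
      IsOpen (Δ : Set Gal(AlgebraicClosure k/k)) ∧
      Pt.IsPt R M (AlgebraicClosure k) Ψ ∧
      (∀ σ ∈ Δ, ∀ b b' : integralClosure R M, (b' : M) = s σ b → Ψ b' = σ (Ψ b)) ∧
      (∀ r : R, algebraMap K M r ∈ unitRing R M →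
        ∃ c : k, Ψ (algebraMap R _ r) = algebraMap k _ c ∧
          ∀ (v : HeightOneSpectrum (𝓞 k))
            (ι : AlgebraicClosure k →ₐ[k] AlgebraicClosure (v.adicCompletion k))
            (A : ValuationSubring M) (φ : A →+* AlgebraicClosure (v.adicCompletion k)),
            IsPointOn s R (v.adicCompletion k)
              (ι : _ →+* AlgebraicClosure (v.adicCompletion k)) A φ →
            ∃ h' : algebraMap K M r ∈ A, φ ⟨_, h'⟩ = ι (algebraMap k _ c)) ∧
      (∀ Ψ' : integralClosure R M →+* AlgebraicClosure k,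
        Pt.IsPt R M (AlgebraicClosure k) Ψ' →
        (∀ r : R, Ψ' (algebraMap R _ r) = Ψ (algebraMap R _ r)) →
        (∃ Δ' : Subgroup Gal(AlgebraicClosure k/k), IsOpen (Δ' : Set Gal(AlgebraicClosure k/k)) ∧
          ∀ σ ∈ Δ', ∀ b b' : integralClosure R M, (b' : M) = s σ b → Ψ' b' = σ (Ψ' b)) → Ψ' = Ψ) ∧
      ((∀ r : R, algebraMap K M r ∈ unitRing R M) → Respects s k (RingHom.id _) Ψ) := by
  classical
  have hxk : Transcendental k x := by
    rintro ⟨p, hp, hp'⟩
    have h1 : (p.map (algebraMap k (AlgebraicClosure k))).eval₂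
        (algebraMap (AlgebraicClosure k) M) (algebraMap K M x) = 0 := by
      rw [eval₂_map, ← IsScalarTower.algebraMap_eq, ← aeval_def, aeval_algebraMap_apply, hp',
        map_zero]
    obtain ⟨c, -, hc⟩ := root_mem (algebraMap (AlgebraicClosure k) M)
      (Polynomial.map_ne_zero hp) h1
    obtain ⟨c₀, hc₀⟩ := HYP.mem_of_fixed (k := k) (a := c) fun σ => by
      apply (algebraMap (AlgebraicClosure k) M).injective
      rw [← hsec, hc, (s σ).commutes]
    apply hx c₀
    apply (algebraMap K M).injective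
    rw [← IsScalarTower.algebraMap_apply, IsScalarTower.algebraMap_apply k (AlgebraicClosure k) M,
      hc₀]
    exact hc.symm
  have hfdim := finite_of_fg htr R hRn hfg hxR hxk
  let xR : R := ⟨x, hxR⟩
  let yR : R := ⟨y, hyR⟩
  have hy0 : y ≠ 0 := by
    intro h0
    rw [h0, zero_pow two_ne_zero] at hxy
    exact hxk ⟨f, C.monic.ne_zero, hxy.symm⟩
  have hyU : IsUnit yR := by
    refine IsUnit.of_mul_eq_one ⟨y⁻¹, hyR'⟩ ?_
    apply Subtype.ext
    exact mul_inv_cancel₀ hy0
  have hxyR : yR ^ 2 = aeval xR f := by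
    apply Subtype.ext
    have h1 : ((aeval xR f : R) : K) = aeval x f := (aeval_algHom_apply R.val xR f).symm
    rw [h1, ← hxy]
    rfl
  have hfin' : FiniteDimensional (IntermediateField.adjoin k {(xR : K)}) K := hfdim
  have hmax := Pt.radClosed_of_max R hMp
  -- the value of `x`
  obtain ⟨e, he⟩ : ∃ e : k, ∀ (v : HeightOneSpectrum (𝓞 k))
      (ι : AlgebraicClosure k →ₐ[k] AlgebraicClosure (v.adicCompletion k))
      (A : ValuationSubring M) (φ : A →+* AlgebraicClosure (v.adicCompletion k)),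
      Sel.IsPlaceOf s (v.adicCompletion k)
        (ι : _ →+* AlgebraicClosure (v.adicCompletion k)) A φ →
      ∃ h : algebraMap K M x ∈ A, φ ⟨_, h⟩ = ι (algebraMap k _ e) := by
    refine (tri_over C htr hx hxy R s hs hsec hxR hyR' hM fun v => ?_).resolve_right fun h => ?_
    · obtain ⟨ι, A, φ, h1, -⟩ := hloc v
      exact ⟨ι, A, φ, h1⟩
    · obtain ⟨v, -⟩ := exists_notMem (k := k) ∅
      obtain ⟨ι, A, φ, h1, h2⟩ := hloc v
      obtain ⟨h3, h4⟩ := h v ι A φ h1
      have hxM : algebraMap K M x ≠ 0 := by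
        rw [Ne, _root_.map_eq_zero]
        intro h0
        exact hx 0 (by rw [h0, map_zero])
      have h5 : φ (⟨_, h2 xR⟩ * ⟨_, h3⟩) = 1 := by
        rw [← map_one φ]
        congr 1
        exact Subtype.ext (mul_inv_cancel₀ hxM)
      rw [map_mul, h4, mul_zero] at h5
      exact zero_ne_one h5
  -- the local points
  have hpt : ∀ (v : HeightOneSpectrum (𝓞 k))
      (ι : AlgebraicClosure k →ₐ[k] AlgebraicClosure (v.adicCompletion k))
      (A : ValuationSubring M) (φ : A →+* AlgebraicClosure (v.adicCompletion k)),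
      IsPointOn s R (v.adicCompletion k)
        (ι : _ →+* AlgebraicClosure (v.adicCompletion k)) A φ →
      ∃ φ' : integralClosure R M →+* AlgebraicClosure (v.adicCompletion k),
        Respects s (v.adicCompletion k)
          (ι : _ →+* AlgebraicClosure (v.adicCompletion k)) φ' ∧
        φ' (algebraMap R _ (aeval xR (Polynomial.X - Polynomial.C e))) = 0 ∧
        ∀ r : R, ∃ h' : algebraMap K M r ∈ A, φ ⟨_, h'⟩ = φ' (algebraMap R _ r) := by
    intro v ι A φ h
    obtain ⟨hA, φ', hφ', hr⟩ := respects_of_place R h.1 h.2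
    refine ⟨φ', hr, ?_, fun r => ⟨h.2 r, ?_⟩⟩
    · obtain ⟨h3, h4⟩ := he v ι A φ h.1
      have h5 : (algebraMap R (integralClosure R M) (aeval xR (Polynomial.X - Polynomial.C e))) =
          algebraMap R _ xR - algebraMap R _ (algebraMap k R e) := by
        rw [map_sub, aeval_X, aeval_C, map_sub]
      rw [h5, map_sub, sub_eq_zero, hφ', hφ']
      have h6 : φ ⟨_, hA (algebraMap R _ xR)⟩ = ι (algebraMap k _ e) := h4
      rw [h6]
      obtain ⟨h7, h8⟩ := h.1.1 (algebraMap k _ e)
      refine h8.symm.trans (congrArg φ (Subtype.ext ?_))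
      change algebraMap (AlgebraicClosure k) M (algebraMap k _ e) =
        algebraMap K M (algebraMap k K e)
      rw [← IsScalarTower.algebraMap_apply, ← IsScalarTower.algebraMap_apply]
    · rw [hφ']
      rfl
  choose ι₀ A₀ φA₀ hA₀ using hloc
  choose φ₀ hφ₀ hφ₀e hφ₀v using fun v => hpt v (ι₀ v) (A₀ v) (φA₀ v) (hA₀ v)
  have main := fun (ι : ∀ v : HeightOneSpectrum (𝓞 k),
      AlgebraicClosure k →ₐ[k] AlgebraicClosure (v.adicCompletion k))
    (φ : ∀ v : HeightOneSpectrum (𝓞 k),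
      integralClosure R M →+* AlgebraicClosure (v.adicCompletion k)) 
    (hφ : ∀ v, Respects s (v.adicCompletion k)
      (ι v : _ →+* AlgebraicClosure (v.adicCompletion k)) (φ v)) (hv : ∀ v, φ v
        (algebraMap R _ (aeval xR (Polynomial.X - Polynomial.C e))) = 0) =>
    GU.gu_final2 R hRn hfg xR hxk
      (GU.mem_units_of_unit R xR f (by rw [C.natDegree]; omega) (by rw [← hxyR]; exact hyU.pow 2))
      (fun Ψ hΨ g _ hg => Pt.unram_of_max R hMp Ψ hΨ g hg) hmax s hs
      hsec ∅ (fun v => ι v.1) (fun v => φ v.1) (fun v => hφ v.1) ∅ (Finset.empty_subset _)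
      (Polynomial.X - Polynomial.C e) (X_sub_C_ne_zero e) (fun v _ => hv v.1)
  obtain ⟨Δ, Ψ, h1, h2, h3, h4, h5, h6, -⟩ := main ι₀ φ₀ hφ₀ hφ₀e
  -- all local points
  have h4' : ∀ r : R, algebraMap K M r ∈ unitRing R M →
        ∃ c : k, Ψ (algebraMap R _ r) = algebraMap k _ c ∧
          ∀ (v : HeightOneSpectrum (𝓞 k))
            (ι : AlgebraicClosure k →ₐ[k] AlgebraicClosure (v.adicCompletion k))
            (A : ValuationSubring M) (φ : A →+* AlgebraicClosure (v.adicCompletion k)),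
            IsPointOn s R (v.adicCompletion k)
              (ι : _ →+* AlgebraicClosure (v.adicCompletion k)) A φ →
            ∃ h' : algebraMap K M r ∈ A, φ ⟨_, h'⟩ = ι (algebraMap k _ c) := by
    intro r hr
    obtain ⟨c, hc, hcv⟩ := h4 r hr
    refine ⟨c, hc, fun v ι A φA hφA => ?_⟩
    obtain ⟨φ, hφ, hφe, hφv⟩ := hpt v ι A φA hφA
    obtain ⟨h', hh'⟩ := hφv r
    refine ⟨h', hh'.trans ?_⟩
    -- change the local point at `v`
    let D : HeightOneSpectrum (𝓞 k) → Type _ := fun w =>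
      {p : (AlgebraicClosure k →ₐ[k] AlgebraicClosure (w.adicCompletion k)) ×
        (integralClosure R M →+* AlgebraicClosure (w.adicCompletion k)) //
        Respects s (w.adicCompletion k) (p.1 : _ →+* AlgebraicClosure (w.adicCompletion k)) p.2 ∧
        p.2 (algebraMap R _ (aeval xR (Polynomial.X - Polynomial.C e))) = 0}
    let D₀ : ∀ w, D w := fun w => ⟨(ι₀ w, φ₀ w), hφ₀ w, hφ₀e w⟩
    let d : ∀ w, D w := Function.update D₀ v ⟨(ι, φ), hφ, hφe⟩
    obtain ⟨Δ₂, Ψ₂, -, -, -, g4, -, -, -⟩ := main (fun w => (d w).1.1) (fun w => (d w).1.2)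
      (fun w => (d w).2.1) (fun w => (d w).2.2)
    obtain ⟨c₂, -, hc₂⟩ := g4 r hr
    have hv := hc₂ ⟨v, Finset.notMem_empty v⟩
    have hd : d v = ⟨(ι, φ), hφ, hφe⟩ := Function.update_self _ _ _
    rw [hd] at hv
    obtain ⟨w, hw⟩ : ∃ w : HeightOneSpectrum (𝓞 k), w ≠ v := by
      obtain ⟨w, hw⟩ := exists_notMem ({v} : Finset (HeightOneSpectrum (𝓞 k)))
      exact ⟨w, fun h => hw (Finset.mem_singleton.2 h)⟩
    have hdw : d w = ⟨(ι₀ w, φ₀ w), hφ₀ w, hφ₀e w⟩ := Function.update_of_ne hw _ _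
    have hcw := hc₂ ⟨w, Finset.notMem_empty w⟩
    rw [hdw] at hcw
    have h8 : algebraMap k (AlgebraicClosure k) c₂ = algebraMap k _ c := by
      apply (ι₀ w : AlgebraicClosure k →+* AlgebraicClosure (w.adicCompletion k)).injective
      exact hcw.symm.trans (hcv ⟨w, Finset.notMem_empty w⟩)
    rw [← h8]
    exact hv
  refine ⟨Δ, Ψ, h1, h2, h3, h4', h5, fun hR => h6 fun r => ?_⟩
  obtain ⟨c, hc, -⟩ := h4' r (hR r)
  exact ⟨c, hc⟩

end Pool.Agent.Lib.MP_2f3286_ag.UA
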