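import Pool.Agent.Lib.MP_2f3286_ag.HYP.CvAgr

/-!
# Places with given values of `x`, `y`, `y'`   (helper17)

PROOF. Step: `E` an intermediate field with `∀ h ∈ E, h ∈ A₀ → Ag ψ₀ ψ₁ h`, `y ^ 2 ∈ E`, `Ag y`, `ψ₀ y ≠ 0`: the same holds for
`h = p + q y`, `p, q ∈ E`, `h ∈ A₀`. If `p ∈ A₀`, then `q ∈ A₀`. Otherwise `h / p` has value `0`, so `q / p` is in `A₀` with value
`- 1 / ψ₀ y`, agrees, `h' = p - q y`: `h' / p = 1 - (q / p) y` agrees, with value `2`; `δ = p ^ 2 - q ^ 2 y ^ 2 = h h'` in `E`,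
`δ / p = h (h' / p)` in `A₀`, so agrees, and `h = (δ / p) / (h' / p)`. Start: `ag_simple` for `F(x)`. Every element of
`F(x, y, y')` is `P + Q y'`, `P, Q` in `F(x, y)` (`y' ^ 2` in it; `Ag.exists_decomp` for `F(x, y)`).
-/

open Polynomial IntermediateField

namespace Pool.Agent.Lib.MP_2f3286_ag.UA

open Pool.Agent.Lib.MP_2f3286_ag.HYP

section

variable {M Ω : Type*} [Field M] [Field Ω] {A₀ A₁ : ValuationSubring M}
    {ψ₀ : A₀ →+* Ω} {ψ₁ : A₁ →+* Ω} {F : Type*} [Field F] [Algebra F M]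

/-- the elements of a quadratic extension -/
private theorem Ag2_decomp (E : IntermediateField F M) {y : M} (hy : y ^ 2 ∈ E) {h : M}
    (hh : h ∈ adjoin E {y}) : ∃ p ∈ E, ∃ q ∈ E, h = p + q * y := by
  classical
  replace hh : h ∈ E⟮y⟯ := hh
  let fx : E := ⟨y ^ 2, hy⟩
  let m : E[X] := X ^ 2 - C fx
  have hm : m.Monic := monic_X_pow_sub_C _ two_ne_zero
  have hmd : m.natDegree = 2 := natDegree_X_pow_sub_C
  have hm0 : Polynomial.aeval y m = 0 := by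
    change Polynomial.aeval y (X ^ 2 - C fx) = 0
    rw [map_sub, map_pow, aeval_X, aeval_C]
    exact sub_self _
  have hint : IsIntegral E y := ⟨m, hm, hm0⟩
  have h1 : h ∈ Algebra.adjoin E {y} := by
    rw [← adjoin_simple_toSubalgebra_of_isAlgebraic hint.isAlgebraic]
    exact hh
  rw [Algebra.adjoin_singleton_eq_range_aeval] at h1
  obtain ⟨r, hr⟩ := h1
  replace hr : Polynomial.aeval y r = h := hr
  have h2 : Polynomial.aeval y (r %ₘ m) = h := by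
    rw [← hr]
    conv_rhs => rw [← modByMonic_add_div r m]
    rw [map_add, map_mul, hm0, zero_mul, add_zero]
  have h3 : (r %ₘ m).natDegree < 2 := by
    have h4 := natDegree_modByMonic_lt r hm (fun h => by rw [h, natDegree_one] at hmd; omega)
    rwa [hmd] at h4
  refine ⟨(r %ₘ m).coeff 0, Subtype.mem _, (r %ₘ m).coeff 1, Subtype.mem _, ?_⟩
  rw [← h2, aeval_eq_sum_range' h3, Finset.sum_range_succ, Finset.sum_range_one, pow_zero, pow_one,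
    Algebra.smul_def, Algebra.smul_def, mul_one]
  rfl

/-- the step: a quadratic extension -/
private theorem Ag2_step (h2 : (2 : Ω) ≠ 0) (E : IntermediateField F M)
    (hk₀ : ∀ z : A₀, ψ₀ z ≠ 0 → (z : M)⁻¹ ∈ A₀)
    (hk₁ : ∀ z : A₁, ψ₁ z ≠ 0 → (z : M)⁻¹ ∈ A₁)
    (hs : ∀ {z : M}, z ∈ E → z ∈ A₀ → Ag ψ₀ ψ₁ z) {y : M} (hyE : y ^ 2 ∈ E) (hy : Ag ψ₀ ψ₁ y)
    (hy0 : ∀ h₀ : y ∈ A₀, ψ₀ ⟨y, h₀⟩ ≠ 0) {p q : M} (hp : p ∈ E) (hq : q ∈ E)
    (hA : p + q * y ∈ A₀) : Ag ψ₀ ψ₁ (p + q * y) := by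
  classical
  by_cases hpq : p ∈ A₀ ∧ q ∈ A₀
  · exact (hs hp hpq.1).add ((hs hq hpq.2).mul hy)
  -- a multiplier
  obtain ⟨D, hD, hD0, hDA, hDp, hDq, hDv, hDpq⟩ : ∃ D ∈ E, D ≠ 0 ∧ ∃ hDA : D ∈ A₀, ∃ hDp : D * p ∈ A₀,
      ∃ hDq : D * q ∈ A₀, ψ₀ ⟨D, hDA⟩ = 0 ∧ (D * p = 1 ∨ D * q = 1) := by
    have hv : ∀ z : M, z ≠ 0 → z ∉ A₀ → ∃ hz : z⁻¹ ∈ A₀, ψ₀ ⟨z⁻¹, hz⟩ = 0 := by
      intro z hz hzA
      have h1 : z⁻¹ ∈ A₀ := (A₀.mem_or_inv_mem z).resolve_left hzA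
      refine ⟨h1, ?_⟩
      by_contra h3
      have h4 := hk₀ _ h3
      rw [inv_inv] at h4
      exact hzA h4
    have main : ∀ a b : M, a ∈ E → b ∈ E → (a ∉ A₀ ∨ b ∉ A₀) → a ≠ 0 → b / a ∈ A₀ →
        ∃ D ∈ E, D ≠ 0 ∧ ∃ hDA : D ∈ A₀, D * a = 1 ∧ D * b ∈ A₀ ∧ ψ₀ ⟨D, hDA⟩ = 0 := by
      intro a b ha hb hab ha0 hba
      have haA : a ∉ A₀ := by
        intro h
        rcases hab with h1 | h1
        · exact h1 h
        · apply h1
          rw [← div_mul_cancel₀ b ha0]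
          exact mul_mem hba h
      obtain ⟨h3, h4⟩ := hv a ha0 haA
      refine ⟨a⁻¹, inv_mem ha, inv_ne_zero ha0, h3, inv_mul_cancel₀ ha0, ?_, h4⟩
      rw [mul_comm, ← div_eq_mul_inv]
      exact hba
    rw [not_and_or] at hpq
    by_cases hp0 : p = 0
    · have hq0 : q ≠ 0 := by
        rintro rfl
        rcases hpq with h1 | h1
        · rw [hp0] at h1
          exact h1 (zero_mem _)
        · exact h1 (zero_mem _)
      obtain ⟨D, h3, h4, h5, h6, h7, h8⟩ := main q p hq hp hpq.symm hq0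
        (by rw [hp0, zero_div]; exact zero_mem _)
      exact ⟨D, h3, h4, h5, h7, by rw [h6]; exact one_mem _, h8, Or.inr h6⟩
    · rcases A₀.mem_or_inv_mem (q / p) with h1 | h1
      · obtain ⟨D, h3, h4, h5, h6, h7, h8⟩ := main p q hp hq hpq hp0 h1
        exact ⟨D, h3, h4, h5, by rw [h6]; exact one_mem _, h7, h8, Or.inl h6⟩
      · by_cases hq0 : q = 0
        · obtain ⟨D, h3, h4, h5, h6, h7, h8⟩ := main p q hp hq hpq hp0
            (by rw [hq0, zero_div]; exact zero_mem _)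
          exact ⟨D, h3, h4, h5, by rw [h6]; exact one_mem _, h7, h8, Or.inl h6⟩
        · rw [inv_div] at h1
          obtain ⟨D, h3, h4, h5, h6, h7, h8⟩ := main q p hq hp hpq.symm hq0 h1
          exact ⟨D, h3, h4, h5, h7, by rw [h6]; exact one_mem _, h8, Or.inr h6⟩
  have hDp' := hs (mul_mem hD hp) hDp
  have hDq' := hs (mul_mem hD hq) hDq
  -- the conjugate
  have hw : Ag ψ₀ ψ₁ (D * p + -(D * q * y)) := hDp'.add (hDq'.mul hy).neg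
  obtain ⟨hy₀, hy₁, hyv⟩ := hy
  have hw' : D * p + D * q * y ∈ A₀ := add_mem hDp (mul_mem hDq hy₀)
  have hw'0 : ψ₀ ⟨_, hw'⟩ = 0 := by
    have e1 : (⟨_, hw'⟩ : A₀) = ⟨D, hDA⟩ * ⟨_, hA⟩ := by
      apply Subtype.ext
      change D * p + D * q * y = D * (p + q * y)
      ring
    rw [e1, map_mul, hDv, zero_mul]
  have e2 : ψ₀ ⟨_, hw'⟩ = ψ₀ ⟨_, hDp⟩ + ψ₀ ⟨_, hDq⟩ * ψ₀ ⟨y, hy₀⟩ := by
    rw [← map_mul, ← map_add]
    rfl
  have hwne : ∀ h₀ : D * p + -(D * q * y) ∈ A₀, ψ₀ ⟨_, h₀⟩ ≠ 0 := by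
    intro h₀ h3
    have e3 : ψ₀ ⟨_, h₀⟩ = ψ₀ ⟨_, hDp⟩ - ψ₀ ⟨_, hDq⟩ * ψ₀ ⟨y, hy₀⟩ := by
      rw [← map_mul, ← map_sub]
      congr 1
      apply Subtype.ext
      exact (sub_eq_add_neg _ _).symm
    rw [hw'0] at e2
    rw [h3] at e3
    have e4 : 2 * ψ₀ ⟨_, hDp⟩ = 0 := by linear_combination -e2 - e3
    have e5 : 2 * (ψ₀ ⟨_, hDq⟩ * ψ₀ ⟨y, hy₀⟩) = 0 := by linear_combination -e2 + e3
    rcases hDpq with h4 | h4
    · have e6 : ψ₀ ⟨_, hDp⟩ = 1 := by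
        rw [← map_one ψ₀]
        congr 1
        exact Subtype.ext h4
      rw [e6, mul_one] at e4
      exact h2 e4
    · have e6 : ψ₀ ⟨_, hDq⟩ = 1 := by
        rw [← map_one ψ₀]
        congr 1
        exact Subtype.ext h4
      rw [e6, one_mul] at e5
      exact mul_ne_zero h2 (hy0 hy₀) e5
  have hwi := hw.inv hk₀ hk₁ hwne
  have hr : (p + q * y) * (D * p + -(D * q * y)) ∈ E := by
    have e3 : (p + q * y) * (D * p + -(D * q * y)) = D * (p ^ 2 - q ^ 2 * y ^ 2) := by ring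
    rw [e3]
    exact mul_mem hD (sub_mem (pow_mem hp 2) (mul_mem (pow_mem hq 2) hyE))
  have hrA := hs hr (mul_mem hA hw.1)
  have hwn0 : D * p + -(D * q * y) ≠ 0 := by
    intro h3
    apply hwne hw.1
    rw [← map_zero ψ₀]
    congr 1
    exact Subtype.ext h3
  have h3 := hrA.mul hwi
  rwa [mul_inv_cancel_right₀ hwn0] at h3

end

/-- **Two places at which `x`, `y`, `y'` have the same values, those of `y`, `y'` different from `0`,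
are the same on `F(x, y, y')`.** -/
theorem val_agree2 {M Ω : Type*} [Field M] [Field Ω] {A₀ A₁ : ValuationSubring M}
    {ψ₀ : A₀ →+* Ω} {ψ₁ : A₁ →+* Ω} {F : Type*} [Field F] [Algebra F M] (h2 : (2 : Ω) ≠ 0)
    {f f' : F[X]} {x y y' : M} (hxy : y ^ 2 = Polynomial.aeval x f)
    (hxy' : y' ^ 2 = Polynomial.aeval x f')
    (hk₀ : ∀ z : A₀, ψ₀ z ≠ 0 → (z : M)⁻¹ ∈ A₀)
    (hk₁ : ∀ z : A₁, ψ₁ z ≠ 0 → (z : M)⁻¹ ∈ A₁)
    (hF : ∀ c : F, Ag ψ₀ ψ₁ (algebraMap F M c)) (hx : Ag ψ₀ ψ₁ x) (hy : Ag ψ₀ ψ₁ y)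
    (hy' : Ag ψ₀ ψ₁ y') (hy0 : ∀ h₀ : y ∈ A₀, ψ₀ ⟨y, h₀⟩ ≠ 0)
    (hy'0 : ∀ h₀ : y' ∈ A₀, ψ₀ ⟨y', h₀⟩ ≠ 0) {h : M} (hh : h ∈ adjoin F {x, y, y'})
    (hA : h ∈ A₀) : Ag ψ₀ ψ₁ h := by
  have hE : (adjoin F {x, y, y'} : IntermediateField F M) =
      (adjoin (adjoin F {x, y} : IntermediateField F M) {y'}).restrictScalars F := by
    rw [adjoin_adjoin_left]
    congr 1
    ext z
    simp only [Set.mem_insert_iff, Set.mem_singleton_iff, Set.mem_union, or_assoc]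
  rw [hE, mem_restrictScalars] at hh
  have hmono : F⟮x⟯ ≤ adjoin F {x, y} := adjoin.mono F _ _ (by
    intro z hz
    rw [Set.mem_singleton_iff] at hz
    rw [hz]
    exact Set.mem_insert _ _)
  have hfx : ∀ g : F[X], Polynomial.aeval x g ∈ F⟮x⟯ := by
    intro g
    rw [← AdjoinSimple.algebraMap_gen F x, aeval_algebraMap_apply]
    exact Subtype.mem _
  have hE' : ∀ {z : M}, z ∈ (adjoin F {x, y} : IntermediateField F M) → z ∈ A₀ → Ag ψ₀ ψ₁ z :=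
    fun hz hzA => val_agree h2 hxy hk₀ hk₁ hF hx hy hy0 hz hzA
  have hyE : y' ^ 2 ∈ (adjoin F {x, y} : IntermediateField F M) := by
    rw [hxy']
    exact hmono (hfx f')
  obtain ⟨p, hp, q, hq, rfl⟩ := Ag2_decomp _ hyE hh
  exact Ag2_step h2 _ hk₀ hk₁ hE' hyE hy' hy'0 hp hq hA

end Pool.Agent.Lib.MP_2f3286_ag.UA
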