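import Pool.Agent.Lib.MP_2f3286_ag.UA.DB

/-!
# C01: elements close to one are squares, at every place (also over 2)

Text. `v (u - 1) < v 4`. `u = 1` is clear. For every `n ≥ 1` there is `y` with `v y = 1` and `v (y ^ 2 - u) ≤ v 4 * exp (-n)`: `y = 1` for `n = 1`; if `y` is good for `n`, then
`e = (y ^ 2 - u) / (2 y)` has `v e ≤ v 2 * exp (-n)` and `(y - e) ^ 2 - u = e ^ 2`, `v (e ^ 2) ≤ v 4 * exp (-2 n)`, `v (y - e) = 1` (`v e < 1`).
Compactness of the integers as in DB (read DB.lean: `sq_of_near_one`, the same proof): the set of squares of integers is closed and `u` is in its closure.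
-/

open NumberField IsDedekindDomain
open scoped WithZero

namespace Pool.Agent.Lib.MP_2f3286_ag.UA

private theorem c01_zero {F : Type*} [Field F] [NumberField F] (w : HeightOneSpectrum (𝓞 F))
    (x : w.adicCompletionIntegers F) :
    IsLocalRing.residue (w.adicCompletionIntegers F) x = 0 ↔
      Valued.v (x : w.adicCompletion F) < (1 : ℤᵐ⁰) := by
  rw [IsLocalRing.residue_eq_zero_iff, IsLocalRing.mem_maximalIdeal, mem_nonunits_iff,
    HeightOneSpectrum.adicCompletionIntegers.isUnit_iff_valued_eq_one]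
  have h : Valued.v (x : w.adicCompletion F) ≤ (1 : ℤᵐ⁰) :=
    (HeightOneSpectrum.mem_adicCompletionIntegers (𝓞 F) F w).1 x.2
  exact ⟨fun h' => lt_of_le_of_ne h h', fun h' => h'.ne⟩

private theorem c01_fin {F : Type*} [Field F] [NumberField F] (w : HeightOneSpectrum (𝓞 F)) :
    Finite (IsLocalRing.ResidueField (w.adicCompletionIntegers F)) := by
  have hfin : Finite (𝓞 F ⧸ w.asIdeal) := w.asIdeal.finiteQuotientOfFreeOfNeBot w.ne_bot
  have hval : ∀ a : 𝓞 F, (((algebraMap (𝓞 F) (w.adicCompletionIntegers F) a :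
      w.adicCompletionIntegers F)) : w.adicCompletion F) =
      algebraMap F (w.adicCompletion F) (algebraMap (𝓞 F) F a) := fun a => rfl
  have h0 : ∀ a ∈ w.asIdeal, ((IsLocalRing.residue (w.adicCompletionIntegers F)).comp
      (algebraMap (𝓞 F) (w.adicCompletionIntegers F))) a = 0 := by
    intro a ha
    rw [RingHom.comp_apply, c01_zero, hval, val_alg]
    exact (HeightOneSpectrum.valuation_lt_one_iff_mem w a).2 ha
  refine Finite.of_surjective (Ideal.Quotient.lift w.asIdeal _ h0) ?_
  intro e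
  obtain ⟨x, rfl⟩ := IsLocalRing.residue_surjective e
  have hx : Valued.v (x : w.adicCompletion F) ≤ (1 : ℤᵐ⁰) :=
    (HeightOneSpectrum.mem_adicCompletionIntegers (𝓞 F) F w).1 x.2
  obtain ⟨y, hy⟩ := exists_approx w (x : w.adicCompletion F) 1
  have hlt : WithZero.exp (-((1 : ℕ) : ℤ)) < (1 : ℤᵐ⁰) := by
    rw [← WithZero.exp_zero]
    exact WithZero.exp_lt_exp.mpr (by norm_num)
  have hy1 : w.valuation F y ≤ 1 := by
    rw [← val_alg]
    have e : algebraMap F (w.adicCompletion F) y =
        (x : w.adicCompletion F) - ((x : w.adicCompletion F) - algebraMap F (w.adicCompletion F) y) := by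
      ring
    rw [e]
    exact (Valued.v.map_sub _ _).trans (max_le hx (hy.trans hlt.le))
  obtain ⟨a, ha⟩ := HeightOneSpectrum.exists_valuation_sub_lt_of_integer w hy1 1
  simp only [Units.val_one] at ha
  refine ⟨Ideal.Quotient.mk _ a, ?_⟩
  rw [Ideal.Quotient.lift_mk, RingHom.comp_apply, ← sub_eq_zero, ← map_sub, c01_zero]
  have e : ((algebraMap (𝓞 F) (w.adicCompletionIntegers F) a - x :
      w.adicCompletionIntegers F) : w.adicCompletion F) =
      algebraMap F (w.adicCompletion F) (algebraMap (𝓞 F) F a - y) -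
      ((x : w.adicCompletion F) - algebraMap F (w.adicCompletion F) y) := by
    rw [map_sub, AddSubgroupClass.coe_sub, hval]
    ring
  rw [e]
  refine lt_of_le_of_lt (Valued.v.map_sub _ _) (max_lt ?_ (lt_of_le_of_lt hy hlt))
  rw [val_alg]
  exact ha

section comp
open scoped Valued

private theorem c01_compact {k : Type*} [Field k] [NumberField k] (v : HeightOneSpectrum (𝓞 k)) :
    IsCompact ((v.adicCompletionIntegers k : ValuationSubring (v.adicCompletion k)) :
      Set (v.adicCompletion k)) := by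
  have h1 : IsDiscreteValuationRing 𝒪[v.adicCompletion k] :=
    inferInstanceAs (IsDiscreteValuationRing (v.adicCompletionIntegers k))
  have h2 : Finite 𝓀[v.adicCompletion k] := c01_fin v
  have h3 : CompleteSpace 𝒪[v.adicCompletion k] :=
    (Valued.isClosed_integer (v.adicCompletion k)).completeSpace_coe
  have h : CompactSpace 𝒪[v.adicCompletion k] :=
    Valued.integer.compactSpace_iff_completeSpace_and_isDiscreteValuationRing_and_finite_residueField.mpr
      ⟨h3, h1, h2⟩
  exact isCompact_iff_compactSpace.mpr h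

end comp

variable {k : Type*} [Field k] [NumberField k]

private theorem c01_lt {g : ℤᵐ⁰} (hg : g < 1) : g ≤ WithZero.exp (-1 : ℤ) := by
  by_cases h0 : g = 0
  · rw [h0]
    exact zero_le
  · rw [← WithZero.exp_log h0] at hg ⊢
    rw [← WithZero.exp_zero, WithZero.exp_lt_exp] at hg
    rw [WithZero.exp_le_exp]
    omega

private theorem c01_two_ne (v : HeightOneSpectrum (𝓞 k)) : (2 : v.adicCompletion k) ≠ 0 := by
  have h : (2 : k) ≠ 0 := two_ne_zero
  have h1 : algebraMap k (v.adicCompletion k) 2 ≠ 0 := (map_ne_zero _).2 h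
  rwa [map_ofNat] at h1

private theorem c01_two_le (v : HeightOneSpectrum (𝓞 k)) :
    (Valued.v (2 : v.adicCompletion k) : ℤᵐ⁰) ≤ 1 := by
  have h1 : v.valuation k (algebraMap (𝓞 k) k 2) ≤ 1 := v.valuation_le_one (K := k) (2 : 𝓞 k)
  rw [map_ofNat, ← val_alg, map_ofNat] at h1
  exact h1

private theorem c01_four (v : HeightOneSpectrum (𝓞 k)) :
    (Valued.v (4 : v.adicCompletion k) : ℤᵐ⁰) = Valued.v (2 : v.adicCompletion k) ^ 2 := by
  rw [← map_pow]
  congr 1
  norm_num

private theorem c01_newton {v : HeightOneSpectrum (𝓞 k)} (u : v.adicCompletion k)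
    (hu : (Valued.v (u - 1) : ℤᵐ⁰) < Valued.v (4 : v.adicCompletion k)) (n : ℕ) :
    ∃ y : v.adicCompletion k, (Valued.v y : ℤᵐ⁰) = 1 ∧
      (Valued.v (y ^ 2 - u) : ℤᵐ⁰) ≤
        Valued.v (2 : v.adicCompletion k) ^ 2 * WithZero.exp (-((n + 1 : ℕ) : ℤ)) := by
  have h20 := c01_two_ne (k := k) v
  have ha1 := c01_two_le (k := k) v
  have ha0 : (Valued.v (2 : v.adicCompletion k) : ℤᵐ⁰) ≠ 0 := (Valuation.ne_zero_iff _).2 h20
  rw [c01_four] at hu
  induction n with
  | zero =>
    refine ⟨1, map_one _, ?_⟩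
    have : (1 : v.adicCompletion k) ^ 2 - u = -(u - 1) := by ring
    rw [this, Valuation.map_neg]
    have h1 : (Valued.v (u - 1) : ℤᵐ⁰) / Valued.v (2 : v.adicCompletion k) ^ 2 < 1 := by
      rw [div_lt_iff₀ (pow_pos (zero_lt_iff.2 ha0) 2), one_mul]
      exact hu
    have h2 := c01_lt h1
    rw [div_le_iff₀ (pow_pos (zero_lt_iff.2 ha0) 2)] at h2
    rw [mul_comm]
    simpa using h2
  | succ n ih =>
    obtain ⟨y, hy1, hy⟩ := ih
    have hy0 : y ≠ 0 := by
      intro h
      rw [h, map_zero] at hy1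
      exact zero_ne_one hy1
    set e : v.adicCompletion k := (y ^ 2 - u) / (2 * y) with he
    have hve : (Valued.v e : ℤᵐ⁰) = Valued.v (y ^ 2 - u) / Valued.v (2 : v.adicCompletion k) := by
      rw [he, map_div₀, map_mul, hy1, mul_one]
    have hve1 : (Valued.v e : ℤᵐ⁰) ≤
        Valued.v (2 : v.adicCompletion k) * WithZero.exp (-((n + 1 : ℕ) : ℤ)) := by
      rw [hve, div_le_iff₀ (zero_lt_iff.2 ha0)]
      refine hy.trans (le_of_eq ?_)
      rw [sq, mul_assoc, mul_assoc, mul_comm (WithZero.exp _) (Valued.v (2 : v.adicCompletion k))]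
    have hlt : (Valued.v e : ℤᵐ⁰) < 1 := by
      refine lt_of_le_of_lt (hve1.trans (mul_le_of_le_one_left' ha1)) ?_
      rw [← WithZero.exp_zero, WithZero.exp_lt_exp]
      push_cast
      omega
    refine ⟨y - e, ?_, ?_⟩
    · rw [← hy1]
      exact Valuation.map_sub_eq_of_lt_left _ (by rw [hy1]; exact hlt)
    · have heq : (y - e) ^ 2 - u = e ^ 2 := by
        have : 2 * y * e = y ^ 2 - u := by
          rw [he]
          field_simp
        linear_combination -this
      rw [heq, map_pow]
      calc (Valued.v e : ℤᵐ⁰) ^ 2 ≤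
            (Valued.v (2 : v.adicCompletion k) * WithZero.exp (-((n + 1 : ℕ) : ℤ))) ^ 2 :=
            pow_le_pow_left' hve1 2
        _ = Valued.v (2 : v.adicCompletion k) ^ 2 * WithZero.exp (2 • (-((n + 1 : ℕ) : ℤ))) := by
            rw [WithZero.exp_nsmul, mul_pow]
        _ ≤ Valued.v (2 : v.adicCompletion k) ^ 2 * WithZero.exp (-((n + 1 + 1 : ℕ) : ℤ)) := by
            refine mul_le_mul_right ?_ _
            rw [WithZero.exp_le_exp]
            simp only [nsmul_eq_mul]
            push_cast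
            omega

theorem sq_of_near_four {v : HeightOneSpectrum (𝓞 k)} (u : v.adicCompletion k)
    (hu : (Valued.v (u - 1) : WithZero (Multiplicative ℤ)) <
      Valued.v (4 : v.adicCompletion k)) : IsSquare u := by
  have hcl : IsClosed ((fun y : v.adicCompletion k => y ^ 2) ''
      ((v.adicCompletionIntegers k : ValuationSubring (v.adicCompletion k)) :
        Set (v.adicCompletion k))) :=
    ((c01_compact v).image (by fun_prop)).isClosed
  have hmem : u ∈ closure ((fun y : v.adicCompletion k => y ^ 2) ''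
      ((v.adicCompletionIntegers k : ValuationSubring (v.adicCompletion k)) :
        Set (v.adicCompletion k))) := by
    rw [mem_closure_iff_nhds]
    intro t ht
    rw [Valued.mem_nhds] at ht
    obtain ⟨γ, hγ⟩ := ht
    have hr0 : (MonoidWithZeroHom.ValueGroup₀.embedding γ.1 : ℤᵐ⁰) ≠ 0 := by
      intro h0
      exact γ.ne_zero ((map_eq_zero _).1 h0)
    obtain ⟨m, hm⟩ := exists_exp_neg_lt hr0
    obtain ⟨y, hy1, hy⟩ := c01_newton u hu m
    have hy2 := hy.trans (mul_le_of_le_one_left' (pow_le_one' (c01_two_le (k := k) v) 2))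
    refine ⟨y ^ 2, hγ ?_, y, ?_, rfl⟩
    · show (Valued.v.restrict (y ^ 2 - u)) < γ.1
      rw [Valuation.restrict_lt_iff_lt_embedding]
      refine lt_of_le_of_lt (hy2.trans ?_) hm
      rw [WithZero.exp_le_exp]
      push_cast
      omega
    · exact (HeightOneSpectrum.mem_adicCompletionIntegers (𝓞 k) k v).2 hy1.le
  rw [hcl.closure_eq] at hmem
  obtain ⟨y, -, hy⟩ := hmem
  exact ⟨y, by rw [← hy]; exact sq y⟩

/-- the same in `k`, with a bound for the order -/
theorem sqAt_of_near {v : HeightOneSpectrum (𝓞 k)} {e : ℕ} (he : ordv v (2 : k) = e) {a b : 𝓞 k}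
    (ha : a ∉ v.asIdeal) (hab : b - a ∈ v.asIdeal ^ (2 * e + 1)) :
    SqAt v ((b : k) / (a : k)) := by
  have ha0 : (a : k) ≠ 0 := by
    intro h
    apply ha
    have : a = 0 := by exact_mod_cast h
    rw [this]
    exact v.asIdeal.zero_mem
  refine sq_of_near_four _ ?_
  have h1 : algebraMap k (v.adicCompletion k) ((b : k) / (a : k)) - 1 =
      algebraMap k (v.adicCompletion k) (((b - a : 𝓞 k) : k) / (a : k)) := by
    rw [← map_one (algebraMap k (v.adicCompletion k)), ← map_sub]
    congr 1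
    push_cast
    field_simp
  have h2 : (4 : v.adicCompletion k) = algebraMap k (v.adicCompletion k) (2 ^ 2) := by
    rw [map_pow, map_ofNat]
    norm_num
  rw [h1, h2, val_alg, val_alg, map_div₀, map_pow]
  have h3 : v.valuation k (a : k) = 1 :=
    (HeightOneSpectrum.valuation_eq_one_iff_notMem (K := k) (v := v) (r := a)).2 ha
  rw [h3, div_one]
  have h4 : v.valuation k ((b - a : 𝓞 k) : k) ≤ WithZero.exp (-((2 * e + 1 : ℕ) : ℤ)) := by
    have h5 := (v.intValuation_le_pow_iff_mem (b - a) (2 * e + 1)).2 hab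
    rw [← v.valuation_of_algebraMap (K := k)] at h5
    exact h5
  refine lt_of_le_of_lt h4 ?_
  have h6 : v.valuation k (2 : k) = WithZero.exp (-(e : ℤ)) := by
    have h0 : v.valuation k (2 : k) ≠ 0 := (Valuation.ne_zero_iff _).2 two_ne_zero
    rw [← WithZero.exp_log h0]
    congr 1
    unfold ordv at he
    omega
  rw [h6, ← WithZero.exp_nsmul, WithZero.exp_lt_exp]
  simp only [nsmul_eq_mul]
  push_cast
  omega

end Pool.Agent.Lib.MP_2f3286_ag.UA
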