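import Pool.Agent.Lib.MP_2f3286_ag.UA.DA

/-!
# C02: the number of square roots of one modulo `v ^ (2 e + 1)`, `e = ordv v 2`

Text. `x = mk a`, `x ^ 2 = 1`: `(a - 1) (a + 1) ∈ v ^ (2 e + 1)`. If both `a - 1`, `a + 1` are not in `v ^ (e + 1)`, their orders are at most `e`, the order of the product
at most `2 e`: contradiction (`intValuation_le_pow_iff_mem`; no need of `ordv v 2 = e` here). So `a ∈ ± 1 + v ^ (e + 1)`: the image of `x` in `𝓞 k ⧸ v ^ (e + 1)` (`Ideal.Quotient.factor`) is `± 1`.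
The kernel of `𝓞 k ⧸ v ^ (2 e + 1) → 𝓞 k ⧸ v ^ (e + 1)` has `q ^ (2 e + 1) / q ^ (e + 1) = q ^ e` elements, `q = absNorm v`; `x ↦ x - 1` or `x + 1`.
-/

open NumberField IsDedekindDomain

namespace Pool.Agent.Lib.MP_2f3286_ag.UA

variable {k : Type*} [Field k] [NumberField k]

private theorem c02_mem (v : HeightOneSpectrum (𝓞 k)) (e : ℕ) (a b : 𝓞 k)
    (h : a * b ∈ v.asIdeal ^ (2 * e + 1)) : a ∈ v.asIdeal ^ (e + 1) ∨ b ∈ v.asIdeal ^ (e + 1) := by
  by_contra hc
  rw [not_or] at hc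
  obtain ⟨ha, hb⟩ := hc
  rw [← v.intValuation_le_pow_iff_mem] at ha hb h
  rw [not_le] at ha hb
  rw [map_mul] at h
  have ha0 : v.intValuation a ≠ 0 := by
    intro h0
    rw [h0] at ha
    exact absurd ha (not_lt.2 zero_le)
  have hb0 : v.intValuation b ≠ 0 := by
    intro h0
    rw [h0] at hb
    exact absurd hb (not_lt.2 zero_le)
  rw [← WithZero.exp_log ha0, WithZero.exp_lt_exp] at ha
  rw [← WithZero.exp_log hb0, WithZero.exp_lt_exp] at hb
  rw [← WithZero.exp_log ha0, ← WithZero.exp_log hb0, ← WithZero.exp_add, WithZero.exp_le_exp] at h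
  push_cast at ha hb h
  omega

private theorem c02_ker {A B : Type*} [AddCommGroup A] [AddCommGroup B] (φ : A →+ B)
    (hφ : Function.Surjective φ) : Nat.card φ.ker * Nat.card B = Nat.card A := by
  have h1 := φ.ker.card_mul_index
  rw [AddSubgroup.index_ker, AddMonoidHom.range_eq_top.2 hφ] at h1
  rw [← h1, Nat.card_congr (AddSubgroup.topEquiv (G := B)).toEquiv]

theorem card_sq_one (v : HeightOneSpectrum (𝓞 k)) (e : ℕ) :
    Nat.card {x : (𝓞 k ⧸ v.asIdeal ^ (2 * e + 1))ˣ // x ^ 2 = 1} ≤ 2 * (Ideal.absNorm v.asIdeal) ^ e := by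
  classical
  have hle : v.asIdeal ^ (2 * e + 1) ≤ v.asIdeal ^ (e + 1) := Ideal.pow_le_pow_right (by omega)
  have hpow : ∀ n : ℕ, v.asIdeal ^ n ≠ ⊥ := fun n => pow_ne_zero n v.ne_bot
  have hf : ∀ n : ℕ, Finite (𝓞 k ⧸ v.asIdeal ^ n) := fun n =>
    Ideal.finiteQuotientOfFreeOfNeBot _ (hpow n)
  have := hf (2 * e + 1)
  set φ : (𝓞 k ⧸ v.asIdeal ^ (2 * e + 1)) →+* (𝓞 k ⧸ v.asIdeal ^ (e + 1)) :=
    Ideal.Quotient.factor hle with hφ
  have hs : Function.Surjective φ := Ideal.Quotient.factor_surjective hle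
  have hcard : ∀ n : ℕ, Nat.card (𝓞 k ⧸ v.asIdeal ^ n) = Ideal.absNorm v.asIdeal ^ n := by
    intro n
    rw [← map_pow]
    rfl
  have hq : 0 < Ideal.absNorm v.asIdeal := by
    have h1 := hcard 1
    rw [pow_one, pow_one] at h1
    have := hf 1
    rw [pow_one] at this
    rw [← h1]
    exact Nat.card_pos
  have hk : Nat.card φ.toAddMonoidHom.ker = Ideal.absNorm v.asIdeal ^ e := by
    have h1 := c02_ker φ.toAddMonoidHom hs
    rw [hcard, hcard] at h1
    have h2 : Ideal.absNorm v.asIdeal ^ (2 * e + 1) =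
        Ideal.absNorm v.asIdeal ^ e * Ideal.absNorm v.asIdeal ^ (e + 1) := by
      rw [← pow_add]
      congr 1
      ring
    rw [h2] at h1
    exact Nat.eq_of_mul_eq_mul_right (pow_pos hq _) h1
  -- the image is `± 1`
  have hpm : ∀ x : 𝓞 k ⧸ v.asIdeal ^ (2 * e + 1), x ^ 2 = 1 → φ x = 1 ∨ φ x = -1 := by
    intro x hx
    obtain ⟨a, rfl⟩ := Ideal.Quotient.mk_surjective x
    have h1 : (a - 1) * (a + 1) ∈ v.asIdeal ^ (2 * e + 1) := by
      rw [← Ideal.Quotient.eq_zero_iff_mem]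
      have h2 : (a - 1) * (a + 1) = a ^ 2 - 1 := by ring
      rw [h2, map_sub, map_pow, hx, map_one, sub_self]
    rcases c02_mem v e _ _ h1 with h2 | h2
    · left
      rw [hφ, Ideal.Quotient.factor_mk, ← sub_eq_zero, ← map_one (Ideal.Quotient.mk _), ← map_sub,
        Ideal.Quotient.eq_zero_iff_mem]
      exact h2
    · right
      rw [hφ, Ideal.Quotient.factor_mk, eq_neg_iff_add_eq_zero, ← map_one (Ideal.Quotient.mk _),
        ← map_add, Ideal.Quotient.eq_zero_iff_mem]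
      exact h2
  -- the injection
  have hval : ∀ x : {x : (𝓞 k ⧸ v.asIdeal ^ (2 * e + 1))ˣ // x ^ 2 = 1},
      ((x.1 : 𝓞 k ⧸ v.asIdeal ^ (2 * e + 1))) ^ 2 = 1 := fun x => by
    rw [← Units.val_pow_eq_pow_val, x.2, Units.val_one]
  let f : {x : (𝓞 k ⧸ v.asIdeal ^ (2 * e + 1))ˣ // x ^ 2 = 1} → Bool × φ.toAddMonoidHom.ker :=
    fun x => if h : φ (x.1 : 𝓞 k ⧸ v.asIdeal ^ (2 * e + 1)) = 1 then
      (true, ⟨(x.1 : 𝓞 k ⧸ v.asIdeal ^ (2 * e + 1)) - 1, by
        rw [AddMonoidHom.mem_ker]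
        show φ _ = 0
        rw [map_sub, map_one, h, sub_self]⟩)
      else (false, ⟨(x.1 : 𝓞 k ⧸ v.asIdeal ^ (2 * e + 1)) + 1, by
        rw [AddMonoidHom.mem_ker]
        show φ _ = 0
        rw [map_add, map_one, (hpm _ (hval x)).resolve_left h]
        ring⟩)
  have hinj : Function.Injective f := by
    intro x y hxy
    by_cases hx : φ (x.1 : 𝓞 k ⧸ v.asIdeal ^ (2 * e + 1)) = 1
    · by_cases hy : φ (y.1 : 𝓞 k ⧸ v.asIdeal ^ (2 * e + 1)) = 1
      · simp only [f, dif_pos hx, dif_pos hy, Prod.mk.injEq, true_and, Subtype.mk.injEq,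
          sub_left_inj] at hxy
        exact Subtype.ext (Units.ext hxy)
      · simp only [f, dif_pos hx, dif_neg hy, Prod.mk.injEq, Bool.true_eq_false, false_and] at hxy
    · by_cases hy : φ (y.1 : 𝓞 k ⧸ v.asIdeal ^ (2 * e + 1)) = 1
      · simp only [f, dif_neg hx, dif_pos hy, Prod.mk.injEq, Bool.false_eq_true, false_and] at hxy
      · simp only [f, dif_neg hx, dif_neg hy, Prod.mk.injEq, true_and, Subtype.mk.injEq,
          add_left_inj] at hxy
        exact Subtype.ext (Units.ext hxy)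
  have h3 := Nat.card_le_card_of_injective f hinj
  have h4 : Nat.card Bool = 2 := by rw [Nat.card_eq_fintype_card, Fintype.card_bool]
  rw [Nat.card_prod, hk, h4] at h3
  exact h3

end Pool.Agent.Lib.MP_2f3286_ag.UA
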