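import Pool.Agent.Lib.MP_2f3286_ag.UA.CDef

/-!
# C03: representatives modulo squares in a finite group; index and representatives

Text. `reps_sq`: `G` finite: `card G = card (ker of g ↦ g ^ 2) * card (image)` and `card G = (index of the image) * card (image)`, so the index of `sqG G` is the number of
`x` with `x ^ 2 = 1`. Choose representatives of `G ⧸ sqG G` (`Quotient.out`, image of `Finset.univ`).
`index_le_of_reps`: every `a` is in `f⁻¹ H` for some `f ∈ F`: the map `F → G ⧸ H` is onto, so the index is finite (not zero) and at most `F.card`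
(`Finite.of_surjective`, `Nat.card_le_card_of_surjective`).
-/

namespace Pool.Agent.Lib.MP_2f3286_ag.UA

theorem reps_sq (G : Type*) [CommGroup G] [Finite G] :
    ∃ F : Finset G, F.card ≤ Nat.card {x : G // x ^ 2 = 1} ∧ ∀ g : G, ∃ f ∈ F, ∃ t, g = f * t ^ 2 := by
  classical
  obtain ⟨φ, hφ⟩ : ∃ φ : G →* G, ∀ g, φ g = g ^ 2 := ⟨powMonoidHom 2, fun g => rfl⟩
  have := Fintype.ofFinite (G ⧸ φ.range)
  refine ⟨Finset.univ.image (fun q : G ⧸ φ.range => Quotient.out q), ?_, ?_⟩
  · have h1 : (Finset.univ.image (fun q : G ⧸ φ.range => Quotient.out q)).card ≤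
        Nat.card (G ⧸ φ.range) := by
      refine Finset.card_image_le.trans ?_
      rw [Finset.card_univ, Nat.card_eq_fintype_card]
    refine h1.trans ?_
    have h2 : Nat.card (G ⧸ φ.range) * Nat.card φ.range = Nat.card φ.ker * Nat.card φ.range := by
      rw [← Subgroup.card_eq_card_quotient_mul_card_subgroup,
        Subgroup.card_eq_card_quotient_mul_card_subgroup φ.ker,
        Nat.card_congr (QuotientGroup.quotientKerEquivRange φ).toEquiv, mul_comm]
    have h3 : Nat.card (G ⧸ φ.range) = Nat.card φ.ker :=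
      Nat.eq_of_mul_eq_mul_right Nat.card_pos h2
    have h4 : Nat.card φ.ker = Nat.card {x : G // x ^ 2 = 1} :=
      Nat.card_congr (Equiv.subtypeEquivRight fun x => by rw [MonoidHom.mem_ker, hφ])
    rw [h3, h4]
  · intro g
    refine ⟨Quotient.out (QuotientGroup.mk g : G ⧸ φ.range),
      Finset.mem_image_of_mem _ (Finset.mem_univ _), ?_⟩
    have h1 : (QuotientGroup.mk (Quotient.out (QuotientGroup.mk g : G ⧸ φ.range)) :
        G ⧸ φ.range) = QuotientGroup.mk g := QuotientGroup.out_eq' _
    rw [QuotientGroup.eq] at h1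
    obtain ⟨t, ht⟩ := h1
    refine ⟨t, ?_⟩
    rw [← hφ, ht]
    group

theorem index_le_of_reps {G : Type*} [CommGroup G] (H : Subgroup G) (F : Finset G)
    (hF : ∀ a : G, ∃ f ∈ F, a * f ∈ H) : H.index ≠ 0 ∧ H.index ≤ F.card := by
  have hs : Function.Surjective (fun f : F => (QuotientGroup.mk (f : G)⁻¹ : G ⧸ H)) := by
    intro q
    obtain ⟨a, rfl⟩ := QuotientGroup.mk_surjective q
    obtain ⟨f, hf, ha⟩ := hF a
    refine ⟨⟨f, hf⟩, ?_⟩
    show (QuotientGroup.mk f⁻¹ : G ⧸ H) = QuotientGroup.mk a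
    rw [QuotientGroup.eq, inv_inv, mul_comm]
    exact ha
  have hfin : Finite (G ⧸ H) := Finite.of_surjective _ hs
  refine ⟨?_, ?_⟩
  · rw [Subgroup.index]
    exact Nat.card_pos.ne'
  · have h := Nat.card_le_card_of_surjective _ hs
    rw [Subgroup.index]
    simpa using h

end Pool.Agent.Lib.MP_2f3286_ag.UA
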