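import Pool.Agent.Lib.MP_2f3286_ag.UA.DA

/-!
# C05: the product of `N v ^ (v (2))` is `2 ^ n`

Text. `Ideal.absNorm (Ideal.span {2}) = 2 ^ n` (`Ideal.absNorm_span_singleton`, `Algebra.norm_algebraMap`, `RingOfIntegers.rank`). The factorization
`Ideal.span {2} = ∏ᶠ v, v.maxPowDividing (span {2})` (`Ideal.finprod_heightOneSpectrum_factorization`), `v.maxPowDividing I = v.asIdeal ^ count`, `count = (ordv v 2)`
(`intValuation_if_neg`, `valuation_of_algebraMap`); the finprod is the product over `S` (for `v ∉ S` the exponent is zero: `2 ∉ v`, `ordv_two`;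
`finprod_eq_prod_of_mulSupport_subset`). `Ideal.absNorm` is multiplicative (`map_prod`, `map_pow`).
-/

open NumberField IsDedekindDomain

namespace Pool.Agent.Lib.MP_2f3286_ag.UA

variable {k : Type*} [Field k] [NumberField k]

open Classical in
private lemma C05_ordv (v : HeightOneSpectrum (𝓞 k)) :
    (ordv v (2 : k)).toNat = (Associates.mk v.asIdeal).count
      (Associates.mk (Ideal.span {(2 : 𝓞 k)} : Ideal (𝓞 k))).factors := by
  have h2 : (2 : 𝓞 k) ≠ 0 := two_ne_zero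
  have h1 := v.intValuation_if_neg h2
  have h4 : v.valuation k (2 : k) = v.intValuation (2 : 𝓞 k) := by
    rw [← v.valuation_of_algebraMap (K := k) (2 : 𝓞 k)]
    exact congrArg _ (map_ofNat (algebraMap (𝓞 k) k) 2).symm
  rw [ordv, h4, h1, WithZero.log_exp, neg_neg, Int.toNat_natCast]

theorem prod_norm_two (S : Finset (HeightOneSpectrum (𝓞 k)))
    (hS : ∀ v : HeightOneSpectrum (𝓞 k), (2 : 𝓞 k) ∈ v.asIdeal → v ∈ S) :
    ∏ v ∈ S, (Ideal.absNorm v.asIdeal) ^ (ordv v (2 : k)).toNat = 2 ^ Module.finrank ℚ k := by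
  classical
  have h2 : (2 : 𝓞 k) ≠ 0 := two_ne_zero
  have hI : (Ideal.span {(2 : 𝓞 k)} : Ideal (𝓞 k)) ≠ 0 := by
    intro h
    exact h2 (Ideal.span_singleton_eq_bot.mp h)
  have hN : Ideal.absNorm (Ideal.span {(2 : 𝓞 k)}) = 2 ^ Module.finrank ℚ k := by
    have h3 : (2 : 𝓞 k) = algebraMap ℤ (𝓞 k) 2 := (map_ofNat _ 2).symm
    rw [Ideal.absNorm_span_singleton, h3, Algebra.norm_algebraMap, RingOfIntegers.rank,
      Int.natAbs_pow]
    rfl
  rw [← hN, ← Ideal.finprod_heightOneSpectrum_factorization hI,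
    finprod_eq_prod_of_mulSupport_subset (s := S), map_prod]
  · refine Finset.prod_congr rfl fun v _ => ?_
    have h6 : v.maxPowDividing (Ideal.span {(2 : 𝓞 k)}) = v.asIdeal ^ (Associates.mk v.asIdeal).count
      (Associates.mk (Ideal.span {(2 : 𝓞 k)} : Ideal (𝓞 k))).factors := rfl
    rw [h6, map_pow, C05_ordv]
  · intro v hv
    by_contra hvS
    apply hv
    have h5 : (2 : 𝓞 k) ∉ v.asIdeal := fun h => hvS (hS v h)
    have h6 : v.maxPowDividing (Ideal.span {(2 : 𝓞 k)}) = v.asIdeal ^ (Associates.mk v.asIdeal).count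
      (Associates.mk (Ideal.span {(2 : 𝓞 k)} : Ideal (𝓞 k))).factors := rfl
    have h7 : v.maxPowDividing (Ideal.span {(2 : 𝓞 k)}) = 1 := by
      rw [h6, ← C05_ordv, ordv_two h5, Int.toNat_zero, pow_zero]
    exact h7

end Pool.Agent.Lib.MP_2f3286_ag.UA
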