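import Pool.Agent.Lib.MP_2f3286_ag.UA.DA

/-!
# Part II: definitions (squares in a group, local squares)
-/

open NumberField IsDedekindDomain

namespace Pool.Agent.Lib.MP_2f3286_ag.UA

/-- the subgroup of squares -/
def sqG (G : Type*) [CommGroup G] : Subgroup G := (powMonoidHom 2 : G →* G).range

lemma mem_sqG {G : Type*} [CommGroup G] {x : G} : x ∈ sqG G ↔ ∃ y, y ^ 2 = x := Iff.rfl

variable {k : Type*} [Field k] [NumberField k]

lemma SqAt.mul {v : HeightOneSpectrum (𝓞 k)} {x y : k} (hx : SqAt v x) (hy : SqAt v y) :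
    SqAt v (x * y) := by
  unfold SqAt at *
  rw [map_mul]
  exact IsSquare.mul hx hy

lemma SqAt.inv {v : HeightOneSpectrum (𝓞 k)} {x : k} (hx : SqAt v x) : SqAt v x⁻¹ := by
  unfold SqAt at *
  rw [map_inv₀]
  obtain ⟨y, hy⟩ := hx
  exact ⟨y⁻¹, by rw [hy, mul_inv]⟩

lemma SqAt.one (v : HeightOneSpectrum (𝓞 k)) : SqAt v (1 : k) := by
  unfold SqAt
  rw [map_one]
  exact ⟨1, by rw [mul_one]⟩

/-- the elements of `kˣ` which are squares at `v` -/
def Pv (v : HeightOneSpectrum (𝓞 k)) : Subgroup kˣ where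
  carrier := {a | SqAt v (a : k)}
  mul_mem' := fun {a b} ha hb => by
    change SqAt v ((a * b : kˣ) : k)
    rw [Units.val_mul]
    exact SqAt.mul ha hb
  one_mem' := by
    change SqAt v ((1 : kˣ) : k)
    rw [Units.val_one]
    exact SqAt.one v
  inv_mem' := fun {a} ha => by
    change SqAt v ((a⁻¹ : kˣ) : k)
    rw [Units.val_inv_eq_inv_val]
    exact SqAt.inv ha

lemma mem_Pv {v : HeightOneSpectrum (𝓞 k)} {a : kˣ} : a ∈ Pv v ↔ SqAt v (a : k) := Iff.rfl

/-- the elements of `kˣ` which are squares at all places of `S` -/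
def PS (S : Finset (HeightOneSpectrum (𝓞 k))) : Subgroup kˣ := ⨅ v ∈ S, Pv v

lemma mem_PS {S : Finset (HeightOneSpectrum (𝓞 k))} {a : kˣ} :
    a ∈ PS S ↔ ∀ v ∈ S, SqAt v (a : k) := by
  simp only [PS, Subgroup.mem_iInf, mem_Pv]

lemma mem_US {S : Finset (HeightOneSpectrum (𝓞 k))} {a : kˣ} :
    a ∈ US S ↔ ∀ v ∉ S, v.valuation k (a : k) = 1 := Iff.rfl

end Pool.Agent.Lib.MP_2f3286_ag.UA
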