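import Pool.Agent.Lib.MP_2f3286_ag.UA.IX2
import Pool.Agent.Lib.MP_2f3286_ag.UA.CDef

/-!
# (C2): the index of the elements which are squares at all places of `S`

`[kˣ : P] ≤ ∏_(v ∈ S) 4 q_v ^ (ord_v 2) ≤ 4 ^ |S| 2 ^ n`: the ideal `∏_(v ∈ S) v ^ (ord_v 2)` divides `(2)`, whose norm is `2 ^ n`.
-/

open NumberField IsDedekindDomain

namespace Pool.Agent.Lib.MP_2f3286_ag.UA.IX

variable {k : Type*} [Field k] [NumberField k]

/-- the elements which are squares at all places of `S` -/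
def PS (S : Finset (HeightOneSpectrum (𝓞 k))) : Subgroup kˣ where
  carrier := {a | ∀ v ∈ S, SqAt v (a : k)}
  mul_mem' := fun {_ _} ha hb v hv => (PV v).mul_mem (ha v hv) (hb v hv)
  one_mem' := fun v _ => (PV v).one_mem
  inv_mem' := fun {_} ha v hv => (PV v).inv_mem (ha v hv)

lemma mem_PS {S : Finset (HeightOneSpectrum (𝓞 k))} {a : kˣ} :
    a ∈ PS S ↔ ∀ v ∈ S, SqAt v (a : k) := Iff.rfl

lemma prod_norm_le (S : Finset (HeightOneSpectrum (𝓞 k))) :
    ∏ v ∈ S, (Ideal.absNorm v.asIdeal) ^ (ordv v (2 : k)).toNat ≤ 2 ^ Module.finrank ℚ k := by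
  classical
  have hdvd : ∏ v ∈ S, v.asIdeal ^ (ordv v (2 : k)).toNat ∣ Ideal.span {(2 : 𝓞 k)} := by
    refine Finset.prod_dvd_of_coprime ?_ ?_
    · intro v _ w _ hvw
      refine (Ideal.isCoprime_iff_sup_eq.mpr ?_).pow
      have h1 : v.asIdeal.IsMaximal := v.isPrime.isMaximal v.ne_bot
      have h2 : w.asIdeal.IsMaximal := w.isPrime.isMaximal w.ne_bot
      exact Ideal.IsMaximal.coprime_of_ne h1 h2 (fun h => hvw (HeightOneSpectrum.ext h))
    · intro v _
      rw [← v.intValuation_le_pow_iff_dvd, ← v.valuation_of_algebraMap (K := k)]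
      have h2 : algebraMap (𝓞 k) k 2 = 2 := map_ofNat _ 2
      change v.valuation k (algebraMap (𝓞 k) k 2) ≤ _
      rw [h2, two_ordv_nonneg]
      unfold ordv
      rw [neg_neg, WithZero.exp_log ((Valuation.ne_zero_iff _).2 two_ne_zero)]
  have h1 := map_dvd (Ideal.absNorm (S := 𝓞 k)) hdvd
  rw [map_prod] at h1
  simp only [map_pow] at h1
  have h3 : Ideal.absNorm (Ideal.span {(2 : 𝓞 k)}) = 2 ^ Module.finrank ℚ k := by
    rw [Ideal.absNorm_span_singleton]
    have h4 : (2 : 𝓞 k) = algebraMap ℤ (𝓞 k) 2 := by rw [map_ofNat]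
    rw [h4, Algebra.norm_algebraMap, RingOfIntegers.rank]
    simp [Int.natAbs_pow]
  rw [h3] at h1
  exact Nat.le_of_dvd (by positivity) h1

theorem index_PS_le (S : Finset (HeightOneSpectrum (𝓞 k))) :
    (PS S).index ≠ 0 ∧ (PS S).index ≤ 4 ^ S.card * 2 ^ Module.finrank ℚ k := by
  classical
  have h1 : PS S = ⨅ v : S, PV v.1 := by
    ext a
    rw [mem_PS, Subgroup.mem_iInf]
    exact ⟨fun h v => h v.1 v.2, fun h v hv => h ⟨v, hv⟩⟩
  rw [h1]
  refine ⟨Subgroup.index_iInf_ne_zero (fun v => (index_PV_le v.1).1), ?_⟩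
  refine (Subgroup.index_iInf_le _).trans ?_
  calc ∏ v : S, (PV v.1).index
      ≤ ∏ v : S, 4 * (Ideal.absNorm v.1.asIdeal) ^ (ordv v.1 (2 : k)).toNat :=
        Finset.prod_le_prod' (fun v _ => (index_PV_le v.1).2)
    _ = 4 ^ S.card * ∏ v ∈ S, (Ideal.absNorm v.asIdeal) ^ (ordv v (2 : k)).toNat := by
        rw [Finset.prod_mul_distrib, Finset.prod_const, Finset.card_univ, Fintype.card_coe]
        congr 1
        exact Finset.prod_coe_sort S
          (fun v => (Ideal.absNorm v.asIdeal) ^ (ordv v (2 : k)).toNat)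
    _ ≤ _ := Nat.mul_le_mul_left _ (prod_norm_le S)

end Pool.Agent.Lib.MP_2f3286_ag.UA.IX

namespace Pool.Agent.Lib.MP_2f3286_ag.UA

variable {k : Type*} [Field k] [NumberField k]

theorem index_PS (S : Finset (HeightOneSpectrum (𝓞 k)))
    (hS : ∀ v : HeightOneSpectrum (𝓞 k), (2 : 𝓞 k) ∈ v.asIdeal → v ∈ S) :
    (PS S).index ≠ 0 ∧ (PS S).index ≤ 4 ^ S.card * 2 ^ Module.finrank ℚ k := by
  have h1 : PS S = IX.PS S := by
    ext a
    rw [mem_PS, IX.mem_PS]
  rw [h1]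
  exact IX.index_PS_le S

end Pool.Agent.Lib.MP_2f3286_ag.UA
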