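import Pool.Agent.Lib.MP_2f3286_ag.UA.CDef

/-!
# C07: index of the squares, steps for abelian groups

Text. `index_sq_prod`: `sqG (G₁ × G₂)` is the product of `sqG G₁` and `sqG G₂` (`Subgroup.index_prod`). `index_sq_equiv`: transport (`Subgroup.index_map`-like, or: `sqG` is mapped
onto `sqG`). `index_sq_int`: the squares of `Multiplicative ℤ` have index two.
`index_sq_step`: the map `H × Multiplicative ℤ → G`, `(h, n) ↦ h * t ^ n` is an isomorphism (`h1`: onto; injective: `h t ^ n = 1` gives `t ^ n ∈ H`, `n = 0`, `h = 1`).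
-/

namespace Pool.Agent.Lib.MP_2f3286_ag.UA

theorem index_sq_prod (G₁ G₂ : Type*) [CommGroup G₁] [CommGroup G₂] :
    (sqG (G₁ × G₂)).index = (sqG G₁).index * (sqG G₂).index := by
  have h : sqG (G₁ × G₂) = (sqG G₁).prod (sqG G₂) := by
    ext ⟨x, y⟩
    rw [Subgroup.mem_prod, mem_sqG, mem_sqG, mem_sqG]
    constructor
    · rintro ⟨⟨a, b⟩, h⟩
      rw [Prod.pow_mk, Prod.mk.injEq] at h
      exact ⟨⟨a, h.1⟩, ⟨b, h.2⟩⟩
    · rintro ⟨⟨a, ha⟩, ⟨b, hb⟩⟩
      exact ⟨(a, b), by rw [Prod.pow_mk, ha, hb]⟩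
  rw [h, Subgroup.index_prod]

theorem index_sq_equiv {G₁ G₂ : Type*} [CommGroup G₁] [CommGroup G₂] (e : G₁ ≃* G₂) :
    (sqG G₁).index = (sqG G₂).index := by
  have h : (sqG G₂).comap e.toMonoidHom = sqG G₁ := by
    ext x
    rw [Subgroup.mem_comap, mem_sqG, mem_sqG]
    constructor
    · rintro ⟨y, hy⟩
      refine ⟨e.symm y, ?_⟩
      rw [← map_pow, hy]
      exact e.symm_apply_apply x
    · rintro ⟨y, rfl⟩
      exact ⟨e y, (map_pow e y 2).symm⟩
  rw [← h]
  exact Subgroup.index_comap_of_surjective (sqG G₂) e.surjective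

theorem index_sq_int : (sqG (Multiplicative ℤ)).index = 2 := by
  have h : sqG (Multiplicative ℤ) = AddSubgroup.toSubgroup (AddSubgroup.zmultiples (2 : ℤ)) := by
    ext x
    rw [mem_sqG]
    constructor
    · rintro ⟨y, rfl⟩
      change Multiplicative.toAdd (y ^ 2) ∈ AddSubgroup.zmultiples (2 : ℤ)
      rw [AddSubgroup.mem_zmultiples_iff]
      exact ⟨Multiplicative.toAdd y, by rw [toAdd_pow]; simp [mul_comm]⟩
    · intro hx
      change Multiplicative.toAdd x ∈ AddSubgroup.zmultiples (2 : ℤ) at hx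
      rw [AddSubgroup.mem_zmultiples_iff] at hx
      obtain ⟨k, hk⟩ := hx
      refine ⟨Multiplicative.ofAdd k, ?_⟩
      apply Multiplicative.toAdd.injective
      rw [toAdd_pow, toAdd_ofAdd, ← hk]
      simp [mul_comm]
  rw [h, AddSubgroup.index_toSubgroup, Int.index_zmultiples]
  rfl

theorem index_sq_step {G : Type*} [CommGroup G] (H : Subgroup G) (t : G)
    (h1 : ∀ g : G, ∃ h ∈ H, ∃ n : ℤ, g = h * t ^ n) (h2 : ∀ n : ℤ, t ^ n ∈ H → n = 0) :
    (sqG G).index = 2 * (sqG H).index := by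
  let φ : H × Multiplicative ℤ →* G := H.subtype.coprod (zpowersHom G t)
  have hφ : ∀ (a : H) (n : ℤ), φ (a, Multiplicative.ofAdd n) = (a : G) * t ^ n := by
    intro a n
    rfl
  have hinj : Function.Injective φ := by
    rw [injective_iff_map_eq_one]
    rintro ⟨a, n⟩ h
    have h' : (a : G) * t ^ (Multiplicative.toAdd n) = 1 := h
    have hm : t ^ (Multiplicative.toAdd n) ∈ H := by
      have e : t ^ (Multiplicative.toAdd n) = (a : G)⁻¹ := eq_inv_of_mul_eq_one_right h'
      rw [e]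
      exact H.inv_mem a.2
    have hm0 : Multiplicative.toAdd n = 0 := h2 _ hm
    rw [hm0, zpow_zero, mul_one] at h'
    have ha : a = 1 := Subtype.ext h'
    have hn : n = 1 := Multiplicative.toAdd.injective hm0
    rw [ha, hn]
    rfl
  have hsurj : Function.Surjective φ := by
    intro g
    obtain ⟨a, ha, n, hg⟩ := h1 g
    exact ⟨(⟨a, ha⟩, Multiplicative.ofAdd n), by rw [hφ, hg]⟩
  rw [← index_sq_equiv (MulEquiv.ofBijective φ ⟨hinj, hsurj⟩), index_sq_prod, index_sq_int, mul_comm]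

end Pool.Agent.Lib.MP_2f3286_ag.UA
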