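import Pool.Agent.Lib.MP_2f3286_ag.UA.C07

/-!
# The units modulo squares
-/

open NumberField

namespace Pool.Agent.Lib.MP_2f3286_ag.UA

variable {k : Type*} [Field k] [NumberField k]

theorem places_eq (i : k) (hi : i ^ 2 = -1) :
    2 * Fintype.card (InfinitePlace k) = Module.finrank ℚ k := by
  have h4 : orderOf i = 2 ^ (1 + 1) := by
    refine orderOf_eq_prime_pow (p := 2) (n := 1) ?_ ?_
    · rw [pow_one, hi]
      intro h
      have h2 : (2 : k) = 0 := by linear_combination h * (-1 : k)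
      exact two_ne_zero h2
    · have h : i ^ 2 ^ (1 + 1) = (i ^ 2) ^ 2 := by ring
      rw [h, hi]
      ring
  have hi4 : IsPrimitiveRoot i 4 := by
    have h := IsPrimitiveRoot.orderOf i
    rwa [h4] at h
  have h0 : InfinitePlace.nrRealPlaces k = 0 :=
    NumberField.InfinitePlace.IsPrimitiveRoot.nrRealPlaces_eq_zero_of_two_lt (by norm_num) hi4
  have h1 := InfinitePlace.card_eq_nrRealPlaces_add_nrComplexPlaces (K := k)
  have h2 := InfinitePlace.card_add_two_mul_card_eq_rank k
  omega

theorem c08_index_sq_finite (G : Type*) [CommGroup G] [Finite G] :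
    (sqG G).index = Nat.card (powMonoidHom 2 : G →* G).ker := by
  have h1 := Subgroup.index_ker (powMonoidHom 2 : G →* G)
  have h2 := Subgroup.index_mul_card (powMonoidHom 2 : G →* G).ker
  have h3 := Subgroup.index_mul_card (sqG G)
  rw [h1] at h2
  have h4 : 0 < Nat.card (sqG G) := Nat.card_pos
  have h5 : Nat.card (powMonoidHom 2 : G →* G).range = Nat.card (sqG G) := rfl
  rw [h5] at h2
  have h6 : (sqG G).index * Nat.card (sqG G) =
      Nat.card (powMonoidHom 2 : G →* G).ker * Nat.card (sqG G) := by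
    rw [h3, ← h2, mul_comm]
  exact Nat.eq_of_mul_eq_mul_right h4 h6

theorem index_torsion : (sqG (NumberField.Units.torsion k)).index = 2 := by
  have : Finite (NumberField.Units.torsion k) := inferInstance
  rw [c08_index_sq_finite, Nat.card_eq_two_iff]
  have hm1 : (-1 : (𝓞 k)ˣ) ∈ NumberField.Units.torsion k := by
    change IsOfFinOrder (-1 : (𝓞 k)ˣ)
    rw [isOfFinOrder_iff_pow_eq_one]
    exact ⟨2, by norm_num, by norm_num⟩
  refine ⟨⟨1, one_mem _⟩, ⟨⟨-1, hm1⟩, ?_⟩, ?_, ?_⟩
  · rw [MonoidHom.mem_ker]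
    apply Subtype.ext
    change (-1 : (𝓞 k)ˣ) ^ 2 = 1
    norm_num
  · intro h
    have h1 := congrArg (fun x => (((x.1 : NumberField.Units.torsion k) : (𝓞 k)ˣ) : 𝓞 k)) h
    change ((1 : (𝓞 k)ˣ) : 𝓞 k) = ((-1 : (𝓞 k)ˣ) : 𝓞 k) at h1
    rw [Units.val_neg, Units.val_one] at h1
    have h2 : (2 : 𝓞 k) = 0 := by linear_combination h1
    exact two_ne_zero h2
  · rw [Set.eq_univ_iff_forall]
    rintro ⟨x, hx⟩
    rw [MonoidHom.mem_ker] at hx
    have h1 : ((x : (𝓞 k)ˣ) : 𝓞 k) ^ 2 = 1 := by
      have h2 := congrArg (fun y : NumberField.Units.torsion k => ((y : (𝓞 k)ˣ) : 𝓞 k)) hx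
      exact h2
    rcases sq_eq_one_iff.1 h1 with h2 | h2
    · left
      exact Subtype.ext (Subtype.ext (Units.ext h2))
    · right
      exact Subtype.ext (Subtype.ext (Units.ext (by rw [h2]; rfl)))

/-- the first coordinate and the others -/
def c08PiCons (r : ℕ) (A : Type*) [CommGroup A] : (Fin (r + 1) → A) ≃* A × (Fin r → A) where
  toFun f := (f 0, fun i => f i.succ)
  invFun p := Fin.cons p.1 p.2
  left_inv f := by
    funext i
    refine Fin.cases ?_ (fun i => ?_) i
    · rfl
    · rfl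
  right_inv p := rfl
  map_mul' f g := rfl

theorem index_sq_pi (r : ℕ) : (sqG (Fin r → Multiplicative ℤ)).index = 2 ^ r := by
  induction r with
  | zero =>
    rw [pow_zero, Subgroup.index_eq_one]
    rw [eq_top_iff]
    intro x _
    exact ⟨1, Subsingleton.elim _ _⟩
  | succ r ih =>
    rw [index_sq_equiv (c08PiCons r (Multiplicative ℤ)), index_sq_prod, ih, index_sq_int, pow_succ,
      mul_comm]

variable (k) in
/-- the units as a product -/
noncomputable def c08UnitsHom : (NumberField.Units.torsion k × (Fin (NumberField.Units.rank k) →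
    Multiplicative ℤ)) →* (𝓞 k)ˣ where
  toFun p := (p.1 : (𝓞 k)ˣ) *
    ∏ j, NumberField.Units.fundSystem k j ^ (Multiplicative.toAdd (p.2 j))
  map_one' := by
    simp
  map_mul' p q := by
    change (p.1 : (𝓞 k)ˣ) * (q.1 : (𝓞 k)ˣ) * ∏ j, NumberField.Units.fundSystem k j ^
      (Multiplicative.toAdd (p.2 j) + Multiplicative.toAdd (q.2 j)) = _
    simp only [zpow_add, Finset.prod_mul_distrib]
    exact mul_mul_mul_comm _ _ _ _

theorem c08_unitsHom_bij : Function.Bijective (c08UnitsHom k) := by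
  rw [Function.bijective_iff_existsUnique]
  intro x
  obtain ⟨⟨ζ, e⟩, h1, h2⟩ := NumberField.Units.exist_unique_eq_mul_prod k x
  refine ⟨(ζ, fun j => Multiplicative.ofAdd (e j)), h1.symm, fun q hq => ?_⟩
  have h3 := h2 (q.1, fun j => Multiplicative.toAdd (q.2 j)) hq.symm
  rw [Prod.ext_iff] at h3
  refine Prod.ext h3.1 ?_
  have h4 := h3.2
  simp only at h4
  funext j
  rw [← h4]
  rfl

variable (k) in
theorem index_units : (sqG (𝓞 k)ˣ).index = 2 ^ Fintype.card (InfinitePlace k) := by
  rw [← index_sq_equiv (MulEquiv.ofBijective (c08UnitsHom k) c08_unitsHom_bij), index_sq_prod,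
    index_torsion, index_sq_pi]
  have h1 : 0 < Fintype.card (InfinitePlace k) := Fintype.card_pos
  have h2 : NumberField.Units.rank k + 1 = Fintype.card (InfinitePlace k) := by
    rw [NumberField.Units.rank]
    omega
  rw [← h2, pow_succ, mul_comm]

end Pool.Agent.Lib.MP_2f3286_ag.UA
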