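import Pool.Agent.Lib.MP_2f3286_ag.UA.C08

/-!
# C09: (C3), the `S`-units modulo squares

Text. `exists_gen`: `v ∉ S`. The class group is finite: `v.asIdeal ^ h = (a)` is principal, `h > 0`: `a` has order `h` at `v` and `0` at all other places, so `a ∈ US (insert v S)` with positive order at
`v`. Let `t ∈ US (insert v S)` have the least positive order `m` at `v` (`Nat.find`); every `g ∈ US (insert v S)` has order divisible by `m` (division with
remainder), so `g = h t ^ n` with `h` of order `0` at `v`, that is `h ∈ US S`.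
`index_US_insert`: `index_sq_step` (C07) in the group `G = US (insert v S)` with `H = (US S).subgroupOf (US (insert v S))`, `H ≃* US S` (`Subgroup.subgroupOfEquivOfLe`), `index_sq_equiv`.
`index_US_empty`: `(𝓞 k)ˣ ≃* US ∅`: an element with all valuations one is a unit of `𝓞 k` (`mem_integers_of_valuation_le_one` for `x` and `x⁻¹`).
`index_US`: induction on `S`.
-/

open NumberField IsDedekindDomain

namespace Pool.Agent.Lib.MP_2f3286_ag.UA

variable {k : Type*} [Field k] [NumberField k]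

private theorem C09_pi (v : HeightOneSpectrum (𝓞 k)) : ∃ π : k, π ≠ 0 ∧ ordv v π ≠ 0 ∧
    ∀ v' : HeightOneSpectrum (𝓞 k), v' ≠ v → v'.valuation k π = 1 := by
  classical
  obtain ⟨h, hh⟩ : ∃ h, h = classNumber k := ⟨_, rfl⟩
  have hhpos : 0 < h := by rw [hh]; exact classNumber_pos k
  have hne : v.asIdeal ∈ nonZeroDivisors (Ideal (𝓞 k)) := mem_nonZeroDivisors_of_ne_zero v.ne_bot
  have hpr : (v.asIdeal ^ h).IsPrincipal := by
    have h1 : (ClassGroup.mk0 ⟨v.asIdeal, hne⟩) ^ h = 1 := by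
      rw [hh, classNumber]; exact pow_card_eq_one
    rw [← map_pow, ClassGroup.mk0_eq_one_iff] at h1
    simpa using h1
  obtain ⟨π, hπ⟩ := hpr
  rw [Ideal.submodule_span_eq] at hπ
  have hπ0 : π ≠ 0 := by
    rintro rfl
    rw [Ideal.span_singleton_zero] at hπ
    exact pow_ne_zero h v.ne_bot hπ
  have hπk : algebraMap (𝓞 k) k π ≠ 0 := by
    rw [Ne, map_eq_zero_iff _ (FaithfulSMul.algebraMap_injective (𝓞 k) k)]
    exact hπ0
  refine ⟨algebraMap (𝓞 k) k π, hπk, ?_, fun v' hv' => ?_⟩
  · rw [Ne, ordv_eq_zero_iff v hπk, HeightOneSpectrum.valuation_eq_one_iff_notMem, not_not]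
    have h1 : π ∈ v.asIdeal ^ h := by
      rw [hπ]
      exact Ideal.mem_span_singleton_self π
    exact Ideal.pow_le_self hhpos.ne' h1
  · rw [HeightOneSpectrum.valuation_eq_one_iff_notMem]
    intro hmem
    have hle : v.asIdeal ^ h ≤ v'.asIdeal := by
      rw [hπ]; exact (Ideal.span_singleton_le_iff_mem _).mpr hmem
    have h5 := v'.isPrime.le_of_pow_le hle
    have h6 := v.isMaximal.eq_of_le v'.isPrime.ne_top h5
    exact hv' (HeightOneSpectrum.ext h6.symm)

private theorem C09_zpow (v : HeightOneSpectrum (𝓞 k)) (x : kˣ) (n : ℤ) :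
    ordv v ((x ^ n : kˣ) : k) = n * ordv v (x : k) := by
  cases n with
  | ofNat n =>
    rw [Int.ofNat_eq_natCast, zpow_natCast, Units.val_pow_eq_pow_val, ordv_pow]
  | negSucc n =>
    rw [zpow_negSucc, Units.val_inv_eq_inv_val, ordv_inv, Units.val_pow_eq_pow_val, ordv_pow,
      Int.negSucc_eq]
    push_cast
    ring

theorem exists_gen (S : Finset (HeightOneSpectrum (𝓞 k))) (v : HeightOneSpectrum (𝓞 k))
    (hv : v ∉ S) [DecidableEq (HeightOneSpectrum (𝓞 k))] :
    ∃ t ∈ US (insert v S), ordv v (t : k) ≠ 0 ∧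
      ∀ g ∈ US (insert v S), ∃ h ∈ US S, ∃ n : ℤ, g = h * t ^ n := by
  let A : AddSubgroup ℤ :=
    { carrier := {n | ∃ g ∈ US (insert v S), ordv v ((g : kˣ) : k) = n}
      add_mem' := by
        rintro a b ⟨g, hg, hga⟩ ⟨g', hg', hgb⟩
        refine ⟨g * g', mul_mem hg hg', ?_⟩
        rw [Units.val_mul, ordv_mul v g.ne_zero g'.ne_zero, hga, hgb]
      zero_mem' := by
        refine ⟨1, one_mem _, ?_⟩
        have h := C09_zpow v (1 : kˣ) 0
        rw [zpow_zero, zero_mul] at h
        exact h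
      neg_mem' := by
        rintro a ⟨g, hg, hga⟩
        refine ⟨g⁻¹, inv_mem hg, ?_⟩
        rw [Units.val_inv_eq_inv_val, ordv_inv, hga] }
  obtain ⟨m, hm⟩ := Int.subgroup_cyclic A
  have hmA : m ∈ A := by
    rw [hm]
    exact AddSubgroup.subset_closure rfl
  obtain ⟨t, ht, htm⟩ := hmA
  have hm0 : m ≠ 0 := by
    rintro rfl
    obtain ⟨π, hπ0, hπv, hπ1⟩ := C09_pi v
    have h1 : ordv v π ∈ A := by
      refine ⟨Units.mk0 π hπ0, ?_, rfl⟩
      rw [mem_US]
      intro w hw
      refine hπ1 w ?_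
      rintro rfl
      exact hw (Finset.mem_insert_self _ _)
    rw [hm, AddSubgroup.closure_singleton_zero, AddSubgroup.mem_bot] at h1
    exact hπv h1
  refine ⟨t, ht, by rw [htm]; exact hm0, ?_⟩
  intro g hg
  have h1 : ordv v ((g : kˣ) : k) ∈ A := ⟨g, hg, rfl⟩
  rw [hm, AddSubgroup.mem_closure_singleton] at h1
  obtain ⟨n, hn⟩ := h1
  refine ⟨g * (t ^ n)⁻¹, ?_, n, by rw [inv_mul_cancel_right]⟩
  rw [mem_US]
  intro w hw
  by_cases hwv : w = v
  · subst hwv
    rw [← ordv_eq_zero_iff w (Units.ne_zero _), Units.val_mul, ordv_mul w (Units.ne_zero _)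
      (Units.ne_zero _), Units.val_inv_eq_inv_val, ordv_inv, C09_zpow, htm, ← hn, smul_eq_mul]
    ring
  · have hw' : w ∉ insert v S := by
      rw [Finset.mem_insert]
      push Not
      exact ⟨hwv, hw⟩
    exact mem_US.1 (mul_mem hg (inv_mem (zpow_mem ht n))) w hw'

theorem index_US_insert (S : Finset (HeightOneSpectrum (𝓞 k))) (v : HeightOneSpectrum (𝓞 k))
    (hv : v ∉ S) [DecidableEq (HeightOneSpectrum (𝓞 k))] :
    (sqG (US (insert v S))).index = 2 * (sqG (US S)).index := by
  obtain ⟨t, ht, htv, hg⟩ := exists_gen S v hv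
  have hle : US S ≤ US (insert v S) := by
    intro a ha
    rw [mem_US] at ha ⊢
    intro w hw
    exact ha w fun h => hw (Finset.mem_insert_of_mem h)
  rw [index_sq_step ((US S).subgroupOf (US (insert v S))) (⟨t, ht⟩ : US (insert v S)),
    index_sq_equiv (Subgroup.subgroupOfEquivOfLe hle)]
  · rintro ⟨g, hgm⟩
    obtain ⟨h, hh, n, hn⟩ := hg g hgm
    refine ⟨⟨h, hle hh⟩, ?_, n, ?_⟩
    · rw [Subgroup.mem_subgroupOf]
      exact hh
    · apply Subtype.ext
      exact hn
  · intro n hn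
    rw [Subgroup.mem_subgroupOf] at hn
    have h1 : (t ^ n : kˣ) ∈ US S := hn
    have h2 := mem_US.1 h1 v hv
    rw [← ordv_eq_zero_iff v (Units.ne_zero _), C09_zpow] at h2
    rcases mul_eq_zero.1 h2 with h3 | h3
    · exact h3
    · exact absurd h3 htv

variable (k) in
theorem index_US_empty :
    (sqG (US (∅ : Finset (HeightOneSpectrum (𝓞 k))))).index = (sqG (𝓞 k)ˣ).index := by
  have hmem : ∀ u : (𝓞 k)ˣ, Units.map (algebraMap (𝓞 k) k : 𝓞 k →* k) u ∈
      US (∅ : Finset (HeightOneSpectrum (𝓞 k))) := by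
    intro u
    rw [mem_US]
    intro v _
    show v.valuation k (algebraMap (𝓞 k) k (u : 𝓞 k)) = 1
    rw [HeightOneSpectrum.valuation_eq_one_iff_notMem]
    intro h
    exact v.isPrime.ne_top (Ideal.eq_top_of_isUnit_mem _ h u.isUnit)
  let φ : (𝓞 k)ˣ →* US (∅ : Finset (HeightOneSpectrum (𝓞 k))) :=
    (Units.map (algebraMap (𝓞 k) k : 𝓞 k →* k)).codRestrict _ hmem
  have hinj : Function.Injective φ := by
    intro a b hab
    have h1 : Units.map (algebraMap (𝓞 k) k : 𝓞 k →* k) a =
        Units.map (algebraMap (𝓞 k) k : 𝓞 k →* k) b := congrArg Subtype.val hab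
    have h2 : algebraMap (𝓞 k) k (a : 𝓞 k) = algebraMap (𝓞 k) k (b : 𝓞 k) :=
      congrArg Units.val h1
    exact Units.ext (FaithfulSMul.algebraMap_injective (𝓞 k) k h2)
  have hsurj : Function.Surjective φ := by
    rintro ⟨a, ha⟩
    rw [mem_US] at ha
    obtain ⟨x, hx⟩ := HeightOneSpectrum.mem_integers_of_valuation_le_one k (a : k)
      (fun v => (ha v (Finset.notMem_empty v)).le)
    obtain ⟨y, hy⟩ := HeightOneSpectrum.mem_integers_of_valuation_le_one k ((a⁻¹ : kˣ) : k)
      (fun v => by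
        rw [Units.val_inv_eq_inv_val, map_inv₀, ha v (Finset.notMem_empty v), inv_one])
    have hxy : x * y = 1 := by
      apply FaithfulSMul.algebraMap_injective (𝓞 k) k
      rw [map_mul, map_one, hx, hy, ← Units.val_mul, mul_inv_cancel, Units.val_one]
    refine ⟨Units.mkOfMulEqOne x y hxy, ?_⟩
    apply Subtype.ext
    apply Units.ext
    exact hx
  exact (index_sq_equiv (MulEquiv.ofBijective φ ⟨hinj, hsurj⟩)).symm

theorem index_US (S : Finset (HeightOneSpectrum (𝓞 k))) :
    (sqG (US S)).index = 2 ^ (S.card + Fintype.card (InfinitePlace k)) := by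
  classical
  induction S using Finset.induction_on with
  | empty =>
    rw [index_US_empty k, index_units k, Finset.card_empty, zero_add]
  | insert v S hv ih =>
    rw [index_US_insert S v hv, ih, Finset.card_insert_of_notMem hv]
    ring

end Pool.Agent.Lib.MP_2f3286_ag.UA
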