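import Pool.Agent.Lib.MP_2f3286_ag.UA.DA

/-!
# Characters of order two

Text of `exists_char`: `G ⧸ H` is a group of exponent two, so `Additive (G ⧸ H)` is a vector space over `ZMod 2`
(`AddCommGroup.zmodModule`), and the image of `y` is nonzero: a linear functional is nonzero there
(`Module.Projective.exists_dual_ne_zero`). Compose with `Multiplicative (ZMod 2) ≃* ℤˣ` or define `ψ g = if f g = 0 then 1 else -1`.
-/

namespace Pool.Agent.Lib.MP_2f3286_ag.UA

theorem exists_char {G : Type*} [CommGroup G] (H : Subgroup G) (hH : ∀ g : G, g ^ 2 ∈ H) (y : G)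
    (hy : y ∉ H) : ∃ ψ : G →* ℤˣ, (∀ h ∈ H, ψ h = 1) ∧ ψ y = -1 := by
  have h2 : ∀ q : Additive (G ⧸ H), 2 • q = 0 := by
    intro q
    obtain ⟨g, hg⟩ := QuotientGroup.mk_surjective (Additive.toMul q)
    have h3 : (Additive.toMul q) ^ 2 = 1 := by
      rw [← hg, ← QuotientGroup.mk_pow, QuotientGroup.eq_one_iff]
      exact hH g
    exact h3
  let _ : Module (ZMod 2) (Additive (G ⧸ H)) := AddCommGroup.zmodModule h2
  have hne : (Additive.ofMul (QuotientGroup.mk y : G ⧸ H) : Additive (G ⧸ H)) ≠ 0 := by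
    intro h
    have h4 : (QuotientGroup.mk y : G ⧸ H) = 1 := h
    rw [QuotientGroup.eq_one_iff] at h4
    exact hy h4
  obtain ⟨f, hf⟩ := Module.Projective.exists_dual_ne_zero (ZMod 2) hne
  let e : Multiplicative (ZMod 2) →* ℤˣ :=
    { toFun := fun z => if Multiplicative.toAdd z = 0 then 1 else -1
      map_one' := by simp
      map_mul' := by decide }
  let g : G ⧸ H →* Multiplicative (ZMod 2) := AddMonoidHom.toMultiplicativeRight f.toAddMonoidHom
  refine ⟨(e.comp g).comp (QuotientGroup.mk' H), ?_, ?_⟩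
  · intro h hh
    have h5 : QuotientGroup.mk' H h = 1 := (QuotientGroup.eq_one_iff h).2 hh
    rw [MonoidHom.comp_apply, h5, map_one]
  · show (if f (Additive.ofMul (QuotientGroup.mk y : G ⧸ H)) = 0 then (1 : ℤˣ) else -1) = -1
    rw [if_neg hf]

/-- `c` and `d` independent modulo squares: characters with prescribed values -/
theorem exists_chars {G : Type*} [CommGroup G] (c d : G) (hc : ¬ ∃ g, g ^ 2 = c)
    (hd : ¬ ∃ g, g ^ 2 = d) (hcd : ¬ ∃ g, g ^ 2 = c * d) :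
    ∃ ψ₁ ψ₂ : G →* ℤˣ, ψ₁ d = 1 ∧ ψ₁ c = -1 ∧ ψ₂ d = -1 := by
  have hsq : ∀ g : G, g ^ 2 ∈ (powMonoidHom 2 : G →* G).range := fun g => ⟨g, rfl⟩
  obtain ⟨ψ₂, -, hψ₂⟩ := exists_char (powMonoidHom 2 : G →* G).range hsq d (by
    rintro ⟨g, hg⟩
    exact hd ⟨g, hg⟩)
  obtain ⟨ψ₁, hψ₁, hψ₁c⟩ := exists_char ((powMonoidHom 2 : G →* G).range ⊔ Subgroup.zpowers d)
    (fun g => Subgroup.mem_sup_left (hsq g)) c (by
    intro h
    obtain ⟨s, ⟨g, hg⟩, t, ht, hst⟩ := Subgroup.mem_sup.1 h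
    obtain ⟨n, hn⟩ := Subgroup.mem_zpowers_iff.1 ht
    have hg' : g ^ 2 = s := hg
    rcases Int.even_or_odd n with ⟨j, hj⟩ | ⟨j, hj⟩
    · apply hc
      refine ⟨g * d ^ j, ?_⟩
      rw [mul_pow, hg', ← hst, ← hn, hj, ← zpow_natCast (d ^ j), ← zpow_mul]
      congr 2
      push_cast
      ring
    · apply hcd
      refine ⟨g * d ^ (j + 1), ?_⟩
      rw [mul_pow, hg', ← hst, ← hn, hj, ← zpow_natCast (d ^ (j + 1)), ← zpow_mul, mul_assoc,
        ← zpow_add_one]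
      congr 2
      push_cast
      ring)
  exact ⟨ψ₁, ψ₂, hψ₁ d (Subgroup.mem_sup_right (Subgroup.mem_zpowers d)), hψ₁c, hψ₂⟩

end Pool.Agent.Lib.MP_2f3286_ag.UA
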