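import Pool.Agent.Lib.MP_2f3286_ag.UA.P16

/-!
# P17: the odd case of (G12), end

Text. `l = ordv v c + δ = 2 h + 1` (`ordv_int_nonneg` (P13): `h : ℕ`). `ordv v (c u) = ordv v c` (`ordv_mul` (DA), `ordv v u = 0`:
`valuation_eq_one_iff_notMem`). `gs_v_red` (P14) for `c` and for `c u` with this `h` (`l - h = h + 1`; the same relative index), and `GS_v_odd` (P16).
-/

open NumberField IsDedekindDomain

namespace Pool.Agent.Lib.MP_2f3286_ag.UA

variable {k : Type*} [Field k] [NumberField k]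

open Classical in
theorem gs_v_odd {v : HeightOneSpectrum (𝓞 k)} (hv : (2 : 𝓞 k) ∉ v.asIdeal) {δ : ℕ}
    (hδ : ∀ y : k, (∀ w, w ≠ v → w.valuation k y ≤ 1) →
      (Cd y ↔ v.valuation k y ≤ WithZero.exp (δ : ℤ))) (c : 𝓞 k) (hc : c ≠ 0)
    (ho : Odd (ordv v (c : k) + δ)) (u : 𝓞 k) (hu : u ∉ v.asIdeal) :
    gs v.asIdeal (c * u) =
      (if IsSquare (Ideal.Quotient.mk v.asIdeal u) then 1 else -1) * gs v.asIdeal c := by
  have hu0 : u ≠ 0 := fun h => hu (by rw [h]; exact v.asIdeal.zero_mem)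
  have hc' : (c : k) ≠ 0 := by exact_mod_cast hc
  have hu' : (u : k) ≠ 0 := by exact_mod_cast hu0
  -- the order of `c u`
  have hou : ordv v (u : k) = 0 := (ordv_eq_zero_iff v hu').2
    ((HeightOneSpectrum.valuation_eq_one_iff_notMem (K := k) (v := v) (r := u)).2 hu)
  have hcu : ordv v ((c * u : 𝓞 k) : k) = ordv v (c : k) := by
    have h1 : ((c * u : 𝓞 k) : k) = (c : k) * (u : k) := by push_cast; rfl
    rw [h1, ordv_mul v hc' hu', hou, add_zero]
  -- `h`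
  obtain ⟨m, hm⟩ := ho
  have hn := ordv_int_nonneg v c
  obtain ⟨h, rfl⟩ : ∃ h : ℕ, m = h := ⟨m.toNat, by omega⟩
  have e1 : ordv v (c : k) + δ - h = h + 1 := by omega
  obtain ⟨a1, _, a3⟩ := gs_v_red hv hδ c hc h (by omega)
  obtain ⟨b1, _, b3⟩ := gs_v_red hv hδ (c * u) (mul_ne_zero hc hu0) h (by rw [hcu]; omega)
  rw [hcu] at b1 b3
  rw [e1] at a1 a3 b1 b3
  rw [b3, a3, GS_v_odd hv hδ c hc h hm u hu a1 b1]
  ring

end Pool.Agent.Lib.MP_2f3286_ag.UA
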