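import Pool.Agent.Lib.MP_2f3286_ag.UA.DB

/-!
# P18: units and squares at a place not over 2

Text. `even_decomp`: `v.valuation x = exp (-2 m)`, `m : ℕ` (`x` an integer: `m ≥ 0`). `π : 𝓞 k` with valuation `exp (-1)`
(`valuation_exists_uniformizer'`). `x / π ^ (2 m)` has valuation one, so `x / π ^ (2 m) * d = n` with `n, d : 𝓞 k`, `d ∉ v`
(`exists_primeCompl_mul_eq_of_integer`), and `n ∉ v`. So `x d ^ 2 = (π ^ m) ^ 2 (n d)`: `t = d`, `s = π ^ m`, `u = n d`.
`sqAt_iff_residue`: `←`: `u - a ^ 2 ∈ v`, `a ∉ v`: `u / a ^ 2` is close to one, `sq_of_near_one` (DB). `→`: `u = y ^ 2` in the completion, `y` has valuation one,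
there is `a : 𝓞 k` with `y - a` of valuation `< 1` (`exists_approx` of `Lib/MP_2f3286_ag/Local.lean` and `exists_valuation_sub_lt_of_integer`, or directly
`residue_root` in `Lib/MP_2f3286_ag/PD/Loc.lean` applied to `z = y⁻¹`), `u - a ^ 2 ∈ v`.
`sqAt_of_eq`: `x t ^ 2 = s ^ 2 u`, `s, t ≠ 0`.
-/

open NumberField IsDedekindDomain

namespace Pool.Agent.Lib.MP_2f3286_ag.UA

variable {k : Type*} [Field k] [NumberField k]

theorem even_decomp (v : HeightOneSpectrum (𝓞 k)) (x : 𝓞 k) (hx : x ≠ 0)
    (hev : Even (ordv v (x : k))) :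
    ∃ s t u : 𝓞 k, s ≠ 0 ∧ t ≠ 0 ∧ u ∉ v.asIdeal ∧ x * t ^ 2 = s ^ 2 * u := by
  have hxk : (x : k) ≠ 0 := fun h => hx (RingOfIntegers.ext h)
  have hvx0 : v.valuation k (x : k) ≠ 0 := (Valuation.ne_zero_iff _).2 hxk
  have hvx1 : v.valuation k (x : k) ≤ 1 := HeightOneSpectrum.valuation_le_one v x
  obtain ⟨j, hj⟩ := hev
  have hlog : WithZero.log (v.valuation k (x : k)) = -(j + j) := by
    unfold ordv at hj
    omega
  have hj0 : 0 ≤ j := by
    have h1 : WithZero.log (v.valuation k (x : k)) ≤ WithZero.log (1 : WithZero (Multiplicative ℤ)) :=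
      (WithZero.log_le_log hvx0 one_ne_zero).2 hvx1
    rw [hlog, WithZero.log_one] at h1
    omega
  obtain ⟨m, rfl⟩ := Int.eq_ofNat_of_zero_le hj0
  obtain ⟨π, hπ'⟩ := v.valuation_exists_uniformizer' (K := k)
  have hπ : v.valuation k (algebraMap (𝓞 k) k π) = WithZero.exp (-1) := hπ'
  have hπ0 : (π : k) ≠ 0 := by
    intro h
    rw [show algebraMap (𝓞 k) k π = 0 from h, map_zero] at hπ
    exact WithZero.exp_ne_zero hπ.symm
  have hπ0' : π ≠ 0 := by
    rintro rfl
    exact hπ0 rfl
  have hval : v.valuation k ((x : k) / (π : k) ^ (2 * m)) = 1 := by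
    rw [map_div₀, map_pow, show v.valuation k (π : k) = WithZero.exp (-1) from hπ,
      ← WithZero.exp_log hvx0, hlog, ← WithZero.exp_nsmul]
    rw [div_eq_one_iff_eq WithZero.exp_ne_zero]
    congr 1
    simp only [nsmul_eq_mul]
    push_cast
    ring
  obtain ⟨n, d, hnd⟩ := HeightOneSpectrum.exists_primeCompl_mul_eq_of_integer v _ hval.le
  have hd : (d : 𝓞 k) ∉ v.asIdeal := d.2
  have hd0 : (d : 𝓞 k) ≠ 0 := fun h => hd (by rw [h]; exact v.asIdeal.zero_mem)
  have hn : n ∉ v.asIdeal := by
    rw [← HeightOneSpectrum.valuation_eq_one_iff_notMem (K := k), ← hnd, map_mul, hval, one_mul]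
    exact (HeightOneSpectrum.valuation_eq_one_iff_notMem v).mpr hd
  refine ⟨π ^ m, d, n * d, pow_ne_zero m hπ0', hd0, ?_, ?_⟩
  · intro h
    rcases v.isPrime.mem_or_mem h with h1 | h1
    · exact hn h1
    · exact hd h1
  · apply RingOfIntegers.ext
    push_cast
    have h1 : (x : k) * (d : 𝓞 k) = (π : k) ^ (2 * m) * n := by
      have h2 : (x : k) / (π : k) ^ (2 * m) * ((d : 𝓞 k) : k) = (n : k) := hnd
      rw [div_mul_eq_mul_div, div_eq_iff (pow_ne_zero _ hπ0)] at h2
      rw [h2]
      ring
    calc (x : k) * ((d : 𝓞 k) : k) ^ 2 = ((x : k) * (d : 𝓞 k)) * (d : 𝓞 k) := by ring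
      _ = ((π : k) ^ (2 * m) * n) * (d : 𝓞 k) := by rw [h1]
      _ = _ := by ring

theorem sqAt_iff_residue {v : HeightOneSpectrum (𝓞 k)} (hv : (2 : 𝓞 k) ∉ v.asIdeal) (u : 𝓞 k)
    (hu : u ∉ v.asIdeal) : SqAt v (u : k) ↔ IsSquare (Ideal.Quotient.mk v.asIdeal u) := by
  have hu1 : (Valued.v (algebraMap k (v.adicCompletion k) (u : k)) : WithZero (Multiplicative ℤ)) = 1 := by
    rw [val_alg]
    exact (HeightOneSpectrum.valuation_eq_one_iff_notMem v).mpr hu
  have hu0 : algebraMap k (v.adicCompletion k) (u : k) ≠ 0 := by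
    intro h
    rw [h, map_zero] at hu1
    exact zero_ne_one hu1
  constructor
  · rintro ⟨y, hy⟩
    have hy0 : y ≠ 0 := by
      rintro rfl
      rw [mul_zero] at hy
      exact hu0 hy
    have hy1 : (Valued.v y : WithZero (Multiplicative ℤ)) = 1 := by
      rw [hy, map_mul, ← sq] at hu1
      exact (pow_eq_one_iff_of_nonneg zero_le two_ne_zero).mp hu1
    obtain ⟨x0, hx0⟩ := exists_approx v y 1
    have hlt : WithZero.exp (-((1 : ℕ) : ℤ)) < (1 : WithZero (Multiplicative ℤ)) := by
      rw [← WithZero.exp_zero]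
      exact WithZero.exp_lt_exp.mpr (by norm_num)
    have hx1 : v.valuation k x0 ≤ 1 := by
      rw [← val_alg]
      have e : algebraMap k (v.adicCompletion k) x0 =
          y - (y - algebraMap k (v.adicCompletion k) x0) := by
        ring
      rw [e]
      exact (Valued.v.map_sub _ _).trans (max_le hy1.le (hx0.trans hlt.le))
    obtain ⟨a, ha⟩ := HeightOneSpectrum.exists_valuation_sub_lt_of_integer v hx1 1
    simp only [Units.val_one] at ha
    have hya : (Valued.v (y - algebraMap k (v.adicCompletion k) (a : k)) :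
        WithZero (Multiplicative ℤ)) < 1 := by
      have e : y - algebraMap k (v.adicCompletion k) (a : k) =
          (y - algebraMap k (v.adicCompletion k) x0) -
          algebraMap k (v.adicCompletion k) ((a : k) - x0) := by
        rw [map_sub]
        ring
      rw [e]
      refine lt_of_le_of_lt (Valued.v.map_sub _ _) (max_lt (lt_of_le_of_lt hx0 hlt) ?_)
      rw [val_alg]
      exact ha
    refine ⟨Ideal.Quotient.mk v.asIdeal a, ?_⟩
    rw [← map_mul, Ideal.Quotient.eq, ← HeightOneSpectrum.valuation_lt_one_iff_mem (K := k),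
      ← val_alg]
    have e : algebraMap k (v.adicCompletion k) (algebraMap (𝓞 k) k (u - a * a)) =
        (y - algebraMap k (v.adicCompletion k) (a : k)) *
          (y + algebraMap k (v.adicCompletion k) (a : k)) := by
      have h3 : algebraMap k (v.adicCompletion k) (algebraMap (𝓞 k) k u) = y * y := hy
      rw [map_sub, map_sub, map_mul, map_mul, h3]
      ring
    rw [e, map_mul]
    have h4 : (Valued.v (y + algebraMap k (v.adicCompletion k) (a : k)) :
        WithZero (Multiplicative ℤ)) ≤ 1 := by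
      refine (Valued.v.map_add _ _).trans (max_le hy1.le ?_)
      rw [val_alg]
      exact HeightOneSpectrum.valuation_le_one v a
    exact lt_of_le_of_lt (mul_le_of_le_one_right' h4) hya
  · rintro ⟨y, hy⟩
    obtain ⟨a, rfl⟩ := Ideal.Quotient.mk_surjective y
    rw [← map_mul, Ideal.Quotient.eq] at hy
    have ha : a ∉ v.asIdeal := by
      intro h
      apply hu
      have h1 : u = (u - a * a) + a * a := by ring
      rw [h1]
      exact v.asIdeal.add_mem hy (v.asIdeal.mul_mem_left a h)
    have ha1 : (Valued.v (algebraMap k (v.adicCompletion k) (a : k)) : WithZero (Multiplicative ℤ)) = 1 := by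
      rw [val_alg]
      exact (HeightOneSpectrum.valuation_eq_one_iff_notMem v).mpr ha
    have ha0 : algebraMap k (v.adicCompletion k) (a : k) ≠ 0 := by
      intro h
      rw [h, map_zero] at ha1
      exact zero_ne_one ha1
    obtain ⟨z, hz⟩ := sq_of_near_one hv
      (algebraMap k (v.adicCompletion k) (u : k) / (algebraMap k (v.adicCompletion k) (a : k)) ^ 2) (by
        have h1 : algebraMap k (v.adicCompletion k) (u : k) /
            (algebraMap k (v.adicCompletion k) (a : k)) ^ 2 - 1 =
            algebraMap k (v.adicCompletion k) ((u - a * a : 𝓞 k) : k) /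
              (algebraMap k (v.adicCompletion k) (a : k)) ^ 2 := by
          have h2 : algebraMap k (v.adicCompletion k) ((u - a * a : 𝓞 k) : k) =
              algebraMap k (v.adicCompletion k) (u : k) -
                algebraMap k (v.adicCompletion k) (a : k) *
                  algebraMap k (v.adicCompletion k) (a : k) := by
            show algebraMap k (v.adicCompletion k) (algebraMap (𝓞 k) k (u - a * a)) = _
            rw [map_sub, map_sub, map_mul, map_mul]
          rw [h2]
          field_simp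
        rw [h1, map_div₀, map_pow, ha1, one_pow, div_one, val_alg]
        exact (HeightOneSpectrum.valuation_lt_one_iff_mem v _).2 hy)
    refine ⟨z * algebraMap k (v.adicCompletion k) (a : k), ?_⟩
    rw [div_eq_iff (pow_ne_zero 2 ha0)] at hz
    rw [hz]
    ring

theorem sqAt_of_eq (v : HeightOneSpectrum (𝓞 k)) {x u s t : 𝓞 k} (hs : s ≠ 0) (ht : t ≠ 0)
    (h : x * t ^ 2 = s ^ 2 * u) : SqAt v (x : k) ↔ SqAt v (u : k) := by
  have hs0 : algebraMap k (v.adicCompletion k) (s : k) ≠ 0 := by
    rw [Ne, map_eq_zero]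
    exact fun h1 => hs (RingOfIntegers.ext h1)
  have ht0 : algebraMap k (v.adicCompletion k) (t : k) ≠ 0 := by
    rw [Ne, map_eq_zero]
    exact fun h1 => ht (RingOfIntegers.ext h1)
  have h1 : algebraMap k (v.adicCompletion k) (x : k) * (algebraMap k (v.adicCompletion k) (t : k)) ^ 2 =
      (algebraMap k (v.adicCompletion k) (s : k)) ^ 2 * algebraMap k (v.adicCompletion k) (u : k) := by
    rw [← map_pow, ← map_pow, ← map_mul, ← map_mul]
    exact_mod_cast congrArg (algebraMap (𝓞 k) k) h
  unfold SqAt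
  constructor
  · rintro ⟨y, hy⟩
    refine ⟨y * algebraMap k (v.adicCompletion k) (t : k) / algebraMap k (v.adicCompletion k) (s : k), ?_⟩
    rw [hy] at h1
    field_simp
    rw [sq, mul_comm] at h1
    linear_combination -h1
  · rintro ⟨y, hy⟩
    refine ⟨y * algebraMap k (v.adicCompletion k) (s : k) / algebraMap k (v.adicCompletion k) (t : k), ?_⟩
    rw [hy] at h1
    field_simp
    linear_combination h1

end Pool.Agent.Lib.MP_2f3286_ag.UA
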