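import Pool.Agent.Lib.MP_2f3286_ag.UA.P08
import Pool.Agent.Lib.MP_2f3286_ag.UA.P17
import Pool.Agent.Lib.MP_2f3286_ag.UA.P18

/-!
# P19: the local sign outside `S`

Text. `x t ^ 2 = s ^ 2 u` (`even_decomp`, P18), `δ` from `exists_dv` (P13). Write `A ~ B` if `A = p B` with `Pos p`. By `G6` (P07): `gs v (x c'')  ~ gs v (u c'')` for
`c'' = 1, c` (both `gs v (x t ^ 2 c'') = n gs v (x c'')` and `gs v (s ^ 2 u c'') = n' gs v (u c'')`). For `c''` with `ordv v c'' + δ` even: `gs v c''` and `gs v (c'' u)` are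
positive (`gs_v_even`), so `gs v c'' * gs v (x c'')` is positive. For `ordv v c'' + δ` odd: `gs v (c'' u) = η * gs v c''` (`gs_v_odd`), `gs v c''` is real (`gs_real`) and
not zero (`hne`), so `η * (gs v c'' * gs v (x c''))` is positive, `η = 1` if `u` is a square modulo `v` and `-1` if not. For the product of
`c'' = 1` and `c'' = c`: `ordv v 1 = 0`; if `ordv v c` is even both are in the same case and the product is positive (`η ^ 2 = 1`); if `ordv v c` is odd exactly one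
is in the odd case: the product is `η` times a positive number. `η = 1` iff `SqAt v u` iff `SqAt v x` (P18).
(The lemma `gs_pair` for one `c''` first.)
-/

open NumberField IsDedekindDomain

namespace Pool.Agent.Lib.MP_2f3286_ag.UA

variable {k : Type*} [Field k] [NumberField k]

private lemma p19_ordv_unit {v : HeightOneSpectrum (𝓞 k)} {u : 𝓞 k} (hu : u ∉ v.asIdeal) :
    ordv v (u : k) = 0 := by
  have h1 := (HeightOneSpectrum.valuation_eq_one_iff_notMem (K := k) (v := v) (r := u)).2 hu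
  have h2 : v.valuation k (u : k) = 1 := h1
  unfold ordv
  rw [h2, WithZero.log_one, neg_zero]

open Classical in
theorem gs_pair (i : k) (hi : i ^ 2 = -1) {v : HeightOneSpectrum (𝓞 k)}
    (hv : (2 : 𝓞 k) ∉ v.asIdeal) (hne : ∀ c : 𝓞 k, c ≠ 0 → gs v.asIdeal c ≠ 0) {δ : ℕ}
    (hδ : ∀ y : k, (∀ w, w ≠ v → w.valuation k y ≤ 1) →
      (Cd y ↔ v.valuation k y ≤ WithZero.exp (δ : ℤ))) (x c : 𝓞 k)
    (hx : x ≠ 0) (hc : c ≠ 0) (hev : Even (ordv v (x : k))) :
    Pos ((if Odd (ordv v (c : k) + δ) ∧ ¬ SqAt v (x : k) then (-1 : ℂ) else 1) *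
      (gs v.asIdeal c * gs v.asIdeal (x * c))) := by
  obtain ⟨s, t, u, hs, ht, hu, hxt⟩ := even_decomp v x hx hev
  have hu0 : u ≠ 0 := by
    intro h
    exact hu (h ▸ v.asIdeal.zero_mem)
  obtain ⟨n, hn, h1⟩ := G6 v.asIdeal (x * c) t (mul_ne_zero hx hc) ht
  obtain ⟨m, hm, h2⟩ := G6 v.asIdeal (c * u) s (mul_ne_zero hc hu0) hs
  have h3 : x * c * t ^ 2 = c * u * s ^ 2 := by
    calc x * c * t ^ 2 = c * (x * t ^ 2) := by ring
      _ = c * (s ^ 2 * u) := by rw [hxt]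
      _ = _ := by ring
  rw [h3, h2] at h1
  have hnp : Pos (n : ℂ) := Pos.nat hn
  have hmp : Pos (m : ℂ) := Pos.nat hm
  have h4 : gs v.asIdeal (x * c) = (n : ℂ)⁻¹ * (m : ℂ) * gs v.asIdeal (c * u) := by
    rw [mul_assoc, h1, ← mul_assoc, inv_mul_cancel₀ hnp.ne_zero, one_mul]
  have hcu : ordv v ((c * u : 𝓞 k) : k) = ordv v (c : k) := by
    have h5 : ((c * u : 𝓞 k) : k) = (c : k) * (u : k) := by push_cast; rfl
    rw [h5, ordv_mul v (RingOfIntegers.coe_ne_zero_iff.mpr hc)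
      (RingOfIntegers.coe_ne_zero_iff.mpr hu0), p19_ordv_unit hu, add_zero]
  rcases Int.even_or_odd (ordv v (c : k) + δ) with he | ho
  · have hno : ¬ (Odd (ordv v (c : k) + δ) ∧ ¬ SqAt v (x : k)) := by
      rintro ⟨h5, -⟩
      exact (Int.not_odd_iff_even.mpr he) h5
    rw [if_neg hno, one_mul, h4]
    have h6 := gs_v_even hv hδ c hc he
    have h7 := gs_v_even hv hδ (c * u) (mul_ne_zero hc hu0) (by rw [hcu]; exact he)
    exact h6.mul ((hnp.inv.mul hmp).mul h7)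
  · have h5 := gs_v_odd hv hδ c hc ho u hu
    obtain ⟨r, hr⟩ := gs_real i hi v.asIdeal c hc
    have hr0 : r ≠ 0 := by
      intro h6
      apply hne c hc
      rw [hr, h6]
      simp
    have hrr : Pos ((r : ℂ) * (r : ℂ)) := ⟨r * r, mul_self_pos.mpr hr0, by push_cast; rfl⟩
    have hiff : SqAt v (x : k) ↔ IsSquare (Ideal.Quotient.mk v.asIdeal u) :=
      (sqAt_of_eq v hs ht hxt).trans (sqAt_iff_residue hv u hu)
    have hpos : Pos ((n : ℂ)⁻¹ * (m : ℂ) * ((r : ℂ) * (r : ℂ))) := (hnp.inv.mul hmp).mul hrr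
    rw [h4, h5, hr]
    by_cases hsq : SqAt v (x : k)
    · rw [if_neg (fun h => h.2 hsq), if_pos (hiff.mp hsq)]
      have h8 : (1 : ℂ) * ((r : ℂ) * ((n : ℂ)⁻¹ * (m : ℂ) * (1 * (r : ℂ))))
          = (n : ℂ)⁻¹ * (m : ℂ) * ((r : ℂ) * (r : ℂ)) := by ring
      rw [h8]
      exact hpos
    · rw [if_pos ⟨ho, hsq⟩, if_neg (fun h => hsq (hiff.mpr h))]
      have h8 : (-1 : ℂ) * ((r : ℂ) * ((n : ℂ)⁻¹ * (m : ℂ) * (-1 * (r : ℂ))))
          = (n : ℂ)⁻¹ * (m : ℂ) * ((r : ℂ) * (r : ℂ)) := by ring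
      rw [h8]
      exact hpos

open Classical in
theorem local_sign (i : k) (hi : i ^ 2 = -1) {v : HeightOneSpectrum (𝓞 k)}
    (hv : (2 : 𝓞 k) ∉ v.asIdeal) (hne : ∀ c : 𝓞 k, c ≠ 0 → gs v.asIdeal c ≠ 0) (x c : 𝓞 k)
    (hx : x ≠ 0) (hc : c ≠ 0) (hev : Even (ordv v (x : k))) :
    Pos ((if Odd (ordv v (c : k)) ∧ ¬ SqAt v (x : k) then (-1 : ℂ) else 1) *
      ((gs v.asIdeal 1 * gs v.asIdeal x) * (gs v.asIdeal c * gs v.asIdeal (x * c)))) := by
  obtain ⟨δ, hδ⟩ := exists_dv v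
  have h1 := gs_pair i hi hv hne hδ x 1 hx one_ne_zero hev
  have h2 := gs_pair i hi hv hne hδ x c hx hc hev
  have h3 := h1.mul h2
  have ho1 : ordv v ((1 : 𝓞 k) : k) = 0 :=
    p19_ordv_unit (fun h => v.isPrime.ne_top ((Ideal.eq_top_iff_one _).mpr h))
  rw [ho1, zero_add, mul_one] at h3
  have h4 : (if Odd (ordv v (c : k)) ∧ ¬ SqAt v (x : k) then (-1 : ℂ) else 1)
      = (if Odd ((δ : ℤ)) ∧ ¬ SqAt v (x : k) then (-1 : ℂ) else 1) *
        (if Odd (ordv v (c : k) + δ) ∧ ¬ SqAt v (x : k) then (-1 : ℂ) else 1) := by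
    by_cases hsq : SqAt v (x : k)
    · simp [hsq]
    · rcases Int.even_or_odd (δ : ℤ) with hd | hd <;>
        rcases Int.even_or_odd (ordv v (c : k)) with hc' | hc'
      · have e1 : ¬ Odd (δ : ℤ) := Int.not_odd_iff_even.mpr hd
        have e2 : ¬ Odd (ordv v (c : k)) := Int.not_odd_iff_even.mpr hc'
        have e3 : ¬ Odd (ordv v (c : k) + δ) := Int.not_odd_iff_even.mpr (hc'.add hd)
        simp [e1, e2, e3]
      · have e1 : ¬ Odd (δ : ℤ) := Int.not_odd_iff_even.mpr hd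
        have e3 : Odd (ordv v (c : k) + δ) := hc'.add_even hd
        simp [e1, hc', e3]
      · have e2 : ¬ Odd (ordv v (c : k)) := Int.not_odd_iff_even.mpr hc'
        have e3 : Odd (ordv v (c : k) + δ) := hc'.add_odd hd
        simp [hd, e2, e3, hsq]
      · have e3 : ¬ Odd (ordv v (c : k) + δ) := Int.not_odd_iff_even.mpr (hc'.add_odd hd)
        simp [hd, hc', e3, hsq]
  rw [h4]
  have h5 : ∀ a b c' d e f : ℂ, (a * b) * ((c' * d) * (e * f)) = (a * (c' * d)) * (b * (e * f)) := by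
    intro a b c' d e f
    ring
  rw [h5]
  exact h3

end Pool.Agent.Lib.MP_2f3286_ag.UA
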