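import Pool.Agent.Lib.MP_2f3286_ag.UA.P09

/-!
# P20: products over finite sets of places

Text. `gs_one`: `DI (bf c) ⊤ (RL k) = RL k` (`I ^ n = ⊤`, `r = 1`; `DI_le`), the sum over the transversal `{0}` is `1`. `gs_prod`: induction on `T`;
`v.asIdeal` and `∏ w ∈ T, w.asIdeal` are coprime for `v ∉ T` (`IsCoprime.prod_right`; distinct maximal ideals: `Ideal.isCoprime_of_isMaximal`, `v.isMaximal`); `gs_mul` (P09).
-/

open NumberField IsDedekindDomain

namespace Pool.Agent.Lib.MP_2f3286_ag.UA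

variable {k : Type*} [Field k] [NumberField k]

theorem gs_one (c : 𝓞 k) (hc : c ≠ 0) : gs (1 : Ideal (𝓞 k)) c = 1 := by
  classical
  have h := GOK_gs (1 : Ideal (𝓞 k)) c hc
  have hD : DI (bf (c : k)) (1 : Ideal (𝓞 k)) (RL k) = ZL k := by
    refine le_antisymm ?_ h.le
    intro y hy
    obtain ⟨-, n, h2⟩ := mem_DI.1 hy
    have h3 := h2 1 (by rw [one_pow, Ideal.one_eq_top]; exact Submodule.mem_top)
    rw [one_smul] at h3
    exact h3
  have hT : IsTrv (DI (bf (c : k)) (1 : Ideal (𝓞 k)) (RL k)) (ZL k) {(0 : k)} := by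
    refine ⟨fun t ht => ?_, fun y hy => ⟨0, ⟨Finset.mem_singleton_self _, ?_⟩, fun t ht => ?_⟩⟩
    · rw [Finset.mem_singleton] at ht
      rw [ht]
      exact AddSubgroup.zero_mem _
    · rw [sub_zero, ← hD]
      exact hy
    · exact Finset.mem_singleton.1 ht.1
  unfold gs
  rw [GS_eq_sum h hT, Finset.sum_singleton, map_zero, ee_zero]

theorem gs_prod (T : Finset (HeightOneSpectrum (𝓞 k))) (c : 𝓞 k) (hc : c ≠ 0) :
    gs (∏ v ∈ T, v.asIdeal) c = ∏ v ∈ T, gs v.asIdeal c := by
  classical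
  induction T using Finset.induction_on with
  | empty =>
    rw [Finset.prod_empty, Finset.prod_empty]
    exact gs_one c hc
  | insert v T hv ih =>
    rw [Finset.prod_insert hv, Finset.prod_insert hv, ← ih]
    refine gs_mul ?_ c hc
    refine IsCoprime.prod_right fun w hw => ?_
    have hne : v ≠ w := fun h => hv (h ▸ hw)
    have hm := v.isMaximal
    have hm' := w.isMaximal
    exact Ideal.isCoprime_of_isMaximal fun h => hne (HeightOneSpectrum.ext h)

end Pool.Agent.Lib.MP_2f3286_ag.UA
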