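import Pool.Agent.Lib.MP_2f3286_ag.UA.P07

/-!
# P11: (G11), close values of `c` give the same sum

Text. Write `D c` for `DI (bf c) I (RL k)`, `E` from `exists_E` (P05), `a = 2 c E`, `B`, `q` from `exists_coprime_part I` (P04) for `a`.
`exists_exp`: for `y ∈ D c` and `r ∈ I ^ q`: `r y` is an integer: `a y` is an integer (`exists_E` for `2 c y`), `I ^ n y ⊆ 𝓞 k` for some `n`, `α + β = 1`,
`α ∈ I ^ n`, `β ∈ B` (`IsCoprime.pow_left`): `r y = r (α y) + (r β) y`, and `r β = a t`.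
`G11`: `N = 2 q + 1`, `e = c' - c ∈ I ^ N`. (1) `D c ≤ D c'`: `y ∈ D c`, `x` an integer: `2 Tr (c' y x) = 2 Tr (c y x) + 2 Tr (e y x)`, `e y` is an integer as
`e ∈ I ^ q`. (2) `D c' ≤ D c`: `y ∈ D c'`, `I ^ n y ⊆ 𝓞 k`. By induction on `j` from `j = n` down to `0`: `I ^ j y ⊆ D c`. `j = n` clear (`DI_le`). If
`I ^ (j+1) y ⊆ D c`, let `r ∈ I ^ j`: for `t ∈ I`: `t r y ∈ D c`, so `I ^ q t r y ⊆ 𝓞 k` (`exists_exp`), so `I ^ (q+1) (r y) ⊆ 𝓞 k`, and
`e r y` is an integer (`e ∈ I ^ (q + 1)`), `2 Tr (c r y x) = 2 Tr (c' r y x) - 2 Tr (e r y x)` is an integer: `r y ∈ D c`.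
(3) on `D c`: `bf c' y y - bf c y y = Tr (e y ^ 2)` is an integer: `e ∈ I ^ (2 q + 1) ≤ I ^ q * I ^ q`, `e y ^ 2` is a sum of terms `(r y) (s y)`.
So the two sums are equal: `GS_eq_sum` with the same transversal, `ee_congr`.
-/

open NumberField

namespace Pool.Agent.Lib.MP_2f3286_ag.UA

variable {k : Type*} [Field k] [NumberField k]

private theorem p11_mul (a b : 𝓞 k) : ((a * b : 𝓞 k) : k) = (a : k) * (b : k) :=
  map_mul (algebraMap (𝓞 k) k) a b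

private theorem p11_add (a b : 𝓞 k) : ((a + b : 𝓞 k) : k) = (a : k) + (b : k) :=
  map_add (algebraMap (𝓞 k) k) a b

private theorem p11_subc (a b : 𝓞 k) : ((a - b : 𝓞 k) : k) = (a : k) - (b : k) :=
  map_sub (algebraMap (𝓞 k) k) a b

private theorem p11_one : ((1 : 𝓞 k) : k) = 1 := map_one (algebraMap (𝓞 k) k)

private theorem p11_two : ((2 : 𝓞 k) : k) = 2 := map_ofNat (algebraMap (𝓞 k) k) 2

private theorem p11_nat (n : ℕ) : ((n : 𝓞 k) : k) = n := map_natCast (algebraMap (𝓞 k) k) n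

theorem exists_exp (I : Ideal (𝓞 k)) (c : 𝓞 k) (hc : c ≠ 0) :
    ∃ q : ℕ, ∀ y ∈ DI (bf (c : k)) I (RL k), ∀ r ∈ I ^ q, ∃ s : 𝓞 k, (s : k) = r * y := by
  obtain ⟨E, hE, hE'⟩ := exists_E k
  have ha : (2 * c * E : 𝓞 k) ≠ 0 := by
    refine mul_ne_zero (mul_ne_zero two_ne_zero hc) ?_
    exact_mod_cast hE.ne'
  obtain ⟨B, q, hco, -, hq⟩ := exists_coprime_part I ha
  refine ⟨q, fun y hy r hr => ?_⟩
  obtain ⟨h1, n, h2⟩ := mem_DI.mp hy
  obtain ⟨s₀, hs₀⟩ := hE' (2 * (c : k) * y) (fun x => by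
    have h3 := h1 (x : k) (mem_RL.mpr ⟨x, rfl⟩)
    rw [bf_apply] at h3
    have h4 : 2 * (c : k) * y * x = (2 : ℚ) • ((c : k) * y * x) := by
      rw [Algebra.smul_def, map_ofNat]
      ring
    rw [h4, map_smul, smul_eq_mul]
    exact h3)
  obtain ⟨α, hα, β, hβ, hαβ⟩ := Ideal.isCoprime_iff_exists.mp (hco.pow_left (m := n))
  obtain ⟨s₁, hs₁⟩ := mem_RL.mp (h2 α hα)
  obtain ⟨t, ht⟩ := hq r hr β hβ
  refine ⟨r * s₁ + t * s₀, ?_⟩
  have h5 : (r : k) * β = 2 * c * E * t := by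
    have h6 : ((r * β : 𝓞 k) : k) = ((2 * c * E * t : 𝓞 k) : k) := by rw [ht]
    rwa [p11_mul, p11_mul, p11_mul, p11_mul, p11_two, p11_nat] at h6
  have h7 : (α : k) + β = 1 := by
    have h8 : ((α + β : 𝓞 k) : k) = ((1 : 𝓞 k) : k) := by rw [hαβ]
    rwa [p11_add, p11_one] at h8
  have h9 : (s₁ : k) = α * y := by
    rw [hs₁, Algebra.smul_def]
  rw [p11_add, p11_mul, p11_mul, h9, hs₀]
  calc (r : k) * (α * y) + t * (E * (2 * c * y)) = r * (α * y) + (2 * c * E * t) * y := by ring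
    _ = r * (α * y) + (r * β) * y := by rw [h5]
    _ = r * ((α + β) * y) := by ring
    _ = r * y := by rw [h7, one_mul]

/-- the difference of the two forms -/
private theorem p11_tr {c c' : 𝓞 k} {y z : k} (h : ∃ s : 𝓞 k, (s : k) = ((c' - c : 𝓞 k) : k) * y)
    (hz : z ∈ RL k) : IsZ (2 * bf (c' : k) y z - 2 * bf (c : k) y z) := by
  obtain ⟨s, hs⟩ := h
  obtain ⟨r, rfl⟩ := mem_RL.mp hz
  have h1 : 2 * bf (c' : k) y r - 2 * bf (c : k) y r =
      ((2 : ℤ) : ℚ) * Algebra.trace ℚ k ((s * r : 𝓞 k) : k) := by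
    have h2 : ((s * r : 𝓞 k) : k) = (c' : k) * y * r - (c : k) * y * r := by
      rw [p11_mul, hs, p11_subc]
      ring
    rw [bf_apply, bf_apply, h2, map_sub]
    push_cast
    ring
  rw [h1]
  exact (IsZ.int 2).mul (isZ_trace _)

private theorem p11_le (I : Ideal (𝓞 k)) {c c' : 𝓞 k} {q : ℕ}
    (hq : ∀ y ∈ DI (bf (c : k)) I (RL k), ∀ r ∈ I ^ q, ∃ s : 𝓞 k, (s : k) = r * y)
    (he : c' - c ∈ I ^ q) : DI (bf (c : k)) I (RL k) ≤ DI (bf (c' : k)) I (RL k) := by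
  intro y hy
  obtain ⟨h1, n, h2⟩ := mem_DI.mp hy
  refine mem_DI.mpr ⟨fun x hx => ?_, n, h2⟩
  have h3 := p11_tr (hq y hy _ he) hx
  have h4 := h3.add (h1 x hx)
  rwa [sub_add_cancel] at h4

private theorem p11_ge (I : Ideal (𝓞 k)) {c c' : 𝓞 k} {q : ℕ}
    (hq : ∀ y ∈ DI (bf (c : k)) I (RL k), ∀ r ∈ I ^ q, ∃ s : 𝓞 k, (s : k) = r * y)
    (he : c' - c ∈ I ^ (q + 1)) : DI (bf (c' : k)) I (RL k) ≤ DI (bf (c : k)) I (RL k) := by
  intro y hy
  obtain ⟨-, n, h2⟩ := mem_DI.mp hy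
  have key : ∀ i j : ℕ, j + i = n → ∀ r ∈ I ^ j, r • y ∈ DI (bf (c : k)) I (RL k) := by
    intro i
    induction i with
    | zero =>
      intro j hj r hr
      rw [add_zero] at hj
      subst hj
      exact DI_le (isRB_bf (c : k)) (isZ_bf c) I (h2 r hr)
    | succ i ih =>
      intro j hj r hr
      have h3 : ∀ v ∈ I ^ (q + 1), ∃ s : 𝓞 k, (s : k) = v * (r • y) := by
        intro v hv
        rw [pow_succ] at hv
        refine Submodule.mul_induction_on hv (fun u hu t ht => ?_) (fun x x' hx hx' => ?_)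
        · have h4 : t * r ∈ I ^ (j + 1) := by
            rw [pow_succ, mul_comm t r]
            exact Ideal.mul_mem_mul hr ht
          obtain ⟨s, hs⟩ := hq _ (ih (j + 1) (by omega) (t * r) h4) u hu
          refine ⟨s, ?_⟩
          rw [hs, mul_smul, Algebra.smul_def t, ← mul_assoc, p11_mul]
        · obtain ⟨s, hs⟩ := hx
          obtain ⟨s', hs'⟩ := hx'
          refine ⟨s + s', ?_⟩
          rw [p11_add, p11_add, hs, hs', add_mul]
      have h5 := DI_smul (isRB_bf (c' : k)) r hy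
      obtain ⟨h6, n', h7⟩ := mem_DI.mp h5
      refine mem_DI.mpr ⟨fun x hx => ?_, n', h7⟩
      have h8 := p11_tr (h3 _ he) hx
      have h9 := (h6 x hx).sub h8
      rwa [sub_sub_cancel] at h9
  have h10 := key n 0 (zero_add n) 1 (by simp)
  rwa [one_smul] at h10

private theorem p11_sq (I : Ideal (𝓞 k)) {c : 𝓞 k} {q : ℕ}
    (hq : ∀ y ∈ DI (bf (c : k)) I (RL k), ∀ r ∈ I ^ q, ∃ s : 𝓞 k, (s : k) = r * y)
    {e : 𝓞 k} (he : e ∈ I ^ q * I ^ q) {y : k} (hy : y ∈ DI (bf (c : k)) I (RL k)) :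
    IsZ (Algebra.trace ℚ k ((e : k) * y * y)) := by
  refine Submodule.mul_induction_on he (fun u hu v hv => ?_) (fun x x' hx hx' => ?_)
  · obtain ⟨s, hs⟩ := hq y hy u hu
    obtain ⟨t, ht⟩ := hq y hy v hv
    have h1 : ((u * v : 𝓞 k) : k) * y * y = ((s * t : 𝓞 k) : k) := by
      rw [p11_mul, p11_mul, hs, ht]
      ring
    rw [h1]
    exact isZ_trace _
  · have h1 : ((x + x' : 𝓞 k) : k) * y * y = (x : k) * y * y + (x' : k) * y * y := by
      rw [p11_add]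
      ring
    rw [h1, map_add]
    exact hx.add hx'

theorem G11 (I : Ideal (𝓞 k)) (c : 𝓞 k) (hc : c ≠ 0) :
    ∃ N : ℕ, ∀ c' : 𝓞 k, c' ≠ 0 → c' - c ∈ I ^ N → gs I c' = gs I c := by
  obtain ⟨q, hq⟩ := exists_exp I c hc
  refine ⟨2 * q + 1, fun c' hc' he => ?_⟩
  have h1 : c' - c ∈ I ^ q := Ideal.pow_le_pow_right (by omega) he
  have h2 : c' - c ∈ I ^ (q + 1) := Ideal.pow_le_pow_right (by omega) he
  have h3 : c' - c ∈ I ^ q * I ^ q := by
    rw [← pow_add]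
    exact Ideal.pow_le_pow_right (by omega) he
  have hD : DI (bf (c' : k)) I (RL k) = DI (bf (c : k)) I (RL k) :=
    le_antisymm (p11_ge I hq h2) (p11_le I hq h1)
  have g1 := GOK_gs I c hc
  have g2 := GOK_gs I c' hc'
  rw [hD] at g2
  obtain ⟨T, hT⟩ := exists_trv _ _ g1.fin
  unfold gs
  rw [hD, GS_eq_sum g1 hT, GS_eq_sum g2 hT]
  refine Finset.sum_congr rfl fun t ht => ee_congr ?_
  have h4 : bf (c' : k) t t - bf (c : k) t t =
      Algebra.trace ℚ k (((c' - c : 𝓞 k) : k) * t * t) := by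
    rw [bf_apply, bf_apply, ← map_sub]
    congr 1
    rw [p11_subc]
    ring
  rw [h4]
  exact p11_sq I hq h3 (hT.1 t ht)

end Pool.Agent.Lib.MP_2f3286_ag.UA
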