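import Pool.Agent.Lib.MP_2f3286_ag.UA.DA

/-!
# P21: simultaneous approximation of the solutions of `c = z ^ 2 - x w ^ 2`

Text. `scale_int`: for every `v ∈ S` `NormAt v x c` gives `z_v, w_v`. There is `m : 𝓞 k`, `m ≠ 0`, with `m z_v`, `m w_v` integral for all `v ∈ S`: for one element `z` of the completion
there is `m_v ≠ 0` (`adicCompletion.mul_nonZeroDivisor_mem_adicCompletionIntegers`, or a power of an element of `v`); take the product over `S` of the
`m` for `z_v` and `w_v`. `(m z_v) ^ 2 - x (m w_v) ^ 2 = c m ^ 2`.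
`approx_int`: `z_v, w_v` integral in the completion, `N : ℕ`. For `v ∈ S` there is `a_v : 𝓞 k` with `Valued.v (z_v - a_v) ≤ exp (-N)` (`exists_approx` in
`Lib/MP_2f3286_ag/Local.lean`, then `exists_valuation_sub_lt_of_integer`), `b_v` for `w_v`. Chinese remainder theorem
(`IsDedekindDomain.exists_forall_sub_mem_ideal`, the `v.asIdeal`, `v ∈ S`, are different primes): `z, w : 𝓞 k` with `z - a_v, w - b_v ∈ v.asIdeal ^ N`. Then
`Valued.v (z ^ 2 - x w ^ 2 - c) ≤ exp (-N)` for all `v ∈ S`, so `z ^ 2 - x w ^ 2 - c ∈ v.asIdeal ^ N` (`intValuation_le_pow_iff_mem`), so in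
`(∏ v ∈ S, v.asIdeal) ^ N` (`Finset.prod_pow`, the product of coprime ideals is the intersection: `IsDedekindDomain.inf_prime_pow_eq_prod`, or divisibility of
`Ideal.span {·}`: `Finset.prod_dvd_of_coprime`).
-/

open NumberField IsDedekindDomain

namespace Pool.Agent.Lib.MP_2f3286_ag.UA

variable {k : Type*} [Field k] [NumberField k]

/-- an integer of `k` which makes an element of the completion integral -/
private theorem p21_den (v : HeightOneSpectrum (𝓞 k)) (z : v.adicCompletion k) :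
    ∃ m : 𝓞 k, m ≠ 0 ∧
      (Valued.v (algebraMap k (v.adicCompletion k) (m : k) * z) : WithZero (Multiplicative ℤ)) ≤ 1 := by
  obtain ⟨b, hb, h⟩ := HeightOneSpectrum.adicCompletion.mul_nonZeroDivisor_mem_adicCompletionIntegers v z
  refine ⟨b, nonZeroDivisors.ne_zero hb, ?_⟩
  rw [mul_comm]
  exact h

private theorem p21_int (v : HeightOneSpectrum (𝓞 k)) (m : 𝓞 k) :
    (Valued.v (algebraMap k (v.adicCompletion k) (m : k)) : WithZero (Multiplicative ℤ)) ≤ 1 := by
  rw [val_alg]
  exact HeightOneSpectrum.valuation_le_one v m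

private theorem p21_mul_le {v : HeightOneSpectrum (𝓞 k)} {X Y : v.adicCompletion k}
    (hX : (Valued.v X : WithZero (Multiplicative ℤ)) ≤ 1)
    (hY : (Valued.v Y : WithZero (Multiplicative ℤ)) ≤ 1) :
    (Valued.v (X * Y) : WithZero (Multiplicative ℤ)) ≤ 1 := by
  rw [map_mul]
  exact mul_le_one' hX hY

theorem scale_int (S : Finset (HeightOneSpectrum (𝓞 k))) (x c : 𝓞 k)
    (hloc : ∀ v ∈ S, NormAt v (x : k) (c : k)) :
    ∃ m : 𝓞 k, m ≠ 0 ∧ ∀ v ∈ S, ∃ z w : v.adicCompletion k,
      (Valued.v z : WithZero (Multiplicative ℤ)) ≤ 1 ∧ (Valued.v w : WithZero (Multiplicative ℤ)) ≤ 1 ∧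
      algebraMap k (v.adicCompletion k) ((c * m ^ 2 : 𝓞 k) : k) =
        z ^ 2 - algebraMap k (v.adicCompletion k) (x : k) * w ^ 2 := by
  classical
  have key : ∀ v : HeightOneSpectrum (𝓞 k), ∃ m : 𝓞 k, m ≠ 0 ∧ (v ∈ S → ∃ z w : v.adicCompletion k,
      (Valued.v (algebraMap k (v.adicCompletion k) (m : k) * z) : WithZero (Multiplicative ℤ)) ≤ 1 ∧
      (Valued.v (algebraMap k (v.adicCompletion k) (m : k) * w) : WithZero (Multiplicative ℤ)) ≤ 1 ∧
      algebraMap k (v.adicCompletion k) (c : k) =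
        z ^ 2 - algebraMap k (v.adicCompletion k) (x : k) * w ^ 2) := by
    intro v
    by_cases hv : v ∈ S
    · obtain ⟨z, w, h⟩ := hloc v hv
      obtain ⟨m, hm, h1⟩ := p21_den v z
      obtain ⟨n, hn, h2⟩ := p21_den v w
      refine ⟨m * n, mul_ne_zero hm hn, fun _ => ⟨z, w, ?_, ?_, h⟩⟩
      · have h3 : algebraMap k (v.adicCompletion k) ((m * n : 𝓞 k) : k) * z =
            algebraMap k (v.adicCompletion k) (n : k) *
              (algebraMap k (v.adicCompletion k) (m : k) * z) := by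
          have h4 : ((m * n : 𝓞 k) : k) = (m : k) * (n : k) := map_mul (algebraMap (𝓞 k) k) m n
          rw [h4, map_mul]
          ring
        rw [h3]
        exact p21_mul_le (p21_int v n) h1
      · have h3 : algebraMap k (v.adicCompletion k) ((m * n : 𝓞 k) : k) * w =
            algebraMap k (v.adicCompletion k) (m : k) *
              (algebraMap k (v.adicCompletion k) (n : k) * w) := by
          have h4 : ((m * n : 𝓞 k) : k) = (m : k) * (n : k) := map_mul (algebraMap (𝓞 k) k) m n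
          rw [h4, map_mul]
          ring
        rw [h3]
        exact p21_mul_le (p21_int v m) h2
    · exact ⟨1, one_ne_zero, fun h => absurd h hv⟩
  choose m hm0 hm using key
  refine ⟨∏ v ∈ S, m v, Finset.prod_ne_zero_iff.2 fun v _ => hm0 v, fun v hv => ?_⟩
  obtain ⟨z, w, h1, h2, h3⟩ := hm v hv
  set A := algebraMap k (v.adicCompletion k) with hA
  set M : 𝓞 k := ∏ v ∈ S, m v with hM
  have hMv : ((M : 𝓞 k) : k) = ((∏ u ∈ S.erase v, m u : 𝓞 k) : k) * (m v : k) := by
    have h4 : M = (∏ u ∈ S.erase v, m u) * m v := (Finset.prod_erase_mul S m hv).symm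
    rw [h4]
    exact map_mul (algebraMap (𝓞 k) k) _ _
  refine ⟨A (M : k) * z, A (M : k) * w, ?_, ?_, ?_⟩
  · rw [hMv, map_mul A, mul_assoc]
    exact p21_mul_le (p21_int v _) h1
  · rw [hMv, map_mul A, mul_assoc]
    exact p21_mul_le (p21_int v _) h2
  · have h4 : ((c * M ^ 2 : 𝓞 k) : k) = (c : k) * (M : k) ^ 2 := by
      have h5 : algebraMap (𝓞 k) k (c * M ^ 2) = algebraMap (𝓞 k) k c * algebraMap (𝓞 k) k M ^ 2 := by
        rw [map_mul, map_pow]
      exact h5
    rw [h4, map_mul, map_pow, h3]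
    ring

/-- an integer of `k` close to an integral element of the completion -/
private theorem p21_near (v : HeightOneSpectrum (𝓞 k)) (z : v.adicCompletion k)
    (hz : (Valued.v z : WithZero (Multiplicative ℤ)) ≤ 1) (N : ℕ) :
    ∃ a : 𝓞 k, (Valued.v (z - algebraMap k (v.adicCompletion k) (a : k)) :
      WithZero (Multiplicative ℤ)) ≤ WithZero.exp (-(N : ℤ)) := by
  obtain ⟨y, hy⟩ := exists_approx v z N
  have hN : WithZero.exp (-(N : ℤ)) ≤ (1 : WithZero (Multiplicative ℤ)) := by
    rw [← WithZero.exp_zero, WithZero.exp_le_exp]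
    omega
  have hy1 : v.valuation k y ≤ 1 := by
    rw [← val_alg]
    have h1 : algebraMap k (v.adicCompletion k) y =
        z - (z - algebraMap k (v.adicCompletion k) y) := by ring
    rw [h1]
    exact (Valuation.map_sub _ _ _).trans (max_le hz (hy.trans hN))
  obtain ⟨a, ha⟩ := HeightOneSpectrum.exists_valuation_sub_lt_of_integer v hy1
    (Units.mk0 (WithZero.exp (-(N : ℤ))) WithZero.exp_ne_zero)
  refine ⟨a, ?_⟩
  have h2 : z - algebraMap k (v.adicCompletion k) (a : k) =
      (z - algebraMap k (v.adicCompletion k) y) -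
        algebraMap k (v.adicCompletion k) ((a : k) - y) := by
    rw [map_sub]
    ring
  rw [h2]
  refine (Valuation.map_sub _ _ _).trans (max_le hy ?_)
  rw [val_alg]
  exact ha.le

theorem approx_int (S : Finset (HeightOneSpectrum (𝓞 k))) (x c : 𝓞 k)
    (hloc : ∀ v ∈ S, ∃ z w : v.adicCompletion k,
      (Valued.v z : WithZero (Multiplicative ℤ)) ≤ 1 ∧ (Valued.v w : WithZero (Multiplicative ℤ)) ≤ 1 ∧
      algebraMap k (v.adicCompletion k) (c : k) =
        z ^ 2 - algebraMap k (v.adicCompletion k) (x : k) * w ^ 2) (N : ℕ) :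
    ∃ z w : 𝓞 k, z ^ 2 - x * w ^ 2 - c ∈ (∏ v ∈ S, v.asIdeal) ^ N := by
  classical
  choose Z W hZ hW hZW using hloc
  choose a ha using fun (v : HeightOneSpectrum (𝓞 k)) (hv : v ∈ S) => p21_near v (Z v hv) (hZ v hv) N
  choose b hb using fun (v : HeightOneSpectrum (𝓞 k)) (hv : v ∈ S) => p21_near v (W v hv) (hW v hv) N
  have hpr : ∀ v ∈ S, Prime (v : HeightOneSpectrum (𝓞 k)).asIdeal := fun v _ => v.prime
  have hco : ∀ᵉ (v ∈ S) (u ∈ S), v ≠ u →
      (v : HeightOneSpectrum (𝓞 k)).asIdeal ≠ (u : HeightOneSpectrum (𝓞 k)).asIdeal :=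
    fun v _ u _ h h' => h (HeightOneSpectrum.ext h')
  obtain ⟨z, hz⟩ := IsDedekindDomain.exists_forall_sub_mem_ideal (s := S)
    (fun v : HeightOneSpectrum (𝓞 k) => v.asIdeal) (fun _ => N) hpr hco (fun v => a v.1 v.2)
  obtain ⟨w, hw⟩ := IsDedekindDomain.exists_forall_sub_mem_ideal (s := S)
    (fun v : HeightOneSpectrum (𝓞 k) => v.asIdeal) (fun _ => N) hpr hco (fun v => b v.1 v.2)
  refine ⟨z, w, ?_⟩
  rw [← Finset.prod_pow, ← IsDedekindDomain.inf_pow_eq_prod_of_prime S
    (fun v : HeightOneSpectrum (𝓞 k) => v.asIdeal) (fun _ => N) hpr hco, Submodule.mem_finsetInf]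
  intro v hv
  show _ ∈ v.asIdeal ^ N
  rw [← HeightOneSpectrum.intValuation_le_pow_iff_mem,
    ← HeightOneSpectrum.valuation_of_algebraMap (K := k), ← val_alg]
  have hclose : ∀ (r s : 𝓞 k) (X : v.adicCompletion k), r - s ∈ v.asIdeal ^ N →
      (Valued.v (X - algebraMap k (v.adicCompletion k) (s : k)) : WithZero (Multiplicative ℤ)) ≤
        WithZero.exp (-(N : ℤ)) →
      (Valued.v (algebraMap k (v.adicCompletion k) (r : k) - X) : WithZero (Multiplicative ℤ)) ≤
        WithZero.exp (-(N : ℤ)) := by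
    intro r s X h1 h2
    rw [← HeightOneSpectrum.intValuation_le_pow_iff_mem,
      ← HeightOneSpectrum.valuation_of_algebraMap (K := k), ← val_alg] at h1
    have h0 : algebraMap k (v.adicCompletion k) (algebraMap (𝓞 k) k (r - s)) =
        algebraMap k (v.adicCompletion k) (r : k) - algebraMap k (v.adicCompletion k) (s : k) := by
      have h6 : algebraMap (𝓞 k) k (r - s) = (r : k) - (s : k) := map_sub (algebraMap (𝓞 k) k) r s
      rw [h6, map_sub]
    have h1' : (Valued.v (algebraMap k (v.adicCompletion k) (r : k) -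
        algebraMap k (v.adicCompletion k) (s : k)) : WithZero (Multiplicative ℤ)) ≤
        WithZero.exp (-(N : ℤ)) := by
      rw [← h0]
      exact h1
    have h3 : algebraMap k (v.adicCompletion k) (r : k) - X =
        (algebraMap k (v.adicCompletion k) (r : k) - algebraMap k (v.adicCompletion k) (s : k)) -
          (X - algebraMap k (v.adicCompletion k) (s : k)) := by ring
    rw [h3]
    exact (Valuation.map_sub _ _ _).trans (max_le h1' h2)
  have h1 := hclose z (a v hv) (Z v hv) (hz v hv) (ha v hv)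
  have h2 := hclose w (b v hv) (W v hv) (hw v hv) (hb v hv)
  have hsq : ∀ (r : 𝓞 k) (X : v.adicCompletion k),
      (Valued.v X : WithZero (Multiplicative ℤ)) ≤ 1 →
      (Valued.v (algebraMap k (v.adicCompletion k) (r : k) - X) : WithZero (Multiplicative ℤ)) ≤
        WithZero.exp (-(N : ℤ)) →
      (Valued.v (algebraMap k (v.adicCompletion k) (r : k) ^ 2 - X ^ 2) :
        WithZero (Multiplicative ℤ)) ≤ WithZero.exp (-(N : ℤ)) := by
    intro r X hX h
    exact (val_pow_sub_pow_le Valued.v (p21_int v r) hX 2).trans h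
  have h3 := hsq z (Z v hv) (hZ v hv) h1
  have h4 := hsq w (W v hv) (hW v hv) h2
  have h5 : algebraMap k (v.adicCompletion k) (algebraMap (𝓞 k) k (z ^ 2 - x * w ^ 2 - c)) =
      (algebraMap k (v.adicCompletion k) (z : k) ^ 2 - Z v hv ^ 2) -
        algebraMap k (v.adicCompletion k) (x : k) *
          (algebraMap k (v.adicCompletion k) (w : k) ^ 2 - W v hv ^ 2) := by
    have h6 : algebraMap (𝓞 k) k (z ^ 2 - x * w ^ 2 - c) =
        (z : k) ^ 2 - (x : k) * (w : k) ^ 2 - (c : k) := by
      rw [map_sub, map_sub, map_mul, map_pow, map_pow]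
    rw [h6, map_sub, map_sub, map_mul, map_pow, map_pow, hZW v hv]
    ring
  rw [h5]
  refine (Valuation.map_sub _ _ _).trans (max_le h3 ?_)
  rw [map_mul]
  exact (mul_le_of_le_one_left' (p21_int v x)).trans h4

end Pool.Agent.Lib.MP_2f3286_ag.UA
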