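import Pool.Agent.Lib.MP_2f3286_ag.UA.P10
import Pool.Agent.Lib.MP_2f3286_ag.UA.P11
import Pool.Agent.Lib.MP_2f3286_ag.UA.P21

/-!
# P22: the part at `S`

Text. `I = ∏ v ∈ S, v.asIdeal`. `m` from `scale_int` (P21), `c₁ = c m ^ 2`. `N₁`, `N₂` from `G11` (P11) for `c₁` and for `x c₁`; `N₃` with `c₁ ∉ v₀.asIdeal ^ N₃` for one `v₀ ∈ S`
(`S` is not empty: some place contains `2`, as `2` is not a unit: hypothesis `hS`; `⨅ v₀ ^ n = ⊥` or the valuation of `c₁`). `N = max`. `approx_int`: `z, w` with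
`c' = z ^ 2 - x w ^ 2`, `c' - c₁ ∈ I ^ N`, so `c' ≠ 0` (`I ^ N ≤ v₀ ^ N₃`). `G11`: `gs I c' = gs I c₁`, `gs I (x c') = gs I (x c₁)`. `G7` (P10):
`gs I c' * gs I (x c') = n (gs I 1 * gs I x)`. `G6` (P07): `gs I c₁ = n' gs I c`, `gs I (x c₁) = n'' gs I (x c)`. So `gs I c * gs I (x c)` is a positive multiple of
`gs I 1 * gs I x`, and the product of both is a positive multiple of a nonzero real square (`gs_real` (P08), `hne`).
-/

open NumberField IsDedekindDomain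

namespace Pool.Agent.Lib.MP_2f3286_ag.UA

variable {k : Type*} [Field k] [NumberField k]

theorem S_part (i : k) (hi : i ^ 2 = -1) (S : Finset (HeightOneSpectrum (𝓞 k)))
    (hS : S.Nonempty) (hne : ∀ c : 𝓞 k, c ≠ 0 → gs (∏ v ∈ S, v.asIdeal) c ≠ 0) (x c : 𝓞 k)
    (hx : x ≠ 0) (hc : c ≠ 0) (hloc : ∀ v ∈ S, NormAt v (x : k) (c : k)) :
    Pos ((gs (∏ v ∈ S, v.asIdeal) 1 * gs (∏ v ∈ S, v.asIdeal) x) *
      (gs (∏ v ∈ S, v.asIdeal) c * gs (∏ v ∈ S, v.asIdeal) (x * c))) := by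
  classical
  obtain ⟨m, hm0, hm⟩ := scale_int S x c hloc
  set I : Ideal (𝓞 k) := ∏ v ∈ S, v.asIdeal with hI
  have hc1 : c * m ^ 2 ≠ 0 := mul_ne_zero hc (pow_ne_zero 2 hm0)
  have hxc1 : x * (c * m ^ 2) ≠ 0 := mul_ne_zero hx hc1
  obtain ⟨N1, h1⟩ := G11 I (c * m ^ 2) hc1
  obtain ⟨N2, h2⟩ := G11 I (x * (c * m ^ 2)) hxc1
  have hItop : I ≠ ⊤ := by
    obtain ⟨v, hv⟩ := hS
    intro h
    have h3 : I ≤ v.asIdeal := Ideal.dvd_iff_le.1 (Finset.dvd_prod_of_mem _ hv)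
    rw [h] at h3
    exact v.isPrime.ne_top (top_le_iff.1 h3)
  have hinf := Ideal.iInf_pow_eq_bot_of_isDomain I hItop
  have h3 : ∃ N3 : ℕ, c * m ^ 2 ∉ I ^ N3 := by
    by_contra hcon
    push Not at hcon
    have h4 : c * m ^ 2 ∈ ⨅ n : ℕ, I ^ n := (Submodule.mem_iInf _).2 hcon
    rw [hinf] at h4
    exact hc1 ((Submodule.mem_bot _).1 h4)
  obtain ⟨N3, h3⟩ := h3
  obtain ⟨z, w, h4⟩ := approx_int S x (c * m ^ 2) hm (N1 + N2 + N3)
  rw [← hI] at h4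
  have hc' : z ^ 2 - x * w ^ 2 ≠ 0 := by
    intro h
    rw [h, zero_sub] at h4
    have h5 := Ideal.pow_le_pow_right (show N3 ≤ N1 + N2 + N3 by omega) h4
    exact h3 (neg_mem_iff.1 h5)
  have e1 : gs I (z ^ 2 - x * w ^ 2) = gs I (c * m ^ 2) :=
    h1 _ hc' (Ideal.pow_le_pow_right (by omega) h4)
  have e2 : gs I (x * (z ^ 2 - x * w ^ 2)) = gs I (x * (c * m ^ 2)) := by
    refine h2 _ (mul_ne_zero hx hc') ?_
    rw [← mul_sub]
    exact Ideal.mul_mem_left _ x (Ideal.pow_le_pow_right (by omega) h4)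
  obtain ⟨n0, hn0, e3⟩ := G7 i hi I x z w hx hc'
  obtain ⟨n1, hn1, e4⟩ := G6 I c m hc hm0
  obtain ⟨n2, hn2, e5⟩ := G6 I (x * c) m (mul_ne_zero hx hc) hm0
  have e6 : x * (c * m ^ 2) = x * c * m ^ 2 := by ring
  rw [e1, e2, e4, e6, e5] at e3
  obtain ⟨r1, hr1⟩ := gs_real i hi I 1 one_ne_zero
  obtain ⟨r2, hr2⟩ := gs_real i hi I x hx
  have k1 := hne 1 one_ne_zero
  have k2 := hne x hx
  have hr0 : r1 * r2 ≠ 0 := by
    intro h
    rcases mul_eq_zero.1 h with h | h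
    · rw [hr1, h] at k1
      exact k1 rfl
    · rw [hr2, h] at k2
      exact k2 rfl
  have hpos : Pos ((gs I 1 * gs I x) * (gs I 1 * gs I x)) :=
    ⟨(r1 * r2) * (r1 * r2), mul_self_pos.2 hr0, by rw [hr1, hr2]; push_cast; ring⟩
  refine Pos.of_mul (z := ((n1 * n2 : ℕ) : ℂ)) (Pos.nat (Nat.mul_pos hn1 hn2)) ?_
  have e7 : ((n1 * n2 : ℕ) : ℂ) * ((gs I 1 * gs I x) * (gs I c * gs I (x * c))) =
      (n0 : ℂ) * ((gs I 1 * gs I x) * (gs I 1 * gs I x)) := by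
    push_cast
    linear_combination (gs I 1 * gs I x) * e3
  rw [e7]
  exact (Pos.nat hn0).mul hpos

end Pool.Agent.Lib.MP_2f3286_ag.UA
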