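import Pool.Agent.Lib.MP_2f3286_ag.UA.DI
import Pool.Agent.Lib.MP_2f3286_ag.UA.P19
import Pool.Agent.Lib.MP_2f3286_ag.UA.P20
import Pool.Agent.Lib.MP_2f3286_ag.UA.P22

/-!
# P23: the product formula for integers, and in general

Text. `pf_int`: `F` = union of the four finite sets of `gs_total_finset` (P09) for `1`, `x`, `c`, `x c`, `T = S ∪ F ∪ {v : ordv v c ≠ 0}` (`finite_ord` of DI, or the places containing `c`).
With `F_v = (gs v 1 * gs v x) * (gs v c * gs v (x c))`: `∏ v ∈ T, F_v` is positive (`gs_prod` (P20), `gs_total_finset`), `∏ v ∈ S, F_v` is positive (`S_part` (P22) with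
`gs_ne_zero` (P09), `gs_prod`), so `∏ v ∈ T \ S, F_v` is positive (`Pos.of_mul`, `Finset.prod_sdiff`). `local_sign` (P19): `ε_v F_v` positive for `v ∈ T \ S`, `ε_v = -1` iff
`ordv v c` odd and `x` not a square at `v`. So `∏ ε_v = (-1) ^ (number)` is positive: the number is even (`Finset.prod_ite`, `Even` iff `(-1) ^ n = 1`). The set of
the statement is the set of `v ∈ T \ S` with `ε_v = -1` (`ordv v c` odd implies `v ∈ T`): `Set.ncard_coe_finset`.
`S` is not empty: a maximal ideal containing `2` (`2` is not a unit of `𝓞 k`) is a place of `S`.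
`product_formula`: `x = x₁ / m ^ 2`, `c = c₁ / m ^ 2` with integers `x₁, c₁, m ≠ 0` (`x = a / b = a b / b ^ 2`, take `m = b b'`). `ordv v x` and `ordv v x₁` have the same parity,
`SqAt v x ↔ SqAt v x₁`, `NormAt v x c → NormAt v x₁ c₁` (`c₁ = (m z) ^ 2 - x₁ w ^ 2`).
-/

open NumberField IsDedekindDomain

namespace Pool.Agent.Lib.MP_2f3286_ag.UA

variable {k : Type*} [Field k] [NumberField k]

theorem p23_pos_prod {ι : Type*} (s : Finset ι) (f : ι → ℂ) (h : ∀ v ∈ s, Pos (f v)) :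
    Pos (∏ v ∈ s, f v) :=
  Finset.prod_induction f Pos (fun _ _ => Pos.mul) ⟨1, one_pos, by push_cast; rfl⟩ h

theorem p23_even_of_pos {n : ℕ} (h : Pos ((-1 : ℂ) ^ n)) : Even n := by
  by_contra hn
  rw [Nat.not_even_iff_odd] at hn
  rw [hn.neg_one_pow] at h
  obtain ⟨r, hr, h1⟩ := h
  have h2 : ((-1 : ℝ) : ℂ) = (r : ℂ) := by
    rw [← h1]
    push_cast
    rfl
  have h3 : (-1 : ℝ) = r := by exact_mod_cast h2
  linarith

theorem p23_two_place (k : Type*) [Field k] [NumberField k] :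
    ∃ v : HeightOneSpectrum (𝓞 k), (2 : 𝓞 k) ∈ v.asIdeal := by
  have h2 : ¬ IsUnit (2 : 𝓞 k) := by
    intro h
    have h1 : IsUnit (Algebra.norm ℤ (2 : 𝓞 k)) := h.map _
    have h3 : Algebra.norm ℤ (2 : 𝓞 k) = 2 ^ Module.finrank ℤ (𝓞 k) := by
      have := Algebra.norm_algebraMap_of_basis (RingOfIntegers.basis k) (2 : ℤ)
      rw [Module.finrank_eq_card_basis (RingOfIntegers.basis k), ← this]
      simp
    rw [h3, isUnit_pow_iff] at h1
    · exact absurd h1 (by decide)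
    · exact (Module.finrank_pos (R := ℤ) (M := 𝓞 k)).ne'
  obtain ⟨P, hP, h2P⟩ := exists_max_ideal_of_mem_nonunits h2
  refine ⟨⟨P, hP.isPrime, ?_⟩, h2P⟩
  rintro rfl
  exact two_ne_zero ((Submodule.mem_bot _).1 h2P)

theorem pf_int (i : k) (hi : i ^ 2 = -1) (S : Finset (HeightOneSpectrum (𝓞 k)))
    (hS : ∀ v : HeightOneSpectrum (𝓞 k), (2 : 𝓞 k) ∈ v.asIdeal → v ∈ S) (x c : 𝓞 k) (hx : x ≠ 0)
    (hc : c ≠ 0) (hev : ∀ v : HeightOneSpectrum (𝓞 k), v ∉ S → Even (ordv v (x : k)))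
    (hloc : ∀ v ∈ S, NormAt v (x : k) (c : k)) :
    Even {v : HeightOneSpectrum (𝓞 k) | v ∉ S ∧ Odd (ordv v (c : k)) ∧ ¬ SqAt v (x : k)}.ncard := by
  classical
  have hxc : x * c ≠ 0 := mul_ne_zero hx hc
  have hck : (c : k) ≠ 0 := fun h => hc (RingOfIntegers.ext h)
  obtain ⟨F1, hF1⟩ := gs_total_finset i hi (1 : 𝓞 k) one_ne_zero
  obtain ⟨F2, hF2⟩ := gs_total_finset i hi x hx
  obtain ⟨F3, hF3⟩ := gs_total_finset i hi c hc
  obtain ⟨F4, hF4⟩ := gs_total_finset i hi (x * c) hxc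
  let G : Finset (HeightOneSpectrum (𝓞 k)) := (finite_ord (c : k) hck).toFinset
  let T : Finset (HeightOneSpectrum (𝓞 k)) := S ∪ F1 ∪ F2 ∪ F3 ∪ F4 ∪ G
  have hST : S ⊆ T := by
    intro v hv
    simp only [T, Finset.mem_union]
    tauto
  have hT1 : F1 ⊆ T := by
    intro v hv
    simp only [T, Finset.mem_union]
    tauto
  have hT2 : F2 ⊆ T := by
    intro v hv
    simp only [T, Finset.mem_union]
    tauto
  have hT3 : F3 ⊆ T := by
    intro v hv
    simp only [T, Finset.mem_union]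
    tauto
  have hT4 : F4 ⊆ T := by
    intro v hv
    simp only [T, Finset.mem_union]
    tauto
  have hT5 : G ⊆ T := by
    intro v hv
    simp only [T, Finset.mem_union]
    tauto
  let f : HeightOneSpectrum (𝓞 k) → ℂ := fun v =>
    (gs v.asIdeal 1 * gs v.asIdeal x) * (gs v.asIdeal c * gs v.asIdeal (x * c))
  have hprod : ∀ U : Finset (HeightOneSpectrum (𝓞 k)), ∏ v ∈ U, f v =
      (gs (∏ v ∈ U, v.asIdeal) 1 * gs (∏ v ∈ U, v.asIdeal) x) *
      (gs (∏ v ∈ U, v.asIdeal) c * gs (∏ v ∈ U, v.asIdeal) (x * c)) := by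
    intro U
    rw [gs_prod U 1 one_ne_zero, gs_prod U x hx, gs_prod U c hc, gs_prod U (x * c) hxc]
    simp only [f, Finset.prod_mul_distrib]
  have hTpos : Pos (∏ v ∈ T, f v) := by
    rw [hprod]
    exact ((hF1 T hT1).mul (hF2 T hT2)).mul ((hF3 T hT3).mul (hF4 T hT4))
  have hSne : S.Nonempty := by
    obtain ⟨v, hv⟩ := p23_two_place k
    exact ⟨v, hS v hv⟩
  have hSpos : Pos (∏ v ∈ S, f v) := by
    rw [hprod]
    exact S_part i hi S hSne (fun c' hc' => gs_ne_zero i hi _ c' hc') x c hx hc hloc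
  have hD : Pos (∏ v ∈ T \ S, f v) := by
    refine hSpos.of_mul ?_
    rw [mul_comm, Finset.prod_sdiff hST]
    exact hTpos
  let p : HeightOneSpectrum (𝓞 k) → Prop := fun v => Odd (ordv v (c : k)) ∧ ¬ SqAt v (x : k)
  let ε : HeightOneSpectrum (𝓞 k) → ℂ := fun v => if p v then -1 else 1
  have hε : ∀ v ∈ T \ S, Pos (ε v * f v) := by
    intro v hv
    have hvS : v ∉ S := (Finset.mem_sdiff.1 hv).2
    have hv2 : (2 : 𝓞 k) ∉ v.asIdeal := fun h => hvS (hS v h)
    have h1 := local_sign i hi hv2 (fun c' hc' => gs_ne_zero i hi _ c' hc') x c hx hc (hev v hvS)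
    by_cases hp : p v
    · have e : ε v = -1 := if_pos hp
      rw [e]
      rw [if_pos hp] at h1
      exact h1
    · have e : ε v = 1 := if_neg hp
      rw [e]
      rw [if_neg hp] at h1
      exact h1
  have hE : Pos (∏ v ∈ T \ S, ε v) := by
    refine hD.of_mul ?_
    have h1 := p23_pos_prod _ _ hε
    rw [Finset.prod_mul_distrib] at h1
    rwa [mul_comm]
  have hcount : ∏ v ∈ T \ S, ε v = (-1) ^ ((T \ S).filter p).card := by
    simp only [ε]
    rw [Finset.prod_ite, Finset.prod_const, Finset.prod_const_one, mul_one]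
  rw [hcount] at hE
  have hset : {v : HeightOneSpectrum (𝓞 k) | v ∉ S ∧ Odd (ordv v (c : k)) ∧ ¬ SqAt v (x : k)} =
      ((T \ S).filter p : Finset (HeightOneSpectrum (𝓞 k))) := by
    ext v
    rw [Set.mem_setOf_eq, Finset.mem_coe, Finset.mem_filter, Finset.mem_sdiff]
    constructor
    · rintro ⟨h1, h2, h3⟩
      refine ⟨⟨hT5 ?_, h1⟩, h2, h3⟩
      rw [Set.Finite.mem_toFinset, Set.mem_setOf_eq]
      intro h0
      rw [h0] at h2
      exact absurd h2 (by decide)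
    · rintro ⟨⟨-, h1⟩, h2, h3⟩
      exact ⟨h1, h2, h3⟩
  rw [hset, Set.ncard_coe_finset]
  exact p23_even_of_pos hE

/-- **PF'** -/
theorem product_formula (i : k) (hi : i ^ 2 = -1) (S : Finset (HeightOneSpectrum (𝓞 k)))
    (hS : ∀ v : HeightOneSpectrum (𝓞 k), (2 : 𝓞 k) ∈ v.asIdeal → v ∈ S) (x c : k) (hx : x ≠ 0)
    (hc : c ≠ 0) (hev : ∀ v : HeightOneSpectrum (𝓞 k), v ∉ S → Even (ordv v x))
    (hloc : ∀ v ∈ S, NormAt v x c) :
    Even {v : HeightOneSpectrum (𝓞 k) | v ∉ S ∧ Odd (ordv v c) ∧ ¬ SqAt v x}.ncard := by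
  obtain ⟨a, b, hb, hab⟩ := IsFractionRing.div_surjective (A := 𝓞 k) x
  obtain ⟨a', b', hb', hab'⟩ := IsFractionRing.div_surjective (A := 𝓞 k) c
  have hb0 : algebraMap (𝓞 k) k b ≠ 0 := by
    rw [Ne, FaithfulSMul.algebraMap_eq_zero_iff]
    exact nonZeroDivisors.ne_zero hb
  have hb0' : algebraMap (𝓞 k) k b' ≠ 0 := by
    rw [Ne, FaithfulSMul.algebraMap_eq_zero_iff]
    exact nonZeroDivisors.ne_zero hb'
  obtain ⟨m, hm⟩ : ∃ m : k, m = algebraMap (𝓞 k) k b * algebraMap (𝓞 k) k b' := ⟨_, rfl⟩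
  have hm0 : m ≠ 0 := by
    rw [hm]
    exact mul_ne_zero hb0 hb0'
  have hx1 : algebraMap (𝓞 k) k (a * b * b' ^ 2) = x * m ^ 2 := by
    rw [hm, ← hab]
    simp only [map_mul, map_pow]
    field_simp
  have hc1 : algebraMap (𝓞 k) k (a' * b' * b ^ 2) = c * m ^ 2 := by
    rw [hm, ← hab']
    simp only [map_mul, map_pow]
    field_simp
  have hord : ∀ (v : HeightOneSpectrum (𝓞 k)) (y : k), y ≠ 0 →
      ordv v (y * m ^ 2) = ordv v y + 2 * ordv v m := by
    intro v y hy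
    rw [ordv_mul v hy (pow_ne_zero 2 hm0), ordv_pow]
    push_cast
    ring
  have hsq : ∀ (v : HeightOneSpectrum (𝓞 k)) (y : k), SqAt v (y * m ^ 2) ↔ SqAt v y := by
    intro v y
    unfold SqAt
    rw [map_mul, map_pow]
    have hm1 := alg_ne_zero v hm0
    constructor
    · rintro ⟨r, hr⟩
      refine ⟨r / algebraMap k (v.adicCompletion k) m, ?_⟩
      field_simp
      rw [hr]
      ring
    · rintro ⟨r, hr⟩
      exact ⟨r * algebraMap k (v.adicCompletion k) m, by rw [hr]; ring⟩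
  have key := pf_int i hi S hS (a * b * b' ^ 2) (a' * b' * b ^ 2)
    (by
      intro h0
      rw [h0, map_zero] at hx1
      exact mul_ne_zero hx (pow_ne_zero 2 hm0) hx1.symm)
    (by
      intro h0
      rw [h0, map_zero] at hc1
      exact mul_ne_zero hc (pow_ne_zero 2 hm0) hc1.symm)
    (by
      intro v hv
      show Even (ordv v (algebraMap (𝓞 k) k (a * b * b' ^ 2)))
      rw [hx1, hord v x hx]
      exact (hev v hv).add ⟨ordv v m, by ring⟩)
    (by
      intro v hv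
      show NormAt v (algebraMap (𝓞 k) k (a * b * b' ^ 2)) (algebraMap (𝓞 k) k (a' * b' * b ^ 2))
      rw [hx1, hc1]
      obtain ⟨z, w, hzw⟩ := hloc v hv
      refine ⟨z * algebraMap k (v.adicCompletion k) m, w, ?_⟩
      rw [map_mul, map_mul, map_pow, hzw]
      ring)
  have hset : {v : HeightOneSpectrum (𝓞 k) | v ∉ S ∧ Odd (ordv v c) ∧ ¬ SqAt v x} =
      {v : HeightOneSpectrum (𝓞 k) | v ∉ S ∧
        Odd (ordv v (algebraMap (𝓞 k) k (a' * b' * b ^ 2))) ∧
        ¬ SqAt v (algebraMap (𝓞 k) k (a * b * b' ^ 2))} := by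
    ext v
    rw [Set.mem_setOf_eq, Set.mem_setOf_eq, hx1, hc1, hsq, hord v c hc]
    have h1 : Odd (ordv v c + 2 * ordv v m) ↔ Odd (ordv v c) := by
      constructor
      · rintro ⟨r, hr⟩
        exact ⟨r - ordv v m, by omega⟩
      · rintro ⟨r, hr⟩
        exact ⟨r + ordv v m, by omega⟩
    rw [h1]
  rw [hset]
  exact key

end Pool.Agent.Lib.MP_2f3286_ag.UA
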