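import Pool.Agent.Lib.MP_2f3286_ag.UA.EP
import Pool.Agent.Lib.MP_2f3286_ag.UA.DJ
import Pool.Agent.Lib.MP_2f3286_ag.UA.P23
import Pool.Agent.Lib.MP_2f3286_ag.UA.CDef

/-!
# C10: (C4), an `S`-unit which is a square at all places of `S` is a square

Text. `normAt_of_sq`: `x = y ^ 2` in the completion, `y ≠ 0`: `c = ((c + 1) / 2) ^ 2 - x ((c - 1) / (2 y)) ^ 2`.
`sqAt_of_PS`: `v ∉ S`, `a` from `Big S` for `v` (order one at `v`, zero at all other places outside `S`). `product_formula` (P23) for `x` and `c = a`: the orders of `x` outside `S` are `0`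
(`ordv_US` in EP), `normAt_of_sq` at `S`. The set of the statement is `{v}` if `x` is not a square at `v` (`ncard = 1`, odd): so `x` is a square at `v`.
`C4`: if `x` is not the square of an `S`-unit: `exists_char` (DJ) for `G = US S`, `H = sqG`: `ψ` with `ψ x = -1`, so `ψ ≠ 1`, `exists_prime` (EP) gives `v ∉ S` with
`ψ x = 1 ↔ SqAt v x`: contradiction with `sqAt_of_PS`.
-/

open NumberField IsDedekindDomain

namespace Pool.Agent.Lib.MP_2f3286_ag.UA

variable {k : Type*} [Field k] [NumberField k]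

theorem normAt_of_sq {v : HeightOneSpectrum (𝓞 k)} {x : k} (hx : x ≠ 0) (h : SqAt v x) (c : k) :
    NormAt v x c := by
  have : CharZero (v.adicCompletion k) := charZero_of_injective_algebraMap
    (FaithfulSMul.algebraMap_injective k (v.adicCompletion k))
  obtain ⟨y, hy⟩ := h
  have hx0 : algebraMap k (v.adicCompletion k) x ≠ 0 := by
    rw [Ne, map_eq_zero]
    exact hx
  have hy0 : y ≠ 0 := by
    rintro rfl
    rw [mul_zero] at hy
    exact hx0 hy
  refine ⟨(algebraMap k (v.adicCompletion k) c + 1) / 2,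
    (algebraMap k (v.adicCompletion k) c - 1) / (2 * y), ?_⟩
  rw [hy]
  field_simp
  ring

theorem sqAt_of_PS (i : k) (hi : i ^ 2 = -1) (S : Finset (HeightOneSpectrum (𝓞 k))) (hS : Big S)
    (x : US S) (hx : (x : kˣ) ∈ PS S) (v : HeightOneSpectrum (𝓞 k)) (hv : v ∉ S) :
    SqAt v ((x : kˣ) : k) := by
  by_contra hsq
  obtain ⟨a, ha1, ha0, ha⟩ := hS.2 v hv
  have hE := product_formula i hi S hS.1 ((x : kˣ) : k) a (Units.ne_zero _) ha0
    (fun w hw => by rw [ordv_US x hw]; exact Even.zero)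
    (fun w hw => normAt_of_sq (Units.ne_zero _) (mem_PS.1 hx w hw) a)
  have hset : {w : HeightOneSpectrum (𝓞 k) | w ∉ S ∧ Odd (ordv w a) ∧
      ¬ SqAt w ((x : kˣ) : k)} = {v} := by
    ext w
    rw [Set.mem_singleton_iff]
    constructor
    · rintro ⟨hw, hodd, -⟩
      by_contra hne
      rw [ha w hw hne] at hodd
      exact absurd hodd (by decide)
    · rintro rfl
      exact ⟨hv, by rw [ha1]; exact odd_one, hsq⟩
  rw [hset, Set.ncard_singleton] at hE
  exact absurd hE (by decide)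

theorem C4 (i : k) (hi : i ^ 2 = -1) (S : Finset (HeightOneSpectrum (𝓞 k))) (hS : Big S)
    (x : US S) (hx : (x : kˣ) ∈ PS S) : x ∈ sqG (US S) := by
  by_contra hno
  obtain ⟨ψ, -, hψ⟩ := exists_char (sqG (US S)) (fun g => ⟨g, rfl⟩) x hno
  have hne : ψ ≠ 1 := by
    rintro rfl
    rw [MonoidHom.one_apply] at hψ
    exact absurd hψ (by decide)
  obtain ⟨v, hv, -, hiff⟩ := exists_prime S ∅ hS.1 ψ hne
  rw [(hiff x).2 (sqAt_of_PS i hi S hS x hx v hv)] at hψ
  exact absurd hψ (by decide)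

end Pool.Agent.Lib.MP_2f3286_ag.UA
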