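import Pool.Agent.Lib.MP_2f3286_ag.UA.E0
import Pool.Agent.Lib.MP_2f3286_ag.UA.CDef
import Pool.Agent.Lib.MP_2f3286_ag.UA.DI

/-!
# C11: the pairing of `kˣ` with the `S`-units

Text. `exists_chiv`: `χ x = if SqAt v x then 1 else -1`. For `x, y` in `US S` (units at `v`): if both are squares at `v`, so is `x y`; if exactly one is, `x y` is not; if none is, `x y` is a square
(`sq_or_sq_or_sq` in E0, `val_alg`, the valuation at `v ∉ S` is one).
`exists_F`: `F a = ∏ᶠ v : {v // v ∉ S}, (χ v) ^ (ordv v a)` in the commutative group `US S →* ℤˣ` (`χ v` chosen); multiplicative in `a` by `ordv_mul` (DA), `finprod_mul_distrib`, the supports are finite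
(`finite_ord` in DI). (Or: induction-free: let `Q(a, x)` be the set `{v | v ∉ S ∧ Odd (ordv v a) ∧ ¬ SqAt v x}`, a finite set; `F a x = (-1) ^ ncard Q(a, x)`. `Q(a b, x)` is the symmetric difference of `Q(a, x)` and
`Q(b, x)`, and `Q(a, x y)` that of `Q(a, x)` and `Q(a, y)`; the parity of the number of elements of a symmetric difference is the sum of the parities. `MonoidHom.mk'` twice.)
-/

open NumberField IsDedekindDomain

namespace Pool.Agent.Lib.MP_2f3286_ag.UA

variable {k : Type*} [Field k] [NumberField k]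

open scoped Classical in
/-- the sign: `1` for squares at `v` -/
private noncomputable def sgn (v : HeightOneSpectrum (𝓞 k)) (x : k) : ℤˣ :=
  if SqAt v x then 1 else -1

private theorem sgn_eq_one (v : HeightOneSpectrum (𝓞 k)) (x : k) : sgn v x = 1 ↔ SqAt v x := by
  unfold sgn
  split_ifs with h
  · simp [h]
  · simp [h]

private theorem sgn_mul (S : Finset (HeightOneSpectrum (𝓞 k)))
    (hS : ∀ v : HeightOneSpectrum (𝓞 k), (2 : 𝓞 k) ∈ v.asIdeal → v ∈ S)
    (v : HeightOneSpectrum (𝓞 k)) (hv : v ∉ S) (x y : US S) :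
    sgn v (((x * y : US S) : kˣ) : k) = sgn v ((x : kˣ) : k) * sgn v ((y : kˣ) : k) := by
  have hx : Valued.v (algebraMap k (v.adicCompletion k) ((x : kˣ) : k)) =
      (1 : WithZero (Multiplicative ℤ)) := by
    rw [val_alg]
    exact x.2 v hv
  have hy : Valued.v (algebraMap k (v.adicCompletion k) ((y : kˣ) : k)) =
      (1 : WithZero (Multiplicative ℤ)) := by
    rw [val_alg]
    exact y.2 v hv
  have h2 : (2 : 𝓞 k) ∉ v.asIdeal := fun h => hv (hS v h)
  have hxy : (((x * y : US S) : kˣ) : k) = ((x : kˣ) : k) * ((y : kˣ) : k) := by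
    rw [Subgroup.coe_mul, Units.val_mul]
  have hx0 : algebraMap k (v.adicCompletion k) ((x : kˣ) : k) ≠ 0 := alg_ne_zero v (Units.ne_zero _)
  have hy0 : algebraMap k (v.adicCompletion k) ((y : kˣ) : k) ≠ 0 := alg_ne_zero v (Units.ne_zero _)
  have hmul : SqAt v (((x : kˣ) : k) * ((y : kˣ) : k)) ↔
      IsSquare (algebraMap k (v.adicCompletion k) ((x : kˣ) : k) *
        algebraMap k (v.adicCompletion k) ((y : kˣ) : k)) := by
    unfold SqAt
    rw [map_mul]
  rw [hxy]
  unfold sgn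
  by_cases c1 : SqAt v ((x : kˣ) : k)
  · by_cases c2 : SqAt v ((y : kˣ) : k)
    · rw [if_pos c1, if_pos c2, if_pos (hmul.2 (IsSquare.mul c1 c2)), one_mul]
    · rw [if_pos c1, if_neg c2, if_neg, one_mul]
      intro h
      apply c2
      have h3 := (hmul.1 h).div (show IsSquare (algebraMap k (v.adicCompletion k) ((x : kˣ) : k)) from c1)
      rwa [mul_div_cancel_left₀ _ hx0] at h3
  · by_cases c2 : SqAt v ((y : kˣ) : k)
    · rw [if_neg c1, if_pos c2, if_neg, mul_one]
      intro h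
      apply c1
      have h3 := (hmul.1 h).div (show IsSquare (algebraMap k (v.adicCompletion k) ((y : kˣ) : k)) from c2)
      rwa [mul_div_cancel_right₀ _ hy0] at h3
    · rw [if_neg c1, if_neg c2, if_pos]
      · decide
      · rcases sq_or_sq_or_sq h2 _ _ hx hy with h | h | h
        · exact absurd h c1
        · exact absurd h c2
        · exact hmul.2 h

theorem exists_chiv (S : Finset (HeightOneSpectrum (𝓞 k)))
    (hS : ∀ v : HeightOneSpectrum (𝓞 k), (2 : 𝓞 k) ∈ v.asIdeal → v ∈ S)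
    (v : HeightOneSpectrum (𝓞 k)) (hv : v ∉ S) :
    ∃ χ : US S →* ℤˣ, ∀ x : US S, χ x = 1 ↔ SqAt v ((x : kˣ) : k) :=
  ⟨MonoidHom.mk' (fun x : US S => sgn v ((x : kˣ) : k)) fun x y => sgn_mul S hS v hv x y,
    fun _ => sgn_eq_one v _⟩

open scoped Classical in
/-- the factor at `v` -/
private noncomputable def fac (S : Finset (HeightOneSpectrum (𝓞 k))) (a : kˣ) (x : US S)
    (v : HeightOneSpectrum (𝓞 k)) : ℤˣ :=
  if v ∈ S then 1 else (sgn v ((x : kˣ) : k)) ^ (ordv v (a : k))

private theorem fac_supp (S : Finset (HeightOneSpectrum (𝓞 k))) (a : kˣ) (x : US S) :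
    (Function.mulSupport (fac S a x)).Finite := by
  refine (finite_ord (a : k) (Units.ne_zero a)).subset ?_
  intro v hv h0
  apply hv
  unfold fac
  rw [h0, zpow_zero, ite_self]

private theorem fac_mul_left (S : Finset (HeightOneSpectrum (𝓞 k))) (a b : kˣ) (x : US S)
    (v : HeightOneSpectrum (𝓞 k)) : fac S (a * b) x v = fac S a x v * fac S b x v := by
  unfold fac
  split_ifs with h
  · rw [one_mul]
  · rw [Units.val_mul, ordv_mul v (Units.ne_zero a) (Units.ne_zero b), zpow_add]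

private theorem fac_mul_right (S : Finset (HeightOneSpectrum (𝓞 k)))
    (hS : ∀ v : HeightOneSpectrum (𝓞 k), (2 : 𝓞 k) ∈ v.asIdeal → v ∈ S) (a : kˣ) (x y : US S)
    (v : HeightOneSpectrum (𝓞 k)) : fac S a (x * y) v = fac S a x v * fac S a y v := by
  unfold fac
  split_ifs with h
  · rw [one_mul]
  · rw [sgn_mul S hS v h, mul_zpow]

private theorem fac_eq (S : Finset (HeightOneSpectrum (𝓞 k))) (a : kˣ) (x : US S)
    (v : HeightOneSpectrum (𝓞 k)) :
    ((v ∉ S ∧ Odd (ordv v (a : k)) ∧ ¬ SqAt v ((x : kˣ) : k)) → fac S a x v = -1) ∧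
      (¬ (v ∉ S ∧ Odd (ordv v (a : k)) ∧ ¬ SqAt v ((x : kˣ) : k)) → fac S a x v = 1) := by
  unfold fac
  constructor
  · rintro ⟨h1, h2, h3⟩
    have h4 : sgn v ((x : kˣ) : k) = -1 :=
      (Int.units_eq_one_or _).resolve_left fun h => h3 ((sgn_eq_one v _).1 h)
    rw [if_neg h1, h4, h2.neg_one_zpow]
  · intro h
    split_ifs with h1
    · rfl
    · by_cases h3 : SqAt v ((x : kˣ) : k)
      · rw [(sgn_eq_one v _).2 h3, one_zpow]
      · have h2 : Even (ordv v (a : k)) := by
          rw [← Int.not_odd_iff_even]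
          exact fun h2 => h ⟨h1, h2, h3⟩
        have h4 : sgn v ((x : kˣ) : k) = -1 :=
          (Int.units_eq_one_or _).resolve_left fun h => h3 ((sgn_eq_one v _).1 h)
        rw [h4, h2.neg_one_zpow]

theorem exists_F (S : Finset (HeightOneSpectrum (𝓞 k)))
    (hS : ∀ v : HeightOneSpectrum (𝓞 k), (2 : 𝓞 k) ∈ v.asIdeal → v ∈ S) :
    ∃ F : kˣ →* (US S →* ℤˣ), ∀ (a : kˣ) (x : US S), F a x = 1 ↔
      Even {v : HeightOneSpectrum (𝓞 k) | v ∉ S ∧ Odd (ordv v (a : k)) ∧
        ¬ SqAt v ((x : kˣ) : k)}.ncard := by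
  refine ⟨MonoidHom.mk' (fun a : kˣ => MonoidHom.mk' (fun x : US S => ∏ᶠ v, fac S a x v) ?_) ?_, ?_⟩
  · intro x y
    rw [← finprod_mul_distrib (fac_supp S a x) (fac_supp S a y)]
    exact finprod_congr fun v => fac_mul_right S hS a x y v
  · intro a b
    ext1 x
    show ∏ᶠ v, fac S (a * b) x v = (∏ᶠ v, fac S a x v) * ∏ᶠ v, fac S b x v
    rw [← finprod_mul_distrib (fac_supp S a x) (fac_supp S b x)]
    exact finprod_congr fun v => fac_mul_left S a b x v
  · intro a x
    show ∏ᶠ v, fac S a x v = 1 ↔ _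
    obtain ⟨Q, hQ⟩ : ∃ Q, Q = {v : HeightOneSpectrum (𝓞 k) | v ∉ S ∧ Odd (ordv v (a : k)) ∧
        ¬ SqAt v ((x : kˣ) : k)} := ⟨_, rfl⟩
    rw [← hQ]
    have hfin : Q.Finite := by
      refine (finite_ord (a : k) (Units.ne_zero a)).subset ?_
      intro v hv
      rw [hQ] at hv
      intro h0
      have h1 := hv.2.1
      rw [h0] at h1
      exact absurd h1 (by decide)
    have h1 : ∏ᶠ v, fac S a x v = ∏ v ∈ hfin.toFinset, fac S a x v := by
      refine finprod_eq_prod_of_mulSupport_subset _ ?_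
      intro v hv
      rw [Set.Finite.coe_toFinset, hQ]
      by_contra h
      exact hv ((fac_eq S a x v).2 h)
    have h2 : ∏ v ∈ hfin.toFinset, fac S a x v = ∏ v ∈ hfin.toFinset, (-1 : ℤˣ) := by
      refine Finset.prod_congr rfl fun v hv => ?_
      rw [Set.Finite.mem_toFinset, hQ] at hv
      exact (fac_eq S a x v).1 hv
    rw [h1, h2, Finset.prod_const, Set.ncard_eq_toFinset_card Q hfin]
    exact neg_one_pow_eq_one_iff_even (by decide)

end Pool.Agent.Lib.MP_2f3286_ag.UA
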