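import Pool.Agent.Lib.MP_2f3286_ag.UA.C10
import Pool.Agent.Lib.MP_2f3286_ag.UA.C11

/-!
# C12: (C5), the pairing is trivial on `PS S` and `US S` and onto

Text. `F` as in `exists_F` (C11). `F_PS`: `a ∈ PS S`, `x ∈ US S`: `product_formula` (P23) for `x` and `c = a` (at `S`: `a` is a square `z ^ 2 = z ^ 2 - x 0 ^ 2`; outside `S` the orders of `x` are zero,
`ordv_US` in EP). `F_US`: the orders outside `S` are zero: the set is empty. `F_surj`: `ψ = 1`: `a = 1`. `ψ ≠ 1`: `v` from `exists_prime` (EP), `a` from `Big S`: the set is `{v}` if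
`x` is not a square at `v`, else empty: `F a x = 1 ↔ SqAt v x ↔ ψ x = 1`; two elements of `ℤˣ` are equal if they are `1` at the same time (`Int.units_eq_one_or`).
-/

open NumberField IsDedekindDomain

namespace Pool.Agent.Lib.MP_2f3286_ag.UA

variable {k : Type*} [Field k] [NumberField k]

theorem F_PS (i : k) (hi : i ^ 2 = -1) (S : Finset (HeightOneSpectrum (𝓞 k)))
    (hS : ∀ v : HeightOneSpectrum (𝓞 k), (2 : 𝓞 k) ∈ v.asIdeal → v ∈ S)
    (F : kˣ →* (US S →* ℤˣ)) (hF : ∀ (a : kˣ) (x : US S), F a x = 1 ↔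
      Even {v : HeightOneSpectrum (𝓞 k) | v ∉ S ∧ Odd (ordv v (a : k)) ∧
        ¬ SqAt v ((x : kˣ) : k)}.ncard) (a : kˣ) (ha : a ∈ PS S) : F a = 1 := by
  ext x : 1
  rw [MonoidHom.one_apply, hF]
  refine product_formula i hi S hS ((x : kˣ) : k) (a : k) (Units.ne_zero _) (Units.ne_zero _)
    (fun w hw => by rw [ordv_US x hw]; exact Even.zero) (fun w hw => ?_)
  obtain ⟨z, hz⟩ := mem_PS.1 ha w hw
  refine ⟨z, 0, ?_⟩
  rw [hz]
  ring

theorem F_US (S : Finset (HeightOneSpectrum (𝓞 k))) (F : kˣ →* (US S →* ℤˣ))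
    (hF : ∀ (a : kˣ) (x : US S), F a x = 1 ↔
      Even {v : HeightOneSpectrum (𝓞 k) | v ∉ S ∧ Odd (ordv v (a : k)) ∧
        ¬ SqAt v ((x : kˣ) : k)}.ncard) (a : kˣ) (ha : a ∈ US S) : F a = 1 := by
  ext x : 1
  rw [MonoidHom.one_apply, hF]
  have hset : {v : HeightOneSpectrum (𝓞 k) | v ∉ S ∧ Odd (ordv v (a : k)) ∧
      ¬ SqAt v ((x : kˣ) : k)} = ∅ := by
    ext w
    constructor
    · rintro ⟨hw, hodd, -⟩
      rw [ordv_US (⟨a, ha⟩ : US S) hw] at hodd
      exact absurd hodd (by decide)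
    · intro h
      exact absurd h (Set.notMem_empty w)
  rw [hset, Set.ncard_empty]
  exact Even.zero

theorem F_surj (S : Finset (HeightOneSpectrum (𝓞 k))) (hS : Big S) (F : kˣ →* (US S →* ℤˣ))
    (hF : ∀ (a : kˣ) (x : US S), F a x = 1 ↔
      Even {v : HeightOneSpectrum (𝓞 k) | v ∉ S ∧ Odd (ordv v (a : k)) ∧
        ¬ SqAt v ((x : kˣ) : k)}.ncard) : Function.Surjective F := by
  intro ψ
  by_cases hψ : ψ = 1
  · exact ⟨1, by rw [map_one, hψ]⟩
  obtain ⟨v, hv, -, hiff⟩ := exists_prime S ∅ hS.1 ψ hψ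
  obtain ⟨a, ha1, ha0, ha⟩ := hS.2 v hv
  refine ⟨Units.mk0 a ha0, ?_⟩
  ext x : 1
  have hkey : F (Units.mk0 a ha0) x = 1 ↔ ψ x = 1 := by
    rw [hF, hiff, Units.val_mk0]
    by_cases hsq : SqAt v ((x : kˣ) : k)
    · have hset : {w : HeightOneSpectrum (𝓞 k) | w ∉ S ∧ Odd (ordv w a) ∧
          ¬ SqAt w ((x : kˣ) : k)} = ∅ := by
        ext w
        constructor
        · rintro ⟨hw, hodd, hns⟩
          by_cases hwv : w = v
          · rw [hwv] at hns
            exact absurd hsq hns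
          · rw [ha w hw hwv] at hodd
            exact absurd hodd (by decide)
        · intro h
          exact absurd h (Set.notMem_empty w)
      rw [hset, Set.ncard_empty]
      exact ⟨fun _ => hsq, fun _ => Even.zero⟩
    · have hset : {w : HeightOneSpectrum (𝓞 k) | w ∉ S ∧ Odd (ordv w a) ∧
          ¬ SqAt w ((x : kˣ) : k)} = {v} := by
        ext w
        rw [Set.mem_singleton_iff]
        constructor
        · rintro ⟨hw, hodd, -⟩
          by_contra hne
          rw [ha w hw hne] at hodd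
          exact absurd hodd (by decide)
        · rintro rfl
          exact ⟨hv, by rw [ha1]; exact odd_one, hsq⟩
      rw [hset, Set.ncard_singleton]
      exact ⟨fun h => absurd h (by decide), fun h => absurd h hsq⟩
  rcases Int.units_eq_one_or (F (Units.mk0 a ha0) x) with h1 | h1
  · rw [h1, hkey.1 h1]
  · rcases Int.units_eq_one_or (ψ x) with h2 | h2
    · rw [hkey.2 h2, h2]
    · rw [h1, h2]

end Pool.Agent.Lib.MP_2f3286_ag.UA
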