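import Pool.Agent.Lib.MP_2f3286_ag.UA.CDef

/-!
# C13: characters of order two are as many as classes modulo squares

Text. `Q = G ⧸ sqG G` is a finite group of exponent two. Characters `G →* ℤˣ` correspond to characters of `Q` (`QuotientGroup.lift`, every character is `1` on squares: `u ^ 2 = 1` in
`ℤˣ`). `Additive Q` is a finite vector space over `ZMod 2` (`AddCommGroup.zmodModule`), its dual has the same number of elements (`Subspace.dual_finrank_eq`,
`card = 2 ^ finrank`: `Module.card_eq_pow_finrank`), and `ℤˣ ≃* Multiplicative (ZMod 2)`. Alternative: `CommGroup.card_monoidHom_of_hasEnoughRootsOfUnity`-like lemmas (Mathlib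
`Mathlib/GroupTheory/FiniteAbelian/Duality.lean`) with `ℤ` as target ring, exponent two. Only `≤` is needed (`(sqG G).index ≤ card`).
`index_sup`: `H = P ⊔ U`. `P.index = (P.relIndex H) * H.index` (`Subgroup.relIndex_mul_index`), `P.relIndex (P ⊔ U) = P.relIndex U` (`Subgroup.relIndex_sup_right`-like; commutative group), and
`P.relIndex U = (P.subgroupOf U).index = (sqG U).index` as `P.subgroupOf U = sqG U`: `≤` is the hypothesis, `≥`: `hsq`.
-/

namespace Pool.Agent.Lib.MP_2f3286_ag.UA

theorem card_chars {G : Type*} [CommGroup G] (h : (sqG G).index ≠ 0) :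
    Finite (G →* ℤˣ) ∧ (sqG G).index ≤ Nat.card (G →* ℤˣ) := by
  classical
  have hfi : (sqG G).FiniteIndex := ⟨h⟩
  have hfin : Finite (G ⧸ sqG G) := Subgroup.finite_quotient_of_finiteIndex
  have hexp : Monoid.exponent (G ⧸ sqG G) ∣ 2 := by
    rw [Monoid.exponent_dvd_iff_forall_pow_eq_one]
    intro q
    obtain ⟨g, rfl⟩ := QuotientGroup.mk_surjective q
    rw [← QuotientGroup.mk_pow, QuotientGroup.eq_one_iff]
    exact ⟨g, rfl⟩
  have hsq : ∀ u : ℤˣ, u ^ 2 = 1 := fun u => Int.units_sq u
  have hroots : HasEnoughRootsOfUnity ℤ 2 :=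
    { prim := ⟨-1, IsPrimitiveRoot.neg_one 0 (by norm_num)⟩
      cyc := inferInstance }
  have hroots' : HasEnoughRootsOfUnity ℤ (Monoid.exponent (G ⧸ sqG G)) :=
    HasEnoughRootsOfUnity.of_dvd ℤ hexp
  have hcard : Nat.card ((G ⧸ sqG G) →* ℤˣ) = Nat.card (G ⧸ sqG G) :=
    CommGroup.card_monoidHom_of_hasEnoughRootsOfUnity (G ⧸ sqG G) ℤ
  have hfin' : Finite ((G ⧸ sqG G) →* ℤˣ) := by
    apply Nat.finite_of_card_ne_zero
    rw [hcard]
    exact Nat.card_pos.ne'
  let e : ((G ⧸ sqG G) →* ℤˣ) → (G →* ℤˣ) := fun χ => χ.comp (QuotientGroup.mk' (sqG G))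
  have hinj : Function.Injective e := by
    intro χ ψ hχ
    apply MonoidHom.ext
    intro q
    obtain ⟨g, rfl⟩ := QuotientGroup.mk_surjective q
    exact DFunLike.congr_fun hχ g
  have hsurj : Function.Surjective e := by
    intro χ
    refine ⟨QuotientGroup.lift (sqG G) χ ?_, ?_⟩
    · rintro _ ⟨y, rfl⟩
      change χ (y ^ 2) = 1
      rw [map_pow, hsq]
    · apply MonoidHom.ext
      intro g
      rfl
  have hf : Finite (G →* ℤˣ) := Finite.of_surjective e hsurj
  refine ⟨hf, ?_⟩
  rw [Subgroup.index, ← hcard]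
  exact Nat.card_le_card_of_injective e hinj

theorem index_sup {G : Type*} [CommGroup G] (P U : Subgroup G)
    (h : ∀ x : U, (x : G) ∈ P ↔ x ∈ sqG U) :
    P.index = (sqG U).index * (P ⊔ U).index := by
  rw [← Subgroup.relIndex_mul_index (le_sup_left : P ≤ P ⊔ U)]
  congr 1
  rw [sup_comm, Subgroup.relIndex_sup_right]
  have : P.subgroupOf U = sqG U := by
    ext x
    rw [Subgroup.mem_subgroupOf]
    exact h x
  rw [Subgroup.relIndex, this]

/-- a subgroup contained in the kernel of a surjection, of small index, is the kernel -/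
theorem eq_ker_of_index {G A : Type*} [CommGroup G] [CommGroup A] [Finite A] (F : G →* A)
    (hF : Function.Surjective F) (H : Subgroup G) (hH : H ≤ F.ker) (h0 : H.index ≠ 0)
    (hle : H.index ≤ Nat.card A) : H = F.ker := by
  have h1 : F.ker.index = Nat.card A := by
    rw [Subgroup.index_ker, MonoidHom.range_eq_top.2 hF]
    exact Subgroup.card_top
  have h2 := Subgroup.relIndex_mul_index hH
  rw [h1] at h2
  have h3 : 0 < Nat.card A := Nat.card_pos
  have h4 : H.relIndex F.ker = 1 := by
    have h5 : H.relIndex F.ker ≠ 0 := by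
      intro h6
      rw [h6, zero_mul] at h2
      exact h0 h2.symm
    have h6 : H.relIndex F.ker * Nat.card A ≤ 1 * Nat.card A := by
      rw [h2, one_mul]; exact hle
    have h7 := Nat.le_of_mul_le_mul_right h6 h3
    omega
  exact le_antisymm hH (Subgroup.relIndex_eq_one.1 h4)

end Pool.Agent.Lib.MP_2f3286_ag.UA
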