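import Pool.Agent.Lib.MP_2f3286_ag.UA.C06
import Pool.Agent.Lib.MP_2f3286_ag.UA.C09
import Pool.Agent.Lib.MP_2f3286_ag.UA.C12
import Pool.Agent.Lib.MP_2f3286_ag.UA.C13

/-!
# C14: (C5), (C6), the element `δ`

Text. `F` from `exists_F` (C11). `P = PS S`, `U = US S`, `m = card (InfinitePlace k)`, `2 m = n` (`places_eq`, C08), `s = S.card`. `index_sup` (C13) with `C4` (C10; the converse: a square
of `US S` is a square at all `v`): `P.index = (sqG U).index * (P ⊔ U).index`, `(sqG U).index = 2 ^ (s + m)` (`index_US`, C09), `P.index ≤ 4 ^ s * 2 ^ n = 2 ^ (s + m) * 2 ^ (s + m)` (C06), not zero. So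
`(P ⊔ U).index ≤ 2 ^ (s + m) = (sqG U).index ≤ card (US S →* ℤˣ)` (`card_chars`, C13). `eq_ker_of_index`: `F.ker = P ⊔ U` (`F_PS`, `F_US`, `F_surj`, C12).
`exists_delta`: let `a = ∏ v ∈ T, a_v` with the `a_v` of `Big S` (order one at `v`, zero at the other places outside `S`; `T` is disjoint from `S`): `ordv v a = 1` for `v ∈ T`, `0` for `v ∉ S ∪ T`.
`F a = 1` by `hprod` (the sets agree), so `a = δ x`, `δ ∈ P`, `x ∈ U` (`Subgroup.mem_sup`), `ordv v x = 0` outside `S` (`ordv_US`).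
-/

open NumberField IsDedekindDomain

namespace Pool.Agent.Lib.MP_2f3286_ag.UA

variable {k : Type*} [Field k] [NumberField k]

/-- the order of a product -/
private lemma ordv_prod' (w : HeightOneSpectrum (𝓞 k)) (T : Finset (HeightOneSpectrum (𝓞 k)))
    (f : HeightOneSpectrum (𝓞 k) → k) (hf : ∀ v ∈ T, f v ≠ 0) :
    (∏ v ∈ T, f v) ≠ 0 ∧ ordv w (∏ v ∈ T, f v) = ∑ v ∈ T, ordv w (f v) := by
  classical
  induction T using Finset.induction_on with
  | empty =>
    refine ⟨by simp, ?_⟩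
    rw [Finset.prod_empty, Finset.sum_empty]
    exact (ordv_eq_zero_iff w one_ne_zero).2 (map_one _)
  | insert a T ha ih =>
    obtain ⟨h1, h2⟩ := ih (fun v hv => hf v (Finset.mem_insert_of_mem hv))
    have h3 := hf a (Finset.mem_insert_self a T)
    rw [Finset.prod_insert ha, Finset.sum_insert ha]
    exact ⟨mul_ne_zero h3 h1, by rw [ordv_mul w h3 h1, h2]⟩

theorem ker_F (i : k) (hi : i ^ 2 = -1) (S : Finset (HeightOneSpectrum (𝓞 k))) (hS : Big S)
    (F : kˣ →* (US S →* ℤˣ)) (hF : ∀ (a : kˣ) (x : US S), F a x = 1 ↔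
      Even {v : HeightOneSpectrum (𝓞 k) | v ∉ S ∧ Odd (ordv v (a : k)) ∧
        ¬ SqAt v ((x : kˣ) : k)}.ncard) : F.ker = PS S ⊔ US S := by
  have hC4 : ∀ x : US S, (x : kˣ) ∈ PS S ↔ x ∈ sqG (US S) := by
    intro x
    refine ⟨fun hx => C4 i hi S hS x hx, fun hx => ?_⟩
    obtain ⟨y, hy⟩ := mem_sqG.1 hx
    rw [mem_PS]
    intro v _
    refine ⟨algebraMap k (v.adicCompletion k) ((y : kˣ) : k), ?_⟩
    rw [← map_mul, ← hy]
    congr 1
    push_cast
    ring
  have hI := index_sup (PS S) (US S) hC4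
  have hU := index_US S
  obtain ⟨hP0, hP⟩ := index_PS S hS.1
  have hn := places_eq i hi
  have hU0 : (sqG (US S)).index ≠ 0 := by rw [hU]; positivity
  obtain ⟨hfin, hcard⟩ := card_chars hU0
  have hidx0 : (PS S ⊔ US S).index ≠ 0 := by
    intro h0
    rw [h0, mul_zero] at hI
    exact hP0 hI
  have hle : (PS S ⊔ US S).index ≤ 2 ^ (S.card + Fintype.card (InfinitePlace k)) := by
    have h1 : 2 ^ (S.card + Fintype.card (InfinitePlace k)) * (PS S ⊔ US S).index ≤
        2 ^ (S.card + Fintype.card (InfinitePlace k)) *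
          2 ^ (S.card + Fintype.card (InfinitePlace k)) := by
      rw [← hU, ← hI]
      refine hP.trans (le_of_eq ?_)
      rw [hU, ← hn, ← pow_add, show (4 : ℕ) = 2 ^ 2 by norm_num, ← pow_mul, ← pow_add]
      congr 1
      ring
    exact Nat.le_of_mul_le_mul_left h1 (by positivity)
  have hker : PS S ⊔ US S ≤ F.ker := by
    refine sup_le (fun a ha => ?_) (fun a ha => ?_)
    · rw [MonoidHom.mem_ker]
      exact F_PS i hi S hS.1 F hF a ha
    · rw [MonoidHom.mem_ker]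
      exact F_US S F hF a ha
  exact (eq_ker_of_index F (F_surj S hS F hF) _ hker hidx0
    (hle.trans (by rw [← hU]; exact hcard))).symm

/-- PART II, text (C6). -/
theorem exists_delta (i : k) (hi : i ^ 2 = -1) (S T : Finset (HeightOneSpectrum (𝓞 k)))
    (hS : Big S) (hT : Disjoint S T)
    (hprod : ∀ x : US S, Even {v : HeightOneSpectrum (𝓞 k) | v ∈ T ∧ ¬ SqAt v ((x : kˣ) : k)}.ncard) :
    ∃ δ : k, δ ≠ 0 ∧ (∀ v ∈ S, SqAt v δ) ∧ (∀ v ∈ T, ordv v δ = 1) ∧
      ∀ v : HeightOneSpectrum (𝓞 k), v ∉ S → v ∉ T → ordv v δ = 0 := by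
  classical
  have hST : ∀ v ∈ T, v ∉ S := fun v hv hv' => Finset.disjoint_left.1 hT hv' hv
  have h0 : ∀ v ∈ T, ∃ a : k, ordv v a = 1 ∧ a ≠ 0 ∧
      ∀ w : HeightOneSpectrum (𝓞 k), w ∉ S → w ≠ v → ordv w a = 0 :=
    fun v hv => hS.2 v (hST v hv)
  choose! f hf using h0
  obtain ⟨F, hF⟩ := exists_F S hS.1
  have ha0 : (∏ v ∈ T, f v) ≠ 0 := Finset.prod_ne_zero_iff.2 (fun v hv => (hf v hv).2.1)
  have hord : ∀ w : HeightOneSpectrum (𝓞 k), w ∉ S →
      ordv w (∏ v ∈ T, f v) = if w ∈ T then 1 else 0 := by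
    intro w hw
    rw [(ordv_prod' w T f (fun v hv => (hf v hv).2.1)).2]
    have h1 : ∀ v ∈ T, ordv w (f v) = if v = w then 1 else 0 := by
      intro v hv
      by_cases hvw : v = w
      · subst hvw
        rw [if_pos rfl]
        exact (hf v hv).1
      · rw [if_neg hvw]
        exact (hf v hv).2.2 w hw (fun h => hvw h.symm)
    rw [Finset.sum_congr rfl h1, Finset.sum_ite_eq']
  have hFa : F (Units.mk0 _ ha0) = 1 := by
    ext x
    have h1 : F (Units.mk0 _ ha0) x = 1 := by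
      rw [hF]
      have h2 : {v : HeightOneSpectrum (𝓞 k) | v ∉ S ∧
          Odd (ordv v ((Units.mk0 (∏ v ∈ T, f v) ha0 : kˣ) : k)) ∧ ¬ SqAt v ((x : kˣ) : k)} =
          {v : HeightOneSpectrum (𝓞 k) | v ∈ T ∧ ¬ SqAt v ((x : kˣ) : k)} := by
        ext v
        constructor
        · rintro ⟨h3, h4, h5⟩
          refine ⟨?_, h5⟩
          by_contra hvT
          rw [Units.val_mk0, hord v h3, if_neg hvT] at h4
          exact absurd h4 (by decide)
        · rintro ⟨h3, h5⟩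
          refine ⟨hST v h3, ?_, h5⟩
          rw [Units.val_mk0, hord v (hST v h3), if_pos h3]
          exact odd_one
      rw [h2]
      exact hprod x
    rw [h1, MonoidHom.one_apply]
  have hmem : Units.mk0 _ ha0 ∈ PS S ⊔ US S := by
    rw [← ker_F i hi S hS F hF, MonoidHom.mem_ker]
    exact hFa
  obtain ⟨δ, hδ, x, hx, hδx⟩ := Subgroup.mem_sup.1 hmem
  have hval : (∏ v ∈ T, f v) = (δ : k) * (x : k) := by
    rw [← Units.val_mul, hδx, Units.val_mk0]
  have hordδ : ∀ v : HeightOneSpectrum (𝓞 k), v ∉ S → ordv v (δ : k) = if v ∈ T then 1 else 0 := by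
    intro v hv
    have h1 := hord v hv
    rw [hval, ordv_mul v (Units.ne_zero _) (Units.ne_zero _),
      ordv_US (⟨x, hx⟩ : US S) hv, add_zero] at h1
    exact h1
  refine ⟨δ, Units.ne_zero _, mem_PS.1 hδ, fun v hv => ?_, fun v hv hvT => ?_⟩
  · rw [hordδ v (hST v hv), if_pos hv]
  · rw [hordδ v hv, if_neg hvT]

end Pool.Agent.Lib.MP_2f3286_ag.UA
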