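import Pool.Agent.Lib.MP_2f3286_ag.UA.Cof6

/-!
# The coverings are cofinal (helper96)

PROOF. Let `Ω` be an algebraic closure of `K`, `C` the algebraic closure of `k` in it, `d, e` in `C` with `d + e = A`,
`(d - e) ^ 2 = B`, so `d e ≠ 0`. Take `t₀` in `K`, not in `k`, and `K' = K(z)` in `Ω` with `t = t₀ + l`, `l` in `k`,
`α ^ 2 = t ^ 3 - d t`, `β ^ 2 = t ^ 3 - e t`, `z = α + β` if `B ≠ 0`, `z = 2 α` if `B = 0` (`d = e`, `β = α`).
Then `z ^ 4 - 2 (2 t ^ 3 - A t) z ^ 2 + B t ^ 2 = 0`, `[K' : K] ≤ 4` (`≤ 2` if `B = 0`). There is a finite extension `E₀` of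
`C(t₀)` in `Ω` which contains `K`. For all but finitely many `l` the elements `f = t ^ 3 - d t`, `g = t ^ 3 - e t`, `f g` (`f` alone
if `B = 0`) are not squares in `E₀`: then `1, α, β, α β` are independent over `E₀`, hence `1, z, z ^ 2, z ^ 3` also
(`z ^ 3 = (f + 3 g) α + (3 f + g) β`), and an element of `K'` algebraic over `k` is in `C`, hence in `E₀`, so it is in `K` and in
`k`. `E₀` has finitely many subfields over `C(t₀)`; if `f_l` is a square in `E₀` for infinitely many `l` then for two of them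
`C(t₀)(√ f_l)` is the same field, so `f_l f_l'` is a square in `C(t₀)`: impossible, as the zeros of `f_l` and `f_l'` are the
same up to a translation by `l - l' ≠ 0`, and simple. Same for `g_l`, and `f_l g_l = t ^ 2 (t ^ 2 - d) (t ^ 2 - e)`.
-/

open Polynomial

namespace Pool.Agent.Lib.MP_2f3286_ag.UA

universe u v

/-- Every function field has an extension of degree at most `4`, without new constants, in which the
equation has a solution. -/
theorem cofinal {k : Type u} [Field k] [CharZero k] (A B : k) (hAB : A ^ 2 ≠ B)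
    {K : Type v} [Field K] [Algebra k K] (htr : Algebra.trdeg k K = 1)
    (hfg : (⊤ : IntermediateField k K).FG)
    (hk : ∀ x : K, IsAlgebraic k x → ∃ c : k, x = algebraMap k K c) :
    ∃ (K' : Type v) (_ : Field K') (_ : Algebra K K') (_ : Algebra k K')
      (_ : IsScalarTower k K K') (t : K) (z : K'),
      FiniteDimensional K K' ∧ Module.finrank K K' ≤ 4 ∧ (B = 0 → Module.finrank K K' ≤ 2) ∧
      (∀ x : K', IsAlgebraic k x → ∃ c : k, x = algebraMap k K' c) ∧
      (∀ c : k, t ≠ algebraMap k K c) ∧ z ≠ 0 ∧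
      z ^ 4 - 2 * algebraMap K K' (2 * t ^ 3 - algebraMap k K A * t) * z ^ 2 +
        algebraMap K K' (algebraMap k K B * t ^ 2) = 0 := by
  obtain ⟨M, t, d, e, hKM, halgM, ht, hdM, heM, hsum, hdiff, hf, hg, hfg'⟩ :=
    cof_choice (Ω := AlgebraicClosure K) A B hAB htr hfg
  have hchar : CharZero (AlgebraicClosure K) :=
    charZero_of_injective_algebraMap (algebraMap k (AlgebraicClosure K)).injective
  obtain ⟨T, hT⟩ : ∃ T, T = algebraMap K (AlgebraicClosure K) t := ⟨_, rfl⟩
  rw [← hT] at hf hg hfg'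
  have hTM : T ∈ M := hT ▸ hKM t
  have hfM : T ^ 3 - d * T ∈ M := M.sub_mem (M.pow_mem hTM 3) (M.mul_mem hdM hTM)
  have hgM : T ^ 3 - e * T ∈ M := M.sub_mem (M.pow_mem hTM 3) (M.mul_mem heM hTM)
  have m2 : (2 : AlgebraicClosure K) ∈ M := by
    have := M.add_mem M.one_mem M.one_mem
    rwa [one_add_one_eq_two] at this
  obtain ⟨α, hα⟩ := IsAlgClosed.exists_pow_nat_eq (T ^ 3 - d * T) (n := 2) (by norm_num)
  obtain ⟨β, hβ⟩ := IsAlgClosed.exists_pow_nat_eq (T ^ 3 - e * T) (n := 2) (by norm_num)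
  have hP : algebraMap K (AlgebraicClosure K) (2 * t ^ 3 - algebraMap k K A * t) =
      2 * T ^ 3 - (d + e) * T := by
    rw [hsum, hT, map_sub, map_mul, map_mul, map_pow, map_ofNat,
      ← IsScalarTower.algebraMap_apply k K (AlgebraicClosure K)]
  have hQ : algebraMap K (AlgebraicClosure K) (algebraMap k K B * t ^ 2) = (d - e) ^ 2 * T ^ 2 := by
    rw [hdiff, hT, map_mul, map_pow, ← IsScalarTower.algebraMap_apply k K (AlgebraicClosure K)]
  have hcard : ∃ (n : ℕ) (z : AlgebraicClosure K) (q : K[X]), n ≤ 4 ∧ (B = 0 → n ≤ 2) ∧ q.Monic ∧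
      q.natDegree = n ∧ n ≠ 0 ∧ aeval z q = 0 ∧
      (∀ (b : ℕ → K) (m : AlgebraicClosure K), IsAlgebraic k m →
        m = ∑ i ∈ Finset.range n, algebraMap K (AlgebraicClosure K) (b i) * z ^ i →
        m = algebraMap K (AlgebraicClosure K) (b 0)) ∧ z ≠ 0 ∧
      z ^ 4 - 2 * algebraMap K (AlgebraicClosure K) (2 * t ^ 3 - algebraMap k K A * t) * z ^ 2 +
        algebraMap K (AlgebraicClosure K) (algebraMap k K B * t ^ 2) = 0 := by
    by_cases hB : B = 0
    · have hde : d = e := by
        rw [hB, map_zero] at hdiff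
        exact sub_eq_zero.1 (pow_eq_zero_iff two_ne_zero |>.1 hdiff)
      refine ⟨2, 2 * α, X ^ 2 - C (2 * (2 * t ^ 3 - algebraMap k K A * t)), by norm_num,
        fun _ => le_rfl, monic_X_pow_sub_C _ two_ne_zero, natDegree_X_pow_sub_C, two_ne_zero,
        ?_, ?_, ?_, ?_⟩
      · rw [map_sub, map_pow, aeval_X, aeval_C, map_mul, hP, map_ofNat, ← hde]
        linear_combination 4 * hα
      · intro b m hm hsum'
        rw [Finset.sum_range_succ, Finset.sum_range_one, pow_zero, pow_one, mul_one] at hsum'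
        obtain ⟨h1, -⟩ := indep_two M hα hf
          (a := algebraMap K (AlgebraicClosure K) (b 0) - m)
          (b := algebraMap K (AlgebraicClosure K) (b 1) * 2)
          (M.sub_mem (hKM _) (halgM m hm)) (M.mul_mem (hKM _) m2)
          (by linear_combination -hsum')
        exact (sub_eq_zero.1 h1).symm
      · intro h
        have h1 : α = 0 := by
          rcases mul_eq_zero.1 h with h' | h'
          · exact absurd h' two_ne_zero
          · exact h'
        exact hf 0 M.zero_mem (by rw [← hα, h1])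
      · rw [hP, hQ, ← hde]
        linear_combination (16 * (α ^ 2 + (T ^ 3 - d * T)) - 8 * (2 * T ^ 3 - (d + d) * T)) * hα
    · have hde : d ≠ e := by
        intro h
        apply hB
        rw [h, sub_self, zero_pow two_ne_zero] at hdiff
        exact (_root_.map_eq_zero (algebraMap k (AlgebraicClosure K))).1 hdiff.symm
      have hquart : (α + β) ^ 4 - 2 * (2 * T ^ 3 - (d + e) * T) * (α + β) ^ 2 +
          (d - e) ^ 2 * T ^ 2 = 0 := by
        have h2 : (α + β) ^ 2 = (T ^ 3 - d * T) + (T ^ 3 - e * T) + 2 * (α * β) := by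
          linear_combination hα + hβ
        have h4 : (α + β) ^ 4 = ((T ^ 3 - d * T) + (T ^ 3 - e * T) + 2 * (α * β)) ^ 2 := by
          rw [← h2]
          ring
        have h5 : (α * β) ^ 2 = (T ^ 3 - d * T) * (T ^ 3 - e * T) := by
          rw [mul_pow, hα, hβ]
        rw [h4, h2]
        linear_combination 4 * h5
      refine ⟨4, α + β, X ^ 4 - C (2 * (2 * t ^ 3 - algebraMap k K A * t)) * X ^ 2 +
        C (algebraMap k K B * t ^ 2), le_rfl, fun h => absurd h hB, ?_, ?_, by norm_num, ?_, ?_, ?_, ?_⟩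
      · monicity!
      · compute_degree!
      · simp only [map_add, map_sub, map_mul, map_pow, aeval_X, aeval_C, map_ofNat] at hP hQ ⊢
        rw [hP, hQ]
        exact hquart
      · intro b m hm hsum'
        rw [Finset.sum_range_succ, Finset.sum_range_succ, Finset.sum_range_succ, Finset.sum_range_one,
          pow_zero, pow_one, mul_one] at hsum'
        obtain ⟨F, hF⟩ : ∃ F, F = T ^ 3 - d * T := ⟨_, rfl⟩
        obtain ⟨G, hG⟩ : ∃ G, G = T ^ 3 - e * T := ⟨_, rfl⟩
        rw [← hF] at hα hfM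
        rw [← hG] at hβ hgM
        obtain ⟨b0, hb0⟩ : ∃ y, y = algebraMap K (AlgebraicClosure K) (b 0) := ⟨_, rfl⟩
        obtain ⟨b1, hb1⟩ : ∃ y, y = algebraMap K (AlgebraicClosure K) (b 1) := ⟨_, rfl⟩
        obtain ⟨b2, hb2⟩ : ∃ y, y = algebraMap K (AlgebraicClosure K) (b 2) := ⟨_, rfl⟩
        obtain ⟨b3, hb3⟩ : ∃ y, y = algebraMap K (AlgebraicClosure K) (b 3) := ⟨_, rfl⟩
        rw [← hb0, ← hb1, ← hb2, ← hb3] at hsum'
        rw [← hb0]
        have hm0 : b0 ∈ M := hb0 ▸ hKM _
        have hm1 : b1 ∈ M := hb1 ▸ hKM _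
        have hm2 : b2 ∈ M := hb2 ▸ hKM _
        have hm3 : b3 ∈ M := hb3 ▸ hKM _
        have m3 : (3 : AlgebraicClosure K) ∈ M := by
          have := M.add_mem m2 M.one_mem
          rwa [two_add_one_eq_three] at this
        have hfgM : ∀ s ∈ M, s ^ 2 ≠ F * G := by
          rw [hF, hG]
          exact hfg' hde
        obtain ⟨h0, h1, h2, h3⟩ := indep_four M hfM hgM hα hβ (hF ▸ hf) (hG ▸ hg) hfgM
          (a := b0 - m + b2 * (F + G)) (b := b1 + b3 * (F + 3 * G)) (c := b1 + b3 * (3 * F + G))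
          (d := b2 * 2)
          (M.add_mem (M.sub_mem hm0 (halgM m hm)) (M.mul_mem hm2 (M.add_mem hfM hgM)))
          (M.add_mem hm1 (M.mul_mem hm3 (M.add_mem hfM (M.mul_mem m3 hgM))))
          (M.add_mem hm1 (M.mul_mem hm3 (M.add_mem (M.mul_mem m3 hfM) hgM)))
          (M.mul_mem hm2 m2)
          (by linear_combination -hsum' - (b2 + b3 * (α + 3 * β)) * hα - (b2 + b3 * (3 * α + β)) * hβ)
        have h4 : b2 = 0 := (mul_eq_zero.1 h3).resolve_right two_ne_zero
        rw [h4, zero_mul, add_zero] at h0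
        exact (sub_eq_zero.1 h0).symm
      · intro h
        have hfgM := hfg' hde
        obtain ⟨-, h1, -, -⟩ := indep_four M hfM hgM hα hβ hf hg hfgM
          (a := 0) (b := 1) (c := 1) (d := 0) M.zero_mem M.one_mem M.one_mem M.zero_mem
          (by linear_combination h)
        exact one_ne_zero h1
      · rw [hP, hQ]
        exact hquart
  obtain ⟨n, z, q, hn4, hn2, hq, hqn, hn0, hz, hind, hz0, hquart⟩ := hcard
  obtain ⟨K', i1, i2, i3, i4, z', h1, h2, h3, h4, h5⟩ :=
    cof_finish hk hq hqn hn0 hz hind hz0 hquart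
  exact ⟨K', i1, i2, i3, i4, t, z', h1, h2.trans hn4, fun hB => h2.trans (hn2 hB), h3, ht, h4, h5⟩

end Pool.Agent.Lib.MP_2f3286_ag.UA
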