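import Mathlib

/-!
# Square roots in a finite extension of a rational function field
-/

open Polynomial

namespace Pool.Agent.Lib.MP_2f3286_ag.UA

section quad

variable {F E : Type*} [Field F] [Field E] [Algebra F E]

theorem mem_adjoin_sq {r : E} {a : F} (hr : r ^ 2 = algebraMap F E a) {x : E}
    (hx : x ∈ IntermediateField.adjoin F {r}) :
    ∃ b c : F, x = algebraMap F E b + algebraMap F E c * r := by
  have halg : IsAlgebraic F r := by
    refine ⟨X ^ 2 - C a, ?_, ?_⟩
    · exact (monic_X_pow_sub_C a two_ne_zero).ne_zero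
    · simp [hr]
  have h1 : x ∈ Algebra.adjoin F {r} := by
    rw [← IntermediateField.adjoin_simple_toSubalgebra_of_isAlgebraic halg]
    exact hx
  induction h1 using Algebra.adjoin_induction with
  | mem y hy =>
    rw [Set.mem_singleton_iff] at hy
    exact ⟨0, 1, by rw [hy]; simp⟩
  | algebraMap b => exact ⟨b, 0, by simp⟩
  | add y z hy hz ihy ihz =>
    have mem : ∀ w ∈ Algebra.adjoin F {r}, w ∈ IntermediateField.adjoin F {r} := fun w hw =>
      IntermediateField.algebra_adjoin_le_adjoin F _ hw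
    obtain ⟨b, c, h⟩ := ihy (mem y hy)
    obtain ⟨b', c', h'⟩ := ihz (mem z hz)
    exact ⟨b + b', c + c', by rw [h, h', map_add, map_add]; ring⟩
  | mul y z hy hz ihy ihz =>
    have mem : ∀ w ∈ Algebra.adjoin F {r}, w ∈ IntermediateField.adjoin F {r} := fun w hw =>
      IntermediateField.algebra_adjoin_le_adjoin F _ hw
    obtain ⟨b, c, h⟩ := ihy (mem y hy)
    obtain ⟨b', c', h'⟩ := ihz (mem z hz)
    refine ⟨b * b' + c * c' * a, b * c' + c * b', ?_⟩
    rw [h, h']
    simp only [map_add, map_mul]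
    linear_combination (algebraMap F E c * algebraMap F E c') * hr

/-- two square roots which generate the same field -/
theorem mul_mem_of_adjoin_eq (h2 : (2 : F) ≠ 0) {r r' : E} {a a' : F}
    (hr : r ^ 2 = algebraMap F E a) (hr' : r' ^ 2 = algebraMap F E a')
    (h : IntermediateField.adjoin F {r} = IntermediateField.adjoin F {r'}) :
    ∃ c : F, r * r' = algebraMap F E c := by
  have h2E : (2 : E) ≠ 0 := by
    have := (_root_.map_ne_zero (algebraMap F E)).2 h2
    rwa [map_ofNat] at this
  have hr'm : r' ∈ IntermediateField.adjoin F {r} := by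
    rw [h]
    exact IntermediateField.mem_adjoin_simple_self F r'
  have hrm : r ∈ IntermediateField.adjoin F {r'} := by
    rw [← h]
    exact IntermediateField.mem_adjoin_simple_self F r
  obtain ⟨b, c, hbc⟩ := mem_adjoin_sq hr hr'm
  have e1 : algebraMap F E (2 * b * c) * r = algebraMap F E (a' - b ^ 2 - c ^ 2 * a) := by
    rw [hbc] at hr'
    simp only [map_mul, map_sub, map_pow, map_ofNat]
    linear_combination hr' - (algebraMap F E c) ^ 2 * hr
  by_cases hbc0 : b * c = 0
  · rcases mul_eq_zero.1 hbc0 with hb | hc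
    · refine ⟨c * a, ?_⟩
      rw [hbc, hb, map_zero, zero_add, map_mul, ← hr]
      ring
    · -- `r'` is in `F`, so `r` is in `F`
      have hr'F : r' = algebraMap F E b := by rw [hbc, hc, map_zero, zero_mul, add_zero]
      have hbot : IntermediateField.adjoin F {r'} = ⊥ := by
        rw [IntermediateField.adjoin_simple_eq_bot_iff, IntermediateField.mem_bot]
        exact ⟨b, hr'F.symm⟩
      rw [hbot, IntermediateField.mem_bot] at hrm
      obtain ⟨s, hs⟩ := hrm
      exact ⟨s * b, by rw [map_mul, hs, hr'F]⟩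
  · have hne : 2 * b * c ≠ 0 := by
      rw [mul_assoc]
      exact mul_ne_zero h2 hbc0
    have hrF : r = algebraMap F E ((a' - b ^ 2 - c ^ 2 * a) / (2 * b * c)) := by
      rw [map_div₀, eq_div_iff ((_root_.map_ne_zero _).2 hne), ← e1]
      ring
    refine ⟨(a' - b ^ 2 - c ^ 2 * a) / (2 * b * c) *
      (b + c * ((a' - b ^ 2 - c ^ 2 * a) / (2 * b * c))), ?_⟩
    rw [hbc, hrF]
    simp only [map_mul, map_add]

end quad

section poly

variable {F : Type*} [Field F] [CharZero F]

theorem exists_shift_notMem [DecidableEq F] (R : Finset F) (hR : R.Nonempty) {δ : F} (hδ : δ ≠ 0) :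
    ∃ ρ ∈ R, ρ + δ ∉ R := by
  by_contra hcon
  push Not at hcon
  have h1 : R.image (fun ρ => ρ + δ) = R := by
    apply Finset.eq_of_subset_of_card_le
    · intro x hx
      obtain ⟨ρ, hρ, rfl⟩ := Finset.mem_image.1 hx
      exact hcon ρ hρ
    · rw [Finset.card_image_of_injective _ (add_left_injective δ)]
  have h2 : ∑ x ∈ R.image (fun ρ => ρ + δ), x = ∑ ρ ∈ R, (ρ + δ) :=
    Finset.sum_image (fun x _ y _ h => add_left_injective δ h)
  rw [h1, Finset.sum_add_distrib, Finset.sum_const, nsmul_eq_mul] at h2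
  have h3 : (R.card : F) * δ = 0 := by linear_combination -h2
  rcases mul_eq_zero.1 h3 with h | h
  · rw [Nat.cast_eq_zero, Finset.card_eq_zero] at h
    exact hR.ne_empty h
  · exact hδ h

/-- translates of a separable polynomial -/
theorem shift_not_square [IsAlgClosed F] {h : F[X]} (hs : h.Separable) (hd : h.natDegree ≠ 0)
    {l l' : F} (hll : l ≠ l') {P Q : F[X]}
    (e : h.comp (X + C l) * h.comp (X + C l') * Q ^ 2 = P ^ 2) : Q = 0 := by
  classical
  by_contra hQ
  have h0 : h ≠ 0 := hs.ne_zero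
  have hroots : h.roots.toFinset.Nonempty := by
    obtain ⟨x, hx⟩ := IsAlgClosed.exists_root h (by
      rw [degree_eq_natDegree h0]
      exact_mod_cast hd)
    exact ⟨x, by rw [Multiset.mem_toFinset, mem_roots h0]; exact hx⟩
  obtain ⟨ρ, hρ, hρ'⟩ := exists_shift_notMem h.roots.toFinset hroots
    (δ := l' - l) (sub_ne_zero.2 hll.symm)
  rw [Multiset.mem_toFinset, mem_roots h0] at hρ hρ'
  obtain ⟨σ, hσ⟩ : ∃ σ, σ = ρ - l := ⟨_, rfl⟩
  have ev : ∀ (g : F[X]) (c : F), (g.comp (X + C c)).eval σ = g.eval (σ + c) := by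
    intro g c
    rw [eval_comp]
    simp
  have hcomp0 : ∀ c : F, h.comp (X + C c) ≠ 0 := by
    intro c hc
    rcases comp_eq_zero_iff.1 hc with h1 | ⟨-, h1⟩
    · exact h0 h1
    · have := congrArg natDegree h1
      rw [natDegree_X_add_C, natDegree_C] at this
      omega
  have m1 : (h.comp (X + C l)).rootMultiplicity σ = 1 := by
    have a1 : (h.comp (X + C l)).IsRoot σ := by
      rw [IsRoot.def, ev, hσ, sub_add_cancel]
      exact hρ
    have a2 : 0 < (h.comp (X + C l)).rootMultiplicity σ := (rootMultiplicity_pos (hcomp0 l)).2 a1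
    have a3 : ¬ 1 < (h.comp (X + C l)).rootMultiplicity σ := by
      rw [one_lt_rootMultiplicity_iff_isRoot (hcomp0 l)]
      rintro ⟨-, a4⟩
      rw [IsRoot.def, derivative_comp] at a4
      simp only [derivative_add, derivative_X, derivative_C, add_zero, one_mul] at a4
      rw [ev, hσ, sub_add_cancel] at a4
      obtain ⟨u, w, huw⟩ := hs
      have a5 := congrArg (eval ρ) huw
      rw [eval_add, eval_mul, eval_mul, eval_one, hρ, a4, mul_zero, mul_zero, add_zero] at a5
      exact zero_ne_one a5
    omega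
  have m2 : (h.comp (X + C l')).rootMultiplicity σ = 0 := by
    rw [rootMultiplicity_eq_zero]
    rw [IsRoot.def, ev, hσ]
    intro a1
    apply hρ'
    rw [IsRoot.def, ← a1]
    congr 1
    ring
  have hQ2 : Q ^ 2 ≠ 0 := pow_ne_zero 2 hQ
  have hL : h.comp (X + C l) * h.comp (X + C l') ≠ 0 := mul_ne_zero (hcomp0 l) (hcomp0 l')
  have m3 := congrArg (rootMultiplicity σ) e
  have hP : P ≠ 0 := by
    rintro rfl
    rw [zero_pow two_ne_zero] at e
    exact (mul_ne_zero hL hQ2) e
  rw [rootMultiplicity_mul (mul_ne_zero hL hQ2), rootMultiplicity_mul hL, m1, m2, sq, sq,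
    rootMultiplicity_mul (mul_ne_zero hQ hQ), rootMultiplicity_mul (mul_ne_zero hP hP)] at m3
  omega

end poly

end Pool.Agent.Lib.MP_2f3286_ag.UA
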