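import Pool.Agent.Lib.MP_2f3286_ag.UA.Cof1

/-!
# Only finitely many translates of a separable polynomial are squares in a finite extension
-/

open Polynomial

namespace Pool.Agent.Lib.MP_2f3286_ag.UA

/-- In a finite extension of `C(x₀)`, `C` algebraically closed, only finitely many of the `h(x₀ + l)` are squares. -/
theorem finite_shift_square {C Ω : Type*} [Field C] [CharZero C] [IsAlgClosed C] [Field Ω] [Algebra C Ω]
    {x₀ : Ω} (hx₀ : Transcendental C x₀)
    (E₀ : IntermediateField (IntermediateField.adjoin C {x₀}) Ω)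
    [FiniteDimensional (IntermediateField.adjoin C {x₀}) E₀]
    {h : C[X]} (hs : h.Separable) (hd : h.natDegree ≠ 0) :
    {l : C | ∃ r ∈ E₀, r ^ 2 = aeval (x₀ + algebraMap C Ω l) h}.Finite := by
  classical
  by_contra hinf
  have hinf' : {l : C | ∃ r ∈ E₀, r ^ 2 = aeval (x₀ + algebraMap C Ω l) h}.Infinite := hinf
  have := hinf'.to_subtype
  have hfinI : Finite (IntermediateField (IntermediateField.adjoin C {x₀}) E₀) :=
    Field.finite_intermediateField_of_exists_primitive_element _ _
      (Field.exists_primitive_element (IntermediateField.adjoin C {x₀}) E₀)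
  have hr : ∀ l : {l : C | ∃ r ∈ E₀, r ^ 2 = aeval (x₀ + algebraMap C Ω l) h},
      ∃ r : E₀, (r : Ω) ^ 2 = aeval (x₀ + algebraMap C Ω (l : C)) h := by
    rintro ⟨l, r, hr, hrl⟩
    exact ⟨⟨r, hr⟩, hrl⟩
  choose r hr using hr
  obtain ⟨l, l', hll, hlr⟩ := Finite.exists_ne_map_eq_of_infinite
    (fun l => IntermediateField.adjoin (IntermediateField.adjoin C {x₀}) {r l})
  -- the values of `h` are in `C(x₀)`
  have hx₀m : x₀ ∈ IntermediateField.adjoin C {x₀} := IntermediateField.mem_adjoin_simple_self C x₀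
  have hval : ∀ l : C, aeval (x₀ + algebraMap C Ω l) h = aeval x₀ (h.comp (X + Polynomial.C l)) := by
    intro l
    rw [aeval_comp]
    simp
  have hmem : ∀ p : C[X], aeval x₀ p ∈ IntermediateField.adjoin C {x₀} := by
    intro p
    exact (IntermediateField.mem_adjoin_simple_iff C _).2 ⟨p, 1, by rw [map_one, div_one]⟩
  have hsq : ∀ l, (r l) ^ 2 = algebraMap (IntermediateField.adjoin C {x₀}) E₀
      ⟨aeval x₀ (h.comp (X + Polynomial.C (l : C))), hmem _⟩ := by
    intro l
    apply Subtype.ext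
    rw [SubmonoidClass.coe_pow, hr l, hval]
    rfl
  have h2 : (2 : IntermediateField.adjoin C {x₀}) ≠ 0 := two_ne_zero
  obtain ⟨c, hc⟩ := mul_mem_of_adjoin_eq h2 (hsq l) (hsq l') hlr
  obtain ⟨P, Q, hPQ⟩ := (IntermediateField.mem_adjoin_simple_iff C (c : Ω)).1 c.2
  have hll' : (l : C) ≠ (l' : C) := fun h => hll (Subtype.ext h)
  have hprod : aeval x₀ (h.comp (X + Polynomial.C (l : C)) * h.comp (X + Polynomial.C (l' : C))) =
      (c : Ω) ^ 2 := by
    have e1 : ((r l : Ω) * (r l' : Ω)) = (c : Ω) := congrArg (fun x : E₀ => (x : Ω)) hc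
    rw [← e1, mul_pow, hr l, hr l', hval, hval, map_mul]
  have hinj : Function.Injective (aeval (R := C) x₀) := transcendental_iff_injective.1 hx₀
  by_cases hQ : aeval x₀ Q = 0
  · rw [hPQ, hQ, div_zero, zero_pow two_ne_zero] at hprod
    have e2 : h.comp (X + Polynomial.C (l : C)) * h.comp (X + Polynomial.C (l' : C)) * 1 ^ 2 =
        (0 : C[X]) ^ 2 := by
      apply hinj
      rw [one_pow, mul_one, hprod, zero_pow two_ne_zero, map_zero]
    exact one_ne_zero (shift_not_square hs hd hll' e2)
  · have e2 : h.comp (X + Polynomial.C (l : C)) * h.comp (X + Polynomial.C (l' : C)) * Q ^ 2 =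
        P ^ 2 := by
      apply hinj
      rw [map_mul, hprod, hPQ, map_pow, map_pow, div_pow, div_mul_cancel₀ _ (pow_ne_zero 2 hQ)]
    have := shift_not_square hs hd hll' e2
    rw [this, map_zero] at hQ
    exact hQ rfl

end Pool.Agent.Lib.MP_2f3286_ag.UA
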