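import Mathlib

/-!
# Two square roots, and a quartic
-/

open Polynomial

namespace Pool.Agent.Lib.MP_2f3286_ag.UA

section indep

variable {Ω : Type*} [Field Ω] [CharZero Ω]

omit [CharZero Ω] in
/-- `1, α` are independent over a subfield in which `α ^ 2` is no square -/
theorem indep_two (M : Subfield Ω) {α : Ω} {f : Ω} (hα : α ^ 2 = f)
    (hf : ∀ s ∈ M, s ^ 2 ≠ f) {a b : Ω} (ha : a ∈ M) (hb : b ∈ M) (e : a + b * α = 0) :
    a = 0 ∧ b = 0 := by
  by_cases hb0 : b = 0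
  · refine ⟨?_, hb0⟩
    rw [hb0, zero_mul, add_zero] at e
    exact e
  · exfalso
    apply hf (-a / b) (M.div_mem (M.neg_mem ha) hb)
    rw [← hα]
    congr 1
    rw [div_eq_iff hb0]
    linear_combination -e

/-- `1, α, β, α β` are independent over a subfield in which `α ^ 2`, `β ^ 2`, `(α β) ^ 2` are no squares -/
theorem indep_four (M : Subfield Ω) {α β : Ω} {f g : Ω} (hfM : f ∈ M) (hgM : g ∈ M)
    (hα : α ^ 2 = f) (hβ : β ^ 2 = g)
    (hf : ∀ s ∈ M, s ^ 2 ≠ f) (hg : ∀ s ∈ M, s ^ 2 ≠ g) (hfg : ∀ s ∈ M, s ^ 2 ≠ f * g)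
    {a b c d : Ω} (ha : a ∈ M) (hb : b ∈ M) (hc : c ∈ M) (hd : d ∈ M)
    (e : a + b * α + c * β + d * (α * β) = 0) :
    a = 0 ∧ b = 0 ∧ c = 0 ∧ d = 0 := by
  have g0 : g ≠ 0 := fun h => hg 0 M.zero_mem (by rw [h, zero_pow two_ne_zero])
  have f0 : f ≠ 0 := fun h => hf 0 M.zero_mem (by rw [h, zero_pow two_ne_zero])
  -- `(a + b α) ^ 2 = (c + d α) ^ 2 g`
  have e1 : (a ^ 2 + b ^ 2 * f - (c ^ 2 + d ^ 2 * f) * g) + (2 * (a * b) - 2 * (c * d) * g) * α = 0 := by
    have e2 : (a + b * α) ^ 2 = ((c + d * α) * β) ^ 2 := by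
      have : a + b * α = -((c + d * α) * β) := by linear_combination e
      rw [this, neg_sq]
    rw [mul_pow, hβ] at e2
    linear_combination e2 - (b ^ 2 - d ^ 2 * g) * hα
  have m2 : (2 : Ω) ∈ M := by
    have := M.add_mem M.one_mem M.one_mem
    rwa [one_add_one_eq_two] at this
  obtain ⟨e3, e4⟩ := indep_two M hα hf
    (M.sub_mem (M.add_mem (M.pow_mem ha 2) (M.mul_mem (M.pow_mem hb 2) hfM))
      (M.mul_mem (M.add_mem (M.pow_mem hc 2) (M.mul_mem (M.pow_mem hd 2) hfM)) hgM))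
    (M.sub_mem (M.mul_mem m2 (M.mul_mem ha hb)) (M.mul_mem (M.mul_mem m2 (M.mul_mem hc hd)) hgM)) e1
  have e5 : a * b = c * d * g := by
    have : (2 : Ω) * (a * b - c * d * g) = 0 := by linear_combination e4
    rcases mul_eq_zero.1 this with h | h
    · exact absurd h two_ne_zero
    · exact sub_eq_zero.1 h
  -- `(a² - b² f)² = ((c² - d² f) g)²`
  have e6 : ((a ^ 2 - b ^ 2 * f) - (c ^ 2 - d ^ 2 * f) * g) *
      ((a ^ 2 - b ^ 2 * f) + (c ^ 2 - d ^ 2 * f) * g) = 0 := by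
    have : (a ^ 2 - b ^ 2 * f) ^ 2 = (a ^ 2 + b ^ 2 * f) ^ 2 - 4 * (a * b) ^ 2 * f := by ring
    have h2 : ((c ^ 2 - d ^ 2 * f) * g) ^ 2 = ((c ^ 2 + d ^ 2 * f) * g) ^ 2 - 4 * (c * d * g) ^ 2 * f := by
      ring
    have h3 : a ^ 2 + b ^ 2 * f = (c ^ 2 + d ^ 2 * f) * g := sub_eq_zero.1 e3
    have h4 : (a ^ 2 - b ^ 2 * f) ^ 2 = ((c ^ 2 - d ^ 2 * f) * g) ^ 2 := by
      rw [this, h2, h3, e5]
    linear_combination h4
  -- a square equal to a square times a non-square
  have key : ∀ {u v n : Ω}, u ∈ M → v ∈ M → (∀ s ∈ M, s ^ 2 ≠ n) → u ^ 2 = v ^ 2 * n → u = 0 ∧ v = 0 := by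
    intro u v n hu hv hn h
    by_cases hv0 : v = 0
    · refine ⟨?_, hv0⟩
      rw [hv0, zero_pow two_ne_zero, zero_mul] at h
      exact pow_eq_zero_iff two_ne_zero |>.1 h
    · exfalso
      apply hn (u / v) (M.div_mem hu hv)
      rw [div_pow, div_eq_iff (pow_ne_zero 2 hv0), h, mul_comm]
  rcases mul_eq_zero.1 e6 with h | h
  · -- `a² = c² g`, `b² f = d² f g`
    have h1 : a ^ 2 = c ^ 2 * g := by
      have : (2 : Ω) * (a ^ 2 - c ^ 2 * g) = 0 := by linear_combination h + e3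
      rcases mul_eq_zero.1 this with h' | h'
      · exact absurd h' two_ne_zero
      · exact sub_eq_zero.1 h'
    have h2 : b ^ 2 = d ^ 2 * g := by
      have : (2 * f) * (b ^ 2 - d ^ 2 * g) = 0 := by linear_combination e3 - h
      rcases mul_eq_zero.1 this with h' | h'
      · exact absurd h' (mul_ne_zero two_ne_zero f0)
      · exact sub_eq_zero.1 h'
    obtain ⟨ha0, hc0⟩ := key ha hc hg h1
    obtain ⟨hb0, hd0⟩ := key hb hd hg h2
    exact ⟨ha0, hb0, hc0, hd0⟩
  · -- `a² = d² f g`, `b² f = c² g`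
    have h1 : a ^ 2 = d ^ 2 * (f * g) := by
      have : (2 : Ω) * (a ^ 2 - d ^ 2 * (f * g)) = 0 := by linear_combination h + e3
      rcases mul_eq_zero.1 this with h' | h'
      · exact absurd h' two_ne_zero
      · exact sub_eq_zero.1 h'
    have h2 : (b * f) ^ 2 = c ^ 2 * (f * g) := by
      have : (2 * f) * (b ^ 2 * f - c ^ 2 * g) = 0 := by linear_combination f * e3 - f * h
      rcases mul_eq_zero.1 this with h' | h'
      · exact absurd h' (mul_ne_zero two_ne_zero f0)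
      · linear_combination f * h'
    obtain ⟨ha0, hd0⟩ := key ha hd hfg h1
    obtain ⟨hb0, hc0⟩ := key (M.mul_mem hb hfM) hc hfg h2
    exact ⟨ha0, (mul_eq_zero.1 hb0).resolve_right f0, hc0, hd0⟩

end indep

section poly

variable {F : Type*} [Field F] [CharZero F]

omit [CharZero F] in
theorem coprime_X_sq_sub (d : F) (hd : d ≠ 0) : IsCoprime (X : F[X]) (X ^ 2 - C d) := by
  refine ⟨C d⁻¹ * X, -C d⁻¹, ?_⟩
  have : C d⁻¹ * C d = (1 : F[X]) := by rw [← C_mul, inv_mul_cancel₀ hd, C_1]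
  linear_combination this

theorem separable_cubic (d : F) (hd : d ≠ 0) : (X ^ 3 - C d * X : F[X]).Separable := by
  have h : (X ^ 3 - C d * X : F[X]) = X * (X ^ 2 - C d) := by ring
  rw [h]
  exact separable_X.mul (separable_X_pow_sub_C d (by norm_num) hd) (coprime_X_sq_sub d hd)

theorem separable_quartic (d e : F) (hd : d ≠ 0) (he : e ≠ 0) (hde : d ≠ e) :
    ((X ^ 2 - C d) * (X ^ 2 - C e) : F[X]).Separable := by
  refine (separable_X_pow_sub_C d (by norm_num) hd).mul (separable_X_pow_sub_C e (by norm_num) he) ?_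
  refine ⟨C (e - d)⁻¹, -C (e - d)⁻¹, ?_⟩
  have : C (e - d)⁻¹ * (C e - C d) = (1 : F[X]) := by
    rw [← C_sub, ← C_mul, inv_mul_cancel₀ (sub_ne_zero.2 hde.symm), C_1]
  linear_combination this

theorem natDegree_cubic (d : F) : (X ^ 3 - C d * X : F[X]).natDegree = 3 := by
  compute_degree!

omit [CharZero F] in
theorem natDegree_quartic (d e : F) : ((X ^ 2 - C d) * (X ^ 2 - C e) : F[X]).natDegree = 4 := by
  rw [natDegree_mul (monic_X_pow_sub_C d two_ne_zero).ne_zero (monic_X_pow_sub_C e two_ne_zero).ne_zero,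
    natDegree_X_pow_sub_C, natDegree_X_pow_sub_C]

end poly

/-- the elements of a simple extension of degree at most `n` -/
theorem mem_adjoin_monic {K Ω : Type*} [Field K] [Field Ω] [Algebra K Ω] {z : Ω} {q : K[X]} (hq : q.Monic)
    {n : ℕ} (hn : q.natDegree = n) (hn0 : n ≠ 0) (hz : aeval z q = 0) {x : Ω}
    (hx : x ∈ IntermediateField.adjoin K {z}) :
    ∃ b : ℕ → K, x = ∑ i ∈ Finset.range n, algebraMap K Ω (b i) * z ^ i := by
  have halg : IsAlgebraic K z := ⟨q, hq.ne_zero, hz⟩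
  have h1 : x ∈ Algebra.adjoin K {z} := by
    rw [← IntermediateField.adjoin_simple_toSubalgebra_of_isAlgebraic halg]
    exact hx
  rw [Algebra.adjoin_singleton_eq_range_aeval] at h1
  obtain ⟨p, rfl⟩ := h1
  refine ⟨(p %ₘ q).coeff, ?_⟩
  have h2 : aeval z (p %ₘ q) = aeval z p := aeval_modByMonic_eq_self_of_root hz
  have h3 : (p %ₘ q).natDegree < n := by
    rw [← hn]
    refine natDegree_modByMonic_lt p hq ?_
    rintro rfl
    rw [natDegree_one] at hn
    exact hn0 hn.symm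
  change aeval z p = _
  rw [← h2, aeval_eq_sum_range' h3]
  simp only [Algebra.smul_def]

/-- the degree of a simple extension -/
theorem finrank_adjoin_monic {K Ω : Type*} [Field K] [Field Ω] [Algebra K Ω] {z : Ω} {q : K[X]} (hq : q.Monic)
    (hz : aeval z q = 0) :
    FiniteDimensional K (IntermediateField.adjoin K {z}) ∧
      Module.finrank K (IntermediateField.adjoin K {z}) ≤ q.natDegree := by
  have hint : IsIntegral K z := ⟨q, hq, hz⟩
  refine ⟨IntermediateField.adjoin.finiteDimensional hint, ?_⟩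
  rw [IntermediateField.adjoin.finrank hint]
  exact natDegree_le_of_dvd (minpoly.dvd K z hz) hq.ne_zero

end Pool.Agent.Lib.MP_2f3286_ag.UA
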