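import Pool.Agent.Lib.MP_2f3286_ag.UA.Cof2
import Pool.Agent.Lib.MP_2f3286_ag.UA.Cof3
import Pool.Agent.Lib.MP_2f3286_ag.UA.Cof4

/-!
# The coverings are cofinal: the extension
-/

open Polynomial

namespace Pool.Agent.Lib.MP_2f3286_ag.UA

universe u v

/-- the end of the proof of `cofinal` -/
theorem cof_finish {k : Type u} [Field k] {K Ω : Type v} [Field K] [Field Ω] [Algebra k K] [Algebra K Ω]
    [Algebra k Ω] [IsScalarTower k K Ω]
    (hk : ∀ x : K, IsAlgebraic k x → ∃ c : k, x = algebraMap k K c)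
    {z : Ω} {q : K[X]} (hq : q.Monic) {n : ℕ} (hn : q.natDegree = n) (hn0 : n ≠ 0) (hz : aeval z q = 0)
    (hind : ∀ (b : ℕ → K) (m : Ω), IsAlgebraic k m →
      m = ∑ i ∈ Finset.range n, algebraMap K Ω (b i) * z ^ i → m = algebraMap K Ω (b 0))
    (hz0 : z ≠ 0) {P Q : K}
    (hquart : z ^ 4 - 2 * algebraMap K Ω P * z ^ 2 + algebraMap K Ω Q = 0) :
    ∃ (K' : Type v) (_ : Field K') (_ : Algebra K K') (_ : Algebra k K')
      (_ : IsScalarTower k K K') (z : K'),
      FiniteDimensional K K' ∧ Module.finrank K K' ≤ n ∧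
      (∀ x : K', IsAlgebraic k x → ∃ c : k, x = algebraMap k K' c) ∧ z ≠ 0 ∧
      z ^ 4 - 2 * algebraMap K K' P * z ^ 2 + algebraMap K K' Q = 0 := by
  obtain ⟨h1, h2⟩ := finrank_adjoin_monic hq hz
  have htow : IsScalarTower k (IntermediateField.adjoin K {z}) Ω := by
    apply IsScalarTower.of_algebraMap_eq
    intro x
    rw [IsScalarTower.algebraMap_apply k K Ω x,
      IsScalarTower.algebraMap_apply k K (IntermediateField.adjoin K {z}) x]
    rfl
  refine ⟨IntermediateField.adjoin K {z}, inferInstance, inferInstance, inferInstance, inferInstance,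
    ⟨z, IntermediateField.mem_adjoin_simple_self K z⟩, h1, hn ▸ h2, ?_, ?_, ?_⟩
  · intro x hx
    obtain ⟨b, hb⟩ := mem_adjoin_monic hq hn hn0 hz x.2
    have hx' : IsAlgebraic k (x : Ω) := by
      exact IsAlgebraic.algHom (IsScalarTower.toAlgHom k (IntermediateField.adjoin K {z}) Ω) hx
    have h3 := hind b x hx' hb
    have h4 : IsAlgebraic k (b 0) := by
      rw [h3] at hx'
      exact (isAlgebraic_algebraMap_iff (algebraMap K Ω).injective).1 hx'
    obtain ⟨c, hc⟩ := hk _ h4
    refine ⟨c, ?_⟩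
    apply Subtype.ext
    rw [h3, hc]
    rw [← IsScalarTower.algebraMap_apply k K Ω]
    rfl
  · intro h
    exact hz0 (congrArg Subtype.val h)
  · apply Subtype.ext
    exact hquart

end Pool.Agent.Lib.MP_2f3286_ag.UA
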