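import Pool.Agent.Lib.MP_2f3286_ag.UA.Cof5

/-!
# The coverings are cofinal: the choice of the translate
-/

open Polynomial

namespace Pool.Agent.Lib.MP_2f3286_ag.UA

universe u v

theorem exists_notMem_three {k C : Type*} [Infinite k] {f : k → C} (hf : Function.Injective f)
    {S₁ S₂ S₃ : Set C} (h1 : S₁.Finite) (h2 : S₂.Finite) (h3 : S₃.Finite) :
    ∃ l : k, f l ∉ S₁ ∧ f l ∉ S₂ ∧ f l ∉ S₃ := by
  by_contra hcon
  push Not at hcon
  have h4 : Set.Finite (Set.range f) := by
    refine ((h1.union h2).union h3).subset ?_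
    rintro _ ⟨l, rfl⟩
    by_cases a1 : f l ∈ S₁
    · exact Or.inl (Or.inl a1)
    · by_cases a2 : f l ∈ S₂
      · exact Or.inl (Or.inr a2)
      · exact Or.inr (hcon l a1 a2)
  exact (Set.infinite_range_of_injective hf) h4

/-- the choice of `t` -/
theorem cof_choice {k : Type u} [Field k] [CharZero k] (A B : k) (hAB : A ^ 2 ≠ B)
    {K Ω : Type v} [Field K] [Algebra k K] [Field Ω] [IsAlgClosed Ω] [Algebra K Ω] [Algebra k Ω]
    [IsScalarTower k K Ω] (htr : Algebra.trdeg k K = 1)
    (hfg : (⊤ : IntermediateField k K).FG) :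
    ∃ (M : Subfield Ω) (t : K) (d e : Ω), (∀ y : K, algebraMap K Ω y ∈ M) ∧
      (∀ y : Ω, IsAlgebraic k y → y ∈ M) ∧ (∀ c : k, t ≠ algebraMap k K c) ∧ d ∈ M ∧ e ∈ M ∧
      d + e = algebraMap k Ω A ∧ (d - e) ^ 2 = algebraMap k Ω B ∧
      (∀ s ∈ M, s ^ 2 ≠ (algebraMap K Ω t) ^ 3 - d * algebraMap K Ω t) ∧
      (∀ s ∈ M, s ^ 2 ≠ (algebraMap K Ω t) ^ 3 - e * algebraMap K Ω t) ∧
      (d ≠ e → ∀ s ∈ M, s ^ 2 ≠ ((algebraMap K Ω t) ^ 3 - d * algebraMap K Ω t) *
        ((algebraMap K Ω t) ^ 3 - e * algebraMap K Ω t)) := by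
  classical
  obtain ⟨x, hx⟩ : ∃ x : K, Transcendental k x := by
    have h1 : Algebra.Transcendental k K :=
      trdeg_ne_zero_iff.1 (by rw [htr]; exact one_ne_zero)
    exact h1.transcendental
  have hCc : IsAlgClosed (algebraicClosure k Ω) :=
    (algebraicClosure.isAlgClosure k Ω).isAlgClosed
  have hCc0 : CharZero (algebraicClosure k Ω) :=
    charZero_of_injective_algebraMap (algebraMap k _).injective
  have hCalg : Algebra.IsAlgebraic k (algebraicClosure k Ω) :=
    (algebraicClosure.isAlgClosure k Ω).isAlgebraic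
  have hx' : Transcendental (algebraicClosure k Ω) (algebraMap K Ω x) := by
    intro halg
    have h1 : IsAlgebraic k (algebraMap K Ω x) := halg.restrictScalars k
    exact hx ((isAlgebraic_algebraMap_iff (algebraMap K Ω).injective).1 h1)
  obtain ⟨E₀, hE₀, hKE⟩ := exists_big_field htr hfg hx (algebraicClosure k Ω)
  have hCE : ∀ c : algebraicClosure k Ω, (c : Ω) ∈ E₀ := by
    intro c
    exact E₀.algebraMap_mem (algebraMap (algebraicClosure k Ω) _ c)
  obtain ⟨δ, hδ⟩ := IsAlgClosed.exists_pow_nat_eq (algebraMap k (algebraicClosure k Ω) B)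
    (n := 2) (by norm_num)
  obtain ⟨d, hd⟩ : ∃ d, d = (algebraMap k (algebraicClosure k Ω) A + δ) / 2 := ⟨_, rfl⟩
  obtain ⟨e, he⟩ : ∃ e, e = (algebraMap k (algebraicClosure k Ω) A - δ) / 2 := ⟨_, rfl⟩
  have hsum : d + e = algebraMap k (algebraicClosure k Ω) A := by rw [hd, he]; ring
  have hdiff : d - e = δ := by rw [hd, he]; ring
  have hprod : d * e ≠ 0 := by
    intro h
    apply hAB
    apply (algebraMap k (algebraicClosure k Ω)).injective
    rw [map_pow, ← hsum, ← hδ, ← hdiff]
    linear_combination 4 * h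
  have hd0 : d ≠ 0 := left_ne_zero_of_mul hprod
  have he0 : e ≠ 0 := right_ne_zero_of_mul hprod
  have F1 := finite_shift_square hx' E₀ (separable_cubic d hd0) (by rw [natDegree_cubic]; norm_num)
  have F2 := finite_shift_square hx' E₀ (separable_cubic e he0) (by rw [natDegree_cubic]; norm_num)
  have F3 : {l : algebraicClosure k Ω | d ≠ e ∧ ∃ r ∈ E₀, r ^ 2 =
      aeval (algebraMap K Ω x + algebraMap (algebraicClosure k Ω) Ω l)
        ((X ^ 2 - C d) * (X ^ 2 - C e))}.Finite := by
    by_cases hde : d = e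
    · convert Set.finite_empty (α := algebraicClosure k Ω)
      ext l
      simp [hde]
    · exact (finite_shift_square hx' E₀ (separable_quartic d e hd0 he0 hde)
        (by rw [natDegree_quartic]; norm_num)).subset (fun l hl => hl.2)
  obtain ⟨l, hl1, hl2, hl3⟩ := exists_notMem_three
    (algebraMap k (algebraicClosure k Ω)).injective F1 F2 F3
  have ht : algebraMap K Ω x + algebraMap (algebraicClosure k Ω) Ω
      (algebraMap k (algebraicClosure k Ω) l) = algebraMap K Ω (x + algebraMap k K l) := by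
    rw [map_add, ← IsScalarTower.algebraMap_apply k K Ω, ← IsScalarTower.algebraMap_apply]
  have ht0 : algebraMap K Ω (x + algebraMap k K l) ≠ 0 := by
    intro h
    have h1 : x + algebraMap k K l = 0 := (map_eq_zero (algebraMap K Ω)).1 h
    apply hx
    have h2 : x = algebraMap k K (-l) := by
      rw [map_neg]
      exact eq_neg_of_add_eq_zero_left h1
    rw [h2]
    exact isAlgebraic_algebraMap _
  refine ⟨E₀.toSubfield, x + algebraMap k K l, d, e, hKE, ?_, ?_, hCE d, hCE e, ?_, ?_, ?_, ?_, ?_⟩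
  · intro y hy
    exact hCE ⟨y, mem_algebraicClosure_iff.2 hy⟩
  · intro c hc
    apply hx
    have h2 : x = algebraMap k K (c - l) := by
      rw [map_sub, ← hc]
      ring
    rw [h2]
    exact isAlgebraic_algebraMap _
  · exact congrArg (algebraMap (algebraicClosure k Ω) Ω) hsum
  · have := congrArg (algebraMap (algebraicClosure k Ω) Ω) hδ
    rw [← hdiff] at this
    exact this
  · intro s hs hs2
    apply hl1
    refine ⟨s, hs, ?_⟩
    rw [hs2, ht]
    simp
  · intro s hs hs2
    apply hl2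
    refine ⟨s, hs, ?_⟩
    rw [hs2, ht]
    simp
  · intro hde s hs hs2
    apply hl3
    refine ⟨fun h => hde (by rw [h]), s / algebraMap K Ω (x + algebraMap k K l),
      E₀.div_mem hs (hKE _), ?_⟩
    rw [div_pow, hs2, ht]
    rw [div_eq_iff (pow_ne_zero 2 ht0)]
    simp only [map_mul, map_sub, map_pow, aeval_X, aeval_C]
    rw [IntermediateField.algebraMap_apply, IntermediateField.algebraMap_apply]
    ring

end Pool.Agent.Lib.MP_2f3286_ag.UA
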