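import Mathlib

/-!
# Valuation rings of a function field and a Dedekind ring
-/

open IsDedekindDomain

namespace Pool.Agent.Lib.MP_2f3286_ag.UA

/-- a valuation ring of the field of fractions of a Dedekind ring which contains this ring -/
theorem exists_heightOne {O K : Type*} [CommRing O] [IsDedekindDomain O] [Field K] [Algebra O K]
    [IsFractionRing O K] (V : ValuationSubring K) (hV : V ≠ ⊤) (hO : ∀ a : O, algebraMap O K a ∈ V) :
    ∃ P : HeightOneSpectrum O, (P.valuation K).valuationSubring = V := by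
  classical
  obtain ⟨f, hf⟩ : ∃ f : O →+* V, ∀ a, ((f a : V) : K) = algebraMap O K a :=
    ⟨(algebraMap O K).codRestrict V hO, fun a => rfl⟩
  obtain ⟨I, hI⟩ : ∃ I : Ideal O, I = (IsLocalRing.maximalIdeal V).comap f := ⟨_, rfl⟩
  have hIp : I.IsPrime := by
    rw [hI]
    exact Ideal.comap_isPrime _ _
  have hmem : ∀ a : O, a ∉ I → (algebraMap O K a)⁻¹ ∈ V := by
    intro a ha
    have h1 : IsUnit (f a) := by
      by_contra h
      apply ha
      rw [hI, Ideal.mem_comap, IsLocalRing.mem_maximalIdeal]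
      exact h
    obtain ⟨u, hu⟩ := h1
    have h2 : ((f a : V) : K) * (((u⁻¹ : Vˣ) : V) : K) = 1 := by
      rw [← hu]
      exact congrArg Subtype.val (Units.mul_inv u)
    rw [hf] at h2
    rw [inv_eq_of_mul_eq_one_right h2]
    exact (((u⁻¹ : Vˣ) : V)).2
  have hbot : I ≠ ⊥ := by
    intro h
    apply hV
    rw [eq_top_iff]
    intro x _
    obtain ⟨a, b, hb, rfl⟩ := IsFractionRing.div_surjective (A := O) x
    have h1 : b ∉ I := by
      rw [h]
      exact nonZeroDivisors.ne_zero hb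
    rw [div_eq_mul_inv]
    exact V.mul_mem _ _ (hO a) (hmem b h1)
  refine ⟨⟨I, hIp, hbot⟩, ?_⟩
  rw [← HeightOneSpectrum.valuationSubringAtPrime_eq_valuationSubring]
  refine ValuationSubring.eq_of_le_of_ne_top _ ?_ hV
  rw [HeightOneSpectrum.valuationSubringAtPrime_eq_valuationSubring]
  intro x hx
  obtain ⟨n, d, hnd⟩ := HeightOneSpectrum.exists_primeCompl_mul_eq_of_integer _ x hx
  have hd := hmem d d.2
  have hd0 : algebraMap O K d ≠ 0 := by
    intro h0
    have h1 : (d : O) = 0 := (FaithfulSMul.algebraMap_eq_zero_iff O K).1 h0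
    exact d.2 (by rw [h1]; exact I.zero_mem)
  have : x = algebraMap O K n * (algebraMap O K d)⁻¹ := by
    rw [← hnd, mul_assoc, mul_inv_cancel₀ hd0, mul_one]
  rw [this]
  exact V.mul_mem _ _ (hO n) hd

/-- uniformizers at finitely many valuation rings -/
theorem exists_uniformizer_of_dedekind {O K : Type*} [CommRing O] [IsDedekindDomain O] [Field K]
    [Algebra O K] [IsFractionRing O K] (S : Finset (ValuationSubring K)) (hS : ∀ V ∈ S, V ≠ ⊤)
    (hO : ∀ V ∈ S, ∀ a : O, algebraMap O K a ∈ V) :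
    ∃ π : K, ∀ V ∈ S, π ∈ V ∧ π⁻¹ ∉ V ∧ ∀ x : K, x ≠ 0 →
      ∃ (n : ℤ) (u : K), u ∈ V ∧ u⁻¹ ∈ V ∧ x = π ^ n * u := by
  classical
  have hP : ∀ V : S, ∃ P : HeightOneSpectrum O, (P.valuation K).valuationSubring = V :=
    fun V => exists_heightOne (V : ValuationSubring K) (hS V V.2) (hO V V.2)
  choose P hP using hP
  have hu : ∀ V : S, ∃ π : O, (P V).intValuation π = WithZero.exp (-1 : ℤ) :=
    fun V => (P V).intValuation_exists_uniformizer
  choose π hπ using hu
  obtain ⟨y, hy⟩ := IsDedekindDomain.exists_forall_sub_mem_ideal (s := (Finset.univ : Finset S))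
    (fun V => (P V).asIdeal) (fun _ => 2) (fun V _ => (P V).prime)
    (fun V _ V' _ hne h => hne (by
      apply Subtype.ext
      rw [← hP V, ← hP V', HeightOneSpectrum.ext h])) (fun V => π V)
  refine ⟨algebraMap O K y, fun V hV => ?_⟩
  have hyV : (P ⟨V, hV⟩).valuation K (algebraMap O K y) = WithZero.exp (-1 : ℤ) := by
    have h1 := hy ⟨V, hV⟩ (Finset.mem_univ _)
    rw [← HeightOneSpectrum.intValuation_le_pow_iff_mem] at h1
    have h2 : (P ⟨V, hV⟩).intValuation (y - π ⟨V, hV⟩) < (P ⟨V, hV⟩).intValuation (π ⟨V, hV⟩) := by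
      rw [hπ]
      refine lt_of_le_of_lt h1 ?_
      rw [WithZero.exp_lt_exp]
      norm_num
    have h3 : y = π ⟨V, hV⟩ + (y - π ⟨V, hV⟩) := by ring
    rw [HeightOneSpectrum.valuation_of_algebraMap, h3, Valuation.map_add_eq_of_lt_left _ h2, hπ]
  have hmem : ∀ x : K, x ∈ V ↔ (P ⟨V, hV⟩).valuation K x ≤ 1 := by
    intro x
    rw [← Valuation.mem_valuationSubring_iff, hP]
  have hy0 : algebraMap O K y ≠ 0 := by
    intro h
    rw [h, map_zero] at hyV
    exact WithZero.exp_ne_zero hyV.symm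
  refine ⟨hO V hV y, ?_, ?_⟩
  · rw [hmem, map_inv₀, hyV, ← WithZero.exp_neg, ← WithZero.exp_zero, WithZero.exp_le_exp]
    norm_num
  · intro x hx
    obtain ⟨m, hm⟩ : ∃ m : ℤ, (P ⟨V, hV⟩).valuation K x = WithZero.exp m :=
      ⟨_, (WithZero.exp_log ((Valuation.ne_zero_iff _).2 hx)).symm⟩
    have hval : (P ⟨V, hV⟩).valuation K (x * (algebraMap O K y) ^ m) = 1 := by
      rw [map_mul, map_zpow₀, hm, hyV, ← WithZero.exp_zsmul, ← WithZero.exp_add,
        ← WithZero.exp_zero]
      congr 1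
      simp
    refine ⟨-m, x * (algebraMap O K y) ^ m, ?_, ?_, ?_⟩
    · rw [hmem, hval]
    · rw [hmem, map_inv₀, hval, inv_one]
    · rw [mul_comm x, ← mul_assoc, zpow_neg, inv_mul_cancel₀ (zpow_ne_zero _ hy0), one_mul]

end Pool.Agent.Lib.MP_2f3286_ag.UA
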