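import Pool.Agent.Lib.MP_2f3286_ag.UA.Cp2

/-!
# Rational places above rational places
-/

open Polynomial

namespace Pool.Agent.Lib.MP_2f3286_ag.UA

/-- every valuation ring has an extension -/
theorem exists_over {K L : Type*} [Field K] [Field L] [Algebra K L] (V : ValuationSubring K) :
    ∃ W : ValuationSubring L, W.comap (algebraMap K L) = V := by
  obtain ⟨W, h1, h2⟩ := IsLocalRing.exists_factor_valuationRing ((algebraMap K L).comp V.subtype)
  refine ⟨W, ?_⟩
  ext x
  rw [ValuationSubring.mem_comap]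
  constructor
  · intro hx
    by_contra hxV
    have hinv : x⁻¹ ∈ V := (V.mem_or_inv_mem x).resolve_left hxV
    have hx0 : x ≠ 0 := by
      rintro rfl
      exact hxV V.zero_mem
    have h3 : IsUnit ((((algebraMap K L).comp V.subtype).codRestrict W.toSubring h1) ⟨x⁻¹, hinv⟩) := by
      refine IsUnit.of_mul_eq_one (⟨algebraMap K L x, hx⟩ : W.toSubring) ?_
      apply Subtype.ext
      change algebraMap K L x⁻¹ * algebraMap K L x = 1
      rw [← map_mul, inv_mul_cancel₀ hx0, map_one]
    have h4 : IsUnit (⟨x⁻¹, hinv⟩ : V) := h2.map_nonunit _ h3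
    obtain ⟨b, hb⟩ := h4.exists_right_inv
    have h6 : x⁻¹ * (b : K) = 1 := congrArg Subtype.val hb
    have h7 : (b : K) = x := by
      rw [inv_mul_eq_one₀ hx0] at h6
      exact h6.symm
    exact hxV (h7 ▸ b.2)
  · intro hx
    exact h1 ⟨x, hx⟩

section

variable {Γ : Type*} [LinearOrderedCommGroupWithZero Γ]

theorem zpow_eq_iff {g : Γ} (hg0 : g ≠ 0) (hg1 : g < 1) {m n : ℤ} : g ^ m = g ^ n ↔ m = n := by
  constructor
  · intro h
    have h1 := zpow_right_strictAnti₀ (zero_lt_iff.2 hg0) hg1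
    exact h1.injective h
  · rintro rfl
    rfl

variable {k K L : Type*} [Field k] [Field K] [Field L] [Algebra K L] [Algebra k L]
  (v : Valuation L Γ)

/-- `x` is near to an element of `K` -/
def Near (K : Type*) {L : Type*} [Field K] [Field L] [Algebra K L] {Γ : Type*}
    [LinearOrderedCommGroupWithZero Γ] (v : Valuation L Γ) (x : L) : Prop :=
  ∃ c : K, v (x - algebraMap K L c) < v x

theorem Near.val {v : Valuation L Γ} {x : L} {c : K} (h : v (x - algebraMap K L c) < v x) :
    v (algebraMap K L c) = v x := by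
  have h1 : algebraMap K L c = x - (x - algebraMap K L c) := by ring
  rw [h1]
  exact Valuation.map_sub_eq_of_lt_left _ h

/-- approximation of the small root of `u (1 - u) = ε` -/
theorem approx_root {g : Γ} {u : L} {ε : K} (hu : u * (1 - u) = algebraMap K L ε) (hv : v u < 1)
    (hε : v (algebraMap K L ε) ≤ g) (hg1 : g < 1) (n : ℕ) :
    ∃ r : K, v (algebraMap K L r) < 1 ∧ v (u - algebraMap K L r) ≤ g ^ n := by
  induction n with
  | zero =>
    refine ⟨0, ?_, ?_⟩
    · rw [map_zero, map_zero]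
      exact zero_lt_one
    · rw [map_zero, sub_zero, pow_zero]
      exact hv.le
  | succ n ih =>
    obtain ⟨r, hr1, hr⟩ := ih
    have h1 : v (1 - algebraMap K L r) = 1 := by
      rw [Valuation.map_one_sub_of_lt _ hr1]
    have h2 : v (1 - u) = 1 := by
      rw [Valuation.map_one_sub_of_lt _ hv]
    have h3 : (1 : L) - algebraMap K L r ≠ 0 := by
      intro h0
      rw [h0, map_zero] at h1
      exact zero_ne_one h1
    have h4 : (1 : L) - u ≠ 0 := by
      intro h0
      rw [h0, map_zero] at h2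
      exact zero_ne_one h2
    refine ⟨ε / (1 - r), ?_, ?_⟩
    · rw [map_div₀, map_sub, map_one, map_div₀, h1, div_one]
      exact lt_of_le_of_lt hε hg1
    · have h5 : u - algebraMap K L (ε / (1 - r)) =
          algebraMap K L ε * (u - algebraMap K L r) / ((1 - u) * (1 - algebraMap K L r)) := by
        rw [map_div₀, map_sub, map_one, ← hu]
        field_simp
        ring
      rw [h5, map_div₀, map_mul, map_mul, h1, h2, mul_one, div_one, pow_succ, mul_comm]
      exact mul_le_mul' hr hε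

/-- elements of `K + K u` are near to elements of `K` -/
theorem near_add_mul {g : Γ} (hg0 : g ≠ 0) (hg1 : g < 1)
    (hK : ∀ x : K, x ≠ 0 → ∃ n : ℤ, v (algebraMap K L x) = g ^ n) {u : L} {ε : K}
    (hu : u * (1 - u) = algebraMap K L ε) (hv : v u < 1) (hε : v (algebraMap K L ε) ≤ g)
    (a b : K) (hx : algebraMap K L a + algebraMap K L b * u ≠ 0) :
    Near K v (algebraMap K L a + algebraMap K L b * u) := by
  obtain ⟨x, hxe⟩ : ∃ x, x = algebraMap K L a + algebraMap K L b * u := ⟨_, rfl⟩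
  rw [← hxe] at hx ⊢
  have hvx : v x ≠ 0 := (Valuation.ne_zero_iff _).2 hx
  by_cases hb : b = 0
  · refine ⟨a, ?_⟩
    rw [hxe, hb, map_zero, zero_mul, add_zero, sub_self, map_zero, zero_lt_iff]
    rw [hxe, hb, map_zero, zero_mul, add_zero] at hvx
    exact hvx
  -- it is enough to have `x` larger than `b * g ^ n`
  suffices h : ∃ n : ℕ, v (algebraMap K L b) * g ^ n < v x by
    obtain ⟨n, hn⟩ := h
    obtain ⟨r, -, hr⟩ := approx_root v hu hv hε hg1 n
    refine ⟨a + b * r, ?_⟩
    have h1 : x - algebraMap K L (a + b * r) = algebraMap K L b * (u - algebraMap K L r) := by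
      rw [hxe, map_add, map_mul]
      ring
    rw [h1, map_mul]
    exact lt_of_le_of_lt (mul_le_mul' le_rfl hr) hn
  by_contra hcon
  push Not at hcon
  obtain ⟨β, hβ⟩ := hK b hb
  obtain ⟨x', hx'⟩ : ∃ x', x' = algebraMap K L a + algebraMap K L b * (1 - u) := ⟨_, rfl⟩
  have hN : x * x' = algebraMap K L (a ^ 2 + a * b + b ^ 2 * ε) := by
    rw [hxe, hx', map_add, map_add, map_mul, map_mul, map_pow, map_pow, ← hu]
    ring
  by_cases hN0 : a ^ 2 + a * b + b ^ 2 * ε = 0
  · rw [hN0, map_zero] at hN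
    have h1 : x' = 0 := (mul_eq_zero.1 hN).resolve_left hx
    have hb' : algebraMap K L b ≠ 0 := (_root_.map_ne_zero _).2 hb
    have h2 : x = algebraMap K L (a + b * (1 + a / b)) := by
      rw [map_add, map_mul, map_add, map_div₀, map_one]
      rw [hx'] at h1
      rw [hxe]
      field_simp
      linear_combination -h1
    obtain ⟨m, hm⟩ := hK (a + b * (1 + a / b)) (by
      intro h0
      rw [h0, map_zero] at h2
      exact hx h2)
    have h3 := hcon (m - β + 1).toNat
    rw [h2, hm, hβ, ← zpow_natCast, ← zpow_add₀ hg0] at h3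
    have h4 := (zpow_right_strictAnti₀ (zero_lt_iff.2 hg0) hg1).le_iff_ge.1 h3
    have h5 := Int.self_le_toNat (m - β + 1)
    omega
  · obtain ⟨m, hm⟩ := hK _ hN0
    have h1 : x' = x + algebraMap K L b * (1 - 2 * u) := by
      rw [hxe, hx']
      ring
    have h2 : v (1 - 2 * u) ≤ 1 := by
      refine (Valuation.map_sub _ _ _).trans (max_le (le_of_eq (map_one _)) ?_)
      rw [two_mul]
      exact (Valuation.map_add _ _ _).trans (max_le hv.le hv.le)
    have h3 : v x' ≤ g ^ β := by
      rw [h1]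
      refine (Valuation.map_add _ _ _).trans (max_le ?_ ?_)
      · have := hcon 0
        rw [pow_zero, mul_one, hβ] at this
        exact this
      · rw [map_mul, hβ]
        exact mul_le_of_le_one_right' h2
    have h4 : g ^ m ≤ g ^ (β + (m - 2 * β + 1).toNat + β) := by
      rw [← hm, ← hN, map_mul, zpow_add₀ hg0, zpow_add₀ hg0]
      have := hcon (m - 2 * β + 1).toNat
      rw [hβ, ← zpow_natCast] at this
      exact mul_le_mul' this h3
    have h5 := (zpow_right_strictAnti₀ (zero_lt_iff.2 hg0) hg1).le_iff_ge.1 h4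
    have h6 := Int.self_le_toNat (m - 2 * β + 1)
    omega

/-- residues of `a + b z` -/
theorem residue_add_mul [Algebra k K] [IsScalarTower k K L] {g : Γ} (hg0 : g ≠ 0) (hg1 : g < 1)
    (hK : ∀ x : K, x ≠ 0 → ∃ n : ℤ, v (algebraMap K L x) = g ^ n)
    (hres : ∀ x : K, v (algebraMap K L x) ≤ 1 → ∃ c : k, v (algebraMap K L x - algebraMap k L c) < 1)
    {z : L} {m : ℤ} (hm : v (z ^ 2) = g ^ m) (hodd : Odd m) {a b : L}
    (ha : a ≠ 0 → Near K v a) (hb : b ≠ 0 → Near K v b) (hx : v (a + b * z) ≤ 1) :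
    ∃ c : k, v (a + b * z - algebraMap k L c) < 1 := by
  have hval : ∀ y : L, Near K v y → ∃ n : ℤ, v y = g ^ n := by
    rintro y ⟨c, hc⟩
    have h1 := Near.val hc
    have h2 : c ≠ 0 := by
      rintro rfl
      rw [map_zero, sub_zero] at hc
      exact lt_irrefl _ hc
    obtain ⟨n, hn⟩ := hK c h2
    exact ⟨n, by rw [← h1, hn]⟩
  have hresa : a ≠ 0 → v a ≤ 1 → ∃ c : k, v (a - algebraMap k L c) < 1 := by
    intro ha0 hva
    obtain ⟨c', hc'⟩ := ha ha0
    obtain ⟨c, hc⟩ := hres c' (by rw [Near.val hc']; exact hva)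
    refine ⟨c, ?_⟩
    have h1 : a - algebraMap k L c = (a - algebraMap K L c') + (algebraMap K L c' - algebraMap k L c) := by
      ring
    rw [h1]
    exact lt_of_le_of_lt (Valuation.map_add _ _ _) (max_lt (lt_of_lt_of_le hc' hva) hc)
  have hbz : b ≠ 0 → ∃ n : ℤ, Odd n ∧ v (b * z) ^ 2 = g ^ n := by
    intro hb0
    obtain ⟨β, hβ⟩ := hval b (hb hb0)
    refine ⟨2 * β + m, ?_, ?_⟩
    · exact (even_two_mul β).add_odd hodd
    · rw [map_mul, mul_pow, ← map_pow v z, hm, hβ, zpow_add₀ hg0, mul_comm 2 β, zpow_mul, zpow_ofNat]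
  by_cases hb0 : b = 0
  · subst hb0
    rw [zero_mul, add_zero] at hx ⊢
    by_cases ha0 : a = 0
    · refine ⟨0, ?_⟩
      rw [ha0, map_zero, sub_zero, map_zero]
      exact zero_lt_one
    · exact hresa ha0 hx
  obtain ⟨n, hn, hvn⟩ := hbz hb0
  have hlt : v (b * z) ≤ 1 → v (b * z) < 1 := by
    intro h
    refine lt_of_le_of_ne h fun h1 => ?_
    rw [h1, one_pow] at hvn
    have h2 : g ^ (0 : ℤ) = g ^ n := by rw [zpow_zero]; exact hvn
    have h3 := (zpow_eq_iff hg0 hg1).1 h2
    rw [← h3] at hn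
    exact absurd hn (by decide)
  by_cases ha0 : a = 0
  · refine ⟨0, ?_⟩
    rw [ha0, zero_add] at hx ⊢
    rw [map_zero, sub_zero]
    exact hlt hx
  have hne : v a ≠ v (b * z) := by
    intro h
    obtain ⟨α, hα⟩ := hval a (ha ha0)
    have h1 : g ^ (2 * α) = g ^ n := by
      rw [← hvn, ← h, hα, mul_comm 2 α, zpow_mul, zpow_ofNat]
    have h2 := (zpow_eq_iff hg0 hg1).1 h1
    rw [← h2] at hn
    exact absurd (even_two_mul α) (Int.not_even_iff_odd.2 hn)
  have hmax : v (a + b * z) = max (v a) (v (b * z)) := Valuation.map_add_of_distinct_val _ hne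
  rw [hmax] at hx
  have h1 : v a ≤ 1 := (le_max_left _ _).trans hx
  have h2 : v (b * z) < 1 := hlt ((le_max_right _ _).trans hx)
  obtain ⟨c, hc⟩ := hresa ha0 h1
  refine ⟨c, ?_⟩
  have h3 : a + b * z - algebraMap k L c = (a - algebraMap k L c) + b * z := by ring
  rw [h3]
  exact lt_of_le_of_lt (Valuation.map_add _ _ _) (max_lt hc h2)

end

end Pool.Agent.Lib.MP_2f3286_ag.UA
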