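import Pool.Agent.Lib.MP_2f3286_ag.UA.Defs

/-!
# The curve `y ^ 2 = x ^ 3 - d x` with small Selmer group
-/

open NumberField IsDedekindDomain Polynomial

namespace Pool.Agent.Lib.MP_2f3286_ag.UA

/-- `f = X ^ 3 - d X`, where `d` is not a square and the Selmer group is as small as possible -/
structure Crv {k : Type*} [Field k] [NumberField k] (i d : k) (f : k[X]) : Prop where
  hi : i ^ 2 = -1
  hd : d ≠ 0
  hns : ¬ IsSquare d
  sel : SelTriv d
  hf : f = X ^ 3 - C d * X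

namespace Crv

variable {k : Type*} [Field k] [NumberField k] {i d : k} {f : k[X]}

theorem i_ne_zero (h : Crv i d f) : i ≠ 0 := by
  have hi := h.hi
  rintro rfl
  rw [zero_pow two_ne_zero] at hi
  exact one_ne_zero (neg_eq_zero.1 hi.symm)

theorem natDegree (h : Crv i d f) : f.natDegree = 2 * 1 + 1 := by
  rw [h.hf]
  compute_degree!

theorem monic (h : Crv i d f) : f.Monic := by
  rw [h.hf]
  monicity!

theorem eval_zero (h : Crv i d f) : f.eval 0 = 0 := by
  rw [h.hf]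
  simp

theorem derivative (h : Crv i d f) : f.derivative = 3 * X ^ 2 - C d := by
  have h3 : (C (2 : k) : k[X]) + 1 = 3 := by
    rw [← C_1, ← C_add, two_add_one_eq_three]
    rfl
  rw [h.hf]
  simp [h3]

theorem separable (h : Crv i d f) : f.Separable := by
  have hd := h.hd
  have h1 : (C d⁻¹ : k[X]) * C d = 1 := by
    rw [← C_mul, inv_mul_cancel₀ hd, C_1]
  have h2 : (2 : k[X]) * C 2⁻¹ = 1 := by
    have h3 : (2 : k[X]) = C 2 := rfl
    rw [h3, ← C_mul, mul_inv_cancel₀ two_ne_zero, C_1]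
  refine ⟨-9 * C 2⁻¹ * C d⁻¹ ^ 2 * X, 3 * C 2⁻¹ * C d⁻¹ ^ 2 * X ^ 2 - C d⁻¹, ?_⟩
  rw [h.derivative, h.hf]
  linear_combination (6 * C 2⁻¹ * C d⁻¹ * X ^ 2 + 1) * h1 + 3 * C d⁻¹ * X ^ 2 * h2

theorem derivative_eval_zero (h : Crv i d f) : f.derivative.eval 0 = -d := by
  rw [h.derivative]
  simp

theorem aeval_eq (h : Crv i d f) {A : Type*} [CommRing A] [Algebra k A] (x : A) :
    aeval x f = x ^ 3 - algebraMap k A d * x := by
  rw [h.hf]
  simp

end Crv

end Pool.Agent.Lib.MP_2f3286_ag.UA
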