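import Pool.Agent.Lib.MP_2f3286_ag.GU.Geo
import Pool.Agent.Lib.MP_2f3286_ag.Fer.FT

/-!
# A function whose values at all local places avoid enough points is constant on them
-/

open IsDedekindDomain NumberField Polynomial
open Pool.Agent.Lib.MP_2f3286_bir (IsPlaceOf)

namespace Pool.Agent.Lib.MP_2f3286_ag.UA

open Pool.Agent.Lib.MP_2f3286_ag.GU

universe u w₁

/-- A function whose values at all local places avoid enough points is constant on them. -/
theorem const_of_enough {k : Type u} [Field k] [NumberField k]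
    {K : Type*} [Field K] [Algebra k K] (htr : Algebra.trdeg k K = 1)
    {M : Type*} [Field M] [Algebra K M] [Algebra.IsAlgebraic K M]
    [Algebra (AlgebraicClosure k) M] [Algebra k M]
    [IsScalarTower k K M] [IsScalarTower k (AlgebraicClosure k) M]
    (t : K) (ht : ∀ c : k, t ≠ algebraMap k K c)
    {J : Type*} [Fintype J] (P : J → k[X]) (j₀ : J) (hdeg : 0 < (P j₀).natDegree)
    (hE : EnoughPoints.{u, w₁} k ∅ P)
    (hroots : ∀ b : M, IsIntegral (polyAlg t P) b → IsIntegral (polyAlg t P) b⁻¹ →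
      ∀ n : ℕ, 1 ≤ n → ∃ c : M, c ^ n = b)
    (s : Gal(AlgebraicClosure k/k) →* Gal(M/K)) (hs : Continuous s)
    (hsec : ∀ σ a, s σ (algebraMap (AlgebraicClosure k) M a) =
      algebraMap (AlgebraicClosure k) M (σ a))
    (ι : ∀ v : HeightOneSpectrum (𝓞 k),
      AlgebraicClosure k →ₐ[k] AlgebraicClosure (v.adicCompletion k))
    (A : HeightOneSpectrum (𝓞 k) → ValuationSubring M)
    (φ : ∀ v : HeightOneSpectrum (𝓞 k), A v →+* AlgebraicClosure (v.adicCompletion k))
    (hφ : ∀ v, IsPlaceOf s (v.adicCompletion k)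
      (ι v : _ →+* AlgebraicClosure (v.adicCompletion k)) (A v) (φ v))
    (x : ∀ v : HeightOneSpectrum (𝓞 k), v.adicCompletion k)
    (hx : ∀ v, ∃ h : algebraMap K M t ∈ A v, φ v ⟨algebraMap K M t, h⟩ = algebraMap _ _ (x v))
    (hxC : ∀ v, ∀ j, aeval (x v) (P j) ≠ 0)
    (T : Finset (HeightOneSpectrum (𝓞 k)))
    (hint : ∀ v, v ∉ T → ∀ j, Valued.v (aeval (x v) (P j)) = (1 : WithZero (Multiplicative ℤ))) :
    ∃ c : k, ∀ v, x v = algebraMap k (v.adicCompletion k) c := by
  classical
  have hkA : ∀ v, ∀ c : k, ∃ h : algebraMap K M (algebraMap k K c) ∈ A v,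
      φ v ⟨algebraMap K M (algebraMap k K c), h⟩ =
        algebraMap _ _ (algebraMap k (v.adicCompletion k) c) := by
    intro v c
    obtain ⟨h, h'⟩ := (hφ v).1 (algebraMap k _ c)
    have h1 : algebraMap (AlgebraicClosure k) M (algebraMap k _ c) =
        algebraMap K M (algebraMap k K c) := by
      rw [← IsScalarTower.algebraMap_apply, ← IsScalarTower.algebraMap_apply]
    have h2 : algebraMap K M (algebraMap k K c) ∈ A v := by rw [← h1]; exact h
    refine ⟨h2, ?_⟩
    have h3 : (⟨algebraMap K M (algebraMap k K c), h2⟩ : A v) = ⟨_, h⟩ := Subtype.ext h1.symm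
    rw [h3, h']
    change ι v (algebraMap k _ c) = _
    rw [AlgHom.commutes]
    rfl
  have htc : ∀ v, ∀ p : k[X], ∃ h : algebraMap K M (aeval t p) ∈ A v,
      φ v ⟨algebraMap K M (aeval t p), h⟩ = algebraMap _ _ (aeval (x v) p) := by
    intro v p
    obtain ⟨h1, h2⟩ := hx v
    let κ : k →+* A v := ((algebraMap K M).comp (algebraMap k K)).codRestrict (A v).toSubring
      (fun c => (hkA v c).1)
    have h3 : ((eval₂ κ (⟨algebraMap K M t, h1⟩ : A v) p : A v) : M) = algebraMap K M (aeval t p) := by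
      have h4 := hom_eval₂ p κ (A v).subtype (⟨algebraMap K M t, h1⟩ : A v)
      change (A v).subtype (eval₂ κ (⟨algebraMap K M t, h1⟩ : A v) p) = _
      rw [h4, aeval_def, hom_eval₂]
      rfl
    have h5 : algebraMap K M (aeval t p) ∈ A v := by
      rw [← h3]; exact (eval₂ κ (⟨algebraMap K M t, h1⟩ : A v) p).2
    refine ⟨h5, ?_⟩
    have h6 : (⟨algebraMap K M (aeval t p), h5⟩ : A v) = eval₂ κ (⟨algebraMap K M t, h1⟩ : A v) p :=
      Subtype.ext h3.symm
    rw [h6, hom_eval₂, h2, aeval_def, hom_eval₂]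
    congr 1
    refine RingHom.ext fun c => ?_
    exact (hkA v c).2
  obtain ⟨v₁, -⟩ := exists_notMem (∅ : Finset (HeightOneSpectrum (𝓞 k)))
  have h0 : ∀ j, aeval t (P j) ≠ 0 := by
    intro j h0
    obtain ⟨h1, h2⟩ := htc v₁ (P j)
    have h3 : (⟨algebraMap K M (aeval t (P j)), h1⟩ : A v₁) = 0 := by
      apply Subtype.ext
      change algebraMap K M (aeval t (P j)) = 0
      rw [h0, map_zero]
    rw [h3, map_zero] at h2
    exact hxC v₁ j ((map_eq_zero _).mp h2.symm)
  have hRA : ∀ v, ∀ r : polyAlg t P, algebraMap K M (r : K) ∈ A v := by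
    rintro v ⟨r, hr⟩
    change algebraMap K M r ∈ A v
    rw [polyAlg] at hr
    induction hr using Algebra.adjoin_induction with
    | mem r hr =>
      rcases hr with rfl | ⟨j, rfl⟩
      · exact (hx v).1
      · obtain ⟨h1, h2⟩ := htc v (P j)
        beta_reduce
        rw [map_inv₀]
        refine (hφ v).2.1 _ (?_ : φ v ⟨_, h1⟩ ≠ 0)
        rw [h2, _root_.map_ne_zero]
        exact hxC v j
    | algebraMap c => exact (hkA v c).1
    | add a b _ _ ha hb => rw [map_add]; exact add_mem ha hb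
    | mul a b _ _ ha hb => rw [map_mul]; exact mul_mem ha hb
  -- the points of the integral closure
  set R : Subalgebra k K := polyAlg t P with hR
  have hBA : ∀ v, ∀ b : M, IsIntegral R b → b ∈ A v := by
    intro v b hb
    let g : R →+* A v := ((algebraMap K M).comp (algebraMap R K)).codRestrict (A v).toSubring
      (fun r => hRA v r)
    have h1 : IsIntegral (A v) ((RingHom.id M) b) := by
      refine IsIntegral.map_of_comp_eq g (RingHom.id M) ?_ hb
      ext r
      rfl
    obtain ⟨y, hy⟩ := (IsIntegrallyClosed.isIntegral_iff (R := A v) (K := M)).mp h1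
    have h2 : (y : M) = b := hy
    rw [← h2]
    exact y.2
  let φ' : ∀ v : {v : HeightOneSpectrum (𝓞 k) // v ∉ (∅ : Finset (HeightOneSpectrum (𝓞 k)))},
      integralClosure R M →+* AlgebraicClosure (v.1.adicCompletion k) := fun v =>
    (φ v.1).comp ((algebraMap (integralClosure R M) M).codRestrict (A v.1).toSubring
      (fun b => hBA v.1 b b.2))
  have hφ'1 : ∀ v, ∀ b : integralClosure R M, φ' v b = φ v.1 ⟨b, hBA v.1 b b.2⟩ := fun v b => rfl
  have hφ' : ∀ v, Respects s (v.1.adicCompletion k)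
      (ι v.1 : _ →+* AlgebraicClosure (v.1.adicCompletion k)) (φ' v) := by
    intro v
    refine ⟨fun a b hab => ?_, fun σ τ hστ b b' hb => ?_⟩
    · obtain ⟨h, h'⟩ := (hφ v.1).1 a
      rw [hφ'1, ← h']
      congr 1
      exact Subtype.ext hab
    · obtain ⟨h, h'⟩ := (hφ v.1).2.2 σ τ hστ ⟨b, hBA v.1 b b.2⟩
      rw [hφ'1, hφ'1, ← h']
      congr 1
      exact Subtype.ext hb
  have hU : EnoughUnits.{u, w₁} k R ∅ (polyUnit t P h0) := enough_of_points.{u, w₁} ∅ t P h0 hE
  let t' : R := polyVar t P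
  have ht' : ∀ c : k, t' ≠ algebraMap k R c := fun c h => ht c (congrArg (Subtype.val : R → K) h)
  obtain ⟨S', χ, -, hχ, hvan⟩ := exists_poly_of_units R (polyAlg_fg t P) ∅ (polyUnit t P h0) hU
    hroots s hs hsec (fun v => ι v.1) φ' hφ' T 1 le_rfl
    (fun v hv j y z hy _ => by
      obtain ⟨h1, h2⟩ := htc v.1 (P j)
      have h3 : y = aeval (x v.1) (P j) := by
        apply (algebraMap (v.1.adicCompletion k) (AlgebraicClosure (v.1.adicCompletion k))).injective
        rw [← hy, ← h2]
        rfl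
      rw [h3]
      exact hint v.1 hv j) t'
  have hh : aeval t' χ ≠ 0 := transcendental_of_section R t' ht' s hsec hχ
  let inj : {v : HeightOneSpectrum (𝓞 k) // v ∉ S'} →
      {v : HeightOneSpectrum (𝓞 k) // v ∉ (∅ : Finset (HeightOneSpectrum (𝓞 k)))} :=
    fun v => ⟨v.1, Finset.notMem_empty _⟩
  obtain ⟨⟨ψ, hψ1, hψ2, -⟩, -⟩ := core_div htr R s hs hsec S' (fun v => ι v.1)
    (fun v => φ' (inj v)) (fun v => hφ' (inj v)) (aeval t' χ) hh (fun v => hvan (inj v) v.2)
  have hagree : ∀ v, ∀ c : divUnitRing R M, ∀ b : integralClosure R M, (b : M) = c →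
      φ' v b = ι v.1 (ψ c) := fun v c b hb =>
    local_agree R s hs hsec ψ hψ1 v.1 (ι v.1) (φ' v) (hφ' v) c b hb
  -- `t` is in the ring of the divisible units
  have hconst : ∀ a : AlgebraicClosure k, IsIntegral R (algebraMap _ M a) := by
    intro a
    have h1 : IsIntegral k a := Algebra.IsIntegral.isIntegral a
    have h2 : IsIntegral k (algebraMap (AlgebraicClosure k) M a) := h1.algebraMap
    have : IsScalarTower k R M := IsScalarTower.of_algebraMap_eq fun x => by
      rw [IsScalarTower.algebraMap_apply k K M]; rfl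
    exact h2.tower_top
  have hunit : ∀ b : M, IsIntegral R b → IsIntegral R b⁻¹ → b ∈ divUnitRing R M := fun b hb hb' =>
    Subring.subset_closure ⟨hb, hb', fun n hn => hroots b hb hb' n hn⟩
  have hkmem : ∀ a : AlgebraicClosure k, algebraMap _ M a ∈ divUnitRing R M := by
    intro a
    exact hunit _ (hconst a) (by rw [← map_inv₀]; exact hconst a⁻¹)
  have htM : algebraMap K M t ∈ divUnitRing R M := by
    have h1 := mem_units_of_unit (M := M) R t' (P j₀) hdeg (by
      have h2 : aeval t' (P j₀) = (polyUnit t P h0 j₀ : Rˣ) := by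
        apply Subtype.ext
        change ((aeval t' (P j₀) : R) : K) = aeval t (P j₀)
        exact (aeval_algHom_apply R.val t' (P j₀)).symm
      rw [h2]
      exact Units.isUnit _)
    refine (Subring.closure_le.2 fun b hb => ?_ :
      Subring.closure {b : M | IsIntegral R b ∧ IsIntegral R b⁻¹} ≤ divUnitRing R M) h1
    exact hunit b hb.1 hb.2
  obtain ⟨c, hc⟩ := mem_of_fixed (F := k) (Fb := AlgebraicClosure k)
    (y := ψ ⟨algebraMap K M t, htM⟩) (by
      intro τ
      have h4 := hψ1.2 τ τ (fun _ => rfl) ⟨algebraMap K M t, htM⟩ ⟨algebraMap K M t, htM⟩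
        ((s τ).commutes t).symm
      exact h4.symm)
  refine ⟨c, fun v => ?_⟩
  apply (algebraMap (v.adicCompletion k) (AlgebraicClosure (v.adicCompletion k))).injective
  obtain ⟨h1, h2⟩ := hx v
  have h3 := hagree ⟨v, Finset.notMem_empty _⟩ ⟨algebraMap K M t, htM⟩
    (algebraMap R (integralClosure R M) t') rfl
  rw [← hc] at h3
  rw [← h2]
  have h4 : φ v ⟨algebraMap K M t, h1⟩ = φ' ⟨v, Finset.notMem_empty _⟩
    (algebraMap R (integralClosure R M) t') := rfl
  rw [h4, h3]
  change ι v (algebraMap k (AlgebraicClosure k) c) = _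
  rw [AlgHom.commutes]
  exact IsScalarTower.algebraMap_apply k (v.adicCompletion k) _ c

end Pool.Agent.Lib.MP_2f3286_ag.UA
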