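import Pool.Agent.Lib.MP_2f3286_ag.UA.Defs
import Pool.Agent.Lib.MP_2f3286_ag.Local

/-!
# The order on the completion
-/

open NumberField IsDedekindDomain

namespace Pool.Agent.Lib.MP_2f3286_ag.UA

variable {k : Type*} [Field k] [NumberField k]

/-- the order of `X` in the completion at `v` (`0` for `X = 0`) -/
noncomputable def ordK (v : HeightOneSpectrum (𝓞 k)) (X : v.adicCompletion k) : ℤ :=
  -WithZero.log (Valued.v X)

theorem val_ne_zero {v : HeightOneSpectrum (𝓞 k)} {X : v.adicCompletion k} (hX : X ≠ 0) :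
    (Valued.v X : WithZero (Multiplicative ℤ)) ≠ 0 :=
  (Valuation.ne_zero_iff _).2 hX

theorem ordK_alg (v : HeightOneSpectrum (𝓞 k)) (x : k) :
    ordK v (algebraMap k (v.adicCompletion k) x) = ordv v x := by
  unfold ordK ordv
  rw [val_alg]

theorem ordK_mul {v : HeightOneSpectrum (𝓞 k)} {X Y : v.adicCompletion k} (hX : X ≠ 0) (hY : Y ≠ 0) :
    ordK v (X * Y) = ordK v X + ordK v Y := by
  unfold ordK
  rw [map_mul, WithZero.log_mul (val_ne_zero hX) (val_ne_zero hY)]
  ring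

theorem ordK_pow (v : HeightOneSpectrum (𝓞 k)) (X : v.adicCompletion k) (n : ℕ) :
    ordK v (X ^ n) = n * ordK v X := by
  unfold ordK
  rw [map_pow, WithZero.log_pow, nsmul_eq_mul]
  ring

theorem ordK_neg (v : HeightOneSpectrum (𝓞 k)) (X : v.adicCompletion k) :
    ordK v (-X) = ordK v X := by
  unfold ordK
  rw [Valuation.map_neg]

theorem ordK_inv (v : HeightOneSpectrum (𝓞 k)) (X : v.adicCompletion k) :
    ordK v X⁻¹ = - ordK v X := by
  unfold ordK
  rw [map_inv₀, WithZero.log_inv]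

theorem ordK_one (v : HeightOneSpectrum (𝓞 k)) : ordK v 1 = 0 := by
  unfold ordK
  rw [map_one, WithZero.log_one, neg_zero]

theorem val_lt_iff {v : HeightOneSpectrum (𝓞 k)} {X Y : v.adicCompletion k} (hX : X ≠ 0)
    (hY : Y ≠ 0) : (Valued.v X : WithZero (Multiplicative ℤ)) < Valued.v Y ↔ ordK v Y < ordK v X := by
  unfold ordK
  rw [neg_lt_neg_iff, WithZero.log_lt_log (val_ne_zero hX) (val_ne_zero hY)]

/-- the order of a sum of elements of different orders -/
theorem ordK_add {v : HeightOneSpectrum (𝓞 k)} {X Y : v.adicCompletion k} (hX : X ≠ 0)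
    (hY : Y ≠ 0) (h : ordK v X < ordK v Y) : X + Y ≠ 0 ∧ ordK v (X + Y) = ordK v X := by
  have h1 : (Valued.v Y : WithZero (Multiplicative ℤ)) < Valued.v X := (val_lt_iff hY hX).2 h
  have h2 : (Valued.v (X + Y) : WithZero (Multiplicative ℤ)) = Valued.v X :=
    Valuation.map_add_eq_of_lt_left _ h1
  refine ⟨?_, ?_⟩
  · intro h0
    rw [h0, map_zero] at h2
    exact val_ne_zero hX h2.symm
  · unfold ordK
    rw [h2]

theorem ordK_sub {v : HeightOneSpectrum (𝓞 k)} {X Y : v.adicCompletion k} (hX : X ≠ 0)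
    (hY : Y ≠ 0) (h : ordK v X < ordK v Y) : X - Y ≠ 0 ∧ ordK v (X - Y) = ordK v X := by
  rw [sub_eq_add_neg]
  exact ordK_add hX (neg_ne_zero.2 hY) (by rw [ordK_neg]; exact h)

/-- the order of a sum of elements of order at least `n` -/
theorem ordK_add_ge {v : HeightOneSpectrum (𝓞 k)} {X Y : v.adicCompletion k} {n : ℤ}
    (hX : X = 0 ∨ n ≤ ordK v X) (hY : Y = 0 ∨ n ≤ ordK v Y) : X + Y = 0 ∨ n ≤ ordK v (X + Y) := by
  by_cases h0 : X + Y = 0
  · exact Or.inl h0
  right
  have hle : ∀ Z : v.adicCompletion k, (Z = 0 ∨ n ≤ ordK v Z) →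
      (Valued.v Z : WithZero (Multiplicative ℤ)) ≤ WithZero.exp (-n) := by
    rintro Z (hZ | hZ)
    · rw [hZ, map_zero]
      exact zero_le
    · by_cases hZ0 : Z = 0
      · rw [hZ0, map_zero]
        exact zero_le
      · unfold ordK at hZ
        rw [← WithZero.exp_log (val_ne_zero hZ0), WithZero.exp_le_exp]
        omega
  have h1 : (Valued.v (X + Y) : WithZero (Multiplicative ℤ)) ≤ WithZero.exp (-n) :=
    (Valued.v.map_add _ _).trans (max_le (hle X hX) (hle Y hY))
  rw [← WithZero.exp_log (val_ne_zero h0), WithZero.exp_le_exp] at h1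
  unfold ordK
  omega

theorem even_of_isSquare {v : HeightOneSpectrum (𝓞 k)} {X : v.adicCompletion k} (h : IsSquare X) :
    Even (ordK v X) := by
  obtain ⟨Y, hY⟩ := h
  have h1 : X = Y ^ 2 := by rw [hY, sq]
  rw [h1, ordK_pow]
  exact ⟨ordK v Y, by push_cast; ring⟩

theorem even_of_sqAt {v : HeightOneSpectrum (𝓞 k)} {x : k} (h : SqAt v x) : Even (ordv v x) := by
  rw [← ordK_alg]
  exact even_of_isSquare h

theorem alg_ne_zero (v : HeightOneSpectrum (𝓞 k)) {x : k} (hx : x ≠ 0) :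
    algebraMap k (v.adicCompletion k) x ≠ 0 :=
  (map_ne_zero _).2 hx

theorem ordv_mul (v : HeightOneSpectrum (𝓞 k)) {x y : k} (hx : x ≠ 0) (hy : y ≠ 0) :
    ordv v (x * y) = ordv v x + ordv v y := by
  rw [← ordK_alg, ← ordK_alg, ← ordK_alg, map_mul, ordK_mul (alg_ne_zero v hx) (alg_ne_zero v hy)]

theorem ordv_pow (v : HeightOneSpectrum (𝓞 k)) (x : k) (n : ℕ) :
    ordv v (x ^ n) = n * ordv v x := by
  rw [← ordK_alg, ← ordK_alg, map_pow, ordK_pow]

theorem ordv_inv (v : HeightOneSpectrum (𝓞 k)) (x : k) : ordv v x⁻¹ = - ordv v x := by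
  rw [← ordK_alg, ← ordK_alg, map_inv₀, ordK_inv]

theorem ordv_eq_zero_iff (v : HeightOneSpectrum (𝓞 k)) {x : k} (hx : x ≠ 0) :
    ordv v x = 0 ↔ v.valuation k x = 1 := by
  unfold ordv
  have h0 : v.valuation k x ≠ 0 := (Valuation.ne_zero_iff _).2 hx
  constructor
  · intro h
    rw [← WithZero.exp_log h0, show WithZero.log (v.valuation k x) = 0 by omega, WithZero.exp_zero]
  · intro h
    rw [h, WithZero.log_one, neg_zero]

theorem ordv_two {v : HeightOneSpectrum (𝓞 k)} (hv : (2 : 𝓞 k) ∉ v.asIdeal) :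
    ordv v (2 : k) = 0 := by
  rw [ordv_eq_zero_iff v two_ne_zero]
  have h1 := HeightOneSpectrum.valuation_eq_one_iff_notMem (K := k) (v := v) (r := (2 : 𝓞 k))
  have h2 : algebraMap (𝓞 k) k 2 = 2 := map_ofNat _ 2
  rw [h2] at h1
  exact h1.2 hv

end Pool.Agent.Lib.MP_2f3286_ag.UA
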