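import Pool.Agent.Lib.MP_2f3286_ag.UA.DA

/-!
# (D1): the classes in the local image have even order at good places
-/

open NumberField IsDedekindDomain

namespace Pool.Agent.Lib.MP_2f3286_ag.UA

variable {k : Type*} [Field k] [NumberField k]

/-- the order of `x` on the curve, when the order of `d` is divisible by `4` -/
theorem even_of_point {v : HeightOneSpectrum (𝓞 k)} {D x y : v.adicCompletion k} (hD : D ≠ 0)
    (hx : x ≠ 0) (h4 : 4 ∣ ordK v D) (h : y ^ 2 = x ^ 3 - D * x) : Even (ordK v x) := by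
  obtain ⟨t, ht⟩ := h4
  have hx2 : x ^ 2 ≠ 0 := pow_ne_zero 2 hx
  have e2 : ordK v (x ^ 2) = 2 * ordK v x := by
    rw [ordK_pow]
    push_cast
    ring
  by_cases hy : y = 0
  · have h1 : x * (x ^ 2 - D) = 0 := by
      rw [hy] at h
      linear_combination -h
    rcases mul_eq_zero.1 h1 with h2 | h2
    · exact absurd h2 hx
    · have h3 : x ^ 2 = D := sub_eq_zero.1 h2
      rw [h3, ht] at e2
      exact ⟨t, by omega⟩
  · have h1 : y ^ 2 = x * (x ^ 2 - D) := by rw [h]; ring
    have hne : x ^ 2 - D ≠ 0 := by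
      intro h0
      rw [h0, mul_zero] at h1
      exact hy (pow_eq_zero_iff two_ne_zero |>.1 h1)
    have h2 : 2 * ordK v y = ordK v x + ordK v (x ^ 2 - D) := by
      rw [← ordK_mul hx hne, ← h1, ordK_pow]
      push_cast
      ring
    rcases lt_trichotomy (ordK v (x ^ 2)) (ordK v D) with h3 | h3 | h3
    · rw [(ordK_sub hx2 hD h3).2, e2] at h2
      exact ⟨ordK v y - ordK v x, by omega⟩
    · rw [e2, ht] at h3
      exact ⟨t, by omega⟩
    · have h5 : x ^ 2 - D = -(D - x ^ 2) := by ring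
      rw [h5, ordK_neg, (ordK_sub hD hx2 h3).2, ht] at h2
      exact ⟨ordK v y - 2 * t, by omega⟩

theorem even_of_inW {v : HeightOneSpectrum (𝓞 k)} {d c : k} (hd : d ≠ 0) (hc : c ≠ 0)
    (h4 : 4 ∣ ordv v d) (h : InW v d c) : Even (ordv v c) := by
  rcases h with h | h | ⟨x, y, hx, hxy, hsq⟩
  · exact even_of_sqAt h
  · have h1 := even_of_sqAt h
    rw [ordv_mul v hc hd] at h1
    obtain ⟨t, ht⟩ := h4
    obtain ⟨r, hr⟩ := h1
    exact ⟨r - 2 * t, by omega⟩
  · have h1 : Even (ordK v x) := by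
      refine even_of_point (alg_ne_zero v hd) hx ?_ hxy
      rw [ordK_alg]
      exact h4
    have h2 := even_of_isSquare hsq
    rw [ordK_mul (alg_ne_zero v hc) hx, ordK_alg] at h2
    obtain ⟨t, ht⟩ := h1
    obtain ⟨r, hr⟩ := h2
    exact ⟨r - t, by omega⟩

end Pool.Agent.Lib.MP_2f3286_ag.UA
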