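import Pool.Agent.Lib.MP_2f3286_ag.UA.DA

/-!
# (D2): isotropy of the local images
-/

open NumberField IsDedekindDomain

namespace Pool.Agent.Lib.MP_2f3286_ag.UA

section field

variable {F : Type*} [Field F]

/-- `c` is represented by the form `z ^ 2 - x w ^ 2` -/
def Nm (x c : F) : Prop := ∃ z w : F, c = z ^ 2 - x * w ^ 2

theorem Nm.mul {x c c' : F} (h : Nm x c) (h' : Nm x c') : Nm x (c * c') := by
  obtain ⟨z, w, hc⟩ := h
  obtain ⟨z', w', hc'⟩ := h'
  exact ⟨z * z' + x * w * w', z * w' + w * z', by rw [hc, hc']; ring⟩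

theorem nm_sq (x z : F) : Nm x (z ^ 2) := ⟨z, 0, by ring⟩

theorem Nm.mul_sq {x c : F} (h : Nm x c) (s : F) : Nm x (c * s ^ 2) := h.mul (nm_sq x s)

theorem Nm.inv {x c : F} (h : Nm x c) (hc : c ≠ 0) : Nm x c⁻¹ := by
  have h1 := h.mul_sq c⁻¹
  have h2 : c * c⁻¹ ^ 2 = c⁻¹ := by field_simp
  rwa [h2] at h1

/-- change of `c` by a square -/
theorem Nm.congr_right {x c c' : F} (hc : c ≠ 0) (h : Nm x c) (hs : IsSquare (c * c')) :
    Nm x c' := by
  obtain ⟨r, hr⟩ := hs
  have h1 := h.mul_sq (r / c)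
  have h2 : c * (r / c) ^ 2 = c' := by
    have : c * (r / c) ^ 2 = (r * r) / c := by field_simp
    rw [this, ← hr]
    field_simp
  rwa [h2] at h1

/-- change of `x` by a square -/
theorem Nm.congr_left {x x' c : F} (hx' : x' ≠ 0) (h : Nm x c) (hs : IsSquare (x * x')) :
    Nm x' c := by
  obtain ⟨z, w, hc⟩ := h
  obtain ⟨r, hr⟩ := hs
  refine ⟨z, r / x' * w, ?_⟩
  have h2 : x' * (r / x' * w) ^ 2 = (r * r) / x' * w ^ 2 := by field_simp
  rw [h2, ← hr, hc]
  field_simp

/-- if `x` is a nonzero square, everything is represented -/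
theorem nm_of_sq (h2 : (2 : F) ≠ 0) {x : F} (hx : x ≠ 0) (hs : IsSquare x) (c : F) : Nm x c := by
  obtain ⟨r, hr⟩ := hs
  have hr0 : r ≠ 0 := by
    rintro rfl
    exact hx (by rw [hr]; ring)
  refine ⟨(c + 1) / 2, (c - 1) / (2 * r), ?_⟩
  rw [hr]
  field_simp
  ring

theorem nm_self {i : F} (hi : i ^ 2 = -1) (c : F) : Nm c c := ⟨0, i, by rw [hi]; ring⟩

/-- symmetry -/
theorem Nm.symm (h2 : (2 : F) ≠ 0) {x c : F} (hc : c ≠ 0) (h : Nm x c) : Nm c x := by
  obtain ⟨z, w, h1⟩ := h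
  by_cases hw : w = 0
  · refine nm_of_sq h2 hc ⟨z, ?_⟩ x
    rw [h1, hw]
    ring
  · refine ⟨z / w, 1 / w, ?_⟩
    field_simp
    rw [h1]
    ring

/-- two points of the curve with different `x` -/
theorem nm_points {i : F} (hi : i ^ 2 = -1) (h2 : (2 : F) ≠ 0) {d x y x' y' : F} (hx : x ≠ 0)
    (hx' : x' ≠ 0) (hne : x ≠ x') (h : y ^ 2 = x ^ 3 - d * x) (h' : y' ^ 2 = x' ^ 3 - d * x') :
    Nm x x' := by
  have hxx : x - x' ≠ 0 := sub_ne_zero.2 hne
  obtain ⟨l, hl⟩ : ∃ l, l * (x - x') = y - y' := ⟨(y - y') / (x - x'), by field_simp⟩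
  obtain ⟨m, hm⟩ : ∃ m, m = y - l * x := ⟨_, rfl⟩
  -- the third point has `x`-coordinate `l ^ 2 - x - x'`, and the product of the three is `m ^ 2`
  have h3 : x * x' * (l ^ 2 - x - x') = m ^ 2 := by
    have e1 : y = l * x + m := by rw [hm]; ring
    have e2 : y' = l * x' + m := by
      have : y' = y - l * (x - x') := by rw [hl]; ring
      rw [this, hm]
      ring
    rw [e1] at h
    rw [e2] at h'
    have e3 : (x - x') * (x * x' * (l ^ 2 - x - x') - m ^ 2) = 0 := by
      linear_combination x' * h - x * h'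
    rcases mul_eq_zero.1 e3 with e4 | e4
    · exact absurd e4 hxx
    · exact sub_eq_zero.1 e4
  obtain ⟨t, ht⟩ : ∃ t, t = m / (x * x') := ⟨_, rfl⟩
  have hm' : m = t * (x * x') := by
    rw [ht]
    field_simp
  have h4 : x' * (1 + x * t ^ 2) = l ^ 2 - x := by
    have : x * x' * (l ^ 2 - x - x' - x * x' * t ^ 2) = 0 := by
      rw [hm'] at h3
      linear_combination h3
    rcases mul_eq_zero.1 this with e4 | e4
    · exact absurd e4 (mul_ne_zero hx hx')
    · linear_combination -e4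
  by_cases h5 : 1 + x * t ^ 2 = 0
  · rw [h5, mul_zero] at h4
    refine nm_of_sq h2 hx ⟨l, ?_⟩ x'
    linear_combination h4
  · have h6 : Nm x (1 + x * t ^ 2) := ⟨1, i * t, by rw [mul_pow, hi]; ring⟩
    have h7 : Nm x (l ^ 2 - x) := ⟨l, 1, by ring⟩
    have h8 := h7.mul (h6.inv h5)
    have h9 : (l ^ 2 - x) * (1 + x * t ^ 2)⁻¹ = x' := by
      rw [← h4]
      field_simp
    rwa [h9] at h8

/-- a point and the point of order two -/
theorem nm_point_two {d x y : F} (hx : x ≠ 0) (h : y ^ 2 = x ^ 3 - d * x) : Nm x d := by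
  refine ⟨x, y / x, ?_⟩
  have : x * (y / x) ^ 2 = y ^ 2 / x := by field_simp
  rw [this, h]
  field_simp
  ring

/-- the classes `1`, `d` and `x` -/
def Cl (d c : F) : Prop :=
  IsSquare c ∨ IsSquare (c * d) ∨ ∃ x y : F, x ≠ 0 ∧ y ^ 2 = x ^ 3 - d * x ∧ IsSquare (c * x)

theorem nm_of_cl {i : F} (hi : i ^ 2 = -1) (h2 : (2 : F) ≠ 0) {d c c' : F} (hd : d ≠ 0) (hc : c ≠ 0)
    (hc' : c' ≠ 0) (h : Cl d c) (h' : Cl d c') : Nm c c' := by
  have hsymm : ∀ {a b : F}, IsSquare (a * b) → IsSquare (b * a) := by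
    intro a b hab
    rwa [mul_comm]
  rcases h with h | h | ⟨x, y, hx, hxy, hs⟩
  · exact nm_of_sq h2 hc h c'
  · rcases h' with h' | h' | ⟨x', y', hx', hxy', hs'⟩
    · obtain ⟨r, hr⟩ := h'
      rw [hr, ← sq]
      exact nm_sq c r
    · exact ((nm_self hi d).congr_left hc (hsymm h)).congr_right hd (hsymm h')
    · exact (((nm_point_two hx' hxy').symm h2 hd).congr_left hc (hsymm h)).congr_right hx'
        (hsymm hs')
  · rcases h' with h' | h' | ⟨x', y', hx', hxy', hs'⟩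
    · obtain ⟨r, hr⟩ := h'
      rw [hr, ← sq]
      exact nm_sq c r
    · exact ((nm_point_two hx hxy).congr_left hc (hsymm hs)).congr_right hd (hsymm h')
    · by_cases hne : x = x'
      · rw [← hne] at hs'
        exact ((nm_self hi x).congr_left hc (hsymm hs)).congr_right hx (hsymm hs')
      · exact ((nm_points hi h2 hx hx' hne hxy hxy').congr_left hc (hsymm hs)).congr_right hx'
          (hsymm hs')

end field

variable {k : Type*} [Field k] [NumberField k]

theorem normAt_of_inW {i : k} (hi : i ^ 2 = -1) {v : HeightOneSpectrum (𝓞 k)} {d c c' : k}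
    (hd : d ≠ 0) (hc : c ≠ 0) (hc' : c' ≠ 0) (h : InW v d c) (h' : InW v d c') :
    NormAt v c c' := by
  have hi' : (algebraMap k (v.adicCompletion k) i) ^ 2 = -1 := by
    rw [← map_pow, hi, map_neg, map_one]
  have h2 : (2 : v.adicCompletion k) ≠ 0 := by
    have := alg_ne_zero v (two_ne_zero (α := k))
    rwa [map_ofNat] at this
  have hcl : ∀ a : k, InW v d a →
      Cl (algebraMap k (v.adicCompletion k) d) (algebraMap k (v.adicCompletion k) a) := by
    rintro a (ha | ha | ha)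
    · exact Or.inl ha
    · right
      left
      unfold SqAt at ha
      rwa [map_mul] at ha
    · exact Or.inr (Or.inr ha)
  exact nm_of_cl hi' h2 (alg_ne_zero v hd) (alg_ne_zero v hc) (alg_ne_zero v hc') (hcl c h)
    (hcl c' h')

end Pool.Agent.Lib.MP_2f3286_ag.UA
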