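import Pool.Agent.Lib.MP_2f3286_ag.UA.DB

/-!
# (D3), (D4), (D5): the local conditions after a twist
-/

open NumberField IsDedekindDomain

namespace Pool.Agent.Lib.MP_2f3286_ag.UA

variable {k : Type*} [Field k] [NumberField k]

/-- `X` and `X - E` differ by a square if `E` is small -/
theorem sq_mul_of_close {v : HeightOneSpectrum (𝓞 k)} (hv : (2 : 𝓞 k) ∉ v.asIdeal)
    {X E : v.adicCompletion k} (hX : X ≠ 0) (hE : E = 0 ∨ ordK v X < ordK v E) :
    IsSquare (X * (X - E)) := by
  have h1 : IsSquare (1 - E / X) := by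
    apply sq_of_near_one hv
    have h2 : 1 - E / X - 1 = -(E / X) := by ring
    rw [h2, Valuation.map_neg]
    rcases hE with hE | hE
    · rw [hE, zero_div, map_zero]
      exact zero_lt_one
    · have hE0 : E ≠ 0 ∨ E = 0 := ne_or_eq E 0
      rcases hE0 with hE0 | hE0
      · have h3 := (val_lt_iff hE0 hX).2 hE
        rw [map_div₀]
        exact (div_lt_one₀ (zero_lt_iff.2 (val_ne_zero hX))).2 h3
      · rw [hE0, zero_div, map_zero]
        exact zero_lt_one
  obtain ⟨r, hr⟩ := h1
  refine ⟨X * r, ?_⟩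
  have h2 : X * (X - E) = X ^ 2 * (1 - E / X) := by field_simp
  rw [h2, hr]
  ring

/-- the class of `x` on the curve `y ^ 2 = x ^ 3 - D x` with `ord D = 2`: `1`, `D` (up to the square `-1`), or the order
of `x` is `1` -/
theorem point_class {v : HeightOneSpectrum (𝓞 k)} (hv : (2 : 𝓞 k) ∉ v.asIdeal)
    {i D x y : v.adicCompletion k} (hi : i ^ 2 = -1) (hD : D ≠ 0) (hD2 : ordK v D = 2) (hx : x ≠ 0)
    (h : y ^ 2 = x ^ 3 - D * x) : IsSquare x ∨ IsSquare (D * x) ∨ ordK v x = 1 := by
  have hx2 : x ^ 2 ≠ 0 := pow_ne_zero 2 hx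
  have e2 : ordK v (x ^ 2) = 2 * ordK v x := by
    rw [ordK_pow]
    push_cast
    ring
  have h1 : y ^ 2 = x * (x ^ 2 - D) := by rw [h]; ring
  rcases lt_trichotomy (ordK v x) 1 with h3 | h3 | h3
  · left
    obtain ⟨r, hr⟩ := sq_mul_of_close hv hx2 (E := D) (Or.inr (by rw [e2, hD2]; omega))
    have h4 : r ≠ 0 := by
      rintro rfl
      have h5 := (ordK_sub hx2 hD (by rw [e2, hD2]; omega)).1
      rw [mul_zero] at hr
      exact (mul_ne_zero hx2 h5) hr
    refine ⟨x * y / r, ?_⟩
    have h5 : x * y / r * (x * y / r) = x ^ 2 * y ^ 2 / (r * r) := by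
      field_simp
    have h6 := (ordK_sub hx2 hD (by rw [e2, hD2]; omega)).1
    rw [h5, ← hr, h1]
    field_simp
  · exact Or.inr (Or.inr h3)
  · right
    left
    have h6 := (ordK_sub hD hx2 (by rw [e2, hD2]; omega)).1
    obtain ⟨r, hr⟩ := sq_mul_of_close hv hD (E := x ^ 2) (Or.inr (by rw [e2, hD2]; omega))
    have h4 : r ≠ 0 := by
      rintro rfl
      rw [mul_zero] at hr
      exact (mul_ne_zero hD h6) hr
    refine ⟨D * (i * y) / r * 1, ?_⟩
    have h5 : D * (i * y) / r * 1 * (D * (i * y) / r * 1) = D ^ 2 * (i ^ 2 * y ^ 2) / (r * r) := by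
      field_simp
    rw [h5, ← hr, h1, hi]
    field_simp
    ring

/-- (D3) -/
theorem even_of_free {i : k} (hi : i ^ 2 = -1) {v : HeightOneSpectrum (𝓞 k)}
    (hv : (2 : 𝓞 k) ∉ v.asIdeal) {d δ c : k} (hd : d ≠ 0) (hδ : δ ≠ 0) (hc : c ≠ 0)
    (hd0 : ordv v d = 0) (hns : ¬ SqAt v d) (hδ1 : ordv v δ = 1) (h : InW v (d * δ ^ 2) c) :
    Even (ordv v c) := by
  have hi' : (algebraMap k (v.adicCompletion k) i) ^ 2 = -1 := by
    rw [← map_pow, hi, map_neg, map_one]
  have hD0 : d * δ ^ 2 ≠ 0 := mul_ne_zero hd (pow_ne_zero 2 hδ)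
  have hDo : ordv v (d * δ ^ 2) = 2 := by
    rw [ordv_mul v hd (pow_ne_zero 2 hδ), ordv_pow, hd0, hδ1]
    norm_num
  rcases h with h | h | ⟨x, y, hx, hxy, hsq⟩
  · exact even_of_sqAt h
  · have h1 := even_of_sqAt h
    rw [ordv_mul v hc hD0, hDo] at h1
    obtain ⟨r, hr⟩ := h1
    exact ⟨r - 1, by omega⟩
  · have h2 := even_of_isSquare hsq
    rw [ordK_mul (alg_ne_zero v hc) hx, ordK_alg] at h2
    have hD' : ordK v (algebraMap k (v.adicCompletion k) (d * δ ^ 2)) = 2 := by
      rw [ordK_alg, hDo]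
    have hxe : Even (ordK v x) := by
      rcases point_class hv hi' (alg_ne_zero v hD0) hD' hx hxy with h3 | h3 | h3
      · exact even_of_isSquare h3
      · have h4 := even_of_isSquare h3
        rw [ordK_mul (alg_ne_zero v hD0) hx, hD'] at h4
        obtain ⟨r, hr⟩ := h4
        exact ⟨r - 1, by omega⟩
      · exfalso
        apply hns
        -- `x ^ 2` is close to `d δ ^ 2`
        have hx2 : x ^ 2 ≠ 0 := pow_ne_zero 2 hx
        have e2 : ordK v (x ^ 2) = 2 := by
          rw [ordK_pow, h3]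
          norm_num
        have hxy' : y ^ 2 = x * (x ^ 2 - algebraMap k (v.adicCompletion k) (d * δ ^ 2)) := by
          rw [hxy]
          ring
        have hcl : IsSquare (x ^ 2 * (x ^ 2 - (x ^ 2 -
            algebraMap k (v.adicCompletion k) (d * δ ^ 2)))) := by
          apply sq_mul_of_close hv hx2
          by_cases h0 : x ^ 2 - algebraMap k (v.adicCompletion k) (d * δ ^ 2) = 0
          · exact Or.inl h0
          · right
            have h5 := congrArg (ordK v) hxy'
            rw [ordK_pow, ordK_mul hx h0, h3] at h5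
            have h2c : ((2 : ℕ) : ℤ) = 2 := rfl
            rw [h2c] at h5
            have h6 := ordK_add_ge (v := v) (n := 2) (X := x ^ 2)
              (Y := -algebraMap k (v.adicCompletion k) (d * δ ^ 2)) (Or.inr (by rw [e2]))
              (Or.inr (by rw [ordK_neg, hD']))
            rw [← sub_eq_add_neg] at h6
            rcases h6 with h6 | h6
            · exact absurd h6 h0
            · rw [e2]
              omega
        rw [sub_sub_cancel] at hcl
        obtain ⟨r, hr⟩ := hcl
        have hδ' := alg_ne_zero v hδ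
        refine ⟨r / (x * algebraMap k (v.adicCompletion k) δ), ?_⟩
        have h7 : r / (x * algebraMap k (v.adicCompletion k) δ) *
            (r / (x * algebraMap k (v.adicCompletion k) δ)) =
            r * r / (x ^ 2 * algebraMap k (v.adicCompletion k) δ ^ 2) := by
          field_simp
        rw [h7, ← hr, map_mul, map_pow]
        field_simp
    obtain ⟨r, hr⟩ := h2
    obtain ⟨t, ht⟩ := hxe
    exact ⟨r - t, by omega⟩

/-- (D4) -/
theorem sq_of_eff {i : k} (hi : i ^ 2 = -1) {v : HeightOneSpectrum (𝓞 k)}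
    (hv : (2 : 𝓞 k) ∉ v.asIdeal) {d δ c : k} (hd : d ≠ 0) (hδ : δ ≠ 0) (hc : c ≠ 0)
    (hd0 : ordv v d = 0) (hsd : SqAt v d) (hδ1 : ordv v δ = 1) (h : InW v (d * δ ^ 2) c)
    (hev : Even (ordv v c)) : SqAt v c := by
  have hi' : (algebraMap k (v.adicCompletion k) i) ^ 2 = -1 := by
    rw [← map_pow, hi, map_neg, map_one]
  have hD0 : d * δ ^ 2 ≠ 0 := mul_ne_zero hd (pow_ne_zero 2 hδ)
  have hDo : ordv v (d * δ ^ 2) = 2 := by
    rw [ordv_mul v hd (pow_ne_zero 2 hδ), ordv_pow, hd0, hδ1]
    norm_num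
  obtain ⟨e, he⟩ := hsd
  have hd' := alg_ne_zero v hd
  have hδ' := alg_ne_zero v hδ
  have hc' := alg_ne_zero v hc
  have he0 : e ≠ 0 := by
    rintro rfl
    rw [mul_zero] at he
    exact hd' he
  rcases h with h | h | ⟨x, y, hx, hxy, hsq⟩
  · exact h
  · obtain ⟨r, hr⟩ := h
    refine ⟨r / (e * algebraMap k (v.adicCompletion k) δ), ?_⟩
    have h7 : r / (e * algebraMap k (v.adicCompletion k) δ) *
        (r / (e * algebraMap k (v.adicCompletion k) δ)) =
        r * r / ((e * e) * algebraMap k (v.adicCompletion k) δ ^ 2) := by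
      field_simp
    rw [h7, ← hr, ← he, map_mul, map_mul, map_pow]
    field_simp
  · have hD' : ordK v (algebraMap k (v.adicCompletion k) (d * δ ^ 2)) = 2 := by
      rw [ordK_alg, hDo]
    have hxs : IsSquare x := by
      rcases point_class hv hi' (alg_ne_zero v hD0) hD' hx hxy with h3 | h3 | h3
      · exact h3
      · obtain ⟨r, hr⟩ := h3
        refine ⟨r / (e * algebraMap k (v.adicCompletion k) δ), ?_⟩
        have h7 : r / (e * algebraMap k (v.adicCompletion k) δ) *
            (r / (e * algebraMap k (v.adicCompletion k) δ)) =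
            r * r / ((e * e) * algebraMap k (v.adicCompletion k) δ ^ 2) := by
          field_simp
        rw [h7, ← hr, ← he, map_mul, map_pow]
        field_simp
      · exfalso
        have h2 := even_of_isSquare hsq
        rw [ordK_mul hc' hx, ordK_alg, h3] at h2
        obtain ⟨r, hr⟩ := h2
        obtain ⟨t, ht⟩ := hev
        omega
    obtain ⟨r, hr⟩ := hsq
    obtain ⟨s, hs⟩ := hxs
    have hs0 : s ≠ 0 := by
      rintro rfl
      rw [mul_zero] at hs
      exact hx hs
    refine ⟨r / s, ?_⟩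
    have h7 : r / s * (r / s) = r * r / (s * s) := by field_simp
    rw [h7, ← hr, ← hs]
    field_simp

/-- (D5) -/
theorem inW_of_twist {v : HeightOneSpectrum (𝓞 k)} {d δ c : k} (hδ : δ ≠ 0) (hs : SqAt v δ)
    (h : InW v (d * δ ^ 2) c) : InW v d c := by
  obtain ⟨m, hm⟩ := hs
  have hδ' := alg_ne_zero v hδ
  have hm0 : m ≠ 0 := by
    rintro rfl
    rw [mul_zero] at hm
    exact hδ' hm
  rcases h with h | h | ⟨x, y, hx, hxy, hsq⟩
  · exact Or.inl h
  · right
    left
    obtain ⟨r, hr⟩ := h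
    refine ⟨r / algebraMap k (v.adicCompletion k) δ, ?_⟩
    have h7 : r / algebraMap k (v.adicCompletion k) δ * (r / algebraMap k (v.adicCompletion k) δ) =
        r * r / algebraMap k (v.adicCompletion k) δ ^ 2 := by
      field_simp
    rw [h7, ← hr, map_mul, map_mul, map_mul, map_pow]
    field_simp
  · right
    right
    refine ⟨x / m ^ 2, y / m ^ 3, div_ne_zero hx (pow_ne_zero 2 hm0), ?_, ?_⟩
    · rw [map_mul, map_pow, hm] at hxy
      rw [div_pow, hxy]
      field_simp
    · obtain ⟨r, hr⟩ := hsq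
      refine ⟨r / m, ?_⟩
      have h7 : r / m * (r / m) = r * r / m ^ 2 := by field_simp
      rw [h7, ← hr]
      field_simp

end Pool.Agent.Lib.MP_2f3286_ag.UA
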