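import Pool.Agent.Lib.MP_2f3286_ag.UA.DA

/-!
# `S`-units modulo squares are finite

Text: the map `US S → (S → ℤ)`, `x ↦ (ordv v x)`, has kernel the units of `𝓞 k` (elements with all valuations `1`), which are
finitely generated (Dirichlet: Mathlib `NumberField.Units`, torsion finite and free part of finite rank; or `Monoid.FG (𝓞 k)ˣ`). So `US S` is
finitely generated (extension of f.g. by f.g.), and a finitely generated commutative group has finite quotient by its squares.
It is enough to produce the finite set `F` of representatives.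
-/

open NumberField IsDedekindDomain

namespace Pool.Agent.Lib.MP_2f3286_ag.UA

variable {k : Type*} [Field k] [NumberField k]

/-- elements of `k` without zeros and poles are units of the ring of integers -/
private theorem exists_unit (x : kˣ) (hx : ∀ v : HeightOneSpectrum (𝓞 k), v.valuation k (x : k) = 1) :
    ∃ u : (𝓞 k)ˣ, Units.map (algebraMap (𝓞 k) k : 𝓞 k →* k) u = x := by
  have hint : ∀ y : k, (∀ v : HeightOneSpectrum (𝓞 k), v.valuation k y ≤ 1) → ∃ r : 𝓞 k, algebraMap (𝓞 k) k r = y :=
    fun y hy => HeightOneSpectrum.mem_integers_of_valuation_le_one k y hy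
  obtain ⟨a, ha⟩ := hint (x : k) fun v => (hx v).le
  obtain ⟨b, hb⟩ := hint ((x⁻¹ : kˣ) : k) fun v => by
    rw [Units.val_inv_eq_inv_val, map_inv₀, hx v, inv_one]
  have hab : a * b = 1 := by
    apply FaithfulSMul.algebraMap_injective (𝓞 k) k
    rw [map_mul, ha, hb, map_one, Units.mul_inv]
  refine ⟨⟨a, b, hab, by rw [mul_comm, hab]⟩, ?_⟩
  ext
  exact ha

/-- the orders at the places of `S` -/
private noncomputable def ordMap (S : Finset (HeightOneSpectrum (𝓞 k))) : Additive kˣ →+ (S → ℤ) where
  toFun x v := ordv v.1 ((Additive.toMul x : kˣ) : k)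
  map_zero' := by
    funext v
    show ordv v.1 ((1 : kˣ) : k) = 0
    rw [ordv_eq_zero_iff v.1 (Units.ne_zero _), Units.val_one, map_one]
  map_add' x y := by
    funext v
    show ordv v.1 (((Additive.toMul x * Additive.toMul y : kˣ)) : k) = _
    rw [Units.val_mul, ordv_mul v.1 (Units.ne_zero _) (Units.ne_zero _)]
    rfl

/-- the `S`-units are finitely generated -/
private theorem fg_units (S : Finset (HeightOneSpectrum (𝓞 k))) :
    (AddSubgroup.toIntSubmodule (Subgroup.toAddSubgroup (US S))).FG := by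
  set ψ : Additive (𝓞 k)ˣ →+ Additive kˣ := MonoidHom.toAdditive (Units.map (algebraMap (𝓞 k) k : 𝓞 k →* k)) with hψ
  have hfin : Module.Finite ℤ (Additive (𝓞 k)ˣ) := by
    have h1 : AddMonoid.FG (Additive (𝓞 k)ˣ) := AddMonoid.fg_of_monoid_fg
    have h2 : AddGroup.FG (Additive (𝓞 k)ˣ) := AddGroup.fg_iff_addMonoid_fg.2 h1
    exact Module.Finite.iff_addGroup_fg.2 h2
  refine Submodule.fg_of_fg_map_of_fg_inf_ker (ordMap S).toIntLinearMap (IsNoetherian.noetherian _) ?_
  refine Submodule.FG.of_le (T := LinearMap.range ψ.toIntLinearMap) ?_ ?_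
  · rw [LinearMap.range_eq_map]
    exact Submodule.FG.map _ hfin.fg_top
  · rintro x ⟨hx1, hx2⟩
    have hx3 : ∀ v : HeightOneSpectrum (𝓞 k), v.valuation k ((Additive.toMul x : kˣ) : k) = 1 := by
      intro v
      by_cases hv : v ∈ S
      · have h4 := congrFun (LinearMap.mem_ker.1 hx2) ⟨v, hv⟩
        have h5 : ordv v ((Additive.toMul x : kˣ) : k) = 0 := h4
        exact (ordv_eq_zero_iff v (Units.ne_zero _)).1 h5
      · exact hx1 v hv
    obtain ⟨u, hu⟩ := exists_unit (Additive.toMul x) hx3
    exact ⟨Additive.ofMul u, by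
      show Additive.ofMul (Units.map (algebraMap (𝓞 k) k : 𝓞 k →* k) u) = x
      rw [hu]
      rfl⟩

/-- finitely many classes of `S`-units modulo squares -/
theorem finite_units (S : Finset (HeightOneSpectrum (𝓞 k))) :
    ∃ F : Finset k, (∀ f ∈ F, f ≠ 0) ∧ ∀ x : k, x ≠ 0 → (∀ v ∉ S, ordv v x = 0) →
      ∃ f ∈ F, IsSquare (x * f) := by
  classical
  set M : Submodule ℤ (Additive kˣ) := AddSubgroup.toIntSubmodule (Subgroup.toAddSubgroup (US S)) with hM
  have hfg : Module.Finite ℤ M := Module.Finite.iff_fg.2 (fg_units S)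
  set R : Submodule ℤ M := LinearMap.range ((2 : ℤ) • (LinearMap.id : M →ₗ[ℤ] M)) with hR
  have htor : Module.IsTorsion ℤ (M ⧸ R) := by
    intro q
    obtain ⟨m, rfl⟩ := Submodule.Quotient.mk_surjective R q
    refine ⟨⟨2, by simp⟩, ?_⟩
    show (2 : ℤ) • (Submodule.Quotient.mk m : M ⧸ R) = 0
    rw [← Submodule.Quotient.mk_smul, Submodule.Quotient.mk_eq_zero]
    exact ⟨m, rfl⟩
  have hfin : Finite (M ⧸ R) := Module.finite_of_fg_torsion _ htor
  have := Fintype.ofFinite (M ⧸ R)
  choose out hout using fun q : M ⧸ R => Submodule.Quotient.mk_surjective R q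
  refine ⟨Finset.univ.image fun q : M ⧸ R => ((Additive.toMul (out q : Additive kˣ) : kˣ) : k), ?_, ?_⟩
  · intro f hf
    obtain ⟨q, -, rfl⟩ := Finset.mem_image.1 hf
    exact Units.ne_zero _
  · intro x hx hxS
    have hmem : Additive.ofMul (Units.mk0 x hx) ∈ M := by
      intro v hv
      exact (ordv_eq_zero_iff v hx).1 (hxS v hv)
    set m : M := ⟨Additive.ofMul (Units.mk0 x hx), hmem⟩ with hm
    set q : M ⧸ R := Submodule.Quotient.mk (-m) with hq
    refine ⟨_, Finset.mem_image.2 ⟨q, Finset.mem_univ _, rfl⟩, ?_⟩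
    have h1 : (Submodule.Quotient.mk (out q) : M ⧸ R) = Submodule.Quotient.mk (-m) := hout q
    rw [Submodule.Quotient.eq] at h1
    obtain ⟨y, hy⟩ := h1
    have h2 : (2 : ℤ) • y = out q - -m := hy
    have h3 : m + out q = y + y := by
      rw [sub_neg_eq_add, two_smul] at h2
      rw [h2, add_comm]
    have h4 : Additive.ofMul (Units.mk0 x hx) + (out q : Additive kˣ) = (y : Additive kˣ) + (y : Additive kˣ) := by
      have := congrArg (fun z : M => (z : Additive kˣ)) h3
      exact this
    have h5 : Units.mk0 x hx * Additive.toMul (out q : Additive kˣ) =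
        Additive.toMul (y : Additive kˣ) * Additive.toMul (y : Additive kˣ) := h4
    refine ⟨((Additive.toMul (y : Additive kˣ) : kˣ) : k), ?_⟩
    have h6 := congrArg (fun z : kˣ => (z : k)) h5
    exact h6

end Pool.Agent.Lib.MP_2f3286_ag.UA
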