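import Pool.Agent.Lib.MP_2f3286_ag.UA.DB

/-!
# Units of the completion modulo squares, at a place which is not over 2
-/

open NumberField IsDedekindDomain
open scoped WithZero

namespace Pool.Agent.Lib.MP_2f3286_ag.UA

variable {k : Type*} [Field k] [NumberField k]

/-- an integral unit of the completion is close to an element of `𝓞 k` -/
theorem exists_near (v : HeightOneSpectrum (𝓞 k)) (X : v.adicCompletion k)
    (hX : Valued.v X ≤ (1 : ℤᵐ⁰)) :
    ∃ a : 𝓞 k, Valued.v (X - algebraMap k (v.adicCompletion k) (algebraMap (𝓞 k) k a)) < (1 : ℤᵐ⁰) := by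
  obtain ⟨y, hy⟩ := exists_approx v X 1
  have hlt : WithZero.exp (-((1 : ℕ) : ℤ)) < (1 : ℤᵐ⁰) := by
    rw [← WithZero.exp_zero]
    exact WithZero.exp_lt_exp.mpr (by norm_num)
  have hy1 : v.valuation k y ≤ 1 := by
    rw [← val_alg]
    have e : algebraMap k (v.adicCompletion k) y =
        X - (X - algebraMap k (v.adicCompletion k) y) := by
      ring
    rw [e]
    exact (Valued.v.map_sub _ _).trans (max_le hX (hy.trans hlt.le))
  obtain ⟨a, ha⟩ := HeightOneSpectrum.exists_valuation_sub_lt_of_integer v hy1 1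
  simp only [Units.val_one] at ha
  refine ⟨a, ?_⟩
  have e : X - algebraMap k (v.adicCompletion k) (algebraMap (𝓞 k) k a) =
      (X - algebraMap k (v.adicCompletion k) y) -
        algebraMap k (v.adicCompletion k) (algebraMap (𝓞 k) k a - y) := by
    rw [map_sub]
    ring
  rw [e]
  refine lt_of_le_of_lt (Valued.v.map_sub _ _) (max_lt (lt_of_le_of_lt hy hlt) ?_)
  rw [val_alg]
  exact ha

/-- a unit whose residue class is a square is a square -/
theorem sq_of_residue {v : HeightOneSpectrum (𝓞 k)} (hv : (2 : 𝓞 k) ∉ v.asIdeal)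
    (X : v.adicCompletion k) (hX : Valued.v X = (1 : ℤᵐ⁰)) (a : 𝓞 k)
    (ha : Valued.v (X - algebraMap k (v.adicCompletion k) (algebraMap (𝓞 k) k a)) < (1 : ℤᵐ⁰))
    (hs : IsSquare (Ideal.Quotient.mk v.asIdeal a)) : IsSquare X := by
  obtain ⟨s', hs'⟩ := hs
  obtain ⟨s, rfl⟩ := Ideal.Quotient.mk_surjective s'
  rw [← map_mul, Ideal.Quotient.eq] at hs'
  obtain ⟨A, hA⟩ : ∃ A, A = algebraMap k (v.adicCompletion k) (algebraMap (𝓞 k) k a) := ⟨_, rfl⟩
  obtain ⟨s₀, hs₀⟩ : ∃ s₀, s₀ = algebraMap k (v.adicCompletion k) (algebraMap (𝓞 k) k s) :=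
    ⟨_, rfl⟩
  rw [← hA] at ha
  have h1 : Valued.v (A - s₀ * s₀) < (1 : ℤᵐ⁰) := by
    rw [hA, hs₀, ← map_mul, ← map_mul, ← map_sub, ← map_sub, val_alg]
    exact (HeightOneSpectrum.valuation_lt_one_iff_mem v _).2 hs'
  have h2 : Valued.v (X - s₀ * s₀) < (1 : ℤᵐ⁰) := by
    have e : X - s₀ * s₀ = (X - A) + (A - s₀ * s₀) := by ring
    rw [e]
    exact lt_of_le_of_lt (Valued.v.map_add _ _) (max_lt ha h1)
  have h3 : Valued.v (s₀ * s₀) = (1 : ℤᵐ⁰) := by
    have e : s₀ * s₀ = X - (X - s₀ * s₀) := by ring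
    rw [e, Valuation.map_sub_eq_of_lt_left _ (by rw [hX]; exact h2), hX]
  have h4 : s₀ ≠ 0 := by
    rintro h0
    rw [h0, mul_zero, map_zero] at h3
    exact zero_ne_one h3
  have h5 : IsSquare (X / (s₀ * s₀)) := by
    refine sq_of_near_one hv _ ?_
    have e : X / (s₀ * s₀) - 1 = (X - s₀ * s₀) / (s₀ * s₀) := by
      field_simp
    rw [e, map_div₀, h3, div_one]
    exact h2
  have h6 : X = X / (s₀ * s₀) * (s₀ * s₀) := by
    field_simp
  rw [h6]
  exact h5.mul ⟨s₀, rfl⟩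

/-- one of two units and their product is a square -/
theorem sq_or_sq_or_sq {v : HeightOneSpectrum (𝓞 k)} (hv : (2 : 𝓞 k) ∉ v.asIdeal)
    (X Y : v.adicCompletion k) (hX : Valued.v X = (1 : ℤᵐ⁰)) (hY : Valued.v Y = (1 : ℤᵐ⁰)) :
    IsSquare X ∨ IsSquare Y ∨ IsSquare (X * Y) := by
  classical
  obtain ⟨a, ha⟩ := exists_near v X hX.le
  obtain ⟨b, hb⟩ := exists_near v Y hY.le
  have hfin : Finite (𝓞 k ⧸ v.asIdeal) := v.asIdeal.finiteQuotientOfFreeOfNeBot v.ne_bot
  have hmax : v.asIdeal.IsMaximal := v.isMaximal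
  let _ : Field (𝓞 k ⧸ v.asIdeal) := Ideal.Quotient.field v.asIdeal
  have hft : Fintype (𝓞 k ⧸ v.asIdeal) := Fintype.ofFinite _
  by_cases h1 : IsSquare (Ideal.Quotient.mk v.asIdeal a)
  · exact Or.inl (sq_of_residue hv X hX a ha h1)
  by_cases h2 : IsSquare (Ideal.Quotient.mk v.asIdeal b)
  · exact Or.inr (Or.inl (sq_of_residue hv Y hY b hb h2))
  right
  right
  refine sq_of_residue hv (X * Y) (by rw [map_mul, hX, hY, one_mul]) (a * b) ?_ ?_
  · obtain ⟨A, hA⟩ : ∃ A, A = algebraMap k (v.adicCompletion k) (algebraMap (𝓞 k) k a) := ⟨_, rfl⟩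
    obtain ⟨B, hB⟩ : ∃ B, B = algebraMap k (v.adicCompletion k) (algebraMap (𝓞 k) k b) := ⟨_, rfl⟩
    rw [map_mul, map_mul, ← hA, ← hB]
    rw [← hA] at ha
    rw [← hB] at hb
    have hB1 : Valued.v B ≤ (1 : ℤᵐ⁰) := by
      have e : B = Y - (Y - B) := by ring
      rw [e]
      exact (Valued.v.map_sub _ _).trans (max_le hY.le hb.le)
    have e : X * Y - A * B = X * (Y - B) + (X - A) * B := by ring
    rw [e]
    refine lt_of_le_of_lt (Valued.v.map_add _ _) (max_lt ?_ ?_)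
    · rw [map_mul, hX, one_mul]
      exact hb
    · rw [map_mul]
      exact lt_of_le_of_lt (mul_le_of_le_one_right zero_le hB1) ha
  · rw [map_mul]
    have h3 : quadraticChar (𝓞 k ⧸ v.asIdeal) (Ideal.Quotient.mk v.asIdeal a) = -1 :=
      quadraticChar_neg_one_iff_not_isSquare.2 h1
    have h4 : quadraticChar (𝓞 k ⧸ v.asIdeal) (Ideal.Quotient.mk v.asIdeal b) = -1 :=
      quadraticChar_neg_one_iff_not_isSquare.2 h2
    have h5 : quadraticChar (𝓞 k ⧸ v.asIdeal)
        (Ideal.Quotient.mk v.asIdeal a * Ideal.Quotient.mk v.asIdeal b) = 1 := by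
      rw [map_mul, h3, h4]
      norm_num
    have h6 : Ideal.Quotient.mk v.asIdeal a * Ideal.Quotient.mk v.asIdeal b ≠ 0 := by
      intro h0
      rw [h0, quadraticChar_zero] at h5
      exact zero_ne_one h5
    exact (quadraticChar_one_iff_isSquare h6).1 h5

end Pool.Agent.Lib.MP_2f3286_ag.UA
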