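import Mathlib

/-!
# Characters of order two and the action of automorphisms on square roots
-/

open IntermediateField

namespace Pool.Agent.Lib.MP_2f3286_ag.UA

/-- A product-closed set of characters which separates the non-squares: a character trivial on a
finite set `F` is trivial wherever all characters of the set which are trivial on `F` are trivial. -/
theorem char_eq_one {G : Type*} [CommGroup G] (Xs : Set (G →* ℤˣ))
    (hmul : ∀ χ ∈ Xs, ∀ χ' ∈ Xs, χ * χ' ∈ Xs)
    (hsep : ∀ x : G, (∀ χ ∈ Xs, χ x = 1) → ∃ g, g ^ 2 = x) (ψ : G →* ℤˣ) (F : Finset G) :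
    (∀ f ∈ F, ψ f = 1) → ∀ x : G, (∀ χ ∈ Xs, (∀ f ∈ F, χ f = 1) → χ x = 1) → ψ x = 1 := by
  classical
  induction F using Finset.induction_on with
  | empty =>
    intro _ x hx
    obtain ⟨g, hg⟩ := hsep x (fun χ hχ => hx χ hχ (by simp))
    rw [← hg, map_pow]
    exact Int.units_sq _
  | insert a F ha ih =>
    intro hψ x hx
    have hψF : ∀ f ∈ F, ψ f = 1 := fun f hf => hψ f (Finset.mem_insert_of_mem hf)
    have hψa : ψ a = 1 := hψ a (Finset.mem_insert_self _ _)
    by_cases h : ∀ χ ∈ Xs, (∀ f ∈ F, χ f = 1) → χ a = 1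
    · refine ih hψF x fun χ hχ hF => hx χ hχ fun f hf => ?_
      rcases Finset.mem_insert.1 hf with rfl | hf'
      · exact h χ hχ hF
      · exact hF f hf'
    · push Not at h
      obtain ⟨τ, hτ, hτF, hτa⟩ := h
      have hτa' : τ a = -1 := (Int.units_eq_one_or _).resolve_left hτa
      -- the corrected element
      have key : ∀ y : G, τ y = 1 → (∀ χ ∈ Xs, (∀ f ∈ insert a F, χ f = 1) → χ y = 1) →
          ψ y = 1 := by
        intro y hτy hy
        refine ih hψF y fun χ hχ hF => ?_
        rcases Int.units_eq_one_or (χ a) with h1 | h1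
        · refine hy χ hχ fun f hf => ?_
          rcases Finset.mem_insert.1 hf with rfl | hf'
          · exact h1
          · exact hF f hf'
        · have h2 := hy (χ * τ) (hmul χ hχ τ hτ) (fun f hf => by
            rcases Finset.mem_insert.1 hf with rfl | hf'
            · rw [MonoidHom.mul_apply, h1, hτa']
              decide
            · rw [MonoidHom.mul_apply, hF f hf', hτF f hf', one_mul])
          rw [MonoidHom.mul_apply, hτy, mul_one] at h2
          exact h2
      rcases Int.units_eq_one_or (τ x) with h1 | h1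
      · exact key x h1 hx
      · have h2 := key (x * a) (by rw [map_mul, h1, hτa']; decide) (fun χ hχ hF => by
          rw [map_mul, hx χ hχ hF, hF a (Finset.mem_insert_self _ _), one_mul])
        rw [map_mul, hψa, mul_one] at h2
        exact h2

section roots

variable {k : Type*} [Field k]

/-- a square root in the algebraic closure -/
noncomputable def rt (x : kˣ) : AlgebraicClosure k :=
  (IsAlgClosed.exists_pow_nat_eq (algebraMap k (AlgebraicClosure k) x) two_pos).choose

theorem rt_sq (x : kˣ) : rt x ^ 2 = algebraMap k (AlgebraicClosure k) x :=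
  (IsAlgClosed.exists_pow_nat_eq (algebraMap k (AlgebraicClosure k) x) two_pos).choose_spec

theorem rt_ne_zero (x : kˣ) : rt x ≠ 0 := by
  intro h
  have h1 := rt_sq x
  rw [h, zero_pow two_ne_zero] at h1
  exact x.ne_zero ((map_eq_zero _).1 h1.symm)

variable [CharZero k]

theorem units_inj {K : Type*} [Field K] [CharZero K] {e e' : ℤˣ} {a : K} (ha : a ≠ 0)
    (h : ((e : ℤ) : K) * a = ((e' : ℤ) : K) * a) : e = e' := by
  have h1 := mul_right_cancel₀ ha h
  have h2 : (e : ℤ) = (e' : ℤ) := by exact_mod_cast h1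
  exact Units.ext h2

theorem exists_sign {K : Type*} [Field K] {a b : K} (h : a ^ 2 = b ^ 2) :
    ∃ e : ℤˣ, a = ((e : ℤ) : K) * b := by
  rcases sq_eq_sq_iff_eq_or_eq_neg.1 h with h1 | h1
  · exact ⟨1, by rw [h1]; push_cast; ring⟩
  · exact ⟨-1, by rw [h1]; push_cast; ring⟩

/-- the character of an automorphism -/
theorem exists_chi (σ : Gal(AlgebraicClosure k/k)) :
    ∃ χ : kˣ →* ℤˣ, ∀ x, σ (rt x) = ((χ x : ℤ) : AlgebraicClosure k) * rt x := by
  have h0 : ∀ x : kˣ, ∃ e : ℤˣ, σ (rt x) = ((e : ℤ) : AlgebraicClosure k) * rt x := by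
    intro x
    refine exists_sign ?_
    rw [← map_pow, rt_sq, AlgEquiv.commutes]
  choose e he using h0
  have hmul : ∀ x y, e (x * y) = e x * e y := by
    intro x y
    obtain ⟨d, hd⟩ : ∃ d : ℤˣ, rt (x * y) = ((d : ℤ) : AlgebraicClosure k) * (rt x * rt y) := by
      refine exists_sign ?_
      rw [mul_pow, rt_sq, rt_sq, rt_sq, Units.val_mul, map_mul]
    refine units_inj (rt_ne_zero (x * y)) ?_
    rw [← he (x * y)]
    rw [hd, map_mul, map_mul, he x, he y, map_intCast]
    push_cast
    ring
  have hone : e 1 = 1 := by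
    have := hmul 1 1
    rw [mul_one] at this
    exact (mul_eq_left.1 this.symm)
  exact ⟨{ toFun := e, map_one' := hone, map_mul' := hmul }, he⟩

end roots

end Pool.Agent.Lib.MP_2f3286_ag.UA
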