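import Pool.Agent.Lib.MP_2f3286_ag.Full.Cheb
import Pool.Agent.Lib.MP_2f3286_ag.UA.E0
import Pool.Agent.Lib.MP_2f3286_ag.UA.E1
import Pool.Agent.Lib.MP_2f3286_ag.UA.DH

/-!
# A place with a given quadratic character on the `S`-units
-/

open NumberField IsDedekindDomain IntermediateField
open scoped WithZero

namespace Pool.Agent.Lib.MP_2f3286_ag.UA

variable {k : Type*} [Field k] [NumberField k]

/-- the valuation of an `S`-unit -/
theorem val_US {S : Finset (HeightOneSpectrum (𝓞 k))} (x : US S) {v : HeightOneSpectrum (𝓞 k)}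
    (hv : v ∉ S) : v.valuation k ((x : kˣ) : k) = 1 := x.2 v hv

theorem ordv_US {S : Finset (HeightOneSpectrum (𝓞 k))} (x : US S) {v : HeightOneSpectrum (𝓞 k)}
    (hv : v ∉ S) : ordv v ((x : kˣ) : k) = 0 :=
  (ordv_eq_zero_iff v (Units.ne_zero _)).2 (val_US x hv)

/-- an `S`-unit which is a square in `k` is the square of an `S`-unit -/
theorem sq_US {S : Finset (HeightOneSpectrum (𝓞 k))} (x : US S) (g : k)
    (h : ((x : kˣ) : k) = g ^ 2) : ∃ y : US S, y ^ 2 = x := by
  have hg : g ≠ 0 := by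
    rintro rfl
    exact Units.ne_zero (x : kˣ) (by rw [h]; ring)
  refine ⟨⟨Units.mk0 g hg, fun v hv => ?_⟩, ?_⟩
  · have h1 := val_US x hv
    rw [h, map_pow] at h1
    exact (pow_eq_one_iff_of_nonneg zero_le two_ne_zero).1 h1
  · apply Subtype.ext
    apply Units.ext
    simp [h]

/-- representatives of a subgroup of index two -/
theorem exists_reps (S : Finset (HeightOneSpectrum (𝓞 k))) (ψ : US S →* ℤˣ) :
    ∃ F : Finset (US S), (∀ f ∈ F, ψ f = 1) ∧
      ∀ x : US S, ψ x = 1 → ∃ f ∈ F, ∃ g : US S, x * f = g ^ 2 := by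
  classical
  obtain ⟨F₀, hF₀, hF⟩ := finite_units S
  let P : k → Prop := fun f => ∃ x : US S, ψ x = 1 ∧ IsSquare (((x : kˣ) : k) * f)
  let c : k → US S := fun f => if h : P f then h.choose else 1
  have hc : ∀ f, P f → ψ (c f) = 1 ∧ IsSquare (((c f : kˣ) : k) * f) := by
    intro f hf
    have : c f = hf.choose := by
      simp only [c, dif_pos hf]
    rw [this]
    exact hf.choose_spec
  have hc1 : ∀ f, ψ (c f) = 1 := by
    intro f
    by_cases hf : P f
    · exact (hc f hf).1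
    · have : c f = 1 := by simp only [c, dif_neg hf]
      rw [this, map_one]
  refine ⟨F₀.image c, ?_, ?_⟩
  · intro f hf
    obtain ⟨f', _, rfl⟩ := Finset.mem_image.1 hf
    exact hc1 f'
  · intro x hx
    obtain ⟨f, hf, hsq⟩ := hF ((x : kˣ) : k) (Units.ne_zero _) (fun v hv => ordv_US x hv)
    refine ⟨c f, Finset.mem_image_of_mem _ hf, ?_⟩
    have hf0 := hF₀ f hf
    obtain ⟨a, ha⟩ := hsq
    obtain ⟨b, hb⟩ := (hc f ⟨x, hx, ⟨a, ha⟩⟩).2
    obtain ⟨g, hg⟩ := sq_US (x * c f) (a * b / f) (by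
      have : (((x * c f : US S) : kˣ) : k) = ((x : kˣ) : k) * ((c f : kˣ) : k) := by simp
      rw [this]
      field_simp
      have e : ((x : kˣ) : k) * ((c f : kˣ) : k) * f ^ 2 =
        (((x : kˣ) : k) * f) * (((c f : kˣ) : k) * f) := by ring
      rw [e, ha, hb]
      ring)
    exact ⟨g, hg.symm⟩

section main

variable {kb : Type*}

/-- an automorphism with a given action on the square roots of the `S`-units -/
theorem exists_aut (S : Finset (HeightOneSpectrum (𝓞 k))) (ψ : US S →* ℤˣ) (F : Finset (US S))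
    (hF : ∀ f ∈ F, ψ f = 1) (x₀ : US S) (hx₀ : ψ x₀ = -1) :
    ∃ (σ : Gal(AlgebraicClosure k/k)), (∀ f ∈ F, σ (rt (f : kˣ)) = rt (f : kˣ)) ∧
      σ (rt (x₀ : kˣ)) = - rt (x₀ : kˣ) := by
  classical
  let Xs : Set (US S →* ℤˣ) := {χ | ∃ σ : Gal(AlgebraicClosure k/k), ∀ x : US S,
    σ (rt (x : kˣ)) = ((χ x : ℤ) : AlgebraicClosure k) * rt (x : kˣ)}
  have hmul : ∀ χ ∈ Xs, ∀ χ' ∈ Xs, χ * χ' ∈ Xs := by
    rintro χ ⟨σ, hσ⟩ χ' ⟨σ', hσ'⟩
    refine ⟨σ * σ', fun x => ?_⟩
    rw [AlgEquiv.mul_apply, hσ', map_mul, hσ, map_intCast, MonoidHom.mul_apply]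
    push_cast
    ring
  have hsep : ∀ x : US S, (∀ χ ∈ Xs, χ x = 1) → ∃ g, g ^ 2 = x := by
    intro x hx
    have h1 : ∀ σ : Gal(AlgebraicClosure k/k), σ (rt (x : kˣ)) = rt (x : kˣ) := by
      intro σ
      obtain ⟨χ, hχ⟩ := exists_chi σ
      have h2 := hx (χ.comp (US S).subtype) ⟨σ, fun y => hχ y⟩
      have h3 : χ (x : kˣ) = 1 := h2
      rw [hχ, h3]
      push_cast
      ring
    obtain ⟨g, hg⟩ := (InfiniteGalois.mem_range_algebraMap_iff_fixed (k := k)
      (rt (x : kˣ))).2 h1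
    refine sq_US x g ?_
    apply (algebraMap k (AlgebraicClosure k)).injective
    rw [map_pow, hg, rt_sq]
  by_contra hcon
  have h1 := char_eq_one Xs hmul hsep ψ F hF x₀ (by
    rintro χ ⟨σ, hσ⟩ hχF
    rcases Int.units_eq_one_or (χ x₀) with h | h
    · exact h
    · exfalso
      apply hcon
      refine ⟨σ, fun f hf => ?_, ?_⟩
      · rw [hσ, hχF f hf]
        push_cast
        ring
      · rw [hσ, h]
        push_cast
        ring)
  rw [hx₀] at h1
  exact absurd h1 (by decide)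

/-- PART II, text III: a prime with given quadratic character on the `S`-units. -/
theorem exists_prime (S T : Finset (HeightOneSpectrum (𝓞 k)))
    (hS : ∀ v : HeightOneSpectrum (𝓞 k), (2 : 𝓞 k) ∈ v.asIdeal → v ∈ S)
    (ψ : US S →* ℤˣ) (hψ : ψ ≠ 1) :
    ∃ v : HeightOneSpectrum (𝓞 k), v ∉ S ∧ v ∉ T ∧
      ∀ x : US S, ψ x = 1 ↔ SqAt v ((x : kˣ) : k) := by
  classical
  obtain ⟨x₀, hx₀⟩ : ∃ x₀, ψ x₀ = -1 := by
    by_contra hcon
    push Not at hcon
    apply hψ
    ext x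
    rw [(Int.units_eq_one_or (ψ x)).resolve_right (hcon x)]
    rfl
  obtain ⟨F, hF, hrep⟩ := exists_reps S ψ
  obtain ⟨σ, hσF, hσ₀⟩ := exists_aut S ψ F hF x₀ hx₀
  let W : Set (AlgebraicClosure k) := insert (rt (x₀ : kˣ)) ((fun f : US S => rt (f : kˣ)) '' F)
  have hWfin : W.Finite := (F.finite_toSet.image _).insert _
  let L : IntermediateField k (AlgebraicClosure k) := IntermediateField.adjoin k W
  have hLfin : FiniteDimensional k L :=
    have := hWfin.to_subtype
    IntermediateField.finiteDimensional_adjoin (fun x _ => Algebra.IsIntegral.isIntegral x)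
  obtain ⟨v, hv, hι⟩ := Full.cheb (S ∪ T) L σ
  have hvS : v ∉ S := fun h => hv (Finset.mem_union_left _ h)
  have hvT : v ∉ T := fun h => hv (Finset.mem_union_right _ h)
  have hv2 : (2 : 𝓞 k) ∉ v.asIdeal := fun h => hvS (hS v h)
  have : CharZero (v.adicCompletion k) := charZero_of_injective_algebraMap
    (algebraMap k (v.adicCompletion k)).injective
  have : Algebra.IsAlgebraic k (AlgebraicClosure k) := inferInstance
  let ι : AlgebraicClosure k →ₐ[k] AlgebraicClosure (v.adicCompletion k) := IsAlgClosed.lift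
  obtain ⟨g, σ', hσ', τ, hτ⟩ := hι ι
  -- the action of `τ` on the square roots
  have hact : ∀ (x : US S) (e : ℤˣ), rt (x : kˣ) ∈ L →
      σ (rt (x : kˣ)) = ((e : ℤ) : AlgebraicClosure k) * rt (x : kˣ) →
      τ (ι (rt (x : kˣ))) = ((e : ℤ) : AlgebraicClosure (v.adicCompletion k)) *
        ι (rt (x : kˣ)) := by
    intro x e hx hσx
    obtain ⟨χ, hχ⟩ := exists_chi g⁻¹
    obtain ⟨χ', hχ'⟩ := exists_chi g
    have h1 : (g * σ' * g⁻¹) (rt (x : kˣ)) =
        ((e : ℤ) : AlgebraicClosure k) * rt (x : kˣ) := by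
      have h2 : (g * σ' * g⁻¹) (rt (x : kˣ)) = g (σ' (g⁻¹ (rt (x : kˣ)))) := rfl
      rw [h2, hχ, map_mul, map_intCast, hσ' _ hx, hσx, map_mul, map_mul, map_intCast, map_intCast]
      have h3 : g (g⁻¹ (rt (x : kˣ))) = rt (x : kˣ) := g.apply_symm_apply _
      rw [hχ, map_mul, map_intCast] at h3
      linear_combination ((e : ℤ) : AlgebraicClosure k) * h3
    rw [← hτ, h1, map_mul, map_intCast]
  have hx₀L : rt (x₀ : kˣ) ∈ L :=
    IntermediateField.subset_adjoin k W (Set.mem_insert _ _)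
  have hFL : ∀ f ∈ F, rt (f : kˣ) ∈ L := fun f hf =>
    IntermediateField.subset_adjoin k W (Set.mem_insert_of_mem _ ⟨f, hf, rfl⟩)
  have hτ₀ : τ (ι (rt (x₀ : kˣ))) = - ι (rt (x₀ : kˣ)) := by
    have := hact x₀ (-1) hx₀L (by rw [hσ₀]; push_cast; ring)
    rw [this]
    push_cast
    ring
  have hτF : ∀ f ∈ F, τ (ι (rt (f : kˣ))) = ι (rt (f : kˣ)) := by
    intro f hf
    have := hact f 1 (hFL f hf) (by rw [hσF f hf]; push_cast; ring)
    rw [this]
    push_cast
    ring
  have hne : ι (rt (x₀ : kˣ)) ≠ 0 := by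
    rw [Ne, map_eq_zero]
    exact rt_ne_zero _
  have hι2 : ∀ x : kˣ, ι (rt x) ^ 2 = algebraMap (v.adicCompletion k) (AlgebraicClosure (v.adicCompletion k))
      (algebraMap k (v.adicCompletion k) x) := by
    intro x
    rw [← map_pow, rt_sq, ι.commutes]
    exact IsScalarTower.algebraMap_apply k (v.adicCompletion k) _ _
  -- squares at `v` are fixed
  have hfix : ∀ x : US S, SqAt v ((x : kˣ) : k) → τ (ι (rt (x : kˣ))) = ι (rt (x : kˣ)) := by
    rintro x ⟨z, hz⟩
    obtain ⟨e, he⟩ := exists_sign (a := ι (rt (x : kˣ)))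
      (b := algebraMap (v.adicCompletion k) (AlgebraicClosure (v.adicCompletion k)) z) (by
        rw [hι2, hz, map_mul, sq])
    rw [he, map_mul, map_intCast, AlgEquiv.commutes]
  have hA : ∀ x : US S, SqAt v ((x : kˣ) : k) → ψ x = 1 := by
    intro x hx
    by_contra hcon
    have hx1 : ψ x = -1 := (Int.units_eq_one_or _).resolve_left hcon
    obtain ⟨f, hf, y, hy⟩ := hrep (x * x₀) (by rw [map_mul, hx1, hx₀]; decide)
    have h1 := hfix x hx
    have h2 := hτF f hf
    -- `rt x₀ = ± y / (rt x * rt f)`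
    have hyk : ((x : kˣ) : k) * ((x₀ : kˣ) : k) * ((f : kˣ) : k) = ((y : kˣ) : k) ^ 2 := by
      have h3 := congrArg (fun z : US S => ((z : kˣ) : k)) hy
      simpa using h3
    obtain ⟨e, he⟩ := exists_sign (a := ι (rt (x₀ : kˣ)))
      (b := ι (algebraMap k (AlgebraicClosure k) ((y : kˣ) : k)) /
        (ι (rt (x : kˣ)) * ι (rt (f : kˣ)))) (by
        have hP : ∀ z : kˣ, ι (rt z) ^ 2 = ι (algebraMap k (AlgebraicClosure k) z) := by
          intro z
          rw [← map_pow, rt_sq]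
        rw [div_pow, mul_pow, hP, hP, hP, ← map_pow, ← map_pow, ← hyk, ← map_mul, ← map_div₀,
          ← map_mul, ← map_div₀]
        congr 2
        have hx' : ((x : kˣ) : k) ≠ 0 := Units.ne_zero _
        have hf' : ((f : kˣ) : k) ≠ 0 := Units.ne_zero _
        field_simp)
    have h3 : τ (ι (rt (x₀ : kˣ))) = ι (rt (x₀ : kˣ)) := by
      rw [he, map_mul, map_intCast, map_div₀, map_mul, h1, h2]
      congr 2
      rw [ι.commutes, IsScalarTower.algebraMap_apply k (v.adicCompletion k)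
        (AlgebraicClosure (v.adicCompletion k)), AlgEquiv.commutes]
    rw [hτ₀] at h3
    exact hne (self_eq_neg.1 h3.symm)
  refine ⟨v, hvS, hvT, fun x => ⟨fun hx => ?_, hA x⟩⟩
  have hu : ∀ y : US S, Valued.v (algebraMap k (v.adicCompletion k) ((y : kˣ) : k)) = (1 : ℤᵐ⁰) := by
    intro y
    rw [val_alg]
    exact val_US y hvS
  rcases sq_or_sq_or_sq hv2 _ _ (hu x) (hu x₀) with h | h | h
  · exact h
  · have := hA x₀ h
    rw [hx₀] at this
    exact absurd this (by decide)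
  · have h1 : SqAt v (((x * x₀ : US S) : kˣ) : k) := by
      unfold SqAt
      have e : (((x * x₀ : US S) : kˣ) : k) = ((x : kˣ) : k) * ((x₀ : kˣ) : k) := by simp
      rw [e, map_mul]
      exact h
    have h2 := hA _ h1
    rw [map_mul, hx, hx₀] at h2
    exact absurd h2 (by decide)

end main

end Pool.Agent.Lib.MP_2f3286_ag.UA
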