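import Pool.Agent.Lib.MP_2f3286_ag.UA.DC
import Pool.Agent.Lib.MP_2f3286_ag.UA.DD
import Pool.Agent.Lib.MP_2f3286_ag.UA.DE
import Pool.Agent.Lib.MP_2f3286_ag.UA.DI
import Pool.Agent.Lib.MP_2f3286_ag.UA.DJ
import Pool.Agent.Lib.MP_2f3286_ag.UA.P23
import Pool.Agent.Lib.MP_2f3286_ag.UA.EP
import Pool.Agent.Lib.MP_2f3286_ag.UA.C14

/-!
# (D6): lowering the Selmer group by a twist
-/

open NumberField IsDedekindDomain

namespace Pool.Agent.Lib.MP_2f3286_ag.UA

variable {k : Type*} [Field k] [NumberField k]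

/-- `v` is not over `2` and `4` divides the order of `d` -/
def Good (v : HeightOneSpectrum (𝓞 k)) (d : k) : Prop := (2 : 𝓞 k) ∉ v.asIdeal ∧ 4 ∣ ordv v d

/-- the (possibly larger) Selmer group: even order at the good places, the local condition at the others -/
def SelP (d c : k) : Prop :=
  c ≠ 0 ∧ (∀ v : HeightOneSpectrum (𝓞 k), Good v d → Even (ordv v c)) ∧
    ∀ v : HeightOneSpectrum (𝓞 k), ¬ Good v d → InW v d c

theorem isSquare_of_mul {F : Type*} [Field F] {a b : F} (hb : b ≠ 0) (h : IsSquare (a * b))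
    (h' : IsSquare b) : IsSquare a := by
  obtain ⟨r, hr⟩ := h
  obtain ⟨s, hs⟩ := h'
  have hs0 : s ≠ 0 := by
    rintro rfl
    exact hb (by rw [hs, mul_zero])
  refine ⟨r / s, ?_⟩
  have h7 : r / s * (r / s) = r * r / (s * s) := by field_simp
  rw [h7, ← hr, ← hs]
  field_simp

theorem ordv_twist (v : HeightOneSpectrum (𝓞 k)) {d δ : k} (hd : d ≠ 0) (hδ : δ ≠ 0) :
    ordv v (d * δ ^ 2) = ordv v d + 2 * ordv v δ := by
  rw [ordv_mul v hd (pow_ne_zero 2 hδ), ordv_pow]
  rfl

theorem good_twist (v : HeightOneSpectrum (𝓞 k)) {d δ : k} (hd : d ≠ 0) (hδ : δ ≠ 0)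
    (he : Even (ordv v δ)) : Good v (d * δ ^ 2) ↔ Good v d := by
  unfold Good
  rw [ordv_twist v hd hδ]
  obtain ⟨r, hr⟩ := he
  constructor
  · rintro ⟨h1, h2⟩
    exact ⟨h1, by omega⟩
  · rintro ⟨h1, h2⟩
    exact ⟨h1, by omega⟩

theorem lower {i : k} (hi : i ^ 2 = -1) {d c₁ : k} (hd : d ≠ 0) (hns : ¬ IsSquare d)
    (h1 : SelP d c₁) (hc : ¬ IsSquare c₁) (hcd : ¬ IsSquare (c₁ * d)) :
    ∃ δ : k, δ ≠ 0 ∧ (∀ c, SelP (d * δ ^ 2) c → SelP d c) ∧
      ∀ c, SelP (d * δ ^ 2) c → ¬ IsSquare (c * c₁) := by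
  classical
  have hc1 : c₁ ≠ 0 := h1.1
  obtain ⟨S, hTS, hBig⟩ := exists_big ((finite_ord d hd).toFinset ∪ (finite_ord c₁ hc1).toFinset)
  have hSd : ∀ v ∉ S, ordv v d = 0 := by
    intro v hv
    by_contra h
    exact hv (hTS (Finset.mem_union_left _ ((finite_ord d hd).mem_toFinset.2 h)))
  have hSc : ∀ v ∉ S, ordv v c₁ = 0 := by
    intro v hv
    by_contra h
    exact hv (hTS (Finset.mem_union_right _ ((finite_ord c₁ hc1).mem_toFinset.2 h)))
  have hS2 : ∀ v ∉ S, (2 : 𝓞 k) ∉ v.asIdeal := fun v hv h => hv (hBig.1 v h)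
  have hgood : ∀ v ∉ S, Good v d := fun v hv => ⟨hS2 v hv, by rw [hSd v hv]; exact dvd_zero 4⟩
  -- the units
  obtain ⟨C, hC⟩ : ∃ C : US S, ((C : kˣ) : k) = c₁ :=
    ⟨⟨Units.mk0 c₁ hc1, fun v hv => (ordv_eq_zero_iff v hc1).1 (hSc v hv)⟩, rfl⟩
  obtain ⟨D, hD⟩ : ∃ D : US S, ((D : kˣ) : k) = d :=
    ⟨⟨Units.mk0 d hd, fun v hv => (ordv_eq_zero_iff v hd).1 (hSd v hv)⟩, rfl⟩
  have hsqU : ∀ (g E : US S), g ^ 2 = E → IsSquare ((E : kˣ) : k) := by
    intro g E h
    refine ⟨((g : kˣ) : k), ?_⟩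
    rw [← h]
    push_cast
    ring
  obtain ⟨ψ₁, ψ₂, e1, e2, e3⟩ := exists_chars C D
    (by
      rintro ⟨g, hg⟩
      exact hc (hC ▸ hsqU g C hg))
    (by
      rintro ⟨g, hg⟩
      exact hns (hD ▸ hsqU g D hg))
    (by
      rintro ⟨g, hg⟩
      have := hsqU g (C * D) hg
      rw [Subgroup.coe_mul, Units.val_mul, hC, hD] at this
      exact hcd this)
  have hne1 : ψ₁ ≠ 1 := by
    intro h
    rw [h, MonoidHom.one_apply] at e2
    exact absurd e2 (by decide)
  have hne2 : ψ₂ ≠ 1 := by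
    intro h
    rw [h, MonoidHom.one_apply] at e3
    exact absurd e3 (by decide)
  have hne3 : ψ₁ * ψ₂ ≠ 1 := by
    intro h
    have h2 := DFunLike.congr_fun h D
    rw [MonoidHom.mul_apply, MonoidHom.one_apply, e1, e3] at h2
    exact absurd h2 (by decide)
  obtain ⟨p, hpS, -, hp⟩ := exists_prime S ∅ hBig.1 ψ₁ hne1
  obtain ⟨q, hqS, hqp, hq⟩ := exists_prime S {p} hBig.1 ψ₂ hne2
  obtain ⟨q', hqS', hqp', hq'⟩ := exists_prime S {p, q} hBig.1 (ψ₁ * ψ₂) hne3
  have hpq : q ≠ p := fun h => hqp (by rw [h]; exact Finset.mem_singleton_self p)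
  have hpq' : q' ≠ p := fun h => hqp' (by rw [h]; exact Finset.mem_insert_self p _)
  have hqq' : q' ≠ q := fun h => hqp' (by
    rw [h]
    exact Finset.mem_insert_of_mem (Finset.mem_singleton_self q))
  obtain ⟨T, hT⟩ : ∃ T : Finset (HeightOneSpectrum (𝓞 k)), T = {p, q, q'} := ⟨_, rfl⟩
  have hmT : ∀ v, v ∈ T ↔ v = p ∨ v = q ∨ v = q' := by
    intro v
    rw [hT]
    simp
  obtain ⟨δ, hδ, hδS, hδT, hδ0⟩ := exists_delta i hi S T hBig (by
    rw [Finset.disjoint_left]
    intro v hv hv'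
    rcases (hmT v).1 hv' with rfl | rfl | rfl
    · exact hpS hv
    · exact hqS hv
    · exact hqS' hv) (by
    intro x
    have hu : ∀ a : ℤˣ, a = 1 ∨ a = -1 := Int.units_eq_one_or
    have hn1 : (-1 : ℤˣ) ≠ 1 := by decide
    have hset : ∀ A : Set (HeightOneSpectrum (𝓞 k)),
        (∀ v, v ∈ A ↔ (v ∈ T ∧ ¬ SqAt v ((x : kˣ) : k))) →
        {v : HeightOneSpectrum (𝓞 k) | v ∈ T ∧ ¬ SqAt v ((x : kˣ) : k)} = A := by
      intro A hA
      ext v
      exact (hA v).symm
    have hsp := hp x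
    have hsq := hq x
    have hsq' := hq' x
    rw [MonoidHom.mul_apply] at hsq'
    rcases hu (ψ₁ x) with h2 | h2
    · rcases hu (ψ₂ x) with h3 | h3
      · rw [hset ∅ (by
          intro v
          simp only [Set.mem_empty_iff_false, false_iff, not_and, not_not]
          intro hv
          rcases (hmT v).1 hv with rfl | rfl | rfl
          · exact hsp.1 h2
          · exact hsq.1 h3
          · exact hsq'.1 (by rw [h2, h3, mul_one]))]
        rw [Set.ncard_empty]
        exact ⟨0, rfl⟩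
      · rw [hset {q, q'} (by
          intro v
          simp only [Set.mem_insert_iff, Set.mem_singleton_iff]
          constructor
          · rintro (rfl | rfl)
            · exact ⟨(hmT _).2 (Or.inr (Or.inl rfl)), fun h => hn1 (h3 ▸ hsq.2 h)⟩
            · refine ⟨(hmT _).2 (Or.inr (Or.inr rfl)), fun h => hn1 ?_⟩
              have := hsq'.2 h
              rwa [h2, h3, one_mul] at this
          · rintro ⟨hv, hns⟩
            rcases (hmT v).1 hv with rfl | rfl | rfl
            · exact absurd (hsp.1 h2) hns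
            · exact Or.inl rfl
            · exact Or.inr rfl)]
        rw [Set.ncard_pair hqq'.symm]
        exact ⟨1, rfl⟩
    · rcases hu (ψ₂ x) with h3 | h3
      · rw [hset {p, q'} (by
          intro v
          simp only [Set.mem_insert_iff, Set.mem_singleton_iff]
          constructor
          · rintro (rfl | rfl)
            · exact ⟨(hmT _).2 (Or.inl rfl), fun h => hn1 (h2 ▸ hsp.2 h)⟩
            · refine ⟨(hmT _).2 (Or.inr (Or.inr rfl)), fun h => hn1 ?_⟩
              have := hsq'.2 h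
              rwa [h2, h3, mul_one] at this
          · rintro ⟨hv, hns⟩
            rcases (hmT v).1 hv with rfl | rfl | rfl
            · exact Or.inl rfl
            · exact absurd (hsq.1 h3) hns
            · exact Or.inr rfl)]
        rw [Set.ncard_pair hpq'.symm]
        exact ⟨1, rfl⟩
      · rw [hset {p, q} (by
          intro v
          simp only [Set.mem_insert_iff, Set.mem_singleton_iff]
          constructor
          · rintro (rfl | rfl)
            · exact ⟨(hmT _).2 (Or.inl rfl), fun h => hn1 (h2 ▸ hsp.2 h)⟩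
            · exact ⟨(hmT _).2 (Or.inr (Or.inl rfl)), fun h => hn1 (h3 ▸ hsq.2 h)⟩
          · rintro ⟨hv, hns⟩
            rcases (hmT v).1 hv with rfl | rfl | rfl
            · exact Or.inl rfl
            · exact Or.inr rfl
            · exact absurd (hsq'.1 (by rw [h2, h3]; decide)) hns)]
        rw [Set.ncard_pair hpq.symm]
        exact ⟨1, rfl⟩)
  have hpd : SqAt p d := by
    rw [← hD]
    exact (hp D).1 e1
  have hpc : ¬ SqAt p c₁ := by
    intro h
    rw [← hC] at h
    have := (hp C).2 h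
    rw [e2] at this
    exact absurd this (by decide)
  have hqd : ¬ SqAt q d := by
    intro h
    rw [← hD] at h
    have := (hq D).2 h
    rw [e3] at this
    exact absurd this (by decide)
  have hqd' : ¬ SqAt q' d := by
    intro h
    rw [← hD] at h
    have := (hq' D).2 h
    rw [MonoidHom.mul_apply, e1, e3] at this
    exact absurd this (by decide)
  have hpT : p ∈ T := (hmT p).2 (Or.inl rfl)
  have hqT : q ∈ T := (hmT q).2 (Or.inr (Or.inl rfl))
  have hqT' : q' ∈ T := (hmT q').2 (Or.inr (Or.inr rfl))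
  -- the places of `T` are not good for the twist
  have hbadT : ∀ v ∈ T, v ∉ S → ¬ Good v (d * δ ^ 2) := by
    intro v hv hvS hg
    have h2 := hg.2
    rw [ordv_twist v hd hδ, hSd v hvS, hδT v hv] at h2
    omega
  have hgoodS : ∀ v ∈ S, (Good v (d * δ ^ 2) ↔ Good v d) := fun v hv =>
    good_twist v hd hδ (even_of_sqAt (hδS v hv))
  have key : ∀ c, SelP (d * δ ^ 2) c → SelP d c ∧ SqAt p c := by
    intro c hsel
    obtain ⟨hc0, hcg, hcb⟩ := hsel
    have hW : ∀ v, ¬ Good v d → InW v d c := by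
      intro v hv
      have hvS : v ∈ S := by
        by_contra h
        exact hv (hgood v h)
      exact inW_of_twist hδ (hδS v hvS) (hcb v (fun h => hv ((hgoodS v hvS).1 h)))
    have hE : ∀ v, v ≠ p → Good v d → Even (ordv v c) := by
      intro v hvp hv
      by_cases hvS : v ∈ S
      · exact hcg v ((hgoodS v hvS).2 hv)
      · by_cases hvT : v ∈ T
        · rcases (hmT v).1 hvT with h | h | h
          · exact absurd h hvp
          · exact even_of_free hi (hS2 v hvS) hd hδ hc0 (hSd v hvS) (h ▸ hqd) (hδT v hvT)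
              (hcb v (hbadT v hvT hvS))
          · exact even_of_free hi (hS2 v hvS) hd hδ hc0 (hSd v hvS) (h ▸ hqd') (hδT v hvT)
              (hcb v (hbadT v hvT hvS))
        · refine hcg v ⟨hS2 v hvS, ?_⟩
          rw [ordv_twist v hd hδ, hSd v hvS, hδ0 v hvS hvT]
          norm_num
    have hpe : Even (ordv p c) := by
      obtain ⟨S₀, hS₀⟩ : ∃ S₀ : Finset (HeightOneSpectrum (𝓞 k)),
          S₀ = S.filter (fun v => ¬ Good v d) := ⟨_, rfl⟩
      have hm₀ : ∀ v, v ∈ S₀ ↔ ¬ Good v d := by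
        intro v
        rw [hS₀, Finset.mem_filter]
        constructor
        · exact fun h => h.2
        · intro h
          refine ⟨?_, h⟩
          by_contra h2
          exact h (hgood v h2)
      have hpf := product_formula i hi S₀ (fun v hv => (hm₀ v).2 (fun h => h.1 hv)) c₁ c hc1 hc0
        (fun v hv => h1.2.1 v (by
          by_contra h
          exact hv ((hm₀ v).2 h)))
        (fun v hv => normAt_of_inW hi hd hc1 hc0 (h1.2.2 v ((hm₀ v).1 hv)) (hW v ((hm₀ v).1 hv)))
      by_contra hodd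
      rw [Int.not_even_iff_odd] at hodd
      have hset : {v : HeightOneSpectrum (𝓞 k) | v ∉ S₀ ∧ Odd (ordv v c) ∧ ¬ SqAt v c₁} = {p} := by
        ext v
        rw [Set.mem_singleton_iff]
        constructor
        · rintro ⟨h2, h3, -⟩
          by_contra hvp
          have h5 : Good v d := by
            by_contra h
            exact h2 ((hm₀ v).2 h)
          exact (Int.not_even_iff_odd.2 h3) (hE v hvp h5)
        · rintro rfl
          exact ⟨fun h => (hm₀ _).1 h (hgood _ hpS), hodd, hpc⟩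
      rw [hset, Set.ncard_singleton] at hpf
      exact absurd hpf (by decide)
    refine ⟨⟨hc0, ?_, hW⟩, ?_⟩
    · intro v hv
      by_cases hvp : v = p
      · rw [hvp]
        exact hpe
      · exact hE v hvp hv
    · exact sq_of_eff hi (hS2 p hpS) hd hδ hc0 (hSd p hpS) hpd (hδT p hpT)
        (hcb p (hbadT p hpT hpS)) hpe
  refine ⟨δ, hδ, fun c hsel => (key c hsel).1, ?_⟩
  intro c hsel hsq
  apply hpc
  obtain ⟨r, hr⟩ := hsq
  have h2 : IsSquare (algebraMap k (p.adicCompletion k) c₁ * algebraMap k (p.adicCompletion k) c) := by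
    refine ⟨algebraMap k (p.adicCompletion k) r, ?_⟩
    rw [← map_mul, ← map_mul, mul_comm c₁ c, hr]
  exact isSquare_of_mul (alg_ne_zero p hsel.1) h2 (key c hsel).2

end Pool.Agent.Lib.MP_2f3286_ag.UA
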