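import Mathlib

/-!
# The birational section conjecture for a cofinal system of curves over every number field: definitions
-/

open NumberField IsDedekindDomain

namespace Pool.Agent.Lib.MP_2f3286_ag.UA

variable {k : Type*} [Field k] [NumberField k]

/-- the order of `x` at `v` (`0` for `x = 0`) -/
noncomputable def ordv (v : HeightOneSpectrum (𝓞 k)) (x : k) : ℤ :=
  -WithZero.log (v.valuation k x)

/-- `x` is a square in the completion at `v` -/
def SqAt (v : HeightOneSpectrum (𝓞 k)) (x : k) : Prop :=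
  IsSquare (algebraMap k (v.adicCompletion k) x)

/-- `c = z ^ 2 - x w ^ 2` in the completion at `v` -/
def NormAt (v : HeightOneSpectrum (𝓞 k)) (x c : k) : Prop :=
  ∃ z w : v.adicCompletion k,
    algebraMap k (v.adicCompletion k) c = z ^ 2 - algebraMap k (v.adicCompletion k) x * w ^ 2

/-- the local condition for the Selmer group of `y ^ 2 = x ^ 3 - d x` for the multiplication by
`1 + i`: `c` is `1`, `d` or the `x`-coordinate of a point, up to squares -/
def InW (v : HeightOneSpectrum (𝓞 k)) (d c : k) : Prop :=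
  SqAt v c ∨ SqAt v (c * d) ∨ ∃ x y : v.adicCompletion k, x ≠ 0 ∧
    y ^ 2 = x ^ 3 - algebraMap k (v.adicCompletion k) d * x ∧
    IsSquare (algebraMap k (v.adicCompletion k) c * x)

/-- the Selmer group is as small as possible -/
def SelTriv (d : k) : Prop :=
  ∀ c : k, c ≠ 0 → (∀ v : HeightOneSpectrum (𝓞 k), InW v d c) → IsSquare c ∨ IsSquare (c * d)

/-- the `S`-units -/
def US (S : Finset (HeightOneSpectrum (𝓞 k))) : Subgroup kˣ where
  carrier := {x | ∀ v ∉ S, v.valuation k (x : k) = 1}
  mul_mem' := fun {a b} ha hb v hv => by rw [Units.val_mul, map_mul, ha v hv, hb v hv, one_mul]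
  one_mem' := fun v _ => by rw [Units.val_one, map_one]
  inv_mem' := fun {a} ha v hv => by rw [Units.val_inv_eq_inv_val, map_inv₀, ha v hv, inv_one]

/-- `S` contains the places above `2`, and every place is principal up to `S` -/
def Big (S : Finset (HeightOneSpectrum (𝓞 k))) : Prop :=
  (∀ v : HeightOneSpectrum (𝓞 k), (2 : 𝓞 k) ∈ v.asIdeal → v ∈ S) ∧
  ∀ v : HeightOneSpectrum (𝓞 k), v ∉ S → ∃ a : k, ordv v a = 1 ∧ a ≠ 0 ∧
    ∀ w : HeightOneSpectrum (𝓞 k), w ∉ S → w ≠ v → ordv w a = 0

end Pool.Agent.Lib.MP_2f3286_ag.UA
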