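import Pool.Agent.Lib.MP_2f3286_ag.UA.Aff
import Pool.Agent.Lib.MP_2f3286_ag.HYP.CvUni

/-!
# Sections above the curve, cusps allowed: the alternative
-/

open Polynomial IntermediateField IsDedekindDomain NumberField
open scoped Pointwise

namespace Pool.Agent.Lib.MP_2f3286_ag.UA

open Pool.Agent.Lib.MP_2f3286_ag.HYP
open Pool.Agent.Lib.MP_2f3286_ag.Full

universe u

/-- a power in a valuation ring -/
theorem mem_of_sq {M : Type*} [Field M] (V : ValuationSubring M) {x : M} (h : x ^ 2 ∈ V) :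
    x ∈ V := Fer.mem_of_pow V two_ne_zero h

/-- **All local points are over the complement of `x = 0` and infinity, or above the same of these
points.** -/
theorem alt {k : Type u} [Field k] [NumberField k] {i d : k} {f : k[X]}
    (C : Crv i d f)
    {K : Type*} [Field K] [Algebra k K] (htr : Algebra.trdeg k K = 1)
    {x y : K} (hx : ∀ c : k, x ≠ algebraMap k K c) (hxy : y ^ 2 = aeval x f)
    (R : Subalgebra k K)
    {M : Type*} [Field M] [Algebra K M] [IsGalois K M]
    [Algebra (AlgebraicClosure k) M] [Algebra k M]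
    [IsScalarTower k K M] [IsScalarTower k (AlgebraicClosure k) M]
    (s : Gal(AlgebraicClosure k/k) →* Gal(M/K)) (hs : Continuous s)
    (hsec : ∀ σ a, s σ (algebraMap (AlgebraicClosure k) M a) =
      algebraMap (AlgebraicClosure k) M (σ a))
    (hxR : x ∈ R) (hyR : y ∈ R) (hyR' : y⁻¹ ∈ R)
    (hM : Pt.IsMaxUnramOver R K M (AlgebraicClosure k))
    (hloc : ∀ v : HeightOneSpectrum (𝓞 k),
      ∃ (ι : AlgebraicClosure k →ₐ[k] AlgebraicClosure (v.adicCompletion k))
        (A : ValuationSubring M) (φ : A →+* AlgebraicClosure (v.adicCompletion k)),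
        Sel.IsPlaceOf s (v.adicCompletion k)
          (ι : _ →+* AlgebraicClosure (v.adicCompletion k)) A φ) :
    (∃ e : k, e ≠ 0 ∧ ∀ (v : HeightOneSpectrum (𝓞 k))
      (ι : AlgebraicClosure k →ₐ[k] AlgebraicClosure (v.adicCompletion k))
      (A : ValuationSubring M) (φ : A →+* AlgebraicClosure (v.adicCompletion k)),
      Sel.IsPlaceOf s (v.adicCompletion k)
        (ι : _ →+* AlgebraicClosure (v.adicCompletion k)) A φ →
      ∃ h : algebraMap K M x ∈ A, φ ⟨_, h⟩ = ι (algebraMap k _ e)) ∨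
    ∃ (f₂ : k[X]) (x₂ y₂ : K), IsModel R 1 x y f₂ x₂ y₂ ∧
      (∀ A : ValuationSubring K, (∀ c : k, algebraMap k K c ∈ A) → x ∈ A → x⁻¹ ∈ A → y₂ ∈ A) ∧
      ∀ (v : HeightOneSpectrum (𝓞 k))
        (ι : AlgebraicClosure k →ₐ[k] AlgebraicClosure (v.adicCompletion k))
        (A : ValuationSubring M) (φ : A →+* AlgebraicClosure (v.adicCompletion k)),
        Sel.IsPlaceOf s (v.adicCompletion k)
          (ι : _ →+* AlgebraicClosure (v.adicCompletion k)) A φ →
        algebraMap K M y₂ ∉ A := by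
  have hxk : Transcendental k x := transc_of_sec hsec hx
  have hx0 : x ≠ 0 := by
    rintro rfl
    exact hxk isAlgebraic_zero
  have hd := C.hd
  have hxi : IsIntegral R x := isIntegral_algebraMap (R := R) (A := K) (x := ⟨x, hxR⟩)
  have hyi : IsIntegral R y := isIntegral_algebraMap (R := R) (A := K) (x := ⟨y, hyR⟩)
  have hyi' : IsIntegral R y⁻¹ := isIntegral_algebraMap (R := R) (A := K) (x := ⟨y⁻¹, hyR'⟩)
  have hxy' : y ^ 2 = x ^ 3 - algebraMap k K d * x := by rw [hxy, C.aeval_eq]
  have hxM : algebraMap K M x ≠ 0 := by rwa [_root_.map_ne_zero]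
  have hxyM : algebraMap K M y ^ 2 = algebraMap K M x ^ 3 - algebraMap k M d * algebraMap K M x := by
    rw [← map_pow, hxy', map_sub, map_mul, map_pow, ← IsScalarTower.algebraMap_apply k K M]
  have hkA : ∀ {E Eb : Type _} [Field E] [Field Eb] [Algebra E Eb] {ι : AlgebraicClosure k →+* Eb}
      {A : ValuationSubring M} {φ : A →+* Eb}, Sel.IsPlaceOf s E ι A φ → ∀ c : k,
      ∃ h : algebraMap k M c ∈ A, φ ⟨_, h⟩ = ι (algebraMap k _ c) := by
    intro E Eb _ _ _ ι A φ h c
    obtain ⟨h1, h2⟩ := h.1 (algebraMap k _ c)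
    rw [← IsScalarTower.algebraMap_apply] at h1
    refine ⟨h1, h2.symm ▸ ?_⟩
    congr 1
    exact Subtype.ext (IsScalarTower.algebraMap_apply k (AlgebraicClosure k) M c)
  rcases tri_over C htr hx hxy R s hs hsec hxR hyR' hM hloc with ⟨e, he⟩ | he
  · by_cases he0 : e = 0
    · -- the point `x = 0`
      right
      subst he0
      obtain ⟨hb, hmod⟩ := second_model R C.monic C.separable C.natDegree hxk hxy hxi hyi hyi'
        C.eval_zero
      have hy₂ : algebraMap k K (f.derivative.eval 0) ^ 1 * y / (x - algebraMap k K 0) ^ (1 + 1) =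
          -algebraMap k K d * y / x ^ 2 := by
        rw [C.derivative_eval_zero, map_zero, sub_zero, map_neg, pow_one]
      rw [hy₂] at hmod
      refine ⟨_, _, _, hmod, fun A hA hxA hxA' => ?_, fun v ι A φ h hyA => ?_⟩
      · apply mem_of_sq
        have h1 : (-algebraMap k K d * y / x ^ 2) ^ 2 =
            algebraMap k K d ^ 2 * (x⁻¹ - algebraMap k K d * x⁻¹ ^ 3) := by
          rw [div_pow, mul_pow, hxy']
          field_simp
        rw [h1]
        exact mul_mem (pow_mem (hA d) 2) (sub_mem hxA' (mul_mem (hA d) (pow_mem hxA' 3)))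
      · obtain ⟨h1, h2⟩ := he v ι A φ h
        obtain ⟨h3, h4⟩ := hkA h d
        rw [map_zero, map_zero] at h2
        have h5 : (⟨_, hyA⟩ : A) ^ 2 * ⟨_, h1⟩ ^ 3 = ⟨_, h3⟩ ^ 2 * (⟨_, h1⟩ ^ 2 - ⟨_, h3⟩) := by
          apply Subtype.ext
          change algebraMap K M (-algebraMap k K d * y / x ^ 2) ^ 2 * algebraMap K M x ^ 3 =
            algebraMap k M d ^ 2 * (algebraMap K M x ^ 2 - algebraMap k M d)
          rw [map_div₀, map_mul, map_neg, map_pow, ← IsScalarTower.algebraMap_apply k K M, div_pow,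
            mul_pow, hxyM]
          field_simp
        have h6 := congrArg φ h5
        rw [map_mul, map_pow, map_pow, map_mul, map_pow, map_sub, map_pow, h2, h4] at h6
        have h7 : (ι : AlgebraicClosure k →+* AlgebraicClosure (v.adicCompletion k))
            (algebraMap k _ d) ≠ 0 := by
          rw [_root_.map_ne_zero, _root_.map_ne_zero]
          exact hd
        apply pow_ne_zero 3 h7
        linear_combination h6
    · exact Or.inl ⟨e, he0, he⟩
  · -- the point at infinity
    right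
    refine ⟨f, x, y, isModel_self R C.monic C.separable C.natDegree hxk hxy hxi hyi hyi',
      fun A hA hxA _ => ?_, fun v ι A φ h hyA => ?_⟩
    · apply mem_of_sq
      rw [hxy']
      exact sub_mem (pow_mem hxA 3) (mul_mem (hA d) hxA)
    · obtain ⟨h1, h2⟩ := he v ι A φ h
      have h3 : algebraMap K M x ∈ A := by
        refine x_mem_of_y_mem (k := k) (fun c => (hkA h c).1) C.monic
          (by rw [C.natDegree]; omega) hyA ?_
        rw [← map_pow, hxy, aeval_algebraMap_apply]
      have h5 : φ (⟨_, h3⟩ * ⟨_, h1⟩) = 1 := by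
        rw [← map_one φ]
        congr 1
        exact Subtype.ext (mul_inv_cancel₀ hxM)
      rw [map_mul, h2, mul_zero] at h5
      exact zero_ne_one h5

/-- **The local places are all over the complement of the points where `x` is `0` or infinite, or the
section is cuspidal.** -/
theorem affine_dich {k : Type u} [Field k] [NumberField k]
    {i d : k} {f : k[X]} (C : Crv i d f)
    {K : Type*} [Field K] [Algebra k K] (htr : Algebra.trdeg k K = 1)
    {x y : K} (hx : ∀ c : k, x ≠ algebraMap k K c) (hxy : y ^ 2 = aeval x f)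
    (R : Subalgebra k K)
    {M : Type*} [Field M] [Algebra K M] [IsGalois K M]
    [Algebra (AlgebraicClosure k) M] [Algebra k M]
    [IsScalarTower k K M] [IsScalarTower k (AlgebraicClosure k) M]
    (s : Gal(AlgebraicClosure k/k) →* Gal(M/K)) (hs : Continuous s)
    (hsec : ∀ σ a, s σ (algebraMap (AlgebraicClosure k) M a) =
      algebraMap (AlgebraicClosure k) M (σ a))
    (hfg : R.FG) (hRn : ∀ h : K, IsIntegral R h → h ∈ R) (hxR : x ∈ R) (hyR : y ∈ R)
    (hyR' : y⁻¹ ∈ R) (hM : Pt.IsMaxUnramOver R K M (AlgebraicClosure k))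
    (hloc : ∀ v : HeightOneSpectrum (𝓞 k),
      ∃ (ι : AlgebraicClosure k →ₐ[k] AlgebraicClosure (v.adicCompletion k))
        (A : ValuationSubring M) (φ : A →+* AlgebraicClosure (v.adicCompletion k)),
        Sel.IsPlaceOf s (v.adicCompletion k)
          (ι : _ →+* AlgebraicClosure (v.adicCompletion k)) A φ) :
    (∃ e : k, e ≠ 0 ∧ ∀ (v : HeightOneSpectrum (𝓞 k))
      (ι : AlgebraicClosure k →ₐ[k] AlgebraicClosure (v.adicCompletion k))
      (A : ValuationSubring M) (φ : A →+* AlgebraicClosure (v.adicCompletion k)),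
      Sel.IsPlaceOf s (v.adicCompletion k)
        (ι : _ →+* AlgebraicClosure (v.adicCompletion k)) A φ →
      ∃ h : algebraMap K M x ∈ A, φ ⟨_, h⟩ = ι (algebraMap k _ e)) ∨
    ((∀ (v : HeightOneSpectrum (𝓞 k))
      (ι : AlgebraicClosure k →ₐ[k] AlgebraicClosure (v.adicCompletion k))
      (A : ValuationSubring M) (φ : A →+* AlgebraicClosure (v.adicCompletion k)),
      Sel.IsPlaceOf s (v.adicCompletion k)
        (ι : _ →+* AlgebraicClosure (v.adicCompletion k)) A φ →
      ¬ (algebraMap K M x ∈ A ∧ algebraMap K M x⁻¹ ∈ A)) ∧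
    ∃ (Δ : Subgroup Gal(AlgebraicClosure k/k)) (A₀ : ValuationSubring M)
      (ψ₀ : A₀ →+* AlgebraicClosure k), IsOpen (Δ : Set Gal(AlgebraicClosure k/k)) ∧
      SNeigh.IsOver A₀ ψ₀ ∧ SNeigh.ResOn s A₀ ψ₀ Δ ∧
      ¬ (algebraMap K M x ∈ A₀ ∧ algebraMap K M x⁻¹ ∈ A₀) ∧
      (adjoin k {x, y} = ⊤ → Δ = ⊤ ∧
        ∀ (A₁ : ValuationSubring M) (ψ₁ : A₁ →+* AlgebraicClosure k), SNeigh.IsOver A₁ ψ₁ →
          SNeigh.ResOn s A₁ ψ₁ ⊤ → A₁ = A₀)) := by
  classical
  have hxk : Transcendental k x := transc_of_sec hsec hx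
  have hfdim := finite_of_fg htr R hRn hfg hxR hxk
  have hK0 : CharZero K := charZero_of_injective_algebraMap (algebraMap k K).injective
  have hM0 : CharZero M := charZero_of_injective_algebraMap (algebraMap K M).injective
  have hΩ0 : CharZero (AlgebraicClosure M) :=
    charZero_of_injective_algebraMap (algebraMap M _).injective
  have hKM : Algebra.IsAlgebraic K M := inferInstance
  have halg : Algebra.IsAlgebraic K (AlgebraicClosure M) := Algebra.IsAlgebraic.trans K M _
  have hcl : IsAlgClosure K (AlgebraicClosure M) := ⟨inferInstance, halg⟩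
  have hnorm : Normal K (AlgebraicClosure M) := IsAlgClosure.normal K _
  have hΩg : IsGalois K (AlgebraicClosure M) := ⟨⟩
  have hΩM : IsGalois M (AlgebraicClosure M) := IsGalois.tower_top_of_isGalois K M _
  have htrM : Algebra.trdeg k M = 1 := trdeg_top (K := K) htr
  have htrΩ : Algebra.trdeg k (AlgebraicClosure M) = 1 := trdeg_top (K := K) htr
  have hMp := maxUnram_of_over R htrΩ x hxR hxk hM
  have hmax := Pt.radClosed_of_max R hMp
  have hIsG : IsGalois k (AlgebraicClosure k) := {}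
  rcases alt C htr hx hxy R s hs hsec hxR hyR hyR' hM hloc with key |
    ⟨f₂, x₂, y₂, ⟨hf₂, hfs₂, hfd₂, hxy₂, hxt₂, hx₂R, hy₂R, hy₂R', hxm, hym, -⟩, hA₂, hlocy⟩
  · exact Or.inl key
  · right
    have hno : ∀ A : ValuationSubring M, (∀ c : k, algebraMap k M c ∈ A) →
        algebraMap K M y₂ ∉ A → ¬ (algebraMap K M x ∈ A ∧ algebraMap K M x⁻¹ ∈ A) := by
      rintro A hA hyA ⟨h3, h4⟩
      apply hyA
      refine hA₂ (A.comap (algebraMap K M)) (fun c => ?_) h3 h4
      change algebraMap K M (algebraMap k K c) ∈ A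
      rw [← IsScalarTower.algebraMap_apply]
      exact hA c
    refine ⟨fun v ι A φ h => hno A (fun c => ?_) (hlocy v ι A φ h), ?_⟩
    · rw [IsScalarTower.algebraMap_apply k (AlgebraicClosure k) M]
      exact (h.1 _).1
    -- the function `y₂`
    have hy₂t : Transcendental k y₂ := by
      intro h
      apply hxt₂
      obtain ⟨c, hc, hc'⟩ : IsAlgebraic k (y₂ ^ 2) := h.pow 2
      rw [hxy₂, ← aeval_comp] at hc'
      refine ⟨c.comp f₂, fun h0 => hc ?_, hc'⟩
      rcases comp_eq_zero_iff.1 h0 with h1 | ⟨-, h1⟩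
      · exact h1
      · exfalso
        have h2 : f₂.natDegree = 0 := by rw [h1, natDegree_C]
        omega
    have hy₂0 : y₂ ≠ 0 := by
      rintro rfl
      exact hy₂t (isAlgebraic_zero)
    have hfdim₂ : FiniteDimensional (adjoin k {y₂}) K := by
      exact finite_of_fg htr R hRn hfg (hRn _ hy₂R) hy₂t
    have hfdimx₂ : FiniteDimensional (adjoin k {x₂}) K := by
      exact finite_of_fg htr R hRn hfg (hRn _ hx₂R) hxt₂
    have hun : ∀ Ψ : integralClosure R M →+* AlgebraicClosure k, Pt.IsPt R M (AlgebraicClosure k) Ψ →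
        ∀ g : Gal(M/K), (∀ b b' : integralClosure R M, (b' : M) = g b → Ψ b' = Ψ b) → g = 1 :=
      fun Ψ hΨ g hg => Pt.unram_of_max R hMp Ψ hΨ g hg
    have hfree : ∀ A ≤ geomGroup K M (AlgebraicClosure k),
        OpenIn (geomGroup K M (AlgebraicClosure k)) A → ∀ (ℓ : ℕ) [Fact ℓ.Prime],
        Finite (A →ₜ* Multiplicative (ZMod ℓ)) ∧
        ∀ f : A →ₜ* Multiplicative (ZMod ℓ), ∃ F : A →ₜ* Multiplicative ℤ_[ℓ], ∀ a,
          PadicInt.toZMod (F a).toAdd = (f a).toAdd := by
      intro B hBN hBo ℓ hℓ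
      obtain ⟨O, hO, hON⟩ := hBo
      exact Pt.fin_lift (k := k) y₂ hy₂t R (hRn _ hy₂R) hfg (fun Ψ hΨ g _ h => hun Ψ hΨ g h) hmax _
        (fun g => Iff.rfl) B hBN O hO hON ℓ
    have hint : ∀ z : K, IsIntegral R z → IsIntegral R (algebraMap K M z) := by
      intro z hz
      have htow : IsScalarTower R K M := IsScalarTower.of_algebraMap_eq fun r => rfl
      exact hz.algebraMap
    have hroot : ∀ n : ℕ, 0 < n → ∃ β : M, β ^ n = algebraMap K M y₂ := fun n hn =>
      Full.root_of_unit hmax _ (hint _ hy₂R) (by rw [← map_inv₀]; exact hint _ hy₂R') n hn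
    obtain ⟨Δ, W, hΔ, hW, hyW, hst⟩ := cusp_core y₂ hy₂t hroot hfree s hs hsec ∅ fun v _ => by
      obtain ⟨ι, A, φ, h⟩ := hloc v
      exact ⟨ι, A, φ, h, hlocy v ι A φ h⟩
    have hy₂M : Transcendental (AlgebraicClosure k) (algebraMap K M y₂) :=
      Pt.PTAux.transc (k := k) y₂ hy₂t
    have halgM : ∀ z : M, IsAlgebraic
        (adjoin (AlgebraicClosure k) {algebraMap K M y₂}) z := Full.isAlgebraic_M (k := k) y₂
    have hres : ∀ z ∈ W, ∃ c : AlgebraicClosure k,
        W.valuation (z - algebraMap (AlgebraicClosure k) M c) < 1 := fun z hz =>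
      Pt.MaxOver.residue_const _ hy₂M halgM W hW (fun h => hyW (by
        rw [h]; exact ValuationSubring.mem_top _)) z hz
    have hnoW := hno W (fun c => by
      rw [IsScalarTower.algebraMap_apply k (AlgebraicClosure k) M]
      exact hW _) hyW
    by_cases htop : adjoin k {x, y} = ⊤
    · -- the place is rational
      have htop₂ : adjoin k {x₂, y₂} = ⊤ := by
        rw [eq_top_iff, ← htop, adjoin_le_iff]
        rintro z (rfl | hz)
        · exact hxm
        · rw [Set.mem_singleton_iff] at hz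
          rw [hz]
          exact hym
      have hall : ∀ σ ∈ (⊤ : Subgroup Gal(AlgebraicClosure k/k)), ∀ z : M, z ∈ W ↔ s σ z ∈ W := by
        intro σ _
        let W' : ValuationSubring M := W.comap (s σ : M →+* M)
        have hW' : ∀ z, z ∈ W' ↔ s σ z ∈ W := fun z => Iff.rfl
        let Δ' : Subgroup Gal(AlgebraicClosure k/k) := Δ.comap (MulAut.conj σ).toMonoidHom
        have hΔ' : IsOpen (Δ' : Set Gal(AlgebraicClosure k/k)) := by
          refine hΔ.preimage ?_
          change Continuous fun x => σ * x * σ⁻¹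
          fun_prop
        have h1 : W' = W := by
          refine cusp_unique hf₂ hfd₂ hxt₂ hxy₂ htop₂ R hx₂R hy₂R hy₂R' hmax hfree hs hsec
            (Δ := Δ ⊓ Δ') (hΔ.inter hΔ') hW (fun a => ?_) hyW (fun h => hyW ?_)
            (fun τ hτ => hst τ hτ.1) fun τ hτ z => ?_
          · rw [hW', hsec]
            exact hW _
          · rw [hW', (s σ).commutes] at h
            exact h
          · rw [hW', hW']
            have h2 : σ * τ * σ⁻¹ ∈ Δ := hτ.2
            rw [hst _ h2]
            have h3 : s (σ * τ * σ⁻¹) (s σ z) = s σ (s τ z) := by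
              rw [← AlgEquiv.mul_apply, ← AlgEquiv.mul_apply, ← map_mul, ← map_mul,
                inv_mul_cancel_right]
            rw [h3]
        intro z
        rw [← hW', h1]
      obtain ⟨ψ, hO, hR, -⟩ := exists_res W hW hres hsec hall
      refine ⟨⊤, W, ψ, isOpen_univ, hO, hR, hnoW, fun _ => ⟨rfl, fun A₁ ψ₁ hO₁ hR₁ => ?_⟩⟩
      obtain ⟨v⟩ := nonempty_primes k
      obtain ⟨ι, -, -, -⟩ := hloc v
      refine cusp_unique hf₂ hfd₂ hxt₂ hxy₂ htop₂ R hx₂R hy₂R hy₂R' hmax hfree hs hsec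
        (Δ := ⊤) isOpen_univ hW (fun a => (hO₁.1 a).1) hyW
        (hlocy v ι A₁ _ (isPlaceOf_of_on hO₁ hR₁ v ι)) hall fun σ hσ z => ⟨fun h => ?_, fun h => ?_⟩
      · exact (hR₁ σ hσ ⟨z, h⟩).1
      · have h3 := (hR₁ σ⁻¹ (inv_mem hσ) ⟨_, h⟩).1
        have h4 : s σ⁻¹ (s σ z) = z := by
          rw [← AlgEquiv.mul_apply, ← map_mul, inv_mul_cancel, map_one, AlgEquiv.one_apply]
        rw [← h4]
        exact h3
    · obtain ⟨ψ, hO, hR, -⟩ := exists_res W hW hres hsec hst
      exact ⟨Δ, W, ψ, hΔ, hO, hR, hnoW, fun h => absurd h htop⟩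

end Pool.Agent.Lib.MP_2f3286_ag.UA
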