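import Pool.Agent.Lib.MP_2f3286_ag.SFull.Defs
import Pool.Agent.Lib.MP_2f3286_ag.Top.Defs

/-!
# Sections and subfields of the function field
-/

open IntermediateField

namespace Pool.Agent.Lib.MP_2f3286_ag.UA

open Pool.Agent.Lib.MP_2f3286_ag.Sel (IsPlaceOf IsSectionAt)

section

variable {k : Type*} [Field k] {K M : Type*} [Field K] [Field M] [Algebra k K] [Algebra K M]

/-- automorphisms over `K` as automorphisms over a subfield -/
def resTo (K₁ : IntermediateField k K) : Gal(M/K) →* Gal(M/K₁) where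
  toFun g := g.restrictScalars K₁
  map_one' := rfl
  map_mul' _ _ := rfl

theorem resTo_apply (K₁ : IntermediateField k K) (g : Gal(M/K)) (m : M) : resTo K₁ g m = g m := rfl

theorem continuous_resTo [Algebra.IsAlgebraic K M] (K₁ : IntermediateField k K) :
    Continuous (resTo (M := M) K₁) := by
  refine continuous_of_continuousAt_one _ ?_
  rw [ContinuousAt, map_one]
  intro U hU
  obtain ⟨L, hL, hLU⟩ := (krullTopology_mem_nhds_one_iff K₁ M U).1 hU
  obtain ⟨T, hT⟩ : ∃ T : Finset L, Submodule.span K₁ (T : Set L) = ⊤ :=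
    (inferInstance : Module.Finite K₁ L).fg_top
  obtain ⟨E, hE⟩ : ∃ E : IntermediateField K M,
      E = adjoin K ((fun x : L => (x : M)) '' (T : Set L)) := ⟨_, rfl⟩
  have hfin : FiniteDimensional K E := by
    rw [hE]
    have : ((fun x : L => (x : M)) '' (T : Set L)).Finite := T.finite_toSet.image _
    have := this.to_subtype
    exact finiteDimensional_adjoin fun x _ =>
      (Algebra.IsAlgebraic.isAlgebraic (R := K) x).isIntegral
  have hmem : (E.fixingSubgroup : Set Gal(M/K)) ∈ nhds 1 :=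
    E.fixingSubgroup_isOpen.mem_nhds (one_mem _)
  rw [Filter.mem_map]
  refine Filter.mem_of_superset hmem ?_
  intro g hg
  apply hLU
  rw [SetLike.mem_coe, IntermediateField.mem_fixingSubgroup_iff]
  have hg' : ∀ x ∈ E, g x = x := (IntermediateField.mem_fixingSubgroup_iff _ _).1 hg
  intro x hx
  rw [resTo_apply]
  have h1 : (⟨x, hx⟩ : L) ∈ Submodule.span K₁ (T : Set L) := by
    rw [hT]
    trivial
  have h2 : ∀ y : L, y ∈ Submodule.span K₁ (T : Set L) → g (y : M) = y := by
    intro y hy
    induction hy using Submodule.span_induction with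
    | mem y hy =>
      apply hg'
      rw [hE]
      exact subset_adjoin K _ ⟨y, hy, rfl⟩
    | zero => exact map_zero g
    | add y z _ _ h3 h4 =>
      have : ((y + z : L) : M) = (y : M) + z := rfl
      rw [this, map_add, h3, h4]
    | smul a y _ h3 =>
      have : ((a • y : L) : M) = algebraMap K M (a : K) * (y : M) := by
        rw [IntermediateField.coe_smul, Algebra.smul_def]
        rfl
      rw [this, map_mul, AlgEquiv.commutes, h3]
  exact h2 _ h1

variable [Algebra (AlgebraicClosure k) M] {s : Gal(AlgebraicClosure k/k) →* Gal(M/K)}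

/-- places do not see the base field -/
theorem isPlaceOf_resTo (K₁ : IntermediateField k K) {F Fb : Type*} [Field F] [Field Fb]
    [Algebra F Fb] (ι : AlgebraicClosure k →+* Fb) (A : ValuationSubring M) (φ : A →+* Fb) :
    IsPlaceOf ((resTo K₁).comp s) F ι A φ ↔ IsPlaceOf s F ι A φ := Iff.rfl

omit [Algebra k K] in
/-- a section at a place over a finite extension -/
theorem exists_finite_of_section {A : ValuationSubring M} {ψ : A →+* AlgebraicClosure k}
    (h : IsSectionAt s A ψ) : ∃ E : IntermediateField k (AlgebraicClosure k),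
      FiniteDimensional k E ∧ IsPlaceOf s E (RingHom.id _) A ψ := by
  obtain ⟨h1, h2, h3, h4⟩ := h
  obtain ⟨E, hE, hEH⟩ := (krullTopology_mem_nhds_one_iff k (AlgebraicClosure k) _).1
    (h3.mem_nhds (show (1 : Gal(AlgebraicClosure k/k)) ∈ _ from fun f hf => rfl))
  refine ⟨E, hE, h1, h2, ?_⟩
  intro σ τ hστ x
  have h5 : ∀ a, σ a = τ a := hστ
  have h6 : σ ∈ E.fixingSubgroup := by
    rw [IntermediateField.mem_fixingSubgroup_iff]
    intro y hy
    rw [h5]
    exact τ.commutes ⟨y, hy⟩
  obtain ⟨h7, h8⟩ := h4 σ (hEH h6) x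
  exact ⟨h7, by rw [h8, h5]⟩

/-- `(A₀, ψ₀)` is a place of which `s` is the section over `k`, and the only one of which it is the
section over a finite extension of `k` -/
def IsOnlyPlaceFin (s : Gal(AlgebraicClosure k/k) →* Gal(M/K)) (A₀ : ValuationSubring M)
    (ψ₀ : A₀ →+* AlgebraicClosure k) : Prop :=
  IsPlaceOf s k (RingHom.id _) A₀ ψ₀ ∧
    ∀ (E : IntermediateField k (AlgebraicClosure k)), FiniteDimensional k E →
      ∀ (A₁ : ValuationSubring M) (ψ₁ : A₁ →+* AlgebraicClosure k),
      IsPlaceOf s E (RingHom.id _) A₁ ψ₁ →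
      A₁ = A₀ ∧ ∀ (a : A₁) (b : A₀), (a : M) = b → ψ₁ a = ψ₀ b

/-- the place of a section over a finite extension is the only place of the section over a subfield -/
theorem only_of_sub (K₁ : IntermediateField k K) {A₀ : ValuationSubring M}
    {ψ₀ : A₀ →+* AlgebraicClosure k} {E : IntermediateField k (AlgebraicClosure k)}
    (hE : FiniteDimensional k E) (h₀ : IsPlaceOf s E (RingHom.id _) A₀ ψ₀)
    {A₁ : ValuationSubring M} {ψ₁ : A₁ →+* AlgebraicClosure k}
    (h₁ : IsOnlyPlaceFin ((resTo K₁).comp s) A₁ ψ₁) : IsOnlyPlaceFin s A₀ ψ₀ := by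
  obtain ⟨h2, h3⟩ := h₁
  obtain ⟨h4, h5⟩ := h3 E hE A₀ ψ₀ h₀
  subst h4
  have h6 : ψ₀ = ψ₁ := RingHom.ext fun a => h5 a a rfl
  subst h6
  exact ⟨h2, h3⟩

end

end Pool.Agent.Lib.MP_2f3286_ag.UA
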