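import Pool.Agent.Lib.MP_2f3286_ag.UA.O2

/-!
# Backward orbits of the division by `1 + i`: the values at all places
-/

open NumberField IsDedekindDomain Polynomial
open scoped WithZero
open Pool.Agent.Lib.MP_2f3286_ag.Fer (Plc Data)

namespace Pool.Agent.Lib.MP_2f3286_ag.UA

variable {F : Type*} [Field F] [NumberField F] {L : Type*} [Field L] [Algebra F L]

/-- **A term of the orbit at whose inverse the denominators have values which are units almost
everywhere.** -/
theorem orbit_points {p : ℕ} (D : Data p F L) {i d : F} (hi : i ^ 2 = -1) (hd : d ≠ 0)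
    {a : ℕ → L} (ha0 : ∀ n, a n ≠ 0)
    (ha : ∀ n, a (n + 1) ^ 2 - algebraMap F L d = 2 * algebraMap F L i * a n * a (n + 1)) (m : ℕ) :
    ∃ (N : ℕ) (T : Finset (HeightOneSpectrum (𝓞 F)))
      (x : ∀ w : HeightOneSpectrum (𝓞 F), w.adicCompletion F), m ≤ N ∧
      (∀ w, (D.pl w).Has (a N)⁻¹ (x w)) ∧ ∀ w, ∀ j, j ≤ m → aeval (x w) (de i d j) ≠ 0 ∧
        (w ∉ T → Valued.v (aeval (x w) (de i d j)) = (1 : ℤᵐ⁰)) := by
  obtain ⟨T, n₀, hT⟩ := exists_level D hi hd ha0 ha
  have hi0 : i ≠ 0 := by
    rintro rfl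
    rw [zero_pow two_ne_zero] at hi
    exact one_ne_zero (neg_eq_zero.1 hi.symm)
  have hex : ∀ w : HeightOneSpectrum (𝓞 F), ∃ y : ℕ → w.adicCompletion F, ∀ j, j ≤ m →
      (D.pl w).Has (a (n₀ + m - j))⁻¹ (y j) := by
    intro w
    choose y hy using fun n : ℕ => (hT w).2 (n₀ + n) (by omega)
    refine ⟨fun j => y (m - j), fun j hj => ?_⟩
    rw [show n₀ + m - j = n₀ + (m - j) by omega]
    exact hy _
  choose y hy using hex
  have hrel : ∀ w, ∀ j, j < m → y w (j + 1) *
      (1 - algebraMap F (w.adicCompletion F) d * y w j ^ 2) =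
        2 * algebraMap F (w.adicCompletion F) i * y w j := by
    intro w j hj
    set r' := a (n₀ + m - j) with hr'
    set r := a (n₀ + m - (j + 1)) with hr
    have h1 : r' ^ 2 - algebraMap F L d = 2 * algebraMap F L i * r * r' := by
      have h2 := ha (n₀ + m - (j + 1))
      rw [show n₀ + m - (j + 1) + 1 = n₀ + m - j by omega] at h2
      exact h2
    have hr0 : r ≠ 0 := ha0 _
    have hr0' : r' ≠ 0 := ha0 _
    have h3 : r⁻¹ * (1 - algebraMap F L d * r'⁻¹ ^ 2) = 2 * algebraMap F L i * r'⁻¹ := by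
      field_simp
      linear_combination h1
    have h2Q : (D.pl w).Has (2 : L) 2 := by
      rw [← one_add_one_eq_two, ← one_add_one_eq_two]
      exact Plc.has_one.add Plc.has_one
    have h4 : (D.pl w).Has (r⁻¹ * (1 - algebraMap F L d * r'⁻¹ ^ 2)) (y w (j + 1) *
        (1 - algebraMap F (w.adicCompletion F) d * y w j ^ 2)) :=
      (hy w (j + 1) hj).mul (Plc.has_one.sub ((D.base w d).mul ((hy w j hj.le).pow 2)))
    have h5 : (D.pl w).Has (2 * algebraMap F L i * r'⁻¹)
        (2 * algebraMap F (w.adicCompletion F) i * y w j) :=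
      (h2Q.mul (D.base w i)).mul (hy w j hj.le)
    rw [h3] at h4
    exact h4.unique h5
  refine ⟨n₀ + m, T, fun w => y w 0, Nat.le_add_left _ _, fun w => hy w 0 (Nat.zero_le _), fun w j hj =>
    ⟨(de_val two_ne_zero hi0 (hrel w) j hj).1, fun hw => ?_⟩⟩
  obtain ⟨h1, h2, h3⟩ := (hT w).1 hw
  have hvd : Valued.v (algebraMap F (w.adicCompletion F) d) = (1 : ℤᵐ⁰) := by
    rw [Fer.val_alg', h2]
  have hvi : Valued.v (algebraMap F (w.adicCompletion F) i) = (1 : ℤᵐ⁰) := by
    have h4 : Valued.v (algebraMap F (w.adicCompletion F) i) ^ 2 = (1 : ℤᵐ⁰) := by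
      rw [← map_pow, ← map_pow, hi, map_neg, map_one, Valuation.map_neg, map_one]
    exact (pow_eq_one_iff_of_nonneg zero_le two_ne_zero).1 h4
  have hv2 : Valued.v ((2 : w.adicCompletion F)) = (1 : ℤᵐ⁰) := by
    have h3 : (2 : w.adicCompletion F) = algebraMap F (w.adicCompletion F) 2 := by
      rw [map_ofNat]
    rw [h3, Fer.val_alg']
    have h4 : (2 : F) = algebraMap (𝓞 F) F 2 := by rw [map_ofNat]
    rw [h4]
    refine le_antisymm (w.valuation_le_one (K := F) _) ?_
    rw [← not_lt]
    intro h5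
    rw [w.valuation_lt_one_iff_dvd, Ideal.dvd_span_singleton] at h5
    exact h1 h5
  refine de_unit Valued.v hv2 hvi hvd (hrel w) (fun j hj => ?_) two_ne_zero hi0 j hj
  obtain ⟨z, hz, hz'⟩ := h3 (n₀ + m - j)
  rw [(hy w j hj).unique hz]
  exact hz'

/-- **If a term of the orbit is constant on the places, so is the first one.** -/
theorem const_start {p : ℕ} (D : Data p F L) {i d : F} (hi : i ^ 2 = -1) (hd : d ≠ 0)
    {a : ℕ → L} (ha0 : ∀ n, a n ≠ 0)
    (ha : ∀ n, a (n + 1) ^ 2 - algebraMap F L d = 2 * algebraMap F L i * a n * a (n + 1)) {N : ℕ}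
    {c : F} (hc : ∀ w, (D.pl w).Has (a N)⁻¹ (algebraMap F (w.adicCompletion F) c)) :
    (∃ e : F, ∀ w, (D.pl w).Has (a 0) (algebraMap F (w.adicCompletion F) e)) ∨
      ∀ w, (D.pl w).Has (a 0)⁻¹ 0 := by
  have hi0 : i ≠ 0 := by
    rintro rfl
    rw [zero_pow two_ne_zero] at hi
    exact one_ne_zero (neg_eq_zero.1 hi.symm)
  have h2Q : ∀ w, (D.pl w).Has (2 : L) 2 := by
    intro w
    rw [← one_add_one_eq_two, ← one_add_one_eq_two]
    exact Plc.has_one.add Plc.has_one
  have key : ∀ n, ((∃ e : F, ∀ w, (D.pl w).Has (a (n + 1)) (algebraMap F (w.adicCompletion F) e)) ∨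
      ∀ w, (D.pl w).Has (a (n + 1))⁻¹ 0) →
      ((∃ e : F, ∀ w, (D.pl w).Has (a n) (algebraMap F (w.adicCompletion F) e)) ∨
      ∀ w, (D.pl w).Has (a n)⁻¹ 0) := by
    intro n h
    rcases h with ⟨e, he⟩ | h
    · by_cases he0 : e = 0
      · subst he0
        right
        intro w
        have h1 := he w
        rw [map_zero] at h1
        exact inf_of_zero (D.pl w) (D.base w i) (D.base w d) ((_root_.map_ne_zero _).2 hd) (ha0 n)
          (ha n) h1
      · left
        refine ⟨(e ^ 2 - d) / (2 * i * e), fun w => ?_⟩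
        have h3 : (D.pl w).Has (2 * algebraMap F L i * a (n + 1))
            (2 * algebraMap F (w.adicCompletion F) i * algebraMap F (w.adicCompletion F) e) :=
          ((h2Q w).mul (D.base w i)).mul (he w)
        have h4 : 2 * algebraMap F (w.adicCompletion F) i * algebraMap F (w.adicCompletion F) e ≠ 0 := by
          rw [← map_ofNat (algebraMap F (w.adicCompletion F)) 2, ← map_mul, ← map_mul]
          exact (_root_.map_ne_zero _).2 (mul_ne_zero (mul_ne_zero two_ne_zero hi0) he0)
        have h5 : a n = (a (n + 1) ^ 2 - algebraMap F L d) / (2 * algebraMap F L i * a (n + 1)) := by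
          rw [eq_div_iff (h3.ne_zero h4), ha n]
          ring
        rw [h5, map_div₀, map_sub, map_pow, map_mul, map_mul, map_ofNat]
        exact (((he w).pow 2).sub (D.base w d)).div h3 h4
    · right
      intro w
      exact inf_of_inf (D.pl w) (D.base w i) (D.base w d) (ha0 n) (ha0 _) (ha n) (h w)
  have hN : (∃ e : F, ∀ w, (D.pl w).Has (a N) (algebraMap F (w.adicCompletion F) e)) ∨
      ∀ w, (D.pl w).Has (a N)⁻¹ 0 := by
    by_cases hc0 : c = 0
    · right
      intro w
      have h1 := hc w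
      rw [hc0, map_zero] at h1
      exact h1
    · left
      refine ⟨c⁻¹, fun w => ?_⟩
      have h1 := (hc w).inv ((_root_.map_ne_zero _).2 hc0)
      rw [inv_inv, ← map_inv₀] at h1
      exact h1
  induction N with
  | zero => exact hN
  | succ N ih =>
    have h1 := key N hN
    clear hN hc
    -- go down
    have h2 : ∀ n, n ≤ N → ((∃ e : F, ∀ w, (D.pl w).Has (a (N - n))
        (algebraMap F (w.adicCompletion F) e)) ∨ ∀ w, (D.pl w).Has (a (N - n))⁻¹ 0) := by
      intro n
      induction n with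
      | zero => intro _; exact h1
      | succ n ih' =>
        intro hn
        have h3 := ih' (by omega)
        apply key
        rw [show N - (n + 1) + 1 = N - n by omega]
        exact h3
    have h3 := h2 N le_rfl
    rw [Nat.sub_self] at h3
    exact h3

end Pool.Agent.Lib.MP_2f3286_ag.UA
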