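import Pool.Agent.Lib.MP_2f3286_ag.UA.V1
import Pool.Agent.Lib.MP_2f3286_ag.UA.O3
import Pool.Agent.Lib.MP_2f3286_ag.Fer.FT

/-!
# Sections over the field with small Selmer group: the absolute Galois group
-/

open IsDedekindDomain NumberField Polynomial
open scoped WithZero
open Pool.Agent.Lib.MP_2f3286_bir (IsPlaceOf)

namespace Pool.Agent.Lib.MP_2f3286_ag.UA

/-- If a term of the orbit is constant, so are the terms before it. -/
theorem const_back {F K : Type*} [Field F] [Field K] [Algebra F K] {i d : F} (h2 : (2 : F) ≠ 0)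
    (hi : i ≠ 0) {a : ℕ → K} (ha0 : ∀ n, a n ≠ 0)
    (ha : ∀ n, a (n + 1) ^ 2 - algebraMap F K d = 2 * algebraMap F K i * a n * a (n + 1)) (N : ℕ)
    (c : F) (hc : (a N)⁻¹ = algebraMap F K c) : ∃ e : F, a 0 = algebraMap F K e := by
  have hN : a N = algebraMap F K c⁻¹ := by rw [map_inv₀, ← hc, inv_inv]
  clear hc
  generalize c⁻¹ = e at hN
  clear c
  induction N generalizing e with
  | zero => exact ⟨e, hN⟩
  | succ N ih =>
    have he : e ≠ 0 := by
      rintro rfl
      exact ha0 (N + 1) (by rw [hN, map_zero])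
    refine ih ((e ^ 2 - d) / (2 * i * e)) ?_
    have h1 := ha N
    have h3 : (2 : K) ≠ 0 := by
      have := (_root_.map_ne_zero (algebraMap F K)).2 h2
      rwa [map_ofNat] at this
    have h4 : algebraMap F K i ≠ 0 := (_root_.map_ne_zero _).2 hi
    have h5 : algebraMap F K e ≠ 0 := (_root_.map_ne_zero _).2 he
    rw [hN] at h1
    rw [map_div₀, map_sub, map_pow, map_mul, map_mul, map_ofNat, h1]
    field_simp

universe u

/-- **The theorem over the field `F`.** -/
theorem geo_F {F : Type u} [Field F] [NumberField F] {i d : F} (hi : i ^ 2 = -1) (hd : d ≠ 0)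
    (hS : SelTriv d) {K : Type*} [Field K] [Algebra F K]
    (htr : Algebra.trdeg F K = 1) {Ω : Type*} [Field Ω] [Algebra K Ω] [IsAlgClosure K Ω]
    [Algebra (AlgebraicClosure F) Ω] [Algebra F Ω]
    [IsScalarTower F K Ω] [IsScalarTower F (AlgebraicClosure F) Ω]
    (s : Gal(AlgebraicClosure F/F) →* Gal(Ω/K)) (hs : Continuous s)
    (hsec : ∀ σ a, s σ (algebraMap (AlgebraicClosure F) Ω a) =
      algebraMap (AlgebraicClosure F) Ω (σ a))
    (hfix : ∀ x : Ω, (∀ σ, s σ x = x) → ∃ y : K, algebraMap K Ω y = x)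
    (x y : K) (hx : ∀ c : F, x ≠ algebraMap F K c)
    (hxy : y ^ 2 = x ^ 3 - algebraMap F K d * x) :
    ∃ (A₀ : ValuationSubring Ω) (ψ₀ : A₀ →+* AlgebraicClosure F),
      IsPlaceOf s F (RingHom.id _) A₀ ψ₀ := by
  classical
  have hcl : IsAlgClosed Ω := IsAlgClosure.isAlgClosed K
  have halg : Algebra.IsAlgebraic K Ω := IsAlgClosure.isAlgebraic
  have h2 : (2 : F) ≠ 0 := two_ne_zero
  have hi0 : i ≠ 0 := by
    rintro rfl
    rw [zero_pow two_ne_zero] at hi
    exact one_ne_zero (neg_eq_zero.1 hi.symm)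
  have hx0 : x ≠ 0 := by
    intro h
    exact hx 0 (by rw [h, map_zero])
  choose ι _ using fun w : HeightOneSpectrum (𝓞 F) =>
    (⟨(IsAlgClosed.lift : AlgebraicClosure F →ₐ[F] AlgebraicClosure (w.adicCompletion F)),
      trivial⟩ : ∃ _ : AlgebraicClosure F →ₐ[F] AlgebraicClosure (w.adicCompletion F), True)
  choose A φ hφ using fun w => Koe.local_place s hs hsec w (ι w)
  obtain ⟨D, hD⟩ := Fer.exists_data (L := K) two_ne_zero s hs hsec (fun x σ => (s σ).commutes x)
    hfix ι A φ hφ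
  obtain ⟨a, ha, ha0, hrec⟩ := orbit D hi hd hS hx0 hxy
  obtain ⟨N, T, xv, -, hxv, hxv1⟩ := orbit_points D hi hd ha0 hrec (Module.finrank ℚ F)
  have htc : ∀ c : F, (a N)⁻¹ ≠ algebraMap F K c := by
    intro c hc
    obtain ⟨e, he⟩ := const_back h2 hi0 ha0 hrec N c hc
    rcases ha with h | h
    · exact hx e (h.symm.trans he)
    · rw [h] at he
      have he0 : e ≠ 0 := by
        rintro rfl
        rw [map_zero, div_eq_zero_iff, neg_eq_zero, _root_.map_eq_zero] at he
        exact he.elim hd hx0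
      apply hx (-d / e)
      rw [map_div₀, map_neg, ← he, div_div_eq_mul_div, mul_comm, mul_div_assoc, div_self, mul_one]
      rw [Ne, neg_eq_zero, _root_.map_eq_zero]
      exact hd
  obtain ⟨A₀, ψ₀, h1, -, -, -⟩ := GU.bir_of_enough.{u, u} htr (a N)⁻¹ htc ∅
    (fun j : Fin (Module.finrank ℚ F) => de i d (j + 1))
    (fun h0 => GU.enough_of_points.{u, u} ∅ _ _ h0 (enough hi0 hd)) s hs hsec (fun v => ι v.1)
    (fun v => A v.1) (fun v => φ v.1) (fun v => hφ v.1) (fun v => xv v.1)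
    (fun v => (hD v.1 _ (xv v.1)).1 (hxv v.1))
    (fun v j => (hxv1 v.1 (j + 1) j.2).1) T 1 le_rfl
    (fun v hv j z _ => (hxv1 v.1 (j + 1) j.2).2 hv)
  exact ⟨A₀, ψ₀, h1⟩

end Pool.Agent.Lib.MP_2f3286_ag.UA
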