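import Pool.Agent.Lib.MP_2f3286_ag.UA.F1
import Pool.Agent.Lib.MP_2f3286_ag.Koe.Descend
import Pool.Agent.Lib.MP_2f3286_ag.Koe.Main

/-!
# Descent from the field with small Selmer group: the absolute Galois group
-/

open IsDedekindDomain NumberField
open Pool.Agent.Lib.MP_2f3286_bir (IsPlaceOf)

namespace Pool.Agent.Lib.MP_2f3286_ag.UA

universe u

/-- **The theorem over a subfield `k` of `F`.** -/
theorem geo_k {F : Type u} [Field F] [NumberField F] {i d : F} (hi : i ^ 2 = -1) (hd : d ≠ 0)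
    (hS : SelTriv d) {k : Type*} [Field k] [NumberField k] [Algebra k F]
    {K : Type*} [Field K] [Algebra k K] (htr : Algebra.trdeg k K = 1)
    {Ω : Type*} [Field Ω] [Algebra K Ω] [IsAlgClosure K Ω]
    [Algebra (AlgebraicClosure k) Ω] [Algebra k Ω]
    [IsScalarTower k K Ω] [IsScalarTower k (AlgebraicClosure k) Ω]
    [Algebra F (AlgebraicClosure k)] [IsScalarTower k F (AlgebraicClosure k)]
    (s : Gal(AlgebraicClosure k/k) →* Gal(Ω/K)) (hs : Continuous s)
    (hsec : ∀ σ a, s σ (algebraMap (AlgebraicClosure k) Ω a) =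
      algebraMap (AlgebraicClosure k) Ω (σ a))
    (x y : Ω) (hfx : ∀ σ : Gal(AlgebraicClosure k/k),
      (∀ a : F, σ (algebraMap F _ a) = algebraMap F _ a) → s σ x = x)
    (hfy : ∀ σ : Gal(AlgebraicClosure k/k),
      (∀ a : F, σ (algebraMap F _ a) = algebraMap F _ a) → s σ y = y)
    (hx : ∀ c : F, x ≠ algebraMap _ Ω (algebraMap F (AlgebraicClosure k) c))
    (hxy : y ^ 2 = x ^ 3 - algebraMap _ Ω (algebraMap F (AlgebraicClosure k) d) * x) :
    ∃ (A₀ : ValuationSubring Ω) (ψ₀ : A₀ →+* AlgebraicClosure k),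
      IsPlaceOf s k (RingHom.id _) A₀ ψ₀ := by
  have hcl : IsAlgClosed Ω := IsAlgClosure.isAlgClosed K
  have halg : Algebra.IsAlgebraic K Ω := IsAlgClosure.isAlgebraic
  have hfin : FiniteDimensional k F := FiniteDimensional.right ℚ k F
  have hkF : Algebra.IsAlgebraic k F := inferInstance
  have hFk : Algebra.IsAlgebraic F (AlgebraicClosure k) :=
    Algebra.IsAlgebraic.tower_top (K := k) F
  have : IsAlgClosure F (AlgebraicClosure k) := ⟨inferInstance, inferInstance⟩
  let e : AlgebraicClosure F ≃ₐ[F] AlgebraicClosure k :=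
    IsAlgClosure.equiv F (AlgebraicClosure F) (AlgebraicClosure k)
  letI iFb : Algebra (AlgebraicClosure F) Ω :=
    ((algebraMap (AlgebraicClosure k) Ω).comp (e : _ →+* AlgebraicClosure k)).toAlgebra
  letI iFΩ : Algebra F Ω :=
    ((algebraMap (AlgebraicClosure k) Ω).comp (algebraMap F (AlgebraicClosure k))).toAlgebra
  have t0 : IsScalarTower F (AlgebraicClosure k) Ω := IsScalarTower.of_algebraMap_eq fun _ => rfl
  have he : ∀ a : AlgebraicClosure F, algebraMap (AlgebraicClosure F) Ω a =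
      algebraMap (AlgebraicClosure k) Ω (e a) := fun _ => rfl
  have t1 : IsScalarTower F (AlgebraicClosure F) Ω := IsScalarTower.of_algebraMap_eq fun a => by
    rw [he, AlgEquiv.commutes, ← IsScalarTower.algebraMap_apply]
  have t3 : IsScalarTower k F Ω := IsScalarTower.of_algebraMap_eq fun a => by
    rw [IsScalarTower.algebraMap_apply F (AlgebraicClosure k) Ω,
      ← IsScalarTower.algebraMap_apply k F (AlgebraicClosure k),
      ← IsScalarTower.algebraMap_apply k (AlgebraicClosure k) Ω]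
  letI iFL : Algebra F (Koe.fixF s F) := (Koe.toFixF s F hsec).toAlgebra
  have t2 : IsScalarTower F (Koe.fixF s F) Ω := IsScalarTower.of_algebraMap_eq fun a => by
    rw [IsScalarTower.algebraMap_apply F (AlgebraicClosure k) Ω]
    rfl
  have hLΩ : Algebra.IsAlgebraic (Koe.fixF s F) Ω :=
    Algebra.IsAlgebraic.tower_top (K := K) (Koe.fixF s F)
  have hcL : IsAlgClosure (Koe.fixF s F) Ω := ⟨hcl, hLΩ⟩
  have htr' : Algebra.trdeg F (Koe.fixF s F) = 1 := Koe.trdeg_fix (k := k) (K := K) (Ω := Ω) htr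
  have hL : ∀ σ : Gal(AlgebraicClosure k/k),
      (∀ a : F, σ (algebraMap F _ a) = algebraMap F _ a) →
      ∀ x : Koe.fixF s F, s σ (algebraMap (Koe.fixF s F) Ω x) = algebraMap (Koe.fixF s F) Ω x :=
    fun σ hσ x => x.2 σ hσ
  have hs' := Koe.resS_continuous s e hL hs
  have hsec' : ∀ (σ : Gal(AlgebraicClosure F/F)) (a : AlgebraicClosure F),
      Koe.resS s e hL σ (algebraMap (AlgebraicClosure F) Ω a) =
        algebraMap (AlgebraicClosure F) Ω (σ a) := by
    intro σ a
    rw [Koe.resS_apply, he, hsec, Koe.resG_apply, e.symm_apply_apply, he]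
  have hfix : ∀ z : Ω, (∀ σ, Koe.resS s e hL σ z = z) →
      ∃ y : Koe.fixF s F, algebraMap (Koe.fixF s F) Ω y = z := by
    intro z hz
    refine ⟨⟨z, fun σ hσ => ?_⟩, rfl⟩
    obtain ⟨τ, hτ, -⟩ := Koe.resG_surj e σ hσ
    rw [← hτ, ← Koe.resS_apply s e hL τ z]
    exact hz τ
  obtain ⟨A, ψ, h1⟩ := geo_F hi hd hS htr' (Koe.resS s e hL) hs' hsec' hfix
    ⟨x, hfx⟩ ⟨y, hfy⟩ (fun c hc => by
      apply hx c
      have h4 := congrArg (algebraMap (Koe.fixF s F) Ω) hc
      rw [← IsScalarTower.algebraMap_apply F (Koe.fixF s F) Ω] at h4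
      rw [← IsScalarTower.algebraMap_apply F (AlgebraicClosure k) Ω]
      exact h4) (Subtype.ext hxy)
  have h5 := Koe.placeOn_of s e hL he h1
  have h6 := Koe.descend s hs hsec F h5
  exact ⟨A, (e : AlgebraicClosure F →+* AlgebraicClosure k).comp ψ, h6⟩

end Pool.Agent.Lib.MP_2f3286_ag.UA
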