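import Pool.Agent.Lib.MP_2f3286_ag.Fer.LocExt
import Pool.Agent.Lib.MP_2f3286_ag.HYP.CvUniq

/-!
# Local places over a finite extension `F'` of `F`
-/

open IsDedekindDomain NumberField

namespace Pool.Agent.Lib.MP_2f3286_ag.UA

/-- A place over `F_w` gives a place over `F'_w'` for `w'` above `w`. -/
theorem local_up {k : Type*} [Field k] [NumberField k]
    {F : Type*} [Field F] [NumberField F] [Algebra k F]
    [Algebra F (AlgebraicClosure k)] [IsScalarTower k F (AlgebraicClosure k)]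
    {F' : Type*} [Field F'] [NumberField F'] [Algebra F F']
    [Algebra F' (AlgebraicClosure k)] [IsScalarTower F F' (AlgebraicClosure k)]
    {K : Type*} [Field K] {M : Type*} [Field M] [Algebra K M] [Algebra (AlgebraicClosure k) M]
    (s : Gal(AlgebraicClosure k/k) →* Gal(M/K))
    (hsec : ∀ σ a, s σ (algebraMap (AlgebraicClosure k) M a) =
      algebraMap (AlgebraicClosure k) M (σ a))
    (w : HeightOneSpectrum (𝓞 F)) (w' : HeightOneSpectrum (𝓞 F')) [w'.asIdeal.LiesOver w.asIdeal]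
    (ι : AlgebraicClosure k →ₐ[F] AlgebraicClosure (w.adicCompletion F))
    (A : ValuationSubring M) (φ : A →+* AlgebraicClosure (w.adicCompletion F))
    (h : Sel.IsPlaceOf s (w.adicCompletion F)
      (ι : _ →+* AlgebraicClosure (w.adicCompletion F)) A φ) :
    ∃ (ρ : Gal(AlgebraicClosure k/k))
      (ι' : AlgebraicClosure k →ₐ[F'] AlgebraicClosure (w'.adicCompletion F'))
      (A' : ValuationSubring M) (φ' : A' →+* AlgebraicClosure (w'.adicCompletion F'))
      (j : AlgebraicClosure (w.adicCompletion F) →+* AlgebraicClosure (w'.adicCompletion F')),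
      (∀ a : F, ρ (algebraMap F _ a) = algebraMap F _ a) ∧
      Sel.IsPlaceOf s (w'.adicCompletion F')
        (ι' : _ →+* AlgebraicClosure (w'.adicCompletion F')) A' φ' ∧
      (∀ z, z ∈ A' ↔ s ρ z ∈ A) ∧
      (∀ (z : M) (h : s ρ z ∈ A) (h' : z ∈ A'), φ' ⟨z, h'⟩ = j (φ ⟨s ρ z, h⟩)) ∧
      ∀ a, ι' a = j (ι (ρ a)) := by
  have : IsGalois F (AlgebraicClosure k) := IsGalois.tower_top_of_isGalois k F (AlgebraicClosure k)
  obtain ⟨j₀, j, ρ₀, hj₀v, hj₀, hj, hτ⟩ := Fer.exists_j_tower_val (k := F)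
    (kb := AlgebraicClosure k) (F := F') w w' ι
  obtain ⟨h1, h2, h3⟩ := h
  let ρ : Gal(AlgebraicClosure k/k) := ρ₀.restrictScalars k
  have hρ : ∀ x, ρ x = ρ₀ x := fun x => rfl
  let ι' : AlgebraicClosure k →ₐ[F'] AlgebraicClosure (w'.adicCompletion F') :=
    { j.comp ((ι : AlgebraicClosure k →+* _).comp
        (ρ : AlgebraicClosure k →+* AlgebraicClosure k)) with
      commutes' := fun a => by
        change j (ι (ρ₀ (algebraMap F' _ a))) = _
        rw [hj]
        exact (IsScalarTower.algebraMap_apply F' (w'.adicCompletion F') _ a).symm }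
  have hι' : ∀ a, ι' a = j (ι (ρ a)) := fun a => rfl
  let g : M →+* M := (s ρ : Gal(M/K))
  let A' : ValuationSubring M := A.comap g
  have hA' : ∀ x, x ∈ A' ↔ s ρ x ∈ A := fun x => Iff.rfl
  let φ' : A' →+* AlgebraicClosure (w'.adicCompletion F') := j.comp (φ.comp
    ((g.comp A'.subtype).codRestrict A (fun x => (hA' x).mp x.2)))
  have hφ' : ∀ x : A', φ' x = j (φ ⟨s ρ x, (hA' x).mp x.2⟩) := fun x => rfl
  refine ⟨ρ, ι', A', φ', j, fun a => ρ₀.commutes a, ⟨fun a => ?_, fun x hx => ?_,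
    fun σ τ hστ x => ?_⟩, hA', fun z h h' => rfl, hι'⟩
  · have e1 : s ρ (algebraMap (AlgebraicClosure k) M a) =
        algebraMap (AlgebraicClosure k) M (ρ a) := hsec ρ a
    obtain ⟨h5, h6⟩ := h1 (ρ a)
    have h7 : algebraMap (AlgebraicClosure k) M a ∈ A' := by
      rw [hA', e1]
      exact h5
    refine ⟨h7, ?_⟩
    rw [hφ']
    have e2 : (⟨s ρ (algebraMap (AlgebraicClosure k) M a), (hA' _).mp h7⟩ : A) =
      ⟨algebraMap (AlgebraicClosure k) M (ρ a), h5⟩ := Subtype.ext e1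
    rw [e2, h6]
    rfl
  · rw [hφ'] at hx
    have h5 := h2 ⟨s ρ x, (hA' x).mp x.2⟩ fun h0 => hx (by rw [h0, _root_.map_zero])
    rw [hA', map_inv₀]
    exact h5
  · obtain ⟨τ', hτ'⟩ := hτ τ
    have h4 : ∀ y, (ι : AlgebraicClosure k →+* _) ((ρ * σ * ρ⁻¹) y) =
        τ' ((ι : AlgebraicClosure k →+* _) y) := by
      intro y
      apply j.injective
      rw [hτ']
      have h5 := hστ (ρ⁻¹ y)
      change ι' (σ (ρ⁻¹ y)) = τ (ι' (ρ⁻¹ y)) at h5
      rw [hι', hι'] at h5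
      have h6 : ρ (ρ⁻¹ y) = y := ρ.apply_symm_apply y
      rw [h6] at h5
      exact h5
    obtain ⟨h5, h6⟩ := h3 _ τ' h4 ⟨s ρ x, (hA' x).mp x.2⟩
    have h7 : s (ρ * σ * ρ⁻¹) (s ρ (x : M)) = s ρ (s σ x) := by
      rw [← AlgEquiv.mul_apply, ← AlgEquiv.mul_apply, ← map_mul, ← map_mul,
        inv_mul_cancel_right]
    have h8 : s ρ (s σ x) ∈ A := by rw [← h7]; exact h5
    have h9 : s σ (x : M) ∈ A' := (hA' _).mpr h8
    refine ⟨h9, ?_⟩
    change φ' ⟨s σ x, h9⟩ = _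
    rw [hφ', hφ']
    have h10 : (⟨s ρ (s σ x), (hA' _).mp h9⟩ : A) = ⟨_, h5⟩ := Subtype.ext h7.symm
    rw [h10, h6, hτ']

end Pool.Agent.Lib.MP_2f3286_ag.UA
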