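import Pool.Agent.Lib.MP_2f3286_ag.UA.Main
import Pool.Agent.Lib.MP_2f3286_ag.UA.Loc
import Pool.Agent.Lib.MP_2f3286_ag.UA.AB
import Pool.Agent.Lib.MP_2f3286_ag.GK.Inv
import Pool.Agent.Lib.MP_2f3286_ag.KSplit

/-!
# Sections of curves over `k` mapping to `z ^ 4 - 2 (2 t ^ 3 - A t) z ^ 2 + B t ^ 2 = 0`
-/

open Polynomial IsDedekindDomain NumberField
open scoped WithZero

noncomputable section

namespace Pool.Agent.Lib.MP_2f3286_ag.UA

open Pool.Agent.Lib.MP_2f3286_ag.Sel (IsPlaceOf IsSectionAt)
open Pool.Agent.Lib.MP_2f3286_ag.Pt (IsMaxUnramOver)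

/-- the square of `y = (z + (e - d) t / z) / 2` -/
theorem y_sq {M : Type*} [Field M] (h2 : (2 : M) ≠ 0) {t z d e : M} (hz : z ≠ 0)
    (h : z ^ 4 - 2 * (2 * t ^ 3 - (d + e) * t) * z ^ 2 + (d - e) ^ 2 * t ^ 2 = 0) :
    ((z + (e - d) * t / z) / 2) ^ 2 = t ^ 3 - d * t := by
  have h4 : (z + (e - d) * t / z) = (z ^ 2 + (e - d) * t) / z := by
    field_simp
  rw [h4, div_div, div_pow, div_eq_iff (pow_ne_zero 2 (mul_ne_zero hz h2))]
  linear_combination h

/-- elements of an algebraic extension of `k` are integral -/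
theorem int_of_alg {k F R M : Type*} [Field k] [Field F] [Algebra k F] [Algebra.IsAlgebraic k F]
    [CommRing R] [Field M] [Algebra k R] [Algebra R M] [Algebra k M] [IsScalarTower k R M]
    [Algebra F M] [IsScalarTower k F M] (a : F) : IsIntegral R (algebraMap F M a) := by
  have h1 : IsIntegral k a := Algebra.IsIntegral.isIntegral a
  have h2 : IsIntegral k (algebraMap F M a) := h1.algebraMap
  exact h2.tower_top

/-- The function `h` has at the place `(A₀, ψ₀)` a value in `k`, and the same value at every place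
over the curve with ring of functions `R` of which `s` is the section over a completion of `k`. -/
def HasValK {k : Type*} [Field k] [NumberField k] {K : Type*} [Field K] [Algebra k K]
    {M : Type*} [Field M] [Algebra K M] [Algebra (AlgebraicClosure k) M]
    (s : Gal(AlgebraicClosure k/k) →* Gal(M/K)) (R : Subalgebra k K) (A₀ : ValuationSubring M)
    (ψ₀ : A₀ →+* AlgebraicClosure k) (h : K) : Prop :=
  ∃ (c : k) (hh : algebraMap K M h ∈ A₀), ψ₀ ⟨algebraMap K M h, hh⟩ = algebraMap k _ c ∧
    ∀ (v : HeightOneSpectrum (𝓞 k))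
      (ι : AlgebraicClosure k →ₐ[k] AlgebraicClosure (v.adicCompletion k))
      (A : ValuationSubring M) (φ : A →+* AlgebraicClosure (v.adicCompletion k)),
      IsPlaceOf s (v.adicCompletion k) (ι : _ →+* AlgebraicClosure (v.adicCompletion k)) A φ →
      (∀ r : R, algebraMap K M r ∈ A) →
      ∃ h' : algebraMap K M h ∈ A, φ ⟨algebraMap K M h, h'⟩ = ι (algebraMap k _ c)

universe u

/-- **The theorem over `k`.** -/
theorem fin_k {k : Type u} [Field k] [NumberField k] {A B : k} {F : Type u} [Field F]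
    [NumberField F] [Algebra k F] {i d e : F} (hi : i ^ 2 = -1) (hd : d ≠ 0) (hns : ¬ IsSquare d)
    (hsel : SelTriv d) (hns' : ¬ IsSquare e) (hA : algebraMap k F A = d + e) (hB : algebraMap k F B = (d - e) ^ 2)
    (hBd : B = 0 → d = e)
    (hF : ∀ x : F, ∃ a b : k, x = algebraMap k F a + algebraMap k F b * i)
    {K : Type*} [Field K] [Algebra k K] (htr : Algebra.trdeg k K = 1)
    (R : Subalgebra k K)
    {M : Type*} [Field M] [Algebra K M] [IsGalois K M]
    [Algebra (AlgebraicClosure k) M] [Algebra k M]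
    [IsScalarTower k K M] [IsScalarTower k (AlgebraicClosure k) M]
    (s : Gal(AlgebraicClosure k/k) →* Gal(M/K)) (hs : Continuous s)
    (hsec : ∀ σ a, s σ (algebraMap (AlgebraicClosure k) M a) =
      algebraMap (AlgebraicClosure k) M (σ a))
    {t z : K} (ht : ∀ c : k, t ≠ algebraMap k K c) (hz : z ≠ 0)
    (hq : z ^ 4 - 2 * (2 * t ^ 3 - algebraMap k K A * t) * z ^ 2 + algebraMap k K B * t ^ 2 = 0)
    (hM : (IsAlgClosed M ∧ R = ⊥) ∨
      (R.FG ∧ (∀ h : K, IsIntegral R h → h ∈ R) ∧ t ∈ R ∧
        (t * (4 * t ^ 4 - 4 * algebraMap k K A * t ^ 2 + algebraMap k K (A ^ 2 - B)))⁻¹ ∈ R ∧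
        IsMaxUnramOver R K M (AlgebraicClosure k) ∧
        (∀ v : HeightOneSpectrum (𝓞 k),
          ∃ (ι : AlgebraicClosure k →ₐ[k] AlgebraicClosure (v.adicCompletion k))
            (V : ValuationSubring M) (φ : V →+* AlgebraicClosure (v.adicCompletion k)),
            IsPlaceOf s (v.adicCompletion k)
              (ι : _ →+* AlgebraicClosure (v.adicCompletion k)) V φ ∧
            (algebraMap K M t ∈ V → (algebraMap K M t)⁻¹ ∈ V →
              (algebraMap K M (4 * t ^ 4 - 4 * algebraMap k K A * t ^ 2 +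
                algebraMap k K (A ^ 2 - B)))⁻¹ ∈ V → ∀ r : R, algebraMap K M r ∈ V)))) :
    ∃ (A₀ : ValuationSubring M) (ψ₀ : A₀ →+* AlgebraicClosure k),
      (((∀ r : R, algebraMap K M r ∈ A₀) ∧ IsSectionAt s A₀ ψ₀ ∧
        (∀ (A₁ : ValuationSubring M) (ψ₁ : A₁ →+* AlgebraicClosure k), IsSectionAt s A₁ ψ₁ →
          (∀ (r : R) (h₀ : algebraMap K M r ∈ A₀), ∃ h₁ : algebraMap K M r ∈ A₁,
            (IsAlgClosed M ∨ algebraMap K M r ∈ unitRing R M) ∨ ψ₁ ⟨_, h₁⟩ = ψ₀ ⟨_, h₀⟩) →
          A₁ = A₀ ∧ ∀ (a : A₁) (b : A₀), (a : M) = b → ψ₁ a = ψ₀ b) ∧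
        (∀ h : K, algebraMap K M h ∈ A₀ → (IsAlgClosed M ∨ algebraMap K M h ∈ unitRing R M) →
          HasValK s R A₀ ψ₀ h) ∧
        ((∀ r : R, (IsAlgClosed M ∨ algebraMap K M r ∈ unitRing R M)) →
          IsPlaceOf s k (RingHom.id _) A₀ ψ₀)) ∨
      (R ≠ ⊥ ∧ ¬ (algebraMap K M t ∈ A₀ ∧ (algebraMap K M t)⁻¹ ∈ A₀) ∧
        ∃ E : IntermediateField k (AlgebraicClosure k), FiniteDimensional k E ∧
          IsPlaceOf s E (RingHom.id _) A₀ ψ₀)) ∧
      (∀ (v : HeightOneSpectrum (𝓞 k))
        (ι : AlgebraicClosure k →ₐ[k] AlgebraicClosure (v.adicCompletion k))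
        (A : ValuationSubring M) (φ : A →+* AlgebraicClosure (v.adicCompletion k)),
        IsPlaceOf s (v.adicCompletion k)
          (ι : _ →+* AlgebraicClosure (v.adicCompletion k)) A φ →
        (algebraMap K M t ∈ A ∧ (algebraMap K M t)⁻¹ ∈ A ↔
          algebraMap K M t ∈ A₀ ∧ (algebraMap K M t)⁻¹ ∈ A₀)) ∧
      ((IsAlgClosed M ∧ R = ⊥ ∨
          B = 0 ∧ ∀ c : K, c ∈ IntermediateField.adjoin k {t, z}) →
        IsPlaceOf s k (RingHom.id _) A₀ ψ₀ ∧
        ∀ (A₁ : ValuationSubring M) (ψ₁ : A₁ →+* AlgebraicClosure k),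
          IsPlaceOf s k (RingHom.id _) A₁ ψ₁ →
          A₁ = A₀ ∧ ∀ (a : A₁) (b : A₀), (a : M) = b → ψ₁ a = ψ₀ b) := by
  classical
  have hfin : FiniteDimensional k F := FiniteDimensional.right ℚ k F
  have hkF : Algebra.IsAlgebraic k F := inferInstance
  -- `F` in the algebraic closure and in `M`
  let iFk : Algebra F (AlgebraicClosure k) :=
    ((IsAlgClosed.lift : F →ₐ[k] AlgebraicClosure k) : F →+* AlgebraicClosure k).toAlgebra
  have t1 : IsScalarTower k F (AlgebraicClosure k) := IsScalarTower.of_algebraMap_eq fun a =>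
    ((IsAlgClosed.lift : F →ₐ[k] AlgebraicClosure k).commutes a).symm
  let iFM : Algebra F M :=
    ((algebraMap (AlgebraicClosure k) M).comp (algebraMap F (AlgebraicClosure k))).toAlgebra
  have t2 : IsScalarTower F (AlgebraicClosure k) M := IsScalarTower.of_algebraMap_eq fun a => rfl
  have t3 : IsScalarTower k F M := IsScalarTower.of_algebraMap_eq fun a => by
    rw [IsScalarTower.algebraMap_apply F (AlgebraicClosure k) M,
      ← IsScalarTower.algebraMap_apply k F (AlgebraicClosure k),
      ← IsScalarTower.algebraMap_apply k (AlgebraicClosure k) M]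
  have hK0 : CharZero K := charZero_of_injective_algebraMap (algebraMap k K).injective
  have hM0 : CharZero M := charZero_of_injective_algebraMap (algebraMap K M).injective
  -- the functions `x`, `y`
  have htt : Transcendental k t := HYP.transc_of_sec hsec ht
  obtain ⟨x, hx⟩ : ∃ x : M, x = algebraMap K M t := ⟨_, rfl⟩
  obtain ⟨ζ, hζ⟩ : ∃ ζ : M, ζ = algebraMap K M z := ⟨_, rfl⟩
  have hxt : Transcendental k x := by
    rw [hx]
    exact (transcendental_algebraMap_iff (algebraMap K M).injective).2 htt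
  have hζ0 : ζ ≠ 0 := by rw [hζ, Ne, _root_.map_eq_zero]; exact hz
  have hAM : algebraMap K M (algebraMap k K A) = algebraMap F M d + algebraMap F M e := by
    rw [← map_add, ← hA, ← IsScalarTower.algebraMap_apply k K M,
      ← IsScalarTower.algebraMap_apply k F M]
  have hBM : algebraMap K M (algebraMap k K B) = (algebraMap F M d - algebraMap F M e) ^ 2 := by
    rw [← map_sub, ← map_pow, ← hB, ← IsScalarTower.algebraMap_apply k K M,
      ← IsScalarTower.algebraMap_apply k F M]
  have hqM : ζ ^ 4 - 2 * (2 * x ^ 3 - (algebraMap F M d + algebraMap F M e) * x) * ζ ^ 2 +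
      (algebraMap F M d - algebraMap F M e) ^ 2 * x ^ 2 = 0 := by
    have h1 := congrArg (algebraMap K M) hq
    simp only [map_add, map_sub, map_mul, map_pow, map_ofNat, map_zero] at h1
    rw [hAM, hBM, ← hx, ← hζ] at h1
    exact h1
  obtain ⟨y, hy⟩ : ∃ y : M, y = (ζ + (algebraMap F M e - algebraMap F M d) * x / ζ) / 2 := ⟨_, rfl⟩
  have hxy : y ^ 2 = x ^ 3 - algebraMap F M d * x := by
    rw [hy]
    exact y_sq two_ne_zero hζ0 hqM
  have C : Crv i d ((X : F[X]) ^ 3 - C d * X) := ⟨hi, hd, hns, hsel, rfl⟩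
  have hxf : ∀ c : F, x ≠ algebraMap F M c := by
    intro c hc
    apply hxt
    rw [hc]
    exact (Algebra.IsAlgebraic.isAlgebraic (R := k) c).algebraMap
  have hfix : ∀ σ : Gal(AlgebraicClosure k/k),
      (∀ a : F, σ (algebraMap F _ a) = algebraMap F _ a) → s σ x = x ∧ s σ y = y := by
    intro σ hσ
    have h1 : ∀ a : F, s σ (algebraMap F M a) = algebraMap F M a := by
      intro a
      change s σ (algebraMap (AlgebraicClosure k) M (algebraMap F (AlgebraicClosure k) a)) = _
      rw [hsec, hσ]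
      rfl
    have h2 : s σ x = x := by rw [hx]; exact (s σ).commutes t
    have h3 : s σ ζ = ζ := by rw [hζ]; exact (s σ).commutes z
    refine ⟨h2, ?_⟩
    rw [hy, map_div₀, map_add, map_div₀, map_mul, map_sub, h1, h1, h2, h3, map_ofNat]
  have hsK : ∀ (ρ : Gal(AlgebraicClosure k/k)) (c : K), s ρ (algebraMap K M c) = algebraMap K M c :=
    fun ρ c => (s ρ).commutes c
  have hsK' : ∀ (ρ : Gal(AlgebraicClosure k/k)) (c : K),
      s ρ (algebraMap K M c)⁻¹ = (algebraMap K M c)⁻¹ := fun ρ c => by rw [map_inv₀, hsK]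
  obtain ⟨A₀, ψ₀, H1, H2, H3⟩ := geo_or_cusp C htr R s hs hsec hfix hxf
    (by rw [C.aeval_eq]; exact hxy) (by
      rcases hM with hM | ⟨h1, h2, h3, h4, h5, h6⟩
      · exact Or.inl hM
      have q1 : IsIntegral R x := by
        rw [hx]
        exact isIntegral_algebraMap (R := R) (x := ⟨t, h3⟩)
      have q2 : ∀ a : F, IsIntegral R (algebraMap F M a) := fun a => by
        have t5 : IsScalarTower k R M := IsScalarTower.of_algebraMap_eq fun r => by
          rw [IsScalarTower.algebraMap_apply k K M]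
          rfl
        exact int_of_alg (k := k) a
      have q3 : IsIntegral R (y ^ 2) := by
        rw [hxy]
        exact (q1.pow 3).sub ((q2 d).mul q1)
      refine Or.inr ⟨h1, h2, q1, IsIntegral.of_pow two_pos q3, ?_, h5, ?_⟩
      · refine IsIntegral.of_pow two_pos ?_
        have q4 : IsIntegral R (algebraMap K M (t * (4 * t ^ 4 - 4 * algebraMap k K A * t ^ 2 +
            algebraMap k K (A ^ 2 - B)))⁻¹) := isIntegral_algebraMap (R := R) (x := ⟨_, h4⟩)
        have q5 : algebraMap K M (algebraMap k K (A ^ 2 - B)) =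
            4 * algebraMap F M d * algebraMap F M e := by
          rw [map_sub, map_sub, map_pow, map_pow, hAM, hBM]
          ring
        have q6 : (y ^ 2)⁻¹ = 4 * (x ^ 2 - algebraMap F M e) * algebraMap K M (t * (4 * t ^ 4 -
            4 * algebraMap k K A * t ^ 2 + algebraMap k K (A ^ 2 - B)))⁻¹ := by
          have q7 : x ^ 2 - algebraMap F M e ≠ 0 := by
            intro h0
            have h7 : IsAlgebraic k (x ^ 2) := by
              rw [sub_eq_zero.1 h0]
              exact (Algebra.IsAlgebraic.isAlgebraic (R := k) e).algebraMap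
            exact hxt (h7.of_pow two_pos)
          have q8 : algebraMap K M (t * (4 * t ^ 4 - 4 * algebraMap k K A * t ^ 2 +
              algebraMap k K (A ^ 2 - B))) = 4 * (x ^ 2 - algebraMap F M e) * y ^ 2 := by
            rw [hxy, map_mul, map_add, q5, map_sub, map_mul, map_mul, map_mul, hAM, map_pow, map_pow,
              map_ofNat, ← hx]
            ring
          rw [map_inv₀, q8, mul_inv_rev, mul_comm (y ^ 2)⁻¹, ← mul_assoc, mul_inv_cancel₀, one_mul]
          exact mul_ne_zero (by norm_num) q7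
        rw [inv_pow, q6]
        have q9 : IsIntegral R (4 : M) := by
          have := isIntegral_algebraMap (R := R) (A := M) (x := 4)
          rwa [map_ofNat] at this
        exact (q9.mul ((q1.pow 2).sub (q2 e))).mul q4
      · intro w'
        obtain ⟨v, hv⟩ := FermGK.exists_below (F := k) w'
        obtain ⟨ι, A₁, φ, hA₁, hcond⟩ := h6 v
        obtain ⟨ρ, ι', A', φ', j, hρ, hP, hmem, hval, hj⟩ := local_up (F := k) (F' := F) s hsec v w'
          ι A₁ φ hA₁
        refine ⟨ι', A', φ', hP, ?_⟩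
        rintro ⟨e', hxA, he', hv'⟩ r
        have hxA' : x⁻¹ ∈ A' := by
          refine hP.2.1 ⟨x, hxA⟩ ?_
          rw [hv', Ne, _root_.map_eq_zero, _root_.map_eq_zero]
          exact he'
        have hFA : ∀ a : F, ∃ h : algebraMap F M a ∈ A', φ' ⟨_, h⟩ = ι' (algebraMap F _ a) :=
          fun a => hP.1 (algebraMap F _ a)
        have hpA : (algebraMap K M (4 * t ^ 4 - 4 * algebraMap k K A * t ^ 2 +
            algebraMap k K (A ^ 2 - B)))⁻¹ ∈ A' := by
          have p1 : algebraMap K M (4 * t ^ 4 - 4 * algebraMap k K A * t ^ 2 +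
              algebraMap k K (A ^ 2 - B)) =
                4 * (x ^ 2 - algebraMap F M d) * (x ^ 2 - algebraMap F M e) := by
            rw [map_add, map_sub, map_mul, map_mul, map_mul, hAM, map_pow, map_pow, map_sub,
              map_sub, map_pow, map_pow, hAM, hBM, map_ofNat, ← hx]
            ring
          obtain ⟨m1, n1⟩ := hFA d
          obtain ⟨m2, n2⟩ := hFA e
          obtain ⟨m3, n3⟩ := hFA 4
          have m4 : 4 * (x ^ 2 - algebraMap F M d) * (x ^ 2 - algebraMap F M e) ∈ A' := by
            rw [map_ofNat] at m3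
            exact mul_mem (mul_mem m3 (sub_mem (pow_mem hxA 2) m1)) (sub_mem (pow_mem hxA 2) m2)
          have n4 : φ' ⟨_, m4⟩ = ι' (algebraMap F _ (4 * (e' ^ 2 - d) * (e' ^ 2 - e))) := by
            have n5 : (⟨_, m4⟩ : A') = ⟨_, m3⟩ * (⟨x, hxA⟩ ^ 2 - ⟨_, m1⟩) *
                (⟨x, hxA⟩ ^ 2 - ⟨_, m2⟩) := Subtype.ext (by
              change _ = algebraMap F M 4 * (x ^ 2 - algebraMap F M d) * (x ^ 2 - algebraMap F M e)
              rw [map_ofNat])
            rw [n5, map_mul, map_mul, map_sub, map_sub, map_pow, n1, n2, n3, hv']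
            simp only [map_mul, map_sub, map_pow]
          rw [p1]
          refine hP.2.1 ⟨_, m4⟩ ?_
          rw [n4, Ne, _root_.map_eq_zero, _root_.map_eq_zero]
          refine mul_ne_zero (mul_ne_zero (by norm_num) ?_) ?_
          · intro h0
            exact hns ⟨e', by linear_combination -h0⟩
          · intro h0
            exact hns' ⟨e', by linear_combination -h0⟩
        rw [hmem, hsK]
        apply hcond
        · rw [hmem, hx, hsK] at hxA
          exact hxA
        · rw [hmem, hx, hsK'] at hxA'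
          exact hxA'
        · rw [hmem, hsK'] at hpA
          exact hpA)
  -- a place over a completion of `k` gives a place over a completion of `F`
  have up : ∀ (v : HeightOneSpectrum (𝓞 k))
      (ι : AlgebraicClosure k →ₐ[k] AlgebraicClosure (v.adicCompletion k))
      (A₁ : ValuationSubring M) (φ : A₁ →+* AlgebraicClosure (v.adicCompletion k)),
      IsPlaceOf s (v.adicCompletion k)
        (ι : _ →+* AlgebraicClosure (v.adicCompletion k)) A₁ φ →
      ∃ (w' : HeightOneSpectrum (𝓞 F))
        (ι' : AlgebraicClosure k →ₐ[F] AlgebraicClosure (w'.adicCompletion F))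
        (A' : ValuationSubring M) (φ' : A' →+* AlgebraicClosure (w'.adicCompletion F)),
        IsPlaceOf s (w'.adicCompletion F)
          (ι' : _ →+* AlgebraicClosure (w'.adicCompletion F)) A' φ' ∧
        (∀ c : K, algebraMap K M c ∈ A' ↔ algebraMap K M c ∈ A₁) ∧
        ∀ (c : K) (h' : algebraMap K M c ∈ A') (h : algebraMap K M c ∈ A₁) (a : k),
          φ' ⟨_, h'⟩ = ι' (algebraMap k _ a) → φ ⟨_, h⟩ = ι (algebraMap k _ a) := by
    intro v ι A₁ φ hP
    obtain ⟨w', hw'⟩ := exists_prime_over (E := F) v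
    obtain ⟨ρ, ι', A', φ', j, hρ, hP', hmem, hval, hj⟩ := local_up (F := k) (F' := F) s hsec v w'
      ι A₁ φ hP
    refine ⟨w', ι', A', φ', hP', fun c => by rw [hmem, hsK], fun c h' h a hv => ?_⟩
    apply j.injective
    have q1 : s ρ (algebraMap K M c) ∈ A₁ := by rw [hsK]; exact h
    have q2 := hval _ q1 h'
    have q3 : (⟨s ρ (algebraMap K M c), q1⟩ : A₁) = ⟨algebraMap K M c, h⟩ := Subtype.ext (hsK ρ c)
    rw [q3] at q2
    rw [← q2, hv, hj, AlgEquiv.commutes]
  refine ⟨A₀, ψ₀, ?_, ?_, ?_⟩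
  · rcases H1 with ⟨g1, g2, g3, g4, g5⟩ | ⟨g1, g2, g3⟩
    · refine Or.inl ⟨g1, g2, g3, fun h hh hcond => ?_, g5⟩
      obtain ⟨c, hc, hv, hloc⟩ := g4 h hh hcond
      refine ⟨c, hc, hv, fun v ι A₁ φ hP hr => ?_⟩
      obtain ⟨w', ι', A', φ', hP', hmem, hval⟩ := up v ι A₁ φ hP
      obtain ⟨h', hv'⟩ := hloc w' ι' A' φ' ⟨hP', fun r => (hmem _).2 (hr r)⟩
      exact ⟨(hmem _).1 h', hval _ h' _ c hv'⟩
    · refine Or.inr ⟨g1, ?_, g3⟩
      rw [← hx]
      exact g2
  · intro v ι A₁ φ hP
    obtain ⟨w', ι', A', φ', hP', hmem, -⟩ := up v ι A₁ φ hP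
    have q1 := H2 w' ι' A' φ' hP'
    have q2 := hmem t
    have q3 := hmem t⁻¹
    rw [map_inv₀] at q3
    rw [hx] at q1
    rw [← q2, ← q3]
    exact q1
  · intro h
    refine H3 (h.imp id ?_)
    rintro ⟨hB0, hgen⟩
    constructor
    · intro τ a
      obtain ⟨a0, b0, ha⟩ := hF a
      obtain ⟨j, hj⟩ : ∃ j : AlgebraicClosure k, j = algebraMap F _ i := ⟨_, rfl⟩
      have hj2 : j ^ 2 = -1 := by rw [hj, ← map_pow, hi, map_neg, map_one]
      have h1 : τ (algebraMap F (AlgebraicClosure k) a) =
          algebraMap k _ a0 + algebraMap k _ b0 * τ j := by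
        rw [ha, map_add, map_mul, ← IsScalarTower.algebraMap_apply k F (AlgebraicClosure k),
          ← IsScalarTower.algebraMap_apply k F (AlgebraicClosure k), map_add, map_mul,
          AlgEquiv.commutes, AlgEquiv.commutes, hj]
      have h2 : (τ j - j) * (τ j + j) = 0 := by
        have h3 : (τ j) ^ 2 = -1 := by rw [← map_pow, hj2, map_neg, map_one]
        linear_combination h3 - hj2
      rcases mul_eq_zero.1 h2 with h3 | h3
      · refine ⟨algebraMap k F a0 + algebraMap k F b0 * i, ?_⟩
        rw [h1, sub_eq_zero.1 h3, map_add, map_mul,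
          ← IsScalarTower.algebraMap_apply k F (AlgebraicClosure k),
          ← IsScalarTower.algebraMap_apply k F (AlgebraicClosure k), hj]
      · refine ⟨algebraMap k F a0 - algebraMap k F b0 * i, ?_⟩
        rw [h1, eq_neg_of_add_eq_zero_left h3, map_sub, map_mul,
          ← IsScalarTower.algebraMap_apply k F (AlgebraicClosure k),
          ← IsScalarTower.algebraMap_apply k F (AlgebraicClosure k), hj]
        ring
    · intro c
      have hxm : x ∈ IntermediateField.adjoin F {x, y} :=
        IntermediateField.subset_adjoin F _ (Set.mem_insert _ _)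
      have hym : y ∈ IntermediateField.adjoin F {x, y} :=
        IntermediateField.subset_adjoin F _ (Set.mem_insert_of_mem _ rfl)
      induction hgen c using IntermediateField.adjoin_induction with
      | mem c hc =>
        rcases hc with rfl | hc
        · rw [← hx]
          exact hxm
        · rw [Set.mem_singleton_iff.1 hc, ← hζ]
          have h1 : ζ = y + y := by
            rw [hy, hBd hB0, sub_self, zero_mul, zero_div, add_zero]
            ring
          rw [h1]
          exact add_mem hym hym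
      | algebraMap a =>
        rw [← IsScalarTower.algebraMap_apply k K M, IsScalarTower.algebraMap_apply k F M]
        exact IntermediateField.algebraMap_mem _ _
      | add a b _ _ ha hb =>
        rw [map_add]
        exact add_mem ha hb
      | inv a _ ha =>
        rw [map_inv₀]
        exact inv_mem ha
      | mul a b _ _ ha hb =>
        rw [map_mul]
        exact mul_mem ha hb

end Pool.Agent.Lib.MP_2f3286_ag.UA
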