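import Pool.Agent.Lib.MP_2f3286_ag.UA.Main

/-!
# The first division by `1 + i`
-/

open Polynomial IsDedekindDomain NumberField
open scoped WithZero

noncomputable section

namespace Pool.Agent.Lib.MP_2f3286_ag.UA

open Pool.Agent.Lib.MP_2f3286_ag.HYP hiding affine_over over_dich
open Pool.Agent.Lib.MP_2f3286_ag.Pt Pool.Agent.Lib.MP_2f3286_ag.SNeigh
  Pool.Agent.Lib.MP_2f3286_ag.SFull Pool.Agent.Lib.MP_2f3286_ag.Koe

universe u v

/-- **The point of a section, or its sum with `(0, 0)`, is divisible by `1 + i` over the fixed field.** -/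
theorem fst_div {k : Type u} [Field k] [NumberField k]
    {F : Type v} [Field F] [NumberField F] [Algebra k F]
    [Algebra F (AlgebraicClosure k)] [IsScalarTower k F (AlgebraicClosure k)]
    {i d : F} {f : F[X]} (C : Crv i d f)
    {K : Type*} [Field K] [Algebra k K] (R : Subalgebra k K)
    {M : Type*} [Field M] [Algebra K M] [IsGalois K M]
    [Algebra (AlgebraicClosure k) M] [Algebra k M]
    [IsScalarTower k K M] [IsScalarTower k (AlgebraicClosure k) M]
    [Algebra F M] [IsScalarTower F (AlgebraicClosure k) M]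
    (hM : IsMaxUnramOver R K M (AlgebraicClosure k))
    (s : Gal(AlgebraicClosure k/k) →* Gal(M/K)) (hs : Continuous s)
    (hsec : ∀ σ a, s σ (algebraMap (AlgebraicClosure k) M a) =
      algebraMap (AlgebraicClosure k) M (σ a))
    {x y : M} (hxs : x ∈ fixF s F) (hys : y ∈ fixF s F) (hx0 : x ≠ 0) (hxy : y ^ 2 = aeval x f)
    (hloc : ∀ w : HeightOneSpectrum (𝓞 F),
      ∃ (ι : AlgebraicClosure k →ₐ[F] AlgebraicClosure (w.adicCompletion F))
        (A : ValuationSubring M) (φ : A →+* AlgebraicClosure (w.adicCompletion F)),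
        Sel.IsPlaceOf s (w.adicCompletion F)
          (ι : _ →+* AlgebraicClosure (w.adicCompletion F)) A φ) :
    ∃ x₁ y₁ : M, x₁ ∈ fixF s F ∧ y₁ ∈ fixF s F ∧ x₁ ≠ 0 ∧ y₁ ^ 2 = aeval x₁ f ∧
      (x₁ ^ 2 - algebraMap F M d = 2 * algebraMap F M i * x * x₁ ∨
        x₁ ^ 2 - algebraMap F M d = 2 * algebraMap F M i * (-algebraMap F M d / x) * x₁) := by
  classical
  have hfin : FiniteDimensional k F := FiniteDimensional.right ℚ k F
  have hFk : Algebra.IsAlgebraic F (AlgebraicClosure k) :=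
    Algebra.IsAlgebraic.tower_top (K := k) F
  have : IsAlgClosure F (AlgebraicClosure k) := ⟨inferInstance, inferInstance⟩
  let e : AlgebraicClosure F ≃ₐ[F] AlgebraicClosure k :=
    IsAlgClosure.equiv F (AlgebraicClosure F) (AlgebraicClosure k)
  let iFb : Algebra (AlgebraicClosure F) M :=
    ((algebraMap (AlgebraicClosure k) M).comp (e : _ →+* AlgebraicClosure k)).toAlgebra
  have he : ∀ a : AlgebraicClosure F, algebraMap (AlgebraicClosure F) M a =
      algebraMap (AlgebraicClosure k) M (e a) := fun _ => rfl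
  have t4 : IsScalarTower F (AlgebraicClosure F) M := IsScalarTower.of_algebraMap_eq fun a => by
    rw [he, AlgEquiv.commutes, ← IsScalarTower.algebraMap_apply]
  have hK0 : CharZero K := charZero_of_injective_algebraMap (algebraMap k K).injective
  have hKM : Algebra.IsAlgebraic K M := inferInstance
  letI iFL : Algebra F (fixF s F) := (toFixF s F hsec).toAlgebra
  have t2 : IsScalarTower F (fixF s F) M := IsScalarTower.of_algebraMap_eq fun a => by
    rw [IsScalarTower.algebraMap_apply F (AlgebraicClosure k) M]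
    rfl
  have hLM : Algebra.IsAlgebraic (fixF s F) M :=
    Algebra.IsAlgebraic.tower_top (K := K) (fixF s F)
  have hL : ∀ σ : Gal(AlgebraicClosure k/k),
      (∀ a : F, σ (algebraMap F _ a) = algebraMap F _ a) →
      ∀ x : fixF s F, s σ (algebraMap (fixF s F) M x) = algebraMap (fixF s F) M x :=
    fun σ hσ x => x.2 σ hσ
  have hs' := resS_continuous s e hL hs
  have hsec' : ∀ (σ : Gal(AlgebraicClosure F/F)) (a : AlgebraicClosure F),
      resS s e hL σ (algebraMap (AlgebraicClosure F) M a) =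
        algebraMap (AlgebraicClosure F) M (σ a) := by
    intro σ a
    rw [resS_apply, he, hsec, resG_apply, e.symm_apply_apply, he]
  have hfix : ∀ z : M, (∀ σ, resS s e hL σ z = z) →
      ∃ y : fixF s F, algebraMap (fixF s F) M y = z := by
    intro z hz
    refine ⟨⟨z, fun σ hσ => ?_⟩, rfl⟩
    obtain ⟨τ, hτ, -⟩ := resG_surj e σ hσ
    rw [← hτ, ← resS_apply s e hL τ z]
    exact hz τ
  have hrad := Pt.radClosedOver_of_max R hM
  choose ι A φ hφ using hloc
  obtain ⟨D, hD⟩ := Fer.exists_data_gen (p := 2) (L := fixF s F) two_ne_zero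
    {V : ValuationSubring M | Pt.IsPlcOver R (AlgebraicClosure k) V}
    (fun V hV a => by
      rw [IsScalarTower.algebraMap_apply F (AlgebraicClosure k) M]
      exact hV.1.1 _)
    (fun ρ hρ hV => Fer.rad_of_max R (hrad 2 · one_le_two) ρ hρ hV) (resS s e hL) hs' hsec'
    (fun x σ => (resS s e hL σ).commutes x) hfix
    (fun w => (ι w).comp (e : AlgebraicClosure F →ₐ[F] AlgebraicClosure k)) A φ
    (fun w => placeOf_res e he s hL (hφ w))
  have hxy' : (⟨y, hys⟩ : fixF s F) ^ 2 =
      ⟨x, hxs⟩ ^ 3 - algebraMap F (fixF s F) d * ⟨x, hxs⟩ := by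
    apply Subtype.ext
    change y ^ 2 = x ^ 3 - algebraMap (fixF s F) M (algebraMap F (fixF s F) d) * x
    rw [← IsScalarTower.algebraMap_apply, hxy, C.aeval_eq]
  have hx0' : (⟨x, hxs⟩ : fixF s F) ≠ 0 := fun h => hx0 (congrArg (algebraMap (fixF s F) M) h)
  have hiL : algebraMap F (fixF s F) i ^ 2 = -1 := by
    rw [← map_pow, C.hi, map_neg, map_one]
  have hdL : algebraMap F (fixF s F) d ≠ 0 := by
    rw [_root_.map_ne_zero]
    exact C.hd
  -- the division of a point with square coordinate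
  have key : ∀ r r' : fixF s F, r ≠ 0 → r' ^ 2 = r ^ 3 - algebraMap F (fixF s F) d * r →
      (∃ w, w ^ 2 = r) → ∃ x₁ y₁ : M, x₁ ∈ fixF s F ∧ y₁ ∈ fixF s F ∧ x₁ ≠ 0 ∧
        y₁ ^ 2 = aeval x₁ f ∧
        x₁ ^ 2 - algebraMap F M d = 2 * algebraMap F M i * algebraMap (fixF s F) M r * x₁ := by
    rintro r r' hr hrr ⟨w, hw⟩
    obtain ⟨x₁, y₁, h1, h2, h3⟩ := div_step hiL hdL hr hrr hw
    refine ⟨x₁, y₁, x₁.2, y₁.2, fun h => h1 (Subtype.ext h), ?_, ?_⟩
    · have h4 := congrArg (algebraMap (fixF s F) M) h2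
      rw [map_pow, map_sub, map_pow, map_mul, ← IsScalarTower.algebraMap_apply] at h4
      rw [C.aeval_eq]
      exact h4
    · have h4 := congrArg (algebraMap (fixF s F) M) h3
      rw [map_sub, map_pow, map_mul, map_mul, map_mul, map_ofNat,
        ← IsScalarTower.algebraMap_apply, ← IsScalarTower.algebraMap_apply] at h4
      exact h4
  rcases sq_or D C.hi C.hd C.sel hx0' hxy' with hw | hw
  · obtain ⟨x₁, y₁, h1, h2, h3, h4, h5⟩ := key _ _ hx0' hxy' hw
    exact ⟨x₁, y₁, h1, h2, h3, h4, Or.inl h5⟩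
  · obtain ⟨h6, h7⟩ := translate hdL hx0' hxy'
    obtain ⟨x₁, y₁, h1, h2, h3, h4, h5⟩ := key _ _ h6 h7 hw
    refine ⟨x₁, y₁, h1, h2, h3, h4, Or.inr ?_⟩
    rw [h5]
    congr 2
    rw [map_div₀, map_neg, ← IsScalarTower.algebraMap_apply]
    rfl

end Pool.Agent.Lib.MP_2f3286_ag.UA
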