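import Mathlib

/-!
(G10) of UALL_TEXT: `∑_{m mod 2a} e(m²/(4a)) = √(2a) e(1/8)`, by the functional equation of theta.
-/

namespace Pool.Agent.Lib.MP_2f3286_ag.UA

open Complex Filter Topology
open scoped Real

lemma summable_exp_mul_sq {τ : ℂ} (hτ : 0 < τ.im) :
    Summable (fun n : ℤ => cexp (π * I * (n : ℂ) ^ 2 * τ)) := by
  have h := (summable_jacobiTheta₂_term_iff 0 τ).mpr hτ
  refine h.congr ?_
  intro n
  simp [jacobiTheta₂_term]

/-- the sum `∑ c n exp(-π z n²)` tends to `c 0` when `Re z → ∞`. -/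
lemma tendsto_gauss {z : ℝ → ℂ} (hz : Tendsto (fun t => (z t).re) (𝓝[>] 0) atTop) (c : ℤ → ℂ)
    (hc : ∀ n, ‖c n‖ ≤ 1) :
    Tendsto (fun t => ∑' n : ℤ, c n * cexp (-π * z t * (n : ℂ) ^ 2)) (𝓝[>] 0) (𝓝 (c 0)) := by
  have hsum : Summable (fun n : ℤ => Real.exp (-π * (n : ℝ) ^ 2)) := by
    have h := (summable_exp_mul_sq (τ := I) (by simp)).norm
    refine h.congr ?_
    intro n
    rw [Complex.norm_exp]
    congr 1
    have : (π * I * (n : ℂ) ^ 2 * I : ℂ) = ((-π * (n : ℝ) ^ 2 : ℝ) : ℂ) := by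
      push_cast
      linear_combination (π * (n : ℂ) ^ 2) * I_mul_I
    rw [this, ofReal_re]
  have key : Tendsto (fun t => ∑' n : ℤ, c n * cexp (-π * z t * (n : ℂ) ^ 2)) (𝓝[>] 0)
      (𝓝 (∑' n : ℤ, if n = 0 then c 0 else 0)) := by
    refine tendsto_tsum_of_dominated_convergence (bound := fun n : ℤ => Real.exp (-π * (n : ℝ) ^ 2))
      hsum ?_ ?_
    · intro n
      by_cases hn : n = 0
      · subst hn
        simp
      · rw [if_neg hn]
        rw [tendsto_zero_iff_norm_tendsto_zero]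
        have h1 : ∀ t, ‖c n * cexp (-π * z t * (n : ℂ) ^ 2)‖
            = ‖c n‖ * Real.exp (-(π * (n : ℝ) ^ 2 * (z t).re)) := by
          intro t
          rw [norm_mul, Complex.norm_exp]
          congr 2
          have : (-π * z t * (n : ℂ) ^ 2 : ℂ) = ((-(π * (n : ℝ) ^ 2) : ℝ) : ℂ) * z t := by
            push_cast; ring
          rw [this, re_ofReal_mul]
          ring
        simp_rw [h1]
        have h2 : Tendsto (fun t => π * (n : ℝ) ^ 2 * (z t).re) (𝓝[>] 0) atTop := by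
          refine Tendsto.const_mul_atTop ?_ hz
          have : (n : ℝ) ≠ 0 := by exact_mod_cast hn
          positivity
        have h3 := (Real.tendsto_exp_neg_atTop_nhds_zero).comp h2
        have h4 := h3.const_mul ‖c n‖
        simpa using h4
    · have h1 : ∀ᶠ t in 𝓝[>] (0 : ℝ), 1 ≤ (z t).re := hz.eventually_ge_atTop 1
      filter_upwards [h1] with t ht
      intro n
      rw [norm_mul, Complex.norm_exp]
      have : (-π * z t * (n : ℂ) ^ 2 : ℂ) = ((-(π * (n : ℝ) ^ 2) : ℝ) : ℂ) * z t := by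
        push_cast; ring
      rw [this, re_ofReal_mul]
      calc ‖c n‖ * Real.exp (-(π * (n : ℝ) ^ 2) * (z t).re)
          ≤ 1 * Real.exp (-(π * (n : ℝ) ^ 2) * (z t).re) := by
            gcongr
            exact hc n
        _ ≤ Real.exp (-π * (n : ℝ) ^ 2) := by
            rw [one_mul]
            apply Real.exp_le_exp.mpr
            have : 0 ≤ π * (n : ℝ) ^ 2 := by positivity
            nlinarith
  rwa [tsum_ite_eq] at key

lemma res_tendsto (N : ℕ) (hN : 0 < N) (r : ℤ) :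
    Tendsto (fun ε : ℝ => (√ε : ℂ) * ∑' k : ℤ, cexp (-π * ε * ((N : ℂ) * k + r) ^ 2)) (𝓝[>] 0)
      (𝓝 (1 / N)) := by
  have hN' : (N : ℂ) ≠ 0 := by exact_mod_cast hN.ne'
  have hNr : (0 : ℝ) < N := by exact_mod_cast hN
  have hz : Tendsto (fun ε : ℝ => (((1 / (ε * (N : ℝ) ^ 2) : ℝ) : ℂ)).re) (𝓝[>] 0) atTop := by
    simp only [ofReal_re]
    have : (fun ε : ℝ => 1 / (ε * (N : ℝ) ^ 2)) = fun ε : ℝ => (1 / (N : ℝ) ^ 2) * ε⁻¹ := by
      funext ε
      field_simp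
    rw [this]
    exact Tendsto.const_mul_atTop (by positivity) tendsto_inv_nhdsGT_zero
  have h := tendsto_gauss hz (fun n => cexp (2 * π * I * n * r / N)) (by
    intro n
    have : (2 * π * I * n * r / N : ℂ) = ((2 * π * n * r / N : ℝ) : ℂ) * I := by
      push_cast; ring
    rw [this, Complex.norm_exp_ofReal_mul_I])
  have h' := h.const_mul (1 / (N : ℂ))
  simp only [Int.cast_zero, mul_zero, zero_mul, zero_div, Complex.exp_zero, mul_one] at h'
  refine h'.congr' ?_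
  filter_upwards [self_mem_nhdsWithin] with ε hε
  have hε : 0 < ε := hε
  have hεc : (ε : ℂ) ≠ 0 := by exact_mod_cast hε.ne'
  have hre : 0 < ((ε * N ^ 2 : ℝ) : ℂ).re := by
    rw [ofReal_re]; positivity
  have hP := Complex.tsum_exp_neg_quadratic hre (-(ε * N * r))
  have h1 : (∑' k : ℤ, cexp (-π * ε * ((N : ℂ) * k + r) ^ 2))
      = cexp (-π * ε * r ^ 2) * ∑' k : ℤ,
        cexp (-π * ((ε * N ^ 2 : ℝ) : ℂ) * (k : ℂ) ^ 2 + 2 * π * (-(ε * N * r)) * k) := by
    rw [← tsum_mul_left]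
    congr 1
    funext k
    rw [← Complex.exp_add]
    congr 1
    push_cast
    ring
  rw [h1, hP]
  have h2 : ∀ n : ℤ, cexp (-π / ((ε * N ^ 2 : ℝ) : ℂ) * ((n : ℂ) + I * (-(ε * N * r))) ^ 2)
      = cexp (π * ε * r ^ 2) * (cexp (2 * π * I * n * r / N)
        * cexp (-π * (((1 / (ε * (N : ℝ) ^ 2) : ℝ) : ℂ)) * (n : ℂ) ^ 2)) := by
    intro n
    rw [← Complex.exp_add, ← Complex.exp_add]
    congr 1
    push_cast
    field_simp
    ring_nf
    rw [I_sq]
    ring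
  simp_rw [h2]
  rw [tsum_mul_left]
  have h3 : (((ε * N ^ 2 : ℝ) : ℂ)) ^ (1 / 2 : ℂ) = (√ε : ℂ) * N := by
    have : (1 / 2 : ℂ) = ((1 / 2 : ℝ) : ℂ) := by push_cast; rfl
    rw [this, ← ofReal_cpow (by positivity)]
    rw [← Real.sqrt_eq_rpow, Real.sqrt_mul hε.le, Real.sqrt_sq hNr.le]
    push_cast
    rfl
  rw [h3]
  have h4 : (√ε : ℂ) ≠ 0 := by
    have := Real.sqrt_pos.mpr hε
    exact_mod_cast this.ne'
  have h5 : cexp (-π * ε * r ^ 2) * cexp (π * ε * r ^ 2) = 1 := by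
    rw [← Complex.exp_add]
    have : (-π * ε * r ^ 2 + π * ε * r ^ 2 : ℂ) = 0 := by ring
    rw [this, Complex.exp_zero]
  calc (1 / (N : ℂ)) * ∑' n : ℤ, cexp (2 * π * I * n * r / N)
        * cexp (-π * (((1 / (ε * (N : ℝ) ^ 2) : ℝ) : ℂ)) * (n : ℂ) ^ 2)
      = (cexp (-π * ε * r ^ 2) * cexp (π * ε * r ^ 2)) * ((1 / (N : ℂ)) *
        ∑' n : ℤ, cexp (2 * π * I * n * r / N)
        * cexp (-π * (((1 / (ε * (N : ℝ) ^ 2) : ℝ) : ℂ)) * (n : ℂ) ^ 2)) := by
        rw [h5, one_mul]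
    _ = _ := by
        generalize (∑' n : ℤ, cexp (2 * π * I * n * r / N)
          * cexp (-π * (((1 / (ε * (N : ℝ) ^ 2) : ℝ) : ℂ)) * (n : ℂ) ^ 2)) = X
        field_simp

lemma tsum_residue (N : ℕ) (hN : 0 < N) (F : ℤ → ℂ) (hF : Summable F) :
    ∑' n : ℤ, F n = ∑ r ∈ Finset.range N, ∑' k : ℤ, F (N * k + r) := by
  have : NeZero N := ⟨hN.ne'⟩
  have hs2 : Summable (fun p : ℤ × Fin N => F ((Int.divModEquiv N).symm p)) :=
    (Int.divModEquiv N).symm.summable_iff.mpr hF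
  have hs3 : Summable (fun p : Fin N × ℤ => F ((Int.divModEquiv N).symm (p.2, p.1))) :=
    (Equiv.prodComm (Fin N) ℤ).summable_iff.mpr hs2
  have h3 : ∑' n : ℤ, F n = ∑' p : ℤ × Fin N, F ((Int.divModEquiv N).symm p) :=
    ((Int.divModEquiv N).symm.tsum_eq F).symm
  have h4 : (∑' p : ℤ × Fin N, F ((Int.divModEquiv N).symm p))
      = ∑' p : Fin N × ℤ, F ((Int.divModEquiv N).symm (p.2, p.1)) :=
    ((Equiv.prodComm (Fin N) ℤ).tsum_eq
      (fun p : ℤ × Fin N => F ((Int.divModEquiv N).symm p))).symm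
  rw [h3, h4, hs3.tsum_prod, tsum_fintype, Finset.sum_range]
  refine Finset.sum_congr rfl ?_
  intro r _
  refine tsum_congr ?_
  intro k
  rw [Int.divModEquiv_symm_apply]
  congr 1
  ring

/-- `∑ g(n) exp(-π ε n²)` for `g` periodic modulo `N`. -/
lemma periodic_tendsto (N : ℕ) (hN : 0 < N) (g : ℤ → ℂ) (hg : ∀ n k : ℤ, g (N * k + n) = g n)
    (hb : ∀ n, ‖g n‖ ≤ 1) :
    Tendsto (fun ε : ℝ => (√ε : ℂ) * ∑' n : ℤ, g n * cexp (-π * ε * (n : ℂ) ^ 2)) (𝓝[>] 0)
      (𝓝 (1 / N * ∑ r ∈ Finset.range N, g r)) := by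
  have h1 : Tendsto (fun ε : ℝ => ∑ r ∈ Finset.range N, g r * ((√ε : ℂ) *
      ∑' k : ℤ, cexp (-π * ε * ((N : ℂ) * k + ((r : ℤ) : ℂ)) ^ 2))) (𝓝[>] 0)
      (𝓝 (∑ r ∈ Finset.range N, g r * (1 / N))) := by
    refine tendsto_finsetSum _ ?_
    intro r _
    exact (res_tendsto N hN r).const_mul _
  have h2 : (∑ r ∈ Finset.range N, g r * (1 / (N : ℂ))) = 1 / N * ∑ r ∈ Finset.range N, g r := by
    rw [Finset.mul_sum]
    refine Finset.sum_congr rfl ?_
    intro r _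
    ring
  rw [← h2]
  refine h1.congr' ?_
  filter_upwards [self_mem_nhdsWithin] with ε hε
  have hε : 0 < ε := hε
  have hs : Summable (fun n : ℤ => g n * cexp (-π * ε * (n : ℂ) ^ 2)) := by
    have h := (summable_exp_mul_sq (τ := ε * I) (by simpa using hε)).norm
    refine Summable.of_norm_bounded h ?_
    intro n
    rw [norm_mul]
    have : (π * I * (n : ℂ) ^ 2 * (ε * I) : ℂ) = -π * ε * (n : ℂ) ^ 2 := by
      linear_combination (π * (n : ℂ) ^ 2 * ε) * I_mul_I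
    rw [this]
    calc _ ≤ 1 * ‖cexp (-π * ε * (n : ℂ) ^ 2)‖ := by
          gcongr
          exact hb n
      _ = _ := one_mul _
  rw [tsum_residue N hN _ hs, Finset.mul_sum]
  refine Finset.sum_congr rfl ?_
  intro r _
  have h5 : ∀ k : ℤ, g (N * k + r) * cexp (-π * ε * ((N * k + r : ℤ) : ℂ) ^ 2)
      = g r * cexp (-π * ε * ((N : ℂ) * k + ((r : ℤ) : ℂ)) ^ 2) := by
    intro k
    rw [hg]
    push_cast
    rfl
  rw [tsum_congr h5, tsum_mul_left]
  ring

theorem gauss_eighth (a : ℕ) (ha : 0 < a) :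
    ∑ m ∈ Finset.range (2 * a), cexp (2 * π * I * ((m : ℂ) ^ 2 / (4 * a)))
      = (√(2 * a : ℝ) : ℂ) * cexp (2 * π * I / 8) := by
  have hac : (a : ℂ) ≠ 0 := by exact_mod_cast ha.ne'
  have har : (0 : ℝ) < a := by exact_mod_cast ha
  -- the left side
  have hL := periodic_tendsto (2 * a) (by omega)
    (fun n => cexp (2 * π * I * ((n : ℂ) ^ 2 / (4 * a)))) (by
      intro n k
      have : (2 * π * I * ((((2 * a : ℕ) * k + n : ℤ) : ℂ) ^ 2 / (4 * a)) : ℂ)
          = 2 * π * I * ((n : ℂ) ^ 2 / (4 * a)) + ((a * k ^ 2 + k * n : ℤ) : ℂ) * (2 * π * I) := by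
        push_cast
        field_simp
        ring
      simp only [this]
      rw [Complex.exp_add, Complex.exp_int_mul_two_pi_mul_I, mul_one]) (by
      intro n
      have : (2 * π * I * ((n : ℂ) ^ 2 / (4 * a)) : ℂ)
          = ((2 * π * ((n : ℝ) ^ 2 / (4 * a)) : ℝ) : ℂ) * I := by
        push_cast; ring
      rw [this, Complex.norm_exp_ofReal_mul_I])
  -- the right side
  let A : ℝ → ℂ := fun ε => ε - I / (2 * a)
  let w : ℝ → ℂ := fun ε => 4 * a ^ 2 / (1 + 2 * a * I * ε)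
  have hAt : Tendsto A (𝓝[>] 0) (𝓝 (-I / (2 * a))) := by
    have h : ContinuousAt A 0 := by
      apply Continuous.continuousAt
      fun_prop
    have h' := h.tendsto
    have h0 : A 0 = -I / (2 * a) := by simp [A, neg_div]
    rw [h0] at h'
    exact h'.mono_left nhdsWithin_le_nhds
  have hwt : Tendsto w (𝓝[>] 0) (𝓝 (4 * a ^ 2)) := by
    have h : ContinuousAt w 0 := by
      apply ContinuousAt.div
      · fun_prop
      · fun_prop
      · simp
    have h' := h.tendsto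
    have h0 : w 0 = 4 * a ^ 2 := by simp [w]
    rw [h0] at h'
    exact h'.mono_left nhdsWithin_le_nhds
  have hslit1 : (-I / (2 * a) : ℂ) ∈ slitPlane := by
    right
    have : (-I / (2 * a) : ℂ) = ((-(1 / (2 * a)) : ℝ) : ℂ) * I := by
      push_cast; ring
    rw [this, im_ofReal_mul, I_im, mul_one]
    have : (0 : ℝ) < 1 / (2 * a) := by positivity
    linarith
  have hslit2 : (4 * a ^ 2 : ℂ) ∈ slitPlane := by
    left
    have : (4 * a ^ 2 : ℂ) = ((4 * a ^ 2 : ℝ) : ℂ) := by push_cast; ring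
    rw [this, ofReal_re]
    positivity
  have hz : Tendsto (fun ε : ℝ => (1 / (ε * w ε)).re) (𝓝[>] 0) atTop := by
    have h1 : (fun ε : ℝ => (1 / (4 * (a : ℝ) ^ 2)) * ε⁻¹) =ᶠ[𝓝[>] 0]
        (fun ε : ℝ => (1 / (ε * w ε)).re) := by
      filter_upwards [self_mem_nhdsWithin] with ε hε
      have hε : 0 < ε := hε
      have hεc : (ε : ℂ) ≠ 0 := by exact_mod_cast hε.ne'
      have hne : (1 + 2 * a * I * ε : ℂ) ≠ 0 := by
        intro h
        have := congrArg Complex.re h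
        simp at this
      have : (1 / (ε * w ε) : ℂ) = ((1 / (4 * (a : ℝ) ^ 2) * ε⁻¹ : ℝ) : ℂ)
          + ((1 / (2 * a) : ℝ) : ℂ) * I := by
        simp only [w]
        push_cast
        field_simp
        ring
      rw [this, add_re, ofReal_re, re_ofReal_mul, I_re, mul_zero, add_zero]
    refine Tendsto.congr' h1 ?_
    exact Tendsto.const_mul_atTop (by positivity) tendsto_inv_nhdsGT_zero
  have hG := tendsto_gauss hz (fun _ => 1) (by intro n; simp)
  have hR : Tendsto (fun ε : ℝ => 1 / ((A ε) ^ (1 / 2 : ℂ) * (w ε) ^ (1 / 2 : ℂ))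
      * ∑' n : ℤ, (1 : ℂ) * cexp (-π * (1 / (ε * w ε)) * (n : ℂ) ^ 2)) (𝓝[>] 0)
      (𝓝 (1 / ((-I / (2 * a)) ^ (1 / 2 : ℂ) * (4 * a ^ 2 : ℂ) ^ (1 / 2 : ℂ)) * 1)) := by
    refine Tendsto.mul ?_ hG
    refine Tendsto.div tendsto_const_nhds ?_ ?_
    · refine Tendsto.mul ?_ ?_
      · exact hAt.cpow tendsto_const_nhds hslit1
      · exact hwt.cpow tendsto_const_nhds hslit2
    · have h1 : (-I / (2 * a) : ℂ) ≠ 0 := slitPlane_ne_zero hslit1
      have h2 : (4 * a ^ 2 : ℂ) ≠ 0 := slitPlane_ne_zero hslit2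
      refine mul_ne_zero ?_ ?_
      · rw [Ne, cpow_eq_zero_iff]
        tauto
      · rw [Ne, cpow_eq_zero_iff]
        tauto
  have heq : (fun ε : ℝ => (√ε : ℂ) * ∑' n : ℤ, cexp (2 * π * I * ((n : ℂ) ^ 2 / (4 * a)))
      * cexp (-π * ε * (n : ℂ) ^ 2)) =ᶠ[𝓝[>] 0] (fun ε : ℝ =>
      1 / ((A ε) ^ (1 / 2 : ℂ) * (w ε) ^ (1 / 2 : ℂ))
      * ∑' n : ℤ, (1 : ℂ) * cexp (-π * (1 / (ε * w ε)) * (n : ℂ) ^ 2)) := by
    filter_upwards [self_mem_nhdsWithin] with ε hε
    have hε : 0 < ε := hε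
    have hεc : (ε : ℂ) ≠ 0 := by exact_mod_cast hε.ne'
    have hne : (1 + 2 * a * I * ε : ℂ) ≠ 0 := by
      intro h
      have := congrArg Complex.re h
      simp at this
    have hAre : 0 < (A ε).re := by
      have : A ε = (ε : ℂ) + ((-(1 / (2 * a)) : ℝ) : ℂ) * I := by
        simp only [A]; push_cast; ring
      rw [this, add_re, ofReal_re, re_ofReal_mul, I_re, mul_zero, add_zero]
      exact hε
    have hAne : A ε ≠ 0 := by
      intro h
      rw [h] at hAre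
      simp at hAre
    have hAeq : A ε * (2 * a * I) = 1 + 2 * a * I * ε := by
      simp only [A]
      field_simp
      ring_nf
      rw [I_sq]
      ring
    have h1 := Complex.tsum_exp_neg_mul_int_sq hAre
    have hdre : 0 < ((ε : ℂ) * w ε).re := by
      have : ((ε : ℂ) * w ε) = ((4 * a ^ 2 * ε / (1 + (2 * a * ε) ^ 2) : ℝ) : ℂ)
          + ((-(4 * a ^ 2 * ε * (2 * a * ε)) / (1 + (2 * a * ε) ^ 2) : ℝ) : ℂ) * I := by
        have h0 : (1 + (2 * a * ε) ^ 2 : ℂ) = (1 + 2 * a * I * ε) * (1 - 2 * a * I * ε) := by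
          ring_nf
          rw [I_sq]
          ring
        have h0' : (1 + (2 * a * ε) ^ 2 : ℂ) ≠ 0 := by
          have : (0 : ℝ) < 1 + (2 * a * ε) ^ 2 := by positivity
          exact_mod_cast this.ne'
        simp only [w]
        push_cast
        rw [← mul_div_assoc, div_mul_eq_mul_div, ← add_div, div_eq_div_iff hne h0', h0]
        ring
      rw [this, add_re, ofReal_re, re_ofReal_mul, I_re, mul_zero, add_zero]
      positivity
    have h2 := Complex.tsum_exp_neg_mul_int_sq hdre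
    have h3 : ∀ n : ℤ, cexp (2 * π * I * ((n : ℂ) ^ 2 / (4 * a))) * cexp (-π * ε * (n : ℂ) ^ 2)
        = cexp (-π * A ε * (n : ℂ) ^ 2) := by
      intro n
      rw [← Complex.exp_add]
      congr 1
      simp only [A]
      field_simp
      ring
    have h4 : ∀ n : ℤ, cexp (-π / A ε * (n : ℂ) ^ 2) = cexp (-π * (ε * w ε) * (n : ℂ) ^ 2) := by
      intro n
      have h5 : 1 / A ε = 2 * a * I + ε * w ε := by
        rw [eq_comm, eq_div_iff hAne, add_mul]
        have h6 : (ε : ℂ) * w ε * A ε * (2 * a * I) = (ε : ℂ) * (4 * a ^ 2) := by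
          calc (ε : ℂ) * w ε * A ε * (2 * a * I) = (ε : ℂ) * w ε * (A ε * (2 * a * I)) := by ring
            _ = (ε : ℂ) * w ε * (1 + 2 * a * I * ε) := by rw [hAeq]
            _ = _ := by
              simp only [w]
              rw [mul_assoc, div_mul_cancel₀ _ hne]
        have h7 : (2 * a * I : ℂ) ≠ 0 := by
          simp [hac]
        have h8 : (ε : ℂ) * w ε * A ε = (ε : ℂ) * (4 * a ^ 2) / (2 * a * I) := by
          rw [eq_div_iff h7, h6]
        rw [h8]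
        have h9 : (2 * a * I : ℂ) * A ε = 1 + 2 * a * I * ε := by rw [mul_comm, hAeq]
        rw [h9]
        have h12 : (ε : ℂ) * (4 * a ^ 2) / (2 * a * I) = - 2 * a * I * ε := by
          rw [div_eq_iff h7]
          ring_nf
          rw [I_sq]
          ring
        rw [h12]
        ring
      have h10 : (-π / A ε * (n : ℂ) ^ 2 : ℂ)
          = -π * (ε * w ε) * (n : ℂ) ^ 2 + ((-(a * n ^ 2) : ℤ) : ℂ) * (2 * π * I) := by
        have : (-π / A ε * (n : ℂ) ^ 2 : ℂ) = -π * (1 / A ε) * (n : ℂ) ^ 2 := by ring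
        rw [this, h5]
        push_cast
        ring
      rw [h10, Complex.exp_add, Complex.exp_int_mul_two_pi_mul_I, mul_one]
    simp_rw [h3]
    rw [h1]
    simp_rw [h4]
    rw [h2]
    have hw : w ε ≠ 0 := by
      simp only [w]
      refine div_ne_zero ?_ hne
      exact slitPlane_ne_zero hslit2
    have h11 : ((ε : ℂ) * w ε) ^ (1 / 2 : ℂ) = (√ε : ℂ) * (w ε) ^ (1 / 2 : ℂ) := by
      rw [cpow_def_of_ne_zero (mul_ne_zero hεc hw), Complex.log_ofReal_mul hε hw, add_mul,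
        Complex.exp_add, ← cpow_def_of_ne_zero hw, ofReal_log hε.le,
        ← cpow_def_of_ne_zero hεc]
      congr 1
      have : (1 / 2 : ℂ) = ((1 / 2 : ℝ) : ℂ) := by push_cast; rfl
      rw [this, ← ofReal_cpow hε.le, ← Real.sqrt_eq_rpow]
    rw [h11]
    have hse : (√ε : ℂ) ≠ 0 := by
      have := Real.sqrt_pos.mpr hε
      exact_mod_cast this.ne'
    have h13 : ∀ n : ℤ, cexp (-π / (ε * w ε) * (n : ℂ) ^ 2)
        = (1 : ℂ) * cexp (-π * (1 / (ε * w ε)) * (n : ℂ) ^ 2) := by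
      intro n
      rw [one_mul]
      congr 1
      ring
    simp_rw [h13]
    have h14 : (A ε) ^ (1 / 2 : ℂ) ≠ 0 := by
      rw [Ne, cpow_eq_zero_iff]; tauto
    have h15 : (w ε) ^ (1 / 2 : ℂ) ≠ 0 := by
      rw [Ne, cpow_eq_zero_iff]; tauto
    generalize (∑' n : ℤ, (1 : ℂ) * cexp (-π * (1 / (ε * w ε)) * (n : ℂ) ^ 2)) = X
    generalize (A ε) ^ (1 / 2 : ℂ) = Y at *
    generalize (w ε) ^ (1 / 2 : ℂ) = Z at *
    field_simp
  have hL' := hL.congr' heq
  have huniq := tendsto_nhds_unique hL' hR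
  have h16 : (4 * a ^ 2 : ℂ) ^ (1 / 2 : ℂ) = 2 * a := by
    have h1 : (4 * a ^ 2 : ℂ) = ((((2 * a) ^ 2 : ℝ)) : ℂ) := by push_cast; ring
    have h2 : (1 / 2 : ℂ) = ((1 / 2 : ℝ) : ℂ) := by push_cast; rfl
    rw [h1, h2, ← ofReal_cpow (by positivity), ← Real.sqrt_eq_rpow, Real.sqrt_sq (by positivity)]
    push_cast
    rfl
  have h17 : (-I / (2 * a) : ℂ) ^ (1 / 2 : ℂ)
      = cexp (-(2 * π * I / 8)) * ((√(2 * a : ℝ) : ℝ) : ℂ)⁻¹ := by
    have h1 : (-I / (2 * a) : ℂ) = (((2 * a : ℝ)⁻¹ : ℝ) : ℂ) * (-I) := by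
      push_cast
      ring
    have h3 : (0 : ℝ) < (2 * a : ℝ)⁻¹ := by positivity
    rw [cpow_def_of_ne_zero (slitPlane_ne_zero hslit1), h1, Complex.log_ofReal_mul h3 (by simp),
      Complex.log_neg_I, add_mul, Complex.exp_add, mul_comm]
    congr 1
    · congr 1
      ring
    · rw [ofReal_log h3.le, ← cpow_def_of_ne_zero (by exact_mod_cast h3.ne')]
      have h2 : (1 / 2 : ℂ) = ((1 / 2 : ℝ) : ℂ) := by push_cast; rfl
      rw [h2, ← ofReal_cpow h3.le, ← Real.sqrt_eq_rpow, Real.sqrt_inv]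
      push_cast
      rfl
  rw [h16, h17, mul_one] at huniq
  have h18 : ((√(2 * a : ℝ) : ℝ) : ℂ) ≠ 0 := by
    have : 0 < √(2 * a : ℝ) := Real.sqrt_pos.mpr (by positivity)
    exact_mod_cast this.ne'
  have h19 : cexp (-(2 * π * I / 8)) * cexp (2 * π * I / 8) = 1 := by
    rw [← Complex.exp_add, neg_add_cancel, Complex.exp_zero]
  have h20 : ∑ m ∈ Finset.range (2 * a), cexp (2 * π * I * ((m : ℂ) ^ 2 / (4 * a)))
      = ∑ m ∈ Finset.range (2 * a), cexp (2 * π * I * ((((m : ℕ) : ℤ) : ℂ) ^ 2 / (4 * a))) := by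
    refine Finset.sum_congr rfl ?_
    intro m _
    push_cast
    rfl
  rw [h20]
  generalize (∑ m ∈ Finset.range (2 * a),
    cexp (2 * π * I * ((((m : ℕ) : ℤ) : ℂ) ^ 2 / (4 * a)))) = X at *
  have h21 : (((2 * a : ℕ) : ℂ)) ≠ 0 := by exact_mod_cast (by omega : 2 * a ≠ 0)
  have h22 : (((2 * a : ℕ) : ℂ)) = 2 * a := by push_cast; rfl
  rw [h22] at huniq
  have h23 : X = (√(2 * a : ℝ) : ℂ) * (cexp (-(2 * π * I / 8)))⁻¹ := by
    have h24 : cexp (-(2 * π * I / 8)) ≠ 0 := Complex.exp_ne_zero _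
    field_simp at huniq ⊢
    exact huniq
  rw [h23, Complex.exp_neg, inv_inv]

end Pool.Agent.Lib.MP_2f3286_ag.UA
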