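import Pool.Agent.Lib.MP_2f3286_ag.UA.PDefs
import Pool.Agent.Lib.MP_2f3286_ag.UA.G10

/-!
# (G9): the total Gauss sum of `T(c x y)` is a positive real number when `i ∈ k`
-/

namespace Pool.Agent.Lib.MP_2f3286_ag.UA

open Complex NumberField Module
open scoped Real ComplexConjugate

/-- one dimensional sum with sign -/
lemma gauss_one (a : ℤ) (ha : a ≠ 0) :
    ∑ m ∈ Finset.range (2 * a.natAbs), ee ((m : ℚ) ^ 2 / (4 * a))
      = ((√(2 * (a.natAbs : ℝ)) : ℝ) : ℂ) * ee ((a.sign : ℚ) / 8) := by
  rcases lt_or_gt_of_ne ha with h | h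
  · have h1 := gauss_eighth a.natAbs (Int.natAbs_pos.mpr ha)
    have h2 : (a : ℚ) = -(a.natAbs : ℚ) := by
      have h3 : a = -(a.natAbs : ℤ) := by omega
      have h4 : (a : ℚ) = ((-(a.natAbs : ℤ) : ℤ) : ℚ) := by rw [← h3]
      rw [h4, Int.cast_neg, Int.cast_natCast]
    rw [Int.sign_eq_neg_one_of_neg h]
    have h4 := congrArg (starRingEnd ℂ) h1
    rw [map_sum, map_mul, Complex.conj_ofReal] at h4
    have h5 : ee (((-1 : ℤ) : ℚ) / 8) = starRingEnd ℂ (cexp (2 * π * I / 8)) := by
      have : (((-1 : ℤ) : ℚ) / 8) = -(1 / 8) := by push_cast; ring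
      rw [this, ee_neg, ee]
      congr 2
      push_cast
      ring
    rw [h5, ← h4]
    refine Finset.sum_congr rfl ?_
    intro m _
    have : ((m : ℚ) ^ 2 / (4 * a)) = -((m : ℚ) ^ 2 / (4 * a.natAbs)) := by
      rw [h2]
      ring
    rw [this, ee_neg, ee]
    congr 2
    push_cast
    ring
  · have h1 := gauss_eighth a.natAbs (Int.natAbs_pos.mpr ha)
    have h2 : (a : ℚ) = (a.natAbs : ℚ) := by
      have h3 : a = (a.natAbs : ℤ) := by omega
      have h4 : (a : ℚ) = (((a.natAbs : ℤ) : ℤ) : ℚ) := by rw [← h3]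
      rw [h4, Int.cast_natCast]
    rw [Int.sign_eq_one_of_pos h]
    have h5 : ee (((1 : ℤ) : ℚ) / 8) = cexp (2 * π * I / 8) := by
      rw [ee]
      congr 1
      push_cast
      ring
    rw [h5, ← h1]
    refine Finset.sum_congr rfl ?_
    intro m _
    rw [ee, h2]
    congr 1
    push_cast
    ring

/-- the Gauss sum of a diagonal form -/
theorem GS_diag {V ι : Type*} [AddCommGroup V] [Module ℚ V] [Fintype ι] (e : Basis ι ℚ V)
    (b : V →+ V →+ ℚ) (symm : ∀ x y, b x y = b y x) (a : ι → ℤ) (ha : ∀ i, a i ≠ 0)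
    (hb : ∀ i, b (e i) (e i) = a i) (hb' : ∀ i j, i ≠ j → b (e i) (e j) = 0)
    (L D : AddSubgroup V) (hL : ∀ x, x ∈ L ↔ ∀ i, IsZ (e.repr x i))
    (hD : ∀ y, y ∈ D ↔ ∀ i, IsZ (2 * a i * e.repr y i)) :
    GOK b D L ∧ GS b D L = ∏ i, (((√(2 * ((a i).natAbs : ℝ)) : ℝ) : ℂ)
      * ee (((a i).sign : ℚ) / 8)) := by
  classical
  -- the form in coordinates
  have hform : ∀ x y, b x y = ∑ i, a i * (e.repr x i) * (e.repr y i) := by
    intro x y
    conv_lhs => rw [← e.sum_repr x, ← e.sum_repr y]
    simp only [map_sum, AddMonoidHom.finsetSum_apply]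
    refine Finset.sum_congr rfl ?_
    intro i _
    rw [Finset.sum_eq_single i]
    · rw [map_rat_smul, map_rat_smul, AddMonoidHom.smul_apply, hb]
      simp only [smul_eq_mul]
      ring
    · intro j _ hj
      rw [map_rat_smul, map_rat_smul, AddMonoidHom.smul_apply, hb' j i hj]
      simp
    · intro h
      exact absurd (Finset.mem_univ i) h
  let t : (ι → ℕ) → V := fun m => ∑ i, ((m i : ℚ) / (2 * a i)) • e i
  have htr : ∀ m i, e.repr (t m) i = (m i : ℚ) / (2 * a i) := by
    intro m i
    simp only [t]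
    rw [e.repr_sum_self]
  let P := Fintype.piFinset (fun i => Finset.range (2 * (a i).natAbs))
  have hinj : ∀ m ∈ P, ∀ m' ∈ P, t m - t m' ∈ L → m = m' := by
    intro m hm m' hm' h
    funext i
    have h1 := (hL _).mp h i
    rw [map_sub, Finsupp.sub_apply, htr, htr] at h1
    obtain ⟨n, hn⟩ := h1
    have hai : (a i : ℚ) ≠ 0 := by exact_mod_cast ha i
    have h2 : (m i : ℚ) - m' i = n * (2 * a i) := by
      field_simp at hn
      linarith
    have h3 : (m i : ℤ) - m' i = n * (2 * a i) := by exact_mod_cast h2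
    have h4 := Finset.mem_range.mp (Fintype.mem_piFinset.mp hm i)
    have h5 := Finset.mem_range.mp (Fintype.mem_piFinset.mp hm' i)
    have h6 : ((2 * (a i).natAbs : ℕ) : ℤ) ∣ (m i : ℤ) - m' i := by
      rw [h3]
      refine Dvd.dvd.mul_left ?_ n
      push_cast
      exact mul_dvd_mul_left 2 (abs_dvd_self (a i))
    have h7 : ((m' i : ℤ)) ≡ m i [ZMOD ((2 * (a i).natAbs : ℕ) : ℤ)] := by
      rw [Int.modEq_iff_dvd]
      exact h6
    have h8 := (Int.natCast_modEq_iff.mp h7)
    rw [Nat.ModEq, Nat.mod_eq_of_lt h5, Nat.mod_eq_of_lt h4] at h8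
    exact h8.symm
  have hT : IsTrv D L (P.image t) := by
    constructor
    · intro x hx
      obtain ⟨m, hm, rfl⟩ := Finset.mem_image.mp hx
      rw [hD]
      intro i
      rw [htr]
      have hai : (a i : ℚ) ≠ 0 := by exact_mod_cast ha i
      have : 2 * (a i : ℚ) * ((m i : ℚ) / (2 * a i)) = (m i : ℚ) := by
        field_simp
      rw [this]
      exact IsZ.nat _
    · intro y hy
      rw [hD] at hy
      choose n hn using hy
      have hpos : ∀ i, (0 : ℤ) < ((2 * (a i).natAbs : ℕ) : ℤ) := by
        intro i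
        have := Int.natAbs_pos.mpr (ha i)
        exact_mod_cast (by omega : 0 < 2 * (a i).natAbs)
      let m : ι → ℕ := fun i => (n i % ((2 * (a i).natAbs : ℕ) : ℤ)).toNat
      have hm0 : ∀ i, ((m i : ℕ) : ℤ) = n i % ((2 * (a i).natAbs : ℕ) : ℤ) := by
        intro i
        exact Int.toNat_of_nonneg (Int.emod_nonneg _ (hpos i).ne')
      have hmP : m ∈ P := by
        rw [Fintype.mem_piFinset]
        intro i
        rw [Finset.mem_range]
        have h1 := Int.emod_lt_of_pos (n i) (hpos i)
        rw [← hm0] at h1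
        exact_mod_cast h1
      have hyL : y - t m ∈ L := by
        rw [hL]
        intro i
        rw [map_sub, Finsupp.sub_apply, htr]
        have hai : (a i : ℚ) ≠ 0 := by exact_mod_cast ha i
        have h1 : (2 * a i : ℤ) ∣ n i - m i := by
          rw [hm0]
          have h2 : ((2 * (a i).natAbs : ℕ) : ℤ) ∣ n i - n i % ((2 * (a i).natAbs : ℕ) : ℤ) :=
            Int.dvd_self_sub_emod
          refine Dvd.dvd.trans ?_ h2
          push_cast
          exact mul_dvd_mul_left 2 (self_dvd_abs (a i))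
        obtain ⟨q, hq⟩ := h1
        refine ⟨q, ?_⟩
        have h3 : (n i : ℚ) - m i = 2 * a i * q := by exact_mod_cast hq
        have h4 := hn i
        have h5 : e.repr y i = (n i : ℚ) / (2 * a i) := by
          rw [h4]
          field_simp
        rw [h5]
        field_simp
        linarith
      refine ⟨t m, ⟨Finset.mem_image_of_mem _ hmP, hyL⟩, ?_⟩
      rintro w ⟨hw1, hw2⟩
      obtain ⟨m', hm', rfl⟩ := Finset.mem_image.mp hw1
      have h1 : t m' - t m ∈ L := by
        have : t m' - t m = (y - t m) - (y - t m') := by abel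
        rw [this]
        exact L.sub_mem hyL hw2
      rw [hinj m' hm' m hmP h1]
  have hLD : L ≤ D := by
    intro x hx
    rw [hL] at hx
    rw [hD]
    intro i
    have h2 : IsZ (2 * (a i : ℚ)) := ⟨2 * a i, by push_cast; ring⟩
    exact h2.mul (hx i)
  have hsumZ : ∀ (s : Finset ι) (f : ι → ℚ), (∀ i, IsZ (f i)) → IsZ (∑ i ∈ s, f i) := by
    intro s f hf
    induction s using Finset.induction_on with
    | empty => simpa using IsZ.zero
    | insert i s his ih =>
      rw [Finset.sum_insert his]
      exact (hf i).add ih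
  have hG : GOK b D L := by
    refine ⟨hLD, hT.relIndex_ne_zero, symm, ?_, ?_⟩
    · intro x hx
      rw [hL] at hx
      rw [hform]
      refine hsumZ _ _ ?_
      intro i
      exact ((IsZ.int (a i)).mul (hx i)).mul (hx i)
    · intro x hx y hy
      rw [hL] at hx
      rw [hD] at hy
      rw [hform, Finset.mul_sum]
      refine hsumZ _ _ ?_
      intro i
      have : 2 * (a i * e.repr x i * e.repr y i) = e.repr x i * (2 * a i * e.repr y i) := by ring
      rw [this]
      exact (hx i).mul (hy i)
  refine ⟨hG, ?_⟩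
  rw [GS_eq_sum hG hT, Finset.sum_image]
  · have h1 : ∀ m ∈ P, ee (b (t m) (t m)) = ∏ i, ee ((m i : ℚ) ^ 2 / (4 * a i)) := by
      intro m _
      have hprod : ∀ (s : Finset ι) (f : ι → ℚ), ee (∑ i ∈ s, f i) = ∏ i ∈ s, ee (f i) := by
        intro s f
        induction s using Finset.induction_on with
        | empty => simp [ee_zero]
        | insert i s his ih => rw [Finset.sum_insert his, Finset.prod_insert his, ee_add, ih]
      rw [hform, hprod]
      refine Finset.prod_congr rfl ?_
      intro i _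
      rw [htr]
      congr 1
      have hai : (a i : ℚ) ≠ 0 := by exact_mod_cast ha i
      field_simp
      ring
    rw [Finset.sum_congr rfl h1]
    have h2 := Finset.prod_univ_sum (fun i => Finset.range (2 * (a i).natAbs))
      (fun i (m : ℕ) => ee ((m : ℚ) ^ 2 / (4 * a i)))
    rw [← h2]
    refine Finset.prod_congr rfl ?_
    intro i _
    exact gauss_one (a i) (ha i)
  · intro x hx y hy hxy
    exact hinj x hx y hy (by
      have hxy' : t x = t y := hxy
      rw [hxy', sub_self]; exact L.zero_mem)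

/-- signature: a `J` with `q(J x) = -q(x)` bounds the number of positive coefficients -/
lemma two_mul_card_pos_le {V ι : Type*} [AddCommGroup V] [Module ℚ V] [Fintype ι]
    (e : Basis ι ℚ V) (J : V →ₗ[ℚ] V) (a : ι → ℚ)
    (hJ : ∀ x, ∑ i, a i * (e.repr (J x) i) ^ 2 = -∑ i, a i * (e.repr x i) ^ 2) :
    2 * Fintype.card {i // 0 < a i} ≤ Fintype.card ι := by
  classical
  let P := {i // 0 < a i}
  let E : (P → ℚ) →ₗ[ℚ] V := Fintype.linearCombination ℚ (fun i : P => e i.1)
  have hE : ∀ u, E u = ∑ i : P, u i • e i.1 := fun u => by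
    simp only [E]
    rw [Fintype.linearCombination_apply]
  have hEr : ∀ u i, e.repr (E u) i = if h : 0 < a i then u ⟨i, h⟩ else 0 := by
    intro u i
    rw [hE, map_sum, Finsupp.finsetSum_apply]
    simp only [map_smul, Finsupp.smul_apply, Basis.repr_self, smul_eq_mul]
    by_cases h : 0 < a i
    · rw [dif_pos h, Finset.sum_eq_single (⟨i, h⟩ : P)]
      · simp
      · intro j _ hj
        rw [Finsupp.single_eq_of_ne, mul_zero]
        intro h2
        exact hj (Subtype.ext h2.symm)
      · intro h2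
        exact absurd (Finset.mem_univ _) h2
    · rw [dif_neg h]
      refine Finset.sum_eq_zero ?_
      intro j _
      rw [Finsupp.single_eq_of_ne, mul_zero]
      intro h2
      exact h (h2 ▸ j.2)
  have hq : ∀ u, ∑ i, a i * (e.repr (E u) i) ^ 2 = ∑ i : P, a i.1 * (u i) ^ 2 := by
    intro u
    symm
    refine Fintype.sum_of_injective (fun i : P => i.1) Subtype.val_injective _ _ ?_ ?_
    · intro i hi
      rw [hEr, dif_neg]
      · simp
      · intro h
        exact hi ⟨⟨i, h⟩, rfl⟩
    · intro i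
      rw [hEr, dif_pos i.2]
  have hq0 : ∀ u : P → ℚ, 0 ≤ ∑ i : P, a i.1 * (u i) ^ 2 := by
    intro u
    refine Finset.sum_nonneg ?_
    intro i _
    have := i.2
    positivity
  have hqz : ∀ u : P → ℚ, ∑ i : P, a i.1 * (u i) ^ 2 = 0 → u = 0 := by
    intro u hu
    rw [Finset.sum_eq_zero_iff_of_nonneg (by
      intro i _
      have := i.2
      positivity)] at hu
    funext i
    have h1 := hu i (Finset.mem_univ i)
    rcases mul_eq_zero.mp h1 with h2 | h2
    · exact absurd h2 i.2.ne'
    · simpa using h2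
  let φ : (P → ℚ) × (P → ℚ) →ₗ[ℚ] V := E.comp (LinearMap.fst ℚ _ _) + (J.comp E).comp
    (LinearMap.snd ℚ _ _)
  have hφ : ∀ u w, φ (u, w) = E u + J (E w) := by
    intro u w
    simp [φ]
  have hinj : Function.Injective φ := by
    rw [← LinearMap.ker_eq_bot, LinearMap.ker_eq_bot']
    rintro ⟨u, w⟩ h
    rw [hφ] at h
    have h1 : E u = -(J (E w)) := eq_neg_of_add_eq_zero_left h
    have h2 : ∑ i, a i * (e.repr (E u) i) ^ 2 = -∑ i, a i * (e.repr (E w) i) ^ 2 := by
      rw [← hJ, h1]
      refine Finset.sum_congr rfl ?_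
      intro i _
      rw [map_neg, Finsupp.neg_apply, neg_sq]
    rw [hq, hq] at h2
    have h3 := hq0 u
    have h4 := hq0 w
    have h5 := hqz u (by linarith)
    have h6 := hqz w (by linarith)
    rw [h5, h6]
    rfl
  have hfd : FiniteDimensional ℚ V := Module.Basis.finiteDimensional_of_finite e
  have h := LinearMap.finrank_le_finrank_of_injective hinj
  rw [Module.finrank_prod, Module.finrank_fintype_fun_eq_card, Module.finrank_eq_card_basis e] at h
  have h7 : Fintype.card P = Fintype.card {i // 0 < a i} := Fintype.card_congr (Equiv.refl _)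
  omega

theorem G9_general {k : Type*} [Field k] [NumberField k] (i : k) (hi : i ^ 2 = -1) (c : k)
    (hc : c ≠ 0) (hci : IsIntegral ℤ c) (b : k →+ k →+ ℚ)
    (hb : ∀ x y, b x y = Algebra.trace ℚ k (c * x * y)) (D L : AddSubgroup k)
    (hL : ∀ x, x ∈ L ↔ IsIntegral ℤ x) (hD : ∀ y, y ∈ D ↔ ∀ x ∈ L, IsZ (2 * b y x)) :
    GOK b D L ∧ ∃ r : ℝ, 0 < r ∧ GS b D L = r := by
  classical
  have symm : ∀ x y, b x y = b y x := by
    intro x y
    rw [hb, hb]
    congr 1
    ring
  -- the trace of an integral element is an integer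
  have htr : ∀ x : k, IsIntegral ℤ x → IsZ (Algebra.trace ℚ k x) := by
    intro x hx
    have h1 : IsIntegral ℤ (Algebra.trace ℚ k x) := Algebra.isIntegral_trace hx
    obtain ⟨n, hn⟩ := IsIntegrallyClosed.isIntegral_iff.mp h1
    exact ⟨n, by simpa using hn⟩
  let B : LinearMap.BilinForm ℚ k :=
    (Algebra.traceForm ℚ k).compLeft (LinearMap.mulLeft ℚ c)
  have hB : ∀ x y, B x y = b x y := by
    intro x y
    rw [hb]
    simp [B, LinearMap.BilinForm.compLeft_apply, Algebra.traceForm_apply]
  have hBs : B.IsSymm := ⟨fun x y => by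
    rw [hB, hB, symm]⟩
  obtain ⟨v, hv⟩ := LinearMap.BilinForm.exists_orthogonal_basis (K := ℚ) (V := k) (B := B)
    (LinearMap.BilinForm.isSymm_iff.mp hBs)
  have halg : Algebra.IsAlgebraic ℤ k :=
    (IsFractionRing.comap_isAlgebraic_iff (A := ℤ) (K := ℚ) (C := k)).mpr inferInstance
  obtain ⟨N, hN, hNi⟩ := Algebra.IsAlgebraic.exists_integral_multiples (R := ℤ) (A := k)
    (Finset.univ.image v)
  have hNq : (N : ℚ) ≠ 0 := by exact_mod_cast hN
  let e := v.isUnitSMul (w := fun _ => (N : ℚ)) (fun _ => isUnit_iff_ne_zero.mpr hNq)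
  have he : ∀ j, e j = (N : ℚ) • v j := fun j => Basis.isUnitSMul_apply _ j
  have hei : ∀ j, IsIntegral ℤ (e j) := by
    intro j
    rw [he]
    have h1 := hNi (v j) (Finset.mem_image_of_mem _ (Finset.mem_univ j))
    have h2 : (N : ℚ) • v j = N • v j := by
      rw [zsmul_eq_mul, Algebra.smul_def]
      simp
    rwa [h2]
  have hortho : ∀ j l, j ≠ l → b (e j) (e l) = 0 := by
    intro j l hjl
    rw [he, he, map_rat_smul, map_rat_smul, AddMonoidHom.smul_apply, ← hB]
    have h1 : B (v j) (v l) = 0 := hv hjl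
    rw [h1]
    simp
  have hdiag : ∀ j, IsZ (b (e j) (e j)) := by
    intro j
    rw [hb]
    exact htr _ ((hci.mul (hei j)).mul (hei j))
  choose a ha using hdiag
  have hform : ∀ x y, b x y = ∑ j, a j * (e.repr x j) * (e.repr y j) := by
    intro x y
    conv_lhs => rw [← e.sum_repr x, ← e.sum_repr y]
    simp only [map_sum, AddMonoidHom.finsetSum_apply]
    refine Finset.sum_congr rfl ?_
    intro j _
    rw [Finset.sum_eq_single j]
    · rw [map_rat_smul, map_rat_smul, AddMonoidHom.smul_apply, ← ha]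
      simp only [smul_eq_mul]
      ring
    · intro l _ hl
      rw [map_rat_smul, map_rat_smul, AddMonoidHom.smul_apply, hortho l j hl]
      simp
    · intro h
      exact absurd (Finset.mem_univ j) h
  have ha0 : ∀ j, a j ≠ 0 := by
    intro j h0
    have h1 : ∀ y, b (e j) y = 0 := by
      intro y
      rw [hform, Finset.sum_eq_zero]
      intro l _
      rw [Basis.repr_self]
      by_cases hl : j = l
      · subst hl
        rw [h0]
        simp
      · rw [Finsupp.single_eq_of_ne (Ne.symm hl)]
        simp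
    have h2 : ∀ y, Algebra.traceForm ℚ k (c * e j) y = 0 := by
      intro y
      rw [Algebra.traceForm_apply, ← hb, h1]
    have h3 : c * e j = 0 := (traceForm_nondegenerate ℚ k).1 _ h2
    rcases mul_eq_zero.mp h3 with h4 | h4
    · exact hc h4
    · exact e.ne_zero j h4
  let L' : AddSubgroup k :=
    { carrier := {x | ∀ j, IsZ (e.repr x j)}
      add_mem' := fun {x y} hx hy j => by
        rw [map_add, Finsupp.add_apply]; exact (hx j).add (hy j)
      zero_mem' := fun j => by simpa using IsZ.zero
      neg_mem' := fun {x} hx j => by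
        rw [map_neg, Finsupp.neg_apply]; exact (hx j).neg }
  let D' : AddSubgroup k :=
    { carrier := {y | ∀ j, IsZ (2 * a j * e.repr y j)}
      add_mem' := fun {x y} hx hy j => by
        rw [map_add, Finsupp.add_apply, mul_add]; exact (hx j).add (hy j)
      zero_mem' := fun j => by simpa using IsZ.zero
      neg_mem' := fun {x} hx j => by
        rw [map_neg, Finsupp.neg_apply, mul_neg]; exact (hx j).neg }
  obtain ⟨hG', hGS'⟩ := GS_diag e b symm a ha0 (fun j => (ha j).symm) hortho L' D'
    (fun x => Iff.rfl) (fun y => Iff.rfl)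
  have hbe : ∀ y j, b y (e j) = a j * e.repr y j := by
    intro y j
    rw [hform, Finset.sum_eq_single j]
    · rw [Basis.repr_self]
      simp
    · intro l _ hl
      rw [Basis.repr_self, Finsupp.single_eq_of_ne hl]
      simp
    · intro h
      exact absurd (Finset.mem_univ j) h
  have hL'L : L' ≤ L := by
    intro x hx
    rw [hL]
    have hx' : ∀ j, IsZ (e.repr x j) := hx
    choose n hn using hx'
    rw [← e.sum_repr x]
    refine IsIntegral.sum _ ?_
    intro j _
    rw [← hn j, Algebra.smul_def, eq_ratCast, Rat.cast_intCast]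
    exact (isIntegral_algebraMap (R := ℤ) (A := k) (x := n j)).mul (hei j)
  have hbZ : ∀ x y, IsIntegral ℤ x → IsIntegral ℤ y → IsZ (b x y) := by
    intro x y hx hy
    rw [hb]
    exact htr _ ((hci.mul hx).mul hy)
  have h2Z : IsZ 2 := ⟨2, by norm_num⟩
  have hLD' : L ≤ D' := by
    intro y hy j
    rw [hL] at hy
    have h1 : 2 * (a j : ℚ) * e.repr y j = 2 * b y (e j) := by
      rw [hbe]; ring
    rw [h1]
    exact h2Z.mul (hbZ y (e j) hy (hei j))
  obtain ⟨-, -, hri, hG, hGS⟩ := G1 hG' hL'L hLD'
    (fun x hx => hbZ x x ((hL x).mp hx) ((hL x).mp hx)) (M' := D) (by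
      intro y
      rw [hD]
      constructor
      · intro h
        refine ⟨?_, h⟩
        intro j
        have h1 : 2 * (a j : ℚ) * e.repr y j = 2 * b y (e j) := by
          rw [hbe]; ring
        rw [h1]
        exact h _ ((hL _).mpr (hei j))
      · intro h
        exact h.2)
  refine ⟨hG, ?_⟩
  -- the signs
  have hJ : ∀ x, ∑ j, (a j : ℚ) * (e.repr (LinearMap.mulLeft ℚ i x) j) ^ 2
      = -∑ j, (a j : ℚ) * (e.repr x j) ^ 2 := by
    intro x
    have h1 : b (i * x) (i * x) = -b x x := by
      rw [hb, hb]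
      have : c * (i * x) * (i * x) = -(c * x * x) := by
        linear_combination (c * x * x) * hi
      rw [this, map_neg]
    rw [hform, hform] at h1
    simp only [LinearMap.mulLeft_apply]
    simp only [mul_assoc, ← pow_two] at h1 ⊢
    exact h1
  have hp := two_mul_card_pos_le e (LinearMap.mulLeft ℚ i) (fun j => (a j : ℚ)) hJ
  have hn := two_mul_card_pos_le e (LinearMap.mulLeft ℚ i) (fun j => -(a j : ℚ)) (by
    intro x
    simp only [neg_mul, Finset.sum_neg_distrib]
    rw [hJ])
  have hsum : ∑ j, (a j).sign = 0 := by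
    have h1 : ∀ j, (a j).sign = (if 0 < (a j : ℚ) then 1 else 0) - (if 0 < -(a j : ℚ) then 1 else 0) := by
      intro j
      rcases lt_or_gt_of_ne (ha0 j) with h | h
      · have h2 : (a j : ℚ) < 0 := by exact_mod_cast h
        rw [Int.sign_eq_neg_one_of_neg h, if_neg (by linarith), if_pos (by linarith)]
        rfl
      · have h2 : (0 : ℚ) < a j := by exact_mod_cast h
        rw [Int.sign_eq_one_of_pos h, if_pos h2, if_neg (by linarith)]
        rfl
    have hcard : Fintype.card {j // 0 < (a j : ℚ)} + Fintype.card {j // 0 < -(a j : ℚ)}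
        = Fintype.card (Fin (finrank ℚ k)) := by
      rw [Fintype.card_subtype, Fintype.card_subtype, ← Finset.card_union_of_disjoint]
      · rw [← Finset.card_univ]
        congr 1
        ext j
        simp only [Finset.mem_union, Finset.mem_filter, Finset.mem_univ, true_and, iff_true]
        rcases lt_or_gt_of_ne (ha0 j) with h | h
        · right
          have h2 : (a j : ℚ) < 0 := by exact_mod_cast h
          linarith
        · left
          exact_mod_cast h
      · rw [Finset.disjoint_filter]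
        intro j _ h1 h2
        linarith
    rw [Finset.sum_congr rfl (fun j _ => h1 j), Finset.sum_sub_distrib, Finset.sum_boole,
      Finset.sum_boole]
    rw [Fintype.card_subtype] at hp hn
    rw [Fintype.card_subtype, Fintype.card_subtype] at hcard
    have h3 : (Finset.univ.filter (fun j => 0 < (a j : ℚ))).card
        = (Finset.univ.filter (fun j => 0 < -(a j : ℚ))).card := by omega
    rw [h3, sub_self]
  have hee : ∏ j, ee (((a j).sign : ℚ) / 8) = 1 := by
    have hprod : ∀ (s : Finset (Fin (finrank ℚ k))) (f : Fin (finrank ℚ k) → ℚ),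
        ee (∑ j ∈ s, f j) = ∏ j ∈ s, ee (f j) := by
      intro s f
      induction s using Finset.induction_on with
      | empty => simp [ee_zero]
      | insert j s hjs ih => rw [Finset.sum_insert hjs, Finset.prod_insert hjs, ee_add, ih]
    rw [← hprod, ← Finset.sum_div]
    have : ∑ j, ((a j).sign : ℚ) = 0 := by exact_mod_cast hsum
    rw [this, zero_div, ee_zero]
  rw [hGS', Finset.prod_mul_distrib, hee, mul_one] at hGS
  have hri' : (0 : ℝ) < (L'.relIndex L : ℝ) := by
    exact_mod_cast Nat.pos_of_ne_zero hri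
  refine ⟨(∏ j, √(2 * ((a j).natAbs : ℝ))) / (L'.relIndex L : ℝ), ?_, ?_⟩
  · refine div_pos ?_ hri'
    refine Finset.prod_pos ?_
    intro j _
    refine Real.sqrt_pos.mpr ?_
    have : (0 : ℝ) < (a j).natAbs := by exact_mod_cast Int.natAbs_pos.mpr (ha0 j)
    positivity
  · have h5 : ((L'.relIndex L : ℕ) : ℂ) ≠ 0 := by exact_mod_cast hri
    push_cast
    rw [eq_div_iff h5, mul_comm, ← hGS]

/-- (G9) with the definitions of part I -/
theorem G9 {k : Type*} [Field k] [NumberField k] (i : k) (hi : i ^ 2 = -1) (c : 𝓞 k)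
    (hc : c ≠ 0) (_h : GOK (bf (c : k)) (DT (bf (c : k)) (ZL k)) (ZL k)) :
    Pos (GS (bf (c : k)) (DT (bf (c : k)) (ZL k)) (ZL k)) := by
  have hmem : ∀ x : k, x ∈ ZL k ↔ IsIntegral ℤ x := by
    intro x
    rw [mem_ZL]
    constructor
    · rintro ⟨r, rfl⟩
      exact RingOfIntegers.isIntegral_coe r
    · intro hx
      exact ⟨⟨x, hx⟩, rfl⟩
  exact (G9_general i hi (c : k) (RingOfIntegers.coe_ne_zero_iff.mpr hc)
    (RingOfIntegers.isIntegral_coe c) (bf (c : k)) (fun x y => rfl) _ _ hmem
    (fun y => Iff.rfl)).2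

end Pool.Agent.Lib.MP_2f3286_ag.UA
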