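import Mathlib

/-!
# Gauss sums of quadratic forms on finite quotients (text I.1: (G1), (G2))

`GS b D L = ∑_{y ∈ D/L} e(b(y, y))`.
-/

namespace Pool.Agent.Lib.MP_2f3286_ag.UA

open Complex
open scoped Real

/-- `e(t) = exp(2 π i t)` -/
noncomputable def ee (t : ℚ) : ℂ := cexp (2 * π * I * (t : ℂ))

/-- `t` is an integer -/
def IsZ (t : ℚ) : Prop := ∃ n : ℤ, (n : ℚ) = t

lemma IsZ.zero : IsZ 0 := ⟨0, by simp⟩

lemma IsZ.add {s t : ℚ} (hs : IsZ s) (ht : IsZ t) : IsZ (s + t) := by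
  obtain ⟨m, rfl⟩ := hs
  obtain ⟨n, rfl⟩ := ht
  exact ⟨m + n, by push_cast; ring⟩

lemma IsZ.neg {s : ℚ} (hs : IsZ s) : IsZ (-s) := by
  obtain ⟨m, rfl⟩ := hs
  exact ⟨-m, by push_cast; ring⟩

lemma IsZ.sub {s t : ℚ} (hs : IsZ s) (ht : IsZ t) : IsZ (s - t) := by
  rw [sub_eq_add_neg]
  exact hs.add ht.neg

lemma IsZ.mul {s t : ℚ} (hs : IsZ s) (ht : IsZ t) : IsZ (s * t) := by
  obtain ⟨m, rfl⟩ := hs
  obtain ⟨n, rfl⟩ := ht
  exact ⟨m * n, by push_cast; ring⟩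

lemma IsZ.int (n : ℤ) : IsZ (n : ℚ) := ⟨n, rfl⟩

lemma IsZ.nat (n : ℕ) : IsZ (n : ℚ) := ⟨n, by simp⟩

lemma ee_zero : ee 0 = 1 := by simp [ee]

lemma ee_add (s t : ℚ) : ee (s + t) = ee s * ee t := by
  rw [ee, ee, ee, ← Complex.exp_add]
  congr 1
  push_cast
  ring

lemma ee_eq_one_iff (t : ℚ) : ee t = 1 ↔ IsZ t := by
  rw [ee, Complex.exp_eq_one_iff]
  constructor
  · rintro ⟨n, hn⟩
    refine ⟨n, ?_⟩
    have h2 : (2 * π * I : ℂ) ≠ 0 := Complex.two_pi_I_ne_zero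
    have h3 : (2 * π * I : ℂ) * t = (2 * π * I) * n := by rw [hn]; ring
    have h4 := mul_left_cancel₀ h2 h3
    exact_mod_cast h4.symm
  · rintro ⟨n, rfl⟩
    refine ⟨n, ?_⟩
    push_cast
    ring

lemma ee_of_isZ {t : ℚ} (h : IsZ t) : ee t = 1 := (ee_eq_one_iff t).mpr h

lemma ee_congr {s t : ℚ} (h : IsZ (s - t)) : ee s = ee t := by
  have : s = (s - t) + t := by ring
  rw [this, ee_add, ee_of_isZ h, one_mul]

lemma ee_neg (t : ℚ) : ee (-t) = starRingEnd ℂ (ee t) := by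
  rw [ee, ee, ← Complex.exp_conj]
  congr 1
  rw [map_mul, map_mul, map_mul, Complex.conj_I, Complex.conj_ofReal]
  have h2 : (starRingEnd ℂ) 2 = 2 := Complex.conj_ofNat 2
  have h3 : (starRingEnd ℂ) (t : ℂ) = t := by
    have : (t : ℂ) = ((t : ℝ) : ℂ) := by push_cast; rfl
    rw [this, Complex.conj_ofReal]
  rw [h2, h3]
  push_cast
  ring

lemma ee_ne_zero (t : ℚ) : ee t ≠ 0 := Complex.exp_ne_zero _

/-! ### Transversals -/

section Trv

variable {V : Type*} [AddCommGroup V]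

/-- `T` is a transversal of `L` in `D` -/
def IsTrv (D L : AddSubgroup V) (T : Finset V) : Prop :=
  (∀ t ∈ T, t ∈ D) ∧ ∀ y ∈ D, ∃! t, t ∈ T ∧ y - t ∈ L

lemma exists_trv (D L : AddSubgroup V) (h : L.relIndex D ≠ 0) : ∃ T : Finset V, IsTrv D L T := by
  classical
  have hfi : (L.addSubgroupOf D).FiniteIndex := ⟨h⟩
  have hfin : Finite (D ⧸ L.addSubgroupOf D) := inferInstance
  have := Fintype.ofFinite (D ⧸ L.addSubgroupOf D)
  refine ⟨Finset.univ.image (fun q : D ⧸ L.addSubgroupOf D => ((Quotient.out q : D) : V)), ?_, ?_⟩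
  · intro t ht
    obtain ⟨q, -, rfl⟩ := Finset.mem_image.mp ht
    exact (Quotient.out q : D).2
  · intro y hy
    have key : ∀ q : D ⧸ L.addSubgroupOf D, y - ((Quotient.out q : D) : V) ∈ L ↔
        (QuotientAddGroup.mk (⟨y, hy⟩ : D) : D ⧸ L.addSubgroupOf D) = q := by
      intro q
      have h1 : (QuotientAddGroup.mk (Quotient.out q : D) : D ⧸ L.addSubgroupOf D) = q :=
        QuotientAddGroup.out_eq' q
      constructor
      · intro h2
        rw [← h1, eq_comm, QuotientAddGroup.eq]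
        rw [AddSubgroup.mem_addSubgroupOf]
        simpa [sub_eq_neg_add] using h2
      · intro h2
        rw [← h1, eq_comm, QuotientAddGroup.eq] at h2
        rw [AddSubgroup.mem_addSubgroupOf] at h2
        simpa [sub_eq_neg_add] using h2
    refine ⟨((Quotient.out (QuotientAddGroup.mk (⟨y, hy⟩ : D) : D ⧸ L.addSubgroupOf D) : D) : V),
      ⟨Finset.mem_image_of_mem _ (Finset.mem_univ _), (key _).mpr rfl⟩, ?_⟩
    rintro t ⟨ht, ht2⟩
    obtain ⟨q, -, rfl⟩ := Finset.mem_image.mp ht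
    rw [(key q).mp ht2]

lemma IsTrv.sum_eq {D L : AddSubgroup V} {T T' : Finset V} (hT : IsTrv D L T) (hT' : IsTrv D L T')
    (f : V → ℂ) (hf : ∀ y ∈ D, ∀ x ∈ L, f (y + x) = f y) :
    ∑ t ∈ T, f t = ∑ t ∈ T', f t := by
  classical
  choose! r hr hr' using hT'.2
  choose! s hs hs' using hT.2
  refine Finset.sum_bij' (fun t _ => r t) (fun t _ => s t) ?_ ?_ ?_ ?_ ?_
  · intro t ht
    exact (hr t (hT.1 t ht)).1
  · intro t ht
    exact (hs t (hT'.1 t ht)).1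
  · intro t ht
    have h1 := hr t (hT.1 t ht)
    symm
    apply hs' _ (hT'.1 _ h1.1)
    refine ⟨ht, ?_⟩
    have := L.neg_mem h1.2
    rwa [neg_sub] at this
  · intro t ht
    have h1 := hs t (hT'.1 t ht)
    symm
    apply hr' _ (hT.1 _ h1.1)
    refine ⟨ht, ?_⟩
    have := L.neg_mem h1.2
    rwa [neg_sub] at this
  · intro t ht
    have h1 := hr t (hT.1 t ht)
    have h2 := hf (r t) (hT'.1 _ h1.1) _ h1.2
    rw [← h2]
    congr 1
    abel

lemma IsTrv.card_eq {D L : AddSubgroup V} {T : Finset V} (hT : IsTrv D L T) :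
    T.card = L.relIndex D := by
  classical
  rw [AddSubgroup.relIndex, AddSubgroup.index, ← Fintype.card_coe, ← Nat.card_eq_fintype_card]
  refine Nat.card_eq_of_bijective (fun t : T =>
    (QuotientAddGroup.mk (⟨t.1, hT.1 t.1 t.2⟩ : D) : D ⧸ L.addSubgroupOf D)) ⟨?_, ?_⟩
  · intro t t' h
    rw [QuotientAddGroup.eq, AddSubgroup.mem_addSubgroupOf] at h
    obtain ⟨u, -, hu⟩ := hT.2 t'.1 (hT.1 _ t'.2)
    have h1 := hu t.1 ⟨t.2, by simpa [sub_eq_neg_add] using h⟩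
    have h2 := hu t'.1 ⟨t'.2, by simp⟩
    exact Subtype.ext (h1.trans h2.symm)
  · intro q
    obtain ⟨y, rfl⟩ := QuotientAddGroup.mk_surjective q
    obtain ⟨t, ⟨ht, ht2⟩, -⟩ := hT.2 y.1 y.2
    refine ⟨⟨t, ht⟩, ?_⟩
    rw [QuotientAddGroup.eq, AddSubgroup.mem_addSubgroupOf]
    simpa [sub_eq_neg_add] using ht2

lemma IsTrv.relIndex_ne_zero {D L : AddSubgroup V} {T : Finset V} (hT : IsTrv D L T) :
    L.relIndex D ≠ 0 := by
  rw [← hT.card_eq]
  obtain ⟨t, ht, -⟩ := hT.2 0 D.zero_mem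
  exact Finset.card_ne_zero_of_mem ht.1

/-- restriction of a transversal to a smaller group -/
lemma IsTrv.filter {D L M : AddSubgroup V} {T : Finset V} (hT : IsTrv D L T) (hLM : L ≤ M)
    (hMD : M ≤ D) [DecidablePred (fun t => t ∈ M)] : IsTrv M L (T.filter (fun t => t ∈ M)) := by
  constructor
  · intro t ht
    exact (Finset.mem_filter.mp ht).2
  · intro y hy
    obtain ⟨t, ⟨ht, ht2⟩, hu⟩ := hT.2 y (hMD hy)
    have htM : t ∈ M := by
      have h1 := M.sub_mem hy (hLM ht2)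
      have h2 : y - (y - t) = t := by abel
      rwa [h2] at h1
    refine ⟨t, ⟨Finset.mem_filter.mpr ⟨ht, htM⟩, ht2⟩, ?_⟩
    rintro u ⟨hu1, hu2⟩
    exact hu u ⟨(Finset.mem_filter.mp hu1).1, hu2⟩

/-- translation of a transversal -/
lemma IsTrv.translate {D L : AddSubgroup V} {T : Finset V} (hT : IsTrv D L T) {m : V}
    (hm : m ∈ D) [DecidableEq V] : IsTrv D L (T.image (fun t => t + m)) := by
  constructor
  · intro t ht
    obtain ⟨u, hu, rfl⟩ := Finset.mem_image.mp ht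
    exact D.add_mem (hT.1 u hu) hm
  · intro y hy
    obtain ⟨t, ⟨ht, ht2⟩, hu⟩ := hT.2 (y - m) (D.sub_mem hy hm)
    refine ⟨t + m, ⟨Finset.mem_image_of_mem _ ht, ?_⟩, ?_⟩
    · have : y - (t + m) = y - m - t := by abel
      rwa [this]
    · rintro u ⟨hu1, hu2⟩
      obtain ⟨s, hs, rfl⟩ := Finset.mem_image.mp hu1
      have : y - (s + m) = y - m - s := by abel
      rw [this] at hu2
      rw [hu s ⟨hs, hu2⟩]

lemma IsTrv.sum_translate {D L : AddSubgroup V} {T : Finset V} (hT : IsTrv D L T) {m : V}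
    (hm : m ∈ D) (f : V → ℂ) (hf : ∀ y ∈ D, ∀ x ∈ L, f (y + x) = f y) :
    ∑ t ∈ T, f (t + m) = ∑ t ∈ T, f t := by
  classical
  rw [← (hT.translate hm).sum_eq hT f hf, Finset.sum_image]
  intro x _ y _ h
  exact add_right_cancel h

/-- a tower -/
lemma IsTrv.tower {D M L : AddSubgroup V} {T U : Finset V} (hT : IsTrv D M T) (hU : IsTrv M L U)
    (hLM : L ≤ M) (hMD : M ≤ D) [DecidableEq V] :
    IsTrv D L ((T ×ˢ U).image (fun p => p.1 + p.2)) ∧
      Set.InjOn (fun p : V × V => p.1 + p.2) ((T ×ˢ U : Finset (V × V)) : Set (V × V)) := by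
  have hinj : ∀ t ∈ T, ∀ u ∈ U, ∀ t' ∈ T, ∀ u' ∈ U, (t + u) - (t' + u') ∈ L → t = t' ∧ u = u' := by
    intro t ht u hu t' ht' u' hu' h
    have h1 : t = t' := by
      obtain ⟨w, -, hw⟩ := hT.2 t (hT.1 t ht)
      have h2 := hw t ⟨ht, by simp⟩
      have h3 := hw t' ⟨ht', by
        have h4 : t - t' = ((t + u) - (t' + u')) - u + u' := by abel
        rw [h4]
        exact M.add_mem (M.sub_mem (hLM h) (hU.1 u hu)) (hU.1 u' hu')⟩
      exact h2.trans h3.symm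
    subst h1
    refine ⟨rfl, ?_⟩
    obtain ⟨w, -, hw⟩ := hU.2 u (hU.1 u hu)
    have h2 := hw u ⟨hu, by simp⟩
    have h3 := hw u' ⟨hu', by
      have h4 : u - u' = (t + u) - (t + u') := by abel
      rw [h4]
      exact h⟩
    exact h2.trans h3.symm
  refine ⟨⟨?_, ?_⟩, ?_⟩
  · intro t ht
    obtain ⟨⟨a, b⟩, hab, rfl⟩ := Finset.mem_image.mp ht
    rw [Finset.mem_product] at hab
    exact D.add_mem (hT.1 a hab.1) (hMD (hU.1 b hab.2))
  · intro y hy
    obtain ⟨t, ⟨ht, ht2⟩, -⟩ := hT.2 y hy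
    obtain ⟨u, ⟨hu, hu2⟩, -⟩ := hU.2 (y - t) ht2
    refine ⟨t + u, ⟨Finset.mem_image.mpr ⟨(t, u), Finset.mem_product.mpr ⟨ht, hu⟩, rfl⟩, ?_⟩, ?_⟩
    · have : y - (t + u) = y - t - u := by abel
      rwa [this]
    · rintro w ⟨hw1, hw2⟩
      obtain ⟨⟨a, b⟩, hab, rfl⟩ := Finset.mem_image.mp hw1
      rw [Finset.mem_product] at hab
      have h5 : (a + b) - (t + u) ∈ L := by
        have h6 : (a + b) - (t + u) = (y - t - u) - (y - (a + b)) := by abel
        rw [h6]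
        exact L.sub_mem hu2 hw2
      obtain ⟨rfl, rfl⟩ := hinj a hab.1 b hab.2 t ht u hu h5
      rfl
  · rintro ⟨a, b⟩ hab ⟨a', b'⟩ hab' h
    rw [Finset.mem_coe, Finset.mem_product] at hab hab'
    have h' : a + b = a' + b' := h
    obtain ⟨rfl, rfl⟩ := hinj a hab.1 b hab.2 a' hab'.1 b' hab'.2 (by
      rw [h', sub_self]; exact L.zero_mem)
    rfl

lemma IsTrv.sum_tower {D M L : AddSubgroup V} {S T U : Finset V} (hS : IsTrv D L S)
    (hT : IsTrv D M T) (hU : IsTrv M L U) (hLM : L ≤ M) (hMD : M ≤ D) (f : V → ℂ)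
    (hf : ∀ y ∈ D, ∀ x ∈ L, f (y + x) = f y) :
    ∑ s ∈ S, f s = ∑ t ∈ T, ∑ u ∈ U, f (t + u) := by
  classical
  obtain ⟨h1, h2⟩ := hT.tower hU hLM hMD
  rw [hS.sum_eq h1 f hf, Finset.sum_image h2, Finset.sum_product]

/-- two subgroups with intersection `L` -/
lemma IsTrv.sup {D E L : AddSubgroup V} {T U : Finset V} (hT : IsTrv D L T) (hU : IsTrv E L U)
    (hE : L ≤ E) (hDE : D ⊓ E = L) [DecidableEq V] :
    IsTrv (D ⊔ E) L ((T ×ˢ U).image (fun p => p.1 + p.2)) ∧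
      Set.InjOn (fun p : V × V => p.1 + p.2) ((T ×ˢ U : Finset (V × V)) : Set (V × V)) := by
  have hinj : ∀ t ∈ T, ∀ u ∈ U, ∀ t' ∈ T, ∀ u' ∈ U, (t + u) - (t' + u') ∈ L → t = t' ∧ u = u' := by
    intro t ht u hu t' ht' u' hu' h
    have h1 : t = t' := by
      obtain ⟨w, -, hw⟩ := hT.2 t (hT.1 t ht)
      have h2 := hw t ⟨ht, by simp⟩
      have h3 := hw t' ⟨ht', by
        rw [← hDE]
        refine ⟨D.sub_mem (hT.1 t ht) (hT.1 t' ht'), ?_⟩
        have h4 : t - t' = ((t + u) - (t' + u')) - u + u' := by abel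
        rw [h4]
        exact E.add_mem (E.sub_mem (hE h) (hU.1 u hu)) (hU.1 u' hu')⟩
      exact h2.trans h3.symm
    subst h1
    refine ⟨rfl, ?_⟩
    obtain ⟨w, -, hw⟩ := hU.2 u (hU.1 u hu)
    have h2 := hw u ⟨hu, by simp⟩
    have h3 := hw u' ⟨hu', by
      have h4 : u - u' = (t + u) - (t + u') := by abel
      rw [h4]
      exact h⟩
    exact h2.trans h3.symm
  refine ⟨⟨?_, ?_⟩, ?_⟩
  · intro t ht
    obtain ⟨⟨a, b⟩, hab, rfl⟩ := Finset.mem_image.mp ht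
    rw [Finset.mem_product] at hab
    exact AddSubgroup.add_mem_sup (hT.1 a hab.1) (hU.1 b hab.2)
  · intro y hy
    obtain ⟨p, hp, q, hq, rfl⟩ := AddSubgroup.mem_sup.mp hy
    obtain ⟨t, ⟨ht, ht2⟩, -⟩ := hT.2 p hp
    obtain ⟨u, ⟨hu, hu2⟩, -⟩ := hU.2 q hq
    have h7 : (p + q) - (t + u) ∈ L := by
      have : (p + q) - (t + u) = (p - t) + (q - u) := by abel
      rw [this]
      exact L.add_mem ht2 hu2
    refine ⟨t + u, ⟨Finset.mem_image.mpr ⟨(t, u), Finset.mem_product.mpr ⟨ht, hu⟩, rfl⟩, h7⟩, ?_⟩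
    rintro w ⟨hw1, hw2⟩
    obtain ⟨⟨a, b⟩, hab, rfl⟩ := Finset.mem_image.mp hw1
    rw [Finset.mem_product] at hab
    have h5 : (a + b) - (t + u) ∈ L := by
      have h6 : (a + b) - (t + u) = ((p + q) - (t + u)) - ((p + q) - (a + b)) := by abel
      rw [h6]
      exact L.sub_mem h7 hw2
    obtain ⟨rfl, rfl⟩ := hinj a hab.1 b hab.2 t ht u hu h5
    rfl
  · rintro ⟨a, b⟩ hab ⟨a', b'⟩ hab' h
    rw [Finset.mem_coe, Finset.mem_product] at hab hab'
    have h' : a + b = a' + b' := h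
    obtain ⟨rfl, rfl⟩ := hinj a hab.1 b hab.2 a' hab'.1 b' hab'.2 (by
      rw [h', sub_self]; exact L.zero_mem)
    rfl

end Trv

/-! ### The sums -/

section GSs

variable {V : Type*} [AddCommGroup V]

/-- the Gauss sum of `D/L` -/
noncomputable def GS (b : V →+ V →+ ℚ) (D L : AddSubgroup V) : ℂ :=
  ∑ᶠ q : D ⧸ L.addSubgroupOf D, ee (b ((Quotient.out q : D) : V) ((Quotient.out q : D) : V))

/-- the Gauss sum is well defined -/
structure GOK (b : V →+ V →+ ℚ) (D L : AddSubgroup V) : Prop where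
  le : L ≤ D
  fin : L.relIndex D ≠ 0
  symm : ∀ x y, b x y = b y x
  q : ∀ x ∈ L, IsZ (b x x)
  c : ∀ x ∈ L, ∀ y ∈ D, IsZ (2 * b x y)

lemma ee_form_add (b : V →+ V →+ ℚ) (symm : ∀ x y, b x y = b y x) (x y : V) :
    ee (b (x + y) (x + y)) = ee (b x x) * ee (2 * b x y) * ee (b y y) := by
  rw [← ee_add, ← ee_add]
  congr 1
  simp only [map_add, AddMonoidHom.add_apply]
  rw [symm y x]
  ring

lemma GOK.inv {b : V →+ V →+ ℚ} {D L : AddSubgroup V} (h : GOK b D L) :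
    ∀ y ∈ D, ∀ x ∈ L, ee (b (y + x) (y + x)) = ee (b y y) := by
  intro y hy x hx
  rw [ee_form_add b h.symm, ee_of_isZ (h.q x hx), mul_one, h.symm y x,
    ee_of_isZ (h.c x hx y hy), mul_one]

theorem GS_eq_sum {b : V →+ V →+ ℚ} {D L : AddSubgroup V} (h : GOK b D L) {T : Finset V}
    (hT : IsTrv D L T) : GS b D L = ∑ t ∈ T, ee (b t t) := by
  classical
  have hfi : (L.addSubgroupOf D).FiniteIndex := ⟨h.fin⟩
  have hfin : Finite (D ⧸ L.addSubgroupOf D) := inferInstance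
  have := Fintype.ofFinite (D ⧸ L.addSubgroupOf D)
  rw [GS, finsum_eq_sum_of_fintype]
  symm
  refine Finset.sum_bij (fun t ht =>
    (QuotientAddGroup.mk (⟨t, hT.1 t ht⟩ : D) : D ⧸ L.addSubgroupOf D)) ?_ ?_ ?_ ?_
  · intro t ht
    exact Finset.mem_univ _
  · intro t ht t' ht' h
    rw [QuotientAddGroup.eq, AddSubgroup.mem_addSubgroupOf] at h
    obtain ⟨u, -, hu⟩ := hT.2 t' (hT.1 _ ht')
    have h1 := hu t ⟨ht, by simpa [sub_eq_neg_add] using h⟩
    have h2 := hu t' ⟨ht', by simp⟩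
    exact h1.trans h2.symm
  · intro q _
    obtain ⟨y, rfl⟩ := QuotientAddGroup.mk_surjective q
    obtain ⟨t, ⟨ht, ht2⟩, -⟩ := hT.2 y.1 y.2
    refine ⟨t, ht, ?_⟩
    rw [QuotientAddGroup.eq, AddSubgroup.mem_addSubgroupOf]
    simpa [sub_eq_neg_add] using ht2
  · intro t ht
    have h1 : (QuotientAddGroup.mk (Quotient.out
        (QuotientAddGroup.mk (⟨t, hT.1 t ht⟩ : D) : D ⧸ L.addSubgroupOf D) : D) :
        D ⧸ L.addSubgroupOf D) = QuotientAddGroup.mk (⟨t, hT.1 t ht⟩ : D) :=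
      QuotientAddGroup.out_eq' _
    rw [eq_comm, QuotientAddGroup.eq, AddSubgroup.mem_addSubgroupOf] at h1
    have h2 := h.inv t (hT.1 t ht) _ h1
    rw [← h2]
    congr 3
    all_goals
      simp

/-- the inner sum of (G1) -/
lemma char_sum {M L : AddSubgroup V} {U : Finset V} (hU : IsTrv M L U) (χ : V →+ ℚ)
    (hχ : ∀ x ∈ L, IsZ (χ x)) :
    ((∀ x ∈ M, IsZ (χ x)) → ∑ u ∈ U, ee (χ u) = U.card) ∧
    ((¬ ∀ x ∈ M, IsZ (χ x)) → ∑ u ∈ U, ee (χ u) = 0) := by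
  constructor
  · intro h
    rw [Finset.sum_congr rfl (fun u hu => ee_of_isZ (h u (hU.1 u hu)))]
    simp
  · intro h
    push Not at h
    obtain ⟨m, hm, hm2⟩ := h
    have h1 := hU.sum_translate hm (fun u => ee (χ u)) (by
      intro y _ x hx
      rw [map_add, ee_add, ee_of_isZ (hχ x hx), mul_one])
    simp only [map_add, ee_add] at h1
    rw [← Finset.sum_mul] at h1
    have h2 : (∑ u ∈ U, ee (χ u)) * (ee (χ m) - 1) = 0 := by
      rw [mul_sub, h1, mul_one, sub_self]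
    rcases mul_eq_zero.mp h2 with h3 | h3
    · exact h3
    · exact absurd ((ee_eq_one_iff _).mp (sub_eq_zero.mp h3)) hm2

theorem G1 {b : V →+ V →+ ℚ} {D L : AddSubgroup V} (h : GOK b D L) {M M' : AddSubgroup V}
    (hLM : L ≤ M) (hMD : M ≤ D) (hM : ∀ x ∈ M, IsZ (b x x))
    (hM' : ∀ y, y ∈ M' ↔ y ∈ D ∧ ∀ x ∈ M, IsZ (2 * b y x)) :
    M ≤ M' ∧ M' ≤ D ∧ L.relIndex M ≠ 0 ∧ GOK b M' M ∧
      GS b D L = (L.relIndex M : ℂ) * GS b M' M := by
  classical
  have hMM' : M ≤ M' := by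
    intro y hy
    rw [hM']
    refine ⟨hMD hy, ?_⟩
    intro x hx
    have h1 := hM _ (M.add_mem hy hx)
    have h2 := (h1.sub (hM y hy)).sub (hM x hx)
    have h3 : b (y + x) (y + x) - b y y - b x x = 2 * b y x := by
      simp only [map_add, AddMonoidHom.add_apply]
      rw [h.symm x y]
      ring
    rwa [h3] at h2
  have hM'D : M' ≤ D := fun y hy => ((hM' y).mp hy).1
  obtain ⟨T, hT⟩ := exists_trv D L h.fin
  have hTM : IsTrv M L (T.filter (fun t => t ∈ M)) := hT.filter hLM hMD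
  have hTM' : IsTrv M' L (T.filter (fun t => t ∈ M')) := hT.filter (hLM.trans hMM') hM'D
  have hLM0 : L.relIndex M ≠ 0 := hTM.relIndex_ne_zero
  have hMM'0 : M.relIndex M' ≠ 0 := by
    have h1 := AddSubgroup.relIndex_mul_relIndex L M M' hLM hMM'
    intro h2
    rw [h2, mul_zero] at h1
    exact hTM'.relIndex_ne_zero h1.symm
  have hG : GOK b M' M := by
    refine ⟨hMM', hMM'0, h.symm, hM, ?_⟩
    intro x hx y hy
    rw [h.symm x y]
    exact ((hM' y).mp hy).2 x hx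
  have hG' : GOK b M' L := ⟨hLM.trans hMM', hTM'.relIndex_ne_zero, h.symm, h.q,
    fun x hx y hy => h.c x hx y (hM'D hy)⟩
  refine ⟨hMM', hM'D, hLM0, hG, ?_⟩
  obtain ⟨T1, hT1⟩ := exists_trv M' M hMM'0
  set U := T.filter (fun t => t ∈ M) with hUdef
  have hUc : (U.card : ℂ) ≠ 0 := by
    rw [hTM.card_eq]
    exact_mod_cast hLM0
  -- first step
  have s1 : (U.card : ℂ) * ∑ y ∈ T, ee (b y y)
      = (U.card : ℂ) * ∑ y ∈ T.filter (fun t => t ∈ M'), ee (b y y) := by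
    calc (U.card : ℂ) * ∑ y ∈ T, ee (b y y) = ∑ m ∈ U, ∑ y ∈ T, ee (b y y) := by
          rw [Finset.sum_const, nsmul_eq_mul]
      _ = ∑ m ∈ U, ∑ y ∈ T, ee (b (y + m) (y + m)) := by
          refine Finset.sum_congr rfl ?_
          intro m hm
          exact (hT.sum_translate (hMD (hTM.1 m hm)) (fun y => ee (b y y)) h.inv).symm
      _ = ∑ m ∈ U, ∑ y ∈ T, ee (b y y) * ee (2 * b y m) := by
          refine Finset.sum_congr rfl ?_
          intro m hm
          refine Finset.sum_congr rfl ?_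
          intro y _
          rw [ee_form_add b h.symm, ee_of_isZ (hM m (hTM.1 m hm)), mul_one]
      _ = ∑ y ∈ T, ee (b y y) * ∑ m ∈ U, ee (2 * b y m) := by
          rw [Finset.sum_comm]
          refine Finset.sum_congr rfl ?_
          intro y _
          rw [Finset.mul_sum]
      _ = ∑ y ∈ T, if y ∈ M' then (U.card : ℂ) * ee (b y y) else 0 := by
          refine Finset.sum_congr rfl ?_
          intro y hy
          have hc := char_sum hTM ((AddMonoidHom.mulLeft (2 : ℚ)).comp (b y)) (by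
            intro x hx
            simp only [AddMonoidHom.comp_apply, AddMonoidHom.coe_mulLeft]
            rw [h.symm y x]
            exact h.c x hx y (hT.1 y hy))
          simp only [AddMonoidHom.comp_apply, AddMonoidHom.coe_mulLeft] at hc
          by_cases hyM : y ∈ M'
          · rw [if_pos hyM, hc.1 ((hM' y).mp hyM).2]
            ring
          · rw [if_neg hyM, hc.2 (fun h2 => hyM ((hM' y).mpr ⟨hT.1 y hy, h2⟩)), mul_zero]
      _ = (U.card : ℂ) * ∑ y ∈ T.filter (fun t => t ∈ M'), ee (b y y) := by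
          rw [← Finset.sum_filter, Finset.mul_sum]
  have s2 := mul_left_cancel₀ hUc s1
  rw [GS_eq_sum h hT, s2, GS_eq_sum hG hT1, ← hTM.card_eq,
    hTM'.sum_tower hT1 hTM hLM hMM' (fun y => ee (b y y)) hG'.inv, Finset.mul_sum]
  refine Finset.sum_congr rfl ?_
  intro t ht
  rw [Finset.sum_congr rfl (fun u hu => hG.inv t (hT1.1 t ht) u (hTM.1 u hu)), Finset.sum_const,
    nsmul_eq_mul]

theorem G2 {b : V →+ V →+ ℚ} {D1 D2 L : AddSubgroup V} (h1 : GOK b D1 L) (h2 : GOK b D2 L)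
    (hinf : D1 ⊓ D2 = L) (hcross : ∀ x ∈ D1, ∀ y ∈ D2, IsZ (2 * b x y)) :
    GOK b (D1 ⊔ D2) L ∧ GS b (D1 ⊔ D2) L = GS b D1 L * GS b D2 L := by
  classical
  obtain ⟨T, hT⟩ := exists_trv D1 L h1.fin
  obtain ⟨U, hU⟩ := exists_trv D2 L h2.fin
  obtain ⟨h3, h4⟩ := hT.sup hU h2.le hinf
  have hG : GOK b (D1 ⊔ D2) L := by
    refine ⟨h1.le.trans le_sup_left, h3.relIndex_ne_zero, h1.symm, h1.q, ?_⟩
    intro x hx y hy
    obtain ⟨p, hp, q, hq, rfl⟩ := AddSubgroup.mem_sup.mp hy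
    rw [map_add, mul_add]
    exact (h1.c x hx p hp).add (h2.c x hx q hq)
  refine ⟨hG, ?_⟩
  rw [GS_eq_sum hG h3, GS_eq_sum h1 hT, GS_eq_sum h2 hU, Finset.sum_image h4, Finset.sum_product,
    Finset.sum_mul_sum]
  refine Finset.sum_congr rfl ?_
  intro t ht
  refine Finset.sum_congr rfl ?_
  intro u hu
  rw [ee_form_add b h1.symm, ee_of_isZ (hcross t (hT.1 t ht) u (hU.1 u hu)), mul_one]

/-- transport along a homomorphism which is injective on `D` -/
theorem GS_map {V' : Type*} [AddCommGroup V'] {b : V →+ V →+ ℚ} {b' : V' →+ V' →+ ℚ}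
    {D L : AddSubgroup V} (h : GOK b D L) (φ : V →+ V') (hφ : ∀ x ∈ D, ∀ y ∈ D,
      b' (φ x) (φ y) = b x y) (hinj : ∀ x ∈ D, φ x = 0 → x = 0)
    (symm' : ∀ x y, b' x y = b' y x) :
    GOK b' (D.map φ) (L.map φ) ∧ GS b' (D.map φ) (L.map φ) = GS b D L := by
  classical
  obtain ⟨T, hT⟩ := exists_trv D L h.fin
  have hT' : IsTrv (D.map φ) (L.map φ) (T.image φ) := by
    constructor
    · intro t ht
      obtain ⟨u, hu, rfl⟩ := Finset.mem_image.mp ht
      exact AddSubgroup.mem_map_of_mem φ (hT.1 u hu)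
    · intro y hy
      obtain ⟨x, hx, rfl⟩ := AddSubgroup.mem_map.mp hy
      obtain ⟨t, ⟨ht, ht2⟩, hu⟩ := hT.2 x hx
      refine ⟨φ t, ⟨Finset.mem_image_of_mem _ ht, ?_⟩, ?_⟩
      · rw [← map_sub]
        exact AddSubgroup.mem_map_of_mem φ ht2
      · rintro w ⟨hw1, hw2⟩
        obtain ⟨s, hs, rfl⟩ := Finset.mem_image.mp hw1
        rw [← map_sub] at hw2
        obtain ⟨z, hz, hz2⟩ := AddSubgroup.mem_map.mp hw2
        have h3 : x - s = z := by
          have h4 : (x - s) - z = 0 := by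
            apply hinj _ (D.sub_mem (D.sub_mem hx (hT.1 s hs)) (h.le hz))
            rw [map_sub, hz2, sub_self]
          exact sub_eq_zero.mp h4
        rw [hu s ⟨hs, by rw [h3]; exact hz⟩]
  have hG : GOK b' (D.map φ) (L.map φ) := by
    refine ⟨AddSubgroup.map_mono h.le, hT'.relIndex_ne_zero, symm', ?_, ?_⟩
    · intro x hx
      obtain ⟨z, hz, rfl⟩ := AddSubgroup.mem_map.mp hx
      rw [hφ z (h.le hz) z (h.le hz)]
      exact h.q z hz
    · intro x hx y hy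
      obtain ⟨z, hz, rfl⟩ := AddSubgroup.mem_map.mp hx
      obtain ⟨w, hw, rfl⟩ := AddSubgroup.mem_map.mp hy
      rw [hφ z (h.le hz) w hw]
      exact h.c z hz w hw
  refine ⟨hG, ?_⟩
  rw [GS_eq_sum hG hT', GS_eq_sum h hT, Finset.sum_image]
  · refine Finset.sum_congr rfl ?_
    intro t ht
    rw [hφ t (hT.1 t ht) t (hT.1 t ht)]
  · intro x hx y hy hxy
    have h4 : x - y = 0 := by
      apply hinj _ (D.sub_mem (hT.1 x hx) (hT.1 y hy))
      rw [map_sub, hxy, sub_self]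
    exact sub_eq_zero.mp h4

theorem GS_neg {b b' : V →+ V →+ ℚ} {D L : AddSubgroup V} (h : GOK b D L)
    (hb : ∀ x y, b' x y = -b x y) :
    GOK b' D L ∧ GS b' D L = starRingEnd ℂ (GS b D L) := by
  have hG : GOK b' D L := by
    refine ⟨h.le, h.fin, ?_, ?_, ?_⟩
    · intro x y
      rw [hb, hb, h.symm]
    · intro x hx
      rw [hb]
      exact (h.q x hx).neg
    · intro x hx y hy
      rw [hb, mul_neg]
      exact (h.c x hx y hy).neg
  refine ⟨hG, ?_⟩
  obtain ⟨T, hT⟩ := exists_trv D L h.fin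
  rw [GS_eq_sum hG hT, GS_eq_sum h hT, map_sum]
  refine Finset.sum_congr rfl ?_
  intro t _
  rw [hb, ee_neg]

end GSs

end Pool.Agent.Lib.MP_2f3286_ag.UA
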