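import Pool.Agent.Lib.MP_2f3286_ag.UA.Aff

/-!
# A function with the same value at all local places of a section
-/

open Polynomial IsDedekindDomain NumberField

noncomputable section

namespace Pool.Agent.Lib.MP_2f3286_ag.UA

open Pool.Agent.Lib.MP_2f3286_ag.HYP Pool.Agent.Lib.MP_2f3286_ag.Koe

/-- The function `x` has the same value in `F`, or the value infinity, at all places of which `s` is the
section over a completion of `F`. -/
def SameVal {k K M : Type*} [Field k] [Field K] [Field M] [Algebra K M]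
    [Algebra (AlgebraicClosure k) M] (s : Gal(AlgebraicClosure k/k) →* Gal(M/K)) (F : Type*)
    [Field F] [NumberField F] [Algebra F (AlgebraicClosure k)] (x : M) : Prop :=
  (∃ e : F, ∀ (w : HeightOneSpectrum (𝓞 F))
    (ι : AlgebraicClosure k →ₐ[F] AlgebraicClosure (w.adicCompletion F))
    (A : ValuationSubring M) (φ : A →+* AlgebraicClosure (w.adicCompletion F)),
    Sel.IsPlaceOf s (w.adicCompletion F)
      (ι : _ →+* AlgebraicClosure (w.adicCompletion F)) A φ →
    ∃ h : x ∈ A, φ ⟨x, h⟩ = ι (algebraMap F _ e)) ∨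
  ∀ (w : HeightOneSpectrum (𝓞 F))
    (ι : AlgebraicClosure k →ₐ[F] AlgebraicClosure (w.adicCompletion F))
    (A : ValuationSubring M) (φ : A →+* AlgebraicClosure (w.adicCompletion F)),
    Sel.IsPlaceOf s (w.adicCompletion F)
      (ι : _ →+* AlgebraicClosure (w.adicCompletion F)) A φ → x ∉ A

/-- a place of the restricted section is a place of the section -/
theorem placeOf_lift {k F K M E Eb : Type*} [Field k] [Field F] [Algebra k F]
    [Algebra F (AlgebraicClosure k)] [IsScalarTower k F (AlgebraicClosure k)] [Field K]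
    [Field M] [Algebra K M] [Algebra (AlgebraicClosure k) M] [Algebra (AlgebraicClosure F) M]
    (e : AlgebraicClosure F ≃ₐ[F] AlgebraicClosure k)
    (he : ∀ a, algebraMap (AlgebraicClosure F) M a = algebraMap (AlgebraicClosure k) M (e a))
    (s : Gal(AlgebraicClosure k/k) →* Gal(M/K))
    {L : Type*} [Field L] [Algebra L M]
    (hL : ∀ σ : Gal(AlgebraicClosure k/k), (∀ a : F, σ (algebraMap F _ a) = algebraMap F _ a) →
      ∀ x : L, s σ (algebraMap L M x) = algebraMap L M x)
    [Field E] [Field Eb] [Algebra E Eb] [Algebra F E] [Algebra F Eb] [IsScalarTower F E Eb]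
    {ι : AlgebraicClosure F →ₐ[F] Eb} {A : ValuationSubring M} {φ : A →+* Eb}
    (h : Sel.IsPlaceOf (resS s e hL) E (ι : _ →+* Eb) A φ) :
    Sel.IsPlaceOf s E ((ι.comp (e.symm : AlgebraicClosure k →ₐ[F] AlgebraicClosure F) :
      AlgebraicClosure k →ₐ[F] Eb) : _ →+* Eb) A φ := by
  refine ⟨fun a => ?_, h.2.1, fun σ τ hστ z => ?_⟩
  · obtain ⟨h1, h2⟩ := h.1 (e.symm a)
    have h3 : algebraMap (AlgebraicClosure F) M (e.symm a) = algebraMap (AlgebraicClosure k) M a := by
      rw [he, e.apply_symm_apply]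
    refine ⟨by rw [← h3]; exact h1, ?_⟩
    refine Eq.trans (congrArg φ (Subtype.ext h3.symm)) h2
  · have hσ : ∀ a : F, σ (algebraMap F _ a) = algebraMap F _ a := by
      intro a
      apply (ι.comp (e.symm : AlgebraicClosure k →ₐ[F] AlgebraicClosure F)).toRingHom.injective
      have h1 := hστ (algebraMap F _ a)
      refine h1.trans ?_
      change τ ((ι.comp (e.symm : AlgebraicClosure k →ₐ[F] AlgebraicClosure F))
        (algebraMap F _ a)) = (ι.comp (e.symm : AlgebraicClosure k →ₐ[F] AlgebraicClosure F))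
        (algebraMap F _ a)
      rw [AlgHom.commutes, IsScalarTower.algebraMap_apply F E Eb, AlgEquiv.commutes]
    obtain ⟨σ', hσ', hσ''⟩ := resG_surj e σ hσ
    obtain ⟨h1, h2⟩ := h.2.2 σ' τ (fun a => by
      have h3 := hστ (e a)
      change ι (e.symm (σ (e a))) = τ (ι (e.symm (e a))) at h3
      rw [e.symm_apply_apply] at h3
      change ι (σ' a) = τ (ι a)
      rw [hσ'', h3]) z
    have h3 : resS s e hL σ' z = s σ z := by rw [resS_apply, hσ']
    exact ⟨by rw [← h3]; exact h1, Eq.trans (congrArg φ (Subtype.ext h3.symm)) h2⟩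

/-- the restricted section -/
theorem SameVal.res {k F K M : Type*} [Field k] [Field F] [NumberField F] [Algebra k F]
    [Algebra F (AlgebraicClosure k)] [IsScalarTower k F (AlgebraicClosure k)] [Field K]
    [Field M] [Algebra K M] [Algebra (AlgebraicClosure k) M] [Algebra (AlgebraicClosure F) M]
    {s : Gal(AlgebraicClosure k/k) →* Gal(M/K)} {x : M} (h : SameVal s F x)
    (e : AlgebraicClosure F ≃ₐ[F] AlgebraicClosure k)
    (he : ∀ a, algebraMap (AlgebraicClosure F) M a = algebraMap (AlgebraicClosure k) M (e a))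
    {L : Type*} [Field L] [Algebra L M]
    (hL : ∀ σ : Gal(AlgebraicClosure k/k), (∀ a : F, σ (algebraMap F _ a) = algebraMap F _ a) →
      ∀ x : L, s σ (algebraMap L M x) = algebraMap L M x) :
    SameVal (resS s e hL) F x := by
  rcases h with ⟨e₀, h⟩ | h
  · refine Or.inl ⟨e₀, fun w ι A φ hφ => ?_⟩
    obtain ⟨h1, h2⟩ := h w _ A φ (placeOf_lift e he s hL hφ)
    refine ⟨h1, h2.trans ?_⟩
    change ι (e.symm (algebraMap F _ e₀)) = ι (algebraMap F _ e₀)
    rw [AlgEquiv.commutes]
  · exact Or.inr fun w ι A φ hφ => h w _ A φ (placeOf_lift e he s hL hφ)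

end Pool.Agent.Lib.MP_2f3286_ag.UA
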