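import Pool.Agent.Lib.MP_2f3286_ag.UA.GMain
import Pool.Agent.Lib.MP_2f3286_ag.UA.GX4

/-!
# Sections with the same value of `x` at all local places, `g(x)` a unit: geometric or cuspidal
-/

open Polynomial IsDedekindDomain NumberField
open scoped WithZero

noncomputable section

namespace Pool.Agent.Lib.MP_2f3286_ag.UA

open Pool.Agent.Lib.MP_2f3286_ag.HYP hiding affine_over over_dich
open Pool.Agent.Lib.MP_2f3286_ag.Pt Pool.Agent.Lib.MP_2f3286_ag.SNeigh
  Pool.Agent.Lib.MP_2f3286_ag.SFull Pool.Agent.Lib.MP_2f3286_ag.Koe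

universe u v

/-- `x` is a sum of units if `g(x)` is a unit -/
theorem mem_unitRing_of {k : Type*} [Field k] [CharZero k] {F : Type*} [Field F]
    [Algebra F (AlgebraicClosure k)] {g : F[X]} (hg : g.natDegree ≠ 0)
    {K : Type*} [Field K] [Algebra k K] (R : Subalgebra k K)
    {M : Type*} [Field M] [Algebra K M]
    [Algebra (AlgebraicClosure k) M] [Algebra k M]
    [IsScalarTower k K M] [IsScalarTower k (AlgebraicClosure k) M]
    [Algebra F M] [IsScalarTower F (AlgebraicClosure k) M] {x : M}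
    (hxR : IsIntegral R x) (hgR : IsIntegral R (aeval x g)⁻¹) (hg0 : aeval x g ≠ 0) :
    x ∈ unitRing R M := by
  have hc : ∀ a : AlgebraicClosure k, algebraMap (AlgebraicClosure k) M a ∈ unitRing R M :=
    fun a => Subring.subset_closure ⟨Pt.integral_const R a, by
      rw [← map_inv₀]; exact Pt.integral_const R _⟩
  let G : (AlgebraicClosure k)[X] := g.map (algebraMap F (AlgebraicClosure k))
  have hG : G.degree ≠ 0 := by
    rw [degree_map_eq_of_injective (algebraMap F (AlgebraicClosure k)).injective]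
    intro h
    exact hg (natDegree_eq_zero_iff_degree_le_zero.2 h.le)
  obtain ⟨a, ha⟩ := IsAlgClosed.exists_root G hG
  obtain ⟨q, hq⟩ := dvd_iff_isRoot.mpr ha
  have hGx : aeval x g = (x - algebraMap _ M a) * aeval x q := by
    have h1 : aeval x g = aeval x G := by
      change _ = aeval x (g.map (algebraMap F (AlgebraicClosure k)))
      rw [aeval_map_algebraMap]
    rw [h1, hq, map_mul, map_sub, aeval_X, aeval_C]
  have hxa : IsIntegral R (x - algebraMap _ M a) := hxR.sub (Pt.integral_const R a)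
  have hqx : IsIntegral R (aeval x q) := by
    rw [aeval_eq_sum_range]
    refine IsIntegral.sum _ fun i _ => ?_
    rw [Algebra.smul_def]
    exact (Pt.integral_const R _).mul (hxR.pow i)
  have h0 : x - algebraMap _ M a ≠ 0 := by
    intro h
    rw [hGx, h, zero_mul] at hg0
    exact hg0 rfl
  have hxa' : IsIntegral R (x - algebraMap _ M a)⁻¹ := by
    have h1 : (x - algebraMap _ M a)⁻¹ = aeval x q * (aeval x g)⁻¹ := by
      have h2 : aeval x q ≠ 0 := by
        intro h
        rw [hGx, h, mul_zero] at hg0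
        exact hg0 rfl
      rw [hGx, mul_inv, mul_comm (x - algebraMap _ M a)⁻¹, ← mul_assoc, mul_inv_cancel₀ h2,
        one_mul]
    rw [h1]
    exact hqx.mul hgR
  have h2 : x = (x - algebraMap _ M a) + algebraMap _ M a := by ring
  rw [h2]
  exact add_mem (Subring.subset_closure ⟨hxa, hxa'⟩) (hc a)

/-- **The theorem.** -/
theorem geo_or_cuspG {k : Type u} [Field k] [NumberField k]
    {F : Type v} [Field F] [NumberField F] [Algebra k F]
    [Algebra F (AlgebraicClosure k)] [IsScalarTower k F (AlgebraicClosure k)]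
    {g : F[X]} (hg : g.natDegree ≠ 0)
    {K : Type*} [Field K] [Algebra k K] (htr : Algebra.trdeg k K = 1)
    (R : Subalgebra k K)
    {M : Type*} [Field M] [Algebra K M] [IsGalois K M]
    [Algebra (AlgebraicClosure k) M] [Algebra k M]
    [IsScalarTower k K M] [IsScalarTower k (AlgebraicClosure k) M]
    [Algebra F M] [IsScalarTower F (AlgebraicClosure k) M]
    (s : Gal(AlgebraicClosure k/k) →* Gal(M/K)) (hs : Continuous s)
    (hsec : ∀ σ a, s σ (algebraMap (AlgebraicClosure k) M a) =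
      algebraMap (AlgebraicClosure k) M (σ a))
    {x : M} (hfix : ∀ σ : Gal(AlgebraicClosure k/k),
      (∀ a : F, σ (algebraMap F _ a) = algebraMap F _ a) → s σ x = x)
    (hx : ∀ c : F, x ≠ algebraMap F M c)
    -- elements fixed by the section over `F`
    (S : Finset M) (hS : ∀ z ∈ S, ∀ σ : Gal(AlgebraicClosure k/k),
      (∀ a : F, σ (algebraMap F _ a) = algebraMap F _ a) → s σ z = z)
    (hM : (IsAlgClosed M ∧ R = ⊥) ∨
      (R.FG ∧ (∀ h : K, IsIntegral R h → h ∈ R) ∧ IsIntegral R x ∧ IsIntegral R (aeval x g)⁻¹ ∧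
        IsMaxUnramOver R K M (AlgebraicClosure k) ∧
        (∀ w : HeightOneSpectrum (𝓞 F),
          ∃ (ι : AlgebraicClosure k →ₐ[F] AlgebraicClosure (w.adicCompletion F))
            (A : ValuationSubring M) (φ : A →+* AlgebraicClosure (w.adicCompletion F)),
            Sel.IsPlaceOf s (w.adicCompletion F)
              (ι : _ →+* AlgebraicClosure (w.adicCompletion F)) A φ ∧
            (x ∈ A → (aeval x g)⁻¹ ∈ A → ∀ r : R, algebraMap K M r ∈ A))))
    (hT : (∃ e : F, g.eval e ≠ 0 ∧ ∀ (w : HeightOneSpectrum (𝓞 F))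
        (ι : AlgebraicClosure k →ₐ[F] AlgebraicClosure (w.adicCompletion F))
        (A : ValuationSubring M) (φ : A →+* AlgebraicClosure (w.adicCompletion F)),
        Sel.IsPlaceOf s (w.adicCompletion F)
          (ι : _ →+* AlgebraicClosure (w.adicCompletion F)) A φ →
        ∃ h : x ∈ A, φ ⟨x, h⟩ = ι (algebraMap F _ e)) ∨
      ∀ (w : HeightOneSpectrum (𝓞 F))
        (ι : AlgebraicClosure k →ₐ[F] AlgebraicClosure (w.adicCompletion F))
        (A : ValuationSubring M) (φ : A →+* AlgebraicClosure (w.adicCompletion F)),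
        Sel.IsPlaceOf s (w.adicCompletion F)
          (ι : _ →+* AlgebraicClosure (w.adicCompletion F)) A φ → x ∉ A) :
    ∃ (A₀ : ValuationSubring M) (ψ₀ : A₀ →+* AlgebraicClosure k),
      -- (G)
      (((∀ r : R, algebraMap K M r ∈ A₀) ∧ Sel.IsSectionAt s A₀ ψ₀ ∧
        (∀ (A₁ : ValuationSubring M) (ψ₁ : A₁ →+* AlgebraicClosure k), Sel.IsSectionAt s A₁ ψ₁ →
          (∀ (r : R) (h₀ : algebraMap K M r ∈ A₀), ∃ h₁ : algebraMap K M r ∈ A₁,
            (IsAlgClosed M ∨ algebraMap K M r ∈ unitRing R M) ∨ ψ₁ ⟨_, h₁⟩ = ψ₀ ⟨_, h₀⟩) →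
          A₁ = A₀ ∧ ∀ (a : A₁) (b : A₀), (a : M) = b → ψ₁ a = ψ₀ b) ∧
        (∀ h : K, algebraMap K M h ∈ A₀ → (IsAlgClosed M ∨ algebraMap K M h ∈ unitRing R M) →
          HasValOver s R F A₀ ψ₀ h) ∧
        -- values of the elements of `F(S)`
        (∀ z ∈ IntermediateField.adjoin F (S : Set M), z ∈ A₀ →
          (IsAlgClosed M ∨ z ∈ unitRing R M) → HasValM s R F A₀ ψ₀ z) ∧
        (¬ IsAlgClosed M → HasValM s R F A₀ ψ₀ x ∧ ∀ (w : HeightOneSpectrum (𝓞 F))
          (ι : AlgebraicClosure k →ₐ[F] AlgebraicClosure (w.adicCompletion F))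
          (A : ValuationSubring M) (φ : A →+* AlgebraicClosure (w.adicCompletion F)),
          Sel.IsPlaceOf s (w.adicCompletion F)
            (ι : _ →+* AlgebraicClosure (w.adicCompletion F)) A φ →
          x ∈ A ∧ (aeval x g)⁻¹ ∈ A) ∧
        (IsAlgClosed M → ∀ (w : HeightOneSpectrum (𝓞 F))
          (ι : AlgebraicClosure k →ₐ[F] AlgebraicClosure (w.adicCompletion F))
          (A : ValuationSubring M) (φ : A →+* AlgebraicClosure (w.adicCompletion F)),
          Sel.IsPlaceOf s (w.adicCompletion F)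
            (ι : _ →+* AlgebraicClosure (w.adicCompletion F)) A φ → A = A₀) ∧
        ((∀ r : R, (IsAlgClosed M ∨ algebraMap K M r ∈ unitRing R M)) →
          Sel.IsPlaceOf s k (RingHom.id _) A₀ ψ₀)) ∨
      -- (C)
      (R ≠ ⊥ ∧ x ∉ A₀ ∧
        (∀ (w : HeightOneSpectrum (𝓞 F))
          (ι : AlgebraicClosure k →ₐ[F] AlgebraicClosure (w.adicCompletion F))
          (A : ValuationSubring M) (φ : A →+* AlgebraicClosure (w.adicCompletion F)),
          Sel.IsPlaceOf s (w.adicCompletion F)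
            (ι : _ →+* AlgebraicClosure (w.adicCompletion F)) A φ → x ∉ A) ∧
        ∃ E : IntermediateField k (AlgebraicClosure k), FiniteDimensional k E ∧
          Sel.IsPlaceOf s E (RingHom.id _) A₀ ψ₀)) ∧
      -- (M algebraically closed)
      (IsAlgClosed M ∧ R = ⊥ → Sel.IsPlaceOf s k (RingHom.id _) A₀ ψ₀ ∧
        ∀ (A₁ : ValuationSubring M) (ψ₁ : A₁ →+* AlgebraicClosure k),
          Sel.IsPlaceOf s k (RingHom.id _) A₁ ψ₁ →
          A₁ = A₀ ∧ ∀ (a : A₁) (b : A₀), (a : M) = b → ψ₁ a = ψ₀ b) ∧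
      -- (`K` in `F(x, y)`)
      ∀ (f : F[X]) (y : M) (d : ℕ), f.Monic → f.Separable → 1 ≤ d → f.natDegree = 2 * d + 1 →
        y ^ 2 = aeval x f → IsIntegral R y⁻¹ → g = f →
        (∀ (τ : Gal(AlgebraicClosure k/k)) (a : F), ∃ b : F, τ (algebraMap F _ a) =
            algebraMap F _ b) →
        (∀ z : K, algebraMap K M z ∈ IntermediateField.adjoin F {x, y}) →
        (∀ σ : Gal(AlgebraicClosure k/k),
          (∀ a : F, σ (algebraMap F _ a) = algebraMap F _ a) → s σ y = y) →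
        Sel.IsPlaceOf s k (RingHom.id _) A₀ ψ₀ ∧
        ∀ (A₁ : ValuationSubring M) (ψ₁ : A₁ →+* AlgebraicClosure k),
          Sel.IsPlaceOf s k (RingHom.id _) A₁ ψ₁ →
          A₁ = A₀ ∧ ∀ (a : A₁) (b : A₀), (a : M) = b → ψ₁ a = ψ₀ b := by
  classical
  have hxs : x ∈ fixF s F := hfix
  have hSs : ∀ z ∈ insert x S, z ∈ fixF s F := by
    intro z hz
    rcases Finset.mem_insert.1 hz with rfl | hz
    · exact hxs
    · exact hS z hz
  have hadj : ∀ z ∈ IntermediateField.adjoin F (S : Set M),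
      z ∈ IntermediateField.adjoin F ((insert x S : Finset M) : Set M) := by
    intro z hz
    refine IntermediateField.adjoin.mono F _ _ ?_ hz
    rw [Finset.coe_insert]
    exact Set.subset_insert _ _
  have hxadj : x ∈ IntermediateField.adjoin F ((insert x S : Finset M) : Set M) :=
    IntermediateField.subset_adjoin F _ (Finset.mem_coe.2 (Finset.mem_insert_self x S))
  have hT' : SameVal s F x := hT.imp (fun ⟨e, _, h⟩ => ⟨e, h⟩) id
  rcases hM with ⟨hcl, rfl⟩ | ⟨hfg, hRn, hxR, hgR, hM, hloc⟩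
  · -- function fields
    obtain ⟨A₀, ψ₀, h1, h2, h3, h4, h4', h5⟩ := nbhdG hg htr ⊥ s hs hsec hxs hx (insert x S) hSs
      (Or.inl ⟨hcl, rfl⟩) hT'
    have h6 : Sel.IsPlaceOf s k (RingHom.id _) A₀ ψ₀ := h5 fun _ => Or.inl hcl
    have h7 : Sel.IsPlaceOf s k (RingHom.id _) A₀ ψ₀ ∧
        ∀ (A₁ : ValuationSubring M) (ψ₁ : A₁ →+* AlgebraicClosure k),
          Sel.IsPlaceOf s k (RingHom.id _) A₁ ψ₁ →
          A₁ = A₀ ∧ ∀ (a : A₁) (b : A₀), (a : M) = b → ψ₁ a = ψ₀ b :=
      ⟨h6, fun A₁ ψ₁ h => MP_2f3286_bir.place_unique s hs h6 h⟩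
    exact ⟨A₀, ψ₀, Or.inl ⟨h1, h2, h3, h4, fun z hz => h4' z (hadj z hz), fun h => absurd hcl h,
      fun _ w ι A φ hφ => (local_unique_over htr s hs hsec hxs hx h6 w ι A φ hφ).1, h5⟩,
      fun _ => h7, fun f y d _ _ _ _ _ _ _ _ _ _ => h7⟩
  -- affine curves
  obtain ⟨t, htR, ht⟩ := exists_transc (F := F) R s hsec hxs hx hxR
  have hRbot : R ≠ ⊥ := by
    rintro rfl
    obtain ⟨c, rfl⟩ := Algebra.mem_bot.1 htR
    exact ht (isAlgebraic_algebraMap c)
  have hfin : FiniteDimensional k F := FiniteDimensional.right ℚ k F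
  have hFk : Algebra.IsAlgebraic F (AlgebraicClosure k) :=
    Algebra.IsAlgebraic.tower_top (K := k) F
  have : IsAlgClosure F (AlgebraicClosure k) := ⟨inferInstance, inferInstance⟩
  let e : AlgebraicClosure F ≃ₐ[F] AlgebraicClosure k :=
    IsAlgClosure.equiv F (AlgebraicClosure F) (AlgebraicClosure k)
  have hxt := const_of_fixF s hsec e hxs hx
  have hgx0 : aeval x g ≠ 0 := fun h0 => hxt ⟨g, fun h => hg (by rw [h, natDegree_zero]), h0⟩
  have hFA : ∀ {A : ValuationSubring M}, (∀ a : AlgebraicClosure k,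
      algebraMap (AlgebraicClosure k) M a ∈ A) → ∀ a : F, algebraMap F M a ∈ A := by
    intro A hA a
    rw [IsScalarTower.algebraMap_apply F (AlgebraicClosure k) M]
    exact hA _
  rcases hT with ⟨e₀, he0, key⟩ | key
  · have hin : ∀ (w : HeightOneSpectrum (𝓞 F))
        (ι : AlgebraicClosure k →ₐ[F] AlgebraicClosure (w.adicCompletion F))
        (A : ValuationSubring M) (φ : A →+* AlgebraicClosure (w.adicCompletion F)),
        Sel.IsPlaceOf s (w.adicCompletion F)
          (ι : _ →+* AlgebraicClosure (w.adicCompletion F)) A φ → x ∈ A ∧ (aeval x g)⁻¹ ∈ A := by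
      intro w ι A φ h
      obtain ⟨g1, g2⟩ := key w ι A φ h
      refine ⟨g1, ?_⟩
      have hkA₂ : ∀ c : F, ∃ h : algebraMap F M c ∈ A, φ ⟨_, h⟩ = ι (algebraMap F _ c) := by
        intro c
        obtain ⟨g7, g8⟩ := h.1 (algebraMap F _ c)
        refine ⟨hFA (fun a => (h.1 a).1) c, ?_⟩
        refine Eq.trans (congrArg φ (Subtype.ext ?_)) g8
        exact IsScalarTower.algebraMap_apply F (AlgebraicClosure k) M c
      have hqA : ∀ p : F[X], ∃ hp : aeval x p ∈ A,
          φ ⟨_, hp⟩ = ι (algebraMap F _ (p.eval e₀)) := by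
        intro p
        induction p using Polynomial.induction_on' with
        | add p₁ p₂ h₁ h₂ =>
          obtain ⟨a1, a2⟩ := h₁
          obtain ⟨a3, a4⟩ := h₂
          refine ⟨by rw [map_add]; exact add_mem a1 a3, ?_⟩
          have a5 : φ (⟨_, a1⟩ + ⟨_, a3⟩) = ι (algebraMap F _ ((p₁ + p₂).eval e₀)) := by
            rw [map_add, a2, a4, eval_add, map_add, map_add]
          rw [← a5]
          congr 1
          exact Subtype.ext (map_add _ _ _)
        | monomial n a =>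
          obtain ⟨a1, a2⟩ := hkA₂ a
          have a3 : aeval x (monomial n a) = algebraMap F M a * x ^ n := by
            rw [aeval_monomial]
          refine ⟨by rw [a3]; exact mul_mem a1 (pow_mem g1 n), ?_⟩
          have a5 : φ (⟨_, a1⟩ * ⟨_, g1⟩ ^ n) = ι (algebraMap F _ ((monomial n a).eval e₀)) := by
            rw [map_mul, map_pow, a2, g2, eval_monomial, map_mul, map_mul, map_pow, map_pow]
          rw [← a5]
          congr 1
          exact Subtype.ext a3
      obtain ⟨g4, g5⟩ := hqA g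
      refine h.2.1 ⟨_, g4⟩ ?_
      rw [g5, Ne, _root_.map_eq_zero, _root_.map_eq_zero]
      exact he0
    have hloc' : ∀ w : HeightOneSpectrum (𝓞 F),
        ∃ (ι : AlgebraicClosure k →ₐ[F] AlgebraicClosure (w.adicCompletion F))
          (A : ValuationSubring M) (φ : A →+* AlgebraicClosure (w.adicCompletion F)),
          IsPointOn s R (w.adicCompletion F)
            (ι : _ →+* AlgebraicClosure (w.adicCompletion F)) A φ := by
      intro w
      obtain ⟨ι, A, φ, h, h'⟩ := hloc w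
      obtain ⟨h3, h4⟩ := hin w ι A φ h
      exact ⟨ι, A, φ, h, h' h3 h4⟩
    obtain ⟨A₀, ψ₀, h1, h2, h3, h4, h4', h5⟩ := nbhdG hg htr R s hs hsec hxs
      hx (insert x S) hSs (Or.inr ⟨hfg, hRn, hxR, hgR, hM, hloc'⟩) hT'
    have hu : ∀ (A₁ : ValuationSubring M) (ψ₁ : A₁ →+* AlgebraicClosure k),
        Sel.IsSectionAt s A₁ ψ₁ →
        (∀ (r : R) (h₀ : algebraMap K M r ∈ A₀), ∃ h₁ : algebraMap K M r ∈ A₁,
          algebraMap K M r ∈ unitRing R M ∨ ψ₁ ⟨_, h₁⟩ = ψ₀ ⟨_, h₀⟩) →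
        A₁ = A₀ ∧ ∀ (a : A₁) (b : A₀), (a : M) = b → ψ₁ a = ψ₀ b := fun A₁ ψ₁ h h' =>
      h3 A₁ ψ₁ h fun r h₀ => (h' r h₀).imp fun h₁ => Or.imp_left fun h => Or.inr h
    have htow : IsScalarTower R K M := IsScalarTower.of_algebraMap_eq fun r => rfl
    have hB : ∀ z : M, IsIntegral R z → z ∈ A₀ := fun z hz =>
      PTAux.mem_of_isIntegral (R := R) h1 hz
    by_cases hcl : IsAlgClosed M
    · -- not needed, but allowed
      have h6 : Sel.IsPlaceOf s k (RingHom.id _) A₀ ψ₀ := h5 fun _ => Or.inl hcl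
      have h7 : Sel.IsPlaceOf s k (RingHom.id _) A₀ ψ₀ ∧
          ∀ (A₁ : ValuationSubring M) (ψ₁ : A₁ →+* AlgebraicClosure k),
            Sel.IsPlaceOf s k (RingHom.id _) A₁ ψ₁ →
            A₁ = A₀ ∧ ∀ (a : A₁) (b : A₀), (a : M) = b → ψ₁ a = ψ₀ b :=
        ⟨h6, fun A₁ ψ₁ h => MP_2f3286_bir.place_unique s hs h6 h⟩
      exact ⟨A₀, ψ₀, Or.inl ⟨h1, h2, h3, h4, fun z hz => h4' z (hadj z hz), fun h => absurd hcl h,
        fun _ w ι A φ hφ => (local_unique_over htr s hs hsec hxs hx h6 w ι A φ hφ).1, h5⟩,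
        fun _ => h7, fun f y d _ _ _ _ _ _ _ _ _ _ => h7⟩
    refine ⟨A₀, ψ₀, Or.inl ⟨h1, h2, h3, h4, fun z hz => h4' z (hadj z hz),
      fun _ => ⟨h4' x hxadj (hB x hxR) (Or.inr (mem_unitRing_of hg R hxR hgR hgx0)), hin⟩,
      fun h => absurd h hcl, h5⟩, fun h => absurd h.1 hcl, ?_⟩
    rintro f y d hfm hfs hd hfd hxy hyR' rfl hN hK hy
    have hys : y ∈ fixF s F := hy
    have hy0 : y ≠ 0 := by
      rintro rfl
      rw [zero_pow two_ne_zero] at hxy
      exact hgx0 hxy.symm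
    have hyR : IsIntegral R y := by
      refine IsIntegral.of_pow two_pos ?_
      rw [hxy, aeval_eq_sum_range]
      refine IsIntegral.sum _ fun i _ => ?_
      rw [Algebra.smul_def, IsScalarTower.algebraMap_apply F (AlgebraicClosure k) M]
      exact (Pt.integral_const R _).mul (hxR.pow i)
    have hyA : ∀ (w : HeightOneSpectrum (𝓞 F))
        (ι : AlgebraicClosure k →ₐ[F] AlgebraicClosure (w.adicCompletion F))
        (A : ValuationSubring M) (φ : A →+* AlgebraicClosure (w.adicCompletion F)),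
        Sel.IsPlaceOf s (w.adicCompletion F)
          (ι : _ →+* AlgebraicClosure (w.adicCompletion F)) A φ → x ∈ A ∧ y⁻¹ ∈ A := by
      intro w ι A φ h
      obtain ⟨g1, g2⟩ := hin w ι A φ h
      refine ⟨g1, Fer.mem_of_pow A two_ne_zero ?_⟩
      rw [inv_pow, hxy]
      exact g2
    refine ⟨geo_rational hg htr R hfg hRn t htR ht hM s hs hsec hxy hy0 hxR hyR hyR' hK h1 h2 hu,
      fun A₁ ψ₁ h => ?_⟩
    obtain ⟨q1, q2⟩ := resOn_of_isPlaceOf h
    obtain ⟨w⟩ := nonempty_primes F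
    obtain ⟨ι, -, -, -⟩ := hloc w
    obtain ⟨q3, q4⟩ := hyA w ι A₁ _
      (isPlaceOf_comp h (ι : _ →+* AlgebraicClosure (w.adicCompletion F)))
    exact geo_unique hg htr R hfg hRn t htR ht hM s hs hsec hxy hy0 hxR hyR hyR' hK h1 h2 hu q1 ⊤
      isOpen_univ q2 q3 q4
  · -- the cuspidal case
    have hlocx : ∀ w : HeightOneSpectrum (𝓞 F),
        ∃ (ι : AlgebraicClosure k →ₐ[F] AlgebraicClosure (w.adicCompletion F))
          (A : ValuationSubring M) (φ : A →+* AlgebraicClosure (w.adicCompletion F)),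
          Sel.IsPlaceOf s (w.adicCompletion F)
            (ι : _ →+* AlgebraicClosure (w.adicCompletion F)) A φ ∧ x ∉ A := by
      intro w
      obtain ⟨ι, A, φ, h, -⟩ := hloc w
      exact ⟨ι, A, φ, h, key w ι A φ h⟩
    have hloc₀ : ∀ w : HeightOneSpectrum (𝓞 F),
        ∃ (ι : AlgebraicClosure k →ₐ[F] AlgebraicClosure (w.adicCompletion F))
          (A : ValuationSubring M) (φ : A →+* AlgebraicClosure (w.adicCompletion F)),
          Sel.IsPlaceOf s (w.adicCompletion F)
            (ι : _ →+* AlgebraicClosure (w.adicCompletion F)) A φ := by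
      intro w
      obtain ⟨ι, A, φ, h, -⟩ := hloc w
      exact ⟨ι, A, φ, h⟩
    by_cases hl : ∃ (f : F[X]) (y : M) (d : ℕ), f.Monic ∧ f.Separable ∧ 1 ≤ d ∧
        f.natDegree = 2 * d + 1 ∧ y ^ 2 = aeval x f ∧ IsIntegral R y⁻¹ ∧
        (∀ (τ : Gal(AlgebraicClosure k/k)) (a : F), ∃ b : F, τ (algebraMap F _ a) =
            algebraMap F _ b) ∧
        (∀ z : K, algebraMap K M z ∈ IntermediateField.adjoin F {x, y}) ∧
        (∀ σ : Gal(AlgebraicClosure k/k),
          (∀ a : F, σ (algebraMap F _ a) = algebraMap F _ a) → s σ y = y)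
    · obtain ⟨f, y, d, hfm, hfs, hd, hfd, hxy, hyR', hN, hK, hy⟩ := hl
      have hyR : IsIntegral R y := by
        refine IsIntegral.of_pow two_pos ?_
        rw [hxy, aeval_eq_sum_range]
        refine IsIntegral.sum _ fun i _ => ?_
        rw [Algebra.smul_def, IsScalarTower.algebraMap_apply F (AlgebraicClosure k) M]
        exact (Pt.integral_const R _).mul (hxR.pow i)
      rcases over_dichT hfm hfs hd hfd htr R hfg hRn hM s hs hsec hxs hy hx hxy hxR hyR hyR' hloc₀
        hT' with ⟨e₁, -, h⟩ | ⟨-, A₀, ψ₀, Δ, hO, hΔ, hr, -, hlast⟩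
      · obtain ⟨w⟩ := nonempty_primes F
        obtain ⟨ι, A, φ, h8, h9⟩ := hlocx w
        exact absurd (h w ι A φ h8).1 h9
      have h8 := hlast hN hK
      have hxA : x ∉ A₀ := by
        obtain ⟨w⟩ := nonempty_primes F
        obtain ⟨ι, -, -, -⟩ := hloc w
        exact key w ι A₀ _
          (isPlaceOf_comp h8.1 (ι : _ →+* AlgebraicClosure (w.adicCompletion F)))
      exact ⟨A₀, ψ₀, Or.inr ⟨hRbot, hxA, key, exists_field hO hΔ hr⟩, fun h => absurd h.2 hRbot,
        fun _ _ _ _ _ _ _ _ _ _ _ _ _ => h8⟩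
    · obtain ⟨A₀, ψ₀, Δ, hO, hΔ, hr, hxA⟩ := cusp_overG hg htr R hfg hRn hM s hs hsec hxs hx hxR
        hgR hlocx
      refine ⟨A₀, ψ₀, Or.inr ⟨hRbot, hxA, key, exists_field hO hΔ hr⟩, fun h => absurd h.2 hRbot, ?_⟩
      rintro f y d hfm hfs hd hfd hxy hyR' rfl hN hK hy
      exact absurd ⟨g, y, d, hfm, hfs, hd, hfd, hxy, hyR', hN, hK, hy⟩ hl

end Pool.Agent.Lib.MP_2f3286_ag.UA
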