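import Pool.Agent.Lib.MP_2f3286_ag.UA.Et
import Pool.Agent.Lib.MP_2f3286_ag.HYP.CvMain
import Pool.Agent.Lib.MP_2f3286_ag.HYP.CvDesc

/-!
# Uniqueness over open subgroups gives a rational place
-/

open IntermediateField

namespace Pool.Agent.Lib.MP_2f3286_ag.UA

open Pool.Agent.Lib.MP_2f3286_ag.HYP
open Pool.Agent.Lib.MP_2f3286_ag.Sel (IsPlaceOf IsSectionAt)
open Pool.Agent.Lib.MP_2f3286_ag.SNeigh (IsOver ResOn)

variable {k : Type*} [Field k] {K M : Type*} [Field K] [Field M] [Algebra k K] [Algebra K M]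
  [Algebra (AlgebraicClosure k) M] {s : Gal(AlgebraicClosure k/k) →* Gal(M/K)}

/-- a place of the section over a finite extension -/
theorem resOn_of_place {E : IntermediateField k (AlgebraicClosure k)} {A : ValuationSubring M}
    {ψ : A →+* AlgebraicClosure k} (h : IsPlaceOf s E (RingHom.id _) A ψ) :
    IsOver A ψ ∧ ResOn s A ψ E.fixingSubgroup := by
  refine ⟨⟨h.1, h.2.1⟩, fun σ hσ z => ?_⟩
  let τ : Gal(AlgebraicClosure k/E) := IntermediateField.fixingSubgroupEquiv E ⟨σ, hσ⟩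
  exact h.2.2 σ τ (fun _ => rfl) z

/-- **A place of the section over a finite extension is the only place of the section, and is
rational**, if over every open subgroup there is at most one place. -/
theorem only_of_uniq [CharZero k]
    (hsec : ∀ σ a, s σ (algebraMap (AlgebraicClosure k) M a) =
      algebraMap (AlgebraicClosure k) M (σ a))
    {A₀ : ValuationSubring M} {ψ₀ : A₀ →+* AlgebraicClosure k}
    {E : IntermediateField k (AlgebraicClosure k)} (hE : FiniteDimensional k E)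
    (h₀ : IsPlaceOf s E (RingHom.id _) A₀ ψ₀)
    (hU : ∀ (Δ : Subgroup Gal(AlgebraicClosure k/k)), IsOpen (Δ : Set Gal(AlgebraicClosure k/k)) →
      ∀ (A₁ : ValuationSubring M) (ψ₁ : A₁ →+* AlgebraicClosure k) (A₂ : ValuationSubring M)
        (ψ₂ : A₂ →+* AlgebraicClosure k), IsOver A₁ ψ₁ → IsOver A₂ ψ₂ → ResOn s A₁ ψ₁ Δ →
        ResOn s A₂ ψ₂ Δ → A₁ = A₂) : IsOnlyPlaceFin s A₀ ψ₀ := by
  obtain ⟨hO, hR⟩ := resOn_of_place h₀
  have hEo : IsOpen (E.fixingSubgroup : Set Gal(AlgebraicClosure k/k)) :=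
    E.fixingSubgroup_isOpen
  have hmono : ∀ {A : ValuationSubring M} {ψ : A →+* AlgebraicClosure k}
      {Δ Δ' : Subgroup Gal(AlgebraicClosure k/k)}, ResOn s A ψ Δ → Δ' ≤ Δ → ResOn s A ψ Δ' :=
    fun h hle σ hσ z => h σ (hle hσ) z
  constructor
  · refine isPlaceOf_of_resOn hO (resOn_of_stab hsec hO fun τ _ z hz => ?_)
    obtain ⟨A₁, ψ₁, p1, p2, p3⟩ := SNeigh.exists_conj hsec hO τ
    let Δ' : Subgroup Gal(AlgebraicClosure k/k) :=
      E.fixingSubgroup.comap (MulAut.conj τ⁻¹).toMonoidHom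
    have hΔ' : IsOpen (Δ' : Set Gal(AlgebraicClosure k/k)) := by
      refine hEo.preimage ?_
      change Continuous fun x => τ⁻¹ * x * τ⁻¹⁻¹
      fun_prop
    have h1 : ResOn s A₁ ψ₁ Δ' := by
      refine resOn_conj p2 p3 hR fun σ hσ => ?_
      have h15 : τ⁻¹ * σ * τ⁻¹⁻¹ ∈ E.fixingSubgroup := hσ
      rwa [inv_inv] at h15
    have h2 : A₁ = A₀ := hU (Δ' ⊓ E.fixingSubgroup) (hΔ'.inter hEo) A₁ ψ₁ A₀ ψ₀ p1 hO
      (hmono h1 inf_le_left) (hmono hR inf_le_right)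
    have h3 : s τ z ∈ A₁ := (p2 _).2 (by
      have h18 : (s τ)⁻¹ (s τ z) = z := (s τ).symm_apply_apply z
      rw [h18]
      exact hz)
    rw [← h2]
    exact h3
  · intro E₁ hE₁ A₁ ψ₁ h₁
    obtain ⟨hO₁, hR₁⟩ := resOn_of_place h₁
    have hE₁o : IsOpen (E₁.fixingSubgroup : Set Gal(AlgebraicClosure k/k)) :=
      E₁.fixingSubgroup_isOpen
    have h2 : A₁ = A₀ := hU (E₁.fixingSubgroup ⊓ E.fixingSubgroup) (hE₁o.inter hEo) A₁ ψ₁ A₀ ψ₀
      hO₁ hO (hmono hR₁ inf_le_left) (hmono hR inf_le_right)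
    subst h2
    refine ⟨rfl, fun a b hab => ?_⟩
    rw [isOver_unique hO hO₁ a, Subtype.ext hab]

end Pool.Agent.Lib.MP_2f3286_ag.UA
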