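import Pool.Agent.Lib.MP_2f3286_ag.UA.GX5
import Pool.Agent.Lib.MP_2f3286_ag.UA.GX7

/-!
# Function fields: the place is the only one over all finite extensions
-/

open Polynomial IsDedekindDomain NumberField

noncomputable section

namespace Pool.Agent.Lib.MP_2f3286_ag.UA

open Pool.Agent.Lib.MP_2f3286_ag.HYP hiding affine_over over_dich
open Pool.Agent.Lib.MP_2f3286_ag.Pt Pool.Agent.Lib.MP_2f3286_ag.SNeigh
  Pool.Agent.Lib.MP_2f3286_ag.SFull Pool.Agent.Lib.MP_2f3286_ag.Koe
open Pool.Agent.Lib.MP_2f3286_ag.Sel (IsPlaceOf IsSectionAt)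

universe u v

/-- **Two places of a section of a function field over an open subgroup are equal.** -/
theorem uniq_closed {k : Type u} [Field k] [NumberField k]
    {K : Type*} [Field K] [Algebra k K]
    {M : Type*} [Field M] [IsAlgClosed M] [Algebra K M] [IsGalois K M]
    [Algebra (AlgebraicClosure k) M] [Algebra k M]
    [IsScalarTower k K M] [IsScalarTower k (AlgebraicClosure k) M]
    (s : Gal(AlgebraicClosure k/k) →* Gal(M/K)) (hs : Continuous s)
    (hsec : ∀ σ a, s σ (algebraMap (AlgebraicClosure k) M a) =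
      algebraMap (AlgebraicClosure k) M (σ a))
    (Δ : Subgroup Gal(AlgebraicClosure k/k)) (hΔ : IsOpen (Δ : Set Gal(AlgebraicClosure k/k)))
    (A₁ : ValuationSubring M) (ψ₁ : A₁ →+* AlgebraicClosure k) (A₂ : ValuationSubring M)
    (ψ₂ : A₂ →+* AlgebraicClosure k) (h₁ : IsOver A₁ ψ₁) (h₂ : IsOver A₂ ψ₂)
    (hr₁ : ResOn s A₁ ψ₁ Δ) (hr₂ : ResOn s A₂ ψ₂ Δ) : A₁ = A₂ := by
  obtain ⟨F, hF, hFΔ⟩ := (krullTopology_mem_nhds_one_iff k _ _).mp (hΔ.mem_nhds (one_mem Δ))
  have hFn : NumberField F := NumberField.of_module_finite k F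
  have hFΔ' : ∀ σ : Gal(AlgebraicClosure k/k),
      (∀ a : F, σ (algebraMap F _ a) = algebraMap F _ a) → σ ∈ Δ := by
    intro σ hσ
    apply hFΔ
    rw [SetLike.mem_coe, IntermediateField.mem_fixingSubgroup_iff]
    intro a ha
    exact hσ ⟨a, ha⟩
  have hFk : Algebra.IsAlgebraic F (AlgebraicClosure k) :=
    Algebra.IsAlgebraic.tower_top (K := k) F
  have : IsAlgClosure F (AlgebraicClosure k) := ⟨inferInstance, inferInstance⟩
  let e : AlgebraicClosure F ≃ₐ[F] AlgebraicClosure k :=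
    IsAlgClosure.equiv F (AlgebraicClosure F) (AlgebraicClosure k)
  let iFb : Algebra (AlgebraicClosure F) M :=
    ((algebraMap (AlgebraicClosure k) M).comp (e : _ →+* AlgebraicClosure k)).toAlgebra
  have he : ∀ a : AlgebraicClosure F, algebraMap (AlgebraicClosure F) M a =
      algebraMap (AlgebraicClosure k) M (e a) := fun _ => rfl
  have t2 : IsScalarTower F (AlgebraicClosure k) M := inferInstance
  let iFL : Algebra F (fixF s F) := (toFixF s F hsec).toAlgebra
  have hLM : Algebra.IsAlgebraic (fixF s F) M :=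
    Algebra.IsAlgebraic.tower_top (K := K) (fixF s F)
  have hL : ∀ σ : Gal(AlgebraicClosure k/k),
      (∀ a : F, σ (algebraMap F _ a) = algebraMap F _ a) →
      ∀ x : fixF s F, s σ (algebraMap (fixF s F) M x) = algebraMap (fixF s F) M x :=
    fun σ hσ x => x.2 σ hσ
  obtain ⟨g1, g2⟩ := down_on e he s hL h₁ hr₁ hFΔ'
  obtain ⟨g3, g4⟩ := down_on e he s hL h₂ hr₂ hFΔ'
  exact (MP_2f3286_bir.place_unique (resS s e hL) (resS_continuous s e hL hs)
    (isPlaceOf_of_resOn g3 g4) (isPlaceOf_of_resOn g1 g2)).1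

/-- **Function fields: a rational place of a section is its only place over all finite
extensions.** -/
theorem onlyFin_closed {k : Type u} [Field k] [NumberField k]
    {K : Type*} [Field K] [Algebra k K]
    {M : Type*} [Field M] [IsAlgClosed M] [Algebra K M] [IsGalois K M]
    [Algebra (AlgebraicClosure k) M] [Algebra k M]
    [IsScalarTower k K M] [IsScalarTower k (AlgebraicClosure k) M]
    (s : Gal(AlgebraicClosure k/k) →* Gal(M/K)) (hs : Continuous s)
    (hsec : ∀ σ a, s σ (algebraMap (AlgebraicClosure k) M a) =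
      algebraMap (AlgebraicClosure k) M (σ a))
    {A₀ : ValuationSubring M} {ψ₀ : A₀ →+* AlgebraicClosure k}
    {E : IntermediateField k (AlgebraicClosure k)} (hE : FiniteDimensional k E)
    (h₀ : IsPlaceOf s E (RingHom.id _) A₀ ψ₀) : IsOnlyPlaceFin s A₀ ψ₀ :=
  only_of_uniq hsec hE h₀ fun Δ hΔ A₁ ψ₁ A₂ ψ₂ h₁ h₂ hr₁ hr₂ =>
    uniq_closed s hs hsec Δ hΔ A₁ ψ₁ A₂ ψ₂ h₁ h₂ hr₁ hr₂

end Pool.Agent.Lib.MP_2f3286_ag.UA
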