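import Pool.Agent.Lib.MP_2f3286_ag.UA.Ag2
import Pool.Agent.Lib.MP_2f3286_ag.HYP.CvGeo

/-!
# Uniqueness of the place of a section on an open part of the curve: two square roots   (helper17)

Copies of the proofs in HYP/CvGeo.lean with `val_agree2` (UA/Ag2.lean) in place of `val_agree`; `y'` is treated as `y`.
-/

open Polynomial IsDedekindDomain NumberField
open scoped WithZero

noncomputable section

namespace Pool.Agent.Lib.MP_2f3286_ag.UA

open Pool.Agent.Lib.MP_2f3286_ag.HYP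
open Pool.Agent.Lib.MP_2f3286_ag.Pt Pool.Agent.Lib.MP_2f3286_ag.SNeigh
  Pool.Agent.Lib.MP_2f3286_ag.SFull Pool.Agent.Lib.MP_2f3286_ag.Koe

universe u v

/-- **If `K` is contained in `F(x, y, y')`, the place of the section on `U` is the only place at which `x` is
finite and `y` is not zero.** -/
theorem geo_unique2 {k : Type u} [Field k] [NumberField k]
    {F : Type v} [Field F] [NumberField F] [Algebra k F]
    [Algebra F (AlgebraicClosure k)] [IsScalarTower k F (AlgebraicClosure k)]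
    {f f' : F[X]} (hfd : f.natDegree ≠ 0)
    {K : Type*} [Field K] [Algebra k K] (htr : Algebra.trdeg k K = 1)
    (R : Subalgebra k K) (hfg : R.FG) (hRn : ∀ y : K, IsIntegral R y → y ∈ R)
    (t : K) (htR : t ∈ R) (ht : Transcendental k t)
    {M : Type*} [Field M] [Algebra K M] [IsGalois K M]
    [Algebra (AlgebraicClosure k) M] [Algebra k M]
    [IsScalarTower k K M] [IsScalarTower k (AlgebraicClosure k) M]
    [Algebra F M] [IsScalarTower F (AlgebraicClosure k) M]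
    (hM : IsMaxUnramOver R K M (AlgebraicClosure k))
    (s : Gal(AlgebraicClosure k/k) →* Gal(M/K)) (hs : Continuous s)
    (hsec : ∀ σ a, s σ (algebraMap (AlgebraicClosure k) M a) =
      algebraMap (AlgebraicClosure k) M (σ a))
    {x y y' : M} (hxy : y ^ 2 = aeval x f) (hy0 : y ≠ 0) (hxy' : y' ^ 2 = aeval x f')
    (hy'0 : y' ≠ 0)
    (hxR : IsIntegral R x) (hyR : IsIntegral R y) (hyR' : IsIntegral R y⁻¹)
    (hy'R : IsIntegral R y') (hy'R' : IsIntegral R y'⁻¹)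
    (hK : ∀ z : K, algebraMap K M z ∈ IntermediateField.adjoin F {x, y, y'})
    {A₀ : ValuationSubring M} {ψ₀ : A₀ →+* AlgebraicClosure k}
    (hRA : ∀ r : R, algebraMap K M r ∈ A₀) (h₀ : Sel.IsSectionAt s A₀ ψ₀)
    (huniq : ∀ (A₁ : ValuationSubring M) (ψ₁ : A₁ →+* AlgebraicClosure k),
      Sel.IsSectionAt s A₁ ψ₁ →
      (∀ (r : R) (h₀ : algebraMap K M r ∈ A₀), ∃ h₁ : algebraMap K M r ∈ A₁,
        algebraMap K M r ∈ unitRing R M ∨ ψ₁ ⟨_, h₁⟩ = ψ₀ ⟨_, h₀⟩) →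
      A₁ = A₀ ∧ ∀ (a : A₁) (b : A₀), (a : M) = b → ψ₁ a = ψ₀ b)
    {A₁ : ValuationSubring M} {ψ₁ : A₁ →+* AlgebraicClosure k} (h₁ : IsOver A₁ ψ₁)
    (Δ : Subgroup Gal(AlgebraicClosure k/k)) (hΔ : IsOpen (Δ : Set Gal(AlgebraicClosure k/k)))
    (hr₁ : ResOn s A₁ ψ₁ Δ) (hx₁ : x ∈ A₁) (hy₁ : y⁻¹ ∈ A₁)
    (hy'₁ : y'⁻¹ ∈ A₁) :
    A₁ = A₀ ∧ ∀ (a : A₁) (b : A₀), (a : M) = b → ψ₁ a = ψ₀ b := by
  classical
  have hfdim := finite_of_fg htr R hRn hfg htR ht
  have hK0 : CharZero K := charZero_of_injective_algebraMap (algebraMap k K).injective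
  have hKM : Algebra.IsAlgebraic K M := inferInstance
  have halg : Algebra.IsAlgebraic K (AlgebraicClosure M) := Algebra.IsAlgebraic.trans K M _
  have htrΩ : Algebra.trdeg k (AlgebraicClosure M) = 1 :=
    trdeg_top (K := K) (Full.trdeg_of_finite ht)
  have hMp := maxUnram_of_over R htrΩ t htR ht hM
  have hmax := Pt.radClosed_of_max R hMp
  have hKfg : (⊤ : IntermediateField k K).FG := by
    have h1 : Algebra.EssFiniteType k (IntermediateField.adjoin k {t}) :=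
      IntermediateField.essFiniteType_iff.2
        (IntermediateField.fg_adjoin_of_finite (Set.finite_singleton t))
    have h2 := Algebra.EssFiniteType.comp k (IntermediateField.adjoin k {t}) K
    exact IntermediateField.fg_top k K
  have hO₀ : IsOver A₀ ψ₀ := ⟨h₀.1, h₀.2.1⟩
  let St : Subgroup Gal(AlgebraicClosure k/k) := stab K A₀ ψ₀
  have hr₀ : ResOn s A₀ ψ₀ St := fun σ hσ z => h₀.2.2.2 σ hσ z
  have hst : IsOpen (St : Set Gal(AlgebraicClosure k/k)) := h₀.2.2.1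
  have htow : IsScalarTower R K M := IsScalarTower.of_algebraMap_eq fun r => rfl
  have hB : ∀ z : M, IsIntegral R z → z ∈ A₀ := fun z hz =>
    PTAux.mem_of_isIntegral (R := R) hRA hz
  have hk : ∀ c : AlgebraicClosure k, Ag ψ₀ ψ₁ (algebraMap _ M c) := by
    intro c
    obtain ⟨q1, q2⟩ := hO₀.1 c
    obtain ⟨q3, q4⟩ := h₁.1 c
    exact ⟨q1, q3, q4.trans q2.symm⟩
  have hunit : ∀ T : M, T ≠ 0 → IsIntegral R T → IsIntegral R T⁻¹ → T ∈ A₁ → T⁻¹ ∈ A₁ →
      Ag ψ₀ ψ₁ T := by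
    intro T hT0 hTi hTi' hT hT'
    refine ⟨hB _ hTi, hT, ?_⟩
    exact unit_agree hs (hst.inter hΔ) hO₀ h₁ (Δ := St ⊓ Δ)
      (fun σ hσ => hr₀ σ hσ.1) (fun σ hσ => hr₁ σ hσ.2) hT0
      (fun n hn => Full.root_of_unit hmax T hTi hTi' n hn) (hB _ hTi) (hB _ hTi') hT hT'
  have hFA : ∀ c : F, algebraMap F M c ∈ A₁ := fun c => by
    rw [IsScalarTower.algebraMap_apply F (AlgebraicClosure k) M]
    exact (h₁.1 _).1
  have hyA : y ∈ A₁ := by
    have h1 : y ^ 2 ∈ A₁ := by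
      rw [hxy]
      exact aeval_mem_val hFA hx₁ f
    have h2 : y = y ^ 2 * y⁻¹ := by
      rw [pow_two, mul_inv_cancel_right₀ hy0]
    rw [h2]
    exact mul_mem h1 hy₁
  have hyag := hunit y hy0 hyR hyR' hyA hy₁
  have hy'A : y' ∈ A₁ := by
    have h1 : y' ^ 2 ∈ A₁ := by
      rw [hxy']
      exact aeval_mem_val hFA hx₁ f'
    have h2 : y' = y' ^ 2 * y'⁻¹ := by
      rw [pow_two, mul_inv_cancel_right₀ hy'0]
    rw [h2]
    exact mul_mem h1 hy'₁
  have hy'ag := hunit y' hy'0 hy'R hy'R' hy'A hy'₁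
  -- the root
  obtain ⟨a₁, ha₁⟩ := IsAlgClosed.exists_root (f.map (algebraMap F (AlgebraicClosure k))) (by
    rw [degree_map]
    intro h
    exact hfd (natDegree_eq_zero_iff_degree_le_zero.2 h.le))
  obtain ⟨q, hq⟩ := dvd_iff_isRoot.mpr ha₁
  set a : M := algebraMap (AlgebraicClosure k) M a₁ with ha
  set u : M := x - a with hu
  have hyM : y ^ 2 = u * aeval x q := by
    rw [hxy]
    have h1 : aeval x f = aeval x (f.map (algebraMap F (AlgebraicClosure k))) := by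
      rw [aeval_map_algebraMap]
    rw [h1, hq, map_mul, map_sub, aeval_X, aeval_C]
  have hu0 : u ≠ 0 := by
    intro h
    rw [h, zero_mul] at hyM
    exact hy0 (pow_eq_zero_iff two_ne_zero |>.1 hyM)
  have hBk : ∀ c : AlgebraicClosure k, IsIntegral R (algebraMap (AlgebraicClosure k) M c) :=
    Pt.integral_const R
  have hui : IsIntegral R u := hxR.sub (hBk a₁)
  have hinv : u⁻¹ = aeval x q * y⁻¹ ^ 2 := by
    apply inv_eq_of_mul_eq_one_right
    rw [← mul_assoc, ← hyM, ← mul_pow, mul_inv_cancel₀ hy0, one_pow]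
  have hui' : IsIntegral R u⁻¹ := by
    rw [hinv]
    refine IsIntegral.mul ?_ (IsIntegral.pow hyR' 2)
    rw [aeval_eq_sum_range]
    refine IsIntegral.sum _ fun i _ => ?_
    rw [Algebra.smul_def]
    exact (hBk _).mul (hxR.pow i)
  have huag := hunit u hu0 hui hui' (sub_mem hx₁ (h₁.1 _).1) (by
    rw [hinv]
    refine mul_mem (aeval_mem_val (fun c => (h₁.1 c).1) hx₁ q) (pow_mem hy₁ 2))
  have hxag : Ag ψ₀ ψ₁ x := by
    have h1 : x = u + a := by rw [hu]; ring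
    rw [h1]
    exact huag.add (hk a₁)
  have hyne : ∀ h : y ∈ A₀, ψ₀ ⟨y, h⟩ ≠ 0 := by
    intro h h3
    have h4 : y⁻¹ ∈ A₀ := hB _ hyR'
    have h5 : ψ₀ (⟨y, h⟩ * ⟨_, h4⟩) = 1 := by
      rw [← map_one ψ₀]
      congr 1
      exact Subtype.ext (mul_inv_cancel₀ hy0)
    rw [map_mul, h3, zero_mul] at h5
    exact zero_ne_one h5
  have hy'ne : ∀ h : y' ∈ A₀, ψ₀ ⟨y', h⟩ ≠ 0 := by
    intro h h3
    have h4 : y'⁻¹ ∈ A₀ := hB _ hy'R'
    have h5 : ψ₀ (⟨y', h⟩ * ⟨_, h4⟩) = 1 := by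
      rw [← map_one ψ₀]
      congr 1
      exact Subtype.ext (mul_inv_cancel₀ hy'0)
    rw [map_mul, h3, zero_mul] at h5
    exact zero_ne_one h5
  have hRag : ∀ r : R, Ag ψ₀ ψ₁ (algebraMap K M r) := fun r =>
    val_agree2 two_ne_zero hxy hxy' hO₀.2 h₁.2 (fun c => by
      rw [IsScalarTower.algebraMap_apply F (AlgebraicClosure k) M]
      exact hk _) hxag hyag hy'ag hyne hy'ne (hK r) (hRA r)
  obtain ⟨g1, -⟩ := SNeigh.section_of_open hKfg htr R hfg hM s hsec (fun r => (hRag r).2.1) h₁ Δ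
    hΔ hr₁
  refine huniq A₁ ψ₁ g1 fun r hr => ?_
  obtain ⟨q1, q2, q3⟩ := hRag r
  exact ⟨q2, Or.inr q3⟩

/-- **If `K` is contained in `F(x, y, y')`, the place of the section on `U` is rational.** -/
theorem geo_rational2 {k : Type u} [Field k] [NumberField k]
    {F : Type v} [Field F] [NumberField F] [Algebra k F]
    [Algebra F (AlgebraicClosure k)] [IsScalarTower k F (AlgebraicClosure k)]
    {f f' : F[X]} (hfd : f.natDegree ≠ 0)
    {K : Type*} [Field K] [Algebra k K] (htr : Algebra.trdeg k K = 1)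
    (R : Subalgebra k K) (hfg : R.FG) (hRn : ∀ y : K, IsIntegral R y → y ∈ R)
    (t : K) (htR : t ∈ R) (ht : Transcendental k t)
    {M : Type*} [Field M] [Algebra K M] [IsGalois K M]
    [Algebra (AlgebraicClosure k) M] [Algebra k M]
    [IsScalarTower k K M] [IsScalarTower k (AlgebraicClosure k) M]
    [Algebra F M] [IsScalarTower F (AlgebraicClosure k) M]
    (hM : IsMaxUnramOver R K M (AlgebraicClosure k))
    (s : Gal(AlgebraicClosure k/k) →* Gal(M/K)) (hs : Continuous s)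
    (hsec : ∀ σ a, s σ (algebraMap (AlgebraicClosure k) M a) =
      algebraMap (AlgebraicClosure k) M (σ a))
    {x y y' : M} (hxy : y ^ 2 = aeval x f) (hy0 : y ≠ 0) (hxy' : y' ^ 2 = aeval x f')
    (hy'0 : y' ≠ 0)
    (hxR : IsIntegral R x) (hyR : IsIntegral R y) (hyR' : IsIntegral R y⁻¹)
    (hy'R : IsIntegral R y') (hy'R' : IsIntegral R y'⁻¹)
    (hK : ∀ z : K, algebraMap K M z ∈ IntermediateField.adjoin F {x, y, y'})
    {A₀ : ValuationSubring M} {ψ₀ : A₀ →+* AlgebraicClosure k}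
    (hRA : ∀ r : R, algebraMap K M r ∈ A₀) (h₀ : Sel.IsSectionAt s A₀ ψ₀)
    (huniq : ∀ (A₁ : ValuationSubring M) (ψ₁ : A₁ →+* AlgebraicClosure k),
      Sel.IsSectionAt s A₁ ψ₁ →
      (∀ (r : R) (h₀ : algebraMap K M r ∈ A₀), ∃ h₁ : algebraMap K M r ∈ A₁,
        algebraMap K M r ∈ unitRing R M ∨ ψ₁ ⟨_, h₁⟩ = ψ₀ ⟨_, h₀⟩) →
      A₁ = A₀ ∧ ∀ (a : A₁) (b : A₀), (a : M) = b → ψ₁ a = ψ₀ b) :
    Sel.IsPlaceOf s k (RingHom.id _) A₀ ψ₀ := by
  have hO₀ : IsOver A₀ ψ₀ := ⟨h₀.1, h₀.2.1⟩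
  let St : Subgroup Gal(AlgebraicClosure k/k) := stab K A₀ ψ₀
  have hr₀ : ResOn s A₀ ψ₀ St := fun σ hσ z => h₀.2.2.2 σ hσ z
  have hst : IsOpen (St : Set Gal(AlgebraicClosure k/k)) := h₀.2.2.1
  have htow : IsScalarTower R K M := IsScalarTower.of_algebraMap_eq fun r => rfl
  have hB : ∀ z : M, IsIntegral R z → z ∈ A₀ := fun z hz =>
    PTAux.mem_of_isIntegral (R := R) hRA hz
  have hBs : ∀ (g : Gal(M/K)) (z : M), IsIntegral R z → IsIntegral R (g z) := by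
    intro g z hz
    exact hz.map ((g : M →ₐ[K] M).restrictScalars R)
  refine isPlaceOf_of_resOn hO₀ (resOn_of_stab hsec hO₀ fun τ _ z hz => ?_)
  obtain ⟨A₁, ψ₁, p1, p2, p3⟩ := exists_conj hsec hO₀ τ
  let Δ' : Subgroup Gal(AlgebraicClosure k/k) :=
    St.comap (MulAut.conj τ⁻¹).toMonoidHom
  have hΔ' : IsOpen (Δ' : Set Gal(AlgebraicClosure k/k)) := by
    refine hst.preimage ?_
    change Continuous fun x => τ⁻¹ * x * τ⁻¹⁻¹
    fun_prop
  have hr₁ : ResOn s A₁ ψ₁ Δ' := resOn_conj p2 p3 hr₀ fun σ hσ => by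
    have h15 : τ⁻¹ * σ * τ⁻¹⁻¹ ∈ St := hσ
    rwa [inv_inv] at h15
  obtain ⟨h1, -⟩ := geo_unique2 hfd htr R hfg hRn t htR ht hM s hs hsec hxy hy0 hxy' hy'0 hxR hyR
    hyR' hy'R hy'R' hK hRA
    h₀ huniq p1 Δ' hΔ' hr₁ ((p2 _).2 (hB _ (hBs _ _ hxR))) ((p2 _).2 (hB _ (hBs _ _ hyR')))
    ((p2 _).2 (hB _ (hBs _ _ hy'R')))
  have h17 : s τ z ∈ A₁ := (p2 _).2 (by
    have h18 : (s τ)⁻¹ (s τ z) = z := (s τ).symm_apply_apply z
    rw [h18]
    exact hz)
  rw [← h1]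
  exact h17

end Pool.Agent.Lib.MP_2f3286_ag.UA
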