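import Mathlib

/-!
# The complex multiplication of `y ^ 2 = x ^ 3 - d x` by `i`
-/

open WeierstrassCurve WeierstrassCurve.Affine WeierstrassCurve.Affine.Point

namespace Pool.Agent.Lib.MP_2f3286_ag.UA

/-- the curve `y ^ 2 = x ^ 3 - d x` -/
def Wd {F : Type*} [Field F] (d : F) : WeierstrassCurve F := ⟨0, 0, 0, -d, 0⟩

/-- a curve `y ^ 2 = x ^ 3 + a x`, and a square root `i` of `-1` -/
structure IsCM {L : Type*} [Field L] (W : Affine L) (i : L) : Prop where
  h1 : W.a₁ = 0
  h2 : W.a₂ = 0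
  h3 : W.a₃ = 0
  h6 : W.a₆ = 0
  hi : i ^ 2 = -1

namespace IsCM

variable {L : Type*} [Field L] {W : Affine L} {i : L}

theorem i_ne_zero (h : IsCM W i) : i ≠ 0 := by
  have hi := h.hi
  rintro rfl
  rw [zero_pow two_ne_zero] at hi
  exact one_ne_zero (neg_eq_zero.1 hi.symm)

theorem negY_eq (h : IsCM W i) (x y : L) : W.negY x y = -y := by
  rw [negY, h.h1, h.h3]
  ring

theorem eqn (h : IsCM W i) {x y : L} (hP : W.Nonsingular x y) : y ^ 2 = x ^ 3 + W.a₄ * x := by
  have h1 := (W.equation_iff x y).1 hP.1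
  rw [h.h1, h.h2, h.h3, h.h6] at h1
  linear_combination h1

theorem nonsing (h : IsCM W i) {x y : L} (hP : W.Nonsingular x y) : W.Nonsingular (-x) (i * y) := by
  obtain ⟨h1, h2⟩ := (W.nonsingular_iff' x y).1 hP
  have h3 := (W.equation_iff x y).1 h1
  rw [h.h1, h.h2, h.h3] at h2
  rw [h.h1, h.h2, h.h3, h.h6] at h3
  refine (W.nonsingular_iff' _ _).2 ⟨(W.equation_iff _ _).2 ?_, ?_⟩
  · rw [h.h1, h.h2, h.h3, h.h6]
    linear_combination -h3 + y ^ 2 * h.hi
  · rw [h.h1, h.h2, h.h3]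
    refine h2.imp (fun h4 h5 => h4 ?_) fun h4 h5 => h4 ?_
    · linear_combination h5
    · have h6 : i * (2 * y) = 0 := by linear_combination h5
      have h7 : 2 * y = 0 := (mul_eq_zero.1 h6).resolve_left h.i_ne_zero
      linear_combination h7

variable [DecidableEq L]

/-- multiplication by `i` -/
def jFun (h : IsCM W i) : W.Point → W.Point
  | .zero => .zero
  | .some _ _ hP => .some _ _ (h.nonsing hP)

theorem slope_j (h : IsCM W i) {x₁ x₂ y₁ y₂ : L} (hxy : ¬(x₁ = x₂ ∧ y₁ = W.negY x₂ y₂))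
    (h₁ : W.Nonsingular x₁ y₁) (h₂ : W.Nonsingular x₂ y₂) :
    W.slope (-x₁) (-x₂) (i * y₁) (i * y₂) = -i * W.slope x₁ x₂ y₁ y₂ := by
  have hi := h.hi
  have hi0 := h.i_ne_zero
  by_cases hx : x₁ = x₂
  · subst hx
    have hy : y₁ ≠ W.negY x₁ y₂ := fun h' => hxy ⟨rfl, h'⟩
    have hy' : i * y₁ ≠ W.negY (-x₁) (i * y₂) := by
      rw [h.negY_eq] at hy ⊢
      intro h'
      apply hy
      apply mul_left_cancel₀ hi0
      linear_combination h'
    rw [slope_of_Y_ne rfl hy, slope_of_Y_ne rfl hy', h.h1, h.h2, h.negY_eq, h.negY_eq]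
    have hyy : y₁ = y₂ := by
      rcases Y_eq_of_X_eq h₁.1 h₂.1 rfl with h' | h'
      · exact h'
      · exact absurd h' hy
    have h2y : y₁ - -y₁ ≠ 0 := by
      rw [h.negY_eq] at hy
      rw [← hyy] at hy
      exact sub_ne_zero.2 hy
    have h2y' : i * y₁ - -(i * y₁) ≠ 0 := by
      have : i * y₁ - -(i * y₁) = i * (y₁ - -y₁) := by ring
      rw [this]
      exact mul_ne_zero hi0 h2y
    rw [← mul_div_assoc, div_eq_div_iff h2y' h2y]
    linear_combination (2 * y₁ * (3 * x₁ ^ 2 + W.a₄)) * hi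
  · have hx' : -x₁ ≠ -x₂ := fun h' => hx (neg_injective h')
    rw [slope_of_X_ne hx, slope_of_X_ne hx', ← mul_div_assoc,
      div_eq_div_iff (sub_ne_zero.2 hx') (sub_ne_zero.2 hx)]
    ring

/-- multiplication by `i` as a homomorphism -/
def j (h : IsCM W i) : W.Point →+ W.Point where
  toFun := h.jFun
  map_zero' := rfl
  map_add' := by
    rintro (_ | ⟨x₁, y₁, h₁⟩) (_ | ⟨x₂, y₂, h₂⟩)
    any_goals rfl
    · by_cases hxy : x₁ = x₂ ∧ y₁ = W.negY x₂ y₂
      · rw [add_of_Y_eq hxy.1 hxy.2]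
        change (0 : W.Point) = some _ _ (h.nonsing h₁) + some _ _ (h.nonsing h₂)
        rw [add_of_Y_eq (congrArg _ hxy.1)]
        rw [hxy.2, h.negY_eq, h.negY_eq]
        ring
      · rw [add_some hxy]
        change some _ _ (h.nonsing (nonsingular_add h₁ h₂ hxy)) =
          some _ _ (h.nonsing h₁) + some _ _ (h.nonsing h₂)
        have hxy' : ¬(-x₁ = -x₂ ∧ i * y₁ = W.negY (-x₂) (i * y₂)) := by
          rintro ⟨h3, h4⟩
          apply hxy
          refine ⟨neg_injective h3, ?_⟩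
          rw [h.negY_eq] at h4 ⊢
          apply mul_left_cancel₀ h.i_ne_zero
          linear_combination h4
        rw [add_some hxy', some.injEq, h.slope_j hxy h₁ h₂]
        have hi := h.hi
        have hX : W.addX (-x₁) (-x₂) (-i * W.slope x₁ x₂ y₁ y₂) =
            -W.addX x₁ x₂ (W.slope x₁ x₂ y₁ y₂) := by
          rw [addX, addX, h.h1, h.h2]
          linear_combination (W.slope x₁ x₂ y₁ y₂) ^ 2 * hi
        refine ⟨hX.symm, ?_⟩
        rw [addY, addY, h.negY_eq, h.negY_eq, negAddY, negAddY, hX]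
        ring

theorem j_some (h : IsCM W i) {x y : L} (hP : W.Nonsingular x y) :
    h.j (.some _ _ hP) = .some _ _ (h.nonsing hP) := rfl

theorem j_j (h : IsCM W i) (P : W.Point) : h.j (h.j P) = -P := by
  rcases P with _ | ⟨x, y, hP⟩
  · rfl
  · rw [h.j_some, h.j_some, neg_some, some.injEq]
    refine ⟨neg_neg x, ?_⟩
    rw [h.negY_eq]
    linear_combination y * h.hi

/-- multiplication by `1 + i` -/
def phi (h : IsCM W i) : W.Point →+ W.Point := AddMonoidHom.id _ + h.j

/-- multiplication by `1 - i` -/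
def phi' (h : IsCM W i) : W.Point →+ W.Point := AddMonoidHom.id _ - h.j

theorem phi_apply (h : IsCM W i) (P : W.Point) : h.phi P = P + h.j P := rfl

theorem phi'_apply (h : IsCM W i) (P : W.Point) : h.phi' P = P - h.j P := rfl

theorem phi_phi' (h : IsCM W i) (P : W.Point) : h.phi (h.phi' P) = 2 • P := by
  rw [phi_apply, phi'_apply, map_sub, j_j, two_nsmul]
  abel

theorem phi'_phi (h : IsCM W i) (P : W.Point) : h.phi' (h.phi P) = 2 • P := by
  rw [phi'_apply, phi_apply, map_add, j_j, two_nsmul]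
  abel

/-- `(1 + i) ^ 2 = 2 i` -/
theorem phi_phi (h : IsCM W i) (P : W.Point) : h.phi (h.phi P) = 2 • h.j P := by
  rw [phi_apply, phi_apply, map_add, j_j, two_nsmul]
  abel

theorem phi_j (h : IsCM W i) (P : W.Point) : h.phi (h.j P) = h.j (h.phi P) := by
  rw [phi_apply, phi_apply, map_add]

/-- the kernel of `1 + i` -/
theorem phi_eq_zero (h : IsCM W i) (h2 : (2 : L) ≠ 0) {P : W.Point} (hP : h.phi P = 0) :
    P = 0 ∨ ∃ h0, P = .some 0 0 h0 := by
  rcases P with _ | ⟨x, y, hP'⟩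
  · exact Or.inl rfl
  · right
    rw [phi_apply, j_some, add_eq_zero_iff_eq_neg, neg_some, some.injEq, h.negY_eq] at hP
    obtain ⟨hx, -⟩ := hP
    have hx0 : x = 0 := by
      have : 2 * x = 0 := by linear_combination hx
      exact (mul_eq_zero.1 this).resolve_left h2
    subst hx0
    have hy0 : y = 0 := by
      have := h.eqn hP'
      rw [mul_zero, add_zero, zero_pow three_ne_zero] at this
      exact pow_eq_zero_iff two_ne_zero |>.1 this
    subst hy0
    exact ⟨hP', rfl⟩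

omit [DecidableEq L] in
theorem nonsing_zero (h : IsCM W i) (h4 : W.a₄ ≠ 0) : W.Nonsingular 0 0 := by
  refine (W.nonsingular_iff' _ _).2 ⟨(W.equation_iff _ _).2 ?_, Or.inl ?_⟩
  · rw [h.h6]
    ring
  · rw [h.h2]
    simpa using h4

/-- the point `(0, 0)` -/
def T (h : IsCM W i) (h4 : W.a₄ ≠ 0) : W.Point := .some 0 0 (h.nonsing_zero h4)

theorem phi_T (h : IsCM W i) (h4 : W.a₄ ≠ 0) : h.phi (h.T h4) = 0 := by
  rw [phi_apply, T, j_some, add_of_Y_eq]
  · simp
  · rw [h.negY_eq]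
    simp

theorem T_add_T (h : IsCM W i) (h4 : W.a₄ ≠ 0) : h.T h4 + h.T h4 = 0 := by
  rw [T, add_self_of_Y_eq]
  rw [h.negY_eq]
  simp

/-- multiplication by `1 + i` in coordinates -/
theorem phi_some (h : IsCM W i) (h2 : (2 : L) ≠ 0) {x y : L} (hP : W.Nonsingular x y) (hx : x ≠ 0) :
    ∃ (X Y : L) (hQ : W.Nonsingular X Y), h.phi (.some _ _ hP) = .some _ _ hQ ∧
      X * ((1 + i) * x) ^ 2 = y ^ 2 := by
  have hi := h.hi
  have hne : ¬(x = -x ∧ y = W.negY (-x) (i * y)) := by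
    rintro ⟨h3, -⟩
    have : 2 * x = 0 := by linear_combination h3
    exact hx ((mul_eq_zero.1 this).resolve_left h2)
  refine ⟨_, _, nonsingular_add hP (h.nonsing hP) hne, ?_, ?_⟩
  · rw [phi_apply, j_some, add_some hne]
  · have hxx : x ≠ -x := by
      intro h3
      have : 2 * x = 0 := by linear_combination h3
      exact hx ((mul_eq_zero.1 this).resolve_left h2)
    have h2x : x - -x ≠ 0 := sub_ne_zero.2 hxx
    rw [slope_of_X_ne hxx, addX, h.h1, h.h2]
    have h3 : (y - i * y) / (x - -x) = (y - i * y) / (2 * x) := by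
      congr 1
      ring
    rw [h3]
    field_simp
    linear_combination ((i ^ 2 - 1 : L) * y ^ 2 - 2 * y ^ 2) * hi

end IsCM

end Pool.Agent.Lib.MP_2f3286_ag.UA
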