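import Pool.Agent.Lib.MP_2f3286_ag.Koe.Zero

/-!
# T7: the Kummer classes of a section along a point; compatible halves

`seq_of_div` (abelian groups): let `D` be the set of `a : A` with `∀ n, ∃ ζ, 2 ^ n • ζ = a`. For `a ∈ D` there is `b ∈ D` with `2 • b = a`: the set of such `b` is finite
(a translate of the kernel of multiplication by `2`) and for every `n` it contains an element divisible by `2 ^ n` (`b = 2 ^ n ζ` with `2 ^ (n + 1) ζ = a`); pigeonhole.
`exists_class_two`: copy `Koe.exists_classes₀` (the cocycle is killed by `2 ^ (n + j)`: multiply `hc1` by it), then the pigeonhole of `Koe.assembly_zero`.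
`exists_halves`: `seq_of_div` in the additive subgroup of the points of `W` over `M` fixed by all `s σ`.
-/

open WeierstrassCurve WeierstrassCurve.Affine WeierstrassCurve.Affine.Point
open IsDedekindDomain NumberField
open Pool.Agent.Lib.MP_2f3286_ag

namespace Pool.Agent.Lib.MP_2f3286_ag.UA

open scoped Classical in
/-- Every continuous 1-cocycle of the Galois group of `k` with values in the geometric points of the
elliptic curve `W` which is killed by a power of `2` and trivial at every finite place becomes a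
coboundary after multiplication by `2 ^ j`. -/
def ShaTwoKilledBy {k : Type*} [Field k] [NumberField k] (W : WeierstrassCurve k) (j : ℕ) : Prop :=
  ∀ c : Gal(AlgebraicClosure k/k) → (W⁄(AlgebraicClosure k)).Point, IsLocallyConstant c →
    (∀ σ τ, c (σ * τ) = c σ + Point.map (σ : AlgebraicClosure k →ₐ[k] AlgebraicClosure k) (c τ)) →
    (∃ n : ℕ, ∀ σ, 2 ^ n • c σ = 0) →
    (∀ v : HeightOneSpectrum (𝓞 k),
      ∃ (ι : AlgebraicClosure k →ₐ[k] AlgebraicClosure (v.adicCompletion k))
        (b : (W⁄(AlgebraicClosure (v.adicCompletion k))).Point),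
        ∀ (σ : Gal(AlgebraicClosure k/k))
          (τ : Gal(AlgebraicClosure (v.adicCompletion k)/(v.adicCompletion k))),
          (∀ a, ι (σ a) = τ (ι a)) → Point.map ι (c σ) =
            Point.map (τ : AlgebraicClosure (v.adicCompletion k) →ₐ[v.adicCompletion k]
              AlgebraicClosure (v.adicCompletion k)) b - b) →
    ∃ e : (W⁄(AlgebraicClosure k)).Point, ∀ σ : Gal(AlgebraicClosure k/k),
      2 ^ j • c σ = Point.map (σ : AlgebraicClosure k →ₐ[k] AlgebraicClosure k) e - e

/-- a sequence of halves -/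
theorem seq_of_div {A : Type*} [AddCommGroup A] (hfin : {a : A | (2 : ℕ) • a = 0}.Finite) (θ : A)
    (h : ∀ n : ℕ, ∃ ζ : A, 2 ^ n • ζ = θ) :
    ∃ ζ : ℕ → A, ζ 0 = θ ∧ ∀ n, (2 : ℕ) • ζ (n + 1) = ζ n := by
  have step : ∀ a : A, (∀ n : ℕ, ∃ ζ : A, 2 ^ n • ζ = a) →
      ∃ b : A, (∀ n : ℕ, ∃ ζ : A, 2 ^ n • ζ = b) ∧ (2 : ℕ) • b = a := by
    intro a ha
    choose ζ hζ using ha
    have hB : ∀ n, (2 : ℕ) • (2 ^ n • ζ (n + 1)) = a := by
      intro n
      rw [← mul_smul, ← pow_succ', hζ]
    have hBfin : {b : A | (2 : ℕ) • b = a}.Finite := by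
      refine (hfin.image fun t => t + 2 ^ 0 • ζ (0 + 1)).subset ?_
      intro b hb
      refine ⟨b - 2 ^ 0 • ζ (0 + 1), ?_, by simp⟩
      rw [Set.mem_ofPred_eq] at hb ⊢
      rw [smul_sub, hb, hB 0, sub_self]
    have := hBfin.to_subtype
    obtain ⟨b, hb⟩ := Finite.exists_infinite_fiber
      (fun n : ℕ => (⟨2 ^ n • ζ (n + 1), hB n⟩ : {b : A | (2 : ℕ) • b = a}))
    refine ⟨b.1, fun m => ?_, b.2⟩
    obtain ⟨n, hn, hmn⟩ := (Set.infinite_coe_iff.1 hb).exists_gt m
    refine ⟨2 ^ (n - m) • ζ (n + 1), ?_⟩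
    have h1 : 2 ^ n • ζ (n + 1) = b.1 := congrArg Subtype.val hn
    rw [← mul_smul, ← pow_add, Nat.add_sub_cancel' hmn.le, h1]
  choose! f hf1 hf2 using step
  refine ⟨fun n => f^[n] θ, rfl, fun n => ?_⟩
  have hd : ∀ n, ∀ m : ℕ, ∃ ζ : A, 2 ^ m • ζ = f^[n] θ := by
    intro n
    induction n with
    | zero => exact h
    | succ n ih =>
      rw [Function.iterate_succ_apply']
      exact hf1 _ ih
  show (2 : ℕ) • f^[n + 1] θ = f^[n] θ
  rw [Function.iterate_succ_apply']
  exact hf2 _ (hd n)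

open scoped Classical in
private theorem two_tors_finite {k M : Type*} [Field k] [Field M] [CharZero M] [Algebra k M]
    (W : WeierstrassCurve k) [W.IsShortNF] : {a : (W⁄M).Point | (2 : ℕ) • a = 0}.Finite := by
  have h1 : (W⁄M).a₁ = 0 := by
    show algebraMap k M W.a₁ = 0
    rw [W.a₁_of_isShortNF, _root_.map_zero]
  have h3 : (W⁄M).a₃ = 0 := by
    show algebraMap k M W.a₃ = 0
    rw [W.a₃_of_isShortNF, _root_.map_zero]
  have h2 : (W⁄M).a₂ = 0 := by
    show algebraMap k M W.a₂ = 0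
    rw [W.a₂_of_isShortNF, _root_.map_zero]
  let p : Polynomial M := Polynomial.X ^ 3 + (Polynomial.C (W⁄M).a₄ * Polynomial.X +
    Polynomial.C (W⁄M).a₆)
  have hp : p ≠ 0 := by
    refine Polynomial.Monic.ne_zero ?_
    refine Polynomial.monic_X_pow_add ?_
    refine lt_of_le_of_lt (Polynomial.degree_linear_le) ?_
    norm_num
  have hfin : (⋃ x ∈ {x | p.IsRoot x},
      {P : (W⁄M).Point | ∃ h, P = Point.some x 0 h}).Finite := by
    refine (Polynomial.finite_setOfPred_isRoot hp).biUnion fun x _ => ?_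
    refine Set.Subsingleton.finite ?_
    rintro P ⟨h, rfl⟩ Q ⟨h', rfl⟩
    rfl
  refine (hfin.insert (0 : (W⁄M).Point)).subset ?_
  intro P hP
  rcases P with _ | ⟨x, y, h⟩
  · exact Set.mem_insert _ _
  · refine Set.mem_insert_of_mem _ ?_
    rw [Set.mem_ofPred_eq, two_nsmul] at hP
    have h4 := eq_neg_of_add_eq_zero_left hP
    rw [neg_some] at h4
    have h5 : y = (W⁄M).negY x y := (Point.some.inj h4).2
    rw [negY, h1, h3] at h5
    have h6 : y = 0 := by
      have : 2 * y = 0 := by linear_combination h5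
      simpa using this
    subst h6
    have h7 := (equation_iff _ _).1 h.1
    rw [h1, h2, h3] at h7
    refine Set.mem_biUnion (x := x) ?_ ⟨h, rfl⟩
    show p.eval x = 0
    simp only [p, Polynomial.eval_add, Polynomial.eval_pow, Polynomial.eval_X, Polynomial.eval_mul,
      Polynomial.eval_C]
    linear_combination -h7

section

variable {k : Type*} [Field k] [NumberField k] {K M : Type*} [Field K] [Field M] [Algebra K M]
  [Algebra (AlgebraicClosure k) M] {s : Gal(AlgebraicClosure k/k) →* Gal(M/K)}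
  [Algebra k K] [Algebra k M] [IsScalarTower k K M] [IsScalarTower k (AlgebraicClosure k) M]

open Pool.Agent.Lib.MP_2f3286_ag.Top (LocalPoint IsClass kummer_class) in
open scoped Classical in
/-- one rational point for all classes modulo powers of `2` -/
theorem exists_class_two (W : WeierstrassCurve k) [W.IsElliptic] [Algebra.IsAlgebraic K M]
    (hs : Continuous s)
    (hsec : ∀ σ a, s σ (algebraMap (AlgebraicClosure k) M a) =
      algebraMap (AlgebraicClosure k) M (σ a))
    (x : ∀ v : HeightOneSpectrum (𝓞 k), LocalPoint s v)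
    (hrk : ∀ Q : (W⁄k).Point, IsOfFinAddOrder Q)
    {j : ℕ} (hsha : ShaTwoKilledBy W j) (η : (W⁄K).Point)
    (hdiv : ∀ n : ℕ, 1 ≤ n → ∃ T : (W⁄M).Point, n • T = baseChange K M η) :
    ∃ R : (W⁄k).Point, ∀ n : ℕ, IsClass s W (2 ^ n) η R := by
  -- one level
  have hone : ∀ n : ℕ, ∃ R : (W⁄k).Point, IsClass s W (2 ^ n) η R := by
    intro n
    obtain ⟨T, hT⟩ := hdiv (2 ^ n * 2 ^ j) (Nat.mul_pos (by positivity) (by positivity))
    obtain ⟨c, hc1, hc2, hc3⟩ := Koe.exists_cocycle₀ s hs hsec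
      (Nat.mul_pos (by positivity) (by positivity)) η T hT
    obtain ⟨e, he⟩ := hsha c hc3 hc2 (by
        refine ⟨n + j, fun σ => ?_⟩
        apply Top.bc_injective (W := W) (AlgebraicClosure k) M
        rw [map_nsmul, hc1, pow_add, smul_sub, ← map_nsmul, hT, _root_.map_zero, sub_eq_zero]
        exact Top.act_baseChange (s σ) η) (by
      intro v
      refine ⟨(x v).ι, (x v).isPlaceOf.val s T, fun σ τ h => ?_⟩
      rw [← (x v).isPlaceOf.val_const s, hc1, map_sub, (x v).isPlaceOf.val_act s σ τ h])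
    exact kummer_class s hsec η T hT c hc1 e he
  have hfin : Finite (W⁄k).Point := by
    have h := Top.torsion_finite (W := (W⁄k))
    rw [Set.eq_univ_of_forall (s := {t : (W⁄k).Point | IsOfFinAddOrder t}) hrk] at h
    exact Set.finite_univ_iff.mp h
  by_contra hcon
  push Not at hcon
  choose N hN using hcon
  have := Fintype.ofFinite (W⁄k).Point
  obtain ⟨R, hR⟩ := hone (∑ R : (W⁄k).Point, N R)
  have hle : N R ≤ ∑ R : (W⁄k).Point, N R :=
    Finset.single_le_sum (fun _ _ => Nat.zero_le _) (Finset.mem_univ R)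
  rw [← Nat.add_sub_cancel' hle, pow_add] at hR
  exact hN R (Top.IsClass.of_mul s hR)

open scoped Classical in
/-- **Compatible halves, fixed by the section.** -/
theorem exists_halves (W : WeierstrassCurve k) [W.IsShortNF] [W.IsElliptic]
    [Algebra.IsAlgebraic K M] [IsAlgClosed M] (hs : Continuous s)
    (hsec : ∀ σ a, s σ (algebraMap (AlgebraicClosure k) M a) =
      algebraMap (AlgebraicClosure k) M (σ a))
    (ι : ∀ v : HeightOneSpectrum (𝓞 k),
      AlgebraicClosure k →ₐ[k] AlgebraicClosure (v.adicCompletion k))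
    (A : HeightOneSpectrum (𝓞 k) → ValuationSubring M)
    (φ : ∀ v : HeightOneSpectrum (𝓞 k), A v →+* AlgebraicClosure (v.adicCompletion k))
    (hφ : ∀ v, Sel.IsPlaceOf s (v.adicCompletion k)
      (ι v : _ →+* AlgebraicClosure (v.adicCompletion k)) (A v) (φ v))
    (hrk : ∀ Q : (W⁄k).Point, IsOfFinAddOrder Q)
    {j : ℕ} (hsha : ShaTwoKilledBy W j) (η : (W⁄K).Point)
    (hη : ¬ ∃ Q : (W⁄k).Point, η = baseChange k K Q)
    (hdiv : ∀ n : ℕ, 1 ≤ n → ∃ T : (W⁄M).Point, n • T = baseChange K M η) :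
    ∃ ζ : ℕ → (W⁄M).Point, (∀ n σ, Top.act W (s σ) (ζ n) = ζ n) ∧
      (∀ n, (2 : ℕ) • ζ (n + 1) = ζ n) ∧ ¬ ∃ Q : (W⁄k).Point, ζ 0 = baseChange k M Q := by
  obtain ⟨R, hR⟩ := exists_class_two W hs hsec
    (fun v => Top.LocalPoint.ofPlace (ι v) (A v) (φ v) (hφ v)) hrk hsha η hdiv
  have hM : CharZero M := charZero_of_injective_algebraMap (algebraMap k M).injective
  let G : AddSubgroup (W⁄M).Point :=
    { carrier := {ζ | ∀ σ, Top.act W (s σ) ζ = ζ}
      zero_mem' := fun σ => _root_.map_zero _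
      add_mem' := by
        intro a b ha hb σ
        rw [map_add, ha, hb]
      neg_mem' := by
        intro a ha σ
        rw [map_neg, ha] }
  have hθ : baseChange K M η - baseChange k M R ∈ G := by
    intro σ
    rw [map_sub, Top.act_baseChange, ← Top.bc_bc (F := K) (L := M), Top.act_baseChange]
  have hfin : {a : G | (2 : ℕ) • a = 0}.Finite := by
    refine Set.Finite.of_finite_image ((two_tors_finite (M := M) W).subset ?_)
      (Subtype.val_injective.injOn)
    rintro _ ⟨a, ha, rfl⟩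
    have := congrArg (Subtype.val : G → _) ha
    exact this
  obtain ⟨ζ, h0, h1⟩ := seq_of_div hfin ⟨_, hθ⟩ (by
    intro n
    obtain ⟨z, hz1, hz2⟩ := hR n
    exact ⟨⟨z, hz1⟩, Subtype.ext hz2⟩)
  refine ⟨fun n => (ζ n : (W⁄M).Point), fun n σ => (ζ n).2 σ, fun n => ?_, ?_⟩
  · exact congrArg (Subtype.val : G → _) (h1 n)
  · rintro ⟨Q, hQ⟩
    have hQ' : ((ζ 0 : G) : (W⁄M).Point) = baseChange k M Q := hQ
    rw [h0] at hQ'
    apply hη
    refine ⟨Q + R, ?_⟩
    apply Top.bc_injective (W := W) K M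
    rw [Top.bc_bc, map_add]
    exact sub_eq_iff_eq_add.1 hQ'

end

end Pool.Agent.Lib.MP_2f3286_ag.UA
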