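import Pool.Agent.Lib.MP_2f3286_ag.UA.HTor
import Pool.Agent.Lib.MP_2f3286_ag.UA.T7

/-!
# The `2`-primary part of the Tate-Shafarevich group of `y ^ 2 = x ^ 3 - d x`, for `d` with small
Selmer group, is zero
-/

open WeierstrassCurve WeierstrassCurve.Affine WeierstrassCurve.Affine.Point
open NumberField IsDedekindDomain
open Pool.Agent.Lib.MP_2f3286_ag.Top (act act_mul act_eq_nhds exists_of_fixed some_ext)

namespace Pool.Agent.Lib.MP_2f3286_ag.UA

namespace IsCM

section add_T

variable {L : Type*} [Field L] {W : Affine L} {i : L} [DecidableEq L]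

/-- the sum with `(0, 0)`, both coordinates -/
theorem add_T' (h : IsCM W i) (h4 : W.a₄ ≠ 0) {x y : L} (hP : W.Nonsingular x y) (hx : x ≠ 0) :
    ∃ (X Y : L) (hQ : W.Nonsingular X Y), .some _ _ hP + h.T h4 = .some _ _ hQ ∧
      X * x = W.a₄ ∧ Y * x = -(y * X) := by
  have hne : ¬(x = 0 ∧ y = W.negY 0 0) := fun h' => hx h'.1
  have he := h.eqn hP
  obtain ⟨w, hw⟩ : ∃ w, w = y / x := ⟨_, rfl⟩
  have hy : y = w * x := by rw [hw, div_mul_cancel₀ _ hx]
  have hs : W.slope x 0 y 0 = w := by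
    rw [slope_of_X_ne hx, sub_zero, sub_zero, hw]
  refine ⟨_, _, nonsingular_add hP (h.nonsing_zero h4) hne, by rw [T, add_some hne], ?_, ?_⟩
  · rw [hs, addX, h.h1, h.h2]
    have h1 : x * (w ^ 2 * x - x ^ 2 - W.a₄) = 0 := by
      rw [hy] at he
      linear_combination he
    have h3 := (mul_eq_zero.1 h1).resolve_left hx
    linear_combination h3
  · rw [hs, addY, h.negY_eq, negAddY, addX, h.h1, h.h2, hy]
    ring

omit [DecidableEq L] in
theorem T_ne_zero (h : IsCM W i) (h4 : W.a₄ ≠ 0) : h.T h4 ≠ 0 := some_ne_zero _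

end add_T

section base

variable {F : Type*} [Field F] {W : Affine F} {i : F}

theorem base (h : IsCM W i) (L : Type*) [Field L] [Algebra F L] :
    IsCM (W⁄L) (algebraMap F L i) where
  h1 := by
    show algebraMap F L W.a₁ = 0
    rw [h.h1, _root_.map_zero]
  h2 := by
    show algebraMap F L W.a₂ = 0
    rw [h.h2, _root_.map_zero]
  h3 := by
    show algebraMap F L W.a₃ = 0
    rw [h.h3, _root_.map_zero]
  h6 := by
    show algebraMap F L W.a₆ = 0
    rw [h.h6, _root_.map_zero]
  hi := by rw [← _root_.map_pow, h.hi, _root_.map_neg, _root_.map_one]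

theorem base_a₄ (h4 : W.a₄ ≠ 0) (L : Type*) [Field L] [Algebra F L] : (W⁄L).a₄ ≠ 0 := by
  show algebraMap F L W.a₄ ≠ 0
  exact fun h0 => h4 ((_root_.map_eq_zero _).1 h0)

variable {L L' S : Type*} [Field L] [Field L'] [Algebra F L] [Algebra F L'] [Field S]
  [Algebra F S] [Algebra S L] [Algebra S L'] [IsScalarTower F S L] [IsScalarTower F S L']
  [DecidableEq L] [DecidableEq L']

theorem map_j (h : IsCM W i) (f : L →ₐ[S] L') (P : (W⁄L).Point) :
    map f ((h.base L).j P) = (h.base L').j (map f P) := by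
  rcases P with _ | ⟨x, y, hP⟩
  · rfl
  · refine some_ext _ _ (_root_.map_neg f x) ?_
    show f (algebraMap F L i * y) = algebraMap F L' i * f y
    rw [_root_.map_mul, IsScalarTower.algebraMap_apply F S L, f.commutes,
      ← IsScalarTower.algebraMap_apply]

theorem map_phi (h : IsCM W i) (f : L →ₐ[S] L') (P : (W⁄L).Point) :
    map f ((h.base L).phi P) = (h.base L').phi (map f P) := by
  rw [phi_apply, phi_apply, _root_.map_add, h.map_j]

theorem map_phi' (h : IsCM W i) (f : L →ₐ[S] L') (P : (W⁄L).Point) :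
    map f ((h.base L).phi' P) = (h.base L').phi' (map f P) := by
  rw [phi'_apply, phi'_apply, _root_.map_sub, h.map_j]

theorem map_T (h : IsCM W i) (h4 : W.a₄ ≠ 0) (f : L →ₐ[S] L') :
    map f ((h.base L).T (base_a₄ h4 L)) = (h.base L').T (base_a₄ h4 L') :=
  some_ext _ _ (_root_.map_zero f) (_root_.map_zero f)

end base

end IsCM

section loc

variable {F E Eb : Type*} [Field F] [Field E] [Field Eb] [Algebra F E] [Algebra F Eb]
  [Algebra E Eb] [IsScalarTower F E Eb] [IsGalois E Eb] {i d : F} {W : Affine F}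
  [DecidableEq Eb]

omit [DecidableEq Eb] in
theorem mem_of_fixed {z : Eb} (hz : ∀ τ : Gal(Eb/E), τ z = z) : ∃ w : E, algebraMap E Eb w = z := by
  have : z ∈ (⊥ : IntermediateField E Eb) := by
    rw [InfiniteGalois.mem_bot_iff_fixed]; exact hz
  exact IntermediateField.mem_bot.mp this

omit [DecidableEq Eb] in
theorem isSquare_of_fixed {z : Eb} (hz : ∀ τ : Gal(Eb/E), τ z = z) {ξ : E}
    (h : z ^ 2 = algebraMap E Eb ξ) : IsSquare ξ := by
  obtain ⟨w, rfl⟩ := mem_of_fixed hz
  refine ⟨w, (algebraMap E Eb).injective ?_⟩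
  rw [← h, _root_.map_mul, sq]

/-- the local computation -/
theorem local_class (h : IsCM W i) (hd : d ≠ 0) (h4 : W.a₄ = -d) (h2 : (2 : Eb) ≠ 0) {ξ : F}
    {z : Eb} (hz : z ^ 2 = algebraMap F Eb ξ) (R : (W⁄Eb).Point)
    (hR : ∀ τ : Gal(Eb/E), (τ z = z ∧ act W τ R = R) ∨
      (τ z = -z ∧ act W τ R = R + (h.base Eb).T (IsCM.base_a₄ (h4 ▸ neg_ne_zero.2 hd) Eb))) :
    IsSquare (algebraMap F E ξ) ∨ IsSquare (algebraMap F E (ξ * d)) ∨
      ∃ x y : E, x ≠ 0 ∧ y ^ 2 = x ^ 3 - algebraMap F E d * x ∧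
        IsSquare (algebraMap F E ξ * x) := by
  let _ : DecidableEq E := Classical.decEq E
  have hz' : z ^ 2 = algebraMap E Eb (algebraMap F E ξ) := by
    rw [hz, ← IsScalarTower.algebraMap_apply]
  have h40 : W.a₄ ≠ 0 := h4 ▸ neg_ne_zero.2 hd
  set hb := h.base Eb with hhb
  have hb4 : (W⁄Eb).a₄ ≠ 0 := IsCM.base_a₄ h40 Eb
  have hb4' : (W⁄Eb).a₄ = -algebraMap F Eb d := by
    show algebraMap F Eb W.a₄ = _
    rw [h4, _root_.map_neg]
  rcases hRc : R with _ | ⟨x, y, hxy⟩
  · left
    refine isSquare_of_fixed (fun τ => ?_) hz'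
    rcases hR τ with ⟨h1, -⟩ | ⟨-, h1⟩
    · exact h1
    · rw [hRc] at h1
      exact absurd (((zero_add _).symm.trans h1.symm).trans rfl) (hb.T_ne_zero hb4)
  by_cases hx : x = 0
  · left
    refine isSquare_of_fixed (fun τ => ?_) hz'
    rcases hR τ with ⟨h1, -⟩ | ⟨-, h1⟩
    · exact h1
    · exfalso
      subst hx
      have hy0 : y = 0 := by
        have := hb.eqn hxy
        rw [mul_zero, add_zero, zero_pow three_ne_zero] at this
        exact pow_eq_zero_iff two_ne_zero |>.1 this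
      subst hy0
      have h3 : R = hb.T hb4 := hRc
      rw [h3, hb.T_add_T] at h1
      have h5 : act W τ (hb.T hb4) = hb.T hb4 := h.map_T h40 (τ : Eb →ₐ[E] Eb)
      rw [h5] at h1
      exact hb.T_ne_zero hb4 h1
  -- `x ≠ 0`
  have he := hb.eqn hxy
  rw [hb4'] at he
  obtain ⟨X, Y, hXY, hadd, hX, hY⟩ := hb.add_T' hb4 hxy hx
  rw [hb4'] at hX
  have hX0 : X ≠ 0 := by
    rintro rfl
    rw [zero_mul] at hX
    exact hb4 (hb4'.trans hX.symm)
  have hτ : ∀ τ : Gal(Eb/E), (τ z = z ∧ τ x = x ∧ τ y = y) ∨ (τ z = -z ∧ τ x = X ∧ τ y = Y) := by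
    intro τ
    rcases hR τ with ⟨h1, h3⟩ | ⟨h1, h3⟩
    · left
      rw [hRc] at h3
      exact ⟨h1, some.inj h3⟩
    · right
      rw [hRc, hadd] at h3
      exact ⟨h1, some.inj h3⟩
  by_cases hy : y = 0
  · right; left
    have hxd : x ^ 2 = algebraMap F Eb d := by
      have h5 : x * (x ^ 2 - algebraMap F Eb d) = 0 := by
        rw [hy] at he
        linear_combination -he
      exact sub_eq_zero.1 ((mul_eq_zero.1 h5).resolve_left hx)
    have hXx : X = -x := by
      apply mul_right_cancel₀ hx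
      rw [hX, ← hxd]
      ring
    refine isSquare_of_fixed (z := z * x) (fun τ => ?_) ?_
    · rcases hτ τ with ⟨h1, h3, -⟩ | ⟨h1, h3, -⟩
      · rw [_root_.map_mul, h1, h3]
      · rw [_root_.map_mul, h1, h3, hXx]
        ring
    · rw [← IsScalarTower.algebraMap_apply, _root_.map_mul, ← hz, ← hxd]
      ring
  · right; right
    obtain ⟨t, ht⟩ : ∃ t : E, algebraMap E Eb t = z * (y / x) := by
      apply mem_of_fixed
      intro τ
      rcases hτ τ with ⟨h1, h3, h5⟩ | ⟨h1, h3, h5⟩
      · rw [_root_.map_mul, map_div₀, h1, h3, h5]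
      · rw [_root_.map_mul, map_div₀, h1, h3, h5]
        have : Y / X = -(y / x) := by
          rw [← neg_div, div_eq_div_iff hX0 hx, hY]
          ring
        rw [this]
        ring
    obtain ⟨X', Y', hXY', hphi, hX'⟩ := hb.phi_some h2 hxy hx
    obtain ⟨Q, hQ⟩ := exists_of_fixed (F := E) (hb.phi R) (by
      intro τ
      rw [act, h.map_phi]
      rcases hR τ with ⟨-, h3⟩ | ⟨-, h3⟩
      · rw [act] at h3
        rw [h3]
      · rw [act] at h3
        rw [h3, _root_.map_add, hb.phi_T, add_zero])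
    rw [hRc, hphi] at hQ
    rcases Q with _ | ⟨a, b, hab⟩
    · exact absurd hQ.symm (some_ne_zero _)
    have hab1 : algebraMap E Eb a = X' ∧ algebraMap E Eb b = Y' := some.inj hQ
    obtain ⟨hab2, -⟩ := hab1
    have h1i : (1 + algebraMap F Eb i) ≠ 0 := by
      intro h0
      have hi := hb.hi
      have h5 : algebraMap F Eb i = -1 := by linear_combination h0
      rw [h5] at hi
      apply h2
      linear_combination hi
    refine ⟨a, b, ?_, ?_, ?_⟩
    · rintro rfl
      rw [_root_.map_zero] at hab2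
      rw [← hab2, zero_mul] at hX'
      exact hy (pow_eq_zero_iff two_ne_zero |>.1 hX'.symm)
    · have := (h.base E).eqn hab
      rw [this]
      have h6 : (W⁄E).a₄ = -algebraMap F E d := by
        show algebraMap F E W.a₄ = _
        rw [h4, _root_.map_neg]
      rw [h6]
      ring
    · refine ⟨t / (1 + algebraMap F E i), (algebraMap E Eb).injective ?_⟩
      rw [_root_.map_mul, _root_.map_mul, map_div₀, _root_.map_add, _root_.map_one,
        ← IsScalarTower.algebraMap_apply, ← IsScalarTower.algebraMap_apply, ht, hab2, ← hz]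
      field_simp
      linear_combination z ^ 2 * hX'

end loc

section glob

open scoped Classical in
/-- locally trivial continuous cocycles -/
structure LT {F : Type*} [Field F] [NumberField F] (W : WeierstrassCurve F)
    (c : Gal(AlgebraicClosure F/F) → (W⁄(AlgebraicClosure F)).Point) : Prop where
  loc : IsLocallyConstant c
  coc : ∀ σ τ, c (σ * τ) = c σ + act W σ (c τ)
  triv : ∀ v : HeightOneSpectrum (𝓞 F),
      ∃ (ι : AlgebraicClosure F →ₐ[F] AlgebraicClosure (v.adicCompletion F))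
        (b : (W⁄(AlgebraicClosure (v.adicCompletion F))).Point),
        ∀ (σ : Gal(AlgebraicClosure F/F))
          (τ : Gal(AlgebraicClosure (v.adicCompletion F)/(v.adicCompletion F))),
          (∀ a, ι (σ a) = τ (ι a)) → Point.map ι (c σ) = act W τ b - b

variable {F : Type*} [Field F] [NumberField F] {W : WeierstrassCurve F} {i d : F}

open scoped Classical in
theorem LT.nsmul {c : Gal(AlgebraicClosure F/F) → (W⁄(AlgebraicClosure F)).Point} (hc : LT W c)
    (n : ℕ) : LT W fun σ => n • c σ where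
  loc := hc.loc.comp (fun P => n • P)
  coc σ τ := by
    show n • c (σ * τ) = n • c σ + act W σ (n • c τ)
    rw [hc.coc, nsmul_add, _root_.map_nsmul]
  triv v := by
    obtain ⟨ι, b, h⟩ := hc.triv v
    refine ⟨ι, n • b, fun σ τ hστ => ?_⟩
    rw [_root_.map_nsmul, h σ τ hστ, _root_.map_nsmul, smul_sub]

open scoped Classical in
theorem LT.phi {c : Gal(AlgebraicClosure F/F) → (W⁄(AlgebraicClosure F)).Point} (hc : LT W c)
    (h : IsCM W i) : LT W fun σ => (h.base (AlgebraicClosure F)).phi (c σ) where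
  loc := hc.loc.comp (fun P => (h.base (AlgebraicClosure F)).phi P)
  coc σ τ := by rw [hc.coc, _root_.map_add, act, h.map_phi]
  triv v := by
    obtain ⟨ι, b, h'⟩ := hc.triv v
    refine ⟨ι, (h.base (AlgebraicClosure (v.adicCompletion F))).phi b, fun σ τ hστ => ?_⟩
    rw [h.map_phi, h' σ τ hστ, _root_.map_sub, act, h.map_phi]

open scoped Classical in
theorem LT.phi' {c : Gal(AlgebraicClosure F/F) → (W⁄(AlgebraicClosure F)).Point} (hc : LT W c)
    (h : IsCM W i) : LT W fun σ => (h.base (AlgebraicClosure F)).phi' (c σ) where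
  loc := hc.loc.comp (fun P => (h.base (AlgebraicClosure F)).phi' P)
  coc σ τ := by rw [hc.coc, _root_.map_add, act, h.map_phi']
  triv v := by
    obtain ⟨ι, b, h'⟩ := hc.triv v
    refine ⟨ι, (h.base (AlgebraicClosure (v.adicCompletion F))).phi' b, fun σ τ hστ => ?_⟩
    rw [h.map_phi', h' σ τ hστ, _root_.map_sub, act, h.map_phi']

open scoped Classical in
/-- the kernel of `1 + i` on the classes: this is the Selmer group -/
theorem sha_base (h : IsCM W i) (hd : d ≠ 0) (h4 : W.a₄ = -d) (hS : SelTriv d)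
    {c : Gal(AlgebraicClosure F/F) → (W⁄(AlgebraicClosure F)).Point} (hc : LT W c)
    {P : (W⁄(AlgebraicClosure F)).Point}
    (hP : ∀ σ, (h.base (AlgebraicClosure F)).phi (c σ) = act W σ P - P) :
    ∃ e, ∀ σ, c σ = act W σ e - e := by
  have h40 : W.a₄ ≠ 0 := h4 ▸ neg_ne_zero.2 hd
  have hell : W.IsElliptic := IsCM.isElliptic h two_ne_zero h40
  set hb := h.base (AlgebraicClosure F) with hhb
  have hchar : CharZero (AlgebraicClosure F) :=
    charZero_of_injective_algebraMap (algebraMap F (AlgebraicClosure F)).injective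
  have hgal : IsGalois F (AlgebraicClosure F) := IsAlgClosure.isGalois F (AlgebraicClosure F)
  have hb4 : (W⁄(AlgebraicClosure F)).a₄ ≠ 0 := IsCM.base_a₄ h40 _
  -- a preimage of `P`
  obtain ⟨R₀, hR₀⟩ := Pt.Div.divisible (k := F) (W := W) (kb := AlgebraicClosure F) (n := 2)
    (by norm_num) P
  obtain ⟨Q, hQ⟩ : ∃ Q, hb.phi Q = P := ⟨hb.phi' R₀, by rw [hb.phi_phi', hR₀]⟩
  have hTfix : ∀ σ : Gal(AlgebraicClosure F/F), act W σ (hb.T hb4) = hb.T hb4 := fun σ =>
    h.map_T h40 (σ : AlgebraicClosure F →ₐ[F] AlgebraicClosure F)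
  obtain ⟨c', hc'⟩ : ∃ c' : Gal(AlgebraicClosure F/F) → (W⁄(AlgebraicClosure F)).Point,
      ∀ σ, c' σ = c σ - (act W σ Q - Q) := ⟨_, fun σ => rfl⟩
  have hval : ∀ σ, c' σ = 0 ∨ c' σ = hb.T hb4 := by
    intro σ
    have h1 : hb.phi (c' σ) = 0 := by
      have h3 : hb.phi (act W σ Q) = act W σ P := by
        rw [← hQ, act]
        exact (h.map_phi _ _).symm
      rw [hc', _root_.map_sub, _root_.map_sub, hP, h3, hQ, sub_self]
    rcases hb.phi_eq_zero two_ne_zero h1 with h3 | ⟨h0, h3⟩
    · exact Or.inl h3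
    · exact Or.inr h3
  have hcoc : ∀ σ τ, c' (σ * τ) = c' σ + c' τ := by
    intro σ τ
    have h1 : act W σ (c' τ) = c' τ := by
      rcases hval τ with h3 | h3
      · rw [h3, _root_.map_zero]
      · rw [h3, hTfix]
    rw [← h1, hc', hc', hc', hc.coc, act_mul, _root_.map_sub, _root_.map_sub]
    abel
  -- the character
  let u : Gal(AlgebraicClosure F/F) → (AlgebraicClosure F)ˣ := fun σ => if c' σ = 0 then 1 else -1
  have hu : ∀ σ, (c' σ = 0 ∧ u σ = 1) ∨ (c' σ = hb.T hb4 ∧ u σ = -1) := by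
    intro σ
    rcases hval σ with h1 | h1
    · exact Or.inl ⟨h1, if_pos h1⟩
    · refine Or.inr ⟨h1, if_neg ?_⟩
      rw [h1]
      exact hb.T_ne_zero hb4
  have hcu : ∀ σ τ : Gal(AlgebraicClosure F/F),
      (u (σ * τ) : AlgebraicClosure F) = u σ * σ (u τ) := by
    intro σ τ
    have hst := hcoc σ τ
    rcases hu σ with ⟨h1, h2⟩ | ⟨h1, h2⟩ <;> rcases hu τ with ⟨h3, h5⟩ | ⟨h3, h5⟩ <;>
      rw [h1, h3] at hst <;> rw [h2, h5]
    · rw [add_zero] at hst
      rcases hu (σ * τ) with ⟨-, h6⟩ | ⟨h6, -⟩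
      · rw [h6]
        simp
      · exact absurd (h6.symm.trans hst) (hb.T_ne_zero hb4)
    · rw [zero_add] at hst
      rcases hu (σ * τ) with ⟨h6, -⟩ | ⟨-, h6⟩
      · exact absurd (hst.symm.trans h6) (hb.T_ne_zero hb4)
      · rw [h6]
        simp
    · rw [add_zero] at hst
      rcases hu (σ * τ) with ⟨h6, -⟩ | ⟨-, h6⟩
      · exact absurd (hst.symm.trans h6) (hb.T_ne_zero hb4)
      · rw [h6]
        simp
    · rw [hb.T_add_T] at hst
      rcases hu (σ * τ) with ⟨-, h6⟩ | ⟨h6, -⟩
      · rw [h6]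
        simp
      · exact absurd (h6.symm.trans hst) (hb.T_ne_zero hb4)
  have hopen : {σ : Gal(AlgebraicClosure F/F) | u σ = 1} ∈ nhds 1 := by
    have h1 := act_eq_nhds (W := W) (MonoidHom.id (Gal(AlgebraicClosure F/F))) continuous_id Q
    have h3 : {σ : Gal(AlgebraicClosure F/F) | c σ = 0} ∈ nhds 1 := by
      have h5 : c 1 = 0 := by
        have h6 := hc.coc 1 1
        have h7 : act W (1 : Gal(AlgebraicClosure F/F)) (c 1) = c 1 := by
          rcases c 1 with _ | ⟨x, y, hxy⟩ <;> rfl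
        rw [mul_one, h7] at h6
        exact (left_eq_add.1 h6)
      have h8 := (IsLocallyConstant.iff_eventually_eq c).1 hc.loc 1
      rw [h5] at h8
      exact h8
    filter_upwards [h1, h3] with σ h1 h3
    have h1' : act W σ Q = Q := h1
    have h3' : c σ = 0 := h3
    have h9 : c' σ = 0 := by rw [hc', h1', h3', sub_self, sub_zero]
    exact if_pos h9
  obtain ⟨z, hz⟩ := hilbert90 F (AlgebraicClosure F) u hcu hopen
  have hz1 : ∀ σ : Gal(AlgebraicClosure F/F), (c' σ = 0 ∧ σ (z : AlgebraicClosure F) = z) ∨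
      (c' σ = hb.T hb4 ∧ σ (z : AlgebraicClosure F) = -z) := by
    intro σ
    have h1 := hz σ
    rcases hu σ with ⟨h3, h5⟩ | ⟨h3, h5⟩
    · left
      rw [h5] at h1
      exact ⟨h3, by rw [← h1]; simp⟩
    · right
      rw [h5] at h1
      exact ⟨h3, by rw [← h1]; simp⟩
  obtain ⟨ξ, hξ⟩ : ∃ ξ : F, algebraMap F (AlgebraicClosure F) ξ = (z : AlgebraicClosure F) ^ 2 := by
    apply mem_of_fixed
    intro σ
    rw [_root_.map_pow]
    rcases hz1 σ with ⟨-, h1⟩ | ⟨-, h1⟩
    · rw [h1]
    · rw [h1, neg_sq]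
  have hξ0 : ξ ≠ 0 := by
    rintro rfl
    rw [_root_.map_zero] at hξ
    exact z.ne_zero (pow_eq_zero_iff two_ne_zero |>.1 hξ.symm)
  -- local triviality
  have hloc : ∀ v : HeightOneSpectrum (𝓞 F), InW v d ξ := by
    intro v
    obtain ⟨ι, b, hb'⟩ := hc.triv v
    have hcharv : CharZero (v.adicCompletion F) := charZero_of_injective_algebraMap
      (algebraMap F (v.adicCompletion F)).injective
    have hgalv : IsGalois (v.adicCompletion F) (AlgebraicClosure (v.adicCompletion F)) :=
      inferInstance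
    have h2v : (2 : AlgebraicClosure (v.adicCompletion F)) ≠ 0 := two_ne_zero
    refine local_class (E := v.adicCompletion F) (Eb := AlgebraicClosure (v.adicCompletion F))
      h hd h4 h2v (z := ι z) ?_ (b - Point.map ι Q) ?_
    · rw [← _root_.map_pow, ← hξ, ι.commutes]
    · intro τ
      obtain ⟨σ, hσ⟩ := Top.exists_restrict' ι τ
      have h1 := hb' σ τ hσ
      have h3 : act W τ (Point.map ι Q) = Point.map ι (act W σ Q) := by
        rcases Q with _ | ⟨x, y, hxy⟩
        · rfl
        · exact some_ext _ _ (hσ x).symm (hσ y).symm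
      have h5 : act W τ (b - Point.map ι Q) = (b - Point.map ι Q) + Point.map ι (c' σ) := by
        rw [hc', _root_.map_sub, _root_.map_sub, _root_.map_sub, h1, h3]
        abel
      rcases hz1 σ with ⟨h6, h7⟩ | ⟨h6, h7⟩
      · left
        refine ⟨by rw [← hσ, h7], ?_⟩
        rw [h5, h6, _root_.map_zero, add_zero]
      · right
        refine ⟨by rw [← hσ, h7, _root_.map_neg], ?_⟩
        rw [h5, h6]
        congr 1
        exact h.map_T h40 ι
  rcases hS ξ hξ0 hloc with ⟨r, hr⟩ | ⟨r, hr⟩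
  · -- a square
    refine ⟨Q, fun σ => ?_⟩
    have h1 : c' σ = 0 := by
      rcases hz1 σ with ⟨h1, -⟩ | ⟨-, h1⟩
      · exact h1
      · exfalso
        have h3 : (z : AlgebraicClosure F) ^ 2 = (algebraMap F (AlgebraicClosure F) r) ^ 2 := by
          rw [← hξ, hr, _root_.map_mul, sq]
        have h5 : σ (z : AlgebraicClosure F) = z := by
          rcases sq_eq_sq_iff_eq_or_eq_neg.1 h3 with h5 | h5
          · rw [h5, AlgEquiv.commutes]
          · rw [h5, _root_.map_neg, AlgEquiv.commutes]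
        rw [h5] at h1
        have h6 : (2 : AlgebraicClosure F) * z = 0 := by linear_combination h1
        exact z.ne_zero ((mul_eq_zero.1 h6).resolve_left two_ne_zero)
    rw [hc', sub_eq_zero] at h1
    exact h1
  · -- `d` times a square
    obtain ⟨δ, hδ⟩ := IsAlgClosed.exists_pow_nat_eq (algebraMap F (AlgebraicClosure F) d)
      (n := 2) (by norm_num)
    have hd' : algebraMap F (AlgebraicClosure F) d ≠ 0 := fun h0 => hd ((_root_.map_eq_zero _).1 h0)
    have hδ0 : δ ≠ 0 := by
      rintro rfl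
      rw [zero_pow two_ne_zero] at hδ
      exact hd' hδ.symm
    have hb4' : (W⁄(AlgebraicClosure F)).a₄ = -algebraMap F (AlgebraicClosure F) d := by
      show algebraMap F (AlgebraicClosure F) W.a₄ = _
      rw [h4, _root_.map_neg]
    have hns : (W⁄(AlgebraicClosure F)).Nonsingular δ 0 := by
      apply hb.nonsing_of_eqn two_ne_zero hb4
      rw [hb4', ← hδ]
      ring
    refine ⟨Q + .some _ _ hns, fun σ => ?_⟩
    have hzδ : ((z : AlgebraicClosure F) * δ) ^ 2 = (algebraMap F (AlgebraicClosure F) r) ^ 2 := by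
      rw [mul_pow, ← hξ, hδ, ← _root_.map_mul, hr, _root_.map_mul, sq]
    have h5 : σ ((z : AlgebraicClosure F) * δ) = z * δ := by
      rcases sq_eq_sq_iff_eq_or_eq_neg.1 hzδ with h5 | h5
      · rw [h5, AlgEquiv.commutes]
      · rw [h5, _root_.map_neg, AlgEquiv.commutes]
    rw [_root_.map_mul] at h5
    have h6 : c' σ = act W σ (.some _ _ hns) - .some _ _ hns := by
      rcases hz1 σ with ⟨h1, h3⟩ | ⟨h1, h3⟩
      · have h7 : σ δ = δ := by
          rw [h3] at h5
          exact mul_left_cancel₀ z.ne_zero h5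
        have h8 : act W σ (.some _ _ hns) = .some _ _ hns :=
          some_ext _ _ h7 (_root_.map_zero σ)
        rw [h8, sub_self, h1]
      · have h7 : σ δ = -δ := by
          rw [h3] at h5
          apply mul_left_cancel₀ z.ne_zero
          linear_combination -h5
        obtain ⟨X, Y, hXY, hadd, hX, hY⟩ := hb.add_T' hb4 hns hδ0
        have h8 : act W σ (.some _ _ hns) = .some _ _ hXY := by
          refine some_ext _ _ ?_ ?_
          · show σ δ = X
            rw [h7]
            apply mul_right_cancel₀ hδ0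
            rw [hX, hb4', ← hδ]
            ring
          · show σ 0 = Y
            rw [_root_.map_zero]
            apply mul_right_cancel₀ hδ0
            rw [hY]
            ring
        rw [h8, ← hadd, h1]
        abel
    rw [hc'] at h6
    rw [_root_.map_add, sub_eq_iff_eq_add.1 h6]
    abel

open scoped Classical in
/-- the step from `2` -/
theorem sha_two (h : IsCM W i) (hd : d ≠ 0) (h4 : W.a₄ = -d) (hS : SelTriv d)
    {c : Gal(AlgebraicClosure F/F) → (W⁄(AlgebraicClosure F)).Point} (hc : LT W c)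
    {P : (W⁄(AlgebraicClosure F)).Point} (hP : ∀ σ, 2 • c σ = act W σ P - P) :
    ∃ e, ∀ σ, c σ = act W σ e - e := by
  set hb := h.base (AlgebraicClosure F) with hhb
  obtain ⟨e, he⟩ := sha_base h hd h4 hS (hc.phi' h) (P := P) (by
    intro σ
    rw [← hP, hb.phi_phi'])
  refine sha_base h hd h4 hS hc (P := hb.j e) ?_
  intro σ
  have h1 : hb.phi (c σ) = hb.j (hb.phi' (c σ)) := by
    rw [hb.phi_apply, hb.phi'_apply, _root_.map_sub, hb.j_j]
    abel
  rw [h1, he, _root_.map_sub, act, h.map_j]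

open scoped Classical in
/-- **`Sha[2^∞] = 0`** -/
theorem sha_pow (h : IsCM W i) (hd : d ≠ 0) (h4 : W.a₄ = -d) (hS : SelTriv d) (n : ℕ)
    {c : Gal(AlgebraicClosure F/F) → (W⁄(AlgebraicClosure F)).Point} (hc : LT W c)
    {P : (W⁄(AlgebraicClosure F)).Point} (hP : ∀ σ, 2 ^ n • c σ = act W σ P - P) :
    ∃ e, ∀ σ, c σ = act W σ e - e := by
  induction n generalizing P with
  | zero => exact ⟨P, fun σ => by rw [← hP, pow_zero, one_smul]⟩
  | succ n ih =>
    obtain ⟨e, he⟩ := sha_two h hd h4 hS (hc.nsmul (2 ^ n)) (P := P) (by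
      intro σ
      rw [← hP, pow_succ', mul_smul])
    exact ih he

open scoped Classical in
/-- the `2`-primary part of the Tate-Shafarevich group is zero -/
theorem shaTwo (h : IsCM W i) (hd : d ≠ 0) (h4 : W.a₄ = -d) (hS : SelTriv d) :
    ShaTwoKilledBy W 0 := by
  intro c hc1 hc2 ⟨n, hn⟩ hc3
  obtain ⟨e, he⟩ := sha_pow h hd h4 hS n (c := c) ⟨hc1, hc2, hc3⟩ (P := 0) (by
    intro σ
    rw [hn, _root_.map_zero, sub_self])
  exact ⟨e, fun σ => by rw [pow_zero, one_smul, he]⟩

end glob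

end Pool.Agent.Lib.MP_2f3286_ag.UA
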