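import Pool.Agent.Lib.MP_2f3286_ag.UA.HJ
import Pool.Agent.Lib.MP_2f3286_ag.UA.Defs
import Pool.Agent.Lib.MP_2f3286_ag.E.Height

/-!
# The points of `y ^ 2 = x ^ 3 - d x` over the field with small Selmer group are torsion points
-/

open WeierstrassCurve WeierstrassCurve.Affine WeierstrassCurve.Affine.Point
open NumberField IsDedekindDomain

namespace Pool.Agent.Lib.MP_2f3286_ag.UA

namespace IsCM

variable {L : Type*} [Field L] {W : Affine L} {i : L}

theorem isShortNF (h : IsCM W i) : W.IsShortNF := ⟨h.h1, h.h2, h.h3⟩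

theorem Δ_eq (h : IsCM W i) : W.Δ = -64 * W.a₄ ^ 3 := by
  rw [WeierstrassCurve.Δ, WeierstrassCurve.b₂, WeierstrassCurve.b₄, WeierstrassCurve.b₆,
    WeierstrassCurve.b₈, h.h1, h.h2, h.h3, h.h6]
  ring

theorem isElliptic (h : IsCM W i) (h2 : (2 : L) ≠ 0) (h4 : W.a₄ ≠ 0) : W.IsElliptic := by
  refine ⟨?_⟩
  rw [isUnit_iff_ne_zero, h.Δ_eq]
  have h64 : (64 : L) = 2 ^ 6 := by norm_num
  refine mul_ne_zero (neg_ne_zero.2 ?_) (pow_ne_zero 3 h4)
  rw [h64]
  exact pow_ne_zero 6 h2

theorem nonsing_of_eqn (h : IsCM W i) (h2 : (2 : L) ≠ 0) (h4 : W.a₄ ≠ 0) {x y : L}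
    (he : y ^ 2 = x ^ 3 + W.a₄ * x) : W.Nonsingular x y := by
  have := h.isElliptic h2 h4
  apply W.equation_iff_nonsingular.1
  rw [W.equation_iff, h.h1, h.h2, h.h3, h.h6]
  linear_combination he

variable [DecidableEq L]

/-- the sum with `(0, 0)` -/
theorem add_T (h : IsCM W i) (h4 : W.a₄ ≠ 0) {x y : L} (hP : W.Nonsingular x y) (hx : x ≠ 0) :
    ∃ (X Y : L) (hQ : W.Nonsingular X Y), .some _ _ hP + h.T h4 = .some _ _ hQ ∧
      X * x = W.a₄ := by
  have hne : ¬(x = 0 ∧ y = W.negY 0 0) := fun h' => hx h'.1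
  refine ⟨_, _, nonsingular_add hP (h.nonsing_zero h4) hne, by rw [T, add_some hne], ?_⟩
  have he := h.eqn hP
  obtain ⟨w, hw⟩ : ∃ w, w = y / x := ⟨_, rfl⟩
  have hy : y = w * x := by rw [hw, div_mul_cancel₀ _ hx]
  have hs : W.slope x 0 y 0 = w := by
    rw [slope_of_X_ne hx, sub_zero, sub_zero, hw]
  rw [hs, addX, h.h1, h.h2]
  have h1 : x * (w ^ 2 * x - x ^ 2 - W.a₄) = 0 := by
    rw [hy] at he
    linear_combination he
  have h3 := (mul_eq_zero.1 h1).resolve_left hx
  linear_combination h3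

/-- a point whose `x`-coordinate is a square is divisible by `1 + i` -/
theorem div_of_sq (h : IsCM W i) (h2 : (2 : L) ≠ 0) (h4 : W.a₄ ≠ 0) {x y : L}
    (hP : W.Nonsingular x y) (hx : x ≠ 0) (hsq : IsSquare x) :
    ∃ Q : W.Point, h.phi Q = .some _ _ hP := by
  obtain ⟨r, rfl⟩ := hsq
  have hr : r ≠ 0 := fun h0 => hx (by rw [h0, mul_zero])
  have hi := h.hi
  have he := h.eqn hP
  obtain ⟨w, hw⟩ : ∃ w, w = y / r := ⟨_, rfl⟩
  have hy : y = w * r := by rw [hw, div_mul_cancel₀ _ hr]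
  have hw2 : w ^ 2 = (r * r) ^ 2 + W.a₄ := by
    have h1 : r ^ 2 * (w ^ 2 - (r * r) ^ 2 - W.a₄) = 0 := by
      rw [hy] at he
      linear_combination he
    have h3 := (mul_eq_zero.1 h1).resolve_left (pow_ne_zero 2 hr)
    linear_combination h3
  have hX : i * (r * r + w) ≠ 0 := by
    refine mul_ne_zero h.i_ne_zero ?_
    intro h0
    apply h4
    have h5 : w = -(r * r) := by linear_combination h0
    rw [h5] at hw2
    linear_combination -hw2
  have hQ : W.Nonsingular (i * (r * r + w)) ((1 + i) * r * (i * (r * r + w))) := by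
    apply h.nonsing_of_eqn h2 h4
    have e1 : (1 + i) ^ 2 = 2 * i := by linear_combination hi
    have e2 : (i * (r * r + w)) ^ 2 + W.a₄ = 2 * i * (r * r) * (i * (r * r + w)) := by
      linear_combination (w ^ 2 - (r * r) ^ 2) * hi - hw2
    have e3 : ((1 + i) * r * (i * (r * r + w))) ^ 2 =
        (1 + i) ^ 2 * (r * r) * (i * (r * r + w)) ^ 2 := by ring
    rw [e3, e1]
    linear_combination -(i * (r * r + w)) * e2
  obtain ⟨X, Y, hXY, hphi, hX2⟩ := h.phi_some h2 hQ hX
  have hXr : X = r * r := by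
    have h1i : (1 + i) ≠ 0 := by
      intro h0
      have h5 : i = -1 := by linear_combination h0
      rw [h5] at hi
      apply h2
      linear_combination hi
    have h6 : ((1 + i) * (i * (r * r + w))) ^ 2 ≠ 0 := pow_ne_zero 2 (mul_ne_zero h1i hX)
    apply mul_right_cancel₀ h6
    rw [hX2]
    ring
  subst hXr
  rcases (X_eq_iff (h₁ := hXY) (h₂ := hP)).1 rfl with h7 | h7
  · exact ⟨_, hphi.trans h7⟩
  · refine ⟨-.some _ _ hQ, ?_⟩
    rw [_root_.map_neg, hphi, h7, neg_neg]

end IsCM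

variable {F : Type*} [Field F] [NumberField F] [DecidableEq F] {i d : F} {W : Affine F}

/-- descent by `1 + i` -/
theorem descent (h : IsCM W i) (hd : d ≠ 0) (h4 : W.a₄ = -d) (hS : SelTriv d) (P : W.Point) :
    ∃ Q : W.Point, P = h.phi Q ∨ P = h.T (h4 ▸ neg_ne_zero.2 hd) + h.phi Q := by
  have h2 : (2 : F) ≠ 0 := two_ne_zero
  have h40 : W.a₄ ≠ 0 := h4 ▸ neg_ne_zero.2 hd
  rcases P with _ | ⟨x, y, hP⟩
  · exact ⟨0, Or.inl (by rw [_root_.map_zero]; rfl)⟩
  by_cases hx : x = 0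
  · subst hx
    have hy0 : y = 0 := by
      have := h.eqn hP
      rw [mul_zero, add_zero, zero_pow three_ne_zero] at this
      exact pow_eq_zero_iff two_ne_zero |>.1 this
    subst hy0
    exact ⟨0, Or.inr (by rw [_root_.map_zero, add_zero]; rfl)⟩
  have he := h.eqn hP
  rw [h4] at he
  rcases hS x hx fun v => Or.inr (Or.inr ⟨algebraMap F _ x, algebraMap F _ y,
      fun h0 => hx ((_root_.map_eq_zero _).1 h0), by
        rw [← _root_.map_pow, he, _root_.map_add, _root_.map_pow, _root_.map_mul, _root_.map_neg]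
        ring, ⟨algebraMap F _ x, rfl⟩⟩) with hsq | hsq
  · obtain ⟨Q, hQ⟩ := h.div_of_sq h2 h40 hP hx hsq
    exact ⟨Q, Or.inl hQ.symm⟩
  · obtain ⟨X, Y, hXY, hadd, hXx⟩ := h.add_T h40 hP hx
    have hX0 : X ≠ 0 := by
      rintro rfl
      rw [zero_mul] at hXx
      exact h40 hXx.symm
    have hXsq : IsSquare X := by
      obtain ⟨r, hr⟩ := hsq
      refine ⟨i * r / x, ?_⟩
      rw [h4] at hXx
      have h6 : i * r / x * (i * r / x) = (i * i) * (r * r) / (x * x) := by ring
      rw [h6, ← hr, eq_div_iff (mul_ne_zero hx hx)]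
      linear_combination x * hXx - (x * d) * h.hi
    obtain ⟨Q, hQ⟩ := h.div_of_sq h2 h40 hXY hX0 hXsq
    refine ⟨Q, Or.inr ?_⟩
    rw [hQ, ← hadd, add_left_comm, h.T_add_T, add_zero]

/-- descent by `2` -/
theorem descent_two (h : IsCM W i) (hd : d ≠ 0) (h4 : W.a₄ = -d) (hS : SelTriv d) (P : W.Point) :
    ∃ Q : W.Point, P = 2 • Q ∨ P = h.T (h4 ▸ neg_ne_zero.2 hd) + 2 • Q := by
  obtain ⟨Q, hQ⟩ := descent h hd h4 hS P
  obtain ⟨R, hR⟩ := descent h hd h4 hS Q
  have key : h.phi Q = 2 • h.j R := by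
    rcases hR with hR | hR
    · rw [hR, h.phi_phi]
    · rw [hR, _root_.map_add, h.phi_T, zero_add, h.phi_phi]
  refine ⟨h.j R, ?_⟩
  rwa [key] at hQ

/-- a group with a height, in which every element is twice another one up to a point of order `2` -/
theorem tors_of_descent {G : Type*} [AddCommGroup G] {T : G} (hT : T + T = 0) {ht : G → ℝ}
    (h0 : ∀ P, 0 ≤ ht P) (hz : ht 0 = 0) {C : ℝ}
    (hC : ∀ P Q : G, |ht (P + Q) + ht (P - Q) - 2 * ht P - 2 * ht Q| ≤ C)
    (hfin : ∀ B : ℝ, {P : G | ht P ≤ B}.Finite)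
    (hdesc : ∀ P : G, ∃ Q : G, P = 2 • Q ∨ P = T + 2 • Q) (P : G) :
    IsOfFinAddOrder P ∧ ∀ a : ℕ, 2 ^ a • P = 0 → P = 0 ∨ P = T := by
  classical
  -- the group of order two
  set H : AddSubgroup G := AddSubgroup.zmultiples T with hH
  have hTH : T ∈ H := AddSubgroup.mem_zmultiples T
  have h2H : ∀ Q ∈ H, 2 • Q = 0 := by
    rintro _ ⟨n, rfl⟩
    show 2 • (n • T) = 0
    rw [two_nsmul, ← zsmul_add, hT, zsmul_zero]
  have hHm : ∀ Q ∈ H, Q = 0 ∨ Q = T := by
    rintro _ ⟨n, rfl⟩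
    show n • T = 0 ∨ n • T = T
    rcases Int.even_or_odd n with ⟨m, rfl⟩ | ⟨m, rfl⟩
    · left
      rw [← two_mul, mul_comm, mul_zsmul, two_zsmul, hT, zsmul_zero]
    · right
      rw [add_zsmul, one_zsmul, mul_comm, mul_zsmul, two_zsmul, hT, zsmul_zero, zero_add]
  choose f hf using hdesc
  have hf' : ∀ Q, Q - 2 • f Q ∈ H := by
    intro Q
    rcases hf Q with h | h
    · rw [sub_eq_zero.2 h]
      exact zero_mem _
    · rw [sub_eq_iff_eq_add.2 h]
      exact hTH
  -- the chain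
  set q : ℕ → G := fun n => f^[n] P with hq
  have hq1 : ∀ n, q (n + 1) = f (q n) := fun n => Function.iterate_succ_apply' f n P
  have hchain : ∀ n k, q n - 2 ^ k • q (n + k) ∈ H := by
    intro n k
    induction k with
    | zero =>
      rw [pow_zero, one_smul, add_zero, sub_self]
      exact zero_mem _
    | succ k ih =>
      have e : q n - 2 ^ (k + 1) • q (n + (k + 1)) =
          (q n - 2 ^ k • q (n + k)) + 2 ^ k • (q (n + k) - 2 • f (q (n + k))) := by
        rw [← add_assoc, hq1, smul_sub, pow_succ, mul_smul]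
        abel
      rw [e]
      exact add_mem ih (H.nsmul_mem (hf' _) _)
  -- the heights are bounded
  have hstep : ∀ Q, ht (f Q) ≤ ht Q / 2 + (ht T / 2 + C / 2) := by
    intro Q
    have h1 := hC (f Q) (f Q)
    rw [sub_self, hz, ← two_nsmul] at h1
    have h2 : ht (2 • f Q) ≤ 2 * ht Q + 2 * ht T + C := by
      have hC0 : 0 ≤ C := (abs_nonneg _).trans (hC 0 0)
      rcases hf Q with h | h
      · rw [← h]
        have := h0 Q
        have := h0 T
        linarith
      · have h3 : 2 • f Q = Q - T := by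
          rw [eq_sub_iff_add_eq, add_comm]
          exact h.symm
        rw [h3]
        have h4 := (abs_le.1 (hC Q T)).2
        have := h0 (Q + T)
        linarith
    have h5 := (abs_le.1 h1).1
    linarith
  have hbd : ∀ n, ht (q n) ≤ ht P + (ht T + C) := by
    have hC0 : 0 ≤ C := (abs_nonneg _).trans (hC 0 0)
    intro n
    induction n with
    | zero =>
      have := h0 T
      show ht P ≤ _
      linarith
    | succ n ih =>
      rw [hq1]
      have := hstep (q n)
      have := h0 P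
      linarith
  obtain ⟨m, n, hmn, hqmn⟩ : ∃ m n, m < n ∧ q m = q n := by
    by_contra hcon
    push Not at hcon
    have hinj : Function.Injective q := by
      intro a b hab
      rcases lt_trichotomy a b with h | h | h
      · exact absurd hab (hcon a b h)
      · exact h
      · exact absurd hab.symm (hcon b a h)
    refine Set.infinite_range_of_injective hinj ((hfin (ht P + (ht T + C))).subset ?_)
    rintro _ ⟨n, rfl⟩
    exact hbd n
  obtain ⟨k, hk, rfl⟩ : ∃ k, 0 < k ∧ n = m + k := ⟨n - m, by omega, by omega⟩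
  set Q := q m with hQ
  have h1 : Q - 2 ^ k • Q ∈ H := by
    have := hchain m k
    rwa [← hqmn] at this
  have h2 : P - 2 ^ m • Q ∈ H := by
    have := hchain 0 m
    rwa [zero_add] at this
  have h3 : ∀ r : ℕ, Q - 2 ^ (r * k) • Q ∈ H := by
    intro r
    induction r with
    | zero =>
      rw [zero_mul, pow_zero, one_smul, sub_self]
      exact zero_mem _
    | succ r ih =>
      have e : Q - 2 ^ ((r + 1) * k) • Q =
          (Q - 2 ^ (r * k) • Q) + 2 ^ (r * k) • (Q - 2 ^ k • Q) := by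
        rw [add_mul, one_mul, pow_add, mul_smul, smul_sub]
        abel
      rw [e]
      exact add_mem ih (H.nsmul_mem h1 _)
  constructor
  · -- torsion
    have hk1 : 1 < 2 ^ k := Nat.one_lt_two_pow hk.ne'
    have h4 : (2 * (2 ^ k - 1)) • Q = 0 := by
      have h5 := h2H _ h1
      have h6 : (2 ^ k - 1) • Q + Q = 2 ^ k • Q := by
        rw [← succ_nsmul]
        congr 1
        omega
      rw [← h6, sub_add_cancel_right, smul_neg, neg_eq_zero] at h5
      rw [mul_smul, h5]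
    refine isOfFinAddOrder_iff_nsmul_eq_zero.2 ⟨2 * (2 * (2 ^ k - 1)), by omega, ?_⟩
    have h8 := h2H _ h2
    rw [smul_sub, sub_eq_zero] at h8
    rw [mul_comm, mul_smul, h8, smul_comm (2 * (2 ^ k - 1)) 2, smul_comm (2 * (2 ^ k - 1)) (2 ^ m),
      h4, smul_zero, smul_zero]
  · intro a ha
    have h9 : 2 ^ (a + 1 + m) • Q = 0 := by
      have h8 := h2H _ h2
      rw [smul_sub, sub_eq_zero] at h8
      rw [pow_add, pow_succ, mul_smul, mul_smul, ← h8, smul_comm, ha, smul_zero]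
    have hQH : Q ∈ H := by
      have h10 := h3 (a + 1 + m)
      have h11 : 2 ^ ((a + 1 + m) * k) • Q = 0 := by
        obtain ⟨c, hc⟩ : ∃ c, (a + 1 + m) * k = c + (a + 1 + m) :=
          ⟨(a + 1 + m) * k - (a + 1 + m), by
            have : (a + 1 + m) ≤ (a + 1 + m) * k := Nat.le_mul_of_pos_right _ hk
            omega⟩
        rw [hc, pow_add, mul_smul, h9, smul_zero]
      rwa [h11, sub_zero] at h10
    apply hHm
    have h12 := add_mem h2 (H.nsmul_mem hQH (2 ^ m))
    rwa [sub_add_cancel] at h12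

/-- the points of `y ^ 2 = x ^ 3 - d x` over `F`: they are torsion, and the `2`-primary part is
`{0, T}` -/
theorem tors (h : IsCM W i) (hd : d ≠ 0) (h4 : W.a₄ = -d) (hS : SelTriv d) (P : W.Point) :
    IsOfFinAddOrder P ∧
      ∀ a : ℕ, 2 ^ a • P = 0 → P = 0 ∨ P = h.T (h4 ▸ neg_ne_zero.2 hd) := by
  have h2 : (2 : F) ≠ 0 := two_ne_zero
  have h40 : W.a₄ ≠ 0 := h4 ▸ neg_ne_zero.2 hd
  have := h.isElliptic h2 h40
  have := h.isShortNF
  obtain ⟨C, hC⟩ := E.parallelogram W
  exact tors_of_descent (h.T_add_T h40) (ht := E.ht) E.ht_nonneg E.ht_zero hC E.finite_ht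
    (fun P => descent_two h hd h4 hS P) P

end Pool.Agent.Lib.MP_2f3286_ag.UA
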