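import Pool.Agent.Lib.MP_2f3286_ag.UA.DA

/-!
# Elements near 1 are squares in the completion, at all places

`u` with `v (u - 1) < v 4` is a square: `w = (u - 1) / 4`, `t ^ 2 + t = w` has a solution (Newton and compactness), and
`u = (1 + 2 t) ^ 2`.
-/

open NumberField IsDedekindDomain
open scoped WithZero

namespace Pool.Agent.Lib.MP_2f3286_ag.UA.IX

private theorem c1_zero {F : Type*} [Field F] [NumberField F] (w : HeightOneSpectrum (𝓞 F))
    (x : w.adicCompletionIntegers F) :
    IsLocalRing.residue (w.adicCompletionIntegers F) x = 0 ↔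
      Valued.v (x : w.adicCompletion F) < (1 : ℤᵐ⁰) := by
  rw [IsLocalRing.residue_eq_zero_iff, IsLocalRing.mem_maximalIdeal, mem_nonunits_iff,
    HeightOneSpectrum.adicCompletionIntegers.isUnit_iff_valued_eq_one]
  have h : Valued.v (x : w.adicCompletion F) ≤ (1 : ℤᵐ⁰) :=
    (HeightOneSpectrum.mem_adicCompletionIntegers (𝓞 F) F w).1 x.2
  exact ⟨fun h' => lt_of_le_of_ne h h', fun h' => h'.ne⟩

private theorem c1_fin {F : Type*} [Field F] [NumberField F] (w : HeightOneSpectrum (𝓞 F)) :
    Finite (IsLocalRing.ResidueField (w.adicCompletionIntegers F)) := by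
  have hfin : Finite (𝓞 F ⧸ w.asIdeal) := w.asIdeal.finiteQuotientOfFreeOfNeBot w.ne_bot
  have hval : ∀ a : 𝓞 F, (((algebraMap (𝓞 F) (w.adicCompletionIntegers F) a :
      w.adicCompletionIntegers F)) : w.adicCompletion F) =
      algebraMap F (w.adicCompletion F) (algebraMap (𝓞 F) F a) := fun a => rfl
  have h0 : ∀ a ∈ w.asIdeal, ((IsLocalRing.residue (w.adicCompletionIntegers F)).comp
      (algebraMap (𝓞 F) (w.adicCompletionIntegers F))) a = 0 := by
    intro a ha
    rw [RingHom.comp_apply, c1_zero, hval, val_alg]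
    exact (HeightOneSpectrum.valuation_lt_one_iff_mem w a).2 ha
  refine Finite.of_surjective (Ideal.Quotient.lift w.asIdeal _ h0) ?_
  intro e
  obtain ⟨x, rfl⟩ := IsLocalRing.residue_surjective e
  have hx : Valued.v (x : w.adicCompletion F) ≤ (1 : ℤᵐ⁰) :=
    (HeightOneSpectrum.mem_adicCompletionIntegers (𝓞 F) F w).1 x.2
  obtain ⟨y, hy⟩ := exists_approx w (x : w.adicCompletion F) 1
  have hlt : WithZero.exp (-((1 : ℕ) : ℤ)) < (1 : ℤᵐ⁰) := by
    rw [← WithZero.exp_zero]
    exact WithZero.exp_lt_exp.mpr (by norm_num)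
  have hy1 : w.valuation F y ≤ 1 := by
    rw [← val_alg]
    have e : algebraMap F (w.adicCompletion F) y =
        (x : w.adicCompletion F) - ((x : w.adicCompletion F) - algebraMap F (w.adicCompletion F) y) := by
      ring
    rw [e]
    exact (Valued.v.map_sub _ _).trans (max_le hx (hy.trans hlt.le))
  obtain ⟨a, ha⟩ := HeightOneSpectrum.exists_valuation_sub_lt_of_integer w hy1 1
  simp only [Units.val_one] at ha
  refine ⟨Ideal.Quotient.mk _ a, ?_⟩
  rw [Ideal.Quotient.lift_mk, RingHom.comp_apply, ← sub_eq_zero, ← map_sub, c1_zero]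
  have e : ((algebraMap (𝓞 F) (w.adicCompletionIntegers F) a - x :
      w.adicCompletionIntegers F) : w.adicCompletion F) =
      algebraMap F (w.adicCompletion F) (algebraMap (𝓞 F) F a - y) -
      ((x : w.adicCompletion F) - algebraMap F (w.adicCompletion F) y) := by
    rw [map_sub, AddSubgroupClass.coe_sub, hval]
    ring
  rw [e]
  refine lt_of_le_of_lt (Valued.v.map_sub _ _) (max_lt ?_ (lt_of_le_of_lt hy hlt))
  rw [val_alg]
  exact ha

section comp
open scoped Valued

private theorem c1_compact {k : Type*} [Field k] [NumberField k] (v : HeightOneSpectrum (𝓞 k)) :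
    IsCompact ((v.adicCompletionIntegers k : ValuationSubring (v.adicCompletion k)) :
      Set (v.adicCompletion k)) := by
  have h1 : IsDiscreteValuationRing 𝒪[v.adicCompletion k] :=
    inferInstanceAs (IsDiscreteValuationRing (v.adicCompletionIntegers k))
  have h2 : Finite 𝓀[v.adicCompletion k] := c1_fin v
  have h3 : CompleteSpace 𝒪[v.adicCompletion k] :=
    (Valued.isClosed_integer (v.adicCompletion k)).completeSpace_coe
  have h : CompactSpace 𝒪[v.adicCompletion k] :=
    Valued.integer.compactSpace_iff_completeSpace_and_isDiscreteValuationRing_and_finite_residueField.mpr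
      ⟨h3, h1, h2⟩
  exact isCompact_iff_compactSpace.mpr h

end comp

variable {k : Type*} [Field k] [NumberField k]

private theorem c1_lt {g : ℤᵐ⁰} (hg : g < 1) : g ≤ WithZero.exp (-1 : ℤ) := by
  by_cases h0 : g = 0
  · rw [h0]
    exact zero_le
  · rw [← WithZero.exp_log h0] at hg ⊢
    rw [← WithZero.exp_zero, WithZero.exp_lt_exp] at hg
    rw [WithZero.exp_le_exp]
    omega

private theorem c1_newton {v : HeightOneSpectrum (𝓞 k)}
    (w : v.adicCompletion k) (hw : (Valued.v w : ℤᵐ⁰) < 1) (n : ℕ) :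
    ∃ t : v.adicCompletion k, (Valued.v t : ℤᵐ⁰) < 1 ∧
      (Valued.v (t ^ 2 + t - w) : ℤᵐ⁰) ≤ WithZero.exp (-((n + 1 : ℕ) : ℤ)) := by
  have h2 : (Valued.v (2 : v.adicCompletion k) : ℤᵐ⁰) ≤ 1 := by
    have h1 : (2 : v.adicCompletion k) = 1 + 1 := by norm_num
    rw [h1]
    refine (Valued.v.map_add _ _).trans ?_
    rw [map_one, max_self]
  induction n with
  | zero =>
    refine ⟨0, by rw [map_zero]; exact zero_lt_one, ?_⟩
    have : (0 : v.adicCompletion k) ^ 2 + 0 - w = -w := by ring
    rw [this, Valuation.map_neg]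
    exact c1_lt hw
  | succ n ih =>
    obtain ⟨t, ht, h⟩ := ih
    have h3 : (Valued.v (2 * t) : ℤᵐ⁰) < 1 := by
      rw [map_mul]
      exact lt_of_le_of_lt (mul_le_of_le_one_left' h2) ht
    have h4 : (Valued.v (1 + 2 * t) : ℤᵐ⁰) = 1 := by
      rw [Valuation.map_add_eq_of_lt_left _ (by rw [map_one]; exact h3), map_one]
    have h5 : (1 + 2 * t : v.adicCompletion k) ≠ 0 := by
      intro h0
      rw [h0, map_zero] at h4
      exact zero_ne_one h4
    set e : v.adicCompletion k := (t ^ 2 + t - w) / (1 + 2 * t) with he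
    have hve : (Valued.v e : ℤᵐ⁰) = Valued.v (t ^ 2 + t - w) := by
      rw [he, map_div₀, h4, div_one]
    have hve1 : (Valued.v e : ℤᵐ⁰) ≤ WithZero.exp (-((n + 1 : ℕ) : ℤ)) := hve.le.trans h
    have hlt : (Valued.v e : ℤᵐ⁰) < 1 := by
      refine lt_of_le_of_lt hve1 ?_
      rw [← WithZero.exp_zero, WithZero.exp_lt_exp]
      push_cast
      omega
    refine ⟨t - e, ?_, ?_⟩
    · exact lt_of_le_of_lt (Valued.v.map_sub _ _) (max_lt ht hlt)
    · have heq : (t - e) ^ 2 + (t - e) - w = e ^ 2 := by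
        have : (1 + 2 * t) * e = t ^ 2 + t - w := by
          rw [he]
          field_simp
        linear_combination -this
      rw [heq, map_pow]
      calc (Valued.v e : ℤᵐ⁰) ^ 2 ≤ WithZero.exp (-((n + 1 : ℕ) : ℤ)) ^ 2 :=
            pow_le_pow_left' hve1 2
        _ = WithZero.exp (2 • (-((n + 1 : ℕ) : ℤ))) := by rw [WithZero.exp_nsmul]
        _ ≤ WithZero.exp (-((n + 1 + 1 : ℕ) : ℤ)) := by
            rw [WithZero.exp_le_exp]
            simp only [nsmul_eq_mul]
            push_cast
            omega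

theorem exists_artin {v : HeightOneSpectrum (𝓞 k)}
    (w : v.adicCompletion k) (hw : (Valued.v w : WithZero (Multiplicative ℤ)) < 1) :
    ∃ t : v.adicCompletion k, t ^ 2 + t = w := by
  have hcl : IsClosed ((fun y : v.adicCompletion k => y ^ 2 + y) ''
      ((v.adicCompletionIntegers k : ValuationSubring (v.adicCompletion k)) :
        Set (v.adicCompletion k))) :=
    ((c1_compact v).image (by fun_prop)).isClosed
  have hmem : w ∈ closure ((fun y : v.adicCompletion k => y ^ 2 + y) ''
      ((v.adicCompletionIntegers k : ValuationSubring (v.adicCompletion k)) :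
        Set (v.adicCompletion k))) := by
    rw [mem_closure_iff_nhds]
    intro t ht
    rw [Valued.mem_nhds] at ht
    obtain ⟨γ, hγ⟩ := ht
    have hr0 : (MonoidWithZeroHom.ValueGroup₀.embedding γ.1 : ℤᵐ⁰) ≠ 0 := by
      intro h0
      exact γ.ne_zero ((map_eq_zero _).1 h0)
    obtain ⟨m, hm⟩ := exists_exp_neg_lt hr0
    obtain ⟨y, hy1, hy⟩ := c1_newton w hw m
    refine ⟨y ^ 2 + y, hγ ?_, y, ?_, rfl⟩
    · show (Valued.v.restrict (y ^ 2 + y - w)) < γ.1
      rw [Valuation.restrict_lt_iff_lt_embedding]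
      refine lt_of_le_of_lt (hy.trans ?_) hm
      rw [WithZero.exp_le_exp]
      push_cast
      omega
    · exact (HeightOneSpectrum.mem_adicCompletionIntegers (𝓞 k) k v).2 hy1.le
  rw [hcl.closure_eq] at hmem
  obtain ⟨y, -, hy⟩ := hmem
  exact ⟨y, hy⟩

/-- `u` with `v (u - 1) < v 4` is a square -/
theorem sq_of_near_four {v : HeightOneSpectrum (𝓞 k)} (u : v.adicCompletion k)
    (hu : (Valued.v (u - 1) : WithZero (Multiplicative ℤ)) < Valued.v (4 : v.adicCompletion k)) :
    IsSquare u := by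
  have h4 : (4 : v.adicCompletion k) ≠ 0 := by
    intro h
    rw [h, map_zero] at hu
    exact not_lt_zero hu
  obtain ⟨t, ht⟩ := exists_artin ((u - 1) / 4) (by
    rw [map_div₀]
    exact (div_lt_one₀ (zero_lt_iff.mpr (val_ne_zero h4))).mpr hu)
  refine ⟨1 + 2 * t, ?_⟩
  have h5 : 4 * ((u - 1) / 4) = u - 1 := by field_simp
  linear_combination -h5 - 4 * ht

end Pool.Agent.Lib.MP_2f3286_ag.UA.IX
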