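import Pool.Agent.Lib.MP_2f3286_ag.UA.IX1

/-!
# (C1): the index of the local squares

`PV v` is the group of the elements of `kˣ` which are squares at `v`: `[kˣ : PV v] ≤ 4 q ^ e`, `q = N v`, `e = ord_v 2`.
The group `A = (𝓞 k / v ^ (2 e + 1))ˣ`: `x ^ 2 = 1` implies `x = ± 1` modulo `v ^ (e + 1)`, so at most `2 q ^ e` solutions, and
`[A : A ^ 2]` is their number. `kˣ / PV v` is generated by a uniformiser and the image of `A / A ^ 2`, as an element of
valuation `1` is congruent to an integer modulo `v ^ (2 e + 1)`, and `1 + v ^ (2 e + 1)` consists of squares at `v`.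
-/

open NumberField IsDedekindDomain

namespace Pool.Agent.Lib.MP_2f3286_ag.UA.IX

section ring

variable {R : Type*} [CommRing R] [IsDedekindDomain R]

/-- `x y ∈ P ^ (2 e + 1)` implies that one of them is in `P ^ (e + 1)` -/
lemma mem_pow_or {P : Ideal R} (hP : P.IsPrime) (hP0 : P ≠ ⊥) (e : ℕ) {x y : R}
    (h : x * y ∈ P ^ (2 * e + 1)) : x ∈ P ^ (e + 1) ∨ y ∈ P ^ (e + 1) := by
  by_contra hcon
  push Not at hcon
  obtain ⟨hx, hy⟩ := hcon
  have hx0 : x ≠ 0 := fun h0 => hx (h0 ▸ (P ^ (e + 1)).zero_mem)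
  have hy0 : y ≠ 0 := fun h0 => hy (h0 ▸ (P ^ (e + 1)).zero_mem)
  have hPp : Prime P := Ideal.prime_of_isPrime hP0 hP
  have h1 : ∀ {z : R} {n : ℕ}, z ∈ P ^ n ↔ P ^ n ∣ Ideal.span {z} := by
    intro z n
    rw [Ideal.dvd_span_singleton]
  rw [h1] at hx hy h
  rw [← Ideal.span_singleton_mul_span_singleton] at h
  rw [← emultiplicity_lt_iff_not_dvd] at hx hy
  have h2 := le_emultiplicity_of_pow_dvd h
  rw [emultiplicity_mul hPp] at h2
  obtain ⟨a, ha⟩ := ENat.ne_top_iff_exists.mp (ne_top_of_lt hx)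
  obtain ⟨b, hb⟩ := ENat.ne_top_iff_exists.mp (ne_top_of_lt hy)
  rw [← ha] at hx h2
  rw [← hb] at hy h2
  have h3 : a < e + 1 := by exact_mod_cast hx
  have h4 : b < e + 1 := by exact_mod_cast hy
  have h5 : 2 * e + 1 ≤ a + b := by exact_mod_cast h2
  omega

/-- the number of solutions of `x ^ 2 = 1` -/
lemma card_sq_one {P : Ideal R} (hP : P.IsPrime) (hP0 : P ≠ ⊥) (e : ℕ)
    (hfin : ∀ n, Finite (R ⧸ P ^ n)) :
    Nat.card {x : R ⧸ P ^ (2 * e + 1) // x ^ 2 = 1} ≤ 2 * (Nat.card (R ⧸ P)) ^ e := by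
  classical
  have := hfin (2 * e + 1)
  have := hfin (e + 1)
  have hle : P ^ (2 * e + 1) ≤ P ^ (e + 1) := Ideal.pow_le_pow_right (by omega)
  let φ : (R ⧸ P ^ (2 * e + 1)) →+* (R ⧸ P ^ (e + 1)) := Ideal.Quotient.factor hle
  have hφs : Function.Surjective φ := Ideal.Quotient.factor_surjective hle
  have hφ : ∀ r : R, φ (Ideal.Quotient.mk _ r) = Ideal.Quotient.mk _ r := fun r => rfl
  -- the kernel
  have hcard : Nat.card (φ.toAddMonoidHom.ker) = (Nat.card (R ⧸ P)) ^ e := by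
    have h1 := AddSubgroup.card_mul_index φ.toAddMonoidHom.ker
    rw [AddSubgroup.index_ker] at h1
    have h2 : Nat.card φ.toAddMonoidHom.range = Nat.card (R ⧸ P ^ (e + 1)) := by
      have h3 : φ.toAddMonoidHom.range = ⊤ := AddMonoidHom.range_eq_top.mpr hφs
      rw [h3]
      exact Nat.card_congr AddSubgroup.topEquiv.toEquiv
    have h4 : ∀ n, Nat.card (R ⧸ P ^ n) = Nat.card (R ⧸ P) ^ n := by
      intro n
      have h5 := cardQuot_pow_of_prime (S := R) (P := P) hP0 (i := n)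
      exact h5
    rw [h2, h4, h4] at h1
    have h6 : 0 < Nat.card (R ⧸ P) := by
      have h7 := h4 1
      rw [pow_one, pow_one] at h7
      have := hfin 1
      rw [pow_one] at this
      exact Nat.card_pos
    have h8 : Nat.card (R ⧸ P) ^ (2 * e + 1) = Nat.card (R ⧸ P) ^ e * Nat.card (R ⧸ P) ^ (e + 1) := by
      rw [← pow_add]
      congr 1
      omega
    rw [h8] at h1
    exact Nat.eq_of_mul_eq_mul_right (pow_pos h6 _) h1
  -- the surjection
  let f : Bool × φ.toAddMonoidHom.ker → R ⧸ P ^ (2 * e + 1) := fun t =>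
    (if t.1 then 1 else -1) + (t.2 : R ⧸ P ^ (2 * e + 1))
  have hf : {x : R ⧸ P ^ (2 * e + 1) | x ^ 2 = 1} ⊆ Set.range f := by
    intro x hx
    obtain ⟨r, rfl⟩ := Ideal.Quotient.mk_surjective x
    have h1 : (Ideal.Quotient.mk (P ^ (2 * e + 1)) r) ^ 2 = 1 := hx
    have h2 : (r - 1) * (r + 1) ∈ P ^ (2 * e + 1) := by
      rw [← Ideal.Quotient.eq_zero_iff_mem]
      have h3 : Ideal.Quotient.mk (P ^ (2 * e + 1)) ((r - 1) * (r + 1))
          = (Ideal.Quotient.mk (P ^ (2 * e + 1)) r) ^ 2 - 1 := by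
        rw [← map_pow, ← map_one (Ideal.Quotient.mk (P ^ (2 * e + 1))), ← map_sub]
        congr 1
        ring
      rw [h3, h1, sub_self]
    rcases mem_pow_or hP hP0 e h2 with h3 | h3
    · refine ⟨(true, ⟨Ideal.Quotient.mk _ (r - 1), ?_⟩), ?_⟩
      · rw [AddMonoidHom.mem_ker]
        change φ (Ideal.Quotient.mk _ (r - 1)) = 0
        rw [hφ]
        exact Ideal.Quotient.eq_zero_iff_mem.mpr h3
      · simp only [f, if_true]
        rw [← map_one (Ideal.Quotient.mk (P ^ (2 * e + 1))), ← map_add]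
        congr 1
        ring
    · refine ⟨(false, ⟨Ideal.Quotient.mk _ (r + 1), ?_⟩), ?_⟩
      · rw [AddMonoidHom.mem_ker]
        change φ (Ideal.Quotient.mk _ (r + 1)) = 0
        rw [hφ]
        exact Ideal.Quotient.eq_zero_iff_mem.mpr h3
      · simp only [f]
        rw [if_neg (by simp), ← map_one (Ideal.Quotient.mk (P ^ (2 * e + 1))), ← map_neg,
          ← map_add]
        congr 1
        ring
  have h9 : Nat.card {x : R ⧸ P ^ (2 * e + 1) // x ^ 2 = 1} ≤ Nat.card (Set.range f) := by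
    exact Nat.card_mono (Set.toFinite _) hf
  refine h9.trans ((Finite.card_range_le f).trans ?_)
  rw [Nat.card_prod, hcard]
  simp

end ring

section num

variable {k : Type*} [Field k] [NumberField k]

/-- the elements of `kˣ` which are squares at `v` -/
def PV (v : HeightOneSpectrum (𝓞 k)) : Subgroup kˣ where
  carrier := {a | SqAt v (a : k)}
  mul_mem' := by
    intro a b ha hb
    change SqAt v ((a * b : kˣ) : k)
    unfold SqAt
    rw [Units.val_mul, map_mul]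
    exact IsSquare.mul ha hb
  one_mem' := by
    change SqAt v ((1 : kˣ) : k)
    unfold SqAt
    rw [Units.val_one, map_one]
    exact IsSquare.one
  inv_mem' := by
    intro a ha
    change SqAt v ((a⁻¹ : kˣ) : k)
    unfold SqAt
    rw [Units.val_inv_eq_inv_val, map_inv₀]
    exact IsSquare.inv ha

lemma mem_PV {v : HeightOneSpectrum (𝓞 k)} {a : kˣ} : a ∈ PV v ↔ SqAt v (a : k) := Iff.rfl

lemma two_ordv_nonneg (v : HeightOneSpectrum (𝓞 k)) : ((ordv v (2 : k)).toNat : ℤ) = ordv v 2 := by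
  have h1 : v.valuation k (algebraMap (𝓞 k) k 2) ≤ 1 := v.valuation_le_one (K := k) (2 : 𝓞 k)
  have h2 : algebraMap (𝓞 k) k 2 = 2 := map_ofNat _ 2
  rw [h2] at h1
  refine Int.toNat_of_nonneg ?_
  unfold ordv
  have h0 : v.valuation k (2 : k) ≠ 0 := (Valuation.ne_zero_iff _).2 two_ne_zero
  rw [← WithZero.exp_log h0, ← WithZero.exp_zero, WithZero.exp_le_exp] at h1
  omega

/-- elements near 1 -/
lemma sqAt_of_near {v : HeightOneSpectrum (𝓞 k)} {x : k}
    (hx : v.valuation k (x - 1) ≤ WithZero.exp (-((2 * (ordv v (2 : k)).toNat + 1 : ℕ) : ℤ))) :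
    SqAt v x := by
  unfold SqAt
  refine sq_of_near_four _ ?_
  have h4 : (4 : v.adicCompletion k) = algebraMap k (v.adicCompletion k) (2 ^ 2) := by
    rw [map_pow, map_ofNat]
    norm_num
  rw [h4, ← map_one (algebraMap k (v.adicCompletion k)), ← map_sub, val_alg, val_alg]
  refine lt_of_le_of_lt hx ?_
  have h0 : v.valuation k (2 : k) ≠ 0 := (Valuation.ne_zero_iff _).2 two_ne_zero
  have h5 : v.valuation k ((2 : k) ^ 2) = WithZero.exp (-(2 * ordv v (2 : k))) := by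
    rw [map_pow, ← WithZero.exp_log h0, ← WithZero.exp_nsmul]
    congr 1
    unfold ordv
    simp only [nsmul_eq_mul, Nat.cast_ofNat]
    ring
  rw [h5, WithZero.exp_lt_exp]
  have := two_ordv_nonneg v
  push_cast
  omega

theorem index_PV_le (v : HeightOneSpectrum (𝓞 k)) :
    (PV v).index ≠ 0 ∧
      (PV v).index ≤ 4 * (Ideal.absNorm v.asIdeal) ^ (ordv v (2 : k)).toNat := by
  classical
  obtain ⟨e, he⟩ : ∃ e : ℕ, e = (ordv v (2 : k)).toNat := ⟨_, rfl⟩
  have hfin : ∀ n, Finite (𝓞 k ⧸ v.asIdeal ^ n) := fun n =>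
    (v.asIdeal ^ n).finiteQuotientOfFreeOfNeBot (pow_ne_zero n v.ne_bot)
  obtain ⟨N, hN⟩ : ∃ N : ℕ, N = 2 * e + 1 := ⟨_, rfl⟩
  have hNf : Finite (𝓞 k ⧸ v.asIdeal ^ N) := hfin N
  have hcoe : ∀ {r : 𝓞 k}, r ∉ v.asIdeal → (r : k) ≠ 0 := by
    intro r hr h0
    apply hr
    have : r = 0 := RingOfIntegers.coe_eq_zero_iff.1 h0
    rw [this]
    exact v.asIdeal.zero_mem
  have hval1 : ∀ {r : 𝓞 k}, r ∉ v.asIdeal → v.valuation k (r : k) = 1 := by
    intro r hr
    exact (HeightOneSpectrum.valuation_eq_one_iff_notMem (K := k) (v := v) (r := r)).2 hr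
  have hvalN : ∀ {r : 𝓞 k}, r ∈ v.asIdeal ^ N → v.valuation k (r : k) ≤ WithZero.exp (-(N : ℤ)) := by
    intro r hr
    have h1 := v.valuation_of_algebraMap (K := k) r
    have h2 : v.valuation k (r : k) = v.intValuation r := h1
    rw [h2]
    exact (v.intValuation_le_pow_iff_mem r N).2 hr
  -- quotients of close elements
  have hK : ∀ {x : k} {s : 𝓞 k}, s ∉ v.asIdeal → v.valuation k (x - s) ≤ WithZero.exp (-(N : ℤ)) →
      SqAt v (x / s) := by
    intro x s hs hx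
    refine sqAt_of_near ?_
    have h1 : x / s - 1 = (x - s) / s := by
      rw [sub_div, div_self (hcoe hs)]
    rw [h1, map_div₀, hval1 hs, div_one, ← he, ← hN]
    exact hx
  -- lifts
  have hlift : ∀ α : (𝓞 k ⧸ v.asIdeal ^ N)ˣ, ∃ r : 𝓞 k, r ∉ v.asIdeal ∧
      Ideal.Quotient.mk (v.asIdeal ^ N) r = (α : 𝓞 k ⧸ v.asIdeal ^ N) := by
    intro α
    obtain ⟨r, hr⟩ := Ideal.Quotient.mk_surjective (α : 𝓞 k ⧸ v.asIdeal ^ N)
    refine ⟨r, ?_, hr⟩
    intro hrv
    have h1 : (Ideal.Quotient.mk (v.asIdeal ^ N) r) ^ N = 0 := by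
      rw [← map_pow]
      exact Ideal.Quotient.eq_zero_iff_mem.mpr (Ideal.pow_mem_pow hrv N)
    rw [hr] at h1
    have h2 : IsUnit ((α : 𝓞 k ⧸ v.asIdeal ^ N) ^ N) := α.isUnit.pow N
    rw [h1, isUnit_zero_iff] at h2
    have h3 : (1 : 𝓞 k) ∈ v.asIdeal ^ N := by
      rw [← Ideal.Quotient.eq_zero_iff_mem, map_one, ← h2]
    have h4 : (1 : 𝓞 k) ∈ v.asIdeal :=
      Ideal.pow_le_self (by omega : N ≠ 0) h3
    exact v.isPrime.ne_top ((Ideal.eq_top_iff_one _).mpr h4)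
  choose ρ hρ hρ' using hlift
  have hsub : ∀ {r s : 𝓞 k}, Ideal.Quotient.mk (v.asIdeal ^ N) r = Ideal.Quotient.mk (v.asIdeal ^ N) s →
      s ∉ v.asIdeal → SqAt v ((r : k) / s) := by
    intro r s hrs hs
    refine hK hs ?_
    have h1 : r - s ∈ v.asIdeal ^ N := (Ideal.Quotient.mk_eq_mk_iff_sub_mem r s).mp hrs
    have h2 := hvalN h1
    have h3 : ((r - s : 𝓞 k) : k) = (r : k) - (s : k) := rfl
    rwa [h3] at h2
  -- the homomorphism
  let ψ : (𝓞 k ⧸ v.asIdeal ^ N)ˣ →* kˣ ⧸ PV v := MonoidHom.mk'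
    (fun α => QuotientGroup.mk (Units.mk0 (ρ α : k) (hcoe (hρ α)))) (by
      intro α β
      rw [← QuotientGroup.mk_mul, eq_comm, QuotientGroup.eq, mem_PV]
      have hmul : ρ α * ρ β ∉ v.asIdeal := fun h =>
        (v.isPrime.mem_or_mem h).elim (hρ α) (hρ β)
      have h1 := hsub (r := ρ (α * β)) (s := ρ α * ρ β) (by
        rw [hρ', map_mul, hρ', hρ', Units.val_mul]) hmul
      have h2 : (((Units.mk0 (ρ α : k) (hcoe (hρ α)) * Units.mk0 (ρ β : k) (hcoe (hρ β)))⁻¹ *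
          Units.mk0 (ρ (α * β) : k) (hcoe (hρ (α * β))) : kˣ) : k)
          = (ρ (α * β) : k) / ((ρ α * ρ β : 𝓞 k) : k) := by
        rw [Units.val_mul, Units.val_inv_eq_inv_val, Units.val_mul]
        simp only [Units.val_mk0]
        have h3 : ((ρ α * ρ β : 𝓞 k) : k) = (ρ α : k) * (ρ β : k) := rfl
        rw [h3, div_eq_inv_mul]
      rw [h2]
      exact h1)
  have hψ : ∀ α, ψ α = QuotientGroup.mk (Units.mk0 (ρ α : k) (hcoe (hρ α))) := fun α => rfl
  have hsq : ∀ x : kˣ ⧸ PV v, x ^ 2 = 1 := by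
    intro x
    obtain ⟨a, rfl⟩ := QuotientGroup.mk_surjective x
    rw [← QuotientGroup.mk_pow, QuotientGroup.eq_one_iff, mem_PV]
    unfold SqAt
    rw [Units.val_pow_eq_pow_val, map_pow]
    exact ⟨algebraMap k (v.adicCompletion k) (a : k), sq _⟩
  have hpow : ∀ x y : kˣ, x = y ^ 2 → x ∈ PV v := by
    rintro x y rfl
    rw [mem_PV]
    unfold SqAt
    rw [Units.val_pow_eq_pow_val, map_pow]
    exact ⟨algebraMap k (v.adicCompletion k) (y : k), sq _⟩
  have hle : (powMonoidHom 2 : (𝓞 k ⧸ v.asIdeal ^ N)ˣ →* (𝓞 k ⧸ v.asIdeal ^ N)ˣ).range ≤ ψ.ker := by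
    rintro _ ⟨α, rfl⟩
    rw [MonoidHom.mem_ker, powMonoidHom_apply, map_pow, hsq]
  have hcard : Nat.card ψ.range ≤ 2 * (Nat.card (𝓞 k ⧸ v.asIdeal)) ^ e := by
    rw [← Subgroup.index_ker]
    have h1 : ψ.ker.index ∣ (powMonoidHom 2 : (𝓞 k ⧸ v.asIdeal ^ N)ˣ →*
        (𝓞 k ⧸ v.asIdeal ^ N)ˣ).range.index := Subgroup.index_dvd_of_le hle
    have h2 : (powMonoidHom 2 : (𝓞 k ⧸ v.asIdeal ^ N)ˣ →*
        (𝓞 k ⧸ v.asIdeal ^ N)ˣ).range.index ≠ 0 := Subgroup.index_ne_zero_of_finite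
    refine (Nat.le_of_dvd (Nat.pos_of_ne_zero h2) h1).trans ?_
    rw [Subgroup.index_range]
    have h3 : Nat.card (powMonoidHom 2 : (𝓞 k ⧸ v.asIdeal ^ N)ˣ →*
        (𝓞 k ⧸ v.asIdeal ^ N)ˣ).ker ≤ Nat.card {x : 𝓞 k ⧸ v.asIdeal ^ N // x ^ 2 = 1} := by
      refine Nat.card_le_card_of_injective (fun x => ⟨((x.1 : (𝓞 k ⧸ v.asIdeal ^ N)ˣ) :
        𝓞 k ⧸ v.asIdeal ^ N), ?_⟩) ?_
      · have h4 := x.2
        rw [MonoidHom.mem_ker, powMonoidHom_apply] at h4
        rw [← Units.val_pow_eq_pow_val, h4, Units.val_one]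
      · intro x y hxy
        have h5 := congrArg Subtype.val hxy
        exact Subtype.ext (Units.ext h5)
    refine h3.trans ?_
    have h4 := card_sq_one v.isPrime v.ne_bot e hfin
    rw [hN]
    exact h4
  -- the uniformiser
  obtain ⟨ϖ, hϖ⟩ := v.valuation_exists_uniformizer k
  have hϖ0 : ϖ ≠ 0 := by
    intro h0
    rw [h0, map_zero] at hϖ
    exact (WithZero.exp_ne_zero hϖ.symm)
  have hunit : ∀ b : kˣ, v.valuation k (b : k) = 1 → ∃ α, ψ α = QuotientGroup.mk b := by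
    intro b hb
    obtain ⟨r, hr⟩ := HeightOneSpectrum.exists_valuation_sub_lt_of_integer v (K := k) hb.le
      (Units.mk0 (WithZero.exp (-(N : ℤ))) WithZero.exp_ne_zero)
    rw [Units.val_mk0] at hr
    have hr' : v.valuation k ((r : k) - (b : k)) < WithZero.exp (-(N : ℤ)) := hr
    have hlt1 : WithZero.exp (-(N : ℤ)) < (1 : WithZero (Multiplicative ℤ)) := by
      rw [← WithZero.exp_zero, WithZero.exp_lt_exp]
      omega
    have hr1 : v.valuation k (r : k) = 1 := by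
      have h1 : (r : k) = (b : k) + ((r : k) - b) := by ring
      rw [h1, Valuation.map_add_eq_of_lt_left _ (by rw [hb]; exact hr'.trans hlt1), hb]
    have hrv : r ∉ v.asIdeal :=
      (HeightOneSpectrum.valuation_eq_one_iff_notMem (K := k) (v := v) (r := r)).1 hr1
    have hu : IsUnit (Ideal.Quotient.mk (v.asIdeal ^ N) r) := by
      have hmax : v.asIdeal.IsMaximal := v.isPrime.isMaximal v.ne_bot
      obtain ⟨y, hy⟩ := hmax.exists_inv hrv
      obtain ⟨z, hz, hyz⟩ := hy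
      have h3 : IsNilpotent (-(Ideal.Quotient.mk (v.asIdeal ^ N) z)) := by
        refine IsNilpotent.neg ⟨N, ?_⟩
        rw [← map_pow]
        exact Ideal.Quotient.eq_zero_iff_mem.mpr (Ideal.pow_mem_pow hz N)
      have h4 := h3.isUnit_one_add
      have h5 : (1 : 𝓞 k ⧸ v.asIdeal ^ N) + -(Ideal.Quotient.mk (v.asIdeal ^ N) z)
          = Ideal.Quotient.mk (v.asIdeal ^ N) y * Ideal.Quotient.mk (v.asIdeal ^ N) r := by
        rw [← map_mul, ← map_one (Ideal.Quotient.mk (v.asIdeal ^ N)), ← map_neg, ← map_add]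
        congr 1
        rw [← hyz]
        ring
      rw [h5] at h4
      exact isUnit_of_mul_isUnit_right h4
    obtain ⟨α, hα⟩ := hu
    refine ⟨α, ?_⟩
    rw [hψ, QuotientGroup.eq, mem_PV]
    have h1 : SqAt v ((ρ α : k) / r) := hsub (by rw [hρ', hα]) hrv
    have h2 : SqAt v ((b : k) / r) := hK hrv (by
      rw [← neg_sub, Valuation.map_neg]
      exact hr'.le)
    unfold SqAt at h1 h2 ⊢
    have h3 : (((Units.mk0 (ρ α : k) (hcoe (hρ α)))⁻¹ * b : kˣ) : k)
        = ((b : k) / r) / ((ρ α : k) / r) := by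
      rw [Units.val_mul, Units.val_inv_eq_inv_val, Units.val_mk0]
      have := hcoe hrv
      have := hcoe (hρ α)
      field_simp
    rw [h3, map_div₀]
    exact h2.div h1
  have hsurj : Function.Surjective (fun t : Bool × ψ.range =>
      (if t.1 then (QuotientGroup.mk (Units.mk0 ϖ hϖ0) : kˣ ⧸ PV v) else 1) * t.2.1) := by
    intro x
    obtain ⟨a, rfl⟩ := QuotientGroup.mk_surjective x
    obtain ⟨n, hn⟩ : ∃ n : ℤ, v.valuation k (a : k) = WithZero.exp n :=
      ⟨_, (WithZero.exp_log ((Valuation.ne_zero_iff _).2 a.ne_zero)).symm⟩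
    rcases Int.even_or_odd n with ⟨m, hm⟩ | ⟨m, hm⟩
    · obtain ⟨α, hα⟩ := hunit (a * (Units.mk0 ϖ hϖ0) ^ (2 * m)) (by
        rw [Units.val_mul, map_mul, hn, Units.val_zpow_eq_zpow_val, map_zpow₀, Units.val_mk0, hϖ,
          ← WithZero.exp_zsmul, ← WithZero.exp_add, ← WithZero.exp_zero]
        congr 1
        simp only [smul_eq_mul]
        omega)
      refine ⟨(false, ⟨ψ α, α, rfl⟩), ?_⟩
      have h5 : (QuotientGroup.mk (a * (Units.mk0 ϖ hϖ0) ^ (2 * m)) : kˣ ⧸ PV v)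
          = QuotientGroup.mk a := by
        rw [QuotientGroup.eq]
        refine hpow _ ((Units.mk0 ϖ hϖ0) ^ (-m)) ?_
        rw [← zpow_natCast, ← zpow_mul]
        have h6 : ((-m) * ((2 : ℕ) : ℤ)) = -(2 * m) := by push_cast; ring
        rw [h6, zpow_neg, mul_inv, mul_comm a⁻¹, mul_assoc, inv_mul_cancel, mul_one]
      exact (one_mul (ψ α)).trans (hα.trans h5)
    · obtain ⟨α, hα⟩ := hunit (a * (Units.mk0 ϖ hϖ0) ^ (2 * m + 1)) (by
        rw [Units.val_mul, map_mul, hn, Units.val_zpow_eq_zpow_val, map_zpow₀, Units.val_mk0, hϖ,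
          ← WithZero.exp_zsmul, ← WithZero.exp_add, ← WithZero.exp_zero]
        congr 1
        simp only [smul_eq_mul]
        omega)
      refine ⟨(true, ⟨ψ α, α, rfl⟩), ?_⟩
      have h5 : (QuotientGroup.mk (Units.mk0 ϖ hϖ0 * (a * (Units.mk0 ϖ hϖ0) ^ (2 * m + 1))) :
          kˣ ⧸ PV v) = QuotientGroup.mk a := by
        rw [QuotientGroup.eq]
        refine hpow _ ((Units.mk0 ϖ hϖ0) ^ (-(m + 1))) ?_
        rw [← zpow_natCast, ← zpow_mul]
        have h6 : ((-(m + 1)) * ((2 : ℕ) : ℤ)) = -(2 * m + 1) + -1 := by push_cast; ring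
        have h8 : (Units.mk0 ϖ hϖ0) ^ (-(2 * m + 1) + -1)
            = ((Units.mk0 ϖ hϖ0) ^ (2 * m + 1))⁻¹ * (Units.mk0 ϖ hϖ0)⁻¹ := by
          rw [zpow_add, zpow_neg, zpow_neg, zpow_one]
        rw [h6, h8, mul_inv, mul_inv]
        calc (Units.mk0 ϖ hϖ0)⁻¹ * (a⁻¹ * ((Units.mk0 ϖ hϖ0) ^ (2 * m + 1))⁻¹) * a
            = ((Units.mk0 ϖ hϖ0) ^ (2 * m + 1))⁻¹ * (Units.mk0 ϖ hϖ0)⁻¹ * (a⁻¹ * a) := by
              rw [mul_comm a⁻¹]
              ac_rfl
          _ = _ := by rw [inv_mul_cancel, mul_one]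
      have h7 : (QuotientGroup.mk (Units.mk0 ϖ hϖ0) : kˣ ⧸ PV v) * ψ α
          = QuotientGroup.mk (Units.mk0 ϖ hϖ0 * (a * (Units.mk0 ϖ hϖ0) ^ (2 * m + 1))) := by
        rw [hα]
        rfl
      exact h7.trans h5
  have hfinA : Finite (𝓞 k ⧸ v.asIdeal ^ N)ˣ := inferInstance
  have hfinr : Finite ψ.range := Finite.of_surjective ψ.rangeRestrict ψ.rangeRestrict_surjective
  have hfinq : Finite (kˣ ⧸ PV v) := Finite.of_surjective _ hsurj
  refine ⟨?_, ?_⟩
  · rw [Subgroup.index]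
    exact Nat.card_pos.ne'
  · rw [Subgroup.index]
    refine (Nat.card_le_card_of_surjective _ hsurj).trans ?_
    rw [Nat.card_prod, Nat.card_eq_fintype_card (α := Bool), Fintype.card_bool]
    calc 2 * Nat.card ψ.range ≤ 2 * (2 * (Nat.card (𝓞 k ⧸ v.asIdeal)) ^ e) :=
          Nat.mul_le_mul_left 2 hcard
      _ = 4 * (Ideal.absNorm v.asIdeal) ^ (ordv v (2 : k)).toNat := by
          rw [← he, ← mul_assoc]
          rfl

end num

end Pool.Agent.Lib.MP_2f3286_ag.UA.IX
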