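import Mathlib
import Pool.Agent.Lib.MP_2f3286_ag.Aux2
import Pool.Agent.Lib.MP_2f3286_ag.UA.Crit
import Pool.Agent.Lib.MP_2f3286_ag.UA.LG0

/-!
# The field fixed by the section of a rational place is large
-/

open Polynomial Filter
open scoped Polynomial.Bivariate

namespace Pool.Agent.Lib.MP_2f3286_ag.UA

open Pool.Agent.Lib.MP_2f3286_ag.Sel (IsPlaceOf)

section Hensel

variable {M Γ : Type*} [Field M] [LinearOrderedCommGroupWithZero Γ] (v : Valuation M Γ)

/-- values of a polynomial with small coefficients -/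
theorem lg_eval_lt (p : M[X]) (e t : M) (h : ∀ i, v (e * p.coeff i) < 1) (ht : v t ≤ 1) :
    v (e * p.eval t) < 1 := by
  rw [eval_eq_sum_range, Finset.mul_sum]
  refine v.map_sum_lt one_ne_zero fun i _ => ?_
  rw [← mul_assoc, map_mul, map_pow]
  exact (mul_le_of_le_one_right' (pow_le_one' ht i)).trans_lt (h i)

/-- a polynomial congruent to a multiple of the variable has a small root -/
theorem lg_exists_root [IsAlgClosed M] (h : M[X]) (h0 : v (h.coeff 0) < 1)
    (h1 : v (h.coeff 1 - 1) < 1) : ∃ z, v z < 1 ∧ h.eval z = 0 := by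
  by_contra hcon
  push Not at hcon
  have he0 : h.eval 0 ≠ 0 := hcon 0 (by rw [map_zero]; exact zero_lt_one)
  have hs : ∀ S : Multiset M, (∀ z ∈ S, 1 ≤ v z) → v (S.map fun z => 1 / (0 - z)).sum ≤ 1 := by
    intro S
    induction S using Multiset.induction_on with
    | empty => intro _; simp
    | cons a S ih =>
      intro hS
      rw [Multiset.map_cons, Multiset.sum_cons]
      refine v.map_add_le ?_ (ih fun z hz => hS z (Multiset.mem_cons_of_mem hz))
      rw [zero_sub, map_div₀, map_one, Valuation.map_neg, one_div]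
      exact inv_le_one_of_one_le₀ (hS a (Multiset.mem_cons_self a S))
  have hd := (IsAlgClosed.splits h).eval_derivative_eq_eval_mul_sum he0
  have h2 : h.derivative.eval 0 = h.coeff 1 := by
    rw [← coeff_zero_eq_eval_zero, coeff_derivative]
    simp
  rw [h2] at hd
  have h3 : v (h.coeff 1) = 1 := by
    have := v.map_one_add_of_lt h1
    rwa [add_sub_cancel] at this
  have h4 : v (h.coeff 1) < 1 := by
    rw [hd, map_mul]
    refine (mul_le_of_le_one_right' (hs _ ?_)).trans_lt ?_
    · intro z hz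
      by_contra hz1
      exact hcon z (not_le.1 hz1) (isRoot_of_mem_roots hz)
    · rwa [← coeff_zero_eq_eval_zero]
  exact h4.ne h3

theorem lg_pow_sub {z w : M} (hz : v z ≤ 1) (hw : v w ≤ 1) (j : ℕ) :
    v (z ^ j - w ^ j) ≤ v (z - w) := by
  induction j with
  | zero => simp
  | succ j ih =>
    have : z ^ (j + 1) - w ^ (j + 1) = z * (z ^ j - w ^ j) + (z - w) * w ^ j := by ring
    rw [this]
    refine v.map_add_le ?_ ?_
    · rw [map_mul]
      exact mul_le_of_le_one_of_le hz ih
    · rw [map_mul, map_pow]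
      exact mul_le_of_le_one_right' (pow_le_one' hw j)

/-- a polynomial congruent to a multiple of the variable has only one small root -/
theorem lg_unique_root (h : M[X]) (h1 : v (h.coeff 1 - 1) < 1)
    (h2 : ∀ j, 2 ≤ j → v (h.coeff j) < 1) {z w : M} (hz : v z < 1) (hw : v w < 1)
    (e : h.eval z = h.eval w) : z = w := by
  by_contra hne
  have hδ : v (z - w) ≠ 0 := (Valuation.ne_zero_iff v).2 (sub_ne_zero.2 hne)
  have hr : ∀ j, v ((h - X).coeff j * (z ^ j - w ^ j)) < v (z - w) := by
    intro j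
    rcases Nat.eq_zero_or_pos j with rfl | hj
    · rw [pow_zero, pow_zero, sub_self, mul_zero, map_zero]
      exact zero_lt_iff.2 hδ
    · have h3 : v ((h - X).coeff j) < 1 := by
        rw [coeff_sub, coeff_X]
        split_ifs with h4
        · rw [← h4]
          exact h1
        · rw [sub_zero]
          exact h2 j (by omega)
      rw [map_mul]
      calc v ((h - X).coeff j) * v (z ^ j - w ^ j)
          ≤ v ((h - X).coeff j) * v (z - w) :=
            mul_le_mul_right (lg_pow_sub v hz.le hw.le j) _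
        _ < 1 * v (z - w) := mul_lt_mul_of_pos_right h3 (zero_lt_iff.2 hδ)
        _ = v (z - w) := one_mul _
  have h3 : (h - X).eval z - (h - X).eval w = -(z - w) := by
    rw [eval_sub, eval_sub, eval_X, eval_X, e]
    ring
  have h4 : (h - X).eval z - (h - X).eval w =
      ∑ j ∈ Finset.range ((h - X).natDegree + 1), (h - X).coeff j * (z ^ j - w ^ j) := by
    rw [eval_eq_sum_range, eval_eq_sum_range, ← Finset.sum_sub_distrib]
    exact Finset.sum_congr rfl fun j _ => by ring
  have h5 : v ((h - X).eval z - (h - X).eval w) < v (z - w) := by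
    rw [h4]
    exact v.map_sum_lt hδ fun j _ => hr j
  rw [h3, Valuation.map_neg] at h5
  exact lt_irrefl _ h5

/-- Hensel's lemma at a smooth point of a plane curve -/
theorem lg_hensel [IsAlgClosed M] (f : M[X][Y]) (a b : M) (hab : f.evalEval a b = 0) {D : M}
    (hD : f.derivative.evalEval a b = D) (hD0 : D ≠ 0) {c : M} (hc0 : c ≠ 0) (hc : v c < 1)
    (hcs : ∀ j i, v (c / D * (taylor a ((taylor (C b) f).coeff j)).coeff i) < 1)
    {u : M} (hu : v u ≤ 1) :
    ∃ z, v z < 1 ∧ f.evalEval (a + c ^ 2 * u) (b + c * z) = 0 ∧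
      ∀ w, v w < 1 → f.evalEval (a + c ^ 2 * u) (b + c * w) = 0 → w = z := by
  obtain ⟨x, hx⟩ : ∃ x, x = a + c ^ 2 * u := ⟨_, rfl⟩
  rw [← hx]
  obtain ⟨T, hT⟩ : ∃ T, T = taylor (C b) f := ⟨_, rfl⟩
  obtain ⟨p, hp⟩ : ∃ p : ℕ → M[X], ∀ j, p j = taylor a (T.coeff j) := ⟨_, fun j => rfl⟩
  rw [← hT] at hcs
  have hcs' : ∀ j i, v (c / D * (p j).coeff i) < 1 := fun j i => by
    rw [hp]
    exact hcs j i
  have hw : v (c ^ 2 * u) ≤ 1 := by
    rw [map_mul, map_pow]
    exact mul_le_one' (pow_le_one' hc.le 2) hu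
  have hpx : ∀ j, (T.coeff j).eval x = (p j).eval (c ^ 2 * u) := by
    intro j
    rw [hp, taylor_eval, hx, add_comm]
  have hq : ∀ j, v (c / D * ((p j).divX).eval (c ^ 2 * u)) < 1 := by
    intro j
    refine lg_eval_lt v _ _ _ (fun i => ?_) hw
    rw [coeff_divX]
    exact hcs' j (i + 1)
  have hpe : ∀ j, (p j).eval (c ^ 2 * u) = (p j).coeff 0 + c ^ 2 * u * (p j).divX.eval (c ^ 2 * u) := by
    intro j
    conv_lhs => rw [← divX_mul_X_add (p j)]
    rw [eval_add, eval_mul, eval_X, eval_C]
    ring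
  have hp0 : (p 0).coeff 0 = 0 := by
    rw [hp, taylor_coeff_zero, hT, taylor_coeff_zero]
    exact hab
  have hp1 : (p 1).coeff 0 = D := by
    rw [hp, taylor_coeff_zero, hT, taylor_coeff_one]
    exact hD
  obtain ⟨h, hh⟩ : ∃ h : M[X], h = C (c * D)⁻¹ * (T.map (evalRingHom x)).comp (C c * X) := ⟨_, rfl⟩
  have hcoeff : ∀ j, h.coeff j = (c * D)⁻¹ * ((p j).eval (c ^ 2 * u) * c ^ j) := by
    intro j
    rw [hh, coeff_C_mul, comp_C_mul_X_coeff, coeff_map, coe_evalRingHom, hpx]
  have heval : ∀ z, h.eval z = (c * D)⁻¹ * f.evalEval x (b + c * z) := by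
    intro z
    rw [hh, eval_mul, eval_C, eval_comp, eval_mul, eval_C, eval_X, hT, map_taylor,
      coe_evalRingHom, eval_C, taylor_eval, map_evalRingHom_eval, add_comm]
  have h0 : v (h.coeff 0) < 1 := by
    have : h.coeff 0 = u * (c / D * (p 0).divX.eval (c ^ 2 * u)) := by
      rw [hcoeff, hpe, hp0]
      field_simp
      try ring
    rw [this, map_mul]
    exact (mul_le_of_le_one_left' hu).trans_lt (hq 0)
  have h1 : v (h.coeff 1 - 1) < 1 := by
    have : h.coeff 1 - 1 = (c * u) * (c / D * (p 1).divX.eval (c ^ 2 * u)) := by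
      rw [hcoeff, hpe, hp1]
      field_simp
      try ring
    rw [this, map_mul]
    refine (mul_le_of_le_one_left' ?_).trans_lt (hq 1)
    rw [map_mul]
    exact mul_le_one' hc.le hu
  have h2 : ∀ j, 2 ≤ j → v (h.coeff j) < 1 := by
    intro j hj
    obtain ⟨i, rfl⟩ := Nat.exists_eq_add_of_le hj
    have : h.coeff (2 + i) = (c / D * (p (2 + i)).eval (c ^ 2 * u)) * c ^ i := by
      rw [hcoeff, pow_add]
      field_simp
      try ring
    rw [this, map_mul, map_pow]
    exact (mul_le_of_le_one_right' (pow_le_one' hc.le i)).trans_lt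
      (lg_eval_lt v _ _ _ (hcs' _) hw)
  have hz0 : ∀ z, h.eval z = 0 ↔ f.evalEval x (b + c * z) = 0 := by
    intro z
    rw [heval, mul_eq_zero, or_iff_right (inv_ne_zero (mul_ne_zero hc0 hD0))]
  obtain ⟨z, hz, hze⟩ := lg_exists_root v h h0 h1
  refine ⟨z, hz, (hz0 z).1 hze, fun w hw1 hw2 => ?_⟩
  exact lg_unique_root v h h1 h2 hw1 hz (((hz0 w).2 hw2).trans hze.symm)

end Hensel

section

variable {k : Type*} [Field k] {K : Type*} [Field K] [Algebra k K] {M : Type*}
  [Field M] [Algebra K M] [Algebra (AlgebraicClosure k) M]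
  {s : Gal(AlgebraicClosure k/k) →* Gal(M/K)} {V : ValuationSubring M}
  {φ : V →+* AlgebraicClosure k}

omit [Algebra (AlgebraicClosure k) M] in
theorem lg_const [Algebra k M] (V : ValuationSubring M) (hk : ∀ c : k, algebraMap k M c ∈ V) {c : k}
    (hc : c ≠ 0) : V.valuation (algebraMap k M c) = 1 := by
  have h1 : V.valuation (algebraMap k M c) ≤ 1 := (V.valuation_le_one_iff _).2 (hk c)
  have h2 : V.valuation (algebraMap k M c⁻¹) ≤ 1 := (V.valuation_le_one_iff _).2 (hk _)
  rw [map_inv₀, map_inv₀] at h2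
  refine le_antisymm h1 ?_
  have h3 : V.valuation (algebraMap k M c) ≠ 0 := by
    rw [Valuation.ne_zero_iff]
    exact (_root_.map_ne_zero _).2 hc
  exact (inv_le_one₀ (zero_lt_iff.2 h3)).1 h2

omit [Algebra (AlgebraicClosure k) M] in
theorem lg_aeval [Algebra k M] (V : ValuationSubring M) (hk : ∀ c : k, algebraMap k M c ∈ V)
    {π : M} (hπ : V.valuation π < 1) {q : k[X]} (hq : q ≠ 0) :
    ∃ m : ℕ, V.valuation (aeval π q) = V.valuation π ^ m := by
  obtain ⟨r, hr, hr0⟩ := exists_eq_pow_rootMultiplicity_mul_and_not_dvd q hq 0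
  rw [C_0, sub_zero] at hr hr0
  refine ⟨rootMultiplicity 0 q, ?_⟩
  have h1 : V.valuation (aeval π r) = 1 := by
    have h2 : aeval π r = algebraMap k M (r.coeff 0) + aeval π r.divX * π := by
      conv_lhs => rw [← divX_mul_X_add r]
      rw [map_add, map_mul, aeval_C, aeval_X, add_comm]
    have h3 : V.valuation (algebraMap k M (r.coeff 0)) = 1 :=
      lg_const V hk fun h => hr0 (X_dvd_iff.2 h)
    have h4 : V.valuation (aeval π r.divX * π) < 1 := by
      rw [map_mul]
      refine (mul_le_of_le_one_left' ?_).trans_lt hπ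
      rw [V.valuation_le_one_iff, aeval_eq_sum_range]
      refine V.sum_mem fun i _ => ?_
      rw [Algebra.smul_def]
      exact V.mul_mem _ _ (hk _) (V.pow_mem ((V.valuation_le_one_iff _).1 hπ.le) _)
    rw [h2, Valuation.map_add_eq_of_lt_left (v := V.valuation) (by rwa [h3]), h3]
  rw [hr, map_mul, map_pow, aeval_X, map_mul, h1, mul_one, map_pow, ← hr]

omit [Algebra (AlgebraicClosure k) M] in
/-- valuations over a function field of one variable are archimedean -/
theorem lg_arch [Algebra.IsAlgebraic K M] [Algebra k M] [IsScalarTower k K M]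
    (htr : Algebra.trdeg k K = 1) (V : ValuationSubring M) (hk : ∀ c : k, algebraMap k M c ∈ V)
    {π : K} (hπ0 : π ≠ 0) (hπ : V.valuation (algebraMap K M π) < 1) (m : M) :
    ∀ᶠ n in atTop, V.valuation ((algebraMap K M π) ^ n * m) < 1 := by
  obtain ⟨p, hp⟩ : ∃ p, p = algebraMap K M π := ⟨_, rfl⟩
  rw [← hp] at hπ ⊢
  have hp0 : p ≠ 0 := by
    rw [hp]
    exact (_root_.map_ne_zero _).2 hπ0
  have hvp0 : V.valuation p ≠ 0 := (Valuation.ne_zero_iff _).2 hp0
  have hpt : Transcendental k π := by
    rintro ⟨q, hq0, hq⟩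
    obtain ⟨n, hn⟩ := lg_aeval V hk hπ hq0
    rw [hp, aeval_algebraMap_apply, hq, map_zero, map_zero, ← hp] at hn
    exact pow_ne_zero n hvp0 hn.symm
  by_contra hcon
  have hm : ∀ n, 1 ≤ V.valuation (p ^ n * m) := by
    intro n
    by_contra hn
    apply hcon
    filter_upwards [eventually_ge_atTop n] with j hj
    obtain ⟨i, rfl⟩ := Nat.exists_eq_add_of_le hj
    have : p ^ (n + i) * m = p ^ i * (p ^ n * m) := by ring
    rw [this, map_mul, map_pow]
    exact (mul_le_of_le_one_left' (pow_le_one' hπ.le i)).trans_lt (not_le.1 hn)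
  have hm0 : m ≠ 0 := by
    rintro rfl
    have := hm 0
    rw [mul_zero, map_zero] at this
    exact not_le.2 zero_lt_one this
  obtain ⟨w, hw⟩ : ∃ w, w = m⁻¹ := ⟨_, rfl⟩
  have hw0 : w ≠ 0 := by
    rw [hw]
    exact inv_ne_zero hm0
  have hwn : ∀ n, V.valuation w ≤ V.valuation p ^ n := by
    intro n
    have h1 := hm n
    rw [map_mul, map_pow] at h1
    rw [hw, map_inv₀]
    have h2 : V.valuation m ≠ 0 := (Valuation.ne_zero_iff _).2 hm0
    rw [inv_le_iff_one_le_mul₀ (zero_lt_iff.2 h2)]
    exact h1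
  have hpt' : Transcendental k p := by
    intro h
    rw [hp] at h
    exact hpt ((isAlgebraic_algebraMap_iff (algebraMap K M).injective).1 h)
  have hbasis : IsTranscendenceBasis k ![p] :=
    (algebraicIndependent_iff_transcendental.mpr hpt').isTranscendenceBasis_of_lift_trdeg_le_of_finite
      (by rw [Pool.Agent.Lib.MP_2f3286_ag.trdeg_top (K := K) htr]; simp)
  have halg := hbasis.isAlgebraic
  obtain ⟨Q, hQ0, hQ⟩ := (halg.isAlgebraic w).exists_nonzero_coeff_and_aeval_eq_zero
    (mem_nonZeroDivisors_of_ne_zero hw0)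
  have hmem : ∀ a : Algebra.adjoin k (Set.range ![p]), ∃ q : k[X], aeval p q = (a : M) := by
    intro a
    have h1 : (a : M) ∈ Algebra.adjoin k {p} := by
      have h2 := a.2
      have h3 : Set.range ![p] = {p} := by simp
      rwa [← h3]
    rw [Algebra.adjoin_singleton_eq_range_aeval] at h1
    exact h1
  have hmemV : ∀ a : Algebra.adjoin k (Set.range ![p]), V.valuation (a : M) ≤ 1 := by
    intro a
    obtain ⟨q, hq⟩ := hmem a
    rw [← hq, V.valuation_le_one_iff, aeval_eq_sum_range]
    refine V.sum_mem fun i _ => ?_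
    rw [Algebra.smul_def]
    exact V.mul_mem _ _ (hk _) (V.pow_mem ((V.valuation_le_one_iff _).1 hπ.le) _)
  obtain ⟨q, hq⟩ := hmem (Q.coeff 0)
  have hq0 : q ≠ 0 := by
    rintro rfl
    rw [map_zero] at hq
    exact hQ0 (Subtype.ext hq.symm)
  obtain ⟨n, hn⟩ := lg_aeval V hk hπ hq0
  have h1 : (Q.coeff 0 : M) = - (aeval w Q.divX * w) := by
    have h2 : aeval w Q = aeval w Q.divX * w + (Q.coeff 0 : M) := by
      conv_lhs => rw [← divX_mul_X_add Q]
      rw [map_add, map_mul, aeval_C, aeval_X]
      rfl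
    rw [hQ] at h2
    linear_combination -h2
  have h2 : V.valuation (aeval w Q.divX) ≤ 1 := by
    rw [V.valuation_le_one_iff, aeval_eq_sum_range]
    refine V.sum_mem fun i _ => ?_
    rw [Algebra.smul_def]
    refine V.mul_mem _ _ ((V.valuation_le_one_iff _).1 (hmemV _)) (V.pow_mem ?_ _)
    exact (V.valuation_le_one_iff w).1 (by simpa using hwn 0)
  have h3 : V.valuation (Q.coeff 0 : M) ≤ V.valuation p ^ (n + 1) := by
    rw [h1, Valuation.map_neg, map_mul]
    exact (mul_le_of_le_one_left' h2).trans (hwn _)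
  rw [← hq, hn, pow_succ] at h3
  have h4 : V.valuation p ^ n * V.valuation p < V.valuation p ^ n * 1 :=
    mul_lt_mul_of_pos_left hπ (zero_lt_iff.2 (pow_ne_zero _ hvp0))
  rw [mul_one] at h4
  exact absurd h3 (not_le.2 h4)

omit [Algebra k K] in
theorem lg_valuation (h : IsPlaceOf s k (RingHom.id (AlgebraicClosure k)) V φ) (x : V) :
    V.valuation (x : M) < 1 ↔ φ x = 0 := by
  constructor
  · intro h1
    by_contra h2
    have h3 := h.2.1 x h2
    have h4 : (x : M) ≠ 0 := by
      intro h5
      apply h2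
      have : x = 0 := Subtype.ext h5
      rw [this, map_zero]
    have h5 : V.valuation ((x : M) * (x : M)⁻¹) = 1 := by rw [mul_inv_cancel₀ h4, map_one]
    rw [map_mul] at h5
    have h6 := (mul_le_of_le_one_right' ((V.valuation_le_one_iff _).2 h3)).trans_lt h1
    rw [h5] at h6
    exact lt_irrefl _ h6
  · intro h1
    by_contra h2
    have h3 := not_lt.1 h2
    have h4 : (x : M) ≠ 0 := by
      intro h5
      rw [h5, map_zero] at h3
      exact not_le.2 zero_lt_one h3
    have h5 : (x : M)⁻¹ ∈ V := by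
      rw [← V.valuation_le_one_iff, map_inv₀]
      exact inv_le_one_of_one_le₀ h3
    have h6 : φ x * φ ⟨_, h5⟩ = 1 := by
      rw [← map_mul, ← map_one φ]
      congr 1
      exact Subtype.ext (mul_inv_cancel₀ h4)
    rw [h1, zero_mul] at h6
    exact zero_ne_one h6

omit [Algebra k K] in
theorem lg_valuation_map (h : IsPlaceOf s k (RingHom.id (AlgebraicClosure k)) V φ) {x : M}
    (hx : V.valuation x < 1) (σ : Gal(AlgebraicClosure k/k)) : V.valuation (s σ x) < 1 := by
  have hxV : x ∈ V := (V.valuation_le_one_iff x).1 hx.le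
  obtain ⟨h1, h2⟩ := h.2.2 σ σ (fun _ => rfl) ⟨x, hxV⟩
  have h3 := (lg_valuation h ⟨x, hxV⟩).1 hx
  rw [h3, map_zero] at h2
  exact (lg_valuation h ⟨s σ x, h1⟩).2 h2

/-- The field fixed by the section of a rational place of a curve is large. -/
theorem large_of_place [CharZero k] [IsAlgClosed M] [Algebra.IsAlgebraic K M] [Algebra k M]
    [IsScalarTower k K M] [IsScalarTower k (AlgebraicClosure k) M] (htr : Algebra.trdeg k K = 1)
    (h : IsPlaceOf s k (RingHom.id (AlgebraicClosure k)) V φ) :
    IsLarge (IntermediateField.fixedField s.range) := by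
  classical
  intro f a b hab hD
  obtain ⟨L, hL⟩ : ∃ L, L = IntermediateField.fixedField s.range := ⟨_, rfl⟩
  have hmem : ∀ x : M, x ∈ IntermediateField.fixedField s.range ↔ ∀ σ, s σ x = x := by
    intro x
    rw [IntermediateField.mem_fixedField_iff]
    constructor
    · intro hx σ
      exact hx (s σ) ⟨σ, rfl⟩
    · rintro hx _ ⟨σ, rfl⟩
      exact hx σ
  -- a local parameter from below
  obtain ⟨y₀, hy₀⟩ : ∃ y₀ : K, Transcendental k y₀ := by
    have : Algebra.Transcendental k K := by
      rw [← trdeg_ne_zero_iff, htr]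
      exact one_ne_zero
    exact this.transcendental
  obtain ⟨y, hy⟩ := exists_infinite h hy₀
  have hkV : ∀ c : k, algebraMap k M c ∈ V := by
    intro c
    rw [IsScalarTower.algebraMap_apply k (AlgebraicClosure k) M]
    exact (h.1 _).1
  have hy0 : y ≠ 0 := by
    rintro rfl
    rw [map_zero] at hy
    exact hy V.zero_mem
  obtain ⟨p, hp⟩ : ∃ p, p = algebraMap K M y⁻¹ := ⟨_, rfl⟩
  have hp0 : p ≠ 0 := by
    rw [hp]
    exact (_root_.map_ne_zero _).2 (inv_ne_zero hy0)
  have hvp : V.valuation p < 1 := by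
    rw [hp, map_inv₀, map_inv₀]
    have h1 : 1 < V.valuation (algebraMap K M y) := by
      by_contra h1
      exact hy ((V.valuation_le_one_iff _).1 (not_lt.1 h1))
    exact inv_lt_one_of_one_lt₀ h1
  have hps : ∀ σ, s σ p = p := by
    intro σ
    rw [hp, AlgEquiv.commutes]
  -- the curve over `M`
  obtain ⟨g, hg⟩ : ∃ g : M[X][Y], g = f.map (mapRingHom (algebraMap _ M)) := ⟨_, rfl⟩
  have hge : ∀ x y : IntermediateField.fixedField s.range,
      g.evalEval (x : M) (y : M) = ((f.evalEval x y : IntermediateField.fixedField s.range) : M) := by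
    intro x y
    rw [hg]
    exact map_mapRingHom_evalEval (algebraMap (IntermediateField.fixedField s.range) M) f x y
  have hgd : g.derivative.evalEval (a : M) (b : M) =
      ((f.derivative.evalEval a b : IntermediateField.fixedField s.range) : M) := by
    rw [hg, derivative_map]
    exact map_mapRingHom_evalEval (algebraMap (IntermediateField.fixedField s.range) M) _ a b
  obtain ⟨D, hDe⟩ : ∃ D, D = g.derivative.evalEval (a : M) (b : M) := ⟨_, rfl⟩
  have hD0 : D ≠ 0 := by
    rw [hDe, hgd]
    exact fun h0 => hD (Subtype.ext h0)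
  have hgs : ∀ (σ : Gal(AlgebraicClosure k/k)) (x y : M),
      g.evalEval (s σ x) (s σ y) = s σ (g.evalEval x y) := by
    intro σ x y
    have h1 : g.map (mapRingHom (s σ : M →+* M)) = g := by
      rw [hg, Polynomial.map_map, mapRingHom_comp]
      congr 2
      exact RingHom.ext fun x => (hmem x).1 x.2 σ
    conv_lhs => rw [← h1]
    exact map_mapRingHom_evalEval (s σ : M →+* M) g x y
  -- the choice of `c`
  have hev : ∀ᶠ n in atTop, ∀ j ∈ Finset.range (g.natDegree + 1),
      ∀ i ∈ Finset.range ((taylor (a : M) ((taylor (C (b : M)) g).coeff j)).natDegree + 1),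
      V.valuation (p ^ n *
        ((taylor (a : M) ((taylor (C (b : M)) g).coeff j)).coeff i / D)) < 1 := by
    rw [eventually_all_finset]
    intro j _
    rw [eventually_all_finset]
    intro i _
    rw [hp]
    exact lg_arch htr V hkV (inv_ne_zero hy0) (by rwa [← hp]) _
  obtain ⟨n, hn, hn1⟩ := (hev.and (eventually_ge_atTop 1)).exists
  obtain ⟨c, hc⟩ : ∃ c, c = p ^ n := ⟨_, rfl⟩
  have hc0 : c ≠ 0 := by
    rw [hc]
    exact pow_ne_zero _ hp0
  have hvc : V.valuation c < 1 := by
    rw [hc, map_pow]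
    exact pow_lt_one₀ zero_le hvp (by omega)
  have hcs : ∀ σ, s σ c = c := by
    intro σ
    rw [hc, map_pow, hps]
  have hcond : ∀ j i, V.valuation
      (c / D * (taylor (a : M) ((taylor (C (b : M)) g).coeff j)).coeff i) < 1 := by
    intro j i
    have e1 : c / D * (taylor (a : M) ((taylor (C (b : M)) g).coeff j)).coeff i =
        p ^ n * ((taylor (a : M) ((taylor (C (b : M)) g).coeff j)).coeff i / D) := by
      rw [hc]
      ring
    rw [e1]
    by_cases hj : j ∈ Finset.range (g.natDegree + 1)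
    · by_cases hi : i ∈ Finset.range
        ((taylor (a : M) ((taylor (C (b : M)) g).coeff j)).natDegree + 1)
      · exact hn j hj i hi
      · rw [coeff_eq_zero_of_natDegree_lt (by simpa [Nat.lt_succ_iff] using hi), zero_div, mul_zero,
          map_zero]
        exact zero_lt_one
    · have h1 : (taylor (C (b : M)) g).coeff j = 0 := by
        apply coeff_eq_zero_of_natDegree_lt
        rw [natDegree_taylor]
        simpa [Nat.lt_succ_iff] using hj
      rw [h1, map_zero, coeff_zero, zero_div, mul_zero, map_zero]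
      exact zero_lt_one
  -- the points
  have hgab : g.evalEval (a : M) (b : M) = 0 := by
    rw [hge, hab]
    rfl
  have hpt : ∀ m : ℕ, ∃ x y : IntermediateField.fixedField s.range,
      (x : M) = a + c ^ 2 * p ^ m ∧ f.evalEval x y = 0 := by
    intro m
    have hu : V.valuation (p ^ m) ≤ 1 := by
      rw [map_pow]
      exact pow_le_one' hvp.le m
    obtain ⟨z, hz, hz1, hz2⟩ := lg_hensel V.valuation g (a : M) (b : M) hgab hDe.symm hD0 hc0 hvc
      hcond hu
    have has : ∀ σ, s σ (a : M) = a := (hmem _).1 a.2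
    have hbs : ∀ σ, s σ (b : M) = b := (hmem _).1 b.2
    have hzs : ∀ σ, s σ z = z := by
      intro σ
      refine hz2 _ (lg_valuation_map h hz σ) ?_
      have h1 : s σ ((a : M) + c ^ 2 * p ^ m) = a + c ^ 2 * p ^ m := by
        rw [map_add, map_mul, map_pow, map_pow, has, hcs, hps]
      have h2 : s σ ((b : M) + c * z) = b + c * s σ z := by
        rw [map_add, map_mul, hbs, hcs]
      rw [← h1, ← h2, hgs, hz1, map_zero]
    have hx : (a : M) + c ^ 2 * p ^ m ∈ IntermediateField.fixedField s.range := by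
      rw [hmem]
      intro σ
      rw [map_add, map_mul, map_pow, map_pow, has, hcs, hps]
    have hy : (b : M) + c * z ∈ IntermediateField.fixedField s.range := by
      rw [hmem]
      intro σ
      rw [map_add, map_mul, hbs, hcs, hzs]
    refine ⟨⟨_, hx⟩, ⟨_, hy⟩, rfl, ?_⟩
    apply Subtype.ext
    rw [← hge]
    exact hz1
  choose x y hx hxy using hpt
  refine Set.infinite_of_injective_forall_mem (f := fun m => (x m, y m)) ?_ hxy
  intro m m' hmm
  have h1 : x m = x m' := congrArg Prod.fst hmm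
  have h2 : (x m : M) = x m' := by rw [h1]
  rw [hx, hx] at h2
  have h3 : p ^ m = p ^ m' := mul_left_cancel₀ (pow_ne_zero 2 hc0) (add_left_cancel h2)
  have h4 : V.valuation p ^ m = V.valuation p ^ m' := by
    rw [← map_pow, h3, map_pow]
  have h5 : V.valuation p ≠ 0 := (Valuation.ne_zero_iff _).2 hp0
  exact (pow_right_strictAnti₀ (zero_lt_iff.2 h5) hvp).injective h4

end

end Pool.Agent.Lib.MP_2f3286_ag.UA
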