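import Pool.Agent.Lib.MP_2f3286_ag.UA.LG4
import Pool.Agent.Lib.MP_2f3286_ag.Ep2.G8

/-!
# Sections which lift over the decomposition groups

`s` is a section of the Galois group of `M` over `K`, where `M` contains an algebraic closure `kb` of the number
field `k`, and `Ω` is an algebraic closure of `K` which contains `M`. If the restriction of `s` to the decomposition
group of every valuation ring of `kb` which is not `kb` lifts to the absolute Galois group of `K`, then `s` has a
place with values in every completion `k_v`, `v` finite.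
-/

open NumberField IsDedekindDomain Polynomial
open Pool.Agent.Lib.MP_2f3286_ag
open Pool.Agent.Lib.MP_2f3286_ag.Sel (IsPlaceOf)

namespace Pool.Agent.Lib.MP_2f3286_ag.UA

open Koe Ep
open scoped Pointwise

/-- every finite place lies above a prime number -/
theorem exists_prime_mem {k : Type*} [Field k] [NumberField k] (v : HeightOneSpectrum (𝓞 k)) :
    ∃ p : ℕ, p.Prime ∧ (p : 𝓞 k) ∈ v.asIdeal := by
  have h1 : v.asIdeal.comap (algebraMap ℤ (𝓞 k)) ≠ ⊥ := by
    intro h
    exact v.ne_bot (Ideal.eq_bot_of_comap_eq_bot h)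
  have hpr : (v.asIdeal.comap (algebraMap ℤ (𝓞 k))).IsPrime := Ideal.comap_isPrime _ _
  obtain ⟨a, ha⟩ := (IsPrincipalIdealRing.principal
    (v.asIdeal.comap (algebraMap ℤ (𝓞 k)))).principal
  have ha0 : a ≠ 0 := by
    rintro rfl
    apply h1
    rw [ha]
    exact Ideal.span_singleton_eq_bot.2 rfl
  have hap : Prime a := by
    rw [← Ideal.span_singleton_prime ha0]
    have h2 : (Ideal.span {a} : Ideal ℤ) = v.asIdeal.comap (algebraMap ℤ (𝓞 k)) := ha.symm
    rw [h2]
    exact hpr
  refine ⟨a.natAbs, Int.prime_iff_natAbs_prime.1 hap, ?_⟩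
  have h2 : (a.natAbs : ℤ) ∈ v.asIdeal.comap (algebraMap ℤ (𝓞 k)) := by
    rw [ha]
    exact Ideal.mem_span_singleton.2 (Int.dvd_natAbs.2 dvd_rfl)
  rw [Ideal.mem_comap] at h2
  have h3 : algebraMap ℤ (𝓞 k) (a.natAbs : ℤ) = ((a.natAbs : ℕ) : 𝓞 k) := by
    rw [eq_intCast, Int.cast_natCast]
  rwa [h3] at h2

/-- the valuation ring of a nonarchimedean absolute value -/
def absRing {L : Type*} [Field L] (v : AbsoluteValue L ℝ)
    (hv : ∀ a b, v (a + b) ≤ max (v a) (v b)) : ValuationSubring L where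
  carrier := {a | v a ≤ 1}
  mul_mem' {a b} ha hb := by
    show v (a * b) ≤ 1
    rw [v.map_mul]
    exact mul_le_one₀ ha (v.nonneg b) hb
  one_mem' := by
    show v 1 ≤ 1
    rw [v.map_one]
  add_mem' {a b} ha hb := (hv a b).trans (max_le ha hb)
  zero_mem' := by
    show v 0 ≤ 1
    rw [v.map_zero]; exact zero_le_one
  neg_mem' {a} ha := by
    show v (-a) ≤ 1
    rw [v.map_neg]; exact ha
  mem_or_inv_mem' a := by
    show v a ≤ 1 ∨ v a⁻¹ ≤ 1
    rcases le_total (v a) 1 with h | h
    · exact Or.inl h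
    · right
      rw [map_inv₀]
      exact inv_le_one_of_one_le₀ h

theorem mem_absRing {L : Type*} [Field L] {v : AbsoluteValue L ℝ}
    {hv : ∀ a b, v (a + b) ≤ max (v a) (v b)} {a : L} : a ∈ absRing v hv ↔ v a ≤ 1 := Iff.rfl

/-- **Local places from lifts over the decomposition groups.** -/
theorem local_place_of_lift {k : Type*} [Field k] [NumberField k]
    {K M Ω : Type*} [Field K] [Field M] [Algebra K M] [Field Ω] [Algebra M Ω] [Algebra K Ω]
    [Algebra.IsAlgebraic K Ω] [IsAlgClosed Ω] [Algebra (AlgebraicClosure k) M]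
    (s : Gal(AlgebraicClosure k/k) →* Gal(M/K))
    (hsec : ∀ σ a, s σ (algebraMap (AlgebraicClosure k) M a) =
      algebraMap (AlgebraicClosure k) M (σ a))
    (hlift : ∀ 𝒪 : ValuationSubring (AlgebraicClosure k), 𝒪 ≠ ⊤ →
      ∃ t : 𝒪.decompositionSubgroup k →* Gal(Ω/K), Continuous t ∧
        ∀ (σ : 𝒪.decompositionSubgroup k) (m : M),
          t σ (algebraMap M Ω m) = algebraMap M Ω (s (σ : Gal(AlgebraicClosure k/k)) m))
    (v : HeightOneSpectrum (𝓞 k))
    (ι : AlgebraicClosure k →ₐ[k] AlgebraicClosure (v.adicCompletion k)) :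
    ∃ (A : ValuationSubring M) (φ : A →+* AlgebraicClosure (v.adicCompletion k)),
      IsPlaceOf s (v.adicCompletion k)
        (ι : _ →+* AlgebraicClosure (v.adicCompletion k)) A φ := by
  have hc' : CharZero (AlgebraicClosure k) :=
    charZero_of_injective_algebraMap (algebraMap k (AlgebraicClosure k)).injective
  have hG' : IsGalois k (AlgebraicClosure k) := IsAlgClosure.isGalois _ _
  let _ : Algebra (AlgebraicClosure k) Ω :=
    ((algebraMap M Ω).comp (algebraMap (AlgebraicClosure k) M)).toAlgebra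
  have htow : ∀ a : AlgebraicClosure k, algebraMap (AlgebraicClosure k) Ω a =
      algebraMap M Ω (algebraMap (AlgebraicClosure k) M a) := fun _ => rfl
  obtain ⟨p, hp, hv⟩ := exists_prime_mem v
  have hF : Fact p.Prime := ⟨hp⟩
  obtain ⟨w, v', D, h1, h2, h3, h4, h5, h6⟩ := dec_p hp v hv ι
  set 𝒪 : ValuationSubring (AlgebraicClosure k) := absRing v' h3.nonarch with h𝒪
  have htop : 𝒪 ≠ ⊤ := by
    intro h
    have h7 : ((p : AlgebraicClosure k)⁻¹) ∈ 𝒪 := by rw [h]; trivial
    rw [h𝒪, mem_absRing, map_inv₀] at h7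
    have h8 : 0 < v' (p : AlgebraicClosure k) :=
      v'.pos (Nat.cast_ne_zero.2 hp.ne_zero)
    have h9 := (one_lt_inv₀ h8).2 h3.small
    linarith
  have hD : D ≤ 𝒪.decompositionSubgroup k := by
    intro σ hσ
    rw [ValuationSubring.decompositionSubgroup, MulAction.mem_stabilizer_iff]
    ext a
    rw [ValuationSubring.mem_pointwise_smul_iff_inv_smul_mem, h𝒪, mem_absRing, mem_absRing]
    have h7 := h3.isom σ⁻¹ (D.inv_mem hσ) a
    rw [AlgEquiv.smul_def, h7]
  obtain ⟨t₀, ht₀, hts⟩ := hlift 𝒪 htop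
  let t₁ : D →* Gal(Ω/K) := t₀.comp (Subgroup.inclusion hD)
  let t : D →* (Ω ≃+* Ω) :=
    { toFun := fun σ => (t₁ σ : Ω ≃+* Ω)
      map_one' := by ext x; simp
      map_mul' := fun σ τ => by ext x; simp }
  have htapp : ∀ (σ : D) x, t σ x = t₀ ⟨σ, hD σ.2⟩ x := fun _ _ => rfl
  have ht : SecD t p := by
    refine ⟨fun σ a => ?_, fun x => ?_, fun x => IsAlgClosed.exists_pow_nat_eq x hp.pos⟩
    · rw [htapp, htow, hts, hsec, htow]
    · have hfin : FiniteDimensional K (IntermediateField.adjoin K {x}) :=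
        IntermediateField.adjoin.finiteDimensional (Algebra.IsIntegral.isIntegral x)
      have ho := IntermediateField.fixingSubgroup_isOpen
        (IntermediateField.adjoin K {x} : IntermediateField K Ω)
      have ho' := ho.preimage ht₀
      obtain ⟨O, hO, hOe⟩ := isOpen_induced_iff.1 ho'
      have h1O : (1 : Gal(AlgebraicClosure k/k)) ∈ O := by
        have h7 : (1 : 𝒪.decompositionSubgroup k) ∈
            t₀ ⁻¹' ((IntermediateField.adjoin K {x} : IntermediateField K Ω).fixingSubgroup :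
              Set Gal(Ω/K)) := by
          rw [Set.mem_preimage, map_one]
          exact Subgroup.one_mem _
        rw [← hOe] at h7
        exact h7
      obtain ⟨E, hE, hEO⟩ := (krullTopology_mem_nhds_one_iff k (AlgebraicClosure k) O).1
        (hO.mem_nhds h1O)
      refine ⟨E.fixingSubgroup, E.fixingSubgroup_isOpen, fun σ hσ => ?_⟩
      have h8 : (⟨σ, hD σ.2⟩ : 𝒪.decompositionSubgroup k) ∈
          t₀ ⁻¹' ((IntermediateField.adjoin K {x} : IntermediateField K Ω).fixingSubgroup :
            Set Gal(Ω/K)) := by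
        rw [← hOe]
        exact hEO hσ
      rw [htapp]
      exact (IntermediateField.mem_fixingSubgroup_iff _ _).1 h8 x
        (IntermediateField.mem_adjoin_simple_self K x)
  obtain ⟨B, ψ, h7, h8, h9⟩ := place_pn h3 ht (w := w)
    (ι := (ι : _ →+* AlgebraicClosure (v.adicCompletion k))) ⟨h1, h2, h6⟩
  let φ : B.comap (algebraMap M Ω) →+* AlgebraicClosure (v.adicCompletion k) :=
    ψ.comp (((algebraMap M Ω).comp (B.comap (algebraMap M Ω)).subtype).codRestrict B fun x => x.2)
  have hφ : ∀ x, φ x = ψ ⟨algebraMap M Ω x, x.2⟩ := fun x => rfl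
  refine ⟨B.comap (algebraMap M Ω), φ, fun a => ?_, fun x hx => ?_, fun σ τ hστ x => ?_⟩
  · obtain ⟨h10, h11⟩ := h7 a
    exact ⟨h10, h11⟩
  · rw [ValuationSubring.mem_comap, map_inv₀]
    exact h8 ⟨algebraMap M Ω x, x.2⟩ hx
  · have hσD := h5 σ τ hστ
    obtain ⟨h10, h11⟩ := h9 ⟨σ, hσD⟩ (τ : _ →+* _) (h4 τ) hστ ⟨algebraMap M Ω x, x.2⟩
    have h12 : t ⟨σ, hσD⟩ (algebraMap M Ω x) = algebraMap M Ω (s σ x) := by
      rw [htapp, hts]
    have h13 : s σ x ∈ B.comap (algebraMap M Ω) := by
      rw [ValuationSubring.mem_comap, ← h12]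
      exact h10
    refine ⟨h13, ?_⟩
    rw [hφ, hφ]
    refine Eq.trans ?_ h11
    congr 1
    exact Subtype.ext h12.symm

end Pool.Agent.Lib.MP_2f3286_ag.UA
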