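import Pool.Agent.Lib.MP_2f3286_ag.UA.LG5

/-!
# Sections which lift over the decomposition groups to extensions closed under roots

After helper31 (LG5): the lift over the decomposition group of a valuation ring with residue
characteristic `q` is only needed for an extension closed under `q`-th roots.
-/

open NumberField IsDedekindDomain Polynomial
open Pool.Agent.Lib.MP_2f3286_ag
open Pool.Agent.Lib.MP_2f3286_ag.Sel (IsPlaceOf)

namespace Pool.Agent.Lib.MP_2f3286_ag.UA

open Koe Ep
open scoped Pointwise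

universe u w x

/-- `s` lifts, over the decomposition group of every valuation ring `O` of the algebraic closure of `k` with
residue characteristic `q`, to an extension closed under `q`-th roots -/
def LiftsLoc {k : Type u} [Field k] {K : Type w} [Field K] {M : Type x} [Field M] [Algebra K M]
    (s : Gal(AlgebraicClosure k/k) →* Gal(M/K)) : Prop :=
  ∀ (O : ValuationSubring (AlgebraicClosure k)) (q : ℕ), q.Prime → (q : AlgebraicClosure k)⁻¹ ∉ O →
    ∃ (N : Type x) (_ : Field N) (_ : Algebra K N) (_ : Algebra M N) (_ : IsScalarTower K M N)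
      (_ : IsGalois K N) (t : O.decompositionSubgroup k →* Gal(N/K)), Continuous t ∧
      (∀ z : N, ∃ y : N, y ^ q = z) ∧
      ∀ (σ : O.decompositionSubgroup k) (m : M),
        t σ (algebraMap M N m) = algebraMap M N (s (σ : Gal(AlgebraicClosure k/k)) m)

/-- **Local places from lifts over the decomposition groups.** -/
theorem local_place_of_liftsLoc {k : Type u} [Field k] [NumberField k]
    {K : Type w} {M : Type x} [Field K] [Field M] [Algebra K M] [Algebra (AlgebraicClosure k) M]
    (s : Gal(AlgebraicClosure k/k) →* Gal(M/K))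
    (hsec : ∀ σ a, s σ (algebraMap (AlgebraicClosure k) M a) =
      algebraMap (AlgebraicClosure k) M (σ a))
    (hlift : LiftsLoc s)
    (v : HeightOneSpectrum (𝓞 k))
    (ι : AlgebraicClosure k →ₐ[k] AlgebraicClosure (v.adicCompletion k)) :
    ∃ (A : ValuationSubring M) (φ : A →+* AlgebraicClosure (v.adicCompletion k)),
      IsPlaceOf s (v.adicCompletion k)
        (ι : _ →+* AlgebraicClosure (v.adicCompletion k)) A φ := by
  have hc' : CharZero (AlgebraicClosure k) :=
    charZero_of_injective_algebraMap (algebraMap k (AlgebraicClosure k)).injective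
  have hG' : IsGalois k (AlgebraicClosure k) := IsAlgClosure.isGalois _ _
  obtain ⟨p, hp, hv⟩ := exists_prime_mem v
  have hF : Fact p.Prime := ⟨hp⟩
  obtain ⟨w, v', D, h1, h2, h3, h4, h5, h6⟩ := dec_p hp v hv ι
  set 𝒪 : ValuationSubring (AlgebraicClosure k) := absRing v' h3.nonarch with h𝒪
  have htop : (p : AlgebraicClosure k)⁻¹ ∉ 𝒪 := by
    intro h7
    rw [h𝒪, mem_absRing, map_inv₀] at h7
    have h8 : 0 < v' (p : AlgebraicClosure k) :=
      v'.pos (Nat.cast_ne_zero.2 hp.ne_zero)
    have h9 := (one_lt_inv₀ h8).2 h3.small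
    linarith
  have hD : D ≤ 𝒪.decompositionSubgroup k := by
    intro σ hσ
    rw [ValuationSubring.decompositionSubgroup, MulAction.mem_stabilizer_iff]
    ext a
    rw [ValuationSubring.mem_pointwise_smul_iff_inv_smul_mem, h𝒪, mem_absRing, mem_absRing]
    have h7 := h3.isom σ⁻¹ (D.inv_mem hσ) a
    rw [AlgEquiv.smul_def, h7]
  obtain ⟨Ω, i1, i2, i3, i4, i5, t₀, ht₀, hroot, hts⟩ := hlift 𝒪 p hp htop
  let _ : Algebra (AlgebraicClosure k) Ω :=
    ((algebraMap M Ω).comp (algebraMap (AlgebraicClosure k) M)).toAlgebra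
  have htow : ∀ a : AlgebraicClosure k, algebraMap (AlgebraicClosure k) Ω a =
      algebraMap M Ω (algebraMap (AlgebraicClosure k) M a) := fun _ => rfl
  let t₁ : D →* Gal(Ω/K) := t₀.comp (Subgroup.inclusion hD)
  let t : D →* (Ω ≃+* Ω) :=
    { toFun := fun σ => (t₁ σ : Ω ≃+* Ω)
      map_one' := by ext x; simp
      map_mul' := fun σ τ => by ext x; simp }
  have htapp : ∀ (σ : D) x, t σ x = t₀ ⟨σ, hD σ.2⟩ x := fun _ _ => rfl
  have ht : SecD t p := by
    refine ⟨fun σ a => ?_, fun x => ?_, hroot⟩
    · rw [htapp, htow, hts, hsec, htow]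
    · have hfin : FiniteDimensional K (IntermediateField.adjoin K {x}) :=
        IntermediateField.adjoin.finiteDimensional (Algebra.IsIntegral.isIntegral x)
      have ho := IntermediateField.fixingSubgroup_isOpen
        (IntermediateField.adjoin K {x} : IntermediateField K Ω)
      have ho' := ho.preimage ht₀
      obtain ⟨O, hO, hOe⟩ := isOpen_induced_iff.1 ho'
      have h1O : (1 : Gal(AlgebraicClosure k/k)) ∈ O := by
        have h7 : (1 : 𝒪.decompositionSubgroup k) ∈
            t₀ ⁻¹' ((IntermediateField.adjoin K {x} : IntermediateField K Ω).fixingSubgroup :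
              Set Gal(Ω/K)) := by
          rw [Set.mem_preimage, map_one]
          exact Subgroup.one_mem _
        rw [← hOe] at h7
        exact h7
      obtain ⟨E, hE, hEO⟩ := (krullTopology_mem_nhds_one_iff k (AlgebraicClosure k) O).1
        (hO.mem_nhds h1O)
      refine ⟨E.fixingSubgroup, E.fixingSubgroup_isOpen, fun σ hσ => ?_⟩
      have h8 : (⟨σ, hD σ.2⟩ : 𝒪.decompositionSubgroup k) ∈
          t₀ ⁻¹' ((IntermediateField.adjoin K {x} : IntermediateField K Ω).fixingSubgroup :
            Set Gal(Ω/K)) := by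
        rw [← hOe]
        exact hEO hσ
      rw [htapp]
      exact (IntermediateField.mem_fixingSubgroup_iff _ _).1 h8 x
        (IntermediateField.mem_adjoin_simple_self K x)
  obtain ⟨B, ψ, h7, h8, h9⟩ := place_pn h3 ht (w := w)
    (ι := (ι : _ →+* AlgebraicClosure (v.adicCompletion k))) ⟨h1, h2, h6⟩
  let φ : B.comap (algebraMap M Ω) →+* AlgebraicClosure (v.adicCompletion k) :=
    ψ.comp (((algebraMap M Ω).comp (B.comap (algebraMap M Ω)).subtype).codRestrict B fun x => x.2)
  have hφ : ∀ x, φ x = ψ ⟨algebraMap M Ω x, x.2⟩ := fun x => rfl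
  refine ⟨B.comap (algebraMap M Ω), φ, fun a => ?_, fun x hx => ?_, fun σ τ hστ x => ?_⟩
  · obtain ⟨h10, h11⟩ := h7 a
    exact ⟨h10, h11⟩
  · rw [ValuationSubring.mem_comap, map_inv₀]
    exact h8 ⟨algebraMap M Ω x, x.2⟩ hx
  · have hσD := h5 σ τ hστ
    obtain ⟨h10, h11⟩ := h9 ⟨σ, hσD⟩ (τ : _ →+* _) (h4 τ) hστ ⟨algebraMap M Ω x, x.2⟩
    have h12 : t ⟨σ, hσD⟩ (algebraMap M Ω x) = algebraMap M Ω (s σ x) := by
      rw [htapp, hts]
    have h13 : s σ x ∈ B.comap (algebraMap M Ω) := by
      rw [ValuationSubring.mem_comap, ← h12]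
      exact h10
    refine ⟨h13, ?_⟩
    rw [hφ, hφ]
    refine Eq.trans ?_ h11
    congr 1
    exact Subtype.ext h12.symm

/-- the same for all places -/
theorem local_places_of_liftsLoc {k : Type u} [Field k] [NumberField k]
    {K : Type w} {M : Type x} [Field K] [Field M] [Algebra K M] [Algebra (AlgebraicClosure k) M]
    (s : Gal(AlgebraicClosure k/k) →* Gal(M/K))
    (hsec : ∀ σ a, s σ (algebraMap (AlgebraicClosure k) M a) =
      algebraMap (AlgebraicClosure k) M (σ a))
    (hlift : LiftsLoc s) (v : HeightOneSpectrum (𝓞 k)) :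
    ∃ (ι : AlgebraicClosure k →ₐ[k] AlgebraicClosure (v.adicCompletion k))
      (A : ValuationSubring M) (φ : A →+* AlgebraicClosure (v.adicCompletion k)),
      IsPlaceOf s (v.adicCompletion k)
        (ι : _ →+* AlgebraicClosure (v.adicCompletion k)) A φ := by
  let ι : AlgebraicClosure k →ₐ[k] AlgebraicClosure (v.adicCompletion k) := IsAlgClosed.lift
  obtain ⟨A, φ, h⟩ := local_place_of_liftsLoc s hsec hlift v ι
  exact ⟨ι, A, φ, h⟩

end Pool.Agent.Lib.MP_2f3286_ag.UA
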