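import Pool.Agent.Lib.MP_2f3286_ag.UA.LG4
import Pool.Agent.Lib.MP_2f3286_ag.Ep2.G8

/-!
# Local places from lifts to extensions closed under `q`-th roots

`M/K` is a Galois extension, `s` a section of `Gal(M/K) → Gal(k̄/k)`. If for each prime `q` it lifts to a Galois
extension of `K` which contains `M` and is closed under `q`-th roots, it has a place over every completion of `k`.
-/

open IsDedekindDomain NumberField Polynomial
open Pool.Agent.Lib.MP_2f3286_ag
open Pool.Agent.Lib.MP_2f3286_ag.Sel (IsPlaceOf)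

namespace Pool.Agent.Lib.MP_2f3286_ag.UA

universe u w x

/-- the section `s` lifts to a Galois extension of `K` which contains `M` and is closed under `q`-th
roots -/
def LiftsQ {k : Type u} [Field k] {K : Type w} [Field K] {M : Type x} [Field M] [Algebra K M]
    (s : Gal(AlgebraicClosure k/k) →* Gal(M/K)) (q : ℕ) : Prop :=
  ∃ (N : Type x) (_ : Field N) (_ : Algebra K N) (_ : Algebra M N) (_ : IsScalarTower K M N)
    (_ : IsGalois K N) (t : Gal(AlgebraicClosure k/k) →* Gal(N/K)), Continuous t ∧
    (∀ z : N, ∃ y : N, y ^ q = z) ∧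
    ∀ σ m, t σ (algebraMap M N m) = algebraMap M N (s σ m)

/-- a section which lifts to an extension closed under `q`-th roots has places over the completions above
`q` -/
theorem local_of_liftsQ {k : Type u} [Field k] [NumberField k] {K : Type w} [Field K]
    {M : Type x} [Field M] [Algebra K M] [Algebra (AlgebraicClosure k) M]
    {s : Gal(AlgebraicClosure k/k) →* Gal(M/K)}
    (hsec : ∀ σ a, s σ (algebraMap (AlgebraicClosure k) M a) =
      algebraMap (AlgebraicClosure k) M (σ a)) {q : ℕ} (hq : q.Prime) (h : LiftsQ s q)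
    (v : HeightOneSpectrum (𝓞 k)) (hv : (q : 𝓞 k) ∈ v.asIdeal)
    (ι : AlgebraicClosure k →ₐ[k] AlgebraicClosure (v.adicCompletion k)) :
    ∃ (A : ValuationSubring M) (φ : A →+* AlgebraicClosure (v.adicCompletion k)),
      IsPlaceOf s (v.adicCompletion k)
        (ι : _ →+* AlgebraicClosure (v.adicCompletion k)) A φ := by
  obtain ⟨N, i1, i2, i3, i4, i5, t, ht, hroot, hst⟩ := h
  let iN : Algebra (AlgebraicClosure k) N :=
    ((algebraMap M N).comp (algebraMap (AlgebraicClosure k) M)).toAlgebra
  have htow : IsScalarTower (AlgebraicClosure k) M N := IsScalarTower.of_algebraMap_eq fun _ => rfl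
  obtain ⟨B, ψ, hB⟩ := Ep.local_place_pn hq hroot t ht (fun σ a => by
    rw [IsScalarTower.algebraMap_apply (AlgebraicClosure k) M N, hst, hsec,
      ← IsScalarTower.algebraMap_apply (AlgebraicClosure k) M N]) v hv ι
  obtain ⟨φ, hφ, -⟩ := place_restrict hst hB
  exact ⟨_, φ, hφ⟩

/-- a section which lifts, for every prime `q`, to an extension closed under `q`-th roots has places over
all completions of `k` -/
theorem local_of_lifts {k : Type u} [Field k] [NumberField k] {K : Type w} [Field K]
    {M : Type x} [Field M] [Algebra K M] [Algebra (AlgebraicClosure k) M]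
    {s : Gal(AlgebraicClosure k/k) →* Gal(M/K)}
    (hsec : ∀ σ a, s σ (algebraMap (AlgebraicClosure k) M a) =
      algebraMap (AlgebraicClosure k) M (σ a)) (h : ∀ q : ℕ, q.Prime → LiftsQ s q)
    (v : HeightOneSpectrum (𝓞 k)) :
    ∃ (ι : AlgebraicClosure k →ₐ[k] AlgebraicClosure (v.adicCompletion k))
      (A : ValuationSubring M) (φ : A →+* AlgebraicClosure (v.adicCompletion k)),
      IsPlaceOf s (v.adicCompletion k)
        (ι : _ →+* AlgebraicClosure (v.adicCompletion k)) A φ := by
  obtain ⟨q, hq, hv⟩ : ∃ q : ℕ, q.Prime ∧ (q : 𝓞 k) ∈ v.asIdeal := by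
    have h1 : v.asIdeal.comap (algebraMap ℤ (𝓞 k)) ≠ ⊥ := by
      intro h
      exact v.ne_bot (Ideal.eq_bot_of_comap_eq_bot h)
    have hpr : (v.asIdeal.comap (algebraMap ℤ (𝓞 k))).IsPrime := Ideal.comap_isPrime _ _
    obtain ⟨a, ha⟩ := (IsPrincipalIdealRing.principal
      (v.asIdeal.comap (algebraMap ℤ (𝓞 k)))).principal
    have ha0 : a ≠ 0 := by
      rintro rfl
      apply h1
      rw [ha]
      exact Ideal.span_singleton_eq_bot.2 rfl
    have hap : Prime a := by
      rw [← Ideal.span_singleton_prime ha0]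
      have h2 : (Ideal.span {a} : Ideal ℤ) = v.asIdeal.comap (algebraMap ℤ (𝓞 k)) := ha.symm
      rw [h2]
      exact hpr
    refine ⟨a.natAbs, Int.prime_iff_natAbs_prime.1 hap, ?_⟩
    have h2 : (a.natAbs : ℤ) ∈ v.asIdeal.comap (algebraMap ℤ (𝓞 k)) := by
      rw [ha]
      exact Ideal.mem_span_singleton.2 (Int.dvd_natAbs.2 dvd_rfl)
    have h3 := Ideal.mem_comap.1 h2
    rw [map_natCast] at h3
    exact h3
  let ι : AlgebraicClosure k →ₐ[k] AlgebraicClosure (v.adicCompletion k) := IsAlgClosed.lift
  obtain ⟨A, φ, hA⟩ := local_of_liftsQ hsec hq (h q hq) v hv ι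
  exact ⟨ι, A, φ, hA⟩

/-- the section of a rational place lifts to an algebraic closure -/
theorem liftsQ_of_place {k : Type u} [Field k] [NumberField k]
    {K : Type w} [Field K] [Algebra k K] (htr : Algebra.trdeg k K = 1)
    {M : Type x} [Field M] [Algebra K M] [IsGalois K M]
    [Algebra (AlgebraicClosure k) M] [Algebra k M]
    [IsScalarTower k K M] [IsScalarTower k (AlgebraicClosure k) M]
    {s : Gal(AlgebraicClosure k/k) →* Gal(M/K)} (hs : Continuous s)
    (hsec : ∀ σ a, s σ (algebraMap (AlgebraicClosure k) M a) =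
      algebraMap (AlgebraicClosure k) M (σ a))
    {A : ValuationSubring M} {φ : A →+* AlgebraicClosure k}
    (h : IsPlaceOf s k (RingHom.id _) A φ) {q : ℕ} (hq : q.Prime) : LiftsQ s q := by
  have hK0 : CharZero K := charZero_of_injective_algebraMap (algebraMap k K).injective
  have halg : Algebra.IsAlgebraic K (AlgebraicClosure M) := Algebra.IsAlgebraic.trans K M _
  have hcl : IsAlgClosure K (AlgebraicClosure M) := ⟨inferInstance, halg⟩
  have hgal : IsGalois K (AlgebraicClosure M) := IsAlgClosure.isGalois K (AlgebraicClosure M)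
  obtain ⟨t, B, ψ, h1, h2, -⟩ := exists_lift (Ω := AlgebraicClosure M) htr hs hsec h
  exact ⟨AlgebraicClosure M, inferInstance, inferInstance, inferInstance, inferInstance, hgal, t,
    h1, fun z => IsAlgClosed.exists_pow_nat_eq z hq.pos, h2⟩

end Pool.Agent.Lib.MP_2f3286_ag.UA
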