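import Pool.Agent.Lib.MP_2f3286_ag.UA.Uni
import Pool.Agent.Lib.MP_2f3286_ag.HYP.AFNei

/-!
# Sections with a neighbourhood over a finite extension above the curve
-/

open Polynomial IsDedekindDomain NumberField
open scoped WithZero

noncomputable section

namespace Pool.Agent.Lib.MP_2f3286_ag.UA

open Pool.Agent.Lib.MP_2f3286_ag.HYP hiding affine_over
open Pool.Agent.Lib.MP_2f3286_ag.Pt Pool.Agent.Lib.MP_2f3286_ag.SNeigh
  Pool.Agent.Lib.MP_2f3286_ag.SFull Pool.Agent.Lib.MP_2f3286_ag.Koe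

universe u v

/-- **Affine curves with a neighbourhood over `F` mapping to the curve.** -/
theorem affine_over {k : Type u} [Field k] [NumberField k]
    {F : Type v} [Field F] [NumberField F] [Algebra k F]
    [Algebra F (AlgebraicClosure k)] [IsScalarTower k F (AlgebraicClosure k)]
    {i d : F} {f : F[X]} (C : Crv i d f)
    {K : Type*} [Field K] [Algebra k K] (htr : Algebra.trdeg k K = 1)
    (R : Subalgebra k K) (hfg : R.FG) (hRn : ∀ y : K, IsIntegral R y → y ∈ R)
    {M : Type*} [Field M] [Algebra K M] [IsGalois K M]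
    [Algebra (AlgebraicClosure k) M] [Algebra k M]
    [IsScalarTower k K M] [IsScalarTower k (AlgebraicClosure k) M]
    [Algebra F M] [IsScalarTower F (AlgebraicClosure k) M]
    (hM : IsMaxUnramOver R K M (AlgebraicClosure k))
    (s : Gal(AlgebraicClosure k/k) →* Gal(M/K)) (hs : Continuous s)
    (hsec : ∀ σ a, s σ (algebraMap (AlgebraicClosure k) M a) =
      algebraMap (AlgebraicClosure k) M (σ a))
    {x y : M} (hxs : x ∈ fixF s F) (hys : y ∈ fixF s F)
    (hx : ∀ c : F, x ≠ algebraMap F M c) (hxy : y ^ 2 = aeval x f)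
    (hxR : IsIntegral R x) (hyR : IsIntegral R y) (hyR' : IsIntegral R y⁻¹)
    (hloc : ∀ w : HeightOneSpectrum (𝓞 F),
      ∃ (ι : AlgebraicClosure k →ₐ[F] AlgebraicClosure (w.adicCompletion F))
        (A : ValuationSubring M) (φ : A →+* AlgebraicClosure (w.adicCompletion F)),
        IsPointOn s R (w.adicCompletion F)
          (ι : _ →+* AlgebraicClosure (w.adicCompletion F)) A φ) :
    ∃ (A₀ : ValuationSubring M) (ψ₀ : A₀ →+* AlgebraicClosure k),
      (∀ r : R, algebraMap K M r ∈ A₀) ∧ Sel.IsSectionAt s A₀ ψ₀ ∧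
      (∀ (A₁ : ValuationSubring M) (ψ₁ : A₁ →+* AlgebraicClosure k), Sel.IsSectionAt s A₁ ψ₁ →
        (∀ (r : R) (h₀ : algebraMap K M r ∈ A₀), ∃ h₁ : algebraMap K M r ∈ A₁,
          algebraMap K M r ∈ unitRing R M ∨ ψ₁ ⟨_, h₁⟩ = ψ₀ ⟨_, h₀⟩) →
        A₁ = A₀ ∧ ∀ (a : A₁) (b : A₀), (a : M) = b → ψ₁ a = ψ₀ b) ∧
      (∀ h : K, algebraMap K M h ∈ unitRing R M → HasValOver s R F A₀ ψ₀ h) ∧
      ((∀ r : R, algebraMap K M r ∈ unitRing R M) → Sel.IsPlaceOf s k (RingHom.id _) A₀ ψ₀) := by
  classical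
  have hfin : FiniteDimensional k F := FiniteDimensional.right ℚ k F
  have hFk : Algebra.IsAlgebraic F (AlgebraicClosure k) :=
    Algebra.IsAlgebraic.tower_top (K := k) F
  have : IsAlgClosure F (AlgebraicClosure k) := ⟨inferInstance, inferInstance⟩
  let e : AlgebraicClosure F ≃ₐ[F] AlgebraicClosure k :=
    IsAlgClosure.equiv F (AlgebraicClosure F) (AlgebraicClosure k)
  let iFb : Algebra (AlgebraicClosure F) M :=
    ((algebraMap (AlgebraicClosure k) M).comp (e : _ →+* AlgebraicClosure k)).toAlgebra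
  have he : ∀ a : AlgebraicClosure F, algebraMap (AlgebraicClosure F) M a =
      algebraMap (AlgebraicClosure k) M (e a) := fun _ => rfl
  have t3 : IsScalarTower k F M := IsScalarTower.of_algebraMap_eq fun a => by
    rw [IsScalarTower.algebraMap_apply F (AlgebraicClosure k) M,
      ← IsScalarTower.algebraMap_apply k F (AlgebraicClosure k),
      ← IsScalarTower.algebraMap_apply k (AlgebraicClosure k) M]
  have t4 : IsScalarTower F (AlgebraicClosure F) M := IsScalarTower.of_algebraMap_eq fun a => by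
    rw [he, AlgEquiv.commutes, ← IsScalarTower.algebraMap_apply]
  have hK0 : CharZero K := charZero_of_injective_algebraMap (algebraMap k K).injective
  have hKM : Algebra.IsAlgebraic K M := inferInstance
  -- transcendental functions
  have hxt : Transcendental F x := const_of_fixF s hsec e hxs hx
  have hxtk : Transcendental k x := fun h => hxt (h.tower_top F)
  obtain ⟨t, htR, ht⟩ : ∃ t : K, t ∈ R ∧ Transcendental k t := by
    by_contra hcon
    push Not at hcon
    apply hxtk
    have h1 : Algebra.IsAlgebraic k R := ⟨fun r => by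
      have h2 := hcon r r.2
      rw [Transcendental, not_not] at h2
      exact (isAlgebraic_algebraMap_iff (R := k) (S := R) (A := K) Subtype.val_injective).1 h2⟩
    have h3 : IsScalarTower k R M := IsScalarTower.of_algebraMap_eq fun a => by
      rw [IsScalarTower.algebraMap_apply k K M]; rfl
    exact IsAlgebraic.restrictScalars k (hxR.isAlgebraic)
  have hfrac : ∀ z : K, ∃ a b : R, (b : K) ≠ 0 ∧ z * b = a := by
    intro z
    obtain ⟨a, b, hab, hab'⟩ := frac_of_hom (Ω := K) R htr ⟨t, htR⟩ ht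
      (algebraMap (integralClosure R K) K) z
    refine ⟨⟨a, hRn _ a.2⟩, ⟨b, hRn _ b.2⟩, ?_, hab⟩
    rcases hab' with ha | hb
    · intro hb
      apply ha
      change (a : K) = 0
      rw [← hab, show (b : K) = 0 from hb, mul_zero]
    · exact hb
  -- the field `L₁`
  have hFL : ∀ a : F, algebraMap F M a ∈ fixF s F := by
    intro a σ hσ
    rw [IsScalarTower.algebraMap_apply F (AlgebraicClosure k) M, hsec, hσ]
  obtain ⟨Lx, hLx1, hLx2, hLx3, hLx4⟩ := exists_sub (k := k) (F := F) (fixF s F) hFL x hxs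
  obtain ⟨Ly, hLy1, hLy2, hLy3, hLy4⟩ := exists_sub (k := k) (F := F) (fixF s F) hFL y hys
  let L₁ : IntermediateField K M := Lx ⊔ Ly
  have hL₁L : L₁ ≤ fixF s F := sup_le hLx1 hLy1
  have hxL : x ∈ L₁ := (le_sup_left : Lx ≤ L₁) hLx2
  have hyL : y ∈ L₁ := (le_sup_right : Ly ≤ L₁) hLy2
  have hFL₁ : ∀ a : F, algebraMap F M a ∈ L₁ := fun a => (le_sup_left : Lx ≤ L₁) (hLx3 a)
  have hfd₁ : FiniteDimensional K L₁ := IntermediateField.finiteDimensional_sup Lx Ly
  let iFL : Algebra F L₁ := ((algebraMap F M).codRestrict L₁.toSubfield hFL₁).toAlgebra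
  have t7 : IsScalarTower k L₁ M := IsScalarTower.of_algebraMap_eq fun a => rfl
  have t5 : IsScalarTower F L₁ M := IsScalarTower.of_algebraMap_eq fun a => rfl
  have t6 : IsScalarTower k F L₁ := IsScalarTower.of_algebraMap_eq fun a => by
    apply (algebraMap L₁ M).injective
    rw [← IsScalarTower.algebraMap_apply k L₁ M, ← IsScalarTower.algebraMap_apply F L₁ M,
      ← IsScalarTower.algebraMap_apply k F M]
  have t8 : IsScalarTower R L₁ M := IsScalarTower.of_algebraMap_eq fun a => rfl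
  have hL₁ : ∀ σ : Gal(AlgebraicClosure k/k),
      (∀ a : F, σ (algebraMap F _ a) = algebraMap F _ a) →
      ∀ x : L₁, s σ (algebraMap L₁ M x) = algebraMap L₁ M x :=
    fun σ hσ x => hL₁L x.2 σ hσ
  have htr' : Algebra.trdeg F L₁ = 1 := trdeg_fix (k := k) (K := K) (Ω := M) htr
  -- the ring
  let R₁ : Subalgebra F L₁ :=
    { (integralClosure R L₁).toSubsemiring with
      algebraMap_mem' := fun a => by
        have h1 : IsIntegral k a := Algebra.IsIntegral.isIntegral a
        have h2 : IsIntegral k (algebraMap F L₁ a) := h1.algebraMap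
        have h3 : IsScalarTower k R L₁ := IsScalarTower.of_algebraMap_eq fun a => by
          rw [IsScalarTower.algebraMap_apply k K L₁]; rfl
        exact h2.tower_top }
  have hmem₁ : ∀ z : L₁, z ∈ R₁ ↔ IsIntegral R z := fun z => Iff.rfl
  let iRR : Algebra R R₁ := ((algebraMap R L₁).codRestrict R₁.toSubring fun r => by
    change IsIntegral R (algebraMap R L₁ r)
    exact isIntegral_algebraMap).toAlgebra
  have t9 : IsScalarTower R R₁ L₁ := IsScalarTower.of_algebraMap_eq fun r => rfl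
  have t10 : IsScalarTower R R₁ M := IsScalarTower.of_algebraMap_eq fun r => rfl
  have hint₁ : Algebra.IsIntegral R R₁ := ⟨fun z => by
    have h1 : IsIntegral R (z : L₁) := (hmem₁ _).1 z.2
    exact (isIntegral_algebraMap_iff (R := R) (A := R₁) (B := L₁) Subtype.val_injective).1 h1⟩
  have hRR : ∀ z : M, IsIntegral R₁ z ↔ IsIntegral R z := fun z =>
    ⟨fun h => isIntegral_trans z h, fun h => h.tower_top⟩
  have hunit : unitRing R₁ M = unitRing R M := by
    rw [unitRing, unitRing]
    congr 1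
    ext z
    exact and_congr (hRR z) (hRR z⁻¹)
  have hR₁fg : R₁.FG := fg_closure (k := k) R hfg hRn hfrac R₁ hmem₁
  have hR₁n : ∀ z : L₁, IsIntegral R₁ z → z ∈ R₁ := fun z hz => isIntegral_trans z hz
  have hLM : ∀ z : L₁, IsIntegral R (z : M) → z ∈ R₁ := fun z hz =>
    (isIntegral_algebraMap_iff (algebraMap L₁ M).injective).1 hz
  -- the maximal unramified extension
  have hKL : ∀ x : K, ∃ y : L₁, algebraMap L₁ M y = algebraMap K M x :=
    fun x => ⟨algebraMap K L₁ x, rfl⟩
  have hM₁' : IsMaxUnramOver (upR F L₁ M R) L₁ M (AlgebraicClosure F) :=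
    maxUnram_trans (e : AlgebraicClosure F ≃+* AlgebraicClosure k) he hKL R hM
  have hM₁ : IsMaxUnramOver R₁ L₁ M (AlgebraicClosure F) := by
    intro z
    rw [hM₁' z]
    refine forall_congr' fun V => imp_congr ⟨fun h => ⟨h.1, fun r => ?_⟩,
      fun h => ⟨h.1, fun r => ?_⟩⟩ Iff.rfl
    · -- the integral closure is in `V`
      have h3 : ∀ r : R, algebraMap R M r ∈ V.comap (algebraMap M (AlgebraicClosure M)) := by
        intro r
        have h4 := h.2 ⟨algebraMap K L₁ r, Algebra.subset_adjoin ⟨r, rfl⟩⟩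
        rw [alg_gen] at h4
        exact h4
      rw [alg_gen]
      have h5 : IsIntegral R ((r : L₁) : M) := ((hmem₁ _).1 r.2).algebraMap
      exact PTAux.mem_of_isIntegral (R := R) h3 h5
    · rw [alg_gen]
      refine upR_mem (V.toSubring.comap (algebraMap M (AlgebraicClosure M))) (fun a => ?_)
        (fun r => ?_) r
      · change algebraMap M (AlgebraicClosure M) (algebraMap F M a) ∈ V
        have h3 := h.1.1 (algebraMap F (AlgebraicClosure F) a)
        rw [IsScalarTower.algebraMap_apply (AlgebraicClosure F) M (AlgebraicClosure M),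
          ← IsScalarTower.algebraMap_apply F (AlgebraicClosure F) M] at h3
        exact h3
      · change algebraMap M (AlgebraicClosure M) (algebraMap K M r) ∈ V
        have h3 := h.2 (algebraMap R R₁ r)
        rw [alg_gen] at h3
        exact h3
  -- the section over `F`
  have hs₁ := resS_continuous s e hL₁ hs
  have hsec₁ : ∀ (σ : Gal(AlgebraicClosure F/F)) (a : AlgebraicClosure F),
      resS s e hL₁ σ (algebraMap (AlgebraicClosure F) M a) =
        algebraMap (AlgebraicClosure F) M (σ a) := by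
    intro σ a
    rw [resS_apply, he, hsec, resG_apply, e.symm_apply_apply, he]
  have hRA₁ : ∀ {A : ValuationSubring M}, (∀ r : R, algebraMap K M r ∈ A) →
      ∀ r : R₁, algebraMap L₁ M r ∈ A := by
    intro A h r
    refine PTAux.mem_of_isIntegral (R := R) h ?_
    exact ((hmem₁ _).1 r.2).algebraMap
  have hupw : ∀ (w : HeightOneSpectrum (𝓞 F))
      (ι : AlgebraicClosure k →ₐ[F] AlgebraicClosure (w.adicCompletion F))
      (A : ValuationSubring M) (φ : A →+* AlgebraicClosure (w.adicCompletion F)),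
      IsPointOn s R (w.adicCompletion F) (ι : _ →+* AlgebraicClosure (w.adicCompletion F)) A φ →
      IsPointOn (resS s e hL₁) R₁ (w.adicCompletion F)
        ((ι.comp (e : AlgebraicClosure F →ₐ[F] AlgebraicClosure k) :
          AlgebraicClosure F →ₐ[F] AlgebraicClosure (w.adicCompletion F)) :
          _ →+* AlgebraicClosure (w.adicCompletion F)) A φ :=
    fun w ι A φ h => ⟨placeOf_res e he s hL₁ h.1, hRA₁ h.2⟩
  obtain ⟨A₀, ψ, h1, h2, -, h4, -⟩ := uni_of_sel C htr' (x := ⟨x, hxL⟩)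
    (y := ⟨y, hyL⟩) (fun c hc => hx c (congrArg (algebraMap L₁ M) hc))
    (by
      apply (algebraMap L₁ M).injective
      rw [map_pow, ← aeval_algebraMap_apply]
      exact hxy) R₁ (resS s e hL₁) hs₁ hsec₁
    (Or.inr ⟨hR₁fg, hR₁n, hLM _ hxR, hLM _ hyR, hLM _ hyR', hM₁, fun w => by
      obtain ⟨ι, A, φ, h⟩ := hloc w
      exact ⟨_, A, φ, hupw w ι A φ h⟩⟩)
  obtain ⟨h5, Δ, h6, h7⟩ := up_section s e he hL₁ h2
  have hRA : ∀ r : R, algebraMap K M r ∈ A₀ := fun r => h1 (algebraMap R R₁ r)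
  obtain ⟨g1, g2, g3, g4⟩ := affine_end htr R hfg hRn t htR ht hM s hs hsec hRA h5 Δ h6 h7
  refine ⟨A₀, _, hRA, g1, g2, fun h hh => ?_, g4⟩
  · have hR : h ∈ R := by
      refine hRn _ ?_
      have h8 : unitRing R M ≤ (integralClosure R M).toSubring := by
        rw [unitRing, Subring.closure_le]
        intro b hb
        exact hb.1
      have h9 : IsIntegral R (algebraMap K M h) := h8 hh
      exact (isIntegral_algebraMap_iff (algebraMap K M).injective).mp h9
    obtain ⟨c, hc⟩ := g3 ⟨h, hR⟩ hh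
    obtain ⟨c', hh', hc', hv⟩ := h4 (algebraMap K L₁ h) (hRA ⟨h, hR⟩)
      (Or.inr (by rw [hunit]; exact hh))
    refine ⟨c, hRA ⟨h, hR⟩, hc, fun w ι A φ hφ => ?_⟩
    obtain ⟨h8, h9⟩ := hv w _ A φ (hupw w ι A φ hφ)
    refine ⟨h8, h9.trans ?_⟩
    change ι (e (algebraMap F _ c')) = ι (algebraMap k _ c)
    rw [← hc', ← hc]
    rfl

/-- **The theorem, affine curves and function fields with a neighbourhood over `F` mapping to the
curve.** -/
theorem nbhd_of_sel {k : Type u} [Field k] [NumberField k]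
    {F : Type v} [Field F] [NumberField F] [Algebra k F]
    [Algebra F (AlgebraicClosure k)] [IsScalarTower k F (AlgebraicClosure k)]
    {i d : F} {f : F[X]} (C : Crv i d f)
    {K : Type*} [Field K] [Algebra k K] (htr : Algebra.trdeg k K = 1)
    (R : Subalgebra k K)
    {M : Type*} [Field M] [Algebra K M] [IsGalois K M]
    [Algebra (AlgebraicClosure k) M] [Algebra k M]
    [IsScalarTower k K M] [IsScalarTower k (AlgebraicClosure k) M]
    [Algebra F M] [IsScalarTower F (AlgebraicClosure k) M]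
    (s : Gal(AlgebraicClosure k/k) →* Gal(M/K)) (hs : Continuous s)
    (hsec : ∀ σ a, s σ (algebraMap (AlgebraicClosure k) M a) =
      algebraMap (AlgebraicClosure k) M (σ a))
    {x y : M} (hfix : ∀ σ : Gal(AlgebraicClosure k/k),
      (∀ a : F, σ (algebraMap F _ a) = algebraMap F _ a) → s σ x = x ∧ s σ y = y)
    (hx : ∀ c : F, x ≠ algebraMap F M c) (hxy : y ^ 2 = aeval x f)
    (hM : (IsAlgClosed M ∧ R = ⊥) ∨
      (R.FG ∧ (∀ h : K, IsIntegral R h → h ∈ R) ∧ IsIntegral R x ∧ IsIntegral R y ∧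
        IsIntegral R y⁻¹ ∧ IsMaxUnramOver R K M (AlgebraicClosure k) ∧
        (∀ w : HeightOneSpectrum (𝓞 F),
          ∃ (ι : AlgebraicClosure k →ₐ[F] AlgebraicClosure (w.adicCompletion F))
            (A : ValuationSubring M) (φ : A →+* AlgebraicClosure (w.adicCompletion F)),
            IsPointOn s R (w.adicCompletion F)
              (ι : _ →+* AlgebraicClosure (w.adicCompletion F)) A φ))) :
    ∃ (A₀ : ValuationSubring M) (ψ₀ : A₀ →+* AlgebraicClosure k),
      (∀ r : R, algebraMap K M r ∈ A₀) ∧ Sel.IsSectionAt s A₀ ψ₀ ∧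
      (∀ (A₁ : ValuationSubring M) (ψ₁ : A₁ →+* AlgebraicClosure k), Sel.IsSectionAt s A₁ ψ₁ →
        (∀ (r : R) (h₀ : algebraMap K M r ∈ A₀), ∃ h₁ : algebraMap K M r ∈ A₁,
          (IsAlgClosed M ∨ algebraMap K M r ∈ unitRing R M) ∨ ψ₁ ⟨_, h₁⟩ = ψ₀ ⟨_, h₀⟩) →
        A₁ = A₀ ∧ ∀ (a : A₁) (b : A₀), (a : M) = b → ψ₁ a = ψ₀ b) ∧
      (∀ h : K, algebraMap K M h ∈ A₀ → (IsAlgClosed M ∨ algebraMap K M h ∈ unitRing R M) → HasValOver s R F A₀ ψ₀ h) ∧
      ((∀ r : R, (IsAlgClosed M ∨ algebraMap K M r ∈ unitRing R M)) → Sel.IsPlaceOf s k (RingHom.id _) A₀ ψ₀) := by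
  classical
  have hxs : x ∈ fixF s F := fun σ hσ => (hfix σ hσ).1
  have hys : y ∈ fixF s F := fun σ hσ => (hfix σ hσ).2
  suffices main : ∃ (A₀ : ValuationSubring M) (ψ₀ : A₀ →+* AlgebraicClosure k),
      (∀ r : R, algebraMap K M r ∈ A₀) ∧ Sel.IsSectionAt s A₀ ψ₀ ∧
      (¬ IsAlgClosed M →
        (∀ (A₁ : ValuationSubring M) (ψ₁ : A₁ →+* AlgebraicClosure k), Sel.IsSectionAt s A₁ ψ₁ →
          (∀ (r : R) (h₀ : algebraMap K M r ∈ A₀), ∃ h₁ : algebraMap K M r ∈ A₁,
            algebraMap K M r ∈ unitRing R M ∨ ψ₁ ⟨_, h₁⟩ = ψ₀ ⟨_, h₀⟩) →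
          A₁ = A₀ ∧ ∀ (a : A₁) (b : A₀), (a : M) = b → ψ₁ a = ψ₀ b) ∧
        (∀ h : K, algebraMap K M h ∈ unitRing R M → HasValOver s R F A₀ ψ₀ h) ∧
        ((∀ r : R, algebraMap K M r ∈ unitRing R M) →
          Sel.IsPlaceOf s k (RingHom.id _) A₀ ψ₀)) by
    obtain ⟨A₀, ψ₀, h1, h2, h3⟩ := main
    refine ⟨A₀, ψ₀, h1, h2, ?_⟩
    by_cases hcl : IsAlgClosed M
    · have h4 := SNeigh.place_of_sectionAt s hs hsec h2
      refine ⟨fun A₁ ψ₁ h _ => MP_2f3286_bir.place_unique s hs h4
        (SNeigh.place_of_sectionAt s hs hsec h), fun h hA _ => ?_, fun _ => h4⟩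
      obtain ⟨c, hc⟩ := HYP.mem_of_fixed (k := k) (a := ψ₀ ⟨_, hA⟩) fun σ =>
        (SNeigh.sectionAt_of_place h4).1 σ h hA
      refine ⟨c, hA, hc.symm, fun w ι A φ hφ => ?_⟩
      obtain ⟨h5, h6⟩ := local_unique_over htr s hs hsec hxs hx h4 w ι A φ hφ.1
      subst h5
      exact ⟨hA, by rw [h6 ⟨_, hA⟩ ⟨_, hA⟩ rfl, hc]⟩
    · obtain ⟨h4, h5, h6⟩ := h3 hcl
      have hD : ∀ h : K, (IsAlgClosed M ∨ algebraMap K M h ∈ unitRing R M) → algebraMap K M h ∈ unitRing R M := by
        rintro h (h8 | h8)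
        · exact absurd h8 hcl
        · exact h8
      exact ⟨fun A₁ ψ₁ h h' => h4 A₁ ψ₁ h fun r h₀ => (h' r h₀).imp fun h₁ =>
        Or.imp_left (hD r), fun h _ hh => h5 h (hD h hh), fun h => h6 fun r => hD r (h r)⟩
  rcases hM with ⟨hcl, rfl⟩ | ⟨hfg, hRn, hxR, hyR, hyR', hM, hloc⟩
  · -- function fields
    have hfin : FiniteDimensional k F := FiniteDimensional.right ℚ k F
    have hFk : Algebra.IsAlgebraic F (AlgebraicClosure k) :=
      Algebra.IsAlgebraic.tower_top (K := k) F
    have : IsAlgClosure F (AlgebraicClosure k) := ⟨inferInstance, inferInstance⟩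
    let e : AlgebraicClosure F ≃ₐ[F] AlgebraicClosure k :=
      IsAlgClosure.equiv F (AlgebraicClosure F) (AlgebraicClosure k)
    let iFb : Algebra (AlgebraicClosure F) M :=
      ((algebraMap (AlgebraicClosure k) M).comp (e : _ →+* AlgebraicClosure k)).toAlgebra
    have he : ∀ a : AlgebraicClosure F, algebraMap (AlgebraicClosure F) M a =
        algebraMap (AlgebraicClosure k) M (e a) := fun _ => rfl
    have t1 : IsScalarTower F (AlgebraicClosure F) M := IsScalarTower.of_algebraMap_eq fun a => by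
      rw [he, AlgEquiv.commutes, ← IsScalarTower.algebraMap_apply]
    have t3 : IsScalarTower k F M := IsScalarTower.of_algebraMap_eq fun a => by
      rw [IsScalarTower.algebraMap_apply F (AlgebraicClosure k) M,
        ← IsScalarTower.algebraMap_apply k F (AlgebraicClosure k),
        ← IsScalarTower.algebraMap_apply k (AlgebraicClosure k) M]
    let iFL : Algebra F (fixF s F) := (toFixF s F hsec).toAlgebra
    have t2 : IsScalarTower F (fixF s F) M := IsScalarTower.of_algebraMap_eq fun a => by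
      change algebraMap F M a = algebraMap (AlgebraicClosure k) M (algebraMap F _ a)
      rw [← IsScalarTower.algebraMap_apply]
    have hLM : Algebra.IsAlgebraic (fixF s F) M :=
      Algebra.IsAlgebraic.tower_top (K := K) (fixF s F)
    have hclo : IsAlgClosure (fixF s F) M := ⟨hcl, hLM⟩
    have htr' : Algebra.trdeg F (fixF s F) = 1 := trdeg_fix (k := k) (K := K) (Ω := M) htr
    have hL : ∀ σ : Gal(AlgebraicClosure k/k),
        (∀ a : F, σ (algebraMap F _ a) = algebraMap F _ a) →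
        ∀ x : fixF s F, s σ (algebraMap (fixF s F) M x) = algebraMap (fixF s F) M x :=
      fun σ hσ x => x.2 σ hσ
    have hs' := resS_continuous s e hL hs
    have hsec' : ∀ (σ : Gal(AlgebraicClosure F/F)) (a : AlgebraicClosure F),
        resS s e hL σ (algebraMap (AlgebraicClosure F) M a) =
          algebraMap (AlgebraicClosure F) M (σ a) := by
      intro σ a
      rw [resS_apply, he, hsec, resG_apply, e.symm_apply_apply, he]
    obtain ⟨A₀, ψ, h1⟩ := geo_F (K := fixF s F) (Ω := M) C.hi C.hd C.sel htr' (resS s e hL) hs'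
      hsec' (fun z hz => by
        refine ⟨⟨z, fun σ hσ => ?_⟩, rfl⟩
        obtain ⟨τ, hτ, -⟩ := resG_surj e σ hσ
        rw [← hτ, ← resS_apply s e hL τ z]
        exact hz τ) ⟨x, hxs⟩ ⟨y, hys⟩ (fun c hc => hx c (by
        have h3 := congrArg (algebraMap (fixF s F) M) hc
        rw [← IsScalarTower.algebraMap_apply F (fixF s F) M] at h3
        exact h3)) (by
        apply (algebraMap (fixF s F) M).injective
        rw [map_pow, map_sub, map_mul, map_pow, ← IsScalarTower.algebraMap_apply F (fixF s F) M]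
        change y ^ 2 = x ^ 3 - algebraMap F M d * x
        rw [hxy, C.aeval_eq])
    have h4 : Sel.IsPlaceOf s k (RingHom.id _) A₀ ((e : _ →+* AlgebraicClosure k).comp ψ) :=
      descend s hs hsec F (placeOn_of s e hL he h1)
    refine ⟨A₀, _, ?_, (SNeigh.sectionAt_of_place h4).2, fun h => absurd hcl h⟩
    rintro ⟨r, hr⟩
    obtain ⟨a, rfl⟩ := Algebra.mem_bot.1 hr
    change algebraMap K M (algebraMap k K a) ∈ A₀
    rw [← IsScalarTower.algebraMap_apply k K M, IsScalarTower.algebraMap_apply k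
      (AlgebraicClosure k) M]
    exact (h4.1 _).1
  · obtain ⟨A₀, ψ₀, h1, h2, h3⟩ := affine_over C htr R hfg hRn hM s hs hsec hxs
      hys hx hxy hxR hyR hyR' hloc
    exact ⟨A₀, ψ₀, h1, h2, fun _ => h3⟩

end Pool.Agent.Lib.MP_2f3286_ag.UA
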