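import Pool.Agent.Lib.MP_2f3286_ag.UA.OverD
import Pool.Agent.Lib.MP_2f3286_ag.UA.Nei
import Pool.Agent.Lib.MP_2f3286_ag.HYP.CvMain

/-!
# Sections above the curve are geometric or cuspidal if they are so locally
-/

open Polynomial IsDedekindDomain NumberField
open scoped WithZero

noncomputable section

namespace Pool.Agent.Lib.MP_2f3286_ag.UA

open Pool.Agent.Lib.MP_2f3286_ag.HYP hiding affine_over over_dich
open Pool.Agent.Lib.MP_2f3286_ag.Pt Pool.Agent.Lib.MP_2f3286_ag.SNeigh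
  Pool.Agent.Lib.MP_2f3286_ag.SFull Pool.Agent.Lib.MP_2f3286_ag.Koe

universe u v

/-- **The theorem**: with a neighbourhood over `F` mapping to the curve, a section that is everywhere
locally geometric or cuspidal is geometric or cuspidal. -/
theorem geo_or_cusp {k : Type u} [Field k] [NumberField k]
    {F : Type v} [Field F] [NumberField F] [Algebra k F]
    [Algebra F (AlgebraicClosure k)] [IsScalarTower k F (AlgebraicClosure k)]
    {i d : F} {f : F[X]} (C : Crv i d f)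
    {K : Type*} [Field K] [Algebra k K] (htr : Algebra.trdeg k K = 1)
    (R : Subalgebra k K)
    {M : Type*} [Field M] [Algebra K M] [IsGalois K M]
    [Algebra (AlgebraicClosure k) M] [Algebra k M]
    [IsScalarTower k K M] [IsScalarTower k (AlgebraicClosure k) M]
    [Algebra F M] [IsScalarTower F (AlgebraicClosure k) M]
    (s : Gal(AlgebraicClosure k/k) →* Gal(M/K)) (hs : Continuous s)
    (hsec : ∀ σ a, s σ (algebraMap (AlgebraicClosure k) M a) =
      algebraMap (AlgebraicClosure k) M (σ a))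
    {x y : M} (hfix : ∀ σ : Gal(AlgebraicClosure k/k),
      (∀ a : F, σ (algebraMap F _ a) = algebraMap F _ a) → s σ x = x ∧ s σ y = y)
    (hx : ∀ c : F, x ≠ algebraMap F M c) (hxy : y ^ 2 = aeval x f)
    (hM : (IsAlgClosed M ∧ R = ⊥) ∨
      (R.FG ∧ (∀ h : K, IsIntegral R h → h ∈ R) ∧ IsIntegral R x ∧ IsIntegral R y ∧
        IsIntegral R y⁻¹ ∧ IsMaxUnramOver R K M (AlgebraicClosure k) ∧
        (∀ w : HeightOneSpectrum (𝓞 F),
          ∃ (ι : AlgebraicClosure k →ₐ[F] AlgebraicClosure (w.adicCompletion F))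
            (A : ValuationSubring M) (φ : A →+* AlgebraicClosure (w.adicCompletion F)),
            Sel.IsPlaceOf s (w.adicCompletion F)
              (ι : _ →+* AlgebraicClosure (w.adicCompletion F)) A φ ∧
            ((∃ (e : F) (h : x ∈ A), e ≠ 0 ∧ φ ⟨x, h⟩ = ι (algebraMap F _ e)) →
              ∀ r : R, algebraMap K M r ∈ A)))) :
    ∃ (A₀ : ValuationSubring M) (ψ₀ : A₀ →+* AlgebraicClosure k),
      (((∀ r : R, algebraMap K M r ∈ A₀) ∧ Sel.IsSectionAt s A₀ ψ₀ ∧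
        (∀ (A₁ : ValuationSubring M) (ψ₁ : A₁ →+* AlgebraicClosure k), Sel.IsSectionAt s A₁ ψ₁ →
          (∀ (r : R) (h₀ : algebraMap K M r ∈ A₀), ∃ h₁ : algebraMap K M r ∈ A₁,
            (IsAlgClosed M ∨ algebraMap K M r ∈ unitRing R M) ∨ ψ₁ ⟨_, h₁⟩ = ψ₀ ⟨_, h₀⟩) →
          A₁ = A₀ ∧ ∀ (a : A₁) (b : A₀), (a : M) = b → ψ₁ a = ψ₀ b) ∧
        (∀ h : K, algebraMap K M h ∈ A₀ → (IsAlgClosed M ∨ algebraMap K M h ∈ unitRing R M) →
          HasValOver s R F A₀ ψ₀ h) ∧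
        ((∀ r : R, (IsAlgClosed M ∨ algebraMap K M r ∈ unitRing R M)) →
          Sel.IsPlaceOf s k (RingHom.id _) A₀ ψ₀)) ∨
      (R ≠ ⊥ ∧ ¬ (x ∈ A₀ ∧ x⁻¹ ∈ A₀) ∧
        ∃ E : IntermediateField k (AlgebraicClosure k), FiniteDimensional k E ∧
          Sel.IsPlaceOf s E (RingHom.id _) A₀ ψ₀)) ∧
      (∀ (w : HeightOneSpectrum (𝓞 F))
        (ι : AlgebraicClosure k →ₐ[F] AlgebraicClosure (w.adicCompletion F))
        (A : ValuationSubring M) (φ : A →+* AlgebraicClosure (w.adicCompletion F)),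
        Sel.IsPlaceOf s (w.adicCompletion F)
          (ι : _ →+* AlgebraicClosure (w.adicCompletion F)) A φ →
        (x ∈ A ∧ x⁻¹ ∈ A ↔ x ∈ A₀ ∧ x⁻¹ ∈ A₀)) ∧
      ((IsAlgClosed M ∧ R = ⊥ ∨
          (∀ (τ : Gal(AlgebraicClosure k/k)) (a : F), ∃ b : F, τ (algebraMap F _ a) =
            algebraMap F _ b) ∧
          ∀ z : K, algebraMap K M z ∈ IntermediateField.adjoin F {x, y}) →
        Sel.IsPlaceOf s k (RingHom.id _) A₀ ψ₀ ∧
        ∀ (A₁ : ValuationSubring M) (ψ₁ : A₁ →+* AlgebraicClosure k),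
          Sel.IsPlaceOf s k (RingHom.id _) A₁ ψ₁ →
          A₁ = A₀ ∧ ∀ (a : A₁) (b : A₀), (a : M) = b → ψ₁ a = ψ₀ b) := by
  classical
  have hxs : x ∈ fixF s F := fun σ hσ => (hfix σ hσ).1
  have hys : y ∈ fixF s F := fun σ hσ => (hfix σ hσ).2
  rcases hM with ⟨hcl, rfl⟩ | ⟨hfg, hRn, hxR, hyR, hyR', hM, hloc⟩
  · -- function fields
    obtain ⟨A₀, ψ₀, h1, h2, h3, h4, h5⟩ := nbhd_of_sel C htr ⊥ s hs hsec hfix
      hx hxy (Or.inl ⟨hcl, rfl⟩)
    have h6 : Sel.IsPlaceOf s k (RingHom.id _) A₀ ψ₀ := h5 fun _ => Or.inl hcl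
    refine ⟨A₀, ψ₀, Or.inl ⟨h1, h2, h3, h4, h5⟩, fun w ι A φ hφ => ?_, fun _ => ⟨h6,
      fun A₁ ψ₁ h => MP_2f3286_bir.place_unique s hs h6 h⟩⟩
    obtain ⟨h7, -⟩ := local_unique_over htr s hs hsec hxs hx h6 w ι A φ hφ
    rw [h7]
  -- affine curves
  obtain ⟨t, htR, ht⟩ := exists_transc (F := F) R s hsec hxs hx hxR
  have hRbot : R ≠ ⊥ := by
    rintro rfl
    obtain ⟨c, rfl⟩ := Algebra.mem_bot.1 htR
    exact ht (isAlgebraic_algebraMap c)
  rcases over_dich C htr R hfg hRn hM s hs hsec hxs hys hx hxy hxR hyR hyR'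
    (fun w => by
      obtain ⟨ι, A, φ, h, -⟩ := hloc w
      exact ⟨ι, A, φ, h⟩) with ⟨e₀, he0, key⟩ | ⟨key, A₀, ψ₀, Δ, hO, hΔ, hr, hno, hK⟩
  · have hloc' : ∀ w : HeightOneSpectrum (𝓞 F),
        ∃ (ι : AlgebraicClosure k →ₐ[F] AlgebraicClosure (w.adicCompletion F))
          (A : ValuationSubring M) (φ : A →+* AlgebraicClosure (w.adicCompletion F)),
          IsPointOn s R (w.adicCompletion F)
            (ι : _ →+* AlgebraicClosure (w.adicCompletion F)) A φ := by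
      intro w
      obtain ⟨ι, A, φ, h, h'⟩ := hloc w
      obtain ⟨h3, h4⟩ := key w ι A φ h
      exact ⟨ι, A, φ, h, h' ⟨e₀, h3, he0, h4⟩⟩
    obtain ⟨A₀, ψ₀, h1, h2, h3, h4, h5⟩ := nbhd_of_sel C htr R s hs hsec hfix
      hx hxy (Or.inr ⟨hfg, hRn, hxR, hyR, hyR', hM, hloc'⟩)
    have hfin : FiniteDimensional k F := FiniteDimensional.right ℚ k F
    have hFk : Algebra.IsAlgebraic F (AlgebraicClosure k) :=
      Algebra.IsAlgebraic.tower_top (K := k) F
    have : IsAlgClosure F (AlgebraicClosure k) := ⟨inferInstance, inferInstance⟩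
    let e : AlgebraicClosure F ≃ₐ[F] AlgebraicClosure k :=
      IsAlgClosure.equiv F (AlgebraicClosure F) (AlgebraicClosure k)
    have hxt := const_of_fixF s hsec e hxs hx
    have hy0 : y ≠ 0 := by
      rintro rfl
      rw [zero_pow two_ne_zero] at hxy
      exact hxt ⟨f, C.monic.ne_zero, hxy.symm⟩
    have hx0 : x ≠ 0 := by
      rintro rfl
      exact hxt isAlgebraic_zero
    have hu : ∀ (A₁ : ValuationSubring M) (ψ₁ : A₁ →+* AlgebraicClosure k),
        Sel.IsSectionAt s A₁ ψ₁ →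
        (∀ (r : R) (h₀ : algebraMap K M r ∈ A₀), ∃ h₁ : algebraMap K M r ∈ A₁,
          algebraMap K M r ∈ unitRing R M ∨ ψ₁ ⟨_, h₁⟩ = ψ₀ ⟨_, h₀⟩) →
        A₁ = A₀ ∧ ∀ (a : A₁) (b : A₀), (a : M) = b → ψ₁ a = ψ₀ b := fun A₁ ψ₁ h h' =>
      h3 A₁ ψ₁ h fun r h₀ => (h' r h₀).imp fun h₁ => Or.imp_left fun h => Or.inr h
    have htow : IsScalarTower R K M := IsScalarTower.of_algebraMap_eq fun r => rfl
    have hB : ∀ z : M, IsIntegral R z → z ∈ A₀ := fun z hz =>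
      PTAux.mem_of_isIntegral (R := R) h1 hz
    -- the inverse of `x` in a valuation ring
    have hxinv : ∀ A : ValuationSubring M, (∀ a : F, algebraMap F M a ∈ A) → x ∈ A → y⁻¹ ∈ A →
        x⁻¹ ∈ A := by
      intro A hA hxA hyA
      have h6 : x⁻¹ = (x ^ 2 - algebraMap F M d) * y⁻¹ ^ 2 := by
        have h8 : y ^ 2 = x ^ 3 - algebraMap F M d * x := by rw [hxy, C.aeval_eq]
        have h7 : x ^ 3 - algebraMap F M d * x ≠ 0 := by
          rw [← h8]
          exact pow_ne_zero 2 hy0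
        rw [inv_pow, h8, ← div_eq_mul_inv, eq_div_iff h7]
        field_simp
      rw [h6]
      exact mul_mem (sub_mem (pow_mem hxA 2) (hA d)) (pow_mem hyA 2)
    have hFA : ∀ {A : ValuationSubring M}, (∀ a : AlgebraicClosure k,
        algebraMap (AlgebraicClosure k) M a ∈ A) → ∀ a : F, algebraMap F M a ∈ A := by
      intro A hA a
      rw [IsScalarTower.algebraMap_apply F (AlgebraicClosure k) M]
      exact hA _
    have hin : ∀ (w : HeightOneSpectrum (𝓞 F))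
        (ι : AlgebraicClosure k →ₐ[F] AlgebraicClosure (w.adicCompletion F))
        (A : ValuationSubring M) (φ : A →+* AlgebraicClosure (w.adicCompletion F)),
        Sel.IsPlaceOf s (w.adicCompletion F)
          (ι : _ →+* AlgebraicClosure (w.adicCompletion F)) A φ → x ∈ A ∧ x⁻¹ ∈ A ∧ y⁻¹ ∈ A := by
      intro w ι A φ h
      obtain ⟨g1, g2⟩ := key w ι A φ h
      have hdA : algebraMap F M d ∈ A := hFA (fun a => (h.1 a).1) d
      have g3 : x⁻¹ ∈ A := by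
        refine h.2.1 ⟨x, g1⟩ ?_
        rw [g2, Ne, _root_.map_eq_zero, _root_.map_eq_zero]
        exact he0
      refine ⟨g1, g3, ?_⟩
      have h8 : y ^ 2 = x ^ 3 - algebraMap F M d * x := by rw [hxy, C.aeval_eq]
      have g4 : y ^ 2 ∈ A := by
        rw [h8]
        exact sub_mem (pow_mem g1 3) (mul_mem hdA g1)
      have g5 : φ ⟨y ^ 2, g4⟩ = ι (algebraMap F _ (e₀ ^ 3 - d * e₀)) := by
        have g6 : (⟨y ^ 2, g4⟩ : A) = ⟨x, g1⟩ ^ 3 - ⟨_, hdA⟩ * ⟨x, g1⟩ := Subtype.ext h8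
        obtain ⟨g7, g8⟩ := h.1 (algebraMap F _ d)
        have g9 : φ ⟨_, hdA⟩ = ι (algebraMap F _ d) := by
          refine Eq.trans (congrArg φ (Subtype.ext ?_)) g8
          exact IsScalarTower.algebraMap_apply F (AlgebraicClosure k) M d
        rw [g6, map_sub, map_mul, map_pow, g2, g9, map_sub, map_mul, map_pow, map_sub, map_mul,
          map_pow]
      have g6 : (y ^ 2)⁻¹ ∈ A := by
        refine h.2.1 ⟨y ^ 2, g4⟩ ?_
        rw [g5, Ne, _root_.map_eq_zero, _root_.map_eq_zero]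
        intro h0
        have h10 : e₀ * (e₀ ^ 2 - d) = 0 := by linear_combination h0
        rcases mul_eq_zero.1 h10 with h11 | h11
        · exact he0 h11
        · exact C.hns ⟨e₀, by linear_combination -h11⟩
      apply mem_of_sq
      rw [inv_pow]
      exact g6
    refine ⟨A₀, ψ₀, Or.inl ⟨h1, h2, h3, h4, h5⟩, fun w ι A φ hφ =>
      ⟨fun _ => ⟨hB _ hxR, hxinv A₀ (hFA fun a => (h2.1 a).1) (hB _ hxR) (hB _ hyR')⟩,
        fun _ => ?_⟩, fun hK => ?_⟩
    · obtain ⟨g1, g2, -⟩ := hin w ι A φ hφ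
      exact ⟨g1, g2⟩
    replace hK := (hK.resolve_left fun h => hRbot h.2).2
    have hd : f.natDegree ≠ 0 := by rw [C.natDegree]; omega
    refine ⟨geo_rational hd htr R hfg hRn t htR ht hM s hs hsec hxy hy0 hxR hyR hyR' hK h1 h2 hu,
      fun A₁ ψ₁ h => ?_⟩
    obtain ⟨q1, q2⟩ := resOn_of_isPlaceOf h
    obtain ⟨w⟩ := nonempty_primes F
    obtain ⟨ι, -, -, -⟩ := hloc w
    obtain ⟨q3, -, q4⟩ := hin w ι A₁ _
      (isPlaceOf_comp h (ι : _ →+* AlgebraicClosure (w.adicCompletion F)))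
    exact geo_unique hd htr R hfg hRn t htR ht hM s hs hsec hxy hy0 hxR hyR hyR' hK h1 h2 hu q1 ⊤
      isOpen_univ q2 q3 q4
  · refine ⟨A₀, ψ₀, Or.inr ⟨hRbot, hno, exists_field hO hΔ hr⟩, fun w ι A φ hφ =>
      ⟨fun h => absurd h (key w ι A φ hφ), fun h => absurd h hno⟩, fun h => ?_⟩
    obtain ⟨g1, g2⟩ := h.resolve_left fun h => hRbot h.2
    exact hK g1 g2

end Pool.Agent.Lib.MP_2f3286_ag.UA
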