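import Pool.Agent.Lib.MP_2f3286_ag.Fer.PG
import Pool.Agent.Lib.MP_2f3286_ag.Fer.CPl
import Pool.Agent.Lib.MP_2f3286_ag.Fer.Away
import Pool.Agent.Lib.MP_2f3286_ag.Cls

/-!
# Backward orbits of the division by `1 + i`: the values of the orbit are not zero
-/

open NumberField IsDedekindDomain
open scoped WithZero
open Pool.Agent.Lib.MP_2f3286_ag.Fer (Plc Data)

namespace Pool.Agent.Lib.MP_2f3286_ag.UA

section plc

variable {L E : Type*} [Field L] [Field E]

/-- If a term of the orbit has the value zero, then the terms before it have the value infinity. -/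
theorem inf_of_zero (Q : Plc L E) {i d : L} {i' d' : E} (hi : Q.Has i i') (hd : Q.Has d d')
    (hd0 : d' ≠ 0) {r r' : L} (hr : r ≠ 0) (h : r' ^ 2 - d = 2 * i * r * r')
    (h0 : Q.Has r' 0) : Q.Has r⁻¹ 0 := by
  have h1 : Q.Has (r' ^ 2 - d) (0 ^ 2 - d') := (h0.pow 2).sub hd
  have h2 : (0 : E) ^ 2 - d' ≠ 0 := by
    rw [zero_pow two_ne_zero, zero_sub]
    exact neg_ne_zero.2 hd0
  have h3 := h1.ne_zero h2
  have h4 : r⁻¹ = (2 * i * r') / (r' ^ 2 - d) := by
    rw [eq_div_iff h3, h]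
    field_simp
  have h5 : Q.Has (2 * i * r') ((1 + 1) * i' * 0) := by
    have h6 : Q.Has (2 : L) (1 + 1) := by
      rw [← one_add_one_eq_two]
      exact Plc.has_one.add Plc.has_one
    exact (h6.mul hi).mul h0
  have h6 := h5.div h1 h2
  rw [← h4] at h6
  simpa using h6

/-- If a term of the orbit has the value infinity, then the term before it has the value infinity. -/
theorem inf_of_inf (Q : Plc L E) {i d : L} {i' d' : E} (hi : Q.Has i i') (hd : Q.Has d d')
    {r r' : L} (hr : r ≠ 0) (hr' : r' ≠ 0) (h : r' ^ 2 - d = 2 * i * r * r')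
    (h0 : Q.Has r'⁻¹ 0) : Q.Has r⁻¹ 0 := by
  have h1 : Q.Has (1 - d * r'⁻¹ ^ 2) (1 - d' * 0 ^ 2) := Plc.has_one.sub (hd.mul (h0.pow 2))
  have h2 : (1 : E) - d' * 0 ^ 2 ≠ 0 := by simp
  have h3 := h1.ne_zero h2
  have h4 : r⁻¹ = (2 * i * r'⁻¹) / (1 - d * r'⁻¹ ^ 2) := by
    rw [eq_div_iff h3]
    field_simp
    linear_combination h
  have h5 : Q.Has (2 * i * r'⁻¹) ((1 + 1) * i' * 0) := by
    have h6 : Q.Has (2 : L) (1 + 1) := by
      rw [← one_add_one_eq_two]
      exact Plc.has_one.add Plc.has_one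
    exact (h6.mul hi).mul h0
  have h6 := h5.div h1 h2
  rw [← h4] at h6
  simpa using h6

/-- All terms before a term with value zero have the value infinity. -/
theorem inf_before (Q : Plc L E) {i d : L} {i' d' : E} (hi : Q.Has i i') (hd : Q.Has d d')
    (hd0 : d' ≠ 0) {a : ℕ → L} (ha0 : ∀ n, a n ≠ 0)
    (ha : ∀ n, a (n + 1) ^ 2 - d = 2 * i * a n * a (n + 1)) {m : ℕ} (hm : Q.Has (a m) 0) :
    ∀ n, n < m → Q.Has (a n)⁻¹ 0 := by
  intro n hn
  obtain ⟨j, rfl⟩ : ∃ j, m = n + j + 1 := ⟨m - n - 1, by omega⟩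
  clear hn
  induction j generalizing n with
  | zero => exact inf_of_zero Q hi hd hd0 (ha0 n) (ha n) hm
  | succ j ih =>
    have h1 : Q.Has (a (n + 1))⁻¹ 0 := by
      refine ih (n + 1) ?_
      rw [show n + 1 + j + 1 = n + (j + 1) + 1 by omega]
      exact hm
    exact inf_of_inf Q hi hd (ha0 n) (ha0 _) (ha n) h1

/-- At most one term has the value zero. -/
theorem zero_unique (Q : Plc L E) {i d : L} {i' d' : E} (hi : Q.Has i i') (hd : Q.Has d d')
    (hd0 : d' ≠ 0) {a : ℕ → L} (ha0 : ∀ n, a n ≠ 0)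
    (ha : ∀ n, a (n + 1) ^ 2 - d = 2 * i * a n * a (n + 1)) {m n : ℕ} (hm : Q.Has (a m) 0)
    (hn : Q.Has (a n) 0) : n = m := by
  rcases lt_trichotomy n m with h | h | h
  · exact absurd hn (Plc.not_has_of_inv (inf_before Q hi hd hd0 ha0 ha hm n h) (ha0 n))
  · exact h
  · exact absurd hm (Plc.not_has_of_inv (inf_before Q hi hd hd0 ha0 ha hn m h) (ha0 m))

/-- **No value zero in a finite field.** -/
theorem no_zero [Finite E] (Q : Plc L E) {i d : L} {i' d' : E} (hi : Q.Has i i')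
    (hi2 : i' ^ 2 = -1) (hd : Q.Has d d') (h2 : (2 : E) ≠ 0) (hd0 : d' ≠ 0) {a : ℕ → L}
    (ha0 : ∀ n, a n ≠ 0) (ha : ∀ n, a (n + 1) ^ 2 - d = 2 * i * a n * a (n + 1)) (m : ℕ) :
    ¬ Q.Has (a m) 0 := by
  classical
  intro hm
  -- shift the orbit
  suffices key : ∀ a : ℕ → L, (∀ n, a n ≠ 0) →
      (∀ n, a (n + 1) ^ 2 - d = 2 * i * a n * a (n + 1)) → ¬ Q.Has (a 0) 0 by
    refine key (fun n => a (m + n)) (fun n => ha0 _) (fun n => ha _) ?_
    exact hm
  clear hm ha ha0
  intro a ha0 ha h0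
  have hi0 : i' ≠ 0 := by
    rintro rfl
    rw [zero_pow two_ne_zero] at hi2
    exact one_ne_zero (neg_eq_zero.1 hi2.symm)
  have h2Q : Q.Has (2 : L) 2 := by
    rw [← one_add_one_eq_two, ← one_add_one_eq_two]
    exact Plc.has_one.add Plc.has_one
  let val : L → Option E := fun x => if h : ∃ y, Q.Has x y then some h.choose else none
  have val_some : ∀ {x : L} {y : E}, Q.Has x y → val x = some y := by
    intro x y hy
    have hex : ∃ y, Q.Has x y := ⟨y, hy⟩
    change (if h : ∃ y, Q.Has x y then some h.choose else none) = some y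
    rw [dif_pos hex]
    congr 1
    exact hex.choose_spec.unique hy
  have val_none : ∀ {x : L}, (¬ ∃ y, Q.Has x y) → val x = none := by
    intro x hx
    change (if h : ∃ y, Q.Has x y then some h.choose else none) = none
    rw [dif_neg hx]
  let G : Option E → Option E := fun o => match o with
    | none => none
    | some y => if y = 0 then none else some ((y ^ 2 - d') / (2 * i' * y))
  have rel : ∀ r r' : L, r ≠ 0 → r' ≠ 0 → r' ^ 2 - d = 2 * i * r * r' → G (val r') = val r := by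
    intro r r' hr hr' h
    rcases Q.has_or_inv r' with ⟨y, hy⟩ | ⟨-, hy⟩
    · rw [val_some hy]
      change (if y = 0 then none else some ((y ^ 2 - d') / (2 * i' * y))) = _
      by_cases hy0 : y = 0
      · rw [if_pos hy0]
        subst hy0
        have h3 := inf_of_zero Q hi hd hd0 hr h hy
        rw [val_none]
        rintro ⟨z, hz⟩
        exact Plc.not_has_of_inv h3 hr hz
      · rw [if_neg hy0]
        have h3 : Q.Has (2 * i * r') (2 * i' * y) := (h2Q.mul hi).mul hy
        have h4 : 2 * i' * y ≠ 0 := mul_ne_zero (mul_ne_zero h2 hi0) hy0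
        have h5 : r = (r' ^ 2 - d) / (2 * i * r') := by
          rw [eq_div_iff (h3.ne_zero h4), h]
          ring
        have h6 := ((hy.pow 2).sub hd).div h3 h4
        rw [← h5] at h6
        exact (val_some h6).symm
    · have h3 := inf_of_inf Q hi hd hr hr' h hy
      rw [val_none, val_none]
      · rintro ⟨z, hz⟩
        exact Plc.not_has_of_inv h3 hr hz
      · rintro ⟨z, hz⟩
        exact Plc.not_has_of_inv hy hr' hz
  obtain ⟨m, hm1, hm2⟩ := Fer.periodic G (fun n => val (a n))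
    (fun n => rel _ _ (ha0 n) (ha0 (n + 1)) (ha n))
  have hG : ∀ n, 1 ≤ n → G^[n] (some 0) = none := by
    intro n hn
    obtain ⟨n, rfl⟩ : ∃ l, n = l + 1 := ⟨n - 1, by omega⟩
    rw [Function.iterate_succ_apply]
    have h3 : G (some 0) = none := by
      change (if (0 : E) = 0 then none else _) = none
      rw [if_pos rfl]
    rw [h3]
    exact Function.iterate_fixed rfl n
  have h3 : val (a 0) = some 0 := val_some h0
  simp only [h3] at hm2
  rw [hG m hm1] at hm2
  exact absurd hm2 (by simp)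

end plc

section data

variable {F : Type*} [Field F] [NumberField F] {L : Type*} [Field L] [Algebra F L]

/-- **The values of the inverses of the orbit away from `2 d`.** -/
theorem val_good {p : ℕ} (D : Data p F L) {i d : F} (hi : i ^ 2 = -1) {a : ℕ → L}
    (ha0 : ∀ n, a n ≠ 0)
    (ha : ∀ n, a (n + 1) ^ 2 - algebraMap F L d = 2 * algebraMap F L i * a n * a (n + 1))
    (w : HeightOneSpectrum (𝓞 F)) (h2 : (2 : 𝓞 F) ∉ w.asIdeal) (hd : w.valuation F d = 1)
    (n : ℕ) :
    ∃ x : w.adicCompletion F, (D.pl w).Has (a n)⁻¹ x ∧ Valued.v x ≤ (1 : ℤᵐ⁰) := by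
  obtain ⟨E, hE, hfin, Q', res, hres, hto, hfrom⟩ := Fer.exists_comp w (D.pl w)
  have hvd : Valued.v (algebraMap F (w.adicCompletion F) d) = (1 : ℤᵐ⁰) := by
    rw [Fer.val_alg', hd]
  have hvi : Valued.v (algebraMap F (w.adicCompletion F) i) = (1 : ℤᵐ⁰) := by
    have h1 : Valued.v (algebraMap F (w.adicCompletion F) i) ^ 2 = (1 : ℤᵐ⁰) := by
      rw [← map_pow, ← map_pow, hi, map_neg, map_one, Valuation.map_neg, map_one]
    exact (pow_eq_one_iff_of_nonneg zero_le two_ne_zero).1 h1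
  let dd : w.adicCompletionIntegers F := ⟨algebraMap F (w.adicCompletion F) d, hvd.le⟩
  let ii : w.adicCompletionIntegers F := ⟨algebraMap F (w.adicCompletion F) i, hvi.le⟩
  have hii : ii ^ 2 = -1 := by
    apply Subtype.ext
    change (algebraMap F (w.adicCompletion F) i) ^ 2 = -1
    rw [← map_pow, hi, map_neg, map_one]
  have hv2 : Valued.v ((2 : w.adicCompletion F)) = (1 : ℤᵐ⁰) := by
    have h3 : (2 : w.adicCompletion F) = algebraMap F (w.adicCompletion F) 2 := by
      rw [map_ofNat]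
    rw [h3, Fer.val_alg']
    have h4 : (2 : F) = algebraMap (𝓞 F) F 2 := by rw [map_ofNat]
    rw [h4]
    refine le_antisymm (w.valuation_le_one (K := F) _) ?_
    rw [← not_lt]
    intro h5
    rw [w.valuation_lt_one_iff_dvd, Ideal.dvd_span_singleton] at h5
    exact h2 h5
  have hne : ∀ z : w.adicCompletionIntegers F, Valued.v (z : w.adicCompletion F) = (1 : ℤᵐ⁰) →
      res z ≠ 0 := by
    intro z hz h0
    rw [hres, hz] at h0
    exact lt_irrefl _ h0
  have key := no_zero Q' (hto _ ii (D.base w i)) (by rw [← map_pow, hii, map_neg, map_one])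
    (hto _ dd (D.base w d)) (by
      have h3 := hne 2 hv2
      rwa [map_ofNat] at h3) (hne dd hvd) ha0 ha n
  rcases Q'.has_or_inv (a n)⁻¹ with ⟨e, he⟩ | ⟨-, he⟩
  · obtain ⟨x, hx, -⟩ := hfrom _ _ he
    exact ⟨x, hx, x.2⟩
  · rw [inv_inv] at he
    exact absurd he key

/-- **The values of the inverses of the orbit.** -/
theorem exists_level {p : ℕ} (D : Data p F L) {i d : F} (hi : i ^ 2 = -1) (hd : d ≠ 0)
    {a : ℕ → L} (ha0 : ∀ n, a n ≠ 0)
    (ha : ∀ n, a (n + 1) ^ 2 - algebraMap F L d = 2 * algebraMap F L i * a n * a (n + 1)) :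
    ∃ (T : Finset (HeightOneSpectrum (𝓞 F))) (n₀ : ℕ), ∀ w : HeightOneSpectrum (𝓞 F),
      (w ∉ T → (2 : 𝓞 F) ∉ w.asIdeal ∧ w.valuation F d = 1 ∧
        ∀ n, ∃ x : w.adicCompletion F, (D.pl w).Has (a n)⁻¹ x ∧ Valued.v x ≤ (1 : ℤᵐ⁰)) ∧
      ∀ n, n₀ ≤ n → ∃ x : w.adicCompletion F, (D.pl w).Has (a n)⁻¹ x := by
  classical
  have hT : {w : HeightOneSpectrum (𝓞 F) | ¬ ((2 : 𝓞 F) ∉ w.asIdeal ∧
      w.valuation F d = 1)}.Finite := by
    have h1 : (algebraMap (𝓞 F) F) 2 ≠ 0 := by
      rw [map_ofNat]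
      exact two_ne_zero
    refine ((finite_val_ne_one h1).union (finite_val_ne_one hd)).subset fun w hw => ?_
    rw [Set.mem_ofPred_eq, not_and_or, not_not] at hw
    rcases hw with hw | hw
    · left
      rw [Set.mem_ofPred_eq]
      intro h2
      rw [← Ideal.dvd_span_singleton, ← w.valuation_lt_one_iff_dvd (K := F), h2] at hw
      exact lt_irrefl _ hw
    · exact Or.inr hw
  have hw : ∀ w : HeightOneSpectrum (𝓞 F), ∃ m : ℕ, ∀ n, m ≤ n →
      ∃ x : w.adicCompletion F, (D.pl w).Has (a n)⁻¹ x := by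
    intro w
    by_cases hex : ∃ m, (D.pl w).Has (a m) 0
    · obtain ⟨m, hm⟩ := hex
      refine ⟨m + 1, fun n hn => ?_⟩
      rcases (D.pl w).has_or_inv (a n)⁻¹ with h | ⟨-, h⟩
      · exact h
      · rw [inv_inv] at h
        have := zero_unique (D.pl w) (D.base w i) (D.base w d) ((map_ne_zero _).2 hd) ha0 ha hm h
        omega
    · refine ⟨0, fun n _ => ?_⟩
      rcases (D.pl w).has_or_inv (a n)⁻¹ with h | ⟨-, h⟩
      · exact h
      · rw [inv_inv] at h
        exact absurd ⟨n, h⟩ hex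
  choose m hm using hw
  refine ⟨hT.toFinset, hT.toFinset.sup m, fun w => ⟨fun h => ?_, fun n hn => ?_⟩⟩
  · rw [Set.Finite.mem_toFinset, Set.mem_ofPred_eq, not_not] at h
    exact ⟨h.1, h.2, fun n => val_good D hi ha0 ha w h.1 h.2 n⟩
  · by_cases h : w ∈ hT.toFinset
    · exact hm w n ((Finset.le_sup h).trans hn)
    · rw [Set.Finite.mem_toFinset, Set.mem_ofPred_eq, not_not] at h
      obtain ⟨x, hx, -⟩ := val_good D hi ha0 ha w h.1 h.2 n
      exact ⟨x, hx⟩

end data

end Pool.Agent.Lib.MP_2f3286_ag.UA
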