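import Pool.Agent.Lib.MP_2f3286_ag.UA.O1
import Pool.Agent.Lib.MP_2f3286_ag.GU.Geo

/-!
# Backward orbits of the division by `1 + i`: sufficiently many units
-/

open NumberField IsDedekindDomain Polynomial
open scoped WithZero
open Pool.Agent.Lib.MP_2f3286_ag.Fer (Plc Data)

namespace Pool.Agent.Lib.MP_2f3286_ag.UA

section pol

variable {F : Type*} [Field F]

/-- numerator and denominator of the iterates of `2 i T / (1 - d T ^ 2)` -/
noncomputable def nd (i d : F) : ℕ → F[X] × F[X]
  | 0 => (X, 1)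
  | n + 1 => (C (2 * i) * (nd i d n).1 * (nd i d n).2, (nd i d n).2 ^ 2 - C d * (nd i d n).1 ^ 2)

/-- the numerator -/
noncomputable def nu (i d : F) (n : ℕ) : F[X] := (nd i d n).1

/-- the denominator -/
noncomputable def de (i d : F) (n : ℕ) : F[X] := (nd i d n).2

theorem nu_zero (i d : F) : nu i d 0 = X := rfl

theorem de_zero (i d : F) : de i d 0 = 1 := rfl

theorem nu_succ (i d : F) (n : ℕ) : nu i d (n + 1) = C (2 * i) * nu i d n * de i d n := rfl

theorem de_succ (i d : F) (n : ℕ) : de i d (n + 1) = de i d n ^ 2 - C d * nu i d n ^ 2 := rfl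

variable {i d : F}

theorem nd_coprime (h2 : (2 : F) ≠ 0) (hi : i ≠ 0) (hd : d ≠ 0) (n : ℕ) :
    IsCoprime (nu i d n) (de i d n) := by
  induction n with
  | zero => rw [de_zero]; exact isCoprime_one_right
  | succ n ih =>
    rw [nu_succ, de_succ]
    have hu : IsUnit (C (2 * i) : F[X]) := isUnit_C.2 (IsUnit.mk0 _ (mul_ne_zero h2 hi))
    have hud : IsUnit (C d : F[X]) := isUnit_C.2 (IsUnit.mk0 _ hd)
    refine IsCoprime.mul_left (IsCoprime.mul_left ?_ ?_) ?_
    · exact isCoprime_one_left.of_isCoprime_of_dvd_left hu.dvd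
    · -- `nu n` is prime to `de n ^ 2`
      have h1 : IsCoprime (nu i d n) (de i d n ^ 2) := ih.pow_right
      have h3 : de i d n ^ 2 - C d * nu i d n ^ 2 = de i d n ^ 2 + nu i d n * (-(C d * nu i d n)) := by
        ring
      rw [h3]
      exact h1.add_mul_left_right _
    · have h1 : IsCoprime (de i d n) (-(C d * nu i d n ^ 2)) := by
        refine IsCoprime.neg_right ?_
        exact IsCoprime.mul_right (isCoprime_one_right.of_isCoprime_of_dvd_right hud.dvd)
          ih.symm.pow_right
      have h3 : de i d n ^ 2 - C d * nu i d n ^ 2 =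
          -(C d * nu i d n ^ 2) + de i d n * de i d n := by ring
      rw [h3]
      exact h1.add_mul_left_right _

theorem nu_dvd (n : ℕ) : nu i d n ∣ nu i d (n + 1) := by
  rw [nu_succ]
  exact ⟨C (2 * i) * de i d n, by ring⟩

theorem de_dvd (n : ℕ) : de i d n ∣ nu i d (n + 1) := by
  rw [nu_succ]
  exact ⟨C (2 * i) * nu i d n, by ring⟩

theorem de_dvd_of_lt {n m : ℕ} (h : n < m) : de i d n ∣ nu i d m := by
  obtain ⟨j, rfl⟩ : ∃ j, m = n + j + 1 := ⟨m - n - 1, by omega⟩
  clear h
  induction j with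
  | zero => exact de_dvd n
  | succ j ih => exact ih.trans (nu_dvd _)

theorem de_coprime (h2 : (2 : F) ≠ 0) (hi : i ≠ 0) (hd : d ≠ 0) {n m : ℕ} (h : n ≠ m) :
    IsCoprime (de i d n) (de i d m) := by
  rcases lt_or_gt_of_ne h with h | h
  · exact (nd_coprime h2 hi hd m).of_isCoprime_of_dvd_left (de_dvd_of_lt h)
  · exact ((nd_coprime h2 hi hd n).of_isCoprime_of_dvd_left (de_dvd_of_lt h)).symm

theorem deg_nd (h2 : (2 : F) ≠ 0) (hi : i ≠ 0) (hd : d ≠ 0) (n : ℕ) :
    (de i d (n + 1)).natDegree = 2 ^ (n + 1) ∧ (nu i d (n + 1)).natDegree < 2 ^ (n + 1) := by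
  have h2i : (2 * i : F) ≠ 0 := mul_ne_zero h2 hi
  induction n with
  | zero =>
    have e1 : de i d 1 = 1 - C d * X ^ 2 := by
      rw [de_succ, de_zero, nu_zero, one_pow]
    have e2 : nu i d 1 = C (2 * i) * X := by
      rw [nu_succ, de_zero, nu_zero, mul_one]
    refine ⟨?_, ?_⟩
    · rw [e1]
      have h3 : (1 - C d * X ^ 2 : F[X]).natDegree = (C d * X ^ 2 : F[X]).natDegree := by
        apply natDegree_sub_eq_right_of_natDegree_lt
        rw [natDegree_one, natDegree_C_mul_X_pow _ _ hd]
        exact two_pos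
      rw [h3, natDegree_C_mul_X_pow _ _ hd, pow_one]
    · rw [e2, natDegree_C_mul_X _ h2i]
      norm_num
  | succ n ih =>
    obtain ⟨h3, h4⟩ := ih
    refine ⟨?_, ?_⟩
    · rw [de_succ]
      have h5 : (C d * nu i d (n + 1) ^ 2).natDegree < (de i d (n + 1) ^ 2).natDegree := by
        rw [natDegree_C_mul hd, natDegree_pow, natDegree_pow, h3]
        omega
      rw [natDegree_sub_eq_left_of_natDegree_lt h5, natDegree_pow, h3]
      ring
    · rw [nu_succ]
      have h5 : (C (2 * i) * nu i d (n + 1) * de i d (n + 1)).natDegree ≤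
          (nu i d (n + 1)).natDegree + (de i d (n + 1)).natDegree := by
        refine natDegree_mul_le.trans ?_
        rw [natDegree_C_mul h2i]
      refine lt_of_le_of_lt h5 ?_
      rw [h3, pow_succ 2 (n + 1)]
      omega

end pol

section vals

variable {F E : Type*} [Field F] [Field E] [Algebra F E] {i d : F}

/-- the values of the polynomials -/
theorem de_val (h2 : (2 : F) ≠ 0) (hi : i ≠ 0) {y : ℕ → E} {m : ℕ}
    (hy : ∀ j, j < m → y (j + 1) * (1 - algebraMap F E d * y j ^ 2) = 2 * algebraMap F E i * y j)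
    (j : ℕ) (hj : j ≤ m) :
    aeval (y 0) (de i d j) ≠ 0 ∧ y j * aeval (y 0) (de i d j) = aeval (y 0) (nu i d j) := by
  have h2E : (2 : E) ≠ 0 := by
    have h3 : (2 : E) = algebraMap F E 2 := by rw [map_ofNat]
    rw [h3]
    exact (_root_.map_ne_zero _).2 h2
  have hiE : algebraMap F E i ≠ 0 := (_root_.map_ne_zero _).2 hi
  have hfac : ∀ j, j < m → 1 - algebraMap F E d * y j ^ 2 ≠ 0 := by
    intro j hj h0
    have h3 := hy j hj
    rw [h0, mul_zero] at h3
    have h4 : y j = 0 := by
      rcases mul_eq_zero.1 h3.symm with h5 | h5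
      · exact absurd h5 (mul_ne_zero h2E hiE)
      · exact h5
    rw [h4] at h0
    simp at h0
  induction j with
  | zero =>
    rw [de_zero, nu_zero, map_one, aeval_X, mul_one]
    exact ⟨one_ne_zero, rfl⟩
  | succ j ih =>
    obtain ⟨h3, h4⟩ := ih (by omega)
    have h5 : aeval (y 0) (de i d (j + 1)) =
        aeval (y 0) (de i d j) ^ 2 * (1 - algebraMap F E d * y j ^ 2) := by
      rw [de_succ, map_sub, map_mul, map_pow, map_pow, aeval_C, ← h4]
      ring
    refine ⟨?_, ?_⟩
    · rw [h5]
      exact mul_ne_zero (pow_ne_zero 2 h3) (hfac j (by omega))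
    · rw [h5, nu_succ, map_mul, map_mul, aeval_C, map_mul, map_ofNat, ← h4]
      linear_combination (aeval (y 0) (de i d j)) ^ 2 * hy j (by omega)

/-- the values of the polynomials are units -/
theorem de_unit {Γ : Type*} [LinearOrderedCommGroupWithZero Γ] (v : Valuation E Γ)
    (h2 : v 2 = 1) (hi : v (algebraMap F E i) = 1) (hd : v (algebraMap F E d) = 1) {y : ℕ → E}
    {m : ℕ}
    (hy : ∀ j, j < m → y (j + 1) * (1 - algebraMap F E d * y j ^ 2) = 2 * algebraMap F E i * y j)
    (hv : ∀ j, j ≤ m → v (y j) ≤ 1) (h2F : (2 : F) ≠ 0) (hiF : i ≠ 0) (j : ℕ) (hj : j ≤ m) :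
    v (aeval (y 0) (de i d j)) = 1 := by
  have hfac : ∀ j, j < m → v (1 - algebraMap F E d * y j ^ 2) = 1 := by
    intro j hj
    have h3 : v (algebraMap F E d * y j ^ 2) ≤ 1 := by
      rw [map_mul, hd, one_mul, map_pow]
      exact pow_le_one₀ zero_le (hv j hj.le)
    refine le_antisymm ?_ ?_
    · refine (v.map_sub _ _).trans (max_le (by rw [map_one]) h3)
    · by_contra hlt
      rw [not_le] at hlt
      have h4 : v (2 * algebraMap F E i * y j) < 1 := by
        rw [← hy j hj, map_mul, mul_comm]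
        exact mul_lt_one_of_lt_of_le hlt (hv _ hj)
      rw [map_mul, map_mul, h2, hi, one_mul, one_mul] at h4
      have h5 : v (algebraMap F E d * y j ^ 2) < 1 := by
        rw [map_mul, hd, one_mul, map_pow]
        exact pow_lt_one₀ zero_le h4 two_ne_zero
      have h6 : v (1 - algebraMap F E d * y j ^ 2) = v 1 := by
        apply Valuation.map_sub_eq_of_lt_left
        rw [map_one]
        exact h5
      rw [h6, map_one] at hlt
      exact lt_irrefl _ hlt
  induction j with
  | zero => rw [de_zero, map_one, map_one]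
  | succ j ih =>
    have h4 := (de_val (i := i) (d := d) h2F hiF hy j (by omega)).2
    have h5 : aeval (y 0) (de i d (j + 1)) =
        aeval (y 0) (de i d j) ^ 2 * (1 - algebraMap F E d * y j ^ 2) := by
      rw [de_succ, map_sub, map_mul, map_pow, map_pow, aeval_C, ← h4]
      ring
    rw [h5, map_mul, map_pow, ih (by omega), one_pow, one_mul, hfac j (by omega)]

end vals

section enough

universe u

/-- a copy of the rational numbers -/
theorem rat_copy (Q : Type u) [Field Q] (e : Q ≃+* ℚ) : ∃ (_ : NumberField Q),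
    Fintype.card (InfinitePlace Q) = 1 ∧ ∀ (F : Type u) [Field F] [NumberField F],
      ∃ (_ : Algebra Q F), Module.finrank Q F = Module.finrank ℚ F := by
  have hnf : NumberField Q := NumberField.of_ringEquiv ℚ Q e.symm
  have hfr : Module.finrank ℚ Q = 1 := by
    have h1 := LinearEquiv.finrank_eq (R := ℚ) ((e.toRatAlgEquiv).toLinearEquiv)
    rw [h1, Module.finrank_self]
  refine ⟨hnf, ?_, fun F _ _ => ?_⟩
  · have h1 := InfinitePlace.card_add_two_mul_card_eq_rank Q
    have h2 := InfinitePlace.card_eq_nrRealPlaces_add_nrComplexPlaces Q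
    rw [hfr] at h1
    omega
  · let e' : Q →+* F := (algebraMap ℚ F).comp (e : Q →+* ℚ)
    let hA : Algebra Q F := e'.toAlgebra
    refine ⟨hA, ?_⟩
    have hsc : IsScalarTower ℚ Q F := IsScalarTower.of_algebraMap_eq fun a => by
      rw [eq_ratCast]
      have h1 : algebraMap ℚ Q a = (a : Q) := eq_ratCast _ a
      rw [h1]
      exact (map_ratCast e' a).symm
    have h1 := Module.finrank_mul_finrank ℚ Q F
    rw [hfr, one_mul] at h1
    exact h1

theorem exists_rat : ∃ (Q : Type u) (_ : Field Q) (_ : NumberField Q),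
    Fintype.card (InfinitePlace Q) = 1 ∧ ∀ (F : Type u) [Field F] [NumberField F],
      ∃ (_ : Algebra Q F), Module.finrank Q F = Module.finrank ℚ F := by
  obtain ⟨h1, h2⟩ := rat_copy (ULift.{u} ℚ) ULift.ringEquiv
  exact ⟨ULift.{u} ℚ, inferInstance, h1, h2⟩

/-- **The zeros of the denominators are sufficiently many.** -/
theorem enough {F : Type u} [Field F] [NumberField F] {i d : F} (hi : i ≠ 0) (hd : d ≠ 0) :
    GU.EnoughPoints.{u, u} F ∅ fun j : Fin (Module.finrank ℚ F) => de i d (j + 1) := by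
  obtain ⟨Q, hQ1, hQ2, hcard, hQ⟩ := exists_rat.{u}
  obtain ⟨hQF, hfr⟩ := hQ F
  refine ⟨F, inferInstance, inferInstance, inferInstance, Or.inl ⟨Q, hQ1, hQ2, hQF, ∅,
    Module.finrank ℚ F, fun j => de i d (j + 1), ?_, ?_, ?_, ?_, ?_⟩⟩
  · rintro w ⟨v, hv, -⟩
    simp at hv
  · intro j
    refine ⟨?_, j, ?_⟩
    · rw [(deg_nd two_ne_zero hi hd j).1]
      positivity
    · rw [show algebraMap F F = RingHom.id F from rfl, Polynomial.map_id]
  · intro j j' hjj
    exact de_coprime two_ne_zero hi hd fun h => hjj (Fin.ext (by omega))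
  · rw [Finset.card_empty, add_zero, hcard]
    exact one_le_two
  · rw [Finset.card_empty, add_zero, hcard, one_mul, hfr]

end enough

end Pool.Agent.Lib.MP_2f3286_ag.UA
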