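import Pool.Agent.Lib.MP_2f3286_ag.UA.PDefs

/-!
# P01: first properties of `DI`; Gauss sums with the same quotient

`IsRB R b`: `b` is symmetric and `b (r • x) y = b x (r • y)`. `DI b I L` in PDefs.
`DI_le`: for `x, y` in `L`: `2 b x y = b (x + y) (x + y) - b x x - b y y`; take `n = 0`, `r • x ∈ L`.
`DI_smul`: `2 b (r • y) x = 2 b y (r • x)`; `r' • r • y = r • r' • y`.
`GOK_DI`: the fields of `GOK` (GSum); `2 * b x y = 2 * b y x` is an integer for `x` in `L`, `y` in `DI`.
`GS_iso`: `E ⊓ L = L''`, `E ⊔ L = D`: a transversal of `L''` in `E` (`exists_trv`) is a transversal of `L` in `D`; use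
`GS_eq_sum` twice. (For `y = e + l`: `y - t ∈ L` iff `e - t ∈ L` iff `e - t ∈ L''`.)
-/

namespace Pool.Agent.Lib.MP_2f3286_ag.UA

section
variable {R V : Type*} [CommRing R] [AddCommGroup V] [Module R V] {b : V →+ V →+ ℚ}

theorem DI_le (hb : IsRB R b) {L : Submodule R V} (hL : ∀ x ∈ L, IsZ (b x x)) (I : Ideal R) :
    L.toAddSubgroup ≤ DI b I L := by
  intro x hx
  have hx' : x ∈ L := hx
  refine ⟨?_, 0, fun r _ => L.smul_mem r hx'⟩
  intro y hy
  have h1 := ((hL _ (L.add_mem hx' hy)).sub (hL x hx')).sub (hL y hy)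
  have h2 : b (x + y) (x + y) - b x x - b y y = 2 * b x y := by
    simp only [map_add, AddMonoidHom.add_apply]
    rw [hb.symm y x]
    ring
  rwa [h2] at h1

theorem DI_smul (hb : IsRB R b) {I : Ideal R} {L : Submodule R V} (r : R) {y : V}
    (hy : y ∈ DI b I L) : r • y ∈ DI b I L := by
  obtain ⟨h1, n, h2⟩ := hy
  refine ⟨?_, n, ?_⟩
  · intro x hx
    rw [hb.smul]
    exact h1 _ (L.smul_mem r hx)
  · intro s hs
    rw [smul_comm]
    exact L.smul_mem r (h2 s hs)

theorem GOK_DI (hb : IsRB R b) {L : Submodule R V} (hL : ∀ x ∈ L, IsZ (b x x)) (I : Ideal R)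
    (hfin : L.toAddSubgroup.relIndex (DI b I L) ≠ 0) : GOK b (DI b I L) L.toAddSubgroup := by
  refine ⟨DI_le hb hL I, hfin, hb.symm, fun x hx => hL x hx, ?_⟩
  intro x hx y hy
  rw [hb.symm]
  exact hy.1 x hx

end

theorem GS_iso {V : Type*} [AddCommGroup V] {b : V →+ V →+ ℚ} {E L'' L D : AddSubgroup V}
    (h : GOK b E L'') (h' : GOK b D L) (hinf : E ⊓ L = L'') (hsup : E ⊔ L = D) :
    GS b E L'' = GS b D L := by
  obtain ⟨T, hT⟩ := exists_trv E L'' h.fin
  have hT' : IsTrv D L T := by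
    constructor
    · intro t ht
      rw [← hsup]
      exact AddSubgroup.mem_sup_left (hT.1 t ht)
    · intro y hy
      rw [← hsup] at hy
      obtain ⟨e, he, l, hl, rfl⟩ := AddSubgroup.mem_sup.mp hy
      have key : ∀ t ∈ T, (e + l - t ∈ L ↔ e - t ∈ L'') := by
        intro t ht
        rw [← hinf]
        have h1 : e + l - t = (e - t) + l := by abel
        rw [h1]
        constructor
        · intro h2
          refine ⟨E.sub_mem he (hT.1 t ht), ?_⟩
          have h3 := L.sub_mem h2 hl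
          rwa [add_sub_cancel_right] at h3
        · intro h2
          exact L.add_mem h2.2 hl
      obtain ⟨t, ⟨ht, ht2⟩, hu⟩ := hT.2 e he
      refine ⟨t, ⟨ht, (key t ht).mpr ht2⟩, ?_⟩
      rintro u ⟨hu1, hu2⟩
      exact hu u ⟨hu1, (key u hu1).mp hu2⟩
  rw [GS_eq_sum h hT, GS_eq_sum h' hT']

end Pool.Agent.Lib.MP_2f3286_ag.UA
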