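import Pool.Agent.Lib.MP_2f3286_ag.UA.P01

/-!
# P02: (G4), change of the lattice

Text. `L' ≤ L`, `I` an ideal. Let `L'' = {x ∈ L : I ^ n x ⊆ L' for some n}` (a subgroup). For `x` in `L''` and `y` in `L'`:
`2 b x y` is an integer (both in `L`), so `L' ≤ L'' ≤ DI b I L'`, and `b x x` is an integer on `L''`. `G1` (GSum) with `D = DI b I L'`,
`L = L'`, `M = L''`, `M' = E := {y ∈ DI b I L' : ∀ x ∈ L'', IsZ (2 b y x)}` gives
`GS b (DI b I L') L' = (L'.relIndex L'') * GS b E L''`, and the relative index is not zero.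
CLAIM: `E ≤ DI b I L`. `y ∈ E`, `I ^ n y ⊆ L'` (so `⊆ L`). Let `x ∈ L`; `α + β = 1` from `hco n`; `β • x ∈ L''`. Then
`2 b y x = 2 b (α • y) x + 2 b y (β • x)`; `α • y ∈ L' ≤ L` so the first term is an integer; the second as `y ∈ E`.
`E ⊓ L = L''`: `y ∈ E ⊓ L` is in `DI b I L'` and in `L`, so in `L''`; conversely `L'' ≤ E` (2 b integral on `L`), `L'' ≤ L`.
`E ⊔ L = DI b I L`: `y ∈ DI b I L`, `I ^ n y ⊆ L`, `α + β = 1` from `hco n`; `α • y ∈ L`; `β • y ∈ E`: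
 * `β • y` in `DI b I L'`: for `x ∈ L' ≤ L`: `2 b (β • y) x = 2 b y (β • x)`, `β • x ∈ L`, an integer;
   `I ^ (m + n) (β • y) ⊆ L'` for some `m`: here we need ONE `m` for all elements of `I ^ n`: this is the hypothesis `hco` with its
   uniform `m` (`∃ m, ∀ x ∈ L, ∀ r ∈ I ^ m, r • β • x ∈ L'`): for `s ∈ I ^ n`, `r ∈ I ^ m`: `(r * s) • β • y = r • β • (s • y)`,
   `s • y ∈ L`; the elements `r * s` generate `I ^ (m + n)` (`Submodule.mul_induction_on`, `pow_add`);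
 * for `x ∈ L''`: `2 b (β • y) x = 2 b y (β • x)`, `β • x ∈ L`, an integer.
Then `GS_iso` (P01): `GS b E L'' = GS b (DI b I L) L`.
-/

namespace Pool.Agent.Lib.MP_2f3286_ag.UA

theorem G4 {R V : Type*} [CommRing R] [AddCommGroup V] [Module R V] {b : V →+ V →+ ℚ}
    (hb : IsRB R b) {L' L : Submodule R V} (hL : ∀ x ∈ L, IsZ (b x x)) (hle : L' ≤ L) (I : Ideal R)
    (hco : ∀ n : ℕ, ∃ α ∈ I ^ n, ∃ β : R, α + β = 1 ∧
      ∃ m : ℕ, ∀ x ∈ L, ∀ r ∈ I ^ m, r • β • x ∈ L')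
    (hfin' : L'.toAddSubgroup.relIndex (DI b I L') ≠ 0)
    (hfin : L.toAddSubgroup.relIndex (DI b I L) ≠ 0) :
    ∃ n : ℕ, 0 < n ∧ GS b (DI b I L') L'.toAddSubgroup = n * GS b (DI b I L) L.toAddSubgroup := by
  have h2 : ∀ x ∈ L, ∀ y ∈ L, IsZ (2 * b x y) := by
    intro x hx y hy
    exact (DI_le hb hL I hx).1 y hy
  have hL' : ∀ x ∈ L', IsZ (b x x) := fun x hx => hL x (hle hx)
  let M : AddSubgroup V :=
    { carrier := {x | x ∈ L ∧ ∃ n : ℕ, ∀ r ∈ I ^ n, r • x ∈ L'}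
      zero_mem' := ⟨L.zero_mem, 0, fun r _ => by rw [smul_zero]; exact L'.zero_mem⟩
      add_mem' := by
        rintro x y ⟨hx, n, hn⟩ ⟨hy, m, hm⟩
        refine ⟨L.add_mem hx hy, max n m, ?_⟩
        intro r hr
        rw [smul_add]
        exact L'.add_mem (hn r (Ideal.pow_le_pow_right (le_max_left _ _) hr))
          (hm r (Ideal.pow_le_pow_right (le_max_right _ _) hr))
      neg_mem' := by
        rintro x ⟨hx, n, hn⟩
        refine ⟨L.neg_mem hx, n, ?_⟩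
        intro r hr
        rw [smul_neg]
        exact L'.neg_mem (hn r hr) }
  have hM : ∀ x, x ∈ M ↔ x ∈ L ∧ ∃ n : ℕ, ∀ r ∈ I ^ n, r • x ∈ L' := fun x => Iff.rfl
  have hL'M : L'.toAddSubgroup ≤ M := by
    intro x hx
    have hx' : x ∈ L' := hx
    exact ⟨hle hx', 0, fun r _ => L'.smul_mem r hx'⟩
  have hMD : M ≤ DI b I L' := by
    intro x hx
    obtain ⟨h3, n, h4⟩ := (hM x).mp hx
    exact ⟨fun y hy => h2 x h3 y (hle hy), n, h4⟩
  have hMq : ∀ x ∈ M, IsZ (b x x) := fun x hx => hL x hx.1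
  let E : AddSubgroup V :=
    { carrier := {y | y ∈ DI b I L' ∧ ∀ x ∈ M, IsZ (2 * b y x)}
      zero_mem' := ⟨(DI b I L').zero_mem, fun x _ => by simpa using IsZ.zero⟩
      add_mem' := by
        rintro x y ⟨hx, hx2⟩ ⟨hy, hy2⟩
        refine ⟨(DI b I L').add_mem hx hy, ?_⟩
        intro z hz
        rw [map_add, AddMonoidHom.add_apply, mul_add]
        exact (hx2 z hz).add (hy2 z hz)
      neg_mem' := by
        rintro x ⟨hx, hx2⟩
        refine ⟨(DI b I L').neg_mem hx, ?_⟩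
        intro z hz
        rw [map_neg, AddMonoidHom.neg_apply, mul_neg]
        exact (hx2 z hz).neg }
  have hE : ∀ y, y ∈ E ↔ y ∈ DI b I L' ∧ ∀ x ∈ M, IsZ (2 * b y x) := fun y => Iff.rfl
  obtain ⟨hME, hED, hri, hGE, hGS⟩ := G1 (GOK_DI hb hL' I hfin') hL'M hMD hMq hE
  refine ⟨L'.toAddSubgroup.relIndex M, Nat.pos_of_ne_zero hri, ?_⟩
  rw [hGS]
  congr 1
  have hβM : ∀ n : ℕ, ∃ α ∈ I ^ n, ∃ β : R, α + β = 1 ∧ (∀ x ∈ L, β • x ∈ M) ∧
      ∃ m : ℕ, ∀ x ∈ L, ∀ r ∈ I ^ m, r • β • x ∈ L' := by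
    intro n
    obtain ⟨α, hα, β, hαβ, m, hm⟩ := hco n
    exact ⟨α, hα, β, hαβ, fun x hx => ⟨L.smul_mem β hx, m, hm x hx⟩, m, hm⟩
  have hEL : E ≤ DI b I L := by
    intro y hy
    obtain ⟨⟨h3, n, h4⟩, h5⟩ := (hE y).mp hy
    refine ⟨?_, n, fun r hr => hle (h4 r hr)⟩
    intro x hx
    obtain ⟨α, hα, β, hαβ, h6, -⟩ := hβM n
    have h7 : y = α • y + β • y := by rw [← add_smul, hαβ, one_smul]
    have h8 : 2 * b y x = 2 * b (α • y) x + 2 * b y (β • x) := by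
      rw [← hb.smul β y x, ← mul_add, ← AddMonoidHom.add_apply, ← map_add, ← h7]
    rw [h8]
    exact (h2 _ (hle (h4 α hα)) x hx).add (h5 _ (h6 x hx))
  refine GS_iso hGE (GOK_DI hb hL I hfin) ?_ ?_
  · ext y
    constructor
    · rintro ⟨h3, h4⟩
      have h4' : y ∈ L := h4
      obtain ⟨⟨-, n, h5⟩, -⟩ := (hE y).mp h3
      exact ⟨h4', n, h5⟩
    · intro h3
      exact ⟨hME h3, h3.1⟩
  · apply le_antisymm
    · exact sup_le hEL (DI_le hb hL I)
    · intro y hy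
      obtain ⟨h3, n, h4⟩ := hy
      obtain ⟨α, hα, β, hαβ, h6, m, hm⟩ := hβM n
      have h7 : y = β • y + α • y := by rw [← add_smul, add_comm β α, hαβ, one_smul]
      rw [h7]
      refine AddSubgroup.add_mem_sup ?_ (h4 α hα)
      rw [hE]
      refine ⟨⟨?_, m + n, ?_⟩, ?_⟩
      · intro x hx
        rw [hb.smul]
        exact h3 _ (L.smul_mem β (hle hx))
      · intro r hr
        rw [pow_add] at hr
        refine Submodule.mul_induction_on hr ?_ ?_
        · intro p hp q hq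
          have h8 : (p * q) • β • y = p • β • (q • y) := by
            rw [mul_smul, smul_comm q β y]
          rw [h8]
          exact hm _ (h4 q hq) p hp
        · intro p q hp hq
          rw [add_smul]
          exact L'.add_mem hp hq
      · intro x hx
        rw [hb.smul]
        exact h3 _ (L.smul_mem β hx.1)

end Pool.Agent.Lib.MP_2f3286_ag.UA
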