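import Pool.Agent.Lib.MP_2f3286_ag.UA.P01

/-!
# P03: (G5), coprime ideals

Text. Apply `G2` (GSum) to `D1 = DI b I L`, `D2 = DI b J L`. For every `n` there are `α ∈ I ^ n`, `β ∈ J ^ n`, `α + β = 1`
(`IsCoprime.pow`). `D1 ⊓ D2 = L`: `y = α y + β y`. Cross terms: `y ∈ D1`, `y' ∈ D2`, `I ^ n y ⊆ L`, `J ^ n y' ⊆ L` (take the maximum of the
exponents): `2 b y y' = 2 b (α y) y' + 2 b y (β y')`, both terms integers (`α y ∈ L`, `y' ∈ D2`; `β y' ∈ L`, `y ∈ D1`).
`D1 ⊔ D2 = DI b (I * J) L`: `≤`: `(I * J) ^ n ≤ I ^ n`; `≥`: `(I J) ^ n y ⊆ L`: `y = α y + β y`, `α y ∈ D2`: for `s ∈ J ^ n`,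
`s α y ∈ L` as `s α ∈ (I J) ^ n` (`mul_pow`); the integrality by `DI_smul`. Finiteness of `D1 / L`: `D1 ≤ DI b (I * J) L` and
`AddSubgroup.relIndex_ne_zero_trans`-like lemmas (`relIndex` of `L` in a smaller group).
-/

namespace Pool.Agent.Lib.MP_2f3286_ag.UA

theorem relIndex_mono {V : Type*} [AddCommGroup V] {L D D' : AddSubgroup V} (h : D ≤ D')
    (h0 : L.relIndex D' ≠ 0) : L.relIndex D ≠ 0 :=
  fun h1 => h0 (AddSubgroup.relIndex_eq_zero_of_le_right h h1)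

private theorem p03_sub {R V : Type*} [CommRing R] [AddCommGroup V] [Module R V]
    {b : V →+ V →+ ℚ} {L : Submodule R V} {I J : Ideal R} (h : ∀ n : ℕ, J ^ n ≤ I ^ n) :
    DI b I L ≤ DI b J L := by
  intro y hy
  obtain ⟨h1, n, h2⟩ := mem_DI.mp hy
  exact mem_DI.mpr ⟨h1, n, fun r hr => h2 r (h n hr)⟩

private theorem p03_cop {R : Type*} [CommRing R] {I J : Ideal R} (hIJ : IsCoprime I J) (n : ℕ) :
    ∃ α ∈ I ^ n, ∃ β ∈ J ^ n, α + β = 1 := by
  have h1 : IsCoprime (I ^ n) (J ^ n) := hIJ.pow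
  rw [Ideal.isCoprime_iff_exists] at h1
  obtain ⟨α, hα, β, hβ, h2⟩ := h1
  exact ⟨α, hα, β, hβ, h2⟩

theorem G5 {R V : Type*} [CommRing R] [AddCommGroup V] [Module R V] {b : V →+ V →+ ℚ}
    (hb : IsRB R b) {L : Submodule R V} (hL : ∀ x ∈ L, IsZ (b x x)) {I J : Ideal R}
    (hIJ : IsCoprime I J) (hfin : L.toAddSubgroup.relIndex (DI b (I * J) L) ≠ 0) :
    GS b (DI b (I * J) L) L.toAddSubgroup =
      GS b (DI b I L) L.toAddSubgroup * GS b (DI b J L) L.toAddSubgroup := by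
  have hI : DI b I L ≤ DI b (I * J) L := p03_sub fun n => by
    rw [mul_pow]
    exact (Ideal.mul_le_left : I ^ n * J ^ n ≤ I ^ n)
  have hJ : DI b J L ≤ DI b (I * J) L := p03_sub fun n => by
    rw [mul_pow]
    exact (Ideal.mul_le_right : I ^ n * J ^ n ≤ J ^ n)
  have g1 : GOK b (DI b I L) L.toAddSubgroup := GOK_DI hb hL I (relIndex_mono hI hfin)
  have g2 : GOK b (DI b J L) L.toAddSubgroup := GOK_DI hb hL J (relIndex_mono hJ hfin)
  have hinf : DI b I L ⊓ DI b J L = L.toAddSubgroup := by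
    apply le_antisymm
    · rintro y ⟨hy1, hy2⟩
      obtain ⟨-, n, hn⟩ := mem_DI.mp hy1
      obtain ⟨-, n', hn'⟩ := mem_DI.mp hy2
      obtain ⟨α, hα, β, hβ, hαβ⟩ := p03_cop hIJ (max n n')
      have h1 : α • y ∈ L := hn α (Ideal.pow_le_pow_right (le_max_left _ _) hα)
      have h2 : β • y ∈ L := hn' β (Ideal.pow_le_pow_right (le_max_right _ _) hβ)
      have h3 : y = α • y + β • y := by rw [← add_smul, hαβ, one_smul]
      show y ∈ L
      rw [h3]
      exact L.add_mem h1 h2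
    · exact le_inf g1.le g2.le
  have hcross : ∀ x ∈ DI b I L, ∀ y ∈ DI b J L, IsZ (2 * b x y) := by
    intro x hx y hy
    obtain ⟨hx1, n, hn⟩ := mem_DI.mp hx
    obtain ⟨hy1, n', hn'⟩ := mem_DI.mp hy
    obtain ⟨α, hα, β, hβ, hαβ⟩ := p03_cop hIJ (max n n')
    have h1 : α • x ∈ L := hn α (Ideal.pow_le_pow_right (le_max_left _ _) hα)
    have h2 : β • y ∈ L := hn' β (Ideal.pow_le_pow_right (le_max_right _ _) hβ)
    have h3 : 2 * b x y = 2 * b y (α • x) + 2 * b x (β • y) := by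
      have h4 : b x y = b (α • x) y + b x (β • y) := by
        rw [← hb.smul β x y, ← AddMonoidHom.add_apply, ← map_add, ← add_smul, hαβ, one_smul]
      rw [h4, hb.symm (α • x) y]
      ring
    rw [h3]
    exact (hy1 _ h1).add (hx1 _ h2)
  have hsup : DI b I L ⊔ DI b J L = DI b (I * J) L := by
    apply le_antisymm (sup_le hI hJ)
    intro y hy
    obtain ⟨-, n, hn⟩ := mem_DI.mp hy
    obtain ⟨α, hα, β, hβ, hαβ⟩ := p03_cop hIJ n
    have h3 : y = β • y + α • y := by rw [← add_smul, add_comm β α, hαβ, one_smul]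
    rw [h3]
    apply AddSubgroup.add_mem_sup
    · refine mem_DI.mpr ⟨(mem_DI.mp (DI_smul hb β hy)).1, n, fun s hs => ?_⟩
      rw [smul_smul]
      apply hn
      rw [mul_pow]
      exact Ideal.mul_mem_mul hs hβ
    · refine mem_DI.mpr ⟨(mem_DI.mp (DI_smul hb α hy)).1, n, fun s hs => ?_⟩
      rw [smul_smul, mul_comm]
      apply hn
      rw [mul_pow]
      exact Ideal.mul_mem_mul hα hs
  rw [← hsup]
  exact (G2 g1 g2 hinf hcross).2

end Pool.Agent.Lib.MP_2f3286_ag.UA
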