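import Mathlib

/-!
# P04: the part of an element prime to an ideal (Dedekind domains)

Text. Let `Q` be the set of ideals `B` with `a ∈ B` and `∃ q, ∀ r ∈ I ^ q, ∀ s ∈ B, a ∣ r * s`. `Ideal.span {a}` is in `Q` (`q = 0`).
`R` is Noetherian: let `B` be a maximal element of `Q` (`set_has_maximal_iff_noetherian` / `WellFoundedGT`). CLAIM: `I ⊔ B = ⊤`. Otherwise
there is a maximal ideal `P ≥ I ⊔ B` (`Ideal.exists_le_maximal`). `B ≤ P`, so `B = P * B'` (`Ideal.dvd_iff_le`). `B ≤ B'`, `a ∈ B'`; for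
`r ∈ I ^ (q + 1)`, `s ∈ B'`: `r * s` is a sum of terms `r₁ * (r₂ * s)` with `r₁ ∈ I ^ q`, `r₂ ∈ I ≤ P`, `r₂ s ∈ P B' = B`, all divisible by `a`
(`pow_succ`, `Submodule.mul_induction_on`). So `B' ∈ Q`, `B' = B`, `B = P * B`; as `B ≠ 0` (`a ∈ B`), `P = 1` (cancel), a contradiction.
`co_of_smul`: `B`, `q` from the first theorem; `I ^ n` and `B` are coprime (`IsCoprime.pow_left`): `α + β = 1`; for `r ∈ I ^ q`,
`r * β = a * t`, `r • β • x = t • a • x`.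
-/

namespace Pool.Agent.Lib.MP_2f3286_ag.UA

theorem exists_coprime_part {R : Type*} [CommRing R] [IsDedekindDomain R] (I : Ideal R) {a : R}
    (ha : a ≠ 0) : ∃ (B : Ideal R) (q : ℕ), IsCoprime I B ∧ a ∈ B ∧
      ∀ r ∈ I ^ q, ∀ s ∈ B, a ∣ r * s := by
  set Q : Set (Ideal R) := {B | a ∈ B ∧ ∃ q : ℕ, ∀ r ∈ I ^ q, ∀ s ∈ B, a ∣ r * s} with hQ
  have hne : Q.Nonempty := ⟨Ideal.span {a}, Ideal.mem_span_singleton_self a, 0, fun r _ s hs =>
    (Ideal.mem_span_singleton.mp hs).mul_left r⟩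
  obtain ⟨B, ⟨haB, q, hq⟩, hmax⟩ := set_has_maximal_iff_noetherian.mpr
    (inferInstance : IsNoetherian R R) Q hne
  refine ⟨B, q, ?_, haB, hq⟩
  rw [Ideal.isCoprime_iff_sup_eq]
  by_contra hcon
  obtain ⟨P, hP, hle⟩ := Ideal.exists_le_maximal (I ⊔ B) hcon
  have hIP : I ≤ P := le_sup_left.trans hle
  have hBP : B ≤ P := le_sup_right.trans hle
  obtain ⟨B', hB'⟩ := Ideal.dvd_iff_le.mpr hBP
  have hBB' : B ≤ B' := Ideal.dvd_iff_le.mp ⟨P, by rw [hB', mul_comm]⟩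
  have hmem : B' ∈ Q := by
    refine ⟨hBB' haB, q + 1, fun r hr s hs => ?_⟩
    rw [pow_succ] at hr
    refine Submodule.mul_induction_on hr (fun r₁ h₁ r₂ h₂ => ?_) (fun x y hx hy => ?_)
    · have h3 : r₂ * s ∈ B := by
        rw [hB']
        exact Ideal.mul_mem_mul (hIP h₂) hs
      have h4 := hq r₁ h₁ (r₂ * s) h3
      rwa [← mul_assoc] at h4
    · rw [add_mul]
      exact dvd_add hx hy
  have hnlt := hmax B' hmem
  have hEq : B' = B := by
    rcases lt_or_eq_of_le hBB' with h | h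
    · exact absurd h hnlt
    · exact h.symm
  rw [hEq] at hB'
  have hB0 : B ≠ 0 := by
    rintro rfl
    exact ha (by simpa using haB)
  have h1 : P = 1 := by
    have h2 : P * B = 1 * B := by rw [one_mul]; exact hB'.symm
    exact mul_right_cancel₀ hB0 h2
  exact hP.ne_top (by rw [h1]; exact Ideal.one_eq_top)

theorem co_of_smul {R V : Type*} [CommRing R] [IsDedekindDomain R] [AddCommGroup V] [Module R V]
    (I : Ideal R) {a : R} (ha : a ≠ 0) {L' L : Submodule R V} (h : ∀ x ∈ L, a • x ∈ L') (n : ℕ) :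
    ∃ α ∈ I ^ n, ∃ β : R, α + β = 1 ∧ ∃ m : ℕ, ∀ x ∈ L, ∀ r ∈ I ^ m, r • β • x ∈ L' := by
  obtain ⟨B, q, hco, -, hq⟩ := exists_coprime_part I ha
  obtain ⟨α, hα, β, hβ, hαβ⟩ := Ideal.isCoprime_iff_exists.mp (hco.pow_left (m := n))
  refine ⟨α, hα, β, hαβ, q, fun x hx r hr => ?_⟩
  obtain ⟨t, ht⟩ := hq r hr β hβ
  rw [smul_smul, ht, mul_comm, mul_smul]
  exact L'.smul_mem t (h x hx)

end Pool.Agent.Lib.MP_2f3286_ag.UA
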