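import Pool.Agent.Lib.MP_2f3286_ag.UA.PDefs

/-!
# P05: the dual of the trace form is finite over the integers

`exists_E`: the elements `y` with `Tr (y R) ⊆ ℤ` are multiplied into the integers by the discriminant
(`isIntegral_discr_mul_of_mem_traceDual`).
`relIndex_of_smul`: `y ↦ a y` is an additive homomorphism from `D` to the finite group `𝓞 k ⧸ a` with kernel contained in `ZL k`.
`GOK_DT`: `y ∈ DT`: `Tr (2 c y r)` is an integer for all integers `r`, so `E (2 c y)` is an integer of `k`; `relIndex_of_smul` for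
`a = 2 c E`. The other fields from `isZ_trace`, `bf_apply`.
-/

open NumberField

namespace Pool.Agent.Lib.MP_2f3286_ag.UA

variable {k : Type*} [Field k] [NumberField k]

theorem isZ_trace (r : 𝓞 k) : IsZ (Algebra.trace ℚ k (r : k)) :=
  ⟨Algebra.trace ℤ _ r, Algebra.coe_trace_int r⟩

variable (k) in
theorem exists_E : ∃ E : ℕ, 0 < E ∧ ∀ y : k, (∀ r : 𝓞 k, IsZ (Algebra.trace ℚ k (y * r))) →
    ∃ s : 𝓞 k, (s : k) = E * y := by
  refine ⟨(NumberField.discr k).natAbs, Int.natAbs_pos.2 (NumberField.discr_ne_zero k), fun y hy => ?_⟩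
  have h1 : y ∈ Submodule.traceDual ℤ ℚ (1 : Submodule (𝓞 k) k) := by
    rw [Submodule.mem_traceDual]
    intro a ha
    obtain ⟨r, rfl⟩ := Submodule.mem_one.1 ha
    obtain ⟨n, hn⟩ := hy r
    exact ⟨n, by rw [Algebra.traceForm_apply, eq_intCast]; exact hn⟩
  have h2 := isIntegral_discr_mul_of_mem_traceDual (A := ℤ) (1 : Submodule (𝓞 k) k)
    (b := NumberField.integralBasis k) (fun i => by
      rw [NumberField.integralBasis_apply]
      exact RingOfIntegers.isIntegral_coe _) (a := 1) (Submodule.one_le.1 le_rfl) h1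
  rw [← NumberField.coe_discr, Algebra.smul_def, mul_one, map_intCast] at h2
  have h3 : IsIntegral ℤ (((NumberField.discr k).natAbs : k) * y) := by
    rw [Nat.cast_natAbs]
    rcases abs_choice (NumberField.discr k) with h | h
    · rw [h]
      exact h2
    · rw [h, Int.cast_neg, neg_mul]
      exact h2.neg
  exact ⟨⟨_, h3⟩, rfl⟩

theorem relIndex_of_smul {a : 𝓞 k} (ha : a ≠ 0) (D : AddSubgroup k)
    (h : ∀ y ∈ D, ∃ s : 𝓞 k, (s : k) = a * y) : (ZL k).relIndex D ≠ 0 := by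
  choose f hf using h
  have hinj : ∀ s t : 𝓞 k, (s : k) = t → s = t := fun s t hst => RingOfIntegers.ext hst
  let F : D →+ (𝓞 k ⧸ Ideal.span {a}) := AddMonoidHom.mk'
    (fun y => Ideal.Quotient.mk _ (f y.1 y.2)) (fun y y' => by
      rw [← map_add]
      congr 1
      refine hinj _ _ ?_
      calc ((f (y + y').1 (y + y').2 : 𝓞 k) : k) = a * (y + y').1 := hf _ _
        _ = a * y.1 + a * y'.1 := by rw [AddSubgroup.coe_add]; ring
        _ = (f y.1 y.2 : k) + (f y'.1 y'.2 : k) := by rw [hf, hf]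
        _ = ((f y.1 y.2 + f y'.1 y'.2 : 𝓞 k) : k) := (map_add (algebraMap (𝓞 k) k) _ _).symm)
  have hne : Ideal.span {a} ≠ ⊥ := by
    rw [Ne, Ideal.span_singleton_eq_bot]
    exact ha
  have hfin : Finite (𝓞 k ⧸ Ideal.span {a}) := Ideal.finiteQuotientOfFreeOfNeBot _ hne
  have h1 : F.ker.FiniteIndex := AddSubgroup.finiteIndex_ker F
  have h2 : F.ker ≤ (ZL k).addSubgroupOf D := by
    intro y hy
    rw [AddMonoidHom.mem_ker] at hy
    have h3 : f y.1 y.2 ∈ Ideal.span {a} := Ideal.Quotient.eq_zero_iff_mem.1 hy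
    obtain ⟨t, ht⟩ := Ideal.mem_span_singleton.1 h3
    rw [AddSubgroup.mem_addSubgroupOf, mem_ZL]
    refine ⟨t, ?_⟩
    have h4 := hf y.1 y.2
    rw [ht] at h4
    push_cast at h4
    have h5 : (a : k) ≠ 0 := by
      intro h6
      exact ha (hinj _ _ (by rw [h6]; simp))
    exact mul_left_cancel₀ h5 h4
  exact (AddSubgroup.finiteIndex_of_le h2).index_ne_zero

theorem isZ_bf (c : 𝓞 k) : ∀ x ∈ RL k, IsZ (bf (c : k) x x) := by
  intro x hx
  obtain ⟨r, rfl⟩ := mem_RL.1 hx
  rw [bf_apply]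
  have h := isZ_trace (c * r * r)
  push_cast at h
  exact h

theorem GOK_DT (c : 𝓞 k) (hc : c ≠ 0) :
    GOK (bf (c : k)) (DT (bf (c : k)) (ZL k)) (ZL k) := by
  have hs : ∀ x y, bf (c : k) x y = bf (c : k) y x := (isRB_bf (c : k)).symm
  refine ⟨?_, ?_, hs, ?_, ?_⟩
  · intro x hx
    obtain ⟨r, rfl⟩ := mem_ZL.1 hx
    rw [mem_DT]
    intro y hy
    obtain ⟨r', rfl⟩ := mem_ZL.1 hy
    rw [bf_apply]
    have h := isZ_trace (c * r * r')
    push_cast at h
    exact (IsZ.nat 2).mul h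
  · obtain ⟨E, hE, h⟩ := exists_E k
    have hE' : (E : 𝓞 k) ≠ 0 := by exact_mod_cast hE.ne'
    have ha : (2 * c * (E : 𝓞 k)) ≠ 0 := mul_ne_zero (mul_ne_zero two_ne_zero hc) hE'
    refine relIndex_of_smul ha _ fun y hy => ?_
    rw [mem_DT] at hy
    obtain ⟨s, hs⟩ := h (2 * c * y) fun r => by
      have h1 := hy r (mem_ZL.2 ⟨r, rfl⟩)
      rw [bf_apply] at h1
      have h2 : (2 : ℚ) * Algebra.trace ℚ k (c * y * r) = Algebra.trace ℚ k (2 * c * y * r) := by
        rw [← smul_eq_mul, ← map_smul]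
        congr 1
        rw [Algebra.smul_def]
        simp only [map_ofNat]
        ring
      rwa [h2] at h1
    refine ⟨s, ?_⟩
    rw [hs]
    simp only [map_mul, map_natCast, map_ofNat]
    ring
  · exact isZ_bf c
  · intro x hx y hy
    rw [hs]
    exact mem_DT.1 hy x hx

end Pool.Agent.Lib.MP_2f3286_ag.UA
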