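import Pool.Agent.Lib.MP_2f3286_ag.UA.P01

/-!
# P06: orthogonal sums

Text. `bsum b1 b2 (x1, x2) (y1, y2) = b1 x1 y1 + b2 x2 y2`. `GS_prod`: transversals `T1`, `T2` (`exists_trv`), `T1 ×ˢ T2` is a transversal of
`L1.prod L2` in `D1.prod D2`; `GS_eq_sum` three times; `ee_add`, `Finset.sum_product`, `Finset.sum_mul_sum`.
`DI_bsum`: `2 (b1 y1 x1 + b2 y2 x2)` integral for all `(x1, x2)` in `L1.prod L2` iff both (put `x2 = 0`, `x1 = 0`);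
exponents: the maximum.
-/

namespace Pool.Agent.Lib.MP_2f3286_ag.UA

section
variable {V₁ V₂ : Type*} [AddCommGroup V₁] [AddCommGroup V₂]

/-- the orthogonal sum -/
def bsum (b₁ : V₁ →+ V₁ →+ ℚ) (b₂ : V₂ →+ V₂ →+ ℚ) : V₁ × V₂ →+ V₁ × V₂ →+ ℚ :=
  AddMonoidHom.mk' (fun x => (b₁ x.1).comp (AddMonoidHom.fst V₁ V₂) +
    (b₂ x.2).comp (AddMonoidHom.snd V₁ V₂)) (fun x x' => by
      apply AddMonoidHom.ext
      intro y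
      simp only [AddMonoidHom.add_apply, AddMonoidHom.comp_apply, Prod.fst_add, Prod.snd_add, map_add]
      ring)

lemma bsum_apply (b₁ : V₁ →+ V₁ →+ ℚ) (b₂ : V₂ →+ V₂ →+ ℚ) (x y : V₁ × V₂) :
    bsum b₁ b₂ x y = b₁ x.1 y.1 + b₂ x.2 y.2 := rfl

theorem GS_prod {b₁ : V₁ →+ V₁ →+ ℚ} {b₂ : V₂ →+ V₂ →+ ℚ} {D₁ L₁ : AddSubgroup V₁}
    {D₂ L₂ : AddSubgroup V₂} (h₁ : GOK b₁ D₁ L₁) (h₂ : GOK b₂ D₂ L₂) :
    GOK (bsum b₁ b₂) (D₁.prod D₂) (L₁.prod L₂) ∧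
      GS (bsum b₁ b₂) (D₁.prod D₂) (L₁.prod L₂) = GS b₁ D₁ L₁ * GS b₂ D₂ L₂ := by
  obtain ⟨T₁, hT₁⟩ := exists_trv D₁ L₁ h₁.fin
  obtain ⟨T₂, hT₂⟩ := exists_trv D₂ L₂ h₂.fin
  have hT : IsTrv (D₁.prod D₂) (L₁.prod L₂) (T₁ ×ˢ T₂) := by
    constructor
    · intro t ht
      rw [Finset.mem_product] at ht
      rw [AddSubgroup.mem_prod]
      exact ⟨hT₁.1 _ ht.1, hT₂.1 _ ht.2⟩
    · intro y hy
      rw [AddSubgroup.mem_prod] at hy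
      obtain ⟨t₁, ⟨ht₁, ht₁'⟩, hu₁⟩ := hT₁.2 y.1 hy.1
      obtain ⟨t₂, ⟨ht₂, ht₂'⟩, hu₂⟩ := hT₂.2 y.2 hy.2
      refine ⟨(t₁, t₂), ⟨Finset.mem_product.mpr ⟨ht₁, ht₂⟩, ?_⟩, ?_⟩
      · rw [AddSubgroup.mem_prod]
        exact ⟨ht₁', ht₂'⟩
      · rintro ⟨u₁, u₂⟩ ⟨h3, h4⟩
        rw [Finset.mem_product] at h3
        rw [AddSubgroup.mem_prod] at h4
        rw [hu₁ u₁ ⟨h3.1, h4.1⟩, hu₂ u₂ ⟨h3.2, h4.2⟩]
  have hG : GOK (bsum b₁ b₂) (D₁.prod D₂) (L₁.prod L₂) := by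
    refine ⟨AddSubgroup.prod_mono h₁.le h₂.le, hT.relIndex_ne_zero, ?_, ?_, ?_⟩
    · intro x y
      rw [bsum_apply, bsum_apply, h₁.symm, h₂.symm]
    · intro x hx
      rw [AddSubgroup.mem_prod] at hx
      rw [bsum_apply]
      exact (h₁.q _ hx.1).add (h₂.q _ hx.2)
    · intro x hx y hy
      rw [AddSubgroup.mem_prod] at hx hy
      rw [bsum_apply, mul_add]
      exact (h₁.c _ hx.1 _ hy.1).add (h₂.c _ hx.2 _ hy.2)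
  refine ⟨hG, ?_⟩
  rw [GS_eq_sum hG hT, GS_eq_sum h₁ hT₁, GS_eq_sum h₂ hT₂, Finset.sum_mul_sum,
    Finset.sum_product]
  refine Finset.sum_congr rfl fun x _ => Finset.sum_congr rfl fun y _ => ?_
  rw [bsum_apply, ee_add]

variable {R : Type*} [CommRing R] [Module R V₁] [Module R V₂]

theorem isRB_bsum {b₁ : V₁ →+ V₁ →+ ℚ} {b₂ : V₂ →+ V₂ →+ ℚ} (h₁ : IsRB R b₁) (h₂ : IsRB R b₂) :
    IsRB R (bsum b₁ b₂) := by
  refine ⟨fun x y => ?_, fun r x y => ?_⟩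
  · rw [bsum_apply, bsum_apply, h₁.symm, h₂.symm]
  · rw [bsum_apply, bsum_apply, Prod.smul_fst, Prod.smul_snd, Prod.smul_fst, Prod.smul_snd,
      h₁.smul, h₂.smul]

theorem DI_bsum (b₁ : V₁ →+ V₁ →+ ℚ) (b₂ : V₂ →+ V₂ →+ ℚ) (I : Ideal R) (L₁ : Submodule R V₁)
    (L₂ : Submodule R V₂) :
    DI (bsum b₁ b₂) I (L₁.prod L₂) = (DI b₁ I L₁).prod (DI b₂ I L₂) := by
  ext y
  rw [AddSubgroup.mem_prod, mem_DI, mem_DI, mem_DI]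
  constructor
  · rintro ⟨h1, n, h2⟩
    refine ⟨⟨fun x hx => ?_, n, fun r hr => ?_⟩, ⟨fun x hx => ?_, n, fun r hr => ?_⟩⟩
    · have h3 := h1 (x, 0) (Submodule.mem_prod.mpr ⟨hx, L₂.zero_mem⟩)
      rw [bsum_apply] at h3
      simpa using h3
    · exact (Submodule.mem_prod.mp (h2 r hr)).1
    · have h3 := h1 (0, x) (Submodule.mem_prod.mpr ⟨L₁.zero_mem, hx⟩)
      rw [bsum_apply] at h3
      simpa using h3
    · exact (Submodule.mem_prod.mp (h2 r hr)).2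
  · rintro ⟨⟨h1, n, h2⟩, ⟨h1', n', h2'⟩⟩
    refine ⟨fun x hx => ?_, max n n', fun r hr => ?_⟩
    · rw [Submodule.mem_prod] at hx
      rw [bsum_apply, mul_add]
      exact (h1 _ hx.1).add (h1' _ hx.2)
    · rw [Submodule.mem_prod]
      exact ⟨h2 r (Ideal.pow_le_pow_right (le_max_left _ _) hr),
        h2' r (Ideal.pow_le_pow_right (le_max_right _ _) hr)⟩

end

end Pool.Agent.Lib.MP_2f3286_ag.UA
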