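import Pool.Agent.Lib.MP_2f3286_ag.UA.P02
import Pool.Agent.Lib.MP_2f3286_ag.UA.P04
import Pool.Agent.Lib.MP_2f3286_ag.UA.P05

/-!
# P07: (G6), multiplication of `c` by a square

Text. `DI_le_DT`: forget the second condition. `GOK_gs`: `GOK_DI` (P01) with `isRB_bf`, `isZ_bf`; finiteness from `GOK_DT` (P05), `DI_le_DT`
(relative index in a smaller group: `relIndex_ne_zero_of_le` below).
`G6`: let `L' = s 𝓞 k` (`(RL k).map` of the multiplication, or `Submodule.span {s}`; `y ∈ L' ↔ ∃ r : 𝓞 k, y = s * r`). `φ : k →+ k`, `φ y = s y`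
(`AddMonoidHom.mulLeft`). `bf c (s x) (s y) = bf (c s ^ 2) x y`. `GS_map` (GSum) with `b = bf (c s ^ 2)`, `b' = bf c`, `D = DI (bf (c s ^ 2)) I (RL k)`:
`gs I (c s ^ 2) = GS (bf c) (D.map φ) (L'.toAddSubgroup)`, `D.map φ = DI (bf c) I L'` (if `y' ∈ DI (bf c) I L'` take `y = y' / s`).
Then `G4` (P02) for `L' ≤ RL k`, `hco` from `co_of_smul` (P04) with `a = s`; `hfin'` from the `GOK` of `GS_map`.
-/

open NumberField

namespace Pool.Agent.Lib.MP_2f3286_ag.UA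

theorem relIndex_ne_zero_of_le {V : Type*} [AddCommGroup V] {L D D' : AddSubgroup V} (h : D ≤ D')
    (h0 : L.relIndex D' ≠ 0) : L.relIndex D ≠ 0 :=
  fun h1 => h0 (AddSubgroup.relIndex_eq_zero_of_le_right h h1)

theorem DI_le_DT {R V : Type*} [CommRing R] [AddCommGroup V] [Module R V] (b : V →+ V →+ ℚ)
    (I : Ideal R) (L : Submodule R V) : DI b I L ≤ DT b L.toAddSubgroup :=
  fun _ hy x hx => hy.1 x hx

variable {k : Type*} [Field k] [NumberField k]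

theorem GOK_gs (I : Ideal (𝓞 k)) (c : 𝓞 k) (hc : c ≠ 0) :
    GOK (bf (c : k)) (DI (bf (c : k)) I (RL k)) (ZL k) :=
  GOK_DI (isRB_bf (c : k)) (isZ_bf c) I
    (relIndex_ne_zero_of_le (DI_le_DT _ I (RL k)) (GOK_DT c hc).fin)

theorem G6 (I : Ideal (𝓞 k)) (c s : 𝓞 k) (hc : c ≠ 0) (hs : s ≠ 0) :
    ∃ n : ℕ, 0 < n ∧ gs I (c * s ^ 2) = n * gs I c := by
  have hsk : (s : k) ≠ 0 := by
    intro h
    exact hs (RingOfIntegers.ext h)
  have hcs : c * s ^ 2 ≠ 0 := mul_ne_zero hc (pow_ne_zero 2 hs)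
  obtain ⟨L', hL'⟩ : ∃ L' : Submodule (𝓞 k) k, L' = Submodule.span (𝓞 k) {(s : k)} := ⟨_, rfl⟩
  have mL' : ∀ y, y ∈ L' ↔ ∃ r : 𝓞 k, (s : k) * r = y := by
    intro y
    rw [hL', Submodule.mem_span_singleton]
    constructor
    · rintro ⟨r, hr⟩
      refine ⟨r, ?_⟩
      rw [← hr, Algebra.smul_def, mul_comm]
    · rintro ⟨r, hr⟩
      refine ⟨r, ?_⟩
      rw [← hr, Algebra.smul_def, mul_comm]
  have key : ∀ x y : k, bf (c : k) ((s : k) * x) ((s : k) * y) =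
      bf ((c * s ^ 2 : 𝓞 k) : k) x y := by
    intro x y
    rw [bf_apply, bf_apply]
    congr 1
    push_cast
    ring
  obtain ⟨φ, hφ⟩ : ∃ φ : k →+ k, φ = AddMonoidHom.mulLeft (s : k) := ⟨_, rfl⟩
  have hφx : ∀ x, φ x = (s : k) * x := by
    intro x
    rw [hφ]
    rfl
  obtain ⟨h1, h2⟩ := GS_map (b' := bf (c : k)) (GOK_gs I (c * s ^ 2) hcs) φ
    (fun x _ y _ => by rw [hφx, hφx, key])
    (fun x _ hx => by
      rw [hφx] at hx
      exact (mul_eq_zero.mp hx).resolve_left hsk)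
    (isRB_bf (c : k)).symm
  have hmL : (ZL k).map φ = L'.toAddSubgroup := by
    ext y
    rw [AddSubgroup.mem_map, Submodule.mem_toAddSubgroup, mL']
    constructor
    · rintro ⟨x, hx, rfl⟩
      obtain ⟨r, rfl⟩ := mem_ZL.mp hx
      exact ⟨r, (hφx _).symm⟩
    · rintro ⟨r, rfl⟩
      exact ⟨(r : k), mem_ZL.mpr ⟨r, rfl⟩, hφx _⟩
  have hmD : (DI (bf ((c * s ^ 2 : 𝓞 k) : k)) I (RL k)).map φ = DI (bf (c : k)) I L' := by
    ext y
    rw [AddSubgroup.mem_map, mem_DI]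
    constructor
    · rintro ⟨x, hx, rfl⟩
      rw [mem_DI] at hx
      obtain ⟨h3, n, h4⟩ := hx
      refine ⟨fun z hz => ?_, n, fun r hr => ?_⟩
      · obtain ⟨t, rfl⟩ := (mL' z).mp hz
        rw [hφx, key]
        exact h3 _ (mem_RL.mpr ⟨t, rfl⟩)
      · obtain ⟨t, ht⟩ := mem_RL.mp (h4 r hr)
        rw [mL', hφx]
        refine ⟨t, ?_⟩
        rw [ht, mul_smul_comm]
    · rintro ⟨h3, n, h4⟩
      have hy : (s : k) * (y / s) = y := by field_simp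
      refine ⟨y / s, ?_, by rw [hφx, hy]⟩
      rw [mem_DI]
      refine ⟨fun z hz => ?_, n, fun r hr => ?_⟩
      · obtain ⟨t, rfl⟩ := mem_RL.mp hz
        rw [← key, hy]
        exact h3 _ ((mL' _).mpr ⟨t, rfl⟩)
      · obtain ⟨t, ht⟩ := (mL' _).mp (h4 r hr)
        rw [mem_RL]
        refine ⟨t, ?_⟩
        have h5 : (s : k) * (r • (y / s)) = (s : k) * t := by
          rw [mul_smul_comm, hy, ht]
        exact (mul_left_cancel₀ hsk h5).symm
  rw [hmD, hmL] at h1 h2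
  obtain ⟨n, hn, h3⟩ := G4 (isRB_bf (c : k)) (L' := L') (L := RL k) (isZ_bf c)
    (by
      intro y hy
      obtain ⟨r, rfl⟩ := (mL' y).mp hy
      exact mem_RL.mpr ⟨s * r, by push_cast; first | done | rfl⟩) I
    (co_of_smul I hs (by
      intro x hx
      obtain ⟨r, rfl⟩ := mem_RL.mp hx
      rw [mL']
      exact ⟨r, by rw [Algebra.smul_def]⟩)) h1.fin (GOK_gs I c hc).fin
  refine ⟨n, hn, ?_⟩
  have h4 : gs I (c * s ^ 2) = GS (bf (c : k)) (DI (bf (c : k)) I L') L'.toAddSubgroup := h2.symm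
  rw [h4, h3]
  rfl

end Pool.Agent.Lib.MP_2f3286_ag.UA
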