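import Pool.Agent.Lib.MP_2f3286_ag.UA.P07

/-!
# P08: (G8), the sums are real

Text. `i` is an integer of `k` (`i ^ 2 = -1`: `IsIntegral.of_pow`), `i' : 𝓞 k` with `(i' : k) = i`. `φ : k →+ k`, `φ y = i y`:
`bf c (i x) (i y) = bf (-c) x y`. `φ` maps `D = DI (bf (-c)) I (RL k)` onto `DI (bf c) I (RL k)` (`DI_smul` with `i'`; `y = i (-i y)`;
`DI (bf (-c)) I L = DI (bf c) I L` since `2 bf (-c) y x = - 2 bf c y x`) and `ZL k` onto itself. `GS_map` gives `gs I (-c) = gs I c`.
`GS_neg` (GSum): `gs I (-c) = conj (gs I c)`. So `gs I c` is real (`Complex.conj_eq_iff_real`).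
-/

open NumberField

namespace Pool.Agent.Lib.MP_2f3286_ag.UA

variable {k : Type*} [Field k] [NumberField k]

private theorem bf_neg (c : 𝓞 k) (x y : k) :
    bf (((-c : 𝓞 k)) : k) x y = - bf (c : k) x y := by
  rw [bf_apply, bf_apply, ← map_neg]
  congr 1
  push_cast
  ring

private theorem mulLeft_apply' {F : Type*} [Field F] (a x : F) : AddMonoidHom.mulLeft a x = a * x := rfl

private theorem DI_neg (I : Ideal (𝓞 k)) (c : 𝓞 k) :
    DI (bf (((-c : 𝓞 k)) : k)) I (RL k) = DI (bf (c : k)) I (RL k) := by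
  ext y
  rw [mem_DI, mem_DI]
  constructor
  · rintro ⟨h1, h2⟩
    refine ⟨fun x hx => ?_, h2⟩
    have h3 := (h1 x hx).neg
    rw [bf_neg] at h3
    have h4 : -(2 * -bf (c : k) y x) = 2 * bf (c : k) y x := by ring
    rwa [h4] at h3
  · rintro ⟨h1, h2⟩
    refine ⟨fun x hx => ?_, h2⟩
    have h3 := (h1 x hx).neg
    rw [bf_neg]
    have h4 : -(2 * bf (c : k) y x) = 2 * -bf (c : k) y x := by ring
    rwa [h4] at h3

theorem gs_neg (i : k) (hi : i ^ 2 = -1) (I : Ideal (𝓞 k)) (c : 𝓞 k) (hc : c ≠ 0) :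
    gs I (-c) = gs I c := by
  have hint : IsIntegral ℤ i := by
    refine IsIntegral.of_pow (n := 2) (by norm_num) ?_
    rw [hi]
    exact isIntegral_one.neg
  obtain ⟨i', hi'⟩ : ∃ i' : 𝓞 k, (i' : k) = i := ⟨⟨i, hint⟩, rfl⟩
  have hii : i * i = -1 := by rw [← sq, hi]
  have hi0 : i ≠ 0 := by
    rintro rfl
    rw [mul_zero] at hii
    exact absurd hii (by norm_num)
  have hnc : -c ≠ 0 := neg_ne_zero.2 hc
  have hsmul : ∀ y : k, i' • y = i * y := by
    intro y
    rw [Algebra.smul_def]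
    congr 1
  obtain ⟨h1, h2⟩ := GS_map (b' := bf (c : k)) (GOK_gs I (-c) hnc) (AddMonoidHom.mulLeft i)
    (by
      intro x _ y _
      rw [mulLeft_apply', mulLeft_apply', bf_neg, bf_apply, bf_apply,
        ← map_neg]
      congr 1
      linear_combination ((c : k) * x * y) * hii)
    (by
      intro x _ hx
      rw [mulLeft_apply'] at hx
      rcases mul_eq_zero.1 hx with h | h
      · exact absurd h hi0
      · exact h)
    (isRB_bf (c : k)).symm
  have e1 : (DI (bf (((-c : 𝓞 k)) : k)) I (RL k)).map (AddMonoidHom.mulLeft i) =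
      DI (bf (c : k)) I (RL k) := by
    rw [DI_neg]
    ext y
    rw [AddSubgroup.mem_map]
    constructor
    · rintro ⟨x, hx, rfl⟩
      rw [mulLeft_apply', ← hsmul]
      exact DI_smul (isRB_bf (c : k)) i' hx
    · intro hy
      refine ⟨-(i * y), ?_, ?_⟩
      · rw [← hsmul]
        exact AddSubgroup.neg_mem _ (DI_smul (isRB_bf (c : k)) i' hy)
      · rw [mulLeft_apply']
        linear_combination (-y) * hii
  have e2 : (ZL k).map (AddMonoidHom.mulLeft i) = ZL k := by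
    ext y
    rw [AddSubgroup.mem_map]
    constructor
    · rintro ⟨x, hx, rfl⟩
      obtain ⟨r, hr⟩ := mem_ZL.1 hx
      rw [mem_ZL]
      refine ⟨i' * r, ?_⟩
      rw [mulLeft_apply', ← hr, ← hi']
      push_cast
      rfl
    · intro hy
      obtain ⟨r, hr⟩ := mem_ZL.1 hy
      refine ⟨-(i * y), ?_, ?_⟩
      · rw [mem_ZL]
        refine ⟨-(i' * r), ?_⟩
        rw [← hr, ← hi']
        push_cast
        rfl
      · rw [mulLeft_apply']
        linear_combination (-y) * hii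
  rw [e1, e2] at h2
  exact h2.symm

theorem gs_real (i : k) (hi : i ^ 2 = -1) (I : Ideal (𝓞 k)) (c : 𝓞 k) (hc : c ≠ 0) :
    ∃ r : ℝ, gs I c = r := by
  obtain ⟨-, h1⟩ := GS_neg (b' := bf (((-c : 𝓞 k)) : k)) (GOK_gs I c hc) (fun x y => bf_neg c x y)
  have h2 := gs_neg i hi I c hc
  have h3 : gs I (-c) = starRingEnd ℂ (gs I c) := by
    unfold gs
    rw [DI_neg, h1]
  rw [h2] at h3
  exact Complex.conj_eq_iff_real.1 h3.symm

end Pool.Agent.Lib.MP_2f3286_ag.UA
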