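import Pool.Agent.Lib.MP_2f3286_ag.UA.P03
import Pool.Agent.Lib.MP_2f3286_ag.UA.P07
import Pool.Agent.Lib.MP_2f3286_ag.UA.G9

/-!
# P09: products over coprime ideals, total sum, nonvanishing

Text. `gs_mul`: `G5` (P03) with `isRB_bf`, `isZ_bf`, `GOK_gs`.
`gs_total`: `E` from `exists_E` (P05), `a = 2 c E`: for `y ∈ DT`: `Tr (2 c y r)` is an integer for all integers `r`, so `a y` is an integer. If
`a` divides all elements of `I ^ q`, then `I ^ q y ⊆ 𝓞 k`, so `DT ≤ DI`, `DI = DT` (`DI_le_DT`). Now `G9` and `GOK_DT`.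
`gs_ne_zero`: `a` from `gs_total`, `B`, `q` from `exists_coprime_part I` (P04): `(I * B) ^ (q + 1)` has all elements divisible by `a`
(`(I B) ^ (q + 1) ≤ I ^ q * B`, `Submodule.mul_induction_on`). So `gs I c * gs B c = gs (I * B) c` is positive.
`gs_total_finset`: `F` = the places containing `a` (finite: `Ideal.finite_factors` or `HeightOneSpectrum` supports). For `F ⊆ T`, `I = ∏ v ∈ T`:
`B`, `q` from `exists_coprime_part I`; if `B ≠ ⊤`, a maximal ideal `P ≥ B` contains `a`, `P ≠ ⊥`, so `P = v.asIdeal` with `v ∈ F ⊆ T`, so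
`I ≤ P`, a contradiction to coprime. So `B = ⊤` and `a` divides all elements of `I ^ q`.
-/

open NumberField IsDedekindDomain

namespace Pool.Agent.Lib.MP_2f3286_ag.UA

variable {k : Type*} [Field k] [NumberField k]

theorem gs_mul {I J : Ideal (𝓞 k)} (hIJ : IsCoprime I J) (c : 𝓞 k) (hc : c ≠ 0) :
    gs (I * J) c = gs I c * gs J c :=
  G5 (isRB_bf (c : k)) (isZ_bf c) hIJ (GOK_gs (I * J) c hc).fin

/-- the elements of the whole dual lattice become integers after multiplication by `a` -/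
private theorem p09_dual (c : 𝓞 k) (hc : c ≠ 0) : ∃ a : 𝓞 k, a ≠ 0 ∧
    ∀ y ∈ DT (bf (c : k)) (ZL k), ∃ s : 𝓞 k, (s : k) = a * y := by
  obtain ⟨E, hE, h⟩ := exists_E k
  refine ⟨2 * c * (E : 𝓞 k), ?_, ?_⟩
  · exact mul_ne_zero (mul_ne_zero two_ne_zero hc) (Nat.cast_ne_zero.2 hE.ne')
  · intro y hy
    obtain ⟨s, hs⟩ := h (2 * (c : k) * y) (by
      intro r
      have h1 := mem_DT.1 hy (r : k) (mem_ZL.2 ⟨r, rfl⟩)
      rw [bf_apply] at h1
      have h2 : Algebra.trace ℚ k (2 * (c : k) * y * r) = 2 * Algebra.trace ℚ k ((c : k) * y * r) := by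
        have h3 : (2 * (c : k) * y * r) = (c : k) * y * r + (c : k) * y * r := by ring
        rw [h3, map_add]
        ring
      rw [h2]
      exact h1)
    refine ⟨s, hs.trans ?_⟩
    have h4 : ((2 * c * (E : 𝓞 k) : 𝓞 k) : k) = 2 * (c : k) * (E : k) := by
      have h5 : algebraMap (𝓞 k) k (2 * c * (E : 𝓞 k)) = 2 * algebraMap (𝓞 k) k c * (E : k) := by
        rw [map_mul, map_mul, map_ofNat, map_natCast]
      exact h5
    rw [h4]
    ring

private theorem p09_eq (c : 𝓞 k) {a : 𝓞 k}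
    (ha : ∀ y ∈ DT (bf (c : k)) (ZL k), ∃ s : 𝓞 k, (s : k) = a * y) (I : Ideal (𝓞 k))
    (hI : ∃ q : ℕ, ∀ r ∈ I ^ q, a ∣ r) :
    DI (bf (c : k)) I (RL k) = DT (bf (c : k)) (ZL k) := by
  obtain ⟨q, hq⟩ := hI
  refine le_antisymm (DI_le_DT _ _ _) ?_
  intro y hy
  refine mem_DI.2 ⟨fun x hx => mem_DT.1 hy x hx, q, fun r hr => ?_⟩
  obtain ⟨s, hs⟩ := ha y hy
  obtain ⟨t, ht⟩ := hq r hr
  refine mem_RL.2 ⟨t * s, ?_⟩
  rw [Algebra.smul_def, ht]
  have h1 : ((t * s : 𝓞 k) : k) = (t : k) * (s : k) := map_mul (algebraMap (𝓞 k) k) t s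
  rw [h1, hs, map_mul]
  show (t : k) * ((a : k) * y) = (a : k) * (t : k) * y
  ring

private theorem p09_total (i : k) (hi : i ^ 2 = -1) (c : 𝓞 k) (hc : c ≠ 0) {a : 𝓞 k}
    (ha : ∀ y ∈ DT (bf (c : k)) (ZL k), ∃ s : 𝓞 k, (s : k) = a * y) (I : Ideal (𝓞 k))
    (hI : ∃ q : ℕ, ∀ r ∈ I ^ q, a ∣ r) : Pos (gs I c) := by
  unfold gs
  rw [p09_eq c ha I hI]
  exact G9 i hi c hc (GOK_DT c hc)

theorem gs_total (i : k) (hi : i ^ 2 = -1) (c : 𝓞 k) (hc : c ≠ 0) :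
    ∃ a : 𝓞 k, a ≠ 0 ∧ ∀ I : Ideal (𝓞 k), (∃ q : ℕ, ∀ r ∈ I ^ q, a ∣ r) → Pos (gs I c) := by
  obtain ⟨a, ha0, ha⟩ := p09_dual c hc
  exact ⟨a, ha0, fun I hI => p09_total i hi c hc ha I hI⟩

theorem gs_ne_zero (i : k) (hi : i ^ 2 = -1) (I : Ideal (𝓞 k)) (c : 𝓞 k) (hc : c ≠ 0) :
    gs I c ≠ 0 := by
  obtain ⟨a, ha0, ha⟩ := gs_total i hi c hc
  obtain ⟨B, q, hco, haB, hq⟩ := exists_coprime_part I ha0
  have h1 : Pos (gs (I * B) c) := by
    refine ha (I * B) ⟨q + 1, fun r hr => ?_⟩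
    have h2 : (I * B) ^ (q + 1) ≤ I ^ q * B := by
      rw [mul_pow, pow_succ B]
      calc I ^ (q + 1) * (B ^ q * B) ≤ I ^ q * (B ^ q * B) :=
            Ideal.mul_mono_left (Ideal.pow_le_pow_right (Nat.le_succ q))
        _ ≤ I ^ q * B := Ideal.mul_mono_right Ideal.mul_le_right
    refine Submodule.mul_induction_on (C := fun x => a ∣ x) (h2 hr) ?_ ?_
    · intro m hm n hn
      exact hq m hm n hn
    · intro x y hx hy
      exact dvd_add hx hy
  rw [gs_mul hco c hc] at h1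
  exact left_ne_zero_of_mul h1.ne_zero

theorem gs_total_finset (i : k) (hi : i ^ 2 = -1) (c : 𝓞 k) (hc : c ≠ 0) :
    ∃ F : Finset (HeightOneSpectrum (𝓞 k)), ∀ T : Finset (HeightOneSpectrum (𝓞 k)), F ⊆ T →
      Pos (gs (∏ v ∈ T, v.asIdeal) c) := by
  classical
  obtain ⟨a, ha0, ha⟩ := gs_total i hi c hc
  have hne : Ideal.span {a} ≠ 0 := by
    rw [Ne, Ideal.zero_eq_bot, Ideal.span_singleton_eq_bot]
    exact ha0
  refine ⟨(Ideal.finite_factors hne).toFinset, fun T hT => ?_⟩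
  obtain ⟨B, q, hco, haB, hq⟩ := exists_coprime_part (∏ v ∈ T, v.asIdeal) ha0
  have hB : B = ⊤ := by
    by_contra hB
    obtain ⟨P, hP, hle⟩ := Ideal.exists_le_maximal B hB
    have hP0 : P ≠ ⊥ := by
      rintro rfl
      exact ha0 ((Submodule.mem_bot _).1 (hle haB))
    have hvT : (⟨P, hP.isPrime, hP0⟩ : HeightOneSpectrum (𝓞 k)) ∈ T := by
      apply hT
      rw [Set.Finite.mem_toFinset]
      show P ∣ Ideal.span {a}
      rw [Ideal.dvd_span_singleton]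
      exact hle haB
    have hle2 : (∏ v ∈ T, v.asIdeal) ≤ P := by
      have h3 : (⟨P, hP.isPrime, hP0⟩ : HeightOneSpectrum (𝓞 k)).asIdeal ∣ ∏ v ∈ T, v.asIdeal :=
        Finset.dvd_prod_of_mem _ hvT
      exact Ideal.dvd_iff_le.1 h3
    have h4 : (∏ v ∈ T, v.asIdeal) ⊔ B ≤ P := sup_le hle2 hle
    rw [Ideal.isCoprime_iff_sup_eq.1 hco] at h4
    exact hP.ne_top (top_le_iff.1 h4)
  refine ha _ ⟨q, fun r hr => ?_⟩
  have h5 := hq r hr 1 (by rw [hB]; exact Submodule.mem_top)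
  rwa [mul_one] at h5

end Pool.Agent.Lib.MP_2f3286_ag.UA
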