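import Pool.Agent.Lib.MP_2f3286_ag.UA.P06
import Pool.Agent.Lib.MP_2f3286_ag.UA.P08

/-!
# P10: (G7), rank two

Text. `V = k × k`, `L = (RL k).prod (RL k)`, `β c = bsum (bf c) (bf (-(x c)))` (the form `c (y₁ ^ 2 - x y₂ ^ 2)`), `n = z ^ 2 - x w ^ 2 ≠ 0`,
`φ (y₁, y₂) = (z y₁ + x w y₂, w y₁ + z y₂)`: `β 1 (φ y) (φ y') = β n y y'` (ring identity
`(z y₁ + x w y₂)(z y₁' + x w y₂') - x (w y₁ + z y₂)(w y₁' + z y₂') = n (y₁ y₁' - x y₂ y₂')`). `φ` is injective (`n ≠ 0`: the adjoint map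
`φ' (u₁, u₂) = (z u₁ - x w u₂, - w u₁ + z u₂)`, `φ' ∘ φ = φ ∘ φ' = n`).
`GS_prod`, `DI_bsum` (P06), `GOK_gs` (P07): `gs I n * gs I (-(x n)) = GS (β n) (DI (β n) I L) L`. `GS_map` with `φ`:
`= GS (β 1) (DI (β 1) I L') L'`, `L' = φ L` (a submodule: `L.map` of the linear map; `(DI (β n) I L).map φ = DI (β 1) I L'`: for
`y' ∈ DI (β 1) I L'` take `y = n⁻¹ φ' y'`). `n • L ≤ L'` (`n u = φ (φ' u)`), so `hco` by `co_of_smul` (P04) and `G4` (P02):
`= m * GS (β 1) (DI (β 1) I L) L = m * (gs I 1 * gs I (-x))`. Finally `gs_neg` (P08).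
-/

open NumberField

namespace Pool.Agent.Lib.MP_2f3286_ag.UA

private lemma P10_DI_map {R V V' : Type*} [CommRing R] [AddCommGroup V] [Module R V]
    [AddCommGroup V'] [Module R V'] (φ : V ≃ₗ[R] V') {b : V →+ V →+ ℚ} {b' : V' →+ V' →+ ℚ}
    (hφ : ∀ x y, b' (φ x) (φ y) = b x y) (I : Ideal R) (L : Submodule R V) :
    (DI b I L).map φ.toLinearMap.toAddMonoidHom = DI b' I (L.map φ.toLinearMap) := by
  ext y'
  constructor
  · intro h
    obtain ⟨y, ⟨h1, n, h2⟩, rfl⟩ := AddSubgroup.mem_map.mp h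
    refine ⟨?_, n, ?_⟩
    · intro x' hx'
      obtain ⟨x, hx, rfl⟩ := Submodule.mem_map.mp hx'
      have h3 := hφ y x
      have h4 : b' (φ.toLinearMap.toAddMonoidHom y) (φ.toLinearMap x) = b y x := h3
      rw [h4]
      exact h1 x hx
    · intro r hr
      have h5 : r • (φ.toLinearMap.toAddMonoidHom y) = φ.toLinearMap (r • y) :=
        (φ.toLinearMap.map_smul r y).symm
      rw [h5]
      exact Submodule.mem_map_of_mem (h2 r hr)
  · rintro ⟨h1, n, h2⟩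
    refine AddSubgroup.mem_map.mpr ⟨φ.symm y', ⟨?_, n, ?_⟩, φ.apply_symm_apply y'⟩
    · intro x hx
      rw [← hφ, φ.apply_symm_apply]
      exact h1 _ (Submodule.mem_map_of_mem hx)
    · intro r hr
      obtain ⟨x, hx, hx2⟩ := Submodule.mem_map.mp (h2 r hr)
      have h6 : r • φ.symm y' = x := by
        rw [← φ.symm.map_smul, ← hx2]
        exact φ.symm_apply_apply x
      rw [h6]
      exact hx

private lemma P10_GS_map {R V V' : Type*} [CommRing R] [AddCommGroup V] [Module R V]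
    [AddCommGroup V'] [Module R V'] (φ : V ≃ₗ[R] V') {b : V →+ V →+ ℚ} {b' : V' →+ V' →+ ℚ}
    (hφ : ∀ x y, b' (φ x) (φ y) = b x y) (I : Ideal R) (L : Submodule R V)
    (h : GOK b (DI b I L) L.toAddSubgroup) (symm' : ∀ x y, b' x y = b' y x) :
    GOK b' (DI b' I (L.map φ.toLinearMap)) (L.map φ.toLinearMap).toAddSubgroup ∧
      GS b' (DI b' I (L.map φ.toLinearMap)) (L.map φ.toLinearMap).toAddSubgroup =
        GS b (DI b I L) L.toAddSubgroup := by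
  have h1 := GS_map (b' := b') h φ.toLinearMap.toAddMonoidHom (fun x _ y _ => hφ x y)
    (fun x _ hx => φ.map_eq_zero_iff.mp hx) symm'
  rw [P10_DI_map φ hφ] at h1
  exact h1

variable {k : Type*} [Field k] [NumberField k]

/-- the substitution -/
private noncomputable def P10_phi (x z w : 𝓞 k) (hn : (z : k) ^ 2 - x * (w : k) ^ 2 ≠ 0) :
    (k × k) ≃ₗ[𝓞 k] (k × k) where
  toFun y := ((z : k) * y.1 + x * w * y.2, (w : k) * y.1 + z * y.2)
  invFun u := (((z : k) ^ 2 - x * (w : k) ^ 2)⁻¹ * (z * u.1 - x * w * u.2),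
    ((z : k) ^ 2 - x * (w : k) ^ 2)⁻¹ * (-(w : k) * u.1 + z * u.2))
  map_add' y y' := by
    ext
    · simp only [Prod.fst_add, Prod.snd_add]
      ring
    · simp only [Prod.fst_add, Prod.snd_add]
      ring
  map_smul' r y := by
    ext
    · simp only [Prod.smul_fst, Prod.smul_snd, Algebra.smul_def, RingHom.id_apply]
      ring
    · simp only [Prod.smul_fst, Prod.smul_snd, Algebra.smul_def, RingHom.id_apply]
      ring
  left_inv y := by
    ext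
    · simp only
      rw [inv_mul_eq_iff_eq_mul₀ hn]
      ring
    · simp only
      rw [inv_mul_eq_iff_eq_mul₀ hn]
      ring
  right_inv u := by
    have h1 : (((z : k) ^ 2 - x * (w : k) ^ 2)⁻¹) * ((z : k) ^ 2 - x * (w : k) ^ 2) = 1 :=
      inv_mul_cancel₀ hn
    ext
    · simp only
      calc (z : k) * (((z : k) ^ 2 - x * (w : k) ^ 2)⁻¹ * (z * u.1 - x * w * u.2)) +
            x * w * (((z : k) ^ 2 - x * (w : k) ^ 2)⁻¹ * (-(w : k) * u.1 + z * u.2))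
          = (((z : k) ^ 2 - x * (w : k) ^ 2)⁻¹ * ((z : k) ^ 2 - x * (w : k) ^ 2)) * u.1 := by
            ring
        _ = u.1 := by rw [h1, one_mul]
    · simp only
      calc (w : k) * (((z : k) ^ 2 - x * (w : k) ^ 2)⁻¹ * (z * u.1 - x * w * u.2)) +
            z * (((z : k) ^ 2 - x * (w : k) ^ 2)⁻¹ * (-(w : k) * u.1 + z * u.2))
          = (((z : k) ^ 2 - x * (w : k) ^ 2)⁻¹ * ((z : k) ^ 2 - x * (w : k) ^ 2)) * u.2 := by
            ring
        _ = u.2 := by rw [h1, one_mul]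

private lemma P10_phi_apply (x z w : 𝓞 k) (hn : (z : k) ^ 2 - x * (w : k) ^ 2 ≠ 0) (y : k × k) :
    P10_phi x z w hn y = ((z : k) * y.1 + x * w * y.2, (w : k) * y.1 + z * y.2) := rfl

private lemma P10_form (x z w : 𝓞 k) (hn : (z : k) ^ 2 - x * (w : k) ^ 2 ≠ 0) (y y' : k × k) :
    bsum (bf ((1 : 𝓞 k) : k)) (bf ((-x : 𝓞 k) : k)) (P10_phi x z w hn y) (P10_phi x z w hn y') =
      bsum (bf ((z ^ 2 - x * w ^ 2 : 𝓞 k) : k)) (bf ((-(x * (z ^ 2 - x * w ^ 2)) : 𝓞 k) : k))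
        y y' := by
  rw [bsum_apply, bsum_apply, P10_phi_apply, P10_phi_apply, bf_apply, bf_apply, bf_apply, bf_apply,
    ← map_add, ← map_add]
  congr 1
  push_cast
  ring

private lemma P10_toAdd : ((RL k).prod (RL k)).toAddSubgroup = (ZL k).prod (ZL k) := by
  ext y
  rw [Submodule.mem_toAddSubgroup, Submodule.mem_prod, AddSubgroup.mem_prod]
  rfl

private lemma P10_gs_prod (I : Ideal (𝓞 k)) (c c' : 𝓞 k) (hc : c ≠ 0) (hc' : c' ≠ 0) :
    GOK (bsum (bf (c : k)) (bf (c' : k)))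
        (DI (bsum (bf (c : k)) (bf (c' : k))) I ((RL k).prod (RL k)))
        ((RL k).prod (RL k)).toAddSubgroup ∧
      GS (bsum (bf (c : k)) (bf (c' : k)))
        (DI (bsum (bf (c : k)) (bf (c' : k))) I ((RL k).prod (RL k)))
        ((RL k).prod (RL k)).toAddSubgroup = gs I c * gs I c' := by
  have h := GS_prod (GOK_gs I c hc) (GOK_gs I c' hc')
  rw [← DI_bsum, ← P10_toAdd] at h
  exact h

private lemma P10_le (x z w : 𝓞 k) (hn : (z : k) ^ 2 - x * (w : k) ^ 2 ≠ 0) :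
    ((RL k).prod (RL k)).map (P10_phi x z w hn).toLinearMap ≤ (RL k).prod (RL k) := by
  intro u hu
  obtain ⟨y, hy, rfl⟩ := Submodule.mem_map.mp hu
  obtain ⟨h1, h2⟩ := Submodule.mem_prod.mp hy
  obtain ⟨a, ha⟩ := mem_RL.mp h1
  obtain ⟨b, hb⟩ := mem_RL.mp h2
  refine Submodule.mem_prod.mpr ⟨mem_RL.mpr ⟨z * a + x * w * b, ?_⟩,
    mem_RL.mpr ⟨w * a + z * b, ?_⟩⟩
  · have h3 : ((P10_phi x z w hn).toLinearMap y).1 = (z : k) * y.1 + x * w * y.2 := rfl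
    rw [h3, ← ha, ← hb]
    push_cast
    rfl
  · have h3 : ((P10_phi x z w hn).toLinearMap y).2 = (w : k) * y.1 + z * y.2 := rfl
    rw [h3, ← ha, ← hb]
    push_cast
    rfl

private lemma P10_smul (x z w : 𝓞 k) (hn : (z : k) ^ 2 - x * (w : k) ^ 2 ≠ 0) :
    ∀ u ∈ (RL k).prod (RL k), (z ^ 2 - x * w ^ 2) • u ∈
      ((RL k).prod (RL k)).map (P10_phi x z w hn).toLinearMap := by
  intro u hu
  obtain ⟨h1, h2⟩ := Submodule.mem_prod.mp hu
  obtain ⟨a, ha⟩ := mem_RL.mp h1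
  obtain ⟨b, hb⟩ := mem_RL.mp h2
  refine Submodule.mem_map.mpr ⟨(((z * a - x * w * b : 𝓞 k) : k), ((-w * a + z * b : 𝓞 k) : k)),
    Submodule.mem_prod.mpr ⟨mem_RL.mpr ⟨_, rfl⟩, mem_RL.mpr ⟨_, rfl⟩⟩, ?_⟩
  have h3 : (P10_phi x z w hn).toLinearMap
      (((z * a - x * w * b : 𝓞 k) : k), ((-w * a + z * b : 𝓞 k) : k)) =
      ((z : k) * ((z * a - x * w * b : 𝓞 k) : k) + x * w * ((-w * a + z * b : 𝓞 k) : k),
        (w : k) * ((z * a - x * w * b : 𝓞 k) : k) + z * ((-w * a + z * b : 𝓞 k) : k)) := rfl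
  rw [h3]
  ext
  · rw [Prod.smul_fst, Algebra.smul_def, ← ha]
    push_cast
    ring
  · rw [Prod.smul_snd, Algebra.smul_def, ← hb]
    push_cast
    ring

theorem G7 (i : k) (hi : i ^ 2 = -1) (I : Ideal (𝓞 k)) (x z w : 𝓞 k) (hx : x ≠ 0)
    (hn : z ^ 2 - x * w ^ 2 ≠ 0) :
    ∃ m : ℕ, 0 < m ∧
      gs I (z ^ 2 - x * w ^ 2) * gs I (x * (z ^ 2 - x * w ^ 2)) = m * (gs I 1 * gs I x) := by
  have hn' : (z : k) ^ 2 - x * (w : k) ^ 2 ≠ 0 := by
    intro h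
    apply hn
    apply RingOfIntegers.coe_injective
    rw [map_zero, map_sub, map_mul, map_pow, map_pow]
    exact h
  have hxn : x * (z ^ 2 - x * w ^ 2) ≠ 0 := mul_ne_zero hx hn
  obtain ⟨g1, e1⟩ := P10_gs_prod I (z ^ 2 - x * w ^ 2) (-(x * (z ^ 2 - x * w ^ 2))) hn
    (neg_ne_zero.mpr hxn)
  obtain ⟨g2, e2⟩ := P10_gs_prod I (1 : 𝓞 k) (-x) one_ne_zero (neg_ne_zero.mpr hx)
  obtain ⟨g3, e3⟩ := P10_GS_map (P10_phi x z w hn') (P10_form x z w hn') I _ g1 g2.symm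
  have hRB : IsRB (𝓞 k) (bsum (bf ((1 : 𝓞 k) : k)) (bf ((-x : 𝓞 k) : k))) :=
    isRB_bsum (isRB_bf _) (isRB_bf _)
  obtain ⟨m, hm, e4⟩ := G4 hRB (fun y hy => g2.q y hy) (P10_le x z w hn') I
    (co_of_smul I hn (P10_smul x z w hn')) g3.fin g2.fin
  refine ⟨m, hm, ?_⟩
  rw [← gs_neg i hi I (x * (z ^ 2 - x * w ^ 2)) hxn, ← gs_neg i hi I x hx, ← e1, ← e3, e4, e2]

end Pool.Agent.Lib.MP_2f3286_ag.UA
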