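import Pool.Agent.Lib.MP_2f3286_ag.UA.PAL
import Pool.Agent.Lib.MP_2f3286_ag.UA.P04

/-!
# P12: elements of `AL v h`

Text. `exists_mem_AL`: `h : ℕ`. `π : 𝓞 k` with `v.valuation k π = exp (-1)` (`valuation_exists_uniformizer'`). `exists_coprime_part` (P04) for `I = v.asIdeal`,
`a = π ^ h`: `B`, `q`; `1 = α + β`, `α ∈ v`, `β ∈ B`, so `β ∉ v`. `y = β / π ^ h`: `v.valuation y = exp h` (`valuation_eq_one_iff_notMem` for `β`). For `w ≠ v` there is
`r ∈ v.asIdeal ^ q`, `r ∉ w` (else `v ^ q ≤ w`, so `v ≤ w`, equal by maximality: `HeightOneSpectrum.ext`): `π ^ h ∣ r β`, so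
`w.valuation (r y) ≤ 1`, and `w.valuation r = 1`.
`AL_gen`: `y / y₀` has valuation at most one at `v`; `exists_valuation_sub_lt_of_integer` gives `r` with
`v.valuation (r - y / y₀) < exp (m - h) * ...`: take the bound `exp (m - h)`; `y - r y₀ = - y₀ (r - y / y₀)`.
`AL_pow`: `r ∈ v.asIdeal ^ h` has valuation at most `exp (-h)` at `v` (`intValuation_le_pow_iff_mem`, `valuation_of_algebraMap`), so `r y` is in `AL v 0`.
`of_pow`: if `r y` is an integer for all `r ∈ v ^ n`: at `w ≠ v` take `r ∈ v ^ n`, `r ∉ w`; at `v` take `r ∈ v ^ n` with valuation exactly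
`exp (-n)` (`r = π ^ n`).
-/

open NumberField IsDedekindDomain

namespace Pool.Agent.Lib.MP_2f3286_ag.UA

variable {k : Type*} [Field k] [NumberField k]

private theorem exists_pow_notMem {v w : HeightOneSpectrum (𝓞 k)} (hw : w ≠ v) (n : ℕ) :
    ∃ r : 𝓞 k, r ∈ v.asIdeal ^ n ∧ w.valuation k (r : k) = 1 := by
  have h1 : ¬ (v.asIdeal ^ n ≤ w.asIdeal) := by
    intro hle
    have h2 : v.asIdeal ≤ w.asIdeal := w.isPrime.le_of_pow_le hle
    have h3 : v.asIdeal.IsMaximal := v.isMaximal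
    have h4 : v.asIdeal = w.asIdeal := h3.eq_of_le w.isPrime.ne_top h2
    exact hw (HeightOneSpectrum.ext h4.symm)
  obtain ⟨r, hr, hr2⟩ := SetLike.not_le_iff_exists.mp h1
  exact ⟨r, hr, (HeightOneSpectrum.valuation_eq_one_iff_notMem (K := k) (v := w) (r := r)).2 hr2⟩

private theorem exists_unif (v : HeightOneSpectrum (𝓞 k)) :
    ∃ π : 𝓞 k, v.valuation k (π : k) = WithZero.exp (-1 : ℤ) ∧ π ≠ 0 ∧ π ∈ v.asIdeal := by
  obtain ⟨π, hπ⟩ := v.valuation_exists_uniformizer' k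
  refine ⟨π, hπ, ?_, ?_⟩
  · rintro rfl
    have hz : v.valuation k (algebraMap (𝓞 k) k 0) = WithZero.exp (-1 : ℤ) := hπ
    rw [map_zero, map_zero] at hz
    exact WithZero.exp_ne_zero hz.symm
  · rw [← HeightOneSpectrum.valuation_lt_one_iff_mem (K := k)]
    have : v.valuation k (algebraMap (𝓞 k) k π) = WithZero.exp (-1 : ℤ) := hπ
    rw [this, ← WithZero.exp_zero, WithZero.exp_lt_exp]
    norm_num

private theorem val_pow_unif (v : HeightOneSpectrum (𝓞 k)) {π : 𝓞 k}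
    (hπ : v.valuation k (π : k) = WithZero.exp (-1 : ℤ)) (n : ℕ) :
    v.valuation k ((π : k) ^ n) = WithZero.exp (-(n : ℤ)) := by
  rw [map_pow, hπ, ← WithZero.exp_nsmul]
  congr 1
  simp

theorem exists_mem_AL (v : HeightOneSpectrum (𝓞 k)) (h : ℕ) :
    ∃ y : k, y ∈ AL v h ∧ v.valuation k y = WithZero.exp (h : ℤ) := by
  obtain ⟨π, hπ, hπ0, hπv⟩ := exists_unif v
  obtain ⟨B, q, hco, haB, hq⟩ := exists_coprime_part v.asIdeal (pow_ne_zero h hπ0)
  obtain ⟨α, hα, β, hβ, hαβ⟩ := Ideal.isCoprime_iff_exists.mp hco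
  have hβv : β ∉ v.asIdeal := by
    intro hb
    exact v.isPrime.ne_top ((Ideal.eq_top_iff_one _).mpr (by
      rw [← hαβ]
      exact v.asIdeal.add_mem hα hb))
  have hβ1 : v.valuation k (β : k) = 1 :=
    (HeightOneSpectrum.valuation_eq_one_iff_notMem (K := k) (v := v) (r := β)).2 hβv
  have hπk : (π : k) ≠ 0 := fun h0 => hπ0 (by exact_mod_cast h0)
  have hval : v.valuation k ((β : k) / (π : k) ^ h) = WithZero.exp (h : ℤ) := by
    rw [map_div₀, hβ1, val_pow_unif v hπ, one_div, ← WithZero.exp_neg, neg_neg]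
  refine ⟨(β : k) / (π : k) ^ h, ⟨hval.le, fun w hw => ?_⟩, hval⟩
  obtain ⟨r, hr, hr1⟩ := exists_pow_notMem hw q
  obtain ⟨t, ht⟩ := hq r hr β hβ
  have h1 : (r : k) * ((β : k) / (π : k) ^ h) = (t : k) := by
    have h2 : (r : k) * (β : k) = (π : k) ^ h * (t : k) := by
      have := congrArg (algebraMap (𝓞 k) k) ht
      simpa only [map_mul, map_pow] using this
    rw [mul_div_assoc', h2, mul_div_cancel_left₀ _ (pow_ne_zero h hπk)]
  have h2 : w.valuation k ((r : k) * ((β : k) / (π : k) ^ h)) ≤ 1 := by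
    rw [h1]
    exact w.valuation_le_one t
  rwa [map_mul, hr1, one_mul] at h2

theorem AL_gen {v : HeightOneSpectrum (𝓞 k)} {h m : ℤ} {y y₀ : k} (hm : 0 ≤ m) (hy : y ∈ AL v h)
    (hy₀ : y₀ ∈ AL v h) (h₀ : v.valuation k y₀ = WithZero.exp h) :
    ∃ r : 𝓞 k, y - r * y₀ ∈ AL v m := by
  have hy00 : y₀ ≠ 0 := by
    rintro rfl
    rw [map_zero] at h₀
    exact WithZero.exp_ne_zero h₀.symm
  have hx : v.valuation k (y / y₀) ≤ 1 := by
    rw [map_div₀, h₀]
    exact div_le_one_of_le₀ hy.1 zero_le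
  obtain ⟨r, hr⟩ := HeightOneSpectrum.exists_valuation_sub_lt_of_integer v hx
    (Units.mk0 (WithZero.exp (m - h)) WithZero.exp_ne_zero)
  have hr' : v.valuation k ((r : k) - y / y₀) < WithZero.exp (m - h) := hr
  refine ⟨r, ?_, fun w hw => ?_⟩
  · have e : y - r * y₀ = -(y₀ * ((r : k) - y / y₀)) := by
      field_simp
      ring
    rw [e, Valuation.map_neg, map_mul, h₀]
    calc WithZero.exp h * v.valuation k ((r : k) - y / y₀)
        ≤ WithZero.exp h * WithZero.exp (m - h) := mul_le_mul_right hr'.le _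
      _ = WithZero.exp m := by
        rw [← WithZero.exp_add]
        congr 1
        ring
  · refine ((w.valuation k).map_sub _ _).trans (max_le (hy.2 w hw) ?_)
    rw [map_mul]
    exact mul_le_one' (w.valuation_le_one r) (hy₀.2 w hw)

theorem AL_pow {v : HeightOneSpectrum (𝓞 k)} {h : ℕ} {y : k} (hy : y ∈ AL v h) {r : 𝓞 k}
    (hr : r ∈ v.asIdeal ^ h) : ∃ s : 𝓞 k, (s : k) = r * y := by
  have h1 : v.valuation k (r : k) ≤ WithZero.exp (-(h : ℤ)) := by
    rw [show (r : k) = algebraMap (𝓞 k) k r from rfl, HeightOneSpectrum.valuation_of_algebraMap,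
      HeightOneSpectrum.intValuation_le_pow_iff_mem]
    exact hr
  have h2 : (r : k) * y ∈ AL v 0 := by
    refine ⟨?_, fun w hw => ?_⟩
    · rw [map_mul]
      calc v.valuation k (r : k) * v.valuation k y
          ≤ WithZero.exp (-(h : ℤ)) * WithZero.exp (h : ℤ) := mul_le_mul' h1 hy.1
        _ = WithZero.exp 0 := by
          rw [← WithZero.exp_add]
          congr 1
          ring
    · rw [map_mul]
      exact mul_le_one' (w.valuation_le_one r) (hy.2 w hw)
  rw [AL_zero, mem_RL] at h2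
  exact h2

theorem of_pow {v : HeightOneSpectrum (𝓞 k)} {n : ℕ} {y : k}
    (h : ∀ r ∈ v.asIdeal ^ n, ∃ s : 𝓞 k, (s : k) = r * y) : y ∈ AL v n := by
  refine ⟨?_, fun w hw => ?_⟩
  · obtain ⟨π, hπ, hπ0, hπv⟩ := exists_unif v
    obtain ⟨s, hs⟩ := h (π ^ n) (Ideal.pow_mem_pow hπv n)
    have h1 : v.valuation k (((π ^ n : 𝓞 k) : k) * y) ≤ 1 := by
      rw [← hs]
      exact v.valuation_le_one s
    have h2 : ((π ^ n : 𝓞 k) : k) = (π : k) ^ n := map_pow (algebraMap (𝓞 k) k) π n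
    rw [map_mul, h2, val_pow_unif v hπ] at h1
    calc v.valuation k y = WithZero.exp (n : ℤ) * (WithZero.exp (-(n : ℤ)) * v.valuation k y) := by
          rw [← mul_assoc, ← WithZero.exp_add, add_neg_cancel, WithZero.exp_zero, one_mul]
      _ ≤ WithZero.exp (n : ℤ) * 1 := mul_le_mul_right h1 _
      _ = WithZero.exp (n : ℤ) := mul_one _
  · obtain ⟨r, hr, hr1⟩ := exists_pow_notMem hw n
    obtain ⟨s, hs⟩ := h r hr
    have h1 : w.valuation k ((r : k) * y) ≤ 1 := by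
      rw [← hs]
      exact w.valuation_le_one s
    rwa [map_mul, hr1, one_mul] at h1

end Pool.Agent.Lib.MP_2f3286_ag.UA
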