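import Pool.Agent.Lib.MP_2f3286_ag.UA.P12
import Pool.Agent.Lib.MP_2f3286_ag.UA.P05

/-!
# P13: the exponent of the different at `v`, and the dual lattice at `v`

Text. `exists_dv`: let `y` run over the elements which are integral at all `w ≠ v` and satisfy `Cd y`. `E` from `exists_E` (P05): `E y` is an integer, so
`v.valuation y ≤ exp (n₀)` with `v.valuation E = exp (-n₀)`. So there is a largest `δ : ℕ` such that some such `y₀` has `v.valuation y₀ = exp δ` (`y = 1` has
`exp 0`; `isZ_trace`). `→`: maximality (if `v.valuation y ≤ 1` clear). `←`: `y ∈ AL v δ`: `AL_gen` with `m = 0`: `y = r y₀ + s`, `r, s` integers (`AL_zero`):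
`Cd.smul`, `Cd.add`, `Cd s` (`isZ_trace`).
`DI_v`: `l = ordv v c + δ`, `c` an integer, `2` is a unit at `v`. `y ∈ DI`: `v ^ n y ⊆ 𝓞 k` for some `n`, so `y ∈ AL v n` (`of_pow`), and `Cd (2 c y)`, `2 c y` is integral outside
`v`, so `v.valuation (2 c y) ≤ exp δ`, so `v.valuation y ≤ exp l`. Conversely the same backwards, with `AL_pow` (`n = l.toNat`).
(`Cd (2 c y)` iff `∀ x ∈ RL k, IsZ (2 * bf c y x)`.)
-/

open NumberField IsDedekindDomain

namespace Pool.Agent.Lib.MP_2f3286_ag.UA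

variable {k : Type*} [Field k] [NumberField k]

private theorem p13_cd_int (s : 𝓞 k) : Cd (s : k) := fun r => by
  have h := isZ_trace (s * r)
  have h2 : ((s * r : 𝓞 k) : k) = s * r := map_mul (algebraMap (𝓞 k) k) s r
  rwa [h2] at h

theorem exists_dv (v : HeightOneSpectrum (𝓞 k)) : ∃ δ : ℕ, ∀ y : k,
    (∀ w, w ≠ v → w.valuation k y ≤ 1) → (Cd y ↔ v.valuation k y ≤ WithZero.exp (δ : ℤ)) := by
  classical
  obtain ⟨E, hE, hEy⟩ := exists_E k
  have hE0 : (E : k) ≠ 0 := by exact_mod_cast hE.ne'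
  have hvE : v.valuation k (E : k) ≠ 0 := (Valuation.ne_zero_iff _).2 hE0
  obtain ⟨P, hP⟩ : ∃ P : ℕ → Prop, ∀ n : ℕ, P n ↔ ∃ y : k,
      (∀ w, w ≠ v → w.valuation k y ≤ 1) ∧
      Cd y ∧ v.valuation k y = WithZero.exp ((n : ℕ) : ℤ) := ⟨fun n => _, fun n => Iff.rfl⟩
  have hP0 : P 0 := by
    rw [hP]
    refine ⟨1, fun w _ => by rw [map_one], ?_, by rw [map_one]; simp⟩
    have h := p13_cd_int (k := k) 1
    have e : ((1 : 𝓞 k) : k) = 1 := map_one (algebraMap (𝓞 k) k)
    rwa [e] at h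
  -- the bound
  obtain ⟨N, hN⟩ : ∃ N : ℕ, ∀ y : k, Cd y → v.valuation k y ≤ WithZero.exp (N : ℤ) := by
    refine ⟨(-WithZero.log (v.valuation k (E : k))).toNat, fun y hy => ?_⟩
    obtain ⟨s, hs⟩ := hEy y hy
    have h1 : v.valuation k ((E : k) * y) ≤ 1 := by
      rw [← hs]
      exact v.valuation_le_one s
    rw [map_mul] at h1
    have h2 : v.valuation k y = (v.valuation k (E : k))⁻¹ * (v.valuation k (E : k) *
        v.valuation k y) := by
      rw [← mul_assoc, inv_mul_cancel₀ hvE, one_mul]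
    have h3 : v.valuation k y ≤ (v.valuation k (E : k))⁻¹ := by
      rw [h2]
      exact mul_le_of_le_one_right' h1
    have h4 : (v.valuation k (E : k))⁻¹ =
        WithZero.exp (-WithZero.log (v.valuation k (E : k))) := by
      rw [WithZero.exp_neg, WithZero.exp_log hvE]
    refine h3.trans ?_
    rw [h4, WithZero.exp_le_exp]
    exact Int.self_le_toNat _
  obtain ⟨y₀, h₀, hc₀, hv₀⟩ := (hP _).1 (Nat.findGreatest_spec (m := 0) (Nat.zero_le N) hP0)
  refine ⟨Nat.findGreatest P N, fun y hy => ⟨fun hc => ?_, fun h => ?_⟩⟩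
  · by_cases h1 : v.valuation k y ≤ 1
    · refine h1.trans ?_
      rw [← WithZero.exp_zero, WithZero.exp_le_exp]
      exact Int.natCast_nonneg _
    · have h2 : v.valuation k y ≠ 0 := by
        intro h3
        rw [h3] at h1
        exact h1 zero_le
      have h3 : v.valuation k y = WithZero.exp (WithZero.log (v.valuation k y)) :=
        (WithZero.exp_log h2).symm
      have h4 : 0 ≤ WithZero.log (v.valuation k y) := by
        by_contra h5
        apply h1
        rw [h3, ← WithZero.exp_zero, WithZero.exp_le_exp]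
        omega
      obtain ⟨m, hm⟩ := Int.eq_ofNat_of_zero_le h4
      rw [hm] at h3
      have h6 : m ≤ N := by
        have h7 := hN y hc
        rw [h3, WithZero.exp_le_exp] at h7
        exact_mod_cast h7
      have h8 : m ≤ Nat.findGreatest P N :=
        Nat.le_findGreatest h6 ((hP m).2 ⟨y, hy, hc, h3⟩)
      rw [h3, WithZero.exp_le_exp]
      exact_mod_cast h8
  · obtain ⟨r, hr⟩ := AL_gen (v := v) (h := ((Nat.findGreatest P N : ℕ) : ℤ)) (m := 0) le_rfl
      (y := y) (y₀ := y₀) ⟨h, hy⟩ ⟨hv₀.le, h₀⟩ hv₀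
    rw [AL_zero, mem_RL] at hr
    obtain ⟨s, hs⟩ := hr
    have e : y = r * y₀ + s := by rw [hs]; ring
    rw [e]
    exact (hc₀.smul r).add (p13_cd_int s)

theorem ordv_int_nonneg (v : HeightOneSpectrum (𝓞 k)) (c : 𝓞 k) : 0 ≤ ordv v (c : k) := by
  unfold ordv
  by_cases hc : v.valuation k (c : k) = 0
  · rw [hc, WithZero.log_zero, neg_zero]
  · have h1 := v.valuation_le_one (K := k) c
    have h2 : v.valuation k (c : k) = WithZero.exp (WithZero.log (v.valuation k (c : k))) :=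
      (WithZero.exp_log hc).symm
    have h3 : v.valuation k (c : k) ≤ 1 := h1
    rw [h2, ← WithZero.exp_zero, WithZero.exp_le_exp] at h3
    omega

private theorem p13_tr (c : 𝓞 k) (y : k) (r : 𝓞 k) :
    Algebra.trace ℚ k (2 * c * y * r) = 2 * bf (c : k) y r := by
  have h2 : (2 : ℚ) * Algebra.trace ℚ k (c * y * r) = Algebra.trace ℚ k (2 * c * y * r) := by
    rw [← smul_eq_mul, ← map_smul]
    congr 1
    rw [Algebra.smul_def]
    simp only [map_ofNat]
    ring
  rw [bf_apply]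
  exact h2.symm

theorem DI_v {v : HeightOneSpectrum (𝓞 k)} (hv : (2 : 𝓞 k) ∉ v.asIdeal) {δ : ℕ}
    (hδ : ∀ y : k, (∀ w, w ≠ v → w.valuation k y ≤ 1) →
      (Cd y ↔ v.valuation k y ≤ WithZero.exp (δ : ℤ))) (c : 𝓞 k) (hc : c ≠ 0) :
    DI (bf (c : k)) v.asIdeal (RL k) = (AL v (ordv v (c : k) + δ)).toAddSubgroup := by
  have hc0 : (c : k) ≠ 0 := by
    intro h6
    exact hc (RingOfIntegers.ext (by rw [h6]; simp))
  have hvc0 : v.valuation k (c : k) ≠ 0 := (Valuation.ne_zero_iff _).2 hc0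
  have hvc : v.valuation k (c : k) = WithZero.exp (-ordv v (c : k)) := by
    unfold ordv
    rw [neg_neg, WithZero.exp_log hvc0]
  have hv2 : v.valuation k (2 : k) = 1 := (ordv_eq_zero_iff v two_ne_zero).1 (ordv_two hv)
  have h2 : ∀ w : HeightOneSpectrum (𝓞 k), w.valuation k (2 * (c : k)) ≤ 1 := by
    intro w
    have h : w.valuation k ((2 * c : 𝓞 k) : k) ≤ 1 := w.valuation_le_one (K := k) (2 * c)
    have e : ((2 * c : 𝓞 k) : k) = 2 * (c : k) := by
      have h3 := map_mul (algebraMap (𝓞 k) k) 2 c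
      rw [map_ofNat] at h3
      exact h3
    rwa [e] at h
  have hw : ∀ y : k, ∀ w : HeightOneSpectrum (𝓞 k), w.valuation k y ≤ 1 →
      w.valuation k (2 * c * y) ≤ 1 := by
    intro y w h
    rw [map_mul]
    exact mul_le_one' (h2 w) h
  have hvy : ∀ y : k, v.valuation k (2 * c * y) =
      WithZero.exp (-ordv v (c : k)) * v.valuation k y := by
    intro y
    rw [map_mul, map_mul, hv2, one_mul, hvc]
  have key : ∀ y : k, v.valuation k (2 * c * y) ≤ WithZero.exp (δ : ℤ) ↔
      v.valuation k y ≤ WithZero.exp (ordv v (c : k) + δ) := by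
    intro y
    rw [hvy]
    by_cases hy : v.valuation k y = 0
    · rw [hy, mul_zero]
      exact ⟨fun _ => zero_le, fun _ => zero_le⟩
    · rw [← WithZero.exp_log hy, ← WithZero.exp_add, WithZero.exp_le_exp, WithZero.exp_le_exp]
      constructor <;> intro h <;> omega
  ext y
  rw [mem_DI]
  constructor
  · rintro ⟨h1, n, h3⟩
    have h4 : y ∈ AL v n := of_pow fun r hr => by
      obtain ⟨s, hs⟩ := mem_RL.1 (h3 r hr)
      exact ⟨s, by rw [hs, Algebra.smul_def]⟩
    have h5 : ∀ w, w ≠ v → w.valuation k y ≤ 1 := h4.2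
    have h6 : Cd (2 * c * y) := fun r => by
      rw [p13_tr]
      exact h1 r (mem_RL.2 ⟨r, rfl⟩)
    have h7 := (hδ _ fun w hwv => hw y w (h5 w hwv)).1 h6
    exact ⟨(key y).1 h7, h5⟩
  · intro hy
    have h1 : v.valuation k y ≤ WithZero.exp (ordv v (c : k) + δ) := hy.1
    have h5 : ∀ w, w ≠ v → w.valuation k y ≤ 1 := hy.2
    have h6 : Cd (2 * c * y) :=
      (hδ _ fun w hwv => hw y w (h5 w hwv)).2 ((key y).2 h1)
    refine ⟨fun x hx => ?_, (ordv v (c : k) + δ).toNat, fun r hr => ?_⟩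
    · obtain ⟨r, rfl⟩ := mem_RL.1 hx
      rw [← p13_tr]
      exact h6 r
    · have h7 : 0 ≤ ordv v (c : k) + δ := by
        have := ordv_int_nonneg v c
        omega
      have h8 : y ∈ AL v (((ordv v (c : k) + δ).toNat : ℕ) : ℤ) := by
        rw [Int.toNat_of_nonneg h7]
        exact ⟨h1, h5⟩
      obtain ⟨s, hs⟩ := AL_pow h8 hr
      exact mem_RL.2 ⟨s, by rw [hs, Algebra.smul_def]⟩

end Pool.Agent.Lib.MP_2f3286_ag.UA
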