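import Pool.Agent.Lib.MP_2f3286_ag.UA.P13
import Pool.Agent.Lib.MP_2f3286_ag.UA.P07

/-!
# P14: reduction of the Gauss sum at `v` (text (G12))

Text. `v` not over `2`, `l = ordv v c + δ`, `0 ≤ h`, `2 h ≤ l`. `G1` (GSum) with `D = DI (bf c) v (RL k) = AL v l` (`DI_v`), `L = ZL k`, `M = AL v h`,
`M' = AL v (l - h)`. Conditions: `b x x` is an integer for `x ∈ AL v h`: `c x ^ 2` is integral outside `v` and has
`v.valuation ≤ exp (- ordv v c + 2 h) ≤ exp δ`, so `Cd (c x ^ 2)`, put `r = 1`. `M'`: for `y ∈ AL v l`: `y ∈ AL v (l - h)` iff `2 Tr (c y x)` is an integer for all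
`x ∈ AL v h`: `→` as before (`Cd (2 c y x)`). `←`: for the `x₀` of `exists_mem_AL v h`, and all integers `r`: `r x₀ ∈ AL v h`, so `Cd (2 c y x₀)`, so
`v.valuation (2 c y x₀) ≤ exp δ`, `v.valuation y ≤ exp (δ + ordv v c - h)`.
The relative index is a positive natural number.
`gs_v_even`: `l = 2 h`: `M' = M`, `GS b M M = 1` (`GS_eq_sum` with the transversal `{0}`, `ee_zero`).
-/

open NumberField IsDedekindDomain

namespace Pool.Agent.Lib.MP_2f3286_ag.UA

variable {k : Type*} [Field k] [NumberField k]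

private theorem p14_val_c (v : HeightOneSpectrum (𝓞 k)) {x : k} (hx : x ≠ 0) :
    v.valuation k x = WithZero.exp (-(ordv v x)) := by
  unfold ordv
  rw [neg_neg, WithZero.exp_log ((Valuation.ne_zero_iff _).2 hx)]

private theorem p14_two (_x : ℚ) (y : k) :
    (2 : ℚ) * Algebra.trace ℚ k y = Algebra.trace ℚ k (2 * y) := by
  rw [← smul_eq_mul, ← map_smul]
  congr 1
  rw [Algebra.smul_def]
  simp only [map_ofNat]

private theorem p14_GS_self {V : Type*} [AddCommGroup V] {b : V →+ V →+ ℚ} {M : AddSubgroup V}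
    (h : GOK b M M) : GS b M M = 1 := by
  have hT : IsTrv M M {0} := by
    refine ⟨fun t ht => ?_, fun y hy => ⟨0, ⟨Finset.mem_singleton_self 0, ?_⟩, ?_⟩⟩
    · rw [Finset.mem_singleton.1 ht]
      exact M.zero_mem
    · rwa [sub_zero]
    · rintro t ⟨ht, -⟩
      exact Finset.mem_singleton.1 ht
  rw [GS_eq_sum h hT, Finset.sum_singleton, map_zero, ee_zero]

private theorem p14_mem {v : HeightOneSpectrum (𝓞 k)} {h : ℤ} {y : k} :
    y ∈ (AL v h).toAddSubgroup ↔ y ∈ AL v h := Submodule.mem_toAddSubgroup _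

private theorem p14_exp3 (a b c d : ℤ) (h : a + b + c ≤ d) :
    (WithZero.exp a * WithZero.exp b * WithZero.exp c : WithZero (Multiplicative ℤ)) ≤
      WithZero.exp d := by
  rw [← WithZero.exp_add, ← WithZero.exp_add, WithZero.exp_le_exp]
  exact h

theorem gs_v_red {v : HeightOneSpectrum (𝓞 k)} (hv : (2 : 𝓞 k) ∉ v.asIdeal) {δ : ℕ}
    (hδ : ∀ y : k, (∀ w, w ≠ v → w.valuation k y ≤ 1) →
      (Cd y ↔ v.valuation k y ≤ WithZero.exp (δ : ℤ))) (c : 𝓞 k) (hc : c ≠ 0) (h : ℕ)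
    (hh : 2 * (h : ℤ) ≤ ordv v (c : k) + δ) :
    GOK (bf (c : k)) (AL v (ordv v (c : k) + δ - h)).toAddSubgroup (AL v h).toAddSubgroup ∧
      (ZL k).relIndex (AL v h).toAddSubgroup ≠ 0 ∧
      gs v.asIdeal c = ((ZL k).relIndex (AL v h).toAddSubgroup : ℂ) *
        GS (bf (c : k)) (AL v (ordv v (c : k) + δ - h)).toAddSubgroup (AL v h).toAddSubgroup := by
  have hck : (c : k) ≠ 0 := by
    intro h0
    exact hc (RingOfIntegers.ext h0)
  obtain ⟨N, hN⟩ : ∃ N : ℤ, N = ordv v (c : k) := ⟨_, rfl⟩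
  have hvc : v.valuation k (c : k) = WithZero.exp (-N) := by rw [hN]; exact p14_val_c v hck
  have e2 : ((2 : 𝓞 k) : k) = 2 := map_ofNat (algebraMap (𝓞 k) k) 2
  have e1 : ((1 : 𝓞 k) : k) = 1 := map_one (algebraMap (𝓞 k) k)
  have hcw : ∀ w : HeightOneSpectrum (𝓞 k), w.valuation k (c : k) ≤ 1 := fun w =>
    w.valuation_le_one c
  have h2w : ∀ w : HeightOneSpectrum (𝓞 k), w.valuation k (2 : k) ≤ 1 := fun w => by
    have h6 : w.valuation k ((2 : 𝓞 k) : k) ≤ 1 := w.valuation_le_one (K := k) (2 : 𝓞 k)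
    rw [← e2]
    exact h6
  have h2v : v.valuation k (2 : k) = 1 := by
    have h6 : v.valuation k ((2 : 𝓞 k) : k) = 1 :=
      (v.valuation_eq_one_iff_notMem (K := k) (r := (2 : 𝓞 k))).2 hv
    rw [← e2]
    exact h6
  have hG := GOK_gs v.asIdeal c hc
  rw [DI_v hv hδ c hc, ← hN] at hG
  have hgs : gs v.asIdeal c = GS (bf (c : k)) (AL v (N + δ)).toAddSubgroup (ZL k) := by
    unfold gs
    rw [DI_v hv hδ c hc, ← hN]
  rw [hgs, ← hN]
  rw [← hN] at hh
  have hLM : ZL k ≤ (AL v h).toAddSubgroup := by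
    intro x hx
    have hx' : x ∈ RL k := hx
    rw [← AL_zero v] at hx'
    exact AL_mono v (by omega) hx'
  have hMD : (AL v h).toAddSubgroup ≤ (AL v (N + δ)).toAddSubgroup := fun x hx =>
    AL_mono v (by omega) hx
  have hM : ∀ x ∈ (AL v h).toAddSubgroup, IsZ (bf (c : k) x x) := by
    intro x hx
    rw [p14_mem, mem_AL] at hx
    have h1 : Cd ((c : k) * x * x) := by
      refine (hδ _ fun w hw => ?_).2 ?_
      · rw [map_mul, map_mul]
        exact mul_le_one' (mul_le_one' (hcw w) (hx.2 w hw)) (hx.2 w hw)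
      · rw [map_mul, map_mul, hvc]
        refine (mul_le_mul' (mul_le_mul' le_rfl hx.1) hx.1).trans (p14_exp3 _ _ _ _ (by omega))
    have h2 := h1 1
    rw [e1, mul_one] at h2
    exact h2
  have hM' : ∀ y, y ∈ (AL v (N + δ - h)).toAddSubgroup ↔ y ∈ (AL v (N + δ)).toAddSubgroup ∧
      ∀ x ∈ (AL v h).toAddSubgroup, IsZ (2 * bf (c : k) y x) := by
    intro y
    constructor
    · intro hy
      refine ⟨AL_mono v (by omega) hy, fun x hx => ?_⟩
      rw [p14_mem, mem_AL] at hx hy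
      have h1 : Cd (2 * ((c : k) * y * x)) := by
        refine (hδ _ fun w hw => ?_).2 ?_
        · rw [map_mul, map_mul, map_mul]
          exact mul_le_one' (h2w w) (mul_le_one' (mul_le_one' (hcw w) (hy.2 w hw)) (hx.2 w hw))
        · rw [map_mul, map_mul, map_mul, hvc, h2v, one_mul]
          exact (mul_le_mul' (mul_le_mul' le_rfl hy.1) hx.1).trans
            (p14_exp3 _ _ _ _ (by omega))
      have h2 := h1 1
      rw [e1, mul_one] at h2
      rw [bf_apply, p14_two 0]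
      exact h2
    · rintro ⟨hy, hyx⟩
      rw [p14_mem, mem_AL] at hy
      obtain ⟨x₀, hx₀, hvx₀⟩ := exists_mem_AL v h
      rw [p14_mem, mem_AL]
      refine ⟨?_, hy.2⟩
      have h1 : Cd (2 * ((c : k) * y * x₀)) := by
        intro r
        have h2 := hyx ((r : k) * x₀) (by
          rw [p14_mem]
          have h3 := (AL v h).smul_mem r hx₀
          rwa [Algebra.smul_def] at h3)
        rw [bf_apply, p14_two 0] at h2
        have h3 : 2 * ((c : k) * y * x₀) * (r : k) = 2 * ((c : k) * y * ((r : k) * x₀)) := by ring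
        rw [h3]
        exact h2
      have h2 := (hδ _ fun w hw => by
        rw [map_mul, map_mul, map_mul]
        exact mul_le_one' (h2w w) (mul_le_one' (mul_le_one' (hcw w) (hy.2 w hw))
          ((mem_AL.1 hx₀).2 w hw))).1 h1
      rw [map_mul, map_mul, map_mul, hvc, h2v, one_mul, hvx₀] at h2
      by_cases hy0 : y = 0
      · rw [hy0, map_zero]
        exact zero_le
      · rw [p14_val_c v hy0, ← WithZero.exp_add, ← WithZero.exp_add, WithZero.exp_le_exp] at h2
        rw [p14_val_c v hy0, WithZero.exp_le_exp]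
        omega
  obtain ⟨-, -, h3, h4, h5⟩ := G1 hG hLM hMD hM hM'
  exact ⟨h4, h3, h5⟩

theorem gs_v_even {v : HeightOneSpectrum (𝓞 k)} (hv : (2 : 𝓞 k) ∉ v.asIdeal) {δ : ℕ}
    (hδ : ∀ y : k, (∀ w, w ≠ v → w.valuation k y ≤ 1) →
      (Cd y ↔ v.valuation k y ≤ WithZero.exp (δ : ℤ))) (c : 𝓞 k) (hc : c ≠ 0)
    (he : Even (ordv v (c : k) + δ)) : Pos (gs v.asIdeal c) := by
  obtain ⟨r, hr⟩ := he
  have h0 := ordv_int_nonneg v c
  obtain ⟨h1, h2, h3⟩ := gs_v_red hv hδ c hc r.toNat (by omega)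
  have h4 : ordv v (c : k) + δ - (r.toNat : ℤ) = (r.toNat : ℤ) := by omega
  rw [h4] at h1 h3
  rw [h3, p14_GS_self h1, mul_one]
  exact Pos.nat (Nat.pos_of_ne_zero h2)

end Pool.Agent.Lib.MP_2f3286_ag.UA
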