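import Mathlib

/-!
# P15: quadratic Gauss sums over a finite field

Text. `χ` the quadratic character of `F` (Mathlib `quadraticChar F`), the number of square roots of `a` is `χ a + 1`
(`quadraticChar_card_sqrts`). So for every function `f`: `∑ r, f (r ^ 2) = ∑ t, f t * (χ t + 1)`. With `f t = ψ (u t)` and `∑ ψ = 0`:
`∑ r, ψ (u r ^ 2) = ∑ t, χ t ψ (u t) = χ u * ∑ s, χ s ψ s` (`t = u⁻¹ s`, `χ u⁻¹ = χ u`). The same for `u = 1`.
`χ u = 1` iff `u` is a square (`quadraticChar_one_iff_isSquare`), otherwise `-1`.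
-/

namespace Pool.Agent.Lib.MP_2f3286_ag.UA

open Classical in
private theorem sum_sq_fib {F : Type*} [Field F] [Fintype F] (h2 : (2 : F) ≠ 0) (f : F → ℂ) :
    ∑ r, f (r ^ 2) = ∑ t, (((quadraticChar F t : ℤ) : ℂ) + 1) * f t := by
  have hF : ringChar F ≠ 2 := by
    intro h
    apply h2
    have h1 := CharP.cast_eq_zero F (ringChar F)
    rw [h] at h1
    exact_mod_cast h1
  rw [← Finset.sum_fiberwise (s := Finset.univ) (g := fun r : F => r ^ 2) (f := fun r => f (r ^ 2))]
  refine Finset.sum_congr rfl fun t _ => ?_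
  have h1 : ∑ r ∈ Finset.univ with r ^ 2 = t, f (r ^ 2) =
      ∑ r ∈ Finset.univ with r ^ 2 = t, f t := by
    refine Finset.sum_congr rfl fun r hr => ?_
    rw [(Finset.mem_filter.1 hr).2]
  rw [h1, Finset.sum_const, nsmul_eq_mul]
  congr 1
  have h3 := quadraticChar_card_sqrts hF t
  have h4 : (Finset.univ.filter fun r : F => r ^ 2 = t) = ({x : F | x ^ 2 = t} : Set F).toFinset := by
    ext r
    simp
  rw [h4]
  exact_mod_cast congrArg (fun z : ℤ => (z : ℂ)) h3

open Classical in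
theorem sum_sq_char {F : Type*} [Field F] [Fintype F] (h2 : (2 : F) ≠ 0) (ψ : F → ℂ)
    (h0 : ∑ t, ψ t = 0) (u : F) (hu : u ≠ 0) :
    ∑ r, ψ (u * r ^ 2) = (if IsSquare u then 1 else -1) * ∑ r, ψ (r ^ 2) := by
  have h1 := sum_sq_fib h2 ψ
  have h3 := sum_sq_fib h2 (fun t => ψ (u * t))
  rw [h1, h3]
  have h4 : ∑ t, (((quadraticChar F t : ℤ) : ℂ) + 1) * ψ (u * t) =
      ∑ t, ((((quadraticChar F u : ℤ) : ℂ) * ((quadraticChar F t : ℤ) : ℂ)) + 1) * ψ t := by
    refine Fintype.sum_equiv (Equiv.mulLeft₀ u hu) _ _ fun t => ?_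
    show _ = ((((quadraticChar F u : ℤ) : ℂ) * ((quadraticChar F (u * t) : ℤ) : ℂ)) + 1) * ψ (u * t)
    congr 2
    rw [map_mul]
    push_cast
    have h5 := quadraticChar_sq_one hu
    have h6 : ((quadraticChar F u : ℤ) : ℂ) ^ 2 = 1 := by exact_mod_cast h5
    rw [← mul_assoc, ← pow_two, h6, one_mul]
  rw [h4]
  simp only [add_mul, one_mul, Finset.sum_add_distrib, h0, add_zero]
  have h7 : ((quadraticChar F u : ℤ) : ℂ) = if IsSquare u then 1 else -1 := by
    split_ifs with hs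
    · rw [(quadraticChar_one_iff_isSquare hu).2 hs]
      simp
    · rcases quadraticChar_dichotomy hu with h | h
      · exact absurd ((quadraticChar_one_iff_isSquare hu).1 h) hs
      · rw [h]
        simp
  rw [← h7, Finset.mul_sum]
  refine Finset.sum_congr rfl fun t _ => ?_
  ring

end Pool.Agent.Lib.MP_2f3286_ag.UA
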