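import Pool.Agent.Lib.MP_2f3286_ag.UA.P14
import Pool.Agent.Lib.MP_2f3286_ag.UA.P15

/-!
# P16: the odd case of (G12)

Text. `l = ordv v c + δ = 2 h + 1`, `y₀ ∈ AL v (h + 1)`, `v.valuation y₀ = exp (h + 1)` (`exists_mem_AL`), `κ = 𝓞 k ⧸ v.asIdeal` (a finite field,
`2 ≠ 0` in it). For an integer `a` let `f a = ee (Tr (c y₀ ^ 2 a))`. `f a` depends only on the class of `a` in `κ`: for `a ∈ v`:
`v.valuation (c y₀ ^ 2 a) ≤ exp (- ordv v c + 2 (h + 1) - 1) = exp δ`, so `Cd`, so the trace is an integer. So there is `ψ : κ → ℂ` with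
`ψ (mk a) = f a`, `ψ (s + t) = ψ s * ψ t`, and `ψ` is not identically one (otherwise `Cd (c y₀ ^ 2)`, but `v.valuation = exp (δ + 1)`), so `∑ ψ = 0`
(`∑ ψ = ∑ t, ψ (t + s) = ψ s ∑ ψ`).
A set of representatives `T₀` of `κ` in `𝓞 k` gives the transversal `{r y₀ : r ∈ T₀}` of `AL v h` in `AL v (h + 1)` (`AL_gen` with `m = h`, and `r y₀ ∈ AL v h` iff
`r ∈ v`). So for every `u : 𝓞 k`, `u ∉ v`: `GS (bf (c u)) (AL v (h+1)) (AL v h) = ∑ r ∈ T₀, ee (Tr (c u r ^ 2 y₀ ^ 2)) = ∑ t : κ, ψ (ū t ^ 2)`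
(`ordv v (c u) = ordv v c`). Now `sum_sq_char` (P15).
-/

open NumberField IsDedekindDomain

namespace Pool.Agent.Lib.MP_2f3286_ag.UA

private lemma P16_lt_one (x : WithZero (Multiplicative ℤ)) :
    x < 1 ↔ x ≤ WithZero.exp (-1 : ℤ) := by
  by_cases hx : x = 0
  · rw [hx]
    exact ⟨fun _ => zero_le, fun _ => zero_lt_one⟩
  · rw [← WithZero.exp_log hx, ← WithZero.exp_zero, WithZero.exp_lt_exp, WithZero.exp_le_exp]
    omega

private lemma P16_sum {F : Type*} [CommRing F] [Fintype F] (hF : IsField F) (h2 : (2 : F) ≠ 0)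
    (ψ : F → ℂ) (h0 : ∑ t, ψ t = 0) (u : F) (hu : u ≠ 0) :
    (∃ e : ℂ, ((IsSquare u → e = 1) ∧ (¬ IsSquare u → e = -1)) ∧
      ∑ r, ψ (u * r ^ 2) = e * ∑ r, ψ (r ^ 2)) := by
  let _ : Field F := hF.toField
  classical
  refine ⟨_, ⟨fun h => ?_, fun h => ?_⟩, sum_sq_char h2 ψ h0 u hu⟩
  · exact if_pos h
  · exact if_neg h

variable {k : Type*} [Field k] [NumberField k]

private lemma P16_mem {v : HeightOneSpectrum (𝓞 k)} (a : 𝓞 k) :
    a ∈ v.asIdeal ↔ v.valuation k (a : k) ≤ WithZero.exp (-1 : ℤ) := by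
  rw [← P16_lt_one]
  exact (v.valuation_lt_one_iff_mem a).symm

private lemma P16_val (v : HeightOneSpectrum (𝓞 k)) {c : k} (hc : c ≠ 0) :
    v.valuation k c = WithZero.exp (-(ordv v c)) := by
  rw [ordv, neg_neg, WithZero.exp_log ((Valuation.ne_zero_iff _).2 hc)]

/-- the element `a y₀` is in the smaller lattice iff `a` is in `v` -/
private lemma P16_lat {v : HeightOneSpectrum (𝓞 k)} {h : ℕ} {y₀ : k} (hy : y₀ ∈ AL v (h + 1))
    (hy2 : v.valuation k y₀ = WithZero.exp ((h : ℤ) + 1)) (a : 𝓞 k) :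
    (a : k) * y₀ ∈ AL v h ↔ a ∈ v.asIdeal := by
  rw [mem_AL, P16_mem, map_mul, hy2]
  constructor
  · rintro ⟨h1, -⟩
    have h3 := mul_le_mul_left h1 (WithZero.exp (-((h : ℤ) + 1)))
    rw [mul_assoc, ← WithZero.exp_add, ← WithZero.exp_add] at h3
    have e1 : ((h : ℤ) + 1 + -((h : ℤ) + 1)) = 0 := by ring
    have e2 : ((h : ℤ) + -((h : ℤ) + 1)) = -1 := by ring
    rwa [e1, e2, WithZero.exp_zero, mul_one] at h3
  · intro h1
    refine ⟨?_, fun w hw => ?_⟩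
    · have h3 := mul_le_mul_left h1 (WithZero.exp ((h : ℤ) + 1))
      rw [← WithZero.exp_add] at h3
      have e1 : (-1 + ((h : ℤ) + 1)) = h := by ring
      rwa [e1] at h3
    · rw [map_mul]
      exact mul_le_one' (w.valuation_le_one a) (hy.2 w hw)

/-- representatives give a transversal -/
private lemma P16_trv {v : HeightOneSpectrum (𝓞 k)} {h : ℕ} {y₀ : k} (hy : y₀ ∈ AL v (h + 1))
    (hy2 : v.valuation k y₀ = WithZero.exp ((h : ℤ) + 1)) [Fintype (𝓞 k ⧸ v.asIdeal)]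
    [DecidableEq k] (ρ : 𝓞 k ⧸ v.asIdeal → 𝓞 k) (hρ : ∀ t, Ideal.Quotient.mk v.asIdeal (ρ t) = t) :
    IsTrv (AL v ((h : ℤ) + 1)).toAddSubgroup (AL v h).toAddSubgroup
      (Finset.univ.image (fun t => (ρ t : k) * y₀)) ∧
    Function.Injective (fun t => (ρ t : k) * y₀) := by
  have hmem : ∀ a : 𝓞 k, (a : k) * y₀ ∈ AL v ((h : ℤ) + 1) := by
    intro a
    have h1 := (AL v ((h : ℤ) + 1)).smul_mem a hy
    rwa [Algebra.smul_def] at h1
  have hsub : ∀ a b : 𝓞 k, (a : k) * y₀ - (b : k) * y₀ ∈ AL v (h : ℤ) ↔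
      Ideal.Quotient.mk v.asIdeal a = Ideal.Quotient.mk v.asIdeal b := by
    intro a b
    have e1 : (a : k) * y₀ - (b : k) * y₀ = ((a - b : 𝓞 k) : k) * y₀ := by
      push_cast
      ring
    rw [e1, P16_lat hy hy2, Ideal.Quotient.eq]
  constructor
  · constructor
    · intro t ht
      obtain ⟨s, -, rfl⟩ := Finset.mem_image.mp ht
      exact hmem _
    · intro y hyy
      have hyy' : y ∈ AL v ((h : ℤ) + 1) := hyy
      obtain ⟨r, hr⟩ := AL_gen (m := (h : ℤ)) (Int.natCast_nonneg h) hyy' hy hy2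
      have h5 : ∀ t, y - (ρ t : k) * y₀ ∈ AL v (h : ℤ) ↔ Ideal.Quotient.mk v.asIdeal r = t := by
        intro t
        have h6 : y - (ρ t : k) * y₀ ∈ AL v (h : ℤ) ↔
            (r : k) * y₀ - (ρ t : k) * y₀ ∈ AL v (h : ℤ) := by
          have e2 : y - (ρ t : k) * y₀ = (y - r * y₀) + ((r : k) * y₀ - (ρ t : k) * y₀) := by ring
          rw [e2]
          exact (AL v (h : ℤ)).add_mem_iff_right hr
        rw [h6, hsub, hρ]
      refine ⟨(ρ (Ideal.Quotient.mk v.asIdeal r) : k) * y₀,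
        ⟨Finset.mem_image_of_mem _ (Finset.mem_univ _), (h5 _).mpr rfl⟩, ?_⟩
      rintro t ⟨ht, ht2⟩
      obtain ⟨s, -, rfl⟩ := Finset.mem_image.mp ht
      rw [(h5 s).mp ht2]
  · intro s t hst
    have hst' : (ρ s : k) * y₀ = (ρ t : k) * y₀ := hst
    rw [← hρ s, ← hρ t, ← hsub, hst', sub_self]
    exact Submodule.zero_mem _

private lemma P16_one (v : HeightOneSpectrum (𝓞 k)) (u : 𝓞 k) (hu : u ∉ v.asIdeal) :
    v.valuation k (u : k) = 1 := (v.valuation_eq_one_iff_notMem).mpr hu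

/-- the valuation of `c y₀ ^ 2` -/
private lemma P16_cy {v : HeightOneSpectrum (𝓞 k)} {δ h : ℕ} {c : 𝓞 k} (hc : c ≠ 0)
    (ho : ordv v (c : k) + δ = 2 * h + 1) {y₀ : k}
    (hy2 : v.valuation k y₀ = WithZero.exp ((h : ℤ) + 1)) :
    v.valuation k ((c : k) * y₀ ^ 2) = WithZero.exp ((δ : ℤ) + 1) := by
  have hck : (c : k) ≠ 0 := by
    intro h0
    apply hc
    apply RingOfIntegers.coe_injective
    rw [map_zero]
    exact h0
  rw [map_mul, map_pow, hy2, P16_val v hck, ← WithZero.exp_nsmul, ← WithZero.exp_add]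
  congr 1
  rw [nsmul_eq_mul]
  push_cast
  omega

/-- the trace is integral on `v` -/
private lemma P16_isZ {v : HeightOneSpectrum (𝓞 k)} {δ : ℕ}
    (hδ : ∀ y : k, (∀ w, w ≠ v → w.valuation k y ≤ 1) →
      (Cd y ↔ v.valuation k y ≤ WithZero.exp (δ : ℤ))) {c : 𝓞 k} (hc : c ≠ 0) {h : ℕ}
    (ho : ordv v (c : k) + δ = 2 * h + 1) {y₀ : k} (hy : y₀ ∈ AL v (h + 1))
    (hy2 : v.valuation k y₀ = WithZero.exp ((h : ℤ) + 1)) (a : 𝓞 k) (ha : a ∈ v.asIdeal) :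
    IsZ (Algebra.trace ℚ k ((c : k) * y₀ ^ 2 * a)) := by
  have h1 : Cd ((c : k) * y₀ ^ 2 * a) := by
    rw [hδ]
    · rw [map_mul, P16_cy hc ho hy2]
      have h3 := mul_le_mul_right ((P16_mem a).mp ha) (WithZero.exp ((δ : ℤ) + 1))
      rw [← WithZero.exp_add] at h3
      have e1 : ((δ : ℤ) + 1 + -1) = δ := by ring
      rwa [e1] at h3
    · intro w hw
      rw [map_mul, map_mul, map_pow]
      exact mul_le_one' (mul_le_one' (w.valuation_le_one c) (pow_le_one' (hy.2 w hw) 2))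
        (w.valuation_le_one a)
  have h2 := h1 1
  have e1 : ((1 : 𝓞 k) : k) = 1 := map_one _
  rwa [e1, mul_one] at h2

/-- the trace is not always integral -/
private lemma P16_not {v : HeightOneSpectrum (𝓞 k)} {δ : ℕ}
    (hδ : ∀ y : k, (∀ w, w ≠ v → w.valuation k y ≤ 1) →
      (Cd y ↔ v.valuation k y ≤ WithZero.exp (δ : ℤ))) {c : 𝓞 k} (hc : c ≠ 0) {h : ℕ}
    (ho : ordv v (c : k) + δ = 2 * h + 1) {y₀ : k} (hy : y₀ ∈ AL v (h + 1))
    (hy2 : v.valuation k y₀ = WithZero.exp ((h : ℤ) + 1)) :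
    ∃ a : 𝓞 k, ¬ IsZ (Algebra.trace ℚ k ((c : k) * y₀ ^ 2 * a)) := by
  by_contra hcon
  push Not at hcon
  have h1 : Cd ((c : k) * y₀ ^ 2) := hcon
  rw [hδ, P16_cy hc ho hy2, WithZero.exp_le_exp] at h1
  · omega
  · intro w hw
    rw [map_mul, map_pow]
    exact mul_le_one' (w.valuation_le_one c) (pow_le_one' (hy.2 w hw) 2)

open Classical in
/-- the sum on `AL v (h + 1)` modulo `AL v h` -/
theorem GS_v_odd {v : HeightOneSpectrum (𝓞 k)} (hv : (2 : 𝓞 k) ∉ v.asIdeal) {δ : ℕ}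
    (hδ : ∀ y : k, (∀ w, w ≠ v → w.valuation k y ≤ 1) →
      (Cd y ↔ v.valuation k y ≤ WithZero.exp (δ : ℤ))) (c : 𝓞 k) (hc : c ≠ 0) (h : ℕ)
    (ho : ordv v (c : k) + δ = 2 * h + 1) (u : 𝓞 k) (hu : u ∉ v.asIdeal)
    (h1 : GOK (bf (c : k)) (AL v (h + 1)).toAddSubgroup (AL v h).toAddSubgroup)
    (h2 : GOK (bf ((c * u : 𝓞 k) : k)) (AL v (h + 1)).toAddSubgroup (AL v h).toAddSubgroup) :
    GS (bf ((c * u : 𝓞 k) : k)) (AL v (h + 1)).toAddSubgroup (AL v h).toAddSubgroup =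
      (if IsSquare (Ideal.Quotient.mk v.asIdeal u) then 1 else -1) *
        GS (bf (c : k)) (AL v (h + 1)).toAddSubgroup (AL v h).toAddSubgroup := by
  obtain ⟨y₀, hy, hy2⟩ := exists_mem_AL v (h + 1)
  have hcast : (((h + 1 : ℕ)) : ℤ) = (h : ℤ) + 1 := by push_cast; ring
  rw [hcast] at hy hy2
  have hmax : v.asIdeal.IsMaximal := v.isMaximal
  have hfin : Finite (𝓞 k ⧸ v.asIdeal) := inferInstance
  let _ : Fintype (𝓞 k ⧸ v.asIdeal) := Fintype.ofFinite _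
  have hF : IsField (𝓞 k ⧸ v.asIdeal) :=
    (Ideal.Quotient.maximal_ideal_iff_isField_quotient v.asIdeal).mp hmax
  set f : 𝓞 k → ℂ := fun a => ee (Algebra.trace ℚ k ((c : k) * y₀ ^ 2 * a)) with hf
  have hfadd : ∀ a b, f (a + b) = f a * f b := by
    intro a b
    simp only [hf]
    rw [← ee_add, ← map_add]
    congr 2
    push_cast
    ring
  have hf1 : ∀ a ∈ v.asIdeal, f a = 1 := fun a ha => ee_of_isZ (P16_isZ hδ hc ho hy hy2 a ha)
  have hfc : ∀ a b, Ideal.Quotient.mk v.asIdeal a = Ideal.Quotient.mk v.asIdeal b → f a = f b := by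
    intro a b hab
    have h3 : f a = f ((a - b) + b) := by rw [sub_add_cancel]
    rw [h3, hfadd, hf1 _ (Ideal.Quotient.eq.mp hab), one_mul]
  let ρ : 𝓞 k ⧸ v.asIdeal → 𝓞 k := fun t => (Ideal.Quotient.mk_surjective t).choose
  have hρ : ∀ t, Ideal.Quotient.mk v.asIdeal (ρ t) = t := fun t =>
    (Ideal.Quotient.mk_surjective t).choose_spec
  set ψ : 𝓞 k ⧸ v.asIdeal → ℂ := fun t => f (ρ t) with hψ
  have hψmk : ∀ a, ψ (Ideal.Quotient.mk v.asIdeal a) = f a := fun a => hfc _ _ (hρ _)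
  have hψadd : ∀ s t, ψ (s + t) = ψ s * ψ t := by
    intro s t
    have h3 : s + t = Ideal.Quotient.mk v.asIdeal (ρ s + ρ t) := by rw [map_add, hρ, hρ]
    rw [h3, hψmk, hfadd]
  have hsum0 : ∑ t, ψ t = 0 := by
    obtain ⟨a, ha⟩ := P16_not hδ hc ho hy hy2
    have h3 : ∑ t, ψ (t + Ideal.Quotient.mk v.asIdeal a) = ∑ t, ψ t :=
      Fintype.sum_equiv (Equiv.addRight _) _ _ (fun t => rfl)
    have h4 : (∑ t, ψ t) * (f a - 1) = 0 := by
      rw [mul_sub, mul_one, sub_eq_zero]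
      conv_rhs => rw [← h3]
      rw [Finset.sum_mul]
      refine Finset.sum_congr rfl fun t _ => ?_
      rw [hψadd, hψmk]
    rcases mul_eq_zero.mp h4 with h5 | h5
    · exact h5
    · exact absurd ((ee_eq_one_iff _).mp (sub_eq_zero.mp h5)) ha
  obtain ⟨hT, hinj⟩ := P16_trv hy hy2 ρ hρ
  have hGS : ∀ b : 𝓞 k, GOK (bf ((c * b : 𝓞 k) : k)) (AL v (h + 1)).toAddSubgroup
      (AL v h).toAddSubgroup →
      GS (bf ((c * b : 𝓞 k) : k)) (AL v (h + 1)).toAddSubgroup (AL v h).toAddSubgroup =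
        ∑ t, ψ (Ideal.Quotient.mk v.asIdeal b * t ^ 2) := by
    intro b hb
    rw [GS_eq_sum hb hT, Finset.sum_image (fun s _ t _ hst => hinj hst)]
    refine Finset.sum_congr rfl fun t _ => ?_
    have h3 : Ideal.Quotient.mk v.asIdeal b * t ^ 2 =
        Ideal.Quotient.mk v.asIdeal (b * ρ t ^ 2) := by rw [map_mul, map_pow, hρ]
    rw [h3, hψmk, bf_apply]
    simp only [hf]
    congr 2
    push_cast
    ring
  have h2' : (2 : 𝓞 k ⧸ v.asIdeal) ≠ 0 := by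
    intro h0
    apply hv
    have h3 : Ideal.Quotient.mk v.asIdeal (2 : 𝓞 k) = 0 := by rw [map_ofNat]; exact h0
    exact Ideal.Quotient.eq_zero_iff_mem.mp h3
  have hu' : Ideal.Quotient.mk v.asIdeal u ≠ 0 := fun h0 =>
    hu (Ideal.Quotient.eq_zero_iff_mem.mp h0)
  obtain ⟨e, ⟨he1, he2⟩, he⟩ := P16_sum hF h2' ψ hsum0 _ hu'
  have hc1 : c = c * 1 := (mul_one c).symm
  have h1' : GOK (bf ((c * 1 : 𝓞 k) : k)) (AL v (h + 1)).toAddSubgroup
      (AL v h).toAddSubgroup := by rw [mul_one]; exact h1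
  have h7 := hGS 1 h1'
  rw [mul_one] at h7
  rw [hGS u h2, he, h7]
  have h8 : ∑ r, ψ (r ^ 2) = ∑ t, ψ (Ideal.Quotient.mk v.asIdeal 1 * t ^ 2) := by
    refine Finset.sum_congr rfl fun t _ => ?_
    rw [map_one, one_mul]
  rw [h8]
  congr 1
  by_cases hs : IsSquare (Ideal.Quotient.mk v.asIdeal u)
  · rw [if_pos hs, he1 hs]
  · rw [if_neg hs, he2 hs]

end Pool.Agent.Lib.MP_2f3286_ag.UA
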