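import Pool.Agent.Lib.MP_2f3286_ag.UA.PDefs
import Pool.Agent.Lib.MP_2f3286_ag.UA.DA

/-!
# Part I: the lattices `v ^ (-h)` and the dual of the trace form

`AL v h` : elements which are integral at all places `w ≠ v` and have order at least `-h` at `v`. `Cd y`: `Tr (y R)` is integral.
-/

open NumberField IsDedekindDomain

namespace Pool.Agent.Lib.MP_2f3286_ag.UA

variable {k : Type*} [Field k] [NumberField k]

/-- `v ^ (-h)` -/
noncomputable def AL (v : HeightOneSpectrum (𝓞 k)) (h : ℤ) : Submodule (𝓞 k) k where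
  carrier := {y | v.valuation k y ≤ WithZero.exp h ∧ ∀ w, w ≠ v → w.valuation k y ≤ 1}
  zero_mem' := ⟨by rw [map_zero]; exact zero_le, fun w _ => by rw [map_zero]; exact zero_le⟩
  add_mem' := by
    rintro y y' ⟨h1, h2⟩ ⟨h1', h2'⟩
    exact ⟨((v.valuation k).map_add _ _).trans (max_le h1 h1'),
      fun w hw => ((w.valuation k).map_add _ _).trans (max_le (h2 w hw) (h2' w hw))⟩
  smul_mem' := by
    rintro r y ⟨h1, h2⟩
    refine ⟨?_, fun w hw => ?_⟩
    · rw [Algebra.smul_def, map_mul]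
      exact mul_le_of_le_one_of_le (v.valuation_le_one r) h1
    · rw [Algebra.smul_def, map_mul]
      exact mul_le_one' (w.valuation_le_one r) (h2 w hw)

lemma mem_AL {v : HeightOneSpectrum (𝓞 k)} {h : ℤ} {y : k} :
    y ∈ AL v h ↔ v.valuation k y ≤ WithZero.exp h ∧ ∀ w, w ≠ v → w.valuation k y ≤ 1 := Iff.rfl

lemma AL_mono (v : HeightOneSpectrum (𝓞 k)) {h h' : ℤ} (hh : h ≤ h') : AL v h ≤ AL v h' :=
  fun _ hy => ⟨hy.1.trans (WithZero.exp_le_exp.mpr hh), hy.2⟩

lemma AL_zero (v : HeightOneSpectrum (𝓞 k)) : AL v 0 = RL k := by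
  ext y
  rw [mem_RL, mem_AL]
  constructor
  · rintro ⟨h1, h2⟩
    obtain ⟨r, hr⟩ := HeightOneSpectrum.mem_integers_of_valuation_le_one (R := 𝓞 k) k y (by
      intro w
      by_cases hw : w = v
      · rw [hw]; simpa using h1
      · exact h2 w hw)
    exact ⟨r, hr⟩
  · rintro ⟨r, rfl⟩
    exact ⟨by simpa using v.valuation_le_one r, fun w _ => w.valuation_le_one r⟩

/-- `Tr (y R)` is integral -/
def Cd (y : k) : Prop := ∀ r : 𝓞 k, IsZ (Algebra.trace ℚ k (y * r))

lemma Cd.add {x y : k} (hx : Cd x) (hy : Cd y) : Cd (x + y) := fun r => by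
  rw [add_mul, map_add]; exact (hx r).add (hy r)

lemma Cd.smul {y : k} (hy : Cd y) (s : 𝓞 k) : Cd (s * y) := fun r => by
  have h := hy (s * r)
  have h2 : y * ((s * r : 𝓞 k) : k) = s * y * r := by
    have : ((s * r : 𝓞 k) : k) = s * r := map_mul (algebraMap (𝓞 k) k) s r
    rw [this]; ring
  rwa [h2] at h

end Pool.Agent.Lib.MP_2f3286_ag.UA
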