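import Pool.Agent.Lib.MP_2f3286_ag.UA.GSum

/-!
# Part I: definitions (lattices, dual lattices at an ideal, trace forms)

`DI b I L = {y : 2 b(y, L) integral, I^n y in L for some n}`, `DT b L = {y : 2 b(y, L) integral}`.
`bf c (x, y) = Tr (c x y)` on the number field `k`, `ZL` the ring of integers as a subgroup of `k`,
`gs I c` the Gauss sum of `Tr (c y^2)` on `DI (bf c) I 1` modulo the integers.
-/

open NumberField

namespace Pool.Agent.Lib.MP_2f3286_ag.UA

section abs

variable {R V : Type*} [CommRing R] [AddCommGroup V] [Module R V]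

/-- symmetric, and multiplication by `R` is self adjoint -/
structure IsRB (R : Type*) {V : Type*} [CommRing R] [AddCommGroup V] [Module R V]
    (b : V →+ V →+ ℚ) : Prop where
  symm : ∀ x y, b x y = b y x
  smul : ∀ (r : R) (x y : V), b (r • x) y = b x (r • y)

/-- the dual lattice at `I` -/
def DI (b : V →+ V →+ ℚ) (I : Ideal R) (L : Submodule R V) : AddSubgroup V where
  carrier := {y | (∀ x ∈ L, IsZ (2 * b y x)) ∧ ∃ n : ℕ, ∀ r ∈ I ^ n, r • y ∈ L}
  zero_mem' := ⟨fun x _ => by simpa using IsZ.zero, 0, fun r _ => by simp⟩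
  add_mem' := by
    rintro y y' ⟨h1, n, h2⟩ ⟨h1', n', h2'⟩
    refine ⟨fun x hx => ?_, max n n', fun r hr => ?_⟩
    · rw [map_add, AddMonoidHom.add_apply, mul_add]
      exact (h1 x hx).add (h1' x hx)
    · rw [smul_add]
      exact L.add_mem (h2 r (Ideal.pow_le_pow_right (le_max_left _ _) hr))
        (h2' r (Ideal.pow_le_pow_right (le_max_right _ _) hr))
  neg_mem' := by
    rintro y ⟨h1, n, h2⟩
    refine ⟨fun x hx => ?_, n, fun r hr => ?_⟩
    · rw [map_neg, AddMonoidHom.neg_apply, mul_neg]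
      exact (h1 x hx).neg
    · rw [smul_neg]
      exact L.neg_mem (h2 r hr)

/-- the whole dual lattice -/
def DT (b : V →+ V →+ ℚ) (L : AddSubgroup V) : AddSubgroup V where
  carrier := {y | ∀ x ∈ L, IsZ (2 * b y x)}
  zero_mem' := fun x _ => by simpa using IsZ.zero
  add_mem' := by
    intro y y' h1 h1' x hx
    rw [map_add, AddMonoidHom.add_apply, mul_add]
    exact (h1 x hx).add (h1' x hx)
  neg_mem' := by
    intro y h1 x hx
    rw [map_neg, AddMonoidHom.neg_apply, mul_neg]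
    exact (h1 x hx).neg

lemma mem_DI {b : V →+ V →+ ℚ} {I : Ideal R} {L : Submodule R V} {y : V} :
    y ∈ DI b I L ↔ (∀ x ∈ L, IsZ (2 * b y x)) ∧ ∃ n : ℕ, ∀ r ∈ I ^ n, r • y ∈ L := Iff.rfl

lemma mem_DT {b : V →+ V →+ ℚ} {L : AddSubgroup V} {y : V} :
    y ∈ DT b L ↔ ∀ x ∈ L, IsZ (2 * b y x) := Iff.rfl

end abs

section num

variable {k : Type*} [Field k] [NumberField k]

/-- the trace form `Tr (c x y)` -/
noncomputable def bf (c : k) : k →+ k →+ ℚ :=
  AddMonoidHom.mk' (fun x => AddMonoidHom.mk' (fun y => Algebra.trace ℚ k (c * x * y))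
    (fun y y' => by rw [mul_add, map_add]))
    (fun x x' => by
      ext y
      simp only [AddMonoidHom.mk'_apply, AddMonoidHom.add_apply]
      rw [mul_add, add_mul, map_add])

lemma bf_apply (c x y : k) : bf c x y = Algebra.trace ℚ k (c * x * y) := rfl

/-- the integers of `k` as a submodule of `k` -/
abbrev RL (k : Type*) [Field k] [NumberField k] : Submodule (𝓞 k) k := 1

/-- the integers of `k` as a subgroup of `k` -/
abbrev ZL (k : Type*) [Field k] [NumberField k] : AddSubgroup k :=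
  (1 : Submodule (𝓞 k) k).toAddSubgroup

lemma mem_RL {x : k} : x ∈ RL k ↔ ∃ r : 𝓞 k, (r : k) = x := Submodule.mem_one

lemma mem_ZL {x : k} : x ∈ ZL k ↔ ∃ r : 𝓞 k, (r : k) = x := Submodule.mem_one

lemma isRB_bf (c : k) : IsRB (𝓞 k) (bf c) where
  symm x y := by rw [bf_apply, bf_apply]; congr 1; ring
  smul r x y := by
    rw [bf_apply, bf_apply, Algebra.smul_def, Algebra.smul_def]
    congr 1
    ring

/-- the Gauss sum at the ideal `I` of the form `c y^2` -/
noncomputable def gs (I : Ideal (𝓞 k)) (c : 𝓞 k) : ℂ :=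
  GS (bf (c : k)) (DI (bf (c : k)) I (RL k)) (ZL k)

/-- positive real numbers in `ℂ` -/
def Pos (z : ℂ) : Prop := ∃ r : ℝ, 0 < r ∧ z = r

lemma Pos.mul {z w : ℂ} (hz : Pos z) (hw : Pos w) : Pos (z * w) := by
  obtain ⟨r, hr, rfl⟩ := hz
  obtain ⟨s, hs, rfl⟩ := hw
  exact ⟨r * s, mul_pos hr hs, by push_cast; rfl⟩

lemma Pos.nat {n : ℕ} (hn : 0 < n) : Pos (n : ℂ) := ⟨n, by exact_mod_cast hn, by push_cast; rfl⟩

lemma Pos.ne_zero {z : ℂ} (hz : Pos z) : z ≠ 0 := by
  obtain ⟨r, hr, rfl⟩ := hz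
  exact_mod_cast hr.ne'

lemma Pos.inv {z : ℂ} (hz : Pos z) : Pos z⁻¹ := by
  obtain ⟨r, hr, rfl⟩ := hz
  exact ⟨r⁻¹, inv_pos.mpr hr, by push_cast; rfl⟩

lemma Pos.of_mul {z w : ℂ} (hz : Pos z) (hzw : Pos (z * w)) : Pos w := by
  have h1 : w = z⁻¹ * (z * w) := by
    rw [← mul_assoc, inv_mul_cancel₀ hz.ne_zero, one_mul]
  rw [h1]
  exact hz.inv.mul hzw

end num

end Pool.Agent.Lib.MP_2f3286_ag.UA
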