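import Pool.Agent.Lib.MP_2f3286_ag.UA.XD

/-!
# The points which specialise to zero at a valuation ring; points avoiding the points of `p`-power order

`V` is a valuation ring of `M` which contains the elements of `F`. The points of `W` over `M` which
specialise to zero at `V` form a subgroup `N`; a point over `F` in `N` is zero; the point `(x, y)` is in
`N` if and only if `x` is not in `V`; it specialises to a point of `p`-power order over `F` if and only if
not (`x` is in `V` and the `1 / (x - x(Q))` are in `V`).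
-/

open WeierstrassCurve WeierstrassCurve.Affine WeierstrassCurve.Affine.Point
open Pool.Agent.Lib.MP_2f3286_ag.Pt Pool.Agent.Lib.MP_2f3286_ag.Pt.Div
  Pool.Agent.Lib.MP_2f3286_ag.Top

namespace Pool.Agent.Lib.MP_2f3286_ag.UA

open scoped Classical in
/-- `N` is the group of the points over `M` which specialise to zero at `V`. -/
structure IsKer {F M : Type*} [Field F] [Field M] [Algebra F M] (W : WeierstrassCurve F)
    (V : ValuationSubring M) (N : AddSubgroup (W⁄M).Point) : Prop where
  some_mem : ∀ (x y : M) (h : (W⁄M).Nonsingular x y), (some x y h : (W⁄M).Point) ∈ N ↔ x ∉ V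
  const : ∀ C : (W⁄F).Point, Point.baseChange F M C ∈ N → C = 0
  sub_mem : ∀ (x y : M) (h : (W⁄M).Nonsingular x y) (a b : F) (h' : (W⁄F).Nonsingular a b),
    (some x y h : (W⁄M).Point) - Point.baseChange F M (some a b h') ∈ N ↔
      V.valuation (x - algebraMap F M a) < 1 ∧ V.valuation (y - algebraMap F M b) < 1

open scoped Classical in
theorem exists_ker {F M : Type*} [Field F] [Field M] [Algebra F M] (W : WeierstrassCurve F)
    [W.IsElliptic] (V : ValuationSubring M) (hV : ∀ c : F, algebraMap F M c ∈ V) :
    ∃ N : AddSubgroup (W⁄M).Point, IsKer W V N := by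
  let L := IsLocalRing.ResidueField V
  let φ : V →+* L := IsLocalRing.residue V
  let ι : F →+* V := (algebraMap F M).codRestrict V.toSubring hV
  let _ : Algebra F L := (φ.comp ι).toAlgebra
  have hsp' : ∀ c : F, Sp V φ (algebraMap F M c) (algebraMap F L c) := fun c => ⟨hV c, rfl⟩
  have hAB : CurveSp V φ (W⁄M) (W⁄L) := curveSp hsp'
  have : IsLocalHom φ := inferInstanceAs (IsLocalHom (IsLocalRing.residue V))
  have hconst : ∀ T : (W⁄F).Point, redHom hAB (Point.baseChange F M T) =
      Point.baseChange F L T := redHom_baseChange hAB hsp'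
  have hval : ∀ (x : M) (a : F), V.valuation (x - algebraMap F M a) < 1 ↔
      Sp V φ x (algebraMap F L a) := by
    intro x a
    constructor
    · intro h
      have h1 : x - algebraMap F M a ∈ V := (V.valuation_le_one_iff _).1 h.le
      have h2 : Sp V φ (x - algebraMap F M a) 0 := by
        refine ⟨h1, ?_⟩
        rw [IsLocalRing.residue_eq_zero_iff]
        exact (V.valuation_lt_one_iff ⟨_, h1⟩).mpr h
      have h3 := h2.add (hsp' a)
      rwa [sub_add_cancel, zero_add] at h3
    · rintro ⟨h1, h2⟩
      have h3 : x - algebraMap F M a ∈ V := sub_mem h1 (hV a)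
      have h4 : φ ⟨x - algebraMap F M a, h3⟩ = 0 := by
        have h5 : (⟨x - algebraMap F M a, h3⟩ : V) = ⟨x, h1⟩ - ⟨_, hV a⟩ := rfl
        rw [h5, map_sub, h2]
        exact sub_self _
      rw [IsLocalRing.residue_eq_zero_iff] at h4
      exact (V.valuation_lt_one_iff ⟨_, h3⟩).mp h4
  refine ⟨(redHom hAB).ker, ?_, ?_, ?_⟩
  · intro x y h
    rw [AddMonoidHom.mem_ker]
    constructor
    · intro h1 hx
      have h3 := equation_iff_nonsingular.mp ((sp_of_mem (φ := φ) hx).equation hAB
        (sp_of_mem (mem_y hAB hx h.1)) h.1)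
      have h5 : redHom hAB (some x y h) = some _ _ h3 :=
        red_some hAB h (sp_of_mem hx) (sp_of_mem (mem_y hAB hx h.1)) h3
      rw [h5] at h1
      exact some_ne_zero _ h1
    · exact fun hx => red_some_of_notMem hAB h hx
  · intro C hC
    rw [AddMonoidHom.mem_ker, hconst] at hC
    rcases C with _ | ⟨a, b, h⟩
    · rfl
    · exact absurd hC (some_ne_zero _)
  · intro x y h a b h'
    rw [AddMonoidHom.mem_ker, map_sub, hconst, sub_eq_zero, hval, hval]
    constructor
    · intro h1
      by_cases hx : x ∈ V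
      · have h3 := equation_iff_nonsingular.mp ((sp_of_mem (φ := φ) hx).equation hAB
          (sp_of_mem (mem_y hAB hx h.1)) h.1)
        have h5 : redHom hAB (some x y h) = some _ _ h3 :=
          red_some hAB h (sp_of_mem hx) (sp_of_mem (mem_y hAB hx h.1)) h3
        rw [h5] at h1
        have h4 := some.inj h1
        exact ⟨⟨hx, h4.1⟩, ⟨mem_y hAB hx h.1, h4.2⟩⟩
      · have h5 : redHom hAB (some x y h) = 0 := red_some_of_notMem hAB h hx
        rw [h5] at h1
        exact absurd h1.symm (some_ne_zero _)
    · rintro ⟨h1, h2⟩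
      exact red_some hAB h h1 h2
        ((Affine.baseChange_nonsingular (W := W) (Algebra.ofId F L).injective a b).mpr h')

section avoid

variable {F M : Type*} [Field F] [Field M] [Algebra F M] {W : WeierstrassCurve F}
  {V : ValuationSubring M}

open scoped Classical in
/-- the two points with the given first coordinate -/
theorem IsKer.of_x {N : AddSubgroup (W⁄M).Point} (H : IsKer W V N) [W.IsShortNF]
    (hV : ∀ c : F, algebraMap F M c ∈ V) {x y : M}
    (h : (W⁄M).Nonsingular x y) {a b : F} (h' : (W⁄F).Nonsingular a b)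
    (hx : V.valuation (x - algebraMap F M a) < 1) :
    (some x y h : (W⁄M).Point) - Point.baseChange F M (some a b h') ∈ N ∨
      (some x y h : (W⁄M).Point) + Point.baseChange F M (some a b h') ∈ N := by
  have e1 : y ^ 2 = x ^ 3 + algebraMap F M W.a₄ * x + algebraMap F M W.a₆ := by
    have h1 := (equation_iff (W := (W⁄M)) _ _).1 h.1
    have a1 : (W⁄M).a₁ = 0 := by
      change algebraMap F M W.a₁ = 0
      rw [a₁_of_isShortNF, _root_.map_zero]
    have a2 : (W⁄M).a₂ = 0 := by
      change algebraMap F M W.a₂ = 0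
      rw [a₂_of_isShortNF, _root_.map_zero]
    have a3 : (W⁄M).a₃ = 0 := by
      change algebraMap F M W.a₃ = 0
      rw [a₃_of_isShortNF, _root_.map_zero]
    rw [a1, a2, a3] at h1
    change _ = x ^ 3 + 0 * x ^ 2 + algebraMap F M W.a₄ * x + algebraMap F M W.a₆ at h1
    linear_combination h1
  have e2 : b ^ 2 = a ^ 3 + W.a₄ * a + W.a₆ := by
    have h1 := (equation_iff (W := (W⁄F)) _ _).1 h'.1
    have a1 : (W⁄F).a₁ = 0 := by
      change algebraMap F F W.a₁ = 0
      rw [a₁_of_isShortNF, _root_.map_zero]
    have a2 : (W⁄F).a₂ = 0 := by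
      change algebraMap F F W.a₂ = 0
      rw [a₂_of_isShortNF, _root_.map_zero]
    have a3 : (W⁄F).a₃ = 0 := by
      change algebraMap F F W.a₃ = 0
      rw [a₃_of_isShortNF, _root_.map_zero]
    rw [a1, a2, a3] at h1
    change _ = a ^ 3 + 0 * a ^ 2 + W.a₄ * a + W.a₆ at h1
    linear_combination h1
  have e3 := congrArg (algebraMap F M) e2
  simp only [map_add, map_mul, map_pow] at e3
  have hxV : x ∈ V := by
    have h1 : x - algebraMap F M a ∈ V := (V.valuation_le_one_iff _).1 hx.le
    have h2 := add_mem h1 (hV a)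
    rwa [sub_add_cancel] at h2
  have e4 : (y - algebraMap F M b) * (y - algebraMap F M (-b)) =
      (x - algebraMap F M a) * (x ^ 2 + x * algebraMap F M a + algebraMap F M a ^ 2 +
        algebraMap F M W.a₄) := by
    rw [map_neg]
    linear_combination e1 - e3
  have hq : V.valuation (x ^ 2 + x * algebraMap F M a + algebraMap F M a ^ 2 +
        algebraMap F M W.a₄) ≤ 1 := (V.valuation_le_one_iff _).2
    (add_mem (add_mem (add_mem (pow_mem hxV 2) (mul_mem hxV (hV a))) (pow_mem (hV a) 2)) (hV _))
  have e5 : V.valuation (y - algebraMap F M b) * V.valuation (y - algebraMap F M (-b)) < 1 := by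
    rw [← map_mul, e4, map_mul]
    exact mul_lt_one_of_lt_of_le hx hq
  rcases lt_or_ge (V.valuation (y - algebraMap F M b)) 1 with h1 | h1
  · exact Or.inl ((H.sub_mem x y h a b h').2 ⟨hx, h1⟩)
  · have h2 : V.valuation (y - algebraMap F M (-b)) < 1 := by
      by_contra hcon
      rw [not_lt] at hcon
      exact absurd e5 (not_lt.2 (one_le_mul_of_one_le_of_one_le h1 hcon))
    have h3 : (W⁄F).Nonsingular a (-b) := by
      have h4 := (nonsingular_neg (W' := (W⁄F)) a b).mpr h'
      have h5 : (W⁄F).negY a b = -b := by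
        have a1 : (W⁄F).a₁ = 0 := by
          change algebraMap F F W.a₁ = 0
          rw [a₁_of_isShortNF, _root_.map_zero]
        have a3 : (W⁄F).a₃ = 0 := by
          change algebraMap F F W.a₃ = 0
          rw [a₃_of_isShortNF, _root_.map_zero]
        rw [negY, a1, a3, zero_mul, sub_zero, sub_zero]
      rwa [h5] at h4
    have h6 : (some a (-b) h3 : (W⁄F).Point) = -some a b h' := by
      have h5 : (W⁄F).negY a b = -b := by
        have a1 : (W⁄F).a₁ = 0 := by
          change algebraMap F F W.a₁ = 0
          rw [a₁_of_isShortNF, _root_.map_zero]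
        have a3 : (W⁄F).a₃ = 0 := by
          change algebraMap F F W.a₃ = 0
          rw [a₃_of_isShortNF, _root_.map_zero]
        rw [negY, a1, a3, zero_mul, sub_zero, sub_zero]
      rw [neg_some]
      exact some_ext _ _ rfl h5.symm
    right
    have h7 := (H.sub_mem x y h a (-b) h3).2 ⟨hx, h2⟩
    rwa [h6, map_neg, sub_neg_eq_add] at h7

open scoped Classical in
/-- A point avoids the points of `p`-power order over `F` at `V` if its first coordinate does. -/
theorem IsKer.avoid_iff {N : AddSubgroup (W⁄M).Point} (H : IsKer W V N) [W.IsShortNF]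
    (hV : ∀ c : F, algebraMap F M c ∈ V) {p : ℕ} {x y : M} (h : (W⁄M).Nonsingular x y)
    (hx : ∀ c : F, x ≠ algebraMap F M c) :
    OnE W p x (· ∈ V) ↔ ∀ Q : (W⁄F).Point, (∃ m : ℕ, p ^ m • Q = 0) →
      (some x y h : (W⁄M).Point) - Point.baseChange F M Q ∉ N := by
  have hinv : ∀ a : F, V.valuation (x - algebraMap F M a) < 1 ↔
      (x - algebraMap F M a)⁻¹ ∉ V := by
    intro a
    have hne : x - algebraMap F M a ≠ 0 := sub_ne_zero.2 (hx a)
    rw [← V.valuation_le_one_iff, map_inv₀, not_le]
    rw [one_lt_inv₀ ((Valuation.pos_iff _).2 hne)]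
  constructor
  · rintro ⟨h1, h2⟩ Q hQ hN
    rcases Q with _ | ⟨a, b, h'⟩
    · have h3 : Point.baseChange F M (.zero : (W⁄F).Point) = 0 := _root_.map_zero _
      rw [h3, sub_zero, H.some_mem] at hN
      exact hN h1
    · have h3 := (H.sub_mem x y h a b h').1 hN
      exact (hinv a).1 h3.1 (h2 a b h' hQ)
  · intro h1
    refine ⟨?_, fun a b h' hQ => ?_⟩
    · by_contra hxV
      refine h1 0 ⟨0, smul_zero _⟩ ?_
      rw [_root_.map_zero, sub_zero, H.some_mem]
      exact hxV
    · by_contra hcon
      rcases H.of_x hV h h' ((hinv a).2 hcon) with h2 | h2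
      · exact h1 _ hQ h2
      · refine h1 (-some a b h') ?_ ?_
        · obtain ⟨m, hm⟩ := hQ
          exact ⟨m, by rw [smul_neg, hm, _root_.neg_zero]⟩
        · rwa [map_neg, sub_neg_eq_add]

end avoid

end Pool.Agent.Lib.MP_2f3286_ag.UA
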