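import Pool.Agent.Lib.MP_2f3286_ag.HYP.CvAgr

/-!
# The valuation ring of the function field of an elliptic curve at the point at infinity

`y ^ 2 = f(x)`, `f` of degree three. Two valuation rings of `M` which contain the constants and do not
contain `x` have the same intersection with the field generated by `x` and `y` over the constants: the
values of `p` and `q y`, `p` and `q` in the field generated by `x`, are integral and half-integral powers
of the value of `x`, so they are different.
-/

open Polynomial IntermediateField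

namespace Pool.Agent.Lib.MP_2f3286_ag.UA

variable {kb M : Type*} [Field kb] [Field M] [Algebra kb M]

theorem sq_aux {Γ : Type*} [CommMonoid Γ] (q y x : Γ) (b : ℕ) :
    (q * y) ^ 2 * x ^ (2 * b) = (q * x ^ b) ^ 2 * y ^ 2 := by
  rw [mul_pow, mul_pow, ← pow_mul, mul_comm b 2, mul_right_comm]

theorem val_const_one (V : ValuationSubring M) (hV : ∀ c : kb, algebraMap kb M c ∈ V) {c : kb}
    (hc : c ≠ 0) : V.valuation (algebraMap kb M c) = 1 := by
  apply le_antisymm ((V.valuation_le_one_iff _).2 (hV c))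
  have h1 := (V.valuation_le_one_iff _).2 (hV c⁻¹)
  rw [map_inv₀, map_inv₀] at h1
  have h2 : V.valuation (algebraMap kb M c) ≠ 0 := by
    rw [Valuation.ne_zero_iff]
    exact (_root_.map_ne_zero _).2 hc
  exact (inv_le_one₀ (zero_lt_iff.2 h2)).1 h1

/-- the value of a polynomial at a pole -/
theorem val_aeval_pole (V : ValuationSubring M)
    (hV : ∀ c : kb, algebraMap kb M c ∈ V) {x : M} (hx : x ∉ V) : ∀ (n : ℕ) (r : kb[X]), r ≠ 0 →
    r.natDegree = n → V.valuation (aeval x r) = V.valuation x ^ n := by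
  have hx1 : 1 < V.valuation x := by
    rw [← not_le, V.valuation_le_one_iff]
    exact hx
  intro n
  induction n with
  | zero =>
    intro r hr hn
    rw [eq_C_of_natDegree_eq_zero hn, aeval_C, pow_zero]
    refine val_const_one V hV fun h => hr ?_
    rw [eq_C_of_natDegree_eq_zero hn, h, C_0]
  | succ n ih =>
    intro r hr hn
    have h1 : r.divX ≠ 0 := by
      intro h
      have h2 := divX_mul_X_add r
      rw [h, zero_mul, zero_add] at h2
      rw [← h2, natDegree_C] at hn
      omega
    have h2 : r.divX.natDegree = n := by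
      rw [natDegree_divX_eq_natDegree_tsub_one, hn]
      rfl
    have h3 := ih _ h1 h2
    rw [← divX_mul_X_add r, map_add, map_mul, aeval_X, aeval_C]
    have h4 : V.valuation (aeval x r.divX * x) = V.valuation x ^ (n + 1) := by
      rw [map_mul, h3, pow_succ]
    rw [Valuation.map_add_eq_of_lt_left, h4]
    rw [h4]
    exact lt_of_le_of_lt ((V.valuation_le_one_iff _).2 (hV _)) (one_lt_pow₀ hx1 (Nat.succ_ne_zero n))

/-- the value of a rational function at a pole -/
theorem val_pole_simple {x p : M} (hp : p ∈ kb⟮x⟯) (hp0 : p ≠ 0) :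
    ∃ a b : ℕ, ∀ V : ValuationSubring M, (∀ c : kb, algebraMap kb M c ∈ V) → x ∉ V →
      V.valuation p * V.valuation x ^ b = V.valuation x ^ a := by
  obtain ⟨r, t, rfl⟩ := (mem_adjoin_simple_iff kb p).1 hp
  have ht : aeval x t ≠ 0 := by
    intro h
    rw [h, div_zero] at hp0
    exact hp0 rfl
  have hr : aeval x r ≠ 0 := by
    intro h
    rw [h, zero_div] at hp0
    exact hp0 rfl
  have ht0 : t ≠ 0 := by
    rintro rfl
    exact ht (map_zero _)
  have hr0 : r ≠ 0 := by
    rintro rfl
    exact hr (map_zero _)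
  refine ⟨r.natDegree, t.natDegree, fun V hV hx => ?_⟩
  have h1 := val_aeval_pole V hV hx _ r hr0 rfl
  have h2 := val_aeval_pole V hV hx _ t ht0 rfl
  rw [← h1, ← h2, ← map_mul, div_mul_cancel₀ _ ht]

/-- **Two valuation rings with a pole of `x` agree on the field generated by `x` and `y`.** -/
theorem agree_at_pole {f : kb[X]} (hf : f.natDegree = 3) {x y : M}
    (hxy : y ^ 2 = aeval x f) {V V' : ValuationSubring M} (hV : ∀ c : kb, algebraMap kb M c ∈ V)
    (hV' : ∀ c : kb, algebraMap kb M c ∈ V') (hx : x ∉ V) (hx' : x ∉ V') {z : M}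
    (hz : z ∈ adjoin kb {x, y}) (hzV : z ∈ V) : z ∈ V' := by
  have hf0 : f ≠ 0 := by
    rintro rfl
    simp at hf
  have hx1 : 1 < V.valuation x := by
    rw [← not_le, V.valuation_le_one_iff]
    exact hx
  have hx1' : 1 < V'.valuation x := by
    rw [← not_le, V'.valuation_le_one_iff]
    exact hx'
  have hy : ∀ O : ValuationSubring M, (∀ c : kb, algebraMap kb M c ∈ O) → x ∉ O →
      O.valuation y ^ 2 = O.valuation x ^ 3 := fun O h1 h2 => by
    rw [← map_pow, hxy, val_aeval_pole O h1 h2 _ f hf0 hf]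
  have hpow : ∀ O : ValuationSubring M, x ∉ O → ∀ m n : ℕ,
      O.valuation x ^ m ≤ O.valuation x ^ n ↔ m ≤ n := by
    intro O h1 m n
    have h2 : 1 < O.valuation x := by
      rw [← not_le, O.valuation_le_one_iff]
      exact h1
    exact pow_le_pow_iff_right₀ h2
  have hpos : ∀ O : ValuationSubring M, x ∉ O → ∀ n : ℕ, 0 < O.valuation x ^ n := by
    intro O h1 n
    have h2 : 1 < O.valuation x := by
      rw [← not_le, O.valuation_le_one_iff]
      exact h1
    exact pow_pos (zero_lt_one.trans h2) n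
  -- elements of the field generated by `x`
  have key1 : ∀ p ∈ kb⟮x⟯, p ∈ V → p ∈ V' := by
    intro p hp hpV
    by_cases hp0 : p = 0
    · rw [hp0]
      exact zero_mem _
    obtain ⟨a, b, hab⟩ := val_pole_simple hp hp0
    have h1 := hab V hV hx
    have h2 := hab V' hV' hx'
    have h3 : a ≤ b := by
      rw [← hpow V hx, ← h1]
      exact mul_le_of_le_one_left' ((V.valuation_le_one_iff _).2 hpV)
    rw [← V'.valuation_le_one_iff]
    by_contra hcon
    rw [not_le] at hcon
    have h4 : V'.valuation x ^ b < V'.valuation x ^ a := by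
      rw [← h2]
      exact lt_mul_of_one_lt_left (hpos V' hx' b) hcon
    exact absurd h4 (not_lt.2 ((hpow V' hx' a b).2 h3))
  -- multiples of `y`
  have key2 : ∀ q ∈ kb⟮x⟯, q * y ∈ V → q * y ∈ V' := by
    intro q hq hqV
    by_cases hq0 : q = 0
    · rw [hq0, zero_mul]
      exact zero_mem _
    obtain ⟨a, b, hab⟩ := val_pole_simple hq hq0
    have h1 : ∀ O : ValuationSubring M, (∀ c : kb, algebraMap kb M c ∈ O) → x ∉ O →
        O.valuation (q * y) ^ 2 * O.valuation x ^ (2 * b) = O.valuation x ^ (2 * a + 3) := by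
      intro O h3 h4
      have h5 := hab O h3 h4
      rw [map_mul, sq_aux, h5, hy O h3 h4, pow_add, ← pow_mul, mul_comm a 2]
    have h3 : 2 * a + 3 ≤ 2 * b := by
      rw [← hpow V hx, ← h1 V hV hx]
      exact mul_le_of_le_one_left' (pow_le_one₀ zero_le ((V.valuation_le_one_iff _).2 hqV))
    rw [← V'.valuation_le_one_iff]
    by_contra hcon
    rw [not_le] at hcon
    have h4 : V'.valuation x ^ (2 * b) < V'.valuation x ^ (2 * a + 3) := by
      rw [← h1 V' hV' hx']
      exact lt_mul_of_one_lt_left (hpos V' hx' _) (one_lt_pow₀ hcon two_ne_zero)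
    exact absurd h4 (not_lt.2 ((hpow V' hx' _ _).2 h3))
  obtain ⟨p, hp, q, hq, rfl⟩ := HYP.exists_decomp hxy hz
  suffices h : p ∈ V ∧ q * y ∈ V from add_mem (key1 p hp h.1) (key2 q hq h.2)
  by_cases hp0 : p = 0
  · rw [hp0, zero_add] at hzV
    exact ⟨hp0 ▸ zero_mem _, hzV⟩
  by_cases hq0 : q = 0
  · rw [hq0, zero_mul, add_zero] at hzV
    exact ⟨hzV, by rw [hq0, zero_mul]; exact zero_mem _⟩
  obtain ⟨a, b, hab⟩ := val_pole_simple hp hp0
  obtain ⟨c, d, hcd⟩ := val_pole_simple hq hq0
  have h1 := hab V hV hx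
  have h2 := hcd V hV hx
  have h3 : V.valuation p ≠ V.valuation (q * y) := by
    intro h
    have h4 : V.valuation p ^ 2 * (V.valuation x ^ (2 * b) * V.valuation x ^ (2 * d)) =
        V.valuation x ^ (2 * a + 2 * d) := by
      rw [← mul_assoc, ← mul_one (V.valuation p), sq_aux, one_pow, mul_one, h1, pow_add, ← pow_mul,
        mul_comm a 2]
    have h5 : V.valuation (q * y) ^ 2 * (V.valuation x ^ (2 * b) * V.valuation x ^ (2 * d)) =
        V.valuation x ^ (2 * c + 3 + 2 * b) := by
      rw [mul_comm (V.valuation x ^ (2 * b)), ← mul_assoc, map_mul, sq_aux, h2, hy V hV hx,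
        pow_add, pow_add, ← pow_mul, mul_comm c 2]
    rw [h, h5] at h4
    have h6 : 2 * c + 3 + 2 * b = 2 * a + 2 * d :=
      le_antisymm ((hpow V hx _ _).1 h4.le) ((hpow V hx _ _).1 h4.ge)
    omega
  have h4 : V.valuation (p + q * y) = max (V.valuation p) (V.valuation (q * y)) :=
    V.valuation.map_add_of_distinct_val h3
  have h5 : max (V.valuation p) (V.valuation (q * y)) ≤ 1 := by
    rw [← h4]
    exact (V.valuation_le_one_iff _).2 hzV
  exact ⟨(V.valuation_le_one_iff _).1 ((le_max_left _ _).trans h5),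
    (V.valuation_le_one_iff _).1 ((le_max_right _ _).trans h5)⟩

end Pool.Agent.Lib.MP_2f3286_ag.UA
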