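import Pool.Agent.Lib.MP_2f3286_ag.Full.Cheb

/-!
# Elements of a number field which are squares in all completions are squares
-/

open IsDedekindDomain NumberField

namespace Pool.Agent.Lib.MP_2f3286_ag.UA

universe u

/-- **An element which is a square in all completions at finite places is a square.** -/
theorem exists_sq_of_local {k : Type u} [Field k] [NumberField k] (c : k)
    (h : ∀ v : HeightOneSpectrum (𝓞 k), ∃ b : v.adicCompletion k,
      b ^ 2 = algebraMap k (v.adicCompletion k) c) : ∃ b : k, b ^ 2 = c := by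
  classical
  have : IsGalois k (AlgebraicClosure k) := {}
  obtain ⟨r, hr⟩ := IsAlgClosed.exists_pow_nat_eq (algebraMap k (AlgebraicClosure k) c)
    (n := 2) two_pos
  by_contra hcon
  -- an automorphism which changes the sign of `r`
  obtain ⟨σ, hσ⟩ : ∃ σ : Gal(AlgebraicClosure k/k), σ r ≠ r := by
    by_contra h1
    push Not at h1
    obtain ⟨b, hb⟩ := (InfiniteGalois.mem_range_algebraMap_iff_fixed r).2 h1
    apply hcon
    refine ⟨b, (algebraMap k (AlgebraicClosure k)).injective ?_⟩
    rw [map_pow, hb, hr]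
  have hsq : ∀ τ : Gal(AlgebraicClosure k/k), τ r = r ∨ τ r = -r := by
    intro τ
    have h1 : (τ r) ^ 2 = r ^ 2 := by rw [← map_pow, hr, AlgEquiv.commutes]
    exact sq_eq_sq_iff_eq_or_eq_neg.1 h1
  have hσ' : σ r = -r := (hsq σ).resolve_left hσ
  let L : IntermediateField k (AlgebraicClosure k) := IntermediateField.adjoin k {r}
  have hL : FiniteDimensional k L := IntermediateField.adjoin.finiteDimensional
    (Algebra.IsIntegral.isIntegral r)
  obtain ⟨v, -, hv⟩ := Full.cheb (k := k) ∅ L σ
  obtain ⟨ι⟩ : Nonempty (AlgebraicClosure k →ₐ[k] AlgebraicClosure (v.adicCompletion k)) :=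
    ⟨IsAlgClosed.lift⟩
  obtain ⟨g, σ', h1, τ, h2⟩ := hv ι
  have h3 : σ' r = -r := by
    rw [h1 r (IntermediateField.mem_adjoin_simple_self k r), hσ']
  obtain ⟨b, hb⟩ := h v
  have h4 : (ι (g r)) ^ 2 = (algebraMap _ (AlgebraicClosure (v.adicCompletion k)) b) ^ 2 := by
    rw [← map_pow, ← map_pow, hr, AlgEquiv.commutes, ← map_pow, hb, AlgHom.commutes]
    exact IsScalarTower.algebraMap_apply k (v.adicCompletion k) _ c
  have h5 : τ (ι (g r)) = ι (g r) := by
    rcases sq_eq_sq_iff_eq_or_eq_neg.1 h4 with h6 | h6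
    · rw [h6, AlgEquiv.commutes]
    · rw [h6, map_neg, AlgEquiv.commutes]
  have h6 : (g * σ' * g⁻¹) (g r) = -g r := by
    change g (σ' (g⁻¹ (g r))) = -g r
    have h7 : g⁻¹ (g r) = r := by
      rw [← AlgEquiv.mul_apply, inv_mul_cancel, AlgEquiv.one_apply]
    rw [h7, h3, map_neg]
  have h7 := h2 (g r)
  rw [h6, h5, map_neg] at h7
  have h8 : ι (g r) = 0 := by
    have h9 : (2 : AlgebraicClosure (v.adicCompletion k)) * ι (g r) = 0 := by
      linear_combination -h7
    rcases mul_eq_zero.1 h9 with h10 | h10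
    · have h11 : (2 : AlgebraicClosure (v.adicCompletion k)) = ι 2 := (map_ofNat ι 2).symm
      rw [h11, map_eq_zero] at h10
      exact absurd h10 two_ne_zero
    · exact h10
  rw [map_eq_zero, EmbeddingLike.map_eq_zero_iff] at h8
  rw [h8, map_zero] at hσ
  exact hσ rfl

end Pool.Agent.Lib.MP_2f3286_ag.UA
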