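import Pool.Agent.Lib.MP_2f3286_ag.Pt.MaxUnrOver
import Pool.Agent.Lib.MP_2f3286_ag.Pt.Division
import Mathlib.RingTheory.Valuation.LocalSubring

/-!
# Division of points over a maximal unramified extension; values at a valuation ring
-/

open WeierstrassCurve WeierstrassCurve.Affine WeierstrassCurve.Affine.Point
open Pool.Agent.Lib.MP_2f3286_ag.Pt Pool.Agent.Lib.MP_2f3286_ag.Pt.Div
  Pool.Agent.Lib.MP_2f3286_ag.Top

namespace Pool.Agent.Lib.MP_2f3286_ag.UA

open scoped Classical in
/-- the points over the maximal unramified extension are divisible -/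
theorem div_max {k F K M kb : Type*} [Field k] [Field F] [CharZero F] [Field K] [Field M]
    [Field kb] [Algebra k K] [Algebra F kb] [IsAlgClosed kb]
    [Algebra K M] [Algebra kb M] [Algebra F M] [IsScalarTower F kb M]
    (R₀ : Subalgebra k K) (h : IsMaxUnramOver R₀ K M kb)
    (W : WeierstrassCurve F) [W.IsElliptic] (η : (W⁄M).Point) (n : ℕ) (hn : 1 ≤ n) :
    ∃ T : (W⁄M).Point, n • T = η := by
  let Ω := AlgebraicClosure M
  have hc : CharZero kb := charZero_of_injective_algebraMap (algebraMap F kb).injective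
  have hc' : CharZero Ω := charZero_of_injective_algebraMap (algebraMap F Ω).injective
  obtain ⟨ζ, hζ⟩ := Div.divisible (k := F) (W := W) (kb := Ω) hn (Point.baseChange M Ω η)
  have hfix : ∀ V : ValuationSubring Ω, IsPlcOver R₀ kb V → ∀ g : Gal(Ω/K), IsInertAt V g →
      ∀ c : M, g (algebraMap M Ω c) = algebraMap M Ω c := fun V hV g hg c =>
    (h (algebraMap M Ω c)).1 ⟨c, rfl⟩ V hV g hg
  rcases ζ with _ | ⟨x, y, hxy⟩
  · refine ⟨0, ?_⟩
    apply map_injective (Algebra.ofId M Ω)
    rw [map_nsmul]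
    refine Eq.trans ?_ hζ
    congr 1
  · have hζ' : ∀ V : ValuationSubring Ω, IsPlcOver R₀ kb V → ∀ g : Gal(Ω/K), IsInertAt V g →
        g x = x ∧ g y = y := by
      intro V hV g hg
      let g' : Gal(Ω/M) := AlgEquiv.ofRingEquiv (f := (g : Ω ≃+* Ω)) (hfix V hV g hg)
      have hg' : IsInertAt V g' := hg
      have h1 := Div.inert_fix (k := F) (K := M) (kb := kb) (Ω := Ω) (W := W) V hV.1.1 g' hg' hn η
        _ hζ
      exact some.inj h1
    have hx : ∃ m : M, algebraMap M Ω m = x := (h x).2 fun V hV g hg => (hζ' V hV g hg).1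
    have hy : ∃ m : M, algebraMap M Ω m = y := (h y).2 fun V hV g hg => (hζ' V hV g hg).2
    obtain ⟨a, rfl⟩ := hx
    obtain ⟨b, rfl⟩ := hy
    have hab : (W⁄M).Nonsingular a b :=
      (Affine.baseChange_nonsingular (W := W) (Algebra.ofId M Ω).injective a b).mp hxy
    refine ⟨some a b hab, ?_⟩
    apply map_injective (Algebra.ofId M Ω)
    rw [map_nsmul]
    exact hζ

/-- elements in all valuation rings over `R` are integral over `R` -/
theorem integral_of_mem {k K M kb : Type*} [Field k] [Field K] [Field M] [Field kb] [Algebra k K]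
    [Algebra k kb] [Algebra.IsAlgebraic k kb] [Algebra K M] [Algebra kb M] [Algebra k M]
    [IsScalarTower k K M] [IsScalarTower k kb M] (R : Subalgebra k K) {x : M}
    (h : ∀ V : ValuationSubring M, IsPlcOver R kb V → x ∈ V) : IsIntegral R x := by
  by_contra hx
  have h1 : x ∉ (integralClosure (Subring.closure (Set.range (algebraMap R M))) M).toSubring := by
    intro h2
    apply hx
    have h3 : IsIntegral (Subring.closure (Set.range (algebraMap R M))) x := h2
    have h4 : Subring.closure (Set.range (algebraMap R M)) = (algebraMap R M).range :=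
      Subring.closure_eq (algebraMap R M).range
    rw [h4] at h3
    let f : R →+* (algebraMap R M).range := (algebraMap R M).rangeRestrict
    obtain ⟨p, hp, hp0⟩ := h3
    obtain ⟨q, hq, -, hq1⟩ := Polynomial.lifts_and_natDegree_eq_and_monic (f := f)
      ((Polynomial.mem_lifts p).2 (Polynomial.map_surjective f
        (algebraMap R M).rangeRestrict_surjective p)) hp
    refine ⟨q, hq1, ?_⟩
    rw [← hp0, ← hq, Polynomial.eval₂_map]
    rfl
  rw [← iInf_valuationSubring_superset] at h1
  rw [Subring.mem_iInf] at h1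
  push Not at h1
  obtain ⟨⟨V, hV⟩, hxV⟩ := h1
  apply hxV
  refine h V ⟨⟨fun a => ?_, ?_⟩, fun r => hV ⟨r, rfl⟩⟩
  · have hV' : ∀ c : k, algebraMap k M c ∈ V := fun c =>
      hV ⟨algebraMap k R c, (IsScalarTower.algebraMap_apply k K M c).symm⟩
    have h2 : IsIntegral k (algebraMap kb M a) :=
      ((Algebra.IsAlgebraic.isAlgebraic (R := k) a).isIntegral).map
        (IsScalarTower.toAlgHom k kb M)
    let g : k →+* V := (algebraMap k M).codRestrict V.toSubring hV'
    obtain ⟨p, hp, hp0⟩ := h2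
    have h3 : IsIntegral V (algebraMap kb M a) := by
      refine ⟨p.map g, hp.map g, ?_⟩
      rw [Polynomial.eval₂_map]
      exact hp0
    obtain ⟨b, hb⟩ := (IsIntegrallyClosed.isIntegral_iff (R := V) (K := M)).1 h3
    rw [← hb]
    exact b.2
  · rintro rfl
    exact hxV trivial

open scoped Classical in
/-- `x` is in the ring `A`, and so is `1 / (x - x(Q))` for the points `Q` of `p`-power order over `F`:
a point with coordinate `x` is over `A` a point of `E - E(F)[p ^ ∞]`. -/
def OnE {F M : Type*} [Field F] [Field M] [Algebra F M] (W : WeierstrassCurve F) (p : ℕ) (x : M)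
    (A : M → Prop) : Prop :=
  A x ∧ ∀ (c e : F) (h : (W⁄F).Nonsingular c e),
    (∃ n : ℕ, p ^ n • Point.some c e h = 0) → A (x - algebraMap F M c)⁻¹

open scoped Classical in
/-- the value of a multiple of a point with value zero -/
theorem not_on_of_notMem {F M : Type*} [Field F] [Field M] [Algebra F M]
    (W : WeierstrassCurve F) [W.IsElliptic] (A : ValuationSubring M)
    (hA : ∀ c : F, algebraMap F M c ∈ A) {p m : ℕ} {x y x₁ y₁ : M}
    (h : (W⁄M).Nonsingular x y) (h₁ : (W⁄M).Nonsingular x₁ y₁) (hx : ∀ c : F, x ≠ algebraMap F M c)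
    {Q : (W⁄F).Point} (hQ : ∃ n : ℕ, p ^ n • Q = 0)
    (h2 : m • (some x₁ y₁ h₁ : (W⁄M).Point) = some x y h - Point.baseChange F M Q)
    (hx₁ : x₁ ∉ A) : ¬ OnE W p x (· ∈ A) := by
  rintro ⟨hxA, hon⟩
  let L := IsLocalRing.ResidueField A
  let φ : A →+* L := IsLocalRing.residue A
  let ι : F →+* A := (algebraMap F M).codRestrict A.toSubring hA
  let _ : Algebra F L := (φ.comp ι).toAlgebra
  have hsp' : ∀ c : F, Sp A φ (algebraMap F M c) (algebraMap F L c) := fun c => ⟨hA c, rfl⟩
  have hAB : CurveSp A φ (W⁄M) (W⁄L) := curveSp hsp'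
  have : IsLocalHom φ := inferInstanceAs (IsLocalHom (IsLocalRing.residue A))
  have h0 : redHom hAB (some x₁ y₁ h₁) = 0 := red_some_of_notMem hAB h₁ hx₁
  have h3 : redHom hAB (some x y h) = redHom hAB (Point.baseChange F M Q) := by
    rw [← sub_eq_zero, ← map_sub, ← h2, map_nsmul, h0, smul_zero]
  have hy : y ∈ A := mem_y hAB hxA h.1
  have h4 := equation_iff_nonsingular.mp ((sp_of_mem (φ := φ) hxA).equation hAB (sp_of_mem hy) h.1)
  have h5 : redHom hAB (some x y h) = some (φ ⟨x, hxA⟩) (φ ⟨y, hy⟩) h4 :=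
    red_some hAB h (sp_of_mem hxA) (sp_of_mem hy) h4
  rcases Q with _ | ⟨c, e, hce⟩
  · have h6 : redHom hAB (Point.baseChange F M (.zero : (W⁄F).Point)) = 0 := _root_.map_zero _
    rw [h5, h6] at h3
    exact some_ne_zero _ h3
  · have h6 : redHom hAB (Point.baseChange F M (some c e hce : (W⁄F).Point)) =
        Point.baseChange F L (some c e hce) := redHom_baseChange hAB hsp' _
    rw [h5, h6] at h3
    have h7 : φ ⟨x, hxA⟩ = algebraMap F L c := (some.inj h3).1
    have h8 := hon c e hce hQ
    have hne : x - algebraMap F M c ≠ 0 := sub_ne_zero.2 (hx c)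
    have h9 : φ (⟨x, hxA⟩ - ⟨_, hA c⟩) = 0 := by
      rw [map_sub, h7, sub_eq_zero]
      rfl
    have h10 : ((⟨x, hxA⟩ - ⟨_, hA c⟩ : A) * ⟨_, h8⟩) = 1 := Subtype.ext (mul_inv_cancel₀ hne)
    have h11 := congrArg φ h10
    rw [map_mul, h9, zero_mul, map_one] at h11
    exact zero_ne_one h11

end Pool.Agent.Lib.MP_2f3286_ag.UA
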