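import Pool.Agent.Lib.MP_2f3286_ag.UA.XA
import Pool.Agent.Lib.MP_2f3286_ag.UA.GX6
import Pool.Agent.Lib.MP_2f3286_ag.UA.GX5
import Pool.Agent.Lib.MP_2f3286_ag.UA.XD

/-!
# Sections and points of one elliptic curve: the theorem
-/

open WeierstrassCurve WeierstrassCurve.Affine WeierstrassCurve.Affine.Point
open IsDedekindDomain NumberField Polynomial
open scoped WithZero
open Pool.Agent.Lib.MP_2f3286_ag
open Pool.Agent.Lib.MP_2f3286_ag.HYP hiding affine_over over_dich

namespace Pool.Agent.Lib.MP_2f3286_ag.UA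

universe u v

open scoped Classical in
/-- the coordinates of a point are in the field of a point of which it is a multiple up to a
constant -/
theorem adjoin_le_of_mul {F M : Type*} [Field F] [Field M] [Algebra F M] (W : WeierstrassCurve F)
    [W.IsElliptic] {m : ℕ} {x y x₁ y₁ : M}
    (h : (W⁄M).Nonsingular x y) (h₁ : (W⁄M).Nonsingular x₁ y₁)
    {Q : (W⁄F).Point}
    (h2 : m • (some x₁ y₁ h₁ : (W⁄M).Point) = some x y h - Point.baseChange F M Q) :
    IntermediateField.adjoin F {x, y} ≤ IntermediateField.adjoin F {x₁, y₁} := by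
  obtain ⟨L, hL⟩ : ∃ L : IntermediateField F M, L = IntermediateField.adjoin F {x₁, y₁} := ⟨_, rfl⟩
  have hx₁ : x₁ ∈ L := by
    rw [hL]
    exact IntermediateField.subset_adjoin F _ (by simp)
  have hy₁ : y₁ ∈ L := by
    rw [hL]
    exact IntermediateField.subset_adjoin F _ (by simp)
  rw [← hL]
  have hinj : Function.Injective (algebraMap L M) := (algebraMap L M).injective
  have h₁' : (W⁄L).Nonsingular (⟨x₁, hx₁⟩ : L) (⟨y₁, hy₁⟩ : L) :=
    (Affine.baseChange_nonsingular (W := W) (Algebra.ofId L M).injective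
      (⟨x₁, hx₁⟩ : L) (⟨y₁, hy₁⟩ : L)).mp h₁
  obtain ⟨P, hP⟩ : ∃ P : (W⁄L).Point, P = m • some _ _ h₁' + Point.baseChange F L Q := ⟨_, rfl⟩
  have hPM : Point.baseChange L M P = some x y h := by
    rw [hP, map_add, map_nsmul]
    have e1 : Point.baseChange L M (some _ _ h₁' : (W⁄L).Point) = some x₁ y₁ h₁ := rfl
    have e2 : Point.baseChange L M (Point.baseChange F L Q) = Point.baseChange F M Q :=
      Point.map_baseChange (Algebra.ofId L M |>.restrictScalars F) Q
    rw [e1, e2, h2]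
    abel
  rcases P with _ | ⟨a, b, hab⟩
  · exact absurd hPM.symm (by
      change some x y h ≠ 0
      exact Point.some_ne_zero h)
  · have h5 : (some (algebraMap L M a) (algebraMap L M b) _ : (W⁄M).Point) = some x y h := hPM
    obtain ⟨h6, h7⟩ := some.inj h5
    rw [IntermediateField.adjoin_le_iff]
    rintro z (rfl | rfl)
    · rw [← h6]
      exact a.2
    · rw [← h7]
      exact b.2

open scoped Classical in
/-- **Function fields**: a section fixing a nonconstant point of an elliptic curve with finitely many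
points and finite `p`-part of the Tate-Shafarevich group. -/
theorem one_field {k : Type u} [Field k] [NumberField k]
    {F : Type v} [Field F] [NumberField F] [Algebra k F]
    [Algebra F (AlgebraicClosure k)] [IsScalarTower k F (AlgebraicClosure k)]
    (W : WeierstrassCurve F) [W.IsShortNF]
    [W.IsElliptic] (hrk : ∀ Q : (W⁄F).Point, IsOfFinAddOrder Q) {p : ℕ} (hp : p.Prime) {j : ℕ}
    (hsha : ShaKilledByPow W p j)
    {K : Type*} [Field K] [Algebra k K] (htr : Algebra.trdeg k K = 1)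
    {M : Type*} [Field M] [Algebra K M] [IsGalois K M]
    [Algebra (AlgebraicClosure k) M] [Algebra k M]
    [IsScalarTower k K M] [IsScalarTower k (AlgebraicClosure k) M]
    [Algebra F M] [IsScalarTower F (AlgebraicClosure k) M] [IsAlgClosed M]
    (s : Gal(AlgebraicClosure k/k) →* Gal(M/K)) (hs : Continuous s)
    (hsec : ∀ σ a, s σ (algebraMap (AlgebraicClosure k) M a) =
      algebraMap (AlgebraicClosure k) M (σ a))
    {x y : M} (hfix : ∀ σ : Gal(AlgebraicClosure k/k),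
      (∀ a : F, σ (algebraMap F _ a) = algebraMap F _ a) → s σ x = x ∧ s σ y = y)
    (hxy : (W⁄M).Nonsingular x y) (hx : ∀ c : F, x ≠ algebraMap F M c) :
    ∃ (A₀ : ValuationSubring M) (ψ₀ : A₀ →+* AlgebraicClosure k), IsOnlyPlaceFin s A₀ ψ₀ := by
  obtain ⟨Q, x₁, y₁, h₁, g, hQ, hfix₁, hmul, hc, hgm, hgd, -, halt⟩ :=
    arith W hrk hp hsha htr (⊥ : Subalgebra k K) s hs hsec hfix hxy hx
      (Or.inl ⟨inferInstance, rfl⟩)
  obtain ⟨A₀, ψ₀, -, h2, -⟩ := geo_or_cuspG (g := g) hgd.ne' htr (⊥ : Subalgebra k K) s hs hsec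
    (x := x₁) (fun σ hσ => (hfix₁ σ hσ).1)
    (fun c => by
      rw [IsScalarTower.algebraMap_apply F (AlgebraicClosure k) M]
      exact hc _) ∅ (fun z hz => absurd hz (Finset.notMem_empty z))
    (Or.inl ⟨inferInstance, rfl⟩)
    (halt.imp (fun ⟨e, he, h⟩ => ⟨e, he, fun w ι A φ hA => (h w ι A φ hA).1⟩) id)
  obtain ⟨h3, -⟩ := h2 ⟨inferInstance, rfl⟩
  have h4 : Sel.IsPlaceOf s (⊥ : IntermediateField k (AlgebraicClosure k)) (RingHom.id _) A₀ ψ₀ :=
    isPlaceOf_comp h3 (RingHom.id _)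
  exact ⟨A₀, ψ₀, onlyFin_closed s hs hsec (inferInstance) h4⟩

open scoped Classical in
/-- **Affine curves**: a section fixing a nonconstant point of an elliptic curve with finitely many
points and finite `p`-part of the Tate-Shafarevich group, away from the points of `p`-power order. -/
theorem one_curve {k : Type u} [Field k] [NumberField k]
    {F : Type v} [Field F] [NumberField F] [Algebra k F]
    [Algebra F (AlgebraicClosure k)] [IsScalarTower k F (AlgebraicClosure k)]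
    (W : WeierstrassCurve F) [W.IsShortNF]
    [W.IsElliptic] (hrk : ∀ Q : (W⁄F).Point, IsOfFinAddOrder Q) {p : ℕ} (hp : p.Prime) {j : ℕ}
    (hsha : ShaKilledByPow W p j)
    {K : Type*} [Field K] [Algebra k K] (htr : Algebra.trdeg k K = 1)
    (R : Subalgebra k K) (hfg : R.FG) (hRn : ∀ h : K, IsIntegral R h → h ∈ R)
    {M : Type*} [Field M] [Algebra K M] [IsGalois K M]
    [Algebra (AlgebraicClosure k) M] [Algebra k M]
    [IsScalarTower k K M] [IsScalarTower k (AlgebraicClosure k) M]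
    [Algebra F M] [IsScalarTower F (AlgebraicClosure k) M]
    (hmax : Pt.IsMaxUnramOver R K M (AlgebraicClosure k))
    (s : Gal(AlgebraicClosure k/k) →* Gal(M/K)) (hs : Continuous s)
    (hsec : ∀ σ a, s σ (algebraMap (AlgebraicClosure k) M a) =
      algebraMap (AlgebraicClosure k) M (σ a))
    {x y : M} (hfix : ∀ σ : Gal(AlgebraicClosure k/k),
      (∀ a : F, σ (algebraMap F _ a) = algebraMap F _ a) → s σ x = x ∧ s σ y = y)
    (hxy : (W⁄M).Nonsingular x y) (hx : ∀ c : F, x ≠ algebraMap F M c)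
    (hon : OnE W p x (IsIntegral R))
    (hloc : ∀ w : HeightOneSpectrum (𝓞 F),
      ∃ (ι : AlgebraicClosure k →ₐ[F] AlgebraicClosure (w.adicCompletion F))
        (A : ValuationSubring M) (φ : A →+* AlgebraicClosure (w.adicCompletion F)),
        Sel.IsPlaceOf s (w.adicCompletion F)
          (ι : _ →+* AlgebraicClosure (w.adicCompletion F)) A φ ∧
        (OnE W p x (· ∈ A) → ∀ r : R, algebraMap K M r ∈ A)) :
    ∃ (A₀ : ValuationSubring M) (ψ₀ : A₀ →+* AlgebraicClosure k),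
      ((((∀ r : R, algebraMap K M r ∈ A₀) ∧ Sel.IsSectionAt s A₀ ψ₀ ∧
        (∀ (A₁ : ValuationSubring M) (ψ₁ : A₁ →+* AlgebraicClosure k), Sel.IsSectionAt s A₁ ψ₁ →
          (∀ (r : R) (h₀ : algebraMap K M r ∈ A₀), ∃ h₁ : algebraMap K M r ∈ A₁,
            algebraMap K M r ∈ unitRing R M ∨ ψ₁ ⟨_, h₁⟩ = ψ₀ ⟨_, h₀⟩) →
          A₁ = A₀ ∧ ∀ (a : A₁) (b : A₀), (a : M) = b → ψ₁ a = ψ₀ b) ∧
        (∀ h : K, algebraMap K M h ∈ A₀ → algebraMap K M h ∈ unitRing R M →
          HasValOver s R F A₀ ψ₀ h) ∧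
        ((∀ r : R, algebraMap K M r ∈ unitRing R M) →
          Sel.IsPlaceOf s k (RingHom.id _) A₀ ψ₀)) ∨
      (¬ OnE W p x (· ∈ A₀) ∧
        ∃ E : IntermediateField k (AlgebraicClosure k), FiniteDimensional k E ∧
          Sel.IsPlaceOf s E (RingHom.id _) A₀ ψ₀)) ∧
      (∀ (w : HeightOneSpectrum (𝓞 F))
        (ι : AlgebraicClosure k →ₐ[F] AlgebraicClosure (w.adicCompletion F))
        (A : ValuationSubring M) (φ : A →+* AlgebraicClosure (w.adicCompletion F)),
        Sel.IsPlaceOf s (w.adicCompletion F)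
          (ι : _ →+* AlgebraicClosure (w.adicCompletion F)) A φ →
        (OnE W p x (· ∈ A) ↔ OnE W p x (· ∈ A₀)))) ∧
      -- the point of which `(x, y)` is a multiple
      ∃ (Q : (W⁄F).Point) (x₁ y₁ : M) (h₁ : (W⁄M).Nonsingular x₁ y₁),
        (∃ m : ℕ, p ^ m • Q = 0) ∧
        (∀ σ : Gal(AlgebraicClosure k/k),
          (∀ a : F, σ (algebraMap F _ a) = algebraMap F _ a) → s σ x₁ = x₁ ∧ s σ y₁ = y₁) ∧
        p • (some x₁ y₁ h₁ : (W⁄M).Point) = some x y hxy - Point.baseChange F M Q ∧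
        (∀ c : AlgebraicClosure k, x₁ ≠ algebraMap (AlgebraicClosure k) M c) ∧
        IsIntegral R x₁ ∧ ((∀ r : R, algebraMap K M r ∈ A₀) ∨ x₁ ∉ A₀) := by
  obtain ⟨Q, x₁, y₁, h₁, g, hQ, hfix₁, hmul, hc, hgm, hgd, hint, halt⟩ :=
    arith W hrk hp hsha htr R s hs hsec hfix hxy hx (Or.inr ⟨hmax, hon.1, hon.2, fun w => by
      obtain ⟨ι, A, φ, h, -⟩ := hloc w
      exact ⟨ι, A, φ, h⟩⟩)
  have hbot : R ≠ ⊥ := by
    obtain ⟨t, htR, ht⟩ := exists_transc (F := F) R s hsec (fun σ hσ => (hfix σ hσ).1) hx hon.1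
    rintro rfl
    obtain ⟨c, rfl⟩ := Algebra.mem_bot.1 htR
    exact ht (isAlgebraic_algebraMap c)
  obtain ⟨hx₁R, hgR⟩ := hint.resolve_left fun h => hbot h.2
  have hc' : ∀ c : F, x₁ ≠ algebraMap F M c := fun c => by
    rw [IsScalarTower.algebraMap_apply F (AlgebraicClosure k) M]
    exact hc _
  have hFA : ∀ {A : ValuationSubring M}, (∀ a : AlgebraicClosure k,
      algebraMap (AlgebraicClosure k) M a ∈ A) → ∀ a : F, algebraMap F M a ∈ A := by
    intro A hA a
    rw [IsScalarTower.algebraMap_apply F (AlgebraicClosure k) M]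
    exact hA _
  -- the point at the local places
  have honA : ∀ {A : ValuationSubring M}, (∀ r : R, algebraMap K M r ∈ A) → OnE W p x (· ∈ A) :=
    fun hA => ⟨Pt.PTAux.mem_of_isIntegral (R := R) hA hon.1, fun c e h hm =>
      Pt.PTAux.mem_of_isIntegral (R := R) hA (hon.2 c e h hm)⟩
  have hnot : ∀ {A : ValuationSubring M}, (∀ a : AlgebraicClosure k,
      algebraMap (AlgebraicClosure k) M a ∈ A) → x₁ ∉ A → ¬ OnE W p x (· ∈ A) := fun hA h =>
    not_on_of_notMem W _ (hFA hA) hxy h₁ hx hQ hmul h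
  have hw : Nonempty (HeightOneSpectrum (𝓞 F)) := nonempty_primes F
  obtain ⟨A₀, ψ₀, h1, -, -⟩ := geo_or_cuspG (g := g) hgd.ne' htr R s hs hsec
    (x := x₁) (fun σ hσ => (hfix₁ σ hσ).1) hc' ∅ (fun z hz => absurd hz (Finset.notMem_empty z))
    (Or.inr ⟨hfg, hRn, hx₁R, hgR, hmax, fun w => by
      obtain ⟨ι, A, φ, h, h'⟩ := hloc w
      refine ⟨ι, A, φ, h, fun h2 _ => h' ?_⟩
      rcases halt with ⟨e, -, h3⟩ | h3
      · exact (h3 w ι A φ h).2
      · exact absurd h2 (h3 w ι A φ h)⟩)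
    (halt.imp (fun ⟨e, he, h⟩ => ⟨e, he, fun w ι A φ hA => (h w ι A φ hA).1⟩) id)
  refine ⟨A₀, ψ₀, ?_, Q, x₁, y₁, h₁, hQ, hfix₁, hmul, hc, hx₁R, ?_⟩
  · rcases h1 with ⟨g1, g2, g3, g4, -, g5, g6, g7⟩ | ⟨-, g1, g2, E, g3, g4⟩
    · have g8 : ∀ (w : HeightOneSpectrum (𝓞 F))
          (ι : AlgebraicClosure k →ₐ[F] AlgebraicClosure (w.adicCompletion F))
          (A : ValuationSubring M) (φ : A →+* AlgebraicClosure (w.adicCompletion F)),
          Sel.IsPlaceOf s (w.adicCompletion F)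
            (ι : _ →+* AlgebraicClosure (w.adicCompletion F)) A φ → OnE W p x (· ∈ A) := by
        intro w ι A φ hA
        by_cases hcl : IsAlgClosed M
        · rw [g6 hcl w ι A φ hA]
          exact honA g1
        · rcases halt with ⟨e, -, h3⟩ | h3
          · exact (h3 w ι A φ hA).2
          · exact absurd ((g5 hcl).2 w ι A φ hA).1 (h3 w ι A φ hA)
      exact ⟨Or.inl ⟨g1, g2, fun A₁ ψ₁ h2 h3 => g3 A₁ ψ₁ h2 fun r h₀ =>
        (h3 r h₀).imp fun h₁ => Or.imp_left Or.inr, fun h h2 h3 => g4 h h2 (Or.inr h3),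
        fun h => g7 fun r => Or.inr (h r)⟩,
        fun w ι A φ hA => ⟨fun _ => honA g1, fun _ => g8 w ι A φ hA⟩⟩
    · have g5 : ¬ OnE W p x (· ∈ A₀) := hnot (fun a => (g4.1 a).1) g1
      exact ⟨Or.inr ⟨g5, E, g3, g4⟩, fun w ι A φ hA => iff_of_false
        (hnot (fun a => (hA.1 a).1) (g2 w ι A φ hA)) g5⟩
  · rcases h1 with ⟨g1, -⟩ | ⟨-, g1, -⟩
    · exact Or.inl g1
    · exact Or.inr g1

end Pool.Agent.Lib.MP_2f3286_ag.UA
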