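import Pool.Agent.Lib.MP_2f3286_ag.UA.Q1
import Pool.Agent.Lib.MP_2f3286_ag.UA.Q3
import Pool.Agent.Lib.MP_2f3286_ag.UA.XF

/-!
# The values of the `p`-division points of a section at all local places: rational points up to sign

If a point `(x₁, y₁)` fixed by the section over `F` has the same first coordinate `e` in `F` at all local
places then there is a point `C` over `F` with first coordinate `e`, and at each local place the point is
`C` or `-C`.
-/

open WeierstrassCurve WeierstrassCurve.Affine WeierstrassCurve.Affine.Point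
open IsDedekindDomain NumberField Polynomial
open Pool.Agent.Lib.MP_2f3286_ag

namespace Pool.Agent.Lib.MP_2f3286_ag.UA

universe u v

section value

variable {k : Type u} [Field k] [NumberField k]
    {F : Type v} [Field F] [NumberField F] [Algebra k F]
    [Algebra F (AlgebraicClosure k)] [IsScalarTower k F (AlgebraicClosure k)]
    {K : Type*} [Field K] [Algebra k K]
    {M : Type*} [Field M] [Algebra K M]
    [Algebra (AlgebraicClosure k) M]
    [Algebra F M] [IsScalarTower F (AlgebraicClosure k) M]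

/-- values of elements fixed by the section over `F` -/
theorem fixed_value_F {s : Gal(AlgebraicClosure k/k) →* Gal(M/K)}
    {w : HeightOneSpectrum (𝓞 F)}
    {ι : AlgebraicClosure k →ₐ[F] AlgebraicClosure (w.adicCompletion F)}
    {A : ValuationSubring M} {φ : A →+* AlgebraicClosure (w.adicCompletion F)}
    (h : Sel.IsPlaceOf s (w.adicCompletion F)
      (ι : _ →+* AlgebraicClosure (w.adicCompletion F)) A φ) {y : M}
    (hy : ∀ σ : Gal(AlgebraicClosure k/k),
      (∀ a : F, σ (algebraMap F _ a) = algebraMap F _ a) → s σ y = y)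
    (hyA : y ∈ A) : ∃ b : w.adicCompletion F, φ ⟨y, hyA⟩ = algebraMap _ _ b := by
  have hc : CharZero (w.adicCompletion F) := charZero_of_injective_algebraMap
    (algebraMap F (w.adicCompletion F)).injective
  have : IsGalois (w.adicCompletion F) (AlgebraicClosure (w.adicCompletion F)) := {}
  have hιF : ∀ a : F, ι (algebraMap F (AlgebraicClosure k) a) =
      algebraMap (w.adicCompletion F) _ (algebraMap F (w.adicCompletion F) a) := fun a => by
    rw [AlgHom.commutes]
    exact IsScalarTower.algebraMap_apply F (w.adicCompletion F) _ a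
  have h1 : ∀ τ : Gal(AlgebraicClosure (w.adicCompletion F)/w.adicCompletion F),
      τ (φ ⟨y, hyA⟩) = φ ⟨y, hyA⟩ := by
    intro τ
    obtain ⟨σ, hσ⟩ := exists_restrict' (k := k)
      (ι : AlgebraicClosure k →+* AlgebraicClosure (w.adicCompletion F))
      (τ : AlgebraicClosure (w.adicCompletion F) →+* AlgebraicClosure (w.adicCompletion F))
      (fun a => by
        change τ (ι (algebraMap k _ a)) = ι (algebraMap k _ a)
        rw [IsScalarTower.algebraMap_apply k F (AlgebraicClosure k), hιF, AlgEquiv.commutes])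
    have hσF : ∀ a : F, σ (algebraMap F _ a) = algebraMap F _ a := by
      intro a
      apply (ι : AlgebraicClosure k →+* AlgebraicClosure (w.adicCompletion F)).injective
      refine (hσ _).trans ?_
      change τ (ι (algebraMap F _ a)) = ι (algebraMap F _ a)
      rw [hιF, AlgEquiv.commutes]
    obtain ⟨h2, h3⟩ := h.2.2 σ τ hσ ⟨y, hyA⟩
    rw [← h3]
    congr 1
    exact Subtype.ext (hy σ hσF)
  obtain ⟨b, hb⟩ := (InfiniteGalois.mem_range_algebraMap_iff_fixed _).2 h1
  exact ⟨b, hb.symm⟩

omit [NumberField k] [Algebra k F] [IsScalarTower k F (AlgebraicClosure k)] [Algebra k K]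
  [Field K] [Algebra K M] [Algebra (AlgebraicClosure k) M] [Algebra F M]
  [IsScalarTower F (AlgebraicClosure k) M] [Field k] [Algebra F (AlgebraicClosure k)]
  [Field F] [NumberField F] in
/-- an element with value zero is in the maximal ideal -/
theorem val_lt_of_zero {L : Type*} [Field L] {A : ValuationSubring M} {φ : A →+* L}
    {z : A} (h0 : φ z = 0) : A.valuation (z : M) < 1 := by
  rw [← not_le]
  intro h1
  have h2 : A.valuation (z : M) = 1 := le_antisymm ((A.valuation_le_one_iff _).2 z.2) h1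
  have h3 : IsUnit z := (A.valuation_eq_one_iff z).2 h2
  have h4 := h3.map φ
  rw [h0] at h4
  exact not_isUnit_zero h4

/-- the equation of a curve in short normal form -/
theorem eq_of_ns {F M : Type*} [Field F] [Field M] [Algebra F M] (W : WeierstrassCurve F)
    [W.IsShortNF] {x y : M} (h : (W⁄M).Equation x y) :
    y ^ 2 = x ^ 3 + algebraMap F M W.a₄ * x + algebraMap F M W.a₆ := by
  have h1 := (equation_iff (W := (W⁄M)) _ _).1 h
  have a1 : (W⁄M).a₁ = 0 := by
    change algebraMap F M W.a₁ = 0
    rw [a₁_of_isShortNF, _root_.map_zero]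
  have a2 : (W⁄M).a₂ = 0 := by
    change algebraMap F M W.a₂ = 0
    rw [a₂_of_isShortNF, _root_.map_zero]
  have a3 : (W⁄M).a₃ = 0 := by
    change algebraMap F M W.a₃ = 0
    rw [a₃_of_isShortNF, _root_.map_zero]
  rw [a1, a2, a3] at h1
  change _ = x ^ 3 + 0 * x ^ 2 + algebraMap F M W.a₄ * x + algebraMap F M W.a₆ at h1
  linear_combination h1

theorem ns_of_eq {F : Type*} [Field F] (W : WeierstrassCurve F)
    [W.IsShortNF] [W.IsElliptic] {e b : F} (h : b ^ 2 = e ^ 3 + W.a₄ * e + W.a₆) :
    (W⁄F).Nonsingular e b := by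
  have h1 : (W⁄F).Equation e b := by
    rw [Affine.equation_iff]
    have a1 : (W⁄F).a₁ = 0 := by
      change algebraMap F F W.a₁ = 0
      rw [a₁_of_isShortNF, _root_.map_zero]
    have a2 : (W⁄F).a₂ = 0 := by
      change algebraMap F F W.a₂ = 0
      rw [a₂_of_isShortNF, _root_.map_zero]
    have a3 : (W⁄F).a₃ = 0 := by
      change algebraMap F F W.a₃ = 0
      rw [a₃_of_isShortNF, _root_.map_zero]
    rw [a1, a2, a3]
    change _ = e ^ 3 + 0 * e ^ 2 + W.a₄ * e + W.a₆
    linear_combination h
  exact (Affine.equation_iff_nonsingular).1 h1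

open scoped Classical in
/-- **The value up to sign.** -/
theorem exists_value (W : WeierstrassCurve F) [W.IsShortNF] [W.IsElliptic]
    {s : Gal(AlgebraicClosure k/k) →* Gal(M/K)}
    (hloc : ∀ w : HeightOneSpectrum (𝓞 F),
        ∃ (ι : AlgebraicClosure k →ₐ[F] AlgebraicClosure (w.adicCompletion F))
          (A : ValuationSubring M) (φ : A →+* AlgebraicClosure (w.adicCompletion F)),
          Sel.IsPlaceOf s (w.adicCompletion F)
            (ι : _ →+* AlgebraicClosure (w.adicCompletion F)) A φ)
    {x y : M} (h : (W⁄M).Nonsingular x y)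
    (hfix : ∀ σ : Gal(AlgebraicClosure k/k),
      (∀ a : F, σ (algebraMap F _ a) = algebraMap F _ a) → s σ x = x ∧ s σ y = y) {e : F}
    (hval : ∀ (w : HeightOneSpectrum (𝓞 F))
        (ι : AlgebraicClosure k →ₐ[F] AlgebraicClosure (w.adicCompletion F))
        (A : ValuationSubring M) (φ : A →+* AlgebraicClosure (w.adicCompletion F)),
        Sel.IsPlaceOf s (w.adicCompletion F)
          (ι : _ →+* AlgebraicClosure (w.adicCompletion F)) A φ →
        ∃ h : x ∈ A, φ ⟨x, h⟩ = ι (algebraMap F _ e)) :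
    ∃ (b : F) (h' : (W⁄F).Nonsingular e b), ∀ (w : HeightOneSpectrum (𝓞 F))
        (ι : AlgebraicClosure k →ₐ[F] AlgebraicClosure (w.adicCompletion F))
        (A : ValuationSubring M) (φ : A →+* AlgebraicClosure (w.adicCompletion F)),
        Sel.IsPlaceOf s (w.adicCompletion F)
          (ι : _ →+* AlgebraicClosure (w.adicCompletion F)) A φ →
        ∀ N : AddSubgroup (W⁄M).Point, IsKer W A N →
          (some x y h : (W⁄M).Point) - Point.baseChange F M (some e b h') ∈ N ∨
          (some x y h : (W⁄M).Point) + Point.baseChange F M (some e b h') ∈ N := by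
  have hFM : ∀ c : F, algebraMap F M c = algebraMap (AlgebraicClosure k) M (algebraMap F _ c) :=
    fun c => IsScalarTower.algebraMap_apply F (AlgebraicClosure k) M c
  have hxy := eq_of_ns W h.1
  obtain ⟨b, hb⟩ := exists_sq_of_local (k := F) (e ^ 3 + W.a₄ * e + W.a₆) (by
    intro w
    obtain ⟨ι, A, φ, hA⟩ := hloc w
    obtain ⟨hxA, hxe⟩ := hval w ι A φ hA
    have hcA : ∀ c : F, ∃ h : algebraMap F M c ∈ A, φ ⟨_, h⟩ = ι (algebraMap F _ c) := by
      intro c
      rw [hFM]
      exact hA.1 _
    have hyA : y ∈ A := by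
      have h2 : y ^ 2 ∈ A := by
        rw [hxy]
        exact add_mem (add_mem (pow_mem hxA 3) (mul_mem (hcA _).1 hxA)) (hcA _).1
      rw [← A.valuation_le_one_iff, map_pow] at h2
      rw [← A.valuation_le_one_iff]
      by_contra hcon
      rw [not_le] at hcon
      exact absurd h2 (not_le.2 (one_lt_pow₀ hcon two_ne_zero))
    obtain ⟨β, hβ⟩ := fixed_value_F hA (fun σ hσ => (hfix σ hσ).2) hyA
    refine ⟨β, (algebraMap (w.adicCompletion F)
      (AlgebraicClosure (w.adicCompletion F))).injective ?_⟩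
    obtain ⟨h4, h4'⟩ := hcA W.a₄
    obtain ⟨h6, h6'⟩ := hcA W.a₆
    have h5 : (⟨y, hyA⟩ : A) ^ 2 = ⟨x, hxA⟩ ^ 3 + ⟨_, h4⟩ * ⟨x, hxA⟩ + ⟨_, h6⟩ :=
      Subtype.ext hxy
    have h7 := congrArg φ h5
    rw [map_pow, map_add, map_add, map_pow, map_mul, hβ, hxe, h4', h6', ← map_pow, ← map_pow,
      ← map_mul, ← map_add, ← map_add, ← map_pow, ← map_mul, ← map_add, ← map_add] at h7
    rw [h7, AlgHom.commutes]
    exact IsScalarTower.algebraMap_apply F (w.adicCompletion F) _ _)
  refine ⟨b, ns_of_eq W hb, fun w ι A φ hA N hN => ?_⟩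
  obtain ⟨hxA, hxe⟩ := hval w ι A φ hA
  have hcA : ∀ c : F, ∃ h : algebraMap F M c ∈ A, φ ⟨_, h⟩ = ι (algebraMap F _ c) := by
    intro c
    rw [hFM]
    exact hA.1 _
  obtain ⟨he, he'⟩ := hcA e
  have h1 : φ (⟨x, hxA⟩ - ⟨_, he⟩) = 0 := by rw [map_sub, hxe, he', sub_self]
  exact hN.of_x (fun c => (hcA c).1) h _ (val_lt_of_zero h1)

end value

end Pool.Agent.Lib.MP_2f3286_ag.UA
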