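import Pool.Agent.Lib.MP_2f3286_ag.UA.Q4

/-!
# The levels: `p ^ n`-division points fixed by the section, with rational values up to sign
-/

open WeierstrassCurve WeierstrassCurve.Affine WeierstrassCurve.Affine.Point
open IsDedekindDomain NumberField Polynomial
open Pool.Agent.Lib.MP_2f3286_ag

namespace Pool.Agent.Lib.MP_2f3286_ag.UA

universe u v

section group

variable {F M : Type*} [Field F] [Field M] [Algebra F M] {W : WeierstrassCurve F}

open scoped Classical in
/-- the points of `p`-power order over `F` are killed by one power of `p` -/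
theorem exists_exponent {F : Type*} [Field F] [NumberField F] (W : WeierstrassCurve F)
    [W.IsElliptic] (p : ℕ) : ∃ N : ℕ, ∀ Q : (W⁄F).Point, (∃ m : ℕ, p ^ m • Q = 0) →
      p ^ N • Q = 0 := by
  by_cases hp : p = 0
  · refine ⟨1, fun Q _ => ?_⟩
    rw [hp, pow_one, zero_smul]
  have h := Top.torsion_finite (W := (W⁄F))
  have hfin : {Q : (W⁄F).Point | ∃ m : ℕ, p ^ m • Q = 0}.Finite := by
    refine h.subset ?_
    rintro Q ⟨m, hm⟩
    exact isOfFinAddOrder_iff_nsmul_eq_zero.mpr ⟨p ^ m, pow_pos (Nat.pos_of_ne_zero hp) m, hm⟩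
  have hm : ∀ Q : (W⁄F).Point, ∃ m : ℕ, (∃ m : ℕ, p ^ m • Q = 0) → p ^ m • Q = 0 := by
    intro Q
    by_cases hQ : ∃ m : ℕ, p ^ m • Q = 0
    · obtain ⟨m, hm⟩ := hQ
      exact ⟨m, fun _ => hm⟩
    · exact ⟨0, fun h => absurd h hQ⟩
  choose m hm using hm
  refine ⟨hfin.toFinset.sup m, fun Q hQ => ?_⟩
  have h1 : m Q ≤ hfin.toFinset.sup m := Finset.le_sup (hfin.mem_toFinset.2 hQ)
  obtain ⟨d, hd⟩ := Nat.exists_eq_add_of_le h1
  rw [hd, pow_add, mul_comm, mul_smul, hm Q hQ, smul_zero]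

open scoped Classical in
/-- division points avoid the points of `p`-power order -/
theorem avoid_div {N : AddSubgroup (W⁄M).Point} {p : ℕ} {z z₁ : (W⁄M).Point} {Q : (W⁄F).Point}
    (hQ : ∃ m : ℕ, p ^ m • Q = 0) (hd : p • z₁ = z - Point.baseChange F M Q)
    (h : ∀ Q' : (W⁄F).Point, (∃ m : ℕ, p ^ m • Q' = 0) → z - Point.baseChange F M Q' ∉ N)
    (Q' : (W⁄F).Point) (hQ' : ∃ m : ℕ, p ^ m • Q' = 0) :
    z₁ - Point.baseChange F M Q' ∉ N := by
  intro h1
  refine h (Q + p • Q') ?_ ?_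
  · obtain ⟨m, hm⟩ := hQ
    obtain ⟨m', hm'⟩ := hQ'
    refine ⟨m + m', ?_⟩
    rw [smul_add, pow_add, mul_smul, smul_comm (p ^ m) (p ^ m') Q, hm, smul_zero, zero_add,
      mul_smul, smul_comm (p ^ m') p, hm', smul_zero, smul_zero]
  · have h2 : z - Point.baseChange F M (Q + p • Q') = p • (z₁ - Point.baseChange F M Q') := by
      rw [smul_sub, hd, map_add, map_nsmul]
      abel
    rw [h2]
    exact N.nsmul_mem h1 p

open scoped Classical in
/-- division points avoid the points of `p`-power order: first coordinates -/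
theorem on_div [W.IsShortNF] [W.IsElliptic] {V : ValuationSubring M}
    (hV : ∀ c : F, algebraMap F M c ∈ V) {p : ℕ} {x y x₁ y₁ : M} (h : (W⁄M).Nonsingular x y)
    (h₁ : (W⁄M).Nonsingular x₁ y₁) (hx : ∀ c : F, x ≠ algebraMap F M c)
    (hx₁ : ∀ c : F, x₁ ≠ algebraMap F M c) {Q : (W⁄F).Point}
    (hQ : ∃ m : ℕ, p ^ m • Q = 0)
    (hd : p • (some x₁ y₁ h₁ : (W⁄M).Point) = some x y h - Point.baseChange F M Q)
    (hon : OnE W p x (· ∈ V)) : OnE W p x₁ (· ∈ V) := by
  obtain ⟨N, hN⟩ := exists_ker W V hV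
  exact (hN.avoid_iff hV h₁ hx₁).2 (avoid_div hQ hd ((hN.avoid_iff hV h hx).1 hon))

end group

section level

variable {k : Type u} [Field k] [NumberField k]
    {F : Type v} [Field F] [NumberField F] [Algebra k F]
    [Algebra F (AlgebraicClosure k)] [IsScalarTower k F (AlgebraicClosure k)]
    (W : WeierstrassCurve F) [W.IsShortNF] [W.IsElliptic] {p : ℕ}
    {K : Type*} [Field K] [Algebra k K]
    (R : Subalgebra k K)
    {M : Type*} [Field M] [Algebra K M] [IsGalois K M]
    [Algebra (AlgebraicClosure k) M] [Algebra k M]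
    [IsScalarTower k K M] [IsScalarTower k (AlgebraicClosure k) M]
    [Algebra F M] [IsScalarTower F (AlgebraicClosure k) M]
    (s : Gal(AlgebraicClosure k/k) →* Gal(M/K))

omit [IsGalois K M] in
/-- the two forms of the condition on `U` -/
theorem on_iff {x : M} : OnE W p x (IsIntegral R) ↔
    ∀ V : ValuationSubring M, Pt.IsPlcOver R (AlgebraicClosure k) V → OnE W p x (· ∈ V) := by
  constructor
  · intro h V hV
    exact ⟨Pt.PTAux.mem_of_isIntegral (R := R) hV.2 h.1, fun c e h' hm =>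
      Pt.PTAux.mem_of_isIntegral (R := R) hV.2 (h.2 c e h' hm)⟩
  · intro h
    exact ⟨integral_of_mem R fun V hV => (h V hV).1, fun c e h' hm =>
      integral_of_mem R fun V hV => (h V hV).2 c e h' hm⟩

open scoped Classical in
/-- the points `(x, y)` over `M` fixed by the section over `F`, not constant, and on
`E - E(F)[p ^ ∞]` at the places over `R` and at the local places -/
structure IsGood (p : ℕ) (x y : M) : Prop where
  fix : ∀ σ : Gal(AlgebraicClosure k/k),
    (∀ a : F, σ (algebraMap F _ a) = algebraMap F _ a) → s σ x = x ∧ s σ y = y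
  nc : ∀ c : AlgebraicClosure k, x ≠ algebraMap (AlgebraicClosure k) M c
  on : OnE W p x (IsIntegral R)
  onloc : ∀ (w : HeightOneSpectrum (𝓞 F))
        (ι : AlgebraicClosure k →ₐ[F] AlgebraicClosure (w.adicCompletion F))
        (A : ValuationSubring M) (φ : A →+* AlgebraicClosure (w.adicCompletion F)),
        Sel.IsPlaceOf s (w.adicCompletion F)
          (ι : _ →+* AlgebraicClosure (w.adicCompletion F)) A φ → OnE W p x (· ∈ A)

open scoped Classical in
/-- one division: if the point is on `E - E(F)[p ^ ∞]` at all local places, the division points have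
rational values up to sign -/
theorem exists_step (hrk : ∀ Q : (W⁄F).Point, IsOfFinAddOrder Q) (hp : p.Prime) {j : ℕ}
    (hsha : ShaKilledByPow W p j) (htr : Algebra.trdeg k K = 1)
    (hmax : Pt.IsMaxUnramOver R K M (AlgebraicClosure k)) (hs : Continuous s)
    (hsec : ∀ σ a, s σ (algebraMap (AlgebraicClosure k) M a) =
      algebraMap (AlgebraicClosure k) M (σ a))
    (hloc : ∀ w : HeightOneSpectrum (𝓞 F),
        ∃ (ι : AlgebraicClosure k →ₐ[F] AlgebraicClosure (w.adicCompletion F))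
          (A : ValuationSubring M) (φ : A →+* AlgebraicClosure (w.adicCompletion F)),
          Sel.IsPlaceOf s (w.adicCompletion F)
            (ι : _ →+* AlgebraicClosure (w.adicCompletion F)) A φ)
    {x y : M} (hxy : (W⁄M).Nonsingular x y) (H : IsGood W R s p x y) :
    ∃ (Q : (W⁄F).Point) (x₁ y₁ : M) (h₁ : (W⁄M).Nonsingular x₁ y₁) (C : (W⁄F).Point),
      (∃ m : ℕ, p ^ m • Q = 0) ∧ IsGood W R s p x₁ y₁ ∧
      p • (some x₁ y₁ h₁ : (W⁄M).Point) = some x y hxy - Point.baseChange F M Q ∧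
      ∀ (w : HeightOneSpectrum (𝓞 F))
        (ι : AlgebraicClosure k →ₐ[F] AlgebraicClosure (w.adicCompletion F))
        (A : ValuationSubring M) (φ : A →+* AlgebraicClosure (w.adicCompletion F)),
        Sel.IsPlaceOf s (w.adicCompletion F)
          (ι : _ →+* AlgebraicClosure (w.adicCompletion F)) A φ →
        ∀ N : AddSubgroup (W⁄M).Point, IsKer W A N →
          (some x₁ y₁ h₁ : (W⁄M).Point) - Point.baseChange F M C ∈ N ∨
          (some x₁ y₁ h₁ : (W⁄M).Point) + Point.baseChange F M C ∈ N := by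
  have hFM : ∀ c : F, algebraMap F M c = algebraMap (AlgebraicClosure k) M (algebraMap F _ c) :=
    fun c => IsScalarTower.algebraMap_apply F (AlgebraicClosure k) M c
  have hFA : ∀ {A : ValuationSubring M}, (∀ a : AlgebraicClosure k,
      algebraMap (AlgebraicClosure k) M a ∈ A) → ∀ a : F, algebraMap F M a ∈ A := by
    intro A hA a
    rw [hFM]
    exact hA _
  have hx : ∀ c : F, x ≠ algebraMap F M c := fun c => by
    rw [hFM]
    exact H.nc _
  obtain ⟨Q, x₁, y₁, h₁, g, hQ, hfix₁, hmul, hc, -, -, -, halt⟩ :=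
    arith W hrk hp hsha htr R s hs hsec H.fix hxy hx (Or.inr ⟨hmax, H.on.1, H.on.2, hloc⟩)
  have hx₁ : ∀ c : F, x₁ ≠ algebraMap F M c := fun c => by
    rw [hFM]
    exact hc _
  obtain ⟨w⟩ : Nonempty (HeightOneSpectrum (𝓞 F)) := HYP.nonempty_primes F
  obtain ⟨ι, A, φ, hA⟩ := hloc w
  have hkA : ∀ a : AlgebraicClosure k, algebraMap (AlgebraicClosure k) M a ∈ A := fun a =>
    (hA.1 a).1
  rcases halt with ⟨e, -, hval⟩ | halt
  · obtain ⟨b, hb, hC⟩ := exists_value W hloc h₁ hfix₁ (e := e) fun w ι A φ hA =>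
      (hval w ι A φ hA).1
    refine ⟨Q, x₁, y₁, h₁, some e b hb, hQ, ⟨hfix₁, hc, ?_, fun w ι A φ hA => ?_⟩, hmul, hC⟩
    · rw [on_iff]
      intro V hV
      exact on_div (hFA hV.1.1) hxy h₁ hx hx₁ hQ hmul ((on_iff W R).1 H.on V hV)
    · exact on_div (hFA fun a => (hA.1 a).1) hxy h₁ hx hx₁ hQ hmul (H.onloc w ι A φ hA)
  · exact absurd (H.onloc w ι A φ hA)
      (not_on_of_notMem W A (hFA hkA) hxy h₁ hx hQ hmul (halt w ι A φ hA))

open scoped Classical in
/-- all divisions -/
theorem exists_all_levels (hrk : ∀ Q : (W⁄F).Point, IsOfFinAddOrder Q) (hp : p.Prime) {j : ℕ}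
    (hsha : ShaKilledByPow W p j) (htr : Algebra.trdeg k K = 1)
    (hmax : Pt.IsMaxUnramOver R K M (AlgebraicClosure k)) (hs : Continuous s)
    (hsec : ∀ σ a, s σ (algebraMap (AlgebraicClosure k) M a) =
      algebraMap (AlgebraicClosure k) M (σ a))
    (hloc : ∀ w : HeightOneSpectrum (𝓞 F),
        ∃ (ι : AlgebraicClosure k →ₐ[F] AlgebraicClosure (w.adicCompletion F))
          (A : ValuationSubring M) (φ : A →+* AlgebraicClosure (w.adicCompletion F)),
          Sel.IsPlaceOf s (w.adicCompletion F)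
            (ι : _ →+* AlgebraicClosure (w.adicCompletion F)) A φ)
    {x y : M} (hxy : (W⁄M).Nonsingular x y) (H : IsGood W R s p x y) (n : ℕ) :
    ∃ (Q : (W⁄F).Point) (x₁ y₁ : M) (h₁ : (W⁄M).Nonsingular x₁ y₁) (C : (W⁄F).Point),
      IsGood W R s p x₁ y₁ ∧
      p ^ (n + 1) • (some x₁ y₁ h₁ : (W⁄M).Point) = some x y hxy - Point.baseChange F M Q ∧
      ∀ (w : HeightOneSpectrum (𝓞 F))
        (ι : AlgebraicClosure k →ₐ[F] AlgebraicClosure (w.adicCompletion F))
        (A : ValuationSubring M) (φ : A →+* AlgebraicClosure (w.adicCompletion F)),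
        Sel.IsPlaceOf s (w.adicCompletion F)
          (ι : _ →+* AlgebraicClosure (w.adicCompletion F)) A φ →
        ∀ N : AddSubgroup (W⁄M).Point, IsKer W A N →
          (some x₁ y₁ h₁ : (W⁄M).Point) - Point.baseChange F M C ∈ N ∨
          (some x₁ y₁ h₁ : (W⁄M).Point) + Point.baseChange F M C ∈ N := by
  induction n with
  | zero =>
    obtain ⟨Q, x₁, y₁, h₁, C, -, H₁, hmul, hC⟩ :=
      exists_step W R s hrk hp hsha htr hmax hs hsec hloc hxy H
    exact ⟨Q, x₁, y₁, h₁, C, H₁, by rwa [zero_add, pow_one], hC⟩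
  | succ n ih =>
    obtain ⟨Q, x₁, y₁, h₁, -, H₁, hmul, -⟩ := ih
    obtain ⟨Q', x₂, y₂, h₂, C, -, H₂, hmul₂, hC⟩ :=
      exists_step W R s hrk hp hsha htr hmax hs hsec hloc h₁ H₁
    refine ⟨Q + p ^ (n + 1) • Q', x₂, y₂, h₂, C, H₂, ?_, hC⟩
    rw [pow_succ, mul_smul, hmul₂, smul_sub, hmul, map_add, map_nsmul]
    abel

end level

end Pool.Agent.Lib.MP_2f3286_ag.UA
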