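import Pool.Agent.Lib.MP_2f3286_ag.UA.Q5
import Pool.Agent.Lib.MP_2f3286_ag.UA.Q2

/-!
# A local place over a cusp: a translate of a division point has a pole there, and is on `E - E(F)[p ^ ∞]`
-/

open WeierstrassCurve WeierstrassCurve.Affine WeierstrassCurve.Affine.Point
open IsDedekindDomain NumberField Polynomial
open Pool.Agent.Lib.MP_2f3286_ag

namespace Pool.Agent.Lib.MP_2f3286_ag.UA

universe u v

open scoped Classical in
/-- translation by a constant point -/
theorem exists_translate {F M : Type*} [Field F] [Field M] [Algebra F M] (W : WeierstrassCurve F)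
    [W.IsElliptic] {x y : M} (h : (W⁄M).Nonsingular x y) (hx : ∀ c : F, x ≠ algebraMap F M c)
    (C : (W⁄F).Point) :
    ∃ (x' y' : M) (h' : (W⁄M).Nonsingular x' y'),
      (some x' y' h' : (W⁄M).Point) = some x y h - Point.baseChange F M C ∧
      IntermediateField.adjoin F {x', y'} ≤ IntermediateField.adjoin F {x, y} ∧
      IntermediateField.adjoin F {x, y} ≤ IntermediateField.adjoin F {x', y'} := by
  obtain ⟨P, hP⟩ : ∃ P, P = some x y h - Point.baseChange F M C := ⟨_, rfl⟩
  rcases P with _ | ⟨x', y', h'⟩
  · exfalso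
    have h1 : some x y h = Point.baseChange F M C := (sub_eq_zero.1 hP.symm)
    rcases C with _ | ⟨a, b, hab⟩
    · exact Point.some_ne_zero h h1
    · have h2 : some x y h = some (algebraMap F M a) (algebraMap F M b) _ := h1
      exact hx a (some.inj h2).1
  · refine ⟨x', y', h', hP, ?_, ?_⟩
    · refine adjoin_le_of_mul W h' h (m := 1) (Q := -C) ?_
      rw [one_smul, hP, map_neg]
      abel
    · refine adjoin_le_of_mul W h h' (m := 1) (Q := C) ?_
      rw [one_smul, hP]

open scoped Classical in
/-- the coordinates of a nonconstant point are not constant -/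
theorem nc_of_adjoin {F kb M : Type*} [Field F] [Field kb] [IsAlgClosed kb] [Field M] [Algebra F kb]
    [Algebra kb M] [Algebra F M] [IsScalarTower F kb M] (W : WeierstrassCurve F)
    [W.IsElliptic] {x y x' y' : M} (h' : (W⁄M).Nonsingular x' y')
    (hc : ∀ c : kb, x ≠ algebraMap kb M c)
    (hle : IntermediateField.adjoin F {x, y} ≤ IntermediateField.adjoin F {x', y'}) (c : kb) :
    x' ≠ algebraMap kb M c := by
  intro h
  obtain ⟨Q, hQ⟩ := Top.exists_of_x (W := W) (kb := kb) h' h.symm
  rcases Q with _ | ⟨a, b, hab⟩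
  · exact Point.some_ne_zero h' hQ.symm
  · have h5 : (some (algebraMap kb M a) (algebraMap kb M b) _ : (W⁄M).Point) = some x' y' h' := hQ
    obtain ⟨h6, h7⟩ := some.inj h5
    have h8 : IntermediateField.adjoin F {x', y'} ≤ (IsScalarTower.toAlgHom F kb M).fieldRange := by
      rw [IntermediateField.adjoin_le_iff]
      rintro z (rfl | rfl)
      · exact ⟨a, h6⟩
      · exact ⟨b, h7⟩
    obtain ⟨d, hd⟩ := h8 (hle (IntermediateField.subset_adjoin F {x, y} (by simp : x ∈ ({x, y} : Set M))))
    exact hc d hd.symm

/-- elements of the field generated by fixed elements -/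
theorem fix_of_adjoin {F M : Type*} [Field F] [Field M] [Algebra F M] (τ : M →+* M)
    (hF : ∀ a : F, τ (algebraMap F M a) = algebraMap F M a) {x y z : M} (hx : τ x = x)
    (hy : τ y = y) (hz : z ∈ IntermediateField.adjoin F {x, y}) : τ z = z := by
  induction hz using IntermediateField.adjoin_induction with
  | mem z hz =>
    rcases hz with rfl | rfl
    · exact hx
    · exact hy
  | algebraMap a => exact hF a
  | add a b _ _ ha hb => rw [map_add, ha, hb]
  | inv a _ ha => rw [map_inv₀, ha]
  | mul a b _ _ ha hb => rw [map_mul, ha, hb]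

section cusp

variable {k : Type u} [Field k] [NumberField k]
    {F : Type v} [Field F] [NumberField F] [Algebra k F]
    [Algebra F (AlgebraicClosure k)] [IsScalarTower k F (AlgebraicClosure k)]
    (W : WeierstrassCurve F) [W.IsShortNF] [W.IsElliptic] {p : ℕ}
    {K : Type*} [Field K] [Algebra k K]
    (R : Subalgebra k K)
    {M : Type*} [Field M] [Algebra K M] [IsGalois K M]
    [Algebra (AlgebraicClosure k) M] [Algebra k M]
    [IsScalarTower k K M] [IsScalarTower k (AlgebraicClosure k) M]
    [Algebra F M] [IsScalarTower F (AlgebraicClosure k) M]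
    (s : Gal(AlgebraicClosure k/k) →* Gal(M/K))

omit [IsGalois K M] [NumberField k] [NumberField F] [Algebra k F]
  [IsScalarTower k F (AlgebraicClosure k)] in
open scoped Classical in
/-- **Two places with a pole of a translate**: if the functions on `U₁` are finite at `V`, the functions
on `U` are finite at `A`. -/
theorem finite_of_pole {x y : M} (hxy : (W⁄M).Nonsingular x y)
    (hx : ∀ c : F, x ≠ algebraMap F M c)
    (K₁ : IntermediateField k K) (R₁ : Subalgebra k K₁) (hR : ∀ h : K, h ∈ R ↔ IsIntegral R₁ h)
    (hK : ∀ c : K₁, algebraMap K₁ M c ∈ IntermediateField.adjoin F {x, y}) (P : (W⁄F).Point)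
    {V A : ValuationSubring M} (hV : ∀ a : AlgebraicClosure k,
      algebraMap (AlgebraicClosure k) M a ∈ V)
    (hA : ∀ a : AlgebraicClosure k, algebraMap (AlgebraicClosure k) M a ∈ A)
    {N N' : AddSubgroup (W⁄M).Point} (hN : IsKer W V N) (hN' : IsKer W A N')
    (h1 : (some x y hxy : (W⁄M).Point) - Point.baseChange F M P ∈ N)
    (h2 : (some x y hxy : (W⁄M).Point) - Point.baseChange F M P ∈ N')
    (hRV : ∀ r : R, algebraMap K M r ∈ V) : ∀ r : R, algebraMap K M r ∈ A := by
  obtain ⟨x', y', h', e1, -, hle⟩ := exists_translate W hxy hx P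
  rw [← e1, hN.some_mem] at h1
  rw [← e1, hN'.some_mem] at h2
  let f : (AlgebraicClosure k)[X] := X ^ 3 + C (algebraMap F _ W.a₄) * X + C (algebraMap F _ W.a₆)
  have hf : f.natDegree = 3 := by
    change (X ^ 3 + C (algebraMap F (AlgebraicClosure k) W.a₄) * X +
      C (algebraMap F (AlgebraicClosure k) W.a₆)).natDegree = 3
    compute_degree!
  have hxy' : y' ^ 2 = aeval x' f := by
    rw [eq_of_ns W h'.1]
    simp only [f, map_add, map_mul, map_pow, aeval_X, aeval_C]
    rw [← IsScalarTower.algebraMap_apply F (AlgebraicClosure k) M,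
      ← IsScalarTower.algebraMap_apply F (AlgebraicClosure k) M]
  have hFkb : IntermediateField.adjoin F {x', y'} ≤
      (IntermediateField.adjoin (AlgebraicClosure k) {x', y'}).restrictScalars F := by
    rw [IntermediateField.adjoin_le_iff]
    rintro z hz
    exact IntermediateField.subset_adjoin (AlgebraicClosure k) {x', y'} hz
  have key : ∀ r : R₁, algebraMap K₁ M r ∈ A := by
    intro r
    have h3 : algebraMap K₁ M r ∈ V := hRV ⟨((r : K₁) : K), (hR _).2
      (isIntegral_algebraMap (R := R₁) (A := K) (x := r))⟩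
    exact agree_at_pole hf hxy' hV hA h1 h2 (hFkb (hle (hK r))) h3
  intro r
  have t3 : IsScalarTower R₁ K M := IsScalarTower.of_algebraMap_eq fun a => rfl
  have h4 : IsIntegral R₁ (algebraMap K M r) := ((hR r).1 r.2).algebraMap
  exact Pt.PTAux.mem_of_isIntegral (R := R₁) key h4

end cusp

end Pool.Agent.Lib.MP_2f3286_ag.UA
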