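import Pool.Agent.Lib.MP_2f3286_ag.UA.Q6
import Pool.Agent.Lib.MP_2f3286_ag.UA.XG

/-!
# Sections of an unramified covering of a curve in the elliptic curve: arbitrary cusps

Suppose that the section has some place over each completion of `F` and that at one of these places the
functions on `U` are not all finite. Then a translate by a rational point of a `p ^ n`-th division point has
a pole at this place, and it is on `E - E(F)[p ^ ∞]` over `U`: the arithmetic half applied to this point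
shows that its division point has a pole at all local places.
-/

open WeierstrassCurve WeierstrassCurve.Affine WeierstrassCurve.Affine.Point
open IsDedekindDomain NumberField Polynomial
open Pool.Agent.Lib.MP_2f3286_ag

namespace Pool.Agent.Lib.MP_2f3286_ag.UA

universe u v

section cusp

variable {k : Type u} [Field k] [NumberField k]
    {F : Type v} [Field F] [NumberField F] [Algebra k F]
    [Algebra F (AlgebraicClosure k)] [IsScalarTower k F (AlgebraicClosure k)]
    (W : WeierstrassCurve F) [W.IsShortNF] [W.IsElliptic] {p : ℕ}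
    {K : Type*} [Field K] [Algebra k K]
    (R : Subalgebra k K)
    {M : Type*} [Field M] [Algebra K M] [IsGalois K M]
    [Algebra (AlgebraicClosure k) M] [Algebra k M]
    [IsScalarTower k K M] [IsScalarTower k (AlgebraicClosure k) M]
    [Algebra F M] [IsScalarTower F (AlgebraicClosure k) M]
    (s : Gal(AlgebraicClosure k/k) →* Gal(M/K))

open scoped Classical in
/-- **A local place over a cusp**: there is a point of which `(x, y)` is a multiple up to a constant, with a
pole at all local places. -/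
theorem exists_pole_cov (hrk : ∀ Q : (W⁄F).Point, IsOfFinAddOrder Q) (hp : p.Prime) {j : ℕ}
    (hsha : ShaKilledByPow W p j) (htr : Algebra.trdeg k K = 1)
    (hmax : Pt.IsMaxUnramOver R K M (AlgebraicClosure k)) (hs : Continuous s)
    (hsec : ∀ σ a, s σ (algebraMap (AlgebraicClosure k) M a) =
      algebraMap (AlgebraicClosure k) M (σ a))
    (hloc : ∀ w : HeightOneSpectrum (𝓞 F),
        ∃ (ι : AlgebraicClosure k →ₐ[F] AlgebraicClosure (w.adicCompletion F))
          (A : ValuationSubring M) (φ : A →+* AlgebraicClosure (w.adicCompletion F)),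
          Sel.IsPlaceOf s (w.adicCompletion F)
            (ι : _ →+* AlgebraicClosure (w.adicCompletion F)) A φ)
    {x y : M} (hxy : (W⁄M).Nonsingular x y) (H : IsGood W R s p x y)
    (K₁ : IntermediateField k K) (R₁ : Subalgebra k K₁) (hR : ∀ h : K, h ∈ R ↔ IsIntegral R₁ h)
    (hK : ∀ c : K₁, algebraMap K₁ M c ∈ IntermediateField.adjoin F {x, y})
    {w : HeightOneSpectrum (𝓞 F)}
    {ι : AlgebraicClosure k →ₐ[F] AlgebraicClosure (w.adicCompletion F)}
    {A : ValuationSubring M} {φ : A →+* AlgebraicClosure (w.adicCompletion F)}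
    (hA : Sel.IsPlaceOf s (w.adicCompletion F)
      (ι : _ →+* AlgebraicClosure (w.adicCompletion F)) A φ)
    (hRA : ¬ ∀ r : R, algebraMap K M r ∈ A) :
    ∃ (m : ℕ) (Q : (W⁄F).Point) (x₁ y₁ : M) (h₁ : (W⁄M).Nonsingular x₁ y₁) (g : F[X]),
      (∀ σ : Gal(AlgebraicClosure k/k),
        (∀ a : F, σ (algebraMap F _ a) = algebraMap F _ a) → s σ x₁ = x₁ ∧ s σ y₁ = y₁) ∧
      m • (some x₁ y₁ h₁ : (W⁄M).Point) = some x y hxy - Point.baseChange F M Q ∧
      (∀ c : AlgebraicClosure k, x₁ ≠ algebraMap (AlgebraicClosure k) M c) ∧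
      0 < g.natDegree ∧ IsIntegral R x₁ ∧ IsIntegral R (aeval x₁ g)⁻¹ ∧
      ∀ (w : HeightOneSpectrum (𝓞 F))
        (ι : AlgebraicClosure k →ₐ[F] AlgebraicClosure (w.adicCompletion F))
        (A : ValuationSubring M) (φ : A →+* AlgebraicClosure (w.adicCompletion F)),
        Sel.IsPlaceOf s (w.adicCompletion F)
          (ι : _ →+* AlgebraicClosure (w.adicCompletion F)) A φ → x₁ ∉ A := by
  have hFM : ∀ c : F, algebraMap F M c = algebraMap (AlgebraicClosure k) M (algebraMap F _ c) :=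
    fun c => IsScalarTower.algebraMap_apply F (AlgebraicClosure k) M c
  have hFA : ∀ {A : ValuationSubring M}, (∀ a : AlgebraicClosure k,
      algebraMap (AlgebraicClosure k) M a ∈ A) → ∀ a : F, algebraMap F M a ∈ A := by
    intro A hA a
    rw [hFM]
    exact hA _
  have hcF : ∀ {z : M}, (∀ c : AlgebraicClosure k, z ≠ algebraMap (AlgebraicClosure k) M c) →
      ∀ c : F, z ≠ algebraMap F M c := fun h c => by
    rw [hFM]
    exact h _
  have hkA : ∀ a : AlgebraicClosure k, algebraMap (AlgebraicClosure k) M a ∈ A := fun a =>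
    (hA.1 a).1
  obtain ⟨N, hN⟩ := exists_exponent W p
  obtain ⟨Q, x₁, y₁, h₁, C, H₁, hmul, hC⟩ :=
    exists_all_levels W R s hrk hp hsha htr hmax hs hsec hloc hxy H N
  obtain ⟨NA, hNA⟩ := exists_ker W A (hFA hkA)
  -- the sign
  obtain ⟨C', hC'⟩ : ∃ C' : (W⁄F).Point,
      (some x₁ y₁ h₁ : (W⁄M).Point) - Point.baseChange F M C' ∈ NA := by
    rcases hC w ι A φ hA NA hNA with h | h
    · exact ⟨C, h⟩
    · exact ⟨-C, by rwa [map_neg, sub_neg_eq_add]⟩
  -- the translate
  obtain ⟨x₂, y₂, h₂, e₂, hle₂, hle₂'⟩ := exists_translate W h₁ (hcF H₁.nc) C'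
  have hnc₂ : ∀ c : AlgebraicClosure k, x₂ ≠ algebraMap (AlgebraicClosure k) M c :=
    nc_of_adjoin W h₂ H₁.nc hle₂'
  have hfix₂ : ∀ σ : Gal(AlgebraicClosure k/k),
      (∀ a : F, σ (algebraMap F _ a) = algebraMap F _ a) → s σ x₂ = x₂ ∧ s σ y₂ = y₂ := by
    intro σ hσ
    have h5 : ∀ z ∈ IntermediateField.adjoin F {x₁, y₁}, s σ z = z := fun z hz =>
      fix_of_adjoin (s σ : M →+* M) (fun a => by
        change s σ (algebraMap F M a) = algebraMap F M a
        rw [hFM, hsec, hσ]) (H₁.fix σ hσ).1 (H₁.fix σ hσ).2 hz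
    exact ⟨h5 _ (hle₂ (IntermediateField.subset_adjoin F _ (by simp))),
      h5 _ (hle₂ (IntermediateField.subset_adjoin F _ (by simp)))⟩
  have hx₂A : x₂ ∉ A := by
    rw [← hNA.some_mem x₂ y₂ h₂, e₂]
    exact hC'
  have hpow : ∀ z : (W⁄M).Point, z = some x₁ y₁ h₁ - Point.baseChange F M C' →
      p ^ (N + 1) • z = some x y hxy - Point.baseChange F M (Q + p ^ (N + 1) • C') := by
    rintro z rfl
    rw [smul_sub, hmul, map_add, map_nsmul]
    abel
  have hon₂ : OnE W p x₂ (IsIntegral R) := by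
    rw [on_iff]
    intro V hV
    obtain ⟨NV, hNV⟩ := exists_ker W V (hFA hV.1.1)
    rw [hNV.avoid_iff (hFA hV.1.1) h₂ (hcF hnc₂)]
    intro T hT hcon
    refine hRA (finite_of_pole W R hxy (hcF H.nc) K₁ R₁ hR hK (Q + p ^ (N + 1) • C') hV.1.1 hkA
      hNV hNA ?_ ?_ hV.2)
    · have h6 := NV.nsmul_mem hcon (p ^ (N + 1))
      have h7 : p ^ (N + 1) • T = 0 := by
        rw [pow_succ', mul_smul, hN T hT, smul_zero]
      rw [smul_sub, ← map_nsmul, h7, _root_.map_zero, sub_zero, hpow _ e₂] at h6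
      exact h6
    · rw [← hpow _ rfl]
      exact NA.nsmul_mem hC' _
  obtain ⟨Q₃, x₃, y₃, h₃, g, -, hfix₃, hmul₃, hc₃, -, hgd, hint, halt⟩ :=
    arith W hrk hp hsha htr R s hs hsec hfix₂ h₂ (hcF hnc₂)
      (Or.inr ⟨hmax, hon₂.1, hon₂.2, hloc⟩)
  have hbot : R ≠ ⊥ := by
    obtain ⟨t, htR, ht⟩ := HYP.exists_transc (F := F) R s hsec (fun σ hσ => (hfix₂ σ hσ).1)
      (hcF hnc₂) hon₂.1
    rintro rfl
    obtain ⟨c, rfl⟩ := Algebra.mem_bot.1 htR
    exact ht (isAlgebraic_algebraMap c)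
  obtain ⟨hx₃R, hgR⟩ := hint.resolve_left fun h => hbot h.2
  refine ⟨p ^ (N + 1) * p, Q + p ^ (N + 1) • (C' + Q₃), x₃, y₃, h₃, g, hfix₃, ?_, hc₃, hgd, hx₃R,
    hgR, ?_⟩
  · rw [mul_smul, hmul₃, smul_sub, hpow _ e₂, smul_add, ← add_assoc, map_add _ _ (p ^ (N + 1) • Q₃),
      map_nsmul _ (p ^ (N + 1)) Q₃]
    abel
  · rcases halt with ⟨e, -, hval⟩ | halt
    · exact absurd (hval w ι A φ hA).2.1 hx₂A
    · exact halt

end cusp

end Pool.Agent.Lib.MP_2f3286_ag.UA
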