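import Pool.Agent.Lib.MP_2f3286_ag.Pt.Division
import Pool.Agent.Lib.MP_2f3286_ag.Top.Kum

/-!
# Division points on elliptic curves over fields closed under roots

`M` is a field of characteristic zero which contains an algebraically closed field `kb`; every element of
`M` is a `p`-th power. Then every point over `M` of an elliptic curve defined over `kb` is `p` times a
point over `M`. For `T` over an algebraic closure with `p T = T₀`, the Galois group of `M` acts on the
points `T + v`, `v` of order `p`, by translations; the resolvents of the coordinates of the points `T + v`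
have their `p`-th powers in `M`, so they are in `M`, and the coordinates are sums of resolvents.
-/

open WeierstrassCurve WeierstrassCurve.Affine WeierstrassCurve.Affine.Point

namespace Pool.Agent.Lib.MP_2f3286_ag.UA

section resolvent

variable {Ω M : Type*} [Field Ω] [Field M] [Algebra M Ω]

/-- an element whose `p`-th power is in `M` is in `M` -/
theorem mem_of_pow_mem {p : ℕ} [NeZero p] {z : M} (hz : IsPrimitiveRoot z p)
    (hroot : ∀ x : M, ∃ y : M, y ^ p = x) {ρ : Ω} (h : ∃ m : M, algebraMap M Ω m = ρ ^ p) :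
    ∃ m : M, algebraMap M Ω m = ρ := by
  have hp : p ≠ 0 := NeZero.ne p
  obtain ⟨m, hm⟩ := h
  obtain ⟨r, hr⟩ := hroot m
  have h1 : (algebraMap M Ω r) ^ p = ρ ^ p := by rw [← map_pow, hr, hm]
  by_cases hr0 : algebraMap M Ω r = 0
  · rw [hr0, zero_pow hp] at h1
    exact ⟨0, by rw [_root_.map_zero, pow_eq_zero_iff hp |>.1 h1.symm]⟩
  · have h2 : (ρ / algebraMap M Ω r) ^ p = 1 := by
      rw [div_pow, h1, div_self]
      rw [← h1]
      exact pow_ne_zero _ hr0
    obtain ⟨i, -, hi⟩ := (hz.map_of_injective (algebraMap M Ω).injective).eq_pow_of_pow_eq_one h2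
    exact ⟨z ^ i * r, by rw [map_mul, map_pow, hi, div_mul_cancel₀ _ hr0]⟩

/-- A family of elements indexed by a finite group of exponent `p`, which the Galois group permutes by
translations, is in `M`. -/
theorem mem_of_translate {p : ℕ} [Fact p.Prime] [CharZero Ω] {z : M} (hz : IsPrimitiveRoot z p)
    (hroot : ∀ x : M, ∃ y : M, y ^ p = x)
    (hfix : ∀ x : Ω, (∀ g : Gal(Ω/M), g x = x) → ∃ m : M, algebraMap M Ω m = x)
    {V : Type*} [AddCommGroup V] [Module (ZMod p) V] [Finite V] (θ : V → Ω)
    (c : Gal(Ω/M) → V) (h : ∀ g v, g (θ v) = θ (v + c g)) (w : V) :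
    ∃ m : M, algebraMap M Ω m = θ w := by
  classical
  have := Fintype.ofFinite V
  have : Finite (Module.Dual (ZMod p) V) := Finite.of_injective
    (fun f : Module.Dual (ZMod p) V => (f : V → ZMod p)) DFunLike.coe_injective
  have := Fintype.ofFinite (Module.Dual (ZMod p) V)
  let e : AddChar (ZMod p) Ω := AddChar.zmodChar p (ζ := algebraMap M Ω z)
    (by rw [← map_pow, hz.pow_eq_one, _root_.map_one])
  have he : ∀ a : ZMod p, e a = algebraMap M Ω (z ^ a.val) := fun a => by
    rw [map_pow]
    exact AddChar.zmodChar_apply _ a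
  have he1 : ∀ a : ZMod p, e a = 1 → a = 0 := by
    intro a ha
    rw [he, map_pow] at ha
    have h1 := ((hz.map_of_injective (algebraMap M Ω).injective).pow_eq_one_iff_dvd a.val).1 ha
    have h2 : a.val = 0 := Nat.eq_zero_of_dvd_of_lt h1 (ZMod.val_lt a)
    exact (ZMod.val_eq_zero a).1 h2
  let ρ : Module.Dual (ZMod p) V → Ω := fun l => ∑ v, e (-(l v)) * θ v
  have h1 : ∀ (g : Gal(Ω/M)) (l : Module.Dual (ZMod p) V), g (ρ l) = e (l (c g)) * ρ l := by
    intro g l
    have h2 : ∀ a : ZMod p, g (e a) = e a := fun a => by rw [he, AlgEquiv.commutes]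
    simp only [ρ, map_sum, map_mul, h2, h, Finset.mul_sum]
    refine Fintype.sum_equiv (Equiv.addRight (c g)) _ _ fun v => ?_
    simp only [Equiv.coe_addRight, map_add, ← mul_assoc, ← AddChar.map_add_eq_mul]
    congr 2
    abel
  have h3 : ∀ l, ∃ m : M, algebraMap M Ω m = ρ l := by
    intro l
    refine mem_of_pow_mem hz hroot (hfix _ fun g => ?_)
    rw [map_pow, h1, mul_pow, ← AddChar.map_nsmul_eq_pow, nsmul_eq_mul, CharP.cast_eq_zero,
      zero_mul, AddChar.map_zero_eq_one, one_mul]
  choose m hm using h3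
  have h4 : ∀ u : V, u ≠ 0 → ∑ l : Module.Dual (ZMod p) V, e (l u) = 0 := by
    intro u hu
    obtain ⟨l₀, hl₀⟩ : ∃ l₀ : Module.Dual (ZMod p) V, l₀ u ≠ 0 := by
      by_contra hcon
      push Not at hcon
      exact hu ((Module.forall_dual_apply_eq_zero_iff (ZMod p) u).1 hcon)
    have h5 : ∑ l : Module.Dual (ZMod p) V, e (l u) =
        e (l₀ u) * ∑ l : Module.Dual (ZMod p) V, e (l u) := by
      rw [Finset.mul_sum]
      refine Fintype.sum_equiv (Equiv.subRight l₀) _ _ fun l => ?_
      simp only [Equiv.subRight_apply, LinearMap.sub_apply, ← AddChar.map_add_eq_mul]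
      congr 1
      abel
    have h6 : (1 - e (l₀ u)) * ∑ l : Module.Dual (ZMod p) V, e (l u) = 0 := by
      rw [sub_mul, one_mul, ← h5, sub_self]
    rcases mul_eq_zero.1 h6 with h7 | h7
    · exact absurd (he1 _ (sub_eq_zero.1 h7).symm) hl₀
    · exact h7
  have h5 : ∑ l : Module.Dual (ZMod p) V, e (l w) * ρ l =
      (Fintype.card (Module.Dual (ZMod p) V) : Ω) * θ w := by
    simp only [ρ, Finset.mul_sum]
    rw [Finset.sum_comm]
    have h6 : ∀ v : V, ∑ l : Module.Dual (ZMod p) V, e (l w) * (e (-(l v)) * θ v) =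
        if v = w then (Fintype.card (Module.Dual (ZMod p) V) : Ω) * θ w else 0 := by
      intro v
      have h7 : ∀ l : Module.Dual (ZMod p) V, e (l w) * (e (-(l v)) * θ v) =
          e (l (w - v)) * θ v := by
        intro l
        rw [← mul_assoc, ← AddChar.map_add_eq_mul, map_sub, sub_eq_add_neg]
      simp only [h7, ← Finset.sum_mul]
      split_ifs with hv
      · subst hv
        simp
      · rw [h4 _ (sub_ne_zero.2 (Ne.symm hv)), zero_mul]
    simp only [h6, Finset.sum_ite_eq', Finset.mem_univ, if_true]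
  have h8 : (Fintype.card (Module.Dual (ZMod p) V) : Ω) ≠ 0 :=
    Nat.cast_ne_zero.2 Fintype.card_ne_zero
  refine ⟨(Fintype.card (Module.Dual (ZMod p) V) : M)⁻¹ *
    ∑ l : Module.Dual (ZMod p) V, z ^ (l w).val * m l, ?_⟩
  rw [map_mul, map_inv₀, map_natCast, map_sum]
  simp only [map_mul, hm, ← he]
  rw [h5, inv_mul_cancel_left₀ h8]

end resolvent

section curve

/-- the conjugates of an algebraic element form a finite set -/
theorem finite_conj {Ω M : Type*} [Field Ω] [Field M] [Algebra M Ω] [Algebra.IsAlgebraic M Ω]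
    (x : Ω) : {y : Ω | ∃ g : Gal(Ω/M), g x = y}.Finite := by
  have h1 := minpoly.ne_zero (Algebra.IsIntegral.isIntegral (R := M) x)
  refine ((minpoly M x).rootSet_finite Ω).subset ?_
  rintro y ⟨g, rfl⟩
  rw [Polynomial.mem_rootSet]
  exact ⟨h1, by rw [Polynomial.aeval_algHom_apply, minpoly.aeval, _root_.map_zero]⟩

open scoped Classical in
/-- **Points are divisible by `p`.** -/
theorem exists_div_prime {F M : Type*} [Field F] (kb : Type*) [Field kb] [IsAlgClosed kb]
    [CharZero kb] [Algebra F kb] [Field M] [Algebra kb M] [Algebra F M] [IsScalarTower F kb M]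
    (W : Affine F) [W.IsElliptic] {p : ℕ} (hp : p.Prime)
    (hroot : ∀ x : M, ∃ y : M, y ^ p = x) (T₀ : (W⁄M).Point) : ∃ T : (W⁄M).Point, p • T = T₀ := by
  rcases eq_or_ne T₀ 0 with rfl | hT₀
  · exact ⟨0, smul_zero _⟩
  have hfp : Fact p.Prime := ⟨hp⟩
  let Ω := AlgebraicClosure M
  have hM : CharZero M := charZero_of_injective_algebraMap (algebraMap kb M).injective
  have hΩ : CharZero Ω := charZero_of_injective_algebraMap (algebraMap M Ω).injective
  obtain ⟨T, hT⟩ := Pt.Div.divisible (W := W) (kb := Ω) hp.one_le (baseChange M Ω T₀)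
  have hT0 : ∀ g : Gal(Ω/M), p • (Top.act W g T - T) = 0 := fun g => by
    rw [smul_sub, ← map_nsmul, hT, Top.act_baseChange, sub_self]
  have hc : ∀ g : Gal(Ω/M), ∃ t : (W⁄kb).Point, baseChange kb Ω t = Top.act W g T - T :=
    fun g => Pt.Div.descend hp.one_le _ 0 (by rw [hT0]; exact (_root_.map_zero _).symm)
  have hgc : ∀ (g : Gal(Ω/M)) (t : (W⁄kb).Point),
      Top.act W g (baseChange kb Ω t) = baseChange kb Ω t := by
    intro g t
    have h1 : ∀ a : kb, g (algebraMap kb Ω a) = algebraMap kb Ω a := fun a => by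
      rw [IsScalarTower.algebraMap_apply kb M Ω, g.commutes]
    rcases t with _ | ⟨a, b, h⟩
    · rfl
    · exact Top.some_ext _ _ (h1 a) (h1 b)
  -- the group of translations
  let C : AddSubgroup (W⁄kb).Point :=
    { carrier := {t | ∃ g : Gal(Ω/M), baseChange kb Ω t = Top.act W g T - T}
      zero_mem' := ⟨1, by
        have h1 : Top.act W (1 : Gal(Ω/M)) T = T := by rcases T with _ | ⟨x, y, h⟩ <;> rfl
        rw [h1, sub_self]
        exact _root_.map_zero _⟩
      add_mem' := by
        rintro a b ⟨g, hg⟩ ⟨h, hh⟩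
        refine ⟨g * h, ?_⟩
        rw [map_add, hg, hh, Top.act_mul]
        have h1 : Top.act W h T = T + baseChange kb Ω b := by rw [hh]; abel
        rw [h1, map_add, hgc, hh]
        abel
      neg_mem' := by
        rintro a ⟨g, hg⟩
        refine ⟨g⁻¹, ?_⟩
        have h1 : Top.act W g⁻¹ (Top.act W g T) = T := by
          rw [← Top.act_mul, inv_mul_cancel]
          rcases T with _ | ⟨x, y, h⟩ <;> rfl
        have h2 : Top.act W g T = T + baseChange kb Ω a := by rw [hg]; abel
        rw [h2, map_add, hgc] at h1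
        rw [map_neg]
        calc -baseChange kb Ω a = Top.act W g⁻¹ T - (Top.act W g⁻¹ T + baseChange kb Ω a) := by abel
          _ = Top.act W g⁻¹ T - T := by rw [h1] }
  have hCp : ∀ t : C, p • t = 0 := by
    rintro ⟨t, g, hg⟩
    apply Subtype.ext
    apply Top.bc_injective kb Ω
    show baseChange kb Ω (p • t) = baseChange kb Ω 0
    rw [map_nsmul, hg, hT0]
    exact (_root_.map_zero _).symm
  have hCf : Finite C := by
    have h1 : {P : (W⁄Ω).Point | ∃ g : Gal(Ω/M), Top.act W g T = P}.Finite := by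
      rcases T with _ | ⟨x, y, h⟩
      · refine (Set.finite_singleton (0 : (W⁄Ω).Point)).subset ?_
        rintro _ ⟨g, rfl⟩
        rfl
      · let Φ : Ω × Ω → (W⁄Ω).Point := fun q =>
          if hq : (W⁄Ω).Nonsingular q.1 q.2 then some q.1 q.2 hq else 0
        refine (((finite_conj (M := M) x).prod (finite_conj (M := M) y)).image Φ).subset ?_
        rintro _ ⟨g, rfl⟩
        have h2 : (W⁄Ω).Nonsingular (g x) (g y) :=
          (W.baseChange_nonsingular (g : Ω →ₐ[M] Ω).injective x y).mpr h
        exact ⟨(g x, g y), ⟨⟨g, rfl⟩, ⟨g, rfl⟩⟩, dif_pos h2⟩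
    have h2 : (C : Set (W⁄kb).Point).Finite := by
      refine Set.Finite.of_finite_image (f := fun t => T + baseChange kb Ω t) (h1.subset ?_) ?_
      · rintro _ ⟨t, ⟨g, hg⟩, rfl⟩
        refine ⟨g, ?_⟩
        show Top.act W g T = T + baseChange kb Ω t
        rw [hg]
        abel
      · intro a _ b _ hab
        exact Top.bc_injective kb Ω (add_left_cancel hab)
    exact h2.to_subtype
  let _ : Module (ZMod p) C := AddCommGroup.zmodModule hCp
  have hcC : ∀ g : Gal(Ω/M), ∃ t : C, baseChange kb Ω (t : (W⁄kb).Point) = Top.act W g T - T := by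
    intro g
    obtain ⟨t, ht⟩ := hc g
    exact ⟨⟨t, g, ht⟩, ht⟩
  choose c hcc using hcC
  have hfix : ∀ x : Ω, (∀ g : Gal(Ω/M), g x = x) → ∃ m : M, algebraMap M Ω m = x := by
    intro x hx
    have h1 : x ∈ (⊥ : IntermediateField M Ω) := by
      rw [InfiniteGalois.mem_bot_iff_fixed]
      exact hx
    exact IntermediateField.mem_bot.mp h1
  obtain ⟨z, hz⟩ : ∃ z : M, IsPrimitiveRoot z p := by
    have : NeZero (p : kb) := ⟨Nat.cast_ne_zero.2 hp.ne_zero⟩
    obtain ⟨z, hz⟩ := HasEnoughRootsOfUnity.exists_primitiveRoot kb p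
    exact ⟨algebraMap kb M z, hz.map_of_injective (algebraMap kb M).injective⟩
  have hact : ∀ (g : Gal(Ω/M)) (v : C), Top.act W g (T + baseChange kb Ω (v : (W⁄kb).Point)) =
      T + baseChange kb Ω ((v + c g : C) : (W⁄kb).Point) := by
    intro g v
    rw [map_add, hgc, AddSubgroup.coe_add, map_add, hcc]
    abel
  let px : (W⁄Ω).Point → Ω := fun P => match P with
    | .zero => 0
    | .some x _ _ => x
  let py : (W⁄Ω).Point → Ω := fun P => match P with
    | .zero => 0
    | .some _ y _ => y
  have hpx : ∀ (g : Gal(Ω/M)) (P : (W⁄Ω).Point), g (px P) = px (Top.act W g P) := by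
    rintro g (_ | ⟨x, y, h⟩)
    · exact _root_.map_zero _
    · rfl
  have hpy : ∀ (g : Gal(Ω/M)) (P : (W⁄Ω).Point), g (py P) = py (Top.act W g P) := by
    rintro g (_ | ⟨x, y, h⟩)
    · exact _root_.map_zero _
    · rfl
  have hx := mem_of_translate hz hroot hfix
    (fun v : C => px (T + baseChange kb Ω (v : (W⁄kb).Point))) c (fun g v => by
      rw [hpx, hact]) 0
  have hy := mem_of_translate hz hroot hfix
    (fun v : C => py (T + baseChange kb Ω (v : (W⁄kb).Point))) c (fun g v => by
      rw [hpy, hact]) 0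
  have h0 : T + baseChange kb Ω ((0 : C) : (W⁄kb).Point) = T := by
    have h1 : baseChange kb Ω ((0 : C) : (W⁄kb).Point) = 0 := _root_.map_zero _
    rw [h1, add_zero]
  simp only [h0] at hx hy
  have hfT : ∀ g : Gal(Ω/M), Top.act W g T = T := by
    intro g
    obtain ⟨a, ha⟩ := hx
    obtain ⟨b, hb⟩ := hy
    rcases T with _ | ⟨x, y, h⟩
    · rfl
    · have ha' : algebraMap M Ω a = x := ha
      have hb' : algebraMap M Ω b = y := hb
      exact Top.some_ext _ _ (by rw [← ha']; exact g.commutes a) (by rw [← hb']; exact g.commutes b)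
  obtain ⟨Q, hQ⟩ := Top.exists_of_fixed (F := M) (Fb := Ω) T hfT
  refine ⟨Q, Top.bc_injective M Ω ?_⟩
  rw [map_nsmul, hQ, hT]

open scoped Classical in
/-- **Points are divisible by the powers of `p`.** -/
theorem exists_div_pow {F M : Type*} [Field F] (kb : Type*) [Field kb] [IsAlgClosed kb]
    [CharZero kb] [Algebra F kb] [Field M] [Algebra kb M] [Algebra F M] [IsScalarTower F kb M]
    (W : Affine F) [W.IsElliptic] {p : ℕ} (hp : p.Prime)
    (hroot : ∀ x : M, ∃ y : M, y ^ p = x) (n : ℕ) (T₀ : (W⁄M).Point) :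
    ∃ T : (W⁄M).Point, p ^ n • T = T₀ := by
  induction n with
  | zero => exact ⟨T₀, by rw [pow_zero, one_smul]⟩
  | succ n ih =>
    obtain ⟨T, hT⟩ := ih
    obtain ⟨T', hT'⟩ := exists_div_prime kb W hp hroot T
    exact ⟨T', by rw [pow_succ, mul_smul, hT', hT]⟩

open scoped Classical in
/-- **Points are divisible.** -/
theorem exists_div_of_roots {F M : Type*} [Field F] (kb : Type*) [Field kb] [IsAlgClosed kb]
    [CharZero kb] [Algebra F kb] [Field M] [Algebra kb M] [Algebra F M] [IsScalarTower F kb M]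
    (W : Affine F) [W.IsElliptic]
    (hroot : ∀ n : ℕ, 1 ≤ n → ∀ x : M, ∃ y : M, y ^ n = x) {n : ℕ} (hn : 1 ≤ n)
    (T₀ : (W⁄M).Point) : ∃ T : (W⁄M).Point, n • T = T₀ := by
  induction n using Nat.recOnMul generalizing T₀ with
  | zero => omega
  | one => exact ⟨T₀, one_smul _ _⟩
  | prime p hp => exact exists_div_prime kb W hp (hroot p hp.one_le) T₀
  | mul a b ha hb =>
    have ha0 : 1 ≤ a := Nat.one_le_iff_ne_zero.2 fun h => by simp [h] at hn
    have hb0 : 1 ≤ b := Nat.one_le_iff_ne_zero.2 fun h => by simp [h] at hn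
    obtain ⟨T, hT⟩ := ha ha0 T₀
    obtain ⟨T', hT'⟩ := hb hb0 T
    exact ⟨T', by rw [mul_smul, hT', hT]⟩

end curve

end Pool.Agent.Lib.MP_2f3286_ag.UA
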