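import Pool.Agent.Lib.MP_2f3286_ag.UA.R1
import Pool.Agent.Lib.MP_2f3286_ag.Pt.MaxUnrOver
import Pool.Agent.Lib.MP_2f3286_ag.Aux2

/-!
# Division points over fields closed under unramified radicals

`M` is closed under the radicals that are unramified at all places at which `R` is finite. Then every
point over `M` of an elliptic curve over `kb` is `n` times a point over `M`: the inertia groups fix the
division points, so also the resolvents of their coordinates, and a `p`-th root of an element of `M`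
which is fixed by the inertia groups of a place has a value in the value group of `M`.
-/

open WeierstrassCurve WeierstrassCurve.Affine WeierstrassCurve.Affine.Point
open Polynomial IntermediateField
open Pool.Agent.Lib.MP_2f3286_ag.Pt

namespace Pool.Agent.Lib.MP_2f3286_ag.UA

section value

variable {M Ω : Type*} [Field M] [Field Ω] [Algebra M Ω]

/-- the values of the powers of `ρ` are different modulo the values of `M` -/
theorem r2_ne {p : ℕ} (hp : p.Prime) {ρ : Ω} {m : M} (hm : algebraMap M Ω m = ρ ^ p)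
    (hm0 : m ≠ 0) {V : ValuationSubring M} (hV : ¬ DivAt p m V) (W : ValuationSubring Ω)
    (hW : W.comap (algebraMap M Ω) = V) {a b : M} (ha : a ≠ 0) (hb : b ≠ 0) {i j : ℕ} (hij : i < j)
    (hj : j < p) : W.valuation (algebraMap M Ω a * ρ ^ i) ≠ W.valuation (algebraMap M Ω b * ρ ^ j) := by
  intro h
  have hρ0 : ρ ≠ 0 := by
    rintro rfl
    rw [zero_pow hp.ne_zero, _root_.map_eq_zero] at hm
    exact hm0 hm
  have hvρ : W.valuation ρ ≠ 0 := (Valuation.ne_zero_iff _).2 hρ0
  have haΩ : algebraMap M Ω a ≠ 0 := (_root_.map_ne_zero _).2 ha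
  have hbΩ : algebraMap M Ω b ≠ 0 := (_root_.map_ne_zero _).2 hb
  have h1 : W.valuation (algebraMap M Ω (a / b)) = W.valuation ρ ^ ((j : ℤ) - i) := by
    rw [map_div₀, map_div₀, zpow_sub₀ hvρ, zpow_natCast, zpow_natCast, div_eq_div_iff
      ((Valuation.ne_zero_iff _).2 hbΩ) (pow_ne_zero _ hvρ)]
    rw [map_mul, map_mul, map_pow, map_pow] at h
    rw [h, mul_comm]
  have hcop : IsCoprime ((j : ℤ) - i) (p : ℤ) := by
    rw [Int.isCoprime_iff_gcd_eq_one]
    have h2 : ((j : ℤ) - i) = ((j - i : ℕ) : ℤ) := by omega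
    rw [h2, Int.gcd_natCast_natCast]
    exact (Nat.Prime.coprime_iff_not_dvd hp).2 (fun hd => by
      have := Nat.le_of_dvd (by omega) hd
      omega) |>.symm
  obtain ⟨u, v, huv⟩ := hcop
  have h2 : W.valuation (algebraMap M Ω ((a / b) ^ u * m ^ v)) = W.valuation ρ := by
    rw [map_mul, map_mul, map_zpow₀, map_zpow₀, h1, map_zpow₀, map_zpow₀, hm, map_pow,
      ← zpow_mul, ← zpow_natCast, ← zpow_mul, ← zpow_add₀ hvρ]
    have : ((j : ℤ) - i) * u + (p : ℤ) * v = 1 := by linarith
    rw [this, zpow_one]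
  apply hV
  refine ⟨(a / b) ^ u * m ^ v, mul_ne_zero (zpow_ne_zero _ (div_ne_zero ha hb))
    (zpow_ne_zero _ hm0), ?_⟩
  rw [← hW, Full.val_comap_eq_one, map_mul, map_mul, map_inv₀, map_inv₀, map_pow, map_pow, h2, hm,
    map_pow, mul_inv_cancel₀ (pow_ne_zero _ hvρ)]

/-- a criterion for the elements of `M(ρ)` to be in a valuation ring -/
theorem r2_mem_iff {p : ℕ} (hp : p.Prime) {ρ : Ω} {m : M} (hm : algebraMap M Ω m = ρ ^ p)
    (hm0 : m ≠ 0) {V : ValuationSubring M} (hV : ¬ DivAt p m V) (W : ValuationSubring Ω)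
    (hW : W.comap (algebraMap M Ω) = V) (a : ℕ → M) :
    (∑ i ∈ Finset.range p, algebraMap M Ω (a i) * ρ ^ i) ∈ W ↔
      ∀ i ∈ Finset.range p, a i ^ p * m ^ i ∈ V := by
  have hmem : ∀ i, a i ^ p * m ^ i ∈ V ↔ algebraMap M Ω (a i) * ρ ^ i ∈ W := by
    intro i
    rw [← hW, ValuationSubring.mem_comap, map_mul, map_pow, map_pow, hm, ← pow_mul, mul_comm p i,
      pow_mul, ← mul_pow, ← W.valuation_le_one_iff, ← W.valuation_le_one_iff, map_pow]
    exact pow_le_one_iff hp.ne_zero
  simp only [hmem]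
  refine ⟨fun h => ?_, fun h => W.sum_mem h⟩
  by_contra hcon
  push Not at hcon
  obtain ⟨j, hj, hjW⟩ := hcon
  obtain ⟨i, hi, hmax⟩ := Finset.exists_max_image (Finset.range p)
    (fun i => W.valuation (algebraMap M Ω (a i) * ρ ^ i)) ⟨j, hj⟩
  have h1 : 1 < W.valuation (algebraMap M Ω (a i) * ρ ^ i) := by
    refine lt_of_lt_of_le ?_ (hmax j hj)
    rw [← not_le, W.valuation_le_one_iff]
    exact hjW
  have hi0 : a i ≠ 0 := by
    intro h0
    rw [h0, _root_.map_zero, zero_mul, _root_.map_zero] at h1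
    exact not_lt_zero h1
  have hlt : ∀ l ∈ (Finset.range p).erase i, W.valuation (algebraMap M Ω (a l) * ρ ^ l) <
      W.valuation (algebraMap M Ω (a i) * ρ ^ i) := by
    intro l hl
    rw [Finset.mem_erase] at hl
    refine lt_of_le_of_ne (hmax l hl.2) ?_
    by_cases hl0 : a l = 0
    · rw [hl0, _root_.map_zero, zero_mul, _root_.map_zero]
      exact (zero_lt_one.trans h1).ne
    · rcases lt_or_gt_of_ne hl.1 with h2 | h2
      · exact r2_ne hp hm hm0 hV W hW hl0 hi0 h2 (Finset.mem_range.1 hi)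
      · exact (r2_ne hp hm hm0 hV W hW hi0 hl0 h2 (Finset.mem_range.1 hl.2)).symm
  have hne : W.valuation (algebraMap M Ω (a i) * ρ ^ i) ≠ 0 := (zero_lt_one.trans h1).ne'
  have h2 : W.valuation (∑ l ∈ (Finset.range p).erase i, algebraMap M Ω (a l) * ρ ^ l) <
      W.valuation (algebraMap M Ω (a i) * ρ ^ i) := W.valuation.map_sum_lt hne hlt
  rw [← Finset.add_sum_erase _ _ hi, ← W.valuation_le_one_iff,
    Valuation.map_add_eq_of_lt_left (v := W.valuation) h2] at h
  exact not_le.2 h1 h

end value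

section inertia

variable {R M Ω kb : Type*} [CommRing R] [Field M] [Field kb] [IsAlgClosed kb]
  [Algebra kb M] [Algebra R M] [Field Ω] [IsAlgClosed Ω] [Algebra M Ω] [Algebra.IsAlgebraic M Ω]
  [Algebra R Ω] [Algebra kb Ω] [IsScalarTower R M Ω] [IsScalarTower kb M Ω] [CharZero M]

/-- the value of a `p`-th root which is fixed by the inertia groups -/
theorem divAt_of_inert (t : M) (ht : Transcendental kb t)
    (halg : ∀ z : M, IsAlgebraic (adjoin kb {t}) z) {p : ℕ} (hp : p.Prime) {z : M}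
    (hz : IsPrimitiveRoot z p) {ρ : Ω} {m : M} (hm : algebraMap M Ω m = ρ ^ p) (hm0 : m ≠ 0)
    (V : ValuationSubring M) (hV : IsPlcOver R kb V)
    (hI : ∀ V₁ : ValuationSubring Ω, IsPlcOver R kb V₁ → ∀ g : Gal(Ω/M), IsInertAt V₁ g → g ρ = ρ) :
    DivAt p m V := by
  classical
  by_contra hcon
  have hΩ0 : CharZero Ω := charZero_of_injective_algebraMap (algebraMap M Ω).injective
  have hcl : IsAlgClosure M Ω := ⟨inferInstance, inferInstance⟩
  have hnorm : Normal M Ω := IsAlgClosure.normal M Ω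
  have hgal : IsGalois M Ω := ⟨⟩
  have hρ0 : ρ ≠ 0 := by
    rintro rfl
    rw [zero_pow hp.ne_zero, _root_.map_eq_zero] at hm
    exact hm0 hm
  -- the conjugate
  have hirr : Irreducible (X ^ p - C m : M[X]) := by
    refine X_pow_sub_C_irreducible_of_prime hp fun b hb => hcon ?_
    have hb0 : b ≠ 0 := by
      rintro rfl
      rw [zero_pow hp.ne_zero] at hb
      exact hm0 hb.symm
    exact ⟨b, hb0, by rw [hb, mul_inv_cancel₀ hm0, map_one]⟩
  have hmonic : (X ^ p - C m : M[X]).Monic := monic_X_pow_sub_C m hp.ne_zero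
  have hmin : ∀ w : Ω, w ^ p = algebraMap M Ω m → minpoly M w = X ^ p - C m := by
    intro w hw
    refine (minpoly.eq_of_irreducible_of_monic hirr ?_ hmonic).symm
    rw [map_sub, map_pow, aeval_X, aeval_C, hw, sub_self]
  have hζ : (algebraMap M Ω z * ρ) ^ p = algebraMap M Ω m := by
    rw [mul_pow, ← map_pow, hz.pow_eq_one, map_one, one_mul, hm]
  have hconj : IsConjRoot M ρ (algebraMap M Ω z * ρ) := by
    rw [IsConjRoot, hmin ρ hm.symm, hmin _ hζ]
  obtain ⟨g, hg⟩ := isConjRoot_iff_exists_algEquiv.1 hconj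
  -- extension of the place
  obtain ⟨V₁, hV₁⟩ := MaxOver.exists_ext_val (Ω := Ω) V
  have hV₁mem : ∀ m : M, algebraMap M Ω m ∈ V₁ ↔ m ∈ V := by
    intro m
    rw [← ValuationSubring.mem_comap, hV₁]
  have hV₁k : ∀ a : kb, algebraMap kb Ω a ∈ V₁ := by
    intro a
    rw [IsScalarTower.algebraMap_apply kb M Ω, hV₁mem]
    exact hV.1.1 a
  have hV₁R : ∀ r : R, algebraMap R Ω r ∈ V₁ := by
    intro r
    rw [IsScalarTower.algebraMap_apply R M Ω, hV₁mem]
    exact hV.2 r
  have hV₁top : V₁ ≠ ⊤ := by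
    rintro rfl
    apply hV.1.2
    rw [← hV₁, eq_top_iff]
    intro z _
    exact ValuationSubring.mem_top _
  have hplc : IsPlcOver R kb V₁ := ⟨⟨hV₁k, hV₁top⟩, hV₁R⟩
  -- the elements of `M(ρ)`
  have hform : ∀ x : M⟮ρ⟯, ∃ a : ℕ → M,
      (x : Ω) = ∑ i ∈ Finset.range p, algebraMap M Ω (a i) * ρ ^ i := by
    rintro ⟨x, hx⟩
    rw [← IntermediateField.mem_toSubalgebra,
      IntermediateField.adjoin_simple_toSubalgebra_of_isAlgebraic
        (Algebra.IsAlgebraic.isAlgebraic ρ), Algebra.adjoin_singleton_eq_range_aeval] at hx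
    obtain ⟨q, hq⟩ := hx
    refine ⟨(q %ₘ (X ^ p - C m)).coeff, ?_⟩
    have h1 : aeval ρ (X ^ p - C m : M[X]) = 0 := by
      rw [map_sub, map_pow, aeval_X, aeval_C, hm, sub_self]
    have h2 : (q %ₘ (X ^ p - C m)).natDegree < p := by
      have h3 := natDegree_modByMonic_lt q hmonic (by
        intro h4
        have h5 := congrArg natDegree h4
        rw [natDegree_X_pow_sub_C, natDegree_one] at h5
        exact hp.ne_zero h5)
      rwa [natDegree_X_pow_sub_C] at h3
    change x = _
    rw [← hq]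
    change aeval ρ q = _
    rw [← aeval_modByMonic_eq_self_of_root h1, aeval_eq_sum_range' h2]
    exact Finset.sum_congr rfl fun i _ => Algebra.smul_def _ _
  have hcrit : ∀ (W : ValuationSubring Ω), W.comap (algebraMap M Ω) = V →
      W.comap (algebraMap M⟮ρ⟯ Ω) = V₁.comap (algebraMap M⟮ρ⟯ Ω) := by
    intro W hW
    ext x
    rw [ValuationSubring.mem_comap, ValuationSubring.mem_comap]
    obtain ⟨a, ha⟩ := hform x
    change (x : Ω) ∈ W ↔ (x : Ω) ∈ V₁
    rw [ha, r2_mem_iff hp hm hm0 hcon W hW, r2_mem_iff hp hm hm0 hcon V₁ hV₁]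
  -- transitivity
  obtain ⟨h', hh'⟩ := Full.val_trans (E := M⟮ρ⟯) (M := Ω) (G := Gal(Ω/M⟮ρ⟯))
    (fun x => Full.isOpen_stab x) (fun σ x => σ.commutes x)
    (fun x hx => (InfiniteGalois.mem_range_algebraMap_iff_fixed x).mpr hx)
    V₁ (V₁.comap (g : Ω →+* Ω)) (hcrit _ (by
      ext m
      rw [ValuationSubring.mem_comap, ValuationSubring.mem_comap]
      change g (algebraMap M Ω m) ∈ V₁ ↔ _
      rw [g.commutes, hV₁mem])).symm
  have hh1 : ∀ x, g x ∈ V₁ ↔ h' x ∈ V₁ := fun x => hh' x
  let hK : Gal(Ω/M) := h'.restrictScalars M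
  have hhK : ∀ x, hK x = h' x := fun x => rfl
  have hinv : ∀ x, hK (hK⁻¹ x) = x := fun x => hK.apply_symm_apply x
  have hg1 : ∀ x, (g * hK⁻¹) x ∈ V₁ ↔ x ∈ V₁ := by
    intro x
    rw [AlgEquiv.mul_apply, hh1, ← hhK, hinv]
  have hg1lt : ∀ x, V₁.valuation x < 1 → V₁.valuation ((g * hK⁻¹) x) < 1 := by
    intro x hx
    rw [Full.val_lt_one_iff] at hx ⊢
    rcases hx with hx | hx
    · exact Or.inl (by rw [hx, _root_.map_zero])
    · refine Or.inr ?_
      rw [← map_inv₀, hg1]
      exact hx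
  have htΩ : Transcendental kb (algebraMap M Ω t) := by
    intro h0
    exact ht ((isAlgebraic_algebraMap_iff (algebraMap M Ω).injective).mp h0)
  have halgΩ : ∀ z : Ω, IsAlgebraic (adjoin kb {algebraMap M Ω t}) z := MaxOver.alg_tower t halg
  have hinert : IsInertAt V₁ (g * hK⁻¹) := by
    intro x hx
    refine ⟨(hg1 x).mpr hx, ?_⟩
    obtain ⟨a, ha⟩ := MaxOver.residue_const (algebraMap M Ω t) htΩ halgΩ V₁ hV₁k hV₁top x hx
    have h1 : (g * hK⁻¹) (algebraMap kb Ω a) = algebraMap kb Ω a := by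
      rw [IsScalarTower.algebraMap_apply kb M Ω, AlgEquiv.commutes]
    have h2 : (g * hK⁻¹) x - x = (g * hK⁻¹) (x - algebraMap kb Ω a) -
        (x - algebraMap kb Ω a) := by
      rw [map_sub, h1]; ring
    rw [h2]
    exact V₁.valuation.map_sub_lt (hg1lt _ ha) ha
  have h1 := hI V₁ hplc _ hinert
  have h2 : hK⁻¹ ρ = ρ := by
    have h3 : hK ρ = ρ := by
      rw [hhK]
      exact h'.commutes ⟨ρ, mem_adjoin_simple_self M ρ⟩
    calc hK⁻¹ ρ = hK⁻¹ (hK ρ) := by rw [h3]
      _ = ρ := hK.symm_apply_apply _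
  rw [AlgEquiv.mul_apply, h2] at h1
  rw [map_mul, g.commutes, h1] at hg
  have h3 : algebraMap M Ω z = 1 := by
    have h4 : (algebraMap M Ω z - 1) * ρ = 0 := by rw [sub_mul, hg, one_mul, sub_self]
    rcases mul_eq_zero.1 h4 with h5 | h5
    · exact sub_eq_zero.1 h5
    · exact absurd h5 hρ0
  have h4 : z = 1 := (algebraMap M Ω).injective (by rw [h3, map_one])
  have h5 := hz.ne_one hp.one_lt
  exact h5 h4

/-- a `p`-th root which is fixed by the inertia groups is in a radically closed field -/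
theorem mem_of_inert (hrad : IsRadClosedOver R M kb) (t : M) (ht : Transcendental kb t)
    (halg : ∀ z : M, IsAlgebraic (adjoin kb {t}) z) {p : ℕ} (hp : p.Prime) {z : M}
    (hz : IsPrimitiveRoot z p) {ρ : Ω} (h : ∃ m : M, algebraMap M Ω m = ρ ^ p)
    (hI : ∀ V₁ : ValuationSubring Ω, IsPlcOver R kb V₁ → ∀ g : Gal(Ω/M), IsInertAt V₁ g → g ρ = ρ) :
    ∃ m : M, algebraMap M Ω m = ρ := by
  obtain ⟨m, hm⟩ := h
  by_cases hm0 : m = 0
  · rw [hm0, _root_.map_zero] at hm
    exact ⟨0, by rw [_root_.map_zero, pow_eq_zero_iff hp.ne_zero |>.1 hm.symm]⟩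
  obtain ⟨r, hr⟩ := hrad p m hp.one_le hm0 fun V hV =>
    divAt_of_inert t ht halg hp hz hm hm0 V hV hI
  have : NeZero p := ⟨hp.ne_zero⟩
  have h1 : (algebraMap M Ω r) ^ p = ρ ^ p := by rw [← map_pow, hr, hm]
  have hr0 : algebraMap M Ω r ≠ 0 := by
    intro hr0
    rw [_root_.map_eq_zero] at hr0
    rw [hr0, zero_pow hp.ne_zero] at hr
    exact hm0 hr.symm
  have h2 : (ρ / algebraMap M Ω r) ^ p = 1 := by
    rw [div_pow, h1, div_self]
    rw [← h1]
    exact pow_ne_zero _ hr0
  obtain ⟨i, -, hi⟩ := (hz.map_of_injective (algebraMap M Ω).injective).eq_pow_of_pow_eq_one h2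
  exact ⟨z ^ i * r, by rw [map_mul, map_pow, hi, div_mul_cancel₀ _ hr0]⟩

end inertia

section resolvent

variable {Ω M : Type*} [Field Ω] [Field M] [Algebra M Ω]

/-- A family of elements indexed by a finite group of exponent `p`, which the Galois group permutes by
translations, is in `M`, if the resolvents are. -/
theorem mem_of_translate' {p : ℕ} [Fact p.Prime] [CharZero Ω] {z : M} (hz : IsPrimitiveRoot z p)
    {V : Type*} [AddCommGroup V] [Module (ZMod p) V] [Finite V] (θ : V → Ω)
    (c : Gal(Ω/M) → V) (h : ∀ g v, g (θ v) = θ (v + c g))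
    (hfix : ∀ x : Ω, (∀ g : Gal(Ω/M), g x = x) → ∃ m : M, algebraMap M Ω m = x)
    (hroot : ∀ ρ : Ω, (∃ m : M, algebraMap M Ω m = ρ ^ p) → (∀ g, c g = 0 → g ρ = ρ) →
      ∃ m : M, algebraMap M Ω m = ρ) (w : V) :
    ∃ m : M, algebraMap M Ω m = θ w := by
  classical
  have := Fintype.ofFinite V
  have : Finite (Module.Dual (ZMod p) V) := Finite.of_injective
    (fun f : Module.Dual (ZMod p) V => (f : V → ZMod p)) DFunLike.coe_injective
  have := Fintype.ofFinite (Module.Dual (ZMod p) V)
  let e : AddChar (ZMod p) Ω := AddChar.zmodChar p (ζ := algebraMap M Ω z)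
    (by rw [← map_pow, hz.pow_eq_one, _root_.map_one])
  have he : ∀ a : ZMod p, e a = algebraMap M Ω (z ^ a.val) := fun a => by
    rw [map_pow]
    exact AddChar.zmodChar_apply _ a
  have he1 : ∀ a : ZMod p, e a = 1 → a = 0 := by
    intro a ha
    rw [he, map_pow] at ha
    have h1 := ((hz.map_of_injective (algebraMap M Ω).injective).pow_eq_one_iff_dvd a.val).1 ha
    have h2 : a.val = 0 := Nat.eq_zero_of_dvd_of_lt h1 (ZMod.val_lt a)
    exact (ZMod.val_eq_zero a).1 h2
  let ρ : Module.Dual (ZMod p) V → Ω := fun l => ∑ v, e (-(l v)) * θ v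
  have h1 : ∀ (g : Gal(Ω/M)) (l : Module.Dual (ZMod p) V), g (ρ l) = e (l (c g)) * ρ l := by
    intro g l
    have h2 : ∀ a : ZMod p, g (e a) = e a := fun a => by rw [he, AlgEquiv.commutes]
    simp only [ρ, map_sum, map_mul, h2, h, Finset.mul_sum]
    refine Fintype.sum_equiv (Equiv.addRight (c g)) _ _ fun v => ?_
    simp only [Equiv.coe_addRight, map_add, ← mul_assoc, ← AddChar.map_add_eq_mul]
    congr 2
    abel
  have h3 : ∀ l, ∃ m : M, algebraMap M Ω m = ρ l := by
    intro l
    refine hroot _ (hfix _ fun g => ?_) fun g hg => ?_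
    · rw [map_pow, h1, mul_pow, ← AddChar.map_nsmul_eq_pow, nsmul_eq_mul, CharP.cast_eq_zero,
        zero_mul, AddChar.map_zero_eq_one, one_mul]
    · rw [h1, hg, _root_.map_zero, AddChar.map_zero_eq_one, one_mul]
  choose m hm using h3
  have h4 : ∀ u : V, u ≠ 0 → ∑ l : Module.Dual (ZMod p) V, e (l u) = 0 := by
    intro u hu
    obtain ⟨l₀, hl₀⟩ : ∃ l₀ : Module.Dual (ZMod p) V, l₀ u ≠ 0 := by
      by_contra hcon
      push Not at hcon
      exact hu ((Module.forall_dual_apply_eq_zero_iff (ZMod p) u).1 hcon)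
    have h5 : ∑ l : Module.Dual (ZMod p) V, e (l u) =
        e (l₀ u) * ∑ l : Module.Dual (ZMod p) V, e (l u) := by
      rw [Finset.mul_sum]
      refine Fintype.sum_equiv (Equiv.subRight l₀) _ _ fun l => ?_
      simp only [Equiv.subRight_apply, LinearMap.sub_apply, ← AddChar.map_add_eq_mul]
      congr 1
      abel
    have h6 : (1 - e (l₀ u)) * ∑ l : Module.Dual (ZMod p) V, e (l u) = 0 := by
      rw [sub_mul, one_mul, ← h5, sub_self]
    rcases mul_eq_zero.1 h6 with h7 | h7
    · exact absurd (he1 _ (sub_eq_zero.1 h7).symm) hl₀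
    · exact h7
  have h5 : ∑ l : Module.Dual (ZMod p) V, e (l w) * ρ l =
      (Fintype.card (Module.Dual (ZMod p) V) : Ω) * θ w := by
    simp only [ρ, Finset.mul_sum]
    rw [Finset.sum_comm]
    have h6 : ∀ v : V, ∑ l : Module.Dual (ZMod p) V, e (l w) * (e (-(l v)) * θ v) =
        if v = w then (Fintype.card (Module.Dual (ZMod p) V) : Ω) * θ w else 0 := by
      intro v
      have h7 : ∀ l : Module.Dual (ZMod p) V, e (l w) * (e (-(l v)) * θ v) =
          e (l (w - v)) * θ v := by
        intro l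
        rw [← mul_assoc, ← AddChar.map_add_eq_mul, map_sub, sub_eq_add_neg]
      simp only [h7, ← Finset.sum_mul]
      split_ifs with hv
      · subst hv
        simp
      · rw [h4 _ (sub_ne_zero.2 (Ne.symm hv)), zero_mul]
    simp only [h6, Finset.sum_ite_eq', Finset.mem_univ, if_true]
  have h8 : (Fintype.card (Module.Dual (ZMod p) V) : Ω) ≠ 0 :=
    Nat.cast_ne_zero.2 Fintype.card_ne_zero
  refine ⟨(Fintype.card (Module.Dual (ZMod p) V) : M)⁻¹ *
    ∑ l : Module.Dual (ZMod p) V, z ^ (l w).val * m l, ?_⟩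
  rw [map_mul, map_inv₀, map_natCast, map_sum]
  simp only [map_mul, hm, ← he]
  rw [h5, inv_mul_cancel_left₀ h8]

end resolvent

section curve

open scoped Classical in
/-- **Points over a radically closed field are divisible by `p`.** -/
theorem exists_div_rad_prime {R F M kb : Type*} [CommRing R] [Field F] [Field kb] [IsAlgClosed kb]
    [CharZero kb] [Algebra F kb] [Field M] [Algebra kb M] [Algebra F M] [IsScalarTower F kb M]
    [Algebra R M] (hrad : IsRadClosedOver R M kb) (t : M) (ht : Transcendental kb t)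
    (halg : ∀ z : M, IsAlgebraic (adjoin kb {t}) z)
    (W : Affine F) [W.IsElliptic] {p : ℕ} (hp : p.Prime) (T₀ : (W⁄M).Point) :
    ∃ T : (W⁄M).Point, p • T = T₀ := by
  rcases eq_or_ne T₀ 0 with rfl | hT₀
  · exact ⟨0, smul_zero _⟩
  have hfp : Fact p.Prime := ⟨hp⟩
  let Ω := AlgebraicClosure M
  have hM : CharZero M := charZero_of_injective_algebraMap (algebraMap kb M).injective
  have hΩ : CharZero Ω := charZero_of_injective_algebraMap (algebraMap M Ω).injective
  obtain ⟨T, hT⟩ := Pt.Div.divisible (W := W) (kb := Ω) hp.one_le (baseChange M Ω T₀)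
  have hT0 : ∀ g : Gal(Ω/M), p • (Top.act W g T - T) = 0 := fun g => by
    rw [smul_sub, ← map_nsmul, hT, Top.act_baseChange, sub_self]
  have hc : ∀ g : Gal(Ω/M), ∃ t : (W⁄kb).Point, baseChange kb Ω t = Top.act W g T - T :=
    fun g => Pt.Div.descend hp.one_le _ 0 (by rw [hT0]; exact (_root_.map_zero _).symm)
  have hgc : ∀ (g : Gal(Ω/M)) (t : (W⁄kb).Point),
      Top.act W g (baseChange kb Ω t) = baseChange kb Ω t := by
    intro g t
    have h1 : ∀ a : kb, g (algebraMap kb Ω a) = algebraMap kb Ω a := fun a => by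
      rw [IsScalarTower.algebraMap_apply kb M Ω, g.commutes]
    rcases t with _ | ⟨a, b, h⟩
    · rfl
    · exact Top.some_ext _ _ (h1 a) (h1 b)
  -- the group of translations
  let C : AddSubgroup (W⁄kb).Point :=
    { carrier := {t | ∃ g : Gal(Ω/M), baseChange kb Ω t = Top.act W g T - T}
      zero_mem' := ⟨1, by
        have h1 : Top.act W (1 : Gal(Ω/M)) T = T := by rcases T with _ | ⟨x, y, h⟩ <;> rfl
        rw [h1, sub_self]
        exact _root_.map_zero _⟩
      add_mem' := by
        rintro a b ⟨g, hg⟩ ⟨h, hh⟩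
        refine ⟨g * h, ?_⟩
        rw [map_add, hg, hh, Top.act_mul]
        have h1 : Top.act W h T = T + baseChange kb Ω b := by rw [hh]; abel
        rw [h1, map_add, hgc, hh]
        abel
      neg_mem' := by
        rintro a ⟨g, hg⟩
        refine ⟨g⁻¹, ?_⟩
        have h1 : Top.act W g⁻¹ (Top.act W g T) = T := by
          rw [← Top.act_mul, inv_mul_cancel]
          rcases T with _ | ⟨x, y, h⟩ <;> rfl
        have h2 : Top.act W g T = T + baseChange kb Ω a := by rw [hg]; abel
        rw [h2, map_add, hgc] at h1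
        rw [map_neg]
        calc -baseChange kb Ω a = Top.act W g⁻¹ T - (Top.act W g⁻¹ T + baseChange kb Ω a) := by abel
          _ = Top.act W g⁻¹ T - T := by rw [h1] }
  have hCp : ∀ t : C, p • t = 0 := by
    rintro ⟨t, g, hg⟩
    apply Subtype.ext
    apply Top.bc_injective kb Ω
    show baseChange kb Ω (p • t) = baseChange kb Ω 0
    rw [map_nsmul, hg, hT0]
    exact (_root_.map_zero _).symm
  have hCf : Finite C := by
    have h1 : {P : (W⁄Ω).Point | ∃ g : Gal(Ω/M), Top.act W g T = P}.Finite := by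
      rcases T with _ | ⟨x, y, h⟩
      · refine (Set.finite_singleton (0 : (W⁄Ω).Point)).subset ?_
        rintro _ ⟨g, rfl⟩
        rfl
      · let Φ : Ω × Ω → (W⁄Ω).Point := fun q =>
          if hq : (W⁄Ω).Nonsingular q.1 q.2 then some q.1 q.2 hq else 0
        refine (((finite_conj (M := M) x).prod (finite_conj (M := M) y)).image Φ).subset ?_
        rintro _ ⟨g, rfl⟩
        have h2 : (W⁄Ω).Nonsingular (g x) (g y) :=
          (W.baseChange_nonsingular (g : Ω →ₐ[M] Ω).injective x y).mpr h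
        exact ⟨(g x, g y), ⟨⟨g, rfl⟩, ⟨g, rfl⟩⟩, dif_pos h2⟩
    have h2 : (C : Set (W⁄kb).Point).Finite := by
      refine Set.Finite.of_finite_image (f := fun t => T + baseChange kb Ω t) (h1.subset ?_) ?_
      · rintro _ ⟨t, ⟨g, hg⟩, rfl⟩
        refine ⟨g, ?_⟩
        show Top.act W g T = T + baseChange kb Ω t
        rw [hg]
        abel
      · intro a _ b _ hab
        exact Top.bc_injective kb Ω (add_left_cancel hab)
    exact h2.to_subtype
  let _ : Module (ZMod p) C := AddCommGroup.zmodModule hCp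
  have hcC : ∀ g : Gal(Ω/M), ∃ t : C, baseChange kb Ω (t : (W⁄kb).Point) = Top.act W g T - T := by
    intro g
    obtain ⟨t, ht⟩ := hc g
    exact ⟨⟨t, g, ht⟩, ht⟩
  choose c hcc using hcC
  have hfix : ∀ x : Ω, (∀ g : Gal(Ω/M), g x = x) → ∃ m : M, algebraMap M Ω m = x := by
    intro x hx
    have h1 : x ∈ (⊥ : IntermediateField M Ω) := by
      rw [InfiniteGalois.mem_bot_iff_fixed]
      exact hx
    exact IntermediateField.mem_bot.mp h1
  obtain ⟨z, hz⟩ : ∃ z : M, IsPrimitiveRoot z p := by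
    have : NeZero (p : kb) := ⟨Nat.cast_ne_zero.2 hp.ne_zero⟩
    obtain ⟨z, hz⟩ := HasEnoughRootsOfUnity.exists_primitiveRoot kb p
    exact ⟨algebraMap kb M z, hz.map_of_injective (algebraMap kb M).injective⟩
  -- the inertia groups act trivially
  have hinert : ∀ V₁ : ValuationSubring Ω, IsPlcOver R kb V₁ → ∀ g : Gal(Ω/M), IsInertAt V₁ g →
      c g = 0 := by
    intro V₁ hV₁ g hg
    have h1 : Top.act W g T = T := Div.inert_fix (k := F) (K := M) (kb := kb) (Ω := Ω) (W := W)
      V₁ hV₁.1.1 g hg hp.one_le T₀ T hT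
    apply Subtype.ext
    apply Top.bc_injective kb Ω
    rw [hcc, h1, sub_self]
    exact (_root_.map_zero _).symm
  have hroot : ∀ ρ : Ω, (∃ m : M, algebraMap M Ω m = ρ ^ p) → (∀ g, c g = 0 → g ρ = ρ) →
      ∃ m : M, algebraMap M Ω m = ρ := fun ρ hρ h =>
    mem_of_inert hrad t ht halg hp hz hρ fun V₁ hV₁ g hg => h g (hinert V₁ hV₁ g hg)
  have hact : ∀ (g : Gal(Ω/M)) (v : C), Top.act W g (T + baseChange kb Ω (v : (W⁄kb).Point)) =
      T + baseChange kb Ω ((v + c g : C) : (W⁄kb).Point) := by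
    intro g v
    rw [map_add, hgc, AddSubgroup.coe_add, map_add, hcc]
    abel
  let px : (W⁄Ω).Point → Ω := fun P => match P with
    | .zero => 0
    | .some x _ _ => x
  let py : (W⁄Ω).Point → Ω := fun P => match P with
    | .zero => 0
    | .some _ y _ => y
  have hpx : ∀ (g : Gal(Ω/M)) (P : (W⁄Ω).Point), g (px P) = px (Top.act W g P) := by
    rintro g (_ | ⟨x, y, h⟩)
    · exact _root_.map_zero _
    · rfl
  have hpy : ∀ (g : Gal(Ω/M)) (P : (W⁄Ω).Point), g (py P) = py (Top.act W g P) := by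
    rintro g (_ | ⟨x, y, h⟩)
    · exact _root_.map_zero _
    · rfl
  have hx := mem_of_translate' hz
    (fun v : C => px (T + baseChange kb Ω (v : (W⁄kb).Point))) c (fun g v => by
      rw [hpx, hact]) hfix hroot 0
  have hy := mem_of_translate' hz
    (fun v : C => py (T + baseChange kb Ω (v : (W⁄kb).Point))) c (fun g v => by
      rw [hpy, hact]) hfix hroot 0
  have h0 : T + baseChange kb Ω ((0 : C) : (W⁄kb).Point) = T := by
    have h1 : baseChange kb Ω ((0 : C) : (W⁄kb).Point) = 0 := _root_.map_zero _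
    rw [h1, add_zero]
  simp only [h0] at hx hy
  have hfT : ∀ g : Gal(Ω/M), Top.act W g T = T := by
    intro g
    obtain ⟨a, ha⟩ := hx
    obtain ⟨b, hb⟩ := hy
    rcases T with _ | ⟨x, y, h⟩
    · rfl
    · have ha' : algebraMap M Ω a = x := ha
      have hb' : algebraMap M Ω b = y := hb
      exact Top.some_ext _ _ (by rw [← ha']; exact g.commutes a) (by rw [← hb']; exact g.commutes b)
  obtain ⟨Q, hQ⟩ := Top.exists_of_fixed (F := M) (Fb := Ω) T hfT
  refine ⟨Q, Top.bc_injective M Ω ?_⟩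
  rw [map_nsmul, hQ, hT]

open scoped Classical in
/-- **Points over a radically closed field are divisible.** -/
theorem exists_div_rad' {R F M kb : Type*} [CommRing R] [Field F] [Field kb] [IsAlgClosed kb]
    [CharZero kb] [Algebra F kb] [Field M] [Algebra kb M] [Algebra F M] [IsScalarTower F kb M]
    [Algebra R M] (hrad : IsRadClosedOver R M kb) (t : M) (ht : Transcendental kb t)
    (halg : ∀ z : M, IsAlgebraic (adjoin kb {t}) z)
    (W : Affine F) [W.IsElliptic] {n : ℕ} (hn : 1 ≤ n) (T₀ : (W⁄M).Point) :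
    ∃ T : (W⁄M).Point, n • T = T₀ := by
  induction n using Nat.recOnMul generalizing T₀ with
  | zero => omega
  | one => exact ⟨T₀, one_smul _ _⟩
  | prime p hp => exact exists_div_rad_prime hrad t ht halg W hp T₀
  | mul a b ha hb =>
    have ha0 : 1 ≤ a := Nat.one_le_iff_ne_zero.2 fun h => by simp [h] at hn
    have hb0 : 1 ≤ b := Nat.one_le_iff_ne_zero.2 fun h => by simp [h] at hn
    obtain ⟨T, hT⟩ := ha ha0 T₀
    obtain ⟨T', hT'⟩ := hb hb0 T
    exact ⟨T', by rw [mul_smul, hT', hT]⟩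

/-- a transcendence basis over the constants -/
theorem exists_param {k K M kb : Type*} [Field k] [Field K] [Field M] [Field kb] [Algebra k K]
    [Algebra k kb] [Algebra.IsAlgebraic k kb] [Algebra K M] [Algebra.IsAlgebraic K M]
    [Algebra kb M] [Algebra k M] [IsScalarTower k K M] [IsScalarTower k kb M]
    (htr : Algebra.trdeg k K = 1) :
    ∃ t : M, Transcendental kb t ∧ ∀ z : M, IsAlgebraic (adjoin kb {t}) z := by
  obtain ⟨y, hy⟩ : ∃ y : K, Transcendental k y := by
    have : Algebra.Transcendental k K := by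
      rw [← trdeg_ne_zero_iff, htr]
      exact one_ne_zero
    exact this.transcendental
  obtain ⟨t, ht⟩ : ∃ t, t = algebraMap K M y := ⟨_, rfl⟩
  have htk : Transcendental k t := by
    intro h
    rw [ht] at h
    exact hy ((isAlgebraic_algebraMap_iff (algebraMap K M).injective).1 h)
  have hbasis : IsTranscendenceBasis k ![t] :=
    (algebraicIndependent_iff_transcendental.mpr htk).isTranscendenceBasis_of_lift_trdeg_le_of_finite
      (by rw [Pool.Agent.Lib.MP_2f3286_ag.trdeg_top (K := K) htr]; simp)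
  have halg := hbasis.isAlgebraic
  refine ⟨t, fun h => htk (h.restrictScalars k), fun z => ?_⟩
  obtain ⟨q, hq0, hq⟩ := halg.isAlgebraic z
  have hmem : ∀ a : Algebra.adjoin k (Set.range ![t]), (a : M) ∈ adjoin kb {t} := by
    intro a
    have h1 : Algebra.adjoin k (Set.range ![t]) ≤
        ((adjoin kb {t}).toSubalgebra.restrictScalars k) := by
      rw [Algebra.adjoin_le_iff]
      rintro _ ⟨i, rfl⟩
      have : (![t] : Fin 1 → M) i = t := by
        rw [Subsingleton.elim i 0]
        rfl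
      rw [this]
      exact mem_adjoin_simple_self kb t
    exact h1 a.2
  let f : Algebra.adjoin k (Set.range ![t]) →+* adjoin kb {t} :=
    { toFun := fun a => ⟨a, hmem a⟩
      map_one' := Subtype.ext (by simp)
      map_mul' := fun a b => Subtype.ext (by simp)
      map_zero' := Subtype.ext (by simp)
      map_add' := fun a b => Subtype.ext (by simp) }
  have hf : Function.Injective f := fun a b h =>
    Subtype.ext (congrArg (fun c : adjoin kb {t} => (c : M)) h)
  refine ⟨q.map f, (Polynomial.map_ne_zero_iff hf).mpr hq0, ?_⟩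
  rw [aeval_def, eval₂_map]
  have h2 : (algebraMap (adjoin kb {t}) M).comp f =
      algebraMap (Algebra.adjoin k (Set.range ![t])) M := RingHom.ext fun y => rfl
  rw [h2, ← aeval_def, hq]

open scoped Classical in
/-- **Points over a field closed under unramified radicals are divisible.** -/
theorem exists_div_rad {k F K M kb : Type*} [Field k] [Field F] [CharZero F] [Field K] [Field M]
    [Field kb] [Algebra k K] [Algebra k kb] [Algebra.IsAlgebraic k kb] [Algebra F kb]
    [IsAlgClosed kb] [Algebra K M] [Algebra.IsAlgebraic K M] [Algebra kb M] [Algebra k M]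
    [IsScalarTower k K M] [IsScalarTower k kb M] [Algebra F M] [IsScalarTower F kb M]
    (htr : Algebra.trdeg k K = 1) (R₀ : Subalgebra k K) (h : IsRadClosedOver R₀ M kb)
    (W : WeierstrassCurve F) [W.IsElliptic] (η : (W⁄M).Point) (n : ℕ) (hn : 1 ≤ n) :
    ∃ T : (W⁄M).Point, n • T = η := by
  have hc : CharZero kb := charZero_of_injective_algebraMap (algebraMap F kb).injective
  obtain ⟨t, ht, halg⟩ := exists_param (k := k) (K := K) (M := M) (kb := kb) htr
  exact exists_div_rad' h t ht halg W hn η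

end curve

end Pool.Agent.Lib.MP_2f3286_ag.UA
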