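import Pool.Agent.Lib.MP_2f3286_ag.UA.GX4

/-!
# Extensions unramified over a curve and closed under unramified radicals

Here `M/K` is unramified over `R` and closed under radicals unramified over `R`, instead of the maximal
extension unramified over `R`: the fundamental group of the curve, its geometrically prosolvable quotient, and
all the groups between them.
-/

open Polynomial IntermediateField IsDedekindDomain NumberField

noncomputable section

namespace Pool.Agent.Lib.MP_2f3286_ag.UA.Rad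

open Pool.Agent.Lib.MP_2f3286_ag.Pt Pool.Agent.Lib.MP_2f3286_ag.Full
  Pool.Agent.Lib.MP_2f3286_ag.SFull Pool.Agent.Lib.MP_2f3286_ag.SNeigh
  Pool.Agent.Lib.MP_2f3286_ag Pool.Agent.Lib.MP_2f3286_ag.HYP

/-- `M/K` is unramified over `R`, and `M` is closed under radicals unramified over `R` -/
def IsRadUnramOver (R K M kb : Type*) [CommRing R] [Field K] [Field M] [Field kb] [Algebra R M]
    [Algebra K M] [Algebra kb M] : Prop :=
  IsUnramOver R K M kb ∧ IsRadClosedOver R M kb

/-- the same for the points of an affine curve -/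
def IsRadUnram (R K M kb : Type*) [CommRing R] [Field K] [Field M] [Field kb] [Algebra R M]
    [Algebra K M] [Algebra kb M] : Prop :=
  (∀ Ψ : integralClosure R M →+* kb, IsPt R M kb Ψ → ∀ g : Gal(M/K),
    (∀ b b' : integralClosure R M, (b' : M) = g b → Ψ b' = Ψ b) → g = 1) ∧
  IsRadClosed R M kb

/-- from places to points -/
theorem radUnram_of_over {k K M : Type*} [Field k] [CharZero k] [Field K] [Field M]
    [Algebra k K] [Algebra K M] [Algebra (AlgebraicClosure k) M] [Algebra k M]
    [IsScalarTower k K M] [IsScalarTower k (AlgebraicClosure k) M] [IsGalois K M]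
    (R : Subalgebra k K)
    (t : K) (htR : t ∈ R) (ht : Transcendental k t)
    [FiniteDimensional (IntermediateField.adjoin k {t}) K]
    (hM : IsRadUnramOver R K M (AlgebraicClosure k)) :
    IsRadUnram R K M (AlgebraicClosure k) := by
  have htM : Transcendental (AlgebraicClosure k) (algebraMap K M t) :=
    PTAux.transc (k := k) t ht
  have halgM : ∀ z : M, IsAlgebraic
      (IntermediateField.adjoin (AlgebraicClosure k) {algebraMap K M t}) z :=
    Full.isAlgebraic_M (k := k) t
  refine ⟨fun Ψ hΨ g hg => hun_of_over t ht R R le_rfl htR hM.1 Ψ hΨ g hg,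
    fun n ρ hn hρ h => hM.2 n ρ hn hρ ?_⟩
  rintro V ⟨⟨hV1, hV2⟩, hV3⟩
  obtain ⟨π, hπ, hπ'⟩ := exists_residue V hV1 fun y hy =>
    MaxOver.residue_const _ htM halgM V hV1 hV2 y hy
  have hBV : ∀ b : integralClosure R M, (b : M) ∈ V :=
    fun b => PTAux.mem_of_isIntegral (R := R) hV3 b.2
  obtain ⟨Ψ, hΨ⟩ : ∃ Ψ : integralClosure R M →+* AlgebraicClosure k,
      ∀ b, Ψ b = π ⟨b, hBV b⟩ :=
    ⟨π.comp ((algebraMap (integralClosure R M) M).codRestrict V hBV), fun b => rfl⟩
  obtain ⟨c, x, y, hx, hy, hc⟩ := h Ψ fun a b hab => by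
    rw [hΨ]
    refine hπ' _ _ ?_
    change V.valuation ((b : M) - _) < 1
    rw [hab, sub_self, map_zero]
    exact zero_lt_one
  have hval : ∀ b : integralClosure R M, Ψ b ≠ 0 → V.valuation (b : M) = 1 := by
    intro b hb
    refine le_antisymm ((V.valuation_le_one_iff _).2 (hBV b)) ?_
    by_contra hlt
    push Not at hlt
    apply hb
    rw [hΨ]
    refine hπ' _ 0 ?_
    rw [map_zero, sub_zero]
    exact hlt
  have hx0 : (x : M) ≠ 0 := by
    intro h0
    have h1 := hval x hx
    rw [h0, map_zero] at h1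
    exact zero_ne_one h1
  have hc0 : c ≠ 0 := by
    rintro rfl
    rw [zero_pow (by omega), zero_mul] at hc
    exact (mul_ne_zero hρ hx0) hc
  refine ⟨c, hc0, ?_⟩
  have h1 := congrArg V.valuation hc
  rw [map_mul, map_mul, hval x hx, hval y hy, mul_one, mul_one] at h1
  rw [map_mul, map_inv₀, h1, mul_inv_cancel₀]
  rw [Ne, map_eq_zero]
  exact pow_ne_zero _ hc0

/-- a larger base field -/
theorem radUnram_trans {k kb K M : Type*} [Field k] [Field kb] [Field K] [Field M] [Algebra k K]
    [Algebra K M] [Algebra kb M] {F Fb L : Type*} [Field F] [Field Fb] [Field L] [Algebra F Fb]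
    [Algebra F L] [Algebra L M] [Algebra Fb M] [Algebra F M] [IsScalarTower F L M]
    [IsScalarTower F Fb M] (e : Fb ≃+* kb)
    (he : ∀ a : Fb, algebraMap Fb M a = algebraMap kb M (e a))
    (hKL : ∀ x : K, ∃ y : L, algebraMap L M y = algebraMap K M x)
    (R : Subalgebra k K) (R₁ : Subalgebra F L)
    (h₁ : ∀ V : ValuationSubring M, (∀ a : Fb, algebraMap Fb M a ∈ V) →
      ((∀ r : R₁, algebraMap L M r ∈ V) ↔ ∀ r : R, algebraMap K M r ∈ V))
    (hM : IsRadUnramOver R K M kb) : IsRadUnramOver R₁ L M Fb := by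
  have hkb : ∀ V : ValuationSubring M, (∀ a : Fb, algebraMap Fb M a ∈ V) ↔
      ∀ a : kb, algebraMap kb M a ∈ V := by
    intro V
    constructor
    · intro h a
      have h1 := h (e.symm a)
      rw [he, e.apply_symm_apply] at h1
      exact h1
    · intro h a
      rw [he]
      exact h _
  have hplc : ∀ V : ValuationSubring M, IsPlcOver R₁ Fb V ↔ IsPlcOver R kb V := by
    intro V
    constructor
    · rintro ⟨⟨g1, g2⟩, g3⟩
      exact ⟨⟨(hkb V).1 g1, g2⟩, (h₁ V g1).1 g3⟩
    · rintro ⟨⟨g1, g2⟩, g3⟩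
      exact ⟨⟨(hkb V).2 g1, g2⟩, (h₁ V ((hkb V).2 g1)).2 g3⟩
  refine ⟨fun V hV g hg => ?_, fun n ρ hn hρ h => hM.2 n ρ hn hρ fun V hV =>
    h V ((hplc V).2 hV)⟩
  let g' : Gal(M/K) := AlgEquiv.ofRingEquiv (f := (g : M ≃+* M)) (fun a => by
    obtain ⟨y, hy⟩ := hKL a
    rw [← hy]
    exact g.commutes y)
  have h2 : g' = 1 := hM.1 V ((hplc V).1 hV) g' hg
  ext x
  exact DFunLike.congr_fun h2 x

end Pool.Agent.Lib.MP_2f3286_ag.UA.Rad
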