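import Pool.Agent.Lib.MP_2f3286_ag.UA.RX1

/-!
# A function with the same value at all local points of an affine curve

Copies of GX1 and of the affine part of GX2.
-/

open Polynomial IntermediateField IsDedekindDomain NumberField
open scoped WithZero Pointwise

noncomputable section

namespace Pool.Agent.Lib.MP_2f3286_ag.UA.Rad

open Pool.Agent.Lib.MP_2f3286_ag.HYP hiding affine_over over_dich
open Pool.Agent.Lib.MP_2f3286_ag.Pt Pool.Agent.Lib.MP_2f3286_ag.SNeigh
  Pool.Agent.Lib.MP_2f3286_ag.SFull Pool.Agent.Lib.MP_2f3286_ag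

universe u v

/-- **Affine curves.** -/
theorem aff_coreG {k : Type u} [Field k] [NumberField k] {g : k[X]} (hg : g.natDegree ≠ 0)
    {K : Type*} [Field K] [Algebra k K] (htr : Algebra.trdeg k K = 1)
    {x : K} (hx : ∀ c : k, x ≠ algebraMap k K c)
    (R : Subalgebra k K)
    {M : Type*} [Field M] [Algebra K M] [IsGalois K M]
    [Algebra (AlgebraicClosure k) M] [Algebra k M]
    [IsScalarTower k K M] [IsScalarTower k (AlgebraicClosure k) M]
    (s : Gal(AlgebraicClosure k/k) →* Gal(M/K)) (hs : Continuous s)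
    (hsec : ∀ σ a, s σ (algebraMap (AlgebraicClosure k) M a) =
      algebraMap (AlgebraicClosure k) M (σ a))
    (hRn : ∀ h : K, IsIntegral R h → h ∈ R) (hfg : R.FG)
    (hxR : x ∈ R) (hgR : (aeval x g)⁻¹ ∈ R)
    (hM : IsRadUnramOver R K M (AlgebraicClosure k))
    (hMp : IsRadUnram R K M (AlgebraicClosure k))
    (hloc : ∀ v : HeightOneSpectrum (𝓞 k),
      ∃ (ι : AlgebraicClosure k →ₐ[k] AlgebraicClosure (v.adicCompletion k))
        (A : ValuationSubring M) (φ : A →+* AlgebraicClosure (v.adicCompletion k)),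
        IsPointOn s R (v.adicCompletion k)
          (ι : _ →+* AlgebraicClosure (v.adicCompletion k)) A φ)
    (hT : SameVal s k (algebraMap K M x)) :
    ∃ (Δ : Subgroup Gal(AlgebraicClosure k/k))
      (Ψ : integralClosure R M →+* AlgebraicClosure k),
      IsOpen (Δ : Set Gal(AlgebraicClosure k/k)) ∧
      Pt.IsPt R M (AlgebraicClosure k) Ψ ∧
      (∀ σ ∈ Δ, ∀ b b' : integralClosure R M, (b' : M) = s σ b → Ψ b' = σ (Ψ b)) ∧
      (∀ r : R, algebraMap K M r ∈ unitRing R M →
        ∃ c : k, Ψ (algebraMap R _ r) = algebraMap k _ c ∧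
          ∀ (v : HeightOneSpectrum (𝓞 k))
            (ι : AlgebraicClosure k →ₐ[k] AlgebraicClosure (v.adicCompletion k))
            (A : ValuationSubring M) (φ : A →+* AlgebraicClosure (v.adicCompletion k)),
            IsPointOn s R (v.adicCompletion k)
              (ι : _ →+* AlgebraicClosure (v.adicCompletion k)) A φ →
            ∃ h' : algebraMap K M r ∈ A, φ ⟨_, h'⟩ = ι (algebraMap k _ c)) ∧
      (∀ Ψ' : integralClosure R M →+* AlgebraicClosure k,
        Pt.IsPt R M (AlgebraicClosure k) Ψ' →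
        (∀ r : R, Ψ' (algebraMap R _ r) = Ψ (algebraMap R _ r)) →
        (∃ Δ' : Subgroup Gal(AlgebraicClosure k/k), IsOpen (Δ' : Set Gal(AlgebraicClosure k/k)) ∧
          ∀ σ ∈ Δ', ∀ b b' : integralClosure R M, (b' : M) = s σ b → Ψ' b' = σ (Ψ' b)) → Ψ' = Ψ) ∧
      ((∀ r : R, algebraMap K M r ∈ unitRing R M) → Respects s k (RingHom.id _) Ψ) := by
  classical
  have hxk : Transcendental k x := by
    rintro ⟨p, hp, hp'⟩
    have h1 : (p.map (algebraMap k (AlgebraicClosure k))).eval₂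
        (algebraMap (AlgebraicClosure k) M) (algebraMap K M x) = 0 := by
      rw [eval₂_map, ← IsScalarTower.algebraMap_eq, ← aeval_def, aeval_algebraMap_apply, hp',
        map_zero]
    obtain ⟨c, -, hc⟩ := root_mem (algebraMap (AlgebraicClosure k) M)
      (Polynomial.map_ne_zero hp) h1
    obtain ⟨c₀, hc₀⟩ := HYP.mem_of_fixed (k := k) (a := c) fun σ => by
      apply (algebraMap (AlgebraicClosure k) M).injective
      rw [← hsec, hc, (s σ).commutes]
    apply hx c₀
    apply (algebraMap K M).injective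
    rw [← IsScalarTower.algebraMap_apply, IsScalarTower.algebraMap_apply k (AlgebraicClosure k) M,
      hc₀]
    exact hc.symm
  have hfdim := finite_of_fg htr R hRn hfg hxR hxk
  let xR : R := ⟨x, hxR⟩
  have hg0 : aeval x g ≠ 0 := fun h0 => hxk ⟨g, fun h => hg (by rw [h, natDegree_zero]), h0⟩
  have hyU : IsUnit (aeval xR g) := by
    refine IsUnit.of_mul_eq_one ⟨(aeval x g)⁻¹, hgR⟩ ?_
    apply Subtype.ext
    have h1 : ((aeval xR g : R) : K) = aeval x g := (aeval_algHom_apply R.val xR g).symm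
    change ((aeval xR g : R) : K) * (aeval x g)⁻¹ = 1
    rw [h1]
    exact mul_inv_cancel₀ hg0
  have hfin' : FiniteDimensional (IntermediateField.adjoin k {(xR : K)}) K := hfdim
  have hmax := hMp.2
  -- the value of `x`
  obtain ⟨e, he⟩ : ∃ e : k, ∀ (v : HeightOneSpectrum (𝓞 k))
      (ι : AlgebraicClosure k →ₐ[k] AlgebraicClosure (v.adicCompletion k))
      (A : ValuationSubring M) (φ : A →+* AlgebraicClosure (v.adicCompletion k)),
      Sel.IsPlaceOf s (v.adicCompletion k)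
        (ι : _ →+* AlgebraicClosure (v.adicCompletion k)) A φ →
      ∃ h : algebraMap K M x ∈ A, φ ⟨_, h⟩ = ι (algebraMap k _ e) := by
    refine hT.resolve_right fun h => ?_
    obtain ⟨v, -⟩ := exists_notMem (k := k) ∅
    obtain ⟨ι, A, φ, h1, h2⟩ := hloc v
    exact h v ι A φ h1 (h2 xR)
  -- the local points
  have hpt : ∀ (v : HeightOneSpectrum (𝓞 k))
      (ι : AlgebraicClosure k →ₐ[k] AlgebraicClosure (v.adicCompletion k))
      (A : ValuationSubring M) (φ : A →+* AlgebraicClosure (v.adicCompletion k)),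
      IsPointOn s R (v.adicCompletion k)
        (ι : _ →+* AlgebraicClosure (v.adicCompletion k)) A φ →
      ∃ φ' : integralClosure R M →+* AlgebraicClosure (v.adicCompletion k),
        Respects s (v.adicCompletion k)
          (ι : _ →+* AlgebraicClosure (v.adicCompletion k)) φ' ∧
        φ' (algebraMap R _ (aeval xR (Polynomial.X - Polynomial.C e))) = 0 ∧
        ∀ r : R, ∃ h' : algebraMap K M r ∈ A, φ ⟨_, h'⟩ = φ' (algebraMap R _ r) := by
    intro v ι A φ h
    obtain ⟨hA, φ', hφ', hr⟩ := respects_of_place R h.1 h.2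
    refine ⟨φ', hr, ?_, fun r => ⟨h.2 r, ?_⟩⟩
    · obtain ⟨h3, h4⟩ := he v ι A φ h.1
      have h5 : (algebraMap R (integralClosure R M) (aeval xR (Polynomial.X - Polynomial.C e))) =
          algebraMap R _ xR - algebraMap R _ (algebraMap k R e) := by
        rw [map_sub, aeval_X, aeval_C, map_sub]
      rw [h5, map_sub, sub_eq_zero, hφ', hφ']
      have h6 : φ ⟨_, hA (algebraMap R _ xR)⟩ = ι (algebraMap k _ e) := h4
      rw [h6]
      obtain ⟨h7, h8⟩ := h.1.1 (algebraMap k _ e)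
      refine h8.symm.trans (congrArg φ (Subtype.ext ?_))
      change algebraMap (AlgebraicClosure k) M (algebraMap k _ e) =
        algebraMap K M (algebraMap k K e)
      rw [← IsScalarTower.algebraMap_apply, ← IsScalarTower.algebraMap_apply]
    · rw [hφ']
      rfl
  choose ι₀ A₀ φA₀ hA₀ using hloc
  choose φ₀ hφ₀ hφ₀e hφ₀v using fun v => hpt v (ι₀ v) (A₀ v) (φA₀ v) (hA₀ v)
  have main := fun (ι : ∀ v : HeightOneSpectrum (𝓞 k),
      AlgebraicClosure k →ₐ[k] AlgebraicClosure (v.adicCompletion k))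
    (φ : ∀ v : HeightOneSpectrum (𝓞 k),
      integralClosure R M →+* AlgebraicClosure (v.adicCompletion k)) 
    (hφ : ∀ v, Respects s (v.adicCompletion k)
      (ι v : _ →+* AlgebraicClosure (v.adicCompletion k)) (φ v)) (hv : ∀ v, φ v
        (algebraMap R _ (aeval xR (Polynomial.X - Polynomial.C e))) = 0) =>
    GU.gu_final2 R hRn hfg xR hxk
      (GU.mem_units_of_unit R xR g (Nat.pos_of_ne_zero hg) hyU)
      (fun Ψ hΨ g _ hg => hMp.1 Ψ hΨ g hg) hmax s hs
      hsec ∅ (fun v => ι v.1) (fun v => φ v.1) (fun v => hφ v.1) ∅ (Finset.empty_subset _)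
      (Polynomial.X - Polynomial.C e) (X_sub_C_ne_zero e) (fun v _ => hv v.1)
  obtain ⟨Δ, Ψ, h1, h2, h3, h4, h5, h6, -⟩ := main ι₀ φ₀ hφ₀ hφ₀e
  -- all local points
  have h4' : ∀ r : R, algebraMap K M r ∈ unitRing R M →
        ∃ c : k, Ψ (algebraMap R _ r) = algebraMap k _ c ∧
          ∀ (v : HeightOneSpectrum (𝓞 k))
            (ι : AlgebraicClosure k →ₐ[k] AlgebraicClosure (v.adicCompletion k))
            (A : ValuationSubring M) (φ : A →+* AlgebraicClosure (v.adicCompletion k)),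
            IsPointOn s R (v.adicCompletion k)
              (ι : _ →+* AlgebraicClosure (v.adicCompletion k)) A φ →
            ∃ h' : algebraMap K M r ∈ A, φ ⟨_, h'⟩ = ι (algebraMap k _ c) := by
    intro r hr
    obtain ⟨c, hc, hcv⟩ := h4 r hr
    refine ⟨c, hc, fun v ι A φA hφA => ?_⟩
    obtain ⟨φ, hφ, hφe, hφv⟩ := hpt v ι A φA hφA
    obtain ⟨h', hh'⟩ := hφv r
    refine ⟨h', hh'.trans ?_⟩
    -- change the local point at `v`
    let D : HeightOneSpectrum (𝓞 k) → Type _ := fun w =>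
      {p : (AlgebraicClosure k →ₐ[k] AlgebraicClosure (w.adicCompletion k)) ×
        (integralClosure R M →+* AlgebraicClosure (w.adicCompletion k)) //
        Respects s (w.adicCompletion k) (p.1 : _ →+* AlgebraicClosure (w.adicCompletion k)) p.2 ∧
        p.2 (algebraMap R _ (aeval xR (Polynomial.X - Polynomial.C e))) = 0}
    let D₀ : ∀ w, D w := fun w => ⟨(ι₀ w, φ₀ w), hφ₀ w, hφ₀e w⟩
    let d : ∀ w, D w := Function.update D₀ v ⟨(ι, φ), hφ, hφe⟩
    obtain ⟨Δ₂, Ψ₂, -, -, -, g4, -, -, -⟩ := main (fun w => (d w).1.1) (fun w => (d w).1.2)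
      (fun w => (d w).2.1) (fun w => (d w).2.2)
    obtain ⟨c₂, -, hc₂⟩ := g4 r hr
    have hv := hc₂ ⟨v, Finset.notMem_empty v⟩
    have hd : d v = ⟨(ι, φ), hφ, hφe⟩ := Function.update_self _ _ _
    rw [hd] at hv
    obtain ⟨w, hw⟩ : ∃ w : HeightOneSpectrum (𝓞 k), w ≠ v := by
      obtain ⟨w, hw⟩ := exists_notMem ({v} : Finset (HeightOneSpectrum (𝓞 k)))
      exact ⟨w, fun h => hw (Finset.mem_singleton.2 h)⟩
    have hdw : d w = ⟨(ι₀ w, φ₀ w), hφ₀ w, hφ₀e w⟩ := Function.update_of_ne hw _ _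
    have hcw := hc₂ ⟨w, Finset.notMem_empty w⟩
    rw [hdw] at hcw
    have h8 : algebraMap k (AlgebraicClosure k) c₂ = algebraMap k _ c := by
      apply (ι₀ w : AlgebraicClosure k →+* AlgebraicClosure (w.adicCompletion k)).injective
      exact hcw.symm.trans (hcv ⟨w, Finset.notMem_empty w⟩)
    rw [← h8]
    exact hv
  refine ⟨Δ, Ψ, h1, h2, h3, h4', h5, fun hR => h6 fun r => ?_⟩
  obtain ⟨c, hc, -⟩ := h4' r (hR r)
  exact ⟨c, hc⟩

/-- **The theorem, affine curves and function fields.** -/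
theorem uniG {k : Type u} [Field k] [NumberField k] {g : k[X]} (hg : g.natDegree ≠ 0)
    {K : Type*} [Field K] [Algebra k K] (htr : Algebra.trdeg k K = 1)
    {x : K} (hx : ∀ c : k, x ≠ algebraMap k K c)
    (R : Subalgebra k K)
    {M : Type*} [Field M] [Algebra K M] [IsGalois K M]
    [Algebra (AlgebraicClosure k) M] [Algebra k M]
    [IsScalarTower k K M] [IsScalarTower k (AlgebraicClosure k) M]
    (s : Gal(AlgebraicClosure k/k) →* Gal(M/K)) (hs : Continuous s)
    (hsec : ∀ σ a, s σ (algebraMap (AlgebraicClosure k) M a) =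
      algebraMap (AlgebraicClosure k) M (σ a))
    (hfg : R.FG) (hRn : ∀ h : K, IsIntegral R h → h ∈ R) (hxR : x ∈ R) (hgR : (aeval x g)⁻¹ ∈ R)
    (hM : IsRadUnramOver R K M (AlgebraicClosure k))
    (hloc : ∀ v : HeightOneSpectrum (𝓞 k),
      ∃ (ι : AlgebraicClosure k →ₐ[k] AlgebraicClosure (v.adicCompletion k))
        (A : ValuationSubring M) (φ : A →+* AlgebraicClosure (v.adicCompletion k)),
        IsPointOn s R (v.adicCompletion k)
          (ι : _ →+* AlgebraicClosure (v.adicCompletion k)) A φ)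
    (hT : SameVal s k (algebraMap K M x)) :
    ∃ (A₀ : ValuationSubring M) (ψ₀ : A₀ →+* AlgebraicClosure k),
      (∀ r : R, algebraMap K M r ∈ A₀) ∧ Sel.IsSectionAt s A₀ ψ₀ ∧
      (∀ (A₁ : ValuationSubring M) (ψ₁ : A₁ →+* AlgebraicClosure k), Sel.IsSectionAt s A₁ ψ₁ →
        (∀ (r : R) (h₀ : algebraMap K M r ∈ A₀), ∃ h₁ : algebraMap K M r ∈ A₁,
          algebraMap K M r ∈ unitRing R M ∨ ψ₁ ⟨_, h₁⟩ = ψ₀ ⟨_, h₀⟩) →
        A₁ = A₀ ∧ ∀ (a : A₁) (b : A₀), (a : M) = b → ψ₁ a = ψ₀ b) ∧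
      (∀ h : K, algebraMap K M h ∈ unitRing R M → HasVal s R A₀ ψ₀ h) ∧
      ((∀ r : R, algebraMap K M r ∈ unitRing R M) →
        Sel.IsPlaceOf s k (RingHom.id _) A₀ ψ₀) := by
  classical
  have hxk : Transcendental k x := by
    rintro ⟨p, hp, hp'⟩
    have h1 : (p.map (algebraMap k (AlgebraicClosure k))).eval₂
        (algebraMap (AlgebraicClosure k) M) (algebraMap K M x) = 0 := by
      rw [eval₂_map, ← IsScalarTower.algebraMap_eq, ← aeval_def, aeval_algebraMap_apply, hp',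
        map_zero]
    obtain ⟨c, -, hc⟩ := root_mem (algebraMap (AlgebraicClosure k) M)
      (Polynomial.map_ne_zero hp) h1
    obtain ⟨c₀, hc₀⟩ := HYP.mem_of_fixed (k := k) (a := c) fun σ => by
      apply (algebraMap (AlgebraicClosure k) M).injective
      rw [← hsec, hc, (s σ).commutes]
    apply hx c₀
    apply (algebraMap K M).injective
    rw [← IsScalarTower.algebraMap_apply, IsScalarTower.algebraMap_apply k (AlgebraicClosure k) M,
      hc₀]
    exact hc.symm
  have hfdim := finite_of_fg htr R hRn hfg hxR hxk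
  have hK0 : CharZero K := charZero_of_injective_algebraMap (algebraMap k K).injective
  have hKM : Algebra.IsAlgebraic K M := inferInstance
  have halg : Algebra.IsAlgebraic K (AlgebraicClosure M) := Algebra.IsAlgebraic.trans K M _
  have htrΩ : Algebra.trdeg k (AlgebraicClosure M) = 1 :=
    trdeg_top (K := K) (Full.trdeg_of_finite hxk)
  have hMp := radUnram_of_over R x hxR hxk hM
  have hK : (⊤ : IntermediateField k K).FG := by
    have h1 : Algebra.EssFiniteType k (IntermediateField.adjoin k {x}) :=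
      IntermediateField.essFiniteType_iff.2
        (IntermediateField.fg_adjoin_of_finite (Set.finite_singleton x))
    have h2 := Algebra.EssFiniteType.comp k (IntermediateField.adjoin k {x}) K
    exact IntermediateField.fg_top k K
  obtain ⟨Δ, Ψ, h1, h2, h3, h4, h5, h7⟩ := aff_coreG hg htr hx R
    s hs hsec hRn hfg hxR hgR hM hMp hloc hT
  obtain ⟨A₀, ψ₀, hA, hB, hmul, hunit⟩ := SFull.exists_place x hxk R hxR Ψ h2
  have hint : ∀ a : AlgebraicClosure k, IsIntegral R (algebraMap (AlgebraicClosure k) M a) :=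
    fun a => Pt.integral_const R a
  have hover : SNeigh.IsOver A₀ ψ₀ := by
    refine ⟨fun a => ?_, hunit⟩
    obtain ⟨h8, h9⟩ := hB ⟨_, hint a⟩
    exact ⟨h8, h9.trans (h2 a _ rfl)⟩
  have hRA : ∀ r : R, algebraMap K M r ∈ A₀ := fun r =>
    (hB (algebraMap R (integralClosure R M) r)).1
  have hres : ∀ Δ : Subgroup Gal(AlgebraicClosure k/k),
      (∀ σ ∈ Δ, ∀ b b' : integralClosure R M, (b' : M) = s σ b → Ψ b' = σ (Ψ b)) →
      SNeigh.ResOn s A₀ ψ₀ Δ := by
    intro Δ hΔ σ hσ z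
    obtain ⟨a, b, hb, hab⟩ := (hA z).1 z.2
    let act : integralClosure R M → integralClosure R M := fun c =>
      ⟨s σ c, c.2.map (((s σ).toAlgHom.restrictScalars R : M →ₐ[R] M))⟩
    have ha' := hΔ σ hσ a (act a) rfl
    have hb' := hΔ σ hσ b (act b) rfl
    have hgy : s σ z * (act b : M) = act a := by
      change s σ z * s σ b = s σ a
      rw [← map_mul, hab]
    have hb0 : Ψ (act b) ≠ 0 := by
      rw [hb']
      exact (_root_.map_ne_zero _).2 hb
    have hz : s σ z ∈ A₀ := (hA _).2 ⟨act a, act b, hb0, hgy⟩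
    refine ⟨hz, mul_right_cancel₀ hb0 ?_⟩
    rw [hmul ⟨_, hz⟩ _ _ hgy, ha', hb', ← map_mul, hmul z a b hab]
  obtain ⟨g1, -⟩ := section_of_open hK htr R hfg hM s hsec hRA hover Δ h1 (hres Δ h3)
  refine ⟨A₀, ψ₀, hRA, g1, fun A₁ ψ₁ hψ₁ hA₁ => ?_, fun h hu => ?_, fun hu => ?_⟩
  · obtain ⟨hA', Ψ₁, e', i1, i2⟩ := pt_of_place R s (A := A₁) (ψ := ψ₁) ⟨hψ₁.1, hψ₁.2.1⟩
      fun r => (hA₁ r (hRA r)).1
    have i3 := i2 (SFull.stab K A₁ ψ₁) fun σ hσ z => hψ₁.2.2.2 σ hσ z
    have h8 : Ψ₁ = Ψ := by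
      refine h5 Ψ₁ i1 (fun r => ?_) ⟨SFull.stab K A₁ ψ₁, hψ₁.2.2.1, i3⟩
      obtain ⟨h9, h10⟩ := hA₁ r (hRA r)
      rcases h10 with h10 | h10
      · refine open_agree R s hs hMp.2 (Δ ⊓ SFull.stab K A₁ ψ₁)
          (h1.inter hψ₁.2.2.1) h2 i1 (fun σ hσ => h3 σ hσ.1) (fun σ hσ => i3 σ hσ.2)
          (algebraMap R _ r) h10
      · obtain ⟨h11, h12⟩ := hB (algebraMap R (integralClosure R M) r)
        rw [e', ← h12]
        exact h10
    subst h8
    refine SNeigh.place_eq hunit fun z => ?_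
    obtain ⟨a, b, hb, hab⟩ := (hA z).1 z.2
    have h9 : (b : M)⁻¹ ∈ A₁ := hψ₁.2.1 ⟨b, hA' b⟩ (by rw [← e']; exact hb)
    have hb0 : (b : M) ≠ 0 := by
      intro h0
      apply hb
      rw [show b = 0 from Subtype.ext h0, map_zero]
    have h10 : (z : M) = a * (b : M)⁻¹ := by rw [← hab, mul_inv_cancel_right₀ hb0]
    have h11 : (z : M) ∈ A₁ := by rw [h10]; exact A₁.mul_mem _ _ (hA' a) h9
    refine ⟨h11, mul_right_cancel₀ hb ?_⟩
    rw [hmul z a b hab, e', e', ← map_mul]
    congr 1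
    exact Subtype.ext hab
  · have hh : h ∈ R := by
      refine hRn _ ?_
      have h8 : unitRing R M ≤ (integralClosure R M).toSubring := by
        rw [unitRing, Subring.closure_le]
        intro b hb
        exact hb.1
      have h9 : IsIntegral R (algebraMap K M h) := h8 hu
      exact (isIntegral_algebraMap_iff (algebraMap K M).injective).mp h9
    obtain ⟨c, hc, hc'⟩ := h4 ⟨h, hh⟩ hu
    obtain ⟨h8, h9⟩ := hB (algebraMap R (integralClosure R M) ⟨h, hh⟩)
    exact ⟨c, h8, h9.trans hc, hc'⟩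
  · have h8 := hres ⊤ fun σ _ b b' hb => (h7 hu).2 σ σ (fun _ => rfl) b b' hb
    refine ⟨hover.1, hunit, fun σ τ hστ z => ?_⟩
    obtain ⟨h9, h10⟩ := h8 σ (Subgroup.mem_top σ) z
    exact ⟨h9, h10.trans (hστ _)⟩

end Pool.Agent.Lib.MP_2f3286_ag.UA.Rad
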