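import Pool.Agent.Lib.MP_2f3286_ag.UA.RX2

/-!
# The affine part of GX3
-/

open Polynomial IntermediateField IsDedekindDomain NumberField
open scoped WithZero Pointwise

noncomputable section

namespace Pool.Agent.Lib.MP_2f3286_ag.UA.Rad

open Pool.Agent.Lib.MP_2f3286_ag.HYP hiding affine_over over_dich
open Pool.Agent.Lib.MP_2f3286_ag.Pt Pool.Agent.Lib.MP_2f3286_ag.SNeigh
  Pool.Agent.Lib.MP_2f3286_ag.SFull Pool.Agent.Lib.MP_2f3286_ag
  Pool.Agent.Lib.MP_2f3286_ag.Koe

universe u v

/-- **Affine curves with a neighbourhood over `F` mapping to the curve.** -/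
theorem affine_overG {k : Type u} [Field k] [NumberField k]
    {F : Type v} [Field F] [NumberField F] [Algebra k F]
    [Algebra F (AlgebraicClosure k)] [IsScalarTower k F (AlgebraicClosure k)]
    {g : F[X]} (hg : g.natDegree ≠ 0)
    {K : Type*} [Field K] [Algebra k K] (htr : Algebra.trdeg k K = 1)
    (R : Subalgebra k K) (hfg : R.FG) (hRn : ∀ y : K, IsIntegral R y → y ∈ R)
    {M : Type*} [Field M] [Algebra K M] [IsGalois K M]
    [Algebra (AlgebraicClosure k) M] [Algebra k M]
    [IsScalarTower k K M] [IsScalarTower k (AlgebraicClosure k) M]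
    [Algebra F M] [IsScalarTower F (AlgebraicClosure k) M]
    (hM : IsRadUnramOver R K M (AlgebraicClosure k))
    (s : Gal(AlgebraicClosure k/k) →* Gal(M/K)) (hs : Continuous s)
    (hsec : ∀ σ a, s σ (algebraMap (AlgebraicClosure k) M a) =
      algebraMap (AlgebraicClosure k) M (σ a))
    {x : M} (hxs : x ∈ fixF s F) (hx : ∀ c : F, x ≠ algebraMap F M c)
    (S : Finset M) (hS : ∀ z ∈ S, z ∈ fixF s F)
    (hxR : IsIntegral R x) (hgR : IsIntegral R (aeval x g)⁻¹)
    (hloc : ∀ w : HeightOneSpectrum (𝓞 F),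
      ∃ (ι : AlgebraicClosure k →ₐ[F] AlgebraicClosure (w.adicCompletion F))
        (A : ValuationSubring M) (φ : A →+* AlgebraicClosure (w.adicCompletion F)),
        IsPointOn s R (w.adicCompletion F)
          (ι : _ →+* AlgebraicClosure (w.adicCompletion F)) A φ)
    (hT : SameVal s F x) :
    ∃ (A₀ : ValuationSubring M) (ψ₀ : A₀ →+* AlgebraicClosure k),
      (∀ r : R, algebraMap K M r ∈ A₀) ∧ Sel.IsSectionAt s A₀ ψ₀ ∧
      (∀ (A₁ : ValuationSubring M) (ψ₁ : A₁ →+* AlgebraicClosure k), Sel.IsSectionAt s A₁ ψ₁ →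
        (∀ (r : R) (h₀ : algebraMap K M r ∈ A₀), ∃ h₁ : algebraMap K M r ∈ A₁,
          algebraMap K M r ∈ unitRing R M ∨ ψ₁ ⟨_, h₁⟩ = ψ₀ ⟨_, h₀⟩) →
        A₁ = A₀ ∧ ∀ (a : A₁) (b : A₀), (a : M) = b → ψ₁ a = ψ₀ b) ∧
      (∀ h : K, algebraMap K M h ∈ unitRing R M → HasValOver s R F A₀ ψ₀ h) ∧
      (∀ z ∈ IntermediateField.adjoin F (S : Set M), z ∈ unitRing R M → HasValM s R F A₀ ψ₀ z) ∧
      ((∀ r : R, algebraMap K M r ∈ unitRing R M) → Sel.IsPlaceOf s k (RingHom.id _) A₀ ψ₀) := by
  classical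
  have hfin : FiniteDimensional k F := FiniteDimensional.right ℚ k F
  have hFk : Algebra.IsAlgebraic F (AlgebraicClosure k) :=
    Algebra.IsAlgebraic.tower_top (K := k) F
  have : IsAlgClosure F (AlgebraicClosure k) := ⟨inferInstance, inferInstance⟩
  let e : AlgebraicClosure F ≃ₐ[F] AlgebraicClosure k :=
    IsAlgClosure.equiv F (AlgebraicClosure F) (AlgebraicClosure k)
  let iFb : Algebra (AlgebraicClosure F) M :=
    ((algebraMap (AlgebraicClosure k) M).comp (e : _ →+* AlgebraicClosure k)).toAlgebra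
  have he : ∀ a : AlgebraicClosure F, algebraMap (AlgebraicClosure F) M a =
      algebraMap (AlgebraicClosure k) M (e a) := fun _ => rfl
  have t3 : IsScalarTower k F M := IsScalarTower.of_algebraMap_eq fun a => by
    rw [IsScalarTower.algebraMap_apply F (AlgebraicClosure k) M,
      ← IsScalarTower.algebraMap_apply k F (AlgebraicClosure k),
      ← IsScalarTower.algebraMap_apply k (AlgebraicClosure k) M]
  have t4 : IsScalarTower F (AlgebraicClosure F) M := IsScalarTower.of_algebraMap_eq fun a => by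
    rw [he, AlgEquiv.commutes, ← IsScalarTower.algebraMap_apply]
  have hK0 : CharZero K := charZero_of_injective_algebraMap (algebraMap k K).injective
  have hKM : Algebra.IsAlgebraic K M := inferInstance
  -- transcendental functions
  have hxt : Transcendental F x := const_of_fixF s hsec e hxs hx
  have hxtk : Transcendental k x := fun h => hxt (h.tower_top F)
  obtain ⟨t, htR, ht⟩ : ∃ t : K, t ∈ R ∧ Transcendental k t := by
    by_contra hcon
    push Not at hcon
    apply hxtk
    have h1 : Algebra.IsAlgebraic k R := ⟨fun r => by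
      have h2 := hcon r r.2
      rw [Transcendental, not_not] at h2
      exact (isAlgebraic_algebraMap_iff (R := k) (S := R) (A := K) Subtype.val_injective).1 h2⟩
    have h3 : IsScalarTower k R M := IsScalarTower.of_algebraMap_eq fun a => by
      rw [IsScalarTower.algebraMap_apply k K M]; rfl
    exact IsAlgebraic.restrictScalars k (hxR.isAlgebraic)
  have hfrac : ∀ z : K, ∃ a b : R, (b : K) ≠ 0 ∧ z * b = a := by
    intro z
    obtain ⟨a, b, hab, hab'⟩ := frac_of_hom (Ω := K) R htr ⟨t, htR⟩ ht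
      (algebraMap (integralClosure R K) K) z
    refine ⟨⟨a, hRn _ a.2⟩, ⟨b, hRn _ b.2⟩, ?_, hab⟩
    rcases hab' with ha | hb
    · intro hb
      apply ha
      change (a : K) = 0
      rw [← hab, show (b : K) = 0 from hb, mul_zero]
    · exact hb
  -- the field `L₁`
  have hFL : ∀ a : F, algebraMap F M a ∈ fixF s F := by
    intro a σ hσ
    rw [IsScalarTower.algebraMap_apply F (AlgebraicClosure k) M, hsec, hσ]
  obtain ⟨L₁, hL₁L, hSL', hFL₁, hfd₁⟩ := exists_subS (k := k) (F := F) (fixF s F) hFL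
    (insert x S) fun z hz => by
      rcases Finset.mem_insert.1 hz with rfl | hz
      · exact hxs
      · exact hS z hz
  have hxL : x ∈ L₁ := hSL' x (Finset.mem_insert_self _ _)
  have hSL : ∀ z ∈ S, z ∈ L₁ := fun z hz => hSL' z (Finset.mem_insert_of_mem hz)
  let iFL : Algebra F L₁ := ((algebraMap F M).codRestrict L₁.toSubfield hFL₁).toAlgebra
  have t7 : IsScalarTower k L₁ M := IsScalarTower.of_algebraMap_eq fun a => rfl
  have t5 : IsScalarTower F L₁ M := IsScalarTower.of_algebraMap_eq fun a => rfl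
  have t6 : IsScalarTower k F L₁ := IsScalarTower.of_algebraMap_eq fun a => by
    apply (algebraMap L₁ M).injective
    rw [← IsScalarTower.algebraMap_apply k L₁ M, ← IsScalarTower.algebraMap_apply F L₁ M,
      ← IsScalarTower.algebraMap_apply k F M]
  have t8 : IsScalarTower R L₁ M := IsScalarTower.of_algebraMap_eq fun a => rfl
  have hL₁ : ∀ σ : Gal(AlgebraicClosure k/k),
      (∀ a : F, σ (algebraMap F _ a) = algebraMap F _ a) →
      ∀ x : L₁, s σ (algebraMap L₁ M x) = algebraMap L₁ M x :=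
    fun σ hσ x => hL₁L x.2 σ hσ
  have htr' : Algebra.trdeg F L₁ = 1 := trdeg_fix (k := k) (K := K) (Ω := M) htr
  -- the ring
  let R₁ : Subalgebra F L₁ :=
    { (integralClosure R L₁).toSubsemiring with
      algebraMap_mem' := fun a => by
        have h1 : IsIntegral k a := Algebra.IsIntegral.isIntegral a
        have h2 : IsIntegral k (algebraMap F L₁ a) := h1.algebraMap
        have h3 : IsScalarTower k R L₁ := IsScalarTower.of_algebraMap_eq fun a => by
          rw [IsScalarTower.algebraMap_apply k K L₁]; rfl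
        exact h2.tower_top }
  have hmem₁ : ∀ z : L₁, z ∈ R₁ ↔ IsIntegral R z := fun z => Iff.rfl
  let iRR : Algebra R R₁ := ((algebraMap R L₁).codRestrict R₁.toSubring fun r => by
    change IsIntegral R (algebraMap R L₁ r)
    exact isIntegral_algebraMap).toAlgebra
  have t9 : IsScalarTower R R₁ L₁ := IsScalarTower.of_algebraMap_eq fun r => rfl
  have t10 : IsScalarTower R R₁ M := IsScalarTower.of_algebraMap_eq fun r => rfl
  have hint₁ : Algebra.IsIntegral R R₁ := ⟨fun z => by
    have h1 : IsIntegral R (z : L₁) := (hmem₁ _).1 z.2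
    exact (isIntegral_algebraMap_iff (R := R) (A := R₁) (B := L₁) Subtype.val_injective).1 h1⟩
  have hRR : ∀ z : M, IsIntegral R₁ z ↔ IsIntegral R z := fun z =>
    ⟨fun h => isIntegral_trans z h, fun h => h.tower_top⟩
  have hunit : unitRing R₁ M = unitRing R M := by
    rw [unitRing, unitRing]
    congr 1
    ext z
    exact and_congr (hRR z) (hRR z⁻¹)
  have hR₁fg : R₁.FG := fg_closure (k := k) R hfg hRn hfrac R₁ hmem₁
  have hR₁n : ∀ z : L₁, IsIntegral R₁ z → z ∈ R₁ := fun z hz => isIntegral_trans z hz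
  have hLM : ∀ z : L₁, IsIntegral R (z : M) → z ∈ R₁ := fun z hz =>
    (isIntegral_algebraMap_iff (algebraMap L₁ M).injective).1 hz
  -- the maximal unramified extension
  have hKL : ∀ x : K, ∃ y : L₁, algebraMap L₁ M y = algebraMap K M x :=
    fun x => ⟨algebraMap K L₁ x, rfl⟩
  have hM₁ : IsRadUnramOver R₁ L₁ M (AlgebraicClosure F) := by
    refine radUnram_trans (e : AlgebraicClosure F ≃+* AlgebraicClosure k) he hKL R R₁
      (fun V hV => ⟨fun h r => h (algebraMap R R₁ r), fun h r => ?_⟩) hM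
    have h5 : IsIntegral R ((r : L₁) : M) := ((hmem₁ _).1 r.2).algebraMap
    exact PTAux.mem_of_isIntegral (R := R) h h5
  -- the section over `F`
  have hs₁ := resS_continuous s e hL₁ hs
  have hsec₁ : ∀ (σ : Gal(AlgebraicClosure F/F)) (a : AlgebraicClosure F),
      resS s e hL₁ σ (algebraMap (AlgebraicClosure F) M a) =
        algebraMap (AlgebraicClosure F) M (σ a) := by
    intro σ a
    rw [resS_apply, he, hsec, resG_apply, e.symm_apply_apply, he]
  have hRA₁ : ∀ {A : ValuationSubring M}, (∀ r : R, algebraMap K M r ∈ A) →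
      ∀ r : R₁, algebraMap L₁ M r ∈ A := by
    intro A h r
    refine PTAux.mem_of_isIntegral (R := R) h ?_
    exact ((hmem₁ _).1 r.2).algebraMap
  have hupw : ∀ (w : HeightOneSpectrum (𝓞 F))
      (ι : AlgebraicClosure k →ₐ[F] AlgebraicClosure (w.adicCompletion F))
      (A : ValuationSubring M) (φ : A →+* AlgebraicClosure (w.adicCompletion F)),
      IsPointOn s R (w.adicCompletion F) (ι : _ →+* AlgebraicClosure (w.adicCompletion F)) A φ →
      IsPointOn (resS s e hL₁) R₁ (w.adicCompletion F)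
        ((ι.comp (e : AlgebraicClosure F →ₐ[F] AlgebraicClosure k) :
          AlgebraicClosure F →ₐ[F] AlgebraicClosure (w.adicCompletion F)) :
          _ →+* AlgebraicClosure (w.adicCompletion F)) A φ :=
    fun w ι A φ h => ⟨placeOf_res e he s hL₁ h.1, hRA₁ h.2⟩
  obtain ⟨A₀, ψ, h1, h2, -, h4, -⟩ := uniG hg htr' (x := ⟨x, hxL⟩)
    (fun c hc => hx c (congrArg (algebraMap L₁ M) hc)) R₁ (resS s e hL₁) hs₁ hsec₁
    hR₁fg hR₁n (hLM _ hxR) (hLM _ (by
      have h3 : algebraMap L₁ M (aeval (⟨x, hxL⟩ : L₁) g)⁻¹ = (aeval x g)⁻¹ := by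
        rw [map_inv₀, ← aeval_algebraMap_apply]
        rfl
      change IsIntegral R (algebraMap L₁ M (aeval (⟨x, hxL⟩ : L₁) g)⁻¹)
      rw [h3]
      exact hgR)) hM₁ (fun w => by
      obtain ⟨ι, A, φ, h⟩ := hloc w
      exact ⟨_, A, φ, hupw w ι A φ h⟩) (hT.res e he hL₁)
  obtain ⟨h5, Δ, h6, h7⟩ := up_section s e he hL₁ h2
  have hRA : ∀ r : R, algebraMap K M r ∈ A₀ := fun r => h1 (algebraMap R R₁ r)
  obtain ⟨g1, g2, g3, g4⟩ := affine_end htr R hfg hRn t htR ht hM s hs hsec hRA h5 Δ h6 h7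
  refine ⟨A₀, _, hRA, g1, g2, fun h hh => ?_, fun z hz hu => ?_, g4⟩
  · have hR : h ∈ R := by
      refine hRn _ ?_
      have h8 : unitRing R M ≤ (integralClosure R M).toSubring := by
        rw [unitRing, Subring.closure_le]
        intro b hb
        exact hb.1
      have h9 : IsIntegral R (algebraMap K M h) := h8 hh
      exact (isIntegral_algebraMap_iff (algebraMap K M).injective).mp h9
    obtain ⟨c, hc⟩ := g3 ⟨h, hR⟩ hh
    obtain ⟨c', hh', hc', hv⟩ := h4 (algebraMap K L₁ h)
      (by rw [hunit]; exact hh)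
    refine ⟨c, hRA ⟨h, hR⟩, hc, fun w ι A φ hφ => ?_⟩
    obtain ⟨h8, h9⟩ := hv w _ A φ (hupw w ι A φ hφ)
    refine ⟨h8, h9.trans ?_⟩
    change ι (e (algebraMap F _ c')) = ι (algebraMap k _ c)
    rw [← hc', ← hc]
    rfl
  · have hzL : z ∈ L₁ := by
      have h8 : ∀ z ∈ IntermediateField.adjoin F (S : Set M), z ∈ L₁ := by
        intro z hz
        induction hz using IntermediateField.adjoin_induction with
        | mem c hc => exact hSL c hc
        | algebraMap a => exact hFL₁ a
        | add a b _ _ ha hb => exact add_mem ha hb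
        | inv a _ ha => exact inv_mem ha
        | mul a b _ _ ha hb => exact mul_mem ha hb
      exact h8 z hz
    have h9 : unitRing R M ≤ (integralClosure R M).toSubring := by
      rw [unitRing, Subring.closure_le]
      intro b hb
      exact hb.1
    have hzA : z ∈ A₀ := PTAux.mem_of_isIntegral (R := R) hRA (h9 hu)
    obtain ⟨c', hh', hc', hv⟩ := h4 (⟨z, hzL⟩ : L₁) (by rw [hunit]; exact hu)
    refine ⟨c', hzA, ?_, fun w ι A φ hφ => ?_⟩
    · change e (ψ ⟨z, hzA⟩) = algebraMap F _ c'
      rw [← e.commutes c', ← hc']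
      rfl
    · obtain ⟨h10, h11⟩ := hv w _ A φ (hupw w ι A φ hφ)
      refine ⟨h10, h11.trans ?_⟩
      change ι (e (algebraMap F _ c')) = ι (algebraMap F _ c')
      rw [e.commutes]

end Pool.Agent.Lib.MP_2f3286_ag.UA.Rad
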