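import Pool.Agent.Lib.MP_2f3286_ag.UA.RX3

/-!
# Cusps

Copies of the theorems of GX4.
-/

open Polynomial IntermediateField IsDedekindDomain NumberField
open scoped WithZero Pointwise

noncomputable section

namespace Pool.Agent.Lib.MP_2f3286_ag.UA.Rad

open Pool.Agent.Lib.MP_2f3286_ag.HYP hiding affine_over over_dich
open Pool.Agent.Lib.MP_2f3286_ag.Pt Pool.Agent.Lib.MP_2f3286_ag.SNeigh
  Pool.Agent.Lib.MP_2f3286_ag.SFull Pool.Agent.Lib.MP_2f3286_ag
  Pool.Agent.Lib.MP_2f3286_ag.Koe Pool.Agent.Lib.MP_2f3286_ag.Full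

universe u v

/-- **The section is cuspidal**, `x` in `K`. -/
theorem affine_cuspG {k : Type u} [Field k] [NumberField k] {g : k[X]} (hg : g.natDegree ≠ 0)
    {K : Type*} [Field K] [Algebra k K] (htr : Algebra.trdeg k K = 1)
    {x : K} (hx : ∀ c : k, x ≠ algebraMap k K c)
    (R : Subalgebra k K)
    {M : Type*} [Field M] [Algebra K M] [IsGalois K M]
    [Algebra (AlgebraicClosure k) M] [Algebra k M]
    [IsScalarTower k K M] [IsScalarTower k (AlgebraicClosure k) M]
    (s : Gal(AlgebraicClosure k/k) →* Gal(M/K)) (hs : Continuous s)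
    (hsec : ∀ σ a, s σ (algebraMap (AlgebraicClosure k) M a) =
      algebraMap (AlgebraicClosure k) M (σ a))
    (hfg : R.FG) (hRn : ∀ h : K, IsIntegral R h → h ∈ R) (hxR : x ∈ R)
    (hgR : (aeval x g)⁻¹ ∈ R) (hM : IsRadUnramOver R K M (AlgebraicClosure k))
    (hloc : ∀ v : HeightOneSpectrum (𝓞 k),
      ∃ (ι : AlgebraicClosure k →ₐ[k] AlgebraicClosure (v.adicCompletion k))
        (A : ValuationSubring M) (φ : A →+* AlgebraicClosure (v.adicCompletion k)),
        Sel.IsPlaceOf s (v.adicCompletion k)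
          (ι : _ →+* AlgebraicClosure (v.adicCompletion k)) A φ ∧ algebraMap K M x ∉ A) :
    ∃ (Δ : Subgroup Gal(AlgebraicClosure k/k)) (A₀ : ValuationSubring M)
      (ψ₀ : A₀ →+* AlgebraicClosure k), IsOpen (Δ : Set Gal(AlgebraicClosure k/k)) ∧
      SNeigh.IsOver A₀ ψ₀ ∧ SNeigh.ResOn s A₀ ψ₀ Δ ∧ algebraMap K M x ∉ A₀ := by
  classical
  have hxk : Transcendental k x := transc_of_sec hsec hx
  have hfdim := finite_of_fg htr R hRn hfg hxR hxk
  have hK0 : CharZero K := charZero_of_injective_algebraMap (algebraMap k K).injective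
  have hM0 : CharZero M := charZero_of_injective_algebraMap (algebraMap K M).injective
  have hKM : Algebra.IsAlgebraic K M := inferInstance
  have halg : Algebra.IsAlgebraic K (AlgebraicClosure M) := Algebra.IsAlgebraic.trans K M _
  have htrΩ : Algebra.trdeg k (AlgebraicClosure M) = 1 := trdeg_top (K := K) htr
  have hMp := radUnram_of_over R x hxR hxk hM
  have hmax := hMp.2
  -- the unit
  obtain ⟨y₂, hy₂⟩ : ∃ y₂ : K, y₂ = aeval x g := ⟨_, rfl⟩
  have hy₂R : y₂ ∈ R := by
    have h1 : ((aeval (⟨x, hxR⟩ : R) g : R) : K) = aeval x g :=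
      (aeval_algHom_apply R.val (⟨x, hxR⟩ : R) g).symm
    rw [hy₂, ← h1]
    exact (aeval (⟨x, hxR⟩ : R) g).2
  have hy₂R' : y₂⁻¹ ∈ R := by rw [hy₂]; exact hgR
  have hy₂t : Transcendental k y₂ := by
    rintro ⟨c, hc, hc'⟩
    apply hxk
    rw [hy₂, ← aeval_comp] at hc'
    refine ⟨c.comp g, fun h0 => hc ?_, hc'⟩
    rcases comp_eq_zero_iff.1 h0 with h1 | ⟨-, h1⟩
    · exact h1
    · exfalso
      exact hg (by rw [h1, natDegree_C])
  have hfdim₂ : FiniteDimensional (adjoin k {y₂}) K := finite_of_fg htr R hRn hfg hy₂R hy₂t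
  have hun : ∀ Ψ : integralClosure R M →+* AlgebraicClosure k, Pt.IsPt R M (AlgebraicClosure k) Ψ →
      ∀ g : Gal(M/K), (∀ b b' : integralClosure R M, (b' : M) = g b → Ψ b' = Ψ b) → g = 1 :=
    fun Ψ hΨ g hg => hMp.1 Ψ hΨ g hg
  have hfree : ∀ A ≤ geomGroup K M (AlgebraicClosure k),
      OpenIn (geomGroup K M (AlgebraicClosure k)) A → ∀ (ℓ : ℕ) [Fact ℓ.Prime],
      Finite (A →ₜ* Multiplicative (ZMod ℓ)) ∧
      ∀ f : A →ₜ* Multiplicative (ZMod ℓ), ∃ F : A →ₜ* Multiplicative ℤ_[ℓ], ∀ a,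
        PadicInt.toZMod (F a).toAdd = (f a).toAdd := by
    intro B hBN hBo ℓ hℓ
    obtain ⟨O, hO, hON⟩ := hBo
    exact Pt.fin_lift (k := k) y₂ hy₂t R hy₂R hfg (fun Ψ hΨ g _ h => hun Ψ hΨ g h) hmax _
      (fun g => Iff.rfl) B hBN O hO hON ℓ
  have hint : ∀ z : K, z ∈ R → IsIntegral R (algebraMap K M z) := by
    intro z hz
    exact isIntegral_algebraMap (R := R) (A := M) (x := ⟨z, hz⟩)
  have hroot : ∀ n : ℕ, 0 < n → ∃ β : M, β ^ n = algebraMap K M y₂ := fun n hn =>
    Full.root_of_unit hmax _ (hint _ hy₂R) (by rw [← map_inv₀]; exact hint _ hy₂R') n hn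
  -- a pole of `x` is a pole of `g(x)`
  have hpole : ∀ A : ValuationSubring M, (∀ c : AlgebraicClosure k,
      algebraMap (AlgebraicClosure k) M c ∈ A) →
      (algebraMap K M y₂ ∈ A ↔ algebraMap K M x ∈ A) := by
    intro A hA
    have hA' : ∀ c : k, algebraMap k M c ∈ A := fun c => by
      rw [IsScalarTower.algebraMap_apply k (AlgebraicClosure k) M]
      exact hA _
    constructor
    · intro h
      have h1 : algebraMap K M y₂ = aeval (algebraMap K M x) g := by
        rw [hy₂, aeval_algebraMap_apply]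
      exact mem_of_aeval_mem hA' hg (by rw [← h1]; exact h)
    · intro h
      rw [hy₂, ← aeval_algebraMap_apply, aeval_eq_sum_range]
      refine sum_mem fun i _ => ?_
      rw [Algebra.smul_def]
      exact mul_mem (hA' _) (pow_mem h _)
  obtain ⟨Δ, W, hΔ, hW, hyW, hst⟩ := cusp_core y₂ hy₂t hroot hfree s hs hsec ∅ fun v _ => by
    obtain ⟨ι, A, φ, h, h'⟩ := hloc v
    exact ⟨ι, A, φ, h, fun h1 => h' ((hpole A fun c => (h.1 c).1).1 h1)⟩
  have hy₂M : Transcendental (AlgebraicClosure k) (algebraMap K M y₂) :=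
    Pt.PTAux.transc (k := k) y₂ hy₂t
  have halgM : ∀ z : M, IsAlgebraic
      (adjoin (AlgebraicClosure k) {algebraMap K M y₂}) z := Full.isAlgebraic_M (k := k) y₂
  have hres : ∀ z ∈ W, ∃ c : AlgebraicClosure k,
      W.valuation (z - algebraMap (AlgebraicClosure k) M c) < 1 := fun z hz =>
    Pt.MaxOver.residue_const _ hy₂M halgM W hW (fun h => hyW (by
      rw [h]; exact ValuationSubring.mem_top _)) z hz
  obtain ⟨ψ, hO, hR, -⟩ := exists_res W hW hres hsec hst
  exact ⟨Δ, W, ψ, hΔ, hO, hR, fun h => hyW ((hpole W hW).2 h)⟩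

/-- **The section is cuspidal**, `x` in `M` fixed by the section over `F`. -/
theorem cusp_overG {k : Type u} [Field k] [NumberField k]
    {F : Type v} [Field F] [NumberField F] [Algebra k F]
    [Algebra F (AlgebraicClosure k)] [IsScalarTower k F (AlgebraicClosure k)]
    {g : F[X]} (hg : g.natDegree ≠ 0)
    {K : Type*} [Field K] [Algebra k K] (htr : Algebra.trdeg k K = 1)
    (R : Subalgebra k K) (hfg : R.FG) (hRn : ∀ y : K, IsIntegral R y → y ∈ R)
    {M : Type*} [Field M] [Algebra K M] [IsGalois K M]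
    [Algebra (AlgebraicClosure k) M] [Algebra k M]
    [IsScalarTower k K M] [IsScalarTower k (AlgebraicClosure k) M]
    [Algebra F M] [IsScalarTower F (AlgebraicClosure k) M]
    (hM : IsRadUnramOver R K M (AlgebraicClosure k))
    (s : Gal(AlgebraicClosure k/k) →* Gal(M/K)) (hs : Continuous s)
    (hsec : ∀ σ a, s σ (algebraMap (AlgebraicClosure k) M a) =
      algebraMap (AlgebraicClosure k) M (σ a))
    {x : M} (hxs : x ∈ fixF s F) (hx : ∀ c : F, x ≠ algebraMap F M c)
    (hxR : IsIntegral R x) (hgR : IsIntegral R (aeval x g)⁻¹)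
    (hloc : ∀ w : HeightOneSpectrum (𝓞 F),
      ∃ (ι : AlgebraicClosure k →ₐ[F] AlgebraicClosure (w.adicCompletion F))
        (A : ValuationSubring M) (φ : A →+* AlgebraicClosure (w.adicCompletion F)),
        Sel.IsPlaceOf s (w.adicCompletion F)
          (ι : _ →+* AlgebraicClosure (w.adicCompletion F)) A φ ∧ x ∉ A) :
    ∃ (A₀ : ValuationSubring M) (ψ₀ : A₀ →+* AlgebraicClosure k)
      (Δ : Subgroup Gal(AlgebraicClosure k/k)),
      IsOver A₀ ψ₀ ∧ IsOpen (Δ : Set Gal(AlgebraicClosure k/k)) ∧ ResOn s A₀ ψ₀ Δ ∧ x ∉ A₀ := by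
  classical
  have hfin : FiniteDimensional k F := FiniteDimensional.right ℚ k F
  have hFk : Algebra.IsAlgebraic F (AlgebraicClosure k) :=
    Algebra.IsAlgebraic.tower_top (K := k) F
  have : IsAlgClosure F (AlgebraicClosure k) := ⟨inferInstance, inferInstance⟩
  let e : AlgebraicClosure F ≃ₐ[F] AlgebraicClosure k :=
    IsAlgClosure.equiv F (AlgebraicClosure F) (AlgebraicClosure k)
  let iFb : Algebra (AlgebraicClosure F) M :=
    ((algebraMap (AlgebraicClosure k) M).comp (e : _ →+* AlgebraicClosure k)).toAlgebra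
  have he : ∀ a : AlgebraicClosure F, algebraMap (AlgebraicClosure F) M a =
      algebraMap (AlgebraicClosure k) M (e a) := fun _ => rfl
  have t3 : IsScalarTower k F M := IsScalarTower.of_algebraMap_eq fun a => by
    rw [IsScalarTower.algebraMap_apply F (AlgebraicClosure k) M,
      ← IsScalarTower.algebraMap_apply k F (AlgebraicClosure k),
      ← IsScalarTower.algebraMap_apply k (AlgebraicClosure k) M]
  have t4 : IsScalarTower F (AlgebraicClosure F) M := IsScalarTower.of_algebraMap_eq fun a => by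
    rw [he, AlgEquiv.commutes, ← IsScalarTower.algebraMap_apply]
  have hK0 : CharZero K := charZero_of_injective_algebraMap (algebraMap k K).injective
  have hKM : Algebra.IsAlgebraic K M := inferInstance
  -- transcendental functions
  have hxt : Transcendental F x := const_of_fixF s hsec e hxs hx
  have hxtk : Transcendental k x := fun h => hxt (h.tower_top F)
  obtain ⟨t, htR, ht⟩ : ∃ t : K, t ∈ R ∧ Transcendental k t := by
    by_contra hcon
    push Not at hcon
    apply hxtk
    have h1 : Algebra.IsAlgebraic k R := ⟨fun r => by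
      have h2 := hcon r r.2
      rw [Transcendental, not_not] at h2
      exact (isAlgebraic_algebraMap_iff (R := k) (S := R) (A := K) Subtype.val_injective).1 h2⟩
    have h3 : IsScalarTower k R M := IsScalarTower.of_algebraMap_eq fun a => by
      rw [IsScalarTower.algebraMap_apply k K M]; rfl
    exact IsAlgebraic.restrictScalars k (hxR.isAlgebraic)
  have hfrac : ∀ z : K, ∃ a b : R, (b : K) ≠ 0 ∧ z * b = a := by
    intro z
    obtain ⟨a, b, hab, hab'⟩ := frac_of_hom (Ω := K) R htr ⟨t, htR⟩ ht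
      (algebraMap (integralClosure R K) K) z
    refine ⟨⟨a, hRn _ a.2⟩, ⟨b, hRn _ b.2⟩, ?_, hab⟩
    rcases hab' with ha | hb
    · intro hb
      apply ha
      change (a : K) = 0
      rw [← hab, show (b : K) = 0 from hb, mul_zero]
    · exact hb
  -- the field `L₁`
  have hFL : ∀ a : F, algebraMap F M a ∈ fixF s F := by
    intro a σ hσ
    rw [IsScalarTower.algebraMap_apply F (AlgebraicClosure k) M, hsec, hσ]
  obtain ⟨L₁, hL₁L, hxL, hFL₁, hfd₁⟩ := exists_sub (k := k) (F := F) (fixF s F) hFL x hxs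
  let iFL : Algebra F L₁ := ((algebraMap F M).codRestrict L₁.toSubfield hFL₁).toAlgebra
  have t7 : IsScalarTower k L₁ M := IsScalarTower.of_algebraMap_eq fun a => rfl
  have t5 : IsScalarTower F L₁ M := IsScalarTower.of_algebraMap_eq fun a => rfl
  have t6 : IsScalarTower k F L₁ := IsScalarTower.of_algebraMap_eq fun a => by
    apply (algebraMap L₁ M).injective
    rw [← IsScalarTower.algebraMap_apply k L₁ M, ← IsScalarTower.algebraMap_apply F L₁ M,
      ← IsScalarTower.algebraMap_apply k F M]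
  have t8 : IsScalarTower R L₁ M := IsScalarTower.of_algebraMap_eq fun a => rfl
  have hL₁ : ∀ σ : Gal(AlgebraicClosure k/k),
      (∀ a : F, σ (algebraMap F _ a) = algebraMap F _ a) →
      ∀ x : L₁, s σ (algebraMap L₁ M x) = algebraMap L₁ M x :=
    fun σ hσ x => hL₁L x.2 σ hσ
  have htr' : Algebra.trdeg F L₁ = 1 := trdeg_fix (k := k) (K := K) (Ω := M) htr
  -- the ring
  let R₁ : Subalgebra F L₁ :=
    { (integralClosure R L₁).toSubsemiring with
      algebraMap_mem' := fun a => by
        have h1 : IsIntegral k a := Algebra.IsIntegral.isIntegral a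
        have h2 : IsIntegral k (algebraMap F L₁ a) := h1.algebraMap
        have h3 : IsScalarTower k R L₁ := IsScalarTower.of_algebraMap_eq fun a => by
          rw [IsScalarTower.algebraMap_apply k K L₁]; rfl
        exact h2.tower_top }
  have hmem₁ : ∀ z : L₁, z ∈ R₁ ↔ IsIntegral R z := fun z => Iff.rfl
  let iRR : Algebra R R₁ := ((algebraMap R L₁).codRestrict R₁.toSubring fun r => by
    change IsIntegral R (algebraMap R L₁ r)
    exact isIntegral_algebraMap).toAlgebra
  have t9 : IsScalarTower R R₁ L₁ := IsScalarTower.of_algebraMap_eq fun r => rfl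
  have t10 : IsScalarTower R R₁ M := IsScalarTower.of_algebraMap_eq fun r => rfl
  have hint₁ : Algebra.IsIntegral R R₁ := ⟨fun z => by
    have h1 : IsIntegral R (z : L₁) := (hmem₁ _).1 z.2
    exact (isIntegral_algebraMap_iff (R := R) (A := R₁) (B := L₁) Subtype.val_injective).1 h1⟩
  have hRR : ∀ z : M, IsIntegral R₁ z ↔ IsIntegral R z := fun z =>
    ⟨fun h => isIntegral_trans z h, fun h => h.tower_top⟩
  have hunit : unitRing R₁ M = unitRing R M := by
    rw [unitRing, unitRing]
    congr 1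
    ext z
    exact and_congr (hRR z) (hRR z⁻¹)
  have hR₁fg : R₁.FG := fg_closure (k := k) R hfg hRn hfrac R₁ hmem₁
  have hR₁n : ∀ z : L₁, IsIntegral R₁ z → z ∈ R₁ := fun z hz => isIntegral_trans z hz
  have hLM : ∀ z : L₁, IsIntegral R (z : M) → z ∈ R₁ := fun z hz =>
    (isIntegral_algebraMap_iff (algebraMap L₁ M).injective).1 hz
  -- the maximal unramified extension
  have hKL : ∀ x : K, ∃ y : L₁, algebraMap L₁ M y = algebraMap K M x :=
    fun x => ⟨algebraMap K L₁ x, rfl⟩
  have hM₁ : IsRadUnramOver R₁ L₁ M (AlgebraicClosure F) := by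
    refine radUnram_trans (e : AlgebraicClosure F ≃+* AlgebraicClosure k) he hKL R R₁
      (fun V hV => ⟨fun h r => h (algebraMap R R₁ r), fun h r => ?_⟩) hM
    have h5 : IsIntegral R ((r : L₁) : M) := ((hmem₁ _).1 r.2).algebraMap
    exact PTAux.mem_of_isIntegral (R := R) h h5
  -- the section over `F`
  have hs₁ := resS_continuous s e hL₁ hs
  have hsec₁ : ∀ (σ : Gal(AlgebraicClosure F/F)) (a : AlgebraicClosure F),
      resS s e hL₁ σ (algebraMap (AlgebraicClosure F) M a) =
        algebraMap (AlgebraicClosure F) M (σ a) := by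
    intro σ a
    rw [resS_apply, he, hsec, resG_apply, e.symm_apply_apply, he]
  have hupp : ∀ (w : HeightOneSpectrum (𝓞 F))
      (ι : AlgebraicClosure k →ₐ[F] AlgebraicClosure (w.adicCompletion F))
      (A : ValuationSubring M) (φ : A →+* AlgebraicClosure (w.adicCompletion F)),
      Sel.IsPlaceOf s (w.adicCompletion F)
        (ι : _ →+* AlgebraicClosure (w.adicCompletion F)) A φ →
      Sel.IsPlaceOf (resS s e hL₁) (w.adicCompletion F)
        ((ι.comp (e : AlgebraicClosure F →ₐ[F] AlgebraicClosure k) :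
          AlgebraicClosure F →ₐ[F] AlgebraicClosure (w.adicCompletion F)) :
          _ →+* AlgebraicClosure (w.adicCompletion F)) A φ :=
    fun w ι A φ h => placeOf_res e he s hL₁ h
  obtain ⟨Δ₁, A₀, ψ, hΔ₁, hO, hres, hno⟩ := affine_cuspG hg htr' (x := ⟨x, hxL⟩)
    (fun c hc => hx c (congrArg (algebraMap L₁ M) hc)) R₁ (resS s e hL₁) hs₁ hsec₁ hR₁fg hR₁n
    (hLM _ hxR) (hLM _ (by
      have h3 : algebraMap L₁ M (aeval (⟨x, hxL⟩ : L₁) g)⁻¹ = (aeval x g)⁻¹ := by
        rw [map_inv₀, ← aeval_algebraMap_apply]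
        rfl
      change IsIntegral R (algebraMap L₁ M (aeval (⟨x, hxL⟩ : L₁) g)⁻¹)
      rw [h3]
      exact hgR)) hM₁
    (fun w => by
      obtain ⟨ι, A, φ, h, h'⟩ := hloc w
      exact ⟨_, A, φ, hupp w ι A φ h, h'⟩)
  obtain ⟨h5, Δ, h6, h7, -⟩ := up_on s e he hL₁ hO Δ₁ hΔ₁ hres
  exact ⟨A₀, _, Δ, h5, h6, h7, hno⟩

end Pool.Agent.Lib.MP_2f3286_ag.UA.Rad
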