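import Pool.Agent.Lib.MP_2f3286_ag.UA.RX4
import Pool.Agent.Lib.MP_2f3286_ag.UA.GX5

/-!
# Geometric or cuspidal, for radically closed unramified extensions

The affine part of GX5, for `M/K` unramified over `R` and closed under radicals unramified over `R`.
-/

open Polynomial IsDedekindDomain NumberField
open scoped WithZero

noncomputable section

namespace Pool.Agent.Lib.MP_2f3286_ag.UA.Rad

open Pool.Agent.Lib.MP_2f3286_ag.HYP hiding affine_over over_dich
open Pool.Agent.Lib.MP_2f3286_ag.Pt Pool.Agent.Lib.MP_2f3286_ag.SNeigh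
  Pool.Agent.Lib.MP_2f3286_ag.SFull Pool.Agent.Lib.MP_2f3286_ag.Koe Pool.Agent.Lib.MP_2f3286_ag

universe u v

/-- **Geometric or cuspidal.** -/
theorem geo_or_cusp {k : Type u} [Field k] [NumberField k]
    {F : Type v} [Field F] [NumberField F] [Algebra k F]
    [Algebra F (AlgebraicClosure k)] [IsScalarTower k F (AlgebraicClosure k)]
    {g : F[X]} (hg : g.natDegree ≠ 0)
    {K : Type*} [Field K] [Algebra k K] (htr : Algebra.trdeg k K = 1)
    (R : Subalgebra k K) (hfg : R.FG) (hRn : ∀ h : K, IsIntegral R h → h ∈ R)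
    {M : Type*} [Field M] [Algebra K M] [IsGalois K M]
    [Algebra (AlgebraicClosure k) M] [Algebra k M]
    [IsScalarTower k K M] [IsScalarTower k (AlgebraicClosure k) M]
    [Algebra F M] [IsScalarTower F (AlgebraicClosure k) M]
    (hU : IsUnramOver R K M (AlgebraicClosure k)) (hrad : IsRadClosedOver R M (AlgebraicClosure k))
    (s : Gal(AlgebraicClosure k/k) →* Gal(M/K)) (hs : Continuous s)
    (hsec : ∀ σ a, s σ (algebraMap (AlgebraicClosure k) M a) =
      algebraMap (AlgebraicClosure k) M (σ a))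
    {x : M} (hfix : ∀ σ : Gal(AlgebraicClosure k/k),
      (∀ a : F, σ (algebraMap F _ a) = algebraMap F _ a) → s σ x = x)
    (hx : ∀ c : F, x ≠ algebraMap F M c)
    -- elements fixed by the section over `F`
    (S : Finset M) (hS : ∀ z ∈ S, ∀ σ : Gal(AlgebraicClosure k/k),
      (∀ a : F, σ (algebraMap F _ a) = algebraMap F _ a) → s σ z = z)
    (hxR : IsIntegral R x) (hgR : IsIntegral R (aeval x g)⁻¹)
    (hloc : ∀ w : HeightOneSpectrum (𝓞 F),
      ∃ (ι : AlgebraicClosure k →ₐ[F] AlgebraicClosure (w.adicCompletion F))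
        (A : ValuationSubring M) (φ : A →+* AlgebraicClosure (w.adicCompletion F)),
        Sel.IsPlaceOf s (w.adicCompletion F)
          (ι : _ →+* AlgebraicClosure (w.adicCompletion F)) A φ ∧
        (x ∈ A → (aeval x g)⁻¹ ∈ A → ∀ r : R, algebraMap K M r ∈ A))
    (hT : (∃ e : F, g.eval e ≠ 0 ∧ ∀ (w : HeightOneSpectrum (𝓞 F))
        (ι : AlgebraicClosure k →ₐ[F] AlgebraicClosure (w.adicCompletion F))
        (A : ValuationSubring M) (φ : A →+* AlgebraicClosure (w.adicCompletion F)),
        Sel.IsPlaceOf s (w.adicCompletion F)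
          (ι : _ →+* AlgebraicClosure (w.adicCompletion F)) A φ →
        ∃ h : x ∈ A, φ ⟨x, h⟩ = ι (algebraMap F _ e)) ∨
      ∀ (w : HeightOneSpectrum (𝓞 F))
        (ι : AlgebraicClosure k →ₐ[F] AlgebraicClosure (w.adicCompletion F))
        (A : ValuationSubring M) (φ : A →+* AlgebraicClosure (w.adicCompletion F)),
        Sel.IsPlaceOf s (w.adicCompletion F)
          (ι : _ →+* AlgebraicClosure (w.adicCompletion F)) A φ → x ∉ A) :
    ∃ (A₀ : ValuationSubring M) (ψ₀ : A₀ →+* AlgebraicClosure k),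
      -- (G)
      ((∀ r : R, algebraMap K M r ∈ A₀) ∧ Sel.IsSectionAt s A₀ ψ₀ ∧
        (∀ (A₁ : ValuationSubring M) (ψ₁ : A₁ →+* AlgebraicClosure k), Sel.IsSectionAt s A₁ ψ₁ →
          (∀ (r : R) (h₀ : algebraMap K M r ∈ A₀), ∃ h₁ : algebraMap K M r ∈ A₁,
            algebraMap K M r ∈ unitRing R M ∨ ψ₁ ⟨_, h₁⟩ = ψ₀ ⟨_, h₀⟩) →
          A₁ = A₀ ∧ ∀ (a : A₁) (b : A₀), (a : M) = b → ψ₁ a = ψ₀ b) ∧
        (∀ h : K, algebraMap K M h ∈ unitRing R M → HasValOver s R F A₀ ψ₀ h) ∧
        -- values of the elements of `F(S)`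
        (∀ z ∈ IntermediateField.adjoin F (S : Set M), z ∈ unitRing R M →
          HasValM s R F A₀ ψ₀ z) ∧
        HasValM s R F A₀ ψ₀ x ∧
        (∀ (w : HeightOneSpectrum (𝓞 F))
          (ι : AlgebraicClosure k →ₐ[F] AlgebraicClosure (w.adicCompletion F))
          (A : ValuationSubring M) (φ : A →+* AlgebraicClosure (w.adicCompletion F)),
          Sel.IsPlaceOf s (w.adicCompletion F)
            (ι : _ →+* AlgebraicClosure (w.adicCompletion F)) A φ →
          x ∈ A ∧ (aeval x g)⁻¹ ∈ A) ∧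
        ((∀ r : R, algebraMap K M r ∈ unitRing R M) →
          Sel.IsPlaceOf s k (RingHom.id _) A₀ ψ₀)) ∨
      -- (C)
      (x ∉ A₀ ∧
        (∀ (w : HeightOneSpectrum (𝓞 F))
          (ι : AlgebraicClosure k →ₐ[F] AlgebraicClosure (w.adicCompletion F))
          (A : ValuationSubring M) (φ : A →+* AlgebraicClosure (w.adicCompletion F)),
          Sel.IsPlaceOf s (w.adicCompletion F)
            (ι : _ →+* AlgebraicClosure (w.adicCompletion F)) A φ → x ∉ A) ∧
        ∃ E : IntermediateField k (AlgebraicClosure k), FiniteDimensional k E ∧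
          Sel.IsPlaceOf s E (RingHom.id _) A₀ ψ₀) := by
  classical
  have hM : IsRadUnramOver R K M (AlgebraicClosure k) := ⟨hU, hrad⟩
  have hxs : x ∈ fixF s F := hfix
  have hSs : ∀ z ∈ insert x S, z ∈ fixF s F := by
    intro z hz
    rcases Finset.mem_insert.1 hz with rfl | hz
    · exact hxs
    · exact hS z hz
  have hadj : ∀ z ∈ IntermediateField.adjoin F (S : Set M),
      z ∈ IntermediateField.adjoin F ((insert x S : Finset M) : Set M) := by
    intro z hz
    refine IntermediateField.adjoin.mono F _ _ ?_ hz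
    rw [Finset.coe_insert]
    exact Set.subset_insert _ _
  have hxadj : x ∈ IntermediateField.adjoin F ((insert x S : Finset M) : Set M) :=
    IntermediateField.subset_adjoin F _ (Finset.mem_coe.2 (Finset.mem_insert_self x S))
  have hT' : SameVal s F x := hT.imp (fun ⟨e, _, h⟩ => ⟨e, h⟩) id
  have hfin : FiniteDimensional k F := FiniteDimensional.right ℚ k F
  have hFk : Algebra.IsAlgebraic F (AlgebraicClosure k) :=
    Algebra.IsAlgebraic.tower_top (K := k) F
  have : IsAlgClosure F (AlgebraicClosure k) := ⟨inferInstance, inferInstance⟩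
  let e : AlgebraicClosure F ≃ₐ[F] AlgebraicClosure k :=
    IsAlgClosure.equiv F (AlgebraicClosure F) (AlgebraicClosure k)
  have hxt := const_of_fixF s hsec e hxs hx
  have hgx0 : aeval x g ≠ 0 := fun h0 => hxt ⟨g, fun h => hg (by rw [h, natDegree_zero]), h0⟩
  have hFA : ∀ {A : ValuationSubring M}, (∀ a : AlgebraicClosure k,
      algebraMap (AlgebraicClosure k) M a ∈ A) → ∀ a : F, algebraMap F M a ∈ A := by
    intro A hA a
    rw [IsScalarTower.algebraMap_apply F (AlgebraicClosure k) M]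
    exact hA _
  rcases hT with ⟨e₀, he0, key⟩ | key
  · have hin : ∀ (w : HeightOneSpectrum (𝓞 F))
        (ι : AlgebraicClosure k →ₐ[F] AlgebraicClosure (w.adicCompletion F))
        (A : ValuationSubring M) (φ : A →+* AlgebraicClosure (w.adicCompletion F)),
        Sel.IsPlaceOf s (w.adicCompletion F)
          (ι : _ →+* AlgebraicClosure (w.adicCompletion F)) A φ → x ∈ A ∧ (aeval x g)⁻¹ ∈ A := by
      intro w ι A φ h
      obtain ⟨g1, g2⟩ := key w ι A φ h
      refine ⟨g1, ?_⟩
      have hkA₂ : ∀ c : F, ∃ h : algebraMap F M c ∈ A, φ ⟨_, h⟩ = ι (algebraMap F _ c) := by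
        intro c
        obtain ⟨g7, g8⟩ := h.1 (algebraMap F _ c)
        refine ⟨hFA (fun a => (h.1 a).1) c, ?_⟩
        refine Eq.trans (congrArg φ (Subtype.ext ?_)) g8
        exact IsScalarTower.algebraMap_apply F (AlgebraicClosure k) M c
      have hqA : ∀ p : F[X], ∃ hp : aeval x p ∈ A,
          φ ⟨_, hp⟩ = ι (algebraMap F _ (p.eval e₀)) := by
        intro p
        induction p using Polynomial.induction_on' with
        | add p₁ p₂ h₁ h₂ =>
          obtain ⟨a1, a2⟩ := h₁
          obtain ⟨a3, a4⟩ := h₂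
          refine ⟨by rw [map_add]; exact add_mem a1 a3, ?_⟩
          have a5 : φ (⟨_, a1⟩ + ⟨_, a3⟩) = ι (algebraMap F _ ((p₁ + p₂).eval e₀)) := by
            rw [map_add, a2, a4, eval_add, map_add, map_add]
          rw [← a5]
          congr 1
          exact Subtype.ext (map_add _ _ _)
        | monomial n a =>
          obtain ⟨a1, a2⟩ := hkA₂ a
          have a3 : aeval x (monomial n a) = algebraMap F M a * x ^ n := by
            rw [aeval_monomial]
          refine ⟨by rw [a3]; exact mul_mem a1 (pow_mem g1 n), ?_⟩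
          have a5 : φ (⟨_, a1⟩ * ⟨_, g1⟩ ^ n) = ι (algebraMap F _ ((monomial n a).eval e₀)) := by
            rw [map_mul, map_pow, a2, g2, eval_monomial, map_mul, map_mul, map_pow, map_pow]
          rw [← a5]
          congr 1
          exact Subtype.ext a3
      obtain ⟨g4, g5⟩ := hqA g
      refine h.2.1 ⟨_, g4⟩ ?_
      rw [g5, Ne, _root_.map_eq_zero, _root_.map_eq_zero]
      exact he0
    have hloc' : ∀ w : HeightOneSpectrum (𝓞 F),
        ∃ (ι : AlgebraicClosure k →ₐ[F] AlgebraicClosure (w.adicCompletion F))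
          (A : ValuationSubring M) (φ : A →+* AlgebraicClosure (w.adicCompletion F)),
          IsPointOn s R (w.adicCompletion F)
            (ι : _ →+* AlgebraicClosure (w.adicCompletion F)) A φ := by
      intro w
      obtain ⟨ι, A, φ, h, h'⟩ := hloc w
      obtain ⟨h3, h4⟩ := hin w ι A φ h
      exact ⟨ι, A, φ, h, h' h3 h4⟩
    obtain ⟨A₀, ψ₀, h1, h2, h3, h4, h4', h5⟩ := affine_overG hg htr R hfg hRn hM s hs hsec hxs
      hx (insert x S) hSs hxR hgR hloc' hT'
    exact ⟨A₀, ψ₀, Or.inl ⟨h1, h2, h3, h4, fun z hz => h4' z (hadj z hz),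
      h4' x hxadj (mem_unitRing_of hg R hxR hgR hgx0), hin, h5⟩⟩
  · -- the cuspidal case
    have hlocx : ∀ w : HeightOneSpectrum (𝓞 F),
        ∃ (ι : AlgebraicClosure k →ₐ[F] AlgebraicClosure (w.adicCompletion F))
          (A : ValuationSubring M) (φ : A →+* AlgebraicClosure (w.adicCompletion F)),
          Sel.IsPlaceOf s (w.adicCompletion F)
            (ι : _ →+* AlgebraicClosure (w.adicCompletion F)) A φ ∧ x ∉ A := by
      intro w
      obtain ⟨ι, A, φ, h, -⟩ := hloc w
      exact ⟨ι, A, φ, h, key w ι A φ h⟩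
    obtain ⟨A₀, ψ₀, Δ, hO, hΔ, hr, hxA⟩ := cusp_overG hg htr R hfg hRn hM s hs hsec hxs hx hxR
      hgR hlocx
    exact ⟨A₀, ψ₀, Or.inr ⟨hxA, key, exists_field hO hΔ hr⟩⟩

end Pool.Agent.Lib.MP_2f3286_ag.UA.Rad
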