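import Pool.Agent.Lib.MP_2f3286_ag.UA.XF
import Pool.Agent.Lib.MP_2f3286_ag.UA.RX6

/-!
# Affine curves, for radically closed unramified extensions

As XF.
-/

open WeierstrassCurve WeierstrassCurve.Affine WeierstrassCurve.Affine.Point
open IsDedekindDomain NumberField Polynomial
open scoped WithZero
open Pool.Agent.Lib.MP_2f3286_ag
open Pool.Agent.Lib.MP_2f3286_ag.HYP hiding affine_over over_dich

namespace Pool.Agent.Lib.MP_2f3286_ag.UA.Rad

universe u v

open scoped Classical in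
/-- **Affine curves**: a section fixing a nonconstant point of an elliptic curve with finitely many
points and finite `p`-part of the Tate-Shafarevich group, away from the points of `p`-power order. -/
theorem one_curve {k : Type u} [Field k] [NumberField k]
    {F : Type v} [Field F] [NumberField F] [Algebra k F]
    [Algebra F (AlgebraicClosure k)] [IsScalarTower k F (AlgebraicClosure k)]
    (W : WeierstrassCurve F) [W.IsShortNF]
    [W.IsElliptic] (hrk : ∀ Q : (W⁄F).Point, IsOfFinAddOrder Q) {p : ℕ} (hp : p.Prime) {j : ℕ}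
    (hsha : ShaKilledByPow W p j)
    {K : Type*} [Field K] [Algebra k K] (htr : Algebra.trdeg k K = 1)
    (R : Subalgebra k K) (hfg : R.FG) (hRn : ∀ h : K, IsIntegral R h → h ∈ R)
    {M : Type*} [Field M] [Algebra K M] [IsGalois K M]
    [Algebra (AlgebraicClosure k) M] [Algebra k M]
    [IsScalarTower k K M] [IsScalarTower k (AlgebraicClosure k) M]
    [Algebra F M] [IsScalarTower F (AlgebraicClosure k) M]
    (hU : Pt.IsUnramOver R K M (AlgebraicClosure k))
    (hrad : Pt.IsRadClosedOver R M (AlgebraicClosure k))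
    (hdiv : ∀ (n : ℕ) (T₀ : (W⁄M).Point), ∃ T : (W⁄M).Point, p ^ n • T = T₀)
    (s : Gal(AlgebraicClosure k/k) →* Gal(M/K)) (hs : Continuous s)
    (hsec : ∀ σ a, s σ (algebraMap (AlgebraicClosure k) M a) =
      algebraMap (AlgebraicClosure k) M (σ a))
    {x y : M} (hfix : ∀ σ : Gal(AlgebraicClosure k/k),
      (∀ a : F, σ (algebraMap F _ a) = algebraMap F _ a) → s σ x = x ∧ s σ y = y)
    (hxy : (W⁄M).Nonsingular x y) (hx : ∀ c : F, x ≠ algebraMap F M c)
    (hon : OnE W p x (IsIntegral R))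
    (hloc : ∀ w : HeightOneSpectrum (𝓞 F),
      ∃ (ι : AlgebraicClosure k →ₐ[F] AlgebraicClosure (w.adicCompletion F))
        (A : ValuationSubring M) (φ : A →+* AlgebraicClosure (w.adicCompletion F)),
        Sel.IsPlaceOf s (w.adicCompletion F)
          (ι : _ →+* AlgebraicClosure (w.adicCompletion F)) A φ ∧
        (OnE W p x (· ∈ A) → ∀ r : R, algebraMap K M r ∈ A)) :
    ∃ (A₀ : ValuationSubring M) (ψ₀ : A₀ →+* AlgebraicClosure k),
      ((((∀ r : R, algebraMap K M r ∈ A₀) ∧ Sel.IsSectionAt s A₀ ψ₀ ∧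
        (∀ (A₁ : ValuationSubring M) (ψ₁ : A₁ →+* AlgebraicClosure k), Sel.IsSectionAt s A₁ ψ₁ →
          (∀ (r : R) (h₀ : algebraMap K M r ∈ A₀), ∃ h₁ : algebraMap K M r ∈ A₁,
            algebraMap K M r ∈ unitRing R M ∨ ψ₁ ⟨_, h₁⟩ = ψ₀ ⟨_, h₀⟩) →
          A₁ = A₀ ∧ ∀ (a : A₁) (b : A₀), (a : M) = b → ψ₁ a = ψ₀ b) ∧
        (∀ h : K, algebraMap K M h ∈ A₀ → algebraMap K M h ∈ unitRing R M →
          HasValOver s R F A₀ ψ₀ h) ∧
        ((∀ r : R, algebraMap K M r ∈ unitRing R M) →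
          Sel.IsPlaceOf s k (RingHom.id _) A₀ ψ₀)) ∨
      (¬ OnE W p x (· ∈ A₀) ∧
        ∃ E : IntermediateField k (AlgebraicClosure k), FiniteDimensional k E ∧
          Sel.IsPlaceOf s E (RingHom.id _) A₀ ψ₀)) ∧
      (∀ (w : HeightOneSpectrum (𝓞 F))
        (ι : AlgebraicClosure k →ₐ[F] AlgebraicClosure (w.adicCompletion F))
        (A : ValuationSubring M) (φ : A →+* AlgebraicClosure (w.adicCompletion F)),
        Sel.IsPlaceOf s (w.adicCompletion F)
          (ι : _ →+* AlgebraicClosure (w.adicCompletion F)) A φ →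
        (OnE W p x (· ∈ A) ↔ OnE W p x (· ∈ A₀)))) ∧
      -- the point of which `(x, y)` is a multiple
      ∃ (Q : (W⁄F).Point) (x₁ y₁ : M) (h₁ : (W⁄M).Nonsingular x₁ y₁),
        (∃ m : ℕ, p ^ m • Q = 0) ∧
        (∀ σ : Gal(AlgebraicClosure k/k),
          (∀ a : F, σ (algebraMap F _ a) = algebraMap F _ a) → s σ x₁ = x₁ ∧ s σ y₁ = y₁) ∧
        p • (some x₁ y₁ h₁ : (W⁄M).Point) = some x y hxy - Point.baseChange F M Q ∧
        (∀ c : AlgebraicClosure k, x₁ ≠ algebraMap (AlgebraicClosure k) M c) ∧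
        IsIntegral R x₁ ∧ ((∀ r : R, algebraMap K M r ∈ A₀) ∨ x₁ ∉ A₀) := by
  obtain ⟨Q, x₁, y₁, h₁, g, hQ, hfix₁, hmul, hc, hgm, hgd, hx₁R, hgR, halt⟩ :=
    arith W hrk hp hsha htr R s hs hsec hfix hxy hx hrad hdiv hon.1 hon.2 fun w => by
      obtain ⟨ι, A, φ, h, -⟩ := hloc w
      exact ⟨ι, A, φ, h⟩
  have hc' : ∀ c : F, x₁ ≠ algebraMap F M c := fun c => by
    rw [IsScalarTower.algebraMap_apply F (AlgebraicClosure k) M]
    exact hc _
  have hFA : ∀ {A : ValuationSubring M}, (∀ a : AlgebraicClosure k,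
      algebraMap (AlgebraicClosure k) M a ∈ A) → ∀ a : F, algebraMap F M a ∈ A := by
    intro A hA a
    rw [IsScalarTower.algebraMap_apply F (AlgebraicClosure k) M]
    exact hA _
  -- the point at the local places
  have honA : ∀ {A : ValuationSubring M}, (∀ r : R, algebraMap K M r ∈ A) → OnE W p x (· ∈ A) :=
    fun hA => ⟨Pt.PTAux.mem_of_isIntegral (R := R) hA hon.1, fun c e h hm =>
      Pt.PTAux.mem_of_isIntegral (R := R) hA (hon.2 c e h hm)⟩
  have hnot : ∀ {A : ValuationSubring M}, (∀ a : AlgebraicClosure k,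
      algebraMap (AlgebraicClosure k) M a ∈ A) → x₁ ∉ A → ¬ OnE W p x (· ∈ A) := fun hA h =>
    not_on_of_notMem W _ (hFA hA) hxy h₁ hx hQ hmul h
  have hw : Nonempty (HeightOneSpectrum (𝓞 F)) := nonempty_primes F
  obtain ⟨A₀, ψ₀, h1⟩ := geo_or_cusp (g := g) hgd.ne' htr R hfg hRn hU hrad s hs hsec
    (x := x₁) (fun σ hσ => (hfix₁ σ hσ).1) hc' ∅ (fun z hz => absurd hz (Finset.notMem_empty z))
    hx₁R hgR (fun w => by
      obtain ⟨ι, A, φ, h, h'⟩ := hloc w
      refine ⟨ι, A, φ, h, fun h2 _ => h' ?_⟩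
      rcases halt with ⟨e, -, h3⟩ | h3
      · exact (h3 w ι A φ h).2
      · exact absurd h2 (h3 w ι A φ h))
    (halt.imp (fun ⟨e, he, h⟩ => ⟨e, he, fun w ι A φ hA => (h w ι A φ hA).1⟩) id)
  refine ⟨A₀, ψ₀, ?_, Q, x₁, y₁, h₁, hQ, hfix₁, hmul, hc, hx₁R, ?_⟩
  · rcases h1 with ⟨g1, g2, g3, g4, -, -, g5, g7⟩ | ⟨g1, g2, E, g3, g4⟩
    · have g8 : ∀ (w : HeightOneSpectrum (𝓞 F))
          (ι : AlgebraicClosure k →ₐ[F] AlgebraicClosure (w.adicCompletion F))
          (A : ValuationSubring M) (φ : A →+* AlgebraicClosure (w.adicCompletion F)),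
          Sel.IsPlaceOf s (w.adicCompletion F)
            (ι : _ →+* AlgebraicClosure (w.adicCompletion F)) A φ → OnE W p x (· ∈ A) := by
        intro w ι A φ hA
        rcases halt with ⟨e, -, h3⟩ | h3
        · exact (h3 w ι A φ hA).2
        · exact absurd (g5 w ι A φ hA).1 (h3 w ι A φ hA)
      exact ⟨Or.inl ⟨g1, g2, g3, fun h _ h3 => g4 h h3, g7⟩,
        fun w ι A φ hA => ⟨fun _ => honA g1, fun _ => g8 w ι A φ hA⟩⟩
    · have g5 : ¬ OnE W p x (· ∈ A₀) := hnot (fun a => (g4.1 a).1) g1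
      exact ⟨Or.inr ⟨g5, E, g3, g4⟩, fun w ι A φ hA => iff_of_false
        (hnot (fun a => (hA.1 a).1) (g2 w ι A φ hA)) g5⟩
  · rcases h1 with ⟨g1, -⟩ | ⟨g1, -⟩
    · exact Or.inl g1
    · exact Or.inr g1

end Pool.Agent.Lib.MP_2f3286_ag.UA.Rad
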