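import Pool.Agent.Lib.MP_2f3286_bir.Uniq

/-!
# A section has at most one place, for a field closed under `n`-th roots

As MP_2f3286_bir/Uniq.
-/

open IsDedekindDomain NumberField
open Pool.Agent.Lib.MP_2f3286_ag Pool.Agent.Lib.MP_2f3286_bir

namespace Pool.Agent.Lib.MP_2f3286_ag.UA

theorem place_uniqueR {k : Type*} [Field k] [NumberField k] {K : Type*} [Field K] [Algebra k K]
    {Ω : Type*} [Field Ω] (hrt : ∀ n : ℕ, 1 ≤ n → ∀ x : Ω, ∃ y : Ω, y ^ n = x) [Algebra K Ω]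
    [Algebra.IsAlgebraic K Ω] [Algebra (AlgebraicClosure k) Ω]
    (s : Gal(AlgebraicClosure k/k) →* Gal(Ω/K)) (hs : Continuous s)
    {A₀ A₁ : ValuationSubring Ω} {φ₀ : A₀ →+* AlgebraicClosure k} {φ₁ : A₁ →+* AlgebraicClosure k}
    (h₀ : IsPlaceOf s k (RingHom.id _) A₀ φ₀) (h₁ : IsPlaceOf s k (RingHom.id _) A₁ φ₁) :
    A₁ = A₀ ∧ ∀ (x : A₁) (y : A₀), (x : Ω) = y → φ₁ x = φ₀ y := by
  classical
  -- agreement on units
  have key : ∀ (b : Ω) (hb₀ : b ∈ A₀) (hb₁ : b ∈ A₁), φ₀ ⟨b, hb₀⟩ ≠ 0 → φ₁ ⟨b, hb₁⟩ ≠ 0 →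
      φ₁ ⟨b, hb₁⟩ = φ₀ ⟨b, hb₀⟩ := by
    intro b hb₀ hb₁ hne₀ hne₁
    have hb0 : b ≠ 0 := by
      rintro rfl
      exact hne₀ (map_zero φ₀)
    obtain ⟨T, hT1, hTn, hTc⟩ := exists_roots_compatible (M := Ω) (b := b) (fun n hn =>
      hrt n hn b)
    have hroot : ∀ (A : ValuationSubring Ω) (c : Ω) (n : ℕ), 1 ≤ n → c ^ n ∈ A → c ∈ A := by
      intro A c n hn hc
      rcases A.mem_or_inv_mem c with h | h
      · exact h
      · by_cases hc0 : c = 0
        · rw [hc0]; exact zero_mem _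
        have h2 : c = c ^ n * (c⁻¹) ^ (n - 1) := by
          obtain ⟨m, rfl⟩ : ∃ m, n = m + 1 := ⟨n - 1, by omega⟩
          rw [Nat.add_sub_cancel, pow_succ, inv_pow]
          field_simp
        rw [h2]
        exact mul_mem hc (pow_mem h _)
    have hT₀ : ∀ n, 1 ≤ n → T n ∈ A₀ := fun n hn => hroot A₀ _ n hn (by rw [hTn n hn]; exact hb₀)
    have hT₁ : ∀ n, 1 ≤ n → T n ∈ A₁ := fun n hn => hroot A₁ _ n hn (by rw [hTn n hn]; exact hb₁)
    obtain ⟨L, hL, hLn, hLb, -⟩ := exists_level s hs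
      (Algebra.IsAlgebraic.isAlgebraic (R := K) b).isIntegral ∅
    have hLnf : NumberField L := NumberField.of_module_finite k L
    let y : ℕ → AlgebraicClosure k := fun n => if hn : 1 ≤ n then φ₀ ⟨T n, hT₀ n hn⟩ else 0
    have hy : ∀ n (hn : 1 ≤ n), y n = φ₀ ⟨T n, hT₀ n hn⟩ := fun n hn => dif_pos hn
    have hT0 : ∀ n, 1 ≤ n → T n ≠ 0 := by
      intro n hn h
      have := hTn n hn
      rw [h, zero_pow (by omega)] at this
      exact hb0 this.symm
    have hval : IsVal s L T y := by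
      refine ⟨?_, ?_, ?_, ?_⟩
      · intro n hn
        rw [hy n hn, hy 1 le_rfl, ← map_pow]
        congr 1
        apply Subtype.ext
        change T n ^ n = T 1
        rw [hTn n hn, hT1]
      · rw [hy 1 le_rfl]
        have : (⟨T 1, hT₀ 1 le_rfl⟩ : A₀) = ⟨b, hb₀⟩ := Subtype.ext hT1
        rw [this]; exact hne₀
      · intro σ hσ n hn
        have h2 : (s σ (T n) / T n) ^ n = 1 := by
          rw [div_pow, ← map_pow, hTn n hn, hLb σ hσ, div_self hb0]
        obtain ⟨c, hc⟩ := root_of_unity_mem (AlgebraicClosure k) Ω hn h2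
        exact ⟨c, by rw [hc, div_mul_cancel₀ _ (hT0 n hn)]⟩
      · intro σ hσ n hn ζ hζ
        rw [hy n hn]
        obtain ⟨h3, h4⟩ := h₀.2.2 σ σ (fun _ => rfl) ⟨T n, hT₀ n hn⟩
        obtain ⟨h5, h6⟩ := h₀.1 ζ
        rw [← h4]
        have h7 : (⟨s σ (T n), h3⟩ : A₀) = ⟨_, h5⟩ * ⟨T n, hT₀ n hn⟩ := Subtype.ext hζ
        rw [h7, map_mul, h6]
        rfl
    let B : Subring Ω := A₀.toSubring ⊓ A₁.toSubring
    let φB : B →+* AlgebraicClosure k := φ₁.comp
      (Subring.inclusion (inf_le_right : B ≤ A₁.toSubring))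
    have hBk : ∀ a : AlgebraicClosure k, algebraMap _ Ω a ∈ B := fun a => ⟨(h₀.1 a).1, (h₁.1 a).1⟩
    have hR : Resp s L (RingHom.id (AlgebraicClosure k)) φB := by
      refine ⟨?_, ?_⟩
      · intro a c hc
        obtain ⟨h3, h4⟩ := h₁.1 a
        have : φB c = φ₁ ⟨(c : Ω), c.2.2⟩ := rfl
        rw [this]
        have h5 : (⟨(c : Ω), c.2.2⟩ : A₁) = ⟨_, h3⟩ := Subtype.ext hc
        rw [h5, h4]
      · intro σ τ hστ c c' hc
        obtain ⟨h3, h4⟩ := h₁.2.2 σ σ (fun _ => rfl) ⟨(c : Ω), c.2.2⟩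
        have e1 : φB c' = φ₁ ⟨(c' : Ω), c'.2.2⟩ := rfl
        have e2 : φB c = φ₁ ⟨(c : Ω), c.2.2⟩ := rfl
        rw [e1, e2]
        have h5 : (⟨(c' : Ω), c'.2.2⟩ : A₁) = ⟨_, h3⟩ := Subtype.ext hc
        rw [h5, h4]
        exact hστ _
    let T' : ℕ → B := fun n => if hn : 1 ≤ n then ⟨T n, hT₀ n hn, hT₁ n hn⟩ else 0
    have hT' : ∀ n, 1 ≤ n → (T' n : Ω) = T n := by
      intro n hn; simp only [T', dif_pos hn]
    have hval' : IsVal s L (fun n => (T' n : Ω)) y := by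
      obtain ⟨g1, g2, g3, g4⟩ := hval
      exact ⟨g1, g2, fun σ hσ n hn => by simp only [hT' n hn]; exact g3 σ hσ n hn,
        fun σ hσ n hn ζ hζ => g4 σ hσ n hn ζ (by simpa only [hT' n hn] using hζ)⟩
    obtain ⟨w⟩ : Nonempty (HeightOneSpectrum (𝓞 L)) := by
      obtain ⟨w, -⟩ := exists_notMem (k := L) ∅
      exact ⟨w⟩
    have h2 := hval'.eq (B := B) hBk T' (fun n => rfl) (fun n hn => by
        apply Subtype.ext
        rw [SubmonoidClass.coe_pow, hT' n hn, hT' 1 le_rfl, hTn n hn, hT1])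
      (F := L) (Fb := AlgebraicClosure k) (ι := RingHom.id _) (φ := φB) hR
      (fun x => ⟨x, rfl⟩) (by
        have e1 : φB (T' 1) = φ₁ ⟨(T' 1 : Ω), (T' 1).2.2⟩ := rfl
        rw [e1]
        have h5 : (⟨(T' 1 : Ω), (T' 1).2.2⟩ : A₁) = ⟨b, hb₁⟩ :=
          Subtype.ext ((hT' 1 le_rfl).trans hT1)
        rw [h5]; exact hne₁)
      (by
        intro z hz0 hz
        have h5 := eq_one_of_divisible w (y := algebraMap L (w.adicCompletion L) z)
          (by rw [map_ne_zero]; exact hz0) (fun n hn => by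
            obtain ⟨z', hz'⟩ := hz n hn
            exact ⟨algebraMap L _ z', by rw [← map_pow, hz']⟩)
        rw [← map_one (algebraMap L (w.adicCompletion L))] at h5
        exact (algebraMap L (w.adicCompletion L)).injective h5)
    have e1 : φB (T' 1) = φ₁ ⟨(T' 1 : Ω), (T' 1).2.2⟩ := rfl
    have h5 : (⟨(T' 1 : Ω), (T' 1).2.2⟩ : A₁) = ⟨b, hb₁⟩ :=
      Subtype.ext ((hT' 1 le_rfl).trans hT1)
    have h6 : (⟨T 1, hT₀ 1 le_rfl⟩ : A₀) = ⟨b, hb₀⟩ := Subtype.ext hT1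
    rw [e1, h5, hy 1 le_rfl, h6] at h2
    exact h2
  have hchar : CharZero (AlgebraicClosure k) := charZero_of_injective_algebraMap
    (algebraMap k (AlgebraicClosure k)).injective
  have hcomp : A₀ ≤ A₁ ∨ A₁ ≤ A₀ := by
    by_contra hcon
    push Not at hcon
    obtain ⟨b, hb₀, hb₁, e₀, e₁⟩ := exists_sep h₀ h₁ hcon.1 hcon.2
    have := key b hb₀ hb₁ (by rw [e₀]; exact one_ne_zero) (by rw [e₁]; exact two_ne_zero)
    rw [e₀, e₁] at this
    norm_num at this
  have hEq : A₁ = A₀ := by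
    rcases hcomp with h | h
    · exact le_antisymm (le_of_le h₀ h₁ h) h
    · exact le_antisymm h (le_of_le h₁ h₀ h)
  refine ⟨hEq, ?_⟩
  subst hEq
  intro x y hxy
  obtain rfl : x = y := Subtype.ext hxy
  by_cases hx0 : φ₀ x = 0
  · have h1 : φ₀ (x + 1) = 1 := by rw [map_add, hx0, map_one, zero_add]
    by_cases hx1 : φ₁ (x + 1) = 0
    · -- then `x` has value `-1` for `φ₁`; use `x + 2`
      have h2 : φ₁ x = -1 := by
        rw [map_add, map_one] at hx1
        exact eq_neg_of_add_eq_zero_left hx1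
      have h3 : φ₀ (x + 2) = 2 := by rw [map_add, hx0, map_ofNat, zero_add]
      have h4 : φ₁ (x + 2) = 1 := by rw [map_add, h2, map_ofNat]; norm_num
      have h5 := key _ (x + 2).2 (x + 2).2 (by
        change φ₀ (x + 2) ≠ 0
        rw [h3]; exact two_ne_zero) (by
        change φ₁ (x + 2) ≠ 0
        rw [h4]; exact one_ne_zero)
      change φ₁ (x + 2) = φ₀ (x + 2) at h5
      rw [h3, h4] at h5
      norm_num at h5
    · have h5 := key _ (x + 1).2 (x + 1).2 (by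
        change φ₀ (x + 1) ≠ 0
        rw [h1]; exact one_ne_zero) hx1
      change φ₁ (x + 1) = φ₀ (x + 1) at h5
      rw [map_add, map_add, map_one, map_one] at h5
      exact add_right_cancel h5
  · by_cases hx1 : φ₁ x = 0
    · -- symmetric
      exfalso
      have hinv := h₀.2.1 x hx0
      have hxne : (x : Ω) ≠ 0 := by
        intro h
        apply hx0
        have : x = 0 := Subtype.ext h
        rw [this, map_zero]
      have h2 : x * ⟨(x : Ω)⁻¹, hinv⟩ = 1 := Subtype.ext (mul_inv_cancel₀ hxne)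
      have h3 := congrArg φ₁ h2
      rw [map_mul, hx1, zero_mul, map_one] at h3
      exact zero_ne_one h3
    · exact key _ x.2 x.2 hx0 hx1

end Pool.Agent.Lib.MP_2f3286_ag.UA
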