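import Pool.Agent.Lib.MP_2f3286_ag.Top.CurveFinal
import Pool.Agent.Lib.MP_2f3286_ag.UA.S1

/-!
# From one global value to the full place, for a field closed under `n`-th roots

As Top/Bir.
-/

open IsDedekindDomain NumberField
open Pool.Agent.Lib.MP_2f3286_ag Pool.Agent.Lib.MP_2f3286_ag.Top
open Pool.Agent.Lib.MP_2f3286_bir

namespace Pool.Agent.Lib.MP_2f3286_ag.UA

/-- integral elements of a field closed under square roots are sums of units -/
theorem mem_unitRingR {R Ω : Type*} [CommRing R] [Field Ω] [CharZero Ω]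
    (hsq : ∀ x : Ω, ∃ y : Ω, y ^ 2 = x) [Algebra R Ω] {c : Ω}
    (hc : IsIntegral R c) : c ∈ unitRing R Ω := by
  obtain ⟨d, hd⟩ := hsq (c ^ 2 - 4)
  obtain ⟨x, hx⟩ : ∃ x : Ω, x ^ 2 - c * x + 1 = 0 := by
    refine ⟨(c + d) / 2, ?_⟩
    linear_combination hd / 4
  have hx1 : x * (c - x) = 1 := by linear_combination -hx
  have hx0 : x ≠ 0 := by
    rintro rfl
    rw [zero_mul] at hx1
    exact zero_ne_one hx1
  have hinv : x⁻¹ = c - x := inv_eq_of_mul_eq_one_right hx1
  have hxint : IsIntegral R x := by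
    have h1 : IsIntegral (integralClosure R Ω) x := by
      refine ⟨Polynomial.X ^ 2 - Polynomial.C ⟨c, hc⟩ * Polynomial.X + 1, ?_, ?_⟩
      · monicity!
      · simp only [Polynomial.eval₂_add, Polynomial.eval₂_sub, Polynomial.eval₂_pow,
          Polynomial.eval₂_X, Polynomial.eval₂_mul, Polynomial.eval₂_C, Polynomial.eval₂_one]
        exact hx
    exact isIntegral_trans x h1
  have hxinv : IsIntegral R x⁻¹ := by
    rw [hinv]; exact hc.sub hxint
  have h2 : c = x + x⁻¹ := by rw [hinv]; ring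
  rw [h2]
  refine add_mem (Subring.subset_closure ⟨hxint, hxinv⟩) (Subring.subset_closure ⟨hxinv, ?_⟩)
  rw [inv_inv]; exact hxint

universe u in
/-- a function with one global value at all local points -/
theorem place_of_valueR {k : Type u} [Field k] [NumberField k]
    {K : Type*} [Field K] [Algebra k K] (htr : Algebra.trdeg k K = 1)
    {Ω : Type*} [Field Ω] [Algebra K Ω] [Algebra.IsAlgebraic K Ω]
    (hrt : ∀ n : ℕ, 1 ≤ n → ∀ x : Ω, ∃ y : Ω, y ^ n = x) [Algebra (AlgebraicClosure k) Ω] [Algebra k Ω]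
    [IsScalarTower k K Ω] [IsScalarTower k (AlgebraicClosure k) Ω]
    (S : Finset (HeightOneSpectrum (𝓞 k)))
    (s : Gal(AlgebraicClosure k/k) →* Gal(Ω/K)) (hs : Continuous s)
    (hsec : ∀ σ a, s σ (algebraMap (AlgebraicClosure k) Ω a) =
      algebraMap (AlgebraicClosure k) Ω (σ a))
    (ι : ∀ v : {v : HeightOneSpectrum (𝓞 k) // v ∉ S},
      AlgebraicClosure k →ₐ[k] AlgebraicClosure (v.1.adicCompletion k))
    (A : {v : HeightOneSpectrum (𝓞 k) // v ∉ S} → ValuationSubring Ω)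
    (φ : ∀ v : {v : HeightOneSpectrum (𝓞 k) // v ∉ S},
      A v →+* AlgebraicClosure (v.1.adicCompletion k))
    (hφ : ∀ v, MP_2f3286_bir.IsPlaceOf s (v.1.adicCompletion k)
      (ι v : _ →+* AlgebraicClosure (v.1.adicCompletion k)) (A v) (φ v))
    (f : K) (hf : ∀ c : k, f ≠ algebraMap k K c) (a : k)
    (hfa : ∀ v, ∃ h : algebraMap K Ω f ∈ A v, φ v ⟨algebraMap K Ω f, h⟩ =
      ι v (algebraMap k (AlgebraicClosure k) a)) :
    ∃ (A₀ : ValuationSubring Ω) (ψ₀ : A₀ →+* AlgebraicClosure k),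
      MP_2f3286_bir.IsPlaceOf s k (RingHom.id _) A₀ ψ₀ ∧
      (∀ v, A v = A₀ ∧ ∀ (a : A v) (b : A₀), (a : Ω) = b → φ v a = ι v (ψ₀ b)) ∧
      (∀ (f : K) (h : algebraMap K Ω f ∈ A₀),
        ∃ a : k, ψ₀ ⟨algebraMap K Ω f, h⟩ = algebraMap k (AlgebraicClosure k) a) ∧
      ∀ (A₁ : ValuationSubring Ω) (ψ₁ : A₁ →+* AlgebraicClosure k),
        MP_2f3286_bir.IsPlaceOf s k (RingHom.id _) A₁ ψ₁ →
        A₁ = A₀ ∧ ∀ (a : A₁) (b : A₀), (a : Ω) = b → ψ₁ a = ψ₀ b := by
  classical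
  have hΩ0 : CharZero Ω := charZero_of_injective_algebraMap (algebraMap k Ω).injective
  let R : Subalgebra k K := Algebra.adjoin k {f}
  have hfR : f ∈ R := Algebra.subset_adjoin (Set.mem_singleton _)
  have hkA : ∀ v, ∀ c : k, ∃ h : algebraMap K Ω (algebraMap k K c) ∈ A v,
      φ v ⟨algebraMap K Ω (algebraMap k K c), h⟩ =
        ι v (algebraMap k (AlgebraicClosure k) c) := by
    intro v c
    obtain ⟨h, h'⟩ := (hφ v).1 (algebraMap k _ c)
    have h1 : algebraMap (AlgebraicClosure k) Ω (algebraMap k _ c) =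
        algebraMap K Ω (algebraMap k K c) := by
      rw [← IsScalarTower.algebraMap_apply, ← IsScalarTower.algebraMap_apply]
    have h2 : algebraMap K Ω (algebraMap k K c) ∈ A v := by rw [← h1]; exact h
    refine ⟨h2, ?_⟩
    have h3 : (⟨algebraMap K Ω (algebraMap k K c), h2⟩ : A v) = ⟨_, h⟩ := Subtype.ext h1.symm
    rw [h3, h']
    rfl
  have hRA : ∀ v, ∀ r : K, r ∈ R → algebraMap K Ω r ∈ A v := by
    intro v r hr
    induction hr using Algebra.adjoin_induction with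
    | mem r hr =>
      rw [Set.mem_singleton_iff] at hr
      rw [hr]
      exact (hfa v).1
    | algebraMap c => exact (hkA v c).1
    | add a b _ _ ha hb => rw [map_add]; exact add_mem ha hb
    | mul a b _ _ ha hb => rw [map_mul]; exact mul_mem ha hb
  have hBA : ∀ v, ∀ b : Ω, IsIntegral R b → b ∈ A v := by
    intro v b hb
    let g : R →+* A v := ((algebraMap K Ω).comp (algebraMap R K)).codRestrict (A v).toSubring
      (fun r => hRA v r r.2)
    have h1 : IsIntegral (A v) ((RingHom.id Ω) b) := by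
      refine IsIntegral.map_of_comp_eq g (RingHom.id Ω) ?_ hb
      ext r
      rfl
    obtain ⟨y, hy⟩ := (IsIntegrallyClosed.isIntegral_iff (R := A v) (K := Ω)).mp h1
    have h2 : (y : Ω) = b := hy
    rw [← h2]
    exact y.2
  let φ' : ∀ v : {v : HeightOneSpectrum (𝓞 k) // v ∉ S},
      integralClosure R Ω →+* AlgebraicClosure (v.1.adicCompletion k) := fun v =>
    (φ v).comp ((algebraMap (integralClosure R Ω) Ω).codRestrict (A v).toSubring
      (fun b => hBA v b b.2))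
  have hφ'1 : ∀ v, ∀ b : integralClosure R Ω, φ' v b = φ v ⟨b, hBA v b b.2⟩ := fun v b => rfl
  have hφ' : ∀ v, Respects s (v.1.adicCompletion k)
      (ι v : _ →+* AlgebraicClosure (v.1.adicCompletion k)) (φ' v) := by
    intro v
    refine ⟨fun a b hab => ?_, fun σ τ hστ b b' hb => ?_⟩
    · obtain ⟨h, h'⟩ := (hφ v).1 a
      rw [hφ'1, ← h']
      congr 1
      exact Subtype.ext hab
    · obtain ⟨h, h'⟩ := (hφ v).2.2 σ τ hστ ⟨b, hBA v b b.2⟩
      rw [hφ'1, hφ'1, ← h']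
      congr 1
      exact Subtype.ext hb
  let fR : R := ⟨f, hfR⟩
  have hf' : ∀ c : k, fR ≠ algebraMap k R c := by
    intro c h
    exact hf c (congrArg (Subtype.val : R → K) h)
  have hroots : ∀ b : Ω, b ≠ 0 → IsIntegral R b → IsIntegral R b⁻¹ → ∀ n : ℕ, 1 ≤ n →
      ∃ c : Ω, c ^ n = b := fun b _ _ _ n hn => hrt n hn b
  obtain ⟨⟨ψ, hψ1, hψ2, -⟩, -⟩ := core_of_vanishing htr R hroots s hs hsec S ι φ' hφ'
    (fR - algebraMap k R a) (sub_ne_zero.mpr (hf' a)) (by
      intro v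
      obtain ⟨h1, h2⟩ := hfa v
      obtain ⟨h3, h4⟩ := hkA v a
      rw [hφ'1]
      have h7 : (⟨((algebraMap R (integralClosure R Ω) (fR - algebraMap k R a) :
          integralClosure R Ω) : Ω), hBA v _ (algebraMap R (integralClosure R Ω)
            (fR - algebraMap k R a)).2⟩ : A v) = ⟨_, h1⟩ - ⟨_, h3⟩ :=
        Subtype.ext (map_sub (algebraMap K Ω) f (algebraMap k K a))
      rw [h7, map_sub, h2, h4, sub_self])
  -- the point on the integral closure
  let θ : integralClosure R Ω →+* AlgebraicClosure k :=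
    ψ.comp ((algebraMap (integralClosure R Ω) Ω).codRestrict (unitRing R Ω)
      (fun b => mem_unitRingR (hrt 2 (by norm_num)) b.2))
  have hθ : Respects s k (RingHom.id _) θ := by
    refine ⟨fun a b hab => hψ1.1 a _ hab, fun σ τ hστ b b' hb => hψ1.2 σ τ hστ _ _ hb⟩
  have htt : Transcendental k ((fR : R) : K) := by
    intro halg
    obtain ⟨c, hc⟩ := const_of_algebraic s hsec halg
    exact hf c hc.symm
  obtain ⟨v₀, hv₀⟩ := exists_notMem S
  have hV : Nonempty {v : HeightOneSpectrum (𝓞 k) // v ∉ S} := ⟨⟨v₀, hv₀⟩⟩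
  obtain ⟨A₀, ψ₀, h1, h2⟩ := place_layer htr s R fR htt
    (V := {v : HeightOneSpectrum (𝓞 k) // v ∉ S}) (fun v => v.1) ι A φ hφ θ hθ (by
      intro v b
      refine ⟨hBA v b b.2, ?_⟩
      exact hψ2 v _ b rfl)
  refine ⟨A₀, ψ₀, h1, h2, fun g hg => ?_, fun A₁ ψ₁ h₁ => place_uniqueR hrt s hs h1 h₁⟩
  obtain ⟨a, ha⟩ := mem_of_fixed (F := k) (Fb := AlgebraicClosure k)
    (y := ψ₀ ⟨algebraMap K Ω g, hg⟩) (by
      intro τ
      obtain ⟨h3, h4⟩ := h1.2.2 τ τ (fun _ => rfl) ⟨algebraMap K Ω g, hg⟩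
      rw [← h4]
      congr 1
      apply Subtype.ext
      exact AlgEquiv.commutes (s τ) g)
  exact ⟨a, ha.symm⟩

end Pool.Agent.Lib.MP_2f3286_ag.UA
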