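import Pool.Agent.Lib.MP_2f3286_ag.UA.S2
import Pool.Agent.Lib.MP_2f3286_ag.UA.GX6
import Pool.Agent.Lib.MP_2f3286_ag.Ep2.G8

/-!
# Fields closed under `n`-th roots: descent, existence and uniqueness of the place
-/

open Polynomial IsDedekindDomain NumberField
open scoped WithZero

noncomputable section

namespace Pool.Agent.Lib.MP_2f3286_ag.UA

open Pool.Agent.Lib.MP_2f3286_ag.HYP hiding affine_over over_dich
open Pool.Agent.Lib.MP_2f3286_ag.Pt Pool.Agent.Lib.MP_2f3286_ag.SNeigh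
  Pool.Agent.Lib.MP_2f3286_ag.SFull Pool.Agent.Lib.MP_2f3286_ag.Koe
open Pool.Agent.Lib.MP_2f3286_ag.Sel (IsPlaceOf IsSectionAt)

universe u v

section

variable {k kb K Ω : Type*} [Field k] [Field kb] [Algebra k kb] [Field K] [Field Ω] [Algebra K Ω]
  [Algebra kb Ω] (s : Gal(kb/k) →* Gal(Ω/K)) (F : Type*) [Field F] [Algebra k F] [Algebra F kb]
  [IsScalarTower k F kb]

theorem placeOn_uniqueR [NumberField F] (hrt : ∀ n : ℕ, 1 ≤ n → ∀ x : Ω, ∃ y : Ω, y ^ n = x)
    [Algebra.IsAlgebraic K Ω]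
    [Algebra.IsAlgebraic F kb] [IsAlgClosed kb] (hs : Continuous s)
    (hsec : ∀ σ a, s σ (algebraMap kb Ω a) = algebraMap kb Ω (σ a))
    {A₀ A₁ : ValuationSubring Ω} {ψ₀ : A₀ →+* kb} {ψ₁ : A₁ →+* kb}
    (h₀ : PlaceOn s F A₀ ψ₀) (h₁ : PlaceOn s F A₁ ψ₁) :
    A₁ = A₀ ∧ ∀ (x : A₁) (y : A₀), (x : Ω) = y → ψ₁ x = ψ₀ y := by
  have : IsAlgClosure F kb := ⟨inferInstance, inferInstance⟩
  let e : AlgebraicClosure F ≃ₐ[F] kb := IsAlgClosure.equiv F (AlgebraicClosure F) kb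
  letI : Algebra (AlgebraicClosure F) Ω := ((algebraMap kb Ω).comp (e : _ →+* kb)).toAlgebra
  letI : Algebra F (fixF s F) := (toFixF s F hsec).toAlgebra
  have he : ∀ a : AlgebraicClosure F, algebraMap (AlgebraicClosure F) Ω a =
      algebraMap kb Ω (e a) := fun _ => rfl
  have hL : ∀ σ : Gal(kb/k), (∀ a : F, σ (algebraMap F kb a) = algebraMap F kb a) →
      ∀ x : fixF s F, s σ (algebraMap (fixF s F) Ω x) = algebraMap (fixF s F) Ω x :=
    fun σ hσ x => x.2 σ hσ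
  obtain ⟨h1, h2⟩ := place_uniqueR (K := fixF s F) hrt (resS s e hL)
    (resS_continuous s e hL hs) (of_placeOn s e hL he h₀) (of_placeOn s e hL he h₁)
  exact ⟨h1, fun x y hxy => e.symm.injective (h2 x y hxy)⟩

end

theorem descendR {k kb K Ω : Type*} [Field k] [NumberField k] [Field kb] [Algebra k kb]
    [IsAlgClosed kb] [Algebra.IsAlgebraic k kb] [Field K] [Field Ω]
    (hrt : ∀ n : ℕ, 1 ≤ n → ∀ x : Ω, ∃ y : Ω, y ^ n = x) [Algebra K Ω]
    [Algebra.IsAlgebraic K Ω] [Algebra kb Ω] (s : Gal(kb/k) →* Gal(Ω/K)) (hs : Continuous s)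
    (hsec : ∀ σ a, s σ (algebraMap kb Ω a) = algebraMap kb Ω (σ a))
    (F : Type*) [Field F] [NumberField F] [Algebra k F] [Algebra F kb] [IsScalarTower k F kb]
    {A : ValuationSubring Ω} {ψ : A →+* kb} (h : PlaceOn s F A ψ) :
    MP_2f3286_bir.IsPlaceOf s k (RingHom.id kb) A ψ := by
  have hchar : CharZero k := inferInstance
  have hfin : FiniteDimensional k F := FiniteDimensional.right ℚ k F
  let F' : IntermediateField k kb := IntermediateField.normalClosure k F kb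
  have hF' : FiniteDimensional k F' := inferInstance
  have : NumberField F' := NumberField.of_module_finite k F'
  have hle : ∀ σ : Gal(kb/k), (∀ a : F', σ (algebraMap F' kb a) = algebraMap F' kb a) →
      ∀ a : F, σ (algebraMap F kb a) = algebraMap F kb a := by
    intro σ hσ a
    have h1 : algebraMap F kb a ∈ F' := by
      have h2 := AlgHom.fieldRange_le_normalClosure (IsScalarTower.toAlgHom k F kb)
      exact h2 ⟨a, rfl⟩
    exact hσ ⟨_, h1⟩
  have h' : PlaceOn s F' A ψ := ⟨h.1, h.2.1, fun σ hσ => h.2.2 σ (hle σ hσ)⟩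
  have hnorm : ∀ g σ : Gal(kb/k), (∀ a : F', σ (algebraMap F' kb a) = algebraMap F' kb a) →
      ∀ a : F', (g * σ * g⁻¹) (algebraMap F' kb a) = algebraMap F' kb a := by
    intro g σ hσ a
    have : IsAlgClosure k kb := ⟨inferInstance, inferInstance⟩
    have : Normal k kb := IsAlgClosure.normal k kb
    have hn : Normal k F' := inferInstance
    have h1 : (g⁻¹ : Gal(kb/k)) a ∈ F' :=
      (IntermediateField.normal_iff_forall_map_le.1 hn) ((g⁻¹ : Gal(kb/k)) : kb →ₐ[k] kb)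
        ⟨a, a.2, rfl⟩
    have h2 := hσ ⟨_, h1⟩
    change g (σ ((g⁻¹ : Gal(kb/k)) a)) = a
    change σ ((g⁻¹ : Gal(kb/k)) a) = (g⁻¹ : Gal(kb/k)) a at h2
    rw [h2]
    exact g.apply_symm_apply a
  refine ⟨h.1, h.2.1, fun σ τ hστ x => ?_⟩
  have hτ : τ = σ := by ext a; exact (hστ a).symm
  subst hτ
  obtain ⟨h1, h2⟩ := placeOn_uniqueR s F' hrt hs hsec h' (placeOn_conj s F' h' hsec τ (hnorm τ))
  have h3 : (x : Ω) ∈ A.comap (s τ : Ω →+* Ω) := by rw [h1]; exact x.2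
  refine ⟨h3, ?_⟩
  have h4 := h2 ⟨x, h3⟩ x rfl
  change τ⁻¹ (ψ ⟨s τ x, _⟩) = ψ x at h4
  rw [← h4]
  exact (τ.apply_symm_apply _).symm


/-- **Function fields.** -/
theorem place_of_sameValR {k : Type u} [Field k] [NumberField k]
    {K : Type*} [Field K] [Algebra k K] (htr : Algebra.trdeg k K = 1)
    {x : K} (hx : ∀ c : k, x ≠ algebraMap k K c)
    {M : Type*} [Field M] [Algebra K M] [Algebra.IsAlgebraic K M]
    (hrt : ∀ n : ℕ, 1 ≤ n → ∀ x : M, ∃ y : M, y ^ n = x) [Algebra (AlgebraicClosure k) M] [Algebra k M]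
    [IsScalarTower k K M] [IsScalarTower k (AlgebraicClosure k) M]
    (s : Gal(AlgebraicClosure k/k) →* Gal(M/K)) (hs : Continuous s)
    (hsec : ∀ σ a, s σ (algebraMap (AlgebraicClosure k) M a) =
      algebraMap (AlgebraicClosure k) M (σ a)) (hT : SameVal s k (algebraMap K M x)) :
    ∃ (A₀ : ValuationSubring M) (ψ₀ : A₀ →+* AlgebraicClosure k),
      Sel.IsPlaceOf s k (RingHom.id _) A₀ ψ₀ := by
  have hx0 : x ≠ 0 := by
    rintro rfl
    exact hx 0 (map_zero _).symm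
  choose ι _ using fun w : {v : HeightOneSpectrum (𝓞 k) // v ∉ (∅ : Finset _)} =>
    (⟨(IsAlgClosed.lift : AlgebraicClosure k →ₐ[k] AlgebraicClosure (w.1.adicCompletion k)),
      trivial⟩ : ∃ _ : AlgebraicClosure k →ₐ[k] AlgebraicClosure (w.1.adicCompletion k), True)
  choose A φ hφ using fun w => Ep.local_place_all
    (fun p hp => hrt p hp.one_lt.le) s hs hsec w.1 (ι w)
  rcases hT with ⟨e, he⟩ | hT
  · obtain ⟨A₀, ψ₀, h1, -⟩ := place_of_valueR htr hrt ∅ s hs hsec ι A φ hφ x hx e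
      fun v => he v.1 (ι v) (A v) (φ v) (hφ v)
    exact ⟨A₀, ψ₀, h1⟩
  · obtain ⟨A₀, ψ₀, h1, -⟩ := place_of_valueR htr hrt ∅ s hs hsec ι A φ hφ x⁻¹
      (fun c hc => hx c⁻¹ (by rw [map_inv₀, ← hc, inv_inv])) 0 fun v => by
        have h1 := hT v.1 (ι v) (A v) (φ v) (hφ v)
        have h2 : algebraMap K M x⁻¹ ∈ A v := by
          rw [map_inv₀]
          exact ((A v).mem_or_inv_mem _).resolve_left h1
        refine ⟨h2, ?_⟩
        rw [map_zero, map_zero]
        by_contra h3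
        apply h1
        have h4 : (algebraMap K M x⁻¹)⁻¹ ∈ A v := (hφ v).2.1 ⟨_, h2⟩ h3
        rwa [map_inv₀, inv_inv] at h4
    exact ⟨A₀, ψ₀, h1⟩

/-- **Two places of a section of a function field over an open subgroup are equal.** -/
theorem uniq_closedR {k : Type u} [Field k] [NumberField k]
    {K : Type*} [Field K] [Algebra k K]
    {M : Type*} [Field M] (hrt : ∀ n : ℕ, 1 ≤ n → ∀ x : M, ∃ y : M, y ^ n = x)
    [Algebra K M] [IsGalois K M]
    [Algebra (AlgebraicClosure k) M] [Algebra k M]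
    [IsScalarTower k K M] [IsScalarTower k (AlgebraicClosure k) M]
    (s : Gal(AlgebraicClosure k/k) →* Gal(M/K)) (hs : Continuous s)
    (hsec : ∀ σ a, s σ (algebraMap (AlgebraicClosure k) M a) =
      algebraMap (AlgebraicClosure k) M (σ a))
    (Δ : Subgroup Gal(AlgebraicClosure k/k)) (hΔ : IsOpen (Δ : Set Gal(AlgebraicClosure k/k)))
    (A₁ : ValuationSubring M) (ψ₁ : A₁ →+* AlgebraicClosure k) (A₂ : ValuationSubring M)
    (ψ₂ : A₂ →+* AlgebraicClosure k) (h₁ : IsOver A₁ ψ₁) (h₂ : IsOver A₂ ψ₂)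
    (hr₁ : ResOn s A₁ ψ₁ Δ) (hr₂ : ResOn s A₂ ψ₂ Δ) : A₁ = A₂ := by
  obtain ⟨F, hF, hFΔ⟩ := (krullTopology_mem_nhds_one_iff k _ _).mp (hΔ.mem_nhds (one_mem Δ))
  have hFn : NumberField F := NumberField.of_module_finite k F
  have hFΔ' : ∀ σ : Gal(AlgebraicClosure k/k),
      (∀ a : F, σ (algebraMap F _ a) = algebraMap F _ a) → σ ∈ Δ := by
    intro σ hσ
    apply hFΔ
    rw [SetLike.mem_coe, IntermediateField.mem_fixingSubgroup_iff]
    intro a ha
    exact hσ ⟨a, ha⟩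
  have hFk : Algebra.IsAlgebraic F (AlgebraicClosure k) :=
    Algebra.IsAlgebraic.tower_top (K := k) F
  have : IsAlgClosure F (AlgebraicClosure k) := ⟨inferInstance, inferInstance⟩
  let e : AlgebraicClosure F ≃ₐ[F] AlgebraicClosure k :=
    IsAlgClosure.equiv F (AlgebraicClosure F) (AlgebraicClosure k)
  let iFb : Algebra (AlgebraicClosure F) M :=
    ((algebraMap (AlgebraicClosure k) M).comp (e : _ →+* AlgebraicClosure k)).toAlgebra
  have he : ∀ a : AlgebraicClosure F, algebraMap (AlgebraicClosure F) M a =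
      algebraMap (AlgebraicClosure k) M (e a) := fun _ => rfl
  have t2 : IsScalarTower F (AlgebraicClosure k) M := inferInstance
  let iFL : Algebra F (fixF s F) := (toFixF s F hsec).toAlgebra
  have hLM : Algebra.IsAlgebraic (fixF s F) M :=
    Algebra.IsAlgebraic.tower_top (K := K) (fixF s F)
  have hL : ∀ σ : Gal(AlgebraicClosure k/k),
      (∀ a : F, σ (algebraMap F _ a) = algebraMap F _ a) →
      ∀ x : fixF s F, s σ (algebraMap (fixF s F) M x) = algebraMap (fixF s F) M x :=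
    fun σ hσ x => x.2 σ hσ
  obtain ⟨g1, g2⟩ := down_on e he s hL h₁ hr₁ hFΔ'
  obtain ⟨g3, g4⟩ := down_on e he s hL h₂ hr₂ hFΔ'
  exact (place_uniqueR hrt (resS s e hL) (resS_continuous s e hL hs)
    (isPlaceOf_of_resOn g3 g4) (isPlaceOf_of_resOn g1 g2)).1

/-- **Function fields: a rational place of a section is its only place over all finite
extensions.** -/
theorem onlyFin_closedR {k : Type u} [Field k] [NumberField k]
    {K : Type*} [Field K] [Algebra k K]
    {M : Type*} [Field M] (hrt : ∀ n : ℕ, 1 ≤ n → ∀ x : M, ∃ y : M, y ^ n = x)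
    [Algebra K M] [IsGalois K M]
    [Algebra (AlgebraicClosure k) M] [Algebra k M]
    [IsScalarTower k K M] [IsScalarTower k (AlgebraicClosure k) M]
    (s : Gal(AlgebraicClosure k/k) →* Gal(M/K)) (hs : Continuous s)
    (hsec : ∀ σ a, s σ (algebraMap (AlgebraicClosure k) M a) =
      algebraMap (AlgebraicClosure k) M (σ a))
    {A₀ : ValuationSubring M} {ψ₀ : A₀ →+* AlgebraicClosure k}
    {E : IntermediateField k (AlgebraicClosure k)} (hE : FiniteDimensional k E)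
    (h₀ : IsPlaceOf s E (RingHom.id _) A₀ ψ₀) : IsOnlyPlaceFin s A₀ ψ₀ :=
  only_of_uniq hsec hE h₀ fun Δ hΔ A₁ ψ₁ A₂ ψ₂ h₁ h₂ hr₁ hr₂ =>
    uniq_closedR hrt s hs hsec Δ hΔ A₁ ψ₁ A₂ ψ₂ h₁ h₂ hr₁ hr₂

end Pool.Agent.Lib.MP_2f3286_ag.UA
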