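import Pool.Agent.Lib.MP_2f3286_ag.UA.XA
import Pool.Agent.Lib.MP_2f3286_ag.UA.S3

/-!
# The arithmetic half over a field closed under roots

A copy of the first alternative of XA, in which `M` is closed under `n`-th roots for all `n` instead of
algebraically closed.
-/

open WeierstrassCurve WeierstrassCurve.Affine WeierstrassCurve.Affine.Point
open IsDedekindDomain NumberField Polynomial
open scoped WithZero
open Pool.Agent.Lib.MP_2f3286_ag

namespace Pool.Agent.Lib.MP_2f3286_ag.UA

universe u v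

open scoped Classical in
/-- **The arithmetic half** over a field closed under roots. -/
theorem arithR {k : Type u} [Field k] [NumberField k]
    {F : Type v} [Field F] [NumberField F] [Algebra k F]
    [Algebra F (AlgebraicClosure k)] [IsScalarTower k F (AlgebraicClosure k)]
    (W : WeierstrassCurve F) [W.IsShortNF]
    [W.IsElliptic] (hrk : ∀ Q : (W⁄F).Point, IsOfFinAddOrder Q) {p : ℕ} (hp : p.Prime) {j : ℕ}
    (hsha : ShaKilledByPow W p j)
    {K : Type*} [Field K] [Algebra k K] (htr : Algebra.trdeg k K = 1)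
    {M : Type*} [Field M] [Algebra K M] [IsGalois K M]
    [Algebra (AlgebraicClosure k) M] [Algebra k M]
    [IsScalarTower k K M] [IsScalarTower k (AlgebraicClosure k) M]
    [Algebra F M] [IsScalarTower F (AlgebraicClosure k) M]
    (hrt : ∀ n : ℕ, 1 ≤ n → ∀ z : M, ∃ y : M, y ^ n = z)
    (hdiv : ∀ (n : ℕ) (T₀ : (W⁄M).Point), ∃ T : (W⁄M).Point, p ^ n • T = T₀)
    (s : Gal(AlgebraicClosure k/k) →* Gal(M/K)) (hs : Continuous s)
    (hsec : ∀ σ a, s σ (algebraMap (AlgebraicClosure k) M a) =
      algebraMap (AlgebraicClosure k) M (σ a))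
    {x y : M} (hfix : ∀ σ : Gal(AlgebraicClosure k/k),
      (∀ a : F, σ (algebraMap F _ a) = algebraMap F _ a) → s σ x = x ∧ s σ y = y)
    (hxy : (W⁄M).Nonsingular x y) (hx : ∀ c : F, x ≠ algebraMap F M c) :
    ∃ (Q : (W⁄F).Point) (x₁ y₁ : M) (h₁ : (W⁄M).Nonsingular x₁ y₁),
      (∃ m : ℕ, p ^ m • Q = 0) ∧
      (∀ σ : Gal(AlgebraicClosure k/k),
        (∀ a : F, σ (algebraMap F _ a) = algebraMap F _ a) → s σ x₁ = x₁ ∧ s σ y₁ = y₁) ∧
      p • (some x₁ y₁ h₁ : (W⁄M).Point) = some x y hxy - baseChange F M Q ∧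
      (∀ c : AlgebraicClosure k, x₁ ≠ algebraMap (AlgebraicClosure k) M c) ∧
      SameVal s F x₁ := by
  have hxs : x ∈ Koe.fixF s F := fun σ hσ => (hfix σ hσ).1
  have hys : y ∈ Koe.fixF s F := fun σ hσ => (hfix σ hσ).2
  have hfin : FiniteDimensional k F := FiniteDimensional.right ℚ k F
  have hFk : Algebra.IsAlgebraic F (AlgebraicClosure k) :=
    Algebra.IsAlgebraic.tower_top (K := k) F
  have : IsAlgClosure F (AlgebraicClosure k) := ⟨inferInstance, inferInstance⟩
  let e : AlgebraicClosure F ≃ₐ[F] AlgebraicClosure k :=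
    IsAlgClosure.equiv F (AlgebraicClosure F) (AlgebraicClosure k)
  let iFb : Algebra (AlgebraicClosure F) M :=
    ((algebraMap (AlgebraicClosure k) M).comp (e : _ →+* AlgebraicClosure k)).toAlgebra
  have he : ∀ a : AlgebraicClosure F, algebraMap (AlgebraicClosure F) M a =
      algebraMap (AlgebraicClosure k) M (e a) := fun _ => rfl
  have t1 : IsScalarTower F (AlgebraicClosure F) M := IsScalarTower.of_algebraMap_eq fun a => by
    rw [he, AlgEquiv.commutes, ← IsScalarTower.algebraMap_apply]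
  have t3 : IsScalarTower k F M := IsScalarTower.of_algebraMap_eq fun a => by
    rw [IsScalarTower.algebraMap_apply F (AlgebraicClosure k) M,
      ← IsScalarTower.algebraMap_apply k F (AlgebraicClosure k),
      ← IsScalarTower.algebraMap_apply k (AlgebraicClosure k) M]
  let iFL : Algebra F (Koe.fixF s F) := (Koe.toFixF s F hsec).toAlgebra
  have t2 : IsScalarTower F (Koe.fixF s F) M := IsScalarTower.of_algebraMap_eq fun a => by
    change algebraMap F M a = algebraMap (AlgebraicClosure k) M (algebraMap F _ a)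
    rw [← IsScalarTower.algebraMap_apply]
  have hLM : Algebra.IsAlgebraic (Koe.fixF s F) M :=
    Algebra.IsAlgebraic.tower_top (K := K) (Koe.fixF s F)
  have htr' : Algebra.trdeg F (Koe.fixF s F) = 1 :=
    Koe.trdeg_fix (k := k) (K := K) (Ω := M) htr
  have hL : ∀ σ : Gal(AlgebraicClosure k/k),
      (∀ a : F, σ (algebraMap F _ a) = algebraMap F _ a) →
      ∀ x : Koe.fixF s F, s σ (algebraMap (Koe.fixF s F) M x) =
        algebraMap (Koe.fixF s F) M x :=
    fun σ hσ x => x.2 σ hσ
  have hs' := Koe.resS_continuous s e hL hs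
  have hsec' : ∀ (σ : Gal(AlgebraicClosure F/F)) (a : AlgebraicClosure F),
      Koe.resS s e hL σ (algebraMap (AlgebraicClosure F) M a) =
        algebraMap (AlgebraicClosure F) M (σ a) := by
    intro σ a
    rw [Koe.resS_apply, he, hsec, Koe.resG_apply, e.symm_apply_apply, he]
  have hM0 : CharZero M := charZero_of_injective_algebraMap (algebraMap F M).injective
  have hL0 : CharZero (Koe.fixF s F) :=
    charZero_of_injective_algebraMap (algebraMap F (Koe.fixF s F)).injective
  -- the point over `L`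
  have hxyL : (W⁄(Koe.fixF s F)).Nonsingular ⟨x, hxs⟩ ⟨y, hys⟩ :=
    (Affine.baseChange_nonsingular W (Algebra.ofId (Koe.fixF s F) M).injective
      (⟨x, hxs⟩ : Koe.fixF s F) ⟨y, hys⟩).mp hxy
  obtain ⟨Q, x₁, y₁, h₁, g, hQ, hfx, hpz, hnc, -, -, -, hval⟩ :=
    tri_Ep W hrk hp hsha (K := Koe.fixF s F) htr' (∅ : Set (ValuationSubring M))
      (fun V hV => absurd hV (Set.notMem_empty V)) (fun b _ _ n hn => hrt n hn b)
      (Koe.resS s e hL) hs' hsec' hxyL
      (fun c hc => hx c (by
        have h3 := congrArg (algebraMap (Koe.fixF s F) M) hc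
        rw [← IsScalarTower.algebraMap_apply F (Koe.fixF s F) M] at h3
        exact h3)) (fun n => hdiv n _) (fun V hV => absurd hV (Set.notMem_empty V))
      (fun V hV => absurd hV (Set.notMem_empty V)) (fun w => by
        let ι : AlgebraicClosure F →ₐ[F] AlgebraicClosure (w.adicCompletion F) :=
          IsAlgClosed.lift
        obtain ⟨A, φ, h⟩ := Ep.local_place_all (K := Koe.fixF s F)
          (fun q hq => hrt q hq.one_lt.le) (Koe.resS s e hL) hs' hsec' w ι
        exact ⟨ι, A, φ, h⟩)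
  refine ⟨Q, x₁, y₁, h₁, hQ, fun σ hσ => ?_, hpz, fun c hc => ?_, ?_⟩
  · obtain ⟨τ, hτ, -⟩ := Koe.resG_surj e σ hσ
    have h1 := hfx τ
    rw [Koe.resS_apply, Koe.resS_apply, hτ] at h1
    exact h1
  · refine hnc (e.symm c) ?_
    rw [he, e.apply_symm_apply]
    exact hc
  · rcases hval with ⟨c, hc, hval⟩ | hval
    · refine Or.inl ⟨c, fun w ι A φ hφ => ?_⟩
      obtain ⟨⟨h1, h2⟩, h3, h4⟩ := hval w
        (ι.comp (e : AlgebraicClosure F →ₐ[F] AlgebraicClosure k)) A φ
        (HYP.placeOf_res e he s hL hφ)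
      refine ⟨h1, h2.trans ?_⟩
      change ι (e (algebraMap F _ c)) = ι (algebraMap F _ c)
      rw [AlgEquiv.commutes]
    · exact Or.inr fun w ι A φ hφ => hval w
        (ι.comp (e : AlgebraicClosure F →ₐ[F] AlgebraicClosure k)) A φ
        (HYP.placeOf_res e he s hL hφ)

end Pool.Agent.Lib.MP_2f3286_ag.UA
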