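import Pool.Agent.Lib.MP_2f3286_ag.UA.S4

/-!
# Sections of a field closed under roots which fix a point of an elliptic curve
-/

open WeierstrassCurve WeierstrassCurve.Affine WeierstrassCurve.Affine.Point
open IsDedekindDomain NumberField Polynomial
open scoped WithZero
open Pool.Agent.Lib.MP_2f3286_ag
open Pool.Agent.Lib.MP_2f3286_ag.HYP Pool.Agent.Lib.MP_2f3286_ag.Koe

namespace Pool.Agent.Lib.MP_2f3286_ag.UA

universe u v

/-- **A function with the same value at all local places** gives a rational place, for a section of a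
field closed under roots. -/
theorem place_of_sameVal_overR {k : Type u} [Field k] [NumberField k]
    {F : Type v} [Field F] [NumberField F] [Algebra k F]
    [Algebra F (AlgebraicClosure k)] [IsScalarTower k F (AlgebraicClosure k)]
    {K : Type*} [Field K] [Algebra k K] (htr : Algebra.trdeg k K = 1)
    {M : Type*} [Field M] [Algebra K M] [IsGalois K M]
    [Algebra (AlgebraicClosure k) M] [Algebra k M]
    [IsScalarTower k K M] [IsScalarTower k (AlgebraicClosure k) M]
    [Algebra F M] [IsScalarTower F (AlgebraicClosure k) M]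
    (hrt : ∀ n : ℕ, 1 ≤ n → ∀ z : M, ∃ y : M, y ^ n = z)
    (s : Gal(AlgebraicClosure k/k) →* Gal(M/K)) (hs : Continuous s)
    (hsec : ∀ σ a, s σ (algebraMap (AlgebraicClosure k) M a) =
      algebraMap (AlgebraicClosure k) M (σ a))
    {x : M} (hxs : x ∈ fixF s F) (hx : ∀ c : F, x ≠ algebraMap F M c) (hT : SameVal s F x) :
    ∃ (A₀ : ValuationSubring M) (ψ₀ : A₀ →+* AlgebraicClosure k),
      Sel.IsPlaceOf s k (RingHom.id _) A₀ ψ₀ := by
  have hfin : FiniteDimensional k F := FiniteDimensional.right ℚ k F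
  have hFk : Algebra.IsAlgebraic F (AlgebraicClosure k) :=
    Algebra.IsAlgebraic.tower_top (K := k) F
  have : IsAlgClosure F (AlgebraicClosure k) := ⟨inferInstance, inferInstance⟩
  let e : AlgebraicClosure F ≃ₐ[F] AlgebraicClosure k :=
    IsAlgClosure.equiv F (AlgebraicClosure F) (AlgebraicClosure k)
  let iFb : Algebra (AlgebraicClosure F) M :=
    ((algebraMap (AlgebraicClosure k) M).comp (e : _ →+* AlgebraicClosure k)).toAlgebra
  have he : ∀ a : AlgebraicClosure F, algebraMap (AlgebraicClosure F) M a =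
      algebraMap (AlgebraicClosure k) M (e a) := fun _ => rfl
  have t1 : IsScalarTower F (AlgebraicClosure F) M := IsScalarTower.of_algebraMap_eq fun a => by
    rw [he, AlgEquiv.commutes, ← IsScalarTower.algebraMap_apply]
  have t3 : IsScalarTower k F M := IsScalarTower.of_algebraMap_eq fun a => by
    rw [IsScalarTower.algebraMap_apply F (AlgebraicClosure k) M,
      ← IsScalarTower.algebraMap_apply k F (AlgebraicClosure k),
      ← IsScalarTower.algebraMap_apply k (AlgebraicClosure k) M]
  let iFL : Algebra F (fixF s F) := (toFixF s F hsec).toAlgebra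
  have t2 : IsScalarTower F (fixF s F) M := IsScalarTower.of_algebraMap_eq fun a => by
    change algebraMap F M a = algebraMap (AlgebraicClosure k) M (algebraMap F _ a)
    rw [← IsScalarTower.algebraMap_apply]
  have hLM : Algebra.IsAlgebraic (fixF s F) M :=
    Algebra.IsAlgebraic.tower_top (K := K) (fixF s F)
  have htr' : Algebra.trdeg F (fixF s F) = 1 := trdeg_fix (k := k) (K := K) (Ω := M) htr
  have hL : ∀ σ : Gal(AlgebraicClosure k/k),
      (∀ a : F, σ (algebraMap F _ a) = algebraMap F _ a) →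
      ∀ x : fixF s F, s σ (algebraMap (fixF s F) M x) = algebraMap (fixF s F) M x :=
    fun σ hσ x => x.2 σ hσ
  have hs' := resS_continuous s e hL hs
  have hsec' : ∀ (σ : Gal(AlgebraicClosure F/F)) (a : AlgebraicClosure F),
      resS s e hL σ (algebraMap (AlgebraicClosure F) M a) =
        algebraMap (AlgebraicClosure F) M (σ a) := by
    intro σ a
    rw [resS_apply, he, hsec, resG_apply, e.symm_apply_apply, he]
  obtain ⟨A₀, ψ, h1⟩ := place_of_sameValR (x := ⟨x, hxs⟩) htr' (fun c hc => hx c (by
      have h3 := congrArg (algebraMap (fixF s F) M) hc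
      rw [← IsScalarTower.algebraMap_apply F (fixF s F) M] at h3
      exact h3)) hrt (resS s e hL) hs' hsec' (hT.res e he hL)
  exact ⟨A₀, _, descendR hrt s hs hsec F (placeOn_of s e hL he h1)⟩

open scoped Classical in
/-- **Fields closed under roots**: a section fixing a nonconstant point of an elliptic curve with
finitely many points and finite `p`-part of the Tate-Shafarevich group. -/
theorem one_fieldR {k : Type u} [Field k] [NumberField k]
    {F : Type v} [Field F] [NumberField F] [Algebra k F]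
    [Algebra F (AlgebraicClosure k)] [IsScalarTower k F (AlgebraicClosure k)]
    (W : WeierstrassCurve F) [W.IsShortNF]
    [W.IsElliptic] (hrk : ∀ Q : (W⁄F).Point, IsOfFinAddOrder Q) {p : ℕ} (hp : p.Prime) {j : ℕ}
    (hsha : ShaKilledByPow W p j)
    {K : Type*} [Field K] [Algebra k K] (htr : Algebra.trdeg k K = 1)
    {M : Type*} [Field M] [Algebra K M] [IsGalois K M]
    [Algebra (AlgebraicClosure k) M] [Algebra k M]
    [IsScalarTower k K M] [IsScalarTower k (AlgebraicClosure k) M]
    [Algebra F M] [IsScalarTower F (AlgebraicClosure k) M]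
    (hrt : ∀ n : ℕ, 1 ≤ n → ∀ z : M, ∃ y : M, y ^ n = z)
    (hdiv : ∀ (n : ℕ) (T₀ : (W⁄M).Point), ∃ T : (W⁄M).Point, p ^ n • T = T₀)
    (s : Gal(AlgebraicClosure k/k) →* Gal(M/K)) (hs : Continuous s)
    (hsec : ∀ σ a, s σ (algebraMap (AlgebraicClosure k) M a) =
      algebraMap (AlgebraicClosure k) M (σ a))
    {x y : M} (hfix : ∀ σ : Gal(AlgebraicClosure k/k),
      (∀ a : F, σ (algebraMap F _ a) = algebraMap F _ a) → s σ x = x ∧ s σ y = y)
    (hxy : (W⁄M).Nonsingular x y) (hx : ∀ c : F, x ≠ algebraMap F M c) :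
    ∃ (A₀ : ValuationSubring M) (ψ₀ : A₀ →+* AlgebraicClosure k), IsOnlyPlaceFin s A₀ ψ₀ := by
  obtain ⟨Q, x₁, y₁, h₁, hQ, hfix₁, hmul, hc, hval⟩ :=
    arithR W hrk hp hsha htr hrt hdiv s hs hsec hfix hxy hx
  obtain ⟨A₀, ψ₀, h3⟩ := place_of_sameVal_overR htr hrt s hs hsec (F := F) (x := x₁)
    (fun σ hσ => (hfix₁ σ hσ).1)
    (fun c => by
      rw [IsScalarTower.algebraMap_apply F (AlgebraicClosure k) M]
      exact hc _) hval
  have h4 : Sel.IsPlaceOf s (⊥ : IntermediateField k (AlgebraicClosure k)) (RingHom.id _) A₀ ψ₀ :=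
    isPlaceOf_comp h3 (RingHom.id _)
  exact ⟨A₀, ψ₀, onlyFin_closedR hrt s hs hsec (inferInstance) h4⟩

end Pool.Agent.Lib.MP_2f3286_ag.UA
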