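import Pool.Agent.Lib.MP_2f3286_ag.UA.S5
import Pool.Agent.Lib.MP_2f3286_ag.UA.R1

/-!
# Sections of a field closed under roots which fix a point of an elliptic curve: the theorem
-/

open WeierstrassCurve WeierstrassCurve.Affine WeierstrassCurve.Affine.Point
open IsDedekindDomain NumberField Polynomial
open Pool.Agent.Lib.MP_2f3286_ag

namespace Pool.Agent.Lib.MP_2f3286_ag.UA

universe u v

open scoped Classical in
/-- **Fields closed under roots**: a section of `Gal(M/K) → Gal(k̄/k)`, for a Galois extension `M` of `K`
which is closed under `n`-th roots for all `n`, fixing over `F` a nonconstant point of an elliptic curve over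
`F` with finitely many points and finite `p`-part of the Tate-Shafarevich group for one prime `p`, is the
section of a rational place, and of no other place over any finite extension of `k`. -/
theorem one_root {k : Type u} [Field k] [NumberField k]
    {F : Type v} [Field F] [NumberField F] [Algebra k F]
    [Algebra F (AlgebraicClosure k)] [IsScalarTower k F (AlgebraicClosure k)]
    (W : WeierstrassCurve F) [W.IsShortNF]
    [W.IsElliptic] (hrk : ∀ Q : (W⁄F).Point, IsOfFinAddOrder Q) {p : ℕ} (hp : p.Prime) {j : ℕ}
    (hsha : ShaKilledByPow W p j)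
    {K : Type*} [Field K] [Algebra k K] (htr : Algebra.trdeg k K = 1)
    {M : Type*} [Field M] [Algebra K M] [IsGalois K M]
    [Algebra (AlgebraicClosure k) M] [Algebra k M]
    [IsScalarTower k K M] [IsScalarTower k (AlgebraicClosure k) M]
    [Algebra F M] [IsScalarTower F (AlgebraicClosure k) M]
    (hrt : ∀ n : ℕ, 1 ≤ n → ∀ z : M, ∃ y : M, y ^ n = z)
    (s : Gal(AlgebraicClosure k/k) →* Gal(M/K)) (hs : Continuous s)
    (hsec : ∀ σ a, s σ (algebraMap (AlgebraicClosure k) M a) =
      algebraMap (AlgebraicClosure k) M (σ a))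
    {x y : M} (hfix : ∀ σ : Gal(AlgebraicClosure k/k),
      (∀ a : F, σ (algebraMap F _ a) = algebraMap F _ a) → s σ x = x ∧ s σ y = y)
    (hxy : (W⁄M).Nonsingular x y) (hx : ∀ c : F, x ≠ algebraMap F M c) :
    ∃ (A₀ : ValuationSubring M) (ψ₀ : A₀ →+* AlgebraicClosure k), IsOnlyPlaceFin s A₀ ψ₀ :=
  one_fieldR W hrk hp hsha htr hrt
    (exists_div_pow (AlgebraicClosure k) W hp (hrt p hp.one_le)) s hs hsec hfix hxy hx

end Pool.Agent.Lib.MP_2f3286_ag.UA
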