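import Pool.Agent.Lib.MP_2f3286_ag.Pt.OverDefs

/-!
# Integral closures in function fields
-/

open Polynomial IntermediateField
open scoped IntermediateField.algebraAdjoinAdjoin

namespace Pool.Agent.Lib.MP_2f3286_ag.UA

section FG

variable {k L : Type*} [Field k] [Field L] [Algebra k L]

/-- the integral closure of `k[t]` in a finite extension of `k(t)` is finite over `k[t]` -/
theorem finite_closure [CharZero k] (t : L) (ht : Transcendental k t)
    [FiniteDimensional (adjoin k {t}) L] :
    Module.Finite (Algebra.adjoin k {t}) (integralClosure (Algebra.adjoin k {t}) L) := by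
  let e := Polynomial.algEquivOfTranscendental k t ht
  have h1 : IsPrincipalIdealRing (Algebra.adjoin k {t}) :=
    IsPrincipalIdealRing.of_surjective e.toRingEquiv.toRingHom e.surjective
  have h2 : IsNoetherianRing (Algebra.adjoin k {t}) := inferInstance
  have h3 : IsIntegrallyClosed (Algebra.adjoin k {t}) := inferInstance
  have h0 : CharZero (adjoin k {t}) :=
    charZero_of_injective_algebraMap (algebraMap k (adjoin k {t})).injective
  have h4 : Algebra.IsSeparable (adjoin k {t}) L := inferInstance
  exact IsIntegralClosure.finite (Algebra.adjoin k {t}) (adjoin k {t}) L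
    (integralClosure (Algebra.adjoin k {t}) L)

/-- elements of `k[t, 1 / q]` -/
theorem exists_pow_mul_mem (t q : L) (hq : q ∈ Algebra.adjoin k {t}) (hq0 : q ≠ 0) {a : L}
    (ha : a ∈ Algebra.adjoin k {t, q⁻¹}) : ∃ n : ℕ, q ^ n * a ∈ Algebra.adjoin k {t} := by
  induction ha using Algebra.adjoin_induction with
  | mem x hx =>
    rcases hx with rfl | hx
    · exact ⟨0, by rw [pow_zero, one_mul]; exact Algebra.subset_adjoin rfl⟩
    · rw [Set.mem_singleton_iff] at hx
      rw [hx]
      exact ⟨1, by rw [pow_one, mul_inv_cancel₀ hq0]; exact one_mem _⟩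
  | algebraMap c => exact ⟨0, by rw [pow_zero, one_mul]; exact Subalgebra.algebraMap_mem _ c⟩
  | add x y _ _ hx hy =>
    obtain ⟨n, hn⟩ := hx
    obtain ⟨m, hm⟩ := hy
    refine ⟨n + m, ?_⟩
    have h1 : q ^ (n + m) * (x + y) = q ^ m * (q ^ n * x) + q ^ n * (q ^ m * y) := by ring
    rw [h1]
    exact add_mem (mul_mem (pow_mem hq m) hn) (mul_mem (pow_mem hq n) hm)
  | mul x y _ _ hx hy =>
    obtain ⟨n, hn⟩ := hx
    obtain ⟨m, hm⟩ := hy
    refine ⟨n + m, ?_⟩
    have h1 : q ^ (n + m) * (x * y) = (q ^ n * x) * (q ^ m * y) := by ring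
    rw [h1]
    exact mul_mem hn hm

/-- denominators of integral elements -/
theorem exists_pow_mul_integral (t q : L) (hq : q ∈ Algebra.adjoin k {t}) (hq0 : q ≠ 0) {h : L}
    (hh : IsIntegral (Algebra.adjoin k {t, q⁻¹}) h) :
    ∃ n : ℕ, IsIntegral (Algebra.adjoin k {t}) (q ^ n * h) := by
  obtain ⟨f, hf, hf0⟩ := hh
  -- a common denominator
  obtain ⟨N, hN⟩ : ∃ N : ℕ, ∀ i, q ^ N * (f.coeff i : L) ∈ Algebra.adjoin k {t} := by
    have key : ∀ s : Finset ℕ, ∃ N : ℕ, ∀ i ∈ s, q ^ N * (f.coeff i : L) ∈
        Algebra.adjoin k {t} := by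
      intro s
      induction s using Finset.induction_on with
      | empty => exact ⟨0, fun i hi => absurd hi (Finset.notMem_empty i)⟩
      | insert a s ha ih =>
        obtain ⟨N, hN⟩ := ih
        obtain ⟨n, hn⟩ := exists_pow_mul_mem t q hq hq0 (f.coeff a).2
        refine ⟨N + n, fun i hi => ?_⟩
        rcases Finset.mem_insert.1 hi with rfl | hi
        · have h1 : q ^ (N + n) * (f.coeff i : L) = q ^ N * (q ^ n * (f.coeff i : L)) := by ring
          rw [h1]
          exact mul_mem (pow_mem hq N) hn
        · have h1 : q ^ (N + n) * (f.coeff i : L) = q ^ n * (q ^ N * (f.coeff i : L)) := by ring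
          rw [h1]
          exact mul_mem (pow_mem hq n) (hN i hi)
    obtain ⟨N, hN⟩ := key f.support
    refine ⟨N, fun i => ?_⟩
    by_cases hi : i ∈ f.support
    · exact hN i hi
    · rw [Polynomial.notMem_support_iff.1 hi]
      simp
  refine ⟨N, ?_⟩
  -- the scaled polynomial
  let g : L[X] := (f.map (algebraMap _ L)).scaleRoots (q ^ N)
  have hgm : g.Monic := (monic_scaleRoots_iff _).2 (hf.map _)
  have hg0 : g.eval (q ^ N * h) = 0 := by
    have h1 := scaleRoots_aeval_eq_zero (p := f.map (algebraMap _ L)) (a := h) (r := q ^ N)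
      (by rw [aeval_def, eval₂_map]; exact hf0)
    simpa [aeval_def] using h1
  have hgc : ∀ i, g.coeff i ∈ Algebra.adjoin k {t} := by
    intro i
    have h1 : g.coeff i = (f.coeff i : L) * (q ^ N) ^ ((f.map (algebraMap _ L)).natDegree - i) := by
      simp only [g, coeff_scaleRoots, coeff_map]
      rfl
    rw [h1]
    by_cases hi : (f.map (algebraMap _ L)).natDegree ≤ i
    · rw [Nat.sub_eq_zero_of_le hi, pow_zero, mul_one]
      rcases hi.lt_or_eq with hi | hi
      · have h2 : f.coeff i = 0 := by
          apply coeff_eq_zero_of_natDegree_lt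
          rwa [hf.natDegree_map] at hi
        rw [h2]
        exact zero_mem _
      · have h2 : f.coeff i = 1 := by
          rw [← hi, hf.natDegree_map]
          exact hf.coeff_natDegree
        rw [h2]
        exact one_mem _
    · push Not at hi
      obtain ⟨m, hm⟩ : ∃ m, (f.map (algebraMap _ L)).natDegree - i = m + 1 :=
        ⟨_, (Nat.sub_add_cancel (Nat.sub_pos_of_lt hi)).symm⟩
      rw [hm, pow_succ]
      have h2 : (f.coeff i : L) * ((q ^ N) ^ m * q ^ N) = (q ^ N) ^ m * (q ^ N * f.coeff i) := by
        ring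
      rw [h2]
      exact mul_mem (pow_mem (pow_mem hq N) m) (hN i)
  obtain ⟨g', hg', -, hg'm⟩ := Polynomial.lifts_and_natDegree_eq_and_monic
    (f := algebraMap (Algebra.adjoin k {t}) L) (p := g)
    ((Polynomial.lifts_iff_coeff_lifts _).2 fun i => ⟨⟨_, hgc i⟩, rfl⟩) hgm
  refine ⟨g', hg'm, ?_⟩
  rw [← eval_map, hg', hg0]

/-- **The integral closure of `k[t, 1 / q]` is finitely generated and integrally closed.** -/
theorem exists_closure [CharZero k] (t : L) (ht : Transcendental k t)
    [FiniteDimensional (adjoin k {t}) L] (q : L) (hq : q ∈ Algebra.adjoin k {t}) (hq0 : q ≠ 0) :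
    ∃ R : Subalgebra k L, R.FG ∧ (∀ h : L, h ∈ R ↔ IsIntegral (Algebra.adjoin k {t, q⁻¹}) h) ∧
      ∀ h : L, IsIntegral R h → h ∈ R := by
  classical
  let R : Subalgebra k L := (integralClosure (Algebra.adjoin k {t, q⁻¹}) L).restrictScalars k
  have hR : ∀ h : L, h ∈ R ↔ IsIntegral (Algebra.adjoin k {t, q⁻¹}) h := fun h => Iff.rfl
  refine ⟨R, ?_, hR, ?_⟩
  · have hfin := finite_closure t ht
    obtain ⟨S, hS⟩ := hfin.fg_top
    let T : Finset L := insert t (insert q⁻¹
      (S.image (Subtype.val : integralClosure (Algebra.adjoin k {t}) L → L)))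
    refine ⟨T, le_antisymm (Algebra.adjoin_le ?_) fun h hh => ?_⟩
    · intro x hx
      rw [Finset.mem_coe, Finset.mem_insert, Finset.mem_insert, Finset.mem_image] at hx
      rcases hx with rfl | rfl | ⟨y, -, rfl⟩
      · exact (hR _).2 (isIntegral_algebraMap
          (x := (⟨x, Algebra.subset_adjoin (Or.inl rfl)⟩ : Algebra.adjoin k {x, q⁻¹})))
      · exact (hR _).2 (isIntegral_algebraMap
          (x := (⟨q⁻¹, Algebra.subset_adjoin (Or.inr rfl)⟩ : Algebra.adjoin k {t, q⁻¹})))
      · refine (hR _).2 ?_
        have h1 : IsIntegral (Algebra.adjoin k {t}) (y : L) := y.2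
        obtain ⟨p, hp, hp0⟩ := h1
        let i : Algebra.adjoin k {t} →+* Algebra.adjoin k {t, q⁻¹} :=
          (Subalgebra.inclusion (Algebra.adjoin_mono (fun z hz => Or.inl hz))).toRingHom
        refine ⟨p.map i, hp.map i, ?_⟩
        rw [eval₂_map]
        exact hp0
    · obtain ⟨n, hn⟩ := exists_pow_mul_integral t q hq hq0 ((hR h).1 hh)
      have hqT : q⁻¹ ∈ Algebra.adjoin k (T : Set L) :=
        Algebra.subset_adjoin (by simp [T])
      have htT : Algebra.adjoin k {t} ≤ Algebra.adjoin k (T : Set L) := by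
        refine Algebra.adjoin_mono ?_
        rintro z rfl
        simp [T]
      have h1 : ∀ z : integralClosure (Algebra.adjoin k {t}) L,
          z ∈ Submodule.span (Algebra.adjoin k {t}) (S : Set _) →
          (z : L) ∈ Algebra.adjoin k (T : Set L) := by
        intro z hz
        induction hz using Submodule.span_induction with
        | mem z hz =>
          apply Algebra.subset_adjoin
          simp only [T, Finset.coe_insert, Finset.coe_image]
          exact Or.inr (Or.inr ⟨z, hz, rfl⟩)
        | zero => exact zero_mem _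
        | add x y _ _ hx hy => exact add_mem hx hy
        | smul a x _ hx =>
          have : ((a • x : integralClosure (Algebra.adjoin k {t}) L) : L) = (a : L) * x := by
            rw [Subalgebra.coe_smul, Algebra.smul_def]
            rfl
          rw [this]
          exact mul_mem (htT a.2) hx
      have h2 := h1 ⟨_, hn⟩ (by rw [hS]; trivial)
      have h3 : h = (q⁻¹) ^ n * (q ^ n * h) := by
        rw [← mul_assoc, ← mul_pow, inv_mul_cancel₀ hq0, one_pow, one_mul]
      rw [h3]
      exact mul_mem (pow_mem hqT n) h2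
  · intro h hh
    have h1 : IsIntegral (integralClosure (Algebra.adjoin k {t, q⁻¹}) L) h := hh
    exact (hR h).2 (isIntegral_trans h h1)

end FG

end Pool.Agent.Lib.MP_2f3286_ag.UA
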