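import Pool.Agent.Lib.MP_2f3286_ag.UA.Loc

/-!
# SM2: places over the completions of `k` give places over the completions of a finite extension

`places_up`: a section which is over every completion of `k` the section of a place is over every
completion of a finite extension `F` of `k` the section of a place. `places_up_of` keeps a property of
the valuation ring which is invariant under the Galois group of `M` over `K` (for instance that it
contains the functions in a subring of `K`).
-/

open IsDedekindDomain NumberField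

namespace Pool.Agent.Lib.MP_2f3286_ag.UA

variable {k : Type*} [Field k] [NumberField k]
  {F : Type*} [Field F] [NumberField F] [Algebra k F]
  [Algebra F (AlgebraicClosure k)] [IsScalarTower k F (AlgebraicClosure k)]
  {K : Type*} [Field K] {M : Type*} [Field M] [Algebra K M] [Algebra (AlgebraicClosure k) M]

/-- One finite place `w` of `F`, over the finite place `w.under (𝓞 k)` of `k`. -/
theorem place_up_of (s : Gal(AlgebraicClosure k/k) →* Gal(M/K))
    (hsec : ∀ σ a, s σ (algebraMap (AlgebraicClosure k) M a) =
      algebraMap (AlgebraicClosure k) M (σ a))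
    (P : ValuationSubring M → Prop)
    (hP : ∀ (g : Gal(M/K)) (A A' : ValuationSubring M), (∀ z, z ∈ A' ↔ g z ∈ A) → P A → P A')
    (w : HeightOneSpectrum (𝓞 F))
    (hloc : ∃ (ι : AlgebraicClosure k →ₐ[k] AlgebraicClosure ((w.under (𝓞 k)).adicCompletion k))
        (A : ValuationSubring M)
        (φ : A →+* AlgebraicClosure ((w.under (𝓞 k)).adicCompletion k)),
        Sel.IsPlaceOf s ((w.under (𝓞 k)).adicCompletion k)
          (ι : _ →+* AlgebraicClosure ((w.under (𝓞 k)).adicCompletion k)) A φ ∧ P A) :
    ∃ (ι : AlgebraicClosure k →ₐ[F] AlgebraicClosure (w.adicCompletion F))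
      (A : ValuationSubring M) (φ : A →+* AlgebraicClosure (w.adicCompletion F)),
      Sel.IsPlaceOf s (w.adicCompletion F)
        (ι : _ →+* AlgebraicClosure (w.adicCompletion F)) A φ ∧ P A := by
  have hw : w.asIdeal.LiesOver (w.under (𝓞 k)).asIdeal := ⟨rfl⟩
  obtain ⟨ι, A, φ, hp, hA⟩ := hloc
  obtain ⟨ρ, ι', A', φ', j, -, hp', hA', -, -⟩ := local_up (F := k) s hsec (w.under (𝓞 k)) w ι A φ hp
  exact ⟨ι', A', φ', hp', hP (s ρ) A A' hA' hA⟩

/-- **Places over the completions of `F`**, with an invariant property of the valuation ring. -/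
theorem places_up_of (s : Gal(AlgebraicClosure k/k) →* Gal(M/K))
    (hsec : ∀ σ a, s σ (algebraMap (AlgebraicClosure k) M a) =
      algebraMap (AlgebraicClosure k) M (σ a))
    (P : ValuationSubring M → Prop)
    (hP : ∀ (g : Gal(M/K)) (A A' : ValuationSubring M), (∀ z, z ∈ A' ↔ g z ∈ A) → P A → P A')
    (hloc : ∀ v : HeightOneSpectrum (𝓞 k),
      ∃ (ι : AlgebraicClosure k →ₐ[k] AlgebraicClosure (v.adicCompletion k))
        (A : ValuationSubring M) (φ : A →+* AlgebraicClosure (v.adicCompletion k)),
        Sel.IsPlaceOf s (v.adicCompletion k)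
          (ι : _ →+* AlgebraicClosure (v.adicCompletion k)) A φ ∧ P A)
    (w : HeightOneSpectrum (𝓞 F)) :
    ∃ (ι : AlgebraicClosure k →ₐ[F] AlgebraicClosure (w.adicCompletion F))
      (A : ValuationSubring M) (φ : A →+* AlgebraicClosure (w.adicCompletion F)),
      Sel.IsPlaceOf s (w.adicCompletion F)
        (ι : _ →+* AlgebraicClosure (w.adicCompletion F)) A φ ∧ P A :=
  place_up_of s hsec P hP w (hloc _)

/-- **Places over the completions of `F`.** -/
theorem places_up (s : Gal(AlgebraicClosure k/k) →* Gal(M/K))
    (hsec : ∀ σ a, s σ (algebraMap (AlgebraicClosure k) M a) =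
      algebraMap (AlgebraicClosure k) M (σ a))
    (hloc : ∀ v : HeightOneSpectrum (𝓞 k),
      ∃ (ι : AlgebraicClosure k →ₐ[k] AlgebraicClosure (v.adicCompletion k))
        (A : ValuationSubring M) (φ : A →+* AlgebraicClosure (v.adicCompletion k)),
        Sel.IsPlaceOf s (v.adicCompletion k)
          (ι : _ →+* AlgebraicClosure (v.adicCompletion k)) A φ)
    (w : HeightOneSpectrum (𝓞 F)) :
    ∃ (ι : AlgebraicClosure k →ₐ[F] AlgebraicClosure (w.adicCompletion F))
      (A : ValuationSubring M) (φ : A →+* AlgebraicClosure (w.adicCompletion F)),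
      Sel.IsPlaceOf s (w.adicCompletion F)
        (ι : _ →+* AlgebraicClosure (w.adicCompletion F)) A φ := by
  obtain ⟨ι, A, φ, h, -⟩ := places_up_of (F := F) s hsec (fun _ => True) (fun _ _ _ _ _ => trivial)
    (fun v => by
      obtain ⟨ι, A, φ, h⟩ := hloc v
      exact ⟨ι, A, φ, h, trivial⟩) w
  exact ⟨ι, A, φ, h⟩

/-- The functions in a subset of `K` (for instance the ring of functions of a curve) stay in the
valuation ring. -/
theorem places_up_R (s : Gal(AlgebraicClosure k/k) →* Gal(M/K))
    (hsec : ∀ σ a, s σ (algebraMap (AlgebraicClosure k) M a) =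
      algebraMap (AlgebraicClosure k) M (σ a)) (R : Set K)
    (hloc : ∀ v : HeightOneSpectrum (𝓞 k),
      ∃ (ι : AlgebraicClosure k →ₐ[k] AlgebraicClosure (v.adicCompletion k))
        (A : ValuationSubring M) (φ : A →+* AlgebraicClosure (v.adicCompletion k)),
        Sel.IsPlaceOf s (v.adicCompletion k)
          (ι : _ →+* AlgebraicClosure (v.adicCompletion k)) A φ ∧ ∀ r ∈ R, algebraMap K M r ∈ A)
    (w : HeightOneSpectrum (𝓞 F)) :
    ∃ (ι : AlgebraicClosure k →ₐ[F] AlgebraicClosure (w.adicCompletion F))
      (A : ValuationSubring M) (φ : A →+* AlgebraicClosure (w.adicCompletion F)),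
      Sel.IsPlaceOf s (w.adicCompletion F)
        (ι : _ →+* AlgebraicClosure (w.adicCompletion F)) A φ ∧
        ∀ r ∈ R, algebraMap K M r ∈ A :=
  places_up_of s hsec (fun A => ∀ r ∈ R, algebraMap K M r ∈ A)
    (fun g A A' h hA r hr => (h _).2 (by rw [g.commutes]; exact hA r hr)) hloc w

/-- The same for a subfield `E` of the algebraic closure of `k`, finite over `k`: the places of `s` over
the completions of `k` give places over the completions of `E`. -/
theorem places_up_E (s : Gal(AlgebraicClosure k/k) →* Gal(M/K))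
    (hsec : ∀ σ a, s σ (algebraMap (AlgebraicClosure k) M a) =
      algebraMap (AlgebraicClosure k) M (σ a))
    (hloc : ∀ v : HeightOneSpectrum (𝓞 k),
      ∃ (ι : AlgebraicClosure k →ₐ[k] AlgebraicClosure (v.adicCompletion k))
        (A : ValuationSubring M) (φ : A →+* AlgebraicClosure (v.adicCompletion k)),
        Sel.IsPlaceOf s (v.adicCompletion k)
          (ι : _ →+* AlgebraicClosure (v.adicCompletion k)) A φ)
    (E : IntermediateField k (AlgebraicClosure k)) [NumberField E]
    (w : HeightOneSpectrum (𝓞 E)) :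
    ∃ (ι : AlgebraicClosure k →ₐ[E] AlgebraicClosure (w.adicCompletion E))
      (A : ValuationSubring M) (φ : A →+* AlgebraicClosure (w.adicCompletion E)),
      Sel.IsPlaceOf s (w.adicCompletion E)
        (ι : _ →+* AlgebraicClosure (w.adicCompletion E)) A φ :=
  places_up s hsec hloc w

end Pool.Agent.Lib.MP_2f3286_ag.UA
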