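import Pool.Agent.Lib.MP_2f3286_ag.UA.SM1
import Pool.Agent.Lib.MP_2f3286_ag.Pt.Places

/-!
# Maximal unramified extensions and unramified coverings
-/

open Polynomial IntermediateField

namespace Pool.Agent.Lib.MP_2f3286_ag.UA

open Pool.Agent.Lib.MP_2f3286_ag.Pt

/-- an element of the inertia group fixes the simple roots -/
theorem inert_fix_root {K₁ Ω : Type*} [Field K₁] [Field Ω] [Algebra K₁ Ω] (V : ValuationSubring Ω)
    (g : Gal(Ω/K₁)) (hg : IsInertAt V g) (f : K₁[X]) (hf : ∀ i, algebraMap K₁ Ω (f.coeff i) ∈ V)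
    (θ : Ω) (hθ : θ ∈ V) (h0 : aeval θ f = 0) (hd0 : aeval θ (derivative f) ≠ 0)
    (hd : (aeval θ (derivative f))⁻¹ ∈ V) : g θ = θ := by
  by_contra hne
  have h1 : g θ ∈ V := (hg θ hθ).1
  obtain ⟨F, hF⟩ : ∃ F : V[X], F.map V.subtype = f.map (algebraMap K₁ Ω) := by
    have : f.map (algebraMap K₁ Ω) ∈ lifts V.subtype := by
      rw [lifts_iff_coeff_lifts]
      intro n
      rw [coeff_map]
      exact ⟨⟨_, hf n⟩, rfl⟩
    obtain ⟨F, hF⟩ := this
    exact ⟨F, hF⟩
  have hev : ∀ z : V, ((F.eval z : V) : Ω) = aeval (z : Ω) f := by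
    intro z
    change V.subtype (F.eval z) = _
    rw [← eval_map_algebraMap, ← hF, eval_map, ← eval₂_at_apply]
    rfl
  have hdv : ∀ z : V, ((F.derivative.eval z : V) : Ω) = aeval (z : Ω) (derivative f) := by
    intro z
    change V.subtype (F.derivative.eval z) = _
    rw [← eval_map_algebraMap, ← derivative_map, ← hF, derivative_map, eval_map, ← eval₂_at_apply]
    rfl
  obtain ⟨δ, hδ⟩ : ∃ δ : V, (δ : Ω) = g θ - θ := ⟨⟨g θ - θ, sub_mem h1 hθ⟩, rfl⟩
  obtain ⟨T, hT⟩ : ∃ T : V, (T : Ω) = θ := ⟨⟨θ, hθ⟩, rfl⟩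
  obtain ⟨r, hr⟩ := F.binomExpansion T δ
  have e1 : F.eval (T + δ) = 0 := by
    apply Subtype.ext
    rw [hev]
    change aeval ((T : Ω) + δ) f = 0
    rw [hT, hδ, add_sub_cancel, ← AlgEquiv.coe_toAlgHom g, aeval_algHom_apply, h0]
    exact map_zero _
  have e2 : F.eval T = 0 := by
    apply Subtype.ext
    rw [hev, hT, h0]
    rfl
  rw [e1, e2, zero_add] at hr
  have hδ0 : δ ≠ 0 := by
    intro h
    rw [h] at hδ
    exact hne (sub_eq_zero.1 hδ.symm)
  have e3 : F.derivative.eval T = -(r * δ) := by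
    have h2 : (F.derivative.eval T + r * δ) * δ = 0 := by
      linear_combination -hr
    have h3 := (mul_eq_zero.1 h2).resolve_right hδ0
    linear_combination h3
  have hval : V.valuation (δ : Ω) < 1 := by
    rw [hδ]
    exact (hg θ hθ).2
  have e4 : V.valuation (aeval θ (derivative f)) < 1 := by
    rw [← hT, ← hdv, e3]
    change V.valuation (-((r : Ω) * (δ : Ω))) < 1
    rw [Valuation.map_neg, map_mul]
    calc V.valuation (r : Ω) * V.valuation (δ : Ω) ≤ 1 * V.valuation (δ : Ω) :=
          mul_le_mul_left ((V.valuation_le_one_iff _).2 r.2) _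
      _ = V.valuation (δ : Ω) := one_mul _
      _ < 1 := hval
  have e5 : V.valuation (aeval θ (derivative f))⁻¹ ≤ 1 := (V.valuation_le_one_iff _).2 hd
  rw [map_inv₀] at e5
  have h7 : V.valuation (aeval θ (derivative f)) ≠ 0 := by
    rw [Ne, Valuation.zero_iff]
    exact hd0
  rw [inv_le_one₀ (zero_lt_iff.2 h7)] at e5
  exact absurd e4 (not_lt.2 e5)

/-- **Unramified coverings**: the maximal unramified extension is the same. -/
theorem maxUnram_down {k kb K M : Type*} [Field k] [CharZero k] [Field kb] [Algebra k kb]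
    [Algebra.IsAlgebraic k kb] [Field K] [Algebra k K]
    [Field M] [Algebra K M] [Algebra.IsAlgebraic K M] [Algebra kb M] [Algebra k M]
    [IsScalarTower k K M] [IsScalarTower k kb M]
    {K₁ : Type*} [Field K₁] [Algebra k K₁] [Algebra K₁ K] [IsScalarTower k K₁ K] [Algebra K₁ M]
    [IsScalarTower K₁ K M] (halg : Algebra.IsAlgebraic K₁ K)
    (R₁ : Subalgebra k K₁) (R : Subalgebra k K)
    (hR : ∀ h : K, h ∈ R ↔ IsIntegral R₁ h) (f : K₁[X]) (hf : ∀ i, f.coeff i ∈ R₁) (θ : K)
    (hθ : θ ∈ R) (hθK : adjoin K₁ {θ} = ⊤) (h0 : aeval θ f = 0)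
    (hd0 : aeval θ (derivative f) ≠ 0) (hd : (aeval θ (derivative f))⁻¹ ∈ R)
    (hM : IsMaxUnramOver R K M kb) : IsMaxUnramOver R₁ K₁ M kb ∧ IsGalois K₁ M := by
  have hK0 : CharZero K := charZero_of_injective_algebraMap (algebraMap k K).injective
  have hM0 : CharZero M := charZero_of_injective_algebraMap (algebraMap K M).injective
  have hK10 : CharZero K₁ := charZero_of_injective_algebraMap (algebraMap k K₁).injective
  have t3 : IsScalarTower K₁ K (AlgebraicClosure M) := IsScalarTower.of_algebraMap_eq fun a => by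
    rw [IsScalarTower.algebraMap_apply K₁ M (AlgebraicClosure M),
      IsScalarTower.algebraMap_apply K₁ K M, ← IsScalarTower.algebraMap_apply K M]
  have t4 : IsScalarTower R₁ K M := IsScalarTower.of_algebraMap_eq fun a =>
    IsScalarTower.algebraMap_apply K₁ K M (a : K₁)
  have t8 : IsScalarTower R₁ K (AlgebraicClosure M) := IsScalarTower.of_algebraMap_eq fun a =>
    IsScalarTower.algebraMap_apply K₁ K (AlgebraicClosure M) (a : K₁)
  have t5 : IsScalarTower k K (AlgebraicClosure M) := IsScalarTower.of_algebraMap_eq fun a => by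
    rw [IsScalarTower.algebraMap_apply k M (AlgebraicClosure M),
      IsScalarTower.algebraMap_apply k K M, ← IsScalarTower.algebraMap_apply K M]
  have t6 : IsScalarTower k K₁ (AlgebraicClosure M) := IsScalarTower.of_algebraMap_eq fun a => by
    rw [IsScalarTower.algebraMap_apply k K (AlgebraicClosure M),
      IsScalarTower.algebraMap_apply k K₁ K, ← IsScalarTower.algebraMap_apply K₁ K]
  have t7 : IsScalarTower k kb (AlgebraicClosure M) := IsScalarTower.of_algebraMap_eq fun a => by
    rw [IsScalarTower.algebraMap_apply k M (AlgebraicClosure M),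
      IsScalarTower.algebraMap_apply k kb M, ← IsScalarTower.algebraMap_apply kb M]
  -- the places
  have hpl : ∀ V : ValuationSubring (AlgebraicClosure M),
      IsPlcOver R₁ kb V ↔ IsPlcOver R kb V := by
    intro V
    refine ⟨fun h => ⟨h.1, fun r => ?_⟩, fun h => ⟨h.1, fun r => ?_⟩⟩
    · have h1 : IsIntegral R₁ (r : K) := (hR r).1 r.2
      have h2 : IsIntegral R₁ (algebraMap K (AlgebraicClosure M) (r : K)) := by
        obtain ⟨p, hp, hp0⟩ := h1
        refine ⟨p, hp, ?_⟩
        have h3 := congrArg (algebraMap K (AlgebraicClosure M)) hp0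
        rw [hom_eval₂, _root_.map_zero, ← IsScalarTower.algebraMap_eq R₁ K (AlgebraicClosure M)] at h3
        exact h3
      exact PTAux.mem_of_isIntegral (R := R₁) h.2 h2
    · have h1 : algebraMap K₁ K (r : K₁) ∈ R :=
        (hR _).2 (isIntegral_algebraMap (R := R₁) (A := K) (x := r))
      have h2 := h.2 ⟨_, h1⟩
      have h3 : algebraMap R₁ (AlgebraicClosure M) r =
          algebraMap K (AlgebraicClosure M) (algebraMap K₁ K (r : K₁)) :=
        IsScalarTower.algebraMap_apply R₁ K (AlgebraicClosure M) r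
      rw [h3]
      exact h2
  -- the inertia groups
  have hin : ∀ V : ValuationSubring (AlgebraicClosure M), IsPlcOver R kb V →
      ∀ g : Gal(AlgebraicClosure M/K₁), IsInertAt V g → ∀ a : K,
        g (algebraMap K (AlgebraicClosure M) a) = algebraMap K (AlgebraicClosure M) a := by
    intro V hV g hg
    have hinj := (algebraMap K (AlgebraicClosure M)).injective
    have haev : ∀ p : K₁[X], aeval (algebraMap K (AlgebraicClosure M) θ) p =
        algebraMap K (AlgebraicClosure M) (aeval θ p) := fun p => aeval_algebraMap_apply _ _ _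
    have h1 : g (algebraMap K (AlgebraicClosure M) θ) = algebraMap K (AlgebraicClosure M) θ := by
      refine inert_fix_root V g hg f (fun i => ?_) _ (hV.2 ⟨θ, hθ⟩) ?_ ?_ ?_
      · exact ((hpl V).2 hV).2 ⟨f.coeff i, hf i⟩
      · rw [haev, h0, _root_.map_zero]
      · rw [haev]
        intro h
        exact hd0 (hinj (h.trans (_root_.map_zero _).symm))
      · rw [haev, ← map_inv₀]
        exact hV.2 ⟨_, hd⟩
    intro a
    have h2 : a ∈ adjoin K₁ {θ} := by
      rw [hθK]
      trivial
    induction h2 using adjoin_induction with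
    | mem x hx =>
      rw [Set.mem_singleton_iff.1 hx]
      exact h1
    | algebraMap x =>
      rw [← IsScalarTower.algebraMap_apply K₁ K (AlgebraicClosure M)]
      exact g.commutes x
    | add x y _ _ hx hy => rw [map_add, map_add, hx, hy]
    | inv x _ hx => rw [map_inv₀, map_inv₀, hx]
    | mul x y _ _ hx hy => rw [map_mul, map_mul, hx, hy]
  have hmax : IsMaxUnramOver R₁ K₁ M kb := by
    intro x
    rw [hM x]
    refine ⟨fun h V hV g hg => ?_, fun h V hV g hg => ?_⟩
    · let g' : Gal(AlgebraicClosure M/K) :=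
        AlgEquiv.ofRingEquiv (f := (g : AlgebraicClosure M ≃+* AlgebraicClosure M))
          (hin V ((hpl V).1 hV) g hg)
      exact h V ((hpl V).1 hV) g' hg
    · exact h V ((hpl V).2 hV) (g.restrictScalars K₁) hg
  refine ⟨hmax, ?_⟩
  have halg' : Algebra.IsAlgebraic K₁ M := Algebra.IsAlgebraic.trans K₁ K M
  have hcl : IsAlgClosure K₁ (AlgebraicClosure M) :=
    ⟨inferInstance, Algebra.IsAlgebraic.trans K₁ M (AlgebraicClosure M)⟩
  have hno : Normal K₁ (AlgebraicClosure M) := IsAlgClosure.normal K₁ (AlgebraicClosure M)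
  let M' : IntermediateField K₁ (AlgebraicClosure M) :=
    (IsScalarTower.toAlgHom K₁ M (AlgebraicClosure M)).fieldRange
  have hM' : ∀ x, x ∈ M' ↔ ∃ m : M, algebraMap M (AlgebraicClosure M) m = x := fun x => Iff.rfl
  have hnM' : Normal K₁ M' := by
    rw [IntermediateField.normal_iff_forall_map_le']
    rintro σ _ ⟨x, hx, rfl⟩
    change σ x ∈ M'
    rw [hM', hmax]
    have hx' := (hmax x).1 ((hM' x).1 hx)
    intro V hV g hg
    -- the conjugate
    let V' : ValuationSubring (AlgebraicClosure M) :=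
      V.comap (σ : AlgebraicClosure M →+* AlgebraicClosure M)
    have hV' : ∀ z, z ∈ V' ↔ σ z ∈ V := fun z => Iff.rfl
    have hlt : ∀ z, V'.valuation z < 1 ↔ V.valuation (σ z) < 1 := by
      intro z
      rw [← ValuationSubring.mem_nonunits_iff, ← ValuationSubring.mem_nonunits_iff,
        ValuationSubring.mem_nonunits_iff_or, ValuationSubring.mem_nonunits_iff_or, hV',
        map_inv₀, _root_.map_eq_zero]
    have hσk : ∀ a : kb, σ (algebraMap kb (AlgebraicClosure M) a) ∈ V := by
      intro a
      have h1 : IsIntegral k (algebraMap kb (AlgebraicClosure M) a) :=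
        ((Algebra.IsAlgebraic.isAlgebraic (R := k) a).isIntegral).map
          (IsScalarTower.toAlgHom k kb (AlgebraicClosure M))
      have h2 : IsIntegral k (σ (algebraMap kb (AlgebraicClosure M) a)) :=
        h1.map ((σ : AlgebraicClosure M →ₐ[K₁] AlgebraicClosure M).restrictScalars k)
      refine PTAux.mem_of_isIntegral (R := k) (fun c => ?_) h2
      rw [IsScalarTower.algebraMap_apply k kb (AlgebraicClosure M)]
      exact hV.1.1 _
    have hpV' : IsPlcOver R₁ kb V' := by
      refine ⟨⟨fun a => hσk a, fun htop => hV.1.2 ?_⟩, fun r => ?_⟩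
      · refine top_unique fun z _ => ?_
        have h1 : σ.symm z ∈ V' := by
          rw [htop]
          trivial
        rw [hV', σ.apply_symm_apply] at h1
        exact h1
      · have h1 : σ (algebraMap R₁ (AlgebraicClosure M) r) = algebraMap R₁ (AlgebraicClosure M) r :=
          σ.commutes (r : K₁)
        rw [hV', h1]
        exact hV.2 r
    let γ : Gal(AlgebraicClosure M/K₁) := (AlgEquiv.trans σ g).trans σ.symm
    have hg' : IsInertAt V' γ := by
      intro z hz
      have h1 := hg (σ z) ((hV' z).1 hz)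
      have h2 : σ (γ z) = g (σ z) := by
        change σ (σ.symm (g (σ z))) = g (σ z)
        rw [σ.apply_symm_apply]
      rw [hV', hlt, map_sub, h2]
      exact h1
    have h3 := hx' V' hpV' _ hg'
    have h4 : σ (γ x) = g (σ x) := by
      change σ (σ.symm (g (σ x))) = g (σ x)
      rw [σ.apply_symm_apply]
    exact h4.symm.trans (congrArg σ h3)
  have hnM : Normal K₁ M := by
    let e : M ≃ₐ[K₁] M' := AlgEquiv.ofInjectiveField (IsScalarTower.toAlgHom K₁ M (AlgebraicClosure M))
    exact Normal.of_algEquiv e.symm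
  have hsep : Algebra.IsSeparable K₁ M := inferInstance
  exact ⟨⟩

end Pool.Agent.Lib.MP_2f3286_ag.UA
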