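import Pool.Agent.Lib.MP_2f3286_ag.UA.SM1

/-!
# Arbitrarily small opens which are unramified over an open of the line
-/

open Polynomial IntermediateField
open scoped IntermediateField.algebraAdjoinAdjoin

namespace Pool.Agent.Lib.MP_2f3286_ag.UA

/-- integrality only depends on the range -/
theorem isIntegral_of_range {A B L : Type*} [CommRing A] [CommRing B] [Field L] [Algebra A L]
    [Algebra B L] (h : ∀ a : A, ∃ b : B, algebraMap B L b = algebraMap A L a) {x : L}
    (hx : IsIntegral A x) : IsIntegral B x := by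
  obtain ⟨p, hp, hp0⟩ := hx
  have h1 : p.map (algebraMap A L) ∈ lifts (algebraMap B L) := by
    rw [lifts_iff_coeff_lifts]
    intro n
    rw [coeff_map]
    exact h (p.coeff n)
  obtain ⟨q, hq, -, hqm⟩ := lifts_and_natDegree_eq_and_monic h1 (hp.map _)
  exact ⟨q, hqm, by rw [← eval_map, hq, eval_map]; exact hp0⟩

/-- a common denominator of finitely many elements -/
theorem exists_denominator {k K : Type*} [Field k] [Field K] [Algebra k K] (t : K)
    [FiniteDimensional (adjoin k {t}) K] (Z : Set K) (hZ : Z.Finite) :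
    ∃ q ∈ Algebra.adjoin k {t}, q ≠ 0 ∧ ∀ z ∈ Z, IsIntegral (Algebra.adjoin k {t}) (q * z) := by
  classical
  obtain ⟨y, hy0, hy⟩ := exists_integral_multiples (Algebra.adjoin k {t}) (adjoin k {t})
    hZ.toFinset
  refine ⟨y, y.2, fun h => hy0 (Subtype.ext h), fun z hz => ?_⟩
  have h1 := hy z ((Set.Finite.mem_toFinset hZ).2 hz)
  rwa [Algebra.smul_def] at h1

/-- the generator generates -/
theorem adjoin_gen_top {k K : Type*} [Field k] [Field K] [Algebra k K] (t : K) :
    adjoin k {AdjoinSimple.gen k t} = ⊤ := by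
  refine top_unique fun z _ => ?_
  have h1 : ∀ w : K, w ∈ adjoin k {t} → ∀ hw : w ∈ adjoin k {t},
      (⟨w, hw⟩ : adjoin k {t}) ∈ adjoin k {AdjoinSimple.gen k t} := by
    intro w hw
    induction hw using adjoin_induction with
    | mem x hx =>
      intro hw
      have hx' := Set.mem_singleton_iff.1 hx
      have : (⟨x, hw⟩ : adjoin k {t}) = AdjoinSimple.gen k t := Subtype.ext hx'
      rw [this]
      exact mem_adjoin_simple_self k _
    | algebraMap x =>
      intro hw
      exact IntermediateField.algebraMap_mem _ x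
    | add x y hx' hy' hx hy =>
      intro hw
      exact add_mem (hx hx') (hy hy')
    | inv x hx' hx =>
      intro hw
      exact inv_mem (hx hx')
    | mul x y hx' hy' hx hy =>
      intro hw
      exact mul_mem (hx hx') (hy hy')
  exact h1 z z.2 z.2

/-- **Arbitrarily small opens, unramified over an open of the line.** -/
theorem exists_small {k K : Type*} [Field k] [CharZero k] [Field K] [Algebra k K] (t : K)
    (ht : Transcendental k t) [FiniteDimensional (adjoin k {t}) K] (Z : Set K) (hZ : Z.Finite) :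
    ∃ (R : Subalgebra k K) (R₁ : Subalgebra k (adjoin k {t})) (f : (adjoin k {t})[X]) (θ : K),
      R.FG ∧ (∀ h : K, IsIntegral R h → h ∈ R) ∧ Z ⊆ R ∧ t ∈ R ∧
      R₁.FG ∧ (∀ h : adjoin k {t}, IsIntegral R₁ h → h ∈ R₁) ∧
      (∀ h : K, h ∈ R ↔ IsIntegral R₁ h) ∧
      (∀ i, f.coeff i ∈ R₁) ∧ θ ∈ R ∧ adjoin (adjoin k {t}) {θ} = ⊤ ∧ aeval θ f = 0 ∧
      aeval θ (derivative f) ≠ 0 ∧ (aeval θ (derivative f))⁻¹ ∈ R := by
  classical
  have hK0 : CharZero K := charZero_of_injective_algebraMap (algebraMap k K).injective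
  have hK10 : CharZero (adjoin k {t}) :=
    charZero_of_injective_algebraMap (algebraMap k (adjoin k {t})).injective
  have hsep : Algebra.IsSeparable (adjoin k {t}) K := inferInstance
  obtain ⟨θ, hθ⟩ := Field.exists_primitive_element (adjoin k {t}) K
  let f := minpoly (adjoin k {t}) θ
  have hf0 : aeval θ f = 0 := minpoly.aeval _ _
  have hfd : aeval θ (derivative f) ≠ 0 :=
    (Algebra.IsSeparable.isSeparable (adjoin k {t}) θ).aeval_derivative_ne_zero hf0
  let Z' : Set K := Z ∪ ({θ, (aeval θ (derivative f))⁻¹} ∪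
    (fun i => algebraMap (adjoin k {t}) K (f.coeff i)) '' (f.support : Set ℕ))
  have hZ' : Z'.Finite := hZ.union ((Set.toFinite _).union ((f.support.finite_toSet).image _))
  obtain ⟨q, hq, hq0, hqZ⟩ := exists_denominator (k := k) t Z' hZ'
  obtain ⟨R, hRfg, hR, hRn⟩ := exists_closure t ht q hq hq0
  -- the line
  let t₁ : adjoin k {t} := AdjoinSimple.gen k t
  have ht1 : Transcendental k t₁ := by
    intro h
    exact ht (h.algebraMap (A := K))
  have htop : adjoin k {t₁} = ⊤ := adjoin_gen_top t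
  have hfin1 : FiniteDimensional (adjoin k {t₁}) (adjoin k {t}) := by
    refine Module.Finite.of_surjective
      (Algebra.linearMap (adjoin k {t₁}) (adjoin k {t})) fun z => ?_
    have hz : z ∈ adjoin k {t₁} := by
      rw [htop]
      trivial
    exact ⟨⟨z, hz⟩, rfl⟩
  have hle : Algebra.adjoin k {t} = (Algebra.adjoin k {t₁}).map (adjoin k {t}).val := by
    rw [AlgHom.map_adjoin, Set.image_singleton]
    rfl
  obtain ⟨q₁, hq1, hq1q⟩ : ∃ q₁ ∈ Algebra.adjoin k {t₁}, (q₁ : K) = q := by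
    rw [hle] at hq
    obtain ⟨q₁, h1, h2⟩ := hq
    exact ⟨q₁, h1, h2⟩
  have hq10 : q₁ ≠ 0 := by
    rintro rfl
    exact hq0 (hq1q.symm.trans rfl)
  obtain ⟨R₁, hR1fg, hR1, hR1n⟩ := exists_closure t₁ ht1 q₁ hq1 hq10
  have hle' : Algebra.adjoin k {t, q⁻¹} = (Algebra.adjoin k {t₁, q₁⁻¹}).map (adjoin k {t}).val := by
    rw [AlgHom.map_adjoin, Set.image_pair]
    have h1 : (adjoin k {t}).val q₁⁻¹ = q⁻¹ := by
      rw [map_inv₀, ← hq1q]
      rfl
    rw [h1]
    rfl
  -- integral closures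
  have hRR : ∀ h : K, h ∈ R ↔ IsIntegral R₁ h := by
    intro h
    rw [hR]
    constructor
    · intro h1
      refine isIntegral_of_range (fun a => ?_) h1
      obtain ⟨b, hb, hba⟩ := (SetLike.ext_iff.1 hle' _).1 a.2
      exact ⟨⟨b, (hR1 b).2 (isIntegral_algebraMap
        (x := (⟨b, hb⟩ : Algebra.adjoin k {t₁, q₁⁻¹})))⟩, hba⟩
    · intro h1
      refine isIntegral_trans (A := integralClosure (Algebra.adjoin k {t, q⁻¹}) K) h
        (isIntegral_of_range (fun a => ?_) h1)
      have h2 : IsIntegral (Algebra.adjoin k {t₁, q₁⁻¹}) (a : adjoin k {t}) := (hR1 _).1 a.2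
      have h3 : IsIntegral (Algebra.adjoin k {t₁, q₁⁻¹}) ((a : adjoin k {t}) : K) := by
        obtain ⟨p, hp, hp0⟩ := h2
        refine ⟨p, hp, ?_⟩
        have h4 := congrArg (algebraMap (adjoin k {t}) K) hp0
        rw [hom_eval₂, _root_.map_zero] at h4
        exact h4
      have h5 : IsIntegral (Algebra.adjoin k {t, q⁻¹}) ((a : adjoin k {t}) : K) := by
        refine isIntegral_of_range (fun b => ?_) h3
        refine ⟨⟨((b : adjoin k {t}) : K), ?_⟩, rfl⟩
        rw [hle']
        exact ⟨_, b.2, rfl⟩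
      exact ⟨⟨_, h5⟩, rfl⟩
  have hqR : q⁻¹ ∈ R := (hR _).2 (isIntegral_algebraMap
    (x := (⟨q⁻¹, Algebra.subset_adjoin (Or.inr rfl)⟩ : Algebra.adjoin k {t, q⁻¹})))
  have htR : t ∈ R := (hR t).2 (isIntegral_algebraMap
    (x := (⟨t, Algebra.subset_adjoin (Or.inl rfl)⟩ : Algebra.adjoin k {t, q⁻¹})))
  have hZR : ∀ z ∈ Z', z ∈ R := by
    intro z hz
    have h1 : q * z ∈ R := by
      refine hRn _ (isIntegral_of_range (fun a => ?_) (hqZ z hz))
      have ha : (a : K) ∈ R := (Algebra.adjoin_le (Set.singleton_subset_iff.2 htR)) a.2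
      exact ⟨⟨_, ha⟩, rfl⟩
    have h2 := mul_mem hqR h1
    rwa [← mul_assoc, inv_mul_cancel₀ hq0, one_mul] at h2
  refine ⟨R, R₁, f, θ, hRfg, hRn, fun z hz => hZR z (Or.inl hz), htR, hR1fg, hR1n, hRR, ?_,
    hZR θ (Or.inr (Or.inl (Or.inl rfl))), hθ, hf0, hfd,
    hZR _ (Or.inr (Or.inl (Or.inr rfl)))⟩
  intro i
  by_cases hi : i ∈ f.support
  · have h1 := (hRR _).1 (hZR _ (Or.inr (Or.inr ⟨i, hi, rfl⟩)))
    have t1 : IsScalarTower R₁ (adjoin k {t}) K := IsScalarTower.of_algebraMap_eq fun a => rfl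
    exact hR1n _ ((isIntegral_algebraMap_iff (algebraMap (adjoin k {t}) K).injective).1 h1)
  · rw [notMem_support_iff.1 hi]
    exact zero_mem _

end Pool.Agent.Lib.MP_2f3286_ag.UA
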