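import Pool.Agent.Lib.MP_2f3286_ag.UA.SN3
import Pool.Agent.Lib.MP_2f3286_ag.UA.Cp2

/-!
# Arbitrarily small opens of a covering
-/

open Polynomial IntermediateField
open scoped IntermediateField.algebraAdjoinAdjoin

namespace Pool.Agent.Lib.MP_2f3286_ag.UA

/-- finiteness only depends on the range -/
theorem finite_of_range {A B L : Type*} [CommRing A] [CommRing B] [Field L] [Algebra A L]
    [Algebra B L] (h : ∀ a : A, ∃ b : B, algebraMap B L b = algebraMap A L a)
    (hA : Module.Finite A L) : Module.Finite B L := by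
  obtain ⟨S, hS⟩ := hA.fg_top
  refine ⟨⟨S, top_unique fun x _ => ?_⟩⟩
  have hx : x ∈ Submodule.span A (S : Set L) := by
    rw [hS]
    trivial
  induction hx using Submodule.span_induction with
  | mem x hx => exact Submodule.subset_span hx
  | zero => exact zero_mem _
  | add x y _ _ hx hy => exact add_mem (hx trivial) (hy trivial)
  | smul a x _ hx =>
    obtain ⟨b, hb⟩ := h a
    have h1 : a • x = b • x := by rw [Algebra.smul_def, Algebra.smul_def, hb]
    rw [h1]
    exact Submodule.smul_mem _ _ (hx trivial)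

/-- a function field is finite over `k(t)` -/
theorem finite_over_adjoin {k K : Type*} [Field k] [Field K] [Algebra k K]
    (htr : Algebra.trdeg k K = 1) (hfg : (⊤ : IntermediateField k K).FG) {y : K}
    (hy : Transcendental k y) : FiniteDimensional (adjoin k {y}) K := by
  obtain ⟨T, hT⟩ := hfg
  have h1 : FiniteDimensional (IntermediateField.adjoin k {y})
      (IntermediateField.adjoin (IntermediateField.adjoin k {y}) (T : Set K)) := by
    have := T.finite_toSet.to_subtype
    apply IntermediateField.finiteDimensional_adjoin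
    intro x _
    exact (cof_isAlgebraic_adjoin htr hy x).isIntegral
  have h2 : IntermediateField.adjoin (IntermediateField.adjoin k {y}) (T : Set K) = ⊤ := by
    rw [eq_top_iff]
    intro x _
    have h3 : IntermediateField.adjoin k (T : Set K) ≤
        (IntermediateField.adjoin (IntermediateField.adjoin k {y}) (T : Set K)).restrictScalars k := by
      rw [IntermediateField.adjoin_le_iff]
      exact IntermediateField.subset_adjoin _ _
    apply h3
    rw [hT]
    trivial
  rw [h2] at h1
  exact IntermediateField.topEquiv.toLinearEquiv.finiteDimensional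

/-- the same for a finite extension of the function field -/
theorem finite_over_adjoin' {k K K' : Type*} [Field k] [Field K] [Algebra k K] [Field K']
    [Algebra K K'] [Algebra k K'] [IsScalarTower k K K'] [FiniteDimensional K K']
    (htr : Algebra.trdeg k K = 1) (hfg : (⊤ : IntermediateField k K).FG) {y : K}
    (hy : Transcendental k y) : FiniteDimensional (adjoin k {algebraMap K K' y}) K' := by
  have h1 := finite_over_adjoin htr hfg hy
  have h2 : Module.Finite (adjoin k {y}) K' := Module.Finite.trans K K'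
  refine finite_of_range (A := adjoin k {y}) (fun a => ?_) h2
  have h3 : (IsScalarTower.toAlgHom k K K') a ∈ (adjoin k {y}).map (IsScalarTower.toAlgHom k K K') :=
    ⟨a, a.2, rfl⟩
  rw [adjoin_map, Set.image_singleton] at h3
  exact ⟨⟨_, h3⟩, rfl⟩

/-- `R` is the integral closure of `R₁` in `K`, which has a generator with invertible different. -/
def EtGen {k K₁ K : Type*} [Field k] [Field K₁] [Field K] [Algebra k K₁] [Algebra k K]
    [Algebra K₁ K] (R₁ : Subalgebra k K₁) (R : Subalgebra k K) : Prop :=
  (∀ h : K, h ∈ R ↔ IsIntegral R₁ h) ∧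
    ∃ (f : K₁[X]) (θ : K), (∀ i, f.coeff i ∈ R₁) ∧ θ ∈ R ∧ adjoin K₁ {θ} = ⊤ ∧ aeval θ f = 0 ∧
      aeval θ (derivative f) ≠ 0 ∧ (aeval θ (derivative f))⁻¹ ∈ R

/-- **Arbitrarily small opens of a covering**, unramified over an open and over an open of the
line. -/
theorem exists_small_pair {k K K' : Type*} [Field k] [CharZero k] [Field K] [Algebra k K] [Field K']
    [Algebra K K'] [Algebra k K'] [IsScalarTower k K K'] [FiniteDimensional K K']
    (htr : Algebra.trdeg k K = 1) (hfg : (⊤ : IntermediateField k K).FG) {t : K}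
    (ht : Transcendental k t) (Z : Set K') (hZ : Z.Finite) :
    ∃ (R : Subalgebra k K) (R' : Subalgebra k K')
      (R₁ : Subalgebra k (adjoin k {algebraMap K K' t})),
      (R.FG ∧ (∀ h : K, IsIntegral R h → h ∈ R)) ∧
      (R'.FG ∧ (∀ h : K', IsIntegral R' h → h ∈ R')) ∧
      (R₁.FG ∧ (∀ h : adjoin k {algebraMap K K' t}, IsIntegral R₁ h → h ∈ R₁)) ∧
      Z ⊆ R' ∧ t ∈ R ∧ EtGen R R' ∧ EtGen R₁ R' := by
  classical
  have hfd := finite_over_adjoin' (K' := K') htr hfg ht
  have hK0 : CharZero K := charZero_of_injective_algebraMap (algebraMap k K).injective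
  have ht' : Transcendental k (algebraMap K K' t) :=
    (transcendental_algebraMap_iff (algebraMap K K').injective).2 ht
  obtain ⟨θ₂, hθ₂⟩ := Field.exists_primitive_element K K'
  let f₂ := minpoly K θ₂
  have hf0 : aeval θ₂ f₂ = 0 := minpoly.aeval _ _
  have hfd : aeval θ₂ (derivative f₂) ≠ 0 :=
    (Algebra.IsSeparable.isSeparable K θ₂).aeval_derivative_ne_zero hf0
  let Z' : Set K' := Z ∪ ({θ₂, (aeval θ₂ (derivative f₂))⁻¹} ∪
    (fun i => algebraMap K K' (f₂.coeff i)) '' (f₂.support : Set ℕ))
  have hZ' : Z'.Finite := hZ.union ((Set.toFinite _).union ((f₂.support.finite_toSet).image _))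
  obtain ⟨R', R₁, f, θ, h1, h2, h3, h4, h5, h6, h7, h8, h9, h10, h11, h12, h13⟩ :=
    exists_small (k := k) (algebraMap K K' t) ht' Z' hZ'
  let R : Subalgebra k K := R'.comap (IsScalarTower.toAlgHom k K K')
  have hR : ∀ x : K, x ∈ R ↔ algebraMap K K' x ∈ R' := fun x => Iff.rfl
  have hRR : ∀ h : K', h ∈ R' ↔ IsIntegral R h := by
    intro h
    constructor
    · intro hh
      refine isIntegral_of_range (fun a => ?_) ((h7 h).1 hh)
      have ha : ((a : adjoin k {algebraMap K K' t}) : K') ∈
          (adjoin k {t}).map (IsScalarTower.toAlgHom k K K') := by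
        rw [adjoin_map, Set.image_singleton]
        exact (a : adjoin k {algebraMap K K' t}).2
      obtain ⟨b, -, hb⟩ := ha
      have hbR : b ∈ R := by
        rw [hR]
        have h14 : ((a : adjoin k {algebraMap K K' t}) : K') ∈ R' :=
          (h7 _).2 (isIntegral_algebraMap (R := R₁) (A := K') (x := a))
        rw [← hb] at h14
        exact h14
      exact ⟨⟨b, hbR⟩, hb⟩
    · intro hh
      refine h2 h (isIntegral_of_range (fun a => ?_) hh)
      exact ⟨⟨_, (hR _).1 a.2⟩, rfl⟩
  have hRn : ∀ h : K, IsIntegral R h → h ∈ R := by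
    intro h hh
    rw [hR, hRR]
    exact hh.algebraMap
  have hRfg : R.FG := by
    let φ : R →ₐ[k] R' := ((IsScalarTower.toAlgHom k K K').comp R.val).codRestrict R' fun x => x.2
    let iφ : Algebra R R' := φ.toRingHom.toAlgebra
    have t1 : IsScalarTower k R R' := IsScalarTower.of_algebraMap_eq fun a => (φ.commutes a).symm
    have t2 : IsScalarTower R R' K' := IsScalarTower.of_algebraMap_eq fun a => rfl
    have i1 : Algebra.FiniteType k R' := R'.fg_iff_finiteType.1 h1
    have i2 : Algebra.FiniteType R R' := Algebra.FiniteType.of_restrictScalars_finiteType k R R'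
    have i3 : Algebra.IsIntegral R R' := ⟨fun x => by
      refine (isIntegral_algebraMap_iff (A := R') (B := K') Subtype.val_injective).1 ?_
      exact (hRR _).1 x.2⟩
    have i4 : Module.Finite R R' := Algebra.IsIntegral.finite
    refine R.fg_top.1 (fg_of_fg_of_fg k R R' (R'.fg_top.2 h1) i4.fg_top fun a b hab => ?_)
    exact Subtype.ext ((algebraMap K K').injective (congrArg Subtype.val hab))
  refine ⟨R, R', R₁, ⟨hRfg, hRn⟩, ⟨h1, h2⟩, ⟨h5, h6⟩, fun z hz => h3 (Or.inl hz), h4,
    ⟨hRR, f₂, θ₂, fun i => ?_, h3 (Or.inr (Or.inl (Or.inl rfl))), hθ₂, hf0, hfd,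
      h3 (Or.inr (Or.inl (Or.inr rfl)))⟩, ⟨h7, f, θ, h8, h9, h10, h11, h12, h13⟩⟩
  by_cases hi : i ∈ f₂.support
  · exact h3 (Or.inr (Or.inr ⟨i, hi, rfl⟩))
  · rw [notMem_support_iff.1 hi]
    exact zero_mem _

end Pool.Agent.Lib.MP_2f3286_ag.UA
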