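import Pool.Agent.Lib.MP_2f3286_ag.UA.SN2
import Pool.Agent.Lib.MP_2f3286_ag.UA.SN4
import Pool.Agent.Lib.MP_2f3286_ag.UA.SM2
import Pool.Agent.Lib.MP_2f3286_ag.UA.Q8
import Pool.Agent.Lib.MP_2f3286_ag.UA.HEx
import Pool.Agent.Lib.MP_2f3286_ag.UA.S6

/-!
# Every curve over every number field has arbitrarily small open curves with a small covering for which
the sections with local places are the sections of places
-/

open WeierstrassCurve WeierstrassCurve.Affine WeierstrassCurve.Affine.Point
open IsDedekindDomain NumberField Polynomial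
open Pool.Agent.Lib.MP_2f3286_ag

namespace Pool.Agent.Lib.MP_2f3286_ag.UA

universe u v w

/-- affine normal curve -/
def AffineRing {k K : Type*} [Field k] [Field K] [Algebra k K] (R : Subalgebra k K) : Prop :=
  R.FG ∧ ∀ h : K, IsIntegral R h → h ∈ R

theorem cofinal_local_global (k : Type u) [Field k] [NumberField k] (K : Type v) [Field K]
    [Algebra k K] (htr : Algebra.trdeg k K = 1) (hfg : (⊤ : IntermediateField k K).FG)
    (hk : ∀ a : K, IsAlgebraic k a → ∃ c : k, a = algebraMap k K c)
    (S : Set (ValuationSubring K)) (hSfin : S.Finite) (hS : ∀ V ∈ S, RatPlace k V) :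
    ∃ (K' : Type v) (_ : Field K') (_ : Algebra K K') (_ : Algebra k K')
      (_ : IsScalarTower k K K'),
      FiniteDimensional K K' ∧ Module.finrank K K' ≤ 4 ∧
      (IsSquare (-1 : k) → Module.finrank K K' ≤ 2) ∧
      (∀ a : K', IsAlgebraic k a → ∃ c : k, a = algebraMap k K' c) ∧
      (∀ V ∈ S, ∃ V' : ValuationSubring K', RatPlace k V' ∧ V'.comap (algebraMap K K') = V) ∧
      (∀ (M : Type w) [Field M] [Algebra K' M] [IsGalois K' M] [Algebra (AlgebraicClosure k) M]
        [Algebra k M] [IsScalarTower k K' M] [IsScalarTower k (AlgebraicClosure k) M],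
        (∀ n : ℕ, 1 ≤ n → ∀ z : M, ∃ y : M, y ^ n = z) →
        ∀ (s : Gal(AlgebraicClosure k/k) →* Gal(M/K')), Continuous s →
        (∀ σ a, s σ (algebraMap (AlgebraicClosure k) M a) =
          algebraMap (AlgebraicClosure k) M (σ a)) →
        ∃ (A₀ : ValuationSubring M) (ψ₀ : A₀ →+* AlgebraicClosure k), IsOnlyPlaceFin s A₀ ψ₀) ∧
      ∀ Z : Set K', Z.Finite →
        ∃ (R : Subalgebra k K) (R' : Subalgebra k K'), AffineRing R ∧ AffineRing R' ∧
          (∀ h : K', h ∈ R' ↔ IsIntegral R h) ∧ Z ⊆ R' ∧
          ∀ (M : Type w) [Field M] [Algebra K M] [Algebra K' M] [IsScalarTower K K' M]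
            [IsGalois K' M] [Algebra (AlgebraicClosure k) M] [Algebra k M] [IsScalarTower k K' M]
            [IsScalarTower k (AlgebraicClosure k) M],
            Pt.IsMaxUnramOver R' K' M (AlgebraicClosure k) →
            (Pt.IsMaxUnramOver R K M (AlgebraicClosure k) ∧ IsGalois K M) ∧
            ∀ (s : Gal(AlgebraicClosure k/k) →* Gal(M/K')), Continuous s →
              (∀ σ a, s σ (algebraMap (AlgebraicClosure k) M a) =
                algebraMap (AlgebraicClosure k) M (σ a)) →
              (∀ v : HeightOneSpectrum (𝓞 k),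
                ∃ (ι : AlgebraicClosure k →ₐ[k] AlgebraicClosure (v.adicCompletion k))
                  (A : ValuationSubring M) (φ : A →+* AlgebraicClosure (v.adicCompletion k)),
                  Sel.IsPlaceOf s (v.adicCompletion k)
                    (ι : _ →+* AlgebraicClosure (v.adicCompletion k)) A φ) →
              ∃ (A₀ : ValuationSubring M) (ψ₀ : A₀ →+* AlgebraicClosure k),
                IsOnlyPlaceFin s A₀ ψ₀ ∧
                ∀ (v : HeightOneSpectrum (𝓞 k))
                  (ι : AlgebraicClosure k →ₐ[k] AlgebraicClosure (v.adicCompletion k))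
                  (A : ValuationSubring M) (φ : A →+* AlgebraicClosure (v.adicCompletion k)),
                  Sel.IsPlaceOf s (v.adicCompletion k)
                    (ι : _ →+* AlgebraicClosure (v.adicCompletion k)) A φ →
                  ((∀ r : R', algebraMap K' M r ∈ A) ↔ ∀ r : R', algebraMap K' M r ∈ A₀) := by
  classical
  obtain ⟨A, B, F, iF, iN, iA, i, d, e, hi, hd, hns, hsel, he0, hns', hA, hB, hAB, h1, h2, h3⟩ :=
    exists_AB k
  have hfin : FiniteDimensional k F := FiniteDimensional.right ℚ k F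
  have hkF : Algebra.IsAlgebraic k F := inferInstance
  let iFb : Algebra F (AlgebraicClosure k) :=
    (IsAlgClosed.lift (R := k) (S := F) (M := AlgebraicClosure k)).toRingHom.toAlgebra
  have iT : IsScalarTower k F (AlgebraicClosure k) := IsScalarTower.of_algebraMap_eq fun a =>
    ((IsAlgClosed.lift (R := k) (S := F) (M := AlgebraicClosure k)).commutes a).symm
  have hcm : IsCM (Wd d) i := isCM_Wd d hi
  have hE : (Wd d).IsElliptic := hcm.isElliptic two_ne_zero (neg_ne_zero.2 hd)
  have hN : (Wd d).IsShortNF := hcm.isShortNF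
  have htors : ∀ Q : (Wd d).toAffine.Point, IsOfFinAddOrder Q ∧
      ∀ n : ℕ, 2 ^ n • Q = 0 → Q = 0 ∨ ∃ h, Q = Point.some 0 0 h := by
    intro Q
    obtain ⟨g1, g2⟩ := tors hcm hd rfl hsel Q
    refine ⟨g1, fun n hn => ?_⟩
    rcases g2 n hn with g3 | g3
    · exact Or.inl g3
    · exact Or.inr ⟨_, g3⟩
  have hsha : ShaKilledByPow (Wd d) 2 0 := shaTwo hcm hd rfl hsel
  obtain ⟨K', j1, j2, j3, j4, t, z, g1, g2, g3, g4, g5, g6, g7, g8⟩ :=
    cofinal_pts A B hAB htr hfg hk S hSfin hS
  have ht : Transcendental k t := fun h => by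
    obtain ⟨c, hc⟩ := hk t h
    exact g5 c hc
  have htr' : Algebra.trdeg k K' = 1 := by
    have h4 := _root_.trdeg_add_eq k K (A := K')
    rw [_root_.trdeg_eq_zero (R := K) (A := K'), add_zero, htr] at h4
    exact h4.symm
  -- the point
  have hpt : ∀ (M : Type w) [Field M] [Algebra K' M] [Algebra (AlgebraicClosure k) M]
      [Algebra k M] [IsScalarTower k K' M] [IsScalarTower k (AlgebraicClosure k) M]
      [Algebra F M] [IsScalarTower F (AlgebraicClosure k) M]
      (s : Gal(AlgebraicClosure k/k) →* Gal(M/K')),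
      (∀ σ a, s σ (algebraMap (AlgebraicClosure k) M a) =
        algebraMap (AlgebraicClosure k) M (σ a)) →
      ∃ y : M, ((Wd d)⁄M).Nonsingular (algebraMap K' M (algebraMap K K' t)) y ∧
        (∀ σ : Gal(AlgebraicClosure k/k),
          (∀ a : F, σ (algebraMap F _ a) = algebraMap F _ a) →
          s σ (algebraMap K' M (algebraMap K K' t)) = algebraMap K' M (algebraMap K K' t) ∧
            s σ y = y) := by
    intro M _ _ _ _ _ _ _ _ s hsec
    have t1 : IsScalarTower k F M := IsScalarTower.of_algebraMap_eq fun a => by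
      rw [IsScalarTower.algebraMap_apply F (AlgebraicClosure k) M,
        ← IsScalarTower.algebraMap_apply k F (AlgebraicClosure k),
        ← IsScalarTower.algebraMap_apply k (AlgebraicClosure k) M]
    have hM0 : CharZero M := charZero_of_injective_algebraMap (algebraMap k M).injective
    have hM2 : (2 : M) ≠ 0 := two_ne_zero
    obtain ⟨T, hT⟩ : ∃ T, T = algebraMap K' M (algebraMap K K' t) := ⟨_, rfl⟩
    obtain ⟨Z, hZ⟩ : ∃ Z, Z = algebraMap K' M z := ⟨_, rfl⟩
    have hZ0 : Z ≠ 0 := by
      rw [hZ, Ne, _root_.map_eq_zero]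
      exact g6
    have hkM : ∀ c : k, algebraMap K' M (algebraMap K K' (algebraMap k K c)) = algebraMap k M c := by
      intro c
      rw [← IsScalarTower.algebraMap_apply k K K', ← IsScalarTower.algebraMap_apply k K' M]
    have hq : Z ^ 4 - 2 * (2 * T ^ 3 - (algebraMap F M d + algebraMap F M e) * T) * Z ^ 2 +
        (algebraMap F M d - algebraMap F M e) ^ 2 * T ^ 2 = 0 := by
      have h5 := congrArg (algebraMap K' M) g7
      simp only [map_sub, map_add, map_mul, map_pow, map_ofNat, _root_.map_zero] at h5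
      rw [hkM, hkM, IsScalarTower.algebraMap_apply k F M A, IsScalarTower.algebraMap_apply k F M B,
        hA, hB, ← hT, ← hZ] at h5
      simp only [map_sub, map_add, map_pow] at h5
      exact h5
    rw [← hT]
    refine ⟨(Z + (algebraMap F M e - algebraMap F M d) * T / Z) / 2, ?_, fun σ hσ => ?_⟩
    · have h5 := point_of_quartic hM2 hZ0 hq
      have h6 : ((Wd d)⁄M).Equation T ((Z + (algebraMap F M e - algebraMap F M d) * T / Z) / 2) := by
        rw [Affine.equation_iff]
        change _ ^ 2 + algebraMap F M 0 * T * _ + algebraMap F M 0 * _ =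
          T ^ 3 + algebraMap F M 0 * T ^ 2 + algebraMap F M (-d) * T + algebraMap F M 0
        rw [h5, _root_.map_zero, map_neg]
        ring
      exact (Affine.equation_iff_nonsingular).1 h6
    · have hF : ∀ a : F, s σ (algebraMap F M a) = algebraMap F M a := by
        intro a
        rw [IsScalarTower.algebraMap_apply F (AlgebraicClosure k) M, hsec, hσ]
      have hTf : s σ T = T := by rw [hT]; exact (s σ).commutes _
      have hZf : s σ Z = Z := by rw [hZ]; exact (s σ).commutes _
      refine ⟨hTf, ?_⟩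
      rw [map_div₀, map_add, map_div₀, map_mul, map_sub, hF, hF, hTf, hZf, map_ofNat]
  have htM : ∀ (M : Type w) [Field M] [Algebra K' M] [Algebra k M] [IsScalarTower k K' M],
      Transcendental k (algebraMap K' M (algebraMap K K' t)) := by
    intro M _ _ _ _
    exact (transcendental_algebraMap_iff (algebraMap K' M).injective).2
      ((transcendental_algebraMap_iff (algebraMap K K').injective).2 ht)
  have hcb : ∀ (M : Type w) [Field M] [Algebra K' M] [Algebra k M] [IsScalarTower k K' M]
      [Algebra (AlgebraicClosure k) M] [IsScalarTower k (AlgebraicClosure k) M],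
      ∀ c : AlgebraicClosure k, algebraMap K' M (algebraMap K K' t) ≠
        algebraMap (AlgebraicClosure k) M c := by
    intro M _ _ _ _ _ _ c hc
    apply htM M
    rw [hc]
    exact (Algebra.IsAlgebraic.isAlgebraic (R := k) c).algebraMap
  refine ⟨K', j1, j2, j3, j4, g1, g2, fun h => g3 (h1 h), g4, g8, ?_, fun Z hZ => ?_⟩
  · intro M _ _ _ _ _ _ _ hrt s hs hsec
    let iFM : Algebra F M :=
      ((algebraMap (AlgebraicClosure k) M).comp (algebraMap F (AlgebraicClosure k))).toAlgebra
    have iT' : IsScalarTower F (AlgebraicClosure k) M := IsScalarTower.of_algebraMap_eq fun a => rfl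
    obtain ⟨y, hy, hfix⟩ := hpt M s hsec
    exact one_root (Wd d) (fun Q => (htors Q).1) Nat.prime_two hsha htr' hrt s hs hsec hfix hy
      (fun c => hcb M (algebraMap F _ c))
  · obtain ⟨R, R', R₁, hR, hR', hR₁, hZR, htR, hRR', hR₁R'⟩ :=
      exists_small_pair (K' := K') htr hfg ht (insert (algebraMap K K' t)⁻¹ Z) (hZ.insert _)
    refine ⟨R, R', hR, hR', hRR'.1, fun z hz => hZR (Or.inr hz), ?_⟩
    intro M _ _ _ _ _ _ _ _ _ hmax
    obtain ⟨f, θ, q1, q2, q3, q4, q5, q6⟩ := hRR'.2
    have halgK : Algebra.IsAlgebraic K K' := inferInstance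
    refine ⟨maxUnram_down halgK R R' hRR'.1 f q1 θ q2 q3 q4 q5 q6 hmax, ?_⟩
    obtain ⟨f₁, θ₁, r1, r2, r3, r4, r5, r6⟩ := hR₁R'.2
    have hfd := finite_over_adjoin' (K' := K') htr hfg ht
    have halg₁ : Algebra.IsAlgebraic (IntermediateField.adjoin k {algebraMap K K' t}) K' :=
      inferInstance
    obtain ⟨hmax₁, hG₁⟩ := maxUnram_down halg₁ R₁ R' hR₁R'.1 f₁ r1 θ₁ r2 r3 r4 r5 r6 hmax
    intro s hs hsec hloc
    let iFM : Algebra F M :=
      ((algebraMap (AlgebraicClosure k) M).comp (algebraMap F (AlgebraicClosure k))).toAlgebra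
    have iT' : IsScalarTower F (AlgebraicClosure k) M := IsScalarTower.of_algebraMap_eq fun a => rfl
    obtain ⟨y, hy, hfix⟩ := hpt M s hsec
    have htR' : algebraMap K K' t ∈ R' := (hRR'.1 _).2
      (isIntegral_algebraMap (R := R) (A := K') (x := ⟨t, htR⟩))
    have hon : OnE (Wd d) 2 (algebraMap K' M (algebraMap K K' t)) (IsIntegral R') := by
      refine ⟨isIntegral_algebraMap (R := R') (x := ⟨_, htR'⟩), fun c e' h ⟨n, hn⟩ => ?_⟩
      rcases (htors (Point.some c e' h)).2 n hn with g | ⟨h', g⟩
      · exact absurd g (Point.some_ne_zero h)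
      · obtain ⟨rfl, rfl⟩ := Point.some.inj g
        rw [_root_.map_zero, sub_zero, ← map_inv₀]
        exact isIntegral_algebraMap (R := R') (x := ⟨_, hZR (Or.inl rfl)⟩)
    have iT3 : IsScalarTower k F M := IsScalarTower.of_algebraMap_eq fun a => by
      rw [IsScalarTower.algebraMap_apply F (AlgebraicClosure k) M,
        ← IsScalarTower.algebraMap_apply k F (AlgebraicClosure k),
        ← IsScalarTower.algebraMap_apply k (AlgebraicClosure k) M]
    have hKF : ∀ c : IntermediateField.adjoin k {algebraMap K K' t},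
        algebraMap (IntermediateField.adjoin k {algebraMap K K' t}) M c ∈
          IntermediateField.adjoin F {algebraMap K' M (algebraMap K K' t), y} := by
      intro c
      have h5 : algebraMap K' M (c : K') ∈
          (IntermediateField.adjoin k {algebraMap K K' t}).map (IsScalarTower.toAlgHom k K' M) :=
        ⟨c, c.2, rfl⟩
      rw [IntermediateField.adjoin_map, Set.image_singleton] at h5
      have h6 : IntermediateField.adjoin k {algebraMap K' M (algebraMap K K' t)} ≤
          (IntermediateField.adjoin F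
            {algebraMap K' M (algebraMap K K' t), y}).restrictScalars k := by
        rw [IntermediateField.adjoin_le_iff]
        rintro _ rfl
        exact IntermediateField.subset_adjoin F _ (Set.mem_insert _ _)
      exact h6 h5
    obtain ⟨A₀, ψ₀, hA₀, hval⟩ := one_covering (Wd d) R' s (fun Q => (htors Q).1) Nat.prime_two hsha
      htr' hR'.1 hR'.2 hmax hs hsec hfix hy (hcb M) hon (places_up s hsec hloc) _ R₁ hG₁ hR₁.1
      hR₁.2 hmax₁ hR₁R'.1 hKF
    refine ⟨A₀, ψ₀, hA₀, fun v ι A₁ φ hP => ?_⟩
    obtain ⟨w', hw'⟩ := exists_prime_over (E := F) v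
    obtain ⟨ρ, ι', A', φ', j, hρ, hP', hmem, hval', hj⟩ := local_up (F := k) (F' := F) s hsec v w'
      ι A₁ φ hP
    rw [← hval w' ι' A' φ' hP']
    refine forall_congr' fun r => ?_
    rw [hmem, (s ρ).commutes]

end Pool.Agent.Lib.MP_2f3286_ag.UA
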