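import Pool.Agent.Lib.MP_2f3286_ag.UA.O1

/-!
# T1: backward orbits of the duplication on `y ^ 2 = x (x ^ 2 + α x + β)` at one place

`Dbl α β r r'`: `r` is the `x`-coordinate of twice a point with `x`-coordinate `r'`: `r = (r' ^ 2 - β) ^ 2 / (4 r' (r' ^ 2 + α r' + β))`.
The model for everything is `O1.lean` (the map `r = (r' ^ 2 - d) / (2 i r')`): copy its proofs.
`dbl_inf_of_pole`: the value of `4 r' (r' ^ 2 + α r' + β)` is `0`, that of `(r' ^ 2 - β) ^ 2` is `(y ^ 2 - β') ^ 2 ≠ 0` (if `y ^ 2 = β'` and `y (y ^ 2 + α' y + β') = 0`, then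
`y ≠ 0`, `2 β' + α' y = 0`, so `α' ^ 2 β' = α' ^ 2 y ^ 2 = 4 β' ^ 2`, `α' ^ 2 = 4 β'`); `r⁻¹` is the quotient.
`dbl_inf_of_inf`: with `t = r'⁻¹` of value `0`: `r⁻¹ = 4 t (1 + α t + β t ^ 2) / (1 - β t ^ 2) ^ 2`.
`dbl_val`: divide.
-/

open IsDedekindDomain NumberField
open scoped WithZero
open Pool.Agent.Lib.MP_2f3286_ag.Fer (Plc Data)

namespace Pool.Agent.Lib.MP_2f3286_ag.UA

/-- `r` is the `x`-coordinate of twice a point of `y ^ 2 = x (x ^ 2 + α x + β)` with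
`x`-coordinate `r'` -/
def Dbl {L : Type*} [Field L] (α β r r' : L) : Prop :=
  4 * r * r' * (r' ^ 2 + α * r' + β) = (r' ^ 2 - β) ^ 2

section plc

variable {L E : Type*} [Field L] [Field E]

theorem dbl_inf_of_pole (Q : Plc L E) {α β : L} {α' β' : E} (hα : Q.Has α α') (hβ : Q.Has β β')
    (hβ0 : β' ≠ 0) (hdisc : α' ^ 2 ≠ 4 * β') {r r' : L} (hr : r ≠ 0) (h : Dbl α β r r') {y : E}
    (hy : Q.Has r' y) (hy0 : y * (y ^ 2 + α' * y + β') = 0) : Q.Has r⁻¹ 0 := by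
  have hne : (y ^ 2 - β') ^ 2 ≠ 0 := by
    intro h0
    have h1 : y ^ 2 = β' := by
      have h2 := pow_eq_zero_iff (two_ne_zero) |>.1 h0
      exact sub_eq_zero.1 h2
    rcases mul_eq_zero.1 hy0 with h2 | h2
    · apply hβ0
      rw [← h1, h2]
      ring
    · apply hdisc
      have h3 : α' * y = -(2 * β') := by linear_combination h2 - h1
      have h4 : β' * (α' ^ 2 - 4 * β') = 0 := by
        have h5 : (α' * y) ^ 2 = (2 * β') ^ 2 := by rw [h3]; ring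
        linear_combination h5 - α' ^ 2 * h1
      rcases mul_eq_zero.1 h4 with h5 | h5
      · exact absurd h5 hβ0
      · exact sub_eq_zero.1 h5
  have h1 : Q.Has ((r' ^ 2 - β) ^ 2) ((y ^ 2 - β') ^ 2) := ((hy.pow 2).sub hβ).pow 2
  have h3 := h1.ne_zero hne
  have h4 : r⁻¹ = ((1 + 1) * (1 + 1) * (r' * (r' ^ 2 + α * r' + β))) / (r' ^ 2 - β) ^ 2 := by
    rw [eq_div_iff h3, ← (show 4 * r * r' * (r' ^ 2 + α * r' + β) = (r' ^ 2 - β) ^ 2 from h)]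
    field_simp
    ring
  have h11 : Q.Has (1 + 1 : L) (1 + 1) := Plc.has_one.add Plc.has_one
  have h5 : Q.Has ((1 + 1) * (1 + 1) * (r' * (r' ^ 2 + α * r' + β)))
      ((1 + 1) * (1 + 1) * (y * (y ^ 2 + α' * y + β'))) :=
    (h11.mul h11).mul (hy.mul (((hy.pow 2).add (hα.mul hy)).add hβ))
  have h6 := h5.div h1 hne
  rw [← h4, hy0] at h6
  simpa using h6

theorem dbl_inf_of_inf (Q : Plc L E) {α β : L} {α' β' : E} (hα : Q.Has α α') (hβ : Q.Has β β')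
    {r r' : L} (hr : r ≠ 0) (hr' : r' ≠ 0) (h : Dbl α β r r') (h0 : Q.Has r'⁻¹ 0) :
    Q.Has r⁻¹ 0 := by
  have h1 : Q.Has ((1 - β * r'⁻¹ ^ 2) ^ 2) ((1 - β' * 0 ^ 2) ^ 2) :=
    (Plc.has_one.sub (hβ.mul (h0.pow 2))).pow 2
  have h2 : ((1 : E) - β' * 0 ^ 2) ^ 2 ≠ 0 := by simp
  have h3 := h1.ne_zero h2
  have h4 : r⁻¹ = ((1 + 1) * (1 + 1) * (1 + α * r'⁻¹ + β * r'⁻¹ ^ 2) * r'⁻¹) /
      (1 - β * r'⁻¹ ^ 2) ^ 2 := by
    have h : 4 * r * r' * (r' ^ 2 + α * r' + β) = (r' ^ 2 - β) ^ 2 := h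
    rw [eq_div_iff h3]
    field_simp
    linear_combination -h
  have h11 : Q.Has (1 + 1 : L) (1 + 1) := Plc.has_one.add Plc.has_one
  have h5 : Q.Has ((1 + 1) * (1 + 1) * (1 + α * r'⁻¹ + β * r'⁻¹ ^ 2) * r'⁻¹)
      ((1 + 1) * (1 + 1) * (1 + α' * 0 + β' * 0 ^ 2) * 0) :=
    ((h11.mul h11).mul ((Plc.has_one.add (hα.mul h0)).add (hβ.mul (h0.pow 2)))).mul h0
  have h6 := h5.div h1 h2
  rw [← h4] at h6
  simpa using h6

theorem dbl_val (Q : Plc L E) {α β : L} {α' β' : E} (hα : Q.Has α α') (hβ : Q.Has β β')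
    (h2 : (2 : E) ≠ 0) {r r' : L} (h : Dbl α β r r') {y : E}
    (hy : Q.Has r' y) (hy0 : y * (y ^ 2 + α' * y + β') ≠ 0) :
    Q.Has r ((y ^ 2 - β') ^ 2 / (4 * y * (y ^ 2 + α' * y + β'))) := by
  have h : 4 * r * r' * (r' ^ 2 + α * r' + β) = (r' ^ 2 - β) ^ 2 := h
  have h11 : Q.Has (4 : L) 4 := by
    have h1 : Q.Has (1 + 1 : L) (1 + 1) := Plc.has_one.add Plc.has_one
    have h3 := h1.mul h1
    have e1 : (1 + 1 : L) * (1 + 1) = 4 := by norm_num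
    have e2 : (1 + 1 : E) * (1 + 1) = 4 := by norm_num
    rwa [e1, e2] at h3
  have h3 : Q.Has (4 * r' * (r' ^ 2 + α * r' + β)) (4 * y * (y ^ 2 + α' * y + β')) :=
    (h11.mul hy).mul (((hy.pow 2).add (hα.mul hy)).add hβ)
  have h4 : 4 * y * (y ^ 2 + α' * y + β') ≠ 0 := by
    rw [mul_assoc]
    refine mul_ne_zero ?_ hy0
    have e3 : (4 : E) = 2 * 2 := by norm_num
    rw [e3]
    exact mul_ne_zero h2 h2
  have h5 : r = (r' ^ 2 - β) ^ 2 / (4 * r' * (r' ^ 2 + α * r' + β)) := by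
    rw [eq_div_iff (h3.ne_zero h4), ← h]
    ring
  have h6 := (((hy.pow 2).sub hβ).pow 2).div h3 h4
  rwa [← h5] at h6

/-- All terms before a term with value zero have the value infinity. -/
theorem dbl_inf_before (Q : Plc L E) {α β : L} {α' β' : E} (hα : Q.Has α α') (hβ : Q.Has β β')
    (hβ0 : β' ≠ 0) (hdisc : α' ^ 2 ≠ 4 * β') {a : ℕ → L} (ha0 : ∀ n, a n ≠ 0)
    (ha : ∀ n, Dbl α β (a n) (a (n + 1))) {m : ℕ} (hm : Q.Has (a m) 0) :
    ∀ n, n < m → Q.Has (a n)⁻¹ 0 := by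
  intro n hn
  obtain ⟨j, rfl⟩ : ∃ j, m = n + j + 1 := ⟨m - n - 1, by omega⟩
  clear hn
  induction j generalizing n with
  | zero => exact dbl_inf_of_pole Q hα hβ hβ0 hdisc (ha0 n) (ha n) hm (by simp)
  | succ j ih =>
    have h1 : Q.Has (a (n + 1))⁻¹ 0 := by
      refine ih (n + 1) ?_
      rw [show n + 1 + j + 1 = n + (j + 1) + 1 by omega]
      exact hm
    exact dbl_inf_of_inf Q hα hβ (ha0 n) (ha0 _) (ha n) h1

/-- At most one term has the value zero. -/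
theorem dbl_zero_unique (Q : Plc L E) {α β : L} {α' β' : E} (hα : Q.Has α α') (hβ : Q.Has β β')
    (hβ0 : β' ≠ 0) (hdisc : α' ^ 2 ≠ 4 * β') {a : ℕ → L} (ha0 : ∀ n, a n ≠ 0)
    (ha : ∀ n, Dbl α β (a n) (a (n + 1))) {m n : ℕ} (hm : Q.Has (a m) 0)
    (hn : Q.Has (a n) 0) : n = m := by
  rcases lt_trichotomy n m with h | h | h
  · exact absurd hn (Plc.not_has_of_inv (dbl_inf_before Q hα hβ hβ0 hdisc ha0 ha hm n h) (ha0 n))
  · exact h
  · exact absurd hm (Plc.not_has_of_inv (dbl_inf_before Q hα hβ hβ0 hdisc ha0 ha hn m h) (ha0 m))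

end plc

end Pool.Agent.Lib.MP_2f3286_ag.UA
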