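import Pool.Agent.Lib.MP_2f3286_ag.UA.T7

/-!
# T10: compatible halves over a subfield

Copy of `Koe.exists_place_zero_aux` and `Koe.exists_place_zero` (`Koe/Zero.lean`), with `exists_halves` (T7) for `assembly_zero`, and without the descent at the end: for
`σ` in `Gal(kb/k)` fixing `F` there is `τ` in `Gal(AlgebraicClosure F/F)` with `s σ = resS s e hL τ` (see `F2.lean`, `Koe.resG_surj`).
-/

open WeierstrassCurve WeierstrassCurve.Affine WeierstrassCurve.Affine.Point
open IsDedekindDomain NumberField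
open Pool.Agent.Lib.MP_2f3286_ag

namespace Pool.Agent.Lib.MP_2f3286_ag.UA

variable {k : Type*} [Field k] [NumberField k] {kb : Type*} [Field kb] [Algebra k kb]
  [IsAlgClosed kb] [Algebra.IsAlgebraic k kb] {K : Type*} [Field K] [Algebra k K]
  {Ω : Type*} [Field Ω] [Algebra K Ω] [Algebra.IsAlgebraic K Ω] [IsAlgClosed Ω]
  [Algebra kb Ω] [Algebra k Ω] [IsScalarTower k K Ω] [IsScalarTower k kb Ω]

open scoped Classical in
/-- the points over a model `L` of the fixed field -/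
private theorem halves_aux (htr : Algebra.trdeg k K = 1)
    (s : Gal(kb/k) →* Gal(Ω/K)) (hs : Continuous s)
    (hsec : ∀ σ a, s σ (algebraMap kb Ω a) = algebraMap kb Ω (σ a))
    {F : Type*} [Field F] [NumberField F] [Algebra k F]
    [Algebra F kb] [IsScalarTower k F kb] [Algebra F Ω] [IsScalarTower F kb Ω]
    (W : WeierstrassCurve F) [W.IsShortNF] [W.IsElliptic]
    (hrk : ∀ Q : (W⁄F).Point, IsOfFinAddOrder Q)
    {j : ℕ} (hsha : ShaTwoKilledBy W j)
    (η : (W⁄Ω).Point) (h₁ : Koe.FixedPt s η)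
    (hη : ¬ ∃ Q : (W⁄F).Point, η = Point.baseChange F Ω Q)
    {L : Type*} [Field L] [Algebra F L] [Algebra L Ω] [IsScalarTower F L Ω]
    [Algebra.IsAlgebraic L Ω]
    (hL : ∀ σ : Gal(kb/k), (∀ a : F, σ (algebraMap F _ a) = algebraMap F _ a) →
      ∀ x : L, s σ (algebraMap L Ω x) = algebraMap L Ω x)
    (hL2 : ∀ x : Ω, (∀ σ : Gal(kb/k),
      (∀ a : F, σ (algebraMap F _ a) = algebraMap F _ a) → s σ x = x) →
      ∃ y : L, algebraMap L Ω y = x) :
    ∃ ζ : ℕ → (W⁄Ω).Point, (∀ n, Koe.FixedPt s (ζ n)) ∧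
      (∀ n, (2 : ℕ) • ζ (n + 1) = ζ n) ∧ ¬ ∃ Q : (W⁄F).Point, ζ 0 = Point.baseChange F Ω Q := by
  have hfin : FiniteDimensional k F := FiniteDimensional.right ℚ k F
  have hkF : Algebra.IsAlgebraic k F := inferInstance
  have hFk : Algebra.IsAlgebraic F kb := Algebra.IsAlgebraic.tower_top (K := k) F
  have : IsAlgClosure F kb := ⟨inferInstance, inferInstance⟩
  let e : AlgebraicClosure F ≃ₐ[F] kb := IsAlgClosure.equiv F (AlgebraicClosure F) kb
  letI iFb : Algebra (AlgebraicClosure F) Ω := ((algebraMap kb Ω).comp (e : _ →+* kb)).toAlgebra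
  have he : ∀ a : AlgebraicClosure F, algebraMap (AlgebraicClosure F) Ω a =
      algebraMap kb Ω (e a) := fun _ => rfl
  have t1 : IsScalarTower F (AlgebraicClosure F) Ω := IsScalarTower.of_algebraMap_eq fun a => by
    rw [he, AlgEquiv.commutes, ← IsScalarTower.algebraMap_apply]
  have t3 : IsScalarTower k F Ω := IsScalarTower.of_algebraMap_eq fun a => by
    rw [IsScalarTower.algebraMap_apply F kb Ω, ← IsScalarTower.algebraMap_apply k F kb,
      ← IsScalarTower.algebraMap_apply k kb Ω]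
  have htr' : Algebra.trdeg F L = 1 := Koe.trdeg_fix (k := k) (K := K) (Ω := Ω) htr
  -- the points over `L`
  have hpt : ∀ η : (W⁄Ω).Point, Koe.FixedPt s η →
      ∃ η' : (W⁄L).Point, Point.baseChange L Ω η' = η := by
    intro η hη
    rcases η with _ | ⟨x, y, hxy⟩
    · exact ⟨0, rfl⟩
    · obtain ⟨a, rfl⟩ := hL2 x fun σ hσ => (hη σ hσ).1
      obtain ⟨b, rfl⟩ := hL2 y fun σ hσ => (hη σ hσ).2
      exact ⟨Point.some a b
        ((Affine.baseChange_nonsingular (W := W) (Algebra.ofId L Ω).injective _ _).mp hxy), rfl⟩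
  obtain ⟨η', hη'⟩ := hpt η h₁
  have hη2 : ¬ ∃ Q : (W⁄F).Point, η' = Point.baseChange F L Q := by
    rintro ⟨Q, hQ⟩
    exact hη ⟨Q, by rw [← hη', hQ]; exact Top.bc_bc Q⟩
  -- the section over `F`
  have hs' := Koe.resS_continuous s e hL hs
  have hsec' : ∀ (σ : Gal(AlgebraicClosure F/F)) (a : AlgebraicClosure F),
      Koe.resS s e hL σ (algebraMap (AlgebraicClosure F) Ω a) =
        algebraMap (AlgebraicClosure F) Ω (σ a) := by
    intro σ a
    rw [Koe.resS_apply, he, hsec, Koe.resG_apply, e.symm_apply_apply, he]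
  -- local places
  have hloc : ∀ v : HeightOneSpectrum (𝓞 F),
      ∃ (ι : AlgebraicClosure F →ₐ[F] AlgebraicClosure (v.adicCompletion F))
        (A : ValuationSubring Ω) (φ : A →+* AlgebraicClosure (v.adicCompletion F)),
        MP_2f3286_bir.IsPlaceOf (Koe.resS s e hL) (v.adicCompletion F)
          (ι : _ →+* AlgebraicClosure (v.adicCompletion F)) A φ := by
    intro v
    let ι : AlgebraicClosure F →ₐ[F] AlgebraicClosure (v.adicCompletion F) := IsAlgClosed.lift
    obtain ⟨A, φ, h⟩ := Koe.local_place (Koe.resS s e hL) hs' hsec' v ι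
    exact ⟨ι, A, φ, h⟩
  choose ι A φ hφ using hloc
  have hdiv : ∀ (n : ℕ), 1 ≤ n →
      ∃ T : (W⁄Ω).Point, n • T = Point.baseChange L Ω η' := by
    intro n hn
    have : CharZero Ω := charZero_of_injective_algebraMap (algebraMap F Ω).injective
    exact Pt.Div.divisible (k := F) (kb := Ω) hn _
  obtain ⟨ζ, h3, h4, h5⟩ := exists_halves (k := F) W (K := L) (M := Ω) hs' hsec' ι A φ hφ hrk hsha
    η' hη2 hdiv
  refine ⟨ζ, fun n => ?_, h4, h5⟩
  rcases hz : ζ n with _ | ⟨x, y, hxy⟩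
  · exact trivial
  · intro σ hσ
    obtain ⟨τ, hτ, -⟩ := Koe.resG_surj (k := k) e σ hσ
    have h6 := h3 n τ
    rw [hz, Top.act, Point.map_some] at h6
    have h7 := Top.some_inj' h6
    rw [← hτ]
    exact h7

open scoped Classical in
/-- **Compatible halves, fixed by the section over `F`.** -/
theorem exists_halves_k (htr : Algebra.trdeg k K = 1)
    (s : Gal(kb/k) →* Gal(Ω/K)) (hs : Continuous s)
    (hsec : ∀ σ a, s σ (algebraMap kb Ω a) = algebraMap kb Ω (σ a))
    {F : Type*} [Field F] [NumberField F] [Algebra k F]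
    [Algebra F kb] [IsScalarTower k F kb] [Algebra F Ω] [IsScalarTower F kb Ω]
    (W : WeierstrassCurve F) [W.IsShortNF] [W.IsElliptic]
    (hrk : ∀ Q : (W⁄F).Point, IsOfFinAddOrder Q)
    {j : ℕ} (hsha : ShaTwoKilledBy W j)
    (η : (W⁄Ω).Point) (h₁ : Koe.FixedPt s η)
    (hη : ¬ ∃ Q : (W⁄F).Point, η = Point.baseChange F Ω Q) :
    ∃ ζ : ℕ → (W⁄Ω).Point, (∀ n, Koe.FixedPt s (ζ n)) ∧
      (∀ n, (2 : ℕ) • ζ (n + 1) = ζ n) ∧ ¬ ∃ Q : (W⁄F).Point, ζ 0 = Point.baseChange F Ω Q := by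
  letI iFL : Algebra F (Koe.fixF s F) := (Koe.toFixF s F hsec).toAlgebra
  have t2 : IsScalarTower F (Koe.fixF s F) Ω := IsScalarTower.of_algebraMap_eq fun a => by
    change algebraMap F Ω a = algebraMap kb Ω (algebraMap F _ a)
    rw [← IsScalarTower.algebraMap_apply]
  have hLΩ : Algebra.IsAlgebraic (Koe.fixF s F) Ω :=
    Algebra.IsAlgebraic.tower_top (K := K) (Koe.fixF s F)
  exact halves_aux htr s hs hsec W hrk hsha η h₁ hη (L := Koe.fixF s F)
    (fun σ hσ x => x.2 σ hσ) (fun x hx => ⟨⟨x, hx⟩, rfl⟩)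

end Pool.Agent.Lib.MP_2f3286_ag.UA
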