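import Pool.Agent.Lib.MP_2f3286_ag.UA.T3

/-!
# T4: values of the denominators

Copy of `de_val`, `de_unit` of `O2.lean`. `y (j + 1) (1 - β (y j) ^ 2) ^ 2 = 4 y j (1 + α y j + β (y j) ^ 2)`.
`de2_val`: `1 - β (y j) ^ 2 ≠ 0`: otherwise `y j ≠ 0`, `1 + α y + β y ^ 2 = 0`, `2 + α y = 0`, `4 β = 4 β ...`: `α ^ 2 y ^ 2 = 4`, `β y ^ 2 = 1`, so `α ^ 2 = 4 β`. Then
`de2 (j+1) (y 0) = (de2 j (y 0)) ^ 4 (1 - β (y j) ^ 2) ^ 2`.
`de2_unit`: `v (1 - β (y j) ^ 2) = 1`: otherwise it is `< 1`, `v (y j) = 1`, `v (1 + α y + β y ^ 2) < 1` (from the relation, `v (y (j + 1)) ≤ 1`), so `v (2 + α y) < 1`,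
`4 β - α ^ 2 = 4 β - α ^ 2 β y ^ 2 - α ^ 2 (1 - β y ^ 2) = β (2 - α y) (2 + α y) - α ^ 2 (1 - β y ^ 2)` has `v < 1`: contradiction.
-/

open NumberField IsDedekindDomain Polynomial
open scoped WithZero

namespace Pool.Agent.Lib.MP_2f3286_ag.UA

section vals

variable {F E : Type*} [Field F] [Field E] [Algebra F E] {α β : F}

theorem de2_val (h2 : (2 : F) ≠ 0) (hdisc : α ^ 2 ≠ 4 * β) {y : ℕ → E} {m : ℕ}
    (hy : ∀ j, j < m → y (j + 1) * (1 - algebraMap F E β * y j ^ 2) ^ 2 =
      4 * y j * (1 + algebraMap F E α * y j + algebraMap F E β * y j ^ 2))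
    (j : ℕ) (hj : j ≤ m) :
    aeval (y 0) (de2 α β j) ≠ 0 ∧
      y j * aeval (y 0) (de2 α β j) = aeval (y 0) (nu2 α β j) := by
  have h4E : (4 : E) ≠ 0 := by
    have h3 : (4 : E) = algebraMap F E (2 * 2) := by
      rw [map_mul, map_ofNat]
      norm_num
    rw [h3]
    exact (_root_.map_ne_zero _).2 (mul_ne_zero h2 h2)
  have hfac : ∀ j, j < m → 1 - algebraMap F E β * y j ^ 2 ≠ 0 := by
    intro j hj h0
    have h3 := hy j hj
    rw [h0, zero_pow two_ne_zero, mul_zero] at h3
    have hy0 : y j ≠ 0 := by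
      intro h4
      rw [h4] at h0
      simp at h0
    have h4 : 1 + algebraMap F E α * y j + algebraMap F E β * y j ^ 2 = 0 := by
      rcases mul_eq_zero.1 h3.symm with h5 | h5
      · exact absurd h5 (mul_ne_zero h4E hy0)
      · exact h5
    have h5 : algebraMap F E α * y j = -2 := by linear_combination h4 + h0
    have h6 : algebraMap F E α ^ 2 = 4 * algebraMap F E β := by
      linear_combination algebraMap F E α ^ 2 * h0 +
        algebraMap F E β * (algebraMap F E α * y j - 2) * h5
    refine hdisc ((algebraMap F E).injective ?_)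
    rw [map_pow, h6, map_mul, map_ofNat]
  induction j with
  | zero =>
    rw [de2_zero, nu2_zero, map_one, aeval_X, mul_one]
    exact ⟨one_ne_zero, rfl⟩
  | succ j ih =>
    obtain ⟨h3, h4⟩ := ih (by omega)
    have h5 : aeval (y 0) (de2 α β (j + 1)) =
        aeval (y 0) (de2 α β j) ^ 4 * (1 - algebraMap F E β * y j ^ 2) ^ 2 := by
      rw [de2_succ, map_pow, map_sub, map_mul, map_pow, map_pow, aeval_C, ← h4]
      ring
    refine ⟨?_, ?_⟩
    · rw [h5]
      exact mul_ne_zero (pow_ne_zero 4 h3) (pow_ne_zero 2 (hfac j (by omega)))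
    · have h6 : aeval (y 0) (nu2 α β (j + 1)) = 4 * (y j * aeval (y 0) (de2 α β j)) *
          aeval (y 0) (de2 α β j) * (aeval (y 0) (de2 α β j) ^ 2 +
            algebraMap F E α * (y j * aeval (y 0) (de2 α β j)) * aeval (y 0) (de2 α β j) +
            algebraMap F E β * (y j * aeval (y 0) (de2 α β j)) ^ 2) := by
        rw [nu2_succ, h4]
        simp only [map_mul, map_add, map_pow, aeval_C, map_ofNat]
      rw [h5, h6]
      linear_combination (aeval (y 0) (de2 α β j)) ^ 4 * hy j (by omega)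

theorem de2_unit {Γ : Type*} [LinearOrderedCommGroupWithZero Γ] (v : Valuation E Γ)
    (h2 : v 2 = 1) (hα : v (algebraMap F E α) ≤ 1) (hβ : v (algebraMap F E β) = 1)
    (hd : v (algebraMap F E (α ^ 2 - 4 * β)) = 1) {y : ℕ → E} {m : ℕ}
    (hy : ∀ j, j < m → y (j + 1) * (1 - algebraMap F E β * y j ^ 2) ^ 2 =
      4 * y j * (1 + algebraMap F E α * y j + algebraMap F E β * y j ^ 2))
    (hv : ∀ j, j ≤ m → v (y j) ≤ 1) (h2F : (2 : F) ≠ 0) (hdisc : α ^ 2 ≠ 4 * β) (j : ℕ)
    (hj : j ≤ m) : v (aeval (y 0) (de2 α β j)) = 1 := by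
  have hfac : ∀ j, j < m → v (1 - algebraMap F E β * y j ^ 2) = 1 := by
    intro j hj
    have h3 : v (algebraMap F E β * y j ^ 2) ≤ 1 := by
      rw [map_mul, hβ, one_mul, map_pow]
      exact pow_le_one₀ zero_le (hv j hj.le)
    refine le_antisymm ?_ ?_
    · refine (v.map_sub _ _).trans (max_le (by rw [map_one]) h3)
    · by_contra hlt
      rw [not_le] at hlt
      have hy1 : v (y j) = 1 := by
        refine le_antisymm (hv j hj.le) ?_
        by_contra hy1
        rw [not_le] at hy1
        have h5 : v (algebraMap F E β * y j ^ 2) < 1 := by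
          rw [map_mul, hβ, one_mul, map_pow]
          exact pow_lt_one₀ zero_le hy1 two_ne_zero
        have h6 : v (1 - algebraMap F E β * y j ^ 2) = v 1 := by
          apply Valuation.map_sub_eq_of_lt_left
          rw [map_one]
          exact h5
        rw [h6, map_one] at hlt
        exact lt_irrefl _ hlt
      have h4v : v 4 = 1 := by
        rw [show (4 : E) = 2 * 2 by norm_num, map_mul, h2, one_mul]
      have h4 : v (1 + algebraMap F E α * y j + algebraMap F E β * y j ^ 2) < 1 := by
        have h5 : v (4 * y j * (1 + algebraMap F E α * y j + algebraMap F E β * y j ^ 2)) < 1 := by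
          rw [← hy j hj, map_mul, map_pow, mul_comm]
          exact mul_lt_one_of_lt_of_le (pow_lt_one₀ zero_le hlt two_ne_zero) (hv _ hj)
        rw [map_mul, map_mul, h4v, hy1, one_mul, one_mul] at h5
        exact h5
      have h5 : v (2 + algebraMap F E α * y j) < 1 := by
        rw [show 2 + algebraMap F E α * y j =
          (1 + algebraMap F E α * y j + algebraMap F E β * y j ^ 2) +
            (1 - algebraMap F E β * y j ^ 2) by ring]
        exact (v.map_add _ _).trans_lt (max_lt h4 hlt)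
      have h6 : v (algebraMap F E α * y j) ≤ 1 := by
        rw [map_mul, hy1, mul_one]
        exact hα
      have h7 : v (2 - algebraMap F E α * y j) ≤ 1 :=
        (v.map_sub _ _).trans (max_le h2.le h6)
      have h8 : algebraMap F E (α ^ 2 - 4 * β) = algebraMap F E α ^ 2 *
          (1 - algebraMap F E β * y j ^ 2) - algebraMap F E β *
            ((2 - algebraMap F E α * y j) * (2 + algebraMap F E α * y j)) := by
        rw [map_sub, map_pow, map_mul, map_ofNat]
        ring
      have h9 : v (algebraMap F E (α ^ 2 - 4 * β)) < 1 := by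
        rw [h8]
        refine (v.map_sub _ _).trans_lt (max_lt ?_ ?_)
        · rw [map_mul, map_pow, mul_comm]
          exact mul_lt_one_of_lt_of_le hlt (pow_le_one₀ zero_le hα)
        · rw [map_mul, hβ, one_mul, map_mul, mul_comm]
          exact mul_lt_one_of_lt_of_le h5 h7
      rw [hd] at h9
      exact lt_irrefl _ h9
  induction j with
  | zero => rw [de2_zero, map_one, map_one]
  | succ j ih =>
    have h4 := (de2_val (α := α) (β := β) h2F hdisc hy j (by omega)).2
    have h5 : aeval (y 0) (de2 α β (j + 1)) =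
        aeval (y 0) (de2 α β j) ^ 4 * (1 - algebraMap F E β * y j ^ 2) ^ 2 := by
      rw [de2_succ, map_pow, map_sub, map_mul, map_pow, map_pow, aeval_C, ← h4]
      ring
    rw [h5, map_mul, map_pow, ih (by omega), one_pow, one_mul, map_pow, hfac j (by omega),
      one_pow]

end vals

end Pool.Agent.Lib.MP_2f3286_ag.UA
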