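import Pool.Agent.Lib.MP_2f3286_ag.UA.T2
import Pool.Agent.Lib.MP_2f3286_ag.UA.T4

/-!
# T5: the values at all places; constants

Copy of `O3.lean`, with the maps of T1 and the polynomials of T3.
`dbl_orbit_points`: `T`, `n₀` from `dbl_exists_level` (T2), `y j` = the value of `(a (n₀ + m - j))⁻¹`; the relation for `r = a (n₀ + m - (j + 1))`, `r' = a (n₀ + m - j)`:
`r⁻¹ (1 - β r'⁻¹ ^ 2) ^ 2 = 4 r'⁻¹ (1 + α r'⁻¹ + β r'⁻¹ ^ 2)` (divide `Dbl` by `r r' ^ 4`).
`dbl_const_start`: as `const_start`, with `dbl_inf_of_pole`, `dbl_inf_of_inf`, `dbl_val` (T1).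
-/

open IsDedekindDomain NumberField Polynomial
open scoped WithZero
open Pool.Agent.Lib.MP_2f3286_ag.Fer (Plc Data)

namespace Pool.Agent.Lib.MP_2f3286_ag.UA

variable {F : Type*} [Field F] [NumberField F] {L : Type*} [Field L] [Algebra F L]

private theorem t5_has_four {L E : Type*} [Field L] [Field E] (Q : Plc L E) :
    Q.Has (4 : L) 4 := by
  have h2Q : Q.Has (2 : L) 2 := by
    rw [← one_add_one_eq_two, ← one_add_one_eq_two]
    exact Plc.has_one.add Plc.has_one
  have h4 := h2Q.mul h2Q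
  have e1 : (2 : L) * 2 = 4 := by norm_num
  have e2 : (2 : E) * 2 = 4 := by norm_num
  rw [e1, e2] at h4
  exact h4

theorem dbl_orbit_points {p : ℕ} (D : Data p F L) {α β : F} (hβ : β ≠ 0)
    (hdisc : α ^ 2 ≠ 4 * β) {a : ℕ → L} (ha0 : ∀ n, a n ≠ 0)
    (ha : ∀ n, Dbl (algebraMap F L α) (algebraMap F L β) (a n) (a (n + 1))) (m : ℕ) :
    ∃ (N : ℕ) (T : Finset (HeightOneSpectrum (𝓞 F)))
      (x : ∀ w : HeightOneSpectrum (𝓞 F), w.adicCompletion F),
      (∀ w, (D.pl w).Has (a N)⁻¹ (x w)) ∧ ∀ w, ∀ j, j ≤ m → aeval (x w) (de2 α β j) ≠ 0 ∧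
        (w ∉ T → Valued.v (aeval (x w) (de2 α β j)) = (1 : ℤᵐ⁰)) := by
  obtain ⟨T, n₀, hT⟩ := dbl_exists_level D hβ hdisc ha0 ha
  have hex : ∀ w : HeightOneSpectrum (𝓞 F), ∃ y : ℕ → w.adicCompletion F, ∀ j, j ≤ m →
      (D.pl w).Has (a (n₀ + m - j))⁻¹ (y j) := by
    intro w
    choose y hy using fun n : ℕ => (hT w).2 (n₀ + n) (by omega)
    refine ⟨fun j => y (m - j), fun j hj => ?_⟩
    rw [show n₀ + m - j = n₀ + (m - j) by omega]
    exact hy _
  choose y hy using hex
  have hrel : ∀ w, ∀ j, j < m → y w (j + 1) *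
      (1 - algebraMap F (w.adicCompletion F) β * y w j ^ 2) ^ 2 =
        4 * y w j * (1 + algebraMap F (w.adicCompletion F) α * y w j +
          algebraMap F (w.adicCompletion F) β * y w j ^ 2) := by
    intro w j hj
    set r' := a (n₀ + m - j) with hr'
    set r := a (n₀ + m - (j + 1)) with hr
    have h1 : 4 * r * r' * (r' ^ 2 + algebraMap F L α * r' + algebraMap F L β) =
        (r' ^ 2 - algebraMap F L β) ^ 2 := by
      have h2 := ha (n₀ + m - (j + 1))
      rw [show n₀ + m - (j + 1) + 1 = n₀ + m - j by omega] at h2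
      exact h2
    have hr0 : r ≠ 0 := ha0 _
    have hr0' : r' ≠ 0 := ha0 _
    have h3 : r⁻¹ * (1 - algebraMap F L β * r'⁻¹ ^ 2) ^ 2 =
        4 * r'⁻¹ * (1 + algebraMap F L α * r'⁻¹ + algebraMap F L β * r'⁻¹ ^ 2) := by
      have h5 : r * r' ^ 4 * (r⁻¹ * (1 - algebraMap F L β * r'⁻¹ ^ 2) ^ 2) =
          r * r' ^ 4 * (4 * r'⁻¹ * (1 + algebraMap F L α * r'⁻¹ +
            algebraMap F L β * r'⁻¹ ^ 2)) := by
        have e1 : r * r' ^ 4 * (r⁻¹ * (1 - algebraMap F L β * r'⁻¹ ^ 2) ^ 2) =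
            (r' ^ 2 - algebraMap F L β) ^ 2 := by
          field_simp
        have e2 : r * r' ^ 4 * (4 * r'⁻¹ * (1 + algebraMap F L α * r'⁻¹ +
            algebraMap F L β * r'⁻¹ ^ 2)) =
            4 * r * r' * (r' ^ 2 + algebraMap F L α * r' + algebraMap F L β) := by
          field_simp
        rw [e1, e2, h1]
      exact mul_left_cancel₀ (mul_ne_zero hr0 (pow_ne_zero 4 hr0')) h5
    have hy2 := (hy w j hj.le).pow 2
    have h4 : (D.pl w).Has (r⁻¹ * (1 - algebraMap F L β * r'⁻¹ ^ 2) ^ 2) (y w (j + 1) *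
        (1 - algebraMap F (w.adicCompletion F) β * y w j ^ 2) ^ 2) :=
      (hy w (j + 1) hj).mul ((Plc.has_one.sub ((D.base w β).mul hy2)).pow 2)
    have h5 : (D.pl w).Has (4 * r'⁻¹ * (1 + algebraMap F L α * r'⁻¹ +
        algebraMap F L β * r'⁻¹ ^ 2))
        (4 * y w j * (1 + algebraMap F (w.adicCompletion F) α * y w j +
          algebraMap F (w.adicCompletion F) β * y w j ^ 2)) :=
      ((t5_has_four (D.pl w)).mul (hy w j hj.le)).mul
        ((Plc.has_one.add ((D.base w α).mul (hy w j hj.le))).add ((D.base w β).mul hy2))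
    rw [h3] at h4
    exact h4.unique h5
  refine ⟨n₀ + m, T, fun w => y w 0, fun w => hy w 0 (Nat.zero_le _), fun w j hj =>
    ⟨(de2_val two_ne_zero hdisc (hrel w) j hj).1, fun hw => ?_⟩⟩
  obtain ⟨h1, h2, h3, h4, h5⟩ := (hT w).1 hw
  have hvα : Valued.v (algebraMap F (w.adicCompletion F) α) ≤ (1 : ℤᵐ⁰) := by
    rw [Fer.val_alg']
    exact h2
  have hvβ : Valued.v (algebraMap F (w.adicCompletion F) β) = (1 : ℤᵐ⁰) := by
    rw [Fer.val_alg', h3]
  have hvd : Valued.v (algebraMap F (w.adicCompletion F) (α ^ 2 - 4 * β)) = (1 : ℤᵐ⁰) := by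
    rw [Fer.val_alg', h4]
  have hv2 : Valued.v ((2 : w.adicCompletion F)) = (1 : ℤᵐ⁰) := by
    have h3 : (2 : w.adicCompletion F) = algebraMap F (w.adicCompletion F) 2 := by
      rw [map_ofNat]
    rw [h3, Fer.val_alg']
    have h4 : (2 : F) = algebraMap (𝓞 F) F 2 := by rw [map_ofNat]
    rw [h4]
    refine le_antisymm (w.valuation_le_one (K := F) _) ?_
    rw [← not_lt]
    intro h5
    rw [w.valuation_lt_one_iff_dvd, Ideal.dvd_span_singleton] at h5
    exact h1 h5
  refine de2_unit Valued.v hv2 hvα hvβ hvd (hrel w) (fun j hj => ?_) two_ne_zero hdisc j hj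
  obtain ⟨z, hz, hz'⟩ := h5 (n₀ + m - j)
  rw [(hy w j hj).unique hz]
  exact hz'

/-- **If a term of the orbit is constant on the places, so is the first one.** -/
theorem dbl_const_start {p : ℕ} (D : Data p F L) {α β : F} (hβ : β ≠ 0)
    (hdisc : α ^ 2 ≠ 4 * β) {a : ℕ → L} (ha0 : ∀ n, a n ≠ 0)
    (ha : ∀ n, Dbl (algebraMap F L α) (algebraMap F L β) (a n) (a (n + 1))) {N : ℕ}
    {c : F} (hc : ∀ w, (D.pl w).Has (a N)⁻¹ (algebraMap F (w.adicCompletion F) c)) :
    (∃ e : F, ∀ w, (D.pl w).Has (a 0) (algebraMap F (w.adicCompletion F) e)) ∨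
      ∀ w, (D.pl w).Has (a 0)⁻¹ 0 := by
  have key : ∀ n, ((∃ e : F, ∀ w, (D.pl w).Has (a (n + 1)) (algebraMap F (w.adicCompletion F) e)) ∨
      ∀ w, (D.pl w).Has (a (n + 1))⁻¹ 0) →
      ((∃ e : F, ∀ w, (D.pl w).Has (a n) (algebraMap F (w.adicCompletion F) e)) ∨
      ∀ w, (D.pl w).Has (a n)⁻¹ 0) := by
    intro n h
    rcases h with ⟨e, he⟩ | h
    · by_cases he0 : e * (e ^ 2 + α * e + β) = 0
      · right
        intro w
        refine dbl_inf_of_pole (D.pl w) (D.base w α) (D.base w β) ((_root_.map_ne_zero _).2 hβ) ?_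
          (ha0 n) (ha n) (he w) ?_
        · intro h0
          apply hdisc
          apply (algebraMap F (w.adicCompletion F)).injective
          rw [map_pow, map_mul, map_ofNat]
          exact h0
        · have h1 := congrArg (algebraMap F (w.adicCompletion F)) he0
          simpa only [map_mul, map_add, map_pow, map_zero] using h1
      · left
        refine ⟨(e ^ 2 - β) ^ 2 / (4 * e * (e ^ 2 + α * e + β)), fun w => ?_⟩
        have h2w : (2 : w.adicCompletion F) ≠ 0 := by
          have h3 : (2 : w.adicCompletion F) = algebraMap F (w.adicCompletion F) 2 := by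
            rw [map_ofNat]
          rw [h3]
          exact (_root_.map_ne_zero _).2 two_ne_zero
        have h1 := dbl_val (D.pl w) (D.base w α) (D.base w β) h2w (ha n) (he w) (by
          have h5 : algebraMap F (w.adicCompletion F) (e * (e ^ 2 + α * e + β)) ≠ 0 :=
            (_root_.map_ne_zero _).2 he0
          simpa only [map_mul, map_add, map_pow] using h5)
        have h6 : algebraMap F (w.adicCompletion F)
            ((e ^ 2 - β) ^ 2 / (4 * e * (e ^ 2 + α * e + β))) =
            (algebraMap F (w.adicCompletion F) e ^ 2 - algebraMap F (w.adicCompletion F) β) ^ 2 /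
              (4 * algebraMap F (w.adicCompletion F) e *
                (algebraMap F (w.adicCompletion F) e ^ 2 +
                  algebraMap F (w.adicCompletion F) α * algebraMap F (w.adicCompletion F) e +
                  algebraMap F (w.adicCompletion F) β)) := by
          simp only [map_div₀, map_mul, map_add, map_sub, map_pow, map_ofNat]
        rw [h6]
        exact h1
    · right
      intro w
      exact dbl_inf_of_inf (D.pl w) (D.base w α) (D.base w β) (ha0 n) (ha0 _) (ha n) (h w)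
  have hN : (∃ e : F, ∀ w, (D.pl w).Has (a N) (algebraMap F (w.adicCompletion F) e)) ∨
      ∀ w, (D.pl w).Has (a N)⁻¹ 0 := by
    by_cases hc0 : c = 0
    · right
      intro w
      have h1 := hc w
      rw [hc0, map_zero] at h1
      exact h1
    · left
      refine ⟨c⁻¹, fun w => ?_⟩
      have h1 := (hc w).inv ((_root_.map_ne_zero _).2 hc0)
      rw [inv_inv, ← map_inv₀] at h1
      exact h1
  induction N with
  | zero => exact hN
  | succ N ih =>
    have h1 := key N hN
    clear hN hc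
    have h2 : ∀ n, n ≤ N → ((∃ e : F, ∀ w, (D.pl w).Has (a (N - n))
        (algebraMap F (w.adicCompletion F) e)) ∨ ∀ w, (D.pl w).Has (a (N - n))⁻¹ 0) := by
      intro n
      induction n with
      | zero => intro _; exact h1
      | succ n ih' =>
        intro hn
        have h3 := ih' (by omega)
        apply key
        rw [show N - (n + 1) + 1 = N - n by omega]
        exact h3
    have h3 := h2 N le_rfl
    rw [Nat.sub_self] at h3
    exact h3

end Pool.Agent.Lib.MP_2f3286_ag.UA
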