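import Pool.Agent.Lib.MP_2f3286_ag.UA.F1
import Pool.Agent.Lib.MP_2f3286_ag.UA.T5

/-!
# T8: sections with a backward orbit of the duplication, over the field of the curve

Copy of `F1.lean`. `dbl_const_back`: as `const_back`: `a n = (a (n + 1) ^ 2 - β) ^ 2 / (4 a (n + 1) (a (n + 1) ^ 2 + α a (n + 1) + β))`; the denominator is not zero
since otherwise `a (n + 1) ^ 2 = β` and `a (n + 1) (a (n + 1) ^ 2 + α a (n + 1) + β) = 0`, and `α ^ 2 = 4 β` or `β = 0` (see T1, `dbl_inf_of_pole`).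
`geo_dbl_F`: as `geo_F`: `dbl_orbit_points` for `orbit_points`, `de2` for `de`, `enough2` for `enough`, `dbl_const_back` for `const_back`.
-/

open IsDedekindDomain NumberField Polynomial
open scoped WithZero
open Pool.Agent.Lib.MP_2f3286_bir (IsPlaceOf)

namespace Pool.Agent.Lib.MP_2f3286_ag.UA

/-- If a term of the orbit is constant, so are the terms before it. -/
theorem dbl_const_back {F K : Type*} [Field F] [Field K] [Algebra F K] {α β : F}
    (h2 : (2 : F) ≠ 0) (hβ : β ≠ 0) (hdisc : α ^ 2 ≠ 4 * β) {a : ℕ → K} (ha0 : ∀ n, a n ≠ 0)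
    (ha : ∀ n, Dbl (algebraMap F K α) (algebraMap F K β) (a n) (a (n + 1))) (N : ℕ)
    (c : F) (hc : (a N)⁻¹ = algebraMap F K c) : ∃ e : F, a 0 = algebraMap F K e := by
  have hN : a N = algebraMap F K c⁻¹ := by rw [map_inv₀, ← hc, inv_inv]
  clear hc
  generalize c⁻¹ = e at hN
  clear c
  induction N generalizing e with
  | zero => exact ⟨e, hN⟩
  | succ N ih =>
    have h1 : 4 * a N * a (N + 1) * (a (N + 1) ^ 2 + algebraMap F K α * a (N + 1) +
        algebraMap F K β) = (a (N + 1) ^ 2 - algebraMap F K β) ^ 2 := ha N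
    rw [hN] at h1
    have hD : e * (e ^ 2 + α * e + β) ≠ 0 := by
      intro h0
      have h3 : algebraMap F K (e * (e ^ 2 + α * e + β)) = 0 := by rw [h0, map_zero]
      rw [map_mul, map_add, map_add, map_mul, map_pow] at h3
      have h4 : (algebraMap F K e ^ 2 - algebraMap F K β) ^ 2 = 0 := by
        rw [← h1]
        linear_combination (4 * a N) * h3
      have h5 : algebraMap F K (e ^ 2 - β) = 0 := by
        rw [map_sub, map_pow]
        exact pow_eq_zero_iff two_ne_zero |>.1 h4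
      have h6 : e ^ 2 = β := by
        have h7 := (_root_.map_eq_zero (algebraMap F K)).1 h5
        exact sub_eq_zero.1 h7
      have he0 : e ≠ 0 := by
        rintro rfl
        exact hβ (by rw [← h6, zero_pow two_ne_zero])
      have h7 : e ^ 2 + α * e + β = 0 := (mul_eq_zero.1 h0).resolve_left he0
      have h8 : α * e = -(2 * β) := by linear_combination h7 - h6
      have h9 : β * (α ^ 2 - 4 * β) = 0 := by
        have h10 : (α * e) ^ 2 = (-(2 * β)) ^ 2 := by rw [h8]
        linear_combination h10 - α ^ 2 * h6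
      rcases mul_eq_zero.1 h9 with h10 | h10
      · exact hβ h10
      · exact hdisc (sub_eq_zero.1 h10)
    refine ih ((e ^ 2 - β) ^ 2 / (4 * (e * (e ^ 2 + α * e + β)))) ?_
    have h4F : (4 : F) ≠ 0 := by
      have h5 : (4 : F) = 2 * 2 := by norm_num
      rw [h5]
      exact mul_ne_zero h2 h2
    have h5 : algebraMap F K (4 * (e * (e ^ 2 + α * e + β))) ≠ 0 :=
      (_root_.map_ne_zero _).2 (mul_ne_zero h4F hD)
    rw [map_div₀, eq_div_iff h5, map_mul, map_mul, map_add, map_add, map_mul, map_pow, map_pow,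
      map_sub, map_pow, map_ofNat, ← h1]
    ring

universe u

/-- **Sections with a backward orbit of the duplication are geometric.** -/
theorem geo_dbl_F {F : Type u} [Field F] [NumberField F] {α β : F} (hβ : β ≠ 0)
    (hdisc : α ^ 2 ≠ 4 * β) {K : Type*} [Field K] [Algebra F K]
    (htr : Algebra.trdeg F K = 1) {Ω : Type*} [Field Ω] [Algebra K Ω] [IsAlgClosure K Ω]
    [Algebra (AlgebraicClosure F) Ω] [Algebra F Ω]
    [IsScalarTower F K Ω] [IsScalarTower F (AlgebraicClosure F) Ω]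
    (s : Gal(AlgebraicClosure F/F) →* Gal(Ω/K)) (hs : Continuous s)
    (hsec : ∀ σ a, s σ (algebraMap (AlgebraicClosure F) Ω a) =
      algebraMap (AlgebraicClosure F) Ω (σ a))
    (hfix : ∀ x : Ω, (∀ σ, s σ x = x) → ∃ y : K, algebraMap K Ω y = x)
    (a : ℕ → K) (ha0 : ∀ n, a n ≠ 0)
    (ha : ∀ n, Dbl (algebraMap F K α) (algebraMap F K β) (a n) (a (n + 1)))
    (hc : ∀ c : F, a 0 ≠ algebraMap F K c) :
    ∃ (A₀ : ValuationSubring Ω) (ψ₀ : A₀ →+* AlgebraicClosure F),
      IsPlaceOf s F (RingHom.id _) A₀ ψ₀ := by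
  classical
  have hcl : IsAlgClosed Ω := IsAlgClosure.isAlgClosed K
  have halg : Algebra.IsAlgebraic K Ω := IsAlgClosure.isAlgebraic
  have h2 : (2 : F) ≠ 0 := two_ne_zero
  choose ι _ using fun w : HeightOneSpectrum (𝓞 F) =>
    (⟨(IsAlgClosed.lift : AlgebraicClosure F →ₐ[F] AlgebraicClosure (w.adicCompletion F)),
      trivial⟩ : ∃ _ : AlgebraicClosure F →ₐ[F] AlgebraicClosure (w.adicCompletion F), True)
  choose A φ hφ using fun w => Koe.local_place s hs hsec w (ι w)
  obtain ⟨D, hD⟩ := Fer.exists_data (L := K) two_ne_zero s hs hsec (fun x σ => (s σ).commutes x)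
    hfix ι A φ hφ
  obtain ⟨N, T, xv, hxv, hxv1⟩ := dbl_orbit_points D hβ hdisc ha0 ha (Module.finrank ℚ F)
  have htc : ∀ c : F, (a N)⁻¹ ≠ algebraMap F K c := by
    intro c hc'
    obtain ⟨e, he⟩ := dbl_const_back h2 hβ hdisc ha0 ha N c hc'
    exact hc e he
  obtain ⟨A₀, ψ₀, h1, -, -, -⟩ := GU.bir_of_enough.{u, u} htr (a N)⁻¹ htc ∅
    (fun j : Fin (Module.finrank ℚ F) => de2 α β (j + 1))
    (fun h0 => GU.enough_of_points.{u, u} ∅ _ _ h0 (enough2 hβ hdisc)) s hs hsec (fun v => ι v.1)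
    (fun v => A v.1) (fun v => φ v.1) (fun v => hφ v.1) (fun v => xv v.1)
    (fun v => (hD v.1 _ (xv v.1)).1 (hxv v.1))
    (fun v j => (hxv1 v.1 (j + 1) j.2).1) T 1 le_rfl
    (fun v hv j z _ => (hxv1 v.1 (j + 1) j.2).2 hv)
  exact ⟨A₀, ψ₀, h1⟩

end Pool.Agent.Lib.MP_2f3286_ag.UA
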