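import Pool.Agent.Lib.MP_2f3286_ag.UA.T6
import Pool.Agent.Lib.MP_2f3286_ag.UA.T9
import Pool.Agent.Lib.MP_2f3286_ag.UA.T10

/-!
# T11: one prime

Choose a root `e` of the cubic in `AlgebraicClosure k`, `F' = F(e)` (`IntermediateField.adjoin F {e}`); `exists_halves_k` (T10) gives `ζ n`; `orbit_of_halves` (T6)
in `Ω` gives the orbit `x n - e`; its terms are fixed by `s σ` for `σ` fixing `F'`; `x 0 - e` is not the image of an element of `AlgebraicClosure k`:
otherwise `x 0` and then `y 0` come from `AlgebraicClosure k`, are fixed by the Galois group of `F`, so lie in `F` (see the proofs in `Koe/Main.lean`, `Top.const_point`,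
`Top.exists_of_fixed`, `Top.exists_of_fixed_const`), and `ζ 0` comes from `W(F)`. Then `geo_dbl_k` (T9).
-/

open WeierstrassCurve WeierstrassCurve.Affine WeierstrassCurve.Affine.Point
open IsDedekindDomain NumberField
open Pool.Agent.Lib.MP_2f3286_ag
open Pool.Agent.Lib.MP_2f3286_bir (IsPlaceOf)

namespace Pool.Agent.Lib.MP_2f3286_ag.UA

universe u

open scoped Classical in
/-- **One prime suffices**: a section over which an elliptic curve with finitely many rational points
and finite `2`-primary part of the Tate-Shafarevich group acquires a point is geometric. -/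
theorem one_prime {k : Type*} [Field k] [NumberField k]
    {K : Type*} [Field K] [Algebra k K] (htr : Algebra.trdeg k K = 1)
    {Ω : Type*} [Field Ω] [Algebra K Ω] [IsAlgClosure K Ω]
    [Algebra (AlgebraicClosure k) Ω] [Algebra k Ω]
    [IsScalarTower k K Ω] [IsScalarTower k (AlgebraicClosure k) Ω]
    (s : Gal(AlgebraicClosure k/k) →* Gal(Ω/K)) (hs : Continuous s)
    (hsec : ∀ σ a, s σ (algebraMap (AlgebraicClosure k) Ω a) =
      algebraMap (AlgebraicClosure k) Ω (σ a))
    {F : Type*} [Field F] [NumberField F] [Algebra k F]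
    [Algebra F (AlgebraicClosure k)] [IsScalarTower k F (AlgebraicClosure k)]
    [Algebra F Ω] [IsScalarTower F (AlgebraicClosure k) Ω]
    (W : WeierstrassCurve F) [W.IsShortNF] [W.IsElliptic]
    (hrk : ∀ Q : (W⁄F).Point, IsOfFinAddOrder Q)
    {j : ℕ} (hsha : ShaTwoKilledBy W j)
    (η : (W⁄Ω).Point) (h₁ : Koe.FixedPt s η)
    (hη : ¬ ∃ Q : (W⁄F).Point, η = Point.baseChange F Ω Q) :
    ∃ (A₀ : ValuationSubring Ω) (ψ₀ : A₀ →+* AlgebraicClosure k),
      IsPlaceOf s k (RingHom.id _) A₀ ψ₀ := by
  have hcl : IsAlgClosed Ω := IsAlgClosure.isAlgClosed K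
  have halg : Algebra.IsAlgebraic K Ω := IsAlgClosure.isAlgebraic
  have hfin : FiniteDimensional k F := FiniteDimensional.right ℚ k F
  have hkF : Algebra.IsAlgebraic k F := inferInstance
  have hFk : Algebra.IsAlgebraic F (AlgebraicClosure k) :=
    Algebra.IsAlgebraic.tower_top (K := k) F
  have hcharb : CharZero (AlgebraicClosure k) :=
    charZero_of_injective_algebraMap (algebraMap k (AlgebraicClosure k)).injective
  have hcharΩ : CharZero Ω :=
    charZero_of_injective_algebraMap (algebraMap F Ω).injective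
  obtain ⟨ζ, hζ, hd, hζ0⟩ := exists_halves_k htr s hs hsec W hrk hsha η h₁ hη
  -- points with an algebraic first coordinate
  have key : ∀ (x₀ : AlgebraicClosure k) (y : Ω)
      (h : (W⁄Ω).Nonsingular (algebraMap (AlgebraicClosure k) Ω x₀) y),
      ζ 0 ≠ some (algebraMap (AlgebraicClosure k) Ω x₀) y h := by
    intro x₀ y h h0
    have hfp := hζ 0
    rw [h0] at hfp
    have hfp' : ∀ σ : Gal(AlgebraicClosure k/k),
        (∀ a : F, σ (algebraMap F _ a) = algebraMap F _ a) →
        s σ (algebraMap (AlgebraicClosure k) Ω x₀) = algebraMap (AlgebraicClosure k) Ω x₀ ∧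
          s σ y = y := hfp
    have hy2 : y ^ 2 = algebraMap (AlgebraicClosure k) Ω
        (x₀ ^ 3 + algebraMap F _ W.a₄ * x₀ + algebraMap F _ W.a₆) := by
      have e1 := (Affine.equation_iff _ _).1 h.1
      have ea1 : (W⁄Ω).a₁ = 0 := (W⁄Ω).a₁_of_isShortNF
      have ea2 : (W⁄Ω).a₂ = 0 := (W⁄Ω).a₂_of_isShortNF
      have ea3 : (W⁄Ω).a₃ = 0 := (W⁄Ω).a₃_of_isShortNF
      have ea4 : (W⁄Ω).a₄ = algebraMap (AlgebraicClosure k) Ω (algebraMap F _ W.a₄) := by
        rw [← IsScalarTower.algebraMap_apply]; rfl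
      have ea6 : (W⁄Ω).a₆ = algebraMap (AlgebraicClosure k) Ω (algebraMap F _ W.a₆) := by
        rw [← IsScalarTower.algebraMap_apply]; rfl
      rw [ea1, ea2, ea3, ea4, ea6] at e1
      simp only [map_add, map_mul, map_pow]
      linear_combination e1
    obtain ⟨y₀, hy₀⟩ : ∃ y₀ : AlgebraicClosure k, algebraMap (AlgebraicClosure k) Ω y₀ = y := by
      obtain ⟨z, hz⟩ := IsAlgClosed.exists_pow_nat_eq (x₀ ^ 3 + algebraMap F _ W.a₄ * x₀ +
        algebraMap F _ W.a₆) (n := 2) (by norm_num)
      rw [← hz, map_pow] at hy2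
      rcases sq_eq_sq_iff_eq_or_eq_neg.1 hy2 with h3 | h3
      · exact ⟨z, h3.symm⟩
      · exact ⟨-z, by rw [map_neg, h3]⟩
    subst hy₀
    have hclF : IsAlgClosure F (AlgebraicClosure k) := ⟨inferInstance, inferInstance⟩
    have hgal : IsGalois F (AlgebraicClosure k) := IsAlgClosure.isGalois F (AlgebraicClosure k)
    have hfix : ∀ z : AlgebraicClosure k, (∀ σ : Gal(AlgebraicClosure k/k),
        (∀ a : F, σ (algebraMap F _ a) = algebraMap F _ a) →
        s σ (algebraMap (AlgebraicClosure k) Ω z) = algebraMap (AlgebraicClosure k) Ω z) →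
        ∃ w : F, algebraMap F (AlgebraicClosure k) w = z := by
      intro z hz
      have : z ∈ (⊥ : IntermediateField F (AlgebraicClosure k)) := by
        rw [InfiniteGalois.mem_bot_iff_fixed]
        intro τ
        have h4 := hz (τ.restrictScalars k) fun a => τ.commutes a
        rw [hsec] at h4
        exact (algebraMap (AlgebraicClosure k) Ω).injective h4
      exact IntermediateField.mem_bot.mp this
    obtain ⟨a, rfl⟩ := hfix x₀ fun σ hσ => (hfp' σ hσ).1
    obtain ⟨b, rfl⟩ := hfix y₀ fun σ hσ => (hfp' σ hσ).2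
    apply hζ0
    have h' : (W⁄Ω).Nonsingular (algebraMap F Ω a) (algebraMap F Ω b) := by
      rw [IsScalarTower.algebraMap_apply F (AlgebraicClosure k) Ω,
        IsScalarTower.algebraMap_apply F (AlgebraicClosure k) Ω]
      exact h
    refine ⟨some a b ((Affine.baseChange_nonsingular (W := W) (Algebra.ofId F Ω).injective a b).mp h'), ?_⟩
    rw [h0]
    exact Top.some_ext _ _ (IsScalarTower.algebraMap_apply F (AlgebraicClosure k) Ω a).symm
      (IsScalarTower.algebraMap_apply F (AlgebraicClosure k) Ω b).symm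
  -- a root of the cubic
  obtain ⟨e, he⟩ : ∃ e : AlgebraicClosure k,
      e ^ 3 + algebraMap F _ W.a₄ * e + algebraMap F _ W.a₆ = 0 := by
    let p : Polynomial (AlgebraicClosure k) := Polynomial.X ^ 3 +
      Polynomial.C (algebraMap F _ W.a₄) * Polynomial.X + Polynomial.C (algebraMap F _ W.a₆)
    have hdeg : p.degree = 3 := by
      simp only [p]
      compute_degree!
    obtain ⟨e, he⟩ := IsAlgClosed.exists_root p (by rw [hdeg]; norm_num)
    refine ⟨e, ?_⟩
    simpa [p, Polynomial.IsRoot] using he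
  have heΩ : (algebraMap (AlgebraicClosure k) Ω e) ^ 3 +
      algebraMap F Ω W.a₄ * algebraMap (AlgebraicClosure k) Ω e + algebraMap F Ω W.a₆ = 0 := by
    rw [IsScalarTower.algebraMap_apply F (AlgebraicClosure k) Ω W.a₄,
      IsScalarTower.algebraMap_apply F (AlgebraicClosure k) Ω W.a₆, ← map_mul, ← map_pow,
      ← map_add, ← map_add, he, _root_.map_zero]
  obtain ⟨x, y, h, hxy, hx0, hdbl⟩ := orbit_of_halves W two_ne_zero heΩ ζ hd
    (fun h0 => hζ0 ⟨0, by rw [h0]; rfl⟩) (fun y h => key e y h)
  -- the field generated by the root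
  let F' : IntermediateField F (AlgebraicClosure k) := IntermediateField.adjoin F {e}
  have hFF' : FiniteDimensional F F' :=
    IntermediateField.adjoin.finiteDimensional (Algebra.IsIntegral.isIntegral e)
  have hnf : NumberField F' := NumberField.of_module_finite F F'
  have t4 : IsScalarTower k F' (AlgebraicClosure k) :=
    IsScalarTower.of_algebraMap_eq fun _ => rfl
  let e' : F' := ⟨e, IntermediateField.mem_adjoin_simple_self F e⟩
  have hee' : algebraMap F' (AlgebraicClosure k) e' = e := rfl
  have he' : e' ^ 3 + algebraMap F F' W.a₄ * e' + algebraMap F F' W.a₆ = 0 := by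
    apply Subtype.ext
    exact he
  have hα : algebraMap (AlgebraicClosure k) Ω (algebraMap F' (AlgebraicClosure k) (3 * e')) =
      3 * algebraMap (AlgebraicClosure k) Ω e := by
    rw [map_mul, map_mul, hee', map_ofNat, map_ofNat]
  have hβ : algebraMap (AlgebraicClosure k) Ω (algebraMap F' (AlgebraicClosure k)
      (3 * e' ^ 2 + algebraMap F F' W.a₄)) =
      3 * (algebraMap (AlgebraicClosure k) Ω e) ^ 2 + algebraMap F Ω W.a₄ := by
    rw [map_add, map_add, map_mul, map_mul, map_pow, map_pow, hee', map_ofNat, map_ofNat,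
      ← IsScalarTower.algebraMap_apply F F' (AlgebraicClosure k),
      ← IsScalarTower.algebraMap_apply F (AlgebraicClosure k) Ω]
  refine geo_dbl_k (F := F') (α := 3 * e') (β := 3 * e' ^ 2 + algebraMap F F' W.a₄)
    (beta_ne_zero W he') (disc_ne_zero W he') htr s hs hsec
    (fun n => x n - algebraMap (AlgebraicClosure k) Ω e) ?_ hx0 ?_ ?_
  · intro n σ hσ
    have hσF : ∀ a : F, σ (algebraMap F _ a) = algebraMap F _ a := fun a => by
      rw [IsScalarTower.algebraMap_apply F F' (AlgebraicClosure k)]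
      exact hσ _
    have h5 : Koe.FixedPt s (some (x n) (y n) (h n) : (W⁄Ω).Point) := by
      rw [← hxy n]; exact hζ n
    have h6 : s σ (x n) = x n ∧ s σ (y n) = y n := h5 σ hσF
    have h7 : σ e = e := by
      have := hσ e'
      rwa [hee'] at this
    change s σ (x n - algebraMap (AlgebraicClosure k) Ω e) = _
    rw [map_sub, h6.1, hsec, h7]
  · intro n
    rw [hα, hβ]
    exact hdbl n
  · intro c hc
    have h8 : x 0 = algebraMap (AlgebraicClosure k) Ω (algebraMap F' _ c + e) := by
      rw [map_add, ← hc]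
      ring
    have h9 : (W⁄Ω).Nonsingular (algebraMap (AlgebraicClosure k) Ω (algebraMap F' _ c + e)) (y 0) := by
      rw [← h8]; exact h 0
    exact key _ (y 0) h9 (by rw [hxy 0]; exact Top.some_ext _ _ h8 rfl)

end Pool.Agent.Lib.MP_2f3286_ag.UA
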