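import Pool.Agent.Lib.MP_2f3286_ag.UA.T1

/-!
# T2: no value zero in a finite field; the values of the inverses of the orbit

Copy of `no_zero`, `val_good`, `exists_level` of `O1.lean` with the map of T1. `G : Option E → Option E`: `G none = none`, `G (some y) = none` if `y (y ^ 2 + α' y + β') = 0`,
otherwise `some ((y ^ 2 - β') ^ 2 / (4 y (y ^ 2 + α' y + β')))`; `G (some 0) = none`, so the iterates of `some 0` are `none`.
`dbl_val_good`: at `w` not over `2`, `α` integral, `β` and `α ^ 2 - 4 β` units at `w`.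
-/

open IsDedekindDomain NumberField
open scoped WithZero
open Pool.Agent.Lib.MP_2f3286_ag.Fer (Plc Data)

namespace Pool.Agent.Lib.MP_2f3286_ag.UA

/-- **No value zero in a finite field.** -/
theorem dbl_no_zero {L E : Type*} [Field L] [Field E] [Finite E] (Q : Plc L E) {α β : L}
    {α' β' : E} (hα : Q.Has α α') (hβ : Q.Has β β') (h2 : (2 : E) ≠ 0) (hβ0 : β' ≠ 0)
    (hdisc : α' ^ 2 ≠ 4 * β') {a : ℕ → L}
    (ha0 : ∀ n, a n ≠ 0) (ha : ∀ n, Dbl α β (a n) (a (n + 1))) (m : ℕ) :
    ¬ Q.Has (a m) 0 := by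
  classical
  intro hm
  -- shift the orbit
  suffices key : ∀ a : ℕ → L, (∀ n, a n ≠ 0) →
      (∀ n, Dbl α β (a n) (a (n + 1))) → ¬ Q.Has (a 0) 0 by
    refine key (fun n => a (m + n)) (fun n => ha0 _) (fun n => ha _) ?_
    exact hm
  clear hm ha ha0
  intro a ha0 ha h0
  let val : L → Option E := fun x => if h : ∃ y, Q.Has x y then some h.choose else none
  have val_some : ∀ {x : L} {y : E}, Q.Has x y → val x = some y := by
    intro x y hy
    have hex : ∃ y, Q.Has x y := ⟨y, hy⟩
    change (if h : ∃ y, Q.Has x y then some h.choose else none) = some y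
    rw [dif_pos hex]
    congr 1
    exact hex.choose_spec.unique hy
  have val_none : ∀ {x : L}, (¬ ∃ y, Q.Has x y) → val x = none := by
    intro x hx
    change (if h : ∃ y, Q.Has x y then some h.choose else none) = none
    rw [dif_neg hx]
  let G : Option E → Option E := fun o => match o with
    | none => none
    | some y => if y * (y ^ 2 + α' * y + β') = 0 then none
        else some ((y ^ 2 - β') ^ 2 / (4 * y * (y ^ 2 + α' * y + β')))
  have rel : ∀ r r' : L, r ≠ 0 → r' ≠ 0 → Dbl α β r r' → G (val r') = val r := by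
    intro r r' hr hr' h
    rcases Q.has_or_inv r' with ⟨y, hy⟩ | ⟨-, hy⟩
    · rw [val_some hy]
      change (if y * (y ^ 2 + α' * y + β') = 0 then none
        else some ((y ^ 2 - β') ^ 2 / (4 * y * (y ^ 2 + α' * y + β')))) = _
      by_cases hy0 : y * (y ^ 2 + α' * y + β') = 0
      · rw [if_pos hy0]
        have h3 := dbl_inf_of_pole Q hα hβ hβ0 hdisc hr h hy hy0
        rw [val_none]
        rintro ⟨z, hz⟩
        exact Plc.not_has_of_inv h3 hr hz
      · rw [if_neg hy0]
        exact (val_some (dbl_val Q hα hβ h2 h hy hy0)).symm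
    · have h3 := dbl_inf_of_inf Q hα hβ hr hr' h hy
      rw [val_none, val_none]
      · rintro ⟨z, hz⟩
        exact Plc.not_has_of_inv h3 hr hz
      · rintro ⟨z, hz⟩
        exact Plc.not_has_of_inv hy hr' hz
  obtain ⟨m, hm1, hm2⟩ := Fer.periodic G (fun n => val (a n))
    (fun n => rel _ _ (ha0 n) (ha0 (n + 1)) (ha n))
  have hG : ∀ n, 1 ≤ n → G^[n] (some 0) = none := by
    intro n hn
    obtain ⟨n, rfl⟩ : ∃ l, n = l + 1 := ⟨n - 1, by omega⟩
    rw [Function.iterate_succ_apply]
    have h3 : G (some 0) = none := by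
      change (if (0 : E) * ((0 : E) ^ 2 + α' * 0 + β') = 0 then none else _) = none
      rw [if_pos (zero_mul _)]
    rw [h3]
    exact Function.iterate_fixed rfl n
  have h3 : val (a 0) = some 0 := val_some h0
  simp only [h3] at hm2
  rw [hG m hm1] at hm2
  exact absurd hm2 (by simp)

section data

variable {F : Type*} [Field F] [NumberField F] {L : Type*} [Field L] [Algebra F L]

/-- **The values of the inverses of the orbit at the good places.** -/
theorem dbl_val_good {p : ℕ} (D : Data p F L) {α β : F} {a : ℕ → L}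
    (ha0 : ∀ n, a n ≠ 0)
    (ha : ∀ n, Dbl (algebraMap F L α) (algebraMap F L β) (a n) (a (n + 1)))
    (w : HeightOneSpectrum (𝓞 F)) (h2 : (2 : 𝓞 F) ∉ w.asIdeal) (hα : w.valuation F α ≤ 1)
    (hβ : w.valuation F β = 1) (hdisc : w.valuation F (α ^ 2 - 4 * β) = 1) (n : ℕ) :
    ∃ x : w.adicCompletion F, (D.pl w).Has (a n)⁻¹ x ∧ Valued.v x ≤ (1 : ℤᵐ⁰) := by
  obtain ⟨E, hE, hfin, Q', res, hres, hto, hfrom⟩ := Fer.exists_comp w (D.pl w)
  have hva : Valued.v (algebraMap F (w.adicCompletion F) α) ≤ (1 : ℤᵐ⁰) := by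
    rw [Fer.val_alg']
    exact hα
  have hvb : Valued.v (algebraMap F (w.adicCompletion F) β) = (1 : ℤᵐ⁰) := by
    rw [Fer.val_alg', hβ]
  have hvd : Valued.v (algebraMap F (w.adicCompletion F) (α ^ 2 - 4 * β)) = (1 : ℤᵐ⁰) := by
    rw [Fer.val_alg', hdisc]
  let aa : w.adicCompletionIntegers F := ⟨algebraMap F (w.adicCompletion F) α, hva⟩
  let bb : w.adicCompletionIntegers F := ⟨algebraMap F (w.adicCompletion F) β, hvb.le⟩
  have hv2 : Valued.v ((2 : w.adicCompletion F)) = (1 : ℤᵐ⁰) := by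
    have h3 : (2 : w.adicCompletion F) = algebraMap F (w.adicCompletion F) 2 := by
      rw [map_ofNat]
    rw [h3, Fer.val_alg']
    have h4 : (2 : F) = algebraMap (𝓞 F) F 2 := by rw [map_ofNat]
    rw [h4]
    refine le_antisymm (w.valuation_le_one (K := F) _) ?_
    rw [← not_lt]
    intro h5
    rw [w.valuation_lt_one_iff_dvd, Ideal.dvd_span_singleton] at h5
    exact h2 h5
  have hne : ∀ z : w.adicCompletionIntegers F, Valued.v (z : w.adicCompletion F) = (1 : ℤᵐ⁰) →
      res z ≠ 0 := by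
    intro z hz h0
    rw [hres, hz] at h0
    exact lt_irrefl _ h0
  have hd' : (res aa) ^ 2 ≠ 4 * res bb := by
    intro h5
    refine hne (aa ^ 2 - 4 * bb) ?_ ?_
    · have h6 : ((aa ^ 2 - 4 * bb : w.adicCompletionIntegers F) : w.adicCompletion F) =
          algebraMap F (w.adicCompletion F) (α ^ 2 - 4 * β) := by
        rw [map_sub, map_pow, map_mul, map_ofNat]
        rfl
      rw [h6, hvd]
    · rw [map_sub, map_pow, map_mul, map_ofNat, h5, sub_self]
  have key := dbl_no_zero Q' (hto _ aa (D.base w α)) (hto _ bb (D.base w β)) (by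
      have h3 := hne 2 hv2
      rwa [map_ofNat] at h3) (hne bb hvb) hd' ha0 ha n
  rcases Q'.has_or_inv (a n)⁻¹ with ⟨e, he⟩ | ⟨-, he⟩
  · obtain ⟨x, hx, -⟩ := hfrom _ _ he
    exact ⟨x, hx, x.2⟩
  · rw [inv_inv] at he
    exact absurd he key

/-- **The values of the inverses of the orbit.** -/
theorem dbl_exists_level {p : ℕ} (D : Data p F L) {α β : F} (hβ : β ≠ 0)
    (hdisc : α ^ 2 ≠ 4 * β) {a : ℕ → L} (ha0 : ∀ n, a n ≠ 0)
    (ha : ∀ n, Dbl (algebraMap F L α) (algebraMap F L β) (a n) (a (n + 1))) :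
    ∃ (T : Finset (HeightOneSpectrum (𝓞 F))) (n₀ : ℕ), ∀ w : HeightOneSpectrum (𝓞 F),
      (w ∉ T → (2 : 𝓞 F) ∉ w.asIdeal ∧ w.valuation F α ≤ 1 ∧ w.valuation F β = 1 ∧
        w.valuation F (α ^ 2 - 4 * β) = 1 ∧
        ∀ n, ∃ x : w.adicCompletion F, (D.pl w).Has (a n)⁻¹ x ∧ Valued.v x ≤ (1 : ℤᵐ⁰)) ∧
      ∀ n, n₀ ≤ n → ∃ x : w.adicCompletion F, (D.pl w).Has (a n)⁻¹ x := by
  classical
  have hd0 : α ^ 2 - 4 * β ≠ 0 := sub_ne_zero.2 hdisc
  have hα' : {w : HeightOneSpectrum (𝓞 F) | ¬ w.valuation F α ≤ 1}.Finite := by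
    by_cases h0 : α = 0
    · subst h0
      refine Set.Finite.subset Set.finite_empty fun w hw => ?_
      rw [Set.mem_ofPred_eq, map_zero] at hw
      exact absurd zero_le hw
    · refine (finite_val_ne_one h0).subset fun w hw => ?_
      rw [Set.mem_ofPred_eq] at hw ⊢
      intro h1
      exact hw h1.le
  have hT : {w : HeightOneSpectrum (𝓞 F) | ¬ ((2 : 𝓞 F) ∉ w.asIdeal ∧
      w.valuation F α ≤ 1 ∧ w.valuation F β = 1 ∧
        w.valuation F (α ^ 2 - 4 * β) = 1)}.Finite := by
    have h1 : (algebraMap (𝓞 F) F) 2 ≠ 0 := by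
      rw [map_ofNat]
      exact two_ne_zero
    refine ((((finite_val_ne_one h1).union hα').union (finite_val_ne_one hβ)).union
      (finite_val_ne_one hd0)).subset fun w hw => ?_
    rw [Set.mem_ofPred_eq, not_and_or, not_not, not_and_or, not_and_or] at hw
    rcases hw with hw | hw | hw | hw
    · left; left; left
      rw [Set.mem_ofPred_eq]
      intro h2
      rw [← Ideal.dvd_span_singleton, ← w.valuation_lt_one_iff_dvd (K := F), h2] at hw
      exact lt_irrefl _ hw
    · left; left; right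
      exact hw
    · left; right
      exact hw
    · right
      exact hw
  have hw : ∀ w : HeightOneSpectrum (𝓞 F), ∃ m : ℕ, ∀ n, m ≤ n →
      ∃ x : w.adicCompletion F, (D.pl w).Has (a n)⁻¹ x := by
    intro w
    by_cases hex : ∃ m, (D.pl w).Has (a m) 0
    · obtain ⟨m, hm⟩ := hex
      refine ⟨m + 1, fun n hn => ?_⟩
      rcases (D.pl w).has_or_inv (a n)⁻¹ with h | ⟨-, h⟩
      · exact h
      · rw [inv_inv] at h
        have h5 : (algebraMap F (w.adicCompletion F) α) ^ 2 ≠
            4 * algebraMap F (w.adicCompletion F) β := by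
          intro h6
          apply hdisc
          apply (algebraMap F (w.adicCompletion F)).injective
          rw [map_pow, map_mul, map_ofNat]
          exact h6
        have := dbl_zero_unique (D.pl w) (D.base w α) (D.base w β) ((map_ne_zero _).2 hβ) h5
          ha0 ha hm h
        omega
    · refine ⟨0, fun n _ => ?_⟩
      rcases (D.pl w).has_or_inv (a n)⁻¹ with h | ⟨-, h⟩
      · exact h
      · rw [inv_inv] at h
        exact absurd ⟨n, h⟩ hex
  choose m hm using hw
  refine ⟨hT.toFinset, hT.toFinset.sup m, fun w => ⟨fun h => ?_, fun n hn => ?_⟩⟩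
  · rw [Set.Finite.mem_toFinset, Set.mem_ofPred_eq, not_not] at h
    exact ⟨h.1, h.2.1, h.2.2.1, h.2.2.2, fun n =>
      dbl_val_good D ha0 ha w h.1 h.2.1 h.2.2.1 h.2.2.2 n⟩
  · by_cases h : w ∈ hT.toFinset
    · exact hm w n ((Finset.le_sup h).trans hn)
    · rw [Set.Finite.mem_toFinset, Set.mem_ofPred_eq, not_not] at h
      obtain ⟨x, hx, -⟩ := dbl_val_good D ha0 ha w h.1 h.2.1 h.2.2.1 h.2.2.2 n
      exact ⟨x, hx⟩

end data

end Pool.Agent.Lib.MP_2f3286_ag.UA
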