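import Pool.Agent.Lib.MP_2f3286_ag.UA.O2

/-!
# T3: the denominators of the iterates of the duplication

Copy of the first half of `O2.lean`. In `u = 1 / x` the duplication is `u ↦ 4 u (1 + α u + β u ^ 2) / (1 - β u ^ 2) ^ 2`. Numerator and denominator:
`nd2 0 = (X, 1)`, `nd2 (n + 1) = (4 N D (D ^ 2 + α N D + β N ^ 2), (D ^ 2 - β N ^ 2) ^ 2)`.
`nd2_coprime`: `D ^ 2 - β N ^ 2` is prime to `4`, `N`, `D`, and to `D ^ 2 + α N D + β N ^ 2`: modulo a common divisor `N (α D + 2 β N) = 0`, so `α D = - 2 β N`,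
`α ^ 2 (D ^ 2 - β N ^ 2) = β (4 β - α ^ 2) N ^ 2`.
Degrees: `deg (de2 (n + 1)) = 4 ^ (n + 1)`, `deg (nu2 (n + 1)) < 4 ^ (n + 1)`.
`enough2`: copy of `enough`.
-/

open NumberField IsDedekindDomain Polynomial

namespace Pool.Agent.Lib.MP_2f3286_ag.UA

section pol

variable {F : Type*} [Field F]

/-- numerator and denominator of the iterates of `4 T (1 + α T + β T ^ 2) / (1 - β T ^ 2) ^ 2` -/
noncomputable def nd2 (α β : F) : ℕ → F[X] × F[X]
  | 0 => (X, 1)
  | n + 1 => (C 4 * (nd2 α β n).1 * (nd2 α β n).2 *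
      ((nd2 α β n).2 ^ 2 + C α * (nd2 α β n).1 * (nd2 α β n).2 + C β * (nd2 α β n).1 ^ 2),
      ((nd2 α β n).2 ^ 2 - C β * (nd2 α β n).1 ^ 2) ^ 2)

/-- the numerator -/
noncomputable def nu2 (α β : F) (n : ℕ) : F[X] := (nd2 α β n).1

/-- the denominator -/
noncomputable def de2 (α β : F) (n : ℕ) : F[X] := (nd2 α β n).2

theorem nu2_zero (α β : F) : nu2 α β 0 = X := rfl

theorem de2_zero (α β : F) : de2 α β 0 = 1 := rfl

theorem nu2_succ (α β : F) (n : ℕ) : nu2 α β (n + 1) = C 4 * nu2 α β n * de2 α β n *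
    (de2 α β n ^ 2 + C α * nu2 α β n * de2 α β n + C β * nu2 α β n ^ 2) := rfl

theorem de2_succ (α β : F) (n : ℕ) :
    de2 α β (n + 1) = (de2 α β n ^ 2 - C β * nu2 α β n ^ 2) ^ 2 := rfl

variable {α β : F}

/-- the numerical factor is prime to the denominator -/
theorem nd2_aux (h2 : (2 : F) ≠ 0) (hβ : β ≠ 0) (hdisc : α ^ 2 ≠ 4 * β) {N D : F[X]}
    (h : IsCoprime N D) :
    IsCoprime (C 4 * N * D * (D ^ 2 + C α * N * D + C β * N ^ 2)) (D ^ 2 - C β * N ^ 2) := by
  have h4 : (4 : F) ≠ 0 := by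
    have e : (4 : F) = 2 * 2 := by norm_num
    rw [e]
    exact mul_ne_zero h2 h2
  have hN : IsCoprime N (D ^ 2 - C β * N ^ 2) := by
    have h1 : IsCoprime N (D ^ 2) := h.pow_right
    have h3 : D ^ 2 - C β * N ^ 2 = D ^ 2 + N * (-(C β * N)) := by ring
    rw [h3]
    exact h1.add_mul_left_right _
  have hD : IsCoprime D (D ^ 2 - C β * N ^ 2) := by
    have hud : IsUnit (C β : F[X]) := isUnit_C.2 (IsUnit.mk0 _ hβ)
    have h1 : IsCoprime D (-(C β * N ^ 2)) := by
      refine IsCoprime.neg_right ?_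
      exact IsCoprime.mul_right (isCoprime_one_right.of_isCoprime_of_dvd_right hud.dvd)
        h.symm.pow_right
    have h3 : D ^ 2 - C β * N ^ 2 = -(C β * N ^ 2) + D * D := by ring
    rw [h3]
    exact h1.add_mul_left_right _
  have hc : β * (4 * β - α ^ 2) ≠ 0 := mul_ne_zero hβ (sub_ne_zero.2 (Ne.symm hdisc))
  have hK : (C (β * (4 * β - α ^ 2))⁻¹ : F[X]) * (C β * (4 * C β - C α ^ 2)) = 1 := by
    have e4 : (4 : F[X]) = C 4 := by rw [map_ofNat]
    rw [e4, ← C_mul, ← C_pow, ← C_sub, ← C_mul, ← C_mul, inv_mul_cancel₀ hc, C_1]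
  have hL : IsCoprime (C α * D + 2 * C β * N) (D ^ 2 - C β * N ^ 2) := by
    obtain ⟨b, a, hab⟩ : IsCoprime (N ^ 2) (D ^ 2 - C β * N ^ 2) := hN.pow_left
    refine ⟨-(b * C (β * (4 * β - α ^ 2))⁻¹ * (C α * D - 2 * C β * N)),
      a + b * C (β * (4 * β - α ^ 2))⁻¹ * C α ^ 2, ?_⟩
    linear_combination hab + b * N ^ 2 * hK
  refine IsCoprime.mul_left (IsCoprime.mul_left (IsCoprime.mul_left ?_ hN) hD) ?_
  · have hu : IsUnit (C 4 : F[X]) := isUnit_C.2 (IsUnit.mk0 _ h4)
    exact isCoprime_one_left.of_isCoprime_of_dvd_left hu.dvd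
  · have h3 : D ^ 2 + C α * N * D + C β * N ^ 2 =
        N * (C α * D + 2 * C β * N) + (D ^ 2 - C β * N ^ 2) * 1 := by ring
    rw [h3]
    exact (IsCoprime.mul_left hN hL).add_mul_left_left _

theorem nd2_coprime (h2 : (2 : F) ≠ 0) (hβ : β ≠ 0) (hdisc : α ^ 2 ≠ 4 * β) (n : ℕ) :
    IsCoprime (nu2 α β n) (de2 α β n) := by
  induction n with
  | zero => rw [de2_zero]; exact isCoprime_one_right
  | succ n ih =>
    rw [nu2_succ, de2_succ]
    exact (nd2_aux h2 hβ hdisc ih).pow_right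

theorem nu2_dvd (n : ℕ) : nu2 α β n ∣ nu2 α β (n + 1) := by
  rw [nu2_succ]
  exact ⟨C 4 * de2 α β n *
    (de2 α β n ^ 2 + C α * nu2 α β n * de2 α β n + C β * nu2 α β n ^ 2), by ring⟩

theorem de2_dvd (n : ℕ) : de2 α β n ∣ nu2 α β (n + 1) := by
  rw [nu2_succ]
  exact ⟨C 4 * nu2 α β n *
    (de2 α β n ^ 2 + C α * nu2 α β n * de2 α β n + C β * nu2 α β n ^ 2), by ring⟩

theorem de2_dvd_of_lt {n m : ℕ} (h : n < m) : de2 α β n ∣ nu2 α β m := by
  obtain ⟨j, rfl⟩ : ∃ j, m = n + j + 1 := ⟨m - n - 1, by omega⟩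
  clear h
  induction j with
  | zero => exact de2_dvd n
  | succ j ih => exact ih.trans (nu2_dvd _)

theorem de2_coprime (h2 : (2 : F) ≠ 0) (hβ : β ≠ 0) (hdisc : α ^ 2 ≠ 4 * β) {n m : ℕ}
    (h : n ≠ m) : IsCoprime (de2 α β n) (de2 α β m) := by
  rcases lt_or_gt_of_ne h with h | h
  · exact (nd2_coprime h2 hβ hdisc m).of_isCoprime_of_dvd_left (de2_dvd_of_lt h)
  · exact ((nd2_coprime h2 hβ hdisc n).of_isCoprime_of_dvd_left (de2_dvd_of_lt h)).symm

theorem deg_nd2 (h2 : (2 : F) ≠ 0) (hβ : β ≠ 0) (n : ℕ) :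
    (de2 α β (n + 1)).natDegree = 4 ^ (n + 1) ∧ (nu2 α β (n + 1)).natDegree < 4 ^ (n + 1) := by
  have key : ∀ (N D : F[X]) (k : ℕ), D.natDegree = k → N.natDegree < k →
      ((D ^ 2 - C β * N ^ 2) ^ 2).natDegree = 4 * k ∧
      (C 4 * N * D * (D ^ 2 + C α * N * D + C β * N ^ 2)).natDegree < 4 * k := by
    intro N D k hD hN
    have hN2 : (C β * N ^ 2).natDegree ≤ 2 * N.natDegree := by
      refine (natDegree_C_mul_le _ _).trans ?_
      exact natDegree_pow_le
    refine ⟨?_, ?_⟩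
    · have h5 : (C β * N ^ 2).natDegree < (D ^ 2).natDegree := by
        rw [natDegree_pow, hD]
        omega
      rw [natDegree_pow, natDegree_sub_eq_left_of_natDegree_lt h5, natDegree_pow, hD]
      ring
    · have h6 : (D ^ 2 + C α * N * D + C β * N ^ 2).natDegree ≤ 2 * k := by
        refine (natDegree_add_le _ _).trans (max_le ?_ ?_)
        · refine (natDegree_add_le _ _).trans (max_le ?_ ?_)
          · rw [natDegree_pow, hD]
          · refine natDegree_mul_le.trans ?_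
            have h7 := natDegree_C_mul_le α N
            omega
        · omega
      have h8 : (C 4 * N * D).natDegree ≤ N.natDegree + k := by
        refine natDegree_mul_le.trans ?_
        have h7 := natDegree_C_mul_le (4 : F) N
        omega
      have h9 := natDegree_mul_le (p := C 4 * N * D)
        (q := D ^ 2 + C α * N * D + C β * N ^ 2)
      omega
  induction n with
  | zero =>
    have e1 : de2 α β 1 = (1 - C β * X ^ 2) ^ 2 := by
      rw [de2_succ, de2_zero, nu2_zero, one_pow]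
    have e2 : nu2 α β 1 = C 4 * X * (1 + C α * X + C β * X ^ 2) := by
      rw [nu2_succ, de2_zero, nu2_zero]
      ring
    refine ⟨?_, ?_⟩
    · rw [e1, natDegree_pow]
      have h3 : (1 - C β * X ^ 2 : F[X]).natDegree = (C β * X ^ 2 : F[X]).natDegree := by
        apply natDegree_sub_eq_right_of_natDegree_lt
        rw [natDegree_one, natDegree_C_mul_X_pow _ _ hβ]
        exact two_pos
      rw [h3, natDegree_C_mul_X_pow _ _ hβ]
      norm_num
    · rw [e2]
      have h3 : (1 + C α * X + C β * X ^ 2 : F[X]).natDegree ≤ 2 := by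
        refine (natDegree_add_le _ _).trans (max_le ?_ ?_)
        · refine (natDegree_add_le _ _).trans (max_le ?_ ?_)
          · rw [natDegree_one]; exact Nat.zero_le _
          · exact (natDegree_C_mul_le _ _).trans (natDegree_X_le.trans (by norm_num))
        · exact natDegree_C_mul_X_pow_le _ _
      have h4 : (C 4 * X : F[X]).natDegree ≤ 1 := (natDegree_C_mul_le _ _).trans natDegree_X_le
      have h5 := natDegree_mul_le (p := (C 4 * X : F[X])) (q := 1 + C α * X + C β * X ^ 2)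
      have h6 : (4 : ℕ) ^ (0 + 1) = 4 := by norm_num
      omega
  | succ n ih =>
    obtain ⟨h3, h4⟩ := ih
    obtain ⟨h5, h6⟩ := key _ _ _ h3 h4
    refine ⟨?_, ?_⟩
    · rw [de2_succ, h5]
      ring
    · rw [nu2_succ]
      refine lt_of_lt_of_eq h6 ?_
      ring

end pol

section enough

universe u

/-- **The zeros of the denominators are sufficiently many.** -/
theorem enough2 {F : Type u} [Field F] [NumberField F] {α β : F} (hβ : β ≠ 0)
    (hdisc : α ^ 2 ≠ 4 * β) :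
    GU.EnoughPoints.{u, u} F ∅ fun j : Fin (Module.finrank ℚ F) => de2 α β (j + 1) := by
  obtain ⟨Q, hQ1, hQ2, hcard, hQ⟩ := exists_rat.{u}
  obtain ⟨hQF, hfr⟩ := hQ F
  refine ⟨F, inferInstance, inferInstance, inferInstance, Or.inl ⟨Q, hQ1, hQ2, hQF, ∅,
    Module.finrank ℚ F, fun j => de2 α β (j + 1), ?_, ?_, ?_, ?_, ?_⟩⟩
  · rintro w ⟨v, hv, -⟩
    simp at hv
  · intro j
    refine ⟨?_, j, ?_⟩
    · rw [(deg_nd2 two_ne_zero hβ j).1]
      positivity
    · rw [show algebraMap F F = RingHom.id F from rfl, Polynomial.map_id]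
  · intro j j' hjj
    exact de2_coprime two_ne_zero hβ hdisc fun h => hjj (Fin.ext (by omega))
  · rw [Finset.card_empty, add_zero, hcard]
    exact one_le_two
  · rw [Finset.card_empty, add_zero, hcard, one_mul, hfr]

end enough

end Pool.Agent.Lib.MP_2f3286_ag.UA
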