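import Pool.Agent.Lib.MP_2f3286_ag.UA.T1
import Pool.Agent.Lib.MP_2f3286_ag.Top.Kum

/-!
# T6: halves of a point give a backward orbit of the duplication

`W` is `y ^ 2 = x ^ 3 + a₄ x + a₆`; `e` a root of the cubic in `L`; with `X = x - e` the curve is `y ^ 2 = X (X ^ 2 + α X + β)`, `α = 3 e`, `β = 3 e ^ 2 + a₄`.
`beta_ne_zero`, `disc_ne_zero`: `4 a₄ ^ 3 + 27 a₆ ^ 2 = (3 e ^ 2 + a₄) ^ 2 (3 e ^ 2 + 4 a₄)`.
`dbl_of_double`: `P = (x', y')`; if `y' = 0` then `2 P = 0`; otherwise the slope is `(3 x' ^ 2 + a₄) / (2 y')` and `x = slope ^ 2 - 2 x'`; `X = (X' ^ 2 - β) ^ 2 / (4 y' ^ 2)`.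
`orbit_of_halves`: all `ζ n` are different from `0` (`2 ^ n ζ n = ζ 0`); `x (ζ n) ≠ e`: otherwise `y = 0` and `2 ζ n = 0`, so `n = 0` and `ζ 0 = (e, 0)`.
-/

open WeierstrassCurve WeierstrassCurve.Affine WeierstrassCurve.Affine.Point

namespace Pool.Agent.Lib.MP_2f3286_ag.UA

variable {F : Type*} [Field F] (W : WeierstrassCurve F) [W.IsShortNF] [W.IsElliptic]
  {L : Type*} [Field L] [Algebra F L] [DecidableEq L]

private theorem T6_disc : 4 * (algebraMap F L W.a₄) ^ 3 + 27 * (algebraMap F L W.a₆) ^ 2 ≠ 0 := by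
  have h1 : W.Δ ≠ 0 := W.isUnit_Δ.ne_zero
  rw [WeierstrassCurve.Δ_of_isShortNF] at h1
  have h2 : 4 * W.a₄ ^ 3 + 27 * W.a₆ ^ 2 ≠ 0 := fun h => h1 (by rw [h, mul_zero])
  intro h
  apply h2
  apply (algebraMap F L).injective
  rw [_root_.map_zero, ← h]
  simp only [map_add, map_mul, map_pow, map_ofNat]

private theorem T6_fac {e : L} (he : e ^ 3 + algebraMap F L W.a₄ * e + algebraMap F L W.a₆ = 0) :
    4 * (algebraMap F L W.a₄) ^ 3 + 27 * (algebraMap F L W.a₆) ^ 2 =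
      (3 * e ^ 2 + algebraMap F L W.a₄) ^ 2 * (3 * e ^ 2 + 4 * algebraMap F L W.a₄) := by
  linear_combination 27 * (algebraMap F L W.a₆ - e ^ 3 - algebraMap F L W.a₄ * e) * he

private theorem T6_a1 : (W⁄L).a₁ = 0 := by
  change algebraMap F L W.a₁ = 0
  rw [a₁_of_isShortNF, _root_.map_zero]

private theorem T6_a2 : (W⁄L).a₂ = 0 := by
  change algebraMap F L W.a₂ = 0
  rw [a₂_of_isShortNF, _root_.map_zero]

private theorem T6_a3 : (W⁄L).a₃ = 0 := by
  change algebraMap F L W.a₃ = 0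
  rw [a₃_of_isShortNF, _root_.map_zero]

private theorem T6_a4 : (W⁄L).a₄ = algebraMap F L W.a₄ := rfl

private theorem T6_a6 : (W⁄L).a₆ = algebraMap F L W.a₆ := rfl

private theorem T6_eq {x y : L} (h : (W⁄L).Nonsingular x y) :
    y ^ 2 = x ^ 3 + algebraMap F L W.a₄ * x + algebraMap F L W.a₆ := by
  have h1 := h.1
  rw [equation_iff, T6_a1, T6_a2, T6_a3, T6_a4, T6_a6] at h1
  linear_combination h1

private theorem T6_negY (x y : L) : (W⁄L).negY x y = -y := by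
  rw [negY, T6_a1, T6_a3]
  ring

theorem beta_ne_zero {e : L} (he : e ^ 3 + algebraMap F L W.a₄ * e + algebraMap F L W.a₆ = 0) :
    3 * e ^ 2 + algebraMap F L W.a₄ ≠ 0 := by
  intro h
  apply T6_disc (L := L) W
  rw [T6_fac W he, h]
  ring

theorem disc_ne_zero {e : L} (he : e ^ 3 + algebraMap F L W.a₄ * e + algebraMap F L W.a₆ = 0) :
    (3 * e) ^ 2 ≠ 4 * (3 * e ^ 2 + algebraMap F L W.a₄) := by
  intro h
  apply T6_disc (L := L) W
  rw [T6_fac W he]
  have h1 : 3 * e ^ 2 + 4 * algebraMap F L W.a₄ = 0 := by linear_combination -h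
  rw [h1, mul_zero]

/-- the duplication formula -/
theorem dbl_of_double (h2 : (2 : L) ≠ 0) {e : L}
    (he : e ^ 3 + algebraMap F L W.a₄ * e + algebraMap F L W.a₆ = 0) {x y x' y' : L}
    (h : (W⁄L).Nonsingular x y) (h' : (W⁄L).Nonsingular x' y')
    (hd : (2 : ℕ) • (some x' y' h' : (W⁄L).Point) = some x y h) :
    Dbl (3 * e) (3 * e ^ 2 + algebraMap F L W.a₄) (x - e) (x' - e) := by
  have hy2 := T6_eq W h'
  have hne : y' ≠ (W⁄L).negY x' y' := by
    intro hy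
    rw [two_nsmul, add_self_of_Y_eq hy] at hd
    exact absurd hd.symm (some_ne_zero h)
  have hy0 : 2 * y' ≠ 0 := by
    intro h0
    apply hne
    rw [T6_negY]
    linear_combination h0
  rw [two_nsmul, add_self_of_Y_ne hne] at hd
  rw [some.injEq] at hd
  have hx : (W⁄L).addX x' x' ((W⁄L).slope x' x' y' y') = x := hd.1
  rw [slope_of_Y_ne rfl hne, T6_negY, addX, T6_a1, T6_a2, T6_a4] at hx
  simp only [zero_mul, mul_zero, add_zero, sub_zero] at hx
  set m : L := (3 * x' ^ 2 + algebraMap F L W.a₄) / (y' - -y') with hm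
  have hm' : m * (2 * y') = 3 * x' ^ 2 + algebraMap F L W.a₄ := by
    rw [hm, sub_neg_eq_add, ← two_mul, div_mul_cancel₀ _ hy0]
  have hP : (x' - e) * ((x' - e) ^ 2 + 3 * e * (x' - e) + (3 * e ^ 2 + algebraMap F L W.a₄)) = y' ^ 2 := by
    linear_combination -hy2 - he
  unfold Dbl
  rw [mul_assoc (4 * (x - e)), hP, ← hx]
  linear_combination (m * (2 * y') + (3 * x' ^ 2 + algebraMap F L W.a₄)) * hm' -
    4 * (2 * x' + e) * hy2 - 4 * (2 * x' + e) * he

/-- **Halves of a point give a backward orbit.** -/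
theorem orbit_of_halves (h2 : (2 : L) ≠ 0) {e : L}
    (he : e ^ 3 + algebraMap F L W.a₄ * e + algebraMap F L W.a₆ = 0)
    (ζ : ℕ → (W⁄L).Point) (hζ : ∀ n, (2 : ℕ) • ζ (n + 1) = ζ n) (h0 : ζ 0 ≠ 0)
    (h0e : ∀ y h, ζ 0 ≠ some e y h) :
    ∃ (x y : ℕ → L) (h : ∀ n, (W⁄L).Nonsingular (x n) (y n)), (∀ n, ζ n = some (x n) (y n) (h n)) ∧
      (∀ n, x n - e ≠ 0) ∧
      ∀ n, Dbl (3 * e) (3 * e ^ 2 + algebraMap F L W.a₄) (x n - e) (x (n + 1) - e) := by
  have hne : ∀ n, ζ n ≠ 0 := by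
    intro n
    induction n with
    | zero => exact h0
    | succ n ih =>
      intro h
      apply ih
      rw [← hζ n, h, smul_zero]
  have hex : ∀ n, ∃ (x y : L) (h : (W⁄L).Nonsingular x y), ζ n = some x y h := by
    intro n
    rcases h : ζ n with _ | ⟨x, y, h'⟩
    · exact absurd h (hne n)
    · exact ⟨x, y, h', rfl⟩
  choose x y h hxy using hex
  refine ⟨x, y, h, hxy, ?_, ?_⟩
  · intro n hn
    have hxe : x n = e := sub_eq_zero.1 hn
    have hy2 := T6_eq W (h n)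
    have hy0 : y n = 0 := by
      rw [hxe, he] at hy2
      exact pow_eq_zero_iff (two_ne_zero) |>.1 hy2
    have h2z : (2 : ℕ) • ζ n = 0 := by
      rw [hxy n, two_nsmul]
      apply add_self_of_Y_eq
      rw [T6_negY, hy0, _root_.neg_zero]
    rcases n with _ | n
    · have h3 := hxy 0
      have h4 : ∃ (y' : L) (h' : (W⁄L).Nonsingular e y'), ζ 0 = some e y' h' := by
        rw [← hxe]
        exact ⟨y 0, h 0, h3⟩
      obtain ⟨y', h', h5⟩ := h4
      exact h0e y' h' h5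
    · exact hne n ((hζ n).symm.trans h2z)
  · intro n
    apply dbl_of_double W h2 he (h n) (h (n + 1))
    rw [← hxy n, ← hxy (n + 1)]
    exact hζ n

end Pool.Agent.Lib.MP_2f3286_ag.UA
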