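import Mathlib

/-!
# Every section fixes a point of a quadratic twist

Let `M` be a Galois extension of `K` containing `k̄`, let `s` be a continuous section of
`Gal(M/K) → Gal(k̄/k)`, let `F` be a subfield of `k̄` containing `k`, and let `w ∈ M` be such that `w²` is
fixed by `s` over `F`. Then there are `u ∈ F`, not `0`, and `y ∈ M` with `u y² = w²` which is fixed by `s`
over `F`.
-/

namespace Pool.Agent.Lib.MP_2f3286_ag.UA

universe u v

/-- **Every section fixes a twist**. -/
theorem twist_fixed {k : Type u} [Field k] [CharZero k]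
    {F : Type v} [Field F] [Algebra k F]
    [Algebra F (AlgebraicClosure k)] [IsScalarTower k F (AlgebraicClosure k)]
    {K : Type*} [Field K]
    {M : Type*} [Field M] [Algebra K M] [IsGalois K M]
    [Algebra (AlgebraicClosure k) M]
    (s : Gal(AlgebraicClosure k/k) →* Gal(M/K)) (hs : Continuous s)
    (hsec : ∀ σ a, s σ (algebraMap (AlgebraicClosure k) M a) =
      algebraMap (AlgebraicClosure k) M (σ a))
    {w : M} (hw : ∀ σ : Gal(AlgebraicClosure k/k),
      (∀ a : F, σ (algebraMap F _ a) = algebraMap F _ a) → s σ (w ^ 2) = w ^ 2) :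
    ∃ (u : F) (y : M), u ≠ 0 ∧
      algebraMap (AlgebraicClosure k) M (algebraMap F _ u) * y ^ 2 = w ^ 2 ∧
      ∀ σ : Gal(AlgebraicClosure k/k),
        (∀ a : F, σ (algebraMap F _ a) = algebraMap F _ a) → s σ y = y := by
  classical
  set F' : IntermediateField k (AlgebraicClosure k) :=
    (IsScalarTower.toAlgHom k F (AlgebraicClosure k)).fieldRange with hF'
  have hmem : ∀ σ : Gal(AlgebraicClosure k/k),
      σ ∈ F'.fixingSubgroup ↔ ∀ a : F, σ (algebraMap F _ a) = algebraMap F _ a := by
    intro σ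
    rw [IntermediateField.mem_fixingSubgroup_iff]
    constructor
    · intro h a
      exact h _ ⟨a, rfl⟩
    · rintro h _ ⟨a, rfl⟩
      exact h a
  by_cases hall : ∀ σ ∈ F'.fixingSubgroup, s σ w = w
  · exact ⟨1, w, one_ne_zero, by simp, fun σ hσ => hall σ ((hmem σ).2 hσ)⟩
  push Not at hall
  obtain ⟨τ, hτF, hτ⟩ := hall
  have hsgn : ∀ σ ∈ F'.fixingSubgroup, s σ w = w ∨ s σ w = -w := by
    intro σ hσ
    have h := hw σ ((hmem σ).1 hσ)
    rw [map_pow] at h
    exact sq_eq_sq_iff_eq_or_eq_neg.1 h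
  have hτw : s τ w = -w := (hsgn τ hτF).resolve_left hτ
  have hw0 : w ≠ 0 := by
    rintro rfl
    exact hτ (map_zero _)
  -- the subgroup fixing `w`
  let H : Subgroup Gal(AlgebraicClosure k/k) :=
    F'.fixingSubgroup ⊓ (IntermediateField.adjoin K {w}).fixingSubgroup.comap s
  have hHm : ∀ σ, σ ∈ H ↔ σ ∈ F'.fixingSubgroup ∧ s σ w = w := by
    intro σ
    have h1 : σ ∈ H ↔ σ ∈ F'.fixingSubgroup ∧
        s σ ∈ (IntermediateField.adjoin K {w}).fixingSubgroup := Iff.rfl
    rw [h1]
    refine and_congr_right fun _ => ?_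
    rw [IntermediateField.mem_fixingSubgroup_iff]
    constructor
    · intro h
      exact h w (IntermediateField.mem_adjoin_simple_self K w)
    · intro h
      have hle : IntermediateField.adjoin K {w} ≤
          IntermediateField.fixedField (Subgroup.zpowers (s σ)) := by
        rw [IntermediateField.adjoin_simple_le_iff, IntermediateField.mem_fixedField_iff]
        rintro g ⟨n, rfl⟩
        exact zpow_induction_left (g := s σ) (P := fun g => g w = w) rfl
          (fun a ha => by rw [AlgEquiv.mul_apply, ha, h])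
          (fun a ha => by
            rw [AlgEquiv.mul_apply, ha]
            exact (AlgEquiv.symm_apply_eq (s σ)).2 h.symm) n
      intro x hx
      exact (IntermediateField.mem_fixedField_iff _ _).1 (hle hx) (s σ)
        (Subgroup.mem_zpowers _)
  have hHcl : IsClosed (H : Set Gal(AlgebraicClosure k/k)) := by
    have h1 : IsClosed (F'.fixingSubgroup : Set Gal(AlgebraicClosure k/k)) :=
      InfiniteGalois.fixingSubgroup_isClosed F'
    have h2 : IsClosed ((IntermediateField.adjoin K {w}).fixingSubgroup : Set Gal(M/K)) :=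
      InfiniteGalois.fixingSubgroup_isClosed _
    exact h1.inter (h2.preimage hs)
  have hτH : τ ∉ H := fun h => hτ ((hHm τ).1 h).2
  -- an element fixed by `H` and not by `τ`
  obtain ⟨e, heH, heτ⟩ : ∃ e : AlgebraicClosure k, (∀ σ ∈ H, σ e = e) ∧ τ e ≠ e := by
    by_contra hcon
    push Not at hcon
    apply hτH
    have h3 := InfiniteGalois.fixingSubgroup_fixedField (⟨H, hHcl⟩ : ClosedSubgroup _)
    have h4 : τ ∈ (IntermediateField.fixedField H).fixingSubgroup := by
      rw [IntermediateField.mem_fixingSubgroup_iff]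
      intro x hx
      exact hcon x fun σ hσ => (IntermediateField.mem_fixedField_iff _ _).1 hx σ hσ
    have h5 : τ ∈ (⟨H, hHcl⟩ : ClosedSubgroup Gal(AlgebraicClosure k/k)).toSubgroup := by
      rw [← h3]
      exact h4
    exact h5
  -- the coset
  have hcos : ∀ σ ∈ F'.fixingSubgroup, s σ w = -w → τ⁻¹ * σ ∈ H := by
    intro σ hσ hσw
    rw [hHm]
    refine ⟨mul_mem (inv_mem hτF) hσ, ?_⟩
    rw [map_mul, AlgEquiv.mul_apply, hσw, map_neg, map_inv]
    have : (s τ)⁻¹ w = -w := by
      change (s τ).symm w = -w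
      rw [AlgEquiv.symm_apply_eq, map_neg, hτw, neg_neg]
    rw [this, neg_neg]
  set δ : AlgebraicClosure k := e - τ e with hδ
  have hδ0 : δ ≠ 0 := sub_ne_zero.2 (Ne.symm heτ)
  have hτδ : τ δ = -δ := by
    have h1 : τ (τ e) = e := by
      have h2 : τ * τ ∈ H := by
        rw [hHm]
        refine ⟨mul_mem hτF hτF, ?_⟩
        rw [map_mul, AlgEquiv.mul_apply, hτw, map_neg, hτw, neg_neg]
      exact heH _ h2
    rw [hδ, map_sub, h1, neg_sub]
  have hδH : ∀ σ ∈ H, σ δ = δ := by
    intro σ hσ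
    have h1 : τ⁻¹ * σ * τ ∈ H := by
      rw [hHm] at hσ
      have h2 : s (σ * τ) w = -w := by
        rw [map_mul, AlgEquiv.mul_apply, hτw, map_neg, hσ.2]
      have := hcos (σ * τ) (mul_mem hσ.1 hτF) h2
      rwa [← mul_assoc] at this
    have h3 : σ (τ e) = τ e := by
      have h4 := heH _ h1
      have h5 : (τ⁻¹ * σ * τ) e = τ.symm (σ (τ e)) := rfl
      rw [h5, AlgEquiv.symm_apply_eq] at h4
      exact h4
    rw [hδ, map_sub, h3, heH σ hσ]
  have hχ : ∀ σ ∈ F'.fixingSubgroup, (s σ w = w ∧ σ δ = δ) ∨ (s σ w = -w ∧ σ δ = -δ) := by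
    intro σ hσ
    rcases hsgn σ hσ with h | h
    · exact Or.inl ⟨h, hδH σ ((hHm σ).2 ⟨hσ, h⟩)⟩
    · refine Or.inr ⟨h, ?_⟩
      have h1 := hδH _ (hcos σ hσ h)
      have h2 : (τ⁻¹ * σ) δ = τ.symm (σ δ) := rfl
      rw [h2, AlgEquiv.symm_apply_eq, hτδ] at h1
      exact h1
  -- its square is in `F`
  have hsq : δ ^ 2 ∈ F' := by
    rw [← InfiniteGalois.fixedField_fixingSubgroup F', IntermediateField.mem_fixedField_iff]
    intro σ hσ
    rcases hχ σ hσ with h | h
    · rw [map_pow, h.2]
    · rw [map_pow, h.2, neg_sq]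
  obtain ⟨u, hu⟩ := hsq
  have hu' : algebraMap F (AlgebraicClosure k) u = δ ^ 2 := hu
  have hδM : algebraMap (AlgebraicClosure k) M δ ≠ 0 := by
    rw [Ne, map_eq_zero]
    exact hδ0
  refine ⟨u, w / algebraMap _ M δ, ?_, ?_, ?_⟩
  · rintro rfl
    rw [map_zero] at hu'
    exact pow_ne_zero 2 hδ0 hu'.symm
  · rw [hu', map_pow, div_pow]
    field_simp
  · intro σ hσ
    rw [map_div₀, hsec]
    rcases hχ σ ((hmem σ).2 hσ) with h | h
    · rw [h.1, h.2]
    · rw [h.1, h.2, map_neg, neg_div_neg_eq]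

/-- For `M` closed under square roots, `t ∈ K` and a polynomial `f` over `F`, a section fixes over `F` a
point `(t, y)` of `u Y² = f(X)` for some `u ∈ F`, not `0`. -/
theorem twist_cubic {k : Type u} [Field k] [CharZero k]
    {F : Type v} [Field F] [Algebra k F]
    [Algebra F (AlgebraicClosure k)] [IsScalarTower k F (AlgebraicClosure k)]
    {K : Type*} [Field K]
    {M : Type*} [Field M] [Algebra K M] [IsGalois K M]
    [Algebra (AlgebraicClosure k) M] [Algebra F M] [IsScalarTower F (AlgebraicClosure k) M]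
    (hsq : ∀ z : M, ∃ y : M, y ^ 2 = z)
    (s : Gal(AlgebraicClosure k/k) →* Gal(M/K)) (hs : Continuous s)
    (hsec : ∀ σ a, s σ (algebraMap (AlgebraicClosure k) M a) =
      algebraMap (AlgebraicClosure k) M (σ a))
    (t : K) (f : Polynomial F) :
    ∃ (u : F) (y : M), u ≠ 0 ∧
      algebraMap F M u * y ^ 2 = Polynomial.aeval (algebraMap K M t) f ∧
      ∀ σ : Gal(AlgebraicClosure k/k),
        (∀ a : F, σ (algebraMap F _ a) = algebraMap F _ a) → s σ y = y := by
  obtain ⟨w, hw⟩ := hsq (Polynomial.aeval (algebraMap K M t) f)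
  have hfix : ∀ σ : Gal(AlgebraicClosure k/k),
      (∀ a : F, σ (algebraMap F _ a) = algebraMap F _ a) → s σ (w ^ 2) = w ^ 2 := by
    intro σ hσ
    rw [hw, Polynomial.aeval_def]
    have h1 : ((s σ : M →+* M)).comp (algebraMap F M) = algebraMap F M := by
      ext a
      change s σ (algebraMap F M a) = algebraMap F M a
      rw [IsScalarTower.algebraMap_apply F (AlgebraicClosure k) M, hsec, hσ]
    have h2 : (s σ : M →+* M) (algebraMap K M t) = algebraMap K M t := (s σ).commutes t
    have h3 := Polynomial.hom_eval₂ f (algebraMap F M) (s σ : M →+* M) (algebraMap K M t)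
    rw [h1, h2] at h3
    exact h3
  obtain ⟨u, y, hu, hy, hfy⟩ := twist_fixed s hs hsec hfix
  refine ⟨u, y, hu, ?_, hfy⟩
  rw [IsScalarTower.algebraMap_apply F (AlgebraicClosure k) M, hy, hw]

end Pool.Agent.Lib.MP_2f3286_ag.UA
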