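import Pool.Agent.Lib.MP_2f3286_ag.UA.TW
import Pool.Agent.Lib.MP_2f3286_ag.UA.S6

/-!
# Every section fixes a point of a quadratic twist of any given elliptic curve
-/

open WeierstrassCurve WeierstrassCurve.Affine WeierstrassCurve.Affine.Point
open IsDedekindDomain NumberField Polynomial
open Pool.Agent.Lib.MP_2f3286_ag

namespace Pool.Agent.Lib.MP_2f3286_ag.UA

universe u v

/-- The quadratic twist by `u` of `Y² = X³ + a₄ X + a₆`. -/
def qtwist {F : Type*} [Field F] (W : WeierstrassCurve F) (u : F) : WeierstrassCurve F :=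
  ⟨0, 0, 0, W.a₄ * u ^ 2, W.a₆ * u ^ 3⟩

instance qtwist_isShortNF {F : Type*} [Field F] (W : WeierstrassCurve F) (u : F) :
    (qtwist W u).IsShortNF where
  a₁ := rfl
  a₂ := rfl
  a₃ := rfl

theorem qtwist_isElliptic {F : Type*} [Field F] (W : WeierstrassCurve F) [W.IsShortNF] [W.IsElliptic]
    {u : F} (hu : u ≠ 0) : (qtwist W u).IsElliptic := by
  constructor
  have h1 : (qtwist W u).Δ = u ^ 6 * W.Δ := by
    rw [Δ_of_isShortNF, Δ_of_isShortNF]
    simp only [qtwist]
    ring
  rw [h1]
  exact (isUnit_iff_ne_zero.2 (pow_ne_zero 6 hu)).mul W.isUnit_Δ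

open scoped Classical in
/-- **Every section fixes a point of a quadratic twist**: for an elliptic curve `W` over `F`, a field `M`
closed under square roots, `t ∈ K` and a section `s` of `Gal(M/K) → Gal(k̄/k)`, there are `u ∈ F`, not `0`,
and `y ∈ M` such that `(u t, y)` is a point of the twist of `W` by `u` which is fixed by `s` over `F`. -/
theorem twist_point {k : Type u} [Field k] [CharZero k]
    {F : Type v} [Field F] [Algebra k F]
    [Algebra F (AlgebraicClosure k)] [IsScalarTower k F (AlgebraicClosure k)]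
    (W : WeierstrassCurve F) [W.IsShortNF] [W.IsElliptic]
    {K : Type*} [Field K]
    {M : Type*} [Field M] [Algebra K M] [IsGalois K M]
    [Algebra (AlgebraicClosure k) M] [Algebra F M] [IsScalarTower F (AlgebraicClosure k) M]
    (hsq : ∀ z : M, ∃ y : M, y ^ 2 = z)
    (s : Gal(AlgebraicClosure k/k) →* Gal(M/K)) (hs : Continuous s)
    (hsec : ∀ σ a, s σ (algebraMap (AlgebraicClosure k) M a) =
      algebraMap (AlgebraicClosure k) M (σ a))
    (t : K) :
    ∃ (u : F) (y : M), u ≠ 0 ∧
      ((qtwist W u)⁄M).Nonsingular (algebraMap F M u * algebraMap K M t) y ∧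
      ∀ σ : Gal(AlgebraicClosure k/k),
        (∀ a : F, σ (algebraMap F _ a) = algebraMap F _ a) →
        s σ (algebraMap F M u * algebraMap K M t) = algebraMap F M u * algebraMap K M t ∧
        s σ y = y := by
  obtain ⟨u, y, hu, hy, hfy⟩ := twist_cubic (F := F) hsq s hs hsec t
    (X ^ 3 + C W.a₄ * X + C W.a₆)
  have := qtwist_isElliptic W hu
  have hF : ∀ σ : Gal(AlgebraicClosure k/k),
      (∀ a : F, σ (algebraMap F _ a) = algebraMap F _ a) → ∀ a : F,
      s σ (algebraMap F M a) = algebraMap F M a := by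
    intro σ hσ a
    rw [IsScalarTower.algebraMap_apply F (AlgebraicClosure k) M, hsec, hσ]
  refine ⟨u, algebraMap F M u ^ 2 * y, hu, ?_, ?_⟩
  · rw [← equation_iff_nonsingular, equation_iff]
    simp only [map_add, map_mul, map_pow, aeval_X, aeval_C] at hy
    simp only [WeierstrassCurve.baseChange, WeierstrassCurve.map, qtwist, map_mul, map_pow]
    rw [map_zero (algebraMap F M)]
    linear_combination (algebraMap F M u) ^ 3 * hy
  · intro σ hσ
    refine ⟨?_, ?_⟩
    · rw [map_mul, hF σ hσ, (s σ).commutes]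
    · rw [map_mul, map_pow, hF σ hσ, hfy σ hσ]

open scoped Classical in
/-- **A section and the twists of an elliptic curve**: for every elliptic curve `W` over `F` and every section
`s` of `Gal(M/K) → Gal(k̄/k)`, where `M` is closed under `n`-th roots, and every `t ∈ K` which is not in `F`,
there is a quadratic twist of `W` such that `s` comes from a rational place and from no other place over a
finite extension of `k`, if that twist has finitely many points over `F` and finite `p`-part of the
Tate-Shafarevich group for one prime `p`. The section fixes the point `(u t, y)` of that twist. -/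
theorem one_twist {k : Type u} [Field k] [NumberField k]
    {F : Type v} [Field F] [NumberField F] [Algebra k F]
    [Algebra F (AlgebraicClosure k)] [IsScalarTower k F (AlgebraicClosure k)]
    (W : WeierstrassCurve F) [W.IsShortNF] [W.IsElliptic]
    {K : Type*} [Field K] [Algebra k K] (htr : Algebra.trdeg k K = 1)
    {M : Type*} [Field M] [Algebra K M] [IsGalois K M]
    [Algebra (AlgebraicClosure k) M] [Algebra k M]
    [IsScalarTower k K M] [IsScalarTower k (AlgebraicClosure k) M]
    [Algebra F M] [IsScalarTower F (AlgebraicClosure k) M]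
    (hrt : ∀ n : ℕ, 1 ≤ n → ∀ z : M, ∃ y : M, y ^ n = z)
    (s : Gal(AlgebraicClosure k/k) →* Gal(M/K)) (hs : Continuous s)
    (hsec : ∀ σ a, s σ (algebraMap (AlgebraicClosure k) M a) =
      algebraMap (AlgebraicClosure k) M (σ a))
    (t : K) (ht : ∀ c : F, algebraMap K M t ≠ algebraMap F M c) :
    ∃ (u : F) (y : M), u ≠ 0 ∧
      ((qtwist W u)⁄M).Nonsingular (algebraMap F M u * algebraMap K M t) y ∧
      (∀ σ : Gal(AlgebraicClosure k/k),
        (∀ a : F, σ (algebraMap F _ a) = algebraMap F _ a) → s σ y = y) ∧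
      ((∀ Q : ((qtwist W u)⁄F).Point, IsOfFinAddOrder Q) →
        (∃ (p : ℕ) (j : ℕ), p.Prime ∧ ShaKilledByPow (qtwist W u) p j) →
        ∃ (A₀ : ValuationSubring M) (ψ₀ : A₀ →+* AlgebraicClosure k), IsOnlyPlaceFin s A₀ ψ₀) := by
  obtain ⟨u, y, hu, hns, hfix⟩ := twist_point (F := F) W (hrt 2 (by norm_num)) s hs hsec t
  refine ⟨u, y, hu, hns, fun σ hσ => (hfix σ hσ).2, ?_⟩
  rintro hrk ⟨p, j, hp, hsha⟩
  have := qtwist_isElliptic W hu
  refine one_root (qtwist W u) hrk hp hsha htr hrt s hs hsec hfix hns ?_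
  intro c hc
  apply ht (c / u)
  have hu' : algebraMap F M u ≠ 0 := by
    rw [Ne, map_eq_zero]
    exact hu
  rw [map_div₀, eq_div_iff hu', ← hc, mul_comm]

end Pool.Agent.Lib.MP_2f3286_ag.UA
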