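import Pool.Agent.Lib.MP_2f3286_ag.UA.Defs
import Pool.Agent.Lib.MP_2f3286_ag.Fer.FDef
import Pool.Agent.Lib.MP_2f3286_ag.Fer.PlcK

/-!
# The class of a point of `y ^ 2 = x ^ 3 - d x` over the field of a section
-/

open NumberField IsDedekindDomain
open Pool.Agent.Lib.MP_2f3286_ag.Fer (Plc Data)

namespace Pool.Agent.Lib.MP_2f3286_ag.UA

variable {F : Type*} [Field F] [NumberField F] {L : Type*} [Field L] [Algebra F L]

/-- The class of the point is in the Selmer group. -/
theorem sel_class (D : Data 2 F L) {i d c : F} (hi : i ^ 2 = -1) (hc : c ≠ 0)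
    {r y g : L} (hr : r ≠ 0) (hxy : y ^ 2 = r ^ 3 - algebraMap F L d * r)
    (hg : r = algebraMap F L c * g ^ 2) (w : HeightOneSpectrum (𝓞 F)) : InW w d c := by
  set ι := algebraMap F (w.adicCompletion F) with hι
  have hg0 : g ≠ 0 := by
    rintro rfl
    exact hr (by rw [hg]; ring)
  have hcL : algebraMap F L c ≠ 0 := (map_ne_zero _).2 hc
  have hc0 : ι c ≠ 0 := (map_ne_zero _).2 hc
  have hci := D.base w c
  have hdi := D.base w d
  rcases (D.pl w).has_or_inv r with ⟨ρ, hρ⟩ | ⟨-, hρ⟩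
  · -- a finite value
    have hg2 : (D.pl w).Has (g ^ 2) (ρ / ι c) := by
      have h1 : g ^ 2 = r / algebraMap F L c := by rw [hg]; field_simp
      rw [h1]
      exact hρ.div hci hc0
    obtain ⟨γ, hγ, hγ2⟩ := Fer.Plc.pow_has two_ne_zero hg2
    by_cases hρ0 : ρ = 0
    · -- the value zero
      subst hρ0
      have h2 : (D.pl w).Has ((y / g) ^ 2) (ι c * (0 ^ 2 - ι d)) := by
        have h1 : (y / g) ^ 2 = algebraMap F L c * (r ^ 2 - algebraMap F L d) := by
          rw [div_pow, hxy]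
          have h3 : r ^ 3 - algebraMap F L d * r =
              algebraMap F L c * g ^ 2 * (r ^ 2 - algebraMap F L d) := by
            rw [← hg]; ring
          rw [h3]
          field_simp
        rw [h1]
        exact hci.mul ((hρ.pow 2).sub hdi)
      obtain ⟨ε, -, hε⟩ := Fer.Plc.pow_has two_ne_zero h2
      right; left
      refine ⟨ι i * ε, ?_⟩
      have hi' : ι i ^ 2 = -1 := by rw [← map_pow, hi, map_neg, map_one]
      rw [map_mul]
      linear_combination -(ι i ^ 2) * hε + (ι c * ι d) * hi'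
    · right; right
      have hy2 : (D.pl w).Has (y ^ 2) (ρ ^ 3 - ι d * ρ) := by
        rw [hxy]
        exact (hρ.pow 3).sub (hdi.mul hρ)
      obtain ⟨η, -, hη⟩ := Fer.Plc.pow_has two_ne_zero hy2
      refine ⟨ρ, η, hρ0, hη, ι c * γ, ?_⟩
      have h1 : ρ = ι c * γ ^ 2 := by
        rw [hγ2]; field_simp
      rw [h1]
      ring
  · -- the value infinity
    left
    have hgy : (D.pl w).Has ((y / (r * g)) ^ 2) (ι c * (1 - ι d * 0 ^ 2)) := by
      have h1 : (y / (r * g)) ^ 2 = algebraMap F L c * (1 - algebraMap F L d * r⁻¹ ^ 2) := by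
        rw [div_pow, hxy]
        have h3 : r ^ 3 - algebraMap F L d * r =
            algebraMap F L c * g ^ 2 * (r ^ 2 - algebraMap F L d) := by
          rw [← hg]; ring
        rw [h3]
        field_simp
      rw [h1]
      exact hci.mul (Plc.has_one.sub (hdi.mul (hρ.pow 2)))
    obtain ⟨ε, -, hε⟩ := Fer.Plc.pow_has two_ne_zero hgy
    refine ⟨ε, ?_⟩
    linear_combination -hε

/-- The valuations of the `x`-coordinate of a point are even. -/
theorem even_vals (V : ValuationSubring L) {d : L} (hd : d ∈ V) (hd' : d⁻¹ ∈ V) (hd0 : d ≠ 0)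
    {r y : L} (hr : r ≠ 0) (hxy : y ^ 2 = r ^ 3 - d * r) :
    ∃ z : L, z ≠ 0 ∧ V.valuation r = V.valuation z ^ 2 := by
  have hvd : V.valuation d = 1 := by
    have e1 := (V.valuation_le_one_iff _).2 hd
    have e2 := (V.valuation_le_one_iff _).2 hd'
    rw [map_inv₀] at e2
    have e3 : V.valuation d ≠ 0 := by rwa [Ne, Valuation.zero_iff]
    exact le_antisymm e1 ((inv_le_one₀ (zero_lt_iff.2 e3)).1 e2)
  have hvr : V.valuation r ≠ 0 := by rwa [Ne, Valuation.zero_iff]
  have hfac : y ^ 2 = r * (r ^ 2 - d) := by rw [hxy]; ring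
  rcases lt_trichotomy (V.valuation r) 1 with h | h | h
  · -- `r` is not a unit
    have h1 : V.valuation (r ^ 2 - d) = 1 := by
      rw [← hvd]
      apply Valuation.map_sub_eq_of_lt_right
      rw [hvd, map_pow]
      exact pow_lt_one₀ zero_le h two_ne_zero
    have h2 : V.valuation y ^ 2 = V.valuation r := by
      rw [← map_pow, hfac, map_mul, h1, mul_one]
    refine ⟨y, ?_, h2.symm⟩
    rintro rfl
    rw [map_zero, zero_pow two_ne_zero] at h2
    exact hvr h2.symm
  · exact ⟨1, one_ne_zero, by rw [h, map_one, one_pow]⟩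
  · have h1 : V.valuation (r ^ 2 - d) = V.valuation r ^ 2 := by
      rw [← map_pow]
      apply Valuation.map_sub_eq_of_lt_left
      rw [hvd, map_pow]
      exact one_lt_pow₀ h two_ne_zero
    have h2 : V.valuation y ^ 2 = V.valuation r * V.valuation r ^ 2 := by
      rw [← map_pow, hfac, map_mul, h1]
    refine ⟨y / r, ?_, ?_⟩
    · refine div_ne_zero ?_ hr
      rintro rfl
      rw [map_zero, zero_pow two_ne_zero] at h2
      exact mul_ne_zero hvr (pow_ne_zero 2 hvr) h2.symm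
    · rw [map_div₀, div_pow, h2]
      field_simp

/-- The `x`-coordinate or its translate by `(0, 0)` is a square. -/
theorem sq_or (D : Data 2 F L) {i d : F} (hi : i ^ 2 = -1) (hd : d ≠ 0) (hS : SelTriv d)
    {r y : L} (hr : r ≠ 0) (hxy : y ^ 2 = r ^ 3 - algebraMap F L d * r) :
    (∃ w : L, w ^ 2 = r) ∨ ∃ w : L, w ^ 2 = -algebraMap F L d / r := by
  have hdL : algebraMap F L d ≠ 0 := (map_ne_zero _).2 hd
  obtain ⟨c, hc, g, hg⟩ := D.kum r hr fun V hV =>
    even_vals V (D.hvals V hV d) (by rw [← map_inv₀]; exact D.hvals V hV _) hdL hr hxy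
  have hg0 : g ≠ 0 := by
    rintro rfl
    exact hr (by rw [hg]; ring)
  rcases hS c hc fun w => sel_class D hi hc hr hxy hg w with ⟨e, he⟩ | ⟨e, he⟩
  · left
    refine ⟨algebraMap F L e * g, ?_⟩
    rw [hg, he, map_mul]
    ring
  · right
    refine ⟨algebraMap F L i * algebraMap F L e / (algebraMap F L c * g), ?_⟩
    have hcL : algebraMap F L c ≠ 0 := (map_ne_zero _).2 hc
    have hi' : algebraMap F L i ^ 2 = -1 := by rw [← map_pow, hi, map_neg, map_one]
    have he' : algebraMap F L c * algebraMap F L d = algebraMap F L e * algebraMap F L e := by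
      rw [← map_mul, he, map_mul]
    rw [hg]
    field_simp
    linear_combination (algebraMap F L e ^ 2) * hi' + he'

/-- One step of the division by `1 + i`. -/
theorem div_step {i d r y w : L} (hi : i ^ 2 = -1) (hd : d ≠ 0) (hr : r ≠ 0)
    (hxy : y ^ 2 = r ^ 3 - d * r) (hw : w ^ 2 = r) :
    ∃ r' y' : L, r' ≠ 0 ∧ y' ^ 2 = r' ^ 3 - d * r' ∧ r' ^ 2 - d = 2 * i * r * r' := by
  have hw0 : w ≠ 0 := by
    rintro rfl
    exact hr (by rw [← hw]; ring)
  set r' := i * (r + y / w) with hr'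
  have h1 : r' ^ 2 - d = 2 * i * r * r' := by
    have h2 : (y / w) ^ 2 = r ^ 2 - d := by
      rw [div_pow, hxy, hw]
      field_simp
    rw [hr']
    linear_combination (-r ^ 2 + (y / w) ^ 2) * hi - h2
  refine ⟨r', (1 + i) * w * r', ?_, ?_, h1⟩
  · intro h0
    rw [h0] at h1
    apply hd
    linear_combination -h1
  · have h3 : r' ^ 3 - d * r' = r' * (r' ^ 2 - d) := by ring
    rw [h3, h1]
    linear_combination (2 * i * r' ^ 2) * hw + w ^ 2 * r' ^ 2 * hi

/-- The translate by `(0, 0)`. -/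
theorem translate {d r y : L} (hd : d ≠ 0) (hr : r ≠ 0) (hxy : y ^ 2 = r ^ 3 - d * r) :
    -d / r ≠ 0 ∧ (d * y / r ^ 2) ^ 2 = (-d / r) ^ 3 - d * (-d / r) := by
  refine ⟨div_ne_zero (neg_ne_zero.2 hd) hr, ?_⟩
  rw [div_pow, mul_pow, hxy]
  field_simp
  ring

/-- **The backward orbit.** -/
theorem orbit (D : Data 2 F L) {i d : F} (hi : i ^ 2 = -1) (hd : d ≠ 0) (hS : SelTriv d)
    {x y : L} (hx : x ≠ 0) (hxy : y ^ 2 = x ^ 3 - algebraMap F L d * x) :
    ∃ a : ℕ → L, (a 0 = x ∨ a 0 = -algebraMap F L d / x) ∧ (∀ n, a n ≠ 0) ∧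
      ∀ n, a (n + 1) ^ 2 - algebraMap F L d = 2 * algebraMap F L i * a n * a (n + 1) := by
  have hdL : algebraMap F L d ≠ 0 := (map_ne_zero _).2 hd
  have hi' : algebraMap F L i ^ 2 = -1 := by rw [← map_pow, hi, map_neg, map_one]
  -- the points with a square coordinate
  let Q : Type _ := {q : L × L × L // q.1 ≠ 0 ∧ q.2.1 ^ 2 = q.1 ^ 3 - algebraMap F L d * q.1 ∧
    q.2.2 ^ 2 = q.1}
  have choice : ∀ {r y : L}, r ≠ 0 → y ^ 2 = r ^ 3 - algebraMap F L d * r →
      ∃ q : Q, q.1.1 = r ∨ q.1.1 = -algebraMap F L d / r := by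
    intro r y hr hry
    rcases sq_or D hi hd hS hr hry with ⟨w, hw⟩ | ⟨w, hw⟩
    · exact ⟨⟨(r, y, w), hr, hry, hw⟩, Or.inl rfl⟩
    · obtain ⟨h1, h2⟩ := translate hdL hr hry
      exact ⟨⟨(_, _, w), h1, h2, hw⟩, Or.inr rfl⟩
  have hstep : ∀ q : Q, ∃ q' : Q,
      q'.1.1 ^ 2 - algebraMap F L d = 2 * algebraMap F L i * q.1.1 * q'.1.1 := by
    rintro ⟨⟨r, y, w⟩, hr, hry, hw⟩
    obtain ⟨r', y', h1, h2, h3⟩ := div_step hi' hdL hr hry hw
    obtain ⟨q, hq | hq⟩ := choice h1 h2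
    · exact ⟨q, by rw [hq]; exact h3⟩
    · refine ⟨q, ?_⟩
      change q.1.1 ^ 2 - algebraMap F L d = 2 * algebraMap F L i * r * q.1.1
      rw [hq]
      field_simp
      linear_combination -h3
  obtain ⟨q₀, hq₀⟩ := choice hx hxy
  choose f hf using hstep
  refine ⟨fun n => (f^[n] q₀).1.1, hq₀, fun n => (f^[n] q₀).2.1, fun n => ?_⟩
  change (f^[n + 1] q₀).1.1 ^ 2 - algebraMap F L d =
    2 * algebraMap F L i * (f^[n] q₀).1.1 * (f^[n + 1] q₀).1.1
  rw [Function.iterate_succ_apply']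
  exact hf _

end Pool.Agent.Lib.MP_2f3286_ag.UA
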