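import Pool.Agent.Lib.MP_2f3286_ag.UA.Crv
import Pool.Agent.Lib.MP_2f3286_ag.UA.V1
import Pool.Agent.Lib.MP_2f3286_ag.UA.O3
import Pool.Agent.Lib.MP_2f3286_ag.UA.Cst
import Pool.Agent.Lib.MP_2f3286_ag.UA.F1

/-!
# The values of `x` at the local places of a section: the trichotomy
-/

open IsDedekindDomain NumberField Polynomial
open scoped WithZero
open Pool.Agent.Lib.MP_2f3286_bir (IsPlaceOf)

namespace Pool.Agent.Lib.MP_2f3286_ag.UA

/-- constants have the valuation one -/
theorem val_base {F L : Type*} [Field F] [Field L] [Algebra F L] {V : ValuationSubring L}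
    (hV : ∀ a : F, algebraMap F L a ∈ V) {c : F} (hc : c ≠ 0) :
    V.valuation (algebraMap F L c) = 1 := by
  have h1 := (V.valuation_le_one_iff _).2 (hV c)
  have h2 := (V.valuation_le_one_iff _).2 (hV c⁻¹)
  rw [map_inv₀, map_inv₀] at h2
  have h3 : V.valuation (algebraMap F L c) ≠ 0 := by
    rw [Ne, Valuation.zero_iff, _root_.map_eq_zero]
    exact hc
  exact le_antisymm h1 ((inv_le_one₀ (zero_lt_iff.2 h3)).1 h2)

/-- the terms of an orbit are units -/
theorem orbit_units {F L : Type*} [Field F] [Field L] [Algebra F L] {V : ValuationSubring L}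
    (hV : ∀ a : F, algebraMap F L a ∈ V) {i d : F} (h2 : (2 : F) ≠ 0) (hi : i ≠ 0) (hd : d ≠ 0)
    {a : ℕ → L}
    (ha : ∀ n, a (n + 1) ^ 2 - algebraMap F L d = 2 * algebraMap F L i * a n * a (n + 1))
    (h0 : V.valuation (a 0) = 1) (n : ℕ) : V.valuation (a n) = 1 := by
  have h2i : V.valuation (2 * algebraMap F L i) = 1 := by
    rw [← map_ofNat (algebraMap F L) 2, ← map_mul]
    exact val_base hV (mul_ne_zero h2 hi)
  have hvd := val_base hV hd
  induction n with
  | zero => exact h0
  | succ n ih =>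
    have h1 : V.valuation (a (n + 1) ^ 2 - algebraMap F L d) = V.valuation (a (n + 1)) := by
      rw [ha n, mul_assoc, map_mul, h2i, one_mul, map_mul, ih, one_mul]
    rcases lt_trichotomy (V.valuation (a (n + 1))) 1 with h | h | h
    · exfalso
      have h3 : V.valuation (a (n + 1) ^ 2) < V.valuation (algebraMap F L d) := by
        rw [hvd, map_pow]
        exact pow_lt_one₀ zero_le h two_ne_zero
      rw [Valuation.map_sub_eq_of_lt_right _ h3, hvd] at h1
      exact h.ne h1.symm
    · exact h
    · exfalso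
      have h3 : V.valuation (a (n + 1)) < V.valuation (a (n + 1) ^ 2) := by
        rw [map_pow, pow_two]
        exact lt_mul_of_one_lt_right (zero_lt_one.trans h) h
      have h4 : V.valuation (algebraMap F L d) < V.valuation (a (n + 1) ^ 2) := by
        rw [hvd]
        exact h.trans h3
      rw [Valuation.map_sub_eq_of_lt_left _ h4] at h1
      exact h3.ne h1.symm

/-- units of the ring generated by `t` and the inverses of the polynomials are units -/
theorem unit_of_poly {F K M : Type*} [Field F] [NumberField F] [Field K] [Field M] [Algebra F K]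
    [Algebra K M] [Algebra F M] [IsScalarTower F K M] {V : ValuationSubring M}
    (hV : ∀ a : F, algebraMap F M a ∈ V) {t : K} {J : Type*} {P : J → F[X]}
    (ht : algebraMap K M t ∈ V) (hP : ∀ j, (algebraMap K M (aeval t (P j)))⁻¹ ∈ V) {b : M}
    (hb0 : b ≠ 0) (hb : IsIntegral (GU.polyAlg t P) b) (hb' : IsIntegral (GU.polyAlg t P) b⁻¹) :
    V.valuation b = 1 := by
  have hR : ∀ r : GU.polyAlg t P, algebraMap K M (r : K) ∈ V := by
    rintro ⟨r, hr⟩
    change algebraMap K M r ∈ V
    rw [GU.polyAlg] at hr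
    induction hr using Algebra.adjoin_induction with
    | mem r hr =>
      rcases hr with rfl | ⟨j, rfl⟩
      · exact ht
      · beta_reduce
        rw [map_inv₀]
        exact hP j
    | algebraMap c =>
      rw [← IsScalarTower.algebraMap_apply]
      exact hV c
    | add a b _ _ ha hb => rw [map_add]; exact add_mem ha hb
    | mul a b _ _ ha hb => rw [map_mul]; exact mul_mem ha hb
  have hint : ∀ b : M, IsIntegral (GU.polyAlg t P) b → b ∈ V := by
    intro b hb
    let g : GU.polyAlg t P →+* V := ((algebraMap K M).comp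
      (algebraMap (GU.polyAlg t P) K)).codRestrict V.toSubring (fun r => hR r)
    have h1 : IsIntegral V ((RingHom.id M) b) := by
      refine IsIntegral.map_of_comp_eq g (RingHom.id M) ?_ hb
      ext r
      rfl
    obtain ⟨y, hy⟩ := (IsIntegrallyClosed.isIntegral_iff (R := V) (K := M)).mp h1
    have h2 : (y : M) = b := hy
    rw [← h2]
    exact y.2
  have e1 := (V.valuation_le_one_iff _).2 (hint b hb)
  have e2 := (V.valuation_le_one_iff _).2 (hint _ hb')
  rw [map_inv₀] at e2
  have e3 : V.valuation b ≠ 0 := by rwa [Ne, Valuation.zero_iff]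
  exact le_antisymm e1 ((inv_le_one₀ (zero_lt_iff.2 e3)).1 e2)

universe u

/-- **The trichotomy** for a section over the field of its fixed elements. -/
theorem tri_F {k : Type u} [Field k] [NumberField k] {i d : k} {f : k[X]} (C : Crv i d f)
    {K : Type*} [Field K] [Algebra k K] (htr : Algebra.trdeg k K = 1)
    {M : Type*} [Field M] [Algebra K M] [Algebra.IsAlgebraic K M]
    [Algebra (AlgebraicClosure k) M] [Algebra k M]
    [IsScalarTower k K M] [IsScalarTower k (AlgebraicClosure k) M]
    (𝒱 : Set (ValuationSubring M)) (h𝒱 : ∀ V ∈ 𝒱, ∀ a : k, algebraMap k M a ∈ V)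
    (hrad : ∀ n : ℕ, 1 ≤ n → ∀ ρ : M, ρ ≠ 0 →
      (∀ V ∈ 𝒱, ∃ y : M, y ≠ 0 ∧ V.valuation ρ = V.valuation y ^ n) → ∃ β : M, β ^ n = ρ)
    (s : Gal(AlgebraicClosure k/k) →* Gal(M/K)) (hs : Continuous s)
    (hsec : ∀ σ a, s σ (algebraMap (AlgebraicClosure k) M a) =
      algebraMap (AlgebraicClosure k) M (σ a))
    (hfix : ∀ x : M, (∀ σ, s σ x = x) → ∃ y : K, algebraMap K M y = x)
    (ι : ∀ w : HeightOneSpectrum (𝓞 k),
      AlgebraicClosure k →ₐ[k] AlgebraicClosure (w.adicCompletion k))
    (A : HeightOneSpectrum (𝓞 k) → ValuationSubring M)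
    (φ : ∀ w : HeightOneSpectrum (𝓞 k), A w →+* AlgebraicClosure (w.adicCompletion k))
    (hφ : ∀ w, IsPlaceOf s (w.adicCompletion k)
      (ι w : _ →+* AlgebraicClosure (w.adicCompletion k)) (A w) (φ w))
    (x y : K) (hx : ∀ c : k, x ≠ algebraMap k K c) (hxy : y ^ 2 = aeval x f)
    (hV : ∀ V ∈ 𝒱, algebraMap K M x ∈ V ∧ algebraMap K M y⁻¹ ∈ V) :
    (∃ e : k, ∀ w, ∃ h : algebraMap K M x ∈ A w, φ w ⟨_, h⟩ =
      algebraMap _ _ (algebraMap k (w.adicCompletion k) e)) ∨
    ∀ w, ∃ h : (algebraMap K M x)⁻¹ ∈ A w, φ w ⟨_, h⟩ = 0 := by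
  classical
  have h2 : (2 : k) ≠ 0 := two_ne_zero
  have hi0 := C.i_ne_zero
  have hd := C.hd
  rw [C.aeval_eq] at hxy
  have hx0 : x ≠ 0 := by
    intro h
    exact hx 0 (by rw [h, map_zero])
  obtain ⟨D, hD⟩ := Fer.exists_data_gen (L := K) two_ne_zero 𝒱 h𝒱 (hrad 2 one_le_two) s hs hsec
    (fun x σ => (s σ).commutes x) hfix ι A φ hφ
  obtain ⟨a, ha, ha0, hrec⟩ := orbit D C.hi hd C.sel hx0 hxy
  obtain ⟨N, T, xv, hN, hxv, hxv1⟩ := orbit_points D C.hi hd ha0 hrec (Module.finrank ℚ k)
  have htc : ∀ c : k, (a N)⁻¹ ≠ algebraMap k K c := by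
    intro c hc
    obtain ⟨e, he⟩ := const_back h2 hi0 ha0 hrec N c hc
    rcases ha with h | h
    · exact hx e (h.symm.trans he)
    · rw [h] at he
      apply hx (-d / e)
      rw [map_div₀, map_neg, ← he, div_div_eq_mul_div, mul_comm, mul_div_assoc, div_self, mul_one]
      rw [Ne, neg_eq_zero, _root_.map_eq_zero]
      exact hd
  -- the first term is a unit
  have hy0 : y ≠ 0 := by
    rintro rfl
    have h1 : x ^ 2 = algebraMap k K d := by
      have h3 : x * (x ^ 2 - algebraMap k K d) = 0 := by linear_combination -hxy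
      exact sub_eq_zero.1 ((mul_eq_zero.1 h3).resolve_left hx0)
    obtain ⟨c, hc⟩ := Fer.const_of_algebraic s hsec (c := x)
      (IsAlgebraic.of_pow two_pos (by rw [h1]; exact isAlgebraic_algebraMap _))
    exact hx c hc
  have hunit : ∀ V ∈ 𝒱, V.valuation (algebraMap K M x) = 1 := by
    intro V hV'
    obtain ⟨h3, h4⟩ := hV V hV'
    have hM0 : algebraMap K M x ≠ 0 := by rwa [_root_.map_ne_zero]
    have h5 : (algebraMap K M x)⁻¹ ∈ V := by
      have h6 : (algebraMap K M x)⁻¹ =
          (algebraMap K M x ^ 2 - algebraMap k M d) * algebraMap K M y⁻¹ ^ 2 := by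
        rw [map_inv₀, inv_pow, ← map_pow (algebraMap K M) y, hxy, map_sub, map_mul, map_pow,
          ← IsScalarTower.algebraMap_apply k K M]
        have h7 : algebraMap K M x ^ 3 - algebraMap k M d * algebraMap K M x ≠ 0 := by
          rw [IsScalarTower.algebraMap_apply k K M, ← map_pow, ← map_mul, ← map_sub, ← hxy,
            _root_.map_ne_zero]
          exact pow_ne_zero 2 hy0
        rw [← div_eq_mul_inv, eq_div_iff h7]
        field_simp
      rw [h6]
      exact mul_mem (sub_mem (pow_mem h3 2) (h𝒱 V hV' d)) (pow_mem h4 2)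
    have e1 := (V.valuation_le_one_iff _).2 h3
    have e2 := (V.valuation_le_one_iff _).2 h5
    rw [map_inv₀] at e2
    have e3 : V.valuation (algebraMap K M x) ≠ 0 := by rwa [Ne, Valuation.zero_iff]
    exact le_antisymm e1 ((inv_le_one₀ (zero_lt_iff.2 e3)).1 e2)
  have hunit0 : ∀ V ∈ 𝒱, V.valuation (algebraMap K M (a 0)) = 1 := by
    intro V hV'
    rcases ha with h | h
    · rw [h]
      exact hunit V hV'
    · rw [h, map_div₀, map_neg, map_div₀, Valuation.map_neg, hunit V hV', div_one,
        ← IsScalarTower.algebraMap_apply]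
      exact val_base (h𝒱 V hV') hd
  have hrecM : ∀ n, algebraMap K M (a (n + 1)) ^ 2 - algebraMap k M d =
      2 * algebraMap k M i * algebraMap K M (a n) * algebraMap K M (a (n + 1)) := by
    intro n
    have h3 := congrArg (algebraMap K M) (hrec n)
    rw [map_sub, map_pow, map_mul, map_mul, map_mul, map_ofNat,
      ← IsScalarTower.algebraMap_apply, ← IsScalarTower.algebraMap_apply] at h3
    exact h3
  have hunits : ∀ V ∈ 𝒱, ∀ n, V.valuation (algebraMap K M (a n)) = 1 := fun V hV' n =>
    orbit_units (h𝒱 V hV') h2 hi0 hd (a := fun n => algebraMap K M (a n)) hrecM (hunit0 V hV') n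
  have htV : ∀ V ∈ 𝒱, algebraMap K M (a N)⁻¹ ∈ V := by
    intro V hV'
    rw [← V.valuation_le_one_iff, map_inv₀, map_inv₀, hunits V hV', inv_one]
  have hPV : ∀ V ∈ 𝒱, ∀ j : Fin (Module.finrank ℚ k),
      (algebraMap K M (aeval (a N)⁻¹ (de i d (j + 1))))⁻¹ ∈ V := by
    intro V hV' j
    have h3 : V.valuation (aeval (algebraMap K M (a (N - 0))⁻¹) (de i d (j + 1))) = 1 := by
      refine de_unit V.valuation (y := fun l => algebraMap K M (a (N - l))⁻¹)
        (m := Module.finrank ℚ k) ?_ (val_base (h𝒱 V hV') hi0)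
        (val_base (h𝒱 V hV') hd) (fun l hl => ?_) (fun l _ => ?_) h2 hi0 _ j.2
      · rw [← map_ofNat (algebraMap k M) 2]
        exact val_base (h𝒱 V hV') h2
      · have h4 := hrecM (N - (l + 1))
        rw [show N - (l + 1) + 1 = N - l by omega] at h4
        have h5 : algebraMap K M (a (N - l)) ≠ 0 := by
          rw [_root_.map_ne_zero]; exact ha0 _
        have h6 : algebraMap K M (a (N - (l + 1))) ≠ 0 := by
          rw [_root_.map_ne_zero]; exact ha0 _
        rw [map_inv₀, map_inv₀]
        field_simp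
        linear_combination h4
      · rw [map_inv₀, map_inv₀, hunits V hV', inv_one]
    rw [← V.valuation_le_one_iff, map_inv₀, ← aeval_algebraMap_apply]
    rw [Nat.sub_zero] at h3
    rw [h3, inv_one]
  have hmpos : 0 < Module.finrank ℚ k := Module.finrank_pos
  obtain ⟨c, hc⟩ := const_of_enough.{u, u} htr (a N)⁻¹ htc
    (fun j : Fin (Module.finrank ℚ k) => de i d (j + 1)) ⟨0, hmpos⟩
    (by
      have h3 := (deg_nd (d := d) h2 hi0 hd 0).1
      change 0 < (de i d (0 + 1)).natDegree
      rw [h3]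
      norm_num)
    (enough hi0 hd)
    (fun b hb hb' n hn => by
      rcases eq_or_ne b 0 with rfl | hb0
      · exact ⟨0, zero_pow (by omega)⟩
      refine hrad n hn b hb0 fun V hV' => ⟨1, one_ne_zero, ?_⟩
      rw [map_one, one_pow]
      exact unit_of_poly (h𝒱 V hV') (htV V hV') (hPV V hV') hb0 hb hb')
    s hs hsec ι A φ hφ xv (fun v => (hD v _ (xv v)).1 (hxv v))
    (fun v j => (hxv1 v (j + 1) j.2).1) T
    (fun v hv j => (hxv1 v (j + 1) j.2).2 hv)
  -- back to the first term
  have hstart := const_start D C.hi hd ha0 hrec (N := N) (c := c)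
    (fun w => by rw [← hc w]; exact hxv w)
  have hinf : ∀ w, (D.pl w).Has x⁻¹ 0 → ∃ h : (algebraMap K M x)⁻¹ ∈ A w, φ w ⟨_, h⟩ = 0 := by
    intro w h
    obtain ⟨h3, h4⟩ := (hD w _ _).1 h
    rw [map_zero] at h4
    refine ⟨by rw [← map_inv₀]; exact h3, ?_⟩
    rw [← h4]
    congr 1
    exact Subtype.ext (map_inv₀ _ _).symm
  rcases ha with h | h
  · rw [h] at hstart
    rcases hstart with ⟨e, he⟩ | he
    · exact Or.inl ⟨e, fun w => (hD w _ _).1 (he w)⟩
    · exact Or.inr fun w => hinf w (he w)
  · rw [h] at hstart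
    have hdK : algebraMap k K d ≠ 0 := by
      rw [Ne, _root_.map_eq_zero]
      exact hd
    rcases hstart with ⟨e, he⟩ | he
    · by_cases he0 : e = 0
      · right
        intro w
        apply hinf
        have h3 := he w
        rw [he0, map_zero] at h3
        have h4 : x⁻¹ = (-algebraMap k K d / x) * (algebraMap k K (-d)⁻¹) := by
          rw [map_inv₀, map_neg]
          field_simp
        rw [h4]
        have h5 := h3.mul (D.base w (-d)⁻¹)
        rw [zero_mul] at h5
        exact h5
      · left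
        refine ⟨-d / e, fun w => (hD w _ _).1 ?_⟩
        have h3 := he w
        have he1 : algebraMap k (w.adicCompletion k) e ≠ 0 := (_root_.map_ne_zero _).2 he0
        have h4 : x = algebraMap k K (-d) / (-algebraMap k K d / x) := by
          rw [map_neg]
          field_simp
        rw [h4, map_div₀]
        exact (D.base w (-d)).div h3 he1
    · left
      refine ⟨0, fun w => (hD w _ _).1 ?_⟩
      have h3 := he w
      have h4 : x = (-algebraMap k K d / x)⁻¹ * algebraMap k K (-d) := by
        rw [map_neg]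
        field_simp
      rw [h4, map_zero]
      have h5 := h3.mul (D.base w (-d))
      rw [zero_mul] at h5
      exact h5

end Pool.Agent.Lib.MP_2f3286_ag.UA
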