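import Pool.Agent.Lib.MP_2f3286_ag.UA.Tri
import Pool.Agent.Lib.MP_2f3286_ag.Key
import Pool.Agent.Lib.MP_2f3286_ag.Koe.Main

/-!
# The trichotomy for all local places
-/

open IsDedekindDomain NumberField Polynomial
open scoped WithZero
open Pool.Agent.Lib.MP_2f3286_bir (IsPlaceOf)

namespace Pool.Agent.Lib.MP_2f3286_ag.UA

/-- an alternative which holds for all families holds for all members with the same side -/
theorem all_places {W : Type*} {P : W → Type*} {E : Type*} (hW : ∀ v : W, ∃ w, w ≠ v)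
    (Val : ∀ w, P w → E → Prop) (Inf : ∀ w, P w → Prop)
    (hu : ∀ w p e e', Val w p e → Val w p e' → e = e') (hn : ∀ w p e, Val w p e → ¬ Inf w p)
    (h : ∀ fam : ∀ w, P w, (∃ e, ∀ w, Val w (fam w) e) ∨ ∀ w, Inf w (fam w))
    (fam₀ : ∀ w, P w) : (∃ e, ∀ w p, Val w p e) ∨ ∀ w p, Inf w p := by
  classical
  rcases h fam₀ with ⟨e, he⟩ | h0
  · refine Or.inl ⟨e, fun w p => ?_⟩
    obtain ⟨w', hw'⟩ := hW w
    have h1 : Function.update fam₀ w p w' = fam₀ w' := Function.update_of_ne hw' _ _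
    have h2 : Function.update fam₀ w p w = p := Function.update_self _ _ _
    rcases h (Function.update fam₀ w p) with ⟨e', he'⟩ | h3
    · have h4 := he' w'
      rw [h1] at h4
      have h5 := he' w
      rw [h2] at h5
      rw [hu _ _ _ _ (he w') h4]
      exact h5
    · have h4 := h3 w'
      rw [h1] at h4
      exact absurd h4 (hn _ _ _ (he w'))
  · refine Or.inr fun w p => ?_
    obtain ⟨w', hw'⟩ := hW w
    have h1 : Function.update fam₀ w p w' = fam₀ w' := Function.update_of_ne hw' _ _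
    have h2 : Function.update fam₀ w p w = p := Function.update_self _ _ _
    rcases h (Function.update fam₀ w p) with ⟨e', he'⟩ | h3
    · have h4 := he' w'
      rw [h1] at h4
      exact absurd (h0 w') (hn _ _ _ h4)
    · have h4 := h3 w
      rwa [h2] at h4

universe u

/-- **The trichotomy.** -/
theorem tri {k : Type u} [Field k] [NumberField k] {i d : k} {f : k[X]} (C : Crv i d f)
    {K : Type*} [Field K] [Algebra k K] (htr : Algebra.trdeg k K = 1)
    {M : Type*} [Field M] [Algebra K M] [Algebra.IsAlgebraic K M]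
    [Algebra (AlgebraicClosure k) M] [Algebra k M]
    [IsScalarTower k K M] [IsScalarTower k (AlgebraicClosure k) M]
    (𝒱 : Set (ValuationSubring M)) (h𝒱 : ∀ V ∈ 𝒱, ∀ a : k, algebraMap k M a ∈ V)
    (hrad : ∀ n : ℕ, 1 ≤ n → ∀ ρ : M, ρ ≠ 0 →
      (∀ V ∈ 𝒱, ∃ y : M, y ≠ 0 ∧ V.valuation ρ = V.valuation y ^ n) → ∃ β : M, β ^ n = ρ)
    (s : Gal(AlgebraicClosure k/k) →* Gal(M/K)) (hs : Continuous s)
    (hsec : ∀ σ a, s σ (algebraMap (AlgebraicClosure k) M a) =
      algebraMap (AlgebraicClosure k) M (σ a))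
    (x y : K) (hx : ∀ c : k, x ≠ algebraMap k K c) (hxy : y ^ 2 = aeval x f)
    (hV : ∀ V ∈ 𝒱, algebraMap K M x ∈ V ∧ algebraMap K M y⁻¹ ∈ V)
    (hloc : ∀ v : HeightOneSpectrum (𝓞 k),
      ∃ (ι : AlgebraicClosure k →ₐ[k] AlgebraicClosure (v.adicCompletion k))
        (A : ValuationSubring M) (φ : A →+* AlgebraicClosure (v.adicCompletion k)),
        IsPlaceOf s (v.adicCompletion k)
          (ι : _ →+* AlgebraicClosure (v.adicCompletion k)) A φ) :
    (∃ e : k, ∀ (v : HeightOneSpectrum (𝓞 k))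
      (ι : AlgebraicClosure k →ₐ[k] AlgebraicClosure (v.adicCompletion k))
      (A : ValuationSubring M) (φ : A →+* AlgebraicClosure (v.adicCompletion k)),
      IsPlaceOf s (v.adicCompletion k)
        (ι : _ →+* AlgebraicClosure (v.adicCompletion k)) A φ →
      ∃ h : algebraMap K M x ∈ A, φ ⟨_, h⟩ = ι (algebraMap k _ e)) ∨
    ∀ (v : HeightOneSpectrum (𝓞 k))
      (ι : AlgebraicClosure k →ₐ[k] AlgebraicClosure (v.adicCompletion k))
      (A : ValuationSubring M) (φ : A →+* AlgebraicClosure (v.adicCompletion k)),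
      IsPlaceOf s (v.adicCompletion k)
        (ι : _ →+* AlgebraicClosure (v.adicCompletion k)) A φ →
      ∃ h : (algebraMap K M x)⁻¹ ∈ A, φ ⟨_, h⟩ = 0 := by
  classical
  let e : AlgebraicClosure k ≃ₐ[k] AlgebraicClosure k := AlgEquiv.refl
  have hL : ∀ σ : Gal(AlgebraicClosure k/k),
      (∀ a : k, σ (algebraMap k _ a) = algebraMap k _ a) →
      ∀ x : Koe.fixF s k, s σ (algebraMap (Koe.fixF s k) M x) = algebraMap (Koe.fixF s k) M x :=
    fun σ hσ x => x.2 σ hσ
  have hres : ∀ (τ : Gal(AlgebraicClosure k/k)) (z : M), Koe.resS s e hL τ z = s τ z := by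
    intro τ z
    rw [Koe.resS_apply]
    rfl
  have t2 : IsScalarTower k (Koe.fixF s k) M := IsScalarTower.of_algebraMap_eq fun a => rfl
  have hLM : Algebra.IsAlgebraic (Koe.fixF s k) M :=
    Algebra.IsAlgebraic.tower_top (K := K) (Koe.fixF s k)
  have htr' : Algebra.trdeg k (Koe.fixF s k) = 1 := Koe.trdeg_fix (k := k) (K := K) (Ω := M) htr
  have hs' := Koe.resS_continuous s e hL hs
  have hsec' : ∀ (σ : Gal(AlgebraicClosure k/k)) (a : AlgebraicClosure k),
      Koe.resS s e hL σ (algebraMap (AlgebraicClosure k) M a) =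
        algebraMap (AlgebraicClosure k) M (σ a) := by
    intro σ a
    rw [hres, hsec]
  have hfix : ∀ z : M, (∀ σ, Koe.resS s e hL σ z = z) →
      ∃ y : Koe.fixF s k, algebraMap (Koe.fixF s k) M y = z := by
    intro z hz
    refine ⟨⟨z, fun σ hσ => ?_⟩, rfl⟩
    rw [← hres]
    exact hz σ
  have hmem : ∀ z : K, algebraMap K M z ∈ Koe.fixF s k := fun z σ _ => (s σ).commutes z
  have key : ∀ fam : (∀ v : HeightOneSpectrum (𝓞 k),
      {p : (AlgebraicClosure k →ₐ[k] AlgebraicClosure (v.adicCompletion k)) ×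
        (Σ A : ValuationSubring M, A →+* AlgebraicClosure (v.adicCompletion k)) //
        IsPlaceOf s (v.adicCompletion k)
          (p.1 : _ →+* AlgebraicClosure (v.adicCompletion k)) p.2.1 p.2.2}),
      (∃ e : k, ∀ v, ∃ h : algebraMap K M x ∈ (fam v).1.2.1, (fam v).1.2.2 ⟨_, h⟩ =
        (fam v).1.1 (algebraMap k _ e)) ∨
      ∀ v, ∃ h : (algebraMap K M x)⁻¹ ∈ (fam v).1.2.1, (fam v).1.2.2 ⟨_, h⟩ = 0 := by
    intro fam
    have h1 := tri_F C htr' 𝒱 h𝒱 hrad (Koe.resS s e hL) hs' hsec' hfix (fun v => (fam v).1.1)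
      (fun v => (fam v).1.2.1) (fun v => (fam v).1.2.2) (fun v => by
        obtain ⟨g1, g2, g3⟩ := (fam v).2
        refine ⟨g1, g2, fun σ τ hστ z => ?_⟩
        obtain ⟨g4, g5⟩ := g3 σ τ hστ z
        refine ⟨by rw [hres]; exact g4, ?_⟩
        rw [← g5]
        congr 1) ⟨_, hmem x⟩ ⟨_, hmem y⟩
      (fun c hc => by
        apply hx c
        apply (algebraMap K M).injective
        rw [← IsScalarTower.algebraMap_apply]
        exact congrArg (algebraMap (Koe.fixF s k) M) hc)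
      (by
        apply (algebraMap (Koe.fixF s k) M).injective
        rw [map_pow, ← aeval_algebraMap_apply]
        change algebraMap K M y ^ 2 = aeval (algebraMap K M x) f
        rw [aeval_algebraMap_apply, ← map_pow, hxy])
      (fun V hV' => by
        obtain ⟨g1, g2⟩ := hV V hV'
        refine ⟨g1, ?_⟩
        rw [map_inv₀] at g2 ⊢
        exact g2)
    rcases h1 with ⟨e₀, he⟩ | h1
    · refine Or.inl ⟨e₀, fun v => ?_⟩
      obtain ⟨g1, g2⟩ := he v
      refine ⟨g1, g2.trans ?_⟩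
      rw [AlgHom.commutes, ← IsScalarTower.algebraMap_apply]
    · exact Or.inr h1
  choose ι₀ A₀ φ₀ hφ₀ using hloc
  have hmain := all_places (W := HeightOneSpectrum (𝓞 k)) (E := k)
    (fun v => by
      obtain ⟨w, hw⟩ := exists_notMem ({v} : Finset (HeightOneSpectrum (𝓞 k)))
      exact ⟨w, fun h => hw (Finset.mem_singleton.2 h)⟩)
    (P := fun v => {p : (AlgebraicClosure k →ₐ[k] AlgebraicClosure (v.adicCompletion k)) ×
        (Σ A : ValuationSubring M, A →+* AlgebraicClosure (v.adicCompletion k)) //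
        IsPlaceOf s (v.adicCompletion k)
          (p.1 : _ →+* AlgebraicClosure (v.adicCompletion k)) p.2.1 p.2.2})
    (fun v p e => ∃ h : algebraMap K M x ∈ p.1.2.1, p.1.2.2 ⟨_, h⟩ = p.1.1 (algebraMap k _ e))
    (fun v p => ∃ h : (algebraMap K M x)⁻¹ ∈ p.1.2.1, p.1.2.2 ⟨_, h⟩ = 0)
    (fun v p e e' h h' => by
      obtain ⟨h1, h2⟩ := h
      obtain ⟨h3, h4⟩ := h'
      exact (algebraMap k (AlgebraicClosure k)).injective
        ((p.1.1 : _ →+* AlgebraicClosure (v.adicCompletion k)).injective (h2.symm.trans h4)))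
    (fun v p e h h' => by
      obtain ⟨h1, h2⟩ := h
      obtain ⟨h3, h4⟩ := h'
      have hx0 : algebraMap K M x ≠ 0 := by
        rw [Ne, _root_.map_eq_zero]
        intro h0
        exact hx 0 (by rw [h0, map_zero])
      have h5 : p.1.2.2 (⟨_, h1⟩ * ⟨_, h3⟩) = 1 := by
        rw [← map_one p.1.2.2]
        congr 1
        exact Subtype.ext (mul_inv_cancel₀ hx0)
      rw [map_mul, h4, mul_zero] at h5
      exact zero_ne_one h5) key (fun v => ⟨(ι₀ v, ⟨A₀ v, φ₀ v⟩), hφ₀ v⟩)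
  rcases hmain with ⟨e₀, he⟩ | h
  · exact Or.inl ⟨e₀, fun v ι A φ h => he v ⟨(ι, ⟨A, φ⟩), h⟩⟩
  · exact Or.inr fun v ι A φ h' => h v ⟨(ι, ⟨A, φ⟩), h'⟩

end Pool.Agent.Lib.MP_2f3286_ag.UA
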