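import Pool.Agent.Lib.MP_2f3286_ag.UA.Aff
import Pool.Agent.Lib.MP_2f3286_ag.UA.F2

/-!
# Sections above the curve: affine curves and function fields together
-/

open Polynomial IsDedekindDomain NumberField
open scoped WithZero

noncomputable section

namespace Pool.Agent.Lib.MP_2f3286_ag.UA

open Pool.Agent.Lib.MP_2f3286_ag.HYP

universe u

/-- **The theorem, affine curves and function fields.** -/
theorem uni_of_sel {k : Type u} [Field k] [NumberField k] {i d : k} {f : k[X]}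
    (C : Crv i d f)
    {K : Type*} [Field K] [Algebra k K] (htr : Algebra.trdeg k K = 1)
    {x y : K} (hx : ∀ c : k, x ≠ algebraMap k K c) (hxy : y ^ 2 = aeval x f)
    (R : Subalgebra k K)
    {M : Type*} [Field M] [Algebra K M] [IsGalois K M]
    [Algebra (AlgebraicClosure k) M] [Algebra k M]
    [IsScalarTower k K M] [IsScalarTower k (AlgebraicClosure k) M]
    (s : Gal(AlgebraicClosure k/k) →* Gal(M/K)) (hs : Continuous s)
    (hsec : ∀ σ a, s σ (algebraMap (AlgebraicClosure k) M a) =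
      algebraMap (AlgebraicClosure k) M (σ a))
    (hM : (IsAlgClosed M ∧ R = ⊥) ∨
      (R.FG ∧ (∀ h : K, IsIntegral R h → h ∈ R) ∧ x ∈ R ∧ y ∈ R ∧ y⁻¹ ∈ R ∧
        Pt.IsMaxUnramOver R K M (AlgebraicClosure k) ∧
        (∀ v : HeightOneSpectrum (𝓞 k),
          ∃ (ι : AlgebraicClosure k →ₐ[k] AlgebraicClosure (v.adicCompletion k))
            (A : ValuationSubring M) (φ : A →+* AlgebraicClosure (v.adicCompletion k)),
            IsPointOn s R (v.adicCompletion k)
              (ι : _ →+* AlgebraicClosure (v.adicCompletion k)) A φ))) :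
    ∃ (A₀ : ValuationSubring M) (ψ₀ : A₀ →+* AlgebraicClosure k),
      (∀ r : R, algebraMap K M r ∈ A₀) ∧ Sel.IsSectionAt s A₀ ψ₀ ∧
      (∀ (A₁ : ValuationSubring M) (ψ₁ : A₁ →+* AlgebraicClosure k), Sel.IsSectionAt s A₁ ψ₁ →
        (IsAlgClosed M ∨ ∀ (r : R) (h₀ : algebraMap K M r ∈ A₀), ∃ h₁ : algebraMap K M r ∈ A₁,
          algebraMap K M r ∈ unitRing R M ∨ ψ₁ ⟨_, h₁⟩ = ψ₀ ⟨_, h₀⟩) →
        A₁ = A₀ ∧ ∀ (a : A₁) (b : A₀), (a : M) = b → ψ₁ a = ψ₀ b) ∧
      (∀ h : K, algebraMap K M h ∈ A₀ → (IsAlgClosed M ∨ algebraMap K M h ∈ unitRing R M) →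
        HasVal s R A₀ ψ₀ h) ∧
      ((IsAlgClosed M ∨ ∀ r : R, algebraMap K M r ∈ unitRing R M) →
        Sel.IsPlaceOf s k (RingHom.id _) A₀ ψ₀) := by
  classical
  suffices main : ∃ (A₀ : ValuationSubring M) (ψ₀ : A₀ →+* AlgebraicClosure k),
      (∀ r : R, algebraMap K M r ∈ A₀) ∧ Sel.IsSectionAt s A₀ ψ₀ ∧
      (¬ IsAlgClosed M →
        (∀ (A₁ : ValuationSubring M) (ψ₁ : A₁ →+* AlgebraicClosure k), Sel.IsSectionAt s A₁ ψ₁ →
          (∀ (r : R) (h₀ : algebraMap K M r ∈ A₀), ∃ h₁ : algebraMap K M r ∈ A₁,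
            algebraMap K M r ∈ unitRing R M ∨ ψ₁ ⟨_, h₁⟩ = ψ₀ ⟨_, h₀⟩) →
          A₁ = A₀ ∧ ∀ (a : A₁) (b : A₀), (a : M) = b → ψ₁ a = ψ₀ b) ∧
        (∀ h : K, algebraMap K M h ∈ unitRing R M → HasVal s R A₀ ψ₀ h) ∧
        ((∀ r : R, algebraMap K M r ∈ unitRing R M) → Sel.IsPlaceOf s k (RingHom.id _) A₀ ψ₀)) by
    obtain ⟨A₀, ψ₀, h1, h2, h3⟩ := main
    refine ⟨A₀, ψ₀, h1, h2, ?_⟩
    by_cases hcl : IsAlgClosed M
    · have h4 := SNeigh.place_of_sectionAt s hs hsec h2
      refine ⟨fun A₁ ψ₁ h _ => MP_2f3286_bir.place_unique s hs h4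
        (SNeigh.place_of_sectionAt s hs hsec h), fun h hA _ => ?_, fun _ => h4⟩
      have hcK : IsAlgClosure K M := ⟨hcl, inferInstance⟩
      obtain ⟨c, hc⟩ := HYP.mem_of_fixed (k := k) (a := ψ₀ ⟨_, hA⟩) fun σ =>
        (SNeigh.sectionAt_of_place h4).1 σ h hA
      refine ⟨c, hA, hc.symm, fun v ι A φ hφ => ?_⟩
      obtain ⟨h5, h6⟩ := PD.local_unique htr x hx s hs hsec h4 v ι A φ hφ.1
      subst h5
      exact ⟨hA, by rw [h6 ⟨_, hA⟩ ⟨_, hA⟩ rfl, hc]⟩
    · obtain ⟨h4, h5, h6⟩ := h3 hcl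
      exact ⟨fun A₁ ψ₁ h h' => h4 A₁ ψ₁ h (h'.resolve_left hcl),
        fun h _ hh => h5 h (hh.resolve_left hcl), fun h => h6 (h.resolve_left hcl)⟩
  rcases hM with ⟨hcl, rfl⟩ | ⟨hfg, hRn, hxR, hyR, hyR', hM, hloc⟩
  · -- function fields
    have hcK : IsAlgClosure K M := ⟨hcl, inferInstance⟩
    obtain ⟨A₀, ψ₀, h1⟩ := geo_k (F := k) (k := k) C.hi C.hd C.sel htr s hs hsec (algebraMap K M x)
      (algebraMap K M y) (fun σ _ => (s σ).commutes x) (fun σ _ => (s σ).commutes y)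
      (fun c hc => hx c (by
        apply (algebraMap K M).injective
        rw [hc, ← IsScalarTower.algebraMap_apply, ← IsScalarTower.algebraMap_apply]))
      (by
        rw [← map_pow, hxy, C.aeval_eq, map_sub, map_mul, map_pow,
          ← IsScalarTower.algebraMap_apply k K M, ← IsScalarTower.algebraMap_apply])
    refine ⟨A₀, ψ₀, ?_, (SNeigh.sectionAt_of_place h1).2, fun h => absurd hcl h⟩
    rintro ⟨r, hr⟩
    obtain ⟨a, rfl⟩ := Algebra.mem_bot.1 hr
    change algebraMap K M (algebraMap k K a) ∈ A₀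
    rw [← IsScalarTower.algebraMap_apply k K M, IsScalarTower.algebraMap_apply k
      (AlgebraicClosure k) M]
    exact (h1.1 _).1
  · -- affine curves
    have hxk : Transcendental k x := by
      rintro ⟨p, hp, hp'⟩
      have h1 : (p.map (algebraMap k (AlgebraicClosure k))).eval₂
          (algebraMap (AlgebraicClosure k) M) (algebraMap K M x) = 0 := by
        rw [eval₂_map, ← IsScalarTower.algebraMap_eq, ← aeval_def, aeval_algebraMap_apply, hp',
          map_zero]
      obtain ⟨c, -, hc⟩ := root_mem (algebraMap (AlgebraicClosure k) M)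
        (Polynomial.map_ne_zero hp) h1
      obtain ⟨c₀, hc₀⟩ := HYP.mem_of_fixed (k := k) (a := c) fun σ => by
        apply (algebraMap (AlgebraicClosure k) M).injective
        rw [← hsec, hc, (s σ).commutes]
      apply hx c₀
      apply (algebraMap K M).injective
      rw [← IsScalarTower.algebraMap_apply, IsScalarTower.algebraMap_apply k (AlgebraicClosure k) M,
        hc₀]
      exact hc.symm
    have hfdim := finite_of_fg htr R hRn hfg hxR hxk
    have hK0 : CharZero K := charZero_of_injective_algebraMap (algebraMap k K).injective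
    have hKM : Algebra.IsAlgebraic K M := inferInstance
    have halg : Algebra.IsAlgebraic K (AlgebraicClosure M) := Algebra.IsAlgebraic.trans K M _
    have htrΩ : Algebra.trdeg k (AlgebraicClosure M) = 1 :=
      trdeg_top (K := K) (Full.trdeg_of_finite hxk)
    have hMp := maxUnram_of_over R htrΩ x hxR hxk hM
    have hK : (⊤ : IntermediateField k K).FG := by
      have h1 : Algebra.EssFiniteType k (IntermediateField.adjoin k {x}) :=
        IntermediateField.essFiniteType_iff.2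
          (IntermediateField.fg_adjoin_of_finite (Set.finite_singleton x))
      have h2 := Algebra.EssFiniteType.comp k (IntermediateField.adjoin k {x}) K
      exact IntermediateField.fg_top k K
    obtain ⟨Δ, Ψ, h1, h2, h3, h4, h5, h7⟩ := aff_core C htr hx hxy R
      s hs hsec hRn hfg hxR hyR hyR' hM hMp hloc
    obtain ⟨A₀, ψ₀, hA, hB, hmul, hunit⟩ := SFull.exists_place x hxk R hxR Ψ h2
    have hint : ∀ a : AlgebraicClosure k, IsIntegral R (algebraMap (AlgebraicClosure k) M a) :=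
      fun a => Pt.integral_const R a
    have hover : SNeigh.IsOver A₀ ψ₀ := by
      refine ⟨fun a => ?_, hunit⟩
      obtain ⟨h8, h9⟩ := hB ⟨_, hint a⟩
      exact ⟨h8, h9.trans (h2 a _ rfl)⟩
    have hRA : ∀ r : R, algebraMap K M r ∈ A₀ := fun r =>
      (hB (algebraMap R (integralClosure R M) r)).1
    have hres : ∀ Δ : Subgroup Gal(AlgebraicClosure k/k),
        (∀ σ ∈ Δ, ∀ b b' : integralClosure R M, (b' : M) = s σ b → Ψ b' = σ (Ψ b)) →
        SNeigh.ResOn s A₀ ψ₀ Δ := by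
      intro Δ hΔ σ hσ z
      obtain ⟨a, b, hb, hab⟩ := (hA z).1 z.2
      let act : integralClosure R M → integralClosure R M := fun c =>
        ⟨s σ c, c.2.map (((s σ).toAlgHom.restrictScalars R : M →ₐ[R] M))⟩
      have ha' := hΔ σ hσ a (act a) rfl
      have hb' := hΔ σ hσ b (act b) rfl
      have hgy : s σ z * (act b : M) = act a := by
        change s σ z * s σ b = s σ a
        rw [← map_mul, hab]
      have hb0 : Ψ (act b) ≠ 0 := by
        rw [hb']
        exact (_root_.map_ne_zero _).2 hb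
      have hz : s σ z ∈ A₀ := (hA _).2 ⟨act a, act b, hb0, hgy⟩
      refine ⟨hz, mul_right_cancel₀ hb0 ?_⟩
      rw [hmul ⟨_, hz⟩ _ _ hgy, ha', hb', ← map_mul, hmul z a b hab]
    obtain ⟨g1, -⟩ := SNeigh.section_of_open hK htr R hfg hM s hsec hRA hover Δ h1 (hres Δ h3)
    have hy0 : y ≠ 0 := by
      intro h0
      rw [h0, zero_pow two_ne_zero] at hxy
      exact hxk ⟨f, C.monic.ne_zero, hxy.symm⟩
    refine ⟨A₀, ψ₀, hRA, g1, fun _ => ⟨fun A₁ ψ₁ hψ₁ hA₁ => ?_, fun h hu => ?_, fun hu => ?_⟩⟩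
    · obtain ⟨hA', Ψ₁, e', i1, i2⟩ := pt_of_place R s (A := A₁) (ψ := ψ₁) ⟨hψ₁.1, hψ₁.2.1⟩
        fun r => (hA₁ r (hRA r)).1
      have i3 := i2 (SFull.stab K A₁ ψ₁) fun σ hσ z => hψ₁.2.2.2 σ hσ z
      have h8 : Ψ₁ = Ψ := by
        refine h5 Ψ₁ i1 (fun r => ?_) ⟨SFull.stab K A₁ ψ₁, hψ₁.2.2.1, i3⟩
        obtain ⟨h9, h10⟩ := hA₁ r (hRA r)
        rcases h10 with h10 | h10
        · refine open_agree R s hs (Pt.radClosed_of_max R hMp) (Δ ⊓ SFull.stab K A₁ ψ₁)
            (h1.inter hψ₁.2.2.1) h2 i1 (fun σ hσ => h3 σ hσ.1) (fun σ hσ => i3 σ hσ.2)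
            (algebraMap R _ r) h10
        · obtain ⟨h11, h12⟩ := hB (algebraMap R (integralClosure R M) r)
          rw [e', ← h12]
          exact h10
      subst h8
      refine SNeigh.place_eq hunit fun z => ?_
      obtain ⟨a, b, hb, hab⟩ := (hA z).1 z.2
      have h9 : (b : M)⁻¹ ∈ A₁ := hψ₁.2.1 ⟨b, hA' b⟩ (by rw [← e']; exact hb)
      have hb0 : (b : M) ≠ 0 := by
        intro h0
        apply hb
        rw [show b = 0 from Subtype.ext h0, map_zero]
      have h10 : (z : M) = a * (b : M)⁻¹ := by rw [← hab, mul_inv_cancel_right₀ hb0]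
      have h11 : (z : M) ∈ A₁ := by rw [h10]; exact A₁.mul_mem _ _ (hA' a) h9
      refine ⟨h11, mul_right_cancel₀ hb ?_⟩
      rw [hmul z a b hab, e', e', ← map_mul]
      congr 1
      exact Subtype.ext hab
    · have hh : h ∈ R := by
        refine hRn _ ?_
        have h8 : unitRing R M ≤ (integralClosure R M).toSubring := by
          rw [unitRing, Subring.closure_le]
          intro b hb
          exact hb.1
        have h9 : IsIntegral R (algebraMap K M h) := h8 hu
        exact (isIntegral_algebraMap_iff (algebraMap K M).injective).mp h9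
      obtain ⟨c, hc, hc'⟩ := h4 ⟨h, hh⟩ hu
      obtain ⟨h8, h9⟩ := hB (algebraMap R (integralClosure R M) ⟨h, hh⟩)
      exact ⟨c, h8, h9.trans hc, hc'⟩
    · have h8 := hres ⊤ fun σ _ b b' hb => (h7 hu).2 σ σ (fun _ => rfl) b b' hb
      refine ⟨hover.1, hunit, fun σ τ hστ z => ?_⟩
      obtain ⟨h9, h10⟩ := h8 σ (Subgroup.mem_top σ) z
      exact ⟨h9, h10.trans (hστ _)⟩

end Pool.Agent.Lib.MP_2f3286_ag.UA
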