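import Pool.Agent.Lib.MP_2f3286_ag.UA.Fst

/-!
# Sections above the curve, cusps allowed, if `x` is a unit
-/

open Polynomial IsDedekindDomain NumberField
open scoped WithZero

noncomputable section

namespace Pool.Agent.Lib.MP_2f3286_ag.UA

open Pool.Agent.Lib.MP_2f3286_ag.HYP hiding affine_over over_dich
open Pool.Agent.Lib.MP_2f3286_ag.Pt Pool.Agent.Lib.MP_2f3286_ag.SNeigh
  Pool.Agent.Lib.MP_2f3286_ag.SFull Pool.Agent.Lib.MP_2f3286_ag.Koe

universe u v

/-- a root of a monic quadratic polynomial with integral coefficients is integral -/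
theorem integral_of_quad {R M : Type*} [CommRing R] [Field M] [Algebra R M] {a b x : M}
    (ha : IsIntegral R a) (hb : IsIntegral R b) (h : x ^ 2 = a * x + b) : IsIntegral R x := by
  have h1 : IsIntegral (integralClosure R M) x := by
    refine ⟨X ^ 2 - (C ⟨a, ha⟩ * X + C ⟨b, hb⟩), ?_, ?_⟩
    · refine monic_X_pow_sub ?_
      compute_degree
      norm_num
    · rw [eval₂_sub, eval₂_add, eval₂_mul, eval₂_C, eval₂_C, eval₂_X, eval₂_pow, eval₂_X, h]
      exact sub_self _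
  exact isIntegral_trans x h1

/-- the point with twice `i` times the given coordinate is a unit at a valuation ring -/
theorem val_of_div {F M : Type*} [Field F] [Field M] [Algebra F M] {V : ValuationSubring M}
    (hV : ∀ a : F, algebraMap F M a ∈ V) {i d : F} (hd : d ≠ 0) {r x₁ : M} (hx₁ : x₁ ≠ 0)
    (h : x₁ ^ 2 - algebraMap F M d = 2 * algebraMap F M i * r * x₁) (hr : r ∈ V) :
    x₁ ∈ V ∧ x₁⁻¹ ∈ V := by
  have hdM : algebraMap F M d ≠ 0 := (_root_.map_ne_zero _).2 hd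
  have h2 : (2 : M) ∈ V := by
    have h3 := hV 2
    rwa [map_ofNat] at h3
  have ha : 2 * algebraMap F M i * r ∈ V := mul_mem (mul_mem h2 (hV i)) hr
  have e1 : x₁ = 2 * algebraMap F M i * r + algebraMap F M d * x₁⁻¹ := by
    field_simp
    linear_combination h
  have e2 : x₁⁻¹ = (x₁ - 2 * algebraMap F M i * r) * algebraMap F M d⁻¹ := by
    rw [map_inv₀]
    field_simp
    linear_combination -h
  rcases V.mem_or_inv_mem x₁ with h3 | h3
  · refine ⟨h3, ?_⟩
    rw [e2]
    exact mul_mem (sub_mem h3 ha) (hV _)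
  · refine ⟨?_, h3⟩
    rw [e1]
    exact add_mem ha (mul_mem (hV d) h3)

/-- **The theorem**: with a neighbourhood over `F` mapping to the curve such that `x` is a unit, a
section that is everywhere locally geometric or cuspidal is geometric or cuspidal. -/
theorem geo_or_cusp_unit {k : Type u} [Field k] [NumberField k]
    {F : Type v} [Field F] [NumberField F] [Algebra k F]
    [Algebra F (AlgebraicClosure k)] [IsScalarTower k F (AlgebraicClosure k)]
    {i d : F} {f : F[X]} (C : Crv i d f)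
    {K : Type*} [Field K] [Algebra k K] (htr : Algebra.trdeg k K = 1)
    (R : Subalgebra k K)
    {M : Type*} [Field M] [Algebra K M] [IsGalois K M]
    [Algebra (AlgebraicClosure k) M] [Algebra k M]
    [IsScalarTower k K M] [IsScalarTower k (AlgebraicClosure k) M]
    [Algebra F M] [IsScalarTower F (AlgebraicClosure k) M]
    (s : Gal(AlgebraicClosure k/k) →* Gal(M/K)) (hs : Continuous s)
    (hsec : ∀ σ a, s σ (algebraMap (AlgebraicClosure k) M a) =
      algebraMap (AlgebraicClosure k) M (σ a))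
    {x y : M} (hfix : ∀ σ : Gal(AlgebraicClosure k/k),
      (∀ a : F, σ (algebraMap F _ a) = algebraMap F _ a) → s σ x = x ∧ s σ y = y)
    (hx : ∀ c : F, x ≠ algebraMap F M c) (hxy : y ^ 2 = aeval x f)
    (hM : (IsAlgClosed M ∧ R = ⊥) ∨
      (R.FG ∧ (∀ h : K, IsIntegral R h → h ∈ R) ∧ IsIntegral R x ∧ IsIntegral R x⁻¹ ∧
        IsMaxUnramOver R K M (AlgebraicClosure k) ∧
        (∀ w : HeightOneSpectrum (𝓞 F),
          ∃ (ι : AlgebraicClosure k →ₐ[F] AlgebraicClosure (w.adicCompletion F))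
            (A : ValuationSubring M) (φ : A →+* AlgebraicClosure (w.adicCompletion F)),
            Sel.IsPlaceOf s (w.adicCompletion F)
              (ι : _ →+* AlgebraicClosure (w.adicCompletion F)) A φ ∧
            (x ∈ A → x⁻¹ ∈ A → ∀ r : R, algebraMap K M r ∈ A)))) :
    ∃ (A₀ : ValuationSubring M) (ψ₀ : A₀ →+* AlgebraicClosure k),
      (((∀ r : R, algebraMap K M r ∈ A₀) ∧ Sel.IsSectionAt s A₀ ψ₀ ∧
        (∀ (A₁ : ValuationSubring M) (ψ₁ : A₁ →+* AlgebraicClosure k), Sel.IsSectionAt s A₁ ψ₁ →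
          (∀ (r : R) (h₀ : algebraMap K M r ∈ A₀), ∃ h₁ : algebraMap K M r ∈ A₁,
            (IsAlgClosed M ∨ algebraMap K M r ∈ unitRing R M) ∨ ψ₁ ⟨_, h₁⟩ = ψ₀ ⟨_, h₀⟩) →
          A₁ = A₀ ∧ ∀ (a : A₁) (b : A₀), (a : M) = b → ψ₁ a = ψ₀ b) ∧
        (∀ h : K, algebraMap K M h ∈ A₀ → (IsAlgClosed M ∨ algebraMap K M h ∈ unitRing R M) →
          HasValOver s R F A₀ ψ₀ h) ∧
        ((∀ r : R, (IsAlgClosed M ∨ algebraMap K M r ∈ unitRing R M)) →
          Sel.IsPlaceOf s k (RingHom.id _) A₀ ψ₀)) ∨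
      (R ≠ ⊥ ∧ ¬ (x ∈ A₀ ∧ x⁻¹ ∈ A₀) ∧
        ∃ E : IntermediateField k (AlgebraicClosure k), FiniteDimensional k E ∧
          Sel.IsPlaceOf s E (RingHom.id _) A₀ ψ₀)) ∧
      (∀ (w : HeightOneSpectrum (𝓞 F))
        (ι : AlgebraicClosure k →ₐ[F] AlgebraicClosure (w.adicCompletion F))
        (A : ValuationSubring M) (φ : A →+* AlgebraicClosure (w.adicCompletion F)),
        Sel.IsPlaceOf s (w.adicCompletion F)
          (ι : _ →+* AlgebraicClosure (w.adicCompletion F)) A φ →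
        (x ∈ A ∧ x⁻¹ ∈ A ↔ x ∈ A₀ ∧ x⁻¹ ∈ A₀)) ∧
      ((IsAlgClosed M ∧ R = ⊥ ∨
          (∀ (τ : Gal(AlgebraicClosure k/k)) (a : F), ∃ b : F, τ (algebraMap F _ a) =
            algebraMap F _ b) ∧
          ∀ z : K, algebraMap K M z ∈ IntermediateField.adjoin F {x, y}) →
        Sel.IsPlaceOf s k (RingHom.id _) A₀ ψ₀ ∧
        ∀ (A₁ : ValuationSubring M) (ψ₁ : A₁ →+* AlgebraicClosure k),
          Sel.IsPlaceOf s k (RingHom.id _) A₁ ψ₁ →
          A₁ = A₀ ∧ ∀ (a : A₁) (b : A₀), (a : M) = b → ψ₁ a = ψ₀ b) := by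
  classical
  rcases hM with hMa | ⟨hfg, hRn, hxR, hxR', hM, hloc⟩
  · exact geo_or_cusp C htr R s hs hsec hfix hx hxy (Or.inl hMa)
  have hM0 : CharZero M := charZero_of_injective_algebraMap (algebraMap k M).injective
  have h2M : (2 : M) ≠ 0 := two_ne_zero
  have hxs : x ∈ fixF s F := fun σ hσ => (hfix σ hσ).1
  have hys : y ∈ fixF s F := fun σ hσ => (hfix σ hσ).2
  have hx0 : x ≠ 0 := by
    rintro rfl
    exact hx 0 (map_zero _).symm
  have hiM2 : algebraMap F M i ^ 2 = -1 := by rw [← map_pow, C.hi, map_neg, map_one]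
  have hiM : algebraMap F M i ≠ 0 := (_root_.map_ne_zero _).2 C.i_ne_zero
  have hdM : algebraMap F M d ≠ 0 := (_root_.map_ne_zero _).2 C.hd
  have hFR : ∀ a : F, IsIntegral R (algebraMap F M a) := fun a => by
    rw [IsScalarTower.algebraMap_apply F (AlgebraicClosure k) M]
    exact Pt.integral_const R _
  have hFA : ∀ {A : ValuationSubring M}, (∀ a : AlgebraicClosure k,
      algebraMap (AlgebraicClosure k) M a ∈ A) → ∀ a : F, algebraMap F M a ∈ A := by
    intro A hA a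
    rw [IsScalarTower.algebraMap_apply F (AlgebraicClosure k) M]
    exact hA _
  obtain ⟨x₁, y₁, h₁s, h₁s', hx₁0, hy₁, hr⟩ := fst_div C R hM s hs hsec hxs hys hx0 hxy
    (fun w => by
      obtain ⟨ι, A, φ, h, -⟩ := hloc w
      exact ⟨ι, A, φ, h⟩)
  -- the coordinate `r`
  obtain ⟨r, hr0, hrR, hrR', hxr, hrx, hrec⟩ : ∃ r : M, r ≠ 0 ∧ IsIntegral R r ∧
      IsIntegral R r⁻¹ ∧ (∀ V : ValuationSubring M, (∀ a : F, algebraMap F M a ∈ V) → x ∈ V →
        x⁻¹ ∈ V → r ∈ V) ∧ (r = x ∨ r = -algebraMap F M d / x) ∧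
      x₁ ^ 2 - algebraMap F M d = 2 * algebraMap F M i * r * x₁ := by
    rcases hr with hr | hr
    · exact ⟨x, hx0, hxR, hxR', fun V _ h _ => h, Or.inl rfl, hr⟩
    · refine ⟨-algebraMap F M d / x, div_ne_zero (neg_ne_zero.2 hdM) hx0, ?_, ?_,
        fun V hV h h' => ?_, Or.inr rfl, hr⟩
      · rw [div_eq_mul_inv]
        exact (hFR d).neg.mul hxR'
      · have h3 : (-algebraMap F M d / x)⁻¹ = algebraMap F M (-d)⁻¹ * x := by
          rw [map_inv₀, map_neg]
          field_simp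
        rw [h3]
        exact (hFR _).mul hxR
      · rw [div_eq_mul_inv]
        exact mul_mem (neg_mem (hV d)) h'
  have hxF : x = r ∨ x = -algebraMap F M d / r := by
    rcases hrx with h | h
    · exact Or.inl h.symm
    · right
      rw [h]
      field_simp
  have hreq : r = (x₁ ^ 2 - algebraMap F M d) / (2 * algebraMap F M i * x₁) := by
    rw [hrec]
    field_simp
  have hx₁ : ∀ c : F, x₁ ≠ algebraMap F M c := by
    intro c hc
    have h3 : r = algebraMap F M ((c ^ 2 - d) / (2 * i * c)) := by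
      rw [hreq, hc, map_div₀, map_sub, map_pow, map_mul, map_mul, map_ofNat]
    rcases hxF with h | h
    · exact hx _ (h.trans h3)
    · apply hx (-d / ((c ^ 2 - d) / (2 * i * c)))
      rw [h, h3, map_div₀ _ (-d), map_neg]
  have hx₁R : IsIntegral R x₁ := by
    refine integral_of_quad (a := 2 * algebraMap F M i * r) (b := algebraMap F M d) ?_ (hFR d) ?_
    · have h3 : (2 : M) * algebraMap F M i = algebraMap F M (2 * i) := by
        rw [map_mul, map_ofNat]
      rw [h3]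
      exact (hFR _).mul hrR
    · linear_combination hrec
  have hx₁R' : IsIntegral R x₁⁻¹ := by
    refine integral_of_quad (a := algebraMap F M (-(2 * i) / d) * r) (b := algebraMap F M d⁻¹)
      ((hFR _).mul hrR) (hFR _) ?_
    rw [map_div₀, map_neg, map_mul, map_ofNat, map_inv₀]
    field_simp
    linear_combination -hrec
  have hy₁2 : y₁ ^ 2 = 2 * algebraMap F M i * r * x₁ ^ 2 := by
    rw [hy₁, C.aeval_eq]
    linear_combination x₁ * hrec
  have hy₁R : IsIntegral R y₁ := by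
    refine IsIntegral.of_pow two_pos ?_
    rw [hy₁2]
    have h3 : (2 : M) * algebraMap F M i = algebraMap F M (2 * i) := by
      rw [map_mul, map_ofNat]
    rw [h3]
    exact ((hFR _).mul hrR).mul (hx₁R.pow 2)
  have hy₁R' : IsIntegral R y₁⁻¹ := by
    refine IsIntegral.of_pow two_pos ?_
    have h3 : y₁⁻¹ ^ 2 = algebraMap F M (2 * i)⁻¹ * r⁻¹ * x₁⁻¹ ^ 2 := by
      rw [inv_pow, hy₁2, map_inv₀, map_mul, map_ofNat, mul_inv, mul_inv, inv_pow]
    rw [h3]
    exact ((hFR _).mul hrR').mul (hx₁R'.pow 2)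
  -- the value of `x₁` determines the kind of the place
  have hval : ∀ (w : HeightOneSpectrum (𝓞 F))
      (ι : AlgebraicClosure k →ₐ[F] AlgebraicClosure (w.adicCompletion F))
      (A : ValuationSubring M) (φ : A →+* AlgebraicClosure (w.adicCompletion F)),
      Sel.IsPlaceOf s (w.adicCompletion F)
        (ι : _ →+* AlgebraicClosure (w.adicCompletion F)) A φ →
      (∃ (e : F) (h : x₁ ∈ A), e ≠ 0 ∧ φ ⟨x₁, h⟩ = ι (algebraMap F _ e)) → x ∈ A ∧ x⁻¹ ∈ A := by
    rintro w ι A φ hφ ⟨e, hA, he0, he⟩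
    have hAF := hFA (fun a => (hφ.1 a).1)
    have hφF : ∀ c : F, φ ⟨_, hAF c⟩ = ι (algebraMap F _ c) := by
      intro c
      obtain ⟨g1, g2⟩ := hφ.1 (algebraMap F _ c)
      refine Eq.trans (congrArg φ (Subtype.ext ?_)) g2
      exact IsScalarTower.algebraMap_apply F (AlgebraicClosure k) M c
    have hA' : x₁⁻¹ ∈ A := hφ.2.1 ⟨x₁, hA⟩ (by
      rw [he, Ne, _root_.map_eq_zero, _root_.map_eq_zero]
      exact he0)
    have hrA : r = (x₁ ^ 2 - algebraMap F M d) * x₁⁻¹ * algebraMap F M (2 * i)⁻¹ := by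
      rw [hreq, map_inv₀, map_mul, map_ofNat]
      field_simp
    have hw : x₁ ^ 2 - algebraMap F M d ∈ A := sub_mem (pow_mem hA 2) (hAF d)
    have hrm : r ∈ A := by
      rw [hrA]
      exact mul_mem (mul_mem hw hA') (hAF _)
    have hw' : (x₁ ^ 2 - algebraMap F M d)⁻¹ ∈ A := by
      refine hφ.2.1 ⟨_, hw⟩ ?_
      have h3 : (⟨_, hw⟩ : A) = ⟨x₁, hA⟩ ^ 2 - ⟨_, hAF d⟩ := rfl
      rw [h3, map_sub, map_pow, he, hφF, ← map_pow, ← map_pow, ← map_sub, ← map_sub, Ne,
        _root_.map_eq_zero, _root_.map_eq_zero, sub_eq_zero]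
      intro h4
      exact C.hns ⟨e, by rw [← h4, pow_two]⟩
    have hrm' : r⁻¹ ∈ A := by
      have h3 : r⁻¹ = (x₁ ^ 2 - algebraMap F M d)⁻¹ * x₁ * algebraMap F M (2 * i) := by
        rw [hrA, map_inv₀, mul_inv, mul_inv, inv_inv, inv_inv]
      rw [h3]
      exact mul_mem (mul_mem hw' hA) (hAF _)
    rcases hxF with h | h
    · rw [h]
      exact ⟨hrm, hrm'⟩
    · rw [h]
      refine ⟨?_, ?_⟩
      · rw [div_eq_mul_inv]
        exact mul_mem (neg_mem (hAF d)) hrm'
      · have h3 : (-algebraMap F M d / r)⁻¹ = algebraMap F M (-d)⁻¹ * r := by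
          rw [map_inv₀, map_neg]
          field_simp
        rw [h3]
        exact mul_mem (hAF _) hrm
  have hdich := over_dich C htr R hfg hRn hM s hs hsec h₁s h₁s' hx₁ hy₁ hx₁R hy₁R hy₁R'
    (fun w => by
      obtain ⟨ι, A, φ, h, -⟩ := hloc w
      exact ⟨ι, A, φ, h⟩)
  obtain ⟨A₀, ψ₀, h1, h2, h3⟩ := geo_or_cusp C htr R s hs hsec (x := x₁) (y := y₁)
    (fun σ hσ => ⟨h₁s σ hσ, h₁s' σ hσ⟩) hx₁ hy₁ (Or.inr ⟨hfg, hRn, hx₁R, hy₁R, hy₁R', hM,
      fun w => by
        obtain ⟨ι, A, φ, h, h'⟩ := hloc w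
        refine ⟨ι, A, φ, h, fun hv => ?_⟩
        obtain ⟨g1, g2⟩ := hval w ι A φ h hv
        exact h' g1 g2⟩)
  have hup : ∀ V : ValuationSubring M, (∀ a : F, algebraMap F M a ∈ V) → x ∈ V ∧ x⁻¹ ∈ V →
      x₁ ∈ V ∧ x₁⁻¹ ∈ V := fun V hV h =>
    val_of_div hV C.hd hx₁0 hrec (hxr V hV h.1 h.2)
  have hA₀F : ∀ a : F, algebraMap F M a ∈ A₀ := by
    rcases h1 with h1 | ⟨-, -, E, -, hE⟩
    · exact hFA fun a => (h1.2.1.1 a).1
    · exact hFA fun a => (hE.1 a).1
  refine ⟨A₀, ψ₀, h1.imp_right fun h => ⟨h.1, fun h4 => h.2.1 (hup A₀ hA₀F h4), h.2.2⟩,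
    fun w ι A φ hφ => ?_, fun hK => h3 ?_⟩
  · have hAF := hFA (fun a => (hφ.1 a).1)
    rcases h1 with h1 | h1
    · have h4 : ∀ z : M, IsIntegral R z → z ∈ A₀ := fun z hz => by
        have htow : IsScalarTower R K M := IsScalarTower.of_algebraMap_eq fun r => rfl
        exact PTAux.mem_of_isIntegral (R := R) h1.1 hz
      refine ⟨fun _ => ⟨h4 _ hxR, h4 _ hxR'⟩, fun _ => ?_⟩
      rcases hdich with ⟨e, he0, he⟩ | ⟨hno, -⟩
      · obtain ⟨g1, g2⟩ := he w ι A φ hφ
        exact hval w ι A φ hφ ⟨e, g1, he0, g2⟩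
      · exact absurd ((h2 w ι A φ hφ).2 ⟨h4 _ hx₁R, h4 _ hx₁R'⟩) (hno w ι A φ hφ)
    · refine ⟨fun h => absurd ((h2 w ι A φ hφ).1 (hup A hAF h)) h1.2.1, fun h =>
        absurd (hup A₀ hA₀F h) h1.2.1⟩
  · refine hK.imp_right fun h => ⟨h.1, fun z => ?_⟩
    refine (IntermediateField.adjoin_le_iff.2 ?_) (h.2 z)
    have hm1 : x₁ ∈ IntermediateField.adjoin F ({x₁, y₁} : Set M) :=
      IntermediateField.subset_adjoin _ _ (by simp)
    have hm2 : y₁ ∈ IntermediateField.adjoin F ({x₁, y₁} : Set M) :=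
      IntermediateField.subset_adjoin _ _ (by simp)
    have hmF : ∀ c : F, algebraMap F M c ∈ IntermediateField.adjoin F ({x₁, y₁} : Set M) :=
      fun c => IntermediateField.algebraMap_mem _ c
    have hmr : r ∈ IntermediateField.adjoin F ({x₁, y₁} : Set M) := by
      have h4 : r = (x₁ ^ 2 - algebraMap F M d) / (algebraMap F M (2 * i) * x₁) := by
        rw [hreq, map_mul, map_ofNat]
      rw [h4]
      exact div_mem (sub_mem (pow_mem hm1 2) (hmF d)) (mul_mem (hmF _) hm1)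
    -- the second coordinate of the multiple
    set b : M := algebraMap F M ((1 + i) / 4) * y₁ * (x₁ ^ 2 + algebraMap F M d) / x₁ ^ 2 with hb
    have hmb : b ∈ IntermediateField.adjoin F ({x₁, y₁} : Set M) :=
      div_mem (mul_mem (mul_mem (hmF _) hm2) (add_mem (pow_mem hm1 2) (hmF d))) (pow_mem hm1 2)
    have hb2 : b ^ 2 = r ^ 3 - algebraMap F M d * r := by
      have h5 : algebraMap F M ((1 + i) / 4) ^ 2 * 8 = algebraMap F M i := by
        have h6 : ((1 + i) / 4) ^ 2 * 8 = i := by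
          linear_combination (1 / 2) * C.hi
        have h16 := congrArg (algebraMap F M) h6
        rw [map_mul, map_pow, map_ofNat] at h16
        exact h16
      have h7 : y₁ ^ 2 = x₁ ^ 3 - algebraMap F M d * x₁ := by rw [hy₁, C.aeval_eq]
      have h8 : b ^ 2 * 8 * x₁ ^ 4 = algebraMap F M i * (x₁ ^ 3 - algebraMap F M d * x₁) *
          (x₁ ^ 2 + algebraMap F M d) ^ 2 := by
        have h13 : b * x₁ ^ 2 = algebraMap F M ((1 + i) / 4) * y₁ *
            (x₁ ^ 2 + algebraMap F M d) := by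
          rw [hb, div_mul_cancel₀ _ (pow_ne_zero 2 hx₁0)]
        have h14 : b ^ 2 * 8 * x₁ ^ 4 = 8 * (b * x₁ ^ 2) ^ 2 := by ring
        rw [h14, h13, mul_pow, mul_pow, h7]
        linear_combination (x₁ ^ 3 - algebraMap F M d * x₁) * (x₁ ^ 2 + algebraMap F M d) ^ 2 * h5
      have h9 : (r ^ 3 - algebraMap F M d * r) * 8 * x₁ ^ 4 =
          algebraMap F M i * (x₁ ^ 3 - algebraMap F M d * x₁) *
          (x₁ ^ 2 + algebraMap F M d) ^ 2 := by
        have h11 : 2 * x₁ * r = -algebraMap F M i * (x₁ ^ 2 - algebraMap F M d) := by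
          linear_combination algebraMap F M i * hrec + 2 * x₁ * r * hiM2
        have h12 : (r ^ 3 - algebraMap F M d * r) * 8 * x₁ ^ 4 =
            x₁ * ((2 * x₁ * r) ^ 3 - 4 * algebraMap F M d * x₁ ^ 2 * (2 * x₁ * r)) := by
          ring
        rw [h12, h11]
        linear_combination (-x₁ * algebraMap F M i * (x₁ ^ 2 - algebraMap F M d) ^ 3) * hiM2
      have h10 : (8 : M) * x₁ ^ 4 ≠ 0 := mul_ne_zero (by norm_num) (pow_ne_zero 4 hx₁0)
      apply mul_right_cancel₀ h10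
      linear_combination h8 - h9
    have hmx : x ∈ IntermediateField.adjoin F ({x₁, y₁} : Set M) := by
      rcases hxF with h4 | h4
      · rw [h4]
        exact hmr
      · rw [h4]
        exact div_mem (neg_mem (hmF d)) hmr
    have hxy' : y ^ 2 = x ^ 3 - algebraMap F M d * x := by rw [hxy, C.aeval_eq]
    have hmy : y ∈ IntermediateField.adjoin F ({x₁, y₁} : Set M) := by
      rcases hxF with h4 | h4
      · have h5 : y ^ 2 = b ^ 2 := by rw [hxy', hb2, h4]
        rcases sq_eq_sq_iff_eq_or_eq_neg.1 h5 with h6 | h6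
        · rw [h6]
          exact hmb
        · rw [h6]
          exact neg_mem hmb
      · have h5 : y ^ 2 = (algebraMap F M d * b / r ^ 2) ^ 2 := by
          have h15 : (algebraMap F M d * b / r ^ 2) ^ 2 =
              algebraMap F M d ^ 2 * b ^ 2 / r ^ 4 := by
            rw [div_pow, mul_pow, ← pow_mul]
          rw [hxy', h4, h15, hb2]
          field_simp
          ring
        rcases sq_eq_sq_iff_eq_or_eq_neg.1 h5 with h6 | h6
        · rw [h6]
          exact div_mem (mul_mem (hmF d) hmb) (pow_mem hmr 2)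
        · rw [h6]
          exact neg_mem (div_mem (mul_mem (hmF d) hmb) (pow_mem hmr 2))
    rintro z (rfl | rfl)
    · exact hmx
    · exact hmy

end Pool.Agent.Lib.MP_2f3286_ag.UA
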