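import Pool.Agent.Lib.MP_2f3286_ag.UA.T1
import Pool.Agent.Lib.MP_2f3286_ag.Top.Kum

/-!
# X1: halves of points over fields closed under unramified square roots

`exists_roots`: the three roots of `X ^ 3 + a₄ X + a₆` in an algebraically closed field (`IsAlgClosed.splits`, or factor twice).
`roots_ne`: the discriminant `-(4 a₄ ^ 3 + 27 a₆ ^ 2) = ((e₁ - e₂) (e₁ - e₃) (e₂ - e₃)) ^ 2` is not zero.
`half_of_sqrt`: with `r i ^ 2 = x - e i`, `r₁ r₂ r₃ = y` the point `T` has `x (T) = x + r₁ r₂ + r₁ r₃ + r₂ r₃`, `y (T) = ± (r₁ + r₂) (r₁ + r₃) (r₂ + r₃)` and the slope of the tangent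
at `T` is `± (r₁ + r₂ + r₃)` (find the sign with `ring`; `x (T) - e₁ = (r₁ + r₂) (r₁ + r₃)`; if `y (T) = 0`, then e.g. `r₁ = - r₂` and `e₁ = e₂`).
`exists_half`: `P = (x, y)`; `x - e i` is zero or has square values: if `V (x - e₁) > 1` all `V (x - e i)` are equal to `V x`, `V x ^ 3 = V y ^ 2`, `V (x - e₁) = V (y / x) ^ 2`;
if `V (x - e₁) < 1`, then `V (x - e₂) = V (x - e₃) = 1`, `V (x - e₁) = V y ^ 2`. The sign of `r₁` is chosen such that `r₁ r₂ r₃ = y`.
-/

open WeierstrassCurve WeierstrassCurve.Affine WeierstrassCurve.Affine.Point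

namespace Pool.Agent.Lib.MP_2f3286_ag.UA

/-- `e₁, e₂, e₃` are the roots of `X ^ 3 + a₄ X + a₆` -/
def IsRoots {F : Type*} [Field F] (W : WeierstrassCurve F) {M : Type*} [Field M] [Algebra F M]
    (e₁ e₂ e₃ : M) : Prop :=
  e₁ + e₂ + e₃ = 0 ∧ algebraMap F M W.a₄ = e₁ * e₂ + e₁ * e₃ + e₂ * e₃ ∧
    algebraMap F M W.a₆ = -(e₁ * e₂ * e₃)

variable {F : Type*} [Field F] (W : WeierstrassCurve F)

theorem exists_roots (kb : Type*) [Field kb] [IsAlgClosed kb] [Algebra F kb] :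
    ∃ e₁ e₂ e₃ : kb, IsRoots W e₁ e₂ e₃ := by
  obtain ⟨e₁, h1⟩ : ∃ e : kb, e ^ 3 + algebraMap F kb W.a₄ * e + algebraMap F kb W.a₆ = 0 := by
    obtain ⟨e, he⟩ := IsAlgClosed.exists_root
      (Polynomial.X ^ 3 + Polynomial.C (algebraMap F kb W.a₄) * Polynomial.X +
        Polynomial.C (algebraMap F kb W.a₆) : Polynomial kb) (by
        have hd : (Polynomial.X ^ 3 + Polynomial.C (algebraMap F kb W.a₄) * Polynomial.X +
          Polynomial.C (algebraMap F kb W.a₆) : Polynomial kb).degree = 3 := by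
          compute_degree!
        rw [hd]
        decide)
    refine ⟨e, ?_⟩
    have := he
    simp only [Polynomial.IsRoot.def, Polynomial.eval_add, Polynomial.eval_mul,
      Polynomial.eval_pow, Polynomial.eval_X, Polynomial.eval_C] at this
    exact this
  obtain ⟨e₂, h2⟩ : ∃ e : kb, e ^ 2 + e₁ * e + (algebraMap F kb W.a₄ + e₁ ^ 2) = 0 := by
    obtain ⟨e, he⟩ := IsAlgClosed.exists_root
      (Polynomial.X ^ 2 + Polynomial.C e₁ * Polynomial.X +
        Polynomial.C (algebraMap F kb W.a₄ + e₁ ^ 2) : Polynomial kb) (by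
        have hd : (Polynomial.X ^ 2 + Polynomial.C e₁ * Polynomial.X +
          Polynomial.C (algebraMap F kb W.a₄ + e₁ ^ 2) : Polynomial kb).degree = 2 := by
          compute_degree!
        rw [hd]
        decide)
    refine ⟨e, ?_⟩
    have := he
    simp only [Polynomial.IsRoot.def, Polynomial.eval_add, Polynomial.eval_mul,
      Polynomial.eval_pow, Polynomial.eval_X, Polynomial.eval_C] at this
    exact this
  refine ⟨e₁, e₂, -e₁ - e₂, by ring, by linear_combination h2, ?_⟩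
  linear_combination h1 - e₁ * h2

variable [W.IsShortNF] [W.IsElliptic] {M : Type*} [Field M] [Algebra F M]

private theorem X1_disc : 4 * (algebraMap F M W.a₄) ^ 3 + 27 * (algebraMap F M W.a₆) ^ 2 ≠ 0 := by
  have h1 : W.Δ ≠ 0 := W.isUnit_Δ.ne_zero
  rw [WeierstrassCurve.Δ_of_isShortNF] at h1
  have h2 : 4 * W.a₄ ^ 3 + 27 * W.a₆ ^ 2 ≠ 0 := fun h => h1 (by rw [h, mul_zero])
  intro h
  apply h2
  apply (algebraMap F M).injective
  rw [_root_.map_zero, ← h]
  simp only [map_add, map_mul, map_pow, map_ofNat]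

omit [W.IsElliptic] in
private theorem X1_a1 : (W⁄M).a₁ = 0 := by
  change algebraMap F M W.a₁ = 0
  rw [a₁_of_isShortNF, _root_.map_zero]

omit [W.IsElliptic] in
private theorem X1_a2 : (W⁄M).a₂ = 0 := by
  change algebraMap F M W.a₂ = 0
  rw [a₂_of_isShortNF, _root_.map_zero]

omit [W.IsElliptic] in
private theorem X1_a3 : (W⁄M).a₃ = 0 := by
  change algebraMap F M W.a₃ = 0
  rw [a₃_of_isShortNF, _root_.map_zero]

omit [W.IsShortNF] [W.IsElliptic] in
private theorem X1_a4 : (W⁄M).a₄ = algebraMap F M W.a₄ := rfl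

omit [W.IsShortNF] [W.IsElliptic] in
private theorem X1_a6 : (W⁄M).a₆ = algebraMap F M W.a₆ := rfl

omit [W.IsElliptic] in
private theorem X1_eq {x y : M} (h : (W⁄M).Nonsingular x y) :
    y ^ 2 = x ^ 3 + algebraMap F M W.a₄ * x + algebraMap F M W.a₆ := by
  have h1 := h.1
  rw [equation_iff, X1_a1, X1_a2, X1_a3, X1_a4, X1_a6] at h1
  linear_combination h1

omit [W.IsElliptic] in
private theorem X1_negY (x y : M) : (W⁄M).negY x y = -y := by
  rw [negY, X1_a1, X1_a3]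
  ring

private theorem X1_disc_eq {e₁ e₂ e₃ : M} (h : IsRoots W e₁ e₂ e₃) :
    4 * (algebraMap F M W.a₄) ^ 3 + 27 * (algebraMap F M W.a₆) ^ 2 =
      -((e₁ - e₂) * (e₁ - e₃) * (e₂ - e₃)) ^ 2 := by
  obtain ⟨h1, h2, h3⟩ := h
  have h4 : e₃ = -e₁ - e₂ := by linear_combination h1
  rw [h2, h3, h4]
  ring

theorem roots_ne (h2 : (2 : M) ≠ 0) {e₁ e₂ e₃ : M} (h : IsRoots W e₁ e₂ e₃) :
    e₁ ≠ e₂ ∧ e₁ ≠ e₃ ∧ e₂ ≠ e₃ := by
  have h3 := X1_disc_eq W h
  have h4 := X1_disc (M := M) W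
  refine ⟨?_, ?_, ?_⟩
  · intro h5
    apply h4
    rw [h3, h5]
    ring
  · intro h5
    apply h4
    rw [h3, h5]
    ring
  · intro h5
    apply h4
    rw [h3, h5]
    ring

variable [DecidableEq M]

/-- halves by square roots -/
theorem half_of_sqrt (h2 : (2 : M) ≠ 0) {e₁ e₂ e₃ : M} (he : IsRoots W e₁ e₂ e₃)
    {x y r₁ r₂ r₃ : M} (h : (W⁄M).Nonsingular x y) (h₁ : r₁ ^ 2 = x - e₁) (h₂ : r₂ ^ 2 = x - e₂)
    (h₃ : r₃ ^ 2 = x - e₃) (hy : r₁ * r₂ * r₃ = y) :
    ∃ T : (W⁄M).Point, (2 : ℕ) • T = some x y h := by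
  obtain ⟨n12, n13, n23⟩ := roots_ne W h2 he
  obtain ⟨s0, s4, s6⟩ := he
  have k12 : r₁ + r₂ ≠ 0 := by
    intro h0
    apply n12
    linear_combination -(r₁ - r₂) * h0 + h₁ - h₂
  have k13 : r₁ + r₃ ≠ 0 := by
    intro h0
    apply n13
    linear_combination -(r₁ - r₃) * h0 + h₁ - h₃
  have k23 : r₂ + r₃ ≠ 0 := by
    intro h0
    apply n23
    linear_combination -(r₂ - r₃) * h0 + h₂ - h₃
  obtain ⟨X, hX⟩ : ∃ X : M, X = x + r₁ * r₂ + r₁ * r₃ + r₂ * r₃ := ⟨_, rfl⟩
  obtain ⟨Y, hY⟩ : ∃ Y : M, Y = (r₁ + r₂) * (r₁ + r₃) * (r₂ + r₃) := ⟨_, rfl⟩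
  have hY0 : 2 * Y ≠ 0 := by
    rw [hY]
    exact mul_ne_zero h2 (mul_ne_zero (mul_ne_zero k12 k13) k23)
  have g1 : X - e₁ = (r₁ + r₂) * (r₁ + r₃) := by
    rw [hX]
    linear_combination -h₁
  have g2 : X - e₂ = (r₁ + r₂) * (r₂ + r₃) := by
    rw [hX]
    linear_combination -h₂
  have g3 : X - e₃ = (r₁ + r₃) * (r₂ + r₃) := by
    rw [hX]
    linear_combination -h₃
  have hcub : X ^ 3 + algebraMap F M W.a₄ * X + algebraMap F M W.a₆ =
      (X - e₁) * (X - e₂) * (X - e₃) := by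
    rw [s4, s6]
    linear_combination X ^ 2 * s0
  have heq : Y ^ 2 = X ^ 3 + algebraMap F M W.a₄ * X + algebraMap F M W.a₆ := by
    rw [hcub, g1, g2, g3, hY]
    ring
  have hder : 3 * X ^ 2 + algebraMap F M W.a₄ =
      (X - e₁) * (X - e₂) + (X - e₁) * (X - e₃) + (X - e₂) * (X - e₃) := by
    rw [s4]
    linear_combination 2 * X * s0
  have hsl : 3 * X ^ 2 + algebraMap F M W.a₄ = (r₁ + r₂ + r₃) * (2 * Y) := by
    rw [hder, g1, g2, g3, hY]
    ring
  have hN : (W⁄M).Nonsingular X Y := by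
    rw [nonsingular_iff, equation_iff, X1_a1, X1_a2, X1_a3, X1_a4, X1_a6]
    refine ⟨by linear_combination heq, Or.inr ?_⟩
    intro h0
    apply hY0
    linear_combination h0
  have hne : Y ≠ (W⁄M).negY X Y := by
    intro h0
    apply hY0
    rw [X1_negY] at h0
    linear_combination h0
  have hs : (W⁄M).slope X X Y Y = r₁ + r₂ + r₃ := by
    rw [slope_of_Y_ne rfl hne, X1_negY, X1_a1, X1_a2, X1_a4]
    rw [div_eq_iff (by intro h0; apply hY0; linear_combination h0)]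
    linear_combination hsl
  have hXX : (W⁄M).addX X X ((W⁄M).slope X X Y Y) = x := by
    rw [hs, addX, X1_a1, X1_a2, hX]
    linear_combination h₁ + h₂ + h₃ - s0
  have hYY : (W⁄M).addY X X Y ((W⁄M).slope X X Y Y) = y := by
    rw [addY, negAddY, hXX, hs, X1_negY, hY, hX, ← hy]
    ring
  refine ⟨some X Y hN, ?_⟩
  rw [two_nsmul, add_self_of_Y_ne hne]
  simp only [Point.some.injEq]
  exact ⟨hXX, hYY⟩

omit [W.IsElliptic] [DecidableEq M] in
private theorem X1_sq {kb : Type*} [Field kb] [Algebra F kb] [Algebra kb M]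
    (𝒱 : Set (ValuationSubring M))
    (h𝒱 : ∀ V ∈ 𝒱, ∀ a : kb, algebraMap kb M a ∈ V)
    (hrad : ∀ ρ : M, ρ ≠ 0 →
      (∀ V ∈ 𝒱, ∃ y : M, y ≠ 0 ∧ V.valuation ρ = V.valuation y ^ 2) → ∃ β : M, β ^ 2 = ρ)
    {a b c : kb} (hab : a ≠ b) (hac : a ≠ c) {x y : M}
    (hxy : (x - algebraMap kb M a) * (x - algebraMap kb M b) * (x - algebraMap kb M c) = y ^ 2) :
    ∃ r : M, r ^ 2 = x - algebraMap kb M a := by
  have hunit : ∀ V ∈ 𝒱, ∀ u v : kb, u ≠ v →
      V.valuation (algebraMap kb M u - algebraMap kb M v) = 1 := by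
    intro V hV u v huv
    have h0 : u - v ≠ 0 := sub_ne_zero.2 huv
    have h1 : V.valuation (algebraMap kb M (u - v)) ≤ 1 :=
      (V.valuation_le_one_iff _).2 (h𝒱 V hV _)
    have h2 : V.valuation (algebraMap kb M (u - v)⁻¹) ≤ 1 :=
      (V.valuation_le_one_iff _).2 (h𝒱 V hV _)
    rw [map_inv₀, map_inv₀] at h2
    rw [← map_sub]
    have h3 : V.valuation (algebraMap kb M (u - v)) ≠ 0 := by
      rw [Valuation.ne_zero_iff]
      exact (map_ne_zero _).2 h0
    refine le_antisymm h1 ?_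
    exact (inv_le_one₀ (zero_lt_iff.2 h3)).1 h2
  by_cases hx : x - algebraMap kb M a = 0
  · exact ⟨0, by rw [hx]; ring⟩
  refine hrad _ hx ?_
  intro V hV
  have hab' := hunit V hV a b hab
  have hac' := hunit V hV a c hac
  have hb : x - algebraMap kb M b = (x - algebraMap kb M a) +
    (algebraMap kb M a - algebraMap kb M b) := by ring
  have hc : x - algebraMap kb M c = (x - algebraMap kb M a) +
    (algebraMap kb M a - algebraMap kb M c) := by ring
  rcases lt_trichotomy (V.valuation (x - algebraMap kb M a)) 1 with hlt | heq | hgt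
  · have hb' : V.valuation (x - algebraMap kb M b) = 1 := by
      have h5 : V.valuation (x - algebraMap kb M a) <
        V.valuation (algebraMap kb M a - algebraMap kb M b) := by rw [hab']; exact hlt
      rw [hb, Valuation.map_add_eq_of_lt_right _ h5, hab']
    have hc' : V.valuation (x - algebraMap kb M c) = 1 := by
      have h5 : V.valuation (x - algebraMap kb M a) <
        V.valuation (algebraMap kb M a - algebraMap kb M c) := by rw [hac']; exact hlt
      rw [hc, Valuation.map_add_eq_of_lt_right _ h5, hac']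
    have hv := congrArg V.valuation hxy
    rw [map_mul, map_mul, map_pow, hb', hc', mul_one, mul_one] at hv
    refine ⟨y, ?_, hv⟩
    intro hy
    rw [hy, _root_.map_zero, zero_pow two_ne_zero] at hv
    exact hx ((Valuation.zero_iff _).1 hv)
  · exact ⟨1, one_ne_zero, by rw [heq, _root_.map_one, one_pow]⟩
  · have hb' : V.valuation (x - algebraMap kb M b) = V.valuation (x - algebraMap kb M a) := by
      have h5 : V.valuation (algebraMap kb M a - algebraMap kb M b) <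
        V.valuation (x - algebraMap kb M a) := by rw [hab']; exact hgt
      rw [hb, Valuation.map_add_eq_of_lt_left _ h5]
    have hc' : V.valuation (x - algebraMap kb M c) = V.valuation (x - algebraMap kb M a) := by
      have h5 : V.valuation (algebraMap kb M a - algebraMap kb M c) <
        V.valuation (x - algebraMap kb M a) := by rw [hac']; exact hgt
      rw [hc, Valuation.map_add_eq_of_lt_left _ h5]
    have hv := congrArg V.valuation hxy
    rw [map_mul, map_mul, map_pow, hb', hc'] at hv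
    have h0 : V.valuation (x - algebraMap kb M a) ≠ 0 := by
      rw [Valuation.ne_zero_iff]
      exact hx
    refine ⟨y / (x - algebraMap kb M a), ?_, ?_⟩
    · intro hy
      have hy' : y = 0 := by
        rcases div_eq_zero_iff.1 hy with h | h
        · exact h
        · exact absurd h hx
      rw [hy', _root_.map_zero, zero_pow two_ne_zero] at hv
      exact h0 (by
        rcases mul_eq_zero.1 hv with h | h
        · rcases mul_eq_zero.1 h with h | h <;> exact h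
        · exact h)
    · rw [map_div₀, div_pow, ← hv, eq_div_iff (pow_ne_zero 2 h0), pow_two, mul_assoc]

/-- **Points have halves** over a field closed under unramified square roots. -/
theorem exists_half (h2 : (2 : M) ≠ 0) {kb : Type*} [Field kb] [IsAlgClosed kb] [Algebra F kb]
    [Algebra kb M] [IsScalarTower F kb M] (𝒱 : Set (ValuationSubring M))
    (h𝒱 : ∀ V ∈ 𝒱, ∀ a : kb, algebraMap kb M a ∈ V)
    (hrad : ∀ ρ : M, ρ ≠ 0 →
      (∀ V ∈ 𝒱, ∃ y : M, y ≠ 0 ∧ V.valuation ρ = V.valuation y ^ 2) → ∃ β : M, β ^ 2 = ρ)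
    (P : (W⁄M).Point) : ∃ T : (W⁄M).Point, (2 : ℕ) • T = P := by
  rcases P with _ | ⟨x, y, h⟩
  · exact ⟨0, smul_zero _⟩
  obtain ⟨e₁, e₂, e₃, he⟩ := exists_roots W kb
  obtain ⟨s0, s4, s6⟩ := he
  have heM : IsRoots W (algebraMap kb M e₁) (algebraMap kb M e₂) (algebraMap kb M e₃) := by
    refine ⟨?_, ?_, ?_⟩
    · rw [← map_add, ← map_add, s0, _root_.map_zero]
    · rw [IsScalarTower.algebraMap_apply F kb M, s4]
      simp only [map_add, map_mul]
    · rw [IsScalarTower.algebraMap_apply F kb M, s6]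
      simp only [map_neg, map_mul]
  obtain ⟨n12, n13, n23⟩ := roots_ne W h2 heM
  have m12 : e₁ ≠ e₂ := fun h => n12 (by rw [h])
  have m13 : e₁ ≠ e₃ := fun h => n13 (by rw [h])
  have m23 : e₂ ≠ e₃ := fun h => n23 (by rw [h])
  have heq := X1_eq W h
  have hprod : (x - algebraMap kb M e₁) * (x - algebraMap kb M e₂) * (x - algebraMap kb M e₃) =
      y ^ 2 := by
    obtain ⟨t0, t4, t6⟩ := heM
    rw [heq, t4, t6]
    linear_combination -x ^ 2 * t0
  obtain ⟨r₁, hr₁⟩ := X1_sq (F := F) 𝒱 h𝒱 hrad m12 m13 hprod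
  obtain ⟨r₂, hr₂⟩ := X1_sq (F := F) (x := x) (y := y) 𝒱 h𝒱 hrad (a := e₂) (b := e₁) (c := e₃)
    m12.symm m23 (by rw [← hprod]; ring)
  obtain ⟨r₃, hr₃⟩ := X1_sq (F := F) (x := x) (y := y) 𝒱 h𝒱 hrad (a := e₃) (b := e₁) (c := e₂)
    m13.symm m23.symm (by rw [← hprod]; ring)
  have hsq : (r₁ * r₂ * r₃) ^ 2 = y ^ 2 := by
    rw [← hprod, ← hr₁, ← hr₂, ← hr₃]
    ring
  rcases sq_eq_sq_iff_eq_or_eq_neg.1 hsq with hy | hy
  · exact half_of_sqrt W h2 heM h hr₁ hr₂ hr₃ hy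
  · exact half_of_sqrt W h2 heM (r₁ := -r₁) h (by rw [← hr₁]; ring) hr₂ hr₃
      (by linear_combination -hy)

/-- points are divisible by powers of two -/
theorem exists_div_two_pow (h2 : (2 : M) ≠ 0) {kb : Type*} [Field kb] [IsAlgClosed kb]
    [Algebra F kb] [Algebra kb M] [IsScalarTower F kb M] (𝒱 : Set (ValuationSubring M))
    (h𝒱 : ∀ V ∈ 𝒱, ∀ a : kb, algebraMap kb M a ∈ V)
    (hrad : ∀ ρ : M, ρ ≠ 0 →
      (∀ V ∈ 𝒱, ∃ y : M, y ≠ 0 ∧ V.valuation ρ = V.valuation y ^ 2) → ∃ β : M, β ^ 2 = ρ)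
    (n : ℕ) (P : (W⁄M).Point) : ∃ T : (W⁄M).Point, 2 ^ n • T = P := by
  induction n generalizing P with
  | zero => exact ⟨P, by rw [pow_zero, one_smul]⟩
  | succ n ih =>
    obtain ⟨Q, hQ⟩ := exists_half W h2 𝒱 h𝒱 hrad P
    obtain ⟨T, hT⟩ := ih Q
    exact ⟨T, by rw [pow_succ', mul_smul, hT, hQ]⟩

end Pool.Agent.Lib.MP_2f3286_ag.UA
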