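import Pool.Agent.Lib.MP_2f3286_ag.UA.T7

/-!
# X2: compatible halves, general form

`exists_class_two'`: copy of `exists_class_two` (T7), where only the divisions by powers of `2` are used (the proof of T7 uses `hdiv (2 ^ n * 2 ^ j)`). It gives a torsion point `R₀`;
write `R₀ = R + D` with `2 ^ m • R = 0` and `D` of odd order: `D` is `2 ^ n` times a point of `W(k)` for every `n`, so `R` is also a class (`Top.IsClass.congr`).
`exists_halves_gen`: as `exists_halves` (T7), with `exists_class_two'`; `seq_of_div` in the additive subgroup of fixed points.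
-/

open WeierstrassCurve WeierstrassCurve.Affine WeierstrassCurve.Affine.Point
open IsDedekindDomain NumberField
open Pool.Agent.Lib.MP_2f3286_ag

namespace Pool.Agent.Lib.MP_2f3286_ag.UA

/-- the component of `2`-power order -/
private theorem two_part {A : Type*} [AddCommGroup A] (R : A) (h : IsOfFinAddOrder R) :
    ∃ R' : A, (∃ m : ℕ, 2 ^ m • R' = 0) ∧ ∀ n : ℕ, ∃ D : A, R' - R = 2 ^ n • D := by
  obtain ⟨N, hN, hR⟩ := (isOfFinAddOrder_iff_nsmul_eq_zero).1 h
  obtain ⟨m, q, hq, rfl⟩ := Nat.exists_eq_two_pow_mul_odd hN.ne'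
  have hcop : ∀ n : ℕ, IsCoprime ((2 : ℤ) ^ n) (q : ℤ) := by
    intro n
    have h1 := (Nat.isCoprime_iff_coprime (m := 2 ^ n) (n := q)).2
      ((Nat.coprime_two_left.2 hq).pow_left n)
    push_cast at h1
    exact h1
  have hz : ∀ z : ℤ, (z * (2 ^ m * q)) • R = 0 := by
    intro z
    rw [mul_smul]
    have h1 : ((2 ^ m * q : ℤ)) • R = 0 := by
      have h2 : ((2 ^ m * q : ℕ) : ℤ) • R = 0 := by rw [natCast_zsmul, hR]
      push_cast at h2
      exact h2
    rw [h1, smul_zero]
  obtain ⟨u, v, huv⟩ := hcop m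
  refine ⟨(v * q : ℤ) • R, ⟨m, ?_⟩, fun n => ?_⟩
  · rw [← natCast_zsmul, smul_smul]
    have h1 : (((2 ^ m : ℕ) : ℤ) * (v * q)) = v * (2 ^ m * q) := by
      push_cast
      ring
    rw [h1, hz]
  · obtain ⟨a, b, hab⟩ := hcop n
    refine ⟨(-(a * (u * 2 ^ m)) : ℤ) • R, ?_⟩
    rw [← natCast_zsmul, smul_smul]
    have h1 : (((2 ^ n : ℕ) : ℤ) * (-(a * (u * 2 ^ m)))) = (v * q - 1) + (b * u) * (2 ^ m * q) := by
      push_cast
      linear_combination (-(u * 2 ^ m) : ℤ) * hab - huv
    rw [h1, add_smul, hz, add_zero, sub_smul, one_smul]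

open scoped Classical in
private theorem two_tors_finite₂ {k M : Type*} [Field k] [Field M] [CharZero M] [Algebra k M]
    (W : WeierstrassCurve k) [W.IsShortNF] : {a : (W⁄M).Point | (2 : ℕ) • a = 0}.Finite := by
  have h1 : (W⁄M).a₁ = 0 := by
    show algebraMap k M W.a₁ = 0
    rw [W.a₁_of_isShortNF, _root_.map_zero]
  have h3 : (W⁄M).a₃ = 0 := by
    show algebraMap k M W.a₃ = 0
    rw [W.a₃_of_isShortNF, _root_.map_zero]
  have h2 : (W⁄M).a₂ = 0 := by
    show algebraMap k M W.a₂ = 0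
    rw [W.a₂_of_isShortNF, _root_.map_zero]
  let p : Polynomial M := Polynomial.X ^ 3 + (Polynomial.C (W⁄M).a₄ * Polynomial.X +
    Polynomial.C (W⁄M).a₆)
  have hp : p ≠ 0 := by
    refine Polynomial.Monic.ne_zero ?_
    refine Polynomial.monic_X_pow_add ?_
    refine lt_of_le_of_lt (Polynomial.degree_linear_le) ?_
    norm_num
  have hfin : (⋃ x ∈ {x | p.IsRoot x},
      {P : (W⁄M).Point | ∃ h, P = Point.some x 0 h}).Finite := by
    refine (Polynomial.finite_setOfPred_isRoot hp).biUnion fun x _ => ?_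
    refine Set.Subsingleton.finite ?_
    rintro P ⟨h, rfl⟩ Q ⟨h', rfl⟩
    rfl
  refine (hfin.insert (0 : (W⁄M).Point)).subset ?_
  intro P hP
  rcases P with _ | ⟨x, y, h⟩
  · exact Set.mem_insert _ _
  · refine Set.mem_insert_of_mem _ ?_
    rw [Set.mem_ofPred_eq, two_nsmul] at hP
    have h4 := eq_neg_of_add_eq_zero_left hP
    rw [neg_some] at h4
    have h5 : y = (W⁄M).negY x y := (Point.some.inj h4).2
    rw [negY, h1, h3] at h5
    have h6 : y = 0 := by
      have : 2 * y = 0 := by linear_combination h5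
      simpa using this
    subst h6
    have h7 := (equation_iff _ _).1 h.1
    rw [h1, h2, h3] at h7
    refine Set.mem_biUnion (x := x) ?_ ⟨h, rfl⟩
    show p.eval x = 0
    simp only [p, Polynomial.eval_add, Polynomial.eval_pow, Polynomial.eval_X, Polynomial.eval_mul,
      Polynomial.eval_C]
    linear_combination -h7

variable {k : Type*} [Field k] [NumberField k] {K M : Type*} [Field K] [Field M] [Algebra K M]
  [Algebra (AlgebraicClosure k) M] {s : Gal(AlgebraicClosure k/k) →* Gal(M/K)}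
  [Algebra k K] [Algebra k M] [IsScalarTower k K M] [IsScalarTower k (AlgebraicClosure k) M]

open Pool.Agent.Lib.MP_2f3286_ag.Top (LocalPoint IsClass kummer_class) in
open scoped Classical in
/-- one rational point of 2-power order for all classes modulo powers of `2` -/
theorem exists_class_two' (W : WeierstrassCurve k) [W.IsElliptic] [Algebra.IsAlgebraic K M]
    (hs : Continuous s)
    (hsec : ∀ σ a, s σ (algebraMap (AlgebraicClosure k) M a) =
      algebraMap (AlgebraicClosure k) M (σ a))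
    (x : ∀ v : HeightOneSpectrum (𝓞 k), LocalPoint s v)
    (hrk : ∀ Q : (W⁄k).Point, IsOfFinAddOrder Q)
    {j : ℕ} (hsha : ShaTwoKilledBy W j) (η : (W⁄K).Point)
    (hdiv : ∀ n : ℕ, ∃ T : (W⁄M).Point, 2 ^ n • T = baseChange K M η) :
    ∃ R : (W⁄k).Point, (∃ m : ℕ, 2 ^ m • R = 0) ∧ ∀ n : ℕ, IsClass s W (2 ^ n) η R := by
  -- one level
  have hone : ∀ n : ℕ, ∃ R : (W⁄k).Point, IsClass s W (2 ^ n) η R := by
    intro n
    obtain ⟨T, hT⟩ := hdiv (n + j)
    rw [pow_add] at hT
    obtain ⟨c, hc1, hc2, hc3⟩ := Koe.exists_cocycle₀ s hs hsec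
      (Nat.mul_pos (by positivity) (by positivity)) η T hT
    obtain ⟨e, he⟩ := hsha c hc3 hc2 (by
        refine ⟨n + j, fun σ => ?_⟩
        apply Top.bc_injective (W := W) (AlgebraicClosure k) M
        rw [map_nsmul, hc1, pow_add, smul_sub, ← map_nsmul, hT, _root_.map_zero, sub_eq_zero]
        exact Top.act_baseChange (s σ) η) (by
      intro v
      refine ⟨(x v).ι, (x v).isPlaceOf.val s T, fun σ τ h => ?_⟩
      rw [← (x v).isPlaceOf.val_const s, hc1, map_sub, (x v).isPlaceOf.val_act s σ τ h])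
    exact kummer_class s hsec η T hT c hc1 e he
  have hfin : Finite (W⁄k).Point := by
    have h := Top.torsion_finite (W := (W⁄k))
    rw [Set.eq_univ_of_forall (s := {t : (W⁄k).Point | IsOfFinAddOrder t}) hrk] at h
    exact Set.finite_univ_iff.mp h
  have hall : ∃ R : (W⁄k).Point, ∀ n : ℕ, IsClass s W (2 ^ n) η R := by
    by_contra hcon
    push Not at hcon
    choose N hN using hcon
    have := Fintype.ofFinite (W⁄k).Point
    obtain ⟨R, hR⟩ := hone (∑ R : (W⁄k).Point, N R)
    have hle : N R ≤ ∑ R : (W⁄k).Point, N R :=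
      Finset.single_le_sum (fun _ _ => Nat.zero_le _) (Finset.mem_univ R)
    rw [← Nat.add_sub_cancel' hle, pow_add] at hR
    exact hN R (Top.IsClass.of_mul s hR)
  obtain ⟨R, hR⟩ := hall
  obtain ⟨R', hR', hD⟩ := two_part R (hrk R)
  refine ⟨R', hR', fun n => ?_⟩
  obtain ⟨D, hD⟩ := hD n
  exact Top.IsClass.congr s (hR n) hD

open scoped Classical in
/-- **Compatible halves, fixed by the section.** -/
theorem exists_halves_gen (W : WeierstrassCurve k) [W.IsShortNF] [W.IsElliptic]
    [Algebra.IsAlgebraic K M] (hs : Continuous s)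
    (hsec : ∀ σ a, s σ (algebraMap (AlgebraicClosure k) M a) =
      algebraMap (AlgebraicClosure k) M (σ a))
    (hloc : ∀ v : HeightOneSpectrum (𝓞 k),
      ∃ (ι : AlgebraicClosure k →ₐ[k] AlgebraicClosure (v.adicCompletion k))
        (A : ValuationSubring M) (φ : A →+* AlgebraicClosure (v.adicCompletion k)),
        Sel.IsPlaceOf s (v.adicCompletion k)
          (ι : _ →+* AlgebraicClosure (v.adicCompletion k)) A φ)
    (hrk : ∀ Q : (W⁄k).Point, IsOfFinAddOrder Q)
    {j : ℕ} (hsha : ShaTwoKilledBy W j) (η : (W⁄K).Point)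
    (hdiv : ∀ n : ℕ, ∃ T : (W⁄M).Point, 2 ^ n • T = baseChange K M η) :
    ∃ (Q : (W⁄k).Point) (ζ : ℕ → (W⁄M).Point), (∃ m : ℕ, 2 ^ m • Q = 0) ∧
      (∀ n σ, Top.act W (s σ) (ζ n) = ζ n) ∧ (∀ n, (2 : ℕ) • ζ (n + 1) = ζ n) ∧
      ζ 0 = baseChange K M η - baseChange k M Q := by
  choose ι A φ hφ using hloc
  obtain ⟨R, hR0, hR⟩ := exists_class_two' W hs hsec
    (fun v => Top.LocalPoint.ofPlace (ι v) (A v) (φ v) (hφ v)) hrk hsha η hdiv
  have hM : CharZero M := charZero_of_injective_algebraMap (algebraMap k M).injective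
  let G : AddSubgroup (W⁄M).Point :=
    { carrier := {ζ | ∀ σ, Top.act W (s σ) ζ = ζ}
      zero_mem' := fun σ => _root_.map_zero _
      add_mem' := by
        intro a b ha hb σ
        rw [map_add, ha, hb]
      neg_mem' := by
        intro a ha σ
        rw [map_neg, ha] }
  have hθ : baseChange K M η - baseChange k M R ∈ G := by
    intro σ
    rw [map_sub, Top.act_baseChange, ← Top.bc_bc (F := K) (L := M), Top.act_baseChange]
  have hfin : {a : G | (2 : ℕ) • a = 0}.Finite := by
    refine Set.Finite.of_finite_image ((two_tors_finite₂ (M := M) W).subset ?_)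
      (Subtype.val_injective.injOn)
    rintro _ ⟨a, ha, rfl⟩
    have := congrArg (Subtype.val : G → _) ha
    exact this
  obtain ⟨ζ, h0, h1⟩ := seq_of_div hfin ⟨_, hθ⟩ (by
    intro n
    obtain ⟨z, hz1, hz2⟩ := hR n
    exact ⟨⟨z, hz1⟩, Subtype.ext hz2⟩)
  refine ⟨R, fun n => (ζ n : (W⁄M).Point), hR0, fun n σ => (ζ n).2 σ, fun n => ?_, ?_⟩
  · exact congrArg (Subtype.val : G → _) (h1 n)
  · show ((ζ 0 : G) : (W⁄M).Point) = _
    rw [h0]

end Pool.Agent.Lib.MP_2f3286_ag.UA
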