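import Pool.Agent.Lib.MP_2f3286_ag.UA.T6

/-!
# X3: the orbit of the duplication consists of units

`dbl_unit`: `4 r r' (r' ^ 2 + α r' + β) = (r' ^ 2 - β) ^ 2`, `V r ≤ 1`: if `V r' < 1` the value of the right side is `1`, that of the left side `< 1`; if `V r' > 1` the value of the
right side is `V r' ^ 4`, that of the left side at most `V r' ^ 3`.
`x_sub_mem`: the `x`-coordinate of `(x, y) - (a, b)` is `((y + b) / (x - a)) ^ 2 - x - a` (`x ≠ a`; if `x = a` the hypothesis on the inverse says nothing: it is excluded by `hne`).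
-/

open WeierstrassCurve WeierstrassCurve.Affine WeierstrassCurve.Affine.Point

namespace Pool.Agent.Lib.MP_2f3286_ag.UA

theorem dbl_unit {M : Type*} [Field M] (V : ValuationSubring M) {α β r r' : M} (hα : α ∈ V)
    (hβ : V.valuation β = 1) (h : Dbl α β r r') (hr : r ∈ V) : V.valuation r' = 1 := by
  have hr1 : V.valuation r ≤ 1 := (V.valuation_le_one_iff r).2 hr
  have hα1 : V.valuation α ≤ 1 := (V.valuation_le_one_iff α).2 hα
  have h41 : V.valuation (4 : M) ≤ 1 := by
    rw [V.valuation_le_one_iff]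
    exact_mod_cast natCast_mem V 4
  have hv := congrArg V.valuation h
  rw [map_mul, map_mul, map_mul, map_pow] at hv
  rcases lt_trichotomy (V.valuation r') 1 with hlt | heq | hgt
  · exfalso
    have h1 : V.valuation (r' ^ 2) < V.valuation β := by
      rw [hβ, map_pow]
      exact pow_lt_one₀ zero_le hlt two_ne_zero
    have h2 : V.valuation (r' ^ 2 - β) = 1 := by
      rw [Valuation.map_sub_eq_of_lt_right _ h1, hβ]
    rw [h2, one_pow] at hv
    have h3 : V.valuation (r' ^ 2 + α * r' + β) ≤ 1 := by
      refine (V.valuation.map_add _ _).trans (max_le ?_ hβ.le)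
      refine (V.valuation.map_add _ _).trans (max_le ?_ ?_)
      · rw [map_pow]
        exact pow_le_one₀ zero_le hlt.le
      · rw [map_mul]
        exact mul_le_one' hα1 hlt.le
    have h4 : V.valuation 4 * V.valuation r * V.valuation r' *
        V.valuation (r' ^ 2 + α * r' + β) < 1 := by
      calc _ ≤ 1 * 1 * V.valuation r' * 1 := by gcongr
        _ = V.valuation r' := by rw [mul_one, one_mul, one_mul]
        _ < 1 := hlt
    exact absurd hv h4.ne
  · exact heq
  · exfalso
    have hpos : 0 < V.valuation r' := lt_trans one_pos hgt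
    have h0 : V.valuation (r' ^ 2) = V.valuation r' ^ 2 := map_pow _ _ _
    have hle : V.valuation r' ≤ V.valuation r' ^ 2 := by
      calc V.valuation r' = V.valuation r' ^ 1 := (pow_one _).symm
        _ ≤ V.valuation r' ^ 2 := pow_le_pow_right₀ hgt.le one_le_two
    have h1 : V.valuation β < V.valuation (r' ^ 2) := by
      rw [hβ, h0]
      exact one_lt_pow₀ hgt two_ne_zero
    have h2 : V.valuation (r' ^ 2 - β) = V.valuation r' ^ 2 := by
      rw [Valuation.map_sub_eq_of_lt_left _ h1, h0]
    rw [h2] at hv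
    have h3 : V.valuation (r' ^ 2 + α * r' + β) ≤ V.valuation r' ^ 2 := by
      refine (V.valuation.map_add _ _).trans (max_le ?_ ?_)
      · refine (V.valuation.map_add _ _).trans (max_le h0.le ?_)
        rw [map_mul]
        exact (mul_le_of_le_one_left' hα1).trans hle
      · rw [hβ]
        exact one_le_pow₀ hgt.le
    have h4 : V.valuation 4 * V.valuation r * V.valuation r' *
        V.valuation (r' ^ 2 + α * r' + β) ≤ V.valuation r' ^ 3 := by
      calc _ ≤ 1 * 1 * V.valuation r' * V.valuation r' ^ 2 := by gcongr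
        _ = V.valuation r' ^ 3 := by rw [one_mul, one_mul, ← pow_succ']
    rw [hv, ← pow_mul] at h4
    exact absurd h4 (not_le.2 (pow_lt_pow_right₀ hgt (by norm_num)))

theorem orbit_unit {M : Type*} [Field M] (V : ValuationSubring M) {α β : M} (hα : α ∈ V)
    (hβ : V.valuation β = 1) {a : ℕ → M} (ha : ∀ n, Dbl α β (a n) (a (n + 1))) (h0 : a 0 ∈ V)
    (n : ℕ) : V.valuation (a (n + 1)) = 1 := by
  have hmem : ∀ n, a n ∈ V := by
    intro n
    induction n with
    | zero => exact h0
    | succ n ih =>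
      rw [← V.valuation_le_one_iff]
      exact (dbl_unit V hα hβ (ha n) ih).le
  exact dbl_unit V hα hβ (ha n) (hmem n)

/-- the difference of a point and a constant point -/
theorem x_sub_mem {F : Type*} [Field F] (W : WeierstrassCurve F) [W.IsShortNF] {M : Type*}
    [Field M] [Algebra F M] [DecidableEq M] [DecidableEq F] (V : ValuationSubring M)
    (hV : ∀ a : F, algebraMap F M a ∈ V) {x y x₀ y₀ : M} (h : (W⁄M).Nonsingular x y)
    (h₀ : (W⁄M).Nonsingular x₀ y₀) (hx : x ∈ V) (Q : (W⁄F).Point)
    (hne : ∀ a b h', Q = some a b h' → x ≠ algebraMap F M a ∧ (x - algebraMap F M a)⁻¹ ∈ V)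
    (hd : some x y h - baseChange F M Q = some x₀ y₀ h₀) : x₀ ∈ V := by
  have a1 : (W⁄M).a₁ = 0 := by
    change algebraMap F M W.a₁ = 0
    rw [a₁_of_isShortNF, _root_.map_zero]
  have a2 : (W⁄M).a₂ = 0 := by
    change algebraMap F M W.a₂ = 0
    rw [a₂_of_isShortNF, _root_.map_zero]
  have a3 : (W⁄M).a₃ = 0 := by
    change algebraMap F M W.a₃ = 0
    rw [a₃_of_isShortNF, _root_.map_zero]
  rcases Q with _ | ⟨a, b, h'⟩
  · have h1 : some x y h - baseChange F M (0 : (W⁄F).Point) = some x₀ y₀ h₀ := hd
    rw [_root_.map_zero, sub_zero, some.injEq] at h1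
    rw [← h1.1]
    exact hx
  · obtain ⟨hxa, hinv⟩ := hne a b h' rfl
    have hQ : baseChange F M (some a b h' : (W⁄F).Point) =
        some (algebraMap F M a) (algebraMap F M b)
          ((Affine.baseChange_nonsingular W (Algebra.ofId F M).injective a b).mpr h') := rfl
    rw [hQ, sub_eq_add_neg, neg_some, add_of_X_ne hxa, some.injEq] at hd
    have hy : y ∈ V := by
      have h1 := (equation_iff (W := (W⁄M)) _ _).1 h.1
      rw [a1, a2, a3] at h1
      have h2 : y ^ 2 ∈ V := by
        have h3 : y ^ 2 = x ^ 3 + (W⁄M).a₄ * x + (W⁄M).a₆ := by linear_combination h1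
        rw [h3]
        exact add_mem (add_mem (pow_mem hx 3) (mul_mem (hV W.a₄) hx)) (hV W.a₆)
      rw [← V.valuation_le_one_iff, map_pow] at h2
      rw [← V.valuation_le_one_iff]
      by_contra hcon
      rw [not_le] at hcon
      exact absurd h2 (not_le.2 (one_lt_pow₀ hcon two_ne_zero))
    rw [← hd.1, slope_of_X_ne hxa, addX, a1, a2, negY, a1, a3, div_eq_mul_inv]
    have hm : (y - (-algebraMap F M b - 0 * algebraMap F M a - 0)) * (x - algebraMap F M a)⁻¹ ∈ V :=
      mul_mem (sub_mem hy (sub_mem (sub_mem (neg_mem (hV b))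
        (mul_mem (zero_mem V) (hV a))) (zero_mem V))) hinv
    exact sub_mem (sub_mem (sub_mem (add_mem (pow_mem hm 2) (mul_mem (zero_mem V) hm))
      (zero_mem V)) hx) (hV a)

end Pool.Agent.Lib.MP_2f3286_ag.UA
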