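import Pool.Agent.Lib.MP_2f3286_ag.UA.Tri
import Pool.Agent.Lib.MP_2f3286_ag.UA.T5
import Pool.Agent.Lib.MP_2f3286_ag.UA.T8

/-!
# X4: a backward orbit of units for the duplication: the value is constant or infinite

`tri_dbl_F`: copy of the second half of `Tri.tri_F` (from `orbit_points` on): `dbl_orbit_points` (T5) for `orbit_points`, `dbl_const_back` (T8), `de2_unit` (T4), `enough2`, `deg_nd2` (T3),
`dbl_const_start` (T5); here `a 0` itself is the function, so the end is shorter (no alternative `ha`).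
`dbl_not_zero`: `dbl_val_good` (T2) gives a finite value of `(a 0)⁻¹` at the good places.
-/

open IsDedekindDomain NumberField Polynomial
open scoped WithZero
open Pool.Agent.Lib.MP_2f3286_bir (IsPlaceOf)

namespace Pool.Agent.Lib.MP_2f3286_ag.UA

universe u

section

variable {k : Type u} [Field k] [NumberField k] {α β : k}
    {K : Type*} [Field K] [Algebra k K]
    {M : Type*} [Field M] [Algebra K M] [Algebra.IsAlgebraic K M]
    [Algebra (AlgebraicClosure k) M] [Algebra k M]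
    [IsScalarTower k K M] [IsScalarTower k (AlgebraicClosure k) M]

/-- **The value is constant or infinite.** -/
theorem tri_dbl_F (hβ : β ≠ 0) (hdisc : α ^ 2 ≠ 4 * β) (htr : Algebra.trdeg k K = 1)
    (𝒱 : Set (ValuationSubring M)) (h𝒱 : ∀ V ∈ 𝒱, ∀ a : k, algebraMap k M a ∈ V)
    (hrad : ∀ n : ℕ, 1 ≤ n → ∀ ρ : M, ρ ≠ 0 →
      (∀ V ∈ 𝒱, ∃ y : M, y ≠ 0 ∧ V.valuation ρ = V.valuation y ^ n) → ∃ β : M, β ^ n = ρ)
    (s : Gal(AlgebraicClosure k/k) →* Gal(M/K)) (hs : Continuous s)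
    (hsec : ∀ σ a, s σ (algebraMap (AlgebraicClosure k) M a) =
      algebraMap (AlgebraicClosure k) M (σ a))
    (hfix : ∀ x : M, (∀ σ, s σ x = x) → ∃ y : K, algebraMap K M y = x)
    (ι : ∀ w : HeightOneSpectrum (𝓞 k),
      AlgebraicClosure k →ₐ[k] AlgebraicClosure (w.adicCompletion k))
    (A : HeightOneSpectrum (𝓞 k) → ValuationSubring M)
    (φ : ∀ w : HeightOneSpectrum (𝓞 k), A w →+* AlgebraicClosure (w.adicCompletion k))
    (hφ : ∀ w, IsPlaceOf s (w.adicCompletion k)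
      (ι w : _ →+* AlgebraicClosure (w.adicCompletion k)) (A w) (φ w))
    (a : ℕ → K) (ha0 : ∀ n, a n ≠ 0)
    (ha : ∀ n, Dbl (algebraMap k K α) (algebraMap k K β) (a n) (a (n + 1)))
    (hc : ∀ c : k, a 0 ≠ algebraMap k K c)
    (hunit : ∀ V ∈ 𝒱, ∀ n, V.valuation (algebraMap K M (a n)) = 1) :
    (∃ e : k, ∀ w, ∃ h : algebraMap K M (a 0) ∈ A w, φ w ⟨_, h⟩ =
      algebraMap _ _ (algebraMap k (w.adicCompletion k) e)) ∨
    ∀ w, ∃ h : (algebraMap K M (a 0))⁻¹ ∈ A w, φ w ⟨_, h⟩ = 0 := by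
  classical
  have h2 : (2 : k) ≠ 0 := two_ne_zero
  obtain ⟨D, hD⟩ := Fer.exists_data_gen (L := K) two_ne_zero 𝒱 h𝒱 (hrad 2 one_le_two) s hs hsec
    (fun x σ => (s σ).commutes x) hfix ι A φ hφ
  obtain ⟨N', T, xv, hxv, hxv1⟩ := dbl_orbit_points D hβ hdisc
    (a := fun n => a (n + Module.finrank ℚ k)) (fun n => ha0 _)
    (fun n => by
      have h3 := ha (n + Module.finrank ℚ k)
      rw [show n + Module.finrank ℚ k + 1 = n + 1 + Module.finrank ℚ k by omega] at h3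
      exact h3) (Module.finrank ℚ k)
  obtain ⟨N, hNN⟩ : ∃ N, N = N' + Module.finrank ℚ k := ⟨_, rfl⟩
  have hxvN : ∀ w, (D.pl w).Has (a N)⁻¹ (xv w) := by
    intro w
    rw [hNN]
    exact hxv w
  have hN : Module.finrank ℚ k ≤ N := by omega
  have htc : ∀ c : k, (a N)⁻¹ ≠ algebraMap k K c := by
    intro c hc'
    obtain ⟨e, he⟩ := dbl_const_back h2 hβ hdisc ha0 ha N c hc'
    exact hc e he
  have hdblM : ∀ n, 4 * algebraMap K M (a n) * algebraMap K M (a (n + 1)) *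
      (algebraMap K M (a (n + 1)) ^ 2 + algebraMap k M α * algebraMap K M (a (n + 1)) +
        algebraMap k M β) = (algebraMap K M (a (n + 1)) ^ 2 - algebraMap k M β) ^ 2 := by
    intro n
    have h3 : 4 * a n * a (n + 1) * (a (n + 1) ^ 2 + algebraMap k K α * a (n + 1) +
      algebraMap k K β) = (a (n + 1) ^ 2 - algebraMap k K β) ^ 2 := ha n
    have h4 := congrArg (algebraMap K M) h3
    simp only [map_mul, map_add, map_sub, map_pow, map_ofNat,
      ← IsScalarTower.algebraMap_apply k K M] at h4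
    exact h4
  have htV : ∀ V ∈ 𝒱, algebraMap K M (a N)⁻¹ ∈ V := by
    intro V hV'
    rw [← V.valuation_le_one_iff, map_inv₀, map_inv₀, hunit V hV', inv_one]
  have hdisc0 : α ^ 2 - 4 * β ≠ 0 := sub_ne_zero.2 hdisc
  have hPV : ∀ V ∈ 𝒱, ∀ j : Fin (Module.finrank ℚ k),
      (algebraMap K M (aeval (a N)⁻¹ (de2 α β (j + 1))))⁻¹ ∈ V := by
    intro V hV' j
    have h3 : V.valuation (aeval (algebraMap K M (a (N - 0))⁻¹) (de2 α β (j + 1))) = 1 := by
      refine de2_unit V.valuation ?_ ((V.valuation_le_one_iff _).2 (h𝒱 V hV' α))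
        (val_base (h𝒱 V hV') hβ) (val_base (h𝒱 V hV') hdisc0)
        (y := fun l => algebraMap K M (a (N - l))⁻¹)
        (m := Module.finrank ℚ k) (fun l hl => ?_) (fun l _ => ?_) h2 hdisc _ j.2
      · rw [← map_ofNat (algebraMap k M) 2]
        exact val_base (h𝒱 V hV') h2
      · have h1 := hdblM (N - (l + 1))
        rw [show N - (l + 1) + 1 = N - l by omega] at h1
        beta_reduce
        rw [map_inv₀, map_inv₀]
        have hr0' : algebraMap K M (a (N - l)) ≠ 0 := by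
          rw [_root_.map_ne_zero]; exact ha0 _
        have hr0 : algebraMap K M (a (N - (l + 1))) ≠ 0 := by
          rw [_root_.map_ne_zero]; exact ha0 _
        generalize algebraMap K M (a (N - l)) = r' at *
        generalize algebraMap K M (a (N - (l + 1))) = r at *
        have h5 : r * r' ^ 4 * (r⁻¹ * (1 - algebraMap k M β * r'⁻¹ ^ 2) ^ 2) =
            r * r' ^ 4 * (4 * r'⁻¹ * (1 + algebraMap k M α * r'⁻¹ +
              algebraMap k M β * r'⁻¹ ^ 2)) := by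
          have e1 : r * r' ^ 4 * (r⁻¹ * (1 - algebraMap k M β * r'⁻¹ ^ 2) ^ 2) =
              (r' ^ 2 - algebraMap k M β) ^ 2 := by
            field_simp
          have e2 : r * r' ^ 4 * (4 * r'⁻¹ * (1 + algebraMap k M α * r'⁻¹ +
              algebraMap k M β * r'⁻¹ ^ 2)) =
              4 * r * r' * (r' ^ 2 + algebraMap k M α * r' + algebraMap k M β) := by
            field_simp
          rw [e1, e2, h1]
        exact mul_left_cancel₀ (mul_ne_zero hr0 (pow_ne_zero 4 hr0')) h5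
      · beta_reduce
        rw [map_inv₀, map_inv₀, hunit V hV', inv_one]
    rw [← V.valuation_le_one_iff, map_inv₀, ← aeval_algebraMap_apply]
    rw [Nat.sub_zero] at h3
    rw [h3, inv_one]
  have hmpos : 0 < Module.finrank ℚ k := Module.finrank_pos
  obtain ⟨c, hc'⟩ := const_of_enough.{u, u} htr (a N)⁻¹ htc
    (fun j : Fin (Module.finrank ℚ k) => de2 α β (j + 1)) ⟨0, hmpos⟩
    (by
      have h3 := (deg_nd2 (α := α) h2 hβ 0).1
      change 0 < (de2 α β (0 + 1)).natDegree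
      rw [h3]
      norm_num)
    (enough2 hβ hdisc)
    (fun b hb hb' n hn => by
      rcases eq_or_ne b 0 with rfl | hb0
      · exact ⟨0, zero_pow (by omega)⟩
      refine hrad n hn b hb0 fun V hV' => ⟨1, one_ne_zero, ?_⟩
      rw [map_one, one_pow]
      exact unit_of_poly (h𝒱 V hV') (htV V hV') (hPV V hV') hb0 hb hb')
    s hs hsec ι A φ hφ xv (fun v => (hD v _ (xv v)).1 (hxvN v))
    (fun v j => (hxv1 v (j + 1) j.2).1) T
    (fun v hv j => (hxv1 v (j + 1) j.2).2 hv)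
  -- back to the first term
  have hstart := dbl_const_start D hβ hdisc ha0 ha (N := N) (c := c)
    (fun w => by rw [← hc' w]; exact hxvN w)
  have hinf : ∀ w, (D.pl w).Has (a 0)⁻¹ 0 →
      ∃ h : (algebraMap K M (a 0))⁻¹ ∈ A w, φ w ⟨_, h⟩ = 0 := by
    intro w h
    obtain ⟨h3, h4⟩ := (hD w _ _).1 h
    rw [map_zero] at h4
    refine ⟨by rw [← map_inv₀]; exact h3, ?_⟩
    rw [← h4]
    congr 1
    exact Subtype.ext (map_inv₀ _ _).symm
  rcases hstart with ⟨e, he⟩ | he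
  · exact Or.inl ⟨e, fun w => (hD w _ _).1 (he w)⟩
  · exact Or.inr fun w => hinf w (he w)

/-- **No value zero at the good places.** -/
theorem dbl_not_zero (hβ : β ≠ 0) (hdisc : α ^ 2 ≠ 4 * β)
    (𝒱 : Set (ValuationSubring M)) (h𝒱 : ∀ V ∈ 𝒱, ∀ a : k, algebraMap k M a ∈ V)
    (hrad : ∀ ρ : M, ρ ≠ 0 →
      (∀ V ∈ 𝒱, ∃ y : M, y ≠ 0 ∧ V.valuation ρ = V.valuation y ^ 2) → ∃ β : M, β ^ 2 = ρ)
    (s : Gal(AlgebraicClosure k/k) →* Gal(M/K)) (hs : Continuous s)
    (hsec : ∀ σ a, s σ (algebraMap (AlgebraicClosure k) M a) =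
      algebraMap (AlgebraicClosure k) M (σ a))
    (hfix : ∀ x : M, (∀ σ, s σ x = x) → ∃ y : K, algebraMap K M y = x)
    (ι : ∀ w : HeightOneSpectrum (𝓞 k),
      AlgebraicClosure k →ₐ[k] AlgebraicClosure (w.adicCompletion k))
    (A : HeightOneSpectrum (𝓞 k) → ValuationSubring M)
    (φ : ∀ w : HeightOneSpectrum (𝓞 k), A w →+* AlgebraicClosure (w.adicCompletion k))
    (hφ : ∀ w, IsPlaceOf s (w.adicCompletion k)
      (ι w : _ →+* AlgebraicClosure (w.adicCompletion k)) (A w) (φ w))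
    (a : ℕ → K) (ha0 : ∀ n, a n ≠ 0)
    (ha : ∀ n, Dbl (algebraMap k K α) (algebraMap k K β) (a n) (a (n + 1))) :
    ∃ T : Finset (HeightOneSpectrum (𝓞 k)), ∀ w ∉ T,
      ¬ ∃ h : algebraMap K M (a 0) ∈ A w, φ w ⟨_, h⟩ = 0 := by
  classical
  obtain ⟨D, hD⟩ := Fer.exists_data_gen (L := K) two_ne_zero 𝒱 h𝒱 hrad s hs hsec
    (fun x σ => (s σ).commutes x) hfix ι A φ hφ
  obtain ⟨T, n₀, hT⟩ := dbl_exists_level D hβ hdisc ha0 ha
  refine ⟨T, fun w hw h0 => ?_⟩
  obtain ⟨x, hx, -⟩ := ((hT w).1 hw).2.2.2.2 0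
  obtain ⟨h1, h2⟩ := h0
  have h3 : (D.pl w).Has (a 0) 0 := (hD w _ _).2 ⟨h1, by rw [h2, map_zero]⟩
  have h4 := hx.mul h3
  rw [inv_mul_cancel₀ (ha0 0), mul_zero] at h4
  exact one_ne_zero (Pool.Agent.Lib.MP_2f3286_ag.Fer.Plc.has_one.unique h4)

end

end Pool.Agent.Lib.MP_2f3286_ag.UA
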