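import Pool.Agent.Lib.MP_2f3286_ag.UA.X4
import Pool.Agent.Lib.MP_2f3286_ag.UA.Tri2

/-!
# X5: all places, with a section over a subfield

Copy of `Tri2.tri` (`all_places` for the family of local places, `tri_dbl_F` (X4) for `tri_F`), with the restriction of the section to the Galois group of `F` as in `F2.geo_k`
(`e : AlgebraicClosure F ≃ₐ[F] AlgebraicClosure k`, `Koe.resS s e hL`, `L = Koe.fixF s F`, `Koe.trdeg_fix`). A place `(ι, A, φ)` of `s` over `F_w` (`ι` over `F`) gives the place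
`(ι ∘ e, A, φ)` of `Koe.resS s e hL` over `F_w` (see `OverD.lean`, `Koe.of_placeOn` for similar transfers).
`dbl_not_zero_all`: the same for `dbl_not_zero`; the finite set `T` depends on the family of places chosen, so the statement is for a family.
-/

open IsDedekindDomain NumberField Polynomial
open scoped WithZero
open Pool.Agent.Lib.MP_2f3286_bir (IsPlaceOf)

namespace Pool.Agent.Lib.MP_2f3286_ag.UA

universe u

/-- the section of a place is over `F` the section of the same place -/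
theorem placeOf_resX {k kb K M F Fb E Eb : Type*} [Field k] [Field kb] [Algebra k kb] [Field K]
    [Field M] [Algebra K M] [Algebra kb M] [Field F] [Algebra k F] [Algebra F kb]
    [IsScalarTower k F kb] [Field Fb] [Algebra F Fb] [Algebra Fb M] (e : Fb ≃ₐ[F] kb)
    (he : ∀ a, algebraMap Fb M a = algebraMap kb M (e a)) (s : Gal(kb/k) →* Gal(M/K))
    {L : Type*} [Field L] [Algebra L M]
    (hL : ∀ σ : Gal(kb/k), (∀ a : F, σ (algebraMap F _ a) = algebraMap F _ a) →
      ∀ x : L, s σ (algebraMap L M x) = algebraMap L M x)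
    [Field E] [Field Eb] [Algebra E Eb] {ι : kb →+* Eb} {A : ValuationSubring M} {φ : A →+* Eb}
    (h : Sel.IsPlaceOf s E ι A φ) :
    IsPlaceOf (Koe.resS s e hL) E (ι.comp (e : Fb →+* kb)) A φ := by
  refine ⟨fun b => ?_, h.2.1, fun σ τ hστ x => ?_⟩
  · obtain ⟨h1, h2⟩ := h.1 (e b)
    have h3 : algebraMap Fb M b ∈ A := by rw [he]; exact h1
    refine ⟨h3, ?_⟩
    have h4 : (⟨algebraMap Fb M b, h3⟩ : A) = ⟨_, h1⟩ := Subtype.ext (he b)
    rw [h4, h2]
    rfl
  · refine h.2.2 (Koe.resG e σ) τ (fun y => ?_) x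
    have h4 := hστ (e.symm y)
    change ι (e (σ (e.symm y))) = τ (ι (e (e.symm y))) at h4
    rw [e.apply_symm_apply] at h4
    exact h4

section

variable {k : Type*} [Field k] [NumberField k] {F : Type u} [Field F] [NumberField F] [Algebra k F]
    [Algebra F (AlgebraicClosure k)] [IsScalarTower k F (AlgebraicClosure k)] {α β : F}
    {K : Type*} [Field K] [Algebra k K]
    {M : Type*} [Field M] [Algebra K M] [Algebra.IsAlgebraic K M]
    [Algebra (AlgebraicClosure k) M] [Algebra k M]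
    [IsScalarTower k K M] [IsScalarTower k (AlgebraicClosure k) M]
    [Algebra F M] [IsScalarTower F (AlgebraicClosure k) M]

/-- **The value is constant at all places or infinite at all places.** -/
theorem tri_dbl_all (hβ : β ≠ 0) (hdisc : α ^ 2 ≠ 4 * β) (htr : Algebra.trdeg k K = 1)
    (𝒱 : Set (ValuationSubring M)) (h𝒱 : ∀ V ∈ 𝒱, ∀ a : F, algebraMap F M a ∈ V)
    (hrad : ∀ n : ℕ, 1 ≤ n → ∀ ρ : M, ρ ≠ 0 →
      (∀ V ∈ 𝒱, ∃ y : M, y ≠ 0 ∧ V.valuation ρ = V.valuation y ^ n) → ∃ β : M, β ^ n = ρ)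
    (s : Gal(AlgebraicClosure k/k) →* Gal(M/K)) (hs : Continuous s)
    (hsec : ∀ σ a, s σ (algebraMap (AlgebraicClosure k) M a) =
      algebraMap (AlgebraicClosure k) M (σ a))
    (a : ℕ → M) (hfa : ∀ n, ∀ σ : Gal(AlgebraicClosure k/k),
      (∀ z : F, σ (algebraMap F _ z) = algebraMap F _ z) → s σ (a n) = a n)
    (ha0 : ∀ n, a n ≠ 0)
    (ha : ∀ n, Dbl (algebraMap F M α) (algebraMap F M β) (a n) (a (n + 1)))
    (hc : ∀ c : F, a 0 ≠ algebraMap F M c)
    (hunit : ∀ V ∈ 𝒱, ∀ n, V.valuation (a n) = 1)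
    (hloc : ∀ w : HeightOneSpectrum (𝓞 F),
      ∃ (ι : AlgebraicClosure k →ₐ[F] AlgebraicClosure (w.adicCompletion F))
        (A : ValuationSubring M) (φ : A →+* AlgebraicClosure (w.adicCompletion F)),
        Sel.IsPlaceOf s (w.adicCompletion F)
          (ι : _ →+* AlgebraicClosure (w.adicCompletion F)) A φ) :
    (∃ e : F, ∀ (w : HeightOneSpectrum (𝓞 F))
      (ι : AlgebraicClosure k →ₐ[F] AlgebraicClosure (w.adicCompletion F))
      (A : ValuationSubring M) (φ : A →+* AlgebraicClosure (w.adicCompletion F)),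
      Sel.IsPlaceOf s (w.adicCompletion F)
        (ι : _ →+* AlgebraicClosure (w.adicCompletion F)) A φ →
      ∃ h : a 0 ∈ A, φ ⟨_, h⟩ = ι (algebraMap F _ e)) ∨
    ∀ (w : HeightOneSpectrum (𝓞 F))
      (ι : AlgebraicClosure k →ₐ[F] AlgebraicClosure (w.adicCompletion F))
      (A : ValuationSubring M) (φ : A →+* AlgebraicClosure (w.adicCompletion F)),
      Sel.IsPlaceOf s (w.adicCompletion F)
        (ι : _ →+* AlgebraicClosure (w.adicCompletion F)) A φ →
      ∃ h : (a 0)⁻¹ ∈ A, φ ⟨_, h⟩ = 0 := by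
  classical
  have hfin : FiniteDimensional k F := FiniteDimensional.right ℚ k F
  have hFk : Algebra.IsAlgebraic F (AlgebraicClosure k) :=
    Algebra.IsAlgebraic.tower_top (K := k) F
  have : IsAlgClosure F (AlgebraicClosure k) := ⟨inferInstance, inferInstance⟩
  let e : AlgebraicClosure F ≃ₐ[F] AlgebraicClosure k :=
    IsAlgClosure.equiv F (AlgebraicClosure F) (AlgebraicClosure k)
  let iFb : Algebra (AlgebraicClosure F) M :=
    ((algebraMap (AlgebraicClosure k) M).comp (e : _ →+* AlgebraicClosure k)).toAlgebra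
  have he : ∀ a : AlgebraicClosure F, algebraMap (AlgebraicClosure F) M a =
      algebraMap (AlgebraicClosure k) M (e a) := fun _ => rfl
  have t1 : IsScalarTower F (AlgebraicClosure F) M := IsScalarTower.of_algebraMap_eq fun a => by
    rw [he, AlgEquiv.commutes, ← IsScalarTower.algebraMap_apply]
  have t3 : IsScalarTower k F M := IsScalarTower.of_algebraMap_eq fun a => by
    rw [IsScalarTower.algebraMap_apply F (AlgebraicClosure k) M,
      ← IsScalarTower.algebraMap_apply k F (AlgebraicClosure k),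
      ← IsScalarTower.algebraMap_apply k (AlgebraicClosure k) M]
  let iFL : Algebra F (Koe.fixF s F) := (Koe.toFixF s F hsec).toAlgebra
  have t2 : IsScalarTower F (Koe.fixF s F) M := IsScalarTower.of_algebraMap_eq fun a => by
    rw [IsScalarTower.algebraMap_apply F (AlgebraicClosure k) M]
    rfl
  have hLM : Algebra.IsAlgebraic (Koe.fixF s F) M :=
    Algebra.IsAlgebraic.tower_top (K := K) (Koe.fixF s F)
  have hL : ∀ σ : Gal(AlgebraicClosure k/k),
      (∀ a : F, σ (algebraMap F _ a) = algebraMap F _ a) →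
      ∀ x : Koe.fixF s F, s σ (algebraMap (Koe.fixF s F) M x) = algebraMap (Koe.fixF s F) M x :=
    fun σ hσ x => x.2 σ hσ
  have hs' := Koe.resS_continuous s e hL hs
  have hsec' : ∀ (σ : Gal(AlgebraicClosure F/F)) (a : AlgebraicClosure F),
      Koe.resS s e hL σ (algebraMap (AlgebraicClosure F) M a) =
        algebraMap (AlgebraicClosure F) M (σ a) := by
    intro σ a
    rw [Koe.resS_apply, he, hsec, Koe.resG_apply, e.symm_apply_apply, he]
  have hfix : ∀ z : M, (∀ σ, Koe.resS s e hL σ z = z) →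
      ∃ y : Koe.fixF s F, algebraMap (Koe.fixF s F) M y = z := by
    intro z hz
    refine ⟨⟨z, fun σ hσ => ?_⟩, rfl⟩
    obtain ⟨τ, hτ, -⟩ := Koe.resG_surj e σ hσ
    rw [← hτ, ← Koe.resS_apply s e hL τ z]
    exact hz τ
  have hb0 : ∀ n, (⟨a n, hfa n⟩ : Koe.fixF s F) ≠ 0 := fun n h =>
    ha0 n (congrArg (algebraMap (Koe.fixF s F) M) h)
  have hb : ∀ n, Dbl (algebraMap F (Koe.fixF s F) α) (algebraMap F (Koe.fixF s F) β)
      ⟨a n, hfa n⟩ ⟨a (n + 1), hfa (n + 1)⟩ := by
    intro n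
    apply (algebraMap (Koe.fixF s F) M).injective
    have h1 := ha n
    unfold Dbl at h1
    simp only [map_mul, map_add, map_sub, map_pow, map_ofNat,
      ← IsScalarTower.algebraMap_apply F (Koe.fixF s F) M]
    exact h1
  have htr' : Algebra.trdeg F (Koe.fixF s F) = 1 := Koe.trdeg_fix (k := k) (K := K) (Ω := M) htr
  have key : ∀ fam : (∀ w : HeightOneSpectrum (𝓞 F),
      {p : (AlgebraicClosure k →ₐ[F] AlgebraicClosure (w.adicCompletion F)) ×
        (Σ A : ValuationSubring M, A →+* AlgebraicClosure (w.adicCompletion F)) //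
        Sel.IsPlaceOf s (w.adicCompletion F)
          (p.1 : _ →+* AlgebraicClosure (w.adicCompletion F)) p.2.1 p.2.2}),
      (∃ e : F, ∀ w, ∃ h : a 0 ∈ (fam w).1.2.1, (fam w).1.2.2 ⟨_, h⟩ =
        (fam w).1.1 (algebraMap F _ e)) ∨
      ∀ w, ∃ h : (a 0)⁻¹ ∈ (fam w).1.2.1, (fam w).1.2.2 ⟨_, h⟩ = 0 := by
    intro fam
    have h1 := tri_dbl_F hβ hdisc htr' 𝒱 h𝒱 hrad (Koe.resS s e hL) hs' hsec' hfix
      (fun w => ((fam w).1.1).comp (e : AlgebraicClosure F →ₐ[F] AlgebraicClosure k))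
      (fun w => (fam w).1.2.1) (fun w => (fam w).1.2.2)
      (fun w => placeOf_resX e he s hL (fam w).2)
      (fun n => ⟨a n, hfa n⟩) hb0 hb
      (fun c hc' => by
        apply hc c
        have h4 := congrArg (algebraMap (Koe.fixF s F) M) hc'
        rw [← IsScalarTower.algebraMap_apply F (Koe.fixF s F) M] at h4
        exact h4) hunit
    rcases h1 with ⟨e₀, he₀⟩ | h1
    · refine Or.inl ⟨e₀, fun w => ?_⟩
      obtain ⟨g1, g2⟩ := he₀ w
      refine ⟨g1, g2.trans ?_⟩
      rw [AlgHom.commutes, ← IsScalarTower.algebraMap_apply]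
    · exact Or.inr h1
  choose ι₀ A₀ φ₀ hφ₀ using hloc
  have hmain := all_places (W := HeightOneSpectrum (𝓞 F)) (E := F)
    (fun v => by
      obtain ⟨w, hw⟩ := exists_notMem ({v} : Finset (HeightOneSpectrum (𝓞 F)))
      exact ⟨w, fun h => hw (Finset.mem_singleton.2 h)⟩)
    (P := fun w => {p : (AlgebraicClosure k →ₐ[F] AlgebraicClosure (w.adicCompletion F)) ×
        (Σ A : ValuationSubring M, A →+* AlgebraicClosure (w.adicCompletion F)) //
        Sel.IsPlaceOf s (w.adicCompletion F)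
          (p.1 : _ →+* AlgebraicClosure (w.adicCompletion F)) p.2.1 p.2.2})
    (fun v p e => ∃ h : a 0 ∈ p.1.2.1, p.1.2.2 ⟨_, h⟩ = p.1.1 (algebraMap F _ e))
    (fun v p => ∃ h : (a 0)⁻¹ ∈ p.1.2.1, p.1.2.2 ⟨_, h⟩ = 0)
    (fun v p e e' h h' => by
      obtain ⟨h1, h2⟩ := h
      obtain ⟨h3, h4⟩ := h'
      exact (algebraMap F (AlgebraicClosure k)).injective
        ((p.1.1 : _ →+* AlgebraicClosure (v.adicCompletion F)).injective (h2.symm.trans h4)))
    (fun v p e h h' => by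
      obtain ⟨h1, h2⟩ := h
      obtain ⟨h3, h4⟩ := h'
      have h5 : p.1.2.2 (⟨_, h1⟩ * ⟨_, h3⟩) = 1 := by
        rw [← map_one p.1.2.2]
        congr 1
        exact Subtype.ext (mul_inv_cancel₀ (ha0 0))
      rw [map_mul, h4, mul_zero] at h5
      exact zero_ne_one h5) key (fun v => ⟨(ι₀ v, ⟨A₀ v, φ₀ v⟩), hφ₀ v⟩)
  rcases hmain with ⟨e₀, he⟩ | h
  · exact Or.inl ⟨e₀, fun v ι A φ h => he v ⟨(ι, ⟨A, φ⟩), h⟩⟩
  · exact Or.inr fun v ι A φ h' => h v ⟨(ι, ⟨A, φ⟩), h'⟩

/-- **No value zero at the good places.** -/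
theorem dbl_not_zero_all (hβ : β ≠ 0) (hdisc : α ^ 2 ≠ 4 * β)
    (𝒱 : Set (ValuationSubring M)) (h𝒱 : ∀ V ∈ 𝒱, ∀ a : F, algebraMap F M a ∈ V)
    (hrad : ∀ ρ : M, ρ ≠ 0 →
      (∀ V ∈ 𝒱, ∃ y : M, y ≠ 0 ∧ V.valuation ρ = V.valuation y ^ 2) → ∃ β : M, β ^ 2 = ρ)
    (s : Gal(AlgebraicClosure k/k) →* Gal(M/K)) (hs : Continuous s)
    (hsec : ∀ σ a, s σ (algebraMap (AlgebraicClosure k) M a) =
      algebraMap (AlgebraicClosure k) M (σ a))
    (a : ℕ → M) (hfa : ∀ n, ∀ σ : Gal(AlgebraicClosure k/k),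
      (∀ z : F, σ (algebraMap F _ z) = algebraMap F _ z) → s σ (a n) = a n)
    (ha0 : ∀ n, a n ≠ 0)
    (ha : ∀ n, Dbl (algebraMap F M α) (algebraMap F M β) (a n) (a (n + 1)))
    (ι : ∀ w : HeightOneSpectrum (𝓞 F),
      AlgebraicClosure k →ₐ[F] AlgebraicClosure (w.adicCompletion F))
    (A : HeightOneSpectrum (𝓞 F) → ValuationSubring M)
    (φ : ∀ w : HeightOneSpectrum (𝓞 F), A w →+* AlgebraicClosure (w.adicCompletion F))
    (hφ : ∀ w, Sel.IsPlaceOf s (w.adicCompletion F)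
      (ι w : _ →+* AlgebraicClosure (w.adicCompletion F)) (A w) (φ w)) :
    ∃ w, ¬ ∃ h : a 0 ∈ A w, φ w ⟨_, h⟩ = 0 := by
  classical
  have hfin : FiniteDimensional k F := FiniteDimensional.right ℚ k F
  have hFk : Algebra.IsAlgebraic F (AlgebraicClosure k) :=
    Algebra.IsAlgebraic.tower_top (K := k) F
  have : IsAlgClosure F (AlgebraicClosure k) := ⟨inferInstance, inferInstance⟩
  let e : AlgebraicClosure F ≃ₐ[F] AlgebraicClosure k :=
    IsAlgClosure.equiv F (AlgebraicClosure F) (AlgebraicClosure k)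
  let iFb : Algebra (AlgebraicClosure F) M :=
    ((algebraMap (AlgebraicClosure k) M).comp (e : _ →+* AlgebraicClosure k)).toAlgebra
  have he : ∀ a : AlgebraicClosure F, algebraMap (AlgebraicClosure F) M a =
      algebraMap (AlgebraicClosure k) M (e a) := fun _ => rfl
  have t1 : IsScalarTower F (AlgebraicClosure F) M := IsScalarTower.of_algebraMap_eq fun a => by
    rw [he, AlgEquiv.commutes, ← IsScalarTower.algebraMap_apply]
  have t3 : IsScalarTower k F M := IsScalarTower.of_algebraMap_eq fun a => by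
    rw [IsScalarTower.algebraMap_apply F (AlgebraicClosure k) M,
      ← IsScalarTower.algebraMap_apply k F (AlgebraicClosure k),
      ← IsScalarTower.algebraMap_apply k (AlgebraicClosure k) M]
  let iFL : Algebra F (Koe.fixF s F) := (Koe.toFixF s F hsec).toAlgebra
  have t2 : IsScalarTower F (Koe.fixF s F) M := IsScalarTower.of_algebraMap_eq fun a => by
    rw [IsScalarTower.algebraMap_apply F (AlgebraicClosure k) M]
    rfl
  have hLM : Algebra.IsAlgebraic (Koe.fixF s F) M :=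
    Algebra.IsAlgebraic.tower_top (K := K) (Koe.fixF s F)
  have hL : ∀ σ : Gal(AlgebraicClosure k/k),
      (∀ a : F, σ (algebraMap F _ a) = algebraMap F _ a) →
      ∀ x : Koe.fixF s F, s σ (algebraMap (Koe.fixF s F) M x) = algebraMap (Koe.fixF s F) M x :=
    fun σ hσ x => x.2 σ hσ
  have hs' := Koe.resS_continuous s e hL hs
  have hsec' : ∀ (σ : Gal(AlgebraicClosure F/F)) (a : AlgebraicClosure F),
      Koe.resS s e hL σ (algebraMap (AlgebraicClosure F) M a) =
        algebraMap (AlgebraicClosure F) M (σ a) := by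
    intro σ a
    rw [Koe.resS_apply, he, hsec, Koe.resG_apply, e.symm_apply_apply, he]
  have hfix : ∀ z : M, (∀ σ, Koe.resS s e hL σ z = z) →
      ∃ y : Koe.fixF s F, algebraMap (Koe.fixF s F) M y = z := by
    intro z hz
    refine ⟨⟨z, fun σ hσ => ?_⟩, rfl⟩
    obtain ⟨τ, hτ, -⟩ := Koe.resG_surj e σ hσ
    rw [← hτ, ← Koe.resS_apply s e hL τ z]
    exact hz τ
  have hb0 : ∀ n, (⟨a n, hfa n⟩ : Koe.fixF s F) ≠ 0 := fun n h =>
    ha0 n (congrArg (algebraMap (Koe.fixF s F) M) h)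
  have hb : ∀ n, Dbl (algebraMap F (Koe.fixF s F) α) (algebraMap F (Koe.fixF s F) β)
      ⟨a n, hfa n⟩ ⟨a (n + 1), hfa (n + 1)⟩ := by
    intro n
    apply (algebraMap (Koe.fixF s F) M).injective
    have h1 := ha n
    unfold Dbl at h1
    simp only [map_mul, map_add, map_sub, map_pow, map_ofNat,
      ← IsScalarTower.algebraMap_apply F (Koe.fixF s F) M]
    exact h1
  obtain ⟨T, hT⟩ := dbl_not_zero hβ hdisc 𝒱 h𝒱 hrad (Koe.resS s e hL) hs' hsec' hfix
    (fun w => (ι w).comp (e : AlgebraicClosure F →ₐ[F] AlgebraicClosure k)) A φ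
    (fun w => placeOf_resX e he s hL (hφ w)) (fun n => ⟨a n, hfa n⟩) hb0 hb
  obtain ⟨w, hw⟩ := exists_notMem T
  exact ⟨w, hT w hw⟩

end

end Pool.Agent.Lib.MP_2f3286_ag.UA
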