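import Mathlib

/-!
# X6: elements of a Galois extension which are approximated by elements of the base field

`exists_place_comap`: for `σ` in `Gal(F/k)` and a place `w` of `F` there is a place `w'` of `F` with `w (σ z) = w' z` for all `z`; if `w` lies over `v`, so does `w'` (`w'.asIdeal` is the
preimage of `w.asIdeal` under the automorphism of `𝓞 F` given by `σ`; for the valuations use that `w'.valuation` and `z ↦ w.valuation (σ z)` are the same on `𝓞 F`: the powers of the ideals
correspond; or `Valuation.comap` and `HeightOneSpectrum.valuation_of_algebraMap`, `intValuation` as the exponent of the ideal in the factorisation of `(z)`).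
`mem_of_approx`: `w (σ c - c) ≤ max (w (σ (c - t))) (w (c - t))`, `w (σ (c - t)) = w' (c - t)`: smaller than every `γ`, so `σ c = c`.
-/

open IsDedekindDomain NumberField
open scoped WithZero

namespace Pool.Agent.Lib.MP_2f3286_ag.UA

variable {k : Type*} [Field k] [NumberField k] {F : Type*} [Field F] [NumberField F] [Algebra k F]

omit [NumberField k] in
private theorem X6_int (e : 𝓞 F ≃+* 𝓞 F) (w : HeightOneSpectrum (𝓞 F)) (x : 𝓞 F) :
    w.intValuation (e x) =
      (HeightOneSpectrum.comap (e : 𝓞 F →+* 𝓞 F) e.surjective w).intValuation x := by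
  set w' : HeightOneSpectrum (𝓞 F) :=
    HeightOneSpectrum.comap (e : 𝓞 F →+* 𝓞 F) e.surjective w with hw'
  have hpow : ∀ n : ℕ, w'.asIdeal ^ n = (w.asIdeal ^ n).comap (e : 𝓞 F →+* 𝓞 F) := by
    intro n
    have h1 : w'.asIdeal = w.asIdeal.comap (e : 𝓞 F →+* 𝓞 F) := rfl
    have h2 : ∀ I : Ideal (𝓞 F), I.comap (e : 𝓞 F →+* 𝓞 F) =
        I.map (e.symm : 𝓞 F →+* 𝓞 F) := by
      intro I
      exact (Ideal.map_symm e).symm
    rw [h1, h2, h2, Ideal.map_pow]
  have hle : ∀ n : ℕ, w.intValuation (e x) ≤ WithZero.exp (-(n : ℤ)) ↔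
      w'.intValuation x ≤ WithZero.exp (-(n : ℤ)) := by
    intro n
    rw [HeightOneSpectrum.intValuation_le_pow_iff_mem,
      HeightOneSpectrum.intValuation_le_pow_iff_mem, hpow]
    exact Iff.rfl
  rcases eq_or_ne x 0 with rfl | hx
  · simp
  have hex : e x ≠ 0 := by simpa using hx
  have h1 := w.intValuation_if_neg hex
  have h2 := w'.intValuation_if_neg hx
  apply le_antisymm
  · rw [h2]
    apply (hle _).2
    rw [h2]
  · rw [h1]
    apply (hle _).1
    rw [h1]

theorem exists_place_comap (σ : F ≃ₐ[k] F) (w : HeightOneSpectrum (𝓞 F)) :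
    ∃ w' : HeightOneSpectrum (𝓞 F), (∀ z : F, w.valuation F (σ z) = w'.valuation F z) ∧
      ∀ v : HeightOneSpectrum (𝓞 k), w.asIdeal.LiesOver v.asIdeal → w'.asIdeal.LiesOver v.asIdeal := by
  obtain ⟨e, he⟩ : ∃ e : 𝓞 F ≃+* 𝓞 F, ∀ x : 𝓞 F, ((e x : 𝓞 F) : F) = σ (x : F) :=
    ⟨RingOfIntegers.mapRingEquiv (σ : F ≃+* F), fun x => rfl⟩
  refine ⟨HeightOneSpectrum.comap (e : 𝓞 F →+* 𝓞 F) e.surjective w, ?_, ?_⟩
  · intro z
    obtain ⟨x, y, hy, rfl⟩ := IsFractionRing.div_surjective (A := 𝓞 F) z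
    have h1 : ∀ x : 𝓞 F, σ (algebraMap (𝓞 F) F x) = algebraMap (𝓞 F) F (e x) :=
      fun x => (he x).symm
    rw [map_div₀ σ, h1, h1, map_div₀, map_div₀, HeightOneSpectrum.valuation_of_algebraMap,
      HeightOneSpectrum.valuation_of_algebraMap, HeightOneSpectrum.valuation_of_algebraMap,
      HeightOneSpectrum.valuation_of_algebraMap, X6_int, X6_int]
  · intro v hv
    constructor
    rw [hv.over]
    ext x
    have h1 : e (algebraMap (𝓞 k) (𝓞 F) x) = algebraMap (𝓞 k) (𝓞 F) x := by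
      apply RingOfIntegers.coe_injective
      refine (he _).trans ?_
      have h2 : ((algebraMap (𝓞 k) (𝓞 F) x : 𝓞 F) : F) = algebraMap k F (x : k) := rfl
      rw [h2, AlgEquiv.commutes]
      exact h2.symm
    change algebraMap (𝓞 k) (𝓞 F) x ∈ w.asIdeal ↔ e (algebraMap (𝓞 k) (𝓞 F) x) ∈ w.asIdeal
    rw [h1]

private theorem X6_over (v : HeightOneSpectrum (𝓞 k)) :
    ∃ w : HeightOneSpectrum (𝓞 F), w.asIdeal.LiesOver v.asIdeal := by
  obtain ⟨P, hP, hP2⟩ := Ideal.exists_maximal_ideal_liesOver_of_isIntegral (S := 𝓞 F) v.asIdeal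
  refine ⟨⟨P, hP.isPrime, ?_⟩, hP2⟩
  exact Ideal.ne_bot_of_liesOver_of_ne_bot v.ne_bot P

theorem mem_of_approx [IsGalois k F] (v : HeightOneSpectrum (𝓞 k)) (c : F)
    (h : ∀ γ : ℤᵐ⁰, γ ≠ 0 → ∃ t : k, ∀ w : HeightOneSpectrum (𝓞 F),
      w.asIdeal.LiesOver v.asIdeal → w.valuation F (c - algebraMap k F t) < γ) :
    ∃ c₀ : k, algebraMap k F c₀ = c := by
  obtain ⟨w, hw⟩ := X6_over (F := F) v
  have hfix : ∀ σ : F ≃ₐ[k] F, σ c = c := by
    intro σ
    by_contra hne
    have h0 : σ c - c ≠ 0 := sub_ne_zero.2 hne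
    have hγ : w.valuation F (σ c - c) ≠ 0 := by
      rw [Valuation.ne_zero_iff]
      exact h0
    obtain ⟨t, ht⟩ := h _ hγ
    obtain ⟨w', hw', hover⟩ := exists_place_comap σ w
    have h1 : σ c - c = σ (c - algebraMap k F t) - (c - algebraMap k F t) := by
      rw [map_sub, AlgEquiv.commutes]
      ring
    have h2 : w.valuation F (σ (c - algebraMap k F t)) < w.valuation F (σ c - c) := by
      rw [hw']
      exact ht w' (hover v hw)
    have h3 := ht w hw
    have h4 : w.valuation F (σ c - c) < w.valuation F (σ c - c) := by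
      conv_lhs => rw [h1]
      exact Valuation.map_sub_lt _ h2 h3
    exact lt_irrefl _ h4
  have hfd : FiniteDimensional k F := Module.Finite.of_restrictScalars_finite ℚ k F
  exact (IsGalois.mem_range_algebraMap_iff_fixed c).2 hfix

end Pool.Agent.Lib.MP_2f3286_ag.UA
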