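import Pool.Agent.Lib.MP_2f3286_ag.UA.X6
import Pool.Agent.Lib.MP_2f3286_ag.UA.Loc
import Pool.Agent.Lib.MP_2f3286_ag.Local
import Pool.Agent.Lib.MP_2f3286_ag.KSplit
import Pool.Agent.Lib.MP_2f3286_ag.PD.Loc

/-!
# X7: from the places over the completions of `F` to those over the completions of `k`

`z` is fixed by the section over `k`; `F` is a Galois extension of `k` in the algebraic closure.
`value_up`: a place `(ι, A, φ)` over `k_v` where `z` has a value `t` in `k_v` (it is fixed by the Galois group of `k_v`: `Top.exists_restrict'` and `s σ z = z`) and a place `w` of `F` over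
`v`: `Loc.local_up` (copy its proof, `Fer.exists_j_tower_val` gives also `j₀ : k_v → F_w` with `v (j₀ y) = v y ^ e` and `j (algebraMap a) = algebraMap (j₀ a)`) gives a place of `s` over `F_w` at
which `z` has the value `j₀ t`. So if `z` has the value `c` in `F` at all places over all `F_w`, then `c = j₀ t` in `F_w` for all `w` over `v`; elements of `k` close to `t` are close to `c`
at all `w` over `v`, and `mem_of_approx` (X6) gives `c` in `k`. Then `j (φ z) = ι' c = j (ι (ρ c)) = j (ι c)` gives `φ z = ι c`.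
If `z⁻¹` has the value `0` at all places over all `F_w`, then the same holds over `k_v` (`z⁻¹` is fixed by `s ρ`).
There are places of `F` over every `v` (`Ideal.exists_ideal_over_prime_of_isIntegral`, or see `Fer`).
-/

open IsDedekindDomain NumberField
open scoped WithZero

namespace Pool.Agent.Lib.MP_2f3286_ag.UA

section

variable {k : Type*} [Field k] [NumberField k] {F : Type*} [Field F] [NumberField F] [Algebra k F]
    [IsGalois k F]
    [Algebra F (AlgebraicClosure k)] [IsScalarTower k F (AlgebraicClosure k)]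
    {K : Type*} [Field K] [Algebra k K]
    {M : Type*} [Field M] [Algebra K M] [Algebra (AlgebraicClosure k) M] [Algebra k M]
    [IsScalarTower k K M] [IsScalarTower k (AlgebraicClosure k) M]
    [Algebra F M] [IsScalarTower F (AlgebraicClosure k) M]

/-- `Loc.local_up` for `F` over `k`, with the homomorphism of the completions. -/
private theorem up (s : Gal(AlgebraicClosure k/k) →* Gal(M/K))
    (hsec : ∀ σ a, s σ (algebraMap (AlgebraicClosure k) M a) =
      algebraMap (AlgebraicClosure k) M (σ a))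
    (v : HeightOneSpectrum (𝓞 k)) (w : HeightOneSpectrum (𝓞 F)) [w.asIdeal.LiesOver v.asIdeal]
    (ι : AlgebraicClosure k →ₐ[k] AlgebraicClosure (v.adicCompletion k))
    (A : ValuationSubring M) (φ : A →+* AlgebraicClosure (v.adicCompletion k))
    (h : Sel.IsPlaceOf s (v.adicCompletion k)
      (ι : _ →+* AlgebraicClosure (v.adicCompletion k)) A φ) :
    ∃ (ρ : Gal(AlgebraicClosure k/k))
      (ι' : AlgebraicClosure k →ₐ[F] AlgebraicClosure (w.adicCompletion F))
      (A' : ValuationSubring M) (φ' : A' →+* AlgebraicClosure (w.adicCompletion F))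
      (j₀ : v.adicCompletion k →+* w.adicCompletion F)
      (j : AlgebraicClosure (v.adicCompletion k) →+* AlgebraicClosure (w.adicCompletion F)),
      (∀ y, Valued.v (j₀ y) = Valued.v y ^ (v.asIdeal.ramificationIdx' w.asIdeal)) ∧
      (∀ a : v.adicCompletion k, j (algebraMap _ _ a) =
        algebraMap _ (AlgebraicClosure (w.adicCompletion F)) (j₀ a)) ∧
      Sel.IsPlaceOf s (w.adicCompletion F)
        (ι' : _ →+* AlgebraicClosure (w.adicCompletion F)) A' φ' ∧
      (∀ z, z ∈ A' ↔ s ρ z ∈ A) ∧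
      (∀ (z : M) (h : s ρ z ∈ A) (h' : z ∈ A'), φ' ⟨z, h'⟩ = j (φ ⟨s ρ z, h⟩)) ∧
      ∀ a, ι' a = j (ι (ρ a)) := by
  obtain ⟨j₀, j, ρ, hj₀v, hj₀, hj, hτ⟩ := Fer.exists_j_tower_val (k := k)
    (kb := AlgebraicClosure k) (F := F) v w ι
  obtain ⟨h1, h2, h3⟩ := h
  let ι' : AlgebraicClosure k →ₐ[F] AlgebraicClosure (w.adicCompletion F) :=
    { j.comp ((ι : AlgebraicClosure k →+* _).comp
        (ρ : AlgebraicClosure k →+* AlgebraicClosure k)) with
      commutes' := fun a => by
        change j (ι (ρ (algebraMap F _ a))) = _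
        rw [hj]
        exact (IsScalarTower.algebraMap_apply F (w.adicCompletion F) _ a).symm }
  have hι' : ∀ a, ι' a = j (ι (ρ a)) := fun a => rfl
  let g : M →+* M := (s ρ : Gal(M/K))
  let A' : ValuationSubring M := A.comap g
  have hA' : ∀ x, x ∈ A' ↔ s ρ x ∈ A := fun x => Iff.rfl
  let φ' : A' →+* AlgebraicClosure (w.adicCompletion F) := j.comp (φ.comp
    ((g.comp A'.subtype).codRestrict A (fun x => (hA' x).mp x.2)))
  have hφ' : ∀ x : A', φ' x = j (φ ⟨s ρ x, (hA' x).mp x.2⟩) := fun x => rfl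
  refine ⟨ρ, ι', A', φ', j₀, j, hj₀v, hj₀, ⟨fun a => ?_, fun x hx => ?_,
    fun σ τ hστ x => ?_⟩, hA', fun z h h' => rfl, hι'⟩
  · have e1 : s ρ (algebraMap (AlgebraicClosure k) M a) =
        algebraMap (AlgebraicClosure k) M (ρ a) := hsec ρ a
    obtain ⟨h5, h6⟩ := h1 (ρ a)
    have h7 : algebraMap (AlgebraicClosure k) M a ∈ A' := by
      rw [hA', e1]
      exact h5
    refine ⟨h7, ?_⟩
    rw [hφ']
    have e2 : (⟨s ρ (algebraMap (AlgebraicClosure k) M a), (hA' _).mp h7⟩ : A) =
      ⟨algebraMap (AlgebraicClosure k) M (ρ a), h5⟩ := Subtype.ext e1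
    rw [e2, h6]
    rfl
  · rw [hφ'] at hx
    have h5 := h2 ⟨s ρ x, (hA' x).mp x.2⟩ fun h0 => hx (by rw [h0, _root_.map_zero])
    rw [hA', map_inv₀]
    exact h5
  · obtain ⟨τ', hτ'⟩ := hτ τ
    have h4 : ∀ y, (ι : AlgebraicClosure k →+* _) ((ρ * σ * ρ⁻¹) y) =
        τ' ((ι : AlgebraicClosure k →+* _) y) := by
      intro y
      apply j.injective
      rw [hτ']
      have h5 := hστ (ρ⁻¹ y)
      change ι' (σ (ρ⁻¹ y)) = τ (ι' (ρ⁻¹ y)) at h5
      rw [hι', hι'] at h5
      have h6 : ρ (ρ⁻¹ y) = y := ρ.apply_symm_apply y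
      rw [h6] at h5
      exact h5
    obtain ⟨h5, h6⟩ := h3 _ τ' h4 ⟨s ρ x, (hA' x).mp x.2⟩
    have h7 : s (ρ * σ * ρ⁻¹) (s ρ (x : M)) = s ρ (s σ x) := by
      rw [← AlgEquiv.mul_apply, ← AlgEquiv.mul_apply, ← map_mul, ← map_mul,
        inv_mul_cancel_right]
    have h8 : s ρ (s σ x) ∈ A := by rw [← h7]; exact h5
    have h9 : s σ (x : M) ∈ A' := (hA' _).mpr h8
    refine ⟨h9, ?_⟩
    change φ' ⟨s σ x, h9⟩ = _
    rw [hφ', hφ']
    have h10 : (⟨s ρ (s σ x), (hA' _).mp h9⟩ : A) = ⟨_, h5⟩ := Subtype.ext h7.symm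
    rw [h10, h6, hτ']

/-- values of fixed elements -/
private theorem fixed_value' {s : Gal(AlgebraicClosure k/k) →* Gal(M/K)}
    {v : HeightOneSpectrum (𝓞 k)}
    {ι : AlgebraicClosure k →ₐ[k] AlgebraicClosure (v.adicCompletion k)}
    {A : ValuationSubring M} {φ : A →+* AlgebraicClosure (v.adicCompletion k)}
    (h : Sel.IsPlaceOf s (v.adicCompletion k)
      (ι : _ →+* AlgebraicClosure (v.adicCompletion k)) A φ) {y : M} (hy : ∀ σ, s σ y = y)
    (hyA : y ∈ A) : ∃ x : v.adicCompletion k, φ ⟨y, hyA⟩ = algebraMap _ _ x := by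
  have : CharZero (v.adicCompletion k) := charZero_of_injective_algebraMap
    (algebraMap k (v.adicCompletion k)).injective
  have h' : Pool.Agent.Lib.MP_2f3286_bir.IsPlaceOf s (v.adicCompletion k)
      (ι : _ →+* AlgebraicClosure (v.adicCompletion k)) A φ := h
  exact PD.fixed_value h' hy hyA

/-- **Descent of the value.** -/
theorem value_down (s : Gal(AlgebraicClosure k/k) →* Gal(M/K))
    (hsec : ∀ σ a, s σ (algebraMap (AlgebraicClosure k) M a) =
      algebraMap (AlgebraicClosure k) M (σ a))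
    (z : M) (hz : ∀ σ, s σ z = z)
    (hloc : ∀ v : HeightOneSpectrum (𝓞 k),
      ∃ (ι : AlgebraicClosure k →ₐ[k] AlgebraicClosure (v.adicCompletion k))
        (A : ValuationSubring M) (φ : A →+* AlgebraicClosure (v.adicCompletion k)),
        Sel.IsPlaceOf s (v.adicCompletion k)
          (ι : _ →+* AlgebraicClosure (v.adicCompletion k)) A φ)
    (h : (∃ c : F, ∀ (w : HeightOneSpectrum (𝓞 F))
      (ι : AlgebraicClosure k →ₐ[F] AlgebraicClosure (w.adicCompletion F))
      (A : ValuationSubring M) (φ : A →+* AlgebraicClosure (w.adicCompletion F)),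
      Sel.IsPlaceOf s (w.adicCompletion F)
        (ι : _ →+* AlgebraicClosure (w.adicCompletion F)) A φ →
      ∃ h : z ∈ A, φ ⟨_, h⟩ = ι (algebraMap F _ c)) ∨
    ∀ (w : HeightOneSpectrum (𝓞 F))
      (ι : AlgebraicClosure k →ₐ[F] AlgebraicClosure (w.adicCompletion F))
      (A : ValuationSubring M) (φ : A →+* AlgebraicClosure (w.adicCompletion F)),
      Sel.IsPlaceOf s (w.adicCompletion F)
        (ι : _ →+* AlgebraicClosure (w.adicCompletion F)) A φ →
      ∃ h : z⁻¹ ∈ A, φ ⟨_, h⟩ = 0) :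
    (∃ c : k, ∀ (v : HeightOneSpectrum (𝓞 k))
      (ι : AlgebraicClosure k →ₐ[k] AlgebraicClosure (v.adicCompletion k))
      (A : ValuationSubring M) (φ : A →+* AlgebraicClosure (v.adicCompletion k)),
      Sel.IsPlaceOf s (v.adicCompletion k)
        (ι : _ →+* AlgebraicClosure (v.adicCompletion k)) A φ →
      ∃ h : z ∈ A, φ ⟨_, h⟩ = ι (algebraMap k _ c)) ∨
    ∀ (v : HeightOneSpectrum (𝓞 k))
      (ι : AlgebraicClosure k →ₐ[k] AlgebraicClosure (v.adicCompletion k))
      (A : ValuationSubring M) (φ : A →+* AlgebraicClosure (v.adicCompletion k)),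
      Sel.IsPlaceOf s (v.adicCompletion k)
        (ι : _ →+* AlgebraicClosure (v.adicCompletion k)) A φ →
      ∃ h : z⁻¹ ∈ A, φ ⟨_, h⟩ = 0 := by
  rcases h with ⟨c, hc⟩ | h
  · left
    by_cases hne : Nonempty (HeightOneSpectrum (𝓞 k))
    swap
    · exact ⟨0, fun v => (hne ⟨v⟩).elim⟩
    obtain ⟨v⟩ := hne
    obtain ⟨c₀, hc₀⟩ : ∃ c₀ : k, algebraMap k F c₀ = c := by
      obtain ⟨ι, A, φ, hp⟩ := hloc v
      obtain ⟨w₀, hw₀⟩ := exists_prime_over (E := F) v
      have hzA : z ∈ A := by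
        obtain ⟨ρ, ι', A', φ', j₀, j, -, -, hp', hA', -, -⟩ := up s hsec v w₀ ι A φ hp
        obtain ⟨h1, -⟩ := hc w₀ ι' A' φ' hp'
        rw [hA', hz] at h1
        exact h1
      obtain ⟨t, ht⟩ := fixed_value' hp hz hzA
      apply mem_of_approx v c
      intro γ hγ
      obtain ⟨m, hm⟩ : ∃ m : ℕ, WithZero.exp (-(m : ℤ)) < γ := by
        have hn := WithZero.exp_log hγ
        generalize WithZero.log γ = n at hn
        refine ⟨(-n).toNat + 1, ?_⟩
        rw [← hn, WithZero.exp_lt_exp]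
        omega
      obtain ⟨a, ha⟩ := exists_approx v t m
      refine ⟨a, fun w hw => ?_⟩
      obtain ⟨ρ, ι', A', φ', j₀, j, hj₀v, hj₀, hp', hA', hφ', hι'⟩ := up s hsec v w ι A φ hp
      obtain ⟨h1, h2⟩ := hc w ι' A' φ' hp'
      have hzρ : s ρ z ∈ A := (hA' z).mp h1
      rw [hφ' z hzρ h1] at h2
      have e1 : (⟨s ρ z, hzρ⟩ : A) = ⟨z, hzA⟩ := Subtype.ext (hz ρ)
      rw [e1, ht, hj₀, ι'.commutes, IsScalarTower.algebraMap_apply F (w.adicCompletion F)] at h2
      have h3 : j₀ t = algebraMap F (w.adicCompletion F) c :=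
        (algebraMap (w.adicCompletion F) (AlgebraicClosure (w.adicCompletion F))).injective h2
      have h4 : j₀ (algebraMap k (v.adicCompletion k) a) =
          algebraMap F (w.adicCompletion F) (algebraMap k F a) := by
        have h5 := hj₀ (algebraMap k (v.adicCompletion k) a)
        have h6 : algebraMap (v.adicCompletion k) (AlgebraicClosure (v.adicCompletion k))
            (algebraMap k (v.adicCompletion k) a) = ι (algebraMap k _ a) := by
          rw [ι.commutes]
          exact (IsScalarTower.algebraMap_apply k (v.adicCompletion k) _ a).symm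
        have h7 := hι' (algebraMap k _ a)
        rw [AlgEquiv.commutes, ← h6, h5] at h7
        rw [IsScalarTower.algebraMap_apply k F (AlgebraicClosure k), ι'.commutes,
          IsScalarTower.algebraMap_apply F (w.adicCompletion F)] at h7
        exact ((algebraMap (w.adicCompletion F)
          (AlgebraicClosure (w.adicCompletion F))).injective h7).symm
      have h5 : Valued.v (j₀ (t - algebraMap k (v.adicCompletion k) a)) =
          w.valuation F (c - algebraMap k F a) := by
        rw [map_sub, h3, h4, ← map_sub, val_alg]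
      rw [← h5, hj₀v]
      have he : v.asIdeal.ramificationIdx' w.asIdeal ≠ 0 :=
        Ideal.IsDedekindDomain.ramificationIdx'_ne_zero_of_liesOver w.asIdeal v.ne_bot
      have h6 : Valued.v (t - algebraMap k (v.adicCompletion k) a) ≤ 1 := by
        refine ha.trans ?_
        rw [← WithZero.exp_zero, WithZero.exp_le_exp]
        omega
      exact ((pow_le_of_le_one zero_le h6 he).trans ha).trans_lt hm
    refine ⟨c₀, fun v ι A φ hp => ?_⟩
    obtain ⟨w, hw⟩ := exists_prime_over (E := F) v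
    obtain ⟨ρ, ι', A', φ', j₀, j, hj₀v, hj₀, hp', hA', hφ', hι'⟩ := up s hsec v w ι A φ hp
    obtain ⟨h1, h2⟩ := hc w ι' A' φ' hp'
    have hzρ : s ρ z ∈ A := (hA' z).mp h1
    have hzA : z ∈ A := by rw [hz] at hzρ; exact hzρ
    refine ⟨hzA, j.injective ?_⟩
    rw [hφ' z hzρ h1] at h2
    have e1 : (⟨s ρ z, hzρ⟩ : A) = ⟨z, hzA⟩ := Subtype.ext (hz ρ)
    rw [e1] at h2
    rw [h2, ← hc₀, ← IsScalarTower.algebraMap_apply k F (AlgebraicClosure k), hι',
      AlgEquiv.commutes]
  · right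
    intro v ι A φ hp
    obtain ⟨w, hw⟩ := exists_prime_over (E := F) v
    obtain ⟨ρ, ι', A', φ', j₀, j, hj₀v, hj₀, hp', hA', hφ', hι'⟩ := up s hsec v w ι A φ hp
    obtain ⟨h1, h2⟩ := h w ι' A' φ' hp'
    have hzi : ∀ σ, s σ z⁻¹ = z⁻¹ := fun σ => by rw [map_inv₀, hz]
    have hzρ : s ρ z⁻¹ ∈ A := (hA' z⁻¹).mp h1
    have hzA : z⁻¹ ∈ A := by rw [hzi] at hzρ; exact hzρ
    refine ⟨hzA, j.injective ?_⟩
    rw [hφ' z⁻¹ hzρ h1] at h2
    have e1 : (⟨s ρ z⁻¹, hzρ⟩ : A) = ⟨z⁻¹, hzA⟩ := Subtype.ext (hzi ρ)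
    rw [e1] at h2
    rw [h2, map_zero]

/-- places over the completions of `F` -/
theorem exists_local_up (s : Gal(AlgebraicClosure k/k) →* Gal(M/K))
    (hsec : ∀ σ a, s σ (algebraMap (AlgebraicClosure k) M a) =
      algebraMap (AlgebraicClosure k) M (σ a))
    (hloc : ∀ v : HeightOneSpectrum (𝓞 k),
      ∃ (ι : AlgebraicClosure k →ₐ[k] AlgebraicClosure (v.adicCompletion k))
        (A : ValuationSubring M) (φ : A →+* AlgebraicClosure (v.adicCompletion k)),
        Sel.IsPlaceOf s (v.adicCompletion k)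
          (ι : _ →+* AlgebraicClosure (v.adicCompletion k)) A φ)
    (w : HeightOneSpectrum (𝓞 F)) :
    ∃ (ι : AlgebraicClosure k →ₐ[F] AlgebraicClosure (w.adicCompletion F))
      (A : ValuationSubring M) (φ : A →+* AlgebraicClosure (w.adicCompletion F)),
      Sel.IsPlaceOf s (w.adicCompletion F)
        (ι : _ →+* AlgebraicClosure (w.adicCompletion F)) A φ := by
  have hw : w.asIdeal.LiesOver (w.under (𝓞 k)).asIdeal := ⟨rfl⟩
  obtain ⟨ι, A, φ, hp⟩ := hloc (w.under (𝓞 k))
  obtain ⟨ρ, ι', A', φ', j₀, j, -, -, hp', -, -, -⟩ := up s hsec (w.under (𝓞 k)) w ι A φ hp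
  exact ⟨ι', A', φ', hp'⟩

end

end Pool.Agent.Lib.MP_2f3286_ag.UA
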