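import Pool.Agent.Lib.MP_2f3286_ag.UA.T6
import Pool.Agent.Lib.MP_2f3286_ag.UA.X5
import Pool.Agent.Lib.MP_2f3286_ag.Top.Assembly
import Pool.Agent.Lib.MP_2f3286_ag.Pt.Division

/-!
# X9: values which are torsion points

The value of points at a place `(ι, A, φ)`: `Top.LocalPoint.ofPlace ι A φ h` and its `.isPlaceOf.val s : (W⁄M).Point →+ (W⁄kb_v).Point` (`Top/Sec.lean`, `Top/Final.lean`, `Top/Assembly.lean`):
of `some x y` it is `some (φ x) (φ y)` if `x` is in `A` and `0` otherwise.
`no_tors`: let `P = (e, b)` be killed by `2 ^ m`, `m` minimal, `T = 2 ^ (m - 1) • P`, of order two, `T = (e', 0)`; `e'` is in `k`, because the `x`-coordinate of `2 • P` is a rational function over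
`k` of that of `P` (or use that `T` is fixed up to sign by the Galois group). The points `ζ' n = 2 ^ (m - 1) • ζ (n + 1)` are fixed by the section, `2 ζ' (n + 1) = ζ' n`, `ζ' 0` is not constant
(`Pt.Div.descend`: else `ζ 1` is constant). `orbit_of_halves` (T6) with the root `e'`, `L = M`; `dbl_not_zero_all` (X5) with `F = k` for the family of places of `hloc`; but the value of `ζ' 0`
at a place is `2 ^ (m - 1)` times that of `ζ 1`, that is `± T`, so `x (ζ' 0) - e'` has the value `0` everywhere.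
`not_cusp`: the value of `(x₁, y₁)` at the place is a point `P'` over the algebraic closure with `x`-coordinate `ι e`, so `± (ι e, ι b)`, not killed by a power of `2`; the value of `(x, y)` is
`2 P' + Q`, not killed by a power of `2`; if `x` is not in `A` it is `0`; if `x` is in `A` and the inverse of `x - a` is not, `φ x = ι a`, and the value is `± (a, b)`.
-/

open WeierstrassCurve WeierstrassCurve.Affine WeierstrassCurve.Affine.Point
open IsDedekindDomain NumberField
open scoped WithZero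
open Pool.Agent.Lib.MP_2f3286_ag

namespace Pool.Agent.Lib.MP_2f3286_ag.UA

universe u

section

variable {k : Type u} [Field k] [NumberField k] (W : WeierstrassCurve k) [W.IsShortNF]
    [W.IsElliptic] {K : Type*} [Field K] [Algebra k K]
    {M : Type*} [Field M] [Algebra K M] [Algebra.IsAlgebraic K M]
    [Algebra (AlgebraicClosure k) M] [Algebra k M]
    [IsScalarTower k K M] [IsScalarTower k (AlgebraicClosure k) M]

section aux

open Pool.Agent.Lib.MP_2f3286_ag.Top

omit [W.IsShortNF] [Algebra.IsAlgebraic K M] in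
open scoped Classical in
private theorem X9_val (s : Gal(AlgebraicClosure k/k) →* Gal(M/K))
    {v : HeightOneSpectrum (𝓞 k)}
    {ι : AlgebraicClosure k →ₐ[k] AlgebraicClosure (v.adicCompletion k)}
    {A : ValuationSubring M} {φ : A →+* AlgebraicClosure (v.adicCompletion k)}
    (hφ : Sel.IsPlaceOf s (v.adicCompletion k)
      (ι : _ →+* AlgebraicClosure (v.adicCompletion k)) A φ)
    {x y : M} (hxy : (W⁄M).Nonsingular x y) {e b : AlgebraicClosure k}
    (hx : ∃ h : x ∈ A, φ ⟨_, h⟩ = ι e)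
    (h : (W⁄(AlgebraicClosure k)).Nonsingular e b) :
    (LocalPoint.ofPlace ι A φ hφ).isPlaceOf.val s (some x y hxy : (W⁄M).Point) =
        map ι (some e b h) ∨
      (LocalPoint.ofPlace ι A φ hφ).isPlaceOf.val s (some x y hxy : (W⁄M).Point) =
        -map ι (some e b h) := by
  have := (LocalPoint.ofPlace ι A φ hφ).isLocal
  have hAB : CurveSp (LocalPoint.ofPlace ι A φ hφ).O (LocalPoint.ofPlace ι A φ hφ).φ (W⁄M)
    (W⁄(AlgebraicClosure (v.adicCompletion k))) :=
    (LocalPoint.ofPlace ι A φ hφ).isPlaceOf.curveSp s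
  have h1 : Sp A φ x (ι e) := hx
  have h2 : y ∈ A := mem_y hAB hx.1 hxy.1
  have h3 := equation_iff_nonsingular.mp (Sp.equation (O := A) (φ := φ) hAB h1 (sp_of_mem h2) hxy.1)
  have h4 : (LocalPoint.ofPlace ι A φ hφ).isPlaceOf.val s (some x y hxy : (W⁄M).Point) =
      some _ _ h3 := red_some hAB hxy h1 (sp_of_mem (O := A) (φ := φ) h2) h3
  rw [h4]
  exact X_eq_iff.mp rfl

omit [W.IsShortNF] [Algebra.IsAlgebraic K M] in
open scoped Classical in
private theorem X9_val_notMem (s : Gal(AlgebraicClosure k/k) →* Gal(M/K))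
    {v : HeightOneSpectrum (𝓞 k)}
    {ι : AlgebraicClosure k →ₐ[k] AlgebraicClosure (v.adicCompletion k)}
    {A : ValuationSubring M} {φ : A →+* AlgebraicClosure (v.adicCompletion k)}
    (hφ : Sel.IsPlaceOf s (v.adicCompletion k)
      (ι : _ →+* AlgebraicClosure (v.adicCompletion k)) A φ)
    {x y : M} (hxy : (W⁄M).Nonsingular x y) (hx : x ∉ A) :
    (LocalPoint.ofPlace ι A φ hφ).isPlaceOf.val s (some x y hxy : (W⁄M).Point) = 0 := by
  have := (LocalPoint.ofPlace ι A φ hφ).isLocal
  exact red_some_of_notMem ((LocalPoint.ofPlace ι A φ hφ).isPlaceOf.curveSp s) hxy hx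

omit [W.IsShortNF] [Algebra.IsAlgebraic K M] in
open scoped Classical in
private theorem X9_val_inv (s : Gal(AlgebraicClosure k/k) →* Gal(M/K))
    {v : HeightOneSpectrum (𝓞 k)}
    {ι : AlgebraicClosure k →ₐ[k] AlgebraicClosure (v.adicCompletion k)}
    {A : ValuationSubring M} {φ : A →+* AlgebraicClosure (v.adicCompletion k)}
    (hφ : Sel.IsPlaceOf s (v.adicCompletion k)
      (ι : _ →+* AlgebraicClosure (v.adicCompletion k)) A φ)
    {x y : M} (hxy : (W⁄M).Nonsingular x y) {e b : AlgebraicClosure k}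
    (h : (W⁄(AlgebraicClosure k)).Nonsingular e b)
    (hv : (LocalPoint.ofPlace ι A φ hφ).isPlaceOf.val s (some x y hxy : (W⁄M).Point) =
        map ι (some e b h)) : ∃ h : x ∈ A, φ ⟨_, h⟩ = ι e := by
  have := (LocalPoint.ofPlace ι A φ hφ).isLocal
  by_cases hx : x ∈ A
  · refine ⟨hx, ?_⟩
    have hAB : CurveSp (LocalPoint.ofPlace ι A φ hφ).O (LocalPoint.ofPlace ι A φ hφ).φ (W⁄M)
      (W⁄(AlgebraicClosure (v.adicCompletion k))) :=
      (LocalPoint.ofPlace ι A φ hφ).isPlaceOf.curveSp s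
    have h1 : Sp A φ x (φ ⟨x, hx⟩) := sp_of_mem hx
    have h2 : y ∈ A := mem_y hAB hx hxy.1
    have h3 := equation_iff_nonsingular.mp
      (Sp.equation (O := A) (φ := φ) hAB h1 (sp_of_mem h2) hxy.1)
    have h4 : (LocalPoint.ofPlace ι A φ hφ).isPlaceOf.val s (some x y hxy : (W⁄M).Point) =
        some _ _ h3 := red_some hAB hxy h1 (sp_of_mem (O := A) (φ := φ) h2) h3
    rw [h4] at hv
    exact (some_inj' hv).1
  · rw [X9_val_notMem W s hφ hxy hx] at hv
    exact absurd hv.symm (some_ne_zero _)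

end aux

omit [NumberField k] [W.IsElliptic] in
private theorem X9_negY (x y : k) : (W⁄k).negY x y = -y := by
  have h1 : (W⁄k).a₁ = 0 := by
    change algebraMap k k W.a₁ = 0
    rw [a₁_of_isShortNF, _root_.map_zero]
  have h3 : (W⁄k).a₃ = 0 := by
    change algebraMap k k W.a₃ = 0
    rw [a₃_of_isShortNF, _root_.map_zero]
  rw [negY, h1, h3]
  ring

omit [NumberField k] [W.IsElliptic] in
private theorem X9_root {x y : k} (h : (W⁄k).Nonsingular x y) (hy : y = 0) :
    x ^ 3 + algebraMap k k W.a₄ * x + algebraMap k k W.a₆ = 0 := by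
  have h0 := h.1
  have h1 : (W⁄k).a₁ = 0 := by
    change algebraMap k k W.a₁ = 0
    rw [a₁_of_isShortNF, _root_.map_zero]
  have h3 : (W⁄k).a₃ = 0 := by
    change algebraMap k k W.a₃ = 0
    rw [a₃_of_isShortNF, _root_.map_zero]
  have h2 : (W⁄k).a₂ = 0 := by
    change algebraMap k k W.a₂ = 0
    rw [a₂_of_isShortNF, _root_.map_zero]
  have h4 : (W⁄k).a₄ = algebraMap k k W.a₄ := rfl
  have h6 : (W⁄k).a₆ = algebraMap k k W.a₆ := rfl
  rw [equation_iff, h1, h2, h3, h4, h6, hy] at h0
  linear_combination -h0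

open scoped Classical in
/-- the reduction to a point of order two with coordinates in `k` -/
private theorem X9_two {e : k} {b : AlgebraicClosure k}
    (h : (W⁄(AlgebraicClosure k)).Nonsingular (algebraMap k _ e) b)
    (hm : ∃ m : ℕ, 2 ^ m • (some _ b h : (W⁄(AlgebraicClosure k)).Point) = 0) :
    ∃ (m : ℕ) (e' : k) (h' : (W⁄k).Nonsingular e' 0),
      2 ^ m • (some _ b h : (W⁄(AlgebraicClosure k)).Point) =
        baseChange k (AlgebraicClosure k) (some e' 0 h') ∧
      (2 : ℕ) • (some e' 0 h' : (W⁄k).Point) = 0 := by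
  set P : (W⁄(AlgebraicClosure k)).Point := some _ b h with hP
  have hmin := Nat.find_spec hm
  have hne : Nat.find hm ≠ 0 := by
    intro h0
    rw [h0, pow_zero, one_smul] at hmin
    exact some_ne_zero _ hmin
  obtain ⟨m, hm'⟩ := Nat.exists_eq_succ_of_ne_zero hne
  have hT0 : 2 ^ m • P ≠ 0 := Nat.find_min hm (by omega)
  have hT2 : (2 : ℕ) • (2 ^ m • P) = 0 := by
    rw [← mul_smul, mul_comm, ← pow_succ]
    rw [hm'] at hmin
    exact hmin
  have hneg : -(2 ^ m • P : (W⁄(AlgebraicClosure k)).Point) =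
      (2 ^ m • P : (W⁄(AlgebraicClosure k)).Point) := by
    rw [neg_eq_iff_add_eq_zero, ← two_nsmul]
    exact hT2
  have hfix : ∀ σ : Gal(AlgebraicClosure k/k), Top.act W σ (2 ^ m • P) = 2 ^ m • P := by
    intro σ
    have h1 : Top.act W σ P = P ∨ Top.act W σ P = -P := by
      have h2 : (W⁄(AlgebraicClosure k)).Nonsingular (algebraMap k _ e) (σ b) := by
        have h3 := (Affine.baseChange_nonsingular W (σ : AlgebraicClosure k →ₐ[k] AlgebraicClosure k).injective
          (algebraMap k _ e) b).mpr h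
        have h4 : (σ : AlgebraicClosure k →ₐ[k] AlgebraicClosure k) (algebraMap k _ e) =
          algebraMap k _ e := σ.commutes e
        rw [h4] at h3
        exact h3
      have h5 : Top.act W σ P = some (algebraMap k _ e) (σ b) h2 :=
        Top.some_ext _ _ (σ.commutes e) rfl
      rw [h5]
      exact X_eq_iff.mp rfl
    rcases h1 with h1 | h1
    · rw [map_nsmul, h1]
    · rw [map_nsmul, h1, smul_neg, hneg]
  obtain ⟨Q, hQ⟩ := Top.exists_of_fixed (F := k) (2 ^ m • P) hfix
  rcases Q with _ | ⟨e', b', h'⟩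
  · exact absurd hQ.symm hT0
  have hQ2 : (2 : ℕ) • (some e' b' h' : (W⁄k).Point) = 0 := by
    apply Top.bc_injective k (AlgebraicClosure k)
    rw [map_nsmul, hQ, hT2, _root_.map_zero]
  have hb' : b' = 0 := by
    by_contra hb
    have hne' : b' ≠ (W⁄k).negY e' b' := by
      rw [X9_negY W]
      intro h1
      apply hb
      have h2 : (2 : k) * b' = 0 := by linear_combination h1
      exact (mul_eq_zero.1 h2).resolve_left two_ne_zero
    rw [two_nsmul, add_self_of_Y_ne hne'] at hQ2
    exact some_ne_zero _ hQ2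
  subst hb'
  exact ⟨m, e', h', hQ.symm, hQ2⟩

open scoped Classical in
/-- **The constant value is not the coordinate of a point of 2-power order.** -/
theorem no_tors
    (𝒱 : Set (ValuationSubring M))
    (h𝒱 : ∀ V ∈ 𝒱, ∀ a : AlgebraicClosure k, algebraMap (AlgebraicClosure k) M a ∈ V)
    (hrad : ∀ n : ℕ, 1 ≤ n → ∀ ρ : M, ρ ≠ 0 →
      (∀ V ∈ 𝒱, ∃ y : M, y ≠ 0 ∧ V.valuation ρ = V.valuation y ^ n) → ∃ β : M, β ^ n = ρ)
    (s : Gal(AlgebraicClosure k/k) →* Gal(M/K)) (hs : Continuous s)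
    (hsec : ∀ σ a, s σ (algebraMap (AlgebraicClosure k) M a) =
      algebraMap (AlgebraicClosure k) M (σ a))
    (hloc : ∀ v : HeightOneSpectrum (𝓞 k),
      ∃ (ι : AlgebraicClosure k →ₐ[k] AlgebraicClosure (v.adicCompletion k))
        (A : ValuationSubring M) (φ : A →+* AlgebraicClosure (v.adicCompletion k)),
        Sel.IsPlaceOf s (v.adicCompletion k)
          (ι : _ →+* AlgebraicClosure (v.adicCompletion k)) A φ)
    (ζ : ℕ → (W⁄M).Point) (hfix : ∀ n σ, Top.act W (s σ) (ζ n) = ζ n)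
    (hζ : ∀ n, (2 : ℕ) • ζ (n + 1) = ζ n)
    (hnc : ∀ Q : (W⁄(AlgebraicClosure k)).Point, ζ 1 ≠ baseChange (AlgebraicClosure k) M Q)
    {x₁ y₁ : M} (h₁ : (W⁄M).Nonsingular x₁ y₁) (hζ1 : ζ 1 = some x₁ y₁ h₁) {e : k}
    (he : ∀ (v : HeightOneSpectrum (𝓞 k))
        (ι : AlgebraicClosure k →ₐ[k] AlgebraicClosure (v.adicCompletion k))
        (A : ValuationSubring M) (φ : A →+* AlgebraicClosure (v.adicCompletion k)),
        Sel.IsPlaceOf s (v.adicCompletion k)
          (ι : _ →+* AlgebraicClosure (v.adicCompletion k)) A φ →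
        ∃ h : x₁ ∈ A, φ ⟨_, h⟩ = ι (algebraMap k _ e))
    {b : AlgebraicClosure k} (h : (W⁄(AlgebraicClosure k)).Nonsingular (algebraMap k _ e) b)
    (m : ℕ) : 2 ^ m • (some _ b h : (W⁄(AlgebraicClosure k)).Point) ≠ 0 := by
  intro hm0
  obtain ⟨m, e', h', hT, hT2⟩ := X9_two W h ⟨m, hm0⟩
  have hcz : CharZero M := charZero_of_injective_algebraMap (algebraMap k M).injective
  have hroot : e' ^ 3 + algebraMap k k W.a₄ * e' + algebraMap k k W.a₆ = 0 := X9_root W h' rfl
  have hrootM : (algebraMap k M e') ^ 3 + algebraMap k M W.a₄ * algebraMap k M e' +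
      algebraMap k M W.a₆ = 0 := by
    have h1 := congrArg (algebraMap k M) hroot
    simpa only [map_add, map_mul, map_pow, _root_.map_zero, Algebra.algebraMap_self,
      RingHom.id_apply] using h1
  -- the point ζ' 0 is not constant
  have hnc' : ∀ R : (W⁄(AlgebraicClosure k)).Point,
      2 ^ m • ζ 1 ≠ baseChange (AlgebraicClosure k) M R := by
    intro R hR
    obtain ⟨ξ, hξ⟩ := Pt.Div.descend (Nat.one_le_two_pow) (ζ 1) R hR
    exact hnc ξ hξ.symm
  have hbc : baseChange k M (some e' 0 h' : (W⁄k).Point) =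
      baseChange (AlgebraicClosure k) M (baseChange k (AlgebraicClosure k) (some e' 0 h')) :=
    Top.some_ext _ _ (IsScalarTower.algebraMap_apply k (AlgebraicClosure k) M e')
      (IsScalarTower.algebraMap_apply k (AlgebraicClosure k) M 0)
  obtain ⟨x, y, hxy, hζ', hx0, hdbl⟩ := orbit_of_halves (L := M) W two_ne_zero hrootM
    (fun n => 2 ^ m • ζ (n + 1)) (by
      intro n
      rw [← mul_smul, mul_comm, mul_smul, hζ]) (by
      intro h0
      apply hnc' 0
      rw [_root_.map_zero]
      exact h0) (by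
      intro y' h1 h2
      apply hnc' (baseChange k (AlgebraicClosure k) (some e' 0 h'))
      rw [← hbc]
      refine h2.trans ?_
      have hy' : y' = 0 := by
        have h3 := h1.1
        have a1 : (W⁄M).a₁ = 0 := by
          change algebraMap k M W.a₁ = 0
          rw [a₁_of_isShortNF, _root_.map_zero]
        have a3 : (W⁄M).a₃ = 0 := by
          change algebraMap k M W.a₃ = 0
          rw [a₃_of_isShortNF, _root_.map_zero]
        have a2 : (W⁄M).a₂ = 0 := by
          change algebraMap k M W.a₂ = 0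
          rw [a₂_of_isShortNF, _root_.map_zero]
        have a4 : (W⁄M).a₄ = algebraMap k M W.a₄ := rfl
        have a6 : (W⁄M).a₆ = algebraMap k M W.a₆ := rfl
        rw [equation_iff, a1, a2, a3, a4, a6] at h3
        have h4 : y' ^ 2 = 0 := by linear_combination h3 + hrootM
        exact pow_eq_zero_iff (two_ne_zero) |>.1 h4
      exact Top.some_ext _ _ rfl (hy'.trans (_root_.map_zero _).symm))
  -- the family of places
  choose ι A φ hφ using hloc
  obtain ⟨w, hw⟩ := dbl_not_zero_all (k := k) (F := k) (α := 3 * e')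
    (β := 3 * e' ^ 2 + algebraMap k k W.a₄) (K := K) (M := M) (beta_ne_zero (L := k) W hroot)
    (disc_ne_zero (L := k) W hroot) 𝒱
    (fun V hV a => by
      rw [IsScalarTower.algebraMap_apply k (AlgebraicClosure k) M]
      exact h𝒱 V hV _)
    (hrad 2 (by norm_num)) s hs hsec (fun n => x n - algebraMap k M e')
    (by
      intro n σ _
      have h1 : Top.act W (s σ) (2 ^ m • ζ (n + 1)) = 2 ^ m • ζ (n + 1) := by
        rw [map_nsmul, hfix]
      have h2 : (2 ^ m • ζ (n + 1) : (W⁄M).Point) = some (x n) (y n) (hxy n) := hζ' n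
      rw [h2, Top.act, map_some, some.injEq] at h1
      have h3 : s σ (x n) = x n := h1.1
      have h4 : s σ (algebraMap k M e') = algebraMap k M e' := by
        rw [IsScalarTower.algebraMap_apply k K M]
        exact (s σ).commutes _
      rw [map_sub, h3, h4])
    hx0
    (by
      intro n
      have h1 := hdbl n
      have e1 : algebraMap k M (3 * e') = 3 * algebraMap k M e' := by
        rw [map_mul, map_ofNat]
      have e2 : algebraMap k M (3 * e' ^ 2 + algebraMap k k W.a₄) =
          3 * (algebraMap k M e') ^ 2 + algebraMap k M W.a₄ := by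
        rw [map_add, map_mul, map_ofNat, map_pow]
        rfl
      rw [e1, e2]
      exact h1)
    ι A φ hφ
  apply hw
  have hv1 := X9_val W s (hφ w) h₁ (he w (ι w) (A w) (φ w) (hφ w)) h
  have hT' : 2 ^ m • map (ι w) (some _ b h : (W⁄(AlgebraicClosure k)).Point) =
      map (ι w) (baseChange k (AlgebraicClosure k) (some e' 0 h')) := by
    rw [← map_nsmul, hT]
  have hneg : -map (ι w) (baseChange k (AlgebraicClosure k) (some e' 0 h')) =
      map (ι w) (baseChange k (AlgebraicClosure k) (some e' 0 h')) := by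
    rw [neg_eq_iff_add_eq_zero, ← two_nsmul, ← map_nsmul, ← map_nsmul, hT2, _root_.map_zero,
      _root_.map_zero]
  have hv2 : (Top.LocalPoint.ofPlace (ι w) (A w) (φ w) (hφ w)).isPlaceOf.val s (2 ^ m • ζ 1) =
      map (ι w) (baseChange k (AlgebraicClosure k) (some e' 0 h')) := by
    rw [map_nsmul, hζ1]
    rcases hv1 with hv1 | hv1
    · rw [hv1, hT']
    · rw [hv1, smul_neg, hT', hneg]
  have h2 : (2 ^ m • ζ 1 : (W⁄M).Point) = some (x 0) (y 0) (hxy 0) := hζ' 0
  rw [h2] at hv2
  have hns : (W⁄(AlgebraicClosure k)).Nonsingular (algebraMap k _ e') (algebraMap k _ 0) :=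
    (Affine.baseChange_nonsingular W (Algebra.ofId k (AlgebraicClosure k)).injective e' 0).mpr h'
  obtain ⟨h5, h6⟩ := X9_val_inv W s (hφ w) (hxy 0) hns hv2
  obtain ⟨h7, h8⟩ := (hφ w).1 (algebraMap k _ e')
  have h9 : algebraMap k M e' ∈ A w := by
    rw [IsScalarTower.algebraMap_apply k (AlgebraicClosure k) M]
    exact h7
  have h10 : φ w ⟨algebraMap k M e', h9⟩ = ι w (algebraMap k _ e') := by
    refine Eq.trans ?_ h8
    exact congrArg (φ w) (Subtype.ext (IsScalarTower.algebraMap_apply k (AlgebraicClosure k) M e'))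
  refine ⟨sub_mem h5 h9, ?_⟩
  have h11 : (⟨x 0 - algebraMap k M e', sub_mem h5 h9⟩ : A w) =
      ⟨x 0, h5⟩ - ⟨algebraMap k M e', h9⟩ := rfl
  exact (congrArg (φ w) h11).trans (by rw [map_sub, h6, h10, sub_self])

open scoped Classical in
/-- **No cusps.** -/
theorem not_cusp (s : Gal(AlgebraicClosure k/k) →* Gal(M/K))
    {v : HeightOneSpectrum (𝓞 k)}
    {ι : AlgebraicClosure k →ₐ[k] AlgebraicClosure (v.adicCompletion k)}
    {A : ValuationSubring M} {φ : A →+* AlgebraicClosure (v.adicCompletion k)}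
    (hφ : Sel.IsPlaceOf s (v.adicCompletion k)
      (ι : _ →+* AlgebraicClosure (v.adicCompletion k)) A φ)
    {x₁ y₁ x y : M} (h₁ : (W⁄M).Nonsingular x₁ y₁) (hxy : (W⁄M).Nonsingular x y)
    {Q : (W⁄k).Point} (hQ : ∃ m : ℕ, 2 ^ m • Q = 0)
    (h2 : (2 : ℕ) • (some x₁ y₁ h₁ : (W⁄M).Point) = some x y hxy - baseChange k M Q)
    {e : k} (he : ∃ h : x₁ ∈ A, φ ⟨_, h⟩ = ι (algebraMap k _ e))
    (htor : ∀ (b : AlgebraicClosure k)
      (h : (W⁄(AlgebraicClosure k)).Nonsingular (algebraMap k _ e) b) (m : ℕ),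
      2 ^ m • (some _ b h : (W⁄(AlgebraicClosure k)).Point) ≠ 0) :
    x ∈ A ∧ ∀ (a b : k) (h : (W⁄k).Nonsingular a b),
      (∃ m : ℕ, 2 ^ m • (some a b h : (W⁄k).Point) = 0) → (x - algebraMap k M a)⁻¹ ∈ A := by
  obtain ⟨b₀, hb₀⟩ := Pt.Div.exists_pt (A := (W⁄(AlgebraicClosure k)))
    (algebraMap k (AlgebraicClosure k) e)
  obtain ⟨mQ, hmQ⟩ := hQ
  have hv1 := X9_val W s hφ h₁ he hb₀
  -- the value of the point is not killed by a power of two
  have hv1' : ∀ m : ℕ, 2 ^ m • (Top.LocalPoint.ofPlace ι A φ hφ).isPlaceOf.val s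
      (some x₁ y₁ h₁ : (W⁄M).Point) ≠ 0 := by
    intro m hm
    apply htor b₀ hb₀ m
    have hinj := map_injective (W' := W) ι
    apply hinj
    rw [map_nsmul, _root_.map_zero]
    rcases hv1 with hv1 | hv1
    · rw [← hv1]
      exact hm
    · rw [hv1, smul_neg, neg_eq_zero] at hm
      exact hm
  have hbc : (baseChange k M Q : (W⁄M).Point) =
      baseChange (AlgebraicClosure k) M (baseChange k (AlgebraicClosure k) Q) := by
    rcases Q with _ | ⟨c, d, hcd⟩
    · rfl
    · exact Top.some_ext _ _ (IsScalarTower.algebraMap_apply k (AlgebraicClosure k) M c)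
        (IsScalarTower.algebraMap_apply k (AlgebraicClosure k) M d)
  have hvQ : 2 ^ mQ • (Top.LocalPoint.ofPlace ι A φ hφ).isPlaceOf.val s
      (baseChange k M Q : (W⁄M).Point) = 0 := by
    rw [hbc, ← map_nsmul, ← map_nsmul, ← map_nsmul, hmQ, _root_.map_zero, _root_.map_zero,
      _root_.map_zero]
  have hvx : ∀ m : ℕ, 2 ^ m • (Top.LocalPoint.ofPlace ι A φ hφ).isPlaceOf.val s
      (some x y hxy : (W⁄M).Point) ≠ 0 := by
    intro m hm
    apply hv1' (m + mQ + 1)
    have h3 : (some x y hxy : (W⁄M).Point) =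
        (2 : ℕ) • (some x₁ y₁ h₁ : (W⁄M).Point) + baseChange k M Q := by
      rw [h2, sub_add_cancel]
    have h4 := congrArg (fun P => 2 ^ (m + mQ) •
      (Top.LocalPoint.ofPlace ι A φ hφ).isPlaceOf.val s P) h3
    have h5 : 2 ^ (m + mQ) • (Top.LocalPoint.ofPlace ι A φ hφ).isPlaceOf.val s
        (some x y hxy : (W⁄M).Point) = 0 := by
      rw [pow_add, mul_comm, mul_smul, hm, smul_zero]
    have h6 : 2 ^ (m + mQ) • (Top.LocalPoint.ofPlace ι A φ hφ).isPlaceOf.val s
        (baseChange k M Q : (W⁄M).Point) = 0 := by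
      rw [pow_add, mul_smul, hvQ, smul_zero]
    have h7 : 2 ^ (m + mQ) • (Top.LocalPoint.ofPlace ι A φ hφ).isPlaceOf.val s
        (some x y hxy : (W⁄M).Point) = 2 ^ (m + mQ) •
          (Top.LocalPoint.ofPlace ι A φ hφ).isPlaceOf.val s
          ((2 : ℕ) • (some x₁ y₁ h₁ : (W⁄M).Point) + baseChange k M Q) := h4
    rw [h5, map_add, smul_add, h6, add_zero, map_nsmul, ← mul_smul] at h7
    rw [pow_succ]
    exact h7.symm
  refine ⟨?_, ?_⟩
  · by_contra hxA
    apply hvx 0
    rw [X9_val_notMem W s hφ hxy hxA, smul_zero]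
  · rintro a b hab ⟨m, hm⟩
    by_contra hinv
    have hxA : x ∈ A := by
      by_contra hxA
      apply hvx 0
      rw [X9_val_notMem W s hφ hxy hxA, smul_zero]
    obtain ⟨h7, h8⟩ := hφ.1 (algebraMap k _ a)
    have h9 : algebraMap k M a ∈ A := by
      rw [IsScalarTower.algebraMap_apply k (AlgebraicClosure k) M]
      exact h7
    have h10 : φ ⟨algebraMap k M a, h9⟩ = ι (algebraMap k _ a) := by
      refine Eq.trans ?_ h8
      exact congrArg φ (Subtype.ext (IsScalarTower.algebraMap_apply k (AlgebraicClosure k) M a))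
    have h11 : φ (⟨x, hxA⟩ - ⟨algebraMap k M a, h9⟩) = 0 := by
      by_contra hne
      exact hinv (hφ.2.1 _ hne)
    have h12 : ∃ h : x ∈ A, φ ⟨_, h⟩ = ι (algebraMap k _ a) := by
      refine ⟨hxA, ?_⟩
      rw [map_sub, h10, sub_eq_zero] at h11
      exact h11
    have hns : (W⁄(AlgebraicClosure k)).Nonsingular (algebraMap k _ a) (algebraMap k _ b) :=
      (Affine.baseChange_nonsingular W (Algebra.ofId k (AlgebraicClosure k)).injective a b).mpr hab
    have h13 := X9_val W s hφ hxy h12 hns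
    have h14 : 2 ^ m • map ι (some _ _ hns : (W⁄(AlgebraicClosure k)).Point) = 0 := by
      have h15 : (some _ _ hns : (W⁄(AlgebraicClosure k)).Point) =
        baseChange k (AlgebraicClosure k) (some a b hab : (W⁄k).Point) := rfl
      rw [h15, ← map_nsmul, ← map_nsmul, hm, _root_.map_zero, _root_.map_zero]
    apply hvx m
    rcases h13 with h13 | h13
    · rw [h13, h14]
    · rw [h13, smul_neg, h14, _root_.neg_zero]

end

end Pool.Agent.Lib.MP_2f3286_ag.UA
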