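import Pool.Agent.Lib.MP_2f3286_ag.UA.X1
import Pool.Agent.Lib.MP_2f3286_ag.UA.X2
import Pool.Agent.Lib.MP_2f3286_ag.UA.X3
import Pool.Agent.Lib.MP_2f3286_ag.UA.X5
import Pool.Agent.Lib.MP_2f3286_ag.UA.X7
import Pool.Agent.Lib.MP_2f3286_ag.UA.X9

/-!
# X8: the arithmetic half of the theorem

Steps.
(1) `exists_div_two_pow` (X1, `hrad 2`), `exists_halves_gen` (X2) for `η = (x, y)`: `Q`, `ζ n` in `W(M)`, fixed by the section, `ζ 0 = η - Q`, `2 ζ (n + 1) = ζ n`.
(2) `ζ 0` is not constant: if `ζ 0` is a point over `AlgebraicClosure k` (embedded in `M`), it is fixed, so in `W(k)` (`Top.exists_of_fixed_const`) and `η` is in `W(k)` (`Top.bc_injective`).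
(3) For every root `e` in `AlgebraicClosure k` of the cubic: `orbit_of_halves` (T6) over `L = M` (`x (ζ n) - e`). `x_sub_mem` (X3): `x (ζ 0)` is in `V` for `V` in the set; `orbit_unit` (X3):
`x (ζ (n + 1)) - e` has value `1` at `V` (`β = 3 e ^ 2 + a₄` is a nonzero constant). So `x₁ = x (ζ 1)` is in `V`, and `y₁ ^ 2` is the product of the three `x₁ - e i`, so `y₁⁻¹` is in `V`.
(4) `F` = the splitting field of the cubic in `AlgebraicClosure k` (`IntermediateField.adjoin k (rootSet)`, Galois over `k`), `e` a root in `F`: `tri_dbl_all` (X5) for the orbit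
`a n = x (ζ (n + 1)) - e`; `hloc` over `F` by `exists_local_up` (X7). So `x₁` has a constant value in `F`, or is infinite, at all places over the `F_w`, and the same over `k` by `value_down` (X7).
(5) `no_tors` (X9): the constant `e₀` in `k` is not the `x`-coordinate of a point of 2-power order, in particular not a root of the cubic; and `not_cusp` (X9) gives the last clause.
-/

open WeierstrassCurve WeierstrassCurve.Affine WeierstrassCurve.Affine.Point
open IsDedekindDomain NumberField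
open scoped WithZero
open Pool.Agent.Lib.MP_2f3286_ag

namespace Pool.Agent.Lib.MP_2f3286_ag.UA

universe u

private theorem X8_root {k : Type*} [Field k] (W : WeierstrassCurve k) {kb : Type*} [Field kb]
    [Algebra k kb] {e₁ e₂ e₃ : kb} (h : IsRoots W e₁ e₂ e₃) :
    (e₁ ^ 3 + algebraMap k kb W.a₄ * e₁ + algebraMap k kb W.a₆ = 0) ∧
    (e₂ ^ 3 + algebraMap k kb W.a₄ * e₂ + algebraMap k kb W.a₆ = 0) ∧
    (e₃ ^ 3 + algebraMap k kb W.a₄ * e₃ + algebraMap k kb W.a₆ = 0) := by
  obtain ⟨h0, h4, h6⟩ := h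
  refine ⟨?_, ?_, ?_⟩
  · rw [h4, h6]
    linear_combination e₁ ^ 2 * h0
  · rw [h4, h6]
    linear_combination e₂ ^ 2 * h0
  · rw [h4, h6]
    linear_combination e₃ ^ 2 * h0

/-- the value of the inverse of `z` from that of the inverse of `z - c` -/
private theorem X8_inv {M Fb : Type*} [Field M] [Field Fb] (A : ValuationSubring M)
    (φ : A →+* Fb) (hA : ∀ x : A, φ x ≠ 0 → (x : M)⁻¹ ∈ A) {z c : M} (hc : c ∈ A)
    (hzc : z - c ≠ 0) (h : ∃ h : (z - c)⁻¹ ∈ A, φ ⟨_, h⟩ = 0) :
    ∃ h : z⁻¹ ∈ A, φ ⟨_, h⟩ = 0 := by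
  obtain ⟨h1, h2⟩ := h
  have h4 : φ (1 + ⟨c, hc⟩ * ⟨_, h1⟩) = 1 := by
    rw [map_add, map_mul, h2, mul_zero, add_zero, _root_.map_one]
  have h5 : (1 + c * (z - c)⁻¹)⁻¹ ∈ A := hA (1 + ⟨c, hc⟩ * ⟨_, h1⟩) (by
    rw [h4]
    exact one_ne_zero)
  have h6 : z⁻¹ = (z - c)⁻¹ * (1 + c * (z - c)⁻¹)⁻¹ := by
    rw [← mul_inv]
    congr 1
    rw [mul_add, mul_one, mul_left_comm, mul_inv_cancel₀ hzc, mul_one]
    ring
  have h7 : z⁻¹ ∈ A := by
    rw [h6]
    exact A.mul_mem _ _ h1 h5
  refine ⟨h7, ?_⟩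
  have h8 : (⟨z⁻¹, h7⟩ : A) = ⟨_, h1⟩ * ⟨_, h5⟩ := Subtype.ext h6
  rw [h8, map_mul, h2, zero_mul]

/-- the value of `z` from that of `z - c` -/
private theorem X8_val {M Fb : Type*} [Field M] [Field Fb] (A : ValuationSubring M)
    (φ : A →+* Fb) {z c : M} (hc : c ∈ A) {v : Fb} (h : ∃ h : z - c ∈ A, φ ⟨_, h⟩ = v) :
    ∃ h : z ∈ A, φ ⟨_, h⟩ = v + φ ⟨_, hc⟩ := by
  obtain ⟨h1, h2⟩ := h
  have h3 : z ∈ A := by
    have h4 := A.add_mem _ _ h1 hc
    rwa [sub_add_cancel] at h4
  refine ⟨h3, ?_⟩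
  have h5 : (⟨z, h3⟩ : A) = ⟨_, h1⟩ + ⟨_, hc⟩ := Subtype.ext (sub_add_cancel z c).symm
  rw [h5, map_add, h2]

private theorem X8_unit {M : Type*} [Field M] {kb : Type*} [Field kb] [Algebra kb M]
    (V : ValuationSubring M) (hV : ∀ a : kb, algebraMap kb M a ∈ V) {a : kb} (ha : a ≠ 0) :
    V.valuation (algebraMap kb M a) = 1 := by
  have h1 : V.valuation (algebraMap kb M a) ≤ 1 := (V.valuation_le_one_iff _).2 (hV _)
  have h2 : V.valuation (algebraMap kb M a⁻¹) ≤ 1 := (V.valuation_le_one_iff _).2 (hV _)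
  rw [map_inv₀, map_inv₀] at h2
  have h3 : V.valuation (algebraMap kb M a) ≠ 0 := by
    rw [Valuation.ne_zero_iff]
    exact (map_ne_zero _).2 ha
  exact le_antisymm h1 ((inv_le_one₀ (zero_lt_iff.2 h3)).1 h2)

open scoped Classical in
/-- **The arithmetic half.** -/
theorem tri_E {k : Type u} [Field k] [NumberField k] (W : WeierstrassCurve k) [W.IsShortNF]
    [W.IsElliptic] (hrk : ∀ Q : (W⁄k).Point, IsOfFinAddOrder Q) {j : ℕ}
    (hsha : ShaTwoKilledBy W j)
    {K : Type*} [Field K] [Algebra k K] (htr : Algebra.trdeg k K = 1)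
    {M : Type*} [Field M] [Algebra K M] [Algebra.IsAlgebraic K M]
    [Algebra (AlgebraicClosure k) M] [Algebra k M]
    [IsScalarTower k K M] [IsScalarTower k (AlgebraicClosure k) M]
    (𝒱 : Set (ValuationSubring M))
    (h𝒱 : ∀ V ∈ 𝒱, ∀ a : AlgebraicClosure k, algebraMap (AlgebraicClosure k) M a ∈ V)
    (hrad : ∀ n : ℕ, 1 ≤ n → ∀ ρ : M, ρ ≠ 0 →
      (∀ V ∈ 𝒱, ∃ y : M, y ≠ 0 ∧ V.valuation ρ = V.valuation y ^ n) → ∃ β : M, β ^ n = ρ)
    (s : Gal(AlgebraicClosure k/k) →* Gal(M/K)) (hs : Continuous s)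
    (hsec : ∀ σ a, s σ (algebraMap (AlgebraicClosure k) M a) =
      algebraMap (AlgebraicClosure k) M (σ a))
    {x y : K} (hxy : (W⁄K).Nonsingular x y) (hx : ∀ c : k, x ≠ algebraMap k K c)
    (hV : ∀ V ∈ 𝒱, algebraMap K M x ∈ V)
    (hV' : ∀ V ∈ 𝒱, ∀ (a b : k) (h : (W⁄k).Nonsingular a b),
      (∃ m : ℕ, 2 ^ m • (some a b h : (W⁄k).Point) = 0) →
        (algebraMap K M (x - algebraMap k K a))⁻¹ ∈ V)
    (hloc : ∀ v : HeightOneSpectrum (𝓞 k),
      ∃ (ι : AlgebraicClosure k →ₐ[k] AlgebraicClosure (v.adicCompletion k))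
        (A : ValuationSubring M) (φ : A →+* AlgebraicClosure (v.adicCompletion k)),
        Sel.IsPlaceOf s (v.adicCompletion k)
          (ι : _ →+* AlgebraicClosure (v.adicCompletion k)) A φ) :
    ∃ (Q : (W⁄k).Point) (x₁ y₁ : M) (h₁ : (W⁄M).Nonsingular x₁ y₁),
      (∃ m : ℕ, 2 ^ m • Q = 0) ∧ (∀ σ, s σ x₁ = x₁ ∧ s σ y₁ = y₁) ∧
      (2 : ℕ) • (some x₁ y₁ h₁ : (W⁄M).Point) =
        baseChange K M (some x y hxy) - baseChange k M Q ∧
      (∀ c : AlgebraicClosure k, x₁ ≠ algebraMap (AlgebraicClosure k) M c) ∧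
      (∀ V ∈ 𝒱, x₁ ∈ V ∧ y₁⁻¹ ∈ V) ∧
      ((∃ e : k, e ^ 3 + W.a₄ * e + W.a₆ ≠ 0 ∧ ∀ (v : HeightOneSpectrum (𝓞 k))
        (ι : AlgebraicClosure k →ₐ[k] AlgebraicClosure (v.adicCompletion k))
        (A : ValuationSubring M) (φ : A →+* AlgebraicClosure (v.adicCompletion k)),
        Sel.IsPlaceOf s (v.adicCompletion k)
          (ι : _ →+* AlgebraicClosure (v.adicCompletion k)) A φ →
        (∃ h : x₁ ∈ A, φ ⟨_, h⟩ = ι (algebraMap k _ e)) ∧ algebraMap K M x ∈ A ∧
          ∀ (a b : k) (h : (W⁄k).Nonsingular a b),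
            (∃ m : ℕ, 2 ^ m • (some a b h : (W⁄k).Point) = 0) →
            (algebraMap K M (x - algebraMap k K a))⁻¹ ∈ A) ∨
      ∀ (v : HeightOneSpectrum (𝓞 k))
        (ι : AlgebraicClosure k →ₐ[k] AlgebraicClosure (v.adicCompletion k))
        (A : ValuationSubring M) (φ : A →+* AlgebraicClosure (v.adicCompletion k)),
        Sel.IsPlaceOf s (v.adicCompletion k)
          (ι : _ →+* AlgebraicClosure (v.adicCompletion k)) A φ →
        ∃ h : x₁⁻¹ ∈ A, φ ⟨_, h⟩ = 0) := by
  have hcharM : CharZero M := charZero_of_injective_algebraMap (algebraMap k M).injective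
  have hcharb : CharZero (AlgebraicClosure k) :=
    charZero_of_injective_algebraMap (algebraMap k (AlgebraicClosure k)).injective
  have hdiv : ∀ n : ℕ, ∃ T : (W⁄M).Point, 2 ^ n • T = baseChange K M (some x y hxy) := fun n =>
    exists_div_two_pow W two_ne_zero 𝒱 h𝒱 (hrad 2 one_le_two) n _
  obtain ⟨Q, ζ, hQ, hact, hd, hζ0⟩ := exists_halves_gen W hs hsec hloc hrk hsha
    (some x y hxy) hdiv
  have hζpow : ∀ n, 2 ^ n • ζ n = ζ 0 := by
    intro n
    induction n with
    | zero => rw [pow_zero, one_smul]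
    | succ n ih => rw [pow_succ, mul_smul, hd, ih]
  -- the points are not constant
  have hnc : ∀ n (R : (W⁄(AlgebraicClosure k)).Point),
      ζ n ≠ baseChange (AlgebraicClosure k) M R := by
    intro n R hR
    obtain ⟨Q', hQ'⟩ := Top.exists_of_fixed_const s hsec R (fun σ => by rw [← hR]; exact hact n σ)
    have h1 : ζ 0 = baseChange k M (2 ^ n • Q') := by
      rw [← hζpow n, hR, ← hQ', Top.bc_bc, map_nsmul]
    have h2 : baseChange K M (some x y hxy) = baseChange K M (baseChange k K (2 ^ n • Q' + Q)) := by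
      rw [Top.bc_bc, map_add, ← h1, hζ0, sub_add_cancel]
    have h3 := Top.bc_injective K M h2
    rcases hR2 : 2 ^ n • Q' + Q with _ | ⟨a, b, hab⟩
    · rw [hR2] at h3
      exact some_ne_zero hxy h3
    · rw [hR2] at h3
      exact hx a (some.inj h3).1
  have key : ∀ (n : ℕ) (x₀ : AlgebraicClosure k) (y' : M)
      (h : (W⁄M).Nonsingular (algebraMap (AlgebraicClosure k) M x₀) y'),
      ζ n ≠ some (algebraMap (AlgebraicClosure k) M x₀) y' h := by
    intro n x₀ y' h h0
    have hy2 : y' ^ 2 = algebraMap (AlgebraicClosure k) M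
        (x₀ ^ 3 + algebraMap k _ W.a₄ * x₀ + algebraMap k _ W.a₆) := by
      have e1 := (Affine.equation_iff _ _).1 h.1
      have ea1 : (W⁄M).a₁ = 0 := (W⁄M).a₁_of_isShortNF
      have ea2 : (W⁄M).a₂ = 0 := (W⁄M).a₂_of_isShortNF
      have ea3 : (W⁄M).a₃ = 0 := (W⁄M).a₃_of_isShortNF
      have ea4 : (W⁄M).a₄ = algebraMap (AlgebraicClosure k) M (algebraMap k _ W.a₄) := by
        rw [← IsScalarTower.algebraMap_apply]; rfl
      have ea6 : (W⁄M).a₆ = algebraMap (AlgebraicClosure k) M (algebraMap k _ W.a₆) := by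
        rw [← IsScalarTower.algebraMap_apply]; rfl
      rw [ea1, ea2, ea3, ea4, ea6] at e1
      simp only [map_add, map_mul, map_pow]
      linear_combination e1
    obtain ⟨y₀, hy₀⟩ : ∃ y₀ : AlgebraicClosure k, algebraMap (AlgebraicClosure k) M y₀ = y' := by
      obtain ⟨z, hz⟩ := IsAlgClosed.exists_pow_nat_eq (x₀ ^ 3 + algebraMap k _ W.a₄ * x₀ +
        algebraMap k _ W.a₆) (n := 2) (by norm_num)
      rw [← hz, map_pow] at hy2
      rcases sq_eq_sq_iff_eq_or_eq_neg.1 hy2 with h3 | h3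
      · exact ⟨z, h3.symm⟩
      · exact ⟨-z, by rw [map_neg, h3]⟩
    subst hy₀
    refine hnc n (some x₀ y₀ ((Affine.baseChange_nonsingular (W := W)
      (Algebra.ofId (AlgebraicClosure k) M).injective x₀ y₀).mp h)) ?_
    rw [h0]
    exact Top.some_ext _ _ rfl rfl
  -- the roots
  obtain ⟨e₁, e₂, e₃, he⟩ := exists_roots W (AlgebraicClosure k)
  obtain ⟨he1, he2, he3⟩ := X8_root W he
  have heM : ∀ e : AlgebraicClosure k,
      e ^ 3 + algebraMap k _ W.a₄ * e + algebraMap k _ W.a₆ = 0 →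
      (algebraMap (AlgebraicClosure k) M e) ^ 3 +
      algebraMap k M W.a₄ * algebraMap (AlgebraicClosure k) M e + algebraMap k M W.a₆ = 0 := by
    intro e he
    rw [IsScalarTower.algebraMap_apply k (AlgebraicClosure k) M W.a₄,
      IsScalarTower.algebraMap_apply k (AlgebraicClosure k) M W.a₆, ← map_mul, ← map_pow,
      ← map_add, ← map_add, he, _root_.map_zero]
  have hζ00 : ζ 0 ≠ 0 := fun h0 => hnc 0 0 (by rw [h0, _root_.map_zero])
  obtain ⟨X, Y, hN, hXY, -, -⟩ := orbit_of_halves W two_ne_zero (heM e₁ he1) ζ hd hζ00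
    (fun y h => key 0 e₁ y h)
  have horb : ∀ e : AlgebraicClosure k,
      e ^ 3 + algebraMap k _ W.a₄ * e + algebraMap k _ W.a₆ = 0 →
      (∀ n, X n - algebraMap (AlgebraicClosure k) M e ≠ 0) ∧
      ∀ n, Dbl (3 * algebraMap (AlgebraicClosure k) M e)
        (3 * (algebraMap (AlgebraicClosure k) M e) ^ 2 + algebraMap k M W.a₄)
        (X n - algebraMap (AlgebraicClosure k) M e)
        (X (n + 1) - algebraMap (AlgebraicClosure k) M e) := by
    intro e he
    obtain ⟨X', Y', hN', hXY', h1, h2⟩ := orbit_of_halves W two_ne_zero (heM e he) ζ hd hζ00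
      (fun y h => key 0 e y h)
    have h3 : ∀ n, X' n = X n := by
      intro n
      have h4 := hXY n
      rw [hXY' n] at h4
      exact (some.inj h4).1
    refine ⟨fun n => ?_, fun n => ?_⟩
    · rw [← h3]
      exact h1 n
    · rw [← h3, ← h3]
      exact h2 n
  -- the points are fixed
  have hfix : ∀ n σ, s σ (X n) = X n ∧ s σ (Y n) = Y n := by
    intro n σ
    have h1 := hact n σ
    rw [hXY n, Top.act, map_some, some.injEq] at h1
    exact h1
  -- `X 0` is in the valuation rings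
  have hX0 : ∀ V ∈ 𝒱, X 0 ∈ V := by
    intro V hVV
    have hk : ∀ a : k, algebraMap k M a ∈ V := fun a => by
      rw [IsScalarTower.algebraMap_apply k (AlgebraicClosure k) M]
      exact h𝒱 V hVV _
    have h1 : (W⁄M).Nonsingular (algebraMap K M x) (algebraMap K M y) :=
      (Affine.baseChange_nonsingular (W := W) (Algebra.ofId K M).injective x y).mpr hxy
    refine x_sub_mem W V hk h1 (hN 0) (hV V hVV) Q ?_ ?_
    · intro a b h' hab
      refine ⟨?_, ?_⟩
      · intro h2
        apply hx a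
        apply (algebraMap K M).injective
        rw [h2, IsScalarTower.algebraMap_apply k K M]
      · have h2 := hV' V hVV a b h' (by rw [← hab]; exact hQ)
        rw [map_sub, ← IsScalarTower.algebraMap_apply k K M] at h2
        exact h2
    · rw [← hXY 0, hζ0]
      rfl
  -- the units
  have hunit : ∀ V ∈ 𝒱, ∀ e : AlgebraicClosure k,
      e ^ 3 + algebraMap k _ W.a₄ * e + algebraMap k _ W.a₆ = 0 →
      ∀ n, V.valuation (X (n + 1) - algebraMap (AlgebraicClosure k) M e) = 1 := by
    intro V hVV e he n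
    refine orbit_unit V (α := 3 * algebraMap (AlgebraicClosure k) M e)
      (β := 3 * (algebraMap (AlgebraicClosure k) M e) ^ 2 + algebraMap k M W.a₄)
      ?_ ?_ (a := fun n => X n - algebraMap (AlgebraicClosure k) M e) (horb e he).2 ?_ n
    · have h1 : 3 * algebraMap (AlgebraicClosure k) M e =
          algebraMap (AlgebraicClosure k) M (3 * e) := by
        rw [map_mul, map_ofNat]
      rw [h1]
      exact h𝒱 V hVV _
    · have h1 : 3 * (algebraMap (AlgebraicClosure k) M e) ^ 2 + algebraMap k M W.a₄ =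
          algebraMap (AlgebraicClosure k) M (3 * e ^ 2 + algebraMap k _ W.a₄) := by
        rw [map_add, map_mul, map_pow, map_ofNat, ← IsScalarTower.algebraMap_apply]
      rw [h1]
      exact X8_unit V (h𝒱 V hVV) (beta_ne_zero W he)
    · exact V.sub_mem (hX0 V hVV) (h𝒱 V hVV e)
  have hYsq : ∀ n, Y n ^ 2 = (X n - algebraMap (AlgebraicClosure k) M e₁) *
      (X n - algebraMap (AlgebraicClosure k) M e₂) *
      (X n - algebraMap (AlgebraicClosure k) M e₃) := by
    intro n
    have e1 := (Affine.equation_iff _ _).1 (hN n).1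
    have ea1 : (W⁄M).a₁ = 0 := (W⁄M).a₁_of_isShortNF
    have ea2 : (W⁄M).a₂ = 0 := (W⁄M).a₂_of_isShortNF
    have ea3 : (W⁄M).a₃ = 0 := (W⁄M).a₃_of_isShortNF
    obtain ⟨t0, t4, t6⟩ := he
    have s0 : algebraMap (AlgebraicClosure k) M e₁ + algebraMap (AlgebraicClosure k) M e₂ +
        algebraMap (AlgebraicClosure k) M e₃ = 0 := by
      rw [← map_add, ← map_add, t0, _root_.map_zero]
    have ea4 : (W⁄M).a₄ = algebraMap (AlgebraicClosure k) M e₁ *
        algebraMap (AlgebraicClosure k) M e₂ + algebraMap (AlgebraicClosure k) M e₁ *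
        algebraMap (AlgebraicClosure k) M e₃ + algebraMap (AlgebraicClosure k) M e₂ *
        algebraMap (AlgebraicClosure k) M e₃ := by
      have h1 : (W⁄M).a₄ = algebraMap (AlgebraicClosure k) M (algebraMap k _ W.a₄) := by
        rw [← IsScalarTower.algebraMap_apply]; rfl
      rw [h1, t4]
      simp only [map_add, map_mul]
    have ea6 : (W⁄M).a₆ = -(algebraMap (AlgebraicClosure k) M e₁ *
        algebraMap (AlgebraicClosure k) M e₂ * algebraMap (AlgebraicClosure k) M e₃) := by
      have h1 : (W⁄M).a₆ = algebraMap (AlgebraicClosure k) M (algebraMap k _ W.a₆) := by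
        rw [← IsScalarTower.algebraMap_apply]; rfl
      rw [h1, t6]
      simp only [map_neg, map_mul]
    rw [ea1, ea2, ea3, ea4, ea6] at e1
    linear_combination e1 + X n ^ 2 * s0
  -- the orbit from the first half on
  have hz1 : ∀ c : AlgebraicClosure k, X 1 ≠ algebraMap (AlgebraicClosure k) M c := by
    intro c hc
    have h9 : (W⁄M).Nonsingular (algebraMap (AlgebraicClosure k) M c) (Y 1) := by
      rw [← hc]
      exact hN 1
    exact key 1 c (Y 1) h9 (by rw [hXY 1]; exact Top.some_ext _ _ hc rfl)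
  -- the splitting field
  let p : Polynomial k := Polynomial.X ^ 3 + Polynomial.C W.a₄ * Polynomial.X +
    Polynomial.C W.a₆
  have hp0 : p ≠ 0 := by
    have hdeg : p.degree = 3 := by
      simp only [p]
      compute_degree!
    intro h0
    rw [h0, Polynomial.degree_zero] at hdeg
    exact absurd hdeg (by decide)
  let F : IntermediateField k (AlgebraicClosure k) :=
    IntermediateField.adjoin k (p.rootSet (AlgebraicClosure k))
  have hsplit : p.IsSplittingField k F :=
    IntermediateField.adjoin_rootSet_isSplittingField (IsAlgClosed.splits _)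
  have hFfin : FiniteDimensional k F := Polynomial.IsSplittingField.finiteDimensional F p
  have hFnorm : Normal k F := Normal.of_isSplittingField p
  have hFgal : IsGalois k F := isGalois_iff.2 ⟨inferInstance, hFnorm⟩
  have hnf : NumberField F := NumberField.of_module_finite k F
  have hmem : e₁ ∈ F := by
    apply IntermediateField.subset_adjoin
    rw [Polynomial.mem_rootSet]
    refine ⟨hp0, ?_⟩
    simp only [p, map_add, map_mul, map_pow, Polynomial.aeval_X, Polynomial.aeval_C]
    exact he1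
  let e' : F := ⟨e₁, hmem⟩
  have hee' : algebraMap F (AlgebraicClosure k) e' = e₁ := rfl
  have he' : e' ^ 3 + algebraMap k F W.a₄ * e' + algebraMap k F W.a₆ = 0 := by
    apply Subtype.ext
    exact he1
  have hFM : ∀ c : F, algebraMap F M c =
      algebraMap (AlgebraicClosure k) M (algebraMap F (AlgebraicClosure k) c) := fun c =>
    IsScalarTower.algebraMap_apply F (AlgebraicClosure k) M c
  have hα : algebraMap F M (3 * e') = 3 * algebraMap (AlgebraicClosure k) M e₁ := by
    rw [hFM, map_mul, map_mul, hee', map_ofNat, map_ofNat]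
  have hβ : algebraMap F M (3 * e' ^ 2 + algebraMap k F W.a₄) =
      3 * (algebraMap (AlgebraicClosure k) M e₁) ^ 2 + algebraMap k M W.a₄ := by
    rw [hFM, map_add, map_add, map_mul, map_mul, map_pow, map_pow, hee', map_ofNat, map_ofNat,
      ← IsScalarTower.algebraMap_apply k F (AlgebraicClosure k),
      ← IsScalarTower.algebraMap_apply k (AlgebraicClosure k) M]
  have hup := tri_dbl_all (F := F) (α := 3 * e') (β := 3 * e' ^ 2 + algebraMap k F W.a₄)
    (beta_ne_zero W he') (disc_ne_zero W he') htr 𝒱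
    (fun V hVV a => by rw [hFM]; exact h𝒱 V hVV _) hrad s hs hsec
    (fun n => X (n + 1) - algebraMap (AlgebraicClosure k) M e₁)
    (by
      intro n σ hσ
      have h7 : σ e₁ = e₁ := by
        have := hσ e'
        rwa [hee'] at this
      change s σ (X (n + 1) - algebraMap (AlgebraicClosure k) M e₁) = _
      rw [map_sub, (hfix (n + 1) σ).1, hsec, h7])
    (fun n => (horb e₁ he1).1 (n + 1))
    (by
      intro n
      rw [hα, hβ]
      exact (horb e₁ he1).2 (n + 1))
    (by
      intro c hc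
      apply hz1 (algebraMap F _ c + e₁)
      rw [map_add, ← hFM, ← hc]
      ring)
    (fun V hVV n => hunit V hVV e₁ he1 n)
    (exists_local_up s hsec hloc)
  have hdown := value_down (F := F) s hsec (X 1) (fun σ => (hfix 1 σ).1) hloc (by
    rcases hup with ⟨c, hc⟩ | hc
    · left
      refine ⟨c + e', ?_⟩
      intro w ι A φ hpl
      obtain ⟨h1, h2⟩ := hpl.1 e₁
      obtain ⟨h3, h4⟩ := X8_val A φ h1 (hc w ι A φ hpl)
      refine ⟨h3, ?_⟩
      rw [h4, h2, map_add, map_add, hee']
      rfl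
    · right
      intro w ι A φ hpl
      obtain ⟨h1, h2⟩ := hpl.1 e₁
      exact X8_inv A φ hpl.2.1 h1 ((horb e₁ he1).1 1) (hc w ι A φ hpl))
  refine ⟨Q, X 1, Y 1, hN 1, hQ, fun σ => hfix 1 σ, ?_, hz1, ?_, ?_⟩
  · rw [← hXY 1, hd 0, hζ0]
  · intro V hVV
    refine ⟨?_, ?_⟩
    · have h1 : X 1 - algebraMap (AlgebraicClosure k) M e₁ ∈ V :=
        (V.valuation_le_one_iff _).1 (hunit V hVV e₁ he1 0).le
      have h2 := V.add_mem _ _ h1 (h𝒱 V hVV e₁)
      rwa [sub_add_cancel] at h2
    · have h1 : V.valuation (Y 1) ^ 2 = 1 := by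
        rw [← map_pow, hYsq, map_mul, map_mul, hunit V hVV e₁ he1 0, hunit V hVV e₂ he2 0,
          hunit V hVV e₃ he3 0, one_mul, one_mul]
      have h2 : V.valuation (Y 1) = 1 :=
        (pow_eq_one_iff_of_nonneg zero_le two_ne_zero).1 h1
      rw [← V.valuation_le_one_iff, map_inv₀, h2, inv_one]
  · rcases hdown with ⟨c, hc⟩ | hc
    · left
      have htor := fun (b : AlgebraicClosure k)
        (h : (W⁄(AlgebraicClosure k)).Nonsingular (algebraMap k _ c) b) (m : ℕ) =>
        no_tors W 𝒱 h𝒱 hrad s hs hsec hloc ζ hact hd (hnc 1) (hN 1) (hXY 1) hc h m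
      have h1M : (W⁄M).Nonsingular (algebraMap K M x) (algebraMap K M y) :=
        (Affine.baseChange_nonsingular (W := W) (Algebra.ofId K M).injective x y).mpr hxy
      refine ⟨c, ?_, fun v ι A φ hpl => ⟨hc v ι A φ hpl, ?_⟩⟩
      swap
      · obtain ⟨h3, h4⟩ := not_cusp W s hpl (hN 1) h1M hQ (by
          rw [← hXY 1, hd 0, hζ0]
          rfl) (hc v ι A φ hpl) htor
        refine ⟨h3, fun a b h hm => ?_⟩
        rw [map_sub, ← IsScalarTower.algebraMap_apply k K M]
        exact h4 a b h hm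
      intro hroot
      have hroot' : (algebraMap k (AlgebraicClosure k) c) ^ 3 +
          algebraMap k _ W.a₄ * algebraMap k _ c + algebraMap k _ W.a₆ = 0 := by
        rw [← map_pow, ← map_mul, ← map_add, ← map_add, hroot, _root_.map_zero]
      have hkM : ∀ a : k, algebraMap (AlgebraicClosure k) M (algebraMap k _ a) =
          algebraMap k M a := fun a => (IsScalarTower.algebraMap_apply k _ M a).symm
      choose ι A φ hφ using hloc
      obtain ⟨w, hw⟩ := dbl_not_zero_all (F := k) (α := 3 * c) (β := 3 * c ^ 2 + W.a₄)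
        (by
          have h1 := beta_ne_zero (L := k) W (e := c) hroot
          exact h1)
        (by
          have h1 := disc_ne_zero (L := k) W (e := c) hroot
          exact h1) 𝒱
        (fun V hVV a => by rw [← hkM]; exact h𝒱 V hVV _) (hrad 2 one_le_two) s hs hsec
        (fun n => X (n + 1) - algebraMap k M c)
        (by
          intro n σ _
          rw [map_sub, (hfix (n + 1) σ).1, ← hkM, hsec, AlgEquiv.commutes])
        (by
          intro n
          have h1 := (horb _ hroot').1 (n + 1)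
          rw [hkM] at h1
          exact h1)
        (by
          intro n
          have h1 := (horb _ hroot').2 (n + 1)
          rw [hkM] at h1
          have h2 : algebraMap k M (3 * c) = 3 * algebraMap k M c := by
            rw [map_mul, map_ofNat]
          have h3 : algebraMap k M (3 * c ^ 2 + W.a₄) =
              3 * (algebraMap k M c) ^ 2 + algebraMap k M W.a₄ := by
            rw [map_add, map_mul, map_pow, map_ofNat]
          rw [h2, h3]
          exact h1)
        ι A φ hφ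
      apply hw
      obtain ⟨h1, h2⟩ := hc w (ι w) (A w) (φ w) (hφ w)
      obtain ⟨h3, h4⟩ := (hφ w).1 (algebraMap k _ c)
      have h5 : algebraMap k M c ∈ A w := by
        rw [← hkM]
        exact h3
      have h6 : X 1 - algebraMap k M c ∈ A w := (A w).sub_mem h1 h5
      refine ⟨h6, ?_⟩
      have h7 : (⟨X 1 - algebraMap k M c, h6⟩ : A w) = ⟨_, h1⟩ - ⟨_, h3⟩ := by
        apply Subtype.ext
        change X 1 - algebraMap k M c = X 1 - algebraMap (AlgebraicClosure k) M (algebraMap k _ c)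
        rw [hkM]
      rw [h7, map_sub, h2, h4]
      exact sub_self _
    · right
      exact hc

end Pool.Agent.Lib.MP_2f3286_ag.UA
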