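import Pool.Agent.Lib.MP_2f3286_ag.Fer.CPl
import Pool.Agent.Lib.MP_2f3286_ag.Fer.PG
import Pool.Agent.Lib.MP_2f3286_ag.Top.Defs

/-!
# Y1: reduction of a place with values in the algebraic closure of a completion

`(A, φ)` is a place of `M` with values in the algebraic closure of `k_v`. Choose a valuation ring `B` of this algebraic closure which dominates the integers of `k_v` (Mathlib:
`LocalSubring.exists_le_valuationSubring` or similar; see also the proof of `Fer.exists_comp`), `E` = its residue field, `C = {z ∈ A | φ z ∈ B}`, `χ` the composed map.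
`κ` = the image of the residue field of the integers of `k_v` in `E` (finite).
`IntAt v a`: `a` is a root of a monic polynomial over `k` with coefficients integral at `v`; then `ι a` is integral over the integers of `k_v`, so in `B`.
-/

open IsDedekindDomain NumberField Polynomial
open scoped WithZero

namespace Pool.Agent.Lib.MP_2f3286_ag.UA

universe u

/-- `a` is integral at `v` -/
def IntAt {k : Type*} [Field k] [NumberField k] (v : HeightOneSpectrum (𝓞 k))
    (a : AlgebraicClosure k) : Prop :=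
  ∃ P : k[X], P.Monic ∧ (∀ n, v.valuation k (P.coeff n) ≤ 1) ∧ aeval a P = 0

/-- the valuation ring of the composite place -/
private def Y1_A {L K : Type*} [Field L] [Field K] (Q : Fer.Plc L K) (R : ValuationSubring K) :
    ValuationSubring L where
  carrier := {x | ∃ y : K, y ∈ R ∧ Q.Has x y}
  mul_mem' := by
    rintro a b ⟨y, hy, h⟩ ⟨y', hy', h'⟩
    exact ⟨y * y', mul_mem hy hy', h.mul h'⟩
  one_mem' := ⟨1, one_mem _, Fer.Plc.has_one⟩
  add_mem' := by
    rintro a b ⟨y, hy, h⟩ ⟨y', hy', h'⟩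
    exact ⟨y + y', add_mem hy hy', h.add h'⟩
  zero_mem' := ⟨0, zero_mem _, Fer.Plc.has_zero⟩
  neg_mem' := by
    rintro a ⟨y, hy, h⟩
    exact ⟨-y, neg_mem hy, h.neg⟩
  mem_or_inv_mem' := by
    intro x
    rcases Q.has_or_inv x with ⟨y, h⟩ | ⟨_, h⟩
    · by_cases hy : y ∈ R
      · exact Or.inl ⟨y, hy, h⟩
      · refine Or.inr ⟨y⁻¹, (R.mem_or_inv_mem y).resolve_left hy, h.inv ?_⟩
        rintro rfl
        exact hy (zero_mem _)
    · exact Or.inr ⟨0, zero_mem _, h⟩

private theorem Y1_mem {L K : Type*} [Field L] [Field K] (Q : Fer.Plc L K) (R : ValuationSubring K)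
    (x : Y1_A Q R) : (x : L) ∈ Q.A := by
  obtain ⟨y, _, h, _⟩ := x.2
  exact h

private theorem Y1_mem' {L K : Type*} [Field L] [Field K] (Q : Fer.Plc L K) (R : ValuationSubring K)
    (x : Y1_A Q R) : Q.φ ⟨(x : L), Y1_mem Q R x⟩ ∈ R := by
  obtain ⟨y, hy, h, h'⟩ := x.2
  rw [h']
  exact hy

/-- the residue map, with values in `R` -/
private def Y1_f {L K : Type*} [Field L] [Field K] (Q : Fer.Plc L K) (R : ValuationSubring K) :
    Y1_A Q R →+* R where
  toFun x := ⟨Q.φ ⟨(x : L), Y1_mem Q R x⟩, Y1_mem' Q R x⟩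
  map_one' := Subtype.ext (map_one Q.φ)
  map_mul' x x' := Subtype.ext (map_mul Q.φ ⟨(x : L), Y1_mem Q R x⟩ ⟨(x' : L), Y1_mem Q R x'⟩)
  map_zero' := Subtype.ext (map_zero Q.φ)
  map_add' x x' := Subtype.ext (map_add Q.φ ⟨(x : L), Y1_mem Q R x⟩ ⟨(x' : L), Y1_mem Q R x'⟩)

private theorem Y1_f_has {L K : Type*} [Field L] [Field K] (Q : Fer.Plc L K)
    (R : ValuationSubring K) (x : Y1_A Q R) : Q.Has (x : L) (Y1_f Q R x : K) :=
  ⟨Y1_mem Q R x, rfl⟩

private theorem Y1_inv {L K : Type*} [Field L] [Field K] (Q : Fer.Plc L K) (R : ValuationSubring K)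
    (x : Y1_A Q R) (hx : IsLocalRing.residue R (Y1_f Q R x) ≠ 0) : (x : L)⁻¹ ∈ Y1_A Q R := by
  have h1 : IsUnit (Y1_f Q R x) := by
    rw [← IsLocalRing.residue_ne_zero_iff_isUnit]
    exact hx
  obtain ⟨u, hu⟩ := h1
  have h2 : (((u⁻¹ : Rˣ) : R) : K) * ((Y1_f Q R x : R) : K) = 1 := by
    rw [← hu]
    exact congrArg (Subtype.val) u.inv_mul
  have h3 : (((u⁻¹ : Rˣ) : R) : K) = ((Y1_f Q R x : R) : K)⁻¹ := eq_inv_of_mul_eq_one_left h2
  refine ⟨((Y1_f Q R x : R) : K)⁻¹, ?_, (Y1_f_has Q R x).inv ?_⟩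
  · rw [← h3]
    exact (((u⁻¹ : Rˣ) : R)).2
  · intro h4
    rw [h4, mul_zero] at h2
    exact zero_ne_one h2

private theorem Y1_zero {F : Type*} [Field F] [NumberField F] (w : HeightOneSpectrum (𝓞 F))
    (x : w.adicCompletionIntegers F) :
    IsLocalRing.residue (w.adicCompletionIntegers F) x = 0 ↔
      Valued.v (x : w.adicCompletion F) < (1 : ℤᵐ⁰) := by
  rw [IsLocalRing.residue_eq_zero_iff, IsLocalRing.mem_maximalIdeal, mem_nonunits_iff,
    HeightOneSpectrum.adicCompletionIntegers.isUnit_iff_valued_eq_one]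
  have h : Valued.v (x : w.adicCompletion F) ≤ (1 : ℤᵐ⁰) :=
    (HeightOneSpectrum.mem_adicCompletionIntegers (𝓞 F) F w).1 x.2
  exact ⟨fun h' => lt_of_le_of_ne h h', fun h' => h'.ne⟩

private theorem Y1_fin {F : Type*} [Field F] [NumberField F] (w : HeightOneSpectrum (𝓞 F)) :
    Finite (IsLocalRing.ResidueField (w.adicCompletionIntegers F)) := by
  have hfin : Finite (𝓞 F ⧸ w.asIdeal) := w.asIdeal.finiteQuotientOfFreeOfNeBot w.ne_bot
  have hval : ∀ a : 𝓞 F, (((algebraMap (𝓞 F) (w.adicCompletionIntegers F) a :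
      w.adicCompletionIntegers F)) : w.adicCompletion F) =
      algebraMap F (w.adicCompletion F) (algebraMap (𝓞 F) F a) := fun a => rfl
  have h0 : ∀ a ∈ w.asIdeal, ((IsLocalRing.residue (w.adicCompletionIntegers F)).comp
      (algebraMap (𝓞 F) (w.adicCompletionIntegers F))) a = 0 := by
    intro a ha
    rw [RingHom.comp_apply, Y1_zero, hval, val_alg]
    exact (HeightOneSpectrum.valuation_lt_one_iff_mem w a).2 ha
  refine Finite.of_surjective (Ideal.Quotient.lift w.asIdeal _ h0) ?_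
  intro e
  obtain ⟨x, rfl⟩ := IsLocalRing.residue_surjective e
  have hx : Valued.v (x : w.adicCompletion F) ≤ (1 : ℤᵐ⁰) :=
    (HeightOneSpectrum.mem_adicCompletionIntegers (𝓞 F) F w).1 x.2
  obtain ⟨y, hy⟩ := exists_approx w (x : w.adicCompletion F) 1
  have hlt : WithZero.exp (-((1 : ℕ) : ℤ)) < (1 : ℤᵐ⁰) := by
    rw [← WithZero.exp_zero]
    exact WithZero.exp_lt_exp.mpr (by norm_num)
  have hy1 : w.valuation F y ≤ 1 := by
    rw [← val_alg]
    have e : algebraMap F (w.adicCompletion F) y =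
        (x : w.adicCompletion F) - ((x : w.adicCompletion F) - algebraMap F (w.adicCompletion F) y) := by
      ring
    rw [e]
    exact (Valued.v.map_sub _ _).trans (max_le hx (hy.trans hlt.le))
  obtain ⟨a, ha⟩ := HeightOneSpectrum.exists_valuation_sub_lt_of_integer w hy1 1
  simp only [Units.val_one] at ha
  refine ⟨Ideal.Quotient.mk _ a, ?_⟩
  rw [Ideal.Quotient.lift_mk, RingHom.comp_apply, ← sub_eq_zero, ← map_sub, Y1_zero]
  have e : ((algebraMap (𝓞 F) (w.adicCompletionIntegers F) a - x :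
      w.adicCompletionIntegers F) : w.adicCompletion F) =
      algebraMap F (w.adicCompletion F) (algebraMap (𝓞 F) F a - y) -
      ((x : w.adicCompletion F) - algebraMap F (w.adicCompletion F) y) := by
    rw [map_sub, AddSubgroupClass.coe_sub, hval]
    ring
  rw [e]
  refine lt_of_le_of_lt (Valued.v.map_sub _ _) (max_lt ?_ (lt_of_le_of_lt hy hlt))
  rw [val_alg]
  exact ha

/-- an element which is a root of a monic polynomial with coefficients in `B` is in `B` -/
private theorem Y1_int {K : Type*} [Field K] (B : ValuationSubring K) (Q : K[X]) (hQ : Q.Monic)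
    (hc : ∀ n, Q.coeff n ∈ B) {x : K} (hx : Q.eval x = 0) : x ∈ B := by
  have h1 : Q ∈ Polynomial.lifts (algebraMap B K) := by
    rw [Polynomial.lifts_iff_coeff_lifts]
    intro n
    exact ⟨⟨Q.coeff n, hc n⟩, rfl⟩
  obtain ⟨q, hq, _, hm⟩ := Polynomial.lifts_and_natDegree_eq_and_monic h1 hQ
  have h2 : IsIntegral B x := ⟨q, hm, by rw [← Polynomial.eval_map, hq, hx]⟩
  have h3 := IsIntegrallyClosed.isIntegral_iff.mp h2
  obtain ⟨y, rfl⟩ := h3
  exact y.2

/-- algebraic numbers are integral at almost all places -/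
theorem finite_not_intAt {k : Type*} [Field k] [NumberField k] (a : AlgebraicClosure k) :
    {v : HeightOneSpectrum (𝓞 k) | ¬ IntAt v a}.Finite := by
  have ha : IsIntegral k a := (Algebra.IsAlgebraic.isAlgebraic a).isIntegral
  have hfin : (⋃ n ∈ Finset.range ((minpoly k a).natDegree + 1),
      HeightOneSpectrum.Support (𝓞 k) ((minpoly k a).coeff n)).Finite :=
    Set.Finite.biUnion (Finset.finite_toSet _) (fun n _ => HeightOneSpectrum.Support.finite _ _)
  refine hfin.subset ?_
  intro v hv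
  by_contra hcon
  apply hv
  refine ⟨minpoly k a, minpoly.monic ha, ?_, minpoly.aeval k a⟩
  intro n
  by_cases hn : n < (minpoly k a).natDegree + 1
  · by_contra h1
    apply hcon
    simp only [Set.mem_iUnion]
    exact ⟨n, Finset.mem_range.2 hn, not_le.1 h1⟩
  · rw [Polynomial.coeff_eq_zero_of_natDegree_lt (by omega), map_zero]
    exact zero_le_one

/-- **Reduction of a place.** -/
theorem exists_red {k : Type u} [Field k] [NumberField k] {M : Type*} [Field M]
    [Algebra (AlgebraicClosure k) M] (v : HeightOneSpectrum (𝓞 k))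
    (ι : AlgebraicClosure k →ₐ[k] AlgebraicClosure (v.adicCompletion k))
    (A : ValuationSubring M) (φ : A →+* AlgebraicClosure (v.adicCompletion k))
    (hι : ∀ a : AlgebraicClosure k, ∃ h : algebraMap (AlgebraicClosure k) M a ∈ A,
      φ ⟨algebraMap (AlgebraicClosure k) M a, h⟩ = ι a)
    (hker : ∀ x : A, φ x ≠ 0 → (x : M)⁻¹ ∈ A) :
    ∃ (E : Type u) (_ : Field E) (C : ValuationSubring M) (χ : C →+* E) (κ : Subfield E),
      Finite κ ∧ (∀ x : C, χ x ≠ 0 → (x : M)⁻¹ ∈ C) ∧ (∀ z ∈ C, z ∈ A) ∧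
      (∀ (z : M) (h : z ∈ A) (x : v.adicCompletion k), φ ⟨z, h⟩ = algebraMap _ _ x →
        (z ∈ C ↔ Valued.v x ≤ (1 : ℤᵐ⁰)) ∧
        ∀ hC : z ∈ C, χ ⟨z, hC⟩ ∈ κ ∧ (χ ⟨z, hC⟩ = 0 ↔ Valued.v x < (1 : ℤᵐ⁰))) ∧
      ∀ a : AlgebraicClosure k, IntAt v a → algebraMap (AlgebraicClosure k) M a ∈ C := by
  obtain ⟨B, hB, hloc⟩ := IsLocalRing.exists_factor_valuationRing
    ((algebraMap (v.adicCompletion k) (AlgebraicClosure (v.adicCompletion k))).comp
      (v.adicCompletionIntegers k).subtype)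
  let g : v.adicCompletionIntegers k →+* B :=
    ((algebraMap (v.adicCompletion k) (AlgebraicClosure (v.adicCompletion k))).comp
      (v.adicCompletionIntegers k).subtype).codRestrict B.toSubring hB
  have hg : IsLocalHom g := hloc
  have gval : ∀ x : v.adicCompletionIntegers k, ((g x : B) :
      AlgebraicClosure (v.adicCompletion k)) = algebraMap (v.adicCompletion k) _ (x : v.adicCompletion k) :=
    fun x => rfl
  let Q : Fer.Plc M (AlgebraicClosure (v.adicCompletion k)) := ⟨A, φ, hker⟩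
  have hmemB : ∀ x : v.adicCompletion k,
      algebraMap (v.adicCompletion k) (AlgebraicClosure (v.adicCompletion k)) x ∈ B ↔
        Valued.v x ≤ (1 : ℤᵐ⁰) := by
    intro x
    constructor
    · intro hx
      by_contra h1
      have h2 : (1 : ℤᵐ⁰) < Valued.v x := not_le.1 h1
      have hx0 : x ≠ 0 := by
        rintro rfl
        rw [map_zero] at h2
        exact not_lt_zero h2
      have h3 : Valued.v x⁻¹ < (1 : ℤᵐ⁰) := by
        rw [map_inv₀]
        exact inv_lt_one_of_one_lt₀ h2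
      let y : v.adicCompletionIntegers k :=
        ⟨x⁻¹, (HeightOneSpectrum.mem_adicCompletionIntegers (𝓞 k) k v).2 h3.le⟩
      have h4 : IsUnit (g y) := by
        refine IsUnit.of_mul_eq_one ⟨_, hx⟩ ?_
        apply Subtype.ext
        show algebraMap (v.adicCompletion k) (AlgebraicClosure (v.adicCompletion k)) x⁻¹ *
          algebraMap (v.adicCompletion k) (AlgebraicClosure (v.adicCompletion k)) x = 1
        rw [← map_mul, inv_mul_cancel₀ hx0, map_one]
      have h5 : IsUnit y := IsUnit.of_map g y h4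
      rw [HeightOneSpectrum.adicCompletionIntegers.isUnit_iff_valued_eq_one] at h5
      exact h3.ne h5
    · intro hx
      exact (g ⟨x, (HeightOneSpectrum.mem_adicCompletionIntegers (𝓞 k) k v).2 hx⟩).2
  have := Y1_fin v
  refine ⟨IsLocalRing.ResidueField B, inferInstance, Y1_A Q B,
    (IsLocalRing.residue B).comp (Y1_f Q B), (IsLocalRing.ResidueField.map g).fieldRange,
    ?_, ?_, ?_, ?_, ?_⟩
  · exact Finite.of_surjective _ (IsLocalRing.ResidueField.map g).rangeRestrictField_bijective.2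
  · intro x hx
    exact Y1_inv Q B x hx
  · intro z hz
    exact Y1_mem Q B ⟨z, hz⟩
  · intro z h x hx
    have hQ : Q.Has z (algebraMap (v.adicCompletion k) _ x) := ⟨h, hx⟩
    refine ⟨?_, ?_⟩
    · rw [← hmemB]
      constructor
      · rintro ⟨y, hy, hy'⟩
        rw [hQ.unique hy']
        exact hy
      · intro h1
        exact ⟨_, h1, hQ⟩
    · intro hC
      have hxB : Valued.v x ≤ (1 : ℤᵐ⁰) := by
        rw [← hmemB, hQ.unique (Y1_f_has Q B ⟨z, hC⟩)]
        exact (Y1_f Q B ⟨z, hC⟩).2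
      let x' : v.adicCompletionIntegers k :=
        ⟨x, (HeightOneSpectrum.mem_adicCompletionIntegers (𝓞 k) k v).2 hxB⟩
      have he : Y1_f Q B ⟨z, hC⟩ = g x' := by
        apply Subtype.ext
        exact (Y1_f_has Q B ⟨z, hC⟩).unique hQ
      have he2 : ((IsLocalRing.residue B).comp (Y1_f Q B)) ⟨z, hC⟩ =
          IsLocalRing.ResidueField.map g (IsLocalRing.residue _ x') := by
        rw [IsLocalRing.ResidueField.map_residue, RingHom.comp_apply, he]
      rw [he2]
      refine ⟨⟨_, rfl⟩, ?_⟩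
      rw [map_eq_zero, Y1_zero]
  · rintro a ⟨P, hP, hc, ha⟩
    obtain ⟨h, hφ⟩ := hι a
    refine ⟨ι a, ?_, ⟨h, hφ⟩⟩
    refine Y1_int B (P.map (algebraMap k (AlgebraicClosure (v.adicCompletion k)))) (hP.map _) ?_ ?_
    · intro n
      rw [Polynomial.coeff_map, IsScalarTower.algebraMap_apply k (v.adicCompletion k)
        (AlgebraicClosure (v.adicCompletion k)), hmemB, val_alg]
      exact hc n
    · rw [Polynomial.eval_map_algebraMap, Polynomial.aeval_algHom_apply, ha, map_zero]

end Pool.Agent.Lib.MP_2f3286_ag.UA
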