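import Pool.Agent.Lib.MP_2f3286_ag.UA.Y6
import Pool.Agent.Lib.MP_2f3286_ag.UA.F2
import Pool.Agent.Lib.MP_2f3286_ag.HYP.AFNei

/-!
# Y8: the same value at all places, with the coordinate of the torsion point in an extension `F` of `k`

`tri_p` (Y6) for the base field `F`, the curve `W⁄F`, the restriction of the section to the Galois group of `F` (`Koe.resS s e hL`, `L = Koe.fixF s F`, `e : AlgebraicClosure F ≃ₐ[F]
AlgebraicClosure k`, as in `F2.lean`, `Tri2.lean`, `GT.lean`; `Koe.trdeg_fix`). The curve `(W⁄F)⁄M` is equal to `W⁄M` (`WeierstrassCurve.map_map` and the scalar tower), and relations between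
points given by coordinates are transported along an equality of curves by `subst` (prove `smul_congr` first). The tower of torsion points over `AlgebraicClosure F`: `R 0` = the given point
transported by `e.symm`, `R (n + 1)` by `Pt.Div.divisible`; `exists_polys` (Y3). Then SameVal for the restricted section gives SameVal for `s` (`HYP.placeOf_res`; `GT.lean` has the converse).
-/

open WeierstrassCurve WeierstrassCurve.Affine WeierstrassCurve.Affine.Point
open IsDedekindDomain NumberField Polynomial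
open scoped WithZero
open Pool.Agent.Lib.MP_2f3286_ag

namespace Pool.Agent.Lib.MP_2f3286_ag.UA

universe u

/-- relations between points along an equality of curves -/
theorem smul_congr {M : Type*} [Field M] [DecidableEq M] {A B : WeierstrassCurve.Affine M}
    (h : A = B) {x y x' y' : M} (h₁ : A.Nonsingular x y) (h₁' : A.Nonsingular x' y')
    (h₂ : B.Nonsingular x y) (h₂' : B.Nonsingular x' y') (p : ℕ) :
    p • (some x y h₁ : A.Point) = some x' y' h₁' ↔ p • (some x y h₂ : B.Point) = some x' y' h₂' := by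
  subst h
  exact Iff.rfl

/-- torsion along an equality of curves -/
theorem smul_zero_congr {M : Type*} [Field M] [DecidableEq M] {A B : WeierstrassCurve.Affine M}
    (h : A = B) {x y : M} (h₁ : A.Nonsingular x y) (h₂ : B.Nonsingular x y) (p : ℕ) :
    p • (some x y h₁ : A.Point) = 0 ↔ p • (some x y h₂ : B.Point) = 0 := by
  subst h
  exact Iff.rfl

open scoped Classical in
/-- **The same value at all places over the completions of `F`.** -/
theorem sameVal_F {k : Type*} [Field k] [NumberField k] {F : Type u} [Field F] [NumberField F]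
    [Algebra k F] [Algebra F (AlgebraicClosure k)] [IsScalarTower k F (AlgebraicClosure k)]
    (W : WeierstrassCurve k) [W.IsShortNF] [W.IsElliptic] {p : ℕ} (hp : p.Prime)
    {K M : Type*} [Field K] [Field M] [Algebra K M] [Algebra.IsAlgebraic K M]
    [Algebra k K] [Algebra (AlgebraicClosure k) M] [Algebra k M] [IsScalarTower k K M]
    [IsScalarTower k (AlgebraicClosure k) M] [Algebra F M] [IsScalarTower F (AlgebraicClosure k) M]
    (htr : Algebra.trdeg k K = 1)
    (s : Gal(AlgebraicClosure k/k) →* Gal(M/K)) (hs : Continuous s)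
    (hsec : ∀ σ a, s σ (algebraMap (AlgebraicClosure k) M a) =
      algebraMap (AlgebraicClosure k) M (σ a))
    {e : F} {b : AlgebraicClosure k}
    (hb : (W⁄(AlgebraicClosure k)).Nonsingular (algebraMap F _ e) b)
    (hT : p • (some _ b hb : (W⁄(AlgebraicClosure k)).Point) = 0)
    (x y : ℕ → M) (ns : ∀ n, (W⁄M).Nonsingular (x n) (y n))
    (hx : ∀ n, p • (some (x (n + 1)) (y (n + 1)) (ns (n + 1)) : (W⁄M).Point) =
      some (x n) (y n) (ns n))
    (hfix : ∀ n σ, (∀ a : F, σ (algebraMap F _ a) = algebraMap F _ a) →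
      s σ (x n) = x n ∧ s σ (y n) = y n)
    (hnc : ∀ n, ∀ c : AlgebraicClosure k, x n ≠ algebraMap _ M c)
    (𝒱 : Set (ValuationSubring M))
    (h𝒱 : ∀ V ∈ 𝒱, ∀ a : AlgebraicClosure k, algebraMap (AlgebraicClosure k) M a ∈ V)
    (hroot : ∀ b : M, b ≠ 0 → (∀ V ∈ 𝒱, V.valuation b = 1) → ∀ n : ℕ, 1 ≤ n →
      ∃ c : M, c ^ n = b)
    (hV0 : ∀ V ∈ 𝒱, x 0 ∈ V)
    (hloc : ∀ w : HeightOneSpectrum (𝓞 F),
      ∃ (ι : AlgebraicClosure k →ₐ[F] AlgebraicClosure (w.adicCompletion F))
        (A : ValuationSubring M) (φ : A →+* AlgebraicClosure (w.adicCompletion F)),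
        Sel.IsPlaceOf s (w.adicCompletion F)
          (ι : _ →+* AlgebraicClosure (w.adicCompletion F)) A φ) :
    SameVal s F (x 1) := by
  have hfin : FiniteDimensional k F := FiniteDimensional.right ℚ k F
  have hkF : Algebra.IsAlgebraic k F := inferInstance
  have hFk : Algebra.IsAlgebraic F (AlgebraicClosure k) :=
    Algebra.IsAlgebraic.tower_top (K := k) F
  have : IsAlgClosure F (AlgebraicClosure k) := ⟨inferInstance, inferInstance⟩
  let e' : AlgebraicClosure F ≃ₐ[F] AlgebraicClosure k :=
    IsAlgClosure.equiv F (AlgebraicClosure F) (AlgebraicClosure k)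
  let iFb : Algebra (AlgebraicClosure F) M :=
    ((algebraMap (AlgebraicClosure k) M).comp (e' : _ →+* AlgebraicClosure k)).toAlgebra
  have he : ∀ a : AlgebraicClosure F, algebraMap (AlgebraicClosure F) M a =
      algebraMap (AlgebraicClosure k) M (e' a) := fun _ => rfl
  have t1 : IsScalarTower F (AlgebraicClosure F) M := IsScalarTower.of_algebraMap_eq fun a => by
    rw [he, AlgEquiv.commutes, ← IsScalarTower.algebraMap_apply]
  have t3 : IsScalarTower k F M := IsScalarTower.of_algebraMap_eq fun a => by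
    rw [IsScalarTower.algebraMap_apply F (AlgebraicClosure k) M,
      ← IsScalarTower.algebraMap_apply k F (AlgebraicClosure k),
      ← IsScalarTower.algebraMap_apply k (AlgebraicClosure k) M]
  let iFL : Algebra F (Koe.fixF s F) := (Koe.toFixF s F hsec).toAlgebra
  have t2 : IsScalarTower F (Koe.fixF s F) M := IsScalarTower.of_algebraMap_eq fun a => by
    rw [IsScalarTower.algebraMap_apply F (AlgebraicClosure k) M]
    rfl
  have hLM : Algebra.IsAlgebraic (Koe.fixF s F) M :=
    Algebra.IsAlgebraic.tower_top (K := K) (Koe.fixF s F)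
  have htr' : Algebra.trdeg F (Koe.fixF s F) = 1 := Koe.trdeg_fix (k := k) (K := K) (Ω := M) htr
  have hL : ∀ σ : Gal(AlgebraicClosure k/k),
      (∀ a : F, σ (algebraMap F _ a) = algebraMap F _ a) →
      ∀ x : Koe.fixF s F, s σ (algebraMap (Koe.fixF s F) M x) = algebraMap (Koe.fixF s F) M x :=
    fun σ hσ x => x.2 σ hσ
  have hs' := Koe.resS_continuous s e' hL hs
  have hsec' : ∀ (σ : Gal(AlgebraicClosure F/F)) (a : AlgebraicClosure F),
      Koe.resS s e' hL σ (algebraMap (AlgebraicClosure F) M a) =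
        algebraMap (AlgebraicClosure F) M (σ a) := by
    intro σ a
    rw [Koe.resS_apply, he, hsec, Koe.resG_apply, e'.symm_apply_apply, he]
  -- the curve
  have hE1 : ((W⁄F)⁄(AlgebraicClosure k)) = (W⁄(AlgebraicClosure k)) :=
    (WeierstrassCurve.map_map W (algebraMap k F) (algebraMap F (AlgebraicClosure k))).trans
      (congrArg W.map (IsScalarTower.algebraMap_eq k F (AlgebraicClosure k)).symm)
  have hE2 : ((W⁄F)⁄M) = (W⁄M) :=
    (WeierstrassCurve.map_map W (algebraMap k F) (algebraMap F M)).trans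
      (congrArg W.map (IsScalarTower.algebraMap_eq k F M).symm)
  have hb1 : ((W⁄F)⁄(AlgebraicClosure k)).Nonsingular (algebraMap F _ e) b := by
    rw [hE1]; exact hb
  have hT1 : p • (some _ b hb1 : ((W⁄F)⁄(AlgebraicClosure k)).Point) = 0 :=
    (smul_zero_congr hE1 hb1 hb p).2 hT
  -- torsion points over the algebraic closure of `F`
  let g : ((W⁄F)⁄(AlgebraicClosure k)).Point →+ ((W⁄F)⁄(AlgebraicClosure F)).Point :=
    Point.map (W' := W⁄F) ((e'.symm : AlgebraicClosure k ≃ₐ[F] AlgebraicClosure F) :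
      AlgebraicClosure k →ₐ[F] AlgebraicClosure F)
  have hg : ∃ h, g (some _ b hb1) = some (algebraMap F (AlgebraicClosure F) e) (e'.symm b) h := by
    have h1 : e'.symm (algebraMap F (AlgebraicClosure k) e) = algebraMap F (AlgebraicClosure F) e :=
      e'.symm.commutes e
    have h2 := Point.map_some (W' := W⁄F) ((e'.symm : AlgebraicClosure k ≃ₐ[F] AlgebraicClosure F) :
      AlgebraicClosure k →ₐ[F] AlgebraicClosure F) hb1
    rw [← h1]
    exact ⟨_, h2⟩
  obtain ⟨hb2, hg2⟩ := hg
  have hT2 : p • (some _ _ hb2 : ((W⁄F)⁄(AlgebraicClosure F)).Point) = 0 := by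
    rw [← hg2, ← map_nsmul, hT1, _root_.map_zero]
  have hdiv : ∀ R : ((W⁄F)⁄(AlgebraicClosure F)).Point, ∃ ζ : ((W⁄F)⁄(AlgebraicClosure F)).Point,
      p • ζ = R := fun R => Pt.Div.divisible hp.one_le R
  choose dv hdv using hdiv
  let R : ℕ → ((W⁄F)⁄(AlgebraicClosure F)).Point := fun n => Nat.rec (some _ _ hb2) (fun _ r => dv r) n
  have hR : ∀ n, p • R (n + 1) = R n := fun n => hdv _
  obtain ⟨P, hP1, hP2, hP3, hP4⟩ := exists_polys (k := F) (W⁄F) (kb := AlgebraicClosure F) hp R hT2 hR
    (e := e) (b := e'.symm b) (hb := hb2) rfl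
  have ns' : ∀ n, ((W⁄F)⁄M).Nonsingular (x n) (y n) := fun n => by rw [hE2]; exact ns n
  let Q : Tower (W⁄F) p (Koe.resS s e' hL) :=
    { prime := hp
      R := R
      order := hT2
      step := hR
      e := e
      b := e'.symm b
      hb := hb2
      R_zero := rfl
      P := P
      monic := hP1
      deg := hP2
      coprime := hP3
      roots := hP4
      x := x
      y := y
      ns := ns'
      half := fun n => (smul_congr hE2 (ns' (n + 1)) (ns' n) (ns (n + 1)) (ns n) p).2 (hx n)
      fixx := fun n σ _ => (hfix n (Koe.resG e' σ) (fun a => Koe.resG_fix e' σ a)).1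
      fixy := fun n σ _ => (hfix n (Koe.resG e' σ) (fun a => Koe.resG_fix e' σ a)).2
      nonconst := fun n c => by rw [he]; exact hnc n (e' c) }
  have hmain := tri_p (k := F) (W⁄F) htr' (Koe.resS s e' hL) hs' hsec' Q 𝒱
    (fun V hV a => by rw [he]; exact h𝒱 V hV (e' a)) hroot hV0 (fun w => by
      obtain ⟨ι, A, φ, h1⟩ := hloc w
      exact ⟨ι.comp (e' : AlgebraicClosure F →ₐ[F] AlgebraicClosure k), A, φ,
        HYP.placeOf_res e' he s hL h1⟩)
  rcases hmain with ⟨e₀, h0⟩ | h0
  · refine Or.inl ⟨e₀, fun w ι A φ h1 => ?_⟩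
    obtain ⟨h2, h3⟩ := h0 w (ι.comp (e' : AlgebraicClosure F →ₐ[F] AlgebraicClosure k)) A φ
      (HYP.placeOf_res e' he s hL h1)
    refine ⟨h2, h3.trans ?_⟩
    change ι (e' (algebraMap F _ e₀)) = ι (algebraMap F _ e₀)
    rw [AlgEquiv.commutes]
  · exact Or.inr fun w ι A φ h1 =>
      h0 w (ι.comp (e' : AlgebraicClosure F →ₐ[F] AlgebraicClosure k)) A φ
        (HYP.placeOf_res e' he s hL h1)

end Pool.Agent.Lib.MP_2f3286_ag.UA
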