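import Pool.Agent.Lib.MP_2f3286_ag.Pt.Division
import Pool.Agent.Lib.MP_2f3286_ag.Top.Kum

/-!
# Y3: compatible sequences in finite groups; towers of torsion points; their polynomials

`no_kernel`: `u (n + m)` takes one value `c` for `m = m₁ < m₂`, so `c = p ^ (m₂ - m₁) • c`, `u n = p ^ m₁ • c` is killed by `p ^ (m₂ - m₁) - 1` and by `p ^ a`.
`exists_tower`: `Pt.Div` (`exists_pair`, `divisible`).
`exists_polys`: `R 0 = (e, ·)`; `τ j = (x (R (j + 1)) - e)⁻¹` (`R (j + 1)` is not `0` and not `± R 0`), `P j = minpoly k (τ j)`. The roots of `P j` are the `σ (τ j)`, `σ` in `Gal(kb/k)`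
(`minpoly.eq` / `IsConjRoot`, or `exists_algEquiv`), so `(x (σ (R (j + 1))) - e)⁻¹`, and `p ^ (j + 1) • σ (R (j + 1)) = σ (R 0) = ± R 0` (same `x`-coordinate). Two of the `P j` with a common
root are equal, and then `R (i + 1) = ± σ R (j + 1)`, which have different orders `p ^ (i + 2)`, `p ^ (j + 2)`; distinct irreducible monic polynomials are coprime.
-/

open WeierstrassCurve WeierstrassCurve.Affine WeierstrassCurve.Affine.Point
open Polynomial

namespace Pool.Agent.Lib.MP_2f3286_ag.UA

theorem no_kernel {G : Type*} [AddCommGroup G] {p : ℕ} (hp : p.Prime) {Z : Set G}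
    (hZ : Z.Finite) (u : ℕ → G) (hu : ∀ n, p • u (n + 1) = u n) (huZ : ∀ n, u n ∈ Z)
    {n a : ℕ} (h : p ^ a • u n = 0) : u n = 0 := by
  have hpow : ∀ m l, p ^ m • u (l + m) = u l := by
    intro m
    induction m with
    | zero => intro l; simp
    | succ m ih =>
      intro l
      rw [pow_succ, mul_smul, ← add_assoc, hu, ih]
  obtain ⟨i, j, hij, he⟩ : ∃ i j, i < j ∧ u (n + i) = u (n + j) := by
    have := hZ.to_subtype
    obtain ⟨i, j, hne, he⟩ := Finite.exists_ne_map_eq_of_infinite
      (fun i : ℕ => (⟨u (n + i), huZ _⟩ : Z))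
    have he' : u (n + i) = u (n + j) := congrArg Subtype.val he
    rcases lt_or_gt_of_ne hne with h1 | h1
    · exact ⟨i, j, h1, he'⟩
    · exact ⟨j, i, h1, he'.symm⟩
  obtain ⟨d, rfl⟩ := Nat.exists_eq_add_of_lt hij
  have h1 : p ^ (d + 1) • u (n + i) = u (n + i) := by
    conv_lhs => rw [he]
    have := hpow (d + 1) (n + i)
    rwa [show n + (i + d + 1) = n + i + (d + 1) by ring]
  have h2 : p ^ (d + 1) • u n = u n := by
    have h3 := hpow i n
    rw [← h3, smul_comm, h1]
  have h3 : ∀ r, (p ^ (d + 1)) ^ r • u n = u n := by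
    intro r
    induction r with
    | zero => simp
    | succ r ih => rw [pow_succ, mul_smul, h2, ih]
  rw [← h3 a, ← pow_mul, mul_comm, show (a * (d + 1)) = a * d + a by ring, pow_add, mul_smul, h,
    smul_zero]

theorem y3_x_eq {F : Type*} [Field F] {A : Affine F} {x y x' y' : F} {h : A.Nonsingular x y}
    {h' : A.Nonsingular x' y'} (e : some x y h = some x' y' h') : x = x' := by
  rw [some.injEq] at e
  exact e.1

theorem y3_x_eq_neg {F : Type*} [Field F] {A : Affine F} {x y x' y' : F} {h : A.Nonsingular x y}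
    {h' : A.Nonsingular x' y'} (e : some x y h = -some x' y' h') : x = x' := by
  rw [neg_some, some.injEq] at e
  exact e.1

section spec

open Pool.Agent.Lib.MP_2f3286_ag.Top Pool.Agent.Lib.MP_2f3286_ag.Pt.Div

variable {k : Type*} [Field k] {W : Affine k}
variable {kb : Type*} [Field kb] [IsAlgClosed kb]
variable [Algebra k kb] {M : Type*} [Field M] [Algebra kb M] [Algebra k M] [IsScalarTower k kb M]
  [W.IsElliptic] [DecidableEq kb] [DecidableEq M]

omit [IsAlgClosed kb] [DecidableEq kb] [DecidableEq M] in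
theorem y3_sp_aeval {L : Type*} [Field L] [Algebra kb L] {V : ValuationSubring M} {φ : V →+* L}
    (hsp : ∀ c : kb, Sp V φ (algebraMap kb M c) (algebraMap kb L c)) {x : M} {a : kb}
    (hx : Sp V φ x (algebraMap kb L a)) (f : kb[X]) :
    Sp V φ (aeval x f) (algebraMap kb L (f.eval a)) := by
  induction f using Polynomial.induction_on' with
  | add f g hf hg =>
    rw [map_add, eval_add, map_add]
    exact hf.add hg
  | monomial n c =>
    rw [aeval_monomial, eval_monomial, map_mul, map_pow]
    exact (hsp c).mul (hx.pow n)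

/-- specialisation of a multiple of a nonconstant point -/
theorem y3_mul_spec {n : ℕ} {x y X Y : M} (hxy : (W⁄M).Nonsingular x y)
    (hXY : (W⁄M).Nonsingular X Y) (hx : ∀ a, algebraMap kb M a ≠ x)
    (h : n • some x y hxy = some X Y hXY) (f g : kb[X]) (hfg : aeval x g * X = aeval x f)
    {a b : kb} (hab : (W⁄kb).Nonsingular a b) :
    (g.eval a = 0 → f.eval a ≠ 0 → n • (some a b hab : (W⁄kb).Point) = 0) ∧
    (g.eval a ≠ 0 → ∃ (c d : kb) (h' : (W⁄kb).Nonsingular c d),
      n • (some a b hab : (W⁄kb).Point) = some c d h' ∧ g.eval a * c = f.eval a) := by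
  obtain ⟨V, hV, hV'⟩ := exists_place hx a
  let L := IsLocalRing.ResidueField V
  let φ : V →+* L := IsLocalRing.residue V
  let ι : kb →+* V := (algebraMap kb M).codRestrict V.toSubring hV
  let _ : Algebra kb L := (φ.comp ι).toAlgebra
  let _ : Algebra k L := ((φ.comp ι).comp (algebraMap k kb)).toAlgebra
  have : IsScalarTower k kb L := IsScalarTower.of_algebraMap_eq fun _ => rfl
  let _ : DecidableEq L := Classical.decEq L
  have hsp : ∀ c : kb, Sp V φ (algebraMap kb M c) (algebraMap kb L c) := fun c => ⟨hV c, rfl⟩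
  have hsp' : ∀ c : k, Sp V φ (algebraMap k M c) (algebraMap k L c) := by
    intro c
    rw [IsScalarTower.algebraMap_apply k kb M]
    exact hsp _
  have hAB : CurveSp V φ (W⁄M) (W⁄L) := curveSp hsp'
  have : IsLocalHom φ := inferInstanceAs (IsLocalHom (IsLocalRing.residue V))
  have h1 := congrArg (redHom hAB) h
  rw [map_nsmul] at h1
  have hxa : Sp V φ x (algebraMap kb L a) := by
    have h2 := sp_inv_of_notMem (φ := φ) hV'
    rw [inv_inv] at h2
    have h3 := h2.add (hsp a)
    rwa [sub_add_cancel, zero_add] at h3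
  have hy : y ∈ V := mem_y hAB hxa.mem hxy.1
  have h3 := equation_iff_nonsingular.mp (hxa.equation hAB (sp_of_mem hy) hxy.1)
  have h4 : redHom hAB (some x y hxy) = some _ _ h3 := red_some hAB hxy hxa (sp_of_mem hy) h3
  have h5 : redHom hAB (some x y hxy) = baseChange kb L (some a b hab) ∨
      redHom hAB (some x y hxy) = -baseChange kb L (some a b hab) := by
    rw [h4]
    exact X_eq_iff.mp rfl
  have h6 : redHom hAB (some X Y hXY) = baseChange kb L (n • (some a b hab : (W⁄kb).Point)) ∨
      redHom hAB (some X Y hXY) = -baseChange kb L (n • (some a b hab : (W⁄kb).Point)) := by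
    rcases h5 with h5 | h5
    · left
      rw [← h1, h5, map_nsmul]
    · right
      rw [← h1, h5, map_nsmul, smul_neg]
  have hf := y3_sp_aeval hsp hxa f
  have hg := y3_sp_aeval hsp hxa g
  have hinj : Function.Injective (algebraMap kb L) := (algebraMap kb L).injective
  constructor
  · intro hga hfa
    have hXV : X ∉ V := by
      intro hX
      have h7 := hg.mul (sp_of_mem (φ := φ) hX)
      rw [hfg, hga, _root_.map_zero, zero_mul] at h7
      have h8 := h7.unique hf
      exact hfa (hinj (by rw [← h8, _root_.map_zero]))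
    have h7 : redHom hAB (some X Y hXY) = 0 := red_some_of_notMem hAB hXY hXV
    rw [h7] at h6
    apply Point.map_injective (Algebra.ofId kb L)
    rw [_root_.map_zero]
    rcases h6 with h6 | h6
    · exact h6.symm
    · exact neg_eq_zero.mp h6.symm
  · intro hga
    have hga' : algebraMap kb L (g.eval a) ≠ 0 := fun h0 => hga (hinj (by rw [h0, _root_.map_zero]))
    have hg0 : aeval x g ≠ 0 := hg.ne_zero hga'
    have hX : Sp V φ X (algebraMap kb L (f.eval a) / algebraMap kb L (g.eval a)) := by
      have h7 := hf.div hg hga'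
      rwa [← hfg, mul_div_cancel_left₀ _ hg0] at h7
    have hY : Y ∈ V := mem_y hAB hX.mem hXY.1
    have h8 := equation_iff_nonsingular.mp (hX.equation hAB (sp_of_mem hY) hXY.1)
    have h9 : redHom hAB (some X Y hXY) = some _ _ h8 := red_some hAB hXY hX (sp_of_mem hY) h8
    rw [h9] at h6
    rcases hn : n • (some a b hab : (W⁄kb).Point) with _ | ⟨c, d, hcd⟩
    · exfalso
      rw [hn] at h6
      rcases h6 with h6 | h6
      · exact some_ne_zero _ h6
      · exact some_ne_zero _ h6
    · refine ⟨c, d, hcd, rfl, ?_⟩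
      rw [hn] at h6
      have h10 : algebraMap kb L (f.eval a) / algebraMap kb L (g.eval a) = algebraMap kb L c := by
        rcases h6 with h6 | h6
        · exact y3_x_eq h6
        · exact y3_x_eq_neg h6
      apply hinj
      rw [map_mul, ← h10, mul_div_cancel₀ _ hga']

end spec

section tors

open Pool.Agent.Lib.MP_2f3286_ag.Top Pool.Agent.Lib.MP_2f3286_ag.Pt.Div

variable {k : Type*} [Field k] {W : Affine k}
variable {kb : Type*} [Field kb] [IsAlgClosed kb] [CharZero kb] [Algebra k kb] [W.IsElliptic]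
  [DecidableEq kb]

omit [IsAlgClosed kb] [W.IsElliptic] [DecidableEq kb] in
/-- the abscissa of a multiple of the generic point is a rational function of its abscissa -/
theorem y3_exists_ratfunc [DecidableEq (AlgebraicClosure (RatFunc kb))] {n : ℕ}
    {x y X Y : AlgebraicClosure (RatFunc kb)}
    (hxy : (W⁄(AlgebraicClosure (RatFunc kb))).Nonsingular x y)
    (hXY : (W⁄(AlgebraicClosure (RatFunc kb))).Nonsingular X Y)
    (hx : algebraMap (RatFunc kb) _ RatFunc.X = x)
    (h : n • some x y hxy = some X Y hXY) :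
    ∃ f g : kb[X], IsCoprime f g ∧ g.Monic ∧ aeval x g * X = aeval x f := by
  have : CharZero (RatFunc kb) := charZero_of_injective_algebraMap (algebraMap kb (RatFunc kb)).injective
  have hcl : IsAlgClosure (RatFunc kb) (AlgebraicClosure (RatFunc kb)) := ⟨inferInstance, inferInstance⟩
  have hgal : IsGalois (RatFunc kb) (AlgebraicClosure (RatFunc kb)) := IsAlgClosure.isGalois _ _
  have : IsScalarTower k (RatFunc kb) (AlgebraicClosure (RatFunc kb)) := inferInstance
  have hfix : ∀ σ : Gal(AlgebraicClosure (RatFunc kb)/RatFunc kb), σ X = X := by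
    intro σ
    have h1 : act W σ (some x y hxy) = some x y hxy ∨ act W σ (some x y hxy) = -some x y hxy := by
      rw [act, map_some]
      apply X_eq_iff.mp
      show σ x = x
      rw [← hx, AlgEquiv.commutes]
    have h2 : act W σ (some X Y hXY) = some X Y hXY ∨ act W σ (some X Y hXY) = -some X Y hXY := by
      rcases h1 with h1 | h1
      · left
        rw [← h, map_nsmul, h1]
      · right
        rw [← h, map_nsmul, h1, smul_neg]
    rw [act, map_some] at h2
    rcases h2 with h2 | h2
    · exact y3_x_eq h2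
    · exact y3_x_eq_neg h2
  have hX : X ∈ (⊥ : IntermediateField (RatFunc kb) (AlgebraicClosure (RatFunc kb))) := by
    rw [InfiniteGalois.mem_bot_iff_fixed]
    exact hfix
  obtain ⟨r, rfl⟩ := IntermediateField.mem_bot.mp hX
  refine ⟨r.num, r.denom, r.isCoprime_num_denom, r.monic_denom, ?_⟩
  have hev : ∀ q : kb[X], aeval x q = algebraMap (RatFunc kb) _ (algebraMap kb[X] (RatFunc kb) q) := by
    intro q
    have h0 : ∀ q : kb[X], aeval (RatFunc.X : RatFunc kb) q = algebraMap kb[X] (RatFunc kb) q := by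
      intro q
      rw [← RatFunc.algebraMap_X, aeval_algebraMap_apply, aeval_X_left_apply]
    rw [← hx, aeval_algebraMap_apply, h0]
  rw [hev, hev, ← map_mul]
  congr 1
  have h1 := r.num_div_denom
  have h2 : algebraMap kb[X] (RatFunc kb) r.denom ≠ 0 := by
    intro h0
    exact r.denom_ne_zero ((RatFunc.algebraMap_injective kb) (by rw [h0, _root_.map_zero]))
  rw [div_eq_iff h2] at h1
  rw [h1, mul_comm]

/-- an injective polynomial function has degree one -/
theorem y3_natDegree_of_inj {f : kb[X]} (hf : ∀ a b, f.eval a = f.eval b → a = b) :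
    f.natDegree = 1 := by
  have h0 : f.natDegree ≠ 0 := by
    intro h0
    rw [natDegree_eq_zero] at h0
    obtain ⟨c, rfl⟩ := h0
    exact zero_ne_one (hf 0 1 (by simp))
  by_contra h1
  have h2 : ∀ a, (derivative f).eval a = 0 := by
    intro a
    let g := f - C (f.eval a)
    have hg : g.natDegree = f.natDegree := natDegree_sub_C
    have hg0 : g ≠ 0 := by
      intro h
      rw [h, natDegree_zero] at hg
      exact h0 hg.symm
    have hroots : ∀ z ∈ g.roots, z = a := by
      intro z hz
      have h3 := (mem_roots hg0).mp hz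
      simp only [g, IsRoot, eval_sub, eval_C] at h3
      exact hf z a (sub_eq_zero.mp h3)
    have hcard : g.roots.card = g.natDegree :=
      (splits_iff_card_roots.mp (IsAlgClosed.splits g))
    have hrep : g.roots = Multiset.replicate g.natDegree a :=
      Multiset.eq_replicate.mpr ⟨hcard, hroots⟩
    have hmul : 1 < g.rootMultiplicity a := by
      rw [← count_roots, hrep, Multiset.count_replicate_self, hg]
      omega
    have h3 := (one_lt_rootMultiplicity_iff_isRoot hg0).mp hmul
    have h4 := h3.2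
    simpa [g, IsRoot] using h4
  have h3 : derivative f = 0 := Polynomial.funext fun a => by rw [h2, eval_zero]
  exact h0 (derivative_eq_zero.mp h3)

/-- a point of order `p` over an algebraically closed field of characteristic zero -/
theorem exists_p_torsion (W : Affine k) [W.IsElliptic] {p : ℕ} (hp : p.Prime) :
    ∃ T : (W⁄kb).Point, T ≠ 0 ∧ p • T = 0 := by
  classical
  rcases hp.eq_two_or_odd' with rfl | hodd
  · exact exists_two_torsion (A := (W⁄kb))
  by_contra hcon
  push Not at hcon
  obtain ⟨y, hxy⟩ := exists_pt (A := (W⁄(AlgebraicClosure (RatFunc kb))))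
    (algebraMap (RatFunc kb) _ RatFunc.X)
  have hx : ∀ a : kb, algebraMap kb (AlgebraicClosure (RatFunc kb)) a ≠
      algebraMap (RatFunc kb) _ RatFunc.X := by
    intro a ha
    rw [IsScalarTower.algebraMap_apply kb (RatFunc kb) (AlgebraicClosure (RatFunc kb))] at ha
    have h1 := (algebraMap (RatFunc kb) (AlgebraicClosure (RatFunc kb))).injective ha
    rw [IsScalarTower.algebraMap_apply kb (Polynomial kb) (RatFunc kb),
      ← RatFunc.algebraMap_X] at h1
    have h2 := RatFunc.algebraMap_injective kb h1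
    exact Polynomial.X_ne_C a h2.symm
  rcases hn : p • some _ y hxy with _ | ⟨X, Y, hXY⟩
  · obtain ⟨ξ', hξ'⟩ := descend (k := k) (W := W) (kb := kb) hp.one_le (some _ y hxy) 0
      (by rw [hn, _root_.map_zero]; rfl)
    rcases ξ' with _ | ⟨c, d, hcd⟩
    · exact some_ne_zero _ hξ'.symm
    · exact hx c (y3_x_eq hξ')
  obtain ⟨f, g, hco, hg, hfg⟩ := y3_exists_ratfunc hxy hXY rfl hn
  have hg0 : ∀ a, g.eval a ≠ 0 := by
    intro a ha
    obtain ⟨b, hab⟩ := exists_pt (A := (W⁄kb)) a
    have hfa : f.eval a ≠ 0 := by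
      intro hfa
      obtain ⟨u, v, huv⟩ := hco
      have := congrArg (eval a) huv
      rw [eval_add, eval_mul, eval_mul, hfa, ha, mul_zero, mul_zero, add_zero, eval_one] at this
      exact zero_ne_one this
    exact hcon _ (some_ne_zero hab) ((y3_mul_spec hxy hXY hx hn f g hfg hab).1 ha hfa)
  have hg1 : g = 1 := by
    rw [← Polynomial.Monic.natDegree_eq_zero hg]
    by_contra h0
    obtain ⟨a, ha⟩ := IsAlgClosed.exists_root g (fun h => h0 (natDegree_eq_of_degree_eq_some h))
    exact hg0 a ha
  have hmul : ∀ {a b : kb} (hab : (W⁄kb).Nonsingular a b), ∃ (d : kb)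
      (h' : (W⁄kb).Nonsingular (f.eval a) d), p • (some a b hab : (W⁄kb).Point) = some _ d h' := by
    intro a b hab
    obtain ⟨c, d, h', h1, h2⟩ := (y3_mul_spec hxy hXY hx hn f g hfg hab).2 (hg0 a)
    rw [hg1, eval_one, one_mul] at h2
    subst h2
    exact ⟨d, h', h1⟩
  have hinj : ∀ a b, f.eval a = f.eval b → a = b := by
    intro a a' haa
    obtain ⟨b, hab⟩ := exists_pt (A := (W⁄kb)) a
    obtain ⟨b', hab'⟩ := exists_pt (A := (W⁄kb)) a'
    obtain ⟨d, h1, h2⟩ := hmul hab
    obtain ⟨d', h1', h2'⟩ := hmul hab'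
    have h3 : (some _ d h1 : (W⁄kb).Point) = some _ d' h1' ∨
        (some _ d h1 : (W⁄kb).Point) = -some _ d' h1' := X_eq_iff.mp haa
    rw [← h2, ← h2', ← smul_neg] at h3
    have h4 : (some a b hab : (W⁄kb).Point) = some a' b' hab' ∨
        (some a b hab : (W⁄kb).Point) = -some a' b' hab' := by
      rcases h3 with h3 | h3
      · left
        by_contra hne
        exact hcon _ (sub_ne_zero.mpr hne) (by rw [smul_sub, h3, sub_self])
      · right
        by_contra hne
        exact hcon _ (sub_ne_zero.mpr hne) (by rw [smul_sub, h3, sub_self])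
    rcases h4 with h4 | h4
    · exact y3_x_eq h4
    · exact y3_x_eq_neg h4
  have hdeg := y3_natDegree_of_inj hinj
  have hlin : ∀ t, f.eval t = f.coeff 1 * t + f.coeff 0 := by
    intro t
    conv_lhs => rw [eq_X_add_C_of_natDegree_le_one (le_of_eq hdeg)]
    simp
  obtain ⟨T, hT0, hT⟩ := exists_two_torsion (A := (W⁄kb))
  obtain ⟨Q, hQ⟩ := two_div T
  have hQ0 : Q ≠ 0 := by
    rintro rfl
    rw [smul_zero] at hQ
    exact hT0 hQ.symm
  obtain ⟨j, hj⟩ := hodd
  have hpT : p • T = T := by
    rw [hj, add_smul, one_smul, mul_comm, mul_smul, hT, smul_zero, zero_add]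
  have hpQ : p • Q = Q ∨ p • Q = -Q := by
    have h1 : p • Q = j • T + Q := by rw [hj, add_smul, one_smul, mul_comm, mul_smul, hQ]
    rcases Nat.even_or_odd' j with ⟨i, hi | hi⟩
    · left
      rw [h1, hi, mul_comm, mul_smul, hT, smul_zero, zero_add]
    · right
      rw [h1, hi, add_smul, one_smul, mul_comm, mul_smul, hT, smul_zero, zero_add]
      have h2 : T + Q + Q = 0 := by
        rw [add_assoc, ← two_smul ℕ Q, hQ, ← two_smul ℕ T, hT]
      exact eq_neg_of_add_eq_zero_left h2
  have hfx : ∀ {a b : kb} (hab : (W⁄kb).Nonsingular a b),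
      (p • (some a b hab : (W⁄kb).Point) = some a b hab ∨
        p • (some a b hab : (W⁄kb).Point) = -some a b hab) → f.eval a = a := by
    intro a b hab h1
    obtain ⟨d, h', h2⟩ := hmul hab
    rw [h2] at h1
    rcases h1 with h1 | h1
    · exact y3_x_eq h1
    · exact y3_x_eq_neg h1
  have hid : ∀ t, f.eval t = t := by
    rcases hT' : T with _ | ⟨e₁, b₁, h₁⟩
    · exact absurd hT' hT0
    rcases hQ' : Q with _ | ⟨e₂, b₂, h₂⟩
    · exact absurd hQ' hQ0
    have k1 : f.eval e₁ = e₁ := hfx h₁ (Or.inl (by rw [← hT']; exact hpT))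
    have k2 : f.eval e₂ = e₂ := hfx h₂ (by rw [← hQ']; exact hpQ)
    have k3 : e₁ ≠ e₂ := by
      intro he
      have h3 : (some e₁ b₁ h₁ : (W⁄kb).Point) = some e₂ b₂ h₂ ∨
          (some e₁ b₁ h₁ : (W⁄kb).Point) = -some e₂ b₂ h₂ := X_eq_iff.mp he
      rw [← hT', ← hQ'] at h3
      rcases h3 with h3 | h3
      · rw [← h3, hT] at hQ
        exact hT0 hQ.symm
      · rw [h3, smul_neg, neg_eq_zero, hQ] at hT
        exact hT0 hT
    rw [hlin] at k1 k2
    have k4 : f.coeff 1 = 1 := by
      have : (f.coeff 1 - 1) * (e₁ - e₂) = 0 := by linear_combination k1 - k2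
      rcases mul_eq_zero.mp this with h | h
      · exact sub_eq_zero.mp h
      · exact absurd (sub_eq_zero.mp h) k3
    have k5 : f.coeff 0 = 0 := by
      rw [k4] at k1
      linear_combination k1
    intro t
    rw [hlin, k4, k5, one_mul, add_zero]
  have hpm : ∀ Q : (W⁄kb).Point, p • Q = Q ∨ p • Q = -Q := by
    intro Q
    rcases Q with _ | ⟨a, b, hab⟩
    · left
      exact smul_zero _
    · obtain ⟨d, h', h2⟩ := hmul hab
      have h3 : (some _ d h' : (W⁄kb).Point) = some a b hab ∨
        (some _ d h' : (W⁄kb).Point) = -some a b hab := X_eq_iff.mp (hid a)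
      rwa [← h2] at h3
  have hsq : ∀ Q : (W⁄kb).Point, (p * p - 1) • Q = 0 := by
    intro Q
    have h1 : (p * p) • Q = Q := by
      rw [mul_smul]
      rcases hpm Q with h | h
      · rw [h, h]
      · rw [h, smul_neg, h, _root_.neg_neg]
    have h2 : (p * p - 1) • Q + Q = Q := by
      rw [← succ_nsmul, Nat.sub_add_cancel (Nat.mul_pos hp.pos hp.pos), h1]
    exact add_eq_right.mp h2
  obtain ⟨Q₁, Q₂, -, -, -, h4⟩ := exists_pair (A := (W⁄kb)) (p * p - 1) (by
    have := hp.two_le
    have : 2 * 2 ≤ p * p := Nat.mul_le_mul this this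
    omega)
  exact h4 (by rw [hsq, smul_zero])

end tors

section

open Pool.Agent.Lib.MP_2f3286_ag.Top Pool.Agent.Lib.MP_2f3286_ag.Pt.Div

variable {k : Type*} [Field k] [CharZero k] (W : WeierstrassCurve k) [W.IsElliptic]
  {kb : Type*} [Field kb] [Algebra k kb] [IsAlgClosed kb] [DecidableEq kb] {p : ℕ}

/-- a compatible sequence of torsion points -/
theorem exists_tower (hp : p.Prime) :
    ∃ R : ℕ → (W⁄kb).Point, p • R 0 = 0 ∧ R 0 ≠ 0 ∧ ∀ n, p • R (n + 1) = R n := by
  have : CharZero kb := charZero_of_injective_algebraMap (algebraMap k kb).injective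
  obtain ⟨T, hT0, hT⟩ := exists_p_torsion (kb := kb) W hp
  choose d hd using fun R : (W⁄kb).Point => divisible (k := k) (W := W) hp.one_le R
  exact ⟨fun n => d^[n] T, hT, hT0, fun n => by
    show p • d^[n + 1] T = d^[n] T
    rw [Function.iterate_succ_apply', hd]⟩

/-- **The polynomials.** -/
theorem exists_polys [Algebra.IsAlgebraic k kb] [W.IsShortNF] (hp : p.Prime)
    (R : ℕ → (W⁄kb).Point) (h0 : p • R 0 = 0) (hR : ∀ n, p • R (n + 1) = R n) {e : k}
    {b : kb} {hb : (W⁄kb).Nonsingular (algebraMap k kb e) b} (he : R 0 = some _ b hb) :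
    ∃ P : ℕ → k[X], (∀ j, (P j).Monic) ∧ (∀ j, 0 < (P j).natDegree) ∧
      (∀ i j, i ≠ j → IsCoprime (P i) (P j)) ∧
      ∀ (j : ℕ) (τ : kb), aeval τ (P j) = 0 → τ ≠ 0 ∧
        ∃ (x y : kb) (h : (W⁄kb).Nonsingular x y), x ≠ algebraMap k kb e ∧
          τ = (x - algebraMap k kb e)⁻¹ ∧
          (p ^ (j + 1) • (some x y h : (W⁄kb).Point) = R 0 ∨
            p ^ (j + 1) • (some x y h : (W⁄kb).Point) = -R 0) := by
  have hR0 : R 0 ≠ 0 := by
    rw [he]
    exact some_ne_zero _
  have hpow : ∀ n, p ^ n • R n = R 0 := by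
    intro n
    induction n with
    | zero => simp
    | succ n ih => rw [pow_succ, mul_smul, hR, ih]
  have hpow' : ∀ n, p ^ (n + 1) • R n = 0 := by
    intro n
    rw [pow_succ', mul_smul, hpow, h0]
  have hex : ∀ j, ∃ (x y : kb) (h : (W⁄kb).Nonsingular x y), R (j + 1) = some x y h := by
    intro j
    rcases hj : R (j + 1) with _ | ⟨x, y, h⟩
    · exfalso
      have h1 := hpow (j + 1)
      rw [hj] at h1
      exact hR0 (h1.symm.trans (smul_zero _))
    · exact ⟨x, y, h, rfl⟩
  choose x y h hxy using hex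
  have hxe : ∀ j, x j ≠ algebraMap k kb e := by
    intro j hj
    have h1 : (some (x j) (y j) (h j) : (W⁄kb).Point) = some _ b hb ∨
        (some (x j) (y j) (h j) : (W⁄kb).Point) = -some _ b hb := X_eq_iff.mp hj
    rw [← hxy, ← he] at h1
    have h2 : p • R (j + 1) = 0 := by
      rcases h1 with h1 | h1
      · rw [h1, h0]
      · rw [h1, smul_neg, h0, _root_.neg_zero]
    have h3 := hpow (j + 1)
    rw [pow_succ, mul_smul, h2, smul_zero] at h3
    exact hR0 h3.symm
  let τ : ℕ → kb := fun j => (x j - algebraMap k kb e)⁻¹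
  have hint : ∀ t : kb, IsIntegral k t := fun t => Algebra.IsIntegral.isIntegral t
  have hdesc : ∀ (j : ℕ) (t : kb), aeval t (minpoly k (τ j)) = 0 → t ≠ 0 ∧
        ∃ (x y : kb) (h : (W⁄kb).Nonsingular x y), x ≠ algebraMap k kb e ∧
          t = (x - algebraMap k kb e)⁻¹ ∧
          (p ^ (j + 1) • (some x y h : (W⁄kb).Point) = R 0 ∨
            p ^ (j + 1) • (some x y h : (W⁄kb).Point) = -R 0) := by
    intro j t ht
    have hcl : IsAlgClosure k kb := ⟨inferInstance, inferInstance⟩
    have : Normal k kb := IsAlgClosure.normal k kb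
    obtain ⟨σ, hσ⟩ : ∃ σ : Gal(kb/k), σ (τ j) = t := by
      obtain ⟨σ₀, hσ₀⟩ := minpoly.exists_algEquiv_of_root (hint _).isAlgebraic ht
      exact ⟨σ₀.symm, by rw [← hσ₀, AlgEquiv.symm_apply_apply]⟩
    have h1 : σ (x j) ≠ algebraMap k kb e := by
      intro h2
      apply hxe j
      apply σ.injective
      rw [h2, AlgEquiv.commutes]
    have hns : (W⁄kb).Nonsingular (σ (x j)) (σ (y j)) :=
      (Affine.baseChange_nonsingular (W := W) (σ : kb →ₐ[k] kb).injective _ _).mpr (h j)
    have h2 : t = (σ (x j) - algebraMap k kb e)⁻¹ := by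
      rw [← hσ]
      simp only [τ]
      rw [map_inv₀, map_sub, AlgEquiv.commutes]
    refine ⟨?_, σ (x j), σ (y j), hns, h1, h2, ?_⟩
    · rw [h2]
      exact inv_ne_zero (sub_ne_zero.mpr h1)
    · have h3 : act (k := k) W σ (R (j + 1)) = some (σ (x j)) (σ (y j)) hns := by
        rw [hxy]
        rfl
      rw [← h3, ← map_nsmul, hpow, he]
      rw [act, map_some]
      apply X_eq_iff.mp
      exact AlgEquiv.commutes σ e
  have hcop : ∀ i j, i < j → IsCoprime (minpoly k (τ i)) (minpoly k (τ j)) := by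
    intro i j hij
    by_contra hcon
    rw [(minpoly.irreducible (hint _)).coprime_iff_not_dvd, not_not] at hcon
    have h1 : aeval (τ i) (minpoly k (τ j)) = 0 := by
      obtain ⟨q, hq⟩ := hcon
      rw [hq, map_mul, minpoly.aeval, zero_mul]
    obtain ⟨-, x', y', h', hx', hτ, hpt⟩ := hdesc j (τ i) h1
    have h2 : x' = x i := by
      have h3 := inv_injective hτ
      exact (sub_left_injective h3).symm
    have h3 : (some x' y' h' : (W⁄kb).Point) = some (x i) (y i) (h i) ∨
        (some x' y' h' : (W⁄kb).Point) = -some (x i) (y i) (h i) := X_eq_iff.mp h2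
    rw [← hxy] at h3
    have h4 : p ^ (j + 1) • R (i + 1) = 0 := by
      obtain ⟨d, hd⟩ := Nat.exists_eq_add_of_lt hij
      rw [show j + 1 = d + (i + 1 + 1) by omega, pow_add, mul_smul, hpow', smul_zero]
    have h5 : p ^ (j + 1) • (some x' y' h' : (W⁄kb).Point) = 0 := by
      rcases h3 with h3 | h3
      · rw [h3, h4]
      · rw [h3, smul_neg, h4, _root_.neg_zero]
    rw [h5] at hpt
    rcases hpt with hpt | hpt
    · exact hR0 hpt.symm
    · exact hR0 (neg_eq_zero.mp hpt.symm)
  refine ⟨fun j => minpoly k (τ j), fun j => minpoly.monic (hint _),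
    fun j => minpoly.natDegree_pos (hint _), ?_, hdesc⟩
  intro i j hij
  rcases lt_or_gt_of_ne hij with h1 | h1
  · exact hcop i j h1
  · exact (hcop j i h1).symm

end

end Pool.Agent.Lib.MP_2f3286_ag.UA
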