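import Pool.Agent.Lib.MP_2f3286_ag.UA.Y2
import Pool.Agent.Lib.MP_2f3286_ag.UA.Y3
import Pool.Agent.Lib.MP_2f3286_ag.UA.X9
import Pool.Agent.Lib.MP_2f3286_ag.Local
import Pool.Agent.Lib.MP_2f3286_ag.PD.Loc
import Pool.Agent.Lib.MP_2f3286_ag.Top.Assembly

/-!
# Y9: constant values are not torsion points; no cusps

`no_tors_p`: choose a place `v` outside the finite sets of `exists_good` (Y2), with `v e ≤ 1` and `IntAt v (algebraMap e)` (`finite_not_intAt`), `v` over no bad place; `Red`: `x₁` is in `C`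
(its value `e` is integral) and `χ x₁ = χ e`, so `ρ (ζ 1) = ± ρ (e, b)` (`Red.eq`, `h'` for the constant point), killed by `p ^ m`; the `ρ (ζ n)` are in the finite set `Z` (`Red.mem`; the `ζ n` are
fixed, their coordinates have values in `k_v`: `Top.IsPlaceOf.exists_val` or `HYP.mem_of_fixed` for `k_v`); `no_kernel` (Y3) gives `ρ (ζ 1) = 0`, so `x₁` is not in `C` (`Red.zero`).
`not_cusp_p`: copy of `X9.not_cusp` with `p` for `2`.
-/

open WeierstrassCurve WeierstrassCurve.Affine WeierstrassCurve.Affine.Point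
open IsDedekindDomain NumberField
open scoped WithZero
open Pool.Agent.Lib.MP_2f3286_ag

namespace Pool.Agent.Lib.MP_2f3286_ag.UA

universe u

private theorem nsmul_of_pm {G : Type*} [AddCommGroup G] {a b : G} {n : ℕ} (h : a = b ∨ a = -b)
    (hb : n • b = 0) : n • a = 0 := by
  rcases h with h | h
  · rw [h, hb]
  · rw [h, smul_neg, hb, _root_.neg_zero]

private theorem ne_of_ne {G H : Type*} [AddCommGroup G] [AddCommGroup H] (V : G →+ H) {p : ℕ}
    {P₁ P Q : G} (h : p • P₁ = P - Q) {m : ℕ} (hQ : p ^ m • Q = 0)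
    (h₁ : ∀ n : ℕ, p ^ n • V P₁ ≠ 0) (n : ℕ) : p ^ n • V P ≠ 0 := by
  intro h0
  have e : P = p • P₁ + Q := by rw [h, sub_add_cancel]
  have h3 : p ^ m • V Q = 0 := by rw [← map_nsmul, hQ, _root_.map_zero]
  apply h₁ (n + m + 1)
  have h4 : p ^ (n + m) • V P = 0 := by
    rw [pow_add, mul_comm, mul_smul, h0, smul_zero]
  rw [e, map_add, smul_add, map_nsmul, ← mul_smul, ← pow_succ] at h4
  have h5 : p ^ (n + m) • V Q = 0 := by rw [pow_add, mul_smul, h3, smul_zero]
  rw [h5, add_zero] at h4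
  exact h4

private theorem norm_le {k : Type*} [Field k] [NumberField k]
    {T : Set (HeightOneSpectrum (𝓞 k))} (hT : T.Finite) (w : HeightOneSpectrum (𝓞 k))
    (h : w ∈ T) : Ideal.absNorm w.asIdeal ≤ ∑ v ∈ hT.toFinset, Ideal.absNorm v.asIdeal :=
  Finset.single_le_sum (f := fun v : HeightOneSpectrum (𝓞 k) => Ideal.absNorm v.asIdeal)
    (fun _ _ => Nat.zero_le _) (hT.mem_toFinset.mpr h)

private theorem norm_mem {k : Type*} [Field k] [NumberField k] (q : ℕ) (P : Ideal (𝓞 k))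
    (hPq : P.LiesOver (Ideal.span {(q : ℤ)})) (h2 : ((Ideal.absNorm P : ℕ) : 𝓞 k) ∈ P) :
    ((Ideal.absNorm P : ℕ) : ℤ) ∈ Ideal.span {(q : ℤ)} := by
  rw [hPq.over, Ideal.under_def, Ideal.mem_comap, map_natCast]
  exact h2

/-- there are infinitely many places -/
private theorem exists_place {k : Type*} [Field k] [NumberField k]
    {T : Set (HeightOneSpectrum (𝓞 k))} (hT : T.Finite) : ∃ v, v ∉ T := by
  obtain ⟨q, hq, hqp⟩ := Nat.exists_infinite_primes
    ((∑ v ∈ hT.toFinset, Ideal.absNorm v.asIdeal) + 1)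
  have hfact : Fact q.Prime := ⟨hqp⟩
  have hmax : (Ideal.span {(q : ℤ)}).IsMaximal :=
    PrincipalIdealRing.isMaximal_of_irreducible (Nat.prime_iff_prime_int.mp hqp).irreducible
  obtain ⟨P, hP, hPq⟩ := Ideal.exists_maximal_ideal_liesOver_of_isIntegral (S := 𝓞 k)
    (Ideal.span {(q : ℤ)})
  have hq0 : Ideal.span {(q : ℤ)} ≠ ⊥ := by
    rw [Ne, Ideal.span_singleton_eq_bot]
    exact_mod_cast hqp.ne_zero
  have hP0 : P ≠ ⊥ := Ideal.ne_bot_of_liesOver_of_ne_bot hq0 P
  refine ⟨⟨P, hP.isPrime, hP0⟩, fun hmem => ?_⟩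
  have h1 : Ideal.absNorm P ≤ ∑ v ∈ hT.toFinset, Ideal.absNorm v.asIdeal :=
    norm_le hT ⟨P, hP.isPrime, hP0⟩ hmem
  have h2 : ((Ideal.absNorm P : ℕ) : 𝓞 k) ∈ P := Ideal.absNorm_mem P
  have h3 : ((Ideal.absNorm P : ℕ) : ℤ) ∈ Ideal.span {(q : ℤ)} := norm_mem q P hPq h2
  have h4 : q ∣ Ideal.absNorm P := by
    rw [Ideal.mem_span_singleton] at h3
    exact_mod_cast h3
  have h5 : Ideal.absNorm P ≠ 0 := fun h => hP0 (Ideal.absNorm_eq_zero_iff.mp h)
  have h6 := Nat.le_of_dvd (Nat.pos_of_ne_zero h5) h4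
  omega

section

variable {k : Type*} [Field k] [NumberField k] {K : Type*} [Field K] [Algebra k K]
    {M : Type*} [Field M] [Algebra K M] [Algebra (AlgebraicClosure k) M] [Algebra k M]
    [IsScalarTower k K M] [IsScalarTower k (AlgebraicClosure k) M]

/-- values of fixed elements -/
private theorem fixed_value' {s : Gal(AlgebraicClosure k/k) →* Gal(M/K)}
    {v : HeightOneSpectrum (𝓞 k)}
    {ι : AlgebraicClosure k →ₐ[k] AlgebraicClosure (v.adicCompletion k)}
    {A : ValuationSubring M} {φ : A →+* AlgebraicClosure (v.adicCompletion k)}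
    (h : Sel.IsPlaceOf s (v.adicCompletion k)
      (ι : _ →+* AlgebraicClosure (v.adicCompletion k)) A φ) {y : M} (hy : ∀ σ, s σ y = y)
    (hyA : y ∈ A) : ∃ x : v.adicCompletion k, φ ⟨y, hyA⟩ = algebraMap _ _ x := by
  have : CharZero (v.adicCompletion k) := charZero_of_injective_algebraMap
    (algebraMap k (v.adicCompletion k)).injective
  have h' : Pool.Agent.Lib.MP_2f3286_bir.IsPlaceOf s (v.adicCompletion k)
      (ι : _ →+* AlgebraicClosure (v.adicCompletion k)) A φ := h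
  exact PD.fixed_value h' hy hyA

open scoped Classical in
/-- points with the same value of the first coordinate -/
private theorem val_eq (W : WeierstrassCurve k) [W.IsElliptic]
    {s : Gal(AlgebraicClosure k/k) →* Gal(M/K)}
    {v : HeightOneSpectrum (𝓞 k)}
    {ι : AlgebraicClosure k →ₐ[k] AlgebraicClosure (v.adicCompletion k)}
    {A : ValuationSubring M} {φ : A →+* AlgebraicClosure (v.adicCompletion k)}
    (hφ : Sel.IsPlaceOf s (v.adicCompletion k)
      (ι : _ →+* AlgebraicClosure (v.adicCompletion k)) A φ)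
    {x y x' y' : M} (h : (W⁄M).Nonsingular x y) (h' : (W⁄M).Nonsingular x' y')
    (hx : x ∈ A) (hx' : x' ∈ A) (e : φ ⟨x, hx⟩ = φ ⟨x', hx'⟩) :
    (Top.LocalPoint.ofPlace ι A φ hφ).isPlaceOf.val s (some x y h : (W⁄M).Point) =
      (Top.LocalPoint.ofPlace ι A φ hφ).isPlaceOf.val s (some x' y' h') ∨
    (Top.LocalPoint.ofPlace ι A φ hφ).isPlaceOf.val s (some x y h : (W⁄M).Point) =
      -(Top.LocalPoint.ofPlace ι A φ hφ).isPlaceOf.val s (some x' y' h') := by
  let X := Top.LocalPoint.ofPlace ι A φ hφ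
  have hX := X.isPlaceOf
  have hl : IsLocalHom φ := X.isLocal
  have hcs : Top.CurveSp A φ (W⁄M) (W⁄(AlgebraicClosure (v.adicCompletion k))) :=
    hX.curveSp s
  have h1 := Top.sp_of_mem (φ := φ) hx
  have h2 := Top.sp_of_mem (φ := φ) (Top.mem_y hcs hx h.1)
  have h3 := equation_iff_nonsingular.mp (h1.equation hcs h2 h.1)
  have h1' := Top.sp_of_mem (φ := φ) hx'
  have h2' := Top.sp_of_mem (φ := φ) (Top.mem_y hcs hx' h'.1)
  have h3' := equation_iff_nonsingular.mp (h1'.equation hcs h2' h'.1)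
  have e1 : X.isPlaceOf.val s (some x y h : (W⁄M).Point) = some _ _ h3 :=
    Top.red_some hcs h h1 h2 h3
  have e1' : X.isPlaceOf.val s (some x' y' h' : (W⁄M).Point) = some _ _ h3' :=
    Top.red_some hcs h' h1' h2' h3'
  change X.isPlaceOf.val s (some x y h : (W⁄M).Point) = X.isPlaceOf.val s (some x' y' h') ∨
    X.isPlaceOf.val s (some x y h : (W⁄M).Point) = -X.isPlaceOf.val s (some x' y' h')
  rw [e1, e1']
  rcases Y_eq_of_X_eq h3.1 h3'.1 e with h4 | h4
  · left
    exact Top.some_ext _ _ e h4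
  · right
    rw [neg_some]
    exact Top.some_ext _ _ e h4

end

section

variable {k : Type u} [Field k] [NumberField k] (W : WeierstrassCurve k) [W.IsShortNF]
    [W.IsElliptic] {p : ℕ} {K : Type*} [Field K] [Algebra k K]
    {M : Type*} [Field M] [Algebra K M] [Algebra.IsAlgebraic K M]
    [Algebra (AlgebraicClosure k) M] [Algebra k M]
    [IsScalarTower k K M] [IsScalarTower k (AlgebraicClosure k) M]

open scoped Classical in
/-- **The constant value is not the coordinate of a point of `p`-power order.** -/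
theorem no_tors_p (hp : p.Prime)
    (s : Gal(AlgebraicClosure k/k) →* Gal(M/K))
    (hloc : ∀ v : HeightOneSpectrum (𝓞 k),
      ∃ (ι : AlgebraicClosure k →ₐ[k] AlgebraicClosure (v.adicCompletion k))
        (A : ValuationSubring M) (φ : A →+* AlgebraicClosure (v.adicCompletion k)),
        Sel.IsPlaceOf s (v.adicCompletion k)
          (ι : _ →+* AlgebraicClosure (v.adicCompletion k)) A φ)
    (ζ : ℕ → (W⁄M).Point) (hfix : ∀ n σ, Top.act W (s σ) (ζ n) = ζ n)
    (hζ : ∀ n, p • ζ (n + 1) = ζ n)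
    {x₁ y₁ : M} (h₁ : (W⁄M).Nonsingular x₁ y₁) (hζ1 : ζ 1 = some x₁ y₁ h₁) {e : k}
    (he : ∀ (v : HeightOneSpectrum (𝓞 k))
        (ι : AlgebraicClosure k →ₐ[k] AlgebraicClosure (v.adicCompletion k))
        (A : ValuationSubring M) (φ : A →+* AlgebraicClosure (v.adicCompletion k)),
        Sel.IsPlaceOf s (v.adicCompletion k)
          (ι : _ →+* AlgebraicClosure (v.adicCompletion k)) A φ →
        ∃ h : x₁ ∈ A, φ ⟨_, h⟩ = ι (algebraMap k _ e))
    {b : AlgebraicClosure k} (h : (W⁄(AlgebraicClosure k)).Nonsingular (algebraMap k _ e) b)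
    (m : ℕ) : p ^ m • (some _ b h : (W⁄(AlgebraicClosure k)).Point) ≠ 0 := by
  intro h0
  obtain ⟨T, hT⟩ := exists_good W (M := M)
  obtain ⟨v, hv⟩ := exists_place
    (T.finite_toSet.union (finite_not_intAt (algebraMap k (AlgebraicClosure k) e)))
  have hvT : v ∉ T := fun h1 => hv (Or.inl h1)
  have hvI : IntAt v (algebraMap k (AlgebraicClosure k) e) := by
    by_contra h1
    exact hv (Or.inr h1)
  obtain ⟨ι, A, φ, hpl⟩ := hloc v
  obtain ⟨D⟩ := hT v hvT ι A φ hpl.1 hpl.2.1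
  letI hgr : AddCommGroup D.G := D.gG
  letI hfE : Field D.E := D.fE
  obtain ⟨hx, hφx⟩ := he v ι A φ hpl
  have hιe : ι (algebraMap k _ e) =
      algebraMap (v.adicCompletion k) _ (algebraMap k (v.adicCompletion k) e) := by
    rw [ι.commutes]
    exact IsScalarTower.algebraMap_apply k (v.adicCompletion k) _ e
  obtain ⟨heA, hφe⟩ := hpl.1 (algebraMap k _ e)
  have hφe' : φ ⟨_, heA⟩ = ι (algebraMap k _ e) := hφe
  have heC : algebraMap (AlgebraicClosure k) M (algebraMap k _ e) ∈ D.C := D.int _ hvI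
  have hve : Valued.v (algebraMap k (v.adicCompletion k) e) ≤ (1 : ℤᵐ⁰) :=
    ((D.val _ heA _ (hφe'.trans hιe)).1).1 heC
  have hxC : x₁ ∈ D.C := ((D.val x₁ hx _ (hφx.trans hιe)).1).2 hve
  have hχ : D.χ ⟨x₁, hxC⟩ = D.χ ⟨_, heC⟩ := by
    have h1 : x₁ - algebraMap (AlgebraicClosure k) M (algebraMap k _ e) ∈ D.C := sub_mem hxC heC
    have h2 : x₁ - algebraMap (AlgebraicClosure k) M (algebraMap k _ e) ∈ A := sub_mem hx heA
    have h3 : φ ⟨_, h2⟩ = algebraMap _ _ (0 : v.adicCompletion k) := by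
      have h4 : (⟨_, h2⟩ : A) = ⟨x₁, hx⟩ - ⟨_, heA⟩ := rfl
      rw [h4, map_sub, hφx, hφe', sub_self, _root_.map_zero]
    have h4 := ((D.val _ h2 _ h3).2 h1).2 (by rw [_root_.map_zero]; exact zero_lt_one)
    have h5 : (⟨_, h1⟩ : D.C) = ⟨x₁, hxC⟩ - ⟨_, heC⟩ := rfl
    rw [h5, map_sub, sub_eq_zero] at h4
    exact h4
  have hns : (W⁄M).Nonsingular (algebraMap (AlgebraicClosure k) M (algebraMap k _ e))
      (algebraMap (AlgebraicClosure k) M b) :=
    (Affine.baseChange_nonsingular (W := W)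
      (Algebra.ofId (AlgebraicClosure k) M).injective _ _).mpr h
  have hbc : p ^ m • D.ρ (some _ _ hns) = 0 := by
    have h1 : (some _ _ hns : (W⁄M).Point) =
      baseChange (AlgebraicClosure k) M (some _ b h) := rfl
    rw [h1, ← map_nsmul, ← map_nsmul, h0, _root_.map_zero, _root_.map_zero]
  have hkill : p ^ m • D.ρ (ζ 1) = 0 := by
    rw [hζ1]
    exact nsmul_of_pm (D.eq x₁ y₁ _ _ h₁ hns hxC heC hχ) hbc
  have hmem : ∀ n, D.ρ (ζ n) ∈ D.Z := by
    intro n
    apply D.mem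
    intro x y hxy hn hxA
    have h1 : ∀ σ, s σ x = x ∧ s σ y = y := by
      intro σ
      have h2 := hfix n σ
      rw [hn, Top.act, map_some, some.injEq] at h2
      exact h2
    have hyA : y ∈ A := by
      have h2 : Top.CurveSp A φ (W⁄M) (W⁄(AlgebraicClosure (v.adicCompletion k))) :=
        (Top.LocalPoint.ofPlace ι A φ hpl).isPlaceOf.curveSp s
      have h3 : IsLocalHom φ := (Top.LocalPoint.ofPlace ι A φ hpl).isLocal
      exact Top.mem_y h2 hxA hxy.1
    obtain ⟨a, ha⟩ := fixed_value' hpl (fun σ => (h1 σ).1) hxA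
    obtain ⟨c, hc⟩ := fixed_value' hpl (fun σ => (h1 σ).2) hyA
    exact ⟨hxA, hyA, a, c, ha, hc⟩
  have h6 := no_kernel hp D.finZ (fun n => D.ρ (ζ n))
    (fun n => by rw [← map_nsmul, hζ n]) hmem (n := 1) (a := m) hkill
  exact ((D.zero x₁ y₁ h₁).1 (by rw [← hζ1]; exact h6)) hxC


open scoped Classical in
/-- **No cusps.** -/
theorem not_cusp_p (hp : p.Prime) (s : Gal(AlgebraicClosure k/k) →* Gal(M/K))
    {v : HeightOneSpectrum (𝓞 k)}
    {ι : AlgebraicClosure k →ₐ[k] AlgebraicClosure (v.adicCompletion k)}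
    {A : ValuationSubring M} {φ : A →+* AlgebraicClosure (v.adicCompletion k)}
    (hφ : Sel.IsPlaceOf s (v.adicCompletion k)
      (ι : _ →+* AlgebraicClosure (v.adicCompletion k)) A φ)
    {x₁ y₁ x y : M} (h₁ : (W⁄M).Nonsingular x₁ y₁) (hxy : (W⁄M).Nonsingular x y)
    {Q : (W⁄k).Point} (hQ : ∃ m : ℕ, p ^ m • Q = 0)
    (h2 : p • (some x₁ y₁ h₁ : (W⁄M).Point) = some x y hxy - baseChange k M Q)
    {e : k} (he : ∃ h : x₁ ∈ A, φ ⟨_, h⟩ = ι (algebraMap k _ e))
    (htor : ∀ (b : AlgebraicClosure k)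
      (h : (W⁄(AlgebraicClosure k)).Nonsingular (algebraMap k _ e) b) (m : ℕ),
      p ^ m • (some _ b h : (W⁄(AlgebraicClosure k)).Point) ≠ 0) :
    x ∈ A ∧ ∀ (a b : k) (h : (W⁄k).Nonsingular a b),
      (∃ m : ℕ, p ^ m • (some a b h : (W⁄k).Point) = 0) → (x - algebraMap k M a)⁻¹ ∈ A := by
  let X := Top.LocalPoint.ofPlace ι A φ hφ
  have hl : IsLocalHom X.φ := X.isLocal
  let V : (W⁄M).Point →+ (W⁄(AlgebraicClosure (v.adicCompletion k))).Point :=
    X.isPlaceOf.val s
  obtain ⟨hx1, hφx1⟩ := he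
  -- the constant point
  obtain ⟨b, hb⟩ : ∃ b : AlgebraicClosure k,
      (W⁄(AlgebraicClosure k)).Nonsingular (algebraMap k _ e) b := by
    obtain ⟨b, hb⟩ := IsAlgClosed.exists_pow_nat_eq (algebraMap k (AlgebraicClosure k)
      (e ^ 3 + W.a₄ * e + W.a₆)) (n := 2) (by norm_num)
    refine ⟨b, equation_iff_nonsingular.mp ?_⟩
    rw [Affine.equation_iff]
    have ea1 : (W⁄(AlgebraicClosure k)).a₁ = 0 := (W⁄(AlgebraicClosure k)).a₁_of_isShortNF
    have ea2 : (W⁄(AlgebraicClosure k)).a₂ = 0 := (W⁄(AlgebraicClosure k)).a₂_of_isShortNF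
    have ea3 : (W⁄(AlgebraicClosure k)).a₃ = 0 := (W⁄(AlgebraicClosure k)).a₃_of_isShortNF
    have ea4 : (W⁄(AlgebraicClosure k)).a₄ = algebraMap k _ W.a₄ := rfl
    have ea6 : (W⁄(AlgebraicClosure k)).a₆ = algebraMap k _ W.a₆ := rfl
    rw [ea1, ea2, ea3, ea4, ea6]
    simp only [map_add, map_mul, map_pow] at hb
    linear_combination hb
  have hinj : Function.Injective (map (W' := W) ι) := map_injective _
  have hne1 : ∀ n : ℕ, p ^ n • V (some x₁ y₁ h₁) ≠ 0 := by
    intro n h0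
    obtain ⟨heA, hφe⟩ := hφ.1 (algebraMap k _ e)
    have hns : (W⁄M).Nonsingular (algebraMap (AlgebraicClosure k) M (algebraMap k _ e))
        (algebraMap (AlgebraicClosure k) M b) :=
      (Affine.baseChange_nonsingular (W := W)
        (Algebra.ofId (AlgebraicClosure k) M).injective _ _).mpr hb
    have h1 : V (some _ _ hns) = map ι (some _ b hb) :=
      X.isPlaceOf.val_const s (some _ b hb : (W⁄(AlgebraicClosure k)).Point)
    have h2 : p ^ n • V (some _ _ hns) = 0 :=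
      nsmul_of_pm (val_eq W hφ hns h₁ heA hx1 (hφx1.trans hφe.symm).symm) h0
    rw [h1, ← map_nsmul] at h2
    exact htor b hb n (hinj (by rw [h2, _root_.map_zero]))
  have hne : ∀ n : ℕ, p ^ n • V (some x y hxy) ≠ 0 := by
    obtain ⟨m, hm⟩ := hQ
    have h3 : p ^ m • (baseChange k M Q : (W⁄M).Point) = 0 := by
      rw [← map_nsmul, hm, _root_.map_zero]
    exact ne_of_ne V h2 h3 hne1
  have hxA : x ∈ A := by
    by_contra hx
    apply hne 0
    have h1 : V (some x y hxy) = 0 := Top.red_some_of_notMem (X.isPlaceOf.curveSp s) hxy hx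
    rw [h1]
    exact nsmul_zero _
  refine ⟨hxA, fun a b h => ?_⟩
  rintro ⟨m, hm⟩
  by_contra hcon
  have haA : algebraMap k M a ∈ A := by
    have h1 := (hφ.1 (algebraMap k _ a)).1
    rw [← IsScalarTower.algebraMap_apply] at h1
    exact h1
  have hφa : φ ⟨x, hxA⟩ = φ ⟨algebraMap k M a, haA⟩ := by
    by_contra h1
    apply hcon
    have h3 : φ (⟨x, hxA⟩ - ⟨algebraMap k M a, haA⟩) ≠ 0 := by
      rw [map_sub]
      exact sub_ne_zero.mpr h1
    exact hφ.2.1 _ h3
  have hns : (W⁄M).Nonsingular (algebraMap k M a) (algebraMap k M b) :=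
    (Affine.baseChange_nonsingular (W := W) (Algebra.ofId k M).injective _ _).mpr h
  have h3 : p ^ m • V (some _ _ hns) = 0 := by
    have h4 : (some _ _ hns : (W⁄M).Point) = baseChange k M (some a b h) := rfl
    rw [h4, ← map_nsmul, ← map_nsmul, hm, _root_.map_zero, _root_.map_zero]
  exact hne m (nsmul_of_pm (val_eq W hφ hxy hns hxA haA hφa) h3)


end

end Pool.Agent.Lib.MP_2f3286_ag.UA
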