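import Pool.Agent.Lib.MP_2f3286_ag.UA.Y7
import Pool.Agent.Lib.MP_2f3286_ag.UA.Y8
import Pool.Agent.Lib.MP_2f3286_ag.UA.Y9
import Pool.Agent.Lib.MP_2f3286_ag.UA.X3
import Pool.Agent.Lib.MP_2f3286_ag.UA.X7

/-!
# Y10: the arithmetic half, for every prime

Copy of X8. Steps.
(1) `exists_seq_p` (Y7) for `η = (x, y)`: `Q`, `ζ n` in `W(M)`, fixed by the section, `ζ 0 = η - Q`, `p ζ (n + 1) = ζ n`.
(2) `ζ n` is not constant: if `ζ n` is a point over `AlgebraicClosure k` (embedded in `M`), so is `ζ 0`, and it is fixed, so in `W(k)` (`Top.exists_of_fixed_const`), and `η` is in `W(k)`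
(`Top.bc_injective`). So `ζ n = (x n, y n)` with `x n` not in `AlgebraicClosure k` (if `x n` is constant so is `y n`, a root of a quadratic polynomial).
(3) `T` of order `p` in `W(AlgebraicClosure k)` (`exists_tower`), `T = (c, b)`; `g = minpoly k c`, its roots are the `σ c`, coordinates of `σ T`.
`x_sub_mem` (X3): `x 0` is in `V` for `V` in the set; then as in `unit_one` (Y5) `x₁ = x 1` and `(x₁ - σ c)⁻¹` are in `V`; `g (x₁)` is the product (make `unit_one` usable: the tower of Y4 is not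
needed for it, only `p ζ 1 = ζ 0` and `x 0` in `V`: repeat its short proof here as a private lemma).
(4) `F` = a finite Galois extension of `k` in `AlgebraicClosure k` which contains `c` (normal closure of `k(c)`): `sameVal_F` (Y8), `exists_local_up` (X7) for `hloc` over `F`;
`value_down` (X7) gives SameVal over `k` (SameVal has `x ∉ A` where X7 has `x⁻¹ ∈ A`, `φ x⁻¹ = 0`: equivalent for places).
(5) In the first case of SameVal `no_tors_p`, `not_cusp_p` (Y9); `g (e) ≠ 0` since `e` is not the coordinate of a point killed by `p`.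
-/

open WeierstrassCurve WeierstrassCurve.Affine WeierstrassCurve.Affine.Point
open IsDedekindDomain NumberField Polynomial
open scoped WithZero
open Pool.Agent.Lib.MP_2f3286_ag

namespace Pool.Agent.Lib.MP_2f3286_ag.UA

universe u

section aux

open Pool.Agent.Lib.MP_2f3286_ag.Top

open scoped Classical in
/-- units at trivial places -/
private theorem Y10_unit {k : Type*} [Field k] (W : WeierstrassCurve k) [W.IsElliptic]
    {kb M : Type*} [Field kb] [Field M] [Algebra k kb] [Algebra kb M] [Algebra k M]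
    [IsScalarTower k kb M] (V : ValuationSubring M)
    (hV : ∀ a : kb, algebraMap kb M a ∈ V) {p : ℕ} {x₁ y₁ x₀ y₀ : M}
    (h₁ : (W⁄M).Nonsingular x₁ y₁) (h₀ : (W⁄M).Nonsingular x₀ y₀)
    (hp : p • (some x₁ y₁ h₁ : (W⁄M).Point) = some x₀ y₀ h₀) (hx₀ : x₀ ∈ V) :
    x₁ ∈ V ∧ ∀ (c d : kb) (hcd : (W⁄kb).Nonsingular c d),
      p • (some c d hcd : (W⁄kb).Point) = 0 → V.valuation (x₁ - algebraMap kb M c) = 1 := by
  let L := IsLocalRing.ResidueField V
  let φ : V →+* L := IsLocalRing.residue V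
  let ι : kb →+* V := (algebraMap kb M).codRestrict V.toSubring hV
  let _ : Algebra kb L := (φ.comp ι).toAlgebra
  let _ : Algebra k L := ((φ.comp ι).comp (algebraMap k kb)).toAlgebra
  have : IsScalarTower k kb L := IsScalarTower.of_algebraMap_eq fun _ => rfl
  have hsp : ∀ c : kb, Sp V φ (algebraMap _ M c) (algebraMap _ L c) := fun c => ⟨hV c, rfl⟩
  have hsp' : ∀ c : k, Sp V φ (algebraMap k M c) (algebraMap k L c) := by
    intro c
    rw [IsScalarTower.algebraMap_apply k kb M]
    exact hsp _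
  have hAB : CurveSp V φ (W⁄M) (W⁄L) := curveSp hsp'
  have : IsLocalHom φ := inferInstanceAs (IsLocalHom (IsLocalRing.residue V))
  have h9 := equation_iff_nonsingular.mp ((sp_of_mem (φ := φ) hx₀).equation hAB
    (sp_of_mem (mem_y hAB hx₀ h₀.1)) h₀.1)
  have h10 : redHom hAB (some x₀ y₀ h₀) = some _ _ h9 :=
    red_some hAB h₀ (sp_of_mem hx₀) (sp_of_mem _) h9
  have h11 := congrArg (redHom hAB) hp
  rw [map_nsmul, h10] at h11
  have hx₁ : x₁ ∈ V := by
    by_contra hN
    have h2 : redHom hAB (some x₁ y₁ h₁) = 0 := red_some_of_notMem hAB h₁ hN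
    rw [h2, smul_zero] at h11
    exact some_ne_zero _ h11.symm
  refine ⟨hx₁, fun c d hcd ht => ?_⟩
  have hsub : x₁ - algebraMap _ M c ∈ V := sub_mem hx₁ (hV c)
  refine le_antisymm ((V.valuation_le_one_iff _).mpr hsub) (not_lt.mp fun h => ?_)
  have hz : Sp V φ (x₁ - algebraMap _ M c) 0 := by
    refine ⟨hsub, ?_⟩
    rw [IsLocalRing.residue_eq_zero_iff]
    exact (V.valuation_lt_one_iff ⟨_, hsub⟩).mpr h
  have hxc : Sp V φ x₁ (algebraMap _ L c) := by
    have h3 := hz.add (hsp c)
    rwa [sub_add_cancel, zero_add] at h3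
  have hy : y₁ ∈ V := mem_y hAB hx₁ h₁.1
  have h3 := equation_iff_nonsingular.mp (hxc.equation hAB (sp_of_mem hy) h₁.1)
  have h4 : redHom hAB (some x₁ y₁ h₁) = some _ _ h3 := red_some hAB h₁ hxc (sp_of_mem hy) h3
  have h5 : redHom hAB (some x₁ y₁ h₁) = baseChange kb L (some c d hcd) ∨
      redHom hAB (some x₁ y₁ h₁) = -baseChange kb L (some c d hcd) := by
    rw [h4]
    exact X_eq_iff.mp rfl
  have h6 : p • redHom hAB (some x₁ y₁ h₁) = 0 := by
    rcases h5 with h5 | h5
    · rw [h5, ← map_nsmul, ht, _root_.map_zero]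
    · rw [h5, smul_neg, ← map_nsmul, ht, _root_.map_zero, _root_.neg_zero]
  rw [h6] at h11
  exact some_ne_zero _ h11.symm

end aux

/-- the value of the minimal polynomial -/
private theorem Y10_val {k kb M : Type*} [Field k] [Field kb] [Field M] [Algebra k kb]
    [Algebra kb M] [Algebra k M] [IsScalarTower k kb M] [IsAlgClosed kb]
    (V : ValuationSubring M) {x₁ : M} {g : k[X]} (hg : g.Monic)
    (h : ∀ r : kb, aeval r g = 0 → V.valuation (x₁ - algebraMap kb M r) = 1) :
    V.valuation (aeval x₁ g) = 1 := by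
  have h1 : (g.map (algebraMap k kb)).Splits := IsAlgClosed.splits _
  have h2 : aeval x₁ g = ((g.map (algebraMap k kb)).roots.map
      fun r => x₁ - algebraMap kb M r).prod := by
    have h3 : aeval x₁ g = aeval x₁ (g.map (algebraMap k kb)) := by
      rw [aeval_map_algebraMap]
    rw [h3]
    conv_lhs => rw [h1.eq_prod_roots_of_monic (hg.map _)]
    rw [map_multiset_prod, Multiset.map_map]
    congr 1
    apply Multiset.map_congr rfl
    intro r _
    simp
  rw [h2, map_multiset_prod, Multiset.map_map]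
  apply Multiset.prod_eq_one
  intro z hz
  obtain ⟨r, hr, rfl⟩ := Multiset.mem_map.1 hz
  apply h
  have h4 := (mem_roots'.1 hr).2
  rw [IsRoot, eval_map_algebraMap] at h4
  exact h4

open scoped Classical in
/-- the roots of the minimal polynomial of the coordinate of a point of order `p` -/
private theorem Y10_root {k kb : Type*} [Field k] [Field kb] [Algebra k kb] [IsAlgClosed kb]
    [Algebra.IsAlgebraic k kb] (W : WeierstrassCurve k)
    {p : ℕ} {c d : kb} (hcd : (W⁄kb).Nonsingular c d)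
    (ht : p • (some c d hcd : (W⁄kb).Point) = 0) {r : kb} (hr : aeval r (minpoly k c) = 0) :
    ∃ (d' : kb) (h : (W⁄kb).Nonsingular r d'), p • (some r d' h : (W⁄kb).Point) = 0 := by
  have hcl : IsAlgClosure k kb := ⟨inferInstance, inferInstance⟩
  have hnorm : Normal k kb := IsAlgClosure.normal k kb
  obtain ⟨σ, rfl⟩ := minpoly.exists_algEquiv_of_root' (Algebra.IsAlgebraic.isAlgebraic c) hr
  have h1 : (W⁄kb).Nonsingular (σ c) (σ d) :=
    (Affine.baseChange_nonsingular (W := W) (σ : kb →ₐ[k] kb).injective c d).mpr hcd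
  refine ⟨σ d, h1, ?_⟩
  have h2 : (some (σ c) (σ d) h1 : (W⁄kb).Point) = map (σ : kb →ₐ[k] kb) (some c d hcd) := rfl
  rw [h2, ← map_nsmul, ht, _root_.map_zero]

open scoped Classical in
/-- **The arithmetic half.** -/
theorem tri_Ep {k : Type u} [Field k] [NumberField k] (W : WeierstrassCurve k) [W.IsShortNF]
    [W.IsElliptic] (hrk : ∀ Q : (W⁄k).Point, IsOfFinAddOrder Q) {p : ℕ} (hp : p.Prime) {j : ℕ}
    (hsha : ShaKilledByPow W p j)
    {K : Type*} [Field K] [Algebra k K] (htr : Algebra.trdeg k K = 1)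
    {M : Type*} [Field M] [Algebra K M] [Algebra.IsAlgebraic K M]
    [Algebra (AlgebraicClosure k) M] [Algebra k M]
    [IsScalarTower k K M] [IsScalarTower k (AlgebraicClosure k) M]
    (𝒱 : Set (ValuationSubring M))
    (h𝒱 : ∀ V ∈ 𝒱, ∀ a : AlgebraicClosure k, algebraMap (AlgebraicClosure k) M a ∈ V)
    (hroot : ∀ b : M, b ≠ 0 → (∀ V ∈ 𝒱, V.valuation b = 1) → ∀ n : ℕ, 1 ≤ n →
      ∃ c : M, c ^ n = b)
    (s : Gal(AlgebraicClosure k/k) →* Gal(M/K)) (hs : Continuous s)
    (hsec : ∀ σ a, s σ (algebraMap (AlgebraicClosure k) M a) =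
      algebraMap (AlgebraicClosure k) M (σ a))
    {x y : K} (hxy : (W⁄K).Nonsingular x y) (hx : ∀ c : k, x ≠ algebraMap k K c)
    (hdiv : ∀ n : ℕ, ∃ T : (W⁄M).Point, p ^ n • T = baseChange K M (some x y hxy))
    (hV : ∀ V ∈ 𝒱, algebraMap K M x ∈ V)
    (hV' : ∀ V ∈ 𝒱, ∀ (a b : k) (h : (W⁄k).Nonsingular a b),
      (∃ m : ℕ, p ^ m • (some a b h : (W⁄k).Point) = 0) →
        (algebraMap K M (x - algebraMap k K a))⁻¹ ∈ V)
    (hloc : ∀ v : HeightOneSpectrum (𝓞 k),
      ∃ (ι : AlgebraicClosure k →ₐ[k] AlgebraicClosure (v.adicCompletion k))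
        (A : ValuationSubring M) (φ : A →+* AlgebraicClosure (v.adicCompletion k)),
        Sel.IsPlaceOf s (v.adicCompletion k)
          (ι : _ →+* AlgebraicClosure (v.adicCompletion k)) A φ) :
    ∃ (Q : (W⁄k).Point) (x₁ y₁ : M) (h₁ : (W⁄M).Nonsingular x₁ y₁) (g : k[X]),
      (∃ m : ℕ, p ^ m • Q = 0) ∧ (∀ σ, s σ x₁ = x₁ ∧ s σ y₁ = y₁) ∧
      p • (some x₁ y₁ h₁ : (W⁄M).Point) =
        baseChange K M (some x y hxy) - baseChange k M Q ∧
      (∀ c : AlgebraicClosure k, x₁ ≠ algebraMap (AlgebraicClosure k) M c) ∧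
      g.Monic ∧ 0 < g.natDegree ∧ (∀ V ∈ 𝒱, x₁ ∈ V ∧ (aeval x₁ g)⁻¹ ∈ V) ∧
      ((∃ e : k, g.eval e ≠ 0 ∧ ∀ (v : HeightOneSpectrum (𝓞 k))
        (ι : AlgebraicClosure k →ₐ[k] AlgebraicClosure (v.adicCompletion k))
        (A : ValuationSubring M) (φ : A →+* AlgebraicClosure (v.adicCompletion k)),
        Sel.IsPlaceOf s (v.adicCompletion k)
          (ι : _ →+* AlgebraicClosure (v.adicCompletion k)) A φ →
        (∃ h : x₁ ∈ A, φ ⟨_, h⟩ = ι (algebraMap k _ e)) ∧ algebraMap K M x ∈ A ∧
          ∀ (a b : k) (h : (W⁄k).Nonsingular a b),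
            (∃ m : ℕ, p ^ m • (some a b h : (W⁄k).Point) = 0) →
            (algebraMap K M (x - algebraMap k K a))⁻¹ ∈ A) ∨
      ∀ (v : HeightOneSpectrum (𝓞 k))
        (ι : AlgebraicClosure k →ₐ[k] AlgebraicClosure (v.adicCompletion k))
        (A : ValuationSubring M) (φ : A →+* AlgebraicClosure (v.adicCompletion k)),
        Sel.IsPlaceOf s (v.adicCompletion k)
          (ι : _ →+* AlgebraicClosure (v.adicCompletion k)) A φ → x₁ ∉ A) := by
  have hcharM : CharZero M := charZero_of_injective_algebraMap (algebraMap k M).injective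
  have hcharb : CharZero (AlgebraicClosure k) :=
    charZero_of_injective_algebraMap (algebraMap k (AlgebraicClosure k)).injective
  obtain ⟨Q, ζ, hQ, hact, hd, hζ0⟩ := exists_seq_p W hp hs hsec hloc hrk hsha
    (some x y hxy) hdiv
  have hζpow : ∀ n, p ^ n • ζ n = ζ 0 := by
    intro n
    induction n with
    | zero => rw [pow_zero, one_smul]
    | succ n ih => rw [pow_succ, mul_smul, hd, ih]
  -- the points are not constant
  have hnc : ∀ n (R : (W⁄(AlgebraicClosure k)).Point),
      ζ n ≠ baseChange (AlgebraicClosure k) M R := by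
    intro n R hR
    obtain ⟨Q', hQ'⟩ := Top.exists_of_fixed_const s hsec R (fun σ => by rw [← hR]; exact hact n σ)
    have h1 : ζ 0 = baseChange k M (p ^ n • Q') := by
      rw [← hζpow n, hR, ← hQ', Top.bc_bc, map_nsmul]
    have h2 : baseChange K M (some x y hxy) = baseChange K M (baseChange k K (p ^ n • Q' + Q)) := by
      rw [Top.bc_bc, map_add, ← h1, hζ0, sub_add_cancel]
    have h3 := Top.bc_injective K M h2
    rcases hR2 : p ^ n • Q' + Q with _ | ⟨a, b, hab⟩
    · rw [hR2] at h3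
      exact some_ne_zero hxy h3
    · rw [hR2] at h3
      exact hx a (some.inj h3).1
  have key : ∀ (n : ℕ) (x₀ : AlgebraicClosure k) (y' : M)
      (h : (W⁄M).Nonsingular (algebraMap (AlgebraicClosure k) M x₀) y'),
      ζ n ≠ some (algebraMap (AlgebraicClosure k) M x₀) y' h := by
    intro n x₀ y' h h0
    have hy2 : y' ^ 2 = algebraMap (AlgebraicClosure k) M
        (x₀ ^ 3 + algebraMap k _ W.a₄ * x₀ + algebraMap k _ W.a₆) := by
      have e1 := (Affine.equation_iff _ _).1 h.1
      have ea1 : (W⁄M).a₁ = 0 := (W⁄M).a₁_of_isShortNF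
      have ea2 : (W⁄M).a₂ = 0 := (W⁄M).a₂_of_isShortNF
      have ea3 : (W⁄M).a₃ = 0 := (W⁄M).a₃_of_isShortNF
      have ea4 : (W⁄M).a₄ = algebraMap (AlgebraicClosure k) M (algebraMap k _ W.a₄) := by
        rw [← IsScalarTower.algebraMap_apply]; rfl
      have ea6 : (W⁄M).a₆ = algebraMap (AlgebraicClosure k) M (algebraMap k _ W.a₆) := by
        rw [← IsScalarTower.algebraMap_apply]; rfl
      rw [ea1, ea2, ea3, ea4, ea6] at e1
      simp only [map_add, map_mul, map_pow]
      linear_combination e1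
    obtain ⟨y₀, hy₀⟩ : ∃ y₀ : AlgebraicClosure k, algebraMap (AlgebraicClosure k) M y₀ = y' := by
      obtain ⟨z, hz⟩ := IsAlgClosed.exists_pow_nat_eq (x₀ ^ 3 + algebraMap k _ W.a₄ * x₀ +
        algebraMap k _ W.a₆) (n := 2) (by norm_num)
      rw [← hz, map_pow] at hy2
      rcases sq_eq_sq_iff_eq_or_eq_neg.1 hy2 with h3 | h3
      · exact ⟨z, h3.symm⟩
      · exact ⟨-z, by rw [map_neg, h3]⟩
    subst hy₀
    refine hnc n (some x₀ y₀ ((Affine.baseChange_nonsingular (W := W)
      (Algebra.ofId (AlgebraicClosure k) M).injective x₀ y₀).mp h)) ?_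
    rw [h0]
    exact Top.some_ext _ _ rfl rfl
  -- coordinates
  have hcoord : ∀ n, ∃ (X Y : M) (h : (W⁄M).Nonsingular X Y), ζ n = some X Y h := by
    intro n
    have h0 : ζ n ≠ 0 := fun h0 => hnc n 0 (by rw [h0, _root_.map_zero])
    rcases hζn : ζ n with _ | ⟨X, Y, h⟩
    · exact absurd hζn h0
    · exact ⟨X, Y, h, rfl⟩
  choose X Y hN hXY using hcoord
  have hz1 : ∀ n (c : AlgebraicClosure k), X n ≠ algebraMap (AlgebraicClosure k) M c := by
    intro n c hc
    have h9 : (W⁄M).Nonsingular (algebraMap (AlgebraicClosure k) M c) (Y n) := by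
      rw [← hc]
      exact hN n
    exact key n c (Y n) h9 (by rw [hXY n]; exact Top.some_ext _ _ hc rfl)
  -- the points are fixed
  have hfix : ∀ n σ, s σ (X n) = X n ∧ s σ (Y n) = Y n := by
    intro n σ
    have h1 := hact n σ
    rw [hXY n, Top.act, map_some, some.injEq] at h1
    exact h1
  have hmul : ∀ n, p • (some (X (n + 1)) (Y (n + 1)) (hN (n + 1)) : (W⁄M).Point) =
      some (X n) (Y n) (hN n) := by
    intro n
    rw [← hXY, ← hXY, hd]
  -- `X 0` is in the valuation rings
  have hX0 : ∀ V ∈ 𝒱, X 0 ∈ V := by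
    intro V hVV
    have hk : ∀ a : k, algebraMap k M a ∈ V := fun a => by
      rw [IsScalarTower.algebraMap_apply k (AlgebraicClosure k) M]
      exact h𝒱 V hVV _
    have h1 : (W⁄M).Nonsingular (algebraMap K M x) (algebraMap K M y) :=
      (Affine.baseChange_nonsingular (W := W) (Algebra.ofId K M).injective x y).mpr hxy
    refine x_sub_mem W V hk h1 (hN 0) (hV V hVV) Q ?_ ?_
    · intro a b h' hab
      refine ⟨?_, ?_⟩
      · intro h2
        apply hx a
        apply (algebraMap K M).injective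
        rw [h2, IsScalarTower.algebraMap_apply k K M]
      · have h2 := hV' V hVV a b h' (by rw [← hab]; exact hQ)
        rw [map_sub, ← IsScalarTower.algebraMap_apply k K M] at h2
        exact h2
    · rw [← hXY 0, hζ0]
      rfl
  -- a point of order `p`
  obtain ⟨R, hR0, hR1, -⟩ := exists_tower W (kb := AlgebraicClosure k) hp
  obtain ⟨c, d, hcd, hT⟩ : ∃ (c d : AlgebraicClosure k)
      (hcd : (W⁄(AlgebraicClosure k)).Nonsingular c d),
      p • (some c d hcd : (W⁄(AlgebraicClosure k)).Point) = 0 := by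
    rcases hR : R 0 with _ | ⟨c, d, hcd⟩
    · exact absurd hR hR1
    · exact ⟨c, d, hcd, by rw [← hR]; exact hR0⟩
  have hcint : IsIntegral k c := Algebra.IsIntegral.isIntegral c
  have hg0 : minpoly k c ≠ 0 := minpoly.ne_zero hcint
  let F : IntermediateField k (AlgebraicClosure k) :=
    IntermediateField.adjoin k ((minpoly k c).rootSet (AlgebraicClosure k))
  have hsplit : (minpoly k c).IsSplittingField k F :=
    IntermediateField.adjoin_rootSet_isSplittingField (IsAlgClosed.splits _)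
  have hFfin : FiniteDimensional k F :=
    Polynomial.IsSplittingField.finiteDimensional F (minpoly k c)
  have hFnorm : Normal k F := Normal.of_isSplittingField (minpoly k c)
  have hFgal : IsGalois k F := isGalois_iff.2 ⟨inferInstance, hFnorm⟩
  have hnf : NumberField F := NumberField.of_module_finite k F
  have hmem : c ∈ F := by
    apply IntermediateField.subset_adjoin
    rw [Polynomial.mem_rootSet]
    exact ⟨hg0, minpoly.aeval k c⟩
  let c' : F := ⟨c, hmem⟩
  have hcc' : algebraMap F (AlgebraicClosure k) c' = c := rfl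
  have hup : SameVal s F (X 1) := sameVal_F (F := F) W hp htr s hs hsec (e := c') (b := d)
    hcd hT X Y hN hmul (fun n σ _ => hfix n σ) hz1 𝒱 h𝒱 hroot hX0
    (exists_local_up s hsec hloc)
  have hdown := value_down (F := F) s hsec (X 1) (fun σ => (hfix 1 σ).1) hloc (by
    rcases hup with ⟨e, he⟩ | he
    · left
      exact ⟨e, he⟩
    · right
      intro w ι A φ hpl
      have h1 : X 1 ∉ A := he w ι A φ hpl
      have h2 : (X 1)⁻¹ ∈ A := (A.mem_or_inv_mem (X 1)).resolve_left h1
      refine ⟨h2, ?_⟩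
      by_contra h3
      have h4 := hpl.2.1 ⟨_, h2⟩ h3
      apply h1
      change (X 1)⁻¹⁻¹ ∈ A at h4
      rwa [inv_inv] at h4)
  refine ⟨Q, X 1, Y 1, hN 1, minpoly k c, hQ, fun σ => hfix 1 σ, ?_, hz1 1,
    minpoly.monic hcint, minpoly.natDegree_pos hcint, ?_, ?_⟩
  · rw [← hXY 1, hd 0, hζ0]
  · intro V hVV
    obtain ⟨h1, h2⟩ := Y10_unit W V (h𝒱 V hVV) (hN 1) (hN 0) (hmul 0) (hX0 V hVV)
    refine ⟨h1, ?_⟩
    have h3 : V.valuation (aeval (X 1) (minpoly k c)) = 1 := by
      refine Y10_val (kb := AlgebraicClosure k) V (minpoly.monic hcint) fun r hr => ?_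
      obtain ⟨d', h, ht⟩ := Y10_root W hcd hT hr
      exact h2 r d' h ht
    rw [← V.valuation_le_one_iff, map_inv₀, h3, inv_one]
  · rcases hdown with ⟨e, he⟩ | he
    · left
      have htor := fun (b : AlgebraicClosure k)
        (h : (W⁄(AlgebraicClosure k)).Nonsingular (algebraMap k _ e) b) (m : ℕ) =>
        no_tors_p W hp s hloc ζ hact hd (hN 1) (hXY 1) he h m
      have h1M : (W⁄M).Nonsingular (algebraMap K M x) (algebraMap K M y) :=
        (Affine.baseChange_nonsingular (W := W) (Algebra.ofId K M).injective x y).mpr hxy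
      refine ⟨e, ?_, fun v ι A φ hpl => ⟨he v ι A φ hpl, ?_⟩⟩
      · intro h0
        have h1 : aeval (algebraMap k (AlgebraicClosure k) e) (minpoly k c) = 0 := by
          rw [aeval_algebraMap_apply, coe_aeval_eq_eval, h0, _root_.map_zero]
        obtain ⟨d', h, ht⟩ := Y10_root W hcd hT h1
        exact htor d' h 1 (by rw [pow_one]; exact ht)
      · obtain ⟨h3, h4⟩ := not_cusp_p W hp s hpl (hN 1) h1M hQ (by
          rw [← hXY 1, hd 0, hζ0]
          rfl) (he v ι A φ hpl) htor
        refine ⟨h3, fun a b h hm => ?_⟩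
        rw [map_sub, ← IsScalarTower.algebraMap_apply k K M]
        exact h4 a b h hm
    · right
      intro v ι A φ hpl h1
      obtain ⟨h2, h3⟩ := he v ι A φ hpl
      have h4 : X 1 ≠ 0 := by
        intro h0
        apply hz1 1 0
        rw [h0, _root_.map_zero]
      have h5 : (⟨X 1, h1⟩ : A) * ⟨(X 1)⁻¹, h2⟩ = 1 := Subtype.ext (mul_inv_cancel₀ h4)
      have h6 := congrArg φ h5
      rw [map_mul, h3, mul_zero, _root_.map_one] at h6
      exact zero_ne_one h6

end Pool.Agent.Lib.MP_2f3286_ag.UA
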