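import Pool.Agent.Lib.MP_2f3286_ag.UA.Y10
import Pool.Agent.Lib.MP_2f3286_ag.UA.GMain

/-!
# Y11: the arithmetic half for a section over `k` and a point over `F`

`tri_Ep` (Y10) for the base field `F`, the field `L = Koe.fixF s F` of all elements fixed by the section over `F`, the restriction `Koe.resS s e hL` of the section (see `HYP.nbhd`, `GNei.nbhdT`
second half, `F2.geo_k`: the same instances `iFb`, `iFL`, `e : AlgebraicClosure F ≃ₐ[F] AlgebraicClosure k`, `Koe.trdeg_fix`, `Koe.resS_continuous`), and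
`𝒱 = {V | Pt.IsPlcOver R (AlgebraicClosure k) V}` if `M` is the maximal unramified extension over `R` (`Pt.radClosedOver_of_max`, `Fer.rad_of_max` as in `Aff.tri_over`; `hdiv` is
`Pt.division_of_maxOver` over `L` and `F` (the maximal unramified extension does not change: `hM₁` in `GNei.affine_overT`, or use `Pt.Div` directly: the proof of `division_of_maxOver` needs the
point over a finite extension), `𝒱 = ∅` if `M` is algebraically closed (`Pt.Div.divisible` or `Top`; local places: `Koe.local_place`, then `placeOf` over `F_w` by `exists_local_up` (X7)).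
An element which is in all `V` in `𝒱` is integral over `R`: `Subring.exists_le_valuationSubring_of_isIntegrallyClosedIn` (see `Pt/Ex1.lean`, `Top/Tors.lean`).
A place of `s` over `F_w` is a place of `resS s e hL` (`HYP.placeOf_res`), and conversely `placeOf_lift` (GT).
-/

open WeierstrassCurve WeierstrassCurve.Affine WeierstrassCurve.Affine.Point
open IsDedekindDomain NumberField Polynomial
open scoped WithZero
open Pool.Agent.Lib.MP_2f3286_ag

namespace Pool.Agent.Lib.MP_2f3286_ag.UA

universe u v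

open scoped Classical in
/-- **The arithmetic half.** -/
theorem arith_p {k : Type u} [Field k] [NumberField k]
    {F : Type v} [Field F] [NumberField F] [Algebra k F]
    [Algebra F (AlgebraicClosure k)] [IsScalarTower k F (AlgebraicClosure k)]
    (W : WeierstrassCurve F) [W.IsShortNF]
    [W.IsElliptic] (hrk : ∀ Q : (W⁄F).Point, IsOfFinAddOrder Q) {p : ℕ} (hp : p.Prime) {j : ℕ}
    (hsha : ShaKilledByPow W p j)
    {K : Type*} [Field K] [Algebra k K] (htr : Algebra.trdeg k K = 1)
    (R : Subalgebra k K)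
    {M : Type*} [Field M] [Algebra K M] [IsGalois K M]
    [Algebra (AlgebraicClosure k) M] [Algebra k M]
    [IsScalarTower k K M] [IsScalarTower k (AlgebraicClosure k) M]
    [Algebra F M] [IsScalarTower F (AlgebraicClosure k) M]
    (s : Gal(AlgebraicClosure k/k) →* Gal(M/K)) (hs : Continuous s)
    (hsec : ∀ σ a, s σ (algebraMap (AlgebraicClosure k) M a) =
      algebraMap (AlgebraicClosure k) M (σ a))
    {x y : M} (hfix : ∀ σ : Gal(AlgebraicClosure k/k),
      (∀ a : F, σ (algebraMap F _ a) = algebraMap F _ a) → s σ x = x ∧ s σ y = y)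
    (hxy : (W⁄M).Nonsingular x y) (hx : ∀ c : F, x ≠ algebraMap F M c)
    (hM : IsAlgClosed M ∨ (Pt.IsMaxUnramOver R K M (AlgebraicClosure k) ∧ IsIntegral R x ∧
      (∀ (a b : F) (h : (W⁄F).Nonsingular a b),
        (∃ m : ℕ, p ^ m • (some a b h : (W⁄F).Point) = 0) →
          IsIntegral R (x - algebraMap F M a)⁻¹) ∧
      ∀ w : HeightOneSpectrum (𝓞 F),
        ∃ (ι : AlgebraicClosure k →ₐ[F] AlgebraicClosure (w.adicCompletion F))
          (A : ValuationSubring M) (φ : A →+* AlgebraicClosure (w.adicCompletion F)),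
          Sel.IsPlaceOf s (w.adicCompletion F)
            (ι : _ →+* AlgebraicClosure (w.adicCompletion F)) A φ)) :
    ∃ (Q : (W⁄F).Point) (x₁ y₁ : M) (h₁ : (W⁄M).Nonsingular x₁ y₁) (g : F[X]),
      (∃ m : ℕ, p ^ m • Q = 0) ∧
      (∀ σ : Gal(AlgebraicClosure k/k),
        (∀ a : F, σ (algebraMap F _ a) = algebraMap F _ a) → s σ x₁ = x₁ ∧ s σ y₁ = y₁) ∧
      p • (some x₁ y₁ h₁ : (W⁄M).Point) = some x y hxy - baseChange F M Q ∧
      (∀ c : AlgebraicClosure k, x₁ ≠ algebraMap (AlgebraicClosure k) M c) ∧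
      g.Monic ∧ 0 < g.natDegree ∧
      (IsAlgClosed M ∨ IsIntegral R x₁ ∧ IsIntegral R (aeval x₁ g)⁻¹) ∧
      ((∃ e : F, g.eval e ≠ 0 ∧ ∀ (w : HeightOneSpectrum (𝓞 F))
        (ι : AlgebraicClosure k →ₐ[F] AlgebraicClosure (w.adicCompletion F))
        (A : ValuationSubring M) (φ : A →+* AlgebraicClosure (w.adicCompletion F)),
        Sel.IsPlaceOf s (w.adicCompletion F)
          (ι : _ →+* AlgebraicClosure (w.adicCompletion F)) A φ →
        (∃ h : x₁ ∈ A, φ ⟨_, h⟩ = ι (algebraMap F _ e)) ∧ x ∈ A ∧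
          ∀ (a b : F) (h : (W⁄F).Nonsingular a b),
            (∃ m : ℕ, p ^ m • (some a b h : (W⁄F).Point) = 0) → (x - algebraMap F M a)⁻¹ ∈ A) ∨
      ∀ (w : HeightOneSpectrum (𝓞 F))
        (ι : AlgebraicClosure k →ₐ[F] AlgebraicClosure (w.adicCompletion F))
        (A : ValuationSubring M) (φ : A →+* AlgebraicClosure (w.adicCompletion F)),
        Sel.IsPlaceOf s (w.adicCompletion F)
          (ι : _ →+* AlgebraicClosure (w.adicCompletion F)) A φ → x₁ ∉ A) := by
  have hxs : x ∈ Koe.fixF s F := fun σ hσ => (hfix σ hσ).1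
  have hys : y ∈ Koe.fixF s F := fun σ hσ => (hfix σ hσ).2
  have hfin : FiniteDimensional k F := FiniteDimensional.right ℚ k F
  have hFk : Algebra.IsAlgebraic F (AlgebraicClosure k) :=
    Algebra.IsAlgebraic.tower_top (K := k) F
  have : IsAlgClosure F (AlgebraicClosure k) := ⟨inferInstance, inferInstance⟩
  let e : AlgebraicClosure F ≃ₐ[F] AlgebraicClosure k :=
    IsAlgClosure.equiv F (AlgebraicClosure F) (AlgebraicClosure k)
  let iFb : Algebra (AlgebraicClosure F) M :=
    ((algebraMap (AlgebraicClosure k) M).comp (e : _ →+* AlgebraicClosure k)).toAlgebra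
  have he : ∀ a : AlgebraicClosure F, algebraMap (AlgebraicClosure F) M a =
      algebraMap (AlgebraicClosure k) M (e a) := fun _ => rfl
  have t1 : IsScalarTower F (AlgebraicClosure F) M := IsScalarTower.of_algebraMap_eq fun a => by
    rw [he, AlgEquiv.commutes, ← IsScalarTower.algebraMap_apply]
  have t3 : IsScalarTower k F M := IsScalarTower.of_algebraMap_eq fun a => by
    rw [IsScalarTower.algebraMap_apply F (AlgebraicClosure k) M,
      ← IsScalarTower.algebraMap_apply k F (AlgebraicClosure k),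
      ← IsScalarTower.algebraMap_apply k (AlgebraicClosure k) M]
  let iFL : Algebra F (Koe.fixF s F) := (Koe.toFixF s F hsec).toAlgebra
  have t2 : IsScalarTower F (Koe.fixF s F) M := IsScalarTower.of_algebraMap_eq fun a => by
    change algebraMap F M a = algebraMap (AlgebraicClosure k) M (algebraMap F _ a)
    rw [← IsScalarTower.algebraMap_apply]
  have hLM : Algebra.IsAlgebraic (Koe.fixF s F) M :=
    Algebra.IsAlgebraic.tower_top (K := K) (Koe.fixF s F)
  have htr' : Algebra.trdeg F (Koe.fixF s F) = 1 :=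
    Koe.trdeg_fix (k := k) (K := K) (Ω := M) htr
  have hL : ∀ σ : Gal(AlgebraicClosure k/k),
      (∀ a : F, σ (algebraMap F _ a) = algebraMap F _ a) →
      ∀ x : Koe.fixF s F, s σ (algebraMap (Koe.fixF s F) M x) =
        algebraMap (Koe.fixF s F) M x :=
    fun σ hσ x => x.2 σ hσ
  have hs' := Koe.resS_continuous s e hL hs
  have hsec' : ∀ (σ : Gal(AlgebraicClosure F/F)) (a : AlgebraicClosure F),
      Koe.resS s e hL σ (algebraMap (AlgebraicClosure F) M a) =
        algebraMap (AlgebraicClosure F) M (σ a) := by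
    intro σ a
    rw [Koe.resS_apply, he, hsec, Koe.resG_apply, e.symm_apply_apply, he]
  have hM0 : CharZero M := charZero_of_injective_algebraMap (algebraMap F M).injective
  have hL0 : CharZero (Koe.fixF s F) :=
    charZero_of_injective_algebraMap (algebraMap F (Koe.fixF s F)).injective
  -- the point over `L`
  have hxyL : (W⁄(Koe.fixF s F)).Nonsingular ⟨x, hxs⟩ ⟨y, hys⟩ :=
    (Affine.baseChange_nonsingular W (Algebra.ofId (Koe.fixF s F) M).injective
      (⟨x, hxs⟩ : Koe.fixF s F) ⟨y, hys⟩).mp hxy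
  have hsub : ∀ a : F, algebraMap (Koe.fixF s F) M
      ((⟨x, hxs⟩ : Koe.fixF s F) - algebraMap F (Koe.fixF s F) a) = x - algebraMap F M a := by
    intro a
    rw [map_sub, ← IsScalarTower.algebraMap_apply F (Koe.fixF s F) M]
    rfl
  have hkb : ∀ {V : ValuationSubring M}, (∀ r : R, algebraMap K M r ∈ V) →
      ∀ a : AlgebraicClosure F, algebraMap (AlgebraicClosure F) M a ∈ V := by
    intro V hV a
    have h1 : IsIntegral k (e a) := Algebra.IsIntegral.isIntegral _
    have h2 : IsIntegral k (algebraMap (AlgebraicClosure k) M (e a)) := h1.algebraMap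
    have h3 : ∀ c : k, algebraMap k M c ∈ V := by
      intro c
      rw [IsScalarTower.algebraMap_apply k K M]
      exact hV (algebraMap k R c)
    rw [he]
    exact Pt.PTAux.mem_of_isIntegral h3 h2
  obtain ⟨𝒱, h𝒱, hroot, hdiv, hV, hV', hcon, hloc'⟩ : ∃ 𝒱 : Set (ValuationSubring M),
      (∀ V ∈ 𝒱, ∀ a : AlgebraicClosure F, algebraMap (AlgebraicClosure F) M a ∈ V) ∧
      (∀ b : M, b ≠ 0 → (∀ V ∈ 𝒱, V.valuation b = 1) → ∀ n : ℕ, 1 ≤ n →
        ∃ c : M, c ^ n = b) ∧
      (∀ n : ℕ, ∃ T : (W⁄M).Point,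
        p ^ n • T = baseChange (Koe.fixF s F) M (some _ _ hxyL)) ∧
      (∀ V ∈ 𝒱, x ∈ V) ∧
      (∀ V ∈ 𝒱, ∀ (a b : F) (h : (W⁄F).Nonsingular a b),
        (∃ m : ℕ, p ^ m • (some a b h : (W⁄F).Point) = 0) → (x - algebraMap F M a)⁻¹ ∈ V) ∧
      (IsAlgClosed M ∨ ∀ b : M, (∀ V ∈ 𝒱, b ∈ V) → IsIntegral R b) ∧
      ∀ w : HeightOneSpectrum (𝓞 F),
        ∃ (ι : AlgebraicClosure F →ₐ[F] AlgebraicClosure (w.adicCompletion F))
          (A : ValuationSubring M) (φ : A →+* AlgebraicClosure (w.adicCompletion F)),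
          Sel.IsPlaceOf (Koe.resS s e hL) (w.adicCompletion F)
            (ι : _ →+* AlgebraicClosure (w.adicCompletion F)) A φ := by
    rcases hM with hcl | ⟨hmax, hxR, hxR', hloc⟩
    · refine ⟨∅, fun V hV => absurd hV (Set.notMem_empty V), fun b _ _ n hn =>
        IsAlgClosed.exists_pow_nat_eq b hn, fun n =>
        Pt.Div.divisible (Nat.one_le_pow _ _ hp.pos) _, fun V hV => absurd hV (Set.notMem_empty V),
        fun V hV => absurd hV (Set.notMem_empty V), Or.inl hcl, fun w => ?_⟩
      let ι : AlgebraicClosure F →ₐ[F] AlgebraicClosure (w.adicCompletion F) := IsAlgClosed.lift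
      obtain ⟨A, φ, h⟩ := Koe.local_place (K := Koe.fixF s F) (Koe.resS s e hL) hs' hsec' w ι
      exact ⟨ι, A, φ, h⟩
    · have hKL : ∀ x : K, ∃ y : Koe.fixF s F, algebraMap (Koe.fixF s F) M y = algebraMap K M x :=
        fun x => ⟨algebraMap K (Koe.fixF s F) x, rfl⟩
      have hmax' : Pt.IsMaxUnramOver (SNeigh.upR F (Koe.fixF s F) M R) (Koe.fixF s F) M
          (AlgebraicClosure F) :=
        SNeigh.maxUnram_trans (e : AlgebraicClosure F ≃+* AlgebraicClosure k) he hKL R hmax
      have hK0 : CharZero K := charZero_of_injective_algebraMap (algebraMap k K).injective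
      have hrad := Pt.radClosedOver_of_max R hmax
      refine ⟨{V | Pt.IsPlcOver R (AlgebraicClosure k) V}, fun V hV => hkb hV.2,
        fun b hb hb' n hn => ?_, fun n => ?_, fun V hV => ?_, fun V hV a b h hm => ?_,
        Or.inr fun b hb => ?_, fun w => ?_⟩
      · refine Fer.rad_of_max R (hrad n · hn) b hb fun V hV => ⟨1, one_ne_zero, ?_⟩
        rw [hb' V hV, map_one, one_pow]
      · exact Pt.Div.aux (kb := AlgebraicClosure F) (SNeigh.upR F (Koe.fixF s F) M R) hmax' W _ _
          (Nat.one_le_pow _ _ hp.pos)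
      · exact Pt.PTAux.mem_of_isIntegral (R := R) hV.2 hxR
      · exact Pt.PTAux.mem_of_isIntegral (R := R) hV.2 (hxR' a b h hm)
      · by_contra hb'
        have hb'' : b ∉ (integralClosure R M).toSubring := hb'
        obtain ⟨V, hV1, hV2⟩ := Subring.exists_le_valuationSubring_of_isIntegrallyClosedIn hb''
        have hVR : ∀ r : R, algebraMap K M r ∈ V := fun r =>
          hV1 (algebraMap_mem (integralClosure R M) r)
        refine hV2 (hb V ⟨⟨fun a => ?_, ?_⟩, hVR⟩)
        · have h1 := hkb hVR (e.symm a)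
          rw [he, e.apply_symm_apply] at h1
          exact h1
        · rintro rfl
          exact hV2 (ValuationSubring.mem_top _)
      · obtain ⟨ι, A, φ, h⟩ := hloc w
        exact ⟨ι.comp (e : AlgebraicClosure F →ₐ[F] AlgebraicClosure k), A, φ,
          HYP.placeOf_res e he s hL h⟩
  obtain ⟨Q, x₁, y₁, h₁, g, hQ, hfx, hpz, hnc, hgm, hgd, hgV, hval⟩ :=
    tri_Ep W hrk hp hsha (K := Koe.fixF s F) htr' 𝒱 h𝒱 hroot (Koe.resS s e hL) hs' hsec' hxyL
      (fun c hc => hx c (by
        have h3 := congrArg (algebraMap (Koe.fixF s F) M) hc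
        rw [← IsScalarTower.algebraMap_apply F (Koe.fixF s F) M] at h3
        exact h3)) hdiv hV (fun V hV a b h hm => by
        rw [hsub]
        exact hV' V hV a b h hm) hloc'
  refine ⟨Q, x₁, y₁, h₁, g, hQ, fun σ hσ => ?_, hpz, fun c hc => ?_, hgm, hgd, ?_, ?_⟩
  · obtain ⟨τ, hτ, -⟩ := Koe.resG_surj e σ hσ
    have h1 := hfx τ
    rw [Koe.resS_apply, Koe.resS_apply, hτ] at h1
    exact h1
  · refine hnc (e.symm c) ?_
    rw [he, e.apply_symm_apply]
    exact hc
  · exact hcon.imp_right fun h => ⟨h _ fun V hV => (hgV V hV).1, h _ fun V hV => (hgV V hV).2⟩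
  · rcases hval with ⟨c, hc, hval⟩ | hval
    · refine Or.inl ⟨c, hc, fun w ι A φ hφ => ?_⟩
      obtain ⟨⟨h1, h2⟩, h3, h4⟩ := hval w
        (ι.comp (e : AlgebraicClosure F →ₐ[F] AlgebraicClosure k)) A φ
        (HYP.placeOf_res e he s hL hφ)
      refine ⟨⟨h1, h2.trans ?_⟩, h3, fun a b h hm => ?_⟩
      · change ι (e (algebraMap F _ c)) = ι (algebraMap F _ c)
        rw [AlgEquiv.commutes]
      · have h5 := h4 a b h hm
        rw [hsub] at h5
        exact h5
    · exact Or.inr fun w ι A φ hφ => hval w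
        (ι.comp (e : AlgebraicClosure F →ₐ[F] AlgebraicClosure k)) A φ
        (HYP.placeOf_res e he s hL hφ)

end Pool.Agent.Lib.MP_2f3286_ag.UA
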