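import Pool.Agent.Lib.MP_2f3286_ag.UA.Y1
import Pool.Agent.Lib.MP_2f3286_ag.Top.Sec
import Pool.Agent.Lib.MP_2f3286_ag.Top.Kum

/-!
# Y2: reduction of points at good places

`Red`: what is used of the reduction of the points of `W` over `M` at a place `(A, φ)` over `k_v`, `v` good.
`exists_good`: `exists_red` (Y1) gives `E, C, χ, κ`; `B` is the curve over `E` with coefficients `χ a₄`, `χ a₆` (`W` is in short normal form; its coefficients are integral at `v`; its
discriminant is the image of that of `W`, a unit at `v`, so not `0`), `Top.CurveSp C χ (W⁄M) B` and `Top.redHom` give `ρ : (W⁄M).Point →+ B.Point` (`Top.red_some`, `Top.red_some_of_notMem`).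
`fin`: for `P = some x y`, where `x` is not in `A`, or `x, y` have values in `k_v`, the reduction is `0` or has coordinates in `κ`; there are finitely many points with coordinates in `κ`.
-/

open WeierstrassCurve WeierstrassCurve.Affine WeierstrassCurve.Affine.Point
open IsDedekindDomain NumberField Polynomial
open scoped WithZero

namespace Pool.Agent.Lib.MP_2f3286_ag.UA

universe u

open scoped Classical in
/-- the reduction of the points at a good place -/
structure Red {k : Type u} [Field k] [NumberField k] (W : WeierstrassCurve k) {M : Type*}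
    [Field M] [Algebra (AlgebraicClosure k) M] [Algebra k M] (v : HeightOneSpectrum (𝓞 k))
    (A : ValuationSubring M) (φ : A →+* AlgebraicClosure (v.adicCompletion k)) where
  /-- the residue field -/
  E : Type u
  [fE : Field E]
  /-- the valuation ring -/
  C : ValuationSubring M
  /-- the residue map -/
  χ : C →+* E
  /-- the group of points of the reduced curve -/
  G : Type u
  [gG : AddCommGroup G]
  /-- the reduction of points -/
  ρ : (W⁄M).Point →+ G
  ker : ∀ x : C, χ x ≠ 0 → (x : M)⁻¹ ∈ C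
  le : ∀ z ∈ C, z ∈ A
  val : ∀ (z : M) (h : z ∈ A) (x : v.adicCompletion k), φ ⟨z, h⟩ = algebraMap _ _ x →
    (z ∈ C ↔ Valued.v x ≤ (1 : ℤᵐ⁰)) ∧
    ∀ hC : z ∈ C, (χ ⟨z, hC⟩ = 0 ↔ Valued.v x < (1 : ℤᵐ⁰))
  int : ∀ a : AlgebraicClosure k, IntAt v a → algebraMap (AlgebraicClosure k) M a ∈ C
  zero : ∀ (x y : M) (h : (W⁄M).Nonsingular x y), ρ (some x y h) = 0 ↔ x ∉ C
  eq : ∀ (x y x' y' : M) (h : (W⁄M).Nonsingular x y) (h' : (W⁄M).Nonsingular x' y')
    (hx : x ∈ C) (hx' : x' ∈ C), χ ⟨x, hx⟩ = χ ⟨x', hx'⟩ →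
      ρ (some x y h) = ρ (some x' y' h') ∨ ρ (some x y h) = -ρ (some x' y' h')
  /-- the points with values in `k_v` have finitely many reductions -/
  Z : Set G
  finZ : Z.Finite
  mem : ∀ P : (W⁄M).Point, (∀ (x y : M) (h : (W⁄M).Nonsingular x y), P = some x y h → x ∈ A →
    ∃ (hx : x ∈ A) (hy : y ∈ A) (a b : v.adicCompletion k), φ ⟨x, hx⟩ = algebraMap _ _ a ∧
      φ ⟨y, hy⟩ = algebraMap _ _ b) → ρ P ∈ Z

/-- the places which are bad for an element -/
private theorem Y2_fin {k : Type*} [Field k] [NumberField k] (a : k) :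
    {v : HeightOneSpectrum (𝓞 k) | ¬ v.valuation k a ≤ 1}.Finite := by
  refine (HeightOneSpectrum.Support.finite (𝓞 k) a).subset ?_
  intro v hv
  exact not_le.1 hv

private theorem Y2_points {E : Type*} [Field E] (B : Affine E) (κ : Subfield E) (hκ : Finite κ) :
    {P : B.Point | P = 0 ∨ ∃ a ∈ κ, ∃ b ∈ κ, ∃ h : B.Nonsingular a b, P = some a b h}.Finite := by
  have hk : (κ : Set E).Finite := hκ
  have h1 : (({0} : Set B.Point) ∪ ⋃ a ∈ (κ : Set E), ⋃ b ∈ (κ : Set E),
      {P : B.Point | ∃ h : B.Nonsingular a b, P = some a b h}).Finite := by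
    refine (Set.finite_singleton _).union (hk.biUnion fun a _ => hk.biUnion fun b _ => ?_)
    apply Set.Subsingleton.finite
    rintro P ⟨h, rfl⟩ Q ⟨h', rfl⟩
    rfl
  refine h1.subset ?_
  rintro P (rfl | ⟨a, ha, b, hb, h, rfl⟩)
  · exact Or.inl rfl
  · refine Or.inr ?_
    simp only [Set.mem_iUnion]
    exact ⟨a, ha, b, hb, h, rfl⟩

/-- the discriminant specialises -/
private theorem Y2_Δ {M L : Type*} [Field M] [Field L] {O : ValuationSubring M} {φ : O →+* L}
    {A : WeierstrassCurve M} {B : WeierstrassCurve L} (hAB : Top.CurveSp O φ A B) :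
    Top.Sp O φ A.Δ B.Δ := by
  have h2 : Top.Sp O φ (2 : M) (2 : L) := Top.sp_ofNat 2
  have h4 : Top.Sp O φ (4 : M) (4 : L) := Top.sp_ofNat 4
  have h8 : Top.Sp O φ (8 : M) (8 : L) := Top.sp_ofNat 8
  have h9 : Top.Sp O φ (9 : M) (9 : L) := Top.sp_ofNat 9
  have h27 : Top.Sp O φ (27 : M) (27 : L) := Top.sp_ofNat 27
  have hb2 : Top.Sp O φ A.b₂ B.b₂ := by
    rw [b₂, b₂]
    exact (hAB.a₁.pow 2).add (h4.mul hAB.a₂)
  have hb4 : Top.Sp O φ A.b₄ B.b₄ := by
    rw [b₄, b₄]
    exact (h2.mul hAB.a₄).add (hAB.a₁.mul hAB.a₃)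
  have hb6 : Top.Sp O φ A.b₆ B.b₆ := by
    rw [b₆, b₆]
    exact (hAB.a₃.pow 2).add (h4.mul hAB.a₆)
  have hb8 : Top.Sp O φ A.b₈ B.b₈ := by
    rw [b₈, b₈]
    exact (((((hAB.a₁.pow 2).mul hAB.a₆).add ((h4.mul hAB.a₂).mul hAB.a₆)).sub
      ((hAB.a₁.mul hAB.a₃).mul hAB.a₄)).add (hAB.a₂.mul (hAB.a₃.pow 2))).sub (hAB.a₄.pow 2)
  rw [WeierstrassCurve.Δ, WeierstrassCurve.Δ]
  exact ((((hb2.pow 2).neg.mul hb8).sub (h8.mul (hb4.pow 3))).sub (h27.mul (hb6.pow 2))).add
    (((h9.mul hb2).mul hb4).mul hb6)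

open scoped Classical in
/-- **Good reduction.** -/
theorem exists_good {k : Type u} [Field k] [NumberField k] (W : WeierstrassCurve k)
    [W.IsShortNF] [W.IsElliptic] {M : Type*} [Field M]
    [Algebra (AlgebraicClosure k) M] [Algebra k M] [IsScalarTower k (AlgebraicClosure k) M] :
    ∃ T : Finset (HeightOneSpectrum (𝓞 k)), ∀ v ∉ T,
      ∀ (ι : AlgebraicClosure k →ₐ[k] AlgebraicClosure (v.adicCompletion k))
        (A : ValuationSubring M) (φ : A →+* AlgebraicClosure (v.adicCompletion k)),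
        (∀ a : AlgebraicClosure k, ∃ h : algebraMap (AlgebraicClosure k) M a ∈ A,
          φ ⟨algebraMap (AlgebraicClosure k) M a, h⟩ = ι a) →
        (∀ x : A, φ x ≠ 0 → (x : M)⁻¹ ∈ A) → Nonempty (Red W v A φ) := by
  have hfin := ((Y2_fin W.a₄).union (Y2_fin W.a₆)).union (Y2_fin (W.Δ)⁻¹)
  refine ⟨hfin.toFinset, ?_⟩
  intro v hv ι A φ hι hker
  rw [Set.Finite.mem_toFinset] at hv
  have h4 : v.valuation k W.a₄ ≤ 1 := by
    by_contra h
    exact hv (Or.inl (Or.inl h))
  have h6 : v.valuation k W.a₆ ≤ 1 := by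
    by_contra h
    exact hv (Or.inl (Or.inr h))
  have hD : v.valuation k (W.Δ)⁻¹ ≤ 1 := by
    by_contra h
    exact hv (Or.inr h)
  obtain ⟨E, fE, C, χ, κ, hκ, hC, hle, hval, hint⟩ := exists_red v ι A φ hι hker
  have hloc : IsLocalHom χ := by
    refine ⟨fun x hx => ?_⟩
    have h1 := hC x hx.ne_zero
    have hx0 : (x : M) ≠ 0 := by
      intro h0
      apply hx.ne_zero
      rw [show x = 0 from Subtype.ext h0, _root_.map_zero]
    exact IsUnit.of_mul_eq_one (⟨(x : M)⁻¹, h1⟩ : C) (Subtype.ext (mul_inv_cancel₀ hx0))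
  -- constants of k
  have hcon : ∀ a : k, ∃ h : algebraMap k M a ∈ A,
      φ ⟨algebraMap k M a, h⟩ = algebraMap (v.adicCompletion k) _ (algebraMap k _ a) := by
    intro a
    obtain ⟨h, h'⟩ := hι (algebraMap k _ a)
    have e : algebraMap (AlgebraicClosure k) M (algebraMap k _ a) = algebraMap k M a :=
      (IsScalarTower.algebraMap_apply k (AlgebraicClosure k) M a).symm
    refine ⟨e ▸ h, ?_⟩
    have e2 : (⟨algebraMap k M a, e ▸ h⟩ : A) = ⟨algebraMap (AlgebraicClosure k) M (algebraMap k _ a), h⟩ :=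
      Subtype.ext e.symm
    rw [e2, h', ι.commutes, ← IsScalarTower.algebraMap_apply]
  have hconC : ∀ a : k, v.valuation k a ≤ 1 → algebraMap k M a ∈ C := by
    intro a ha
    obtain ⟨h, h'⟩ := hcon a
    refine ((hval _ h _ h').1).2 ?_
    rw [val_alg]
    exact ha
  have hconκ : ∀ (a : k) (h : algebraMap k M a ∈ C), χ ⟨algebraMap k M a, h⟩ ∈ κ ∧
      (χ ⟨algebraMap k M a, h⟩ = 0 ↔ v.valuation k a < 1) := by
    intro a h
    obtain ⟨h1, h'⟩ := hcon a
    have h2 := (hval _ h1 _ h').2 h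
    rw [val_alg] at h2
    exact h2
  let B : Affine E := ⟨0, 0, 0, χ ⟨_, hconC _ h4⟩, χ ⟨_, hconC _ h6⟩⟩
  have hAB : Top.CurveSp C χ (W⁄M) B := by
    refine ⟨?_, ?_, ?_, ?_, ?_⟩
    · show Top.Sp C χ (algebraMap k M W.a₁) 0
      rw [W.a₁_of_isShortNF, _root_.map_zero]
      exact Top.sp_zero
    · show Top.Sp C χ (algebraMap k M W.a₂) 0
      rw [W.a₂_of_isShortNF, _root_.map_zero]
      exact Top.sp_zero
    · show Top.Sp C χ (algebraMap k M W.a₃) 0
      rw [W.a₃_of_isShortNF, _root_.map_zero]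
      exact Top.sp_zero
    · exact Top.sp_of_mem (hconC _ h4)
    · exact Top.sp_of_mem (hconC _ h6)
  have hspD : Top.Sp C χ (algebraMap k M W.Δ) B.Δ := by
    have e : (W⁄M).Δ = algebraMap k M W.Δ := W.map_Δ _
    rw [← e]
    exact Y2_Δ hAB
  have hB : B.IsElliptic := by
    refine ⟨?_⟩
    rw [isUnit_iff_ne_zero]
    intro h0
    rw [h0] at hspD
    obtain ⟨h1, h2⟩ := hspD
    have h3 := ((hconκ _ h1).2).1 h2
    rw [map_inv₀] at hD
    have hΔ0 : v.valuation k W.Δ ≠ 0 := by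
      rw [Valuation.ne_zero_iff]
      exact W.isUnit_Δ.ne_zero
    have h5 : (1 : ℤᵐ⁰) < (v.valuation k W.Δ)⁻¹ := by
      rw [one_lt_inv₀ (zero_lt_iff.2 hΔ0)]
      exact h3
    exact absurd hD (not_le.2 h5)
  refine ⟨{ E := E, fE := fE, C := C, χ := χ, G := B.Point, gG := inferInstance,
            ρ := Top.redHom hAB, ker := hC, le := hle,
            val := fun z h x hx => ⟨(hval z h x hx).1, fun h' => ((hval z h x hx).2 h').2⟩,
            int := hint, zero := ?_, eq := ?_,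
            Z := {P | P = 0 ∨ ∃ a ∈ κ, ∃ b ∈ κ, ∃ h : B.Nonsingular a b, P = some a b h},
            finZ := Y2_points B κ hκ, mem := ?_ }⟩
  · intro x y h
    constructor
    · intro h0 hx
      have h1 := Top.sp_of_mem (φ := χ) hx
      have h2 := Top.sp_of_mem (φ := χ) (Top.mem_y hAB hx h.1)
      have h3 := equation_iff_nonsingular.mp (h1.equation hAB h2 h.1)
      have e : Top.redHom hAB (some x y h) = some _ _ h3 := Top.red_some hAB h h1 h2 h3
      rw [e] at h0
      exact some_ne_zero _ h0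
    · intro hx
      exact Top.red_some_of_notMem hAB h hx
  · intro x y x' y' h h' hx hx' hxx
    have h1 := Top.sp_of_mem (φ := χ) hx
    have h2 := Top.sp_of_mem (φ := χ) (Top.mem_y hAB hx h.1)
    have h3 := equation_iff_nonsingular.mp (h1.equation hAB h2 h.1)
    have e : Top.redHom hAB (some x y h) = some _ _ h3 := Top.red_some hAB h h1 h2 h3
    have h1' := Top.sp_of_mem (φ := χ) hx'
    have h2' := Top.sp_of_mem (φ := χ) (Top.mem_y hAB hx' h'.1)
    have h3' := equation_iff_nonsingular.mp (h1'.equation hAB h2' h'.1)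
    have e' : Top.redHom hAB (some x' y' h') = some _ _ h3' := Top.red_some hAB h' h1' h2' h3'
    rw [e, e']
    exact X_eq_iff.mp hxx
  · intro P hP
    rcases P with _ | ⟨x, y, h⟩
    · exact Or.inl (_root_.map_zero (Top.redHom hAB))
    · by_cases hx : x ∈ C
      · obtain ⟨hxA, hyA, a, b, ha, hb⟩ := hP x y h rfl (hle _ hx)
        have hy := Top.mem_y hAB hx h.1
        have h1 := Top.sp_of_mem (φ := χ) hx
        have h2 := Top.sp_of_mem (φ := χ) hy
        have h3 := equation_iff_nonsingular.mp (h1.equation hAB h2 h.1)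
        have e : Top.redHom hAB (some x y h) = some _ _ h3 := Top.red_some hAB h h1 h2 h3
        exact Or.inr ⟨_, ((hval x hxA a ha).2 hx).1, _, ((hval y hyA b hb).2 hy).1, h3, e⟩
      · exact Or.inl (Top.red_some_of_notMem hAB h hx)

end Pool.Agent.Lib.MP_2f3286_ag.UA
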