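import Pool.Agent.Lib.MP_2f3286_ag.UA.Y2
import Pool.Agent.Lib.MP_2f3286_ag.UA.Y3
import Pool.Agent.Lib.MP_2f3286_ag.Top.Assembly

/-!
# Y4: the values of a `p`-divisible point at the local places of a section

`Tower`: the data: `R 0 = (e, b)` of order `p`, `p R (n + 1) = R n` in `W(kb)`, the polynomials `P j` of Y3, and a compatible sequence `ζ n = (x n, y n)` of points over `M` fixed by the section.
The value of points at a place `(ι, A, φ)` over `k_v`: `val = (Top.LocalPoint.ofPlace ι A φ h).isPlaceOf.val s : (W⁄M).Point →+ (W⁄kb_v).Point`; it maps constant points `P` to `ι P`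
(`IsPlaceOf.val_const`), `(x, y)` to `(φ x, φ y)` or, if `x` is not in `A`, to `0` (`Top.red_some`, `Top.red_some_of_notMem`). Fixed points have values in `W(k_v)` (`IsPlaceOf.exists_val`).
`bad`: at every place at most one `n` has `x n ∈ A`, `φ (x n) = ι e`: the value of `ζ n` is then `± ι (R 0)`, and for `n < m` the value of `ζ n` is `p ^ (m - n)` times that of `ζ m`, so `0`.
`good`: `v` good for `W`, `p`, `e`, and `IntAt v` for `e`, and for all roots `τ` of the `P j` (`j < m`) and their inverses: a `Red W v A φ`; the reductions of the `ζ n` are in the finite set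
`Z`; by `no_kernel` (Y3) the reduction of `ζ n` is `0` or not killed by a power of `p`. (1) `(x n - e)⁻¹` is in `C`: otherwise `χ (x n - e) = 0`, `ρ (ζ n) = ± ρ (R 0)` (`Red.eq`), killed by
`p`, so `0`, so `x n` is not in `C`. So its value `xv` (in `k_v`) is integral. (2) `aeval xv (P j)` is a unit: it is the value of `∏ (t - τ)` over the roots `τ` of `P j`
(`t = (x n - e)⁻¹`); if it is not a unit, `χ (t - τ) = 0` for some `τ = (x' - e)⁻¹`; `χ τ ≠ 0`, so `x n`, `x'` are in `C`, `χ (x n) = χ x'`, `ρ (ζ n) = ± ρ (x', y')` is killed by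
`p ^ (j + 2)`, so it is `0` and `x n` is not in `C`, contradiction.
(3) at every place `aeval xv (P j) ≠ 0` if `N` is large: otherwise `φ t = ι τ`, the value of `ζ N` is `± ι (x', y')`, the value of `ζ (N - j - 1)` is `± ι (R 0)`.
-/

open WeierstrassCurve WeierstrassCurve.Affine WeierstrassCurve.Affine.Point
open IsDedekindDomain NumberField Polynomial
open scoped WithZero
open Pool.Agent.Lib.MP_2f3286_ag

namespace Pool.Agent.Lib.MP_2f3286_ag.UA

universe u

open scoped Classical in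
/-- a torsion point of order `p` with `x`-coordinate `e` in `k`, a compatible sequence of torsion
points above it, its polynomials, and a compatible sequence of points over `M` fixed by `s` -/
structure Tower {k : Type u} [Field k] [NumberField k] (W : WeierstrassCurve k) (p : ℕ)
    {K M : Type*} [Field K] [Field M] [Algebra K M]
    [Algebra (AlgebraicClosure k) M] [Algebra k M] [IsScalarTower k (AlgebraicClosure k) M]
    (s : Gal(AlgebraicClosure k/k) →* Gal(M/K)) where
  prime : p.Prime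
  /-- torsion points -/
  R : ℕ → (W⁄(AlgebraicClosure k)).Point
  order : p • R 0 = 0
  step : ∀ n, p • R (n + 1) = R n
  /-- coordinates of the first torsion point -/
  e : k
  b : AlgebraicClosure k
  hb : (W⁄(AlgebraicClosure k)).Nonsingular (algebraMap k _ e) b
  R_zero : R 0 = some _ b hb
  /-- the polynomials -/
  P : ℕ → k[X]
  monic : ∀ j, (P j).Monic
  deg : ∀ j, 0 < (P j).natDegree
  coprime : ∀ i j, i ≠ j → IsCoprime (P i) (P j)
  roots : ∀ (j : ℕ) (τ : AlgebraicClosure k), aeval τ (P j) = 0 → τ ≠ 0 ∧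
    ∃ (x y : AlgebraicClosure k) (h : (W⁄(AlgebraicClosure k)).Nonsingular x y),
      x ≠ algebraMap k _ e ∧ τ = (x - algebraMap k _ e)⁻¹ ∧
      (p ^ (j + 1) • (some x y h : (W⁄(AlgebraicClosure k)).Point) = R 0 ∨
        p ^ (j + 1) • (some x y h : (W⁄(AlgebraicClosure k)).Point) = -R 0)
  /-- the coordinates of the points over `M` -/
  x : ℕ → M
  y : ℕ → M
  ns : ∀ n, (W⁄M).Nonsingular (x n) (y n)
  half : ∀ n, p • (some (x (n + 1)) (y (n + 1)) (ns (n + 1)) : (W⁄M).Point) =
    some (x n) (y n) (ns n)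
  fixx : ∀ n σ, (∀ a : k, σ (algebraMap k _ a) = algebraMap k _ a) → s σ (x n) = x n
  fixy : ∀ n σ, (∀ a : k, σ (algebraMap k _ a) = algebraMap k _ a) → s σ (y n) = y n
  nonconst : ∀ n, ∀ c : AlgebraicClosure k, x n ≠ algebraMap _ M c

section place

variable {k : Type u} [Field k] [NumberField k] {W : WeierstrassCurve k}
  [W.IsElliptic] {p : ℕ} {K M : Type*} [Field K] [Field M] [Algebra K M]
  [Algebra k K] [Algebra (AlgebraicClosure k) M] [Algebra k M] [IsScalarTower k K M]
  [IsScalarTower k (AlgebraicClosure k) M]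
  {s : Gal(AlgebraicClosure k/k) →* Gal(M/K)} (Q : Tower W p s)

/-- the points over `M` -/
private abbrev Y4pt (n : ℕ) : (W⁄M).Point := some (Q.x n) (Q.y n) (Q.ns n)

omit [W.IsElliptic] in
open scoped Classical in
private theorem Y4pow (n m : ℕ) : p ^ m • Y4pt Q (n + m) = Y4pt Q n := by
  induction m with
  | zero => simp
  | succ m ih =>
    rw [pow_succ, mul_smul, ← add_assoc]
    have h1 := Q.half (n + m)
    rw [h1]
    exact ih

omit [W.IsElliptic] in
open scoped Classical in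
private theorem Y4fix (n : ℕ) (σ : Gal(AlgebraicClosure k/k)) :
    Top.act W (s σ) (Y4pt Q n) = Y4pt Q n :=
  Top.some_ext _ _ (Q.fixx n σ fun a => σ.commutes a) (Q.fixy n σ fun a => σ.commutes a)

variable {F Fb : Type*} [Field F] [Field Fb] [Algebra k F] [Algebra F Fb] [Algebra k Fb]
  [IsScalarTower k F Fb] {ι : AlgebraicClosure k →ₐ[k] Fb} {A : ValuationSubring M} {φ : A →+* Fb}
  (hpl : Top.IsPlaceOf (F := F) s ι A φ)

include hpl in
open scoped Classical in
private theorem Y4rat [IsGalois F Fb] (n : ℕ) (hx : Q.x n ∈ A) :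
    ∃ a b : F, Top.Sp A φ (Q.x n) (algebraMap F Fb a) ∧ Top.Sp A φ (Q.y n) (algebraMap F Fb b) := by
  have := hpl.isLocal
  have : IsGalois k (AlgebraicClosure k) := inferInstance
  obtain ⟨z, hz⟩ := hpl.exists_val s (Y4fix Q n)
  have h1 := Top.sp_of_mem (φ := φ) hx
  have hy := Top.mem_y (hpl.curveSp s (W := W)) hx (Q.ns n).1
  have h2 := Top.sp_of_mem (φ := φ) hy
  have h3 := equation_iff_nonsingular.mp (h1.equation (hpl.curveSp s (W := W)) h2 (Q.ns n).1)
  have e1 : hpl.val s (Y4pt Q n) = some _ _ h3 := Top.red_some (hpl.curveSp s) (Q.ns n) h1 h2 h3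
  rw [e1] at hz
  rcases z with _ | ⟨a, b, hab⟩
  · exact absurd hz.symm (some_ne_zero _)
  · have h4 := Top.some_inj' hz
    exact ⟨a, b, ⟨hx, h4.1.symm⟩, ⟨hy, h4.2.symm⟩⟩

open scoped Classical in
private theorem Y4bad {x y : M} (h : (W⁄M).Nonsingular x y) {a b : AlgebraicClosure k}
    (hab : (W⁄(AlgebraicClosure k)).Nonsingular a b) :
    Top.Sp A φ x (ι a) ↔ (hpl.val s (some x y h : (W⁄M).Point) = map ι (some a b hab) ∨
      hpl.val s (some x y h : (W⁄M).Point) = -map ι (some a b hab)) := by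
  have := hpl.isLocal
  constructor
  · intro hx
    have hy := Top.mem_y (hpl.curveSp s (W := W)) hx.mem h.1
    have h2 := Top.sp_of_mem (φ := φ) hy
    have h3 := equation_iff_nonsingular.mp (hx.equation (hpl.curveSp s (W := W)) h2 h.1)
    have e1 : hpl.val s (some x y h : (W⁄M).Point) = some _ _ h3 :=
      Top.red_some (hpl.curveSp s) h hx h2 h3
    rw [e1, map_some]
    exact X_eq_iff.mp rfl
  · intro hv
    by_cases hx : x ∈ A
    · have h1 := Top.sp_of_mem (φ := φ) hx
      have hy := Top.mem_y (hpl.curveSp s (W := W)) hx h.1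
      have h2 := Top.sp_of_mem (φ := φ) hy
      have h3 := equation_iff_nonsingular.mp (h1.equation (hpl.curveSp s (W := W)) h2 h.1)
      have e1 : hpl.val s (some x y h : (W⁄M).Point) = some _ _ h3 :=
        Top.red_some (hpl.curveSp s) h h1 h2 h3
      rw [e1, map_some] at hv
      exact ⟨hx, X_eq_iff.mpr hv⟩
    · have e1 : hpl.val s (some x y h : (W⁄M).Point) = 0 :=
        Top.red_some_of_notMem (hpl.curveSp s) h hx
      rw [e1] at hv
      exfalso
      rcases hv with hv | hv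
      · exact some_ne_zero _ hv.symm
      · rw [eq_comm, neg_eq_zero] at hv
        exact some_ne_zero _ hv

include hpl in
open scoped Classical in
private theorem Y4unique {n m : ℕ} (hn : Top.Sp A φ (Q.x n) (ι (algebraMap k _ Q.e)))
    (hm : Top.Sp A φ (Q.x m) (ι (algebraMap k _ Q.e))) (hnm : n < m) : False := by
  have h1 := (Y4bad hpl (Q.ns n) Q.hb).mp hn
  have h2 := (Y4bad hpl (Q.ns m) Q.hb).mp hm
  rw [← Q.R_zero] at h1 h2
  have h3 : map ι (Q.R 0) ≠ 0 := by
    rw [Q.R_zero, map_some]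
    exact some_ne_zero _
  have hp : p • hpl.val s (some (Q.x m) (Q.y m) (Q.ns m) : (W⁄M).Point) = 0 := by
    rcases h2 with h2 | h2
    · rw [h2, ← map_nsmul, Q.order, _root_.map_zero]
    · rw [h2, smul_neg, ← map_nsmul, Q.order, _root_.map_zero, _root_.neg_zero]
  have h4 : hpl.val s (some (Q.x n) (Q.y n) (Q.ns n) : (W⁄M).Point) = 0 := by
    obtain ⟨d, rfl⟩ := Nat.exists_eq_add_of_lt hnm
    have h5 := Y4pow Q n (d + 1)
    rw [← add_assoc] at h5
    have h6 := congrArg (hpl.val s) h5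
    rw [map_nsmul, pow_succ, mul_smul, hp, smul_zero] at h6
    exact h6.symm
  rw [h4] at h1
  rcases h1 with h1 | h1
  · exact h3 h1.symm
  · exact h3 (neg_eq_zero.mp h1.symm)

omit [W.IsElliptic] in
private theorem Y4e : ι (algebraMap k _ Q.e) = algebraMap F Fb (algebraMap k F Q.e) := by
  rw [ι.commutes, ← IsScalarTower.algebraMap_apply]

omit [W.IsElliptic] in
include hpl in
private theorem Y4spe : Top.Sp A φ (algebraMap k M Q.e) (ι (algebraMap k _ Q.e)) := by
  have := hpl.const (algebraMap k _ Q.e)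
  rwa [← IsScalarTower.algebraMap_apply] at this

include hpl in
private theorem Y4value [IsGalois F Fb] (n : ℕ)
    (hn : ¬ Top.Sp A φ (Q.x n) (ι (algebraMap k _ Q.e))) :
    ∃ c : F, Top.Sp A φ ((Q.x n - algebraMap k M Q.e)⁻¹) (algebraMap F Fb c) := by
  have := hpl.isLocal
  have he := Y4spe Q hpl
  by_cases hx : Q.x n ∈ A
  · obtain ⟨a, b, ha, -⟩ := Y4rat Q hpl n hx
    have h1 := ha.sub he
    rw [Y4e Q (F := F), ← map_sub] at h1
    have h2 : algebraMap F Fb (a - algebraMap k F Q.e) ≠ 0 := by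
      intro h0
      apply hn
      rw [Y4e Q (F := F)]
      rw [map_sub, sub_eq_zero] at h0
      rw [← h0]
      exact ha
    refine ⟨(a - algebraMap k F Q.e)⁻¹, ?_⟩
    rw [map_inv₀]
    exact h1.inv h2
  · refine ⟨0, ?_⟩
    rw [_root_.map_zero]
    apply Top.sp_inv_of_notMem
    intro h1
    apply hx
    have h2 := add_mem h1 he.mem
    rwa [sub_add_cancel] at h2

omit [W.IsElliptic] in
include hpl in
private theorem Y4aeval {x : M} {c : F} (hx : Top.Sp A φ x (algebraMap F Fb c)) (f : k[X]) :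
    Top.Sp A φ (aeval x f) (algebraMap F Fb (aeval c f)) := by
  rw [← aeval_algebraMap_apply]
  induction f using Polynomial.induction_on' with
  | add f g hf hg =>
    rw [map_add, map_add]
    exact hf.add hg
  | monomial n a =>
    rw [aeval_monomial, aeval_monomial]
    have h1 := hpl.const (algebraMap k _ a)
    rw [← IsScalarTower.algebraMap_apply, ι.commutes] at h1
    exact h1.mul (hx.pow n)

end place

private theorem Y4prod {k : Type*} [Field k] {M : Type*} [Field M]
    [Algebra (AlgebraicClosure k) M] [Algebra k M] [IsScalarTower k (AlgebraicClosure k) M]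
    {O : ValuationSubring M} {L : Type*} [Field L] {φ : O →+* L} {t : M} {f : k[X]}
    (hf : f.Monic) (h : ∀ τ : AlgebraicClosure k, aeval τ f = 0 →
      ∃ hm : t - algebraMap _ M τ ∈ O, φ ⟨_, hm⟩ ≠ 0) :
    ∃ hm : aeval t f ∈ O, φ ⟨_, hm⟩ ≠ 0 := by
  have h1 : (f.map (algebraMap k (AlgebraicClosure k))) =
      ((f.map (algebraMap k (AlgebraicClosure k))).roots.map fun a => X - C a).prod :=
    (IsAlgClosed.splits _).eq_prod_roots_of_monic (hf.map _)
  have h2 : aeval t f =
      ((f.map (algebraMap k (AlgebraicClosure k))).roots.map fun a =>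
        t - algebraMap (AlgebraicClosure k) M a).prod := by
    rw [← aeval_map_algebraMap (AlgebraicClosure k) t f]
    conv_lhs => rw [h1]
    rw [map_multiset_prod, Multiset.map_map]
    congr 1
    apply Multiset.map_congr rfl
    intro a _
    simp
  rw [h2]
  apply Multiset.prod_induction (fun z => ∃ hm : z ∈ O, φ ⟨z, hm⟩ ≠ 0)
  · rintro a b ⟨ha, ha'⟩ ⟨hb, hb'⟩
    refine ⟨mul_mem ha hb, ?_⟩
    have : φ ⟨a * b, mul_mem ha hb⟩ = φ ⟨a, ha⟩ * φ ⟨b, hb⟩ := by rw [← map_mul]; rfl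
    rw [this]
    exact mul_ne_zero ha' hb'
  · refine ⟨one_mem _, ?_⟩
    have : φ ⟨1, one_mem _⟩ = 1 := map_one φ
    rw [this]
    exact one_ne_zero
  · intro z hz
    obtain ⟨a, ha, rfl⟩ := Multiset.mem_map.mp hz
    apply h
    have h3 := (mem_roots'.mp ha).2
    rwa [IsRoot.def, eval_map_algebraMap] at h3

section place2

variable {k : Type u} [Field k] [NumberField k] {W : WeierstrassCurve k}
  [W.IsElliptic] {p : ℕ} {K M : Type*} [Field K] [Field M] [Algebra K M]
  [Algebra k K] [Algebra (AlgebraicClosure k) M] [Algebra k M] [IsScalarTower k K M]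
  [IsScalarTower k (AlgebraicClosure k) M]
  {s : Gal(AlgebraicClosure k/k) →* Gal(M/K)} (Q : Tower W p s)

section general

variable {F Fb : Type*} [Field F] [Field Fb] [Algebra k F] [Algebra F Fb] [Algebra k Fb]
  [IsScalarTower k F Fb] {ι : AlgebraicClosure k →ₐ[k] Fb} {A : ValuationSubring M} {φ : A →+* Fb}
  (hpl : Top.IsPlaceOf (F := F) s ι A φ)

include hpl in
open scoped Classical in
private theorem Y4ne {N j : ℕ} (hj : j + 1 ≤ N) {c : F}
    (hc : Top.Sp A φ ((Q.x N - algebraMap k M Q.e)⁻¹) (algebraMap F Fb c))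
    (hb : ¬ Top.Sp A φ (Q.x (N - (j + 1))) (ι (algebraMap k _ Q.e))) :
    aeval c (Q.P j) ≠ 0 := by
  have := hpl.isLocal
  intro h0
  by_cases hall : ∀ τ : AlgebraicClosure k, aeval τ (Q.P j) = 0 →
      ∃ hm : (Q.x N - algebraMap k M Q.e)⁻¹ - algebraMap _ M τ ∈ A, φ ⟨_, hm⟩ ≠ 0
  · obtain ⟨hm, h1⟩ := Y4prod (Q.monic j) hall
    have h2 := Y4aeval hpl hc (Q.P j)
    rw [h0, _root_.map_zero] at h2
    exact h1 (Top.Sp.unique (Top.sp_of_mem hm) h2)
  · push Not at hall
    obtain ⟨τ, hτ, h1⟩ := hall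
    have hcτ := hpl.const τ
    have h2 := hc.sub hcτ
    have h3 : algebraMap F Fb c - ι τ = 0 := by
      rw [← h1 h2.mem]
      exact Top.Sp.unique h2 (Top.sp_of_mem h2.mem)
    obtain ⟨hτ0, x', y', h', hx', hτe, hP⟩ := Q.roots j τ hτ
    rw [sub_eq_zero] at h3
    rw [h3] at hc
    have hι0 : ι τ ≠ 0 := (_root_.map_ne_zero ι).mpr hτ0
    have h4 := (hc.inv hι0).add (Y4spe Q hpl)
    rw [inv_inv, sub_add_cancel, ← map_inv₀, ← map_add, hτe, inv_inv, sub_add_cancel] at h4
    have h5 := (Y4bad hpl (Q.ns N) h').mp h4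
    apply hb
    apply (Y4bad hpl (Q.ns (N - (j + 1))) Q.hb).mpr
    rw [← Q.R_zero]
    have h6 := Y4pow Q (N - (j + 1)) (j + 1)
    rw [Nat.sub_add_cancel hj] at h6
    have h7 := congrArg (hpl.val s) h6
    rw [map_nsmul] at h7
    have h8 : hpl.val s (Y4pt Q N) = map ι (some x' y' h') ∨
      hpl.val s (Y4pt Q N) = -map ι (some x' y' h') := h5
    change hpl.val s (Y4pt Q (N - (j + 1))) = _ ∨ hpl.val s (Y4pt Q (N - (j + 1))) = _
    rw [← h7]
    rcases h8 with h8 | h8
    · rw [h8, ← map_nsmul]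
      rcases hP with hP | hP
      · left
        rw [hP]
      · right
        rw [hP, map_neg]
    · rw [h8, smul_neg, ← map_nsmul]
      rcases hP with hP | hP
      · right
        rw [hP]
      · left
        rw [hP, map_neg, neg_neg]

end general

variable {v : HeightOneSpectrum (𝓞 k)}
  {ι : AlgebraicClosure k →ₐ[k] AlgebraicClosure (v.adicCompletion k)}
  {A : ValuationSubring M} {φ : A →+* AlgebraicClosure (v.adicCompletion k)}
  (hpl : Top.IsPlaceOf (F := v.adicCompletion k) s ι A φ) (r : Red W v A φ)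

include hpl in
open scoped Classical in
private theorem Y4kill [IsGalois (v.adicCompletion k) (AlgebraicClosure (v.adicCompletion k))]
    {n a : ℕ} (hx : Q.x n ∈ r.C) {x' y' : M} (h' : (W⁄M).Nonsingular x' y')
    (hT : p ^ a • (some x' y' h' : (W⁄M).Point) = 0) (hx' : x' ∈ r.C)
    (h : (letI := r.fE; r.χ ⟨_, hx⟩ = r.χ ⟨_, hx'⟩)) : False := by
  let _ := r.gG
  let _ := r.fE
  have h1 : p ^ a • r.ρ (Y4pt Q n) = 0 := by
    rcases r.eq _ _ _ _ (Q.ns n) h' hx hx' h with h2 | h2
    · rw [h2, ← map_nsmul, hT, _root_.map_zero]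
    · rw [h2, smul_neg, ← map_nsmul, hT, _root_.map_zero, _root_.neg_zero]
  have h3 := no_kernel Q.prime r.finZ (fun n => r.ρ (Y4pt Q n))
    (fun n => by rw [← map_nsmul]; exact congrArg r.ρ (Q.half n))
    (fun n => r.mem _ (by
      intro x y hxy e hxA
      obtain ⟨e1, e2⟩ := Top.some_inj' e
      subst e1 e2
      obtain ⟨a, b, ha, hb⟩ := Y4rat Q hpl n hxA
      exact ⟨ha.mem, hb.mem, a, b, ha.unique (Top.sp_of_mem _) ▸ rfl, hb.unique (Top.sp_of_mem _) ▸ rfl⟩)) (n := n) h1
  exact (r.zero _ _ (Q.ns n)).mp h3 hx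

omit [W.IsElliptic] in
open scoped Classical in
/-- constant points -/
private theorem Y4const {x y : AlgebraicClosure k}
    (h : (W⁄(AlgebraicClosure k)).Nonsingular x y) :
    ∃ h' : (W⁄M).Nonsingular (algebraMap _ M x) (algebraMap _ M y),
      ∀ a : ℕ, a • (some x y h : (W⁄(AlgebraicClosure k)).Point) = 0 →
        a • (some _ _ h' : (W⁄M).Point) = 0 := by
  have h' : (W⁄M).Nonsingular (algebraMap _ M x) (algebraMap _ M y) :=
    (Affine.baseChange_nonsingular W (Algebra.ofId (AlgebraicClosure k) M).injective x y).mpr h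
  refine ⟨h', fun a ha => ?_⟩
  have h1 := congrArg (baseChange (AlgebraicClosure k) M) ha
  rw [map_nsmul, _root_.map_zero] at h1
  exact h1

include hpl in
open scoped Classical in
private theorem Y4mem [IsGalois (v.adicCompletion k) (AlgebraicClosure (v.adicCompletion k))]
    (he : IntAt v (algebraMap k _ Q.e)) (n : ℕ) : (Q.x n - algebraMap k M Q.e)⁻¹ ∈ r.C := by
  let _ := r.fE
  by_contra h
  have h1 : Q.x n - algebraMap k M Q.e ∈ r.C := by
    have := (r.C.mem_or_inv_mem (Q.x n - algebraMap k M Q.e)).resolve_right h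
    exact this
  have h2 : r.χ ⟨_, h1⟩ = 0 := by
    by_contra h3
    exact h (r.ker _ h3)
  have he' : algebraMap k M Q.e ∈ r.C := by
    have := r.int _ he
    rwa [← IsScalarTower.algebraMap_apply] at this
  have hx : Q.x n ∈ r.C := by
    have := add_mem h1 he'
    rwa [sub_add_cancel] at this
  obtain ⟨h', hk⟩ := Y4const (M := M) Q.hb
  have he'' : algebraMap (AlgebraicClosure k) M (algebraMap k _ Q.e) ∈ r.C := r.int _ he
  refine Y4kill Q hpl r (n := n) (a := 1) hx h' (hk _ ?_) he'' ?_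
  · rw [pow_one, ← Q.R_zero]
    exact Q.order
  · have h3 : (⟨_, hx⟩ : r.C) = ⟨_, h1⟩ + ⟨_, he''⟩ := by
      apply Subtype.ext
      change Q.x n = Q.x n - algebraMap k M Q.e + algebraMap (AlgebraicClosure k) M (algebraMap k _ Q.e)
      rw [← IsScalarTower.algebraMap_apply, sub_add_cancel]
    rw [h3, map_add, h2, zero_add]

include hpl r in
open scoped Classical in
private theorem Y4unit [IsGalois (v.adicCompletion k) (AlgebraicClosure (v.adicCompletion k))]
    (he : IntAt v (algebraMap k _ Q.e)) (n j : ℕ)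
    (hroots : ∀ τ : AlgebraicClosure k, aeval τ (Q.P j) = 0 → IntAt v τ ∧ IntAt v τ⁻¹)
    {c : v.adicCompletion k}
    (hc : Top.Sp A φ ((Q.x n - algebraMap k M Q.e)⁻¹)
      (algebraMap _ (AlgebraicClosure (v.adicCompletion k)) c)) :
    Valued.v (aeval c (Q.P j)) = (1 : ℤᵐ⁰) := by
  let _ := r.fE
  have ht := Y4mem Q hpl r he n
  have he'' : algebraMap (AlgebraicClosure k) M (algebraMap k _ Q.e) ∈ r.C := r.int _ he
  have hall : ∀ τ : AlgebraicClosure k, aeval τ (Q.P j) = 0 →
      ∃ hm : (Q.x n - algebraMap k M Q.e)⁻¹ - algebraMap _ M τ ∈ r.C, r.χ ⟨_, hm⟩ ≠ 0 := by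
    intro τ hτ
    obtain ⟨i1, i2⟩ := hroots τ hτ
    have m1 := r.int _ i1
    have m2 := r.int _ i2
    refine ⟨sub_mem ht m1, fun h0 => ?_⟩
    obtain ⟨hτ0, x', y', h', hx', hτe, hP⟩ := Q.roots j τ hτ
    have e1 : r.χ ⟨_, ht⟩ = r.χ ⟨_, m1⟩ := by
      rw [← sub_eq_zero, ← map_sub]
      exact h0
    have e2 : r.χ ⟨_, m1⟩ * r.χ ⟨_, m2⟩ = 1 := by
      rw [← map_mul, ← map_one r.χ]
      congr 1
      apply Subtype.ext
      change algebraMap _ M τ * algebraMap _ M τ⁻¹ = 1
      rw [← map_mul, mul_inv_cancel₀ hτ0, map_one]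
    have e3 : r.χ ⟨_, ht⟩ ≠ 0 := by
      rw [e1]
      exact left_ne_zero_of_mul_eq_one e2
    have h4 : Q.x n - algebraMap k M Q.e ∈ r.C := by
      have := r.ker _ e3
      rwa [inv_inv] at this
    have hne : Q.x n - algebraMap k M Q.e ≠ 0 := by
      intro h5
      rw [sub_eq_zero] at h5
      exact Q.nonconst n (algebraMap k _ Q.e) (by rw [h5, ← IsScalarTower.algebraMap_apply])
    have e4 : r.χ ⟨_, ht⟩ * r.χ ⟨_, h4⟩ = 1 := by
      rw [← map_mul, ← map_one r.χ]
      congr 1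
      apply Subtype.ext
      exact inv_mul_cancel₀ hne
    have e5 : r.χ ⟨_, h4⟩ = r.χ ⟨_, m2⟩ := by
      rw [e1] at e4
      exact mul_left_cancel₀ (left_ne_zero_of_mul_eq_one e2) (e4.trans e2.symm)
    have hx : Q.x n ∈ r.C := by
      have := add_mem h4 he''
      rwa [← IsScalarTower.algebraMap_apply, sub_add_cancel] at this
    have hxe : x' = τ⁻¹ + algebraMap k _ Q.e := by
      rw [hτe, inv_inv, sub_add_cancel]
    have hx'' : algebraMap (AlgebraicClosure k) M x' ∈ r.C := by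
      rw [hxe, map_add]
      exact add_mem m2 he''
    obtain ⟨h'', hk⟩ := Y4const (M := M) h'
    refine Y4kill Q hpl r (n := n) (a := j + 2) hx h'' (hk _ ?_) hx'' ?_
    · rw [show j + 2 = (j + 1) + 1 from rfl, pow_succ', mul_smul]
      rcases hP with hP | hP
      · rw [hP, Q.order]
      · rw [hP]
        exact (smul_neg p (Q.R 0)).trans (by rw [Q.order]; exact _root_.neg_zero)
    · have h6 : (⟨_, hx⟩ : r.C) = ⟨_, h4⟩ + ⟨_, he''⟩ := by
        apply Subtype.ext
        change Q.x n = Q.x n - algebraMap k M Q.e +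
          algebraMap (AlgebraicClosure k) M (algebraMap k _ Q.e)
        rw [← IsScalarTower.algebraMap_apply, sub_add_cancel]
      have h7 : (⟨_, hx''⟩ : r.C) = ⟨_, m2⟩ + ⟨_, he''⟩ := by
        apply Subtype.ext
        change algebraMap _ M x' = algebraMap _ M τ⁻¹ + algebraMap _ M (algebraMap k _ Q.e)
        rw [hxe, map_add]
      rw [h6, h7, map_add, map_add, e5]
  obtain ⟨hm, h1⟩ := Y4prod (Q.monic j) hall
  have h2 := Y4aeval hpl hc (Q.P j)
  obtain ⟨h3, h4⟩ := h2
  obtain ⟨h5, h6⟩ := r.val _ h3 _ h4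
  have h7 := h5.mp hm
  have h8 := (h6 hm).not.mp h1
  exact le_antisymm h7 (not_lt.mp h8)

end place2

/-- **The values.** -/
theorem orbit_values {k : Type u} [Field k] [NumberField k] (W : WeierstrassCurve k)
    [W.IsShortNF] [W.IsElliptic] {p : ℕ} {K M : Type*} [Field K] [Field M] [Algebra K M]
    [Algebra k K] [Algebra (AlgebraicClosure k) M] [Algebra k M] [IsScalarTower k K M]
    [IsScalarTower k (AlgebraicClosure k) M]
    {s : Gal(AlgebraicClosure k/k) →* Gal(M/K)} (Q : Tower W p s)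
    (ι : ∀ v : HeightOneSpectrum (𝓞 k),
      AlgebraicClosure k →ₐ[k] AlgebraicClosure (v.adicCompletion k))
    (A : HeightOneSpectrum (𝓞 k) → ValuationSubring M)
    (φ : ∀ v : HeightOneSpectrum (𝓞 k), A v →+* AlgebraicClosure (v.adicCompletion k))
    (hφ : ∀ v, Sel.IsPlaceOf s (v.adicCompletion k)
      (ι v : _ →+* AlgebraicClosure (v.adicCompletion k)) (A v) (φ v)) (m : ℕ) :
    ∃ (N : ℕ) (T : Finset (HeightOneSpectrum (𝓞 k)))
      (xv : ∀ v : HeightOneSpectrum (𝓞 k), v.adicCompletion k), m + 2 ≤ N ∧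
      (∀ v, ∃ h : (Q.x N - algebraMap k M Q.e)⁻¹ ∈ A v, φ v ⟨_, h⟩ = algebraMap _ _ (xv v)) ∧
      ∀ v, ∀ j, j < m → aeval (xv v) (Q.P j) ≠ 0 ∧
        (v ∉ T → Valued.v (aeval (xv v) (Q.P j)) = (1 : ℤᵐ⁰)) := by
  classical
  have hch : ∀ v : HeightOneSpectrum (𝓞 k), CharZero (v.adicCompletion k) := fun v =>
    charZero_of_injective_algebraMap (algebraMap k (v.adicCompletion k)).injective
  have hgal : ∀ v : HeightOneSpectrum (𝓞 k), IsGalois (v.adicCompletion k)
      (AlgebraicClosure (v.adicCompletion k)) := fun v => inferInstance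
  have hpl : ∀ v, Top.IsPlaceOf (F := v.adicCompletion k) s (ι v) (A v) (φ v) := fun v =>
    (Top.LocalPoint.ofPlace (ι v) (A v) (φ v) (hφ v)).isPlaceOf
  obtain ⟨T1, hT1⟩ := exists_good W (M := M)
  have hS : {a : AlgebraicClosure k | a = algebraMap k _ Q.e ∨
      ∃ j < m, aeval a (Q.P j) = 0 ∨ aeval a⁻¹ (Q.P j) = 0}.Finite := by
    have h1 : ∀ j, {a : AlgebraicClosure k | aeval a (Q.P j) = 0}.Finite := by
      intro j
      refine ((Q.P j).rootSet_finite (AlgebraicClosure k)).subset fun a ha => ?_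
      rw [mem_rootSet]
      exact ⟨(Q.monic j).ne_zero, ha⟩
    have h2 : ∀ j, {a : AlgebraicClosure k | aeval a⁻¹ (Q.P j) = 0}.Finite := fun j =>
      (h1 j).preimage inv_injective.injOn
    have h3 : (⋃ j ∈ Finset.range m, ({a : AlgebraicClosure k | aeval a (Q.P j) = 0} ∪
        {a : AlgebraicClosure k | aeval a⁻¹ (Q.P j) = 0})).Finite :=
      Set.Finite.biUnion (Finset.finite_toSet _) fun j _ => (h1 j).union (h2 j)
    refine ((Set.finite_singleton (algebraMap k _ Q.e)).union h3).subset ?_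
    rintro a (ha | ⟨j, hj, ha⟩)
    · exact Or.inl ha
    · right
      simp only [Set.mem_iUnion]
      exact ⟨j, Finset.mem_range.mpr hj, ha⟩
  have hbad := hS.biUnion fun a _ => finite_not_intAt a
  obtain ⟨T, hT⟩ : ∃ T : Finset (HeightOneSpectrum (𝓞 k)), T = T1 ∪ hbad.toFinset := ⟨_, rfl⟩
  have hT1' : ∀ v, v ∉ T → v ∉ T1 := fun v hv h => hv (by rw [hT]; exact Finset.mem_union_left _ h)
  have hint : ∀ v ∉ T, ∀ a : AlgebraicClosure k, (a = algebraMap k _ Q.e ∨
      ∃ j < m, aeval a (Q.P j) = 0 ∨ aeval a⁻¹ (Q.P j) = 0) → IntAt v a := by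
    intro v hv a ha
    by_contra h
    apply hv
    rw [hT]
    apply Finset.mem_union_right
    rw [Set.Finite.mem_toFinset]
    simp only [Set.mem_iUnion]
    exact ⟨a, ha, h⟩
  have hB : ∀ v, ∃ B, ∀ n, B ≤ n →
      ¬ Top.Sp (A v) (φ v) (Q.x n) (ι v (algebraMap k _ Q.e)) := by
    intro v
    by_cases h : ∃ n, Top.Sp (A v) (φ v) (Q.x n) (ι v (algebraMap k _ Q.e))
    · obtain ⟨n, hn⟩ := h
      exact ⟨n + 1, fun m hm h' => Y4unique Q (hpl v) hn h' (by omega)⟩
    · exact ⟨0, fun n _ h' => h ⟨n, h'⟩⟩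
  choose B hB using hB
  have hne : ∀ n, Q.x n - algebraMap k M Q.e ≠ 0 := by
    intro n h5
    rw [sub_eq_zero] at h5
    exact Q.nonconst n (algebraMap k _ Q.e) (by rw [h5, ← IsScalarTower.algebraMap_apply])
  have hgood : ∀ v ∉ T, ∀ n, ¬ Top.Sp (A v) (φ v) (Q.x n) (ι v (algebraMap k _ Q.e)) := by
    intro v hv n h
    obtain ⟨r⟩ := hT1 v (hT1' v hv) (ι v) (A v) (φ v) (hφ v).1 (hφ v).2.1
    have h1 := r.le _ (Y4mem Q (hpl v) r (hint v hv _ (Or.inl rfl)) n)
    have h2 := h.sub (Y4spe Q (hpl v))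
    rw [sub_self] at h2
    have h3 := h2.mul (Top.sp_of_mem (φ := φ v) h1)
    rw [mul_inv_cancel₀ (hne n), zero_mul] at h3
    exact one_ne_zero (Top.sp_one.unique h3)
  have hN : ∀ v, ¬ Top.Sp (A v) (φ v) (Q.x (m + 2 + T.sup B)) (ι v (algebraMap k _ Q.e)) := by
    intro v
    by_cases hv : v ∈ T
    · apply hB v
      have := Finset.le_sup (f := B) hv
      omega
    · exact hgood v hv _
  choose xv hxv using fun v => Y4value Q (hpl v) _ (hN v)
  refine ⟨m + 2 + T.sup B, T, xv, by omega, fun v => hxv v, ?_⟩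
  intro v j hj
  by_cases hv : v ∈ T
  · refine ⟨Y4ne Q (hpl v) (j := j) (by omega) (hxv v) (hB v _ ?_), fun h => absurd hv h⟩
    have := Finset.le_sup (f := B) hv
    omega
  · obtain ⟨r⟩ := hT1 v (hT1' v hv) (ι v) (A v) (φ v) (hφ v).1 (hφ v).2.1
    have h1 := Y4unit Q (hpl v) r (hint v hv _ (Or.inl rfl)) (m + 2 + T.sup B) j (fun τ hτ =>
      ⟨hint v hv _ (Or.inr ⟨j, hj, Or.inl hτ⟩),
        hint v hv _ (Or.inr ⟨j, hj, Or.inr (by rw [inv_inv]; exact hτ)⟩)⟩) (hxv v)
    refine ⟨fun h0 => ?_, fun _ => h1⟩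
    rw [h0, _root_.map_zero] at h1
    exact zero_ne_one h1

end Pool.Agent.Lib.MP_2f3286_ag.UA
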