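import Pool.Agent.Lib.MP_2f3286_ag.UA.Y4

/-!
# Y5: constant values of a term of the sequence; units at trivial places

`value_back`: if the value of `t = (x N - e)⁻¹` at all places of a family is `c` in `k`: if `c = 0` the value of `ζ N` is `0`, so those of the `ζ n`, `n ≤ N`, are `0`, and `x n` is not in
`A v`. If `c ≠ 0` let `P₀ = (1 / c + e, b₀)` in `W(kb)`; the value of `ζ N` at `v` is `± ι P₀`, that of `ζ n` is `± ι (p ^ (N - n) P₀)`: either this point is `0`, or its `x`-coordinate is in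
`k` (it is fixed by the Galois group, since `σ P₀ = ± P₀`).
`units_at`: `V` contains the constants; residue field `E`, `Top.CurveSp` for `W⁄M`, `W⁄E` (as in `Pt/Division.lean`, `divisible_aux`), `ρ = Top.redHom`; `x 0` is in `V`, so `ρ (ζ 0) ≠ 0`, and
`ρ (ζ N)` is not killed by `p ^ N`; if `(x N - e)⁻¹` is not in `V` (or not a unit) then `ρ (ζ N)` is `0` or `± ρ (R 0)`; `P j (t)` is the product of the `t - τ`, and
`t - τ` in the maximal ideal gives `ρ (ζ N) = ± ρ (x', y')`, killed by `p ^ (j + 2)`.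
-/

open WeierstrassCurve WeierstrassCurve.Affine WeierstrassCurve.Affine.Point
open IsDedekindDomain NumberField Polynomial
open scoped WithZero
open Pool.Agent.Lib.MP_2f3286_ag

namespace Pool.Agent.Lib.MP_2f3286_ag.UA

universe u

variable {k : Type u} [Field k] [NumberField k] (W : WeierstrassCurve k)
    [W.IsShortNF] [W.IsElliptic] {p : ℕ} {K M : Type*} [Field K] [Field M] [Algebra K M]
    [Algebra k K] [Algebra (AlgebraicClosure k) M] [Algebra k M] [IsScalarTower k K M]
    [IsScalarTower k (AlgebraicClosure k) M]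
    {s : Gal(AlgebraicClosure k/k) →* Gal(M/K)}

section aux

open Pool.Agent.Lib.MP_2f3286_ag.Top

private theorem aux_sp_aeval {k M L : Type*} [Field k] [Field M] [Field L] [Algebra k M]
    [Algebra k L] {O : ValuationSubring M} {φ : O →+* L}
    (h : ∀ a : k, Sp O φ (algebraMap k M a) (algebraMap k L a)) {t : M} {l : L}
    (ht : Sp O φ t l) (P : k[X]) : Sp O φ (aeval t P) (aeval l P) := by
  induction P using Polynomial.induction_on' with
  | add p q hp hq => rw [map_add, map_add]; exact hp.add hq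
  | monomial n a => rw [aeval_monomial, aeval_monomial]; exact (h a).mul (ht.pow n)

private theorem aux_root {k kb L : Type*} [Field k] [Field kb] [Field L] [Algebra k kb]
    [Algebra kb L] [Algebra k L] [IsScalarTower k kb L] [IsAlgClosed kb] {P : k[X]}
    (hP : P.Monic) {l : L} (hl : aeval l P = 0) :
    ∃ τ : kb, aeval τ P = 0 ∧ algebraMap kb L τ = l := by
  have h1 : IsIntegral kb l := by
    refine ⟨P.map (algebraMap k kb), hP.map _, ?_⟩
    rw [← aeval_def, aeval_map_algebraMap]
    exact hl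
  obtain ⟨τ, rfl⟩ := Top.mem_of_integral h1
  refine ⟨τ, ?_, rfl⟩
  rw [aeval_algebraMap_apply] at hl
  exact (map_eq_zero _).mp hl

open scoped Classical in
private theorem aux_pow (Q : Tower W p s) (n m : ℕ) :
    p ^ m • (some (Q.x (n + m)) (Q.y (n + m)) (Q.ns (n + m)) : (W⁄M).Point) =
      some (Q.x n) (Q.y n) (Q.ns n) := by
  induction m with
  | zero => rw [pow_zero, one_smul]; rfl
  | succ m ih =>
    rw [pow_succ, mul_smul]
    have h := Q.half (n + m)
    rw [← ih, ← h]
    rfl

open scoped Classical in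
private theorem aux_pow' (Q : Tower W p s) {n N : ℕ} (h : n ≤ N) :
    p ^ (N - n) • (some (Q.x N) (Q.y N) (Q.ns N) : (W⁄M).Point) =
      some (Q.x n) (Q.y n) (Q.ns n) := by
  obtain ⟨m, rfl⟩ := Nat.exists_eq_add_of_le h
  rw [Nat.add_sub_cancel_left]
  exact aux_pow W Q n m

/-- the reduction at a trivial place -/
private theorem aux_red (Q : Tower W p s) (V : ValuationSubring M)
    (hV : ∀ a : AlgebraicClosure k, algebraMap (AlgebraicClosure k) M a ∈ V) (h0 : Q.x 0 ∈ V)
    (N : ℕ) : Q.x N ∈ V := by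
  classical
  let L := IsLocalRing.ResidueField V
  let φ : V →+* L := IsLocalRing.residue V
  let ι : AlgebraicClosure k →+* V :=
    (algebraMap (AlgebraicClosure k) M).codRestrict V.toSubring hV
  let _ : Algebra (AlgebraicClosure k) L := (φ.comp ι).toAlgebra
  let _ : Algebra k L := ((φ.comp ι).comp (algebraMap k (AlgebraicClosure k))).toAlgebra
  have : IsScalarTower k (AlgebraicClosure k) L := IsScalarTower.of_algebraMap_eq fun _ => rfl
  have hsp : ∀ c : AlgebraicClosure k, Sp V φ (algebraMap _ M c) (algebraMap _ L c) :=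
    fun c => ⟨hV c, rfl⟩
  have hsp' : ∀ c : k, Sp V φ (algebraMap k M c) (algebraMap k L c) := by
    intro c
    rw [IsScalarTower.algebraMap_apply k (AlgebraicClosure k) M]
    exact hsp _
  have hAB : CurveSp V φ (W⁄M) (W⁄L) := curveSp hsp'
  have : IsLocalHom φ := inferInstanceAs (IsLocalHom (IsLocalRing.residue V))
  by_contra hN
  have h1 := congrArg (redHom hAB) (aux_pow' W Q (Nat.zero_le N))
  have h2 : redHom hAB (some (Q.x N) (Q.y N) (Q.ns N)) = 0 :=
    red_some_of_notMem hAB (Q.ns N) hN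
  rw [map_nsmul, h2, smul_zero] at h1
  have h3 := equation_iff_nonsingular.mp ((sp_of_mem (φ := φ) h0).equation hAB
    (sp_of_mem (mem_y hAB h0 (Q.ns 0).1)) (Q.ns 0).1)
  have h4 : redHom hAB (some (Q.x 0) (Q.y 0) (Q.ns 0)) = some _ _ h3 :=
    red_some hAB (Q.ns 0) (sp_of_mem h0) (sp_of_mem _) h3
  rw [h4] at h1
  exact some_ne_zero _ h1.symm

open scoped Classical in
private theorem aux_tors (Q : Tower W p s) (V : ValuationSubring M)
    (hV : ∀ a : AlgebraicClosure k, algebraMap (AlgebraicClosure k) M a ∈ V) (h0 : Q.x 0 ∈ V)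
    {N a : ℕ} (ha : a ≤ N) {c d : AlgebraicClosure k}
    (hcd : (W⁄(AlgebraicClosure k)).Nonsingular c d)
    (ht : p ^ a • (some c d hcd : (W⁄(AlgebraicClosure k)).Point) = 0)
    (h : V.valuation (Q.x N - algebraMap _ M c) < 1) : False := by
  let L := IsLocalRing.ResidueField V
  let φ : V →+* L := IsLocalRing.residue V
  let ι : AlgebraicClosure k →+* V :=
    (algebraMap (AlgebraicClosure k) M).codRestrict V.toSubring hV
  let _ : Algebra (AlgebraicClosure k) L := (φ.comp ι).toAlgebra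
  let _ : Algebra k L := ((φ.comp ι).comp (algebraMap k (AlgebraicClosure k))).toAlgebra
  have : IsScalarTower k (AlgebraicClosure k) L := IsScalarTower.of_algebraMap_eq fun _ => rfl
  have hsp : ∀ c : AlgebraicClosure k, Sp V φ (algebraMap _ M c) (algebraMap _ L c) :=
    fun c => ⟨hV c, rfl⟩
  have hsp' : ∀ c : k, Sp V φ (algebraMap k M c) (algebraMap k L c) := by
    intro c
    rw [IsScalarTower.algebraMap_apply k (AlgebraicClosure k) M]
    exact hsp _
  have hAB : CurveSp V φ (W⁄M) (W⁄L) := curveSp hsp'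
  have : IsLocalHom φ := inferInstanceAs (IsLocalHom (IsLocalRing.residue V))
  have hx : Q.x N ∈ V := aux_red W Q V hV h0 N
  have hsub : Q.x N - algebraMap _ M c ∈ V := sub_mem hx (hV c)
  have hz : Sp V φ (Q.x N - algebraMap _ M c) 0 := by
    refine ⟨hsub, ?_⟩
    rw [IsLocalRing.residue_eq_zero_iff]
    exact (V.valuation_lt_one_iff ⟨_, hsub⟩).mpr h
  have hxc : Sp V φ (Q.x N) (algebraMap _ L c) := by
    have h3 := hz.add (hsp c)
    rwa [sub_add_cancel, zero_add] at h3
  have hy : Q.y N ∈ V := mem_y hAB hx (Q.ns N).1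
  have h3 := equation_iff_nonsingular.mp (hxc.equation hAB (sp_of_mem hy) (Q.ns N).1)
  have h4 : redHom hAB (some (Q.x N) (Q.y N) (Q.ns N)) = some _ _ h3 :=
    red_some hAB (Q.ns N) hxc (sp_of_mem hy) h3
  have h5 : redHom hAB (some (Q.x N) (Q.y N) (Q.ns N)) =
      baseChange (AlgebraicClosure k) L (some c d hcd) ∨
      redHom hAB (some (Q.x N) (Q.y N) (Q.ns N)) =
        -baseChange (AlgebraicClosure k) L (some c d hcd) := by
    rw [h4]
    exact X_eq_iff.mp rfl
  have h6 : p ^ a • redHom hAB (some (Q.x N) (Q.y N) (Q.ns N)) = 0 := by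
    rcases h5 with h5 | h5
    · rw [h5, ← map_nsmul, ht, _root_.map_zero]
    · rw [h5, smul_neg, ← map_nsmul, ht, _root_.map_zero, _root_.neg_zero]
  have h7 := aux_pow' W Q (Nat.zero_le N)
  rw [Nat.sub_zero] at h7
  have h8 := congrArg (redHom hAB) h7
  rw [map_nsmul, show p ^ N = p ^ (N - a) * p ^ a by rw [← pow_add, Nat.sub_add_cancel ha],
    mul_smul, h6, smul_zero] at h8
  have h9 := equation_iff_nonsingular.mp ((sp_of_mem (φ := φ) h0).equation hAB
    (sp_of_mem (mem_y hAB h0 (Q.ns 0).1)) (Q.ns 0).1)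
  have h10 : redHom hAB (some (Q.x 0) (Q.y 0) (Q.ns 0)) = some _ _ h9 :=
    red_some hAB (Q.ns 0) (sp_of_mem h0) (sp_of_mem _) h9
  rw [h10] at h8
  exact some_ne_zero _ h8.symm

end aux

theorem value_back (Q : Tower W p s)
    (ι : ∀ v : HeightOneSpectrum (𝓞 k),
      AlgebraicClosure k →ₐ[k] AlgebraicClosure (v.adicCompletion k))
    (A : HeightOneSpectrum (𝓞 k) → ValuationSubring M)
    (φ : ∀ v : HeightOneSpectrum (𝓞 k), A v →+* AlgebraicClosure (v.adicCompletion k))
    (hφ : ∀ v, Sel.IsPlaceOf s (v.adicCompletion k)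
      (ι v : _ →+* AlgebraicClosure (v.adicCompletion k)) (A v) (φ v)) {N : ℕ} {c : k}
    (hc : ∀ v, ∃ h : (Q.x N - algebraMap k M Q.e)⁻¹ ∈ A v,
      φ v ⟨_, h⟩ = ι v (algebraMap k _ c)) {n : ℕ} (hn : n ≤ N) :
    (∃ c' : k, ∀ v, ∃ h : Q.x n ∈ A v, φ v ⟨_, h⟩ = ι v (algebraMap k _ c')) ∨
      ∀ v, Q.x n ∉ A v := by
  classical
  let hp : ∀ v, Top.IsPlaceOf (F := v.adicCompletion k) s (ι v) (A v) (φ v) := fun v =>
    (Top.LocalPoint.ofPlace (ι v) (A v) (φ v) (hφ v)).isPlaceOf
  have hm : ∀ v, p ^ (N - n) • (hp v).val s (some (Q.x N) (Q.y N) (Q.ns N)) =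
      (hp v).val s (some (Q.x n) (Q.y n) (Q.ns n)) := by
    intro v
    rw [← map_nsmul, aux_pow' W Q hn]
  have hnot : ∀ v m, (hp v).val s (some (Q.x m) (Q.y m) (Q.ns m)) = 0 → Q.x m ∉ A v := by
    intro v m h hx
    have := (hp v).isLocal
    have h1 := Top.sp_of_mem (φ := φ v) hx
    have h2 := Top.sp_of_mem (φ := φ v) (Top.mem_y ((hp v).curveSp s) hx (Q.ns m).1)
    have h3 := equation_iff_nonsingular.mp (h1.equation ((hp v).curveSp s) h2 (Q.ns m).1)
    have e1 : (hp v).val s (some (Q.x m) (Q.y m) (Q.ns m)) = some _ _ h3 :=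
      Top.red_some ((hp v).curveSp s) (Q.ns m) h1 h2 h3
    rw [e1] at h
    exact some_ne_zero _ h
  by_cases hc0 : c = 0
  · right
    intro v
    apply hnot v n
    rw [← hm v]
    have hxN : Q.x N ∉ A v := by
      intro hx
      have := (hp v).isLocal
      obtain ⟨h, h1⟩ := hc v
      rw [hc0, _root_.map_zero, _root_.map_zero] at h1
      have h2 : Q.x N - algebraMap k M Q.e ≠ 0 := by
        intro h3
        rw [sub_eq_zero] at h3
        rw [IsScalarTower.algebraMap_apply k (AlgebraicClosure k) M] at h3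
        exact Q.nonconst N _ h3
      have h3 : Q.x N - algebraMap k M Q.e ∈ A v := by
        refine sub_mem hx ?_
        rw [IsScalarTower.algebraMap_apply k (AlgebraicClosure k) M]
        exact ((hp v).const _).mem
      have h4 : Top.Sp (A v) (φ v) (Q.x N - algebraMap k M Q.e)⁻¹ 0 := ⟨h, h1⟩
      have h5 := h4.mul (Top.sp_of_mem (φ := φ v) h3)
      rw [inv_mul_cancel₀ h2, zero_mul] at h5
      exact one_ne_zero (Top.sp_one.unique h5)
    have := (hp v).isLocal
    have e1 : (hp v).val s (some (Q.x N) (Q.y N) (Q.ns N)) = 0 :=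
      Top.red_some_of_notMem ((hp v).curveSp s) (Q.ns N) hxN
    rw [e1, smul_zero]
  · obtain ⟨b₀, hb₀⟩ := Pt.Div.exists_pt (A := (W⁄(AlgebraicClosure k)))
      (algebraMap k (AlgebraicClosure k) (c⁻¹ + Q.e))
    set P₀ : (W⁄(AlgebraicClosure k)).Point := some _ b₀ hb₀ with hP₀
    have hval : ∀ v, (hp v).val s (some (Q.x N) (Q.y N) (Q.ns N)) = map (ι v) P₀ ∨
        (hp v).val s (some (Q.x N) (Q.y N) (Q.ns N)) = -map (ι v) P₀ := by
      intro v
      have := (hp v).isLocal
      obtain ⟨h, h1⟩ := hc v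
      have h2 : Top.Sp (A v) (φ v) (Q.x N - algebraMap k M Q.e)⁻¹ (ι v (algebraMap k _ c)) :=
        ⟨h, h1⟩
      have h3 : ι v (algebraMap k _ c) ≠ 0 := by
        rw [_root_.map_ne_zero, _root_.map_ne_zero]
        exact hc0
      have h4 := h2.inv h3
      rw [inv_inv, ← map_inv₀, ← map_inv₀] at h4
      have h5 := h4.add ((hp v).const (algebraMap k _ Q.e))
      rw [← IsScalarTower.algebraMap_apply, sub_add_cancel, ← map_add, ← map_add] at h5
      have hy := Top.sp_of_mem (φ := φ v) (Top.mem_y ((hp v).curveSp s) h5.mem (Q.ns N).1)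
      have h6 := equation_iff_nonsingular.mp (h5.equation ((hp v).curveSp s) hy (Q.ns N).1)
      have e1 : (hp v).val s (some (Q.x N) (Q.y N) (Q.ns N)) = some _ _ h6 :=
        Top.red_some ((hp v).curveSp s) (Q.ns N) h5 hy h6
      rw [e1]
      exact X_eq_iff.mp rfl
    have hval' : ∀ v, (hp v).val s (some (Q.x n) (Q.y n) (Q.ns n)) =
          map (ι v) (p ^ (N - n) • P₀) ∨
        (hp v).val s (some (Q.x n) (Q.y n) (Q.ns n)) = -map (ι v) (p ^ (N - n) • P₀) := by
      intro v
      rw [← hm v]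
      rcases hval v with h | h
      · left
        rw [h, map_nsmul]
      · right
        rw [h, map_nsmul, smul_neg]
    rcases hP₁ : p ^ (N - n) • P₀ with _ | ⟨a₁, b₁, h₁⟩
    · right
      intro v
      apply hnot v n
      rcases hval' v with h | h
      · rw [h, hP₁]
        rfl
      · rw [h, hP₁]
        rfl
    · left
      have hfix : ∀ σ : Gal(AlgebraicClosure k/k), σ a₁ = a₁ := by
        intro σ
        have h1 : map (σ : AlgebraicClosure k →ₐ[k] AlgebraicClosure k) P₀ = P₀ ∨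
            map (σ : AlgebraicClosure k →ₐ[k] AlgebraicClosure k) P₀ = -P₀ := by
          rw [hP₀, map_some]
          exact X_eq_iff.mp (σ.commutes _)
        have h2 : map (σ : AlgebraicClosure k →ₐ[k] AlgebraicClosure k)
              (p ^ (N - n) • P₀) = p ^ (N - n) • P₀ ∨
            map (σ : AlgebraicClosure k →ₐ[k] AlgebraicClosure k)
              (p ^ (N - n) • P₀) = -(p ^ (N - n) • P₀) := by
          rcases h1 with h1 | h1
          · left
            rw [map_nsmul, h1]
          · right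
            rw [map_nsmul, h1, smul_neg]
        rw [hP₁, map_some] at h2
        exact X_eq_iff.mpr h2
      have hb : a₁ ∈ (⊥ : IntermediateField k (AlgebraicClosure k)) := by
        rw [InfiniteGalois.mem_bot_iff_fixed]
        exact hfix
      obtain ⟨c', hc'⟩ := IntermediateField.mem_bot.mp hb
      refine ⟨c', fun v => ?_⟩
      have := (hp v).isLocal
      have hne : (hp v).val s (some (Q.x n) (Q.y n) (Q.ns n)) ≠ 0 := by
        rcases hval' v with h | h
        · rw [h, hP₁, map_some]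
          exact some_ne_zero _
        · rw [h, hP₁, map_some]
          exact neg_ne_zero.mpr (some_ne_zero _)
      have hx : Q.x n ∈ A v := by
        by_contra hx
        exact hne (Top.red_some_of_notMem ((hp v).curveSp s) (Q.ns n) hx)
      have hsx := Top.sp_of_mem (φ := φ v) hx
      have hsy := Top.sp_of_mem (φ := φ v) (Top.mem_y ((hp v).curveSp s) hx (Q.ns n).1)
      have h6 := equation_iff_nonsingular.mp (hsx.equation ((hp v).curveSp s) hsy (Q.ns n).1)
      have e1 : (hp v).val s (some (Q.x n) (Q.y n) (Q.ns n)) = some _ _ h6 :=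
        Top.red_some ((hp v).curveSp s) (Q.ns n) hsx hsy h6
      refine ⟨hx, ?_⟩
      have h7 := hval' v
      rw [e1, hP₁, map_some] at h7
      have h8 : φ v ⟨Q.x n, hx⟩ = ι v a₁ := X_eq_iff.mpr h7
      rw [h8, ← hc']

theorem units_at (Q : Tower W p s) (V : ValuationSubring M)
    (hV : ∀ a : AlgebraicClosure k, algebraMap (AlgebraicClosure k) M a ∈ V) (h0 : Q.x 0 ∈ V)
    {N j : ℕ} (hN : j + 2 ≤ N) :
    Q.x N ∈ V ∧ V.valuation (Q.x N - algebraMap k M Q.e) = 1 ∧
      V.valuation (aeval (Q.x N - algebraMap k M Q.e)⁻¹ (Q.P j)) = 1 := by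
  classical
  have hx : Q.x N ∈ V := aux_red W Q V hV h0 N
  have he : algebraMap k M Q.e ∈ V := by
    rw [IsScalarTower.algebraMap_apply k (AlgebraicClosure k) M]
    exact hV _
  have hsub : Q.x N - algebraMap k M Q.e ∈ V := sub_mem hx he
  have h1 : V.valuation (Q.x N - algebraMap k M Q.e) = 1 := by
    refine le_antisymm ((V.valuation_le_one_iff _).mpr hsub) (not_lt.mp fun hlt => ?_)
    rw [IsScalarTower.algebraMap_apply k (AlgebraicClosure k) M] at hlt
    refine aux_tors W Q V hV h0 (show 1 ≤ N by omega) Q.hb ?_ hlt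
    rw [pow_one, ← Q.R_zero]
    exact Q.order
  refine ⟨hx, h1, ?_⟩
  let L := IsLocalRing.ResidueField V
  let φ : V →+* L := IsLocalRing.residue V
  let ι : AlgebraicClosure k →+* V :=
    (algebraMap (AlgebraicClosure k) M).codRestrict V.toSubring hV
  let _ : Algebra (AlgebraicClosure k) L := (φ.comp ι).toAlgebra
  let _ : Algebra k L := ((φ.comp ι).comp (algebraMap k (AlgebraicClosure k))).toAlgebra
  have : IsScalarTower k (AlgebraicClosure k) L := IsScalarTower.of_algebraMap_eq fun _ => rfl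
  have hsp : ∀ c : AlgebraicClosure k, Top.Sp V φ (algebraMap _ M c) (algebraMap _ L c) :=
    fun c => ⟨hV c, rfl⟩
  have hsp' : ∀ c : k, Top.Sp V φ (algebraMap k M c) (algebraMap k L c) := by
    intro c
    rw [IsScalarTower.algebraMap_apply k (AlgebraicClosure k) M]
    exact hsp _
  have : IsLocalHom φ := inferInstanceAs (IsLocalHom (IsLocalRing.residue V))
  have hunit : IsUnit (⟨_, hsub⟩ : V) := (V.valuation_eq_one_iff ⟨_, hsub⟩).mpr h1
  have hne : φ ⟨_, hsub⟩ ≠ 0 := (hunit.map φ).ne_zero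
  have hinv := (Top.sp_of_mem (φ := φ) hsub).inv hne
  have hP := aux_sp_aeval hsp' hinv (Q.P j)
  by_contra hcon
  have hz : aeval (φ ⟨_, hsub⟩)⁻¹ (Q.P j) = 0 := by
    by_contra hne'
    apply hcon
    refine (V.valuation_eq_one_iff ⟨_, hP.mem⟩).mp (isUnit_of_map_unit φ _ ?_)
    obtain ⟨hmem, hval⟩ := hP
    rw [hval]
    exact isUnit_iff_ne_zero.mpr hne'
  obtain ⟨τ, hτ, hτ'⟩ := aux_root (kb := AlgebraicClosure k) (Q.monic j) hz
  obtain ⟨hτ0, x, y, h, hxe, hτx, hor⟩ := Q.roots j τ hτ
  refine aux_tors W Q V hV h0 hN h ?_ (?_ : V.valuation (Q.x N - algebraMap _ M x) < 1)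
  · rw [show j + 2 = 1 + (j + 1) by ring, pow_add, mul_smul, pow_one]
    rcases hor with hor | hor
    · rw [hor, Q.order]
    · rw [hor]
      exact (neg_nsmul (Q.R 0) p).trans (by rw [Q.order, _root_.neg_zero])
  · have h2 : Top.Sp V φ (Q.x N - algebraMap k M Q.e)
        (algebraMap _ L (x - algebraMap k _ Q.e)) := by
      have h3 := Top.sp_of_mem (φ := φ) hsub
      have h4 : φ ⟨_, hsub⟩ = algebraMap _ L (x - algebraMap k _ Q.e) := by
        rw [← inv_inv (φ ⟨_, hsub⟩), ← hτ', hτx, map_inv₀, inv_inv]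
      rwa [h4] at h3
    have h5 := h2.sub (hsp (x - algebraMap k _ Q.e))
    rw [sub_self, map_sub, ← IsScalarTower.algebraMap_apply, sub_sub_sub_cancel_right] at h5
    obtain ⟨h6, h7⟩ := h5
    rw [IsLocalRing.residue_eq_zero_iff] at h7
    exact (V.valuation_lt_one_iff ⟨_, h6⟩).mp h7

open scoped Classical in
/-- the first point avoids the points of order `p` on trivial places -/
theorem unit_one (Q : Tower W p s) (V : ValuationSubring M)
    (hV : ∀ a : AlgebraicClosure k, algebraMap (AlgebraicClosure k) M a ∈ V) (h0 : Q.x 0 ∈ V)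
    {n : ℕ} (hn : 1 ≤ n) {c d : AlgebraicClosure k}
    (hcd : (W⁄(AlgebraicClosure k)).Nonsingular c d)
    (ht : p • (some c d hcd : (W⁄(AlgebraicClosure k)).Point) = 0) :
    Q.x n ∈ V ∧ (Q.x n - algebraMap _ M c)⁻¹ ∈ V := by
  have hx : Q.x n ∈ V := aux_red W Q V hV h0 n
  refine ⟨hx, ?_⟩
  by_contra hcon
  refine aux_tors W Q V hV h0 hn hcd (by rw [pow_one]; exact ht) ?_
  have hsub : Q.x n - algebraMap _ M c ∈ V := sub_mem hx (hV c)
  refine lt_of_le_of_ne ((V.valuation_le_one_iff _).mpr hsub) fun h1 => hcon ?_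
  rw [← V.valuation_le_one_iff, map_inv₀, h1, inv_one]

end Pool.Agent.Lib.MP_2f3286_ag.UA
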