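import Pool.Agent.Lib.MP_2f3286_ag.UA.Y5
import Pool.Agent.Lib.MP_2f3286_ag.UA.O2
import Pool.Agent.Lib.MP_2f3286_ag.UA.Tri
import Pool.Agent.Lib.MP_2f3286_ag.UA.Tri2
import Pool.Agent.Lib.MP_2f3286_ag.UA.GT

/-!
# Y6: a term of a `p`-divisible sequence has the same value at all places

`enough_p`: copy of `enough` (O2): `n = [k : ℚ]` coprime polynomials of positive degree.
`tri_p`: as `Tri.tri_F` and `Tri2.tri`. For a family of places: `orbit_values` (Y4) with `m = [k : ℚ]`, `const_of_enough` (Cst) for `t = (x N - e)⁻¹`, which is an element of the field `L` of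
elements fixed by `s` (`Koe.fixF s k` and `Koe.resS` with `e = AlgEquiv.refl` as in `Tri2.tri`), and the polynomials `P j`, `j < m`; `t` is not constant (`nonconst`); units of the integral
closure of `polyAlg t P` have value one at `V` in the set (`unit_of_poly` of Tri, `units_at` of Y5), so they have all roots by `hroot`; `value_back` (Y5). Then `all_places` (Tri2).
-/

open WeierstrassCurve WeierstrassCurve.Affine WeierstrassCurve.Affine.Point
open IsDedekindDomain NumberField Polynomial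
open scoped WithZero
open Pool.Agent.Lib.MP_2f3286_ag

namespace Pool.Agent.Lib.MP_2f3286_ag.UA

universe u

theorem enough_p {k : Type u} [Field k] [NumberField k] {P : ℕ → k[X]}
    (hdeg : ∀ j, 0 < (P j).natDegree) (hcop : ∀ i j, i ≠ j → IsCoprime (P i) (P j)) :
    GU.EnoughPoints.{u, u} k ∅ fun j : Fin (Module.finrank ℚ k) => P j := by
  obtain ⟨Q, hQ1, hQ2, hcard, hQ⟩ := exists_rat.{u}
  obtain ⟨hQF, hfr⟩ := hQ k
  refine ⟨k, inferInstance, inferInstance, inferInstance, Or.inl ⟨Q, hQ1, hQ2, hQF, ∅,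
    Module.finrank ℚ k, fun j => P j, ?_, ?_, ?_, ?_, ?_⟩⟩
  · rintro w ⟨v, hv, -⟩
    simp at hv
  · intro j
    refine ⟨hdeg j, j, ?_⟩
    rw [show algebraMap k k = RingHom.id k from rfl, Polynomial.map_id]
  · intro j j' hjj
    exact hcop _ _ fun h => hjj (Fin.ext h)
  · rw [Finset.card_empty, add_zero, hcard]
    exact one_le_two
  · rw [Finset.card_empty, add_zero, hcard, one_mul, hfr]

/-- **The same value at all places.** -/
theorem tri_p {k : Type u} [Field k] [NumberField k] (W : WeierstrassCurve k)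
    [W.IsShortNF] [W.IsElliptic] {p : ℕ} {K M : Type*} [Field K] [Field M] [Algebra K M]
    [Algebra.IsAlgebraic K M]
    [Algebra k K] [Algebra (AlgebraicClosure k) M] [Algebra k M] [IsScalarTower k K M]
    [IsScalarTower k (AlgebraicClosure k) M] (htr : Algebra.trdeg k K = 1)
    (s : Gal(AlgebraicClosure k/k) →* Gal(M/K)) (hs : Continuous s)
    (hsec : ∀ σ a, s σ (algebraMap (AlgebraicClosure k) M a) =
      algebraMap (AlgebraicClosure k) M (σ a)) (Q : Tower W p s)
    (𝒱 : Set (ValuationSubring M))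
    (h𝒱 : ∀ V ∈ 𝒱, ∀ a : AlgebraicClosure k, algebraMap (AlgebraicClosure k) M a ∈ V)
    (hroot : ∀ b : M, b ≠ 0 → (∀ V ∈ 𝒱, V.valuation b = 1) → ∀ n : ℕ, 1 ≤ n →
      ∃ c : M, c ^ n = b)
    (hV0 : ∀ V ∈ 𝒱, Q.x 0 ∈ V)
    (hloc : ∀ v : HeightOneSpectrum (𝓞 k),
      ∃ (ι : AlgebraicClosure k →ₐ[k] AlgebraicClosure (v.adicCompletion k))
        (A : ValuationSubring M) (φ : A →+* AlgebraicClosure (v.adicCompletion k)),
        Sel.IsPlaceOf s (v.adicCompletion k)
          (ι : _ →+* AlgebraicClosure (v.adicCompletion k)) A φ) :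
    SameVal s k (Q.x 1) := by
  classical
  let e : AlgebraicClosure k ≃ₐ[k] AlgebraicClosure k := AlgEquiv.refl
  have hL : ∀ σ : Gal(AlgebraicClosure k/k),
      (∀ a : k, σ (algebraMap k _ a) = algebraMap k _ a) →
      ∀ x : Koe.fixF s k, s σ (algebraMap (Koe.fixF s k) M x) = algebraMap (Koe.fixF s k) M x :=
    fun σ hσ x => x.2 σ hσ
  have hres : ∀ (τ : Gal(AlgebraicClosure k/k)) (z : M), Koe.resS s e hL τ z = s τ z := by
    intro τ z
    rw [Koe.resS_apply]
    rfl
  have t2 : IsScalarTower k (Koe.fixF s k) M := IsScalarTower.of_algebraMap_eq fun a => rfl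
  have hLM : Algebra.IsAlgebraic (Koe.fixF s k) M :=
    Algebra.IsAlgebraic.tower_top (K := K) (Koe.fixF s k)
  have htr' : Algebra.trdeg k (Koe.fixF s k) = 1 := Koe.trdeg_fix (k := k) (K := K) (Ω := M) htr
  have hs' := Koe.resS_continuous s e hL hs
  have hsec' : ∀ (σ : Gal(AlgebraicClosure k/k)) (a : AlgebraicClosure k),
      Koe.resS s e hL σ (algebraMap (AlgebraicClosure k) M a) =
        algebraMap (AlgebraicClosure k) M (σ a) := by
    intro σ a
    rw [hres, hsec]
  have hmem : ∀ n, (Q.x n - algebraMap k M Q.e)⁻¹ ∈ Koe.fixF s k := by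
    intro n σ hσ
    rw [map_inv₀, map_sub, Q.fixx n σ hσ, IsScalarTower.algebraMap_apply k K M,
      (s σ).commutes]
  have key : ∀ fam : (∀ v : HeightOneSpectrum (𝓞 k),
      {p : (AlgebraicClosure k →ₐ[k] AlgebraicClosure (v.adicCompletion k)) ×
        (Σ A : ValuationSubring M, A →+* AlgebraicClosure (v.adicCompletion k)) //
        Sel.IsPlaceOf s (v.adicCompletion k)
          (p.1 : _ →+* AlgebraicClosure (v.adicCompletion k)) p.2.1 p.2.2}),
      (∃ e : k, ∀ v, ∃ h : Q.x 1 ∈ (fam v).1.2.1, (fam v).1.2.2 ⟨_, h⟩ =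
        (fam v).1.1 (algebraMap k _ e)) ∨
      ∀ v, Q.x 1 ∉ (fam v).1.2.1 := by
    intro fam
    obtain ⟨N, T, xv, hN, hxv, hxv1⟩ := orbit_values W Q (fun v => (fam v).1.1)
      (fun v => (fam v).1.2.1) (fun v => (fam v).1.2.2) (fun v => (fam v).2)
      (Module.finrank ℚ k)
    obtain ⟨t, ht⟩ : ∃ t : Koe.fixF s k, algebraMap (Koe.fixF s k) M t =
        (Q.x N - algebraMap k M Q.e)⁻¹ := ⟨⟨_, hmem N⟩, rfl⟩
    have hNe : Q.x N - algebraMap k M Q.e ≠ 0 := by
      intro h0
      apply Q.nonconst N (algebraMap k _ Q.e)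
      rw [← IsScalarTower.algebraMap_apply]
      exact sub_eq_zero.1 h0
    have htc : ∀ c : k, t ≠ algebraMap k (Koe.fixF s k) c := by
      intro c hc
      have h1 : (Q.x N - algebraMap k M Q.e)⁻¹ = algebraMap k M c := by
        rw [← ht, hc, ← IsScalarTower.algebraMap_apply]
      apply Q.nonconst N (algebraMap k _ (c⁻¹ + Q.e))
      rw [← IsScalarTower.algebraMap_apply, map_add, map_inv₀, ← h1, inv_inv]
      ring
    have hmpos : 0 < Module.finrank ℚ k := Module.finrank_pos
    obtain ⟨c, hc⟩ := const_of_enough.{u, u} htr' t htc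
      (fun j : Fin (Module.finrank ℚ k) => Q.P j) ⟨0, hmpos⟩ (Q.deg _)
      (enough_p Q.deg Q.coprime)
      (fun b hb hb' n hn => by
        rcases eq_or_ne b 0 with rfl | hb0
        · exact ⟨0, zero_pow (by omega)⟩
        refine hroot b hb0 (fun V hV => ?_) n hn
        have hVk : ∀ a : k, algebraMap k M a ∈ V := by
          intro a
          rw [IsScalarTower.algebraMap_apply k (AlgebraicClosure k) M]
          exact h𝒱 V hV _
        refine unit_of_poly hVk ?_ (fun j => ?_) hb0 hb hb'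
        · obtain ⟨-, h2, -⟩ := units_at W Q V (h𝒱 V hV) (hV0 V hV) (N := N) (j := 0) (by omega)
          rw [ht, ← V.valuation_le_one_iff, map_inv₀, h2, inv_one]
        · obtain ⟨-, -, h3⟩ := units_at W Q V (h𝒱 V hV) (hV0 V hV) (N := N) (j := j)
            (by have := j.2; omega)
          rw [← V.valuation_le_one_iff, map_inv₀, ← aeval_algebraMap_apply, ht, h3, inv_one])
      (Koe.resS s e hL) hs' hsec' (fun v => (fam v).1.1)
      (fun v => (fam v).1.2.1) (fun v => (fam v).1.2.2) (fun v => by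
        obtain ⟨g1, g2, g3⟩ := (fam v).2
        refine ⟨g1, g2, fun σ τ hστ z => ?_⟩
        obtain ⟨g4, g5⟩ := g3 σ τ hστ z
        refine ⟨by rw [hres]; exact g4, ?_⟩
        rw [← g5]
        congr 1) xv
      (fun v => by
        obtain ⟨g1, g2⟩ := hxv v
        refine ⟨by rw [ht]; exact g1, ?_⟩
        rw [← g2]
        congr 1
        exact Subtype.ext ht)
      (fun v j => (hxv1 v j j.2).1) T
      (fun v hv j => (hxv1 v j j.2).2 hv)
    exact value_back W Q (fun v => (fam v).1.1) (fun v => (fam v).1.2.1)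
      (fun v => (fam v).1.2.2) (fun v => (fam v).2) (N := N) (c := c)
      (fun v => by
        obtain ⟨g1, g2⟩ := hxv v
        refine ⟨g1, g2.trans ?_⟩
        rw [hc v, AlgHom.commutes, ← IsScalarTower.algebraMap_apply]) (n := 1) (by omega)
  choose ι₀ A₀ φ₀ hφ₀ using hloc
  have hmain := all_places (W := HeightOneSpectrum (𝓞 k)) (E := k)
    (fun v => by
      obtain ⟨w, hw⟩ := exists_notMem ({v} : Finset (HeightOneSpectrum (𝓞 k)))
      exact ⟨w, fun h => hw (Finset.mem_singleton.2 h)⟩)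
    (P := fun v => {p : (AlgebraicClosure k →ₐ[k] AlgebraicClosure (v.adicCompletion k)) ×
        (Σ A : ValuationSubring M, A →+* AlgebraicClosure (v.adicCompletion k)) //
        Sel.IsPlaceOf s (v.adicCompletion k)
          (p.1 : _ →+* AlgebraicClosure (v.adicCompletion k)) p.2.1 p.2.2})
    (fun v p e => ∃ h : Q.x 1 ∈ p.1.2.1, p.1.2.2 ⟨_, h⟩ = p.1.1 (algebraMap k _ e))
    (fun v p => Q.x 1 ∉ p.1.2.1)
    (fun v p e e' h h' => by
      obtain ⟨h1, h2⟩ := h
      obtain ⟨h3, h4⟩ := h'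
      exact (algebraMap k (AlgebraicClosure k)).injective
        ((p.1.1 : _ →+* AlgebraicClosure (v.adicCompletion k)).injective (h2.symm.trans h4)))
    (fun v p e h h' => h' h.1) key (fun v => ⟨(ι₀ v, ⟨A₀ v, φ₀ v⟩), hφ₀ v⟩)
  rcases hmain with ⟨e₀, he⟩ | h
  · exact Or.inl ⟨e₀, fun v ι A φ h => he v ⟨(ι, ⟨A, φ⟩), h⟩⟩
  · exact Or.inr fun v ι A φ h' => h v ⟨(ι, ⟨A, φ⟩), h'⟩

end Pool.Agent.Lib.MP_2f3286_ag.UA
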