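import Pool.Agent.Lib.MP_2f3286_ag.UA.T7
import Pool.Agent.Lib.MP_2f3286_ag.UA.X2
import Pool.Agent.Lib.MP_2f3286_ag.Pt.Division

/-!
# Y7: compatible `p`-divisible sequences

Copies of T7 and X2 with `p` for `2`.
-/

open WeierstrassCurve WeierstrassCurve.Affine WeierstrassCurve.Affine.Point
open IsDedekindDomain NumberField
open Pool.Agent.Lib.MP_2f3286_ag

namespace Pool.Agent.Lib.MP_2f3286_ag.UA

open scoped Classical in
/-- Every continuous 1-cocycle of the Galois group of `k` with values in the geometric points of the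
elliptic curve `W` which is killed by a power of `p` and trivial at every finite place becomes a
coboundary after multiplication by `p ^ j`. -/
def ShaKilledByPow {k : Type*} [Field k] [NumberField k] (W : WeierstrassCurve k) (p j : ℕ) :
    Prop :=
  ∀ c : Gal(AlgebraicClosure k/k) → (W⁄(AlgebraicClosure k)).Point, IsLocallyConstant c →
    (∀ σ τ, c (σ * τ) = c σ + Point.map (σ : AlgebraicClosure k →ₐ[k] AlgebraicClosure k) (c τ)) →
    (∃ n : ℕ, ∀ σ, p ^ n • c σ = 0) →
    (∀ v : HeightOneSpectrum (𝓞 k),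
      ∃ (ι : AlgebraicClosure k →ₐ[k] AlgebraicClosure (v.adicCompletion k))
        (b : (W⁄(AlgebraicClosure (v.adicCompletion k))).Point),
        ∀ (σ : Gal(AlgebraicClosure k/k))
          (τ : Gal(AlgebraicClosure (v.adicCompletion k)/(v.adicCompletion k))),
          (∀ a, ι (σ a) = τ (ι a)) → Point.map ι (c σ) =
            Point.map (τ : AlgebraicClosure (v.adicCompletion k) →ₐ[v.adicCompletion k]
              AlgebraicClosure (v.adicCompletion k)) b - b) →
    ∃ e : (W⁄(AlgebraicClosure k)).Point, ∀ σ : Gal(AlgebraicClosure k/k),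
      p ^ j • c σ = Point.map (σ : AlgebraicClosure k →ₐ[k] AlgebraicClosure k) e - e

theorem shaTwoKilledBy_iff {k : Type*} [Field k] [NumberField k] (W : WeierstrassCurve k)
    (j : ℕ) : ShaTwoKilledBy W j ↔ ShaKilledByPow W 2 j := Iff.rfl

/-- a sequence of `p`-th parts -/
theorem seq_of_div_p {A : Type*} [AddCommGroup A] {p : ℕ} (hp : p.Prime)
    (hfin : {a : A | p • a = 0}.Finite) (θ : A) (h : ∀ n : ℕ, ∃ ζ : A, p ^ n • ζ = θ) :
    ∃ ζ : ℕ → A, ζ 0 = θ ∧ ∀ n, p • ζ (n + 1) = ζ n := by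
  have step : ∀ a : A, (∀ n : ℕ, ∃ ζ : A, p ^ n • ζ = a) →
      ∃ b : A, (∀ n : ℕ, ∃ ζ : A, p ^ n • ζ = b) ∧ p • b = a := by
    intro a ha
    choose ζ hζ using ha
    have hB : ∀ n, p • (p ^ n • ζ (n + 1)) = a := by
      intro n
      rw [← mul_smul, ← pow_succ', hζ]
    have hBfin : {b : A | p • b = a}.Finite := by
      refine (hfin.image fun t => t + p ^ 0 • ζ (0 + 1)).subset ?_
      intro b hb
      refine ⟨b - p ^ 0 • ζ (0 + 1), ?_, by simp⟩
      rw [Set.mem_ofPred_eq] at hb ⊢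
      rw [smul_sub, hb, hB 0, sub_self]
    have := hBfin.to_subtype
    obtain ⟨b, hb⟩ := Finite.exists_infinite_fiber
      (fun n : ℕ => (⟨p ^ n • ζ (n + 1), hB n⟩ : {b : A | p • b = a}))
    refine ⟨b.1, fun m => ?_, b.2⟩
    obtain ⟨n, hn, hmn⟩ := (Set.infinite_coe_iff.1 hb).exists_gt m
    refine ⟨p ^ (n - m) • ζ (n + 1), ?_⟩
    have h1 : p ^ n • ζ (n + 1) = b.1 := congrArg Subtype.val hn
    rw [← mul_smul, ← pow_add, Nat.add_sub_cancel' hmn.le, h1]
  choose! f hf1 hf2 using step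
  refine ⟨fun n => f^[n] θ, rfl, fun n => ?_⟩
  have hd : ∀ n, ∀ m : ℕ, ∃ ζ : A, p ^ m • ζ = f^[n] θ := by
    intro n
    induction n with
    | zero => exact h
    | succ n ih =>
      rw [Function.iterate_succ_apply']
      exact hf1 _ ih
  show p • f^[n + 1] θ = f^[n] θ
  rw [Function.iterate_succ_apply']
  exact hf2 _ (hd n)

/-- the component of `p`-power order -/
private theorem p_part {A : Type*} [AddCommGroup A] {p : ℕ} (hp : p.Prime) (R : A)
    (h : IsOfFinAddOrder R) :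
    ∃ R' : A, (∃ m : ℕ, p ^ m • R' = 0) ∧ ∀ n : ℕ, ∃ D : A, R' - R = p ^ n • D := by
  obtain ⟨N, hN, hR⟩ := (isOfFinAddOrder_iff_nsmul_eq_zero).1 h
  obtain ⟨m, q, hq, rfl⟩ := Nat.exists_eq_pow_mul_and_not_dvd hN.ne' p hp.ne_one
  have hcop : ∀ n : ℕ, IsCoprime ((p : ℤ) ^ n) (q : ℤ) := by
    intro n
    have h1 := (Nat.isCoprime_iff_coprime (m := p ^ n) (n := q)).2
      (((Nat.Prime.coprime_iff_not_dvd hp).2 hq).pow_left n)
    push_cast at h1
    exact h1
  have hz : ∀ z : ℤ, (z * ((p : ℤ) ^ m * q)) • R = 0 := by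
    intro z
    rw [mul_smul]
    have h1 : (((p : ℤ) ^ m * q : ℤ)) • R = 0 := by
      have h2 : ((p ^ m * q : ℕ) : ℤ) • R = 0 := by rw [natCast_zsmul, hR]
      push_cast at h2
      exact h2
    rw [h1, smul_zero]
  obtain ⟨u, v, huv⟩ := hcop m
  refine ⟨(v * q : ℤ) • R, ⟨m, ?_⟩, fun n => ?_⟩
  · rw [← natCast_zsmul, smul_smul]
    have h1 : (((p ^ m : ℕ) : ℤ) * (v * q)) = v * ((p : ℤ) ^ m * q) := by
      push_cast
      ring
    rw [h1, hz]
  · obtain ⟨a, b, hab⟩ := hcop n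
    refine ⟨(-(a * (u * (p : ℤ) ^ m)) : ℤ) • R, ?_⟩
    rw [← natCast_zsmul, smul_smul]
    have h1 : (((p ^ n : ℕ) : ℤ) * (-(a * (u * (p : ℤ) ^ m)))) =
        (v * q - 1) + (b * u) * ((p : ℤ) ^ m * q) := by
      push_cast
      linear_combination (-(u * (p : ℤ) ^ m) : ℤ) * hab - huv
    rw [h1, add_smul, hz, add_zero, sub_smul, one_smul]

variable {k : Type*} [Field k] [NumberField k] {K M : Type*} [Field K] [Field M] [Algebra K M]
  [Algebra (AlgebraicClosure k) M] {s : Gal(AlgebraicClosure k/k) →* Gal(M/K)}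
  [Algebra k K] [Algebra k M] [IsScalarTower k K M] [IsScalarTower k (AlgebraicClosure k) M]

open Pool.Agent.Lib.MP_2f3286_ag.Top (LocalPoint IsClass kummer_class) in
open scoped Classical in
/-- one rational point of `p`-power order for all classes modulo powers of `p` -/
private theorem exists_class_p (W : WeierstrassCurve k) [W.IsElliptic] [Algebra.IsAlgebraic K M]
    {p : ℕ} (hp : p.Prime) (hs : Continuous s)
    (hsec : ∀ σ a, s σ (algebraMap (AlgebraicClosure k) M a) =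
      algebraMap (AlgebraicClosure k) M (σ a))
    (x : ∀ v : HeightOneSpectrum (𝓞 k), LocalPoint s v)
    (hrk : ∀ Q : (W⁄k).Point, IsOfFinAddOrder Q)
    {j : ℕ} (hsha : ShaKilledByPow W p j) (η : (W⁄K).Point)
    (hdiv : ∀ n : ℕ, ∃ T : (W⁄M).Point, p ^ n • T = baseChange K M η) :
    ∃ R : (W⁄k).Point, (∃ m : ℕ, p ^ m • R = 0) ∧ ∀ n : ℕ, IsClass s W (p ^ n) η R := by
  have hp0 : ∀ n : ℕ, 0 < p ^ n := fun n => Nat.pow_pos hp.pos
  -- one level
  have hone : ∀ n : ℕ, ∃ R : (W⁄k).Point, IsClass s W (p ^ n) η R := by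
    intro n
    obtain ⟨T, hT⟩ := hdiv (n + j)
    rw [pow_add] at hT
    obtain ⟨c, hc1, hc2, hc3⟩ := Koe.exists_cocycle₀ s hs hsec
      (Nat.mul_pos (hp0 n) (hp0 j)) η T hT
    obtain ⟨e, he⟩ := hsha c hc3 hc2 (by
        refine ⟨n + j, fun σ => ?_⟩
        apply Top.bc_injective (W := W) (AlgebraicClosure k) M
        rw [map_nsmul, hc1, pow_add, smul_sub, ← map_nsmul, hT, _root_.map_zero, sub_eq_zero]
        exact Top.act_baseChange (s σ) η) (by
      intro v
      refine ⟨(x v).ι, (x v).isPlaceOf.val s T, fun σ τ h => ?_⟩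
      rw [← (x v).isPlaceOf.val_const s, hc1, map_sub, (x v).isPlaceOf.val_act s σ τ h])
    exact kummer_class s hsec η T hT c hc1 e he
  have hfin : Finite (W⁄k).Point := by
    have h := Top.torsion_finite (W := (W⁄k))
    rw [Set.eq_univ_of_forall (s := {t : (W⁄k).Point | IsOfFinAddOrder t}) hrk] at h
    exact Set.finite_univ_iff.mp h
  have hall : ∃ R : (W⁄k).Point, ∀ n : ℕ, IsClass s W (p ^ n) η R := by
    by_contra hcon
    push Not at hcon
    choose N hN using hcon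
    have := Fintype.ofFinite (W⁄k).Point
    obtain ⟨R, hR⟩ := hone (∑ R : (W⁄k).Point, N R)
    have hle : N R ≤ ∑ R : (W⁄k).Point, N R :=
      Finset.single_le_sum (fun _ _ => Nat.zero_le _) (Finset.mem_univ R)
    rw [← Nat.add_sub_cancel' hle, pow_add] at hR
    exact hN R (Top.IsClass.of_mul s hR)
  obtain ⟨R, hR⟩ := hall
  obtain ⟨R', hR', hD⟩ := p_part hp R (hrk R)
  refine ⟨R', hR', fun n => ?_⟩
  obtain ⟨D, hD⟩ := hD n
  exact Top.IsClass.congr s (hR n) hD

open scoped Classical in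
/-- **Compatible sequences, fixed by the section.** -/
theorem exists_seq_p (W : WeierstrassCurve k) [W.IsShortNF] [W.IsElliptic]
    [Algebra.IsAlgebraic K M] {p : ℕ} (hp : p.Prime) (hs : Continuous s)
    (hsec : ∀ σ a, s σ (algebraMap (AlgebraicClosure k) M a) =
      algebraMap (AlgebraicClosure k) M (σ a))
    (hloc : ∀ v : HeightOneSpectrum (𝓞 k),
      ∃ (ι : AlgebraicClosure k →ₐ[k] AlgebraicClosure (v.adicCompletion k))
        (A : ValuationSubring M) (φ : A →+* AlgebraicClosure (v.adicCompletion k)),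
        Sel.IsPlaceOf s (v.adicCompletion k)
          (ι : _ →+* AlgebraicClosure (v.adicCompletion k)) A φ)
    (hrk : ∀ Q : (W⁄k).Point, IsOfFinAddOrder Q)
    {j : ℕ} (hsha : ShaKilledByPow W p j) (η : (W⁄K).Point)
    (hdiv : ∀ n : ℕ, ∃ T : (W⁄M).Point, p ^ n • T = baseChange K M η) :
    ∃ (Q : (W⁄k).Point) (ζ : ℕ → (W⁄M).Point), (∃ m : ℕ, p ^ m • Q = 0) ∧
      (∀ n σ, Top.act W (s σ) (ζ n) = ζ n) ∧ (∀ n, p • ζ (n + 1) = ζ n) ∧
      ζ 0 = baseChange K M η - baseChange k M Q := by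
  choose ι A φ hφ using hloc
  obtain ⟨R, hR0, hR⟩ := exists_class_p W hp hs hsec
    (fun v => Top.LocalPoint.ofPlace (ι v) (A v) (φ v) (hφ v)) hrk hsha η hdiv
  let G : AddSubgroup (W⁄M).Point :=
    { carrier := {ζ | ∀ σ, Top.act W (s σ) ζ = ζ}
      zero_mem' := fun σ => _root_.map_zero _
      add_mem' := by
        intro a b ha hb σ
        rw [map_add, ha, hb]
      neg_mem' := by
        intro a ha σ
        rw [map_neg, ha] }
  have hθ : baseChange K M η - baseChange k M R ∈ G := by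
    intro σ
    rw [map_sub, Top.act_baseChange, ← Top.bc_bc (F := K) (L := M), Top.act_baseChange]
  have hfk : Finite (W⁄k).Point := by
    have h := Top.torsion_finite (W := (W⁄k))
    rw [Set.eq_univ_of_forall (s := {t : (W⁄k).Point | IsOfFinAddOrder t}) hrk] at h
    exact Set.finite_univ_iff.mp h
  have hfin : {a : G | p • a = 0}.Finite := by
    refine Set.Finite.of_finite_image ((Set.finite_range
      (baseChange k M : (W⁄k).Point →+ (W⁄M).Point)).subset ?_) (Subtype.val_injective.injOn)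
    rintro _ ⟨a, ha, rfl⟩
    have h1 : p • (a : (W⁄M).Point) = 0 := congrArg (Subtype.val : G → _) ha
    obtain ⟨a', ha'⟩ := Pt.Div.descend (kb := AlgebraicClosure k) (M := M) hp.one_le
      (a : (W⁄M).Point) 0 (by rw [h1, _root_.map_zero])
    obtain ⟨Q, hQ⟩ := Top.exists_of_fixed_const s hsec a' (by
      intro σ
      rw [ha']
      exact a.2 σ)
    exact ⟨Q, by rw [← ha', ← hQ, Top.bc_bc]⟩
  obtain ⟨ζ, h0, h1⟩ := seq_of_div_p hp hfin ⟨_, hθ⟩ (by
    intro n
    obtain ⟨z, hz1, hz2⟩ := hR n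
    exact ⟨⟨z, hz1⟩, Subtype.ext hz2⟩)
  refine ⟨R, fun n => (ζ n : (W⁄M).Point), hR0, fun n σ => (ζ n).2 σ, fun n => ?_, ?_⟩
  · exact congrArg (Subtype.val : G → _) (h1 n)
  · show ((ζ 0 : G) : (W⁄M).Point) = _
    rw [h0]

end Pool.Agent.Lib.MP_2f3286_ag.UA
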