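import Pool.Agent.Lib.MP_2f3286_ag.HYP.CvUniq

/-!
# Z1: a section is the section of at most one place at which a unit `u` in `M` has a pole   (helper73)

Copy of `cusp_gen` (Uq.lean, helper42), with a unit `u` of `M` in place of a unit of `K`: the section fixes `u` on an open subgroup.
-/

open Polynomial IntermediateField IsDedekindDomain NumberField
open scoped Pointwise

namespace Pool.Agent.Lib.MP_2f3286_ag.UA

open Pool.Agent.Lib.MP_2f3286_ag.HYP
open Pool.Agent.Lib.MP_2f3286_ag.Full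

universe u

/-- **A section is the section of at most one place at which the unit `u` of `M` has a pole**, if the
automorphisms which fix the roots of `u` and preserve the values of the units fix `K`. -/
theorem cusp_gen_u {k : Type u} [Field k] [NumberField k]
    {K : Type*} [Field K] [Algebra k K] {x : K} (hx : Transcendental k x)
    [FiniteDimensional (adjoin k {x}) K]
    (R : Subalgebra k K)
    {M : Type*} [Field M] [Algebra K M] [IsGalois K M]
    [Algebra (AlgebraicClosure k) M] [Algebra k M]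
    [IsScalarTower k K M] [IsScalarTower k (AlgebraicClosure k) M]
    (hmax : Pt.IsRadClosed R M (AlgebraicClosure k))
    (hfree : ∀ A ≤ geomGroup K M (AlgebraicClosure k),
      OpenIn (geomGroup K M (AlgebraicClosure k)) A → ∀ (ℓ : ℕ) [Fact ℓ.Prime],
      Finite (A →ₜ* Multiplicative (ZMod ℓ)) ∧
      ∀ f : A →ₜ* Multiplicative (ZMod ℓ), ∃ F : A →ₜ* Multiplicative ℤ_[ℓ], ∀ a,
        PadicInt.toZMod (F a).toAdd = (f a).toAdd)
    {s : Gal(AlgebraicClosure k/k) →* Gal(M/K)} (hs : Continuous s)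
    (hsec : ∀ σ a, s σ (algebraMap (AlgebraicClosure k) M a) =
      algebraMap (AlgebraicClosure k) M (σ a))
    {Δ : Subgroup Gal(AlgebraicClosure k/k)} (hΔ : IsOpen (Δ : Set Gal(AlgebraicClosure k/k)))
    {W₀ W₁ : ValuationSubring M} (h₀ : ∀ a, algebraMap (AlgebraicClosure k) M a ∈ W₀)
    (h₁ : ∀ a, algebraMap (AlgebraicClosure k) M a ∈ W₁)
    {u : M} (hut : Transcendental (AlgebraicClosure k) u) (hui : IsIntegral R u)
    (hui' : IsIntegral R u⁻¹) (hu₀ : u ∉ W₀) (hu₁ : u ∉ W₁)
    (hΔ₀ : ∀ σ ∈ Δ, ∀ z : M, z ∈ W₀ ↔ s σ z ∈ W₀) (hΔ₁ : ∀ σ ∈ Δ, ∀ z : M, z ∈ W₁ ↔ s σ z ∈ W₁)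
    (hgen : ∀ γ : AlgebraicClosure M ≃+* AlgebraicClosure M,
      (∀ c : AlgebraicClosure k, γ (algebraMap _ (AlgebraicClosure M) c) = algebraMap _ _ c) →
      (∀ (n : ℕ) (δ : M), 0 < n → δ ^ n = u →
        γ (algebraMap M (AlgebraicClosure M) δ) = algebraMap M (AlgebraicClosure M) δ) →
      (∀ z z' : M, γ (algebraMap M (AlgebraicClosure M) z) = algebraMap M (AlgebraicClosure M) z' →
        (z ∈ W₁ ↔ z' ∈ W₀)) →
      (∀ ρ : M, IsIntegral R ρ → IsIntegral R ρ⁻¹ → ρ ∈ W₀ → ρ⁻¹ ∈ W₀ → ρ ∈ W₁ → ρ⁻¹ ∈ W₁ →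
        ρ ≠ 0 → γ (algebraMap M (AlgebraicClosure M) ρ) ≠ -algebraMap M (AlgebraicClosure M) ρ) →
      ∀ z : K, γ (algebraMap K (AlgebraicClosure M) z) = algebraMap K (AlgebraicClosure M) z) :
    W₁ = W₀ := by
  classical
  have hK0 : CharZero K := charZero_of_injective_algebraMap (algebraMap k K).injective
  have hM0 : CharZero M := charZero_of_injective_algebraMap (algebraMap K M).injective
  have hΩ0 : CharZero (AlgebraicClosure M) :=
    charZero_of_injective_algebraMap (algebraMap M _).injective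
  have halg : Algebra.IsAlgebraic K (AlgebraicClosure M) := Algebra.IsAlgebraic.trans K M _
  have htr : Algebra.trdeg k (AlgebraicClosure M) = 1 :=
    trdeg_top (K := K) (Full.trdeg_of_finite hx)
  have htr' : Algebra.trdeg (AlgebraicClosure k) (AlgebraicClosure M) = 1 := by
    have h1 := lift_trdeg_add_eq k (AlgebraicClosure k) (AlgebraicClosure M)
    rw [htr, trdeg_eq_zero (R := k) (A := AlgebraicClosure k)] at h1
    simp only [Cardinal.lift_one, Cardinal.lift_zero, zero_add] at h1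
    exact Cardinal.lift_eq_one.mp h1
  have htow : IsScalarTower R K M := IsScalarTower.of_algebraMap_eq fun r => rfl
  have hxM : Transcendental (AlgebraicClosure k) (algebraMap K M x) :=
    Pt.PTAux.transc (k := k) x hx
  have halgM : ∀ z : M, IsAlgebraic
      (adjoin (AlgebraicClosure k) {algebraMap K M x}) z := Full.isAlgebraic_M (k := k) x
  have htrM : Algebra.trdeg (AlgebraicClosure k) M = 1 := by
    have h1 := lift_trdeg_add_eq (AlgebraicClosure k) M (AlgebraicClosure M)
    rw [htr', trdeg_eq_zero (R := M) (A := AlgebraicClosure M)] at h1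
    simp only [Cardinal.lift_one, Cardinal.lift_zero, add_zero] at h1
    exact Cardinal.lift_eq_one.mp h1
  have halgU : ∀ z : M, IsAlgebraic (adjoin (AlgebraicClosure k) {u}) z := fun z =>
    Top.isAlgebraic_of_trdeg htrM hut z
  -- the residue maps
  have hres : ∀ W : ValuationSubring M, (∀ a, algebraMap (AlgebraicClosure k) M a ∈ W) →
      u ∉ W → ∀ z ∈ W, ∃ c : AlgebraicClosure k,
        W.valuation (z - algebraMap (AlgebraicClosure k) M c) < 1 := by
    intro W hW hxW z hz
    exact Pt.MaxOver.residue_const _ hxM halgM W hW (fun h => hxW (by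
      rw [h]; exact ValuationSubring.mem_top _)) z hz
  obtain ⟨ψ₀, hO₀, hR₀, hψ₀⟩ := exists_res W₀ h₀ (hres W₀ h₀ hu₀) hsec hΔ₀
  obtain ⟨ψ₁, hO₁, hR₁, hψ₁⟩ := exists_res W₁ h₁ (hres W₁ h₁ hu₁) hsec hΔ₁
  -- the automorphism of the algebraic closure
  obtain ⟨V₀, hV₀⟩ := Pt.MaxOver.exists_ext_val (Ω := AlgebraicClosure M) W₀
  obtain ⟨V₁, hV₁⟩ := Pt.MaxOver.exists_ext_val (Ω := AlgebraicClosure M) W₁
  have hm₀ : ∀ z : M, z ∈ W₀ ↔ algebraMap M (AlgebraicClosure M) z ∈ V₀ := fun z => by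
    rw [← hV₀]; rfl
  have hm₁ : ∀ z : M, z ∈ W₁ ↔ algebraMap M (AlgebraicClosure M) z ∈ V₁ := fun z => by
    rw [← hV₁]; rfl
  have hut' : Transcendental (AlgebraicClosure k) (algebraMap M (AlgebraicClosure M) u) := by
    intro h
    exact hut ((isAlgebraic_algebraMap_iff (algebraMap M (AlgebraicClosure M)).injective).1 h)
  obtain ⟨γ, hγ⟩ := plc_trans htr' hut' (W₁ := V₀) (W₂ := V₁)
    (fun c => by
      rw [IsScalarTower.algebraMap_apply (AlgebraicClosure k) M (AlgebraicClosure M), ← hm₀]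
      exact h₀ c)
    (fun c => by
      rw [IsScalarTower.algebraMap_apply (AlgebraicClosure k) M (AlgebraicClosure M), ← hm₁]
      exact h₁ c)
    (fun h => hu₀ ((hm₀ _).2 h)) (fun h => hu₁ ((hm₁ _).2 h))
  have hγk : ∀ c : AlgebraicClosure k, γ (algebraMap _ (AlgebraicClosure M) c) =
      algebraMap _ (AlgebraicClosure M) c := fun c => γ.commutes ⟨_,
        IntermediateField.algebraMap_mem (rootField (AlgebraicClosure k)
          (algebraMap M (AlgebraicClosure M) u)) c⟩
  have hγr : ∀ (n : ℕ) (δ : M), 0 < n → δ ^ n = u →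
      γ (algebraMap M (AlgebraicClosure M) δ) = algebraMap M (AlgebraicClosure M) δ := by
    intro n δ hn hδ
    have h5 : algebraMap M (AlgebraicClosure M) δ ∈ rootField (AlgebraicClosure k)
        (algebraMap M (AlgebraicClosure M) u) := by
      refine subset_adjoin _ _ ⟨n, hn, ?_⟩
      rw [← map_pow, hδ]
    exact γ.commutes ⟨_, h5⟩
  -- the units
  have hγρ : ∀ ρ : M, IsIntegral R ρ → IsIntegral R ρ⁻¹ → ρ ∈ W₀ → ρ⁻¹ ∈ W₀ → ρ ∈ W₁ →
      ρ⁻¹ ∈ W₁ → ρ ≠ 0 →
      γ (algebraMap M (AlgebraicClosure M) ρ) ≠ -algebraMap M (AlgebraicClosure M) ρ := by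
    intro T hTi hTi' hT₀ hT₀' hT₁ hT₁' hT0 hγT
    have hagree := unit_agree hs hΔ hO₀ hO₁ hR₀ hR₁ hT0
      (fun n hn => Full.root_of_unit hmax T hTi hTi' n hn) hT₀ hT₀' hT₁ hT₁'
    set c₀ := ψ₀ ⟨T, hT₀⟩ with hc₀
    have e₀ : (T - algebraMap (AlgebraicClosure k) M c₀)⁻¹ ∉ W₀ ∨
        T - algebraMap (AlgebraicClosure k) M c₀ = 0 := by
      have h3 := hψ₀ ⟨T, hT₀⟩
      rw [Full.val_lt_one_iff] at h3
      exact h3.symm
    have e₁ : (T - algebraMap (AlgebraicClosure k) M c₀)⁻¹ ∉ W₁ ∨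
        T - algebraMap (AlgebraicClosure k) M c₀ = 0 := by
      have h3 := hψ₁ ⟨T, hT₁⟩
      rw [hagree, Full.val_lt_one_iff] at h3
      exact h3.symm
    have hTc : γ (algebraMap M (AlgebraicClosure M) (T - algebraMap (AlgebraicClosure k) M c₀)) =
        algebraMap M (AlgebraicClosure M) (-T - algebraMap (AlgebraicClosure k) M c₀) := by
      have e5 : algebraMap M (AlgebraicClosure M) (T - algebraMap (AlgebraicClosure k) M c₀) =
          algebraMap M (AlgebraicClosure M) T -
            algebraMap (AlgebraicClosure k) (AlgebraicClosure M) c₀ := by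
        rw [map_sub, ← IsScalarTower.algebraMap_apply]
      have e6 : algebraMap M (AlgebraicClosure M) (-T - algebraMap (AlgebraicClosure k) M c₀) =
          -algebraMap M (AlgebraicClosure M) T -
            algebraMap (AlgebraicClosure k) (AlgebraicClosure M) c₀ := by
        rw [map_sub, map_neg, ← IsScalarTower.algebraMap_apply]
      rw [e5, e6]
      refine (map_sub γ _ _).trans ?_
      rw [hγT, hγk]
    have e₂ : W₀.valuation (-T - algebraMap (AlgebraicClosure k) M c₀) < 1 := by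
      rw [Full.val_lt_one_iff]
      rcases e₁ with h3 | h3
      · right
        intro h4
        apply h3
        rw [hm₁, hγ]
        have h5 : γ (algebraMap M (AlgebraicClosure M)
            (T - algebraMap (AlgebraicClosure k) M c₀)⁻¹) = algebraMap M (AlgebraicClosure M)
              (-T - algebraMap (AlgebraicClosure k) M c₀)⁻¹ := by
          rw [map_inv₀ (algebraMap M (AlgebraicClosure M)), map_inv₀ γ, hTc,
            map_inv₀ (algebraMap M (AlgebraicClosure M))]
        rw [h5, ← hm₀]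
        exact h4
      · left
        apply (algebraMap M (AlgebraicClosure M)).injective
        rw [← hTc, h3, map_zero (algebraMap M (AlgebraicClosure M)), map_zero γ]
    have e₃ : W₀.valuation (T - algebraMap (AlgebraicClosure k) M c₀) < 1 := hψ₀ ⟨T, hT₀⟩
    have e₄ : W₀.valuation (algebraMap (AlgebraicClosure k) M 2 * T) < 1 := by
      have h3 : algebraMap (AlgebraicClosure k) M 2 * T =
          (T - algebraMap (AlgebraicClosure k) M c₀) -
            (-T - algebraMap (AlgebraicClosure k) M c₀) := by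
        rw [map_ofNat]; ring
      rw [h3]
      exact W₀.valuation.map_sub_lt e₃ e₂
    have e₅ : W₀.valuation T = 1 := by
      refine le_antisymm ((W₀.valuation_le_one_iff _).2 hT₀) ?_
      have h6 : W₀.valuation T⁻¹ ≤ 1 := (W₀.valuation_le_one_iff _).2 hT₀'
      by_contra h7
      rw [Full.val_lt_one_iff] at e₄
      have h8 : W₀.valuation T < 1 := not_le.1 h7
      rw [Full.val_lt_one_iff] at h8
      rcases h8 with h8 | h8
      · exact hT0 h8
      · exact h8 hT₀'
    rw [map_mul, Gen.val_const W₀ h₀ two_ne_zero, one_mul, e₅] at e₄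
    exact lt_irrefl _ e₄
  have hγK : ∀ z : K, γ (algebraMap K (AlgebraicClosure M) z) =
      algebraMap K (AlgebraicClosure M) z :=
    hgen (γ : AlgebraicClosure M ≃+* AlgebraicClosure M) hγk hγr
      (fun z z' hzz' => by
        rw [hm₁, hγ, hm₀, ← hzz']
        rfl) hγρ
  let γ' : Gal(AlgebraicClosure M/K) :=
    AlgEquiv.ofRingEquiv (f := (γ : AlgebraicClosure M ≃+* AlgebraicClosure M)) hγK
  let v : Gal(M/K) := AlgEquiv.restrictNormal γ' M
  have hv : ∀ z : M, algebraMap M (AlgebraicClosure M) (v z) =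
      γ (algebraMap M (AlgebraicClosure M) z) := fun z =>
    AlgEquiv.restrictNormal_commutes γ' M z
  have hvk : ∀ c : AlgebraicClosure k, v (algebraMap _ M c) = algebraMap _ M c := by
    intro c
    apply (algebraMap M (AlgebraicClosure M)).injective
    have e : algebraMap M (AlgebraicClosure M) (algebraMap (AlgebraicClosure k) M c) =
        algebraMap (AlgebraicClosure k) (AlgebraicClosure M) c :=
      (IsScalarTower.algebraMap_apply (AlgebraicClosure k) M (AlgebraicClosure M) c).symm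
    rw [hv, e, hγk]
  have hvr : ∀ (n : ℕ) (δ : M), 0 < n → δ ^ n = u → v δ = δ := by
    intro n δ hn hδ
    apply (algebraMap M (AlgebraicClosure M)).injective
    rw [hv, hγr n δ hn hδ]
  have hvW : ∀ z : M, z ∈ W₁ ↔ v z ∈ W₀ := by
    intro z
    rw [hm₁, hγ, ← hv, ← hm₀]
  -- `v` commutes with the section on an open subgroup
  have huK : IsIntegral K u := (Algebra.IsAlgebraic.isAlgebraic (R := K) u).isIntegral
  have hfinu : FiniteDimensional K K⟮u⟯ := adjoin.finiteDimensional huK
  let St : Subgroup Gal(AlgebraicClosure k/k) :=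
    (K⟮u⟯ : IntermediateField K M).fixingSubgroup.comap s
  have hSt : IsOpen (St : Set Gal(AlgebraicClosure k/k)) :=
    (IntermediateField.fixingSubgroup_isOpen (K⟮u⟯ : IntermediateField K M)).preimage hs
  have hStu : ∀ σ ∈ St, s σ u = u := by
    intro σ hσ
    have h7 : s σ ∈ (K⟮u⟯ : IntermediateField K M).fixingSubgroup := hσ
    rw [IntermediateField.mem_fixingSubgroup_iff] at h7
    exact h7 u (IntermediateField.mem_adjoin_simple_self _ _)
  have hcomm : ∀ σ ∈ Δ ⊓ St, v * s σ = s σ * v := by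
    rintro σ ⟨hσ, hσ'⟩
    have hsu : s σ u = u := hStu σ hσ'
    have key := eq_one_of_fix W₀ h₀ hu₀ halgU (hres W₀ h₀ hu₀)
      (fun n hn => Full.root_of_unit hmax u hui hui' n hn)
      (v * s σ * v⁻¹ * (s σ)⁻¹)
      (fun c => by
        rw [AlgEquiv.mul_apply, AlgEquiv.mul_apply, AlgEquiv.mul_apply]
        have h1 : (s σ)⁻¹ (algebraMap _ M c) = algebraMap _ M (σ⁻¹ c) := by
          rw [← map_inv]; exact hsec σ⁻¹ c
        have h2 : v⁻¹ (algebraMap _ M (σ⁻¹ c)) = algebraMap _ M (σ⁻¹ c) := by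
          have h3 : v⁻¹ (v (algebraMap _ M (σ⁻¹ c))) = algebraMap _ M (σ⁻¹ c) :=
            v.symm_apply_apply _
          rwa [hvk] at h3
        rw [h1, h2, hsec, hvk]
        congr 1
        exact σ.apply_symm_apply c)
      (fun n δ hn hδ => by
        rw [AlgEquiv.mul_apply, AlgEquiv.mul_apply, AlgEquiv.mul_apply]
        have h1 : ((s σ)⁻¹ δ) ^ n = u := by
          have h4 : (s σ)⁻¹ u = u := by
            have h5 : (s σ)⁻¹ (s σ u) = u :=
              (s σ).symm_apply_apply _
            rwa [hsu] at h5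
          rw [← map_pow, hδ, h4]
        have h2 : v⁻¹ ((s σ)⁻¹ δ) = (s σ)⁻¹ δ := by
          have h3 : v⁻¹ (v ((s σ)⁻¹ δ)) = (s σ)⁻¹ δ := v.symm_apply_apply _
          rwa [hvr n _ hn h1] at h3
        have h6 : s σ ((s σ)⁻¹ δ) = δ := (s σ).apply_symm_apply δ
        rw [h2, h6, hvr n δ hn hδ])
      (fun z => by
        rw [AlgEquiv.mul_apply, AlgEquiv.mul_apply, AlgEquiv.mul_apply, ← hvW, ← hΔ₁ σ hσ, hvW]
        have h3 : v (v⁻¹ ((s σ)⁻¹ z)) = (s σ)⁻¹ z := v.apply_symm_apply _
        rw [h3, hΔ₀ σ hσ]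
        have h6 : s σ ((s σ)⁻¹ z) = z := (s σ).apply_symm_apply z
        rw [h6])
    have h1 : v * s σ * v⁻¹ = s σ := mul_inv_eq_one.mp key
    exact mul_inv_eq_iff_eq_mul.mp h1
  have hv1 : v = 1 := cent_sub x hx hfree s hsec (Δ ⊓ St) (hΔ.inter hSt) v hvk hcomm
  ext z
  rw [hvW, hv1, AlgEquiv.one_apply]

end Pool.Agent.Lib.MP_2f3286_ag.UA
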