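import Pool.Agent.Lib.MP_2f3286_ag.UA.Z1

/-!
# Z2: a section is the section of at most one place above infinity, `x` and `y` in `M`   (helper73)

The statement of `HYP.cusp_unique` with `x`, `y` in `M`, not fixed by the section.
-/

open Polynomial IntermediateField IsDedekindDomain NumberField
open scoped Pointwise

namespace Pool.Agent.Lib.MP_2f3286_ag.UA

open Pool.Agent.Lib.MP_2f3286_ag.HYP
open Pool.Agent.Lib.MP_2f3286_ag.Full

universe u

/-- **A section is the section of at most one place at which `x` has a pole.** -/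
theorem cusp_unique_M {k : Type u} [Field k] [NumberField k]
    {K : Type*} [Field K] [Algebra k K] {t : K} (ht : Transcendental k t)
    [FiniteDimensional (adjoin k {t}) K]
    (R : Subalgebra k K)
    {M : Type*} [Field M] [Algebra K M] [IsGalois K M]
    [Algebra (AlgebraicClosure k) M] [Algebra k M]
    [IsScalarTower k K M] [IsScalarTower k (AlgebraicClosure k) M]
    (hmax : Pt.IsRadClosed R M (AlgebraicClosure k))
    (hfree : ∀ A ≤ geomGroup K M (AlgebraicClosure k),
      OpenIn (geomGroup K M (AlgebraicClosure k)) A → ∀ (ℓ : ℕ) [Fact ℓ.Prime],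
      Finite (A →ₜ* Multiplicative (ZMod ℓ)) ∧
      ∀ f : A →ₜ* Multiplicative (ZMod ℓ), ∃ F : A →ₜ* Multiplicative ℤ_[ℓ], ∀ a,
        PadicInt.toZMod (F a).toAdd = (f a).toAdd)
    {s : Gal(AlgebraicClosure k/k) →* Gal(M/K)} (hs : Continuous s)
    (hsec : ∀ σ a, s σ (algebraMap (AlgebraicClosure k) M a) =
      algebraMap (AlgebraicClosure k) M (σ a))
    {Δ : Subgroup Gal(AlgebraicClosure k/k)} (hΔ : IsOpen (Δ : Set Gal(AlgebraicClosure k/k)))
    {W₀ W₁ : ValuationSubring M} (h₀ : ∀ a, algebraMap (AlgebraicClosure k) M a ∈ W₀)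
    (h₁ : ∀ a, algebraMap (AlgebraicClosure k) M a ∈ W₁)
    {f : (AlgebraicClosure k)[X]} (hf : f.Monic) {g : ℕ} (hfd : f.natDegree = 2 * g + 1)
    {x y : M} (hxt : Transcendental (AlgebraicClosure k) x) (hxy : y ^ 2 = aeval x f)
    (hK : ∀ z : K, algebraMap K M z ∈ adjoin (AlgebraicClosure k) {x, y})
    (hxR : IsIntegral R x) (hyR : IsIntegral R y) (hyR' : IsIntegral R y⁻¹)
    (hx₀ : x ∉ W₀) (hx₁ : x ∉ W₁)
    (hΔ₀ : ∀ σ ∈ Δ, ∀ z : M, z ∈ W₀ ↔ s σ z ∈ W₀) (hΔ₁ : ∀ σ ∈ Δ, ∀ z : M, z ∈ W₁ ↔ s σ z ∈ W₁) :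
    W₁ = W₀ := by
  classical
  have hK0 : CharZero K := charZero_of_injective_algebraMap (algebraMap k K).injective
  have hM0 : CharZero M := charZero_of_injective_algebraMap (algebraMap K M).injective
  have htow : IsScalarTower R K M := IsScalarTower.of_algebraMap_eq fun r => rfl
  -- the root
  obtain ⟨a₁, ha₁⟩ := IsAlgClosed.exists_root f (by
    rw [degree_eq_natDegree hf.ne_zero, hfd]
    exact_mod_cast (by omega : 2 * g + 1 ≠ 0))
  obtain ⟨q, hq⟩ := dvd_iff_isRoot.mpr ha₁
  set a : M := algebraMap (AlgebraicClosure k) M a₁ with ha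
  set u : M := x - a with hu
  have hyM : y ^ 2 = u * aeval x q := by
    rw [hxy]
    conv_lhs => rw [hq]
    rw [map_mul, map_sub, aeval_X, aeval_C]
  have hy0 : y ≠ 0 := by
    intro h
    rw [h, zero_pow two_ne_zero] at hxy
    exact hxt ⟨f, hf.ne_zero, hxy.symm⟩
  have hu0 : u ≠ 0 := by
    intro h
    rw [h, zero_mul] at hyM
    exact hy0 (pow_eq_zero_iff two_ne_zero |>.1 hyM)
  have hBk : ∀ c : AlgebraicClosure k, IsIntegral R (algebraMap (AlgebraicClosure k) M c) :=
    Pt.integral_const R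
  have hui : IsIntegral R u := hxR.sub (hBk a₁)
  have hui' : IsIntegral R u⁻¹ := by
    have h1 : u⁻¹ = aeval x q * y⁻¹ ^ 2 := by
      apply inv_eq_of_mul_eq_one_right
      rw [← mul_assoc, ← hyM, ← mul_pow, mul_inv_cancel₀ hy0, one_pow]
    rw [h1]
    refine IsIntegral.mul ?_ (IsIntegral.pow hyR' 2)
    rw [aeval_eq_sum_range]
    refine IsIntegral.sum _ fun i _ => ?_
    rw [Algebra.smul_def]
    exact (hBk _).mul (hxR.pow i)
  -- the root of order two
  obtain ⟨β, hβ⟩ := Full.root_of_unit hmax u hui hui' 2 one_le_two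
  have hβ0 : β ≠ 0 := by
    rintro rfl
    rw [zero_pow two_ne_zero] at hβ
    exact hu0 hβ.symm
  have hβi : IsIntegral R β := IsIntegral.of_pow two_pos (by rw [hβ]; exact hui)
  have hβi' : IsIntegral R β⁻¹ := IsIntegral.of_pow two_pos (by rw [inv_pow, hβ]; exact hui')
  set T : M := y / β ^ (2 * g + 1) with hT
  have hT0 : T ≠ 0 := div_ne_zero hy0 (pow_ne_zero _ hβ0)
  have hTi : IsIntegral R T := by
    rw [hT, div_eq_mul_inv, ← inv_pow]
    exact hyR.mul (hβi'.pow _)
  have hTi' : IsIntegral R T⁻¹ := by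
    rw [hT, inv_div, div_eq_mul_inv]
    exact (hβi.pow _).mul hyR'
  have huW : ∀ W : ValuationSubring M, (∀ a, algebraMap (AlgebraicClosure k) M a ∈ W) →
      x ∉ W → u ∉ W := by
    intro W hW hxW huW
    apply hxW
    have h1 : x = u + a := by rw [hu]; ring
    rw [h1]
    exact add_mem huW (hW a₁)
  have hval : ∀ W : ValuationSubring M, (∀ a, algebraMap (AlgebraicClosure k) M a ∈ W) →
      x ∉ W → W.valuation T = 1 := by
    intro W hW hxW
    have hx1 : 1 < W.valuation x := by
      rw [← not_le, W.valuation_le_one_iff]; exact hxW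
    have h1 : W.valuation y ^ 2 = W.valuation x ^ (2 * g + 1) := by
      rw [← map_pow, hxy, val_aeval_eq W hW hf.ne_zero hxW, hfd]
    have h2 : W.valuation u = W.valuation x := by
      rw [hu]
      refine W.valuation.map_sub_eq_of_lt_left ?_
      exact lt_of_le_of_lt ((W.valuation_le_one_iff _).2 (hW a₁)) hx1
    have h3 : W.valuation β ^ 2 = W.valuation x := by
      rw [← map_pow, hβ, h2]
    have h4 : W.valuation T ^ 2 = 1 := by
      rw [hT, map_div₀, map_pow, div_pow, h1, ← pow_mul, mul_comm (2 * g + 1) 2, pow_mul, h3,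
        div_self (pow_ne_zero _ (zero_lt_one.trans hx1).ne')]
    exact (pow_left_inj₀ zero_le zero_le two_ne_zero).1 (h4.trans (one_pow 2).symm)
  have hmemT : ∀ W : ValuationSubring M, W.valuation T = 1 → T ∈ W ∧ T⁻¹ ∈ W := by
    intro W h
    refine ⟨(W.valuation_le_one_iff _).1 h.le, (W.valuation_le_one_iff _).1 ?_⟩
    rw [map_inv₀, h, inv_one]
  have hT₀ := hmemT W₀ (hval W₀ h₀ hx₀)
  have hT₁ := hmemT W₁ (hval W₁ h₁ hx₁)
  have hut : Transcendental (AlgebraicClosure k) u := by
    intro h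
    apply hxt
    have h2 : x = u + a := by rw [hu]; ring
    rw [h2]
    exact h.add (isAlgebraic_algebraMap a₁)
  refine cusp_gen_u ht R hmax hfree hs hsec hΔ h₀ h₁ hut hui hui' (huW W₀ h₀ hx₀) (huW W₁ h₁ hx₁)
    hΔ₀ hΔ₁ fun γ hγk hγr _ hγρ => ?_
  let e : M →+* AlgebraicClosure M := algebraMap M (AlgebraicClosure M)
  have hek : ∀ c : AlgebraicClosure k, γ (e (algebraMap _ M c)) = e (algebraMap _ M c) := by
    intro c
    change γ (algebraMap M (AlgebraicClosure M) (algebraMap (AlgebraicClosure k) M c)) =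
      algebraMap M (AlgebraicClosure M) (algebraMap (AlgebraicClosure k) M c)
    rw [← IsScalarTower.algebraMap_apply, hγk]
  have hγx : γ (e x) = e x := by
    have h2 : e x = e u + e a := by
      rw [← map_add]
      congr 1
      rw [hu]; ring
    have h3 : γ (e u) = e u := hγr 1 u one_pos (pow_one u)
    rw [h2, map_add, h3, hek a₁]
  have hpoly : ∀ p : (AlgebraicClosure k)[X], γ (e (aeval x p)) = e (aeval x p) := by
    intro p
    induction p using Polynomial.induction_on' with
    | add p₁ p₂ i₁ i₂ => rw [map_add, map_add, map_add, i₁, i₂]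
    | monomial n c =>
      rw [aeval_monomial, map_mul, map_mul, hek, map_pow, map_pow, hγx]
  have hγy : γ (e y) = e y := by
    have h1 : (γ (e y)) ^ 2 = (e y) ^ 2 := by
      rw [← map_pow, ← map_pow, hxy, hpoly]
    rcases eq_or_eq_neg_of_sq_eq_sq _ _ h1 with h2 | h2
    · exact h2
    exfalso
    refine hγρ T hTi hTi' hT₀.1 hT₀.2 hT₁.1 hT₁.2 hT0 ?_
    have h3 : γ (e β) = e β := hγr 2 β two_pos hβ
    change γ (e T) = - e T
    rw [hT, map_div₀, map_div₀, map_pow, map_pow, h3, h2, neg_div]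
  intro z
  rw [IsScalarTower.algebraMap_apply K M (AlgebraicClosure M)]
  have hall : ∀ w ∈ adjoin (AlgebraicClosure k) {x, y}, γ (e w) = e w := by
    intro w hw
    induction hw using IntermediateField.adjoin_induction with
    | mem c hc =>
      rcases hc with rfl | hc
      · exact hγx
      · rw [Set.mem_singleton_iff.1 hc]
        exact hγy
    | algebraMap c => exact hek c
    | add b c _ _ hb hc => rw [map_add, map_add, hb, hc]
    | inv b _ hb => rw [map_inv₀, map_inv₀, hb]
    | mul b c _ _ hb hc => rw [map_mul, map_mul, hb, hc]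
  exact hall _ (hK z)

end Pool.Agent.Lib.MP_2f3286_ag.UA
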