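import Pool.Agent.Lib.MP_2f3286_ag.HYP.CvUniq

/-!
# Z3: a function with three values omitted on `U` has the same kind of value at two places of a section
(helper73)
-/

open Polynomial IntermediateField IsDedekindDomain NumberField
open scoped Pointwise

namespace Pool.Agent.Lib.MP_2f3286_ag.UA

open Pool.Agent.Lib.MP_2f3286_ag.HYP
open Pool.Agent.Lib.MP_2f3286_ag.Full

universe u

/-- the value of `(x - a) / (x - b)` at a place -/
def HasRatio {M kb : Type*} [Field M] [Field kb] [Algebra kb M] (W : ValuationSubring M)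
    (ψ : W →+* kb) (T : M) (c : kb) : Prop :=
  T⁻¹ ∈ W ∧ ∃ h : T ∈ W, ψ ⟨T, h⟩ = c

theorem ratio_infty {M kb : Type*} [Field M] [Field kb] [Algebra kb M] {W : ValuationSubring M}
    {ψ : W →+* kb} (h : SNeigh.IsOver W ψ) {x : M} (hx : x ∉ W) (a b : kb) :
    HasRatio W ψ ((x - algebraMap kb M a) * (x - algebraMap kb M b)⁻¹) 1 := by
  have hmem : ∀ c : kb, algebraMap kb M c ∈ W := fun c => (h.1 c).1
  have hval : ∀ (c : kb) (hc : algebraMap kb M c ∈ W), ψ ⟨_, hc⟩ = c := fun c hc => by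
    obtain ⟨h1, h2⟩ := h.1 c
    exact h2
  have hne : ∀ c : kb, x - algebraMap kb M c ∉ W := by
    intro c hc
    apply hx
    have h1 : x = (x - algebraMap kb M c) + algebraMap kb M c := by ring
    rw [h1]
    exact add_mem hc (hmem c)
  have hne0 : ∀ c : kb, x - algebraMap kb M c ≠ 0 := fun c h0 => hne c (h0 ▸ zero_mem W)
  have hinv : ∀ c : kb, ∃ h' : (x - algebraMap kb M c)⁻¹ ∈ W, ψ ⟨_, h'⟩ = 0 := by
    intro c
    have h1 := (W.mem_or_inv_mem (x - algebraMap kb M c)).resolve_left (hne c)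
    refine ⟨h1, ?_⟩
    by_contra h2
    apply hne c
    have h3 := h.2 ⟨_, h1⟩ h2
    rwa [inv_inv] at h3
  have key : ∀ a b : kb, ∃ h' : (x - algebraMap kb M a) * (x - algebraMap kb M b)⁻¹ ∈ W,
      ψ ⟨_, h'⟩ = 1 := by
    intro a b
    obtain ⟨h1, h2⟩ := hinv b
    have h3 : (x - algebraMap kb M a) * (x - algebraMap kb M b)⁻¹ =
        1 + algebraMap kb M (b - a) * (x - algebraMap kb M b)⁻¹ := by
      have h4 : x - algebraMap kb M a = (x - algebraMap kb M b) + algebraMap kb M (b - a) := by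
        rw [map_sub]; ring
      rw [h4, add_mul, mul_inv_cancel₀ (hne0 b)]
    have h5 : (x - algebraMap kb M a) * (x - algebraMap kb M b)⁻¹ ∈ W := by
      rw [h3]
      exact add_mem (one_mem _) (mul_mem (hmem _) h1)
    refine ⟨h5, ?_⟩
    have h6 : (⟨_, h5⟩ : W) = 1 + ⟨_, hmem (b - a)⟩ * ⟨_, h1⟩ := Subtype.ext h3
    rw [h6, map_add, map_one, map_mul, h2, mul_zero, add_zero]
  refine ⟨?_, key a b⟩
  have h1 := (key b a).1
  rw [mul_inv, inv_inv, mul_comm]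
  exact h1

theorem ratio_fin {M kb : Type*} [Field M] [Field kb] [Algebra kb M] {W : ValuationSubring M}
    {ψ : W →+* kb} (h : SNeigh.IsOver W ψ) {x : M} (hx : x ∈ W) {a b : kb}
    (ha : ψ ⟨x, hx⟩ ≠ a) (hb : ψ ⟨x, hx⟩ ≠ b) :
    HasRatio W ψ ((x - algebraMap kb M a) * (x - algebraMap kb M b)⁻¹)
      ((ψ ⟨x, hx⟩ - a) / (ψ ⟨x, hx⟩ - b)) := by
  have hmem : ∀ c : kb, algebraMap kb M c ∈ W := fun c => (h.1 c).1
  have hval : ∀ (c : kb) (hc : algebraMap kb M c ∈ W), ψ ⟨_, hc⟩ = c := fun c hc => by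
    obtain ⟨h1, h2⟩ := h.1 c
    exact h2
  have hsub : ∀ c : kb, ψ ⟨x, hx⟩ ≠ c → ∃ (h1 : x - algebraMap kb M c ∈ W)
      (h2 : (x - algebraMap kb M c)⁻¹ ∈ W), ψ ⟨_, h1⟩ = ψ ⟨x, hx⟩ - c ∧
      ψ ⟨_, h2⟩ = (ψ ⟨x, hx⟩ - c)⁻¹ := by
    intro c hc
    have h1 : x - algebraMap kb M c ∈ W := sub_mem hx (hmem c)
    have h3 : ψ ⟨_, h1⟩ = ψ ⟨x, hx⟩ - c := by
      have h4 : (⟨_, h1⟩ : W) = ⟨x, hx⟩ - ⟨_, hmem c⟩ := rfl
      rw [h4, map_sub, hval c]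
    have h5 : ψ ⟨_, h1⟩ ≠ 0 := by rw [h3]; exact sub_ne_zero.2 hc
    have h2 := h.2 ⟨_, h1⟩ h5
    refine ⟨h1, h2, h3, ?_⟩
    have h0 : x - algebraMap kb M c ≠ 0 := by
      intro h0
      apply h5
      have h6 : (⟨_, h1⟩ : W) = 0 := Subtype.ext h0
      rw [h6, map_zero]
    have h6 : ψ ⟨_, h2⟩ * ψ ⟨_, h1⟩ = 1 := by
      rw [← map_mul, ← map_one ψ]
      congr 1
      exact Subtype.ext (inv_mul_cancel₀ h0)
    rw [h3] at h6
    exact eq_inv_of_mul_eq_one_left h6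
  obtain ⟨a1, a2, a3, a4⟩ := hsub a ha
  obtain ⟨b1, b2, b3, b4⟩ := hsub b hb
  refine ⟨?_, mul_mem a1 b2, ?_⟩
  · rw [mul_inv, inv_inv]
    exact mul_mem a2 b1
  · have h6 : (⟨_, mul_mem a1 b2⟩ : W) = ⟨_, a1⟩ * ⟨_, b2⟩ := rfl
    rw [h6, map_mul, a3, b4, div_eq_mul_inv]

section

variable {k : Type u} [Field k] [NumberField k]
    {K : Type*} [Field K] [Algebra k K]
    {M : Type*} [Field M] [Algebra K M] [Algebra.IsAlgebraic K M]
    [Algebra (AlgebraicClosure k) M] [Algebra k M] [IsScalarTower k K M]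
    [IsScalarTower k (AlgebraicClosure k) M]

/-- the ratios agree -/
theorem ratio_agree (R : Subalgebra k K) (hmax : Pt.IsRadClosed R M (AlgebraicClosure k))
    {s : Gal(AlgebraicClosure k/k) →* Gal(M/K)} (hs : Continuous s)
    {Δ : Subgroup Gal(AlgebraicClosure k/k)} (hΔ : IsOpen (Δ : Set Gal(AlgebraicClosure k/k)))
    {W₀ W₁ : ValuationSubring M} {ψ₀ : W₀ →+* AlgebraicClosure k} {ψ₁ : W₁ →+* AlgebraicClosure k}
    (h₀ : SNeigh.IsOver W₀ ψ₀) (h₁ : SNeigh.IsOver W₁ ψ₁) (hr₀ : SNeigh.ResOn s W₀ ψ₀ Δ)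
    (hr₁ : SNeigh.ResOn s W₁ ψ₁ Δ) {x : M} {a b : AlgebraicClosure k}
    (hx : IsIntegral R x)
    (ha : IsIntegral R (x - algebraMap (AlgebraicClosure k) M a)⁻¹)
    (hb : IsIntegral R (x - algebraMap (AlgebraicClosure k) M b)⁻¹)
    (ha0 : x ≠ algebraMap (AlgebraicClosure k) M a) (hb0 : x ≠ algebraMap (AlgebraicClosure k) M b)
    {c d : AlgebraicClosure k}
    (hc : HasRatio W₀ ψ₀ ((x - algebraMap (AlgebraicClosure k) M a) *
      (x - algebraMap (AlgebraicClosure k) M b)⁻¹) c)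
    (hd : HasRatio W₁ ψ₁ ((x - algebraMap (AlgebraicClosure k) M a) *
      (x - algebraMap (AlgebraicClosure k) M b)⁻¹) d) : c = d := by
  have hBk : ∀ c : AlgebraicClosure k, IsIntegral R (algebraMap (AlgebraicClosure k) M c) :=
    Pt.integral_const R
  set T : M := (x - algebraMap (AlgebraicClosure k) M a) *
      (x - algebraMap (AlgebraicClosure k) M b)⁻¹ with hT
  have hT0 : T ≠ 0 := mul_ne_zero (sub_ne_zero.2 ha0) (inv_ne_zero (sub_ne_zero.2 hb0))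
  have hTi : IsIntegral R T := (hx.sub (hBk a)).mul hb
  have hTi' : IsIntegral R T⁻¹ := by
    rw [hT, mul_inv, inv_inv]
    exact ha.mul (hx.sub (hBk b))
  obtain ⟨c1, c2, c3⟩ := hc
  obtain ⟨d1, d2, d3⟩ := hd
  have h := unit_agree hs hΔ h₀ h₁ hr₀ hr₁ hT0
    (fun n hn => Full.root_of_unit hmax T hTi hTi' n hn) c2 c1 d2 d1
  rw [← c3, ← d3, h]

/-- **A pole at one place is a pole at the other.** -/
theorem pole_agree (R : Subalgebra k K) (hmax : Pt.IsRadClosed R M (AlgebraicClosure k))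
    {s : Gal(AlgebraicClosure k/k) →* Gal(M/K)} (hs : Continuous s)
    {Δ : Subgroup Gal(AlgebraicClosure k/k)} (hΔ : IsOpen (Δ : Set Gal(AlgebraicClosure k/k)))
    {W₀ W₁ : ValuationSubring M} {ψ₀ : W₀ →+* AlgebraicClosure k} {ψ₁ : W₁ →+* AlgebraicClosure k}
    (h₀ : SNeigh.IsOver W₀ ψ₀) (h₁ : SNeigh.IsOver W₁ ψ₁) (hr₀ : SNeigh.ResOn s W₀ ψ₀ Δ)
    (hr₁ : SNeigh.ResOn s W₁ ψ₁ Δ) {x : M} (e : Fin 3 → AlgebraicClosure k)
    (he : Function.Injective e) (hx : IsIntegral R x)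
    (hi : ∀ i, IsIntegral R (x - algebraMap (AlgebraicClosure k) M (e i))⁻¹)
    (hi0 : ∀ i, x ≠ algebraMap (AlgebraicClosure k) M (e i))
    (hx₀ : x ∉ W₀) : x ∉ W₁ := by
  intro hx₁
  obtain ⟨i, j, hij, hi', hj'⟩ : ∃ i j : Fin 3, i ≠ j ∧ ψ₁ ⟨x, hx₁⟩ ≠ e i ∧ ψ₁ ⟨x, hx₁⟩ ≠ e j := by
    have h01 : e 0 ≠ e 1 := fun h => by simpa using he h
    have h02 : e 0 ≠ e 2 := fun h => by simpa using he h
    have h12 : e 1 ≠ e 2 := fun h => by simpa using he h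
    by_cases h0 : ψ₁ ⟨x, hx₁⟩ = e 0
    · exact ⟨1, 2, by decide, by rw [h0]; exact h01, by rw [h0]; exact h02⟩
    by_cases h1 : ψ₁ ⟨x, hx₁⟩ = e 1
    · exact ⟨0, 2, by decide, h0, by rw [h1]; exact h12⟩
    · exact ⟨0, 1, by decide, h0, h1⟩
  have h := ratio_agree R hmax hs hΔ h₀ h₁ hr₀ hr₁ hx (hi i) (hi j) (hi0 i) (hi0 j)
    (ratio_infty h₀ hx₀ (e i) (e j)) (ratio_fin h₁ hx₁ hi' hj')
  have h2 : ψ₁ ⟨x, hx₁⟩ - e j ≠ 0 := sub_ne_zero.2 hj'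
  rw [eq_comm, div_eq_one_iff_eq h2] at h
  exact hij (he (sub_right_injective h))

/-- **A value different from the omitted values at one place is such a value at the other.** -/
theorem fin_agree (R : Subalgebra k K) (hmax : Pt.IsRadClosed R M (AlgebraicClosure k))
    {s : Gal(AlgebraicClosure k/k) →* Gal(M/K)} (hs : Continuous s)
    {Δ : Subgroup Gal(AlgebraicClosure k/k)} (hΔ : IsOpen (Δ : Set Gal(AlgebraicClosure k/k)))
    {W₀ W₁ : ValuationSubring M} {ψ₀ : W₀ →+* AlgebraicClosure k} {ψ₁ : W₁ →+* AlgebraicClosure k}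
    (h₀ : SNeigh.IsOver W₀ ψ₀) (h₁ : SNeigh.IsOver W₁ ψ₁) (hr₀ : SNeigh.ResOn s W₀ ψ₀ Δ)
    (hr₁ : SNeigh.ResOn s W₁ ψ₁ Δ) {x : M} (e : Fin 3 → AlgebraicClosure k)
    (he : Function.Injective e) (hx : IsIntegral R x)
    (hi : ∀ i, IsIntegral R (x - algebraMap (AlgebraicClosure k) M (e i))⁻¹)
    (hi0 : ∀ i, x ≠ algebraMap (AlgebraicClosure k) M (e i))
    (hx₀ : x ∈ W₀) (hv₀ : ∀ i, ψ₀ ⟨x, hx₀⟩ ≠ e i) :
    ∃ hx₁ : x ∈ W₁, ∀ i, ψ₁ ⟨x, hx₁⟩ ≠ e i := by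
  have hx₁ : x ∈ W₁ := by
    by_contra h
    exact pole_agree R hmax hs hΔ h₁ h₀ hr₁ hr₀ e he hx hi hi0 h hx₀
  refine ⟨hx₁, fun i h => ?_⟩
  obtain ⟨j, l, hjl, hj, hl⟩ : ∃ j l : Fin 3, j ≠ l ∧ j ≠ i ∧ l ≠ i := by
    revert i
    intro i _
    fin_cases i
    · exact ⟨1, 2, by decide, by decide, by decide⟩
    · exact ⟨0, 2, by decide, by decide, by decide⟩
    · exact ⟨0, 1, by decide, by decide, by decide⟩
  have h1 := ratio_agree R hmax hs hΔ h₀ h₁ hr₀ hr₁ hx (hi j) (hi l) (hi0 j) (hi0 l)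
    (ratio_fin h₀ hx₀ (hv₀ j) (hv₀ l))
    (ratio_fin h₁ hx₁ (by rw [h]; exact fun h' => hj (he h').symm)
      (by rw [h]; exact fun h' => hl (he h').symm))
  rw [h] at h1
  have h2 : ψ₀ ⟨x, hx₀⟩ - e l ≠ 0 := sub_ne_zero.2 (hv₀ l)
  have h3 : e i - e l ≠ 0 := sub_ne_zero.2 fun h' => hl (he h').symm
  rw [div_eq_div_iff h2 h3] at h1
  have h4 : (ψ₀ ⟨x, hx₀⟩ - e i) * (e j - e l) = 0 := by linear_combination h1
  rcases mul_eq_zero.1 h4 with h5 | h5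
  · exact hv₀ i (sub_eq_zero.1 h5)
  · exact hjl (he (sub_eq_zero.1 h5))

end

end Pool.Agent.Lib.MP_2f3286_ag.UA
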