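import Pool.Agent.Lib.MP_2f3286_ag.Pt.Division
import Pool.Agent.Lib.MP_2f3286_ag.UA.Z3

/-!
# Z4: halves of a point with integral first coordinate   (helper73)
-/

open WeierstrassCurve WeierstrassCurve.Affine WeierstrassCurve.Affine.Point
open Polynomial
open Pool.Agent.Lib.MP_2f3286_ag

namespace Pool.Agent.Lib.MP_2f3286_ag.UA

section alg

variable {M : Type*} [Field M]

/-- the equations for `2 (x', y') = (x, y)` on `y ^ 2 = x ^ 3 + a x + b` -/
structure Half (a b x y x' y' : M) : Prop where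
  eq : y ^ 2 = x ^ 3 + a * x + b
  eq' : y' ^ 2 = x' ^ 3 + a * x' + b
  ne : y' ≠ 0
  dx : 4 * y' ^ 2 * x = x' ^ 4 - 2 * a * x' ^ 2 - 8 * b * x' + a ^ 2
  dy : 2 * y' * (y + y') = (3 * x' ^ 2 + a) * (x' - x)

open scoped Classical in
/-- the equations -/
theorem half_of_two {F : Type*} [Field F] [Algebra F M] (W : WeierstrassCurve F) [W.IsShortNF]
    {x y x' y' : M} (h : (W⁄M).Nonsingular x y) (h' : (W⁄M).Nonsingular x' y')
    (hd : (2 : ℕ) • (some x' y' h' : (W⁄M).Point) = some x y h) :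
    Half (algebraMap F M W.a₄) (algebraMap F M W.a₆) x y x' y' := by
  have a1 : (W⁄M).a₁ = 0 := (W⁄M).a₁_of_isShortNF
  have a2 : (W⁄M).a₂ = 0 := (W⁄M).a₂_of_isShortNF
  have a3 : (W⁄M).a₃ = 0 := (W⁄M).a₃_of_isShortNF
  have a4 : (W⁄M).a₄ = algebraMap F M W.a₄ := rfl
  have a6 : (W⁄M).a₆ = algebraMap F M W.a₆ := rfl
  have heq : ∀ {x y : M}, (W⁄M).Nonsingular x y →
      y ^ 2 = x ^ 3 + algebraMap F M W.a₄ * x + algebraMap F M W.a₆ := by
    intro x y h
    have h1 := h.1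
    rw [equation_iff, a1, a2, a3, a4, a6] at h1
    linear_combination h1
  have hneg : ∀ x y : M, (W⁄M).negY x y = -y := by
    intro x y
    rw [negY, a1, a3]
    ring
  have e1 := heq h
  have e2 := heq h'
  have hne : y' ≠ (W⁄M).negY x' y' := by
    intro hy
    rw [two_nsmul, add_self_of_Y_eq hy] at hd
    exact absurd hd.symm (some_ne_zero h)
  have hy0 : 2 * y' ≠ 0 := by
    intro h0
    apply hne
    rw [hneg]
    linear_combination h0
  rw [two_nsmul, add_self_of_Y_ne hne] at hd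
  rw [some.injEq] at hd
  obtain ⟨hx, hy⟩ := hd
  rw [addY, negAddY, hneg] at hy
  rw [hx] at hy
  rw [slope_of_Y_ne rfl hne, hneg] at hx hy
  rw [addX, a1, a2, a4] at hx
  rw [a1, a2, a4] at hy
  simp only [zero_mul, mul_zero, add_zero, sub_zero] at hx hy
  set m : M := (3 * x' ^ 2 + algebraMap F M W.a₄) / (y' - -y') with hm
  have hm' : m * (2 * y') = 3 * x' ^ 2 + algebraMap F M W.a₄ := by
    rw [hm, sub_neg_eq_add, ← two_mul, div_mul_cancel₀ _ hy0]
  refine ⟨e1, e2, right_ne_zero_of_mul hy0, ?_, ?_⟩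
  · rw [← hx]
    linear_combination (m * (2 * y') + (3 * x' ^ 2 + algebraMap F M W.a₄)) * hm' -
      8 * x' * e2
  · linear_combination (x' - x) * hm' - 2 * y' * hy

theorem Half.resultant {a b x y x' y' : M} (h : Half a b x y x' y') :
    y' ^ 2 * (4 * x * (3 * x' ^ 2 + 4 * a) - (3 * x' ^ 3 - 5 * a * x' - 27 * b)) =
      4 * a ^ 3 + 27 * b ^ 2 := by
  linear_combination (3 * x' ^ 2 + 4 * a) * h.dx - (3 * x' ^ 3 - 5 * a * x' - 27 * b) * h.eq'

theorem Half.quartic {a b x y x' y' : M} (h : Half a b x y x' y') :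
    x' ^ 4 - 4 * x * x' ^ 3 - 2 * a * x' ^ 2 - (8 * b + 4 * a * x) * x' + (a ^ 2 - 4 * b * x) = 0 := by
  linear_combination 4 * x * h.eq' - h.dx

/-- integrality -/
theorem Half.integral {R : Type*} [CommRing R] [Algebra R M] {a b x y x' y' : M}
    (h : Half a b x y x' y') (ha : IsIntegral R a) (hb : IsIntegral R b)
    (hD : IsIntegral R (4 * a ^ 3 + 27 * b ^ 2)⁻¹) (hD0 : 4 * a ^ 3 + 27 * b ^ 2 ≠ 0)
    (hx : IsIntegral R x) :
    IsIntegral R x' ∧ IsIntegral R y' ∧ IsIntegral R y'⁻¹ := by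
  have hn : ∀ n : ℕ, IsIntegral R (n : M) := fun n => by
    have h1 := isIntegral_algebraMap (R := R) (A := M) (x := (n : R))
    rwa [map_natCast] at h1
  have h4 : IsIntegral R (4 : M) := by exact_mod_cast hn 4
  have h8 : IsIntegral R (8 : M) := by exact_mod_cast hn 8
  have h2 : IsIntegral R (2 : M) := by exact_mod_cast hn 2
  have h3 : IsIntegral R (3 : M) := by exact_mod_cast hn 3
  have h5 : IsIntegral R (5 : M) := by exact_mod_cast hn 5
  have h27 : IsIntegral R (27 : M) := by exact_mod_cast hn 27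
  have hx' : IsIntegral R x' := by
    have hq := h.quartic
    let A := integralClosure R M
    let c3 : A := ⟨4 * x, h4.mul hx⟩
    let c2 : A := ⟨2 * a, h2.mul ha⟩
    let c1 : A := ⟨8 * b + 4 * a * x, (h8.mul hb).add ((h4.mul ha).mul hx)⟩
    let c0 : A := ⟨a ^ 2 - 4 * b * x, (ha.pow 2).sub ((h4.mul hb).mul hx)⟩
    have hint : IsIntegral A x' := by
      refine ⟨X ^ 4 + (-(C c3) * X ^ 3 - C c2 * X ^ 2 - C c1 * X + C c0), ?_, ?_⟩
      · refine monic_X_pow_add ?_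
        have : (-(C c3) * X ^ 3 - C c2 * X ^ 2 - C c1 * X + C c0).degree ≤ 3 := by
          rw [← C_neg]
          compute_degree
        exact lt_of_le_of_lt this (by norm_num)
      · rw [← aeval_def]
        simp only [map_add, map_sub, map_mul, map_pow, aeval_X, aeval_C, map_neg]
        change x' ^ 4 + (-(4 * x) * x' ^ 3 - 2 * a * x' ^ 2 - (8 * b + 4 * a * x) * x' +
          (a ^ 2 - 4 * b * x)) = 0
        linear_combination hq
    exact isIntegral_trans x' hint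
  have hy2 : _root_.IsIntegral R (y' ^ 2) := by
    rw [h.eq']
    exact ((hx'.pow 3).add (ha.mul hx')).add hb
  refine ⟨hx', _root_.IsIntegral.of_pow two_pos hy2, _root_.IsIntegral.of_pow two_pos ?_⟩
  have hr := h.resultant
  have h6 : y'⁻¹ ^ 2 = (4 * x * (3 * x' ^ 2 + 4 * a) - (3 * x' ^ 3 - 5 * a * x' - 27 * b)) *
      (4 * a ^ 3 + 27 * b ^ 2)⁻¹ := by
    rw [inv_pow, eq_mul_inv_iff_mul_eq₀ hD0, ← hr, inv_mul_cancel_left₀ (pow_ne_zero 2 h.ne)]
  rw [h6]
  refine _root_.IsIntegral.mul (((h4.mul hx).mul ((h3.mul (hx'.pow 2)).add (h4.mul ha))).sub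
    (((h3.mul (hx'.pow 3)).sub ((h5.mul ha).mul hx')).sub (h27.mul hb))) hD

/-- the point is in the field generated by its half -/
theorem Half.mem {a b x y x' y' : M} (h : Half a b x y x' y') (h2 : (2 : M) ≠ 0) {F : Type*}
    [Field F] [Algebra F M] (L : IntermediateField F M) (ha : a ∈ L) (hb : b ∈ L) (hx : x' ∈ L)
    (hy : y' ∈ L) : x ∈ L ∧ y ∈ L := by
  have h4 : (4 : M) ≠ 0 := by
    have : (4 : M) = 2 * 2 := by norm_num
    rw [this]
    exact mul_ne_zero h2 h2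
  have hxL : x ∈ L := by
    have h3 : x = (x' ^ 4 - 2 * a * x' ^ 2 - 8 * b * x' + a ^ 2) / (4 * y' ^ 2) := by
      rw [eq_div_iff (mul_ne_zero h4 (pow_ne_zero 2 h.ne)), ← h.dx]
      ring
    rw [h3]
    refine div_mem ?_ (mul_mem (ofNat_mem _ 4) (pow_mem hy 2))
    exact add_mem (sub_mem (sub_mem (pow_mem hx 4) (mul_mem (mul_mem (ofNat_mem _ 2) ha)
      (pow_mem hx 2))) (mul_mem (mul_mem (ofNat_mem _ 8) hb) hx)) (pow_mem ha 2)
  refine ⟨hxL, ?_⟩
  have h3 : y = (3 * x' ^ 2 + a) * (x' - x) / (2 * y') - y' := by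
    rw [← h.dy, mul_comm (2 * y'), mul_div_cancel_right₀ _ (mul_ne_zero h2 h.ne)]
    ring
  rw [h3]
  exact sub_mem (div_mem (mul_mem (add_mem (mul_mem (ofNat_mem _ 3) (pow_mem hx 2)) ha)
    (sub_mem hx hxL)) (mul_mem (ofNat_mem _ 2) hy)) hy

/-- a place at which the half is finite and not of order two -/
theorem Half.mem_val {a b x y x' y' : M} (h : Half a b x y x' y') (V : ValuationSubring M)
    (h0 : (4 : M) ≠ 0) (h4 : (4 : M)⁻¹ ∈ V) (ha : a ∈ V) (hb : b ∈ V) (hx : x' ∈ V)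
    (hy : y'⁻¹ ∈ V) : x ∈ V := by
  have h3 : x = (x' ^ 4 - 2 * a * x' ^ 2 - 8 * b * x' + a ^ 2) * (4 : M)⁻¹ * y'⁻¹ ^ 2 := by
    rw [← h.dx, mul_comm (4 : M) (y' ^ 2), mul_assoc (y' ^ 2), mul_comm (4 : M) x, ← mul_assoc,
      mul_inv_cancel_right₀ h0, mul_comm (y' ^ 2), mul_assoc, ← mul_pow, mul_inv_cancel₀ h.ne,
      one_pow, mul_one]
  rw [h3]
  exact mul_mem (mul_mem (add_mem (sub_mem (sub_mem (pow_mem hx 4) (mul_mem (mul_mem
    (ofNat_mem _ 2) ha) (pow_mem hx 2))) (mul_mem (mul_mem (ofNat_mem _ 8) hb) hx))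
    (pow_mem ha 2)) h4) (pow_mem hy 2)

end alg

end Pool.Agent.Lib.MP_2f3286_ag.UA
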