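import Pool.Agent.Lib.MP_2f3286_ag.UA.Z2
import Pool.Agent.Lib.MP_2f3286_ag.UA.Z4
import Pool.Agent.Lib.MP_2f3286_ag.HYP.CvMain

/-!
# Z5: division of points by integers, and the roots of the cubic   (helper73)
-/

open WeierstrassCurve WeierstrassCurve.Affine WeierstrassCurve.Affine.Point
open Polynomial IsDedekindDomain NumberField
open Pool.Agent.Lib.MP_2f3286_ag

namespace Pool.Agent.Lib.MP_2f3286_ag.UA

section div

open scoped Classical in
/-- **The points over the maximal unramified extension are divisible.** -/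
theorem exists_div_max {F K M kb : Type*} [Field F] [Field K] [Field M] [Field kb] [Algebra F kb]
    [IsAlgClosed kb] [CharZero kb] [Algebra K M] [Algebra kb M] [Algebra F M]
    [IsScalarTower F kb M] {R : Type*} [CommRing R] [Algebra R M]
    (h : Pt.IsMaxUnramOver R K M kb)
    (W : WeierstrassCurve F) [W.IsElliptic] (η : (W⁄M).Point) {n : ℕ} (hn : 1 ≤ n) :
    ∃ T : (W⁄M).Point, n • T = η := by
  let Ω := AlgebraicClosure M
  have t1 : IsScalarTower F kb Ω := IsScalarTower.of_algebraMap_eq fun a => by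
    rw [IsScalarTower.algebraMap_apply F M Ω, IsScalarTower.algebraMap_apply F kb M,
      ← IsScalarTower.algebraMap_apply kb M Ω]
  have hc' : CharZero Ω := charZero_of_injective_algebraMap (algebraMap kb Ω).injective
  obtain ⟨ζ, hζ⟩ := Pt.Div.divisible (W := W) (kb := Ω) hn (Point.baseChange M Ω η)
  have hfix : ∀ V : ValuationSubring Ω, Pt.IsPlcOver R kb V → ∀ g : Gal(Ω/K), Pt.IsInertAt V g →
      ∀ (x y : Ω) (hxy : (W⁄Ω).Nonsingular x y), ζ = some x y hxy → g x = x ∧ g y = y := by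
    intro V hV g hg x y hxy he
    have hgM : ∀ m : M, g (algebraMap M Ω m) = algebraMap M Ω m := fun m =>
      (h _).1 ⟨m, rfl⟩ V hV g hg
    let g' : Gal(Ω/M) := AlgEquiv.ofRingEquiv (f := (g : Ω ≃+* Ω)) hgM
    have hg' : ∀ z, g' z = g z := fun z => rfl
    have h1 := Pt.Div.inert_fix (W := W) (K := M) V hV.1.1 g' (fun z hz => hg z hz) hn η ζ hζ
    rw [he, Top.act, map_some, some.injEq] at h1
    exact h1
  have hT : ∃ T : (W⁄M).Point, map (Algebra.ofId M Ω) T = ζ := by
    rcases hζ' : ζ with _ | ⟨x, y, hxy⟩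
    · exact ⟨0, rfl⟩
    · obtain ⟨a, rfl⟩ : ∃ m : M, algebraMap M Ω m = x :=
        (h x).2 fun V hV g hg => (hfix V hV g hg x y hxy hζ').1
      obtain ⟨b, rfl⟩ : ∃ m : M, algebraMap M Ω m = y :=
        (h y).2 fun V hV g hg => (hfix V hV g hg _ y hxy hζ').2
      have hab : (W⁄M).Nonsingular a b :=
        (Affine.baseChange_nonsingular (W := W) (Algebra.ofId M Ω).injective a b).mp hxy
      exact ⟨some a b hab, rfl⟩
  obtain ⟨T, hT⟩ := hT
  refine ⟨T, ?_⟩
  apply Point.map_injective (Algebra.ofId M Ω)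
  exact (map_nsmul _ _ _).trans ((congrArg _ hT).trans hζ)

end div

section roots

/-- the roots of the cubic -/
theorem exists_roots {kb : Type*} [Field kb] [IsAlgClosed kb] [CharZero kb] {a b : kb}
    (hD : 4 * a ^ 3 + 27 * b ^ 2 ≠ 0) :
    ∃ e : Fin 3 → kb, Function.Injective e ∧ e 0 + e 1 + e 2 = 0 ∧
      e 0 * e 1 + e 0 * e 2 + e 1 * e 2 = a ∧ e 0 * e 1 * e 2 = -b := by
  obtain ⟨c, hc⟩ := IsAlgClosed.exists_root (X ^ 3 + C a * X + C b : kb[X]) (by
    have h1 : (X ^ 3 + C a * X + C b : kb[X]).degree = 3 := by compute_degree!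
    rw [h1]
    norm_num)
  rw [IsRoot, eval_add, eval_add, eval_pow, eval_mul, eval_C, eval_C, eval_X] at hc
  obtain ⟨δ, hδ⟩ := IsAlgClosed.exists_pow_nat_eq (-3 * c ^ 2 - 4 * a) (n := 2) (by norm_num)
  have h2 : (2 : kb) ≠ 0 := two_ne_zero
  have hD' : 4 * a ^ 3 + 27 * b ^ 2 = -((3 * c ^ 2 + a) ^ 2 * δ ^ 2) := by
    rw [hδ]
    linear_combination (27 * (b - c ^ 3 - a * c)) * hc
  have hδ0 : δ ≠ 0 := by
    rintro rfl
    apply hD
    rw [hD']
    ring
  have hk0 : 3 * c ^ 2 + a ≠ 0 := by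
    intro h0
    apply hD
    rw [hD', h0]
    ring
  have h4 : (4 : kb) ≠ 0 := by norm_num
  have hk : (c - (-c + δ) / 2) * (c - (-c - δ) / 2) = 3 * c ^ 2 + a := by
    field_simp
    linear_combination -hδ
  refine ⟨![c, (-c + δ) / 2, (-c - δ) / 2], ?_, ?_, ?_, ?_⟩
  · have h01 : c ≠ (-c + δ) / 2 := by
      intro h
      apply hk0
      rw [← hk, ← h]
      ring
    have h02 : c ≠ (-c - δ) / 2 := by
      intro h
      apply hk0
      rw [← hk, ← h]
      ring
    have h12 : (-c + δ) / 2 ≠ (-c - δ) / 2 := by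
      intro h
      apply hδ0
      have h5 : δ = (-c + δ) / 2 - (-c - δ) / 2 := by ring
      rw [h5, h, sub_self]
    intro i j hij
    fin_cases i <;> fin_cases j <;> simp at hij ⊢
    · exact h01 hij
    · exact h02 hij
    · exact h01 hij.symm
    · exact h12 (by rw [hij])
    · exact h02 hij.symm
    · exact h12 (by rw [hij])
  · simp only [Matrix.cons_val_zero, Matrix.cons_val_one, Matrix.cons_val]
    ring
  · simp only [Matrix.cons_val_zero, Matrix.cons_val_one, Matrix.cons_val]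
    linear_combination -(1 / 4 : kb) * hδ
  · simp only [Matrix.cons_val_zero, Matrix.cons_val_one, Matrix.cons_val]
    linear_combination -(c / 4) * hδ + hc

end roots

end Pool.Agent.Lib.MP_2f3286_ag.UA
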