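import Pool.Agent.Lib.MP_2f3286_ag.UA.Z5
import Pool.Agent.Lib.MP_2f3286_ag.UA.GX7
import Pool.Agent.Lib.MP_2f3286_ag.Fer.FullK

/-!
# Z6: the place of a section is unique if `K` is contained in `F(x, y)`, `(x, y)` a point of an elliptic
curve with `x` integral   (helper73)
-/

open Polynomial IsDedekindDomain NumberField
open scoped WithZero
open Pool.Agent.Lib.MP_2f3286_ag

noncomputable section

namespace Pool.Agent.Lib.MP_2f3286_ag.UA

open Pool.Agent.Lib.MP_2f3286_ag.HYP Pool.Agent.Lib.MP_2f3286_ag.Full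
open Pool.Agent.Lib.MP_2f3286_ag.Pt Pool.Agent.Lib.MP_2f3286_ag.SNeigh
  Pool.Agent.Lib.MP_2f3286_ag.SFull

universe u v

/-- the factors of the cubic -/
theorem cubic_fac {kb M : Type*} [Field kb] [Field M] [Algebra kb M] {a b : kb} {e : Fin 3 → kb}
    (h1 : e 0 + e 1 + e 2 = 0) (h2 : e 0 * e 1 + e 0 * e 2 + e 1 * e 2 = a)
    (h3 : e 0 * e 1 * e 2 = -b) {X Y : M}
    (h : Y ^ 2 = X ^ 3 + algebraMap kb M a * X + algebraMap kb M b) :
    Y ^ 2 = (X - algebraMap kb M (e 0)) * (X - algebraMap kb M (e 1)) *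
      (X - algebraMap kb M (e 2)) := by
  have q1 := congrArg (algebraMap kb M) h1
  have q3 := congrArg (algebraMap kb M) h3
  rw [map_add, map_add, map_zero] at q1
  rw [map_mul, map_mul, map_neg] at q3
  rw [h, ← h2]
  simp only [map_add, map_mul]
  linear_combination X ^ 2 * q1 + q3

/-- the factors are units -/
theorem cubic_unit {kb M R : Type*} [Field kb] [Field M] [Algebra kb M] [CommRing R] [Algebra R M]
    (hBk : ∀ c : kb, IsIntegral R (algebraMap kb M c)) (e : Fin 3 → kb) {X Y : M} (hY : Y ≠ 0)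
    (h : Y ^ 2 = (X - algebraMap kb M (e 0)) * (X - algebraMap kb M (e 1)) *
      (X - algebraMap kb M (e 2))) (hX : IsIntegral R X) (hY' : IsIntegral R Y⁻¹) (i : Fin 3) :
    X ≠ algebraMap kb M (e i) ∧ IsIntegral R (X - algebraMap kb M (e i))⁻¹ := by
  have hY2 : Y ^ 2 ≠ 0 := pow_ne_zero 2 hY
  have hs : ∀ c : kb, IsIntegral R (X - algebraMap kb M c) := fun c => hX.sub (hBk c)
  obtain ⟨q, hq, hqi⟩ : ∃ q : M, Y ^ 2 = (X - algebraMap kb M (e i)) * q ∧ IsIntegral R q := by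
    fin_cases i
    · exact ⟨(X - algebraMap kb M (e 1)) * (X - algebraMap kb M (e 2)), by rw [h]; simp; ring,
        (hs _).mul (hs _)⟩
    · exact ⟨(X - algebraMap kb M (e 0)) * (X - algebraMap kb M (e 2)), by rw [h]; simp; ring,
        (hs _).mul (hs _)⟩
    · exact ⟨(X - algebraMap kb M (e 0)) * (X - algebraMap kb M (e 1)), by rw [h]; simp; ring,
        (hs _).mul (hs _)⟩
  refine ⟨fun h0 => hY2 ?_, ?_⟩
  · rw [hq, h0, sub_self, zero_mul]
  · have h1 : (X - algebraMap kb M (e i))⁻¹ = q * Y⁻¹ ^ 2 := by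
      apply inv_eq_of_mul_eq_one_right
      rw [← mul_assoc, ← hq, ← mul_pow, mul_inv_cancel₀ hY, one_pow]
    rw [h1]
    exact hqi.mul (hY'.pow 2)

/-- **Uniqueness.** -/
theorem unique_core {k : Type u} [Field k] [NumberField k]
    {K : Type*} [Field K] [Algebra k K] (htr : Algebra.trdeg k K = 1)
    (R : Subalgebra k K) (hfg : R.FG) (hRn : ∀ y : K, IsIntegral R y → y ∈ R)
    {M : Type*} [Field M] [Algebra K M] [IsGalois K M]
    [Algebra (AlgebraicClosure k) M] [Algebra k M]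
    [IsScalarTower k K M] [IsScalarTower k (AlgebraicClosure k) M]
    (hM : IsMaxUnramOver R K M (AlgebraicClosure k))
    (s : Gal(AlgebraicClosure k/k) →* Gal(M/K)) (hs : Continuous s)
    (hsec : ∀ σ a, s σ (algebraMap (AlgebraicClosure k) M a) =
      algebraMap (AlgebraicClosure k) M (σ a))
    {a b : AlgebraicClosure k} (hD : 4 * a ^ 3 + 27 * b ^ 2 ≠ 0) {x y x' y' : M}
    (H : Half (algebraMap _ M a) (algebraMap _ M b) x y x' y')
    (hxt : Transcendental (AlgebraicClosure k) x) (hxR : IsIntegral R x)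
    (hK : ∀ z : K, algebraMap K M z ∈ IntermediateField.adjoin (AlgebraicClosure k) {x, y})
    {A₀ : ValuationSubring M} {ψ₀ : A₀ →+* AlgebraicClosure k} (h₀ : IsOver A₀ ψ₀)
    (Δ₀ : Subgroup Gal(AlgebraicClosure k/k)) (hΔ₀ : IsOpen (Δ₀ : Set Gal(AlgebraicClosure k/k)))
    (hr₀ : ResOn s A₀ ψ₀ Δ₀) (hA₀ : (∀ r : R, algebraMap K M r ∈ A₀) ∨ x ∉ A₀)
    {A₁ : ValuationSubring M} {ψ₁ : A₁ →+* AlgebraicClosure k} (h₁ : IsOver A₁ ψ₁)
    (Δ₁ : Subgroup Gal(AlgebraicClosure k/k)) (hΔ₁ : IsOpen (Δ₁ : Set Gal(AlgebraicClosure k/k)))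
    (hr₁ : ResOn s A₁ ψ₁ Δ₁) : A₁ = A₀ := by
  classical
  have hK0 : CharZero K := charZero_of_injective_algebraMap (algebraMap k K).injective
  have hM0 : CharZero M := charZero_of_injective_algebraMap (algebraMap K M).injective
  have hKM : Algebra.IsAlgebraic K M := inferInstance
  have halg : Algebra.IsAlgebraic K (AlgebraicClosure M) := Algebra.IsAlgebraic.trans K M _
  have htow : IsScalarTower R K M := IsScalarTower.of_algebraMap_eq fun r => rfl
  -- the open subgroup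
  obtain ⟨Δ, hΔ, hR₀, hR₁⟩ : ∃ Δ : Subgroup Gal(AlgebraicClosure k/k),
      IsOpen (Δ : Set Gal(AlgebraicClosure k/k)) ∧ ResOn s A₀ ψ₀ Δ ∧ ResOn s A₁ ψ₁ Δ :=
    ⟨Δ₀ ⊓ Δ₁, hΔ₀.inter hΔ₁, fun σ hσ => hr₀ σ hσ.1, fun σ hσ => hr₁ σ hσ.2⟩
  -- a transcendental function
  have hxtk : Transcendental k x := fun h => hxt (h.tower_top (AlgebraicClosure k))
  obtain ⟨t, htR, ht⟩ : ∃ t : K, t ∈ R ∧ Transcendental k t := by
    by_contra hcon
    push Not at hcon
    apply hxtk
    have h1 : Algebra.IsAlgebraic k R := ⟨fun r => by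
      have h2 := hcon r r.2
      rw [Transcendental, not_not] at h2
      exact (isAlgebraic_algebraMap_iff (R := k) (S := R) (A := K) Subtype.val_injective).1 h2⟩
    have h3 : IsScalarTower k R M := IsScalarTower.of_algebraMap_eq fun a => by
      rw [IsScalarTower.algebraMap_apply k K M]; rfl
    exact IsAlgebraic.restrictScalars k (hxR.isAlgebraic)
  have hfdim := finite_of_fg htr R hRn hfg htR ht
  have htrΩ : Algebra.trdeg k (AlgebraicClosure M) = 1 :=
    trdeg_top (K := K) (Full.trdeg_of_finite ht)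
  have hMp := maxUnram_of_over R htrΩ t htR ht hM
  have hmax := Pt.radClosed_of_max R hMp
  have hKfg : (⊤ : IntermediateField k K).FG := by
    have h1 : Algebra.EssFiniteType k (IntermediateField.adjoin k {t}) :=
      IntermediateField.essFiniteType_iff.2
        (IntermediateField.fg_adjoin_of_finite (Set.finite_singleton t))
    have h2 := Algebra.EssFiniteType.comp k (IntermediateField.adjoin k {t}) K
    exact IntermediateField.fg_top k K
  have hfree : ∀ A ≤ geomGroup K M (AlgebraicClosure k),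
      OpenIn (geomGroup K M (AlgebraicClosure k)) A → ∀ (ℓ : ℕ) [Fact ℓ.Prime],
      Finite (A →ₜ* Multiplicative (ZMod ℓ)) ∧
      ∀ f : A →ₜ* Multiplicative (ZMod ℓ), ∃ F : A →ₜ* Multiplicative ℤ_[ℓ], ∀ a,
        PadicInt.toZMod (F a).toAdd = (f a).toAdd := by
    intro B hBN hBo ℓ hℓ
    obtain ⟨O, hO, hON⟩ := hBo
    exact Pt.fin_lift (k := k) t ht R htR hfg
      (fun Ψ hΨ g _ hg => Pt.unram_of_max R hMp Ψ hΨ g hg) hmax _ (fun g => Iff.rfl) B hBN O hO hON ℓ
  -- constants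
  have hBk : ∀ c : AlgebraicClosure k, IsIntegral R (algebraMap (AlgebraicClosure k) M c) :=
    Pt.integral_const R
  have hc₀ : ∀ c : AlgebraicClosure k, algebraMap (AlgebraicClosure k) M c ∈ A₀ :=
    fun c => (h₀.1 c).1
  have hDM : 4 * (algebraMap (AlgebraicClosure k) M a) ^ 3 +
      27 * (algebraMap (AlgebraicClosure k) M b) ^ 2 = algebraMap _ M (4 * a ^ 3 + 27 * b ^ 2) := by
    simp only [map_add, map_mul, map_pow, map_ofNat]
  have hDM0 : 4 * (algebraMap (AlgebraicClosure k) M a) ^ 3 +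
      27 * (algebraMap (AlgebraicClosure k) M b) ^ 2 ≠ 0 := by
    rw [hDM]
    exact (_root_.map_ne_zero _).2 hD
  -- the half is integral
  obtain ⟨hx', hy', hy''⟩ := H.integral (hBk a) (hBk b)
    (by rw [hDM, ← map_inv₀]; exact hBk _) hDM0 hxR
  obtain ⟨e, he, e1, e2, e3⟩ := exists_roots hD
  have hfac := cubic_fac e1 e2 e3 H.eq'
  have hu := cubic_unit hBk e H.ne hfac hx' hy''
  have hmemA : ∀ {c d : M}, c ∈ IntermediateField.adjoin (AlgebraicClosure k) {c, d} :=
    fun {c d} => IntermediateField.subset_adjoin _ _ (Set.mem_insert _ _)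
  have hmemB : ∀ {c d : M}, d ∈ IntermediateField.adjoin (AlgebraicClosure k) {c, d} :=
    fun {c d} => IntermediateField.subset_adjoin _ _ (Set.mem_insert_of_mem _ rfl)
  -- `K` is in the field generated by the half
  have hK' : ∀ z : K, algebraMap K M z ∈ IntermediateField.adjoin (AlgebraicClosure k) {x', y'} := by
    intro z
    obtain ⟨m1, m2⟩ := H.mem two_ne_zero (IntermediateField.adjoin (AlgebraicClosure k) {x', y'})
      (IntermediateField.algebraMap_mem _ _) (IntermediateField.algebraMap_mem _ _) hmemA hmemB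
    have h2 : IntermediateField.adjoin (AlgebraicClosure k) {x, y} ≤
        IntermediateField.adjoin (AlgebraicClosure k) {x', y'} := by
      rw [IntermediateField.adjoin_le_iff]
      rintro w (rfl | hw)
      · exact m1
      · rw [Set.mem_singleton_iff.1 hw]
        exact m2
    exact h2 (hK z)
  have hx't : Transcendental (AlgebraicClosure k) x' := by
    intro h
    apply hxt
    have h1 : IsAlgebraic (AlgebraicClosure k) y' := by
      have h2 : IsAlgebraic (AlgebraicClosure k) (y' ^ 2) := by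
        rw [H.eq']
        exact ((h.pow 3).add ((isAlgebraic_algebraMap a).mul h)).add (isAlgebraic_algebraMap b)
      exact h2.of_pow two_pos
    let L := algebraicClosure (AlgebraicClosure k) M
    have m := H.mem two_ne_zero L (IntermediateField.algebraMap_mem _ _)
      (IntermediateField.algebraMap_mem _ _) (mem_algebraicClosure_iff.2 h)
      (mem_algebraicClosure_iff.2 h1)
    exact mem_algebraicClosure_iff.1 m.1
  -- cusps
  have hst : ∀ {A : ValuationSubring M} {ψ : A →+* AlgebraicClosure k}, ResOn s A ψ Δ →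
      ∀ σ ∈ Δ, ∀ z : M, z ∈ A ↔ s σ z ∈ A := by
    intro A ψ hr σ hσ z
    refine ⟨fun h => (hr σ hσ ⟨z, h⟩).1, fun h => ?_⟩
    have h3 := (hr σ⁻¹ (inv_mem hσ) ⟨_, h⟩).1
    have h4 : s σ⁻¹ (s σ z) = z := by
      rw [← AlgEquiv.mul_apply, ← map_mul, inv_mul_cancel, map_one, AlgEquiv.one_apply]
    rw [← h4]
    exact h3
  have hcusp : ∀ X Y : M, Transcendental (AlgebraicClosure k) X → Y ≠ 0 →
      Y ^ 2 = X ^ 3 + algebraMap _ M a * X + algebraMap _ M b → IsIntegral R X → IsIntegral R Y⁻¹ →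
      (∀ z : K, algebraMap K M z ∈ IntermediateField.adjoin (AlgebraicClosure k) {X, Y}) →
      X ∉ A₀ → A₁ = A₀ := by
    intro X Y hXt hY0 hXY hXi hYi' hKX hX₀
    have hu := cubic_unit hBk e hY0 (cubic_fac e1 e2 e3 hXY) hXi hYi'
    have hX₁ : X ∉ A₁ := pole_agree R hmax hs hΔ h₀ h₁ hR₀ hR₁ e he hXi (fun i => (hu i).2)
      (fun i => (hu i).1) hX₀
    have hYi : IsIntegral R Y := by
      refine IsIntegral.of_pow two_pos ?_
      rw [hXY]
      exact ((hXi.pow 3).add ((hBk a).mul hXi)).add (hBk b)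
    have hdeg : (C a * Polynomial.X + C b : (AlgebraicClosure k)[X]).degree < ((3 : ℕ) : WithBot ℕ) :=
      lt_of_le_of_lt (by compute_degree : _ ≤ (1 : WithBot ℕ)) (by norm_num)
    have hmon : (Polynomial.X ^ 3 + (C a * Polynomial.X + C b) : (AlgebraicClosure k)[X]).Monic :=
      monic_X_pow_add hdeg
    refine cusp_unique_M ht R hmax hfree hs hsec hΔ hc₀ (fun c => (h₁.1 c).1) hmon (g := 1) ?_ hXt
      ?_ hKX hXi hYi hYi' hX₀ hX₁ (hst hR₀) (hst hR₁)
    · have h3 : (Polynomial.X ^ 3 + (C a * Polynomial.X + C b) : (AlgebraicClosure k)[X]).natDegree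
          = 3 := by compute_degree!
      rw [h3]
    · rw [hXY]
      simp only [map_add, map_mul, map_pow, aeval_X, aeval_C]
      ring
  have h4M : (4 : M)⁻¹ ∈ A₀ := by
    have h5 := hc₀ (4 : AlgebraicClosure k)⁻¹
    rwa [map_inv₀, map_ofNat] at h5
  rcases hA₀ with hRA | hxA
  · -- the place is on `U`
    have hB : ∀ z : M, IsIntegral R z → z ∈ A₀ := fun z hz =>
      PTAux.mem_of_isIntegral (R := R) hRA hz
    have hv₀ : ∀ i, ψ₀ ⟨x', hB _ hx'⟩ ≠ e i := by
      intro i hi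
      have h5 : (x' - algebraMap (AlgebraicClosure k) M (e i))⁻¹ ∈ A₀ := hB _ (hu i).2
      obtain ⟨c1, c2⟩ := h₀.1 (e i)
      have h6 : ψ₀ (⟨_, h5⟩ * (⟨x', hB _ hx'⟩ - ⟨_, c1⟩)) = 1 := by
        rw [← map_one ψ₀]
        congr 1
        exact Subtype.ext (inv_mul_cancel₀ (sub_ne_zero.2 (hu i).1))
      rw [map_mul, map_sub, hi, c2, sub_self, mul_zero] at h6
      exact zero_ne_one h6
    obtain ⟨hx₁, hv₁⟩ := fin_agree R hmax hs hΔ h₀ h₁ hR₀ hR₁ e he hx' (fun i => (hu i).2)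
      (fun i => (hu i).1) (hB _ hx') hv₀
    have hi₁ : ∀ i, (x' - algebraMap (AlgebraicClosure k) M (e i))⁻¹ ∈ A₁ := by
      intro i
      obtain ⟨c1, c2⟩ := h₁.1 (e i)
      refine h₁.2 (⟨x', hx₁⟩ - ⟨_, c1⟩) ?_
      rw [map_sub, c2]
      exact sub_ne_zero.2 (hv₁ i)
    have hunit : ∀ T : M, T ≠ 0 → IsIntegral R T → IsIntegral R T⁻¹ → T ∈ A₁ → T⁻¹ ∈ A₁ →
        Ag ψ₀ ψ₁ T := by
      intro T hT0 hTi hTi' hT hT'
      exact ⟨hB _ hTi, hT, unit_agree hs hΔ h₀ h₁ hR₀ hR₁ hT0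
        (fun n hn => Full.root_of_unit hmax T hTi hTi' n hn) (hB _ hTi) (hB _ hTi') hT hT'⟩
    have hk : ∀ c : AlgebraicClosure k, Ag ψ₀ ψ₁ (algebraMap _ M c) := by
      intro c
      obtain ⟨q1, q2⟩ := h₀.1 c
      obtain ⟨q3, q4⟩ := h₁.1 c
      exact ⟨q1, q3, q4.trans q2.symm⟩
    have hc₁ : ∀ c : AlgebraicClosure k, algebraMap (AlgebraicClosure k) M c ∈ A₁ :=
      fun c => (h₁.1 c).1
    have hxag : Ag ψ₀ ψ₁ x' := by
      have h5 := hunit (x' - algebraMap _ M (e 0)) (sub_ne_zero.2 (hu 0).1) (hx'.sub (hBk _))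
        (hu 0).2 (sub_mem hx₁ (hc₁ _)) (hi₁ 0)
      have h6 : x' = (x' - algebraMap _ M (e 0)) + algebraMap _ M (e 0) := by ring
      rw [h6]
      exact h5.add (hk _)
    have hyA : y' ∈ A₁ := by
      refine Pool.Agent.Lib.MP_2f3286_ag.Fer.mem_of_pow A₁ two_ne_zero ?_
      rw [H.eq']
      exact add_mem (add_mem (pow_mem hx₁ 3) (mul_mem (hc₁ a) hx₁)) (hc₁ b)
    have hyA' : y'⁻¹ ∈ A₁ := by
      refine Pool.Agent.Lib.MP_2f3286_ag.Fer.mem_of_pow A₁ two_ne_zero ?_
      rw [inv_pow, hfac, mul_inv, mul_inv]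
      exact mul_mem (mul_mem (hi₁ 0) (hi₁ 1)) (hi₁ 2)
    have hyag := hunit y' H.ne hy' hy'' hyA hyA'
    have hyne : ∀ h : y' ∈ A₀, ψ₀ ⟨y', h⟩ ≠ 0 := by
      intro h h3
      have h4 : y'⁻¹ ∈ A₀ := hB _ hy''
      have h5 : ψ₀ (⟨y', h⟩ * ⟨_, h4⟩) = 1 := by
        rw [← map_one ψ₀]
        congr 1
        exact Subtype.ext (mul_inv_cancel₀ H.ne)
      rw [map_mul, h3, zero_mul] at h5
      exact zero_ne_one h5
    have hKag : ∀ z : K, algebraMap K M z ∈ A₀ → Ag ψ₀ ψ₁ (algebraMap K M z) := fun z hz =>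
      val_agree (F := AlgebraicClosure k)
        (f := Polynomial.X ^ 3 + C a * Polynomial.X + C b) two_ne_zero (by
          rw [H.eq']
          simp only [map_add, map_mul, map_pow, aeval_X, aeval_C])
        h₀.2 h₁.2 hk hxag hyag hyne (hK' z) hz
    obtain ⟨g1, -⟩ := SNeigh.section_of_open hKfg htr R hfg hM s hsec
      (fun r => (hKag r (hRA r)).2.1) h₁ Δ hΔ hR₁
    refine ((SNeigh.section_of_open hKfg htr R hfg hM s hsec hRA h₀ Δ hΔ hR₀).2 A₁ ψ₁ g1
      fun f hf => ?_).1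
    obtain ⟨q1, q2, q3⟩ := hKag f hf
    exact ⟨q2, q3⟩
  · -- the point is at infinity
    by_cases hx'A : x' ∈ A₀
    swap
    · exact hcusp x' y' hx't H.ne H.eq' hx' hy'' hK' hx'A
    -- the half is a point of order two
    obtain ⟨i, hi⟩ : ∃ i, ψ₀ ⟨x', hx'A⟩ = e i := by
      by_contra hcon
      push Not at hcon
      apply hxA
      refine H.mem_val A₀ (OfNat.ofNat_ne_zero 4) h4M (hc₀ a) (hc₀ b) hx'A ?_
      refine Pool.Agent.Lib.MP_2f3286_ag.Fer.mem_of_pow A₀ two_ne_zero ?_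
      rw [inv_pow, hfac, mul_inv, mul_inv]
      have hi₀ : ∀ i, (x' - algebraMap (AlgebraicClosure k) M (e i))⁻¹ ∈ A₀ := by
        intro i
        obtain ⟨c1, c2⟩ := h₀.1 (e i)
        refine h₀.2 (⟨x', hx'A⟩ - ⟨_, c1⟩) ?_
        rw [map_sub, c2]
        exact sub_ne_zero.2 (hcon i)
      exact mul_mem (mul_mem (hi₀ 0) (hi₀ 1)) (hi₀ 2)
    have hroot : e i ^ 3 + a * e i + b = 0 := by
      have h5 : e 0 ^ 3 + a * e 0 + b = 0 ∧ e 1 ^ 3 + a * e 1 + b = 0 ∧
          e 2 ^ 3 + a * e 2 + b = 0 := by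
        rw [← e2, show b = -(e 0 * e 1 * e 2) by rw [e3, neg_neg]]
        have h6 : e 2 = -(e 0 + e 1) := by linear_combination e1
        rw [h6]
        refine ⟨by ring, by ring, by ring⟩
      fin_cases i
      · exact h5.1
      · exact h5.2.1
      · exact h5.2.2
    obtain ⟨c, hc⟩ : ∃ c : M, c = algebraMap (AlgebraicClosure k) M (e i) := ⟨_, rfl⟩
    obtain ⟨A, hA⟩ : ∃ A : M, A = algebraMap (AlgebraicClosure k) M a := ⟨_, rfl⟩
    obtain ⟨B, hB⟩ : ∃ B : M, B = algebraMap (AlgebraicClosure k) M b := ⟨_, rfl⟩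
    have hκ0 : 3 * (e i) ^ 2 + a ≠ 0 := by
      intro h0
      apply hD
      have h5 : a = -(3 * (e i) ^ 2) := by linear_combination h0
      have h6 : b = 2 * (e i) ^ 3 := by
        rw [h5] at hroot
        linear_combination hroot
      rw [h5, h6]
      ring
    obtain ⟨κ, hκ⟩ : ∃ κ : M, κ = algebraMap (AlgebraicClosure k) M (3 * (e i) ^ 2 + a) :=
      ⟨_, rfl⟩
    have hκM : κ ≠ 0 := by rw [hκ]; exact (_root_.map_ne_zero _).2 hκ0
    have hκ' : κ = 3 * c ^ 2 + A := by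
      rw [hκ, hc, hA]
      simp only [map_add, map_mul, map_pow, map_ofNat]
    have hrootM : c ^ 3 + A * c + B = 0 := by
      rw [hc, hA, hB, ← map_pow, ← map_mul, ← map_add, ← map_add, hroot, map_zero]
    have hw0 : x' - c ≠ 0 := by rw [hc]; exact sub_ne_zero.2 (hu i).1
    obtain ⟨w, hw⟩ : ∃ w : M, w = x' - c := ⟨_, rfl⟩
    have hw0' : w ≠ 0 := by rw [hw]; exact hw0
    have hwi : IsIntegral R w := by rw [hw, hc]; exact hx'.sub (hBk _)
    have hwi' : IsIntegral R w⁻¹ := by rw [hw, hc]; exact (hu i).2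
    have hκi : IsIntegral R κ := by rw [hκ]; exact hBk _
    have hκi' : IsIntegral R κ⁻¹ := by rw [hκ, ← map_inv₀]; exact hBk _
    have hyw : y' ^ 2 = w * (w ^ 2 + 3 * c * w + κ) := by
      have h5 := H.eq'
      rw [← hA, ← hB] at h5
      rw [h5, hκ', hw]
      linear_combination hrootM
    have hXt : Transcendental (AlgebraicClosure k) (c + κ * w⁻¹) := by
      intro h
      apply hx't
      have h5 : x' = c + κ * ((c + κ * w⁻¹) - c)⁻¹ := by
        rw [add_sub_cancel_left, mul_inv, inv_inv, ← mul_assoc, mul_inv_cancel₀ hκM, one_mul, hw]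
        ring
      rw [h5]
      have h6 : IsAlgebraic (AlgebraicClosure k) c := by rw [hc]; exact isAlgebraic_algebraMap _
      have h7 : IsAlgebraic (AlgebraicClosure k) κ := by rw [hκ]; exact isAlgebraic_algebraMap _
      exact h6.add (h7.mul (h.sub h6).inv)
    refine hcusp (c + κ * w⁻¹) (-(κ * y' * w⁻¹ ^ 2)) hXt ?_ ?_ ?_ ?_ ?_ ?_
    · exact neg_ne_zero.2 (mul_ne_zero (mul_ne_zero hκM H.ne) (pow_ne_zero 2 (inv_ne_zero hw0')))
    · rw [← hA, ← hB]
      have h5 : (-(κ * y' * w⁻¹ ^ 2)) ^ 2 = κ ^ 2 * (w * (w ^ 2 + 3 * c * w + κ)) * w⁻¹ ^ 4 := by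
        rw [← hyw]; ring
      rw [h5]
      have hv : w * w⁻¹ = 1 := mul_inv_cancel₀ hw0'
      linear_combination (κ ^ 2 * (w⁻¹ * ((w * w⁻¹) ^ 2 + w * w⁻¹ + 1) +
        3 * c * w⁻¹ ^ 2 * (w * w⁻¹ + 1) + κ * w⁻¹ ^ 3)) * hv + κ * w⁻¹ * hκ' - hrootM
    · exact (by rw [hc]; exact hBk _ : IsIntegral R c).add (hκi.mul hwi')
    · have h5 : (-(κ * y' * w⁻¹ ^ 2))⁻¹ = -(κ⁻¹ * y'⁻¹ * w ^ 2) := by
        rw [inv_neg, mul_inv, mul_inv, inv_pow, inv_inv]
      rw [h5]
      exact ((hκi'.mul hy'').mul (hwi.pow 2)).neg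
    · intro z
      have h2 : IntermediateField.adjoin (AlgebraicClosure k) {x', y'} ≤
          IntermediateField.adjoin (AlgebraicClosure k) {c + κ * w⁻¹, -(κ * y' * w⁻¹ ^ 2)} := by
        set L := IntermediateField.adjoin (AlgebraicClosure k)
          {c + κ * w⁻¹, -(κ * y' * w⁻¹ ^ 2)} with hL
        have m1 : c + κ * w⁻¹ ∈ L := hmemA
        have m2 : -(κ * y' * w⁻¹ ^ 2) ∈ L := hmemB
        have m3 : c ∈ L := by rw [hc]; exact IntermediateField.algebraMap_mem _ _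
        have m4 : κ ∈ L := by rw [hκ]; exact IntermediateField.algebraMap_mem _ _
        have m5 : w ∈ L := by
          have h5 : w = κ * ((c + κ * w⁻¹) - c)⁻¹ := by
            rw [add_sub_cancel_left, mul_inv, inv_inv, ← mul_assoc, mul_inv_cancel₀ hκM, one_mul]
          rw [h5]
          exact mul_mem m4 (inv_mem (sub_mem m1 m3))
        rw [IntermediateField.adjoin_le_iff]
        rintro q (rfl | hq)
        · have h5 : q = w + c := by rw [hw]; ring
          change q ∈ L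
          rw [h5]
          exact add_mem m5 m3
        · rw [Set.mem_singleton_iff.1 hq]
          have h5 : y' = -(-(κ * y' * w⁻¹ ^ 2)) * κ⁻¹ * w ^ 2 := by
            field_simp
          change y' ∈ L
          rw [h5]
          exact mul_mem (mul_mem (neg_mem m2) (inv_mem m4)) (pow_mem m5 2)
      exact h2 (hK' z)
    · intro h5
      have h6 : κ * w⁻¹ ∈ A₀ := by
        have h7 : κ * w⁻¹ = (c + κ * w⁻¹) - c := by ring
        rw [h7]
        exact sub_mem h5 (by rw [hc]; exact hc₀ _)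
      have h7 : w⁻¹ ∈ A₀ := by
        have h8 : w⁻¹ = κ⁻¹ * (κ * w⁻¹) := by
          rw [← mul_assoc, inv_mul_cancel₀ hκM, one_mul]
        rw [h8]
        exact mul_mem (by rw [hκ, ← map_inv₀]; exact hc₀ _) h6
      obtain ⟨c1, c2⟩ := h₀.1 (e i)
      have h8 : ψ₀ (⟨_, h7⟩ * (⟨x', hx'A⟩ - ⟨_, c1⟩)) = 1 := by
        rw [← map_one ψ₀]
        congr 1
        refine Subtype.ext ?_
        change w⁻¹ * (x' - algebraMap (AlgebraicClosure k) M (e i)) = 1
        rw [← hc, ← hw, inv_mul_cancel₀ hw0']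
      rw [map_mul, map_sub, hi, c2, sub_self, mul_zero] at h8
      exact zero_ne_one h8

end Pool.Agent.Lib.MP_2f3286_ag.UA
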