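import Pool.Agent.Lib.MP_2f3286_ag.UA.Z7

/-!
# Unramified extensions closed under unramified radicals: points and places

For `M/K` unramified over the affine curve `R` and closed under radicals which are unramified over it, the
conditions at the places imply those at the points.
-/

open Polynomial IntermediateField IsDedekindDomain NumberField
open Pool.Agent.Lib.MP_2f3286_ag

namespace Pool.Agent.Lib.MP_2f3286_ag.UA

open Pool.Agent.Lib.MP_2f3286_ag.HYP Pool.Agent.Lib.MP_2f3286_ag.Full
open Pool.Agent.Lib.MP_2f3286_ag.Pt Pool.Agent.Lib.MP_2f3286_ag.SNeigh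
  Pool.Agent.Lib.MP_2f3286_ag.SFull

section conv

variable {k K M : Type*} [Field k] [CharZero k] [Field K] [Field M]
    [Algebra k K] [Algebra K M] [Algebra (AlgebraicClosure k) M] [Algebra k M]
    [IsScalarTower k K M] [IsScalarTower k (AlgebraicClosure k) M] [Algebra.IsAlgebraic K M]
    (R : Subalgebra k K)
    (t : K) (htR : t ∈ R) (ht : Transcendental k t)
    [FiniteDimensional (IntermediateField.adjoin k {t}) K]

include ht in
/-- closed under radicals unramified at the places, hence at the points -/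
theorem radClosed_of_over (h : IsRadClosedOver R M (AlgebraicClosure k)) :
    IsRadClosed R M (AlgebraicClosure k) := by
  have htM : Transcendental (AlgebraicClosure k) (algebraMap K M t) :=
    PTAux.transc (k := k) t ht
  have halgM : ∀ z : M, IsAlgebraic
      (IntermediateField.adjoin (AlgebraicClosure k) {algebraMap K M t}) z :=
    Full.isAlgebraic_M (k := k) t
  intro n ρ hn hρ hpt
  refine h n ρ hn hρ fun V ⟨⟨hV1, hV2⟩, hV3⟩ => ?_
  obtain ⟨r, hr, hr'⟩ := exists_residue V hV1 fun y hy =>
    MaxOver.residue_const _ htM halgM V hV1 hV2 y hy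
  have hBV : ∀ b : integralClosure R M, (b : M) ∈ V :=
    fun b => PTAux.mem_of_isIntegral (R := R) hV3 b.2
  let Ψ : integralClosure R M →+* AlgebraicClosure k :=
    r.comp ((algebraMap (integralClosure R M) M).codRestrict V hBV)
  have hΨ : IsPt R M (AlgebraicClosure k) Ψ := by
    intro a b hab
    refine hr' _ _ ?_
    change V.valuation ((b : M) - _) < 1
    rw [hab, sub_self, map_zero]
    exact zero_lt_one
  have hval : ∀ b : integralClosure R M, Ψ b ≠ 0 → V.valuation (b : M) = 1 := by
    intro b hb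
    refine le_antisymm ((V.valuation_le_one_iff _).2 (hBV b)) ?_
    by_contra hcon
    rw [not_le] at hcon
    refine hb (hr' _ _ ?_)
    rw [map_zero, sub_zero]
    exact hcon
  obtain ⟨c, x, y, hx, hy, e⟩ := hpt Ψ hΨ
  have hx0 : (x : M) ≠ 0 := by
    intro h0
    apply hx
    have h1 : x = 0 := Subtype.ext h0
    rw [h1, map_zero]
  have hc : c ≠ 0 := by
    rintro rfl
    rw [zero_pow (by omega), zero_mul] at e
    rcases mul_eq_zero.1 e with h1 | h1
    · exact hρ h1
    · exact hx0 h1
  refine ⟨c, hc, ?_⟩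
  have h2 : ρ * (c ^ n)⁻¹ = y * (x : M)⁻¹ := by
    rw [← div_eq_mul_inv, ← div_eq_mul_inv, div_eq_div_iff (pow_ne_zero n hc) hx0, e, mul_comm]
  rw [h2, map_mul, map_inv₀, hval x hx, hval y hy, inv_one, mul_one]

include htR ht in
/-- unramified at the places, hence at the points -/
theorem unram_of_over [IsGalois K M] (htr : Algebra.trdeg k M = 1)
    (h : IsUnramOver R K M (AlgebraicClosure k))
    (Ψ : integralClosure R M →+* AlgebraicClosure k) (hΨ : IsPt R M (AlgebraicClosure k) Ψ)
    (g : Gal(M/K))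
    (hg : ∀ b b' : integralClosure R M, (b' : M) = g b → Ψ b' = Ψ b) : g = 1 := by
  have htM : Transcendental (AlgebraicClosure k) (algebraMap K M t) :=
    PTAux.transc (k := k) t ht
  obtain ⟨A, π, hA1, hA2, hA3⟩ := exists_place_of_frac
    (integralClosure R M).toSubring Ψ
    (fun x => frac_of_hom R htr ⟨t, htR⟩ ht Ψ x)
  have hconst : ∀ a : AlgebraicClosure k, IsIntegral R (algebraMap _ M a) :=
    fun a => integral_const R a
  have hmem : ∀ b : integralClosure R M, ∃ h : (b : M) ∈ A,
      π ⟨b, h⟩ = Ψ b := by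
    intro b
    obtain ⟨h1, h2⟩ := hA2 b b 1 (by simp) (by rw [map_one]; exact one_ne_zero)
    refine ⟨h1, h2.trans ?_⟩
    rw [map_one, div_one]
  have hval : ∀ y : A, π y = 0 → A.valuation (y : M) < 1 := by
    intro y hy
    rw [Full.val_lt_one_iff]
    by_cases hy0 : (y : M) = 0
    · exact Or.inl hy0
    refine Or.inr fun h => ?_
    have h1 : y * ⟨_, h⟩ = 1 := Subtype.ext (mul_inv_cancel₀ hy0)
    have h2 := congrArg π h1
    rw [map_mul, hy, zero_mul, map_one] at h2
    exact zero_ne_one h2
  refine h A ⟨⟨fun a => (hmem ⟨_, hconst a⟩).1, ?_⟩, fun r => ?_⟩ g fun y hy => ?_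
  · intro htop
    have hall : ∀ z, z ∈ A := fun z => by rw [htop]; exact ValuationSubring.mem_top _
    obtain ⟨h1, h2⟩ := hmem ⟨algebraMap K M t,
      (isIntegral_algebraMap (R := R) (A := M) (x := ⟨t, htR⟩))⟩
    set c := π ⟨algebraMap K M t, h1⟩ with hc
    obtain ⟨h3, h4⟩ := hmem ⟨_, hconst c⟩
    have h5 : Ψ ⟨_, hconst c⟩ = c := hΨ c _ rfl
    have h4' := h4.trans h5
    have h6 : π (⟨algebraMap K M t, h1⟩ - ⟨_, h3⟩) = 0 := by
      rw [map_sub, h4', ← hc, sub_self]
    have h7 := hval _ h6
    have h8 : algebraMap K M t - algebraMap _ _ c ≠ 0 := by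
      intro h0
      rw [sub_eq_zero] at h0
      apply htM
      rw [h0]
      exact isAlgebraic_algebraMap c
    rw [Full.val_lt_one_iff] at h7
    rcases h7 with h7 | h7
    · exact h8 h7
    · exact h7 (hall _)
  · exact (hmem ⟨_, isIntegral_algebraMap (x := r)⟩).1
  · obtain ⟨a, b, hab, hb⟩ := hA3 y hy
    let act : integralClosure R M → integralClosure R M :=
      fun c => ⟨g c, c.2.map ((g.toAlgHom.restrictScalars R : M →ₐ[R] M))⟩
    have ha' := hg a (act a) rfl
    have hb' := hg b (act b) rfl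
    have hgy : g y * (act b : M) = act a := by
      change g y * g b = g a
      rw [← map_mul]
      exact congrArg g hab
    obtain ⟨h1, h2⟩ := hA2 (g y) (act a) (act b) hgy (by
      intro h0
      exact hb (hb'.symm.trans h0))
    obtain ⟨h3, h4⟩ := hA2 y a b hab hb
    refine ⟨h1, hval (⟨_, h1⟩ - ⟨_, h3⟩) ?_⟩
    rw [map_sub, h2, h4]
    change Ψ (act a) / Ψ (act b) - Ψ a / Ψ b = 0
    rw [ha', hb', sub_self]

end conv

end Pool.Agent.Lib.MP_2f3286_ag.UA
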