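import Pool.Agent.Lib.MP_2f3286_ag.UA.ZR1
import Pool.Agent.Lib.MP_2f3286_ag.SNeigh.Desc

/-!
# Unramified extensions closed under unramified radicals: a section has at most one place over a given place

A copy of `SNeigh.place_uniq` and `SNeigh.section_of_open` for extensions unramified over an affine curve
and closed under the radicals which are unramified over it.
-/

open Polynomial IntermediateField IsDedekindDomain NumberField
open Pool.Agent.Lib.MP_2f3286_ag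

namespace Pool.Agent.Lib.MP_2f3286_ag.UA

open Pool.Agent.Lib.MP_2f3286_ag.Pt Pool.Agent.Lib.MP_2f3286_ag.Full
  Pool.Agent.Lib.MP_2f3286_ag.SFull Pool.Agent.Lib.MP_2f3286_ag.SNeigh

universe u in
theorem place_uniqR {k : Type u} [Field k] [NumberField k]
    {K : Type*} [Field K] [Algebra k K] (hK : (⊤ : IntermediateField k K).FG)
    (htr : Algebra.trdeg k K = 1) (R₀ : Subalgebra k K) (hfg : R₀.FG)
    {M : Type*} [Field M] [Algebra K M] [IsGalois K M]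
    [Algebra (AlgebraicClosure k) M] [Algebra k M]
    [IsScalarTower k K M] [IsScalarTower k (AlgebraicClosure k) M]
    (hunO : IsUnramOver R₀ K M (AlgebraicClosure k))
    (hmaxO : IsRadClosedOver R₀ M (AlgebraicClosure k))
    (s : Gal(AlgebraicClosure k/k) →* Gal(M/K))
    (hsec : ∀ σ a, s σ (algebraMap (AlgebraicClosure k) M a) =
      algebraMap (AlgebraicClosure k) M (σ a))
    {A₀ A₁ : ValuationSubring M} {ψ₀ : A₀ →+* AlgebraicClosure k} {ψ₁ : A₁ →+* AlgebraicClosure k}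
    (hR : ∀ r : R₀, algebraMap K M r ∈ A₀) (h₀ : IsOver A₀ ψ₀) (h₁ : IsOver A₁ ψ₁)
    (hagr : ∀ (f : K) (h : algebraMap K M f ∈ A₀), ∃ h' : algebraMap K M f ∈ A₁,
      ψ₁ ⟨_, h'⟩ = ψ₀ ⟨_, h⟩)
    (Δ : Subgroup Gal(AlgebraicClosure k/k)) (hΔ : IsOpen (Δ : Set Gal(AlgebraicClosure k/k)))
    (hr₀ : ResOn s A₀ ψ₀ Δ) (hr₁ : ResOn s A₁ ψ₁ Δ) :
    A₁ = A₀ ∧ ∀ (a : A₁) (b : A₀), (a : M) = b → ψ₁ a = ψ₀ b := by
  classical
  set kb := AlgebraicClosure k with hkbdef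
  -- a function which is finite at the place
  obtain ⟨t, ht, htA⟩ : ∃ t : K, Transcendental k t ∧ algebraMap K M t ∈ A₀ := by
    have h0 : ∃ f : K, Transcendental k f := by
      by_contra hcon
      push Not at hcon
      have : Algebra.IsAlgebraic k K := ⟨fun x => by
        have := hcon x
        rwa [Transcendental, not_not] at this⟩
      rw [trdeg_eq_zero] at htr
      exact zero_ne_one htr
    obtain ⟨f, hf⟩ := h0
    rcases A₀.mem_or_inv_mem (algebraMap K M f) with h | h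
    · exact ⟨f, hf, h⟩
    · refine ⟨f⁻¹, fun h1 => hf ?_, by rwa [map_inv₀]⟩
      have := h1.inv
      rwa [inv_inv] at this
  have hfd := finite_of_fg htr hK ht
  let R' : Subalgebra k K := R₀ ⊔ Algebra.adjoin k {t}
  let R : Subalgebra k K := (integralClosure R' K).restrictScalars k
  have hmemR : ∀ x : K, x ∈ R ↔ IsIntegral R' x := fun x => Iff.rfl
  have hR'R : R' ≤ R := fun x hx => (isIntegral_algebraMap (R := R') (A := K) (x := ⟨x, hx⟩))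
  have hR₀R : R₀ ≤ R := le_trans le_sup_left hR'R
  have htR : t ∈ R := hR'R ((le_sup_right : Algebra.adjoin k {t} ≤ R')
    (Algebra.subset_adjoin (Set.mem_singleton t)))
  have hRn : ∀ x : K, IsIntegral R x → x ∈ R := by
    intro x hx
    have hx' : IsIntegral (integralClosure R' K) x := hx
    exact isIntegral_trans x hx'
  have hRV : ∀ V : ValuationSubring M, (∀ a : k, algebraMap k M a ∈ V) →
      (∀ r : R₀, algebraMap K M r ∈ V) → algebraMap K M t ∈ V →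
      ∀ b : integralClosure R M, (b : M) ∈ V := by
    intro V h0 h1 h2 b
    refine PTAux.mem_of_isIntegral (R := R) (fun r => ?_) b.2
    have h3 : IsIntegral R' (r : K) := (hmemR _).mp r.2
    have h4 : IsIntegral R' (algebraMap K M (r : K)) := h3.map (IsScalarTower.toAlgHom R' K M)
    exact PTAux.mem_of_isIntegral (R := R') (fun r' => sup_mem V h0 R₀ h1 t h2 r' r'.2) h4
  have hkA : ∀ {A : ValuationSubring M} {ψ : A →+* kb}, IsOver A ψ →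
      ∀ a : k, algebraMap k M a ∈ A := by
    intro A ψ h a
    obtain ⟨h', -⟩ := h.1 (algebraMap k kb a)
    rwa [← IsScalarTower.algebraMap_apply] at h'
  have hBA₀ : ∀ b : integralClosure R M, (b : M) ∈ A₀ := hRV A₀ (hkA h₀) hR htA
  have hBA₁ : ∀ b : integralClosure R M, (b : M) ∈ A₁ :=
    hRV A₁ (hkA h₁) (fun r => (hagr _ (hR r)).1) (hagr _ htA).1
  -- the points
  have hpt : ∀ {A : ValuationSubring M} {ψ : A →+* kb}, IsOver A ψ →
      ∀ hBA : ∀ b : integralClosure R M, (b : M) ∈ A,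
      ∃ Ψ : integralClosure R M →+* kb, (∀ b, Ψ b = ψ ⟨b, hBA b⟩) ∧ IsPt R M kb Ψ := by
    intro A ψ h hBA
    refine ⟨ψ.comp ((algebraMap (integralClosure R M) M).codRestrict A hBA), fun b => rfl,
      fun a b hab => ?_⟩
    obtain ⟨h1, h2⟩ := h.1 a
    change ψ ⟨b, hBA b⟩ = a
    rw [← h2]
    congr 1
    exact Subtype.ext hab
  obtain ⟨Ψ₀, e₀, hΨ₀⟩ := hpt h₀ hBA₀
  obtain ⟨Ψ₁, e₁, hΨ₁⟩ := hpt h₁ hBA₁
  have hrΨ : ∀ {A : ValuationSubring M} {ψ : A →+* kb} (hBA : ∀ b : integralClosure R M, (b : M) ∈ A)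
      (Ψ : integralClosure R M →+* kb), (∀ b, Ψ b = ψ ⟨b, hBA b⟩) → ResOn s A ψ Δ →
      ∀ σ ∈ Δ, ∀ b b' : integralClosure R M, (b' : M) = s σ b → Ψ b' = σ (Ψ b) := by
    intro A ψ hBA Ψ hΨ h σ hσ b b' hb
    obtain ⟨h1, h2⟩ := h σ hσ ⟨b, hBA b⟩
    rw [hΨ, hΨ, ← h2]
    congr 1
    exact Subtype.ext hb
  have hΨ : Ψ₁ = Ψ₀ := uniq_open t ht R hRn
    (fun Ψ hΨ g _ hg => hun_of_over t ht R₀ R hR₀R htR hunO Ψ hΨ g hg)
    (fun B hBN ⟨O, hO, hON⟩ ℓ _ => fin_lift_over t ht R₀ hfg hunO hmaxO (geomGroup K M kb)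
      (fun g => mem_geomGroup) B hBN O hO hON ℓ) s hsec Ψ₀ Ψ₁ hΨ₀ hΨ₁ (fun r => by
        obtain ⟨h1, h2⟩ := hagr (r : K) (hBA₀ (algebraMap R _ r))
        rw [e₀, e₁]
        exact h2) Δ Δ hΔ hΔ (hrΨ hBA₀ Ψ₀ e₀ hr₀) (hrΨ hBA₁ Ψ₁ e₁ hr₁)
  -- the place of the point
  obtain ⟨A', ψ', hA', hBψ, hmul, hunit⟩ := exists_place t ht R htR Ψ₀ hΨ₀
  have hle : ∀ {A : ValuationSubring M} {ψ : A →+* kb}, IsOver A ψ →
      ∀ hBA : ∀ b : integralClosure R M, (b : M) ∈ A, (∀ b, Ψ₀ b = ψ ⟨b, hBA b⟩) →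
      ∀ x : A', ∃ h : (x : M) ∈ A, ψ ⟨x, h⟩ = ψ' x := by
    intro A ψ h hBA he x
    obtain ⟨a, b, hb, hab⟩ := (hA' x).mp x.2
    have h3 : (b : M)⁻¹ ∈ A := h.2 ⟨b, hBA b⟩ (by rw [← he]; exact hb)
    have hb0 : (b : M) ≠ 0 := by
      intro h0
      apply hb
      rw [show b = 0 from Subtype.ext h0, map_zero]
    have h4 : (x : M) = a * (b : M)⁻¹ := by rw [← hab, mul_inv_cancel_right₀ hb0]
    have h5 : (x : M) ∈ A := by rw [h4]; exact A.mul_mem _ _ (hBA a) h3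
    refine ⟨h5, mul_right_cancel₀ hb ?_⟩
    rw [hmul x a b hab, he, he, ← map_mul]
    congr 1
    exact Subtype.ext hab
  obtain ⟨q1, q2⟩ := place_eq hunit (hle h₀ hBA₀ e₀)
  obtain ⟨q3, q4⟩ := place_eq hunit (hle h₁ hBA₁ (fun b => by rw [← hΨ]; exact e₁ b))
  subst q1
  refine ⟨q3, fun a b hab => ?_⟩
  rw [q4 a b hab, q2 b b rfl]


universe u in
/-- A place respected by `s` on an open subgroup: `s` is the section of the place over the field of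
its values on `K`, and it is the only such place over its restriction to `K`. -/
theorem section_of_openR {k : Type u} [Field k] [NumberField k]
    {K : Type*} [Field K] [Algebra k K] (hK : (⊤ : IntermediateField k K).FG)
    (htr : Algebra.trdeg k K = 1) (R₀ : Subalgebra k K) (hfg : R₀.FG)
    {M : Type*} [Field M] [Algebra K M] [IsGalois K M]
    [Algebra (AlgebraicClosure k) M] [Algebra k M]
    [IsScalarTower k K M] [IsScalarTower k (AlgebraicClosure k) M]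
    (hunO : IsUnramOver R₀ K M (AlgebraicClosure k))
    (hmaxO : IsRadClosedOver R₀ M (AlgebraicClosure k))
    (s : Gal(AlgebraicClosure k/k) →* Gal(M/K))
    (hsec : ∀ σ a, s σ (algebraMap (AlgebraicClosure k) M a) =
      algebraMap (AlgebraicClosure k) M (σ a))
    {A₀ : ValuationSubring M} {ψ₀ : A₀ →+* AlgebraicClosure k}
    (hR : ∀ r : R₀, algebraMap K M r ∈ A₀) (h₀ : IsOver A₀ ψ₀)
    (Δ : Subgroup Gal(AlgebraicClosure k/k)) (hΔ : IsOpen (Δ : Set Gal(AlgebraicClosure k/k)))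
    (hr₀ : ResOn s A₀ ψ₀ Δ) :
    Sel.IsSectionAt s A₀ ψ₀ ∧
      ∀ (A₁ : ValuationSubring M) (ψ₁ : A₁ →+* AlgebraicClosure k), Sel.IsSectionAt s A₁ ψ₁ →
        (∀ (f : K) (h : algebraMap K M f ∈ A₀), ∃ h' : algebraMap K M f ∈ A₁,
          ψ₁ ⟨_, h'⟩ = ψ₀ ⟨_, h⟩) →
        A₁ = A₀ ∧ ∀ (a : A₁) (b : A₀), (a : M) = b → ψ₁ a = ψ₀ b := by
  set kb := AlgebraicClosure k with hkbdef
  have hstab : Δ ≤ stab K A₀ ψ₀ := by
    intro σ hσ f h
    obtain ⟨h1, h2⟩ := hr₀ σ hσ ⟨algebraMap K M f, h⟩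
    rw [← h2]
    congr 1
    exact Subtype.ext ((s σ).commutes f)
  have hopen : IsOpen ((stab K A₀ ψ₀ : Subgroup Gal(kb/k)) : Set Gal(kb/k)) :=
    Subgroup.isOpen_mono hstab hΔ
  refine ⟨⟨h₀.1, h₀.2, hopen, fun σ hσ x => ?_⟩, fun A₁ ψ₁ hA₁ hagr => ?_⟩
  · obtain ⟨A₁, ψ₁, p1, p2, p3⟩ := exists_conj hsec h₀ σ
    have hKA : ∀ f : K, (s σ)⁻¹ (algebraMap K M f) = algebraMap K M f := fun f =>
      ((s σ)⁻¹).commutes f
    let Δ' : Subgroup Gal(kb/k) := Δ ⊓ Δ.comap (MulAut.conj σ⁻¹).toMonoidHom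
    have hΔ' : IsOpen (Δ' : Set Gal(kb/k)) := by
      refine hΔ.inter (hΔ.preimage ?_)
      change Continuous fun x => σ⁻¹ * x * σ⁻¹⁻¹
      fun_prop
    have hr₀' : ResOn s A₀ ψ₀ Δ' := fun τ hτ => hr₀ τ hτ.1
    have hr₁' : ResOn s A₁ ψ₁ Δ' := by
      rintro τ ⟨-, hτ⟩ y
      have h1 : σ⁻¹ * τ * σ ∈ Δ := by
        have h2 : σ⁻¹ * τ * σ⁻¹⁻¹ ∈ Δ := hτ
        rwa [inv_inv] at h2
      have hy : (s σ)⁻¹ (y : M) ∈ A₀ := (p2 _).mp y.2
      obtain ⟨h3, h4⟩ := hr₀ _ h1 ⟨_, hy⟩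
      have h5 : (s σ)⁻¹ (s τ y) = s (σ⁻¹ * τ * σ) ((s σ)⁻¹ (y : M)) := by
        rw [← AlgEquiv.mul_apply, ← AlgEquiv.mul_apply, map_mul, map_mul, map_inv]
        congr 1
        group
      have h6 : (s σ)⁻¹ (s τ y) ∈ A₀ := by rw [h5]; exact h3
      have h7 : s τ y ∈ A₁ := (p2 _).mpr h6
      refine ⟨h7, ?_⟩
      rw [p3 _ h7 h6, p3 _ y.2 hy]
      have h8 : (⟨(s σ)⁻¹ (s τ y), h6⟩ : A₀) = ⟨_, h3⟩ := Subtype.ext h5
      rw [h8, h4, ← AlgEquiv.mul_apply, ← AlgEquiv.mul_apply]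
      congr 1
      group
    obtain ⟨q1, q2⟩ := place_uniqR hK htr R₀ hfg hunO hmaxO s hsec hR h₀ p1 (fun f hf => by
      have h1 : (s σ)⁻¹ (algebraMap K M f) ∈ A₀ := by rw [hKA]; exact hf
      refine ⟨(p2 _).mpr h1, ?_⟩
      rw [p3 _ _ h1]
      have h2 : (⟨(s σ)⁻¹ (algebraMap K M f), h1⟩ : A₀) = ⟨_, hf⟩ := Subtype.ext (hKA f)
      rw [h2]
      exact hσ f hf) Δ' hΔ' hr₀' hr₁'
    have e1 : (s σ)⁻¹ (s σ (x : M)) = x := (s σ).symm_apply_apply x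
    have h1 : (s σ)⁻¹ (s σ (x : M)) ∈ A₀ := by rw [e1]; exact x.2
    have h2 : s σ (x : M) ∈ A₁ := (p2 _).mpr h1
    have h3 : s σ (x : M) ∈ A₀ := q1 ▸ h2
    refine ⟨h3, ?_⟩
    rw [← q2 ⟨_, h2⟩ ⟨_, h3⟩ rfl, p3 _ h2 h1]
    congr 2
    exact Subtype.ext e1
  · obtain ⟨g1, g2, g3, g4⟩ := hA₁
    refine place_uniqR hK htr R₀ hfg hunO hmaxO s hsec hR h₀ ⟨g1, g2⟩ hagr (Δ ⊓ stab K A₁ ψ₁)
      (hΔ.inter g3) (fun τ hτ => hr₀ τ hτ.1) (fun τ hτ => g4 τ hτ.2)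

end Pool.Agent.Lib.MP_2f3286_ag.UA
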