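import Pool.Agent.Lib.MP_2f3286_ag.UA.ZR3

/-!
# Unramified extensions closed under unramified radicals: the place of a section is the only one

A copy of Z7 for extensions unramified over an affine curve and closed under the radicals which are
unramified over it.
-/

open WeierstrassCurve WeierstrassCurve.Affine WeierstrassCurve.Affine.Point
open IsDedekindDomain NumberField
open Pool.Agent.Lib.MP_2f3286_ag

namespace Pool.Agent.Lib.MP_2f3286_ag.UA

open Pool.Agent.Lib.MP_2f3286_ag.SNeigh (IsOver ResOn)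

universe u v

open scoped Classical in
/-- **The place is the only one.** -/
theorem only_place_ER {k : Type u} [Field k] [NumberField k]
    {F : Type v} [Field F] [Algebra F (AlgebraicClosure k)]
    [Algebra.IsAlgebraic F (AlgebraicClosure k)]
    (W : WeierstrassCurve F) [W.IsShortNF] [W.IsElliptic]
    {K : Type*} [Field K] [Algebra k K] (htr : Algebra.trdeg k K = 1)
    (R : Subalgebra k K) (hfg : R.FG) (hRn : ∀ y : K, _root_.IsIntegral R y → y ∈ R)
    {M : Type*} [Field M] [Algebra K M] [IsGalois K M]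
    [Algebra (AlgebraicClosure k) M] [Algebra k M]
    [IsScalarTower k K M] [IsScalarTower k (AlgebraicClosure k) M]
    [Algebra F M] [IsScalarTower F (AlgebraicClosure k) M]
    (hunO : Pt.IsUnramOver R K M (AlgebraicClosure k))
    (hmaxO : Pt.IsRadClosedOver R M (AlgebraicClosure k))
    (s : Gal(AlgebraicClosure k/k) →* Gal(M/K)) (hs : Continuous s)
    (hsec : ∀ σ a, s σ (algebraMap (AlgebraicClosure k) M a) =
      algebraMap (AlgebraicClosure k) M (σ a))
    {x y : M} (hxy : (W⁄M).Nonsingular x y) (hxt : Transcendental F x)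
    (hxR : _root_.IsIntegral R x) {T : (W⁄M).Point} (hT : 2 • T = some x y hxy)
    (hK : ∀ z : K, algebraMap K M z ∈ IntermediateField.adjoin F {x, y})
    {A₀ : ValuationSubring M} {ψ₀ : A₀ →+* AlgebraicClosure k}
    {E : IntermediateField k (AlgebraicClosure k)} (hE : FiniteDimensional k E)
    (h₀ : Sel.IsPlaceOf s E (RingHom.id _) A₀ ψ₀)
    (hA₀ : (∀ r : R, algebraMap K M r ∈ A₀) ∨ x ∉ A₀) : IsOnlyPlaceFin s A₀ ψ₀ := by
  have hM0 : CharZero M :=
    charZero_of_injective_algebraMap (algebraMap (AlgebraicClosure k) M).injective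
  obtain ⟨x', y', hxy', rfl⟩ : ∃ (x' y' : M) (h : (W⁄M).Nonsingular x' y'), T = some x' y' h := by
    rcases T with _ | ⟨x', y', h⟩
    · exfalso
      exact some_ne_zero hxy (hT.symm.trans (smul_zero _))
    · exact ⟨x', y', h, rfl⟩
  have H := half_of_two W hxy hxy' hT
  rw [IsScalarTower.algebraMap_apply F (AlgebraicClosure k) M,
    IsScalarTower.algebraMap_apply F (AlgebraicClosure k) M] at H
  have hD : 4 * (algebraMap F (AlgebraicClosure k) W.a₄) ^ 3 +
      27 * (algebraMap F (AlgebraicClosure k) W.a₆) ^ 2 ≠ 0 := by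
    have h1 : W.Δ ≠ 0 := W.isUnit_Δ.ne_zero
    rw [W.Δ_of_isShortNF] at h1
    intro h2
    apply h1
    have h3 : algebraMap F (AlgebraicClosure k) (-16 * (4 * W.a₄ ^ 3 + 27 * W.a₆ ^ 2)) = 0 := by
      rw [map_mul, map_add, map_mul, map_mul, map_pow, map_pow, map_ofNat, map_ofNat, h2, mul_zero]
    exact (_root_.map_eq_zero _).1 h3
  have hxt' : Transcendental (AlgebraicClosure k) x := fun h => hxt (IsAlgebraic.restrictScalars F h)
  have hK' : ∀ z : K, algebraMap K M z ∈
      IntermediateField.adjoin (AlgebraicClosure k) {x, y} := by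
    intro z
    have h1 : (IntermediateField.adjoin F {x, y} : IntermediateField F M) ≤
        (IntermediateField.adjoin (AlgebraicClosure k) {x, y}).restrictScalars F := by
      rw [IntermediateField.adjoin_le_iff]
      exact IntermediateField.subset_adjoin _ _
    exact h1 (hK z)
  obtain ⟨hO, hR⟩ := resOn_of_place h₀
  have hEo : IsOpen (E.fixingSubgroup : Set Gal(AlgebraicClosure k/k)) :=
    E.fixingSubgroup_isOpen
  have key : ∀ (Δ : Subgroup Gal(AlgebraicClosure k/k)),
      IsOpen (Δ : Set Gal(AlgebraicClosure k/k)) → ∀ (A₁ : ValuationSubring M)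
      (ψ₁ : A₁ →+* AlgebraicClosure k), IsOver A₁ ψ₁ → ResOn s A₁ ψ₁ Δ → A₁ = A₀ :=
    fun Δ hΔ A₁ ψ₁ h h' => unique_coreR htr R hfg hRn hunO hmaxO s hs hsec hD H hxt' hxR hK' hO
      E.fixingSubgroup hEo hR hA₀ h Δ hΔ h'
  exact only_of_uniq hsec hE h₀ fun Δ hΔ A₁ ψ₁ A₂ ψ₂ g1 g2 g3 g4 =>
    (key Δ hΔ A₁ ψ₁ g1 g3).trans (key Δ hΔ A₂ ψ₂ g2 g4).symm

end Pool.Agent.Lib.MP_2f3286_ag.UA
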