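import Pool.Agent.Lib.MP_2f3286_ag.UA.ZR4
import Pool.Agent.Lib.MP_2f3286_ag.UA.XG

/-!
# Unramified extensions closed under unramified radicals: unramified coverings

A copy of XG for extensions unramified over an affine curve and closed under the radicals which are
unramified over it.
-/

open WeierstrassCurve WeierstrassCurve.Affine WeierstrassCurve.Affine.Point
open IsDedekindDomain NumberField Polynomial
open Pool.Agent.Lib.MP_2f3286_ag

namespace Pool.Agent.Lib.MP_2f3286_ag.UA

universe u v

open scoped Classical in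
/-- a section of the fundamental group of an unramified covering of a curve whose function field is
contained in the function field of the elliptic curve has only one place -/
theorem one_onlyR {k : Type u} [Field k] [NumberField k]
    {F : Type v} [Field F] [NumberField F] [Algebra k F]
    [Algebra F (AlgebraicClosure k)] [IsScalarTower k F (AlgebraicClosure k)]
    (W : WeierstrassCurve F) [W.IsShortNF] [W.IsElliptic]
    {K : Type*} [Field K] [Algebra k K] (htr : Algebra.trdeg k K = 1)
    (R : Subalgebra k K)
    {M : Type*} [Field M] [Algebra K M] [IsGalois K M]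
    [Algebra (AlgebraicClosure k) M] [Algebra k M]
    [IsScalarTower k K M] [IsScalarTower k (AlgebraicClosure k) M]
    [Algebra F M] [IsScalarTower F (AlgebraicClosure k) M]
    (s : Gal(AlgebraicClosure k/k) →* Gal(M/K)) (hs : Continuous s)
    (hsec : ∀ σ a, s σ (algebraMap (AlgebraicClosure k) M a) =
      algebraMap (AlgebraicClosure k) M (σ a))
    {x y x₁ y₁ : M} (hxy : (W⁄M).Nonsingular x y) (h₁ : (W⁄M).Nonsingular x₁ y₁) {m : ℕ}
    {Q : (W⁄F).Point}
    (hmul : m • (some x₁ y₁ h₁ : (W⁄M).Point) = some x y hxy - Point.baseChange F M Q)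
    (hc : ∀ c : AlgebraicClosure k, x₁ ≠ algebraMap (AlgebraicClosure k) M c)
    (hx₁R : _root_.IsIntegral R x₁) {T : (W⁄M).Point} (hT : 2 • T = some x₁ y₁ h₁)
    {A₀ : ValuationSubring M} {ψ₀ : A₀ →+* AlgebraicClosure k}
    {E : IntermediateField k (AlgebraicClosure k)} (hE : FiniteDimensional k E)
    (h₀ : Sel.IsPlaceOf s E (RingHom.id _) A₀ ψ₀)
    (hA₀ : (∀ r : R, algebraMap K M r ∈ A₀) ∨ x₁ ∉ A₀)
    (K₁ : IntermediateField k K) (R₁ : Subalgebra k K₁) (hG : IsGalois K₁ M) (hfg : R₁.FG)
    (hRn : ∀ h : K₁, _root_.IsIntegral R₁ h → h ∈ R₁)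
    (hunO : Pt.IsUnramOver R₁ K₁ M (AlgebraicClosure k))
    (hmaxO : Pt.IsRadClosedOver R₁ M (AlgebraicClosure k))
    (hR : ∀ h : K, h ∈ R ↔ _root_.IsIntegral R₁ h)
    (hK : ∀ c : K₁, algebraMap K₁ M c ∈ IntermediateField.adjoin F {x, y}) :
    IsOnlyPlaceFin s A₀ ψ₀ := by
  have hfin : FiniteDimensional k F := FiniteDimensional.right ℚ k F
  have hFk : Algebra.IsAlgebraic F (AlgebraicClosure k) :=
    Algebra.IsAlgebraic.tower_top (K := k) F
  have hM0 : CharZero M := charZero_of_injective_algebraMap (algebraMap k M).injective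
  have hK0 : CharZero K := charZero_of_injective_algebraMap (algebraMap k K).injective
  have t1 : IsScalarTower k K₁ M := IsScalarTower.of_algebraMap_eq fun a => by
    rw [IsScalarTower.algebraMap_apply k K M]
    rfl
  have t2 : IsScalarTower K₁ K M := IsScalarTower.of_algebraMap_eq fun a => rfl
  have t3 : IsScalarTower R₁ K M := IsScalarTower.of_algebraMap_eq fun a => rfl
  have t4 : IsScalarTower k R₁ M := IsScalarTower.of_algebraMap_eq fun a => by
    rw [IsScalarTower.algebraMap_apply k K M]
    rfl
  -- `x₁` is transcendental and integral over `R₁`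
  have hx₁t : Transcendental (AlgebraicClosure k) x₁ := by
    intro h
    obtain ⟨c, hc'⟩ := minpoly.mem_range_of_degree_eq_one (AlgebraicClosure k) x₁
      (IsAlgClosed.degree_eq_one_of_irreducible (AlgebraicClosure k)
        (minpoly.irreducible h.isIntegral))
    exact hc c hc'.symm
  have hx₁F : Transcendental F x₁ := fun h => hx₁t (h.tower_top _)
  have hx₁k : Transcendental k x₁ := fun h => hx₁t (h.tower_top _)
  have hx₁R₁ : _root_.IsIntegral R₁ x₁ := by
    let f : R →+* integralClosure R₁ M :=
      ((algebraMap K M).comp R.val.toRingHom).codRestrict (integralClosure R₁ M) fun r => by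
        have h1 : _root_.IsIntegral R₁ (r : K) := (hR r).1 r.2
        exact h1.algebraMap
    have h2 : _root_.IsIntegral (integralClosure R₁ M) x₁ :=
      IsIntegral.map_of_comp_eq (T := integralClosure R₁ M) (U := M) f (RingHom.id M)
        (RingHom.ext fun _ => rfl) hx₁R
    exact isIntegral_trans x₁ h2
  have htr₁ : Algebra.trdeg k K₁ = 1 := by
    apply le_antisymm
    · rw [← htr]
      exact trdeg_le_of_injective K₁.val K₁.val.injective
    · rw [Cardinal.one_le_iff_ne_zero, trdeg_ne_zero_iff,
        Algebra.transcendental_iff_not_isAlgebraic]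
      intro h
      apply hx₁k
      have h1 : Algebra.IsAlgebraic k R₁ := by
        have : FaithfulSMul R₁ K₁ := inferInstance
        exact ⟨fun r => (isAlgebraic_algebraMap_iff (R := k) (S := R₁) (A := K₁)
          Subtype.val_injective).1 (h.isAlgebraic (r : K₁))⟩
      exact IsAlgebraic.restrictScalars k hx₁R₁.isAlgebraic
  have hle := adjoin_le_of_mul W hxy h₁ hmul
  exact only_place_ER W htr₁ R₁ hfg hRn hunO hmaxO ((resTo K₁).comp s) ((continuous_resTo K₁).comp hs) hsec
    h₁ hx₁F hx₁R₁ hT (fun c => hle (hK c)) hE h₀ (hA₀.imp_left fun h r => by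
      have h1 : (((r : K₁) : K)) ∈ R := (hR _).2 (isIntegral_algebraMap (R := R₁) (A := K) (x := r))
      exact h ⟨_, h1⟩)

end Pool.Agent.Lib.MP_2f3286_ag.UA
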