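import Pool.Agent.Lib.MP_2f3286_ag.UA.ZR7
import Pool.Agent.Lib.MP_2f3286_ag.UA.RX7
import Pool.Agent.Lib.MP_2f3286_ag.UA.R2

/-!
# Unramified extensions closed under unramified radicals: the theorem with arbitrary cusps

A copy of Q8 for extensions unramified over an affine curve and closed under the radicals which are
unramified over it.
-/

open WeierstrassCurve WeierstrassCurve.Affine WeierstrassCurve.Affine.Point
open IsDedekindDomain NumberField Polynomial
open Pool.Agent.Lib.MP_2f3286_ag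

namespace Pool.Agent.Lib.MP_2f3286_ag.UA

universe u v

section main

variable {k : Type u} [Field k] [NumberField k]
    {F : Type v} [Field F] [NumberField F] [Algebra k F]
    [Algebra F (AlgebraicClosure k)] [IsScalarTower k F (AlgebraicClosure k)]
    (W : WeierstrassCurve F) [W.IsShortNF] [W.IsElliptic] {p : ℕ}
    {K : Type*} [Field K] [Algebra k K]
    (R : Subalgebra k K)
    {M : Type*} [Field M] [Algebra K M] [IsGalois K M]
    [Algebra (AlgebraicClosure k) M] [Algebra k M]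
    [IsScalarTower k K M] [IsScalarTower k (AlgebraicClosure k) M]
    [Algebra F M] [IsScalarTower F (AlgebraicClosure k) M]
    (s : Gal(AlgebraicClosure k/k) →* Gal(M/K))

open scoped Classical in
/-- **Arbitrary cusps**: a section of the fundamental group of an unramified covering `U` of a curve whose
function field is contained in that of the elliptic curve, which has some place over each completion of
`F`, is the section of exactly one place, and this place lies on `U` if and only if one (every) local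
place does. -/
theorem one_covering_rad (hrk : ∀ Q : (W⁄F).Point, IsOfFinAddOrder Q) (hp : p.Prime) {j : ℕ}
    (hsha : ShaKilledByPow W p j) (htr : Algebra.trdeg k K = 1)
    (hfg : R.FG) (hRn : ∀ h : K, IsIntegral R h → h ∈ R)
    (hunO : Pt.IsUnramOver R K M (AlgebraicClosure k))
    (hrad : Pt.IsRadClosedOver R M (AlgebraicClosure k))
    (hs : Continuous s)
    (hsec : ∀ σ a, s σ (algebraMap (AlgebraicClosure k) M a) =
      algebraMap (AlgebraicClosure k) M (σ a))
    {x y : M} (hfix : ∀ σ : Gal(AlgebraicClosure k/k),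
      (∀ a : F, σ (algebraMap F _ a) = algebraMap F _ a) → s σ x = x ∧ s σ y = y)
    (hxy : (W⁄M).Nonsingular x y)
    (hc : ∀ c : AlgebraicClosure k, x ≠ algebraMap (AlgebraicClosure k) M c)
    (hon : OnE W p x (IsIntegral R))
    (hloc : ∀ w : HeightOneSpectrum (𝓞 F),
        ∃ (ι : AlgebraicClosure k →ₐ[F] AlgebraicClosure (w.adicCompletion F))
          (A : ValuationSubring M) (φ : A →+* AlgebraicClosure (w.adicCompletion F)),
          Sel.IsPlaceOf s (w.adicCompletion F)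
            (ι : _ →+* AlgebraicClosure (w.adicCompletion F)) A φ)
    (K₁ : IntermediateField k K) (R₁ : Subalgebra k K₁) (hG : IsGalois K₁ M) (hfg₁ : R₁.FG)
    (hRn₁ : ∀ h : K₁, IsIntegral R₁ h → h ∈ R₁)
    (hunO₁ : Pt.IsUnramOver R₁ K₁ M (AlgebraicClosure k))
    (hrad₁ : Pt.IsRadClosedOver R₁ M (AlgebraicClosure k))
    (hR : ∀ h : K, h ∈ R ↔ IsIntegral R₁ h)
    (hK : ∀ c : K₁, algebraMap K₁ M c ∈ IntermediateField.adjoin F {x, y}) :
    ∃ (A₀ : ValuationSubring M) (ψ₀ : A₀ →+* AlgebraicClosure k), IsOnlyPlaceFin s A₀ ψ₀ ∧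
      ∀ (w : HeightOneSpectrum (𝓞 F))
        (ι : AlgebraicClosure k →ₐ[F] AlgebraicClosure (w.adicCompletion F))
        (A : ValuationSubring M) (φ : A →+* AlgebraicClosure (w.adicCompletion F)),
        Sel.IsPlaceOf s (w.adicCompletion F)
          (ι : _ →+* AlgebraicClosure (w.adicCompletion F)) A φ →
        ((∀ r : R, algebraMap K M r ∈ A) ↔ ∀ r : R, algebraMap K M r ∈ A₀) := by
  have hFM : ∀ c : F, algebraMap F M c = algebraMap (AlgebraicClosure k) M (algebraMap F _ c) :=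
    fun c => IsScalarTower.algebraMap_apply F (AlgebraicClosure k) M c
  have hcF : ∀ {z : M}, (∀ c : AlgebraicClosure k, z ≠ algebraMap (AlgebraicClosure k) M c) →
      ∀ c : F, z ≠ algebraMap F M c := fun h c => by
    rw [hFM]
    exact h _
  have hw : Nonempty (HeightOneSpectrum (𝓞 F)) := HYP.nonempty_primes F
  have hFc : CharZero F := inferInstance
  have hdiv : ∀ n : ℕ, 1 ≤ n → ∀ P : (W⁄M).Point, ∃ T : (W⁄M).Point, n • T = P := fun n hn P =>
    exists_div_rad (kb := AlgebraicClosure k) htr R hrad W P n hn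
  have hdivp : ∀ P : (W⁄M).Point, ∃ T : (W⁄M).Point, p • T = P := hdiv p hp.one_le
  -- poles at all local places
  have hpole : ∀ (m : ℕ) (Q : (W⁄F).Point) (x₁ y₁ : M) (h₁ : (W⁄M).Nonsingular x₁ y₁) (g : F[X]),
      (∀ σ : Gal(AlgebraicClosure k/k),
        (∀ a : F, σ (algebraMap F _ a) = algebraMap F _ a) → s σ x₁ = x₁ ∧ s σ y₁ = y₁) →
      m • (some x₁ y₁ h₁ : (W⁄M).Point) = some x y hxy - Point.baseChange F M Q →
      (∀ c : AlgebraicClosure k, x₁ ≠ algebraMap (AlgebraicClosure k) M c) →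
      0 < g.natDegree → IsIntegral R x₁ → IsIntegral R (aeval x₁ g)⁻¹ →
      (∀ (w : HeightOneSpectrum (𝓞 F))
        (ι : AlgebraicClosure k →ₐ[F] AlgebraicClosure (w.adicCompletion F))
        (A : ValuationSubring M) (φ : A →+* AlgebraicClosure (w.adicCompletion F)),
        Sel.IsPlaceOf s (w.adicCompletion F)
          (ι : _ →+* AlgebraicClosure (w.adicCompletion F)) A φ → x₁ ∉ A) →
      ∃ (A₀ : ValuationSubring M) (ψ₀ : A₀ →+* AlgebraicClosure k), IsOnlyPlaceFin s A₀ ψ₀ ∧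
      ∀ (w : HeightOneSpectrum (𝓞 F))
        (ι : AlgebraicClosure k →ₐ[F] AlgebraicClosure (w.adicCompletion F))
        (A : ValuationSubring M) (φ : A →+* AlgebraicClosure (w.adicCompletion F)),
        Sel.IsPlaceOf s (w.adicCompletion F)
          (ι : _ →+* AlgebraicClosure (w.adicCompletion F)) A φ →
        ((∀ r : R, algebraMap K M r ∈ A) ↔ ∀ r : R, algebraMap K M r ∈ A₀) := by
    intro m Q x₁ y₁ h₁ g hfix₁ hmul hc₁ hgd hx₁R hgR hall
    obtain ⟨A₀, ψ₀, h1⟩ := Rad.geo_or_cusp (g := g) hgd.ne' htr R hfg hRn hunO hrad s hs hsec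
      (x := x₁) (fun σ hσ => (hfix₁ σ hσ).1) (hcF hc₁) ∅
      (fun z hz => absurd hz (Finset.notMem_empty z)) hx₁R hgR (fun w => by
        obtain ⟨ι, A, φ, h⟩ := hloc w
        exact ⟨ι, A, φ, h, fun h2 => absurd h2 (hall w ι A φ h)⟩) (Or.inr hall)
    have hnR : ∀ {A : ValuationSubring M}, x₁ ∉ A → ¬ ∀ r : R, algebraMap K M r ∈ A :=
      fun hA h => hA (Pt.PTAux.mem_of_isIntegral (R := R) h hx₁R)
    rcases h1 with ⟨g1, -, -, -, -, -, g6, -⟩ | ⟨g1, -, E, g3, g4⟩
    · exfalso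
      obtain ⟨w⟩ := hw
      obtain ⟨ι, A, φ, hA⟩ := hloc w
      exact hall w ι A φ hA (g6 w ι A φ hA).1
    · obtain ⟨T, hT⟩ := hdiv 2 one_le_two (some x₁ y₁ h₁)
      refine ⟨A₀, ψ₀, one_onlyR W htr R s hs hsec hxy h₁ hmul hc₁ hx₁R hT g3 g4 (Or.inr g1)
        K₁ R₁ hG hfg₁ hRn₁ hunO₁ hrad₁ hR hK, fun w ι A φ hA => ?_⟩
      exact iff_of_false (hnR (hall w ι A φ hA)) (hnR g1)
  obtain ⟨Q, x₁, y₁, h₁, g, hQ, hfix₁, hmul, hc₁, hgm, hgd, hx₁R, hgR, halt⟩ :=
    arith_rad W hrk hp hsha htr R s hs hsec hfix hxy (hcF hc) hrad hdivp hon.1 hon.2 hloc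
  rcases halt with ⟨e, -, hval⟩ | halt
  · by_cases hall : ∀ (w : HeightOneSpectrum (𝓞 F))
        (ι : AlgebraicClosure k →ₐ[F] AlgebraicClosure (w.adicCompletion F))
        (A : ValuationSubring M) (φ : A →+* AlgebraicClosure (w.adicCompletion F)),
        Sel.IsPlaceOf s (w.adicCompletion F)
          (ι : _ →+* AlgebraicClosure (w.adicCompletion F)) A φ →
        ∀ r : R, algebraMap K M r ∈ A
    · -- all local places are on `U`
      obtain ⟨A₀, ψ₀, ⟨g1, g2⟩, Q₁, x₂, y₂, h₂, -, -, hmul₂, hc₂, hx₂R, hA₀⟩ :=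
        Rad.one_curve W hrk hp hsha htr R hfg hRn hunO hrad (fun n => hdiv _ (Nat.one_le_pow _ _ hp.pos)) s hs hsec hfix hxy (hcF hc) hon fun w => by
          obtain ⟨ι, A, φ, hA⟩ := hloc w
          exact ⟨ι, A, φ, hA, fun _ => hall w ι A φ hA⟩
      obtain ⟨E, hE, hE'⟩ : ∃ E : IntermediateField k (AlgebraicClosure k),
          FiniteDimensional k E ∧ Sel.IsPlaceOf s E (RingHom.id _) A₀ ψ₀ := by
        rcases g1 with g1 | g1
        · exact exists_finite_of_section g1.2.1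
        · exact g1.2
      obtain ⟨T, hT⟩ := hdiv 2 one_le_two (some x₂ y₂ h₂)
      refine ⟨A₀, ψ₀, one_onlyR W htr R s hs hsec hxy h₂ hmul₂ hc₂ hx₂R hT hE hE' hA₀
        K₁ R₁ hG hfg₁ hRn₁ hunO₁ hrad₁ hR hK, fun w ι A φ hA => ?_⟩
      have h3 := hall w ι A φ hA
      have h4 : OnE W p x (· ∈ A) := ⟨Pt.PTAux.mem_of_isIntegral (R := R) h3 hon.1,
        fun c e h hm => Pt.PTAux.mem_of_isIntegral (R := R) h3 (hon.2 c e h hm)⟩
      refine iff_of_true h3 ?_
      rcases g1 with g1 | g1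
      · exact g1.1
      · exact absurd ((g2 w ι A φ hA).1 h4) g1.1
    · -- one local place is over a cusp
      push Not at hall
      obtain ⟨w, ι, A, φ, hA, r, hr⟩ := hall
      obtain ⟨m, Q₁, x₂, y₂, h₂, g₂, hfix₂, hmul₂, hc₂, hgd₂, hx₂R, hgR₂, hall₂⟩ :=
        exists_pole_rad W R s hrk hp hsha htr hrad hdivp hs hsec hloc hxy
          ⟨hfix, hc, hon, fun w ι A φ hA => (hval w ι A φ hA).2⟩ K₁ R₁ hR hK hA
          fun h => hr (h r)
      exact hpole m Q₁ x₂ y₂ h₂ g₂ hfix₂ hmul₂ hc₂ hgd₂ hx₂R hgR₂ hall₂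
  · exact hpole p Q x₁ y₁ h₁ g hfix₁ hmul hc₁ hgd hx₁R hgR halt

end main

end Pool.Agent.Lib.MP_2f3286_ag.UA
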